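import Mathlib

set_option autoImplicit false
set_option linter.all false

/-!
# A logical model of NC, perfect matchings, degrees, irregularity

First-order formulas over the ordered vertex set `0 < 1 < ... < n-1` of a graph, with relation
variables and an operator that iterates a definable relation `O(log n)` times.  Formulas can be
nested, so this is Immerman's class FO[(log n)^O(1)], which is NC.
-/

namespace Pool.Agent.PMNC

/-- values of the relation variables -/
abbrev Ctx (n : ℕ) := ℕ → List (Fin n) → Prop

/-- a relation on `r`-tuples as a relation on lists -/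
def lift {n r : ℕ} (R : (Fin r → Fin n) → Prop) : List (Fin n) → Prop :=
  fun l => ∃ u : Fin r → Fin n, l = List.ofFn u ∧ R u

/-- give the relation variable `0` the value `R`; the others are renumbered -/
def push {n : ℕ} (R : List (Fin n) → Prop) (X : Ctx n) : Ctx n
  | 0 => R
  | i + 1 => X i

/-- formulas with the free variables `0, ..., k-1` -/
inductive Fm : ℕ → Type
  | adj {k : ℕ} (i j : Fin k) : Fm k
  | lt {k : ℕ} (i j : Fin k) : Fm k
  | rel {k : ℕ} (s : ℕ) (l : List (Fin k)) : Fm k
  | neg {k : ℕ} (φ : Fm k) : Fm k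
  | and {k : ℕ} (φ ψ : Fm k) : Fm k
  | ex {k : ℕ} (φ : Fm (k + 1)) : Fm k
  | iter {k : ℕ} (r c : ℕ) (φ₀ φ : Fm (k + r)) (l : Fin r → Fin k) : Fm k

/-- truth value.  `iter r c φ₀ φ l`: start with the `r`-ary relation defined by `φ₀`, replace
`c * size n` times the relation `R` by the relation defined by `φ` (in which the relation
variable `0` stands for `R`), and take the value at `l`; `size n` is the number of binary digits
of `n`. -/
def Fm.eval {n : ℕ} (G : SimpleGraph (Fin n)) : {k : ℕ} → Fm k → Ctx n → (Fin k → Fin n) → Prop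
  | _, .adj i j, _, v => G.Adj (v i) (v j)
  | _, .lt i j, _, v => v i < v j
  | _, .rel s l, X, v => X s (l.map v)
  | _, .neg φ, X, v => ¬ φ.eval G X v
  | _, .and φ ψ, X, v => φ.eval G X v ∧ ψ.eval G X v
  | _, .ex φ, X, v => ∃ a : Fin n, φ.eval G X (Fin.snoc (α := fun _ => Fin n) v a)
  | _, .iter _ c φ₀ φ l, X, v =>
      ((fun R u => φ.eval G (push (lift R) X) (Fin.append v u))^[c * Nat.size n]
        (fun u => φ₀.eval G X (Fin.append v u))) (v ∘ l)

/-- the graph properties in NC -/
def InNC (P : ∀ n : ℕ, SimpleGraph (Fin n) → Prop) : Prop :=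
  ∃ φ : Fm 0, ∀ (n : ℕ) (G : SimpleGraph (Fin n)),
    P n G ↔ φ.eval G (fun _ _ => False) Fin.elim0

/-- `G` has a perfect matching -/
def HasPM {n : ℕ} (G : SimpleGraph (Fin n)) : Prop := ∃ M : G.Subgraph, M.IsPerfectMatching

/-- the degree -/
noncomputable def dg {α : Type*} (G : SimpleGraph α) (u : α) : ℕ := Nat.card {w // G.Adj u w}

open Classical in
/-- the irregularity -/
noncomputable def irr {α : Type*} [Fintype α] (G : SimpleGraph α) : ℝ :=
  ∑ u, ∑ v, if G.Adj u v then |1 / (dg G u : ℝ) - 1 / (dg G v : ℝ)| else 0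

end Pool.Agent.PMNC
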