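import Mathlib
import Pool.Agent.Lib.MP_0087d5_lc.Base

set_option autoImplicit false
set_option linter.all false

/-!
# Renaming of variables in formulas
-/

namespace Pool.Agent.PMNC

/-! ### renaming of variables and relation variables -/

/-- lift a renaming of relation variables under a binder -/
def liftRel (ρ : ℕ → ℕ) : ℕ → ℕ
  | 0 => 0
  | i + 1 => ρ i + 1

/-- lift a renaming of variables under a quantifier -/
def liftVar {k k' : ℕ} (σ : Fin k → Fin k') : Fin (k + 1) → Fin (k' + 1) :=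
  Fin.snoc (α := fun _ => Fin (k' + 1)) (Fin.castSucc ∘ σ) (Fin.last k')

/-- lift a renaming of variables under `iter` -/
def liftVars {k k' : ℕ} (r : ℕ) (σ : Fin k → Fin k') : Fin (k + r) → Fin (k' + r) :=
  Fin.append (Fin.castAdd r ∘ σ) (Fin.natAdd k')

def Fm.rename : {k k' : ℕ} → (Fin k → Fin k') → (ℕ → ℕ) → Fm k → Fm k'
  | _, _, σ, _, .adj i j => .adj (σ i) (σ j)
  | _, _, σ, _, .lt i j => .lt (σ i) (σ j)
  | _, _, σ, ρ, .rel s l => .rel (ρ s) (l.map σ)
  | _, _, σ, ρ, .neg φ => .neg (φ.rename σ ρ)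
  | _, _, σ, ρ, .and φ ψ => .and (φ.rename σ ρ) (ψ.rename σ ρ)
  | _, _, σ, ρ, .ex φ => .ex (φ.rename (liftVar σ) ρ)
  | _, _, σ, ρ, .iter r c φ₀ φ l =>
      .iter r c (φ₀.rename (liftVars r σ) ρ) (φ.rename (liftVars r σ) (liftRel ρ)) (σ ∘ l)

theorem push_liftRel {n : ℕ} (R : List (Fin n) → Prop) (X : Ctx n) (ρ : ℕ → ℕ) :
    (fun i => push R X (liftRel ρ i)) = push R (fun i => X (ρ i)) := by
  funext i; cases i <;> rfl

theorem snoc_liftVar {n k k' : ℕ} (σ : Fin k → Fin k') (v : Fin k' → Fin n) (a : Fin n) :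
    (Fin.snoc (α := fun _ => Fin n) v a : Fin (k' + 1) → Fin n) ∘ liftVar σ =
      Fin.snoc (α := fun _ => Fin n) (v ∘ σ) a := by
  funext i
  refine Fin.lastCases ?_ (fun j => ?_) i
  · simp [liftVar]
  · simp [liftVar]

theorem append_liftVars {n k k' r : ℕ} (σ : Fin k → Fin k') (v : Fin k' → Fin n)
    (u : Fin r → Fin n) :
    Fin.append v u ∘ liftVars r σ = Fin.append (v ∘ σ) u := by
  funext i
  refine Fin.addCases (fun j => ?_) (fun j => ?_) i
  · simp [liftVars]
  · simp [liftVars]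

theorem Fm.eval_rename {n : ℕ} (G : SimpleGraph (Fin n)) :
    ∀ {k : ℕ} (φ : Fm k) {k' : ℕ} (σ : Fin k → Fin k') (ρ : ℕ → ℕ) (X : Ctx n)
      (v : Fin k' → Fin n),
      (φ.rename σ ρ).eval G X v ↔ φ.eval G (fun i => X (ρ i)) (v ∘ σ)
  | _, .adj i j, _, σ, ρ, X, v => Iff.rfl
  | _, .lt i j, _, σ, ρ, X, v => Iff.rfl
  | _, .rel s l, _, σ, ρ, X, v => by simp [Fm.rename, Fm.eval]
  | _, .neg φ, _, σ, ρ, X, v => by
      simp only [Fm.rename, Fm.eval, Fm.eval_rename G φ σ ρ X v]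
  | _, .and φ ψ, _, σ, ρ, X, v => by
      simp only [Fm.rename, Fm.eval, Fm.eval_rename G φ σ ρ X v, Fm.eval_rename G ψ σ ρ X v]
  | _, .ex φ, _, σ, ρ, X, v => by
      simp only [Fm.rename, Fm.eval]
      refine exists_congr fun a => ?_
      rw [Fm.eval_rename G φ (liftVar σ) ρ X, snoc_liftVar]
  | _, .iter r c φ₀ φ l, _, σ, ρ, X, v => by
      simp only [Fm.rename, Fm.eval]
      have h0 : (fun u : Fin r → Fin n => (φ₀.rename (liftVars r σ) ρ).eval G X (Fin.append v u))
          = fun u => φ₀.eval G (fun i => X (ρ i)) (Fin.append (v ∘ σ) u) := by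
        funext u
        rw [Fm.eval_rename G φ₀ (liftVars r σ) ρ X, append_liftVars]
      have h1 : (fun (R : (Fin r → Fin n) → Prop) (u : Fin r → Fin n) =>
          (φ.rename (liftVars r σ) (liftRel ρ)).eval G (push (lift R) X) (Fin.append v u))
          = fun R u => φ.eval G (push (lift R) (fun i => X (ρ i))) (Fin.append (v ∘ σ) u) := by
        funext R u
        rw [Fm.eval_rename G φ (liftVars r σ) (liftRel ρ), append_liftVars, push_liftRel]
      rw [h0, h1]
      rfl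

end Pool.Agent.PMNC
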