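import Mathlib
import Pool.Agent.Lib.MP_0087d5_lc.Fm

set_option autoImplicit false
set_option linter.all false

/-!
# Definable predicates: closure properties

`Env E`: the type `E n` is (canonically) a power `Fin d → Fin n` with `d` independent of `n`.
`Tm f`: the map `f n : E n → F n` only rearranges coordinates.
`DefP P`: the predicate `P` on `E n` (which may depend on the graph and on the values of the
relation variables) is given by a formula.
-/

namespace Pool.Agent.PMNC

/-- types of tuples of vertices -/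
class Env (E : ℕ → Type) where
  dim : ℕ
  vec : ∀ n : ℕ, E n ≃ (Fin dim → Fin n)

export Env (dim vec)

instance : Env (fun n => Fin n) where
  dim := 1
  vec n := (Equiv.funUnique (Fin 1) (Fin n)).symm

instance : Env (fun _ => Unit) where
  dim := 0
  vec n := ⟨fun _ => Fin.elim0, fun _ => (), fun _ => rfl, fun f => by funext i; exact i.elim0⟩

instance {E F : ℕ → Type} [Env E] [Env F] : Env (fun n => E n × F n) where
  dim := dim E + dim F
  vec n := (Equiv.prodCongr (vec n) (vec n)).trans (Fin.appendEquiv (dim E) (dim F))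

instance {E : ℕ → Type} [Env E] (k : ℕ) : Env (fun n => Fin k → E n) where
  dim := k * dim E
  vec n := ((Equiv.arrowCongr (Equiv.refl (Fin k)) (vec n)).trans
    (Equiv.curry (Fin k) (Fin (dim E)) (Fin n)).symm).trans
    (Equiv.arrowCongr finProdFinEquiv (Equiv.refl _))

section basic
variable {E F H : ℕ → Type} [Env E] [Env F] [Env H]

theorem vec_pair {n : ℕ} (x : E n) (y : F n) :
    vec (E := fun n => E n × F n) n (x, y) = Fin.append (vec n x) (vec n y) := rfl

theorem vec_fin {n : ℕ} (a : Fin n) (i : Fin 1) : vec (E := fun n => Fin n) n a i = a := rfl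

theorem vec_pow {n k : ℕ} (f : Fin k → E n) (i : Fin (k * dim E)) :
    vec (E := fun n => Fin k → E n) n f i =
      vec n (f (finProdFinEquiv.symm i).1) (finProdFinEquiv.symm i).2 := rfl

/-- maps that rearrange coordinates -/
def Tm (f : ∀ n : ℕ, E n → F n) : Prop :=
  ∃ s : Fin (dim F) → Fin (dim E), ∀ n x, vec n (f n x) = vec n x ∘ s

theorem Tm.id : Tm (fun n (x : E n) => x) := ⟨_root_.id, fun _ _ => rfl⟩

theorem Tm.comp {g : ∀ n : ℕ, F n → H n} {f : ∀ n : ℕ, E n → F n} (hg : Tm g) (hf : Tm f) :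
    Tm (fun n x => g n (f n x)) := by
  obtain ⟨s, hs⟩ := hg
  obtain ⟨t, ht⟩ := hf
  exact ⟨t ∘ s, fun n x => by rw [hs, ht]; rfl⟩

theorem Tm.fst {f : ∀ n : ℕ, E n → F n × H n} (hf : Tm (F := fun n => F n × H n) f) :
    Tm (fun n x => (f n x).1) := by
  refine Tm.comp (F := fun n => F n × H n) (g := fun n x => x.1) (f := f)
    ⟨Fin.castAdd _, fun n x => ?_⟩ hf
  funext i
  change _ = Fin.append (vec n x.1) (vec n x.2) (Fin.castAdd _ i)
  simp

theorem Tm.snd {f : ∀ n : ℕ, E n → F n × H n} (hf : Tm (F := fun n => F n × H n) f) :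
    Tm (fun n x => (f n x).2) := by
  refine Tm.comp (F := fun n => F n × H n) (g := fun n x => x.2) (f := f)
    ⟨Fin.natAdd _, fun n x => ?_⟩ hf
  funext i
  change _ = Fin.append (vec n x.1) (vec n x.2) (Fin.natAdd _ i)
  simp

theorem Tm.pair {f : ∀ n : ℕ, E n → F n} {g : ∀ n : ℕ, E n → H n} (hf : Tm f) (hg : Tm g) :
    Tm (F := fun n => F n × H n) (fun n x => (f n x, g n x)) := by
  obtain ⟨s, hs⟩ := hf
  obtain ⟨t, ht⟩ := hg
  refine ⟨Fin.append s t, fun n x => ?_⟩
  funext i
  change Fin.append (vec n (f n x)) (vec n (g n x)) i = _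
  refine Fin.addCases (fun j => ?_) (fun j => ?_) i
  · simp [hs]
  · simp [ht]

theorem Tm.unit : Tm (F := fun _ => Unit) (fun n (_ : E n) => ()) :=
  ⟨Fin.elim0, fun n x => by funext i; exact Fin.elim0 i⟩

theorem Tm.app {k : ℕ} {f : ∀ n : ℕ, E n → Fin k → F n} (hf : Tm (F := fun n => Fin k → F n) f)
    (i : Fin k) : Tm (fun n x => f n x i) := by
  refine Tm.comp (F := fun n => Fin k → F n) (g := fun n x => x i) (f := f)
    ⟨fun j => finProdFinEquiv (i, j), fun n x => ?_⟩ hf
  funext j
  rw [Function.comp_apply, vec_pow]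
  simp

theorem Tm.lam {k : ℕ} {f : ∀ n : ℕ, E n → Fin k → F n} (hf : ∀ i, Tm (fun n x => f n x i)) :
    Tm (F := fun n => Fin k → F n) f := by
  choose s hs using hf
  refine ⟨fun j => s (finProdFinEquiv.symm j).1 (finProdFinEquiv.symm j).2, fun n x => ?_⟩
  funext j
  rw [Function.comp_apply, vec_pow]
  exact congrFun (hs (finProdFinEquiv.symm j).1 n x) _

/-! ### definable predicates -/

/-- the predicate `P` is given by a formula -/
def DefP (P : ∀ n : ℕ, SimpleGraph (Fin n) → Ctx n → E n → Prop) : Prop :=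
  ∃ φ : Fm (dim E), ∀ n G X x, φ.eval G X (vec n x) ↔ P n G X x

theorem DefP.congr {P Q : ∀ n : ℕ, SimpleGraph (Fin n) → Ctx n → E n → Prop} (hP : DefP P)
    (h : ∀ n G X x, P n G X x ↔ Q n G X x) : DefP Q := by
  obtain ⟨φ, hφ⟩ := hP
  exact ⟨φ, fun n G X x => (hφ n G X x).trans (h n G X x)⟩

/-- substitution of terms -/
theorem DefP.comp {P : ∀ n : ℕ, SimpleGraph (Fin n) → Ctx n → F n → Prop} (hP : DefP P)
    {f : ∀ n : ℕ, E n → F n} (hf : Tm f) : DefP (fun n G X x => P n G X (f n x)) := by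
  obtain ⟨φ, hφ⟩ := hP
  obtain ⟨s, hs⟩ := hf
  refine ⟨φ.rename s _root_.id, fun n G X x => ?_⟩
  change _ ↔ P n G X (f n x)
  rw [Fm.eval_rename, ← hφ, hs]
  rfl

/-- change of the numbering of the relation variables -/
theorem DefP.ctx {P : ∀ n : ℕ, SimpleGraph (Fin n) → Ctx n → E n → Prop} (hP : DefP P)
    (ρ : ℕ → ℕ) : DefP (fun n G X x => P n G (fun i => X (ρ i)) x) := by
  obtain ⟨φ, hφ⟩ := hP
  refine ⟨φ.rename _root_.id ρ, fun n G X x => ?_⟩
  change _ ↔ P n G (fun i => X (ρ i)) x
  rw [Fm.eval_rename, ← hφ]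
  rfl

theorem DefP.adj {f g : ∀ n : ℕ, E n → Fin n} (hf : Tm (F := fun n => Fin n) f)
    (hg : Tm (F := fun n => Fin n) g) : DefP (fun n G X x => G.Adj (f n x) (g n x)) := by
  refine DefP.comp (P := fun n G X (x : Fin n × Fin n) => G.Adj x.1 x.2)
    (F := fun n => Fin n × Fin n) ⟨.adj (0 : Fin 2) (1 : Fin 2), fun n G X x => Iff.rfl⟩
    (Tm.pair (F := fun n => Fin n) (H := fun n => Fin n) hf hg)

theorem DefP.lt {f g : ∀ n : ℕ, E n → Fin n} (hf : Tm (F := fun n => Fin n) f)
    (hg : Tm (F := fun n => Fin n) g) : DefP (fun n G X x => f n x < g n x) := by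
  refine DefP.comp (P := fun n G X (x : Fin n × Fin n) => x.1 < x.2)
    (F := fun n => Fin n × Fin n) ⟨.lt (0 : Fin 2) (1 : Fin 2), fun n G X x => Iff.rfl⟩
    (Tm.pair (F := fun n => Fin n) (H := fun n => Fin n) hf hg)

theorem DefP.not {P : ∀ n : ℕ, SimpleGraph (Fin n) → Ctx n → E n → Prop} (hP : DefP P) :
    DefP (fun n G X x => ¬ P n G X x) := by
  obtain ⟨φ, hφ⟩ := hP
  exact ⟨φ.neg, fun n G X x => not_congr (hφ n G X x)⟩

theorem DefP.and {P Q : ∀ n : ℕ, SimpleGraph (Fin n) → Ctx n → E n → Prop} (hP : DefP P)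
    (hQ : DefP Q) : DefP (fun n G X x => P n G X x ∧ Q n G X x) := by
  obtain ⟨φ, hφ⟩ := hP
  obtain ⟨ψ, hψ⟩ := hQ
  exact ⟨φ.and ψ, fun n G X x => and_congr (hφ n G X x) (hψ n G X x)⟩

theorem DefP.or {P Q : ∀ n : ℕ, SimpleGraph (Fin n) → Ctx n → E n → Prop} (hP : DefP P)
    (hQ : DefP Q) : DefP (fun n G X x => P n G X x ∨ Q n G X x) :=
  (hP.not.and hQ.not).not.congr fun n G X x => by tauto

theorem DefP.imp {P Q : ∀ n : ℕ, SimpleGraph (Fin n) → Ctx n → E n → Prop} (hP : DefP P)
    (hQ : DefP Q) : DefP (fun n G X x => P n G X x → Q n G X x) :=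
  (hP.and hQ.not).not.congr fun n G X x => by tauto

theorem DefP.iff {P Q : ∀ n : ℕ, SimpleGraph (Fin n) → Ctx n → E n → Prop} (hP : DefP P)
    (hQ : DefP Q) : DefP (fun n G X x => (P n G X x ↔ Q n G X x)) :=
  ((hP.imp hQ).and (hQ.imp hP)).congr fun n G X x => by tauto

end basic

/-- existential quantification of the last `r` variables -/
def Fm.exs {k : ℕ} : (r : ℕ) → Fm (k + r) → Fm k
  | 0, φ => φ
  | r + 1, φ => Fm.exs r (Fm.ex φ)

theorem Fm.eval_exs {n k : ℕ} (G : SimpleGraph (Fin n)) (X : Ctx n) (v : Fin k → Fin n) :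
    ∀ (r : ℕ) (φ : Fm (k + r)), (Fm.exs r φ).eval G X v ↔
      ∃ u : Fin r → Fin n, φ.eval G X (Fin.append v u)
  | 0, φ => by
      have : ∀ u : Fin 0 → Fin n, Fin.append v u = v := by
        intro u
        rw [Subsingleton.elim u Fin.elim0]
        exact Fin.append_elim0 v
      simp only [Fm.exs, this]
      exact ⟨fun h => ⟨Fin.elim0, h⟩, fun ⟨_, h⟩ => h⟩
  | r + 1, φ => by
      rw [Fm.exs, Fm.eval_exs G X v r]
      simp only [Fm.eval]
      constructor
      · rintro ⟨u, a, h⟩
        refine ⟨Fin.snoc (α := fun _ => Fin n) u a, ?_⟩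
        rw [Fin.append_snoc]
        exact h
      · rintro ⟨u, h⟩
        refine ⟨Fin.init u, u (Fin.last r), ?_⟩
        have : Fin.append v u = Fin.snoc (α := fun _ => Fin n)
            (Fin.append v (Fin.init (α := fun _ => Fin n) u)) (u (Fin.last r)) := by
          rw [← Fin.append_snoc]
          congr 1
          exact (Fin.snoc_init_self u).symm
        rw [← this]
        exact h

section quant
variable {E F : ℕ → Type} [Env E] [Env F]

theorem DefP.ex {P : ∀ n : ℕ, SimpleGraph (Fin n) → Ctx n → E n → F n → Prop}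
    (hP : DefP (E := fun n => E n × F n) (fun n G X y => P n G X y.1 y.2)) :
    DefP (fun n G X x => ∃ a : F n, P n G X x a) := by
  obtain ⟨φ, hφ⟩ := hP
  refine ⟨Fm.exs (dim F) φ, fun n G X x => ?_⟩
  rw [Fm.eval_exs]
  constructor
  · rintro ⟨u, h⟩
    refine ⟨(vec n).symm u, ?_⟩
    have := (hφ n G X (x, (vec n).symm u)).1
    rw [vec_pair] at this
    simp only [Equiv.apply_symm_apply] at this
    exact this h
  · rintro ⟨a, h⟩
    refine ⟨vec n a, ?_⟩
    have := (hφ n G X (x, a)).2 h
    rwa [vec_pair] at this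

theorem DefP.all {P : ∀ n : ℕ, SimpleGraph (Fin n) → Ctx n → E n → F n → Prop}
    (hP : DefP (E := fun n => E n × F n) (fun n G X y => P n G X y.1 y.2)) :
    DefP (fun n G X x => ∀ a : F n, P n G X x a) :=
  (DefP.ex (P := fun n G X x a => ¬ P n G X x a) hP.not).not.congr fun n G X x => by
    simp

theorem DefP.exFin {P : ∀ n : ℕ, SimpleGraph (Fin n) → Ctx n → E n → Fin n → Prop}
    (hP : DefP (E := fun n => E n × Fin n) (fun n G X y => P n G X y.1 y.2)) :
    DefP (fun n G X x => ∃ a : Fin n, P n G X x a) := DefP.ex (F := fun n => Fin n) hP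

theorem DefP.allFin {P : ∀ n : ℕ, SimpleGraph (Fin n) → Ctx n → E n → Fin n → Prop}
    (hP : DefP (E := fun n => E n × Fin n) (fun n G X y => P n G X y.1 y.2)) :
    DefP (fun n G X x => ∀ a : Fin n, P n G X x a) := DefP.all (F := fun n => Fin n) hP

theorem DefP.eqFin {f g : ∀ n : ℕ, E n → Fin n} (hf : Tm (F := fun n => Fin n) f)
    (hg : Tm (F := fun n => Fin n) g) : DefP (fun n G X x => f n x = g n x) :=
  ((DefP.lt hf hg).not.and (DefP.lt hg hf).not).congr fun n G X x => by
    rw [not_lt, not_lt]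
    exact ⟨fun h => le_antisymm h.2 h.1, fun h => ⟨h.ge, h.le⟩⟩

theorem DefP.le {f g : ∀ n : ℕ, E n → Fin n} (hf : Tm (F := fun n => Fin n) f)
    (hg : Tm (F := fun n => Fin n) g) : DefP (fun n G X x => f n x ≤ g n x) :=
  (DefP.lt hg hf).not.congr fun n G X x => not_lt

theorem DefP.false : DefP (fun n G X (_ : E n) => False) := by
  refine DefP.congr (P := fun n G X (x : E n) => ∃ a : Fin n, a < a) ?_ ?_
  · exact DefP.exFin (P := fun n G X (x : E n) (a : Fin n) => a < a)
      (DefP.lt (Tm.snd (F := E) (H := fun n => Fin n) Tm.id)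
        (Tm.snd (F := E) (H := fun n => Fin n) Tm.id))
  · intro n G X x; simp

theorem DefP.true : DefP (fun n G X (_ : E n) => True) :=
  DefP.false.not.congr fun n G X x => by simp

theorem DefP.const (p : Prop) : DefP (fun n G X (_ : E n) => p) := by
  by_cases h : p
  · exact DefP.true.congr fun n G X x => by simp [h]
  · exact DefP.false.congr fun n G X x => by simp [h]

/-- conjunction over a finite type independent of `n` -/
theorem DefP.forallFintype {κ : Type} [Finite κ]
    {P : κ → ∀ n : ℕ, SimpleGraph (Fin n) → Ctx n → E n → Prop} (hP : ∀ i, DefP (P i)) :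
    DefP (fun n G X x => ∀ i, P i n G X x) := by
  have key : ∀ m : ℕ, ∀ P : Fin m → ∀ n : ℕ, SimpleGraph (Fin n) → Ctx n → E n → Prop,
      (∀ i, DefP (P i)) → DefP (fun n G X x => ∀ i, P i n G X x) := by
    intro m
    induction m with
    | zero => intro P _; exact DefP.true.congr fun n G X x => by simp
    | succ m ih =>
      intro P hP
      refine ((hP 0).and (ih (fun i => P i.succ) fun i => hP i.succ)).congr fun n G X x => ?_
      rw [Fin.forall_fin_succ]
  obtain ⟨m, ⟨e⟩⟩ := Finite.exists_equiv_fin κ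
  refine (key m (fun i => P (e.symm i)) fun i => hP _).congr fun n G X x => ?_
  exact ⟨fun h i => by simpa using h (e i), fun h i => h _⟩

theorem DefP.existsFintype {κ : Type} [Finite κ]
    {P : κ → ∀ n : ℕ, SimpleGraph (Fin n) → Ctx n → E n → Prop} (hP : ∀ i, DefP (P i)) :
    DefP (fun n G X x => ∃ i, P i n G X x) :=
  (DefP.forallFintype fun i => (hP i).not).not.congr fun n G X x => by simp

/-- equality of tuples -/
theorem DefP.eq {f g : ∀ n : ℕ, E n → F n} (hf : Tm f) (hg : Tm g) :
    DefP (fun n G X x => f n x = g n x) := by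
  obtain ⟨s, hs⟩ := hf
  obtain ⟨t, ht⟩ := hg
  refine DefP.congr (P := fun n G X x => ∀ i : Fin (dim F), vec n x (s i) = vec n x (t i)) ?_ ?_
  · refine DefP.forallFintype fun i => ?_
    refine DefP.congr (P := fun n G X (x : E n) => ¬ (vec n x (s i) < vec n x (t i)) ∧
      ¬ (vec n x (t i) < vec n x (s i))) ?_ ?_
    · exact ⟨.and (.neg (.lt (s i) (t i))) (.neg (.lt (t i) (s i))), fun n G X x => Iff.rfl⟩
    · intro n G X x
      rw [not_lt, not_lt]
      exact ⟨fun h => le_antisymm h.2 h.1, fun h => ⟨h.ge, h.le⟩⟩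
  · intro n G X x
    rw [← (vec (E := F) n).apply_eq_iff_eq, hs, ht, funext_iff]
    rfl

end quant

/-! ### relation variables and iteration -/

/-- the list of coordinates -/
def code {S : ℕ → Type} [Env S] {n : ℕ} (s : S n) : List (Fin n) := List.ofFn (vec n s)

section iter
variable {E S : ℕ → Type} [Env E] [Env S]

/-- the value of the relation variable `i` at a tuple -/
def rv {n : ℕ} (X : Ctx n) (i : ℕ) (s : S n) : Prop := X i (code s)

theorem DefP.rv (i : ℕ) {f : ∀ n : ℕ, E n → S n} (hf : Tm f) :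
    DefP (fun n G X x => PMNC.rv X i (f n x)) := by
  refine DefP.comp (P := fun n G X (s : S n) => PMNC.rv X i s)
    ⟨.rel i (List.ofFn _root_.id), fun n G X x => ?_⟩ hf
  simp only [Fm.eval, PMNC.rv, code]
  rw [List.map_ofFn]
  rfl

/-- forget the relation variable `0` -/
def pop {n : ℕ} (X : Ctx n) : Ctx n := fun i => X (i + 1)

theorem DefP.pop {P : ∀ n : ℕ, SimpleGraph (Fin n) → Ctx n → E n → Prop} (hP : DefP P) :
    DefP (fun n G X x => P n G (PMNC.pop X) x) := hP.ctx (fun i => i + 1)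

theorem rv_push_lift {n : ℕ} (R : S n → Prop) (X : Ctx n) (s : S n) :
    PMNC.rv (push (lift (fun u => R ((vec n).symm u))) X) 0 s ↔ R s := by
  simp only [PMNC.rv, push, lift, code]
  constructor
  · rintro ⟨u, h, hR⟩
    have := List.ofFn_injective h
    subst this
    simpa using hR
  · intro h
    exact ⟨vec n s, rfl, by simpa using h⟩

theorem pop_push {n : ℕ} (R : List (Fin n) → Prop) (X : Ctx n) : PMNC.pop (push R X) = X := rfl

theorem iterate_conj {α β : Type} (e : α ≃ β) (Φ : (α → Prop) → α → Prop)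
    (Ψ : (β → Prop) → β → Prop) (h : ∀ R u, Ψ R u ↔ Φ (fun a => R (e a)) (e.symm u))
    (m : ℕ) (R₀ : β → Prop) (u : β) :
    (Ψ^[m] R₀) u ↔ (Φ^[m] (fun a => R₀ (e a))) (e.symm u) := by
  induction m generalizing R₀ with
  | zero => simp
  | succ m ih =>
    rw [Function.iterate_succ_apply, Function.iterate_succ_apply, ih]
    have : (fun a => Ψ R₀ (e a)) = Φ (fun a => R₀ (e a)) := by
      funext a
      exact propext ((h R₀ (e a)).trans (by simp))
    rw [this]

/-- iteration `c * size n` times -/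
theorem DefP.iter (c : ℕ) {I : ∀ n : ℕ, SimpleGraph (Fin n) → Ctx n → E n → S n → Prop}
    {Φ : ∀ n : ℕ, SimpleGraph (Fin n) → Ctx n → E n → (S n → Prop) → S n → Prop}
    (hI : DefP (E := fun n => E n × S n) (fun n G X y => I n G X y.1 y.2))
    (hΦ : DefP (E := fun n => E n × S n)
      (fun n G X y => Φ n G (PMNC.pop X) y.1 (fun s => PMNC.rv X 0 s) y.2)) :
    DefP (E := fun n => E n × S n)
      (fun n G X y => ((Φ n G X y.1)^[c * Nat.size n] (I n G X y.1)) y.2) := by
  obtain ⟨φ₀, h₀⟩ := hI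
  obtain ⟨φ, hφ⟩ := hΦ
  let σ : Fin (dim E + dim S) → Fin ((dim E + dim S) + dim S) :=
    Fin.append (Fin.castAdd _ ∘ Fin.castAdd _) (Fin.natAdd _)
  refine ⟨.iter (dim S) c (φ₀.rename σ _root_.id) (φ.rename σ _root_.id) (Fin.natAdd _),
    fun n G X y => ?_⟩
  obtain ⟨x, s⟩ := y
  simp only [Fm.eval]
  have hσ : ∀ u : Fin (dim S) → Fin n,
      Fin.append (vec (E := fun n => E n × S n) n (x, s)) u ∘ σ =
        vec (E := fun n => E n × S n) n (x, (vec n).symm u) := by
    intro u
    rw [vec_pair, vec_pair]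
    funext i
    refine Fin.addCases (fun j => ?_) (fun j => ?_) i
    · simp [σ]
    · simp only [σ, Function.comp_apply, Fin.append_right, Equiv.apply_symm_apply]
      exact Fin.append_right _ _ j
  have hs : vec (E := fun n => E n × S n) n (x, s) ∘ Fin.natAdd (dim E) = vec n s := by
    rw [vec_pair]
    funext i
    simp
  rw [hs]
  have := iterate_conj (vec (E := S) n) (Φ n G X x)
    (fun R u => (φ.rename σ _root_.id).eval G (push (lift R) X)
      (Fin.append (vec (E := fun n => E n × S n) n (x, s)) u)) (fun R u => ?_)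
    (c * Nat.size n)
    (fun u => (φ₀.rename σ _root_.id).eval G X
      (Fin.append (vec (E := fun n => E n × S n) n (x, s)) u)) (vec n s)
  · rw [this]
    have h1 : (fun a : S n => (φ₀.rename σ _root_.id).eval G X
        (Fin.append (vec (E := fun n => E n × S n) n (x, s)) (vec n a))) = I n G X x := by
      funext a
      rw [Fm.eval_rename, hσ]
      simp only [Equiv.symm_apply_apply]
      exact propext (h₀ n G X (x, a))
    rw [h1]
    simp
  · rw [Fm.eval_rename, hσ]
    change φ.eval G (push (lift R) X) _ ↔ _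
    rw [hφ]
    change Φ n G X x (fun s => PMNC.rv (push (lift R) X) 0 s) ((vec n).symm u) ↔ _
    have h2 : (fun s : S n => PMNC.rv (push (lift R) X) 0 s) = fun a => R (vec n a) := by
      funext a
      have := rv_push_lift (S := S) (fun a => R (vec n a)) X a
      simp only [Equiv.apply_symm_apply] at this
      exact propext this
    rw [h2]

end iter

end Pool.Agent.PMNC
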