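import Mathlib
import Pool.Agent.Lib.MP_0087d5_lc.Def

set_option autoImplicit false
set_option linter.all false

/-!
# Composition of definable relations

-/

namespace Pool.Agent.PMNC




section app
variable {E F H K L : ℕ → Type} [Env E] [Env F] [Env H] [Env K] [Env L]

theorem DefP.app2 {P : ∀ n : ℕ, SimpleGraph (Fin n) → Ctx n → F n → H n → Prop}
    (hP : DefP (E := fun n => F n × H n) (fun n G X y => P n G X y.1 y.2))
    {f : ∀ n : ℕ, E n → F n} {g : ∀ n : ℕ, E n → H n} (hf : Tm f) (hg : Tm g) :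
    DefP (fun n G X x => P n G X (f n x) (g n x)) :=
  DefP.comp (F := fun n => F n × H n) hP (f := fun n x => (f n x, g n x)) (hf.pair hg)

theorem DefP.app3 {P : ∀ n : ℕ, SimpleGraph (Fin n) → Ctx n → F n → H n → K n → Prop}
    (hP : DefP (E := fun n => F n × (H n × K n)) (fun n G X y => P n G X y.1 y.2.1 y.2.2))
    {f : ∀ n : ℕ, E n → F n} {g : ∀ n : ℕ, E n → H n} {h : ∀ n : ℕ, E n → K n}
    (hf : Tm f) (hg : Tm g) (hh : Tm h) :
    DefP (fun n G X x => P n G X (f n x) (g n x) (h n x)) :=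
  DefP.comp (F := fun n => F n × (H n × K n)) hP (f := fun n x => (f n x, g n x, h n x))
    (hf.pair (hg.pair hh))

theorem DefP.app3' {P : ∀ n : ℕ, SimpleGraph (Fin n) → Ctx n → F n → H n → K n → Prop}
    (hP : DefP (E := fun n => (F n × H n) × K n) (fun n G X y => P n G X y.1.1 y.1.2 y.2))
    {f : ∀ n : ℕ, E n → F n} {g : ∀ n : ℕ, E n → H n} {h : ∀ n : ℕ, E n → K n}
    (hf : Tm f) (hg : Tm g) (hh : Tm h) :
    DefP (fun n G X x => P n G X (f n x) (g n x) (h n x)) :=
  DefP.comp (F := fun n => (F n × H n) × K n) hP (f := fun n x => ((f n x, g n x), h n x))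
    ((hf.pair hg).pair hh)

theorem DefP.app4 {P : ∀ n : ℕ, SimpleGraph (Fin n) → Ctx n → F n → H n → K n → L n → Prop}
    (hP : DefP (E := fun n => F n × (H n × (K n × L n)))
      (fun n G X y => P n G X y.1 y.2.1 y.2.2.1 y.2.2.2))
    {f : ∀ n : ℕ, E n → F n} {g : ∀ n : ℕ, E n → H n} {h : ∀ n : ℕ, E n → K n}
    {k : ∀ n : ℕ, E n → L n}
    (hf : Tm f) (hg : Tm g) (hh : Tm h) (hk : Tm k) :
    DefP (fun n G X x => P n G X (f n x) (g n x) (h n x) (k n x)) :=
  DefP.comp (F := fun n => F n × (H n × (K n × L n))) hP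
    (f := fun n x => (f n x, g n x, h n x, k n x))
    (hf.pair (hg.pair (hh.pair hk)))

end app



end Pool.Agent.PMNC
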