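import Mathlib
import Pool.Agent.Lib.MP_0087d5_lc.Tac

set_option autoImplicit false
set_option linter.all false

/-!
# Reflexive transitive closure is definable
-/

namespace Pool.Agent.PMNC

/-! ### paths of bounded length -/

/-- there is a path of length at most `k` from `a` to `b` -/
def reach {α : Type*} (R : α → α → Prop) : ℕ → α → α → Prop
  | 0, a, b => a = b
  | k + 1, a, b => reach R k a b ∨ ∃ c, reach R k a c ∧ R c b

theorem reach_succ {α : Type*} {R : α → α → Prop} {k : ℕ} {a b : α} :
    reach R (k + 1) a b ↔ (reach R k a b ∨ ∃ c, reach R k a c ∧ R c b) := Iff.rfl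

theorem reach_mono {α : Type*} {R : α → α → Prop} {k l : ℕ} (h : k ≤ l) {a b : α}
    (hr : reach R k a b) : reach R l a b := by
  induction h with
  | refl => exact hr
  | step _ ih => exact Or.inl ih

theorem reach_add {α : Type*} {R : α → α → Prop} (k l : ℕ) (a b : α) :
    reach R (k + l) a b ↔ ∃ w, reach R k a w ∧ reach R l w b := by
  induction l generalizing b with
  | zero => exact ⟨fun h => ⟨b, h, rfl⟩, fun ⟨w, h, e⟩ => e ▸ h⟩
  | succ l ih =>
    rw [← Nat.add_assoc, reach_succ, ih]
    constructor
    · rintro (⟨w, h1, h2⟩ | ⟨c, h, hc⟩)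
      · exact ⟨w, h1, Or.inl h2⟩
      · obtain ⟨w, h1, h2⟩ := (ih c).1 h
        exact ⟨w, h1, Or.inr ⟨c, h2, hc⟩⟩
    · rintro ⟨w, h1, (h2 | ⟨c, h2, hc⟩)⟩
      · exact Or.inl ⟨w, h1, h2⟩
      · exact Or.inr ⟨c, (ih c).2 ⟨w, h1, h2⟩, hc⟩

theorem reach_rtg {α : Type*} {R : α → α → Prop} {k : ℕ} {a b : α} (h : reach R k a b) :
    Relation.ReflTransGen R a b := by
  induction k generalizing b with
  | zero => cases h; exact .refl
  | succ k ih =>
    rcases h with h | ⟨c, h, hc⟩
    · exact ih h
    · exact (ih h).tail hc

theorem reach_stable {α : Type*} {R : α → α → Prop} {k : ℕ} {a : α}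
    (h : ∀ b, reach R (k + 1) a b → reach R k a b) (l : ℕ) (b : α) (hb : reach R l a b) :
    reach R k a b := by
  induction l generalizing b with
  | zero => exact reach_mono (Nat.zero_le k) hb
  | succ l ih =>
    rcases hb with hb | ⟨c, hb, hc⟩
    · exact ih b hb
    · exact h b (Or.inr ⟨c, ih c hb, hc⟩)

theorem reach_card {α : Type*} [Finite α] {R : α → α → Prop} {a b : α}
    (h : Relation.ReflTransGen R a b) : reach R (Nat.card α) a b := by
  classical
  have hex : ∃ l, reach R l a b := by
    induction h with
    | refl => exact ⟨0, rfl⟩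
    | tail _ hc ih =>
      obtain ⟨l, hl⟩ := ih
      exact ⟨l + 1, Or.inr ⟨_, hl, hc⟩⟩
  obtain ⟨l, hl⟩ := hex
  by_contra hcon
  have hns : ∀ k ≤ Nat.card α, ∃ b, reach R (k + 1) a b ∧ ¬ reach R k a b := by
    intro k hk
    by_contra hc
    push Not at hc
    exact hcon (reach_mono hk (reach_stable hc l b hl))
  have hcard : ∀ k ≤ Nat.card α + 1, k + 1 ≤ {b | reach R k a b}.ncard := by
    intro k
    induction k with
    | zero =>
      intro _
      have : {b | reach R 0 a b} = {a} := by ext x; exact eq_comm
      rw [this, Set.ncard_singleton]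
    | succ k ih =>
      intro hk
      obtain ⟨c, hc1, hc2⟩ := hns k (by omega)
      have : {b | reach R k a b}.ncard < {b | reach R (k + 1) a b}.ncard := by
        apply Set.ncard_lt_ncard
        · refine ⟨fun x hx => Or.inl hx, fun hsub => hc2 (hsub hc1)⟩
        · exact Set.toFinite _
      have := ih (by omega)
      omega
  have h1 := hcard (Nat.card α) (by omega)
  have h2 : {b | reach R (Nat.card α) a b}.ncard ≤ Nat.card α := by
    have := Set.ncard_le_ncard (Set.subset_univ {b | reach R (Nat.card α) a b})
    rwa [Set.ncard_univ] at this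
  omega

theorem reach_iff {α : Type*} [Finite α] {R : α → α → Prop} {m : ℕ} (hm : Nat.card α ≤ m)
    {a b : α} : reach R m a b ↔ Relation.ReflTransGen R a b :=
  ⟨reach_rtg, fun h => reach_mono hm (reach_card h)⟩

instance {S : ℕ → Type} [Env S] (n : ℕ) : Finite (S n) := Finite.of_equiv _ (vec n).symm

theorem card_env {S : ℕ → Type} [Env S] (n : ℕ) : Nat.card (S n) = n ^ dim S := by
  rw [Nat.card_congr (vec n)]
  simp

theorem card_env_le {S : ℕ → Type} [Env S] (n : ℕ) : Nat.card (S n) ≤ 2 ^ (dim S * Nat.size n) := by
  rw [card_env, mul_comm, pow_mul]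
  exact Nat.pow_le_pow_left (Nat.lt_size_self n).le _

/-- squaring of a relation -/
def sq {α : Type*} (Q : α × α → Prop) : α × α → Prop := fun p => ∃ w, Q (p.1, w) ∧ Q (w, p.2)

theorem sq_iterate {α : Type*} {R : α → α → Prop} (m : ℕ) :
    (sq^[m] (fun p => p.1 = p.2 ∨ R p.1 p.2)) = fun p => reach R (2 ^ m) p.1 p.2 := by
  induction m with
  | zero =>
    funext p
    simp only [Function.iterate_zero, id, pow_zero]
    apply propext
    simp [reach]
  | succ m ih =>
    rw [Function.iterate_succ_apply', ih]
    funext p
    apply propext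
    rw [pow_succ, mul_two, reach_add]
    rfl

section
variable {E S : ℕ → Type} [Env E] [Env S]

/-- the reflexive transitive closure of a definable relation is definable -/
theorem DefP.rtc {R : ∀ n : ℕ, SimpleGraph (Fin n) → Ctx n → E n → S n → S n → Prop}
    (hR : DefP (E := fun n => E n × (S n × S n)) (fun n G X y => R n G X y.1 y.2.1 y.2.2))
    {f g : ∀ n : ℕ, E n → S n} (hf : Tm f) (hg : Tm g) :
    DefP (fun n G X x => Relation.ReflTransGen (R n G X x) (f n x) (g n x)) := by
  have key : DefP (E := fun n => E n × (S n × S n)) (fun n G X y =>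
      ((sq^[dim S * Nat.size n] (fun p => p.1 = p.2 ∨ R n G X y.1 p.1 p.2)) y.2 : Prop)) := by
    refine DefP.iter (E := E) (S := fun n => S n × S n) (dim S)
      (I := fun n G X x p => p.1 = p.2 ∨ R n G X x p.1 p.2)
      (Φ := fun n G X x Q => sq Q) ?_ ?_
    · (repeat' (first
        | (apply DefP.app4; assumption) | (apply DefP.app3'; assumption)
        | (apply DefP.app3; assumption) | (apply DefP.app2; assumption)
        | (apply DefP.comp; assumption) | exact Tm.id | exact Tm.unit | apply Tm.fst
        | apply Tm.snd | apply Tm.app | exact DefP.const _ | apply DefP.and | apply DefP.not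
        | apply DefP.or | apply DefP.iff | apply DefP.adj | apply DefP.le | apply DefP.lt
        | apply DefP.eqFin | apply DefP.eq | apply DefP.rv | apply DefP.imp | apply DefP.allFin
        | apply DefP.exFin | apply DefP.all | apply DefP.ex | assumption
        | (apply Tm.comp; assumption) | apply Tm.pair | apply Tm.lam))
    · unfold sq
      (repeat' (first
          | (apply DefP.app4; assumption) | (apply DefP.app3'; assumption)
          | (apply DefP.app3; assumption) | (apply DefP.app2; assumption)
          | (apply DefP.comp; assumption) | exact Tm.id | exact Tm.unit | apply Tm.fst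
          | apply Tm.snd | apply Tm.app | exact DefP.const _ | apply DefP.and | apply DefP.not
          | apply DefP.or | apply DefP.iff | apply DefP.adj | apply DefP.le | apply DefP.lt
          | apply DefP.eqFin | apply DefP.eq | apply DefP.rv | apply DefP.imp
          | apply DefP.allFin | apply DefP.exFin | apply DefP.all | apply DefP.ex | assumption
          | (apply Tm.comp; assumption) | apply Tm.pair | apply Tm.lam))
  have key2 : DefP (E := fun n => E n × (S n × S n)) (fun n G X y =>
      Relation.ReflTransGen (R n G X y.1) y.2.1 y.2.2) := by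
    refine key.congr fun n G X y => ?_
    rw [sq_iterate]
    exact reach_iff (card_env_le n)
  exact DefP.app3 (P := fun n G X x a b => Relation.ReflTransGen (R n G X x) a b) key2
    Tm.id hf hg

end


end Pool.Agent.PMNC
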