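import Mathlib
import Pool.Agent.Lib.MP_0087d5_lc.TC

set_option autoImplicit false
set_option linter.all false

/-!
# Order on tuples, comparison of cardinalities, parity
-/

namespace Pool.Agent.PMNC

open Relation

/-- the lexicographic order on tuples -/
def key {S : ℕ → Type} [Env S] {n : ℕ} (s : S n) : Lex (Fin (dim S) → Fin n) := toLex (vec n s)

theorem key_injective {S : ℕ → Type} [Env S] {n : ℕ} :
    Function.Injective (key : S n → _) := fun a b h => (vec n).injective h

theorem key_inj {S : ℕ → Type} [Env S] {n : ℕ} {a b : S n} : key a = key b ↔ a = b :=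
  key_injective.eq_iff

section
variable {E S T : ℕ → Type} [Env E] [Env S] [Env T]

theorem DefP.keyLt {f g : ∀ n : ℕ, E n → S n} (hf : Tm f) (hg : Tm g) :
    DefP (fun n G X x => key (f n x) < key (g n x)) := by
  obtain ⟨s, hs⟩ := hf
  obtain ⟨t, ht⟩ := hg
  have hlt : ∀ a b : Fin (dim E), DefP (fun n G X (x : E n) => vec n x a < vec n x b) :=
    fun a b => ⟨.lt a b, fun n G X x => Iff.rfl⟩
  refine DefP.congr (P := fun n G X x => ∃ i : Fin (dim S),
    (∀ j : Fin (dim S), j < i → ¬ (vec n x (s j) < vec n x (t j)) ∧
      ¬ (vec n x (t j) < vec n x (s j))) ∧ vec n x (s i) < vec n x (t i)) ?_ ?_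
  · refine DefP.existsFintype fun i => ?_
    refine (DefP.forallFintype fun j => ?_).and (hlt _ _)
    exact (DefP.const _).imp ((hlt _ _).not.and (hlt _ _).not)
  · intro n G X x
    have h1 : ∀ j, (¬ (vec n x (s j) < vec n x (t j)) ∧
      ¬ (vec n x (t j) < vec n x (s j))) ↔ vec n (f n x) j = vec n (g n x) j := by
      intro j
      rw [hs, ht]
      simp only [Function.comp_apply]
      rw [not_lt, not_lt]
      exact ⟨fun h => le_antisymm h.2 h.1, fun h => ⟨h.ge, h.le⟩⟩
    have h2 : ∀ j, vec n x (s j) < vec n x (t j) ↔ vec n (f n x) j < vec n (g n x) j := by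
      intro j
      rw [hs, ht]
      rfl
    refine Iff.trans ?_ (Iff.rfl : (∃ i, (∀ j < i, vec n (f n x) j = vec n (g n x) j) ∧
      vec n (f n x) i < vec n (g n x) i) ↔ _)
    exact exists_congr fun i => and_congr
      (forall_congr' fun j => imp_congr_right fun _ => h1 j) (h2 i)

theorem DefP.keyLe {f g : ∀ n : ℕ, E n → S n} (hf : Tm f) (hg : Tm g) :
    DefP (fun n G X x => key (f n x) ≤ key (g n x)) :=
  (DefP.keyLt hg hf).not.congr fun n G X x => not_lt

end


/-! ### simultaneous successors -/

section comb
variable {α β κ μ : Type*} [LinearOrder κ] [LinearOrder μ]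

/-- `a'` is the next element of `A` after `a`, in the order given by `f` -/
def Nxt (f : α → κ) (A : α → Prop) (a a' : α) : Prop :=
  A a' ∧ f a < f a' ∧ ∀ x, A x → f a < f x → f a' ≤ f x

/-- `a` is the first element of `A` -/
def Fst (f : α → κ) (A : α → Prop) (a : α) : Prop := A a ∧ ∀ x, A x → f a ≤ f x

/-- `a` is the last element of `A` -/
def Lst (f : α → κ) (A : α → Prop) (a : α) : Prop := A a ∧ ∀ x, A x → f x ≤ f a

/-- the rank of `a` in `A` (the number of elements `≤ a`) -/
noncomputable def rk (f : α → κ) (A : α → Prop) (a : α) : ℕ := Nat.card {x // A x ∧ f x ≤ f a}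

variable [Finite α] [Finite β] {f : α → κ} {g : β → μ}

theorem exists_fst (hf : Function.Injective f) {A : α → Prop} (h : ∃ a, A a) : ∃ a, Fst f A a := by
  obtain ⟨a, ha⟩ := h
  obtain ⟨b, hb, hm⟩ := Set.exists_min_image {x | A x} f (Set.toFinite _) ⟨a, ha⟩
  exact ⟨b, hb, fun x hx => hm x hx⟩

theorem exists_lst (hf : Function.Injective f) {A : α → Prop} (h : ∃ a, A a) : ∃ a, Lst f A a := by
  obtain ⟨a, ha⟩ := h
  obtain ⟨b, hb, hm⟩ := Set.exists_max_image {x | A x} f (Set.toFinite _) ⟨a, ha⟩
  exact ⟨b, hb, fun x hx => hm x hx⟩

theorem exists_nxt (hf : Function.Injective f) {A : α → Prop} {a : α} (h : ∃ x, A x ∧ f a < f x) :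
    ∃ a', Nxt f A a a' := by
  obtain ⟨b, ⟨hb1, hb2⟩, hm⟩ := exists_fst (f := f) hf h
  exact ⟨b, hb1, hb2, fun x hx hx2 => hm x ⟨hx, hx2⟩⟩

/-- the previous element -/
theorem exists_prv (hf : Function.Injective f) {A : α → Prop} {a : α} (ha : A a)
    (h : ∃ x, A x ∧ f x < f a) : ∃ a', A a' ∧ Nxt f A a' a := by
  obtain ⟨b, ⟨hb1, hb2⟩, hm⟩ := exists_lst (f := f) hf h
  refine ⟨b, hb1, ha, hb2, fun x hx hx2 => ?_⟩
  by_contra hc
  exact absurd (hm x ⟨hx, not_le.1 hc⟩) (not_le.2 hx2)

theorem rk_fst (hf : Function.Injective f) {A : α → Prop} {a : α} (h : Fst f A a) :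
    rk f A a = 1 := by
  unfold rk
  rw [Nat.card_eq_one_iff_unique]
  refine ⟨⟨fun x y => ?_⟩, ⟨⟨a, h.1, le_rfl⟩⟩⟩
  apply Subtype.ext
  apply hf
  exact le_antisymm (x.2.2.trans (h.2 _ y.2.1)) (y.2.2.trans (h.2 _ x.2.1))

theorem rk_nxt (hf : Function.Injective f) {A : α → Prop} {a a' : α} (h : Nxt f A a a') :
    rk f A a' = rk f A a + 1 := by
  unfold rk
  have : {x // A x ∧ f x ≤ f a'} ≃ Option {x // A x ∧ f x ≤ f a} := by
    classical
    refine
      { toFun := fun x => if hx : f x.1 ≤ f a then some ⟨x.1, x.2.1, hx⟩ else none
        invFun := fun y => match y with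
          | none => ⟨a', h.1, le_rfl⟩
          | some y => ⟨y.1, y.2.1, y.2.2.trans h.2.1.le⟩
        left_inv := ?_
        right_inv := ?_ }
    · intro x
      by_cases hx : f x.1 ≤ f a
      · simp [hx]
      · simp only [hx, dite_false]
        apply Subtype.ext
        apply hf
        exact le_antisymm (h.2.2 _ x.2.1 (not_le.1 hx)) x.2.2
    · intro y
      match y with
      | none => simp [h.2.1]
      | some y => simp [y.2.2]
  rw [Nat.card_congr this]
  simp

theorem rk_lst (hf : Function.Injective f) {A : α → Prop} {a : α} (h : Lst f A a) :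
    rk f A a = Nat.card {x // A x} := by
  unfold rk
  apply Nat.card_congr
  exact Equiv.subtypeEquivRight fun x => ⟨fun hx => hx.1, fun hx => ⟨hx, h.2 x hx⟩⟩

theorem rk_le (A : α → Prop) (a : α) : rk f A a ≤ Nat.card {x // A x} := by
  unfold rk
  exact Nat.card_le_card_of_injective (fun x => ⟨x.1, x.2.1⟩) fun x y h => by
    apply Subtype.ext
    exact congrArg (fun z : {x // A x} => z.1) h

theorem rk_lt (A : α → Prop) {a b : α} (hb : A b) (h : f a < f b) :
    rk f A a < rk f A b := by
  unfold rk
  have h1 : {x | A x ∧ f x ≤ f a} ⊂ {x | A x ∧ f x ≤ f b} := by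
    refine ⟨fun x hx => ⟨hx.1, hx.2.trans h.le⟩, fun hc => ?_⟩
    exact absurd (hc (show b ∈ {x | A x ∧ f x ≤ f b} from ⟨hb, le_rfl⟩)).2 (not_le.2 h)
  have := Set.ncard_lt_ncard h1 (Set.toFinite _)
  exact this

/-- one step of the simultaneous successors -/
def Stp (f : α → κ) (g : β → μ) (A : α → Prop) (B : β → Prop) (p q : α × β) : Prop :=
  Nxt f A p.1 q.1 ∧ Nxt g B p.2 q.2

theorem stp_rk (hf : Function.Injective f) (hg : Function.Injective g) {A : α → Prop}
    {B : β → Prop} {p q : α × β} (h : ReflTransGen (Stp f g A B) p q)
    (h0 : A p.1 ∧ B p.2 ∧ rk f A p.1 = rk g B p.2) : A q.1 ∧ B q.2 ∧ rk f A q.1 = rk g B q.2 := by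
  induction h with
  | refl => exact h0
  | tail _ hc ih =>
    refine ⟨hc.1.1, hc.2.1, ?_⟩
    rw [rk_nxt hf hc.1, rk_nxt hg hc.2, ih.2.2]

theorem rk_stp (hf : Function.Injective f) (hg : Function.Injective g) {A : α → Prop}
    {B : β → Prop} {a₀ : α} {b₀ : β} (ha₀ : Fst f A a₀) (hb₀ : Fst g B b₀) {a : α} {b : β}
    (ha : A a) (hb : B b) (h : rk f A a = rk g B b) :
    ReflTransGen (Stp f g A B) (a₀, b₀) (a, b) := by
  induction hm : rk f A a using Nat.strong_induction_on generalizing a b with
  | _ m ih =>
    by_cases h1 : ∃ x, A x ∧ f x < f a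
    · obtain ⟨a', ha', hn⟩ := exists_prv hf ha h1
      have h2 : ∃ y, B y ∧ g y < g b := by
        by_contra hc
        push Not at hc
        have h3 := rk_fst hg (a := b) (A := B) ⟨hb, hc⟩
        have h4 := rk_nxt hf hn
        have h5 : 0 < rk f A a' := by
          unfold rk
          haveI : Nonempty {x // A x ∧ f x ≤ f a'} := ⟨⟨a', ha', le_rfl⟩⟩
          exact Nat.card_pos
        omega
      obtain ⟨b', hb', hn'⟩ := exists_prv hg hb h2
      have e1 := rk_nxt hf hn
      have e2 := rk_nxt hg hn'
      exact (ih (rk f A a') (by omega) ha' hb' (by omega) rfl).tail ⟨hn, hn'⟩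
    · push Not at h1
      have e1 : a = a₀ := hf (le_antisymm (h1 _ ha₀.1) (ha₀.2 _ ha))
      have e2 : b = b₀ := by
        by_contra hne
        have hlt : g b₀ < g b := lt_of_le_of_ne (hb₀.2 _ hb) fun h => hne (hg h).symm
        have := rk_lt (f := g) B hb hlt
        rw [rk_fst hg hb₀] at this
        rw [e1, rk_fst hf ha₀] at h
        omega
      rw [e1, e2]

theorem exists_rk (hf : Function.Injective f) {A : α → Prop} {m : ℕ} (h1 : 1 ≤ m)
    (h2 : m ≤ Nat.card {x // A x}) : ∃ a, A a ∧ rk f A a = m := by
  induction m, h1 using Nat.le_induction with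
  | base =>
    haveI : Nonempty {x // A x} := by
      by_contra hc
      rw [not_nonempty_iff] at hc
      rw [Nat.card_of_isEmpty] at h2
      omega
    obtain ⟨x⟩ := this
    obtain ⟨a, ha⟩ := exists_fst (f := f) hf ⟨x.1, x.2⟩
    exact ⟨a, ha.1, rk_fst hf ha⟩
  | succ m hm ih =>
    obtain ⟨a, ha, hr⟩ := ih (by omega)
    have : ∃ x, A x ∧ f a < f x := by
      by_contra hc
      push Not at hc
      have := rk_lst hf (a := a) (A := A) ⟨ha, hc⟩
      omega
    obtain ⟨a', ha'⟩ := exists_nxt hf this
    exact ⟨a', ha'.1, by rw [rk_nxt hf ha', hr]⟩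

/-- the definable form of `rk f A a = rk g B b` -/
theorem rk_eq_iff (hf : Function.Injective f) (hg : Function.Injective g) {A : α → Prop}
    {B : β → Prop} {a : α} {b : β} (ha : A a) (hb : B b) :
    rk f A a = rk g B b ↔ ∃ a₀ b₀, Fst f A a₀ ∧ Fst g B b₀ ∧
      ReflTransGen (Stp f g A B) (a₀, b₀) (a, b) := by
  constructor
  · intro h
    obtain ⟨a₀, ha₀⟩ := exists_fst (f := f) hf ⟨a, ha⟩
    obtain ⟨b₀, hb₀⟩ := exists_fst (f := g) hg ⟨b, hb⟩
    exact ⟨a₀, b₀, ha₀, hb₀, rk_stp hf hg ha₀ hb₀ ha hb h⟩
  · rintro ⟨a₀, b₀, ha₀, hb₀, h⟩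
    exact (stp_rk hf hg h ⟨ha₀.1, hb₀.1, by rw [rk_fst hf ha₀, rk_fst hg hb₀]⟩).2.2

theorem card_le_iff (hf : Function.Injective f) (hg : Function.Injective g) {A : α → Prop}
    {B : β → Prop} :
    Nat.card {x // A x} ≤ Nat.card {y // B y} ↔
      ∀ a, Lst f A a → ∃ b, B b ∧ ∃ a₀ b₀, Fst f A a₀ ∧ Fst g B b₀ ∧
        ReflTransGen (Stp f g A B) (a₀, b₀) (a, b) := by
  constructor
  · intro h a ha
    have h1 := rk_lst hf ha
    have h2 : 0 < Nat.card {x // A x} := by
      haveI : Nonempty {x // A x} := ⟨⟨a, ha.1⟩⟩
      exact Nat.card_pos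
    obtain ⟨b, hb, hr⟩ := exists_rk (f := g) hg (A := B) (m := Nat.card {x // A x}) (by omega) h
    exact ⟨b, hb, (rk_eq_iff hf hg ha.1 hb).1 (by rw [h1, hr])⟩
  · intro h
    by_cases hA : ∃ a, A a
    · obtain ⟨a, ha⟩ := exists_lst (f := f) hf hA
      obtain ⟨b, hb, hr⟩ := h a ha
      rw [← rk_lst hf ha, (rk_eq_iff hf hg ha.1 hb).2 hr]
      exact rk_le _ _
    · haveI : IsEmpty {x // A x} := ⟨fun x => hA ⟨x.1, x.2⟩⟩
      rw [Nat.card_of_isEmpty]
      exact Nat.zero_le _

/-- two steps -/
def Nxt2 (f : α → κ) (A : α → Prop) (a b : α) : Prop := ∃ c, Nxt f A a c ∧ Nxt f A c b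

theorem odd_rk_iff (hf : Function.Injective f) {A : α → Prop} {a : α} (ha : A a) :
    Odd (rk f A a) ↔ ∃ a₀, Fst f A a₀ ∧ ReflTransGen (Nxt2 f A) a₀ a := by
  constructor
  · intro h
    obtain ⟨a₀, ha₀⟩ := exists_fst (f := f) hf ⟨a, ha⟩
    refine ⟨a₀, ha₀, ?_⟩
    induction hm : rk f A a using Nat.strong_induction_on generalizing a with
    | _ m ih =>
      by_cases h1 : ∃ x, A x ∧ f x < f a
      · obtain ⟨b, hb, hn⟩ := exists_prv hf ha h1
        have e1 := rk_nxt hf hn
        have h2 : ∃ x, A x ∧ f x < f b := by
          by_contra hc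
          push Not at hc
          have := rk_fst hf (a := b) (A := A) ⟨hb, hc⟩
          rw [this] at e1
          rw [e1] at h
          exact absurd h (by decide)
        obtain ⟨c, hc, hn'⟩ := exists_prv hf hb h2
        have e2 := rk_nxt hf hn'
        have h3 : Odd (rk f A c) := by
          rw [e1, e2] at h
          obtain ⟨t, ht⟩ := h
          exact ⟨t - 1, by omega⟩
        exact (ih (rk f A c) (by omega) hc h3 rfl).tail ⟨b, hn', hn⟩
      · push Not at h1
        have e1 : a = a₀ := hf (le_antisymm (h1 _ ha₀.1) (ha₀.2 _ ha))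
        rw [e1]
  · rintro ⟨a₀, ha₀, h⟩
    have : Odd (rk f A a₀) := by rw [rk_fst hf ha₀]; decide
    induction h with
    | refl => exact this
    | tail _ hc ih =>
      obtain ⟨d, h1, h2⟩ := hc
      rw [rk_nxt hf h2, rk_nxt hf h1]
      have hmem : ∀ {x}, ReflTransGen (Nxt2 f A) a₀ x → A x := by
        intro x hx
        induction hx with
        | refl => exact ha₀.1
        | tail _ hc _ => obtain ⟨_, _, h⟩ := hc; exact h.1
      have := ih (hmem (by assumption))
      rw [add_assoc]
      exact this.add_even (by decide)

theorem odd_card_iff (hf : Function.Injective f) {A : α → Prop} :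
    Odd (Nat.card {x // A x}) ↔ ∃ a, Lst f A a ∧ ∃ a₀, Fst f A a₀ ∧ ReflTransGen (Nxt2 f A) a₀ a := by
  constructor
  · intro h
    have : ∃ a, A a := by
      by_contra hc
      haveI : IsEmpty {x // A x} := ⟨fun x => hc ⟨x.1, x.2⟩⟩
      rw [Nat.card_of_isEmpty] at h
      exact absurd h (by decide)
    obtain ⟨a, ha⟩ := exists_lst (f := f) hf this
    exact ⟨a, ha, (odd_rk_iff hf ha.1).1 (by rwa [rk_lst hf ha])⟩
  · rintro ⟨a, ha, h⟩
    rw [← rk_lst hf ha]
    exact (odd_rk_iff hf ha.1).2 h

end comb

section def_
variable {E S T : ℕ → Type} [Env E] [Env S] [Env T]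

theorem DefP.nxt {A : ∀ n : ℕ, SimpleGraph (Fin n) → Ctx n → E n → S n → Prop}
    (hA : DefP (E := fun n => E n × S n) (fun n G X y => A n G X y.1 y.2))
    {f g : ∀ n : ℕ, E n → S n} (hf : Tm f) (hg : Tm g) :
    DefP (fun n G X x => Nxt key (A n G X x) (f n x) (g n x)) := by
  unfold Nxt
  have hf' : Tm (fun n (y : E n × S n) => f n y.1) := hf.comp (Tm.fst (H := S) Tm.id)
  have hg' : Tm (fun n (y : E n × S n) => g n y.1) := hg.comp (Tm.fst (H := S) Tm.id)
  (repeat' (first
      | apply DefP.keyLe | apply DefP.keyLt | apply DefP.rtc | (apply DefP.app4; assumption)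
      | (apply DefP.app3'; assumption) | (apply DefP.app3; assumption)
      | (apply DefP.app2; assumption) | (apply DefP.comp; assumption) | exact Tm.id
      | exact Tm.unit | apply Tm.fst | apply Tm.snd | apply Tm.app | exact DefP.const _
      | apply DefP.and | apply DefP.not | apply DefP.or | apply DefP.iff | apply DefP.adj
      | apply DefP.le | apply DefP.lt | apply DefP.eqFin | apply DefP.eq | apply DefP.rv
      | apply DefP.imp | apply DefP.allFin | apply DefP.exFin | apply DefP.all | apply DefP.ex
      | assumption | (apply Tm.comp; assumption) | apply Tm.pair | apply Tm.lam))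

theorem DefP.fst {A : ∀ n : ℕ, SimpleGraph (Fin n) → Ctx n → E n → S n → Prop}
    (hA : DefP (E := fun n => E n × S n) (fun n G X y => A n G X y.1 y.2))
    {f : ∀ n : ℕ, E n → S n} (hf : Tm f) :
    DefP (fun n G X x => Fst key (A n G X x) (f n x)) := by
  unfold Fst
  have hf' : Tm (fun n (y : E n × S n) => f n y.1) := hf.comp (Tm.fst (H := S) Tm.id)
  (repeat' (first
      | apply DefP.keyLe | apply DefP.keyLt | apply DefP.rtc | (apply DefP.app4; assumption)
      | (apply DefP.app3'; assumption) | (apply DefP.app3; assumption)
      | (apply DefP.app2; assumption) | (apply DefP.comp; assumption) | exact Tm.id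
      | exact Tm.unit | apply Tm.fst | apply Tm.snd | apply Tm.app | exact DefP.const _
      | apply DefP.and | apply DefP.not | apply DefP.or | apply DefP.iff | apply DefP.adj
      | apply DefP.le | apply DefP.lt | apply DefP.eqFin | apply DefP.eq | apply DefP.rv
      | apply DefP.imp | apply DefP.allFin | apply DefP.exFin | apply DefP.all | apply DefP.ex
      | assumption | (apply Tm.comp; assumption) | apply Tm.pair | apply Tm.lam))

theorem DefP.lst {A : ∀ n : ℕ, SimpleGraph (Fin n) → Ctx n → E n → S n → Prop}
    (hA : DefP (E := fun n => E n × S n) (fun n G X y => A n G X y.1 y.2))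
    {f : ∀ n : ℕ, E n → S n} (hf : Tm f) :
    DefP (fun n G X x => Lst key (A n G X x) (f n x)) := by
  unfold Lst
  have hf' : Tm (fun n (y : E n × S n) => f n y.1) := hf.comp (Tm.fst (H := S) Tm.id)
  (repeat' (first
      | apply DefP.keyLe | apply DefP.keyLt | apply DefP.rtc | (apply DefP.app4; assumption)
      | (apply DefP.app3'; assumption) | (apply DefP.app3; assumption)
      | (apply DefP.app2; assumption) | (apply DefP.comp; assumption) | exact Tm.id
      | exact Tm.unit | apply Tm.fst | apply Tm.snd | apply Tm.app | exact DefP.const _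
      | apply DefP.and | apply DefP.not | apply DefP.or | apply DefP.iff | apply DefP.adj
      | apply DefP.le | apply DefP.lt | apply DefP.eqFin | apply DefP.eq | apply DefP.rv
      | apply DefP.imp | apply DefP.allFin | apply DefP.exFin | apply DefP.all | apply DefP.ex
      | assumption | (apply Tm.comp; assumption) | apply Tm.pair | apply Tm.lam))

theorem DefP.rkEq {A : ∀ n : ℕ, SimpleGraph (Fin n) → Ctx n → E n → S n → Prop}
    (hA : DefP (E := fun n => E n × S n) (fun n G X y => A n G X y.1 y.2))
    {B : ∀ n : ℕ, SimpleGraph (Fin n) → Ctx n → E n → T n → Prop}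
    (hB : DefP (E := fun n => E n × T n) (fun n G X y => B n G X y.1 y.2)) :
    DefP (E := fun n => E n × (S n × T n)) (fun n G X y =>
      ∃ (a₀ : S n) (b₀ : T n), Fst key (A n G X y.1) a₀ ∧ Fst key (B n G X y.1) b₀ ∧
        ReflTransGen (Stp key key (A n G X y.1) (B n G X y.1)) (a₀, b₀) (y.2.1, y.2.2)) := by
  refine DefP.ex (DefP.ex ((DefP.fst ?_ ?_).and ((DefP.fst ?_ ?_).and (DefP.rtc ?_ ?_ ?_))))
  · (repeat' (first
      | apply DefP.keyLe | apply DefP.keyLt | apply DefP.rtc | (apply DefP.app4; assumption)
      | (apply DefP.app3'; assumption) | (apply DefP.app3; assumption)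
      | (apply DefP.app2; assumption) | (apply DefP.comp; assumption) | exact Tm.id
      | exact Tm.unit | apply Tm.fst | apply Tm.snd | apply Tm.app | exact DefP.const _
      | apply DefP.and | apply DefP.not | apply DefP.or | apply DefP.iff | apply DefP.adj
      | apply DefP.le | apply DefP.lt | apply DefP.eqFin | apply DefP.eq | apply DefP.rv
      | apply DefP.imp | apply DefP.allFin | apply DefP.exFin | apply DefP.all | apply DefP.ex
      | assumption | (apply Tm.comp; assumption) | apply Tm.pair | apply Tm.lam))
  · (repeat' (first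
      | apply DefP.keyLe | apply DefP.keyLt | apply DefP.rtc | (apply DefP.app4; assumption)
      | (apply DefP.app3'; assumption) | (apply DefP.app3; assumption)
      | (apply DefP.app2; assumption) | (apply DefP.comp; assumption) | exact Tm.id
      | exact Tm.unit | apply Tm.fst | apply Tm.snd | apply Tm.app | exact DefP.const _
      | apply DefP.and | apply DefP.not | apply DefP.or | apply DefP.iff | apply DefP.adj
      | apply DefP.le | apply DefP.lt | apply DefP.eqFin | apply DefP.eq | apply DefP.rv
      | apply DefP.imp | apply DefP.allFin | apply DefP.exFin | apply DefP.all | apply DefP.ex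
      | assumption | (apply Tm.comp; assumption) | apply Tm.pair | apply Tm.lam))
  · (repeat' (first
      | apply DefP.keyLe | apply DefP.keyLt | apply DefP.rtc | (apply DefP.app4; assumption)
      | (apply DefP.app3'; assumption) | (apply DefP.app3; assumption)
      | (apply DefP.app2; assumption) | (apply DefP.comp; assumption) | exact Tm.id
      | exact Tm.unit | apply Tm.fst | apply Tm.snd | apply Tm.app | exact DefP.const _
      | apply DefP.and | apply DefP.not | apply DefP.or | apply DefP.iff | apply DefP.adj
      | apply DefP.le | apply DefP.lt | apply DefP.eqFin | apply DefP.eq | apply DefP.rv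
      | apply DefP.imp | apply DefP.allFin | apply DefP.exFin | apply DefP.all | apply DefP.ex
      | assumption | (apply Tm.comp; assumption) | apply Tm.pair | apply Tm.lam))
  · (repeat' (first
      | apply DefP.keyLe | apply DefP.keyLt | apply DefP.rtc | (apply DefP.app4; assumption)
      | (apply DefP.app3'; assumption) | (apply DefP.app3; assumption)
      | (apply DefP.app2; assumption) | (apply DefP.comp; assumption) | exact Tm.id
      | exact Tm.unit | apply Tm.fst | apply Tm.snd | apply Tm.app | exact DefP.const _
      | apply DefP.and | apply DefP.not | apply DefP.or | apply DefP.iff | apply DefP.adj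
      | apply DefP.le | apply DefP.lt | apply DefP.eqFin | apply DefP.eq | apply DefP.rv
      | apply DefP.imp | apply DefP.allFin | apply DefP.exFin | apply DefP.all | apply DefP.ex
      | assumption | (apply Tm.comp; assumption) | apply Tm.pair | apply Tm.lam))
  · unfold Stp
    refine (DefP.nxt ?_ ?_ ?_).and (DefP.nxt ?_ ?_ ?_)
    all_goals (repeat' (first
        | apply DefP.keyLe | apply DefP.keyLt | apply DefP.rtc | (apply DefP.app4; assumption)
        | (apply DefP.app3'; assumption) | (apply DefP.app3; assumption)
        | (apply DefP.app2; assumption) | (apply DefP.comp; assumption) | exact Tm.id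
        | exact Tm.unit | apply Tm.fst | apply Tm.snd | apply Tm.app | exact DefP.const _
        | apply DefP.and | apply DefP.not | apply DefP.or | apply DefP.iff | apply DefP.adj
        | apply DefP.le | apply DefP.lt | apply DefP.eqFin | apply DefP.eq | apply DefP.rv
        | apply DefP.imp | apply DefP.allFin | apply DefP.exFin | apply DefP.all | apply DefP.ex
        | assumption | (apply Tm.comp; assumption) | apply Tm.pair | apply Tm.lam))
  · (repeat' (first
      | apply DefP.keyLe | apply DefP.keyLt | apply DefP.rtc | (apply DefP.app4; assumption)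
      | (apply DefP.app3'; assumption) | (apply DefP.app3; assumption)
      | (apply DefP.app2; assumption) | (apply DefP.comp; assumption) | exact Tm.id
      | exact Tm.unit | apply Tm.fst | apply Tm.snd | apply Tm.app | exact DefP.const _
      | apply DefP.and | apply DefP.not | apply DefP.or | apply DefP.iff | apply DefP.adj
      | apply DefP.le | apply DefP.lt | apply DefP.eqFin | apply DefP.eq | apply DefP.rv
      | apply DefP.imp | apply DefP.allFin | apply DefP.exFin | apply DefP.all | apply DefP.ex
      | assumption | (apply Tm.comp; assumption) | apply Tm.pair | apply Tm.lam))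
  · (repeat' (first
      | apply DefP.keyLe | apply DefP.keyLt | apply DefP.rtc | (apply DefP.app4; assumption)
      | (apply DefP.app3'; assumption) | (apply DefP.app3; assumption)
      | (apply DefP.app2; assumption) | (apply DefP.comp; assumption) | exact Tm.id
      | exact Tm.unit | apply Tm.fst | apply Tm.snd | apply Tm.app | exact DefP.const _
      | apply DefP.and | apply DefP.not | apply DefP.or | apply DefP.iff | apply DefP.adj
      | apply DefP.le | apply DefP.lt | apply DefP.eqFin | apply DefP.eq | apply DefP.rv
      | apply DefP.imp | apply DefP.allFin | apply DefP.exFin | apply DefP.all | apply DefP.ex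
      | assumption | (apply Tm.comp; assumption) | apply Tm.pair | apply Tm.lam))

/-- comparison of cardinalities is definable -/
theorem DefP.cardLe {A : ∀ n : ℕ, SimpleGraph (Fin n) → Ctx n → E n → S n → Prop}
    (hA : DefP (E := fun n => E n × S n) (fun n G X y => A n G X y.1 y.2))
    {B : ∀ n : ℕ, SimpleGraph (Fin n) → Ctx n → E n → T n → Prop}
    (hB : DefP (E := fun n => E n × T n) (fun n G X y => B n G X y.1 y.2)) :
    DefP (fun n G X x => Nat.card {s // A n G X x s} ≤ Nat.card {t // B n G X x t}) := by
  refine DefP.congr (P := fun n G X x => ∀ a, Lst key (A n G X x) a → ∃ b, B n G X x b ∧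
    ∃ (a₀ : S n) (b₀ : T n), Fst key (A n G X x) a₀ ∧ Fst key (B n G X x) b₀ ∧
        ReflTransGen (Stp key key (A n G X x) (B n G X x)) (a₀, b₀) (a, b)) ?_ ?_
  · refine DefP.all ((DefP.lst ?_ ?_).imp (DefP.ex (DefP.and ?_ ?_)))
    · (repeat' (first
        | apply DefP.keyLe | apply DefP.keyLt | apply DefP.rtc | (apply DefP.app4; assumption)
        | (apply DefP.app3'; assumption) | (apply DefP.app3; assumption)
        | (apply DefP.app2; assumption) | (apply DefP.comp; assumption) | exact Tm.id
        | exact Tm.unit | apply Tm.fst | apply Tm.snd | apply Tm.app | exact DefP.const _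
        | apply DefP.and | apply DefP.not | apply DefP.or | apply DefP.iff | apply DefP.adj
        | apply DefP.le | apply DefP.lt | apply DefP.eqFin | apply DefP.eq | apply DefP.rv
        | apply DefP.imp | apply DefP.allFin | apply DefP.exFin | apply DefP.all | apply DefP.ex
        | assumption | (apply Tm.comp; assumption) | apply Tm.pair | apply Tm.lam))
    · (repeat' (first
        | apply DefP.keyLe | apply DefP.keyLt | apply DefP.rtc | (apply DefP.app4; assumption)
        | (apply DefP.app3'; assumption) | (apply DefP.app3; assumption)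
        | (apply DefP.app2; assumption) | (apply DefP.comp; assumption) | exact Tm.id
        | exact Tm.unit | apply Tm.fst | apply Tm.snd | apply Tm.app | exact DefP.const _
        | apply DefP.and | apply DefP.not | apply DefP.or | apply DefP.iff | apply DefP.adj
        | apply DefP.le | apply DefP.lt | apply DefP.eqFin | apply DefP.eq | apply DefP.rv
        | apply DefP.imp | apply DefP.allFin | apply DefP.exFin | apply DefP.all | apply DefP.ex
        | assumption | (apply Tm.comp; assumption) | apply Tm.pair | apply Tm.lam))
    · (repeat' (first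
        | apply DefP.keyLe | apply DefP.keyLt | apply DefP.rtc | (apply DefP.app4; assumption)
        | (apply DefP.app3'; assumption) | (apply DefP.app3; assumption)
        | (apply DefP.app2; assumption) | (apply DefP.comp; assumption) | exact Tm.id
        | exact Tm.unit | apply Tm.fst | apply Tm.snd | apply Tm.app | exact DefP.const _
        | apply DefP.and | apply DefP.not | apply DefP.or | apply DefP.iff | apply DefP.adj
        | apply DefP.le | apply DefP.lt | apply DefP.eqFin | apply DefP.eq | apply DefP.rv
        | apply DefP.imp | apply DefP.allFin | apply DefP.exFin | apply DefP.all | apply DefP.ex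
        | assumption | (apply Tm.comp; assumption) | apply Tm.pair | apply Tm.lam))
    · exact DefP.app3 (P := fun n G X x a b => ∃ (a₀ : S n) (b₀ : T n), Fst key (A n G X x) a₀ ∧
        Fst key (B n G X x) b₀ ∧
        ReflTransGen (Stp key key (A n G X x) (B n G X x)) (a₀, b₀) (a, b))
        (DefP.rkEq hA hB) (by (repeat' (first
            | apply DefP.keyLe | apply DefP.keyLt | apply DefP.rtc
            | (apply DefP.app4; assumption) | (apply DefP.app3'; assumption)
            | (apply DefP.app3; assumption) | (apply DefP.app2; assumption)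
            | (apply DefP.comp; assumption) | exact Tm.id | exact Tm.unit | apply Tm.fst
            | apply Tm.snd | apply Tm.app | exact DefP.const _ | apply DefP.and | apply DefP.not
            | apply DefP.or | apply DefP.iff | apply DefP.adj | apply DefP.le | apply DefP.lt
            | apply DefP.eqFin | apply DefP.eq | apply DefP.rv | apply DefP.imp
            | apply DefP.allFin | apply DefP.exFin | apply DefP.all | apply DefP.ex | assumption
            | (apply Tm.comp; assumption) | apply Tm.pair | apply Tm.lam))) (by (repeat' (first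
            | apply DefP.keyLe | apply DefP.keyLt | apply DefP.rtc
            | (apply DefP.app4; assumption) | (apply DefP.app3'; assumption)
            | (apply DefP.app3; assumption) | (apply DefP.app2; assumption)
            | (apply DefP.comp; assumption) | exact Tm.id | exact Tm.unit | apply Tm.fst
            | apply Tm.snd | apply Tm.app | exact DefP.const _ | apply DefP.and | apply DefP.not
            | apply DefP.or | apply DefP.iff | apply DefP.adj | apply DefP.le | apply DefP.lt
            | apply DefP.eqFin | apply DefP.eq | apply DefP.rv | apply DefP.imp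
            | apply DefP.allFin | apply DefP.exFin | apply DefP.all | apply DefP.ex | assumption
            | (apply Tm.comp; assumption) | apply Tm.pair | apply Tm.lam))) (by (repeat' (first
            | apply DefP.keyLe | apply DefP.keyLt | apply DefP.rtc
            | (apply DefP.app4; assumption) | (apply DefP.app3'; assumption)
            | (apply DefP.app3; assumption) | (apply DefP.app2; assumption)
            | (apply DefP.comp; assumption) | exact Tm.id | exact Tm.unit | apply Tm.fst
            | apply Tm.snd | apply Tm.app | exact DefP.const _ | apply DefP.and | apply DefP.not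
            | apply DefP.or | apply DefP.iff | apply DefP.adj | apply DefP.le | apply DefP.lt
            | apply DefP.eqFin | apply DefP.eq | apply DefP.rv | apply DefP.imp
            | apply DefP.allFin | apply DefP.exFin | apply DefP.all | apply DefP.ex | assumption
            | (apply Tm.comp; assumption) | apply Tm.pair | apply Tm.lam)))
  · intro n G X x
    exact (card_le_iff key_injective key_injective).symm

theorem DefP.cardLt {A : ∀ n : ℕ, SimpleGraph (Fin n) → Ctx n → E n → S n → Prop}
    (hA : DefP (E := fun n => E n × S n) (fun n G X y => A n G X y.1 y.2))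
    {B : ∀ n : ℕ, SimpleGraph (Fin n) → Ctx n → E n → T n → Prop}
    (hB : DefP (E := fun n => E n × T n) (fun n G X y => B n G X y.1 y.2)) :
    DefP (fun n G X x => Nat.card {s // A n G X x s} < Nat.card {t // B n G X x t}) :=
  (DefP.cardLe hB hA).not.congr fun n G X x => not_le

theorem DefP.cardEq {A : ∀ n : ℕ, SimpleGraph (Fin n) → Ctx n → E n → S n → Prop}
    (hA : DefP (E := fun n => E n × S n) (fun n G X y => A n G X y.1 y.2))
    {B : ∀ n : ℕ, SimpleGraph (Fin n) → Ctx n → E n → T n → Prop}
    (hB : DefP (E := fun n => E n × T n) (fun n G X y => B n G X y.1 y.2)) :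
    DefP (fun n G X x => Nat.card {s // A n G X x s} = Nat.card {t // B n G X x t}) :=
  ((DefP.cardLe hA hB).and (DefP.cardLe hB hA)).congr fun n G X x =>
    ⟨fun h => le_antisymm h.1 h.2, fun h => ⟨h.le, h.ge⟩⟩

/-- parity is definable -/
theorem DefP.oddCard {A : ∀ n : ℕ, SimpleGraph (Fin n) → Ctx n → E n → S n → Prop}
    (hA : DefP (E := fun n => E n × S n) (fun n G X y => A n G X y.1 y.2)) :
    DefP (fun n G X x => Odd (Nat.card {s // A n G X x s})) := by
  refine DefP.congr (P := fun n G X x => ∃ a, Lst key (A n G X x) a ∧ ∃ a₀,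
    Fst key (A n G X x) a₀ ∧ ReflTransGen (Nxt2 key (A n G X x)) a₀ a) ?_ ?_
  · refine DefP.ex ((DefP.lst ?_ ?_).and (DefP.ex ((DefP.fst ?_ ?_).and (DefP.rtc ?_ ?_ ?_))))
    · (repeat' (first
        | apply DefP.keyLe | apply DefP.keyLt | apply DefP.rtc | (apply DefP.app4; assumption)
        | (apply DefP.app3'; assumption) | (apply DefP.app3; assumption)
        | (apply DefP.app2; assumption) | (apply DefP.comp; assumption) | exact Tm.id
        | exact Tm.unit | apply Tm.fst | apply Tm.snd | apply Tm.app | exact DefP.const _
        | apply DefP.and | apply DefP.not | apply DefP.or | apply DefP.iff | apply DefP.adj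
        | apply DefP.le | apply DefP.lt | apply DefP.eqFin | apply DefP.eq | apply DefP.rv
        | apply DefP.imp | apply DefP.allFin | apply DefP.exFin | apply DefP.all | apply DefP.ex
        | assumption | (apply Tm.comp; assumption) | apply Tm.pair | apply Tm.lam))
    · (repeat' (first
        | apply DefP.keyLe | apply DefP.keyLt | apply DefP.rtc | (apply DefP.app4; assumption)
        | (apply DefP.app3'; assumption) | (apply DefP.app3; assumption)
        | (apply DefP.app2; assumption) | (apply DefP.comp; assumption) | exact Tm.id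
        | exact Tm.unit | apply Tm.fst | apply Tm.snd | apply Tm.app | exact DefP.const _
        | apply DefP.and | apply DefP.not | apply DefP.or | apply DefP.iff | apply DefP.adj
        | apply DefP.le | apply DefP.lt | apply DefP.eqFin | apply DefP.eq | apply DefP.rv
        | apply DefP.imp | apply DefP.allFin | apply DefP.exFin | apply DefP.all | apply DefP.ex
        | assumption | (apply Tm.comp; assumption) | apply Tm.pair | apply Tm.lam))
    · (repeat' (first
        | apply DefP.keyLe | apply DefP.keyLt | apply DefP.rtc | (apply DefP.app4; assumption)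
        | (apply DefP.app3'; assumption) | (apply DefP.app3; assumption)
        | (apply DefP.app2; assumption) | (apply DefP.comp; assumption) | exact Tm.id
        | exact Tm.unit | apply Tm.fst | apply Tm.snd | apply Tm.app | exact DefP.const _
        | apply DefP.and | apply DefP.not | apply DefP.or | apply DefP.iff | apply DefP.adj
        | apply DefP.le | apply DefP.lt | apply DefP.eqFin | apply DefP.eq | apply DefP.rv
        | apply DefP.imp | apply DefP.allFin | apply DefP.exFin | apply DefP.all | apply DefP.ex
        | assumption | (apply Tm.comp; assumption) | apply Tm.pair | apply Tm.lam))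
    · (repeat' (first
        | apply DefP.keyLe | apply DefP.keyLt | apply DefP.rtc | (apply DefP.app4; assumption)
        | (apply DefP.app3'; assumption) | (apply DefP.app3; assumption)
        | (apply DefP.app2; assumption) | (apply DefP.comp; assumption) | exact Tm.id
        | exact Tm.unit | apply Tm.fst | apply Tm.snd | apply Tm.app | exact DefP.const _
        | apply DefP.and | apply DefP.not | apply DefP.or | apply DefP.iff | apply DefP.adj
        | apply DefP.le | apply DefP.lt | apply DefP.eqFin | apply DefP.eq | apply DefP.rv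
        | apply DefP.imp | apply DefP.allFin | apply DefP.exFin | apply DefP.all | apply DefP.ex
        | assumption | (apply Tm.comp; assumption) | apply Tm.pair | apply Tm.lam))
    · unfold Nxt2
      refine DefP.ex ((DefP.nxt ?_ ?_ ?_).and (DefP.nxt ?_ ?_ ?_))
      all_goals (repeat' (first
          | apply DefP.keyLe | apply DefP.keyLt | apply DefP.rtc | (apply DefP.app4; assumption)
          | (apply DefP.app3'; assumption) | (apply DefP.app3; assumption)
          | (apply DefP.app2; assumption) | (apply DefP.comp; assumption) | exact Tm.id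
          | exact Tm.unit | apply Tm.fst | apply Tm.snd | apply Tm.app | exact DefP.const _
          | apply DefP.and | apply DefP.not | apply DefP.or | apply DefP.iff | apply DefP.adj
          | apply DefP.le | apply DefP.lt | apply DefP.eqFin | apply DefP.eq | apply DefP.rv
          | apply DefP.imp | apply DefP.allFin | apply DefP.exFin | apply DefP.all
          | apply DefP.ex | assumption | (apply Tm.comp; assumption) | apply Tm.pair
          | apply Tm.lam))
    · (repeat' (first
        | apply DefP.keyLe | apply DefP.keyLt | apply DefP.rtc | (apply DefP.app4; assumption)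
        | (apply DefP.app3'; assumption) | (apply DefP.app3; assumption)
        | (apply DefP.app2; assumption) | (apply DefP.comp; assumption) | exact Tm.id
        | exact Tm.unit | apply Tm.fst | apply Tm.snd | apply Tm.app | exact DefP.const _
        | apply DefP.and | apply DefP.not | apply DefP.or | apply DefP.iff | apply DefP.adj
        | apply DefP.le | apply DefP.lt | apply DefP.eqFin | apply DefP.eq | apply DefP.rv
        | apply DefP.imp | apply DefP.allFin | apply DefP.exFin | apply DefP.all | apply DefP.ex
        | assumption | (apply Tm.comp; assumption) | apply Tm.pair | apply Tm.lam))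
    · (repeat' (first
        | apply DefP.keyLe | apply DefP.keyLt | apply DefP.rtc | (apply DefP.app4; assumption)
        | (apply DefP.app3'; assumption) | (apply DefP.app3; assumption)
        | (apply DefP.app2; assumption) | (apply DefP.comp; assumption) | exact Tm.id
        | exact Tm.unit | apply Tm.fst | apply Tm.snd | apply Tm.app | exact DefP.const _
        | apply DefP.and | apply DefP.not | apply DefP.or | apply DefP.iff | apply DefP.adj
        | apply DefP.le | apply DefP.lt | apply DefP.eqFin | apply DefP.eq | apply DefP.rv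
        | apply DefP.imp | apply DefP.allFin | apply DefP.exFin | apply DefP.all | apply DefP.ex
        | assumption | (apply Tm.comp; assumption) | apply Tm.pair | apply Tm.lam))
  · intro n G X x
    exact (odd_card_iff key_injective).symm

end def_


end Pool.Agent.PMNC
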