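import Mathlib
import Pool.Agent.Lib.MP_0087d5_lc.Count

set_option autoImplicit false
set_option linter.all false

/-!
# Perfect matchings; polylogarithmic iteration; finitely many graphs; closed formulas
-/

namespace Pool.Agent.PMNC

theorem hasPM_iff {n : ℕ} {G : SimpleGraph (Fin n)} :
    HasPM G ↔ ∃ f : Fin n → Fin n, (∀ v, f (f v) = v) ∧ ∀ v, G.Adj v (f v) := by
  constructor
  · rintro ⟨M, hM, hsp⟩
    have h : ∀ v, ∃! w, M.Adj v w := fun v => hM (hsp v)
    choose f hf huniq using h
    refine ⟨f, fun v => ?_, fun v => M.adj_sub (hf v)⟩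
    exact (huniq (f v) v (hf v).symm).symm
  · rintro ⟨f, hf, hadj⟩
    refine ⟨{ verts := Set.univ
              Adj := fun v w => w = f v
              adj_sub := fun {v w} h => h ▸ hadj v
              edge_vert := fun _ => Set.mem_univ _
              symm := ⟨fun v w (h : w = f v) => by
                change v = f w
                rw [h, hf]⟩ }, ?_, ?_⟩
    · intro v _
      exact ⟨f v, rfl, fun w h => h⟩
    · intro v
      exact Set.mem_univ v

/-- `M` is (the adjacency relation of) a perfect matching -/
def IsPM {n : ℕ} (G : SimpleGraph (Fin n)) (M : Fin n → Fin n → Prop) : Prop :=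
  ∀ v, (∃ w, M v w) ∧ ∀ w, M v w → G.Adj v w ∧ M w v ∧ ∀ w', M v w' → w = w'

theorem IsPM.hasPM {n : ℕ} {G : SimpleGraph (Fin n)} {M : Fin n → Fin n → Prop}
    (h : IsPM G M) : HasPM G := by
  choose f hf using fun v => (h v).1
  refine hasPM_iff.2 ⟨f, fun v => ?_, fun v => ((h v).2 _ (hf v)).1⟩
  exact ((h (f v)).2 _ (hf (f v))).2.2 v ((h v).2 _ (hf v)).2.1

section
variable {E S : ℕ → Type} [Env E] [Env S]

/-- polylogarithmic iteration -/
theorem DefP.iterPow (c d : ℕ)
    {Φ : ∀ n : ℕ, SimpleGraph (Fin n) → E n → (S n → Prop) → S n → Prop}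
    (hΦ : DefP (E := fun n => E n × S n)
      (fun n G X y => Φ n G y.1 (fun s => PMNC.rv X 0 s) y.2)) :
    DefP (E := fun n => E n × S n)
      (fun n G X y => ((Φ n G y.1)^[(c * Nat.size n) ^ d] (fun s => PMNC.rv X 0 s)) y.2) := by
  induction d with
  | zero => simpa using hΦ
  | succ d ih =>
    have h := DefP.iter (E := E) (S := S) c (I := fun n G X x s => PMNC.rv X 0 s)
      (Φ := fun n G X x R => (Φ n G x)^[(c * Nat.size n) ^ d] R) (by (repeat' (first
          | apply DefP.oddCard | apply DefP.cardEq | apply DefP.cardLt | apply DefP.cardLe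
          | apply DefP.lst | apply DefP.fst | apply DefP.nxt | apply DefP.keyLe
          | apply DefP.keyLt | apply DefP.rtc | (apply DefP.app4; assumption)
          | (apply DefP.app3'; assumption) | (apply DefP.app3; assumption)
          | (apply DefP.app2; assumption) | (apply DefP.comp; assumption) | exact Tm.id
          | exact Tm.unit | apply Tm.fst | apply Tm.snd | apply Tm.app | exact DefP.const _
          | apply DefP.and | apply DefP.not | apply DefP.or | apply DefP.iff | apply DefP.adj
          | apply DefP.le | apply DefP.lt | apply DefP.eqFin | apply DefP.eq | apply DefP.rv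
          | apply DefP.imp | apply DefP.allFin | apply DefP.exFin | apply DefP.all
          | apply DefP.ex | assumption | (apply Tm.comp; assumption) | apply Tm.pair
          | apply Tm.lam))) ih
    refine h.congr fun n G X y => ?_
    have e : ((Φ n G y.1)^[(c * Nat.size n) ^ d])^[c * Nat.size n] =
        (Φ n G y.1)^[(c * Nat.size n) ^ (d + 1)] := by
      rw [← Function.iterate_mul, pow_succ]
    change (((fun R => (Φ n G y.1)^[(c * Nat.size n) ^ d] R)^[c * Nat.size n]) _) y.2 ↔ _
    rw [show (fun R => (Φ n G y.1)^[(c * Nat.size n) ^ d] R) = (Φ n G y.1)^[(c * Nat.size n) ^ d]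
      from rfl, e]

theorem DefP.iterPow' (c d : ℕ)
    {I : ∀ n : ℕ, SimpleGraph (Fin n) → Ctx n → E n → S n → Prop}
    {Φ : ∀ n : ℕ, SimpleGraph (Fin n) → E n → (S n → Prop) → S n → Prop}
    (hI : DefP (E := fun n => E n × S n) (fun n G X y => I n G X y.1 y.2))
    (hΦ : DefP (E := fun n => E n × S n)
      (fun n G X y => Φ n G y.1 (fun s => PMNC.rv X 0 s) y.2)) :
    DefP (E := fun n => E n × S n)
      (fun n G X y => ((Φ n G y.1)^[(c * Nat.size n) ^ (d + 1)] (I n G X y.1)) y.2) := by
  have h := DefP.iter (E := E) (S := S) c (I := I)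
    (Φ := fun n G X x R => (Φ n G x)^[(c * Nat.size n) ^ d] R) hI (DefP.iterPow c d hΦ)
  refine h.congr fun n G X y => ?_
  have e : ((Φ n G y.1)^[(c * Nat.size n) ^ d])^[c * Nat.size n] =
      (Φ n G y.1)^[(c * Nat.size n) ^ (d + 1)] := by
    rw [← Function.iterate_mul, pow_succ]
  change (((fun R => (Φ n G y.1)^[(c * Nat.size n) ^ d] R)^[c * Nat.size n]) _) y.2 ↔ _
  rw [show (fun R => (Φ n G y.1)^[(c * Nat.size n) ^ d] R) = (Φ n G y.1)^[(c * Nat.size n) ^ d]
    from rfl, e]

end

/-- closed formulas -/
theorem inNC_of_defP {P : ∀ n : ℕ, SimpleGraph (Fin n) → Prop}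
    (h : DefP (E := fun _ => Unit) (fun n G X _ => P n G)) : InNC P := by
  obtain ⟨φ, hφ⟩ := h
  exact ⟨φ, fun n G => (hφ n G (fun _ _ => False) ()).symm⟩

/-- the number of vertices is at most `N` -/
theorem defP_card_le {E : ℕ → Type} [Env E] (N : ℕ) :
    DefP (fun n G X (_ : E n) => n ≤ N) := by
  refine DefP.congr (P := fun n G X _ => ¬ ∃ x : Fin (N + 1) → Fin n,
    ∀ i : Fin (N + 1), ∀ j : Fin (N + 1), i ≠ j → ¬ (x i = x j)) ?_ ?_
  · refine DefP.not ?_
    refine DefP.ex (F := fun n => Fin (N + 1) → Fin n) ?_
    refine DefP.forallFintype fun i => DefP.forallFintype fun j => ?_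
    refine DefP.imp (DefP.const _) (DefP.not (DefP.eqFin ?_ ?_))
    all_goals (repeat' (first
        | apply DefP.oddCard | apply DefP.cardEq | apply DefP.cardLt | apply DefP.cardLe
        | apply DefP.lst | apply DefP.fst | apply DefP.nxt | apply DefP.keyLe | apply DefP.keyLt
        | apply DefP.rtc | (apply DefP.app4; assumption) | (apply DefP.app3'; assumption)
        | (apply DefP.app3; assumption) | (apply DefP.app2; assumption)
        | (apply DefP.comp; assumption) | exact Tm.id | exact Tm.unit | apply Tm.fst
        | apply Tm.snd | apply Tm.app | exact DefP.const _ | apply DefP.and | apply DefP.not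
        | apply DefP.or | apply DefP.iff | apply DefP.adj | apply DefP.le | apply DefP.lt
        | apply DefP.eqFin | apply DefP.eq | apply DefP.rv | apply DefP.imp | apply DefP.allFin
        | apply DefP.exFin | apply DefP.all | apply DefP.ex | assumption
        | (apply Tm.comp; assumption) | apply Tm.pair | apply Tm.lam))
  · intro n G X _
    constructor
    · intro h
      by_contra hc
      push Not at hc
      exact h ⟨fun i => ⟨i.1, by omega⟩, fun i j hij he => hij (Fin.ext (by simpa using he))⟩
    · rintro h ⟨x, hx⟩
      have : Function.Injective x := fun i j hij => by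
        by_contra hne
        exact hx i j hne hij
      have := Fintype.card_le_of_injective x this
      simp at this
      omega

/-- a property of graphs with at most `N` vertices is definable -/
theorem defP_small {E : ℕ → Type} [Env E] (N : ℕ) (P : ∀ n : ℕ, SimpleGraph (Fin n) → Prop) :
    DefP (fun n G X (_ : E n) => n ≤ N ∧ P n G) := by
  refine DefP.congr (P := fun n G X _ => ∃ q : (Σ n₀ : Fin (N + 1), SimpleGraph (Fin n₀)),
    P q.1 q.2 ∧ ∃ x : Fin q.1 → Fin n, (∀ i : Fin q.1, ∀ j : Fin q.1, i < j → x i < x j) ∧
      (∀ y : Fin n, ∃ i : Fin q.1, y = x i) ∧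
      ∀ i : Fin q.1, ∀ j : Fin q.1, (G.Adj (x i) (x j) ↔ q.2.Adj i j)) ?_ ?_
  · refine DefP.existsFintype fun q => DefP.and (DefP.const _) ?_
    refine DefP.ex (F := fun n => Fin q.1 → Fin n) ?_
    refine DefP.and ?_ (DefP.and ?_ ?_)
    · refine DefP.forallFintype fun i => DefP.forallFintype fun j => ?_
      refine DefP.imp (DefP.const _) (DefP.lt ?_ ?_)
      all_goals (repeat' (first
          | apply DefP.oddCard | apply DefP.cardEq | apply DefP.cardLt | apply DefP.cardLe
          | apply DefP.lst | apply DefP.fst | apply DefP.nxt | apply DefP.keyLe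
          | apply DefP.keyLt | apply DefP.rtc | (apply DefP.app4; assumption)
          | (apply DefP.app3'; assumption) | (apply DefP.app3; assumption)
          | (apply DefP.app2; assumption) | (apply DefP.comp; assumption) | exact Tm.id
          | exact Tm.unit | apply Tm.fst | apply Tm.snd | apply Tm.app | exact DefP.const _
          | apply DefP.and | apply DefP.not | apply DefP.or | apply DefP.iff | apply DefP.adj
          | apply DefP.le | apply DefP.lt | apply DefP.eqFin | apply DefP.eq | apply DefP.rv
          | apply DefP.imp | apply DefP.allFin | apply DefP.exFin | apply DefP.all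
          | apply DefP.ex | assumption | (apply Tm.comp; assumption) | apply Tm.pair
          | apply Tm.lam))
    · refine DefP.allFin (DefP.existsFintype fun i => DefP.eqFin ?_ ?_)
      all_goals (repeat' (first
          | apply DefP.oddCard | apply DefP.cardEq | apply DefP.cardLt | apply DefP.cardLe
          | apply DefP.lst | apply DefP.fst | apply DefP.nxt | apply DefP.keyLe
          | apply DefP.keyLt | apply DefP.rtc | (apply DefP.app4; assumption)
          | (apply DefP.app3'; assumption) | (apply DefP.app3; assumption)
          | (apply DefP.app2; assumption) | (apply DefP.comp; assumption) | exact Tm.id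
          | exact Tm.unit | apply Tm.fst | apply Tm.snd | apply Tm.app | exact DefP.const _
          | apply DefP.and | apply DefP.not | apply DefP.or | apply DefP.iff | apply DefP.adj
          | apply DefP.le | apply DefP.lt | apply DefP.eqFin | apply DefP.eq | apply DefP.rv
          | apply DefP.imp | apply DefP.allFin | apply DefP.exFin | apply DefP.all
          | apply DefP.ex | assumption | (apply Tm.comp; assumption) | apply Tm.pair
          | apply Tm.lam))
    · refine DefP.forallFintype fun i => DefP.forallFintype fun j => ?_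
      refine DefP.iff (DefP.adj ?_ ?_) (DefP.const _)
      all_goals (repeat' (first
          | apply DefP.oddCard | apply DefP.cardEq | apply DefP.cardLt | apply DefP.cardLe
          | apply DefP.lst | apply DefP.fst | apply DefP.nxt | apply DefP.keyLe
          | apply DefP.keyLt | apply DefP.rtc | (apply DefP.app4; assumption)
          | (apply DefP.app3'; assumption) | (apply DefP.app3; assumption)
          | (apply DefP.app2; assumption) | (apply DefP.comp; assumption) | exact Tm.id
          | exact Tm.unit | apply Tm.fst | apply Tm.snd | apply Tm.app | exact DefP.const _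
          | apply DefP.and | apply DefP.not | apply DefP.or | apply DefP.iff | apply DefP.adj
          | apply DefP.le | apply DefP.lt | apply DefP.eqFin | apply DefP.eq | apply DefP.rv
          | apply DefP.imp | apply DefP.allFin | apply DefP.exFin | apply DefP.all
          | apply DefP.ex | assumption | (apply Tm.comp; assumption) | apply Tm.pair
          | apply Tm.lam))
  · intro n G X _
    constructor
    · rintro ⟨⟨n₀, G₀⟩, hP, x, hmono, hsurj, hadj⟩
      have hm : StrictMono x := fun i j hij => hmono i j hij
      have hbij : Function.Bijective x := ⟨hm.injective, fun y => by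
        obtain ⟨i, hi⟩ := hsurj y
        exact ⟨i, hi.symm⟩⟩
      have hn : (n₀ : ℕ) = n := by simpa using Fintype.card_of_bijective hbij
      obtain ⟨m, hm'⟩ := n₀
      simp only at hn
      subst hn
      have hx : x = id := by
        have := Subsingleton.elim (StrictMono.orderIsoOfSurjective x hm hbij.2) (OrderIso.refl _)
        funext i
        exact congrArg (fun e : Fin m ≃o Fin m => e i) this
      subst hx
      have hG : G₀ = G := by
        ext i j
        exact (hadj i j).symm
      subst hG
      exact ⟨by omega, hP⟩
    · rintro ⟨hn, hP⟩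
      exact ⟨⟨⟨n, by omega⟩, G⟩, hP, id, fun i j h => h, fun y => ⟨y, rfl⟩, fun i j => Iff.rfl⟩

end Pool.Agent.PMNC
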