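import Mathlib
import Pool.Agent.Lib.MP_0087d5_lc.PM

set_option autoImplicit false
set_option linter.all false

/-!
# The canonical 2-colouring of a bipartite graph is definable
-/

namespace Pool.Agent.PMNC

open Relation

/-- two steps -/
def Two {α : Type*} (R : α → α → Prop) (a b : α) : Prop := ∃ c, R a c ∧ R c b

/-- `a` is reached by an even walk from the first element of its component -/
def Side {α κ : Type*} [LinearOrder κ] (f : α → κ) (R : α → α → Prop) (a : α) : Prop :=
  ∃ m, ReflTransGen R m a ∧ (∀ x, ReflTransGen R m x → f m ≤ f x) ∧ ReflTransGen (Two R) m a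

theorem DefP.side {E S : ℕ → Type} [Env E] [Env S]
    {R : ∀ n : ℕ, SimpleGraph (Fin n) → Ctx n → E n → S n → S n → Prop}
    (hR : DefP (E := fun n => E n × (S n × S n)) (fun n G X y => R n G X y.1 y.2.1 y.2.2))
    {f : ∀ n : ℕ, E n → S n} (hf : Tm f) :
    DefP (fun n G X x => Side key (R n G X x) (f n x)) := by
  unfold Side Two
  have hf' : Tm (fun n (y : E n × S n) => f n y.1) := hf.comp (Tm.fst (H := S) Tm.id)
  (repeat' (first
      | apply DefP.oddCard | apply DefP.cardEq | apply DefP.cardLt | apply DefP.cardLe
      | apply DefP.lst | apply DefP.fst | apply DefP.nxt | apply DefP.keyLe | apply DefP.keyLt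
      | apply DefP.rtc | (apply DefP.app4; assumption) | (apply DefP.app3'; assumption)
      | (apply DefP.app3; assumption) | (apply DefP.app2; assumption)
      | (apply DefP.comp; assumption) | exact Tm.id | exact Tm.unit | apply Tm.fst
      | apply Tm.snd | apply Tm.app | exact DefP.const _ | apply DefP.and | apply DefP.not
      | apply DefP.or | apply DefP.iff | apply DefP.adj | apply DefP.le | apply DefP.lt
      | apply DefP.eqFin | apply DefP.eq | apply DefP.rv | apply DefP.imp | apply DefP.allFin
      | apply DefP.exFin | apply DefP.all | apply DefP.ex | assumption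
      | (apply Tm.comp; assumption) | apply Tm.pair | apply Tm.lam))


/-- in a bipartite graph, `Side` is a proper 2-colouring -/
theorem side_proper {α κ : Type*} [Finite α] [LinearOrder κ] {f : α → κ}
    (hf : Function.Injective f) {R : α → α → Prop} (hsym : ∀ a b, R a b → R b a)
    (col : α → Prop) (hcol : ∀ a b, R a b → (col a ↔ ¬ col b)) {a b : α} (h : R a b) :
    Side f R a ↔ ¬ Side f R b := by
  have hrt : ∀ {x y}, ReflTransGen R x y → ReflTransGen R y x := by
    intro x y hxy
    induction hxy with
    | refl => exact .refl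
    | tail _ hc ih => exact ReflTransGen.head (hsym _ _ hc) ih
  have hwalk : ∀ {m x}, ReflTransGen R m x → ((col x ↔ col m) → ReflTransGen (Two R) m x) ∧
      ((col x ↔ ¬ col m) → ∃ y, ReflTransGen (Two R) m y ∧ R y x) := by
    intro m x hmx
    induction hmx with
    | refl => exact ⟨fun _ => .refl, fun h => by tauto⟩
    | @tail y z hy hc ih =>
      have hyz := hcol y z hc
      constructor
      · intro h1
        obtain ⟨w, hw, hwy⟩ := ih.2 (by tauto)
        exact hw.tail ⟨y, hwy, hc⟩
      · intro h1
        exact ⟨y, ih.1 (by tauto), hc⟩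
  have htwo : ∀ {m x}, ReflTransGen (Two R) m x → (col x ↔ col m) := by
    intro m x hmx
    induction hmx with
    | refl => exact Iff.rfl
    | tail _ hc ih =>
      obtain ⟨w, h1, h2⟩ := hc
      have e1 := hcol _ _ h1
      have e2 := hcol _ _ h2
      tauto
  obtain ⟨m, hm1, hm2⟩ : ∃ m, ReflTransGen R a m ∧ ∀ x, ReflTransGen R a x → f m ≤ f x := by
    obtain ⟨m, hm, hmin⟩ := exists_fst (f := f) hf (A := fun x => ReflTransGen R a x) ⟨a, .refl⟩
    exact ⟨m, hm, hmin⟩
  have hside : ∀ {x}, ReflTransGen R a x → (Side f R x ↔ (col x ↔ col m)) := by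
    intro x hx
    constructor
    · rintro ⟨m', h1, h2, h3⟩
      have e : m' = m := hf (le_antisymm (h2 m (h1.trans ((hrt hx).trans hm1)))
        (hm2 m' (hx.trans (hrt h1))))
      rw [← e]
      exact htwo h3
    · intro hc
      exact ⟨m, (hrt hm1).trans hx, fun y hy => hm2 y (hm1.trans hy),
        (hwalk ((hrt hm1).trans hx)).1 hc⟩
  have e1 := hside (x := a) .refl
  have e2 := hside (x := b) (ReflTransGen.single h)
  have e3 := hcol a b h
  tauto

end Pool.Agent.PMNC
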