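import Mathlib
import Pool.Agent.Lib.MP_0087d5_lc.Side

set_option autoImplicit false
set_option linter.all false

/-!
# One augmentation of a bipartite matching along a canonical shortest augmenting path
-/

namespace Pool.Agent.PMNC

open Relation

section comb
variable {n : ℕ} (G : SimpleGraph (Fin n)) (L : Fin n → Prop) (M : Fin n × Fin n → Prop)

/-- `M` is a matching from `L` to its complement -/
structure PMat : Prop where
  edge : ∀ u v, M (u, v) → L u ∧ ¬ L v ∧ G.Adj u v
  inj1 : ∀ u v v', M (u, v) → M (u, v') → v = v'
  inj2 : ∀ u u' v, M (u, v) → M (u', v) → u = u'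

def ExL (u : Fin n) : Prop := L u ∧ ∀ v, ¬ M (u, v)

def ExR (v : Fin n) : Prop := ¬ L v ∧ ∀ u, ¬ M (u, v)

/-- two steps along an alternating path -/
def Alt (u w : Fin n) : Prop := ∃ v, G.Adj u v ∧ M (w, v)

def End (u : Fin n) : Prop := ∃ v, G.Adj u v ∧ ExR L M v

/-- `i = j + 1` -/
def IsSucc (j i : Fin n) : Prop := j < i ∧ ∀ x : Fin n, j < x → i ≤ x

def IsZero (i : Fin n) : Prop := ∀ x : Fin n, i ≤ x

/-- countdown step -/
def Cdn (p q : Fin n × Fin n) : Prop := Alt G M p.1 q.1 ∧ IsSucc q.2 p.2

/-- there is an alternating walk with `i` steps from `u` to a vertex with an exposed neighbour -/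
def Hit (u i : Fin n) : Prop :=
  ∃ w z : Fin n, End G L M w ∧ IsZero z ∧ ReflTransGen (Cdn G M) (u, i) (w, z)

def Hmin (u i : Fin n) : Prop := Hit G L M u i ∧ ∀ j : Fin n, j < i → ¬ Hit G L M u j

/-- candidates for the next vertex on a shortest path -/
def Cnd (u w : Fin n) : Prop :=
  Alt G M u w ∧ ∃ i j : Fin n, Hmin G L M u i ∧ IsSucc j i ∧ Hit G L M w j

def Nx (u w : Fin n) : Prop := Cnd G L M u w ∧ ∀ x : Fin n, Cnd G L M u x → w ≤ x

def FirstEx (a : Fin n) : Prop := ExL L M a ∧ ∀ x : Fin n, ExL L M x → a ≤ x

/-- the canonical augmenting path (its left vertices) -/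
def Pth (u : Fin n) : Prop := ∃ a, FirstEx L M a ∧ ReflTransGen (Nx G L M) a u

def ExN (u v : Fin n) : Prop := G.Adj u v ∧ ExR L M v

/-- the augmented matching -/
def Aug (e : Fin n × Fin n) : Prop :=
  (¬ Pth G L M e.1 ∧ M e) ∨ (Pth G L M e.1 ∧ ∃ w, Nx G L M e.1 w ∧ M (w, e.2)) ∨
    (Pth G L M e.1 ∧ (∃ z, IsZero z ∧ Hmin G L M e.1 z) ∧ ExN G L M e.1 e.2 ∧
      ∀ x : Fin n, ExN G L M e.1 x → e.2 ≤ x)

end comb

section def_
variable {E : ℕ → Type} [Env E]
  {L : ∀ n : ℕ, SimpleGraph (Fin n) → Ctx n → E n → Fin n → Prop}
  {M : ∀ n : ℕ, SimpleGraph (Fin n) → Ctx n → E n → Fin n × Fin n → Prop}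
  {f g : ∀ n : ℕ, E n → Fin n}

theorem DefP.exl (hL : DefP (E := fun n => E n × Fin n) (fun n G X y => L n G X y.1 y.2))
    (hM : DefP (E := fun n => E n × (Fin n × Fin n)) (fun n G X y => M n G X y.1 y.2))
    (hf : Tm (F := fun n => Fin n) f) :
    DefP (fun n G X x => ExL (L n G X x) (M n G X x) (f n x)) := by
  unfold ExL
  (repeat' (first
      | apply DefP.side | apply DefP.oddCard | apply DefP.cardEq | apply DefP.cardLt
      | apply DefP.cardLe | apply DefP.lst | apply DefP.fst | apply DefP.nxt | apply DefP.keyLe
      | apply DefP.keyLt | apply DefP.rtc | (apply DefP.app4; assumption)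
      | (apply DefP.app3'; assumption) | (apply DefP.app3; assumption)
      | (apply DefP.app2; assumption) | (apply DefP.comp; assumption) | exact Tm.id
      | exact Tm.unit | apply Tm.fst | apply Tm.snd | apply Tm.app | exact DefP.const _
      | apply DefP.and | apply DefP.not | apply DefP.or | apply DefP.iff | apply DefP.adj
      | apply DefP.le | apply DefP.lt | apply DefP.eqFin | apply DefP.eq | apply DefP.rv
      | apply DefP.imp | apply DefP.allFin | apply DefP.exFin | apply DefP.all | apply DefP.ex
      | assumption | (apply Tm.comp; assumption) | apply Tm.pair | apply Tm.lam))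

theorem DefP.exr (hL : DefP (E := fun n => E n × Fin n) (fun n G X y => L n G X y.1 y.2))
    (hM : DefP (E := fun n => E n × (Fin n × Fin n)) (fun n G X y => M n G X y.1 y.2))
    (hf : Tm (F := fun n => Fin n) f) :
    DefP (fun n G X x => ExR (L n G X x) (M n G X x) (f n x)) := by
  unfold ExR
  (repeat' (first
      | apply DefP.side | apply DefP.oddCard | apply DefP.cardEq | apply DefP.cardLt
      | apply DefP.cardLe | apply DefP.lst | apply DefP.fst | apply DefP.nxt | apply DefP.keyLe
      | apply DefP.keyLt | apply DefP.rtc | (apply DefP.app4; assumption)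
      | (apply DefP.app3'; assumption) | (apply DefP.app3; assumption)
      | (apply DefP.app2; assumption) | (apply DefP.comp; assumption) | exact Tm.id
      | exact Tm.unit | apply Tm.fst | apply Tm.snd | apply Tm.app | exact DefP.const _
      | apply DefP.and | apply DefP.not | apply DefP.or | apply DefP.iff | apply DefP.adj
      | apply DefP.le | apply DefP.lt | apply DefP.eqFin | apply DefP.eq | apply DefP.rv
      | apply DefP.imp | apply DefP.allFin | apply DefP.exFin | apply DefP.all | apply DefP.ex
      | assumption | (apply Tm.comp; assumption) | apply Tm.pair | apply Tm.lam))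

theorem DefP.alt (hM : DefP (E := fun n => E n × (Fin n × Fin n)) (fun n G X y => M n G X y.1 y.2))
    (hf : Tm (F := fun n => Fin n) f) (hg : Tm (F := fun n => Fin n) g) :
    DefP (fun n G X x => Alt G (M n G X x) (f n x) (g n x)) := by
  unfold Alt
  (repeat' (first
      | apply DefP.side | apply DefP.oddCard | apply DefP.cardEq | apply DefP.cardLt
      | apply DefP.cardLe | apply DefP.lst | apply DefP.fst | apply DefP.nxt | apply DefP.keyLe
      | apply DefP.keyLt | apply DefP.rtc | (apply DefP.app4; assumption)
      | (apply DefP.app3'; assumption) | (apply DefP.app3; assumption)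
      | (apply DefP.app2; assumption) | (apply DefP.comp; assumption) | exact Tm.id
      | exact Tm.unit | apply Tm.fst | apply Tm.snd | apply Tm.app | exact DefP.const _
      | apply DefP.and | apply DefP.not | apply DefP.or | apply DefP.iff | apply DefP.adj
      | apply DefP.le | apply DefP.lt | apply DefP.eqFin | apply DefP.eq | apply DefP.rv
      | apply DefP.imp | apply DefP.allFin | apply DefP.exFin | apply DefP.all | apply DefP.ex
      | assumption | (apply Tm.comp; assumption) | apply Tm.pair | apply Tm.lam))

theorem DefP.isSucc (hf : Tm (F := fun n => Fin n) f) (hg : Tm (F := fun n => Fin n) g) :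
    DefP (fun n G X x => IsSucc (f n x) (g n x)) := by
  unfold IsSucc
  (repeat' (first
      | apply DefP.side | apply DefP.oddCard | apply DefP.cardEq | apply DefP.cardLt
      | apply DefP.cardLe | apply DefP.lst | apply DefP.fst | apply DefP.nxt | apply DefP.keyLe
      | apply DefP.keyLt | apply DefP.rtc | (apply DefP.app4; assumption)
      | (apply DefP.app3'; assumption) | (apply DefP.app3; assumption)
      | (apply DefP.app2; assumption) | (apply DefP.comp; assumption) | exact Tm.id
      | exact Tm.unit | apply Tm.fst | apply Tm.snd | apply Tm.app | exact DefP.const _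
      | apply DefP.and | apply DefP.not | apply DefP.or | apply DefP.iff | apply DefP.adj
      | apply DefP.le | apply DefP.lt | apply DefP.eqFin | apply DefP.eq | apply DefP.rv
      | apply DefP.imp | apply DefP.allFin | apply DefP.exFin | apply DefP.all | apply DefP.ex
      | assumption | (apply Tm.comp; assumption) | apply Tm.pair | apply Tm.lam))

theorem DefP.isZero (hf : Tm (F := fun n => Fin n) f) :
    DefP (fun n G X x => IsZero (f n x)) := by
  unfold IsZero
  (repeat' (first
      | apply DefP.side | apply DefP.oddCard | apply DefP.cardEq | apply DefP.cardLt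
      | apply DefP.cardLe | apply DefP.lst | apply DefP.fst | apply DefP.nxt | apply DefP.keyLe
      | apply DefP.keyLt | apply DefP.rtc | (apply DefP.app4; assumption)
      | (apply DefP.app3'; assumption) | (apply DefP.app3; assumption)
      | (apply DefP.app2; assumption) | (apply DefP.comp; assumption) | exact Tm.id
      | exact Tm.unit | apply Tm.fst | apply Tm.snd | apply Tm.app | exact DefP.const _
      | apply DefP.and | apply DefP.not | apply DefP.or | apply DefP.iff | apply DefP.adj
      | apply DefP.le | apply DefP.lt | apply DefP.eqFin | apply DefP.eq | apply DefP.rv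
      | apply DefP.imp | apply DefP.allFin | apply DefP.exFin | apply DefP.all | apply DefP.ex
      | assumption | (apply Tm.comp; assumption) | apply Tm.pair | apply Tm.lam))

end def_


section def_
variable {E : ℕ → Type} [Env E]
  {L : ∀ n : ℕ, SimpleGraph (Fin n) → Ctx n → E n → Fin n → Prop}
  {M : ∀ n : ℕ, SimpleGraph (Fin n) → Ctx n → E n → Fin n × Fin n → Prop}
  {f g : ∀ n : ℕ, E n → Fin n}

theorem DefP.end_ (hL : DefP (E := fun n => E n × Fin n) (fun n G X y => L n G X y.1 y.2))
    (hM : DefP (E := fun n => E n × (Fin n × Fin n)) (fun n G X y => M n G X y.1 y.2))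
    (hf : Tm (F := fun n => Fin n) f) :
    DefP (fun n G X x => End G (L n G X x) (M n G X x) (f n x)) := by
  unfold End
  (repeat' (first
      | apply DefP.isZero | apply DefP.isSucc | apply DefP.alt | apply DefP.exr | apply DefP.exl
      | apply DefP.side | apply DefP.oddCard | apply DefP.cardEq | apply DefP.cardLt
      | apply DefP.cardLe | apply DefP.lst | apply DefP.fst | apply DefP.nxt | apply DefP.keyLe
      | apply DefP.keyLt | apply DefP.rtc | (apply DefP.app4; assumption)
      | (apply DefP.app3'; assumption) | (apply DefP.app3; assumption)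
      | (apply DefP.app2; assumption) | (apply DefP.comp; assumption) | exact Tm.id
      | exact Tm.unit | apply Tm.fst | apply Tm.snd | apply Tm.app | exact DefP.const _
      | apply DefP.and | apply DefP.not | apply DefP.or | apply DefP.iff | apply DefP.adj
      | apply DefP.le | apply DefP.lt | apply DefP.eqFin | apply DefP.eq | apply DefP.rv
      | apply DefP.imp | apply DefP.allFin | apply DefP.exFin | apply DefP.all | apply DefP.ex
      | assumption | (apply Tm.comp; assumption) | apply Tm.pair | apply Tm.lam))

theorem DefP.exN (hL : DefP (E := fun n => E n × Fin n) (fun n G X y => L n G X y.1 y.2))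
    (hM : DefP (E := fun n => E n × (Fin n × Fin n)) (fun n G X y => M n G X y.1 y.2))
    (hf : Tm (F := fun n => Fin n) f) (hg : Tm (F := fun n => Fin n) g) :
    DefP (fun n G X x => ExN G (L n G X x) (M n G X x) (f n x) (g n x)) := by
  unfold ExN
  (repeat' (first
      | apply DefP.isZero | apply DefP.isSucc | apply DefP.alt | apply DefP.exr | apply DefP.exl
      | apply DefP.side | apply DefP.oddCard | apply DefP.cardEq | apply DefP.cardLt
      | apply DefP.cardLe | apply DefP.lst | apply DefP.fst | apply DefP.nxt | apply DefP.keyLe
      | apply DefP.keyLt | apply DefP.rtc | (apply DefP.app4; assumption)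
      | (apply DefP.app3'; assumption) | (apply DefP.app3; assumption)
      | (apply DefP.app2; assumption) | (apply DefP.comp; assumption) | exact Tm.id
      | exact Tm.unit | apply Tm.fst | apply Tm.snd | apply Tm.app | exact DefP.const _
      | apply DefP.and | apply DefP.not | apply DefP.or | apply DefP.iff | apply DefP.adj
      | apply DefP.le | apply DefP.lt | apply DefP.eqFin | apply DefP.eq | apply DefP.rv
      | apply DefP.imp | apply DefP.allFin | apply DefP.exFin | apply DefP.all | apply DefP.ex
      | assumption | (apply Tm.comp; assumption) | apply Tm.pair | apply Tm.lam))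

theorem DefP.firstEx (hL : DefP (E := fun n => E n × Fin n) (fun n G X y => L n G X y.1 y.2))
    (hM : DefP (E := fun n => E n × (Fin n × Fin n)) (fun n G X y => M n G X y.1 y.2))
    (hf : Tm (F := fun n => Fin n) f) :
    DefP (fun n G X x => FirstEx (L n G X x) (M n G X x) (f n x)) := by
  unfold FirstEx
  (repeat' (first
      | apply DefP.isZero | apply DefP.isSucc | apply DefP.alt | apply DefP.exr | apply DefP.exl
      | apply DefP.side | apply DefP.oddCard | apply DefP.cardEq | apply DefP.cardLt
      | apply DefP.cardLe | apply DefP.lst | apply DefP.fst | apply DefP.nxt | apply DefP.keyLe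
      | apply DefP.keyLt | apply DefP.rtc | (apply DefP.app4; assumption)
      | (apply DefP.app3'; assumption) | (apply DefP.app3; assumption)
      | (apply DefP.app2; assumption) | (apply DefP.comp; assumption) | exact Tm.id
      | exact Tm.unit | apply Tm.fst | apply Tm.snd | apply Tm.app | exact DefP.const _
      | apply DefP.and | apply DefP.not | apply DefP.or | apply DefP.iff | apply DefP.adj
      | apply DefP.le | apply DefP.lt | apply DefP.eqFin | apply DefP.eq | apply DefP.rv
      | apply DefP.imp | apply DefP.allFin | apply DefP.exFin | apply DefP.all | apply DefP.ex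
      | assumption | (apply Tm.comp; assumption) | apply Tm.pair | apply Tm.lam))

theorem DefP.cdn (hM : DefP (E := fun n => E n × (Fin n × Fin n)) (fun n G X y => M n G X y.1 y.2))
    {f g : ∀ n : ℕ, E n → Fin n × Fin n} (hf : Tm (F := fun n => Fin n × Fin n) f)
    (hg : Tm (F := fun n => Fin n × Fin n) g) :
    DefP (fun n G X x => Cdn G (M n G X x) (f n x) (g n x)) := by
  unfold Cdn
  (repeat' (first
      | apply DefP.isZero | apply DefP.isSucc | apply DefP.alt | apply DefP.exr | apply DefP.exl
      | apply DefP.side | apply DefP.oddCard | apply DefP.cardEq | apply DefP.cardLt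
      | apply DefP.cardLe | apply DefP.lst | apply DefP.fst | apply DefP.nxt | apply DefP.keyLe
      | apply DefP.keyLt | apply DefP.rtc | (apply DefP.app4; assumption)
      | (apply DefP.app3'; assumption) | (apply DefP.app3; assumption)
      | (apply DefP.app2; assumption) | (apply DefP.comp; assumption) | exact Tm.id
      | exact Tm.unit | apply Tm.fst | apply Tm.snd | apply Tm.app | exact DefP.const _
      | apply DefP.and | apply DefP.not | apply DefP.or | apply DefP.iff | apply DefP.adj
      | apply DefP.le | apply DefP.lt | apply DefP.eqFin | apply DefP.eq | apply DefP.rv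
      | apply DefP.imp | apply DefP.allFin | apply DefP.exFin | apply DefP.all | apply DefP.ex
      | assumption | (apply Tm.comp; assumption) | apply Tm.pair | apply Tm.lam))

end def_


section def_
variable {E : ℕ → Type} [Env E]
  {L : ∀ n : ℕ, SimpleGraph (Fin n) → Ctx n → E n → Fin n → Prop}
  {M : ∀ n : ℕ, SimpleGraph (Fin n) → Ctx n → E n → Fin n × Fin n → Prop}
  {f g : ∀ n : ℕ, E n → Fin n}

theorem DefP.hit (hL : DefP (E := fun n => E n × Fin n) (fun n G X y => L n G X y.1 y.2))
    (hM : DefP (E := fun n => E n × (Fin n × Fin n)) (fun n G X y => M n G X y.1 y.2))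
    (hf : Tm (F := fun n => Fin n) f) (hg : Tm (F := fun n => Fin n) g) :
    DefP (fun n G X x => Hit G (L n G X x) (M n G X x) (f n x) (g n x)) := by
  unfold Hit
  refine DefP.exFin (DefP.exFin (DefP.and (by (repeat' (first
      | apply DefP.cdn | apply DefP.firstEx | apply DefP.exN | apply DefP.end_
      | apply DefP.isZero | apply DefP.isSucc | apply DefP.alt | apply DefP.exr | apply DefP.exl
      | apply DefP.side | apply DefP.oddCard | apply DefP.cardEq | apply DefP.cardLt
      | apply DefP.cardLe | apply DefP.lst | apply DefP.fst | apply DefP.nxt | apply DefP.keyLe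
      | apply DefP.keyLt | apply DefP.rtc | (apply DefP.app4; assumption)
      | (apply DefP.app3'; assumption) | (apply DefP.app3; assumption)
      | (apply DefP.app2; assumption) | (apply DefP.comp; assumption) | exact Tm.id
      | exact Tm.unit | apply Tm.fst | apply Tm.snd | apply Tm.app | exact DefP.const _
      | apply DefP.and | apply DefP.not | apply DefP.or | apply DefP.iff | apply DefP.adj
      | apply DefP.le | apply DefP.lt | apply DefP.eqFin | apply DefP.eq | apply DefP.rv
      | apply DefP.imp | apply DefP.allFin | apply DefP.exFin | apply DefP.all | apply DefP.ex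
      | assumption | (apply Tm.comp; assumption) | apply Tm.pair
      | apply Tm.lam))) (DefP.and (by (repeat' (first
      | apply DefP.cdn | apply DefP.firstEx | apply DefP.exN | apply DefP.end_
      | apply DefP.isZero | apply DefP.isSucc | apply DefP.alt | apply DefP.exr | apply DefP.exl
      | apply DefP.side | apply DefP.oddCard | apply DefP.cardEq | apply DefP.cardLt
      | apply DefP.cardLe | apply DefP.lst | apply DefP.fst | apply DefP.nxt | apply DefP.keyLe
      | apply DefP.keyLt | apply DefP.rtc | (apply DefP.app4; assumption)
      | (apply DefP.app3'; assumption) | (apply DefP.app3; assumption)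
      | (apply DefP.app2; assumption) | (apply DefP.comp; assumption) | exact Tm.id
      | exact Tm.unit | apply Tm.fst | apply Tm.snd | apply Tm.app | exact DefP.const _
      | apply DefP.and | apply DefP.not | apply DefP.or | apply DefP.iff | apply DefP.adj
      | apply DefP.le | apply DefP.lt | apply DefP.eqFin | apply DefP.eq | apply DefP.rv
      | apply DefP.imp | apply DefP.allFin | apply DefP.exFin | apply DefP.all | apply DefP.ex
      | assumption | (apply Tm.comp; assumption) | apply Tm.pair | apply Tm.lam)))
    (DefP.rtc (S := fun n => Fin n × Fin n) ?_ ?_ ?_))))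
  all_goals (repeat' (first
      | apply DefP.cdn | apply DefP.firstEx | apply DefP.exN | apply DefP.end_
      | apply DefP.isZero | apply DefP.isSucc | apply DefP.alt | apply DefP.exr | apply DefP.exl
      | apply DefP.side | apply DefP.oddCard | apply DefP.cardEq | apply DefP.cardLt
      | apply DefP.cardLe | apply DefP.lst | apply DefP.fst | apply DefP.nxt | apply DefP.keyLe
      | apply DefP.keyLt | apply DefP.rtc | (apply DefP.app4; assumption)
      | (apply DefP.app3'; assumption) | (apply DefP.app3; assumption)
      | (apply DefP.app2; assumption) | (apply DefP.comp; assumption) | exact Tm.id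
      | exact Tm.unit | apply Tm.fst | apply Tm.snd | apply Tm.app | exact DefP.const _
      | apply DefP.and | apply DefP.not | apply DefP.or | apply DefP.iff | apply DefP.adj
      | apply DefP.le | apply DefP.lt | apply DefP.eqFin | apply DefP.eq | apply DefP.rv
      | apply DefP.imp | apply DefP.allFin | apply DefP.exFin | apply DefP.all | apply DefP.ex
      | assumption | (apply Tm.comp; assumption) | apply Tm.pair | apply Tm.lam))

end def_


section def_
variable {E : ℕ → Type} [Env E]
  {L : ∀ n : ℕ, SimpleGraph (Fin n) → Ctx n → E n → Fin n → Prop}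
  {M : ∀ n : ℕ, SimpleGraph (Fin n) → Ctx n → E n → Fin n × Fin n → Prop}
  {f g : ∀ n : ℕ, E n → Fin n}

theorem DefP.hmin (hL : DefP (E := fun n => E n × Fin n) (fun n G X y => L n G X y.1 y.2))
    (hM : DefP (E := fun n => E n × (Fin n × Fin n)) (fun n G X y => M n G X y.1 y.2))
    (hf : Tm (F := fun n => Fin n) f) (hg : Tm (F := fun n => Fin n) g) :
    DefP (fun n G X x => Hmin G (L n G X x) (M n G X x) (f n x) (g n x)) := by
  unfold Hmin
  (repeat' (first
      | apply DefP.hit | apply DefP.cdn | apply DefP.firstEx | apply DefP.exN | apply DefP.end_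
      | apply DefP.isZero | apply DefP.isSucc | apply DefP.alt | apply DefP.exr | apply DefP.exl
      | apply DefP.side | apply DefP.oddCard | apply DefP.cardEq | apply DefP.cardLt
      | apply DefP.cardLe | apply DefP.lst | apply DefP.fst | apply DefP.nxt | apply DefP.keyLe
      | apply DefP.keyLt | apply DefP.rtc | (apply DefP.app4; assumption)
      | (apply DefP.app3'; assumption) | (apply DefP.app3; assumption)
      | (apply DefP.app2; assumption) | (apply DefP.comp; assumption) | exact Tm.id
      | exact Tm.unit | apply Tm.fst | apply Tm.snd | apply Tm.app | exact DefP.const _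
      | apply DefP.and | apply DefP.not | apply DefP.or | apply DefP.iff | apply DefP.adj
      | apply DefP.le | apply DefP.lt | apply DefP.eqFin | apply DefP.eq | apply DefP.rv
      | apply DefP.imp | apply DefP.allFin | apply DefP.exFin | apply DefP.all | apply DefP.ex
      | assumption | (apply Tm.comp; assumption) | apply Tm.pair | apply Tm.lam))

end def_


section def_
variable {E : ℕ → Type} [Env E]
  {L : ∀ n : ℕ, SimpleGraph (Fin n) → Ctx n → E n → Fin n → Prop}
  {M : ∀ n : ℕ, SimpleGraph (Fin n) → Ctx n → E n → Fin n × Fin n → Prop}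
  {f g : ∀ n : ℕ, E n → Fin n}

theorem DefP.cnd (hL : DefP (E := fun n => E n × Fin n) (fun n G X y => L n G X y.1 y.2))
    (hM : DefP (E := fun n => E n × (Fin n × Fin n)) (fun n G X y => M n G X y.1 y.2))
    (hf : Tm (F := fun n => Fin n) f) (hg : Tm (F := fun n => Fin n) g) :
    DefP (fun n G X x => Cnd G (L n G X x) (M n G X x) (f n x) (g n x)) := by
  unfold Cnd
  (repeat' (first
      | apply DefP.hmin | apply DefP.hit | apply DefP.cdn | apply DefP.firstEx | apply DefP.exN
      | apply DefP.end_ | apply DefP.isZero | apply DefP.isSucc | apply DefP.alt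
      | apply DefP.exr | apply DefP.exl | apply DefP.side | apply DefP.oddCard
      | apply DefP.cardEq | apply DefP.cardLt | apply DefP.cardLe | apply DefP.lst
      | apply DefP.fst | apply DefP.nxt | apply DefP.keyLe | apply DefP.keyLt | apply DefP.rtc
      | (apply DefP.app4; assumption) | (apply DefP.app3'; assumption)
      | (apply DefP.app3; assumption) | (apply DefP.app2; assumption)
      | (apply DefP.comp; assumption) | exact Tm.id | exact Tm.unit | apply Tm.fst
      | apply Tm.snd | apply Tm.app | exact DefP.const _ | apply DefP.and | apply DefP.not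
      | apply DefP.or | apply DefP.iff | apply DefP.adj | apply DefP.le | apply DefP.lt
      | apply DefP.eqFin | apply DefP.eq | apply DefP.rv | apply DefP.imp | apply DefP.allFin
      | apply DefP.exFin | apply DefP.all | apply DefP.ex | assumption
      | (apply Tm.comp; assumption) | apply Tm.pair | apply Tm.lam))

end def_


section def_
variable {E : ℕ → Type} [Env E]
  {L : ∀ n : ℕ, SimpleGraph (Fin n) → Ctx n → E n → Fin n → Prop}
  {M : ∀ n : ℕ, SimpleGraph (Fin n) → Ctx n → E n → Fin n × Fin n → Prop}
  {f g : ∀ n : ℕ, E n → Fin n}

theorem DefP.nx (hL : DefP (E := fun n => E n × Fin n) (fun n G X y => L n G X y.1 y.2))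
    (hM : DefP (E := fun n => E n × (Fin n × Fin n)) (fun n G X y => M n G X y.1 y.2))
    (hf : Tm (F := fun n => Fin n) f) (hg : Tm (F := fun n => Fin n) g) :
    DefP (fun n G X x => Nx G (L n G X x) (M n G X x) (f n x) (g n x)) := by
  unfold Nx
  (repeat' (first
      | apply DefP.cnd | apply DefP.hmin | apply DefP.hit | apply DefP.cdn | apply DefP.firstEx
      | apply DefP.exN | apply DefP.end_ | apply DefP.isZero | apply DefP.isSucc
      | apply DefP.alt | apply DefP.exr | apply DefP.exl | apply DefP.side | apply DefP.oddCard
      | apply DefP.cardEq | apply DefP.cardLt | apply DefP.cardLe | apply DefP.lst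
      | apply DefP.fst | apply DefP.nxt | apply DefP.keyLe | apply DefP.keyLt | apply DefP.rtc
      | (apply DefP.app4; assumption) | (apply DefP.app3'; assumption)
      | (apply DefP.app3; assumption) | (apply DefP.app2; assumption)
      | (apply DefP.comp; assumption) | exact Tm.id | exact Tm.unit | apply Tm.fst
      | apply Tm.snd | apply Tm.app | exact DefP.const _ | apply DefP.and | apply DefP.not
      | apply DefP.or | apply DefP.iff | apply DefP.adj | apply DefP.le | apply DefP.lt
      | apply DefP.eqFin | apply DefP.eq | apply DefP.rv | apply DefP.imp | apply DefP.allFin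
      | apply DefP.exFin | apply DefP.all | apply DefP.ex | assumption
      | (apply Tm.comp; assumption) | apply Tm.pair | apply Tm.lam))

end def_


section def_
variable {E : ℕ → Type} [Env E]
  {L : ∀ n : ℕ, SimpleGraph (Fin n) → Ctx n → E n → Fin n → Prop}
  {M : ∀ n : ℕ, SimpleGraph (Fin n) → Ctx n → E n → Fin n × Fin n → Prop}
  {f g : ∀ n : ℕ, E n → Fin n}

theorem DefP.pth (hL : DefP (E := fun n => E n × Fin n) (fun n G X y => L n G X y.1 y.2))
    (hM : DefP (E := fun n => E n × (Fin n × Fin n)) (fun n G X y => M n G X y.1 y.2))
    (hf : Tm (F := fun n => Fin n) f) :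
    DefP (fun n G X x => Pth G (L n G X x) (M n G X x) (f n x)) := by
  unfold Pth
  (repeat' (first
      | apply DefP.nx | apply DefP.cnd | apply DefP.hmin | apply DefP.hit | apply DefP.cdn
      | apply DefP.firstEx | apply DefP.exN | apply DefP.end_ | apply DefP.isZero
      | apply DefP.isSucc | apply DefP.alt | apply DefP.exr | apply DefP.exl | apply DefP.side
      | apply DefP.oddCard | apply DefP.cardEq | apply DefP.cardLt | apply DefP.cardLe
      | apply DefP.lst | apply DefP.fst | apply DefP.nxt | apply DefP.keyLe | apply DefP.keyLt
      | apply DefP.rtc | (apply DefP.app4; assumption) | (apply DefP.app3'; assumption)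
      | (apply DefP.app3; assumption) | (apply DefP.app2; assumption)
      | (apply DefP.comp; assumption) | exact Tm.id | exact Tm.unit | apply Tm.fst
      | apply Tm.snd | apply Tm.app | exact DefP.const _ | apply DefP.and | apply DefP.not
      | apply DefP.or | apply DefP.iff | apply DefP.adj | apply DefP.le | apply DefP.lt
      | apply DefP.eqFin | apply DefP.eq | apply DefP.rv | apply DefP.imp | apply DefP.allFin
      | apply DefP.exFin | apply DefP.all | apply DefP.ex | assumption
      | (apply Tm.comp; assumption) | apply Tm.pair | apply Tm.lam))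

end def_


section def_
variable {E : ℕ → Type} [Env E]
  {L : ∀ n : ℕ, SimpleGraph (Fin n) → Ctx n → E n → Fin n → Prop}
  {M : ∀ n : ℕ, SimpleGraph (Fin n) → Ctx n → E n → Fin n × Fin n → Prop}
  {f g : ∀ n : ℕ, E n → Fin n}

theorem DefP.aug (hL : DefP (E := fun n => E n × Fin n) (fun n G X y => L n G X y.1 y.2))
    (hM : DefP (E := fun n => E n × (Fin n × Fin n)) (fun n G X y => M n G X y.1 y.2))
    {e : ∀ n : ℕ, E n → Fin n × Fin n} (he : Tm (F := fun n => Fin n × Fin n) e) :
    DefP (fun n G X x => Aug G (L n G X x) (M n G X x) (e n x)) := by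
  unfold Aug
  (repeat' (first
      | apply DefP.pth | apply DefP.nx | apply DefP.cnd | apply DefP.hmin | apply DefP.hit
      | apply DefP.cdn | apply DefP.firstEx | apply DefP.exN | apply DefP.end_
      | apply DefP.isZero | apply DefP.isSucc | apply DefP.alt | apply DefP.exr | apply DefP.exl
      | apply DefP.side | apply DefP.oddCard | apply DefP.cardEq | apply DefP.cardLt
      | apply DefP.cardLe | apply DefP.lst | apply DefP.fst | apply DefP.nxt | apply DefP.keyLe
      | apply DefP.keyLt | apply DefP.rtc | (apply DefP.app4; assumption)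
      | (apply DefP.app3'; assumption) | (apply DefP.app3; assumption)
      | (apply DefP.app2; assumption) | (apply DefP.comp; assumption) | exact Tm.id
      | exact Tm.unit | apply Tm.fst | apply Tm.snd | apply Tm.app | exact DefP.const _
      | apply DefP.and | apply DefP.not | apply DefP.or | apply DefP.iff | apply DefP.adj
      | apply DefP.le | apply DefP.lt | apply DefP.eqFin | apply DefP.eq | apply DefP.rv
      | apply DefP.imp | apply DefP.allFin | apply DefP.exFin | apply DefP.all | apply DefP.ex
      | assumption | (apply Tm.comp; assumption) | apply Tm.pair | apply Tm.lam))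

end def_


end Pool.Agent.PMNC
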