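import Mathlib
import Pool.Agent.Lib.MP_0087d5_lc.Augment

set_option autoImplicit false
set_option linter.all false

/-!
# One augmentation increases the matching by one edge
-/

namespace Pool.Agent.PMNC

open Relation

/-- shortest paths have fewer steps than there are elements -/
theorem reach_card_pred {α : Type*} [Finite α] {R : α → α → Prop} {a b : α}
    (h : Relation.ReflTransGen R a b) : ∃ m < Nat.card α, reach R m a b := by
  classical
  have hex : ∃ l, reach R l a b := ⟨_, reach_card h⟩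
  obtain ⟨l, hl⟩ := hex
  by_contra hcon
  push Not at hcon
  have hns : ∀ k < Nat.card α, ∃ b, reach R (k + 1) a b ∧ ¬ reach R k a b := by
    intro k hk
    by_contra hc
    push Not at hc
    exact hcon k hk (reach_stable hc l b hl)
  have hcard : ∀ k ≤ Nat.card α, k + 1 ≤ {b | reach R k a b}.ncard := by
    intro k
    induction k with
    | zero =>
      intro _
      have : {b | reach R 0 a b} = {a} := by ext x; exact eq_comm
      rw [this, Set.ncard_singleton]
    | succ k ih =>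
      intro hk
      obtain ⟨c, hc1, hc2⟩ := hns k (by omega)
      have : {b | reach R k a b}.ncard < {b | reach R (k + 1) a b}.ncard := by
        apply Set.ncard_lt_ncard
        · refine ⟨fun x hx => Or.inl hx, fun hsub => hc2 (hsub hc1)⟩
        · exact Set.toFinite _
      have := ih (by omega)
      omega
  have h1 := hcard (Nat.card α) le_rfl
  have h2 : {b | reach R (Nat.card α) a b}.ncard ≤ Nat.card α := by
    have := Set.ncard_le_ncard (Set.subset_univ {b | reach R (Nat.card α) a b})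
    rwa [Set.ncard_univ] at this
  omega

/-- walks with exactly `m` steps to a target -/
def hitN {α : Type*} (R : α → α → Prop) (T : α → Prop) : ℕ → α → Prop
  | 0, a => T a
  | m + 1, a => ∃ b, R a b ∧ hitN R T m b

theorem hitN_of_reach {α : Type*} {R : α → α → Prop} {T : α → Prop} {m : ℕ} {a b : α}
    (h : reach R m a b) {j : ℕ} (hb : hitN R T j b) : ∃ l ≤ m + j, hitN R T l a := by
  induction m generalizing b j with
  | zero => cases h; exact ⟨j, by omega, hb⟩
  | succ m ih =>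
    rcases h with h | ⟨c, h, hc⟩
    · obtain ⟨l, hl, hh⟩ := ih h hb
      exact ⟨l, by omega, hh⟩
    · obtain ⟨l, hl, hh⟩ := ih h (j := j + 1) ⟨b, hc, hb⟩
      exact ⟨l, by omega, hh⟩

section comb
variable {n : ℕ} {G : SimpleGraph (Fin n)} {L : Fin n → Prop} {M : Fin n × Fin n → Prop}

theorem isSucc_iff {j i : Fin n} : IsSucc j i ↔ i.val = j.val + 1 := by
  unfold IsSucc
  constructor
  · rintro ⟨h1, h2⟩
    have h3 := h2 ⟨j.val + 1, by have := i.2; have := Fin.lt_def.1 h1; omega⟩ (by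
      rw [Fin.lt_def]; simp)
    rw [Fin.le_def] at h3
    rw [Fin.lt_def] at h1
    simp at h3
    omega
  · intro h
    refine ⟨by rw [Fin.lt_def]; omega, fun x hx => ?_⟩
    rw [Fin.lt_def] at hx
    rw [Fin.le_def]
    omega

theorem isZero_iff {i : Fin n} : IsZero i ↔ i.val = 0 := by
  unfold IsZero
  constructor
  · intro h
    have := h ⟨0, by have := i.2; omega⟩
    rw [Fin.le_def] at this
    simpa using this
  · intro h x
    rw [Fin.le_def]
    omega

theorem hit_iff {u i : Fin n} : Hit G L M u i ↔ hitN (Alt G M) (End G L M) i.val u := by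
  constructor
  · rintro ⟨w, z, hw, hz, hp⟩
    rw [isZero_iff] at hz
    have key : ∀ p q : Fin n × Fin n, ReflTransGen (Cdn G M) p q → q.2.val = 0 →
        End G L M q.1 → hitN (Alt G M) (End G L M) p.2.val p.1 := by
      intro p q hpq hq hE
      induction hpq using ReflTransGen.head_induction_on with
      | refl => rw [hq]; exact hE
      | head h _ ih =>
        obtain ⟨h1, h2⟩ := h
        rw [isSucc_iff] at h2
        rw [h2]
        exact ⟨_, h1, ih⟩
    exact key (u, i) (w, z) hp hz hw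
  · have key : ∀ (m : ℕ) (u i : Fin n), i.val = m → hitN (Alt G M) (End G L M) m u →
        Hit G L M u i := by
      intro m
      induction m with
      | zero =>
        intro u i hi h
        exact ⟨u, i, h, isZero_iff.2 hi, .refl⟩
      | succ m ih =>
        intro u i hi h
        obtain ⟨w, hw, hh⟩ := h
        obtain ⟨w', z, h1, h2, h3⟩ := ih w ⟨m, by have := i.2; omega⟩ rfl hh
        exact ⟨w', z, h1, h2, ReflTransGen.head ⟨hw, isSucc_iff.2 hi⟩ h3⟩
    exact key _ u i rfl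

theorem hmin_unique {u i j : Fin n} (hi : Hmin G L M u i) (hj : Hmin G L M u j) : i = j := by
  rcases lt_trichotomy i j with h | h | h
  · exact absurd hi.1 (hj.2 i h)
  · exact h
  · exact absurd hj.1 (hi.2 j h)

theorem exists_hmin {u i : Fin n} (h : Hit G L M u i) : ∃ j, Hmin G L M u j := by
  obtain ⟨j, hj, hm⟩ := exists_fst (f := fun x : Fin n => x) Function.injective_id
    (A := fun x => Hit G L M u x) ⟨i, h⟩
  exact ⟨j, hj, fun x hx hc => absurd (hm x hc) (not_le.2 hx)⟩

theorem cnd_hmin {u w i : Fin n} (h : Cnd G L M u w) (hi : Hmin G L M u i) :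
    ∃ j, i.val = j.val + 1 ∧ Hmin G L M w j := by
  obtain ⟨ha, i', j, hi', hs, hj⟩ := h
  obtain rfl := hmin_unique hi hi'
  rw [isSucc_iff] at hs
  refine ⟨j, hs, hj, fun x hx hc => ?_⟩
  rw [Fin.lt_def] at hx
  have hx' : x.val + 1 < n := by have := i.2; omega
  refine hi.2 ⟨x.val + 1, hx'⟩ (by rw [Fin.lt_def]; simp; omega) ?_
  rw [hit_iff]
  exact ⟨w, ha, hit_iff.1 hc⟩

theorem exists_nx {u i : Fin n} (hi : Hmin G L M u i) (h0 : i.val ≠ 0) : ∃ w, Nx G L M u w := by
  have h1 := hit_iff.1 hi.1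
  obtain ⟨m, hm⟩ := Nat.exists_eq_succ_of_ne_zero h0
  rw [hm] at h1
  obtain ⟨w, hw, hh⟩ := h1
  have hc : Cnd G L M u w := ⟨hw, i, ⟨m, by have := i.2; omega⟩, hi, isSucc_iff.2 hm, hit_iff.2 hh⟩
  obtain ⟨x, hx, hmin⟩ := exists_fst (f := fun x : Fin n => x) Function.injective_id
    (A := fun x => Cnd G L M u x) ⟨w, hc⟩
  exact ⟨x, hx, hmin⟩

theorem nx_unique {u w w' : Fin n} (h : Nx G L M u w) (h' : Nx G L M u w') : w = w' :=
  le_antisymm (h.2 _ h'.1) (h'.2 _ h.1)

/-- along the path the distance decreases by one -/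
theorem path_hmin {a u i : Fin n} (ha : Hmin G L M a i) (h : ReflTransGen (Nx G L M) a u) :
    ∃ j, Hmin G L M u j ∧ j.val ≤ i.val ∧ (j.val = i.val → a = u) := by
  induction h with
  | refl => exact ⟨i, ha, le_rfl, fun _ => rfl⟩
  | tail _ hc ih =>
    obtain ⟨j, hj, hle, _⟩ := ih
    obtain ⟨j', h1, h2⟩ := cnd_hmin hc.1 hj
    exact ⟨j', h2, by omega, fun h => by omega⟩

theorem path_eq {a u u' i j : Fin n} (ha : Hmin G L M a i) (h : ReflTransGen (Nx G L M) a u)
    (h' : ReflTransGen (Nx G L M) a u') (hj : Hmin G L M u j) (hj' : Hmin G L M u' j) :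
    u = u' := by
  have hru : Relator.RightUnique (Nx G L M) := fun x y z h1 h2 => nx_unique h1 h2
  rcases ReflTransGen.total_of_right_unique hru h h' with h1 | h1
  · obtain ⟨k, hk, _, h3⟩ := path_hmin hj h1
    obtain rfl := hmin_unique hk hj'
    exact h3 rfl
  · obtain ⟨k, hk, _, h3⟩ := path_hmin hj' h1
    obtain rfl := hmin_unique hk hj
    exact (h3 rfl).symm

theorem path_left (hM : PMat G L M) {a u : Fin n} (ha : ExL L M a)
    (h : ReflTransGen (Nx G L M) a u) : L u := by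
  induction h with
  | refl => exact ha.1
  | tail _ hc _ =>
    obtain ⟨v, _, hv⟩ := hc.1.1
    exact (hM.edge _ _ hv).1

/-- an exposed left vertex reaches an exposed right vertex if there is a perfect matching -/
theorem exists_end (hM : PMat G L M) (f : Fin n → Fin n) (hf : ∀ v, f (f v) = v)
    (hfa : ∀ v, G.Adj v (f v)) (hL : ∀ u v, G.Adj u v → L u → ¬ L v) {a : Fin n}
    (ha : ExL L M a) : ∃ i, Hmin G L M a i := by
  have hex : ∃ w, ReflTransGen (Alt G M) a w ∧ End G L M w := by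
    by_contra hcon
    push Not at hcon
    have hR : ∀ u, ReflTransGen (Alt G M) a u → L u := by
      intro u hu
      rcases ReflTransGen.cases_tail hu with h | ⟨c, _, h⟩
      · rw [h]; exact ha.1
      · obtain ⟨v, _, hv⟩ := h
        exact (hM.edge _ _ hv).1
    have hg : ∀ u : {u // ReflTransGen (Alt G M) a u},
        ∃ w : {u // ReflTransGen (Alt G M) a u}, M (w.1, f u.1) := by
      rintro ⟨u, hu⟩
      have h1 := hcon u hu
      have h2 : ¬ L (f u) := hL _ _ (hfa u) (hR u hu)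
      have h3 : ¬ ExR L M (f u) := fun h => h1 ⟨f u, hfa u, h⟩
      have h4 : ∃ w, M (w, f u) := by
        by_contra hc
        push Not at hc
        exact h3 ⟨h2, hc⟩
      obtain ⟨w, hw⟩ := h4
      exact ⟨⟨w, hu.tail ⟨f u, hfa u, hw⟩⟩, hw⟩
    choose g hg using hg
    have hinj : Function.Injective g := by
      intro x y hxy
      have h1 := hg x
      have h2 := hg y
      rw [hxy] at h1
      have h3 := hM.inj1 _ _ _ h1 h2
      apply Subtype.ext
      rw [← hf x.1, h3, hf]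
    obtain ⟨x, hx⟩ := (Finite.injective_iff_surjective.1 hinj) ⟨a, .refl⟩
    have h1 := hg x
    rw [hx] at h1
    exact ha.2 _ h1
  obtain ⟨w, hw, hE⟩ := hex
  obtain ⟨m, hm, hr⟩ := reach_card_pred hw
  obtain ⟨l, hl, hh⟩ := hitN_of_reach (T := End G L M) hr (j := 0) hE
  rw [Nat.card_eq_fintype_card, Fintype.card_fin] at hm
  exact exists_hmin (i := ⟨l, by omega⟩) (hit_iff.2 hh)

theorem aug_pmat (hM : PMat G L M) (hgood : ∀ a, FirstEx L M a → ∃ i, Hmin G L M a i) :
    PMat G L (Aug G L M) := by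
  have hP : ∀ {u}, Pth G L M u → L u ∧ ∃ j, Hmin G L M u j := by
    rintro u ⟨a, ha, hp⟩
    obtain ⟨i, hi⟩ := hgood a ha
    obtain ⟨j, hj, _⟩ := path_hmin hi hp
    exact ⟨path_left hM ha.1 hp, j, hj⟩
  have hPeq : ∀ {u u' j}, Pth G L M u → Pth G L M u' → Hmin G L M u j → Hmin G L M u' j →
      u = u' := by
    rintro u u' j ⟨a, ha, hp⟩ ⟨a', ha', hp'⟩ hj hj'
    obtain rfl : a = a' := le_antisymm (ha.2 _ ha'.1) (ha'.2 _ ha.1)
    obtain ⟨i, hi⟩ := hgood a ha
    exact path_eq hi hp hp' hj hj'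
  have hPn : ∀ {u w}, Pth G L M u → Nx G L M u w → Pth G L M w := by
    rintro u w ⟨a, ha, hp⟩ hn
    exact ⟨a, ha, hp.tail hn⟩
  have hNeq : ∀ {u u' w}, Pth G L M u → Pth G L M u' → Nx G L M u w → Nx G L M u' w →
      u = u' := by
    intro u u' w hu hu' hn hn'
    obtain ⟨j, hj⟩ := (hP hu).2
    obtain ⟨j', hj'⟩ := (hP hu').2
    obtain ⟨k, hk, hk2⟩ := cnd_hmin hn.1 hj
    obtain ⟨k', hk', hk2'⟩ := cnd_hmin hn'.1 hj'
    obtain rfl := hmin_unique hk2 hk2'
    obtain rfl : j = j' := Fin.ext (by omega)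
    exact hPeq hu hu' hj hj'
  have hNz : ∀ {u w z}, Nx G L M u w → Hmin G L M u z → ¬ IsZero z := by
    intro u w z hn hz hz0
    obtain ⟨k, hk, _⟩ := cnd_hmin hn.1 hz
    rw [isZero_iff] at hz0
    omega
  refine ⟨?_, ?_, ?_⟩
  · rintro u v (⟨_, h⟩ | ⟨hp, w, hn, hw⟩ | ⟨hp, ⟨z, hz, hzm⟩, ⟨h1, h2⟩, h3⟩)
    · exact hM.edge _ _ h
    · obtain ⟨v', ha, hv'⟩ := hn.1.1
      obtain rfl := hM.inj1 _ _ _ hw hv'
      exact ⟨(hP hp).1, (hM.edge _ _ hw).2.1, ha⟩
    · exact ⟨(hP hp).1, h2.1, h1⟩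
  · rintro u v v' (⟨hn1, h⟩ | ⟨hp, w, hn, hw⟩ | ⟨hp, ⟨z, hz, hzm⟩, h12, h3⟩)
      (⟨hn1', h'⟩ | ⟨hp', w', hn', hw'⟩ | ⟨hp', ⟨z', hz', hzm'⟩, h12', h3'⟩)
    · exact hM.inj1 _ _ _ h h'
    · exact absurd hp' hn1
    · exact absurd hp' hn1
    · exact absurd hp hn1'
    · obtain rfl := nx_unique hn hn'
      exact hM.inj1 _ _ _ hw hw'
    · exact absurd hz' (hNz hn hzm')
    · exact absurd hp hn1'
    · exact absurd hz (hNz hn' hzm)
    · exact le_antisymm (h3 _ h12') (h3' _ h12)
  · rintro u u' v (⟨hn1, h⟩ | ⟨hp, w, hn, hw⟩ | ⟨hp, ⟨z, hz, hzm⟩, h12, h3⟩)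
      (⟨hn1', h'⟩ | ⟨hp', w', hn', hw'⟩ | ⟨hp', ⟨z', hz', hzm'⟩, h12', h3'⟩)
    · exact hM.inj2 _ _ _ h h'
    · obtain rfl := hM.inj2 _ _ _ h hw'
      exact absurd (hPn hp' hn') hn1
    · exact absurd h (h12'.2.2 _)
    · obtain rfl := hM.inj2 _ _ _ h' hw
      exact absurd (hPn hp hn) hn1'
    · obtain rfl := hM.inj2 _ _ _ hw hw'
      exact hNeq hp hp' hn hn'
    · exact absurd hw (h12'.2.2 _)
    · exact absurd h' (h12.2.2 _)
    · exact absurd hw' (h12.2.2 _)
    · obtain rfl : z = z' := Fin.ext ((isZero_iff.1 hz).trans (isZero_iff.1 hz').symm)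
      exact hPeq hp hp' hzm hzm'

theorem aug_dom (hM : PMat G L M) (hgood : ∀ a, FirstEx L M a → ∃ i, Hmin G L M a i)
    {u : Fin n} (h : (∃ v, M (u, v)) ∨ FirstEx L M u) : ∃ v, Aug G L M (u, v) := by
  by_cases hp : Pth G L M u
  · obtain ⟨a, ha, hpa⟩ := hp
    obtain ⟨i, hi⟩ := hgood a ha
    obtain ⟨j, hj, _⟩ := path_hmin hi hpa
    by_cases h0 : j.val = 0
    · have h1 := hit_iff.1 hj.1
      rw [h0] at h1
      obtain ⟨v, hv⟩ := h1
      obtain ⟨x, hx, hmin⟩ := exists_fst (f := fun x : Fin n => x) Function.injective_id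
        (A := fun x => ExN G L M u x) ⟨v, hv⟩
      exact ⟨x, Or.inr (Or.inr ⟨⟨a, ha, hpa⟩, ⟨j, isZero_iff.2 h0, hj⟩, hx, hmin⟩)⟩
    · obtain ⟨w, hw⟩ := exists_nx hj h0
      obtain ⟨v, _, hv⟩ := hw.1.1
      exact ⟨v, Or.inr (Or.inl ⟨⟨a, ha, hpa⟩, w, hw, hv⟩)⟩
  · rcases h with ⟨v, hv⟩ | h
    · exact ⟨v, Or.inl ⟨hp, hv⟩⟩
    · exact absurd ⟨u, h, .refl⟩ hp

/-- all augmentations together -/
theorem aug_iterate (f : Fin n → Fin n) (hf : ∀ v, f (f v) = v)
    (hfa : ∀ v, G.Adj v (f v)) (hL : ∀ u v, G.Adj u v → (L u ↔ ¬ L v)) (t : ℕ)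
    (hM : PMat G L M)
    (ht : Nat.card {u // L u} ≤ Nat.card {u // ∃ v, M (u, v)} + t) :
    IsPM G (fun u v => (Aug G L)^[t] M (u, v) ∨ (Aug G L)^[t] M (v, u)) := by
  have hL' : ∀ u v, G.Adj u v → L u → ¬ L v := fun u v h => (hL u v h).1
  induction t generalizing M with
  | zero =>
    simp only [Function.iterate_zero, id]
    -- `M` covers `L`
    have hsub : ∀ u, (∃ v, M (u, v)) → L u := fun u ⟨v, hv⟩ => (hM.edge _ _ hv).1
    have hcov : ∀ u, L u → ∃ v, M (u, v) := by
      by_contra hcon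
      push Not at hcon
      obtain ⟨a, ha, ha'⟩ := hcon
      have h1 : {u | ∃ v, M (u, v)} ⊂ {u | L u} :=
        ⟨hsub, fun h => by obtain ⟨v, hv⟩ := h ha; exact ha' v hv⟩
      have h2 := Set.ncard_lt_ncard h1 (Set.toFinite _)
      have h3 : Nat.card {u // ∃ v, M (u, v)} < Nat.card {u // L u} := h2
      omega
    -- `M` covers the complement of `L`
    have hcov' : ∀ v, ¬ L v → ∃ u, M (u, v) := by
      choose g hg using fun u : {u // L u} => hcov u.1 u.2
      let G' : {u // L u} → {u // L u} := fun u => ⟨f (g u), by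
        have h1 := (hM.edge _ _ (hg u)).2.1
        have h2 := hL _ _ (hfa (g u))
        tauto⟩
      have hinj : Function.Injective G' := by
        intro x y hxy
        have h1 : f (g x) = f (g y) := congrArg Subtype.val hxy
        have h2 : g x = g y := by rw [← hf (g x), h1, hf]
        have h3 := hg x
        rw [h2] at h3
        exact Subtype.ext (hM.inj2 _ _ _ h3 (hg y))
      intro v hv
      have h1 : L (f v) := by
        have h2 := hL _ _ (hfa v)
        tauto
      obtain ⟨x, hx⟩ := (Finite.injective_iff_surjective.1 hinj) ⟨f v, h1⟩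
      have h2 : f (g x) = f v := congrArg Subtype.val hx
      have h3 : g x = v := by rw [← hf (g x), h2, hf]
      exact ⟨x.1, h3 ▸ hg x⟩
    intro v
    constructor
    · by_cases hv : L v
      · obtain ⟨w, hw⟩ := hcov v hv
        exact ⟨w, Or.inl hw⟩
      · obtain ⟨w, hw⟩ := hcov' v hv
        exact ⟨w, Or.inr hw⟩
    · intro w hw
      refine ⟨?_, hw.symm, fun w' hw' => ?_⟩
      · rcases hw with h | h
        · exact (hM.edge _ _ h).2.2
        · exact (hM.edge _ _ h).2.2.symm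
      · rcases hw with h | h <;> rcases hw' with h' | h'
        · exact hM.inj1 _ _ _ h h'
        · exact absurd (hM.edge _ _ h).1 (hM.edge _ _ h').2.1
        · exact absurd (hM.edge _ _ h').1 (hM.edge _ _ h).2.1
        · exact hM.inj2 _ _ _ h h'
  | succ t ih =>
    have hgood : ∀ a, FirstEx L M a → ∃ i, Hmin G L M a i := fun a ha =>
      exists_end hM f hf hfa hL' ha.1
    have hM' := aug_pmat hM hgood
    simp only [Function.iterate_succ_apply]
    refine ih hM' ?_
    by_cases hex : ∃ a, ExL L M a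
    · obtain ⟨a, ha, hmin⟩ := exists_fst (f := fun x : Fin n => x) Function.injective_id
        (A := fun x => ExL L M x) hex
      have h1 : {u | ∃ v, M (u, v)} ⊂ {u | ∃ v, Aug G L M (u, v)} :=
        ⟨fun u hu => aug_dom hM hgood (Or.inl hu), fun h => by
          obtain ⟨v, hv⟩ := h (aug_dom hM hgood (u := a) (Or.inr ⟨ha, hmin⟩))
          exact ha.2 v hv⟩
      have h2 := Set.ncard_lt_ncard h1 (Set.toFinite _)
      have h3 : Nat.card {u // ∃ v, M (u, v)} < Nat.card {u // ∃ v, Aug G L M (u, v)} := h2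
      omega
    · have h1 : {u | L u} ⊆ {u | ∃ v, Aug G L M (u, v)} := by
        intro u hu
        refine aug_dom hM hgood (Or.inl ?_)
        by_contra hc
        push Not at hc
        exact hex ⟨u, hu, hc⟩
      have h2 := Set.ncard_le_ncard h1 (Set.toFinite _)
      have h3 : Nat.card {u // L u} ≤ Nat.card {u // ∃ v, Aug G L M (u, v)} := h2
      omega

end comb

end Pool.Agent.PMNC
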