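import Mathlib
import Pool.Agent.Lib.MP_0087d5_lc.PM

set_option autoImplicit false
set_option linter.all false

/-!
# Interpretations: a graph on definable tuples of vertices of another graph
-/

namespace Pool.Agent.PMNC

/-- a relation on tuples as a relation on lists -/
def liftS {S : ℕ → Type} [Env S] {n : ℕ} (Q : S n → Prop) : List (Fin n) → Prop :=
  fun l => ∃ s : S n, l = code s ∧ Q s

section iter
variable {E S : ℕ → Type} [Env E] [Env S]

theorem lift_eq_liftS {n : ℕ} (R : (Fin (dim S) → Fin n) → Prop) :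
    lift R = liftS (S := S) (fun s => R (vec n s)) := by
  funext l
  apply propext
  constructor
  · rintro ⟨u, hu, hR⟩
    exact ⟨(vec n).symm u, by simp [code, hu], by simpa using hR⟩
  · rintro ⟨s, hs, hR⟩
    exact ⟨vec n s, hs, hR⟩

/-- iteration of a formula -/
theorem DefP.iterRaw (c : ℕ) {I P : ∀ n : ℕ, SimpleGraph (Fin n) → Ctx n → E n → S n → Prop}
    (hI : DefP (E := fun n => E n × S n) (fun n G X y => I n G X y.1 y.2))
    (hP : DefP (E := fun n => E n × S n) (fun n G X y => P n G X y.1 y.2)) :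
    DefP (E := fun n => E n × S n)
      (fun n G X y => ((fun Q s => P n G (push (liftS Q) X) y.1 s)^[c * Nat.size n]
        (I n G X y.1)) y.2) := by
  obtain ⟨φ₀, h₀⟩ := hI
  obtain ⟨φ, hφ⟩ := hP
  let σ : Fin (dim E + dim S) → Fin ((dim E + dim S) + dim S) :=
    Fin.append (Fin.castAdd _ ∘ Fin.castAdd _) (Fin.natAdd _)
  refine ⟨.iter (dim S) c (φ₀.rename σ _root_.id) (φ.rename σ _root_.id) (Fin.natAdd _),
    fun n G X y => ?_⟩
  obtain ⟨x, s⟩ := y
  simp only [Fm.eval]
  have hσ : ∀ u : Fin (dim S) → Fin n,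
      Fin.append (vec (E := fun n => E n × S n) n (x, s)) u ∘ σ =
        vec (E := fun n => E n × S n) n (x, (vec n).symm u) := by
    intro u
    rw [vec_pair, vec_pair]
    funext i
    refine Fin.addCases (fun j => ?_) (fun j => ?_) i
    · simp [σ]
    · simp only [σ, Function.comp_apply, Fin.append_right, Equiv.apply_symm_apply]
      exact Fin.append_right _ _ j
  have hs : vec (E := fun n => E n × S n) n (x, s) ∘ Fin.natAdd (dim E) = vec n s := by
    rw [vec_pair]
    funext i
    simp
  rw [hs]
  have := iterate_conj (vec (E := S) n) (fun Q s => P n G (push (liftS Q) X) x s)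
    (fun R u => (φ.rename σ _root_.id).eval G (push (lift R) X)
      (Fin.append (vec (E := fun n => E n × S n) n (x, s)) u)) (fun R u => ?_)
    (c * Nat.size n)
    (fun u => (φ₀.rename σ _root_.id).eval G X
      (Fin.append (vec (E := fun n => E n × S n) n (x, s)) u)) (vec n s)
  · rw [this]
    have h1 : (fun a : S n => (φ₀.rename σ _root_.id).eval G X
        (Fin.append (vec (E := fun n => E n × S n) n (x, s)) (vec n a))) = I n G X x := by
      funext a
      rw [Fm.eval_rename, hσ]
      simp only [Equiv.symm_apply_apply]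
      exact propext (h₀ n G X (x, a))
    rw [h1]
    simp
  · rw [Fm.eval_rename, hσ]
    change φ.eval G (push (lift R) X) _ ↔ _
    rw [hφ, lift_eq_liftS]

end iter

section code
variable {U : ℕ → Type} [Env U]

theorem code_length {m : ℕ} (x : U m) : (code x).length = dim U := by simp [code]

theorem code_inj {m : ℕ} {x y : U m} (h : code x = code y) : x = y :=
  (vec m).injective (List.ofFn_injective h)

/-- the code of a tuple of tuples -/
theorem code_pow {m r : ℕ} (x : Fin r → U m) :
    code (S := fun m => Fin r → U m) x = (List.ofFn x).flatMap code := by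
  unfold code
  change List.ofFn (n := r * dim U) _ = _
  rw [List.ofFn_mul, List.flatMap_def, List.map_ofFn]
  congr 2
  funext i
  simp only [Function.comp_apply]
  congr 1
  funext j
  rw [vec_pow]
  have h : (⟨i * dim U + j, calc
        i.val * dim U + j.val < (i + 1) * dim U :=
          (Nat.add_lt_add_left j.prop _).trans_eq (by rw [Nat.add_mul, Nat.one_mul])
        _ ≤ _ := Nat.mul_le_mul_right _ i.prop⟩ : Fin (r * dim U)) = finProdFinEquiv (i, j) := by
    apply Fin.ext
    simp [finProdFinEquiv]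
    ring
  rw [h, Equiv.symm_apply_apply]

theorem flatMap_inj {α β : Type*} {f : α → List β} {d : ℕ} (hd : 0 < d)
    (hlen : ∀ a, (f a).length = d) (hf : Function.Injective f) :
    ∀ l l' : List α, l.flatMap f = l'.flatMap f → l = l' := by
  intro l
  induction l with
  | nil =>
    intro l' h
    cases l' with
    | nil => rfl
    | cons a l' =>
      exfalso
      have := congrArg List.length h
      simp only [List.flatMap_nil, List.length_nil, List.flatMap_cons, List.length_append, hlen] at this
      omega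
  | cons a l ih =>
    intro l' h
    cases l' with
    | nil =>
      exfalso
      have := congrArg List.length h
      simp only [List.flatMap_nil, List.length_nil, List.flatMap_cons, List.length_append, hlen] at this
      omega
    | cons b l' =>
      rw [List.flatMap_cons, List.flatMap_cons] at h
      obtain ⟨h1, h2⟩ := List.append_inj h (by rw [hlen, hlen])
      rw [hf h1, ih l' h2]

end code

section interp
variable {U : ℕ → Type} [Env U]

theorem exists_enc {m : ℕ} (A : U m → Prop) : ∃ e : Fin (Nat.card {x // A x}) → U m,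
    (∀ a, A (e a)) ∧ (∀ x, A x → ∃ a, e a = x) ∧ ∀ a b, a < b ↔ key (e a) < key (e b) := by
  classical
  haveI : Fintype {x // A x} := Fintype.ofFinite _
  letI : LinearOrder {x // A x} := LinearOrder.lift' (fun x => key x.1)
    (fun x y h => Subtype.ext (key_injective h))
  let o := monoEquivOfFin {x // A x} (k := Nat.card {x // A x}) Nat.card_eq_fintype_card.symm
  refine ⟨fun a => (o a).1, fun a => (o a).2, fun x hx => ⟨o.symm ⟨x, hx⟩, by simp⟩, fun a b => ?_⟩
  exact (OrderIso.lt_iff_lt o).symm

variable (Vd : ∀ m : ℕ, U m → Prop) (ad : ∀ m : ℕ, SimpleGraph (Fin m) → U m → U m → Prop)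

/-- the size of the new graph -/
noncomputable def Nn (m : ℕ) : ℕ := Nat.card {x // Vd m x}

/-- the code of a vertex of the new graph -/
noncomputable def enc (m : ℕ) : Fin (Nn Vd m) → U m := (exists_enc (Vd m)).choose

theorem enc_mem (m : ℕ) (a : Fin (Nn Vd m)) : Vd m (enc Vd m a) :=
  (exists_enc (Vd m)).choose_spec.1 a

theorem enc_surj (m : ℕ) {x : U m} (hx : Vd m x) : ∃ a, enc Vd m a = x :=
  (exists_enc (Vd m)).choose_spec.2.1 x hx

theorem enc_lt (m : ℕ) (a b : Fin (Nn Vd m)) :
    a < b ↔ key (enc Vd m a) < key (enc Vd m b) :=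
  (exists_enc (Vd m)).choose_spec.2.2 a b

theorem enc_inj (m : ℕ) : Function.Injective (enc Vd m) := by
  intro a b h
  rcases lt_trichotomy a b with h1 | h1 | h1
  · rw [enc_lt, h] at h1; exact absurd h1 (lt_irrefl _)
  · exact h1
  · rw [enc_lt, h] at h1; exact absurd h1 (lt_irrefl _)

/-- the new graph -/
def gr (m : ℕ) (H : SimpleGraph (Fin m)) : SimpleGraph (Fin (Nn Vd m)) :=
  SimpleGraph.fromRel fun a b => ad m H (enc Vd m a) (enc Vd m b)

/-- the relation variables -/
def tctx {m : ℕ} (X : Ctx m) : Ctx (Nn Vd m) := fun s l => X s (l.flatMap fun a => code (enc Vd m a))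

/-- translation of a formula -/
def Tr {k : ℕ} (φ : Fm k) (m : ℕ) (H : SimpleGraph (Fin m)) (X : Ctx m) (x : Fin k → U m) : Prop :=
  2 ≤ m ∧ ∃ v : Fin k → Fin (Nn Vd m), (∀ i, enc Vd m (v i) = x i) ∧
    φ.eval (gr Vd ad m H) (tctx Vd X) v

theorem tctx_push {m r : ℕ} (hpos : 0 < dim U) (X : Ctx m) (R : (Fin r → Fin (Nn Vd m)) → Prop) :
    tctx Vd (push (liftS (S := fun m => Fin r → U m)
      (fun s => ∃ u, (∀ i, enc Vd m (u i) = s i) ∧ R u)) X) = push (lift R) (tctx Vd X) := by
  have hlen : ∀ a : Fin (Nn Vd m), (code (enc Vd m a)).length = dim U := fun a => code_length _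
  have hinj : Function.Injective (fun a : Fin (Nn Vd m) => code (enc Vd m a)) :=
    fun a b h => enc_inj Vd m (code_inj h)
  have hcode : ∀ u : Fin r → Fin (Nn Vd m),
      code (S := fun m => Fin r → U m) (fun i => enc Vd m (u i)) =
        (List.ofFn u).flatMap fun a => code (enc Vd m a) := by
    intro u
    rw [code_pow, List.flatMap_def, List.flatMap_def, List.map_ofFn, List.map_ofFn]
    rfl
  funext s l
  cases s with
  | zero =>
    apply propext
    change liftS (S := fun m => Fin r → U m) _ _ ↔ lift R l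
    constructor
    · rintro ⟨s, hs, u, hu, hR⟩
      obtain rfl : (fun i => enc Vd m (u i)) = s := funext hu
      rw [hcode] at hs
      exact ⟨u, flatMap_inj hpos hlen hinj _ _ hs, hR⟩
    · rintro ⟨u, rfl, hR⟩
      exact ⟨fun i => enc Vd m (u i), (hcode u).symm, u, fun i => rfl, hR⟩
  | succ s => rfl

theorem tr_def (hpos : 0 < dim U) (K : ℕ)
    (hsize : ∀ m, 2 ≤ m → Nat.size (Nn Vd m) = K * Nat.size m)
    (hVd : DefP (fun m H X (x : U m) => 2 ≤ m ∧ Vd m x))
    (had : DefP (E := fun m => U m × U m)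
      (fun m H X x => 2 ≤ m ∧ Vd m x.1 ∧ Vd m x.2 ∧ ad m H x.1 x.2)) :
    ∀ {k : ℕ} (φ : Fm k), DefP (E := fun m => Fin k → U m) (Tr Vd ad φ) := by
  have h2 : ∀ {E : ℕ → Type} [Env E], DefP (fun m H X (_ : E m) => 2 ≤ m) := by
    intro E _
    exact (defP_card_le 1).not.congr fun n G X x => by omega
  have hval : ∀ {k : ℕ}, DefP (E := fun m => Fin k → U m)
      (fun m H X x => ∀ i : Fin k, (2 ≤ m ∧ Vd m (x i))) := by
    intro k
    exact DefP.forallFintype fun i => DefP.comp hVd (Tm.app Tm.id i)
  have hex : ∀ {k m : ℕ} (x : Fin k → U m), (∀ i, Vd m (x i)) →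
      ∃ v : Fin k → Fin (Nn Vd m), ∀ i, enc Vd m (v i) = x i := by
    intro k m x hx
    choose v hv using fun i => enc_surj Vd m (hx i)
    exact ⟨v, hv⟩
  have huniq : ∀ {k m : ℕ} {x : Fin k → U m} {v v' : Fin k → Fin (Nn Vd m)},
      (∀ i, enc Vd m (v i) = x i) → (∀ i, enc Vd m (v' i) = x i) → v = v' := by
    intro k m x v v' h h'
    funext i
    exact enc_inj Vd m ((h i).trans (h' i).symm)
  intro k φ
  induction φ with
  | @adj k i j =>
    refine DefP.congr (P := fun m H X (x : Fin k → U m) => 2 ≤ m ∧ (∀ i : Fin k, (2 ≤ m ∧ Vd m (x i))) ∧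
      ¬ (x i = x j) ∧ ((2 ≤ m ∧ Vd m (x i) ∧ Vd m (x j) ∧ ad m H (x i) (x j)) ∨
        (2 ≤ m ∧ Vd m (x j) ∧ Vd m (x i) ∧ ad m H (x j) (x i)))) ?_ ?_
    · refine h2.and (hval.and (DefP.and (DefP.not (DefP.eq (Tm.app Tm.id i) (Tm.app Tm.id j)))
        (DefP.or ?_ ?_)))
      · exact DefP.comp (F := fun m => U m × U m) had (f := fun m (x : Fin k → U m) => (x i, x j))
          ((Tm.app Tm.id i).pair (Tm.app Tm.id j))
      · exact DefP.comp (F := fun m => U m × U m) had (f := fun m (x : Fin k → U m) => (x j, x i))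
          ((Tm.app Tm.id j).pair (Tm.app Tm.id i))
    · intro m H X x
      unfold Tr
      constructor
      · rintro ⟨hm, hv, hne, h⟩
        obtain ⟨v, hv'⟩ := hex x (fun i => (hv i).2)
        refine ⟨hm, v, hv', ?_⟩
        change (gr Vd ad m H).Adj (v i) (v j)
        rw [gr, SimpleGraph.fromRel_adj, hv', hv']
        exact ⟨fun h => hne (by rw [← hv', ← hv', h]), h.imp (fun h => h.2.2.2) (fun h => h.2.2.2)⟩
      · rintro ⟨hm, v, hv', h⟩
        change (gr Vd ad m H).Adj (v i) (v j) at h
        rw [gr, SimpleGraph.fromRel_adj, hv', hv'] at h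
        have hval : ∀ i, Vd m (x i) := fun i => hv' i ▸ enc_mem Vd m (v i)
        refine ⟨hm, fun i => ⟨hm, hval i⟩, fun he => h.1 (enc_inj Vd m ?_),
          h.2.imp (fun h => ⟨hm, hval _, hval _, h⟩) (fun h => ⟨hm, hval _, hval _, h⟩)⟩
        rw [hv', hv', he]
  | @lt k i j =>
    refine DefP.congr (P := fun m H X (x : Fin k → U m) => 2 ≤ m ∧ (∀ i : Fin k, (2 ≤ m ∧ Vd m (x i))) ∧
      key (x i) < key (x j)) ?_ ?_
    · exact h2.and (hval.and (DefP.keyLt (Tm.app Tm.id i) (Tm.app Tm.id j)))
    · intro m H X x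
      unfold Tr
      constructor
      · rintro ⟨hm, hv, h⟩
        obtain ⟨v, hv'⟩ := hex x (fun i => (hv i).2)
        refine ⟨hm, v, hv', ?_⟩
        change v i < v j
        rw [enc_lt, hv', hv']
        exact h
      · rintro ⟨hm, v, hv', h⟩
        change v i < v j at h
        rw [enc_lt, hv', hv'] at h
        exact ⟨hm, fun i => ⟨hm, hv' i ▸ enc_mem Vd m (v i)⟩, h⟩
  | @rel k s l =>
    refine DefP.congr (P := fun m H X (x : Fin k → U m) => 2 ≤ m ∧ (∀ i : Fin k, (2 ≤ m ∧ Vd m (x i))) ∧
      X s (l.flatMap fun i => code (x i))) ?_ ?_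
    · refine h2.and (hval.and ?_)
      refine ⟨.rel s (l.flatMap fun i => List.ofFn fun j => finProdFinEquiv (i, j)),
        fun m H X x => ?_⟩
      simp only [Fm.eval]
      have : (l.flatMap fun i => List.ofFn fun j => finProdFinEquiv (i, j)).map
          (vec (E := fun m => Fin k → U m) m x) = l.flatMap fun i => code (x i) := by
        rw [List.map_flatMap]
        congr 1
        funext i
        rw [List.map_ofFn]
        unfold code
        congr 1
        funext j
        rw [Function.comp_apply, vec_pow]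
        simp
      rw [this]
    · intro m H X x
      unfold Tr
      have key : ∀ v : Fin k → Fin (Nn Vd m), (∀ i, enc Vd m (v i) = x i) →
          ((Fm.rel s l).eval (gr Vd ad m H) (tctx Vd X) v ↔ X s (l.flatMap fun i => code (x i))) := by
        intro v hv
        simp only [Fm.eval, tctx]
        rw [List.flatMap_map]
        simp only [hv]
      constructor
      · rintro ⟨hm, hv, h⟩
        obtain ⟨v, hv'⟩ := hex x (fun i => (hv i).2)
        exact ⟨hm, v, hv', (key v hv').2 h⟩
      · rintro ⟨hm, v, hv', h⟩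
        exact ⟨hm, fun i => ⟨hm, hv' i ▸ enc_mem Vd m (v i)⟩, (key v hv').1 h⟩
  | neg φ ih =>
    refine (h2.and (hval.and ih.not)).congr ?_
    intro m H X x
    unfold Tr
    constructor
    · rintro ⟨hm, hv, h⟩
      obtain ⟨v, hv'⟩ := hex x (fun i => (hv i).2)
      exact ⟨hm, v, hv', fun hc => h ⟨hm, v, hv', hc⟩⟩
    · rintro ⟨hm, v, hv', h⟩
      refine ⟨hm, fun i => ⟨hm, hv' i ▸ enc_mem Vd m (v i)⟩, ?_⟩
      rintro ⟨_, v', hv'', hc⟩
      rw [huniq hv'' hv'] at hc
      exact h hc
  | and φ ψ ih1 ih2 =>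
    refine (ih1.and ih2).congr ?_
    intro m H X x
    unfold Tr
    constructor
    · rintro ⟨⟨hm, v, hv, h⟩, ⟨_, v', hv', h'⟩⟩
      rw [huniq hv' hv] at h'
      exact ⟨hm, v, hv, h, h'⟩
    · rintro ⟨hm, v, hv, h, h'⟩
      exact ⟨⟨hm, v, hv, h⟩, ⟨hm, v, hv, h'⟩⟩
  | @ex k φ ih =>
    have hsn : Tm (E := fun m => (Fin k → U m) × U m) (F := fun m => Fin (k + 1) → U m)
        (fun m y => Fin.snoc (α := fun _ => U m) y.1 y.2) := by
      refine Tm.lam fun i => ?_
      refine Fin.lastCases ?_ (fun j => ?_) i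
      · simp only [Fin.snoc_last]
        exact Tm.snd (F := fun m => Fin k → U m) (H := U) Tm.id
      · simp only [Fin.snoc_castSucc]
        exact Tm.app (Tm.fst (F := fun m => Fin k → U m) (H := U) Tm.id) j
    have h1 : DefP (E := fun m => Fin k → U m) (fun m H X x =>
        ∃ a : U m, Tr Vd ad φ m H X (Fin.snoc (α := fun _ => U m) x a)) := by
      refine DefP.ex (F := U) ?_
      exact DefP.comp (F := fun m => Fin (k + 1) → U m) ih hsn
    refine h1.congr ?_
    intro m H X x
    unfold Tr
    constructor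
    · rintro ⟨a, hm, v, hv, h⟩
      refine ⟨hm, Fin.init v, fun i => ?_, v (Fin.last k), ?_⟩
      · have := hv i.castSucc
        rw [Fin.snoc_castSucc] at this
        exact this
      · have : (Fin.snoc (α := fun _ => Fin (Nn Vd m)) (Fin.init v) (v (Fin.last k))) = v :=
          Fin.snoc_init_self v
        rw [this]
        exact h
    · rintro ⟨hm, v, hv, a, h⟩
      refine ⟨enc Vd m a, hm, Fin.snoc (α := fun _ => Fin (Nn Vd m)) v a, fun i => ?_, h⟩
      refine Fin.lastCases ?_ (fun j => ?_) i
      · simp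
      · simp [hv]
  | @iter k r c φ₀ φ l ih₀ ih =>
    have happ : Tm (E := fun m => (Fin k → U m) × (Fin r → U m)) (F := fun m => Fin (k + r) → U m)
        (fun m y => Fin.append y.1 y.2) := by
      refine Tm.lam fun i => ?_
      refine Fin.addCases (fun j => ?_) (fun j => ?_) i
      · simp only [Fin.append_left]
        exact Tm.app (Tm.fst (F := fun m => Fin k → U m) (H := fun m => Fin r → U m) Tm.id) j
      · simp only [Fin.append_right]
        exact Tm.app (Tm.snd (F := fun m => Fin k → U m) (H := fun m => Fin r → U m) Tm.id) j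
    have hcomp : Tm (E := fun m => Fin k → U m)
        (F := fun m => (Fin k → U m) × (Fin r → U m)) (fun m x => (x, fun i => x (l i))) :=
      Tm.id.pair (Tm.lam fun i => Tm.app Tm.id (l i))
    have h1 := DefP.iterRaw (E := fun m => Fin k → U m) (S := fun m => Fin r → U m) (c * K)
      (I := fun m H X x y => Tr Vd ad φ₀ m H X (Fin.append x y))
      (P := fun m H X x y => Tr Vd ad φ m H X (Fin.append x y))
      (DefP.comp (F := fun m => Fin (k + r) → U m) ih₀ happ)
      (DefP.comp (F := fun m => Fin (k + r) → U m) ih happ)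
    have h3 := DefP.comp (F := fun m => (Fin k → U m) × (Fin r → U m)) h1 hcomp
    refine (h2.and (hval.and h3)).congr ?_
    intro m H X x
    -- the invariant
    have hinv : ∀ (hm : 2 ≤ m) (v : Fin k → Fin (Nn Vd m)), (∀ i, enc Vd m (v i) = x i) →
        ∀ t : ℕ, ((fun (Q : (Fin r → U m) → Prop) s => Tr Vd ad φ m H
            (push (liftS (S := fun m => Fin r → U m) Q) X) (Fin.append x s))^[t]
          (fun y => Tr Vd ad φ₀ m H X (Fin.append x y))) =
          fun s => ∃ u, (∀ i, enc Vd m (u i) = s i) ∧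
            ((fun R u => φ.eval (gr Vd ad m H) (push (lift R) (tctx Vd X)) (Fin.append v u))^[t]
              (fun u => φ₀.eval (gr Vd ad m H) (tctx Vd X) (Fin.append v u))) u := by
      intro hm v hv
      have happ' : ∀ {ψ : Fm (k + r)} {Y : Ctx m} {s : Fin r → U m},
          Tr Vd ad ψ m H Y (Fin.append x s) ↔ ∃ u : Fin r → Fin (Nn Vd m),
            (∀ i, enc Vd m (u i) = s i) ∧
              ψ.eval (gr Vd ad m H) (tctx Vd Y) (Fin.append v u) := by
        intro ψ Y s
        constructor
        · rintro ⟨_, w, hw, h⟩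
          have e1 : (fun i => w (Fin.castAdd r i)) = v := by
            refine huniq (x := x) (fun i => ?_) hv
            have := hw (Fin.castAdd r i)
            rwa [Fin.append_left] at this
          refine ⟨fun i => w (Fin.natAdd k i), fun i => ?_, ?_⟩
          · have := hw (Fin.natAdd k i)
            rwa [Fin.append_right] at this
          · have e2 : Fin.append v (fun i => w (Fin.natAdd k i)) = w := by
              rw [← e1]
              funext i
              refine Fin.addCases (fun j => ?_) (fun j => ?_) i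
              · simp
              · simp
            rw [e2]
            exact h
        · rintro ⟨u, hu, h⟩
          refine ⟨hm, Fin.append v u, fun i => ?_, h⟩
          refine Fin.addCases (fun j => ?_) (fun j => ?_) i
          · simp [hv]
          · simp [hu]
      intro t
      induction t with
      | zero =>
        funext s
        exact propext happ'
      | succ t iht =>
        rw [Function.iterate_succ_apply', Function.iterate_succ_apply', iht]
        funext s
        apply propext
        rw [happ', tctx_push Vd hpos]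
    constructor
    · rintro ⟨hm, hv, h⟩
      obtain ⟨v, hv'⟩ := hex x (fun i => (hv i).2)
      refine ⟨hm, v, hv', ?_⟩
      change ((fun (Q : (Fin r → U m) → Prop) s => Tr Vd ad φ m H
            (push (liftS (S := fun m => Fin r → U m) Q) X) (Fin.append x s))^[c * K * Nat.size m]
          (fun y => Tr Vd ad φ₀ m H X (Fin.append x y))) (fun i => x (l i)) at h
      rw [hinv hm v hv'] at h
      obtain ⟨u, hu, h⟩ := h
      have e1 : u = v ∘ l := huniq (x := fun i => x (l i)) hu (fun i => hv' (l i))
      simp only [Fm.eval]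
      rw [hsize m hm, ← mul_assoc, ← e1]
      exact h
    · rintro ⟨hm, v, hv', h⟩
      refine ⟨hm, fun i => ⟨hm, hv' i ▸ enc_mem Vd m (v i)⟩, ?_⟩
      change ((fun (Q : (Fin r → U m) → Prop) s => Tr Vd ad φ m H
            (push (liftS (S := fun m => Fin r → U m) Q) X) (Fin.append x s))^[c * K * Nat.size m]
          (fun y => Tr Vd ad φ₀ m H X (Fin.append x y))) (fun i => x (l i))
      rw [hinv hm v hv']
      refine ⟨v ∘ l, fun i => hv' (l i), ?_⟩
      simp only [Fm.eval] at h
      rw [hsize m hm, ← mul_assoc] at h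
      exact h

/-- pulling back a language along an interpretation -/
theorem interp_inNC (hpos : 0 < dim U) (K : ℕ)
    (hsize : ∀ m, 2 ≤ m → Nat.size (Nn Vd m) = K * Nat.size m)
    (hVd : DefP (fun m H X (x : U m) => 2 ≤ m ∧ Vd m x))
    (had : DefP (E := fun m => U m × U m)
      (fun m H X x => 2 ≤ m ∧ Vd m x.1 ∧ Vd m x.2 ∧ ad m H x.1 x.2))
    {L : ∀ n : ℕ, SimpleGraph (Fin n) → Prop} (hL : InNC L) :
    InNC (fun m H => 2 ≤ m ∧ L (Nn Vd m) (gr Vd ad m H)) := by
  obtain ⟨φ, hφ⟩ := hL
  obtain ⟨ψ, hψ⟩ := tr_def Vd ad hpos K hsize hVd had φ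
  have hdim : dim (fun m => Fin 0 → U m) = 0 := Nat.zero_mul _
  refine ⟨ψ.rename (fun i => (hdim ▸ i : Fin 0)) id, fun m H => ?_⟩
  rw [Fm.eval_rename]
  have h1 := hψ m H (fun _ _ => False) Fin.elim0
  have h2 : vec (E := fun m => Fin 0 → U m) m Fin.elim0 =
      (Fin.elim0 : Fin 0 → Fin m) ∘ (fun i => (hdim ▸ i : Fin 0)) := by
    funext i
    exact (hdim ▸ i : Fin 0).elim0
  rw [h2] at h1
  rw [h1]
  unfold Tr
  constructor
  · rintro ⟨hm, h⟩
    exact ⟨hm, Fin.elim0, fun i => i.elim0, (hφ _ _).1 h⟩
  · rintro ⟨hm, v, _, h⟩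
    refine ⟨hm, (hφ _ _).2 ?_⟩
    rw [Subsingleton.elim v Fin.elim0] at h
    exact h

end interp

theorem InNC.or {P Q : ∀ n : ℕ, SimpleGraph (Fin n) → Prop} (hP : InNC P) (hQ : InNC Q) :
    InNC (fun n G => P n G ∨ Q n G) := by
  obtain ⟨φ, hφ⟩ := hP
  obtain ⟨ψ, hψ⟩ := hQ
  refine ⟨.neg (.and (.neg φ) (.neg ψ)), fun n G => ?_⟩
  simp only [Fm.eval]
  rw [← hφ, ← hψ]
  tauto

end Pool.Agent.PMNC
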