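import Mathlib
import Pool.Agent.Lib.MP_0087d5_lc.Interp
import Pool.Agent.Lib.MP_0087d5_lc.AugProof

set_option autoImplicit false
set_option linter.all false

/-!
# The largest power of two below `m` is definable
-/

namespace Pool.Agent.PMNC

/-- doubling of an initial segment -/
def Dbl {m : ℕ} (Q : Fin m → Prop) (y : Fin m) : Prop :=
  ((¬ ∃ z, Q z) ∧ IsZero y) ∨ Nat.card {z // z < y ∧ ¬ Q z} < Nat.card {z // Q z}

theorem card_lt_val {m q : ℕ} : Nat.card {z : Fin m // z.val < q} = min q m := by
  rw [Nat.card_eq_fintype_card]
  rcases le_total q m with h | h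
  · rw [min_eq_left h]
    rw [Fintype.card_subtype]
    have : (Finset.univ.filter fun z : Fin m => z.val < q) =
        (Finset.range q).attachFin (fun i hi => by
          rw [Finset.mem_range] at hi; omega) := by
      ext z
      simp
    rw [this, Finset.card_attachFin, Finset.card_range]
  · rw [min_eq_right h]
    rw [Fintype.card_congr (Equiv.subtypeUnivEquiv fun z : Fin m => by omega)]
    simp

theorem card_between {m q : ℕ} (y : Fin m) :
    Nat.card {z : Fin m // z < y ∧ ¬ z.val < q} = y.val - q := by
  classical
  have h1 := card_lt_val (m := m) (q := y.val)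
  have h2 : Nat.card {z : Fin m // z.val < y.val} =
      Nat.card {z : Fin m // z < y ∧ z.val < q} + Nat.card {z : Fin m // z < y ∧ ¬ z.val < q} := by
    have := Fintype.card_subtype (fun z : Fin m => z.val < y.val)
    rw [Nat.card_eq_fintype_card, Nat.card_eq_fintype_card, Nat.card_eq_fintype_card,
      Fintype.card_subtype, Fintype.card_subtype, Fintype.card_subtype,
      ← Finset.card_union_of_disjoint]
    · congr 1
      ext z
      simp only [Finset.mem_filter, Finset.mem_univ, true_and, Finset.mem_union, Fin.lt_def]
      tauto
    · rw [Finset.disjoint_filter]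
      tauto
  have h3 : Nat.card {z : Fin m // z < y ∧ z.val < q} = min (min y.val q) m := by
    rw [← card_lt_val]
    apply Nat.card_congr
    apply Equiv.subtypeEquivRight
    intro z
    rw [Fin.lt_def, lt_min_iff]
  have h4 := y.2
  omega

theorem dbl_iterate {m : ℕ} (j : ℕ) :
    (Dbl^[j + 1] (fun _ : Fin m => False)) = fun y => y.val < 2 ^ j := by
  induction j with
  | zero =>
    funext y
    apply propext
    simp only [Function.iterate_succ, Function.iterate_zero, Function.comp_apply, id, pow_zero]
    unfold Dbl
    rw [isZero_iff]
    constructor
    · rintro (⟨_, h⟩ | h)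
      · omega
      · exfalso
        haveI : IsEmpty {z : Fin m // False} := ⟨fun z => z.2⟩
        rw [Nat.card_of_isEmpty (α := {z : Fin m // False})] at h
        omega
    · intro h
      exact Or.inl ⟨by simp, by omega⟩
  | succ j ih =>
    rw [Function.iterate_succ_apply', ih]
    funext y
    apply propext
    unfold Dbl
    have h1 := card_between (q := 2 ^ j) y
    have h2 := card_lt_val (m := m) (q := 2 ^ j)
    have h3 : 0 < 2 ^ j := Nat.two_pow_pos j
    have h4 := y.2
    have h5 : ∃ z : Fin m, z.val < 2 ^ j := ⟨⟨0, by omega⟩, h3⟩
    rw [h1, h2, pow_succ]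
    constructor
    · rintro (⟨h, _⟩ | h)
      · exact absurd h5 h
      · omega
    · intro h
      right
      omega

/-- `x < 2 ^ (size m - 1)`, the largest power of two `≤ m` -/
theorem DefP.ltPow {E : ℕ → Type} [Env E] {f : ∀ n : ℕ, E n → Fin n}
    (hf : Tm (F := fun n => Fin n) f) :
    DefP (fun n G X x => (f n x).val < 2 ^ (Nat.size n - 1)) := by
  have h := DefP.iter (E := fun _ => Unit) (S := fun n => Fin n) 1
    (I := fun n G X _ _ => False) (Φ := fun n G X _ Q => Dbl Q) (DefP.const False) (by
      unfold Dbl
      refine DefP.or (DefP.and (by (repeat' (first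
          | apply DefP.aug | apply DefP.pth | apply DefP.nx | apply DefP.cnd | apply DefP.hmin
          | apply DefP.hit | apply DefP.cdn | apply DefP.firstEx | apply DefP.exN
          | apply DefP.end_ | apply DefP.isZero | apply DefP.isSucc | apply DefP.alt
          | apply DefP.exr | apply DefP.exl | apply DefP.side | apply DefP.oddCard
          | apply DefP.cardEq | apply DefP.cardLt | apply DefP.cardLe | apply DefP.lst
          | apply DefP.fst | apply DefP.nxt | apply DefP.keyLe | apply DefP.keyLt
          | apply DefP.rtc | (apply DefP.app4; assumption) | (apply DefP.app3'; assumption)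
          | (apply DefP.app3; assumption) | (apply DefP.app2; assumption)
          | (apply DefP.comp; assumption) | exact Tm.id | exact Tm.unit | apply Tm.fst
          | apply Tm.snd | apply Tm.app | exact DefP.const _ | apply DefP.and | apply DefP.not
          | apply DefP.or | apply DefP.iff | apply DefP.adj | apply DefP.le | apply DefP.lt
          | apply DefP.eqFin | apply DefP.eq | apply DefP.rv | apply DefP.imp
          | apply DefP.allFin | apply DefP.exFin | apply DefP.all | apply DefP.ex | assumption
          | (apply Tm.comp; assumption) | apply Tm.pair | apply Tm.lam))) (by (repeat' (first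
          | apply DefP.aug | apply DefP.pth | apply DefP.nx | apply DefP.cnd | apply DefP.hmin
          | apply DefP.hit | apply DefP.cdn | apply DefP.firstEx | apply DefP.exN
          | apply DefP.end_ | apply DefP.isZero | apply DefP.isSucc | apply DefP.alt
          | apply DefP.exr | apply DefP.exl | apply DefP.side | apply DefP.oddCard
          | apply DefP.cardEq | apply DefP.cardLt | apply DefP.cardLe | apply DefP.lst
          | apply DefP.fst | apply DefP.nxt | apply DefP.keyLe | apply DefP.keyLt
          | apply DefP.rtc | (apply DefP.app4; assumption) | (apply DefP.app3'; assumption)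
          | (apply DefP.app3; assumption) | (apply DefP.app2; assumption)
          | (apply DefP.comp; assumption) | exact Tm.id | exact Tm.unit | apply Tm.fst
          | apply Tm.snd | apply Tm.app | exact DefP.const _ | apply DefP.and | apply DefP.not
          | apply DefP.or | apply DefP.iff | apply DefP.adj | apply DefP.le | apply DefP.lt
          | apply DefP.eqFin | apply DefP.eq | apply DefP.rv | apply DefP.imp
          | apply DefP.allFin | apply DefP.exFin | apply DefP.all | apply DefP.ex | assumption
          | (apply Tm.comp; assumption) | apply Tm.pair | apply Tm.lam)))) ?_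
      refine DefP.cardLt (S := fun n => Fin n) (T := fun n => Fin n) ?_ ?_
      all_goals (repeat' (first
          | apply DefP.aug | apply DefP.pth | apply DefP.nx | apply DefP.cnd | apply DefP.hmin
          | apply DefP.hit | apply DefP.cdn | apply DefP.firstEx | apply DefP.exN
          | apply DefP.end_ | apply DefP.isZero | apply DefP.isSucc | apply DefP.alt
          | apply DefP.exr | apply DefP.exl | apply DefP.side | apply DefP.oddCard
          | apply DefP.cardEq | apply DefP.cardLt | apply DefP.cardLe | apply DefP.lst
          | apply DefP.fst | apply DefP.nxt | apply DefP.keyLe | apply DefP.keyLt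
          | apply DefP.rtc | (apply DefP.app4; assumption) | (apply DefP.app3'; assumption)
          | (apply DefP.app3; assumption) | (apply DefP.app2; assumption)
          | (apply DefP.comp; assumption) | exact Tm.id | exact Tm.unit | apply Tm.fst
          | apply Tm.snd | apply Tm.app | exact DefP.const _ | apply DefP.and | apply DefP.not
          | apply DefP.or | apply DefP.iff | apply DefP.adj | apply DefP.le | apply DefP.lt
          | apply DefP.eqFin | apply DefP.eq | apply DefP.rv | apply DefP.imp
          | apply DefP.allFin | apply DefP.exFin | apply DefP.all | apply DefP.ex | assumption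
          | (apply Tm.comp; assumption) | apply Tm.pair | apply Tm.lam)))
  have h2 : DefP (E := fun n => Fin n) (fun n G X x => x.val < 2 ^ (Nat.size n - 1)) := by
    refine (DefP.comp (F := fun n => Unit × Fin n) h (f := fun n (x : Fin n) => ((), x))
      (Tm.unit.pair Tm.id)).congr ?_
    intro n G X x
    have hs : 0 < Nat.size n := Nat.size_pos.2 (by have := x.2; omega)
    obtain ⟨j, hj⟩ := Nat.exists_eq_add_of_lt hs
    have e1 : 1 * Nat.size n = j + 1 := by omega
    have e2 : Nat.size n - 1 = j := by omega
    change ((Dbl^[1 * Nat.size n] (fun _ : Fin n => False)) x) ↔ _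
    rw [e1, dbl_iterate, e2]
  exact DefP.comp (F := fun n => Fin n) h2 hf

def IsOne {n : ℕ} (i : Fin n) : Prop := ∃ z : Fin n, IsZero z ∧ IsSucc z i

theorem isOne_iff {n : ℕ} {i : Fin n} : IsOne i ↔ i.val = 1 := by
  unfold IsOne
  constructor
  · rintro ⟨z, hz, hs⟩
    rw [isZero_iff] at hz
    rw [isSucc_iff] at hs
    omega
  · intro h
    exact ⟨⟨0, by have := i.2; omega⟩, isZero_iff.2 rfl, isSucc_iff.2 (by simpa using h)⟩

theorem DefP.isOne {E : ℕ → Type} [Env E] {f : ∀ n : ℕ, E n → Fin n}
    (hf : Tm (F := fun n => Fin n) f) : DefP (fun n G X x => IsOne (f n x)) := by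
  unfold IsOne
  (repeat' (first
      | apply DefP.aug | apply DefP.pth | apply DefP.nx | apply DefP.cnd | apply DefP.hmin
      | apply DefP.hit | apply DefP.cdn | apply DefP.firstEx | apply DefP.exN | apply DefP.end_
      | apply DefP.isZero | apply DefP.isSucc | apply DefP.alt | apply DefP.exr | apply DefP.exl
      | apply DefP.side | apply DefP.oddCard | apply DefP.cardEq | apply DefP.cardLt
      | apply DefP.cardLe | apply DefP.lst | apply DefP.fst | apply DefP.nxt | apply DefP.keyLe
      | apply DefP.keyLt | apply DefP.rtc | (apply DefP.app4; assumption)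
      | (apply DefP.app3'; assumption) | (apply DefP.app3; assumption)
      | (apply DefP.app2; assumption) | (apply DefP.comp; assumption) | exact Tm.id
      | exact Tm.unit | apply Tm.fst | apply Tm.snd | apply Tm.app | exact DefP.const _
      | apply DefP.and | apply DefP.not | apply DefP.or | apply DefP.iff | apply DefP.adj
      | apply DefP.le | apply DefP.lt | apply DefP.eqFin | apply DefP.eq | apply DefP.rv
      | apply DefP.imp | apply DefP.allFin | apply DefP.exFin | apply DefP.all | apply DefP.ex
      | assumption | (apply Tm.comp; assumption) | apply Tm.pair | apply Tm.lam))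

end Pool.Agent.PMNC
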