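import Mathlib
import Pool.Agent.Lib.MP_0087d5_lc.Pow

set_option autoImplicit false
set_option linter.all false

/-!
# Addition of numbers below `n` is definable
-/

namespace Pool.Agent.PMNC

theorem card_lt_fin {m : ℕ} (i : Fin m) : Nat.card {z : Fin m // z < i} = i.val := by
  have := card_lt_val (m := m) (q := i.val)
  rw [min_eq_left i.2.le] at this
  exact this

/-- `i + j = k` -/
def P0 {n : ℕ} (i j k : Fin n) : Prop := i.val + j.val = k.val

/-- `i + 1 + j = k` -/
def P1 {n : ℕ} (i j k : Fin n) : Prop := i.val + 1 + j.val = k.val

/-- `i + 1 + j ≤ k` -/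
def P1le {n : ℕ} (i j k : Fin n) : Prop := i.val + 1 + j.val ≤ k.val

/-- `h` is half of `k`, rounded down -/
def Hlf {n : ℕ} (k h : Fin n) : Prop := P0 h h k ∨ P1 h h k

theorem p0_iff {n : ℕ} {i j k : Fin n} : P0 i j k ↔
    (j ≤ k ∧ Nat.card {z : Fin n // z < i} = Nat.card {z : Fin n // z < k ∧ ¬ z < j}) := by
  have h := card_between (q := j.val) k
  unfold P0
  rw [card_lt_fin, show Nat.card {z : Fin n // z < k ∧ ¬ z < j} = k.val - j.val from h, Fin.le_def]
  omega

theorem p1_iff {n : ℕ} {i j k : Fin n} : P1 i j k ↔
    (j < k ∧ Nat.card {z : Fin n // z < i} = Nat.card {z : Fin n // z < k ∧ ¬ z ≤ j}) := by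
  have h := card_between (q := j.val + 1) k
  have e : Nat.card {z : Fin n // z < k ∧ ¬ z ≤ j} =
      Nat.card {z : Fin n // z < k ∧ ¬ z.val < j.val + 1} := by
    apply Nat.card_congr
    apply Equiv.subtypeEquivRight
    intro z
    rw [Fin.le_def, Nat.lt_succ_iff]
  unfold P1
  rw [card_lt_fin, e, h, Fin.lt_def]
  omega

theorem p1le_iff {n : ℕ} {i j k : Fin n} : P1le i j k ↔
    (j < k ∧ Nat.card {z : Fin n // z < i} < Nat.card {z : Fin n // z < k ∧ ¬ z < j}) := by
  have h := card_between (q := j.val) k
  unfold P1le
  rw [card_lt_fin, show Nat.card {z : Fin n // z < k ∧ ¬ z < j} = k.val - j.val from h, Fin.lt_def]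
  omega

theorem hlf_iff {n : ℕ} {k h : Fin n} : Hlf k h ↔ h.val = k.val / 2 := by
  unfold Hlf P0 P1
  omega

section
variable {E : ℕ → Type} [Env E] {f g h : ∀ n : ℕ, E n → Fin n}

theorem DefP.p0 (hf : Tm (F := fun n => Fin n) f) (hg : Tm (F := fun n => Fin n) g)
    (hh : Tm (F := fun n => Fin n) h) : DefP (fun n G X x => P0 (f n x) (g n x) (h n x)) := by
  have key : DefP (E := fun n => Fin n × (Fin n × Fin n)) (fun n G X x => P0 x.1 x.2.1 x.2.2) := by
    refine DefP.congr ?_ (fun n G X x => p0_iff.symm)
    refine DefP.and (by (repeat' (first
        | apply DefP.aug | apply DefP.pth | apply DefP.nx | apply DefP.cnd | apply DefP.hmin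
        | apply DefP.hit | apply DefP.cdn | apply DefP.firstEx | apply DefP.exN
        | apply DefP.end_ | apply DefP.isZero | apply DefP.isSucc | apply DefP.alt
        | apply DefP.exr | apply DefP.exl | apply DefP.side | apply DefP.oddCard
        | apply DefP.cardEq | apply DefP.cardLt | apply DefP.cardLe | apply DefP.lst
        | apply DefP.fst | apply DefP.nxt | apply DefP.keyLe | apply DefP.keyLt | apply DefP.rtc
        | (apply DefP.app4; assumption) | (apply DefP.app3'; assumption)
        | (apply DefP.app3; assumption) | (apply DefP.app2; assumption)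
        | (apply DefP.comp; assumption) | exact Tm.id | exact Tm.unit | apply Tm.fst
        | apply Tm.snd | apply Tm.app | exact DefP.const _ | apply DefP.and | apply DefP.not
        | apply DefP.or | apply DefP.iff | apply DefP.adj | apply DefP.le | apply DefP.lt
        | apply DefP.eqFin | apply DefP.eq | apply DefP.rv | apply DefP.imp | apply DefP.allFin
        | apply DefP.exFin | apply DefP.all | apply DefP.ex | assumption
        | (apply Tm.comp; assumption) | apply Tm.pair
        | apply Tm.lam))) (DefP.cardEq (S := fun n => Fin n) (T := fun n => Fin n) ?_ ?_)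
    all_goals (repeat' (first
        | apply DefP.aug | apply DefP.pth | apply DefP.nx | apply DefP.cnd | apply DefP.hmin
        | apply DefP.hit | apply DefP.cdn | apply DefP.firstEx | apply DefP.exN
        | apply DefP.end_ | apply DefP.isZero | apply DefP.isSucc | apply DefP.alt
        | apply DefP.exr | apply DefP.exl | apply DefP.side | apply DefP.oddCard
        | apply DefP.cardEq | apply DefP.cardLt | apply DefP.cardLe | apply DefP.lst
        | apply DefP.fst | apply DefP.nxt | apply DefP.keyLe | apply DefP.keyLt | apply DefP.rtc
        | (apply DefP.app4; assumption) | (apply DefP.app3'; assumption)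
        | (apply DefP.app3; assumption) | (apply DefP.app2; assumption)
        | (apply DefP.comp; assumption) | exact Tm.id | exact Tm.unit | apply Tm.fst
        | apply Tm.snd | apply Tm.app | exact DefP.const _ | apply DefP.and | apply DefP.not
        | apply DefP.or | apply DefP.iff | apply DefP.adj | apply DefP.le | apply DefP.lt
        | apply DefP.eqFin | apply DefP.eq | apply DefP.rv | apply DefP.imp | apply DefP.allFin
        | apply DefP.exFin | apply DefP.all | apply DefP.ex | assumption
        | (apply Tm.comp; assumption) | apply Tm.pair | apply Tm.lam))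
  exact DefP.app3 (P := fun n G X a b c => P0 a b c) key hf hg hh

theorem DefP.p1 (hf : Tm (F := fun n => Fin n) f) (hg : Tm (F := fun n => Fin n) g)
    (hh : Tm (F := fun n => Fin n) h) : DefP (fun n G X x => P1 (f n x) (g n x) (h n x)) := by
  have key : DefP (E := fun n => Fin n × (Fin n × Fin n)) (fun n G X x => P1 x.1 x.2.1 x.2.2) := by
    refine DefP.congr ?_ (fun n G X x => p1_iff.symm)
    refine DefP.and (by (repeat' (first
        | apply DefP.aug | apply DefP.pth | apply DefP.nx | apply DefP.cnd | apply DefP.hmin
        | apply DefP.hit | apply DefP.cdn | apply DefP.firstEx | apply DefP.exN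
        | apply DefP.end_ | apply DefP.isZero | apply DefP.isSucc | apply DefP.alt
        | apply DefP.exr | apply DefP.exl | apply DefP.side | apply DefP.oddCard
        | apply DefP.cardEq | apply DefP.cardLt | apply DefP.cardLe | apply DefP.lst
        | apply DefP.fst | apply DefP.nxt | apply DefP.keyLe | apply DefP.keyLt | apply DefP.rtc
        | (apply DefP.app4; assumption) | (apply DefP.app3'; assumption)
        | (apply DefP.app3; assumption) | (apply DefP.app2; assumption)
        | (apply DefP.comp; assumption) | exact Tm.id | exact Tm.unit | apply Tm.fst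
        | apply Tm.snd | apply Tm.app | exact DefP.const _ | apply DefP.and | apply DefP.not
        | apply DefP.or | apply DefP.iff | apply DefP.adj | apply DefP.le | apply DefP.lt
        | apply DefP.eqFin | apply DefP.eq | apply DefP.rv | apply DefP.imp | apply DefP.allFin
        | apply DefP.exFin | apply DefP.all | apply DefP.ex | assumption
        | (apply Tm.comp; assumption) | apply Tm.pair
        | apply Tm.lam))) (DefP.cardEq (S := fun n => Fin n) (T := fun n => Fin n) ?_ ?_)
    all_goals (repeat' (first
        | apply DefP.aug | apply DefP.pth | apply DefP.nx | apply DefP.cnd | apply DefP.hmin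
        | apply DefP.hit | apply DefP.cdn | apply DefP.firstEx | apply DefP.exN
        | apply DefP.end_ | apply DefP.isZero | apply DefP.isSucc | apply DefP.alt
        | apply DefP.exr | apply DefP.exl | apply DefP.side | apply DefP.oddCard
        | apply DefP.cardEq | apply DefP.cardLt | apply DefP.cardLe | apply DefP.lst
        | apply DefP.fst | apply DefP.nxt | apply DefP.keyLe | apply DefP.keyLt | apply DefP.rtc
        | (apply DefP.app4; assumption) | (apply DefP.app3'; assumption)
        | (apply DefP.app3; assumption) | (apply DefP.app2; assumption)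
        | (apply DefP.comp; assumption) | exact Tm.id | exact Tm.unit | apply Tm.fst
        | apply Tm.snd | apply Tm.app | exact DefP.const _ | apply DefP.and | apply DefP.not
        | apply DefP.or | apply DefP.iff | apply DefP.adj | apply DefP.le | apply DefP.lt
        | apply DefP.eqFin | apply DefP.eq | apply DefP.rv | apply DefP.imp | apply DefP.allFin
        | apply DefP.exFin | apply DefP.all | apply DefP.ex | assumption
        | (apply Tm.comp; assumption) | apply Tm.pair | apply Tm.lam))
  exact DefP.app3 (P := fun n G X a b c => P1 a b c) key hf hg hh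

theorem DefP.p1le (hf : Tm (F := fun n => Fin n) f) (hg : Tm (F := fun n => Fin n) g)
    (hh : Tm (F := fun n => Fin n) h) : DefP (fun n G X x => P1le (f n x) (g n x) (h n x)) := by
  have key : DefP (E := fun n => Fin n × (Fin n × Fin n))
      (fun n G X x => P1le x.1 x.2.1 x.2.2) := by
    refine DefP.congr ?_ (fun n G X x => p1le_iff.symm)
    refine DefP.and (by (repeat' (first
        | apply DefP.aug | apply DefP.pth | apply DefP.nx | apply DefP.cnd | apply DefP.hmin
        | apply DefP.hit | apply DefP.cdn | apply DefP.firstEx | apply DefP.exN
        | apply DefP.end_ | apply DefP.isZero | apply DefP.isSucc | apply DefP.alt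
        | apply DefP.exr | apply DefP.exl | apply DefP.side | apply DefP.oddCard
        | apply DefP.cardEq | apply DefP.cardLt | apply DefP.cardLe | apply DefP.lst
        | apply DefP.fst | apply DefP.nxt | apply DefP.keyLe | apply DefP.keyLt | apply DefP.rtc
        | (apply DefP.app4; assumption) | (apply DefP.app3'; assumption)
        | (apply DefP.app3; assumption) | (apply DefP.app2; assumption)
        | (apply DefP.comp; assumption) | exact Tm.id | exact Tm.unit | apply Tm.fst
        | apply Tm.snd | apply Tm.app | exact DefP.const _ | apply DefP.and | apply DefP.not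
        | apply DefP.or | apply DefP.iff | apply DefP.adj | apply DefP.le | apply DefP.lt
        | apply DefP.eqFin | apply DefP.eq | apply DefP.rv | apply DefP.imp | apply DefP.allFin
        | apply DefP.exFin | apply DefP.all | apply DefP.ex | assumption
        | (apply Tm.comp; assumption) | apply Tm.pair
        | apply Tm.lam))) (DefP.cardLt (S := fun n => Fin n) (T := fun n => Fin n) ?_ ?_)
    all_goals (repeat' (first
        | apply DefP.aug | apply DefP.pth | apply DefP.nx | apply DefP.cnd | apply DefP.hmin
        | apply DefP.hit | apply DefP.cdn | apply DefP.firstEx | apply DefP.exN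
        | apply DefP.end_ | apply DefP.isZero | apply DefP.isSucc | apply DefP.alt
        | apply DefP.exr | apply DefP.exl | apply DefP.side | apply DefP.oddCard
        | apply DefP.cardEq | apply DefP.cardLt | apply DefP.cardLe | apply DefP.lst
        | apply DefP.fst | apply DefP.nxt | apply DefP.keyLe | apply DefP.keyLt | apply DefP.rtc
        | (apply DefP.app4; assumption) | (apply DefP.app3'; assumption)
        | (apply DefP.app3; assumption) | (apply DefP.app2; assumption)
        | (apply DefP.comp; assumption) | exact Tm.id | exact Tm.unit | apply Tm.fst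
        | apply Tm.snd | apply Tm.app | exact DefP.const _ | apply DefP.and | apply DefP.not
        | apply DefP.or | apply DefP.iff | apply DefP.adj | apply DefP.le | apply DefP.lt
        | apply DefP.eqFin | apply DefP.eq | apply DefP.rv | apply DefP.imp | apply DefP.allFin
        | apply DefP.exFin | apply DefP.all | apply DefP.ex | assumption
        | (apply Tm.comp; assumption) | apply Tm.pair | apply Tm.lam))
  exact DefP.app3 (P := fun n G X a b c => P1le a b c) key hf hg hh

theorem DefP.hlf (hf : Tm (F := fun n => Fin n) f) (hg : Tm (F := fun n => Fin n) g) :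
    DefP (fun n G X x => Hlf (f n x) (g n x)) := by
  unfold Hlf
  exact (DefP.p0 hg hg hf).or (DefP.p1 hg hg hf)

end


end Pool.Agent.PMNC
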