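import Mathlib
import Pool.Agent.Lib.MP_0087d5_lc.UNum

set_option autoImplicit false
set_option linter.all false

/-!
# Tuples of vertices as numbers
-/

namespace Pool.Agent.PMNC

section
variable {S : ℕ → Type} [Env S] {n : ℕ}

/-- the number coded by a tuple: its position in the lexicographic order -/
noncomputable def nv (s : S n) : ℕ := Nat.card {t : S n // key t < key s}

theorem exists_ord : ∃ e : S n ≃ Fin (n ^ dim S), ∀ a b : S n, key a < key b ↔ e a < e b := by
  classical
  haveI : Finite (S n) := Finite.of_equiv _ (vec n).symm
  haveI : Fintype (S n) := Fintype.ofFinite _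
  letI : LinearOrder (S n) := LinearOrder.lift' (fun x => key x) (fun x y h => key_injective h)
  have hc : Fintype.card (S n) = n ^ dim S := by rw [← Nat.card_eq_fintype_card, card_env]
  let o := monoEquivOfFin (S n) hc
  refine ⟨o.symm.toEquiv, fun a b => ?_⟩
  exact (OrderIso.lt_iff_lt o.symm).symm

theorem nv_eq {e : S n ≃ Fin (n ^ dim S)} (he : ∀ a b : S n, key a < key b ↔ e a < e b) (s : S n) :
    nv s = (e s).val := by
  unfold nv
  rw [← card_lt_fin (e s)]
  apply Nat.card_congr
  exact e.subtypeEquiv fun t => he t s

theorem nv_lt (s : S n) : nv s < n ^ dim S := by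
  obtain ⟨e, he⟩ := exists_ord (S := S) (n := n)
  rw [nv_eq he]
  exact (e s).2

theorem nv_surj {m : ℕ} (h : m < n ^ dim S) : ∃ s : S n, nv s = m := by
  obtain ⟨e, he⟩ := exists_ord (S := S) (n := n)
  exact ⟨e.symm ⟨m, h⟩, by rw [nv_eq he]; simp⟩

theorem nv_lt_iff {a b : S n} : nv a < nv b ↔ key a < key b := by
  obtain ⟨e, he⟩ := exists_ord (S := S) (n := n)
  rw [nv_eq he, nv_eq he, he, Fin.lt_def]

theorem nv_le_iff {a b : S n} : nv a ≤ nv b ↔ key a ≤ key b :=
  not_lt.symm.trans ((not_congr nv_lt_iff).trans not_lt)

theorem nv_injective : Function.Injective (nv (S := S) (n := n)) := by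
  intro a b h
  apply key_injective
  exact le_antisymm (nv_le_iff.1 h.le) (nv_le_iff.1 h.ge)

theorem nv_inj {a b : S n} : nv a = nv b ↔ a = b := nv_injective.eq_iff

theorem nv_down {b : S n} {m : ℕ} (h : m < nv b) : ∃ c : S n, nv c = m :=
  nv_surj (h.trans (nv_lt b))

theorem nv_down' {b : S n} {m : ℕ} (h : m ≤ nv b) : ∃ c : S n, nv c = m :=
  nv_surj (lt_of_le_of_lt h (nv_lt b))

theorem card_Ico (a b : S n) : Nat.card {t : S n // key a ≤ key t ∧ key t < key b} =
    nv b - nv a := by
  obtain ⟨e, he⟩ := exists_ord (S := S) (n := n)
  have h := card_between (q := (e a).val) (e b)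
  rw [nv_eq he, nv_eq he, ← show Nat.card {z : Fin (n ^ dim S) // z < e b ∧ ¬ z < e a} =
    (e b).val - (e a).val from h]
  apply Nat.card_congr
  refine e.subtypeEquiv fun t => ?_
  rw [he, and_comm]
  exact and_congr Iff.rfl (not_lt.symm.trans (not_congr (he t a)))

end

theorem nv_fin {n : ℕ} (a : Fin n) : nv (S := fun n => Fin n) a = a.val := by
  have h : ∀ x y : Fin n, key (S := fun n => Fin n) x < key (S := fun n => Fin n) y ↔ x < y := by
    intro x y
    constructor
    · rintro ⟨i, _, h⟩
      exact h
    · intro h
      exact ⟨(0 : Fin 1), fun j hj => absurd hj (Nat.not_lt_zero _), h⟩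
  unfold nv
  simp only [h]
  exact card_lt_fin a

section
variable {E F H K : ℕ → Type} [Env E] [Env F] [Env H] [Env K]
variable {f : ∀ n : ℕ, E n → F n} {g : ∀ n : ℕ, E n → H n} {h : ∀ n : ℕ, E n → K n}

theorem DefP.nEq (hf : Tm f) (hg : Tm g) : DefP (fun n G X x => nv (f n x) = nv (g n x)) := by
  have key : DefP (E := fun n => F n × H n) (fun n G X x => nv x.1 = nv x.2) := by
    unfold nv
    refine DefP.cardEq (S := F) (T := H) ?_ ?_
    all_goals (repeat' (first
        | apply DefP.hlf | apply DefP.p1le | apply DefP.p1 | apply DefP.p0 | apply DefP.aug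
        | apply DefP.pth | apply DefP.nx | apply DefP.cnd | apply DefP.hmin | apply DefP.hit
        | apply DefP.cdn | apply DefP.firstEx | apply DefP.exN | apply DefP.end_
        | apply DefP.isZero | apply DefP.isSucc | apply DefP.alt | apply DefP.exr
        | apply DefP.exl | apply DefP.side | apply DefP.oddCard | apply DefP.cardEq
        | apply DefP.cardLt | apply DefP.cardLe | apply DefP.lst | apply DefP.fst
        | apply DefP.nxt | apply DefP.keyLe | apply DefP.keyLt | apply DefP.rtc
        | (apply DefP.app4; assumption) | (apply DefP.app3'; assumption)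
        | (apply DefP.app3; assumption) | (apply DefP.app2; assumption)
        | (apply DefP.comp; assumption) | exact Tm.id | exact Tm.unit | apply Tm.fst
        | apply Tm.snd | apply Tm.app | exact DefP.const _ | apply DefP.and | apply DefP.not
        | apply DefP.or | apply DefP.iff | apply DefP.adj | apply DefP.le | apply DefP.lt
        | apply DefP.eqFin | apply DefP.eq | apply DefP.rv | apply DefP.imp | apply DefP.allFin
        | apply DefP.exFin | apply DefP.all | apply DefP.ex | assumption
        | (apply Tm.comp; assumption) | apply Tm.pair | apply Tm.lam))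
  exact DefP.app2 (P := fun n G X a b => nv a = nv b) key hf hg

theorem DefP.nLe (hf : Tm f) (hg : Tm g) : DefP (fun n G X x => nv (f n x) ≤ nv (g n x)) := by
  have key : DefP (E := fun n => F n × H n) (fun n G X x => nv x.1 ≤ nv x.2) := by
    unfold nv
    refine DefP.cardLe (S := F) (T := H) ?_ ?_
    all_goals (repeat' (first
        | apply DefP.hlf | apply DefP.p1le | apply DefP.p1 | apply DefP.p0 | apply DefP.aug
        | apply DefP.pth | apply DefP.nx | apply DefP.cnd | apply DefP.hmin | apply DefP.hit
        | apply DefP.cdn | apply DefP.firstEx | apply DefP.exN | apply DefP.end_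
        | apply DefP.isZero | apply DefP.isSucc | apply DefP.alt | apply DefP.exr
        | apply DefP.exl | apply DefP.side | apply DefP.oddCard | apply DefP.cardEq
        | apply DefP.cardLt | apply DefP.cardLe | apply DefP.lst | apply DefP.fst
        | apply DefP.nxt | apply DefP.keyLe | apply DefP.keyLt | apply DefP.rtc
        | (apply DefP.app4; assumption) | (apply DefP.app3'; assumption)
        | (apply DefP.app3; assumption) | (apply DefP.app2; assumption)
        | (apply DefP.comp; assumption) | exact Tm.id | exact Tm.unit | apply Tm.fst
        | apply Tm.snd | apply Tm.app | exact DefP.const _ | apply DefP.and | apply DefP.not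
        | apply DefP.or | apply DefP.iff | apply DefP.adj | apply DefP.le | apply DefP.lt
        | apply DefP.eqFin | apply DefP.eq | apply DefP.rv | apply DefP.imp | apply DefP.allFin
        | apply DefP.exFin | apply DefP.all | apply DefP.ex | assumption
        | (apply Tm.comp; assumption) | apply Tm.pair | apply Tm.lam))
  exact DefP.app2 (P := fun n G X a b => nv a ≤ nv b) key hf hg

theorem DefP.nLt (hf : Tm f) (hg : Tm g) : DefP (fun n G X x => nv (f n x) < nv (g n x)) :=
  (DefP.nLe hg hf).not.congr fun n G X x => not_le

theorem DefP.nAdd (hf : Tm f) (hg : Tm g) (hh : Tm h) :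
    DefP (fun n G X x => nv (f n x) + nv (g n x) = nv (h n x)) := by
  have key : DefP (E := fun n => F n × (H n × K n))
      (fun n G X x => nv x.1 + nv x.2.1 = nv x.2.2) := by
    refine DefP.congr (P := fun n G X x => ∃ a : K n, nv a = nv x.2.1 ∧ key a ≤ key x.2.2 ∧
      Nat.card {t : F n // key t < key x.1} =
        Nat.card {t : K n // key a ≤ key t ∧ key t < key x.2.2}) ?_ ?_
    · refine DefP.ex (DefP.and (DefP.nEq ?_ ?_) (DefP.and ?_ (DefP.cardEq (S := F) (T := K) ?_ ?_)))
      all_goals (repeat' (first
          | apply DefP.hlf | apply DefP.p1le | apply DefP.p1 | apply DefP.p0 | apply DefP.aug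
          | apply DefP.pth | apply DefP.nx | apply DefP.cnd | apply DefP.hmin | apply DefP.hit
          | apply DefP.cdn | apply DefP.firstEx | apply DefP.exN | apply DefP.end_
          | apply DefP.isZero | apply DefP.isSucc | apply DefP.alt | apply DefP.exr
          | apply DefP.exl | apply DefP.side | apply DefP.oddCard | apply DefP.cardEq
          | apply DefP.cardLt | apply DefP.cardLe | apply DefP.lst | apply DefP.fst
          | apply DefP.nxt | apply DefP.keyLe | apply DefP.keyLt | apply DefP.rtc
          | (apply DefP.app4; assumption) | (apply DefP.app3'; assumption)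
          | (apply DefP.app3; assumption) | (apply DefP.app2; assumption)
          | (apply DefP.comp; assumption) | exact Tm.id | exact Tm.unit | apply Tm.fst
          | apply Tm.snd | apply Tm.app | exact DefP.const _ | apply DefP.and | apply DefP.not
          | apply DefP.or | apply DefP.iff | apply DefP.adj | apply DefP.le | apply DefP.lt
          | apply DefP.eqFin | apply DefP.eq | apply DefP.rv | apply DefP.imp
          | apply DefP.allFin | apply DefP.exFin | apply DefP.all | apply DefP.ex | assumption
          | (apply Tm.comp; assumption) | apply Tm.pair | apply Tm.lam))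
    · intro n G X x
      constructor
      · rintro ⟨a, h1, h2, h3⟩
        rw [card_Ico] at h3
        have h4 := nv_le_iff.2 h2
        change nv x.1 = _ at h3
        omega
      · intro h
        obtain ⟨a, ha⟩ := nv_down' (b := x.2.2) (m := nv x.2.1) (by omega)
        refine ⟨a, ha, nv_le_iff.1 (by omega), ?_⟩
        rw [card_Ico]
        change nv x.1 = _
        omega
  exact DefP.app3 (P := fun n G X a b c => nv a + nv b = nv c) key hf hg hh

theorem DefP.nSucc (hf : Tm f) (hg : Tm g) :
    DefP (fun n G X x => nv (g n x) = nv (f n x) + 1) := by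
  have key : DefP (E := fun n => F n × H n) (fun n G X x => nv x.2 = nv x.1 + 1) := by
    refine DefP.congr (P := fun n G X x => nv x.1 < nv x.2 ∧
      ¬ ∃ a : H n, nv x.1 < nv a ∧ nv a < nv x.2) ?_ ?_
    · refine DefP.and (DefP.nLt ?_ ?_) (DefP.not (DefP.ex (DefP.and (DefP.nLt ?_ ?_)
        (DefP.nLt ?_ ?_))))
      all_goals (repeat' (first
          | apply DefP.hlf | apply DefP.p1le | apply DefP.p1 | apply DefP.p0 | apply DefP.aug
          | apply DefP.pth | apply DefP.nx | apply DefP.cnd | apply DefP.hmin | apply DefP.hit
          | apply DefP.cdn | apply DefP.firstEx | apply DefP.exN | apply DefP.end_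
          | apply DefP.isZero | apply DefP.isSucc | apply DefP.alt | apply DefP.exr
          | apply DefP.exl | apply DefP.side | apply DefP.oddCard | apply DefP.cardEq
          | apply DefP.cardLt | apply DefP.cardLe | apply DefP.lst | apply DefP.fst
          | apply DefP.nxt | apply DefP.keyLe | apply DefP.keyLt | apply DefP.rtc
          | (apply DefP.app4; assumption) | (apply DefP.app3'; assumption)
          | (apply DefP.app3; assumption) | (apply DefP.app2; assumption)
          | (apply DefP.comp; assumption) | exact Tm.id | exact Tm.unit | apply Tm.fst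
          | apply Tm.snd | apply Tm.app | exact DefP.const _ | apply DefP.and | apply DefP.not
          | apply DefP.or | apply DefP.iff | apply DefP.adj | apply DefP.le | apply DefP.lt
          | apply DefP.eqFin | apply DefP.eq | apply DefP.rv | apply DefP.imp
          | apply DefP.allFin | apply DefP.exFin | apply DefP.all | apply DefP.ex | assumption
          | (apply Tm.comp; assumption) | apply Tm.pair | apply Tm.lam))
    · intro n G X x
      constructor
      · rintro ⟨h1, h2⟩
        by_contra hc
        obtain ⟨a, ha⟩ := nv_down (b := x.2) (m := nv x.1 + 1) (by omega)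
        exact h2 ⟨a, by omega, by omega⟩
      · intro h
        refine ⟨by omega, ?_⟩
        rintro ⟨a, h1, h2⟩
        omega
  exact DefP.app2 (P := fun n G X a b => nv b = nv a + 1) key hf hg

theorem DefP.nZero (hf : Tm f) : DefP (fun n G X x => nv (f n x) = 0) := by
  have key : DefP (E := fun n => F n) (fun n G X x => nv x = 0) := by
    refine DefP.congr (P := fun n G X x => ¬ ∃ a : F n, nv a < nv x) ?_ ?_
    · refine DefP.not (DefP.ex (DefP.nLt ?_ ?_))
      all_goals (repeat' (first
          | apply DefP.hlf | apply DefP.p1le | apply DefP.p1 | apply DefP.p0 | apply DefP.aug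
          | apply DefP.pth | apply DefP.nx | apply DefP.cnd | apply DefP.hmin | apply DefP.hit
          | apply DefP.cdn | apply DefP.firstEx | apply DefP.exN | apply DefP.end_
          | apply DefP.isZero | apply DefP.isSucc | apply DefP.alt | apply DefP.exr
          | apply DefP.exl | apply DefP.side | apply DefP.oddCard | apply DefP.cardEq
          | apply DefP.cardLt | apply DefP.cardLe | apply DefP.lst | apply DefP.fst
          | apply DefP.nxt | apply DefP.keyLe | apply DefP.keyLt | apply DefP.rtc
          | (apply DefP.app4; assumption) | (apply DefP.app3'; assumption)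
          | (apply DefP.app3; assumption) | (apply DefP.app2; assumption)
          | (apply DefP.comp; assumption) | exact Tm.id | exact Tm.unit | apply Tm.fst
          | apply Tm.snd | apply Tm.app | exact DefP.const _ | apply DefP.and | apply DefP.not
          | apply DefP.or | apply DefP.iff | apply DefP.adj | apply DefP.le | apply DefP.lt
          | apply DefP.eqFin | apply DefP.eq | apply DefP.rv | apply DefP.imp
          | apply DefP.allFin | apply DefP.exFin | apply DefP.all | apply DefP.ex | assumption
          | (apply Tm.comp; assumption) | apply Tm.pair | apply Tm.lam))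
    · intro n G X x
      constructor
      · intro h1
        by_contra hc
        obtain ⟨a, ha⟩ := nv_down (b := x) (m := 0) (by omega)
        exact h1 ⟨a, by omega⟩
      · rintro h ⟨a, ha⟩
        omega
  exact DefP.comp (P := fun n G X a => nv a = 0) key hf

theorem DefP.nOne (hf : Tm f) : DefP (fun n G X x => nv (f n x) = 1) := by
  have key : DefP (E := fun n => F n) (fun n G X x => nv x = 1) := by
    refine DefP.congr (P := fun n G X x => ∃ a : F n, nv a = 0 ∧ nv x = nv a + 1) ?_ ?_
    · refine DefP.ex (DefP.and (DefP.nZero ?_) (DefP.nSucc ?_ ?_))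
      all_goals (repeat' (first
          | apply DefP.hlf | apply DefP.p1le | apply DefP.p1 | apply DefP.p0 | apply DefP.aug
          | apply DefP.pth | apply DefP.nx | apply DefP.cnd | apply DefP.hmin | apply DefP.hit
          | apply DefP.cdn | apply DefP.firstEx | apply DefP.exN | apply DefP.end_
          | apply DefP.isZero | apply DefP.isSucc | apply DefP.alt | apply DefP.exr
          | apply DefP.exl | apply DefP.side | apply DefP.oddCard | apply DefP.cardEq
          | apply DefP.cardLt | apply DefP.cardLe | apply DefP.lst | apply DefP.fst
          | apply DefP.nxt | apply DefP.keyLe | apply DefP.keyLt | apply DefP.rtc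
          | (apply DefP.app4; assumption) | (apply DefP.app3'; assumption)
          | (apply DefP.app3; assumption) | (apply DefP.app2; assumption)
          | (apply DefP.comp; assumption) | exact Tm.id | exact Tm.unit | apply Tm.fst
          | apply Tm.snd | apply Tm.app | exact DefP.const _ | apply DefP.and | apply DefP.not
          | apply DefP.or | apply DefP.iff | apply DefP.adj | apply DefP.le | apply DefP.lt
          | apply DefP.eqFin | apply DefP.eq | apply DefP.rv | apply DefP.imp
          | apply DefP.allFin | apply DefP.exFin | apply DefP.all | apply DefP.ex | assumption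
          | (apply Tm.comp; assumption) | apply Tm.pair | apply Tm.lam))
    · intro n G X x
      constructor
      · rintro ⟨a, h1, h2⟩
        omega
      · intro h
        obtain ⟨a, ha⟩ := nv_down (b := x) (m := 0) (by omega)
        exact ⟨a, ha, by omega⟩
  exact DefP.comp (P := fun n G X a => nv a = 1) key hf

end


end Pool.Agent.PMNC
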