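import Mathlib

set_option autoImplicit false
set_option linter.all false

/-!
# The union of two matchings is 2-colourable
-/

namespace Pool.Agent.PMNC

/-- two fixed point free involutions: `(ab)^k x ≠ a x` -/
theorem invol_ne {β : Type*} (a b : Equiv.Perm β) (ha : a * a = 1) (hb : b * b = 1)
    (ha' : ∀ x, a x ≠ x) (hb' : ∀ x, b x ≠ x) (x : β) (k : ℤ) : ((a * b) ^ k) x ≠ a x := by
  have ha1 : a⁻¹ = a := inv_eq_of_mul_eq_one_left ha
  have hb1 : b⁻¹ = b := inv_eq_of_mul_eq_one_left hb
  have hconj : ∀ j : ℤ, a * (a * b) ^ j = ((a * b) ^ j)⁻¹ * a := by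
    intro j
    have h1 : a * (a * b) * a⁻¹ = (a * b)⁻¹ := by
      rw [mul_inv_rev, ha1, hb1, ← mul_assoc, ha, one_mul]
    have h2 : a * (a * b) ^ j * a⁻¹ = ((a * b) ^ j)⁻¹ := by
      rw [← inv_zpow, ← h1]
      exact (conj_zpow).symm
    rw [← h2]
    group
  intro h
  have h0 : (a * (a * b) ^ k) x = x := by
    rw [Equiv.Perm.mul_apply, h, ← Equiv.Perm.mul_apply, ha]
    rfl
  rcases Int.even_or_odd' k with ⟨j, hj | hj⟩
  · have : a * (a * b) ^ k = ((a * b) ^ j)⁻¹ * a * (a * b) ^ j := by
      rw [hj, two_mul, zpow_add, ← mul_assoc, hconj]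
    rw [this] at h0
    have h3 : a (((a * b) ^ j) x) = ((a * b) ^ j) x := by
      have := congrArg ((a * b) ^ j) h0
      simpa [Equiv.Perm.mul_apply] using this
    exact ha' _ h3
  · have : a * (a * b) ^ k = ((a * b) ^ j)⁻¹ * b * (a * b) ^ j := by
      rw [hj, show 2 * j + 1 = j + 1 + j by ring, zpow_add, zpow_add, zpow_one]
      calc a * ((a * b) ^ j * (a * b) * (a * b) ^ j)
          = (a * (a * b) ^ j) * (a * b) * (a * b) ^ j := by simp only [mul_assoc]
        _ = (((a * b) ^ j)⁻¹ * a) * (a * b) * (a * b) ^ j := by rw [hconj]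
        _ = ((a * b) ^ j)⁻¹ * (a * a) * b * (a * b) ^ j := by simp only [mul_assoc]
        _ = _ := by rw [ha, mul_one]
    rw [this] at h0
    have h3 : b (((a * b) ^ j) x) = ((a * b) ^ j) x := by
      have := congrArg ((a * b) ^ j) h0
      simpa [Equiv.Perm.mul_apply] using this
    exact hb' _ h3

/-- two fixed point free involutions have a common 2-colouring -/
theorem invol_col {β : Type*} (a b : Equiv.Perm β) (ha : a * a = 1) (hb : b * b = 1)
    (ha' : ∀ x, a x ≠ x) (hb' : ∀ x, b x ≠ x) :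
    ∃ col : β → Prop, ∀ x, (col (a x) ↔ ¬ col x) ∧ (col (b x) ↔ ¬ col x) := by
  classical
  have ha1 : a⁻¹ = a := inv_eq_of_mul_eq_one_left ha
  have hb1 : b⁻¹ = b := inv_eq_of_mul_eq_one_left hb
  have haa : ∀ x, a (a x) = x := fun x => by
    rw [← Equiv.Perm.mul_apply, ha]; rfl
  -- the cycles of `a * b`
  let s : Setoid β := Equiv.Perm.SameCycle.setoid (a * b)
  have hmap : ∀ x y : β, (a * b).SameCycle x y → (a * b).SameCycle (a x) (a y) := by
    rintro x y ⟨k, hk⟩
    refine ⟨-k, ?_⟩
    have h1 : a * (a * b) * a⁻¹ = (a * b)⁻¹ := by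
      rw [mul_inv_rev, ha1, hb1, ← mul_assoc, ha, one_mul]
    have h2 : a * (a * b) ^ k * a⁻¹ = (a * b) ^ (-k) := by
      rw [zpow_neg, ← inv_zpow, ← h1]
      exact (conj_zpow).symm
    rw [← h2, ha1]
    simp only [Equiv.Perm.mul_apply, haa]
    rw [hk]
  let abar : Quotient s → Quotient s := Quotient.map' a hmap
  have habar : ∀ q, abar (abar q) = q := by
    intro q
    induction q using Quotient.inductionOn' with
    | h x => exact congrArg (Quotient.mk'' (s₁ := s)) (haa x)
  have hne : ∀ q, abar q ≠ q := by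
    intro q
    induction q using Quotient.inductionOn' with
    | h x =>
      intro h
      have : (a * b).SameCycle (a x) x := Quotient.exact' h
      obtain ⟨k, hk⟩ := this.symm
      exact invol_ne a b ha hb ha' hb' x k hk
  have hbx : ∀ x, (a * b).SameCycle (b x) (a x) := by
    intro x
    refine ⟨1, ?_⟩
    rw [zpow_one, Equiv.Perm.mul_apply, ← Equiv.Perm.mul_apply b b, hb]
    rfl
  let r := @WellOrderingRel (Quotient s)
  refine ⟨fun x => r (Quotient.mk'' x) (abar (Quotient.mk'' x)), fun x => ?_⟩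
  have key : ∀ q, r (abar q) (abar (abar q)) ↔ ¬ r q (abar q) := by
    intro q
    rw [habar]
    rcases trichotomous_of r q (abar q) with h | h | h
    · exact ⟨fun h' => absurd (asymm_of r h h') not_false, fun h' => absurd h h'⟩
    · exact absurd h.symm (hne q)
    · exact ⟨fun _ h' => asymm_of r h h', fun _ => h⟩
  have e1 : (Quotient.mk'' (a x) : Quotient s) = abar (Quotient.mk'' x) := rfl
  have e2 : (Quotient.mk'' (b x) : Quotient s) = Quotient.mk'' (a x) := Quotient.sound' (hbx x)
  constructor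
  · change r (Quotient.mk'' (a x)) (abar (Quotient.mk'' (a x))) ↔ _
    rw [e1]
    exact key _
  · change r (Quotient.mk'' (b x)) (abar (Quotient.mk'' (b x))) ↔ _
    rw [e2, e1]
    exact key _

open Classical in
/-- the involution of `α × Bool` extending a partial involution -/
noncomputable def extFun {α : Type*} (P : α → α → Prop) (p : α × Bool) : α × Bool :=
  if h : ∃ y, P p.1 y then (h.choose, p.2) else (p.1, !p.2)

theorem extFun_pos {α : Type*} {P : α → α → Prop} (hfun : ∀ x y z, P x y → P x z → y = z)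
    {x y : α} (h : P x y) (i : Bool) : extFun P (x, i) = (y, i) := by
  have h' : ∃ y, P x y := ⟨y, h⟩
  unfold extFun
  rw [dif_pos h']
  exact Prod.ext (hfun _ _ _ h'.choose_spec h) rfl

theorem extFun_neg {α : Type*} {P : α → α → Prop} {x : α} (h : ¬ ∃ y, P x y) (i : Bool) :
    extFun P (x, i) = (x, !i) := by
  unfold extFun
  rw [dif_neg h]

theorem extFun_invol {α : Type*} (P : α → α → Prop) (hsym : ∀ x y, P x y → P y x)
    (hfun : ∀ x y z, P x y → P x z → y = z) : Function.Involutive (extFun P) := by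
  rintro ⟨x, i⟩
  by_cases h : ∃ y, P x y
  · obtain ⟨y, hy⟩ := h
    rw [extFun_pos hfun hy, extFun_pos hfun (hsym _ _ hy)]
  · rw [extFun_neg h, extFun_neg h, Bool.not_not]

theorem two_matchings_col {α : Type*} (P Q : α → α → Prop)
    (hP : ∀ x y, P x y → P y x) (hP' : ∀ x y z, P x y → P x z → y = z) (hP0 : ∀ x, ¬ P x x)
    (hQ : ∀ x y, Q x y → Q y x) (hQ' : ∀ x y z, Q x y → Q x z → y = z) (hQ0 : ∀ x, ¬ Q x x) :
    ∃ col : α → Prop, ∀ x y, (P x y ∨ Q x y) → (col x ↔ ¬ col y) := by
  classical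
  have hinv : ∀ (P : α → α → Prop) (hP : ∀ x y, P x y → P y x)
      (hP' : ∀ x y z, P x y → P x z → y = z) (hP0 : ∀ x, ¬ P x x),
      ∃ e : Equiv.Perm (α × Bool), e * e = 1 ∧ (∀ p, e p ≠ p) ∧
      ∀ x y, P x y → e (x, false) = (y, false) := by
    intro P hP hP' hP0
    refine ⟨(extFun_invol P hP hP').toPerm, ?_, ?_, ?_⟩
    · ext1 p
      exact extFun_invol P hP hP' p
    · rintro ⟨x, i⟩ he
      change extFun P (x, i) = (x, i) at he
      by_cases h : ∃ y, P x y
      · obtain ⟨y, hy⟩ := h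
        rw [extFun_pos hP' hy] at he
        rw [show y = x from congrArg Prod.fst he] at hy
        exact hP0 x hy
      · rw [extFun_neg h] at he
        have := congrArg Prod.snd he
        simp at this
    · intro x y hxy
      exact extFun_pos hP' hxy false
  obtain ⟨e, a1, a2, a3⟩ := hinv P hP hP' hP0
  obtain ⟨e', b1, b2, b3⟩ := hinv Q hQ hQ' hQ0
  obtain ⟨col, hcol⟩ := invol_col _ _ a1 b1 a2 b2
  refine ⟨fun x => col (x, false), fun x y h => ?_⟩
  rcases h with h | h
  · have := (hcol (y, false)).1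
    rw [a3 y x (hP _ _ h)] at this
    exact this
  · have := (hcol (y, false)).2
    rw [b3 y x (hQ _ _ h)] at this
    exact this

end Pool.Agent.PMNC
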