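import Mathlib
import Pool.Agent.Lib.MP_0087d5_lc.Side
import Pool.Agent.Lib.MP_0087d5_lc.Invol

set_option autoImplicit false
set_option linter.all false

/-!
# Pairing consecutive elements of a finite set
-/

namespace Pool.Agent.PMNC

open Relation

variable {α κ : Type*} [LinearOrder κ] [Finite α] {f : α → κ}

/-- `a` and `b` have the ranks `2i-1` and `2i` in `A`, in some order -/
def Pr (f : α → κ) (A : α → Prop) (a b : α) : Prop :=
  A a ∧ A b ∧ ((Odd (rk f A a) ∧ Nxt f A a b) ∨ (Odd (rk f A b) ∧ Nxt f A b a))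

theorem Pr.symm {A : α → Prop} {a b : α} (h : Pr f A a b) : Pr f A b a :=
  ⟨h.2.1, h.1, h.2.2.symm⟩

theorem Pr.irrefl {A : α → Prop} {a : α} : ¬ Pr f A a a := by
  rintro ⟨_, _, h | h⟩
  · exact lt_irrefl _ h.2.2.1
  · exact lt_irrefl _ h.2.2.1

theorem nxt_unique (hf : Function.Injective f) {A : α → Prop} {a b c : α} (hb : Nxt f A a b)
    (hc : Nxt f A a c) : b = c :=
  hf (le_antisymm (hb.2.2 _ hc.1 hc.2.1) (hc.2.2 _ hb.1 hb.2.1))

theorem prv_unique (hf : Function.Injective f) {A : α → Prop} {a b c : α} (hb' : A b) (hc' : A c)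
    (hb : Nxt f A b a) (hc : Nxt f A c a) : b = c := by
  rcases lt_trichotomy (f b) (f c) with h | h | h
  · exact absurd (hb.2.2 _ hc' h) (not_le.2 hc.2.1)
  · exact hf h
  · exact absurd (hc.2.2 _ hb' h) (not_le.2 hb.2.1)

theorem Pr.unique (hf : Function.Injective f) {A : α → Prop} {a b c : α} (hb : Pr f A a b)
    (hc : Pr f A a c) : b = c := by
  have hodd : ∀ {x y : α}, Odd (rk f A x) → Nxt f A x y → ¬ Odd (rk f A y) := by
    intro x y hx hn hy
    rw [rk_nxt hf hn] at hy
    rw [Nat.odd_add_one] at hy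
    exact hy hx
  obtain ⟨_, hb1, hb2⟩ := hb
  obtain ⟨_, hc1, hc2⟩ := hc
  rcases hb2 with ⟨h1, h2⟩ | ⟨h1, h2⟩ <;> rcases hc2 with ⟨h3, h4⟩ | ⟨h3, h4⟩
  · exact nxt_unique hf h2 h4
  · exact absurd h1 (hodd h3 h4)
  · exact absurd h3 (hodd h1 h2)
  · exact prv_unique hf hb1 hc1 h2 h4

/-- every element with a successor has a partner -/
theorem exists_pr (hf : Function.Injective f) {A : α → Prop} {a : α} (ha : A a)
    (h : ¬ Lst f A a) : ∃ b, Pr f A a b := by
  by_cases ho : Odd (rk f A a)
  · have : ∃ x, A x ∧ f a < f x := by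
      by_contra hc
      push Not at hc
      exact h ⟨ha, hc⟩
    obtain ⟨b, hb⟩ := exists_nxt hf this
    exact ⟨b, ha, hb.1, Or.inl ⟨ho, hb⟩⟩
  · have : ∃ x, A x ∧ f x < f a := by
      by_contra hc
      push Not at hc
      have := rk_fst hf (a := a) (A := A) ⟨ha, hc⟩
      rw [this] at ho
      exact ho (by decide)
    obtain ⟨b, hb, hn⟩ := exists_prv hf ha this
    refine ⟨b, ha, hb, Or.inr ⟨?_, hn⟩⟩
    rw [rk_nxt hf hn, Nat.odd_add_one, not_not] at ho
    exact ho

theorem card_split (A C : α → Prop) :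
    Nat.card {x // A x} = Nat.card {x // A x ∧ C x} + Nat.card {x // A x ∧ ¬ C x} := by
  classical
  haveI := Fintype.ofFinite α
  simp only [Nat.card_eq_fintype_card, Fintype.card_subtype]
  rw [← Finset.card_union_of_disjoint]
  · congr 1
    ext x
    simp only [Finset.mem_filter, Finset.mem_univ, true_and, Finset.mem_union]
    tauto
  · rw [Finset.disjoint_filter]
    tauto

/-- if exactly one element of each pair is in `C`, then `C` is about half of `A` -/
theorem card_half (hf : Function.Injective f) {A C : α → Prop}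
    (h : ∀ a b, Pr f A a b → (C a ↔ ¬ C b)) :
    Nat.card {x // A x ∧ C x} ≤ Nat.card {x // A x ∧ ¬ C x} + 1 := by
  classical
  let g : {x // A x ∧ C x} → Option {x // A x ∧ ¬ C x} := fun x =>
    if hx : ∃ b, Pr f A x.1 b then
      some ⟨hx.choose, hx.choose_spec.2.1, (h _ _ hx.choose_spec).1 x.2.2⟩ else none
  have hg : Function.Injective g := by
    intro x y hxy
    by_cases hx : ∃ b, Pr f A x.1 b
    · by_cases hy : ∃ b, Pr f A y.1 b
      · simp only [g, hx, hy, dite_true, Option.some.injEq, Subtype.mk.injEq] at hxy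
        have h1 := hx.choose_spec
        have h2 := hy.choose_spec
        rw [← hxy] at h2
        exact Subtype.ext (Pr.unique hf h1.symm h2.symm)
      · simp [g, hx, hy] at hxy
    · by_cases hy : ∃ b, Pr f A y.1 b
      · simp [g, hx, hy] at hxy
      · have h1 : Lst f A x.1 := by
          by_contra hc
          exact hx (exists_pr hf x.2.1 hc)
        have h2 : Lst f A y.1 := by
          by_contra hc
          exact hy (exists_pr hf y.2.1 hc)
        exact Subtype.ext (hf (le_antisymm (h2.2 _ h1.1) (h1.2 _ h2.1)))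
  have := Nat.card_le_card_of_injective g hg
  rwa [Finite.card_option] at this

theorem card_half' (hf : Function.Injective f) {A C : α → Prop}
    (h : ∀ a b, Pr f A a b → (C a ↔ ¬ C b)) :
    2 * Nat.card {x // A x ∧ C x} ≤ Nat.card {x // A x} + 1 := by
  have h1 := card_half hf h
  have h2 := card_split A C
  omega

/-- the number of elements of even rank -/
theorem card_even (hf : Function.Injective f) (A : α → Prop) :
    Nat.card {x // A x ∧ ¬ Odd (rk f A x)} = Nat.card {x // A x} / 2 := by
  classical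
  have hodd : ∀ {x y : α}, Odd (rk f A x) → Nxt f A x y → ¬ Odd (rk f A y) := by
    intro x y hx hn hy
    rw [rk_nxt hf hn] at hy
    rw [Nat.odd_add_one] at hy
    exact hy hx
  have h1 : Nat.card {x // A x ∧ Odd (rk f A x)} ≤ Nat.card {x // A x ∧ ¬ Odd (rk f A x)} + 1 := by
    apply card_half hf
    rintro a b ⟨_, _, ⟨h1, h2⟩ | ⟨h1, h2⟩⟩
    · exact ⟨fun _ => hodd h1 h2, fun _ => h1⟩
    · exact ⟨fun h => absurd h (hodd h1 h2), fun h => absurd h1 h⟩
  have h2 : Nat.card {x // A x ∧ ¬ Odd (rk f A x)} ≤ Nat.card {x // A x ∧ Odd (rk f A x)} := by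
    have hex : ∀ x : {x // A x ∧ ¬ Odd (rk f A x)}, ∃ y, A y ∧ Odd (rk f A y) ∧ Nxt f A y x.1 := by
      intro x
      have : ∃ y, A y ∧ f y < f x.1 := by
        by_contra hc
        push Not at hc
        have := rk_fst hf (a := x.1) (A := A) ⟨x.2.1, hc⟩
        have h3 := x.2.2
        rw [this] at h3
        exact h3 (by decide)
      obtain ⟨b, hb, hn⟩ := exists_prv hf x.2.1 this
      refine ⟨b, hb, ?_, hn⟩
      have h3 := x.2.2
      rw [rk_nxt hf hn, Nat.odd_add_one, not_not] at h3
      exact h3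
    choose g hg1 hg2 hg3 using hex
    refine Nat.card_le_card_of_injective (fun x => ⟨g x, hg1 x, hg2 x⟩) fun x y hxy => ?_
    have e : g x = g y := congrArg Subtype.val hxy
    have h3 := hg3 x
    rw [e] at h3
    exact Subtype.ext (nxt_unique hf h3 (hg3 y))
  have h3 := card_split A (fun x => Odd (rk f A x))
  omega

/-- the set of the elements of even rank, with the last element added if `c` -/
def halfSet (f : α → κ) (A : α → Prop) (c : Prop) (x : α) : Prop :=
  A x ∧ (¬ Odd (rk f A x) ∨ (c ∧ Lst f A x))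

open Classical in
theorem card_halfSet (hf : Function.Injective f) (A : α → Prop) (c : Prop)
    (hc : c → Odd (Nat.card {x // A x})) :
    Nat.card {x // halfSet f A c x} = Nat.card {x // A x} / 2 + if c then 1 else 0 := by
  by_cases h : c
  · have hodd := hc h
    have hne : ∃ a, A a := by
      by_contra hcon
      haveI : IsEmpty {x // A x} := ⟨fun x => hcon ⟨x.1, x.2⟩⟩
      rw [Nat.card_of_isEmpty] at hodd
      exact absurd hodd (by decide)
    obtain ⟨l, hl⟩ := exists_lst (f := f) hf hne
    have hlo : Odd (rk f A l) := by rwa [rk_lst hf hl]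
    rw [card_split (halfSet f A c) (fun x => x = l), if_pos h, ← card_even hf A]
    have e1 : Nat.card {x // halfSet f A c x ∧ x = l} = 1 := by
      rw [Nat.card_eq_one_iff_unique]
      refine ⟨⟨fun x y => ?_⟩, ⟨⟨l, ⟨hl.1, Or.inr ⟨h, hl⟩⟩, rfl⟩⟩⟩
      exact Subtype.ext (x.2.2.trans y.2.2.symm)
    have e2 : Nat.card {x // halfSet f A c x ∧ ¬ x = l} = Nat.card {x // A x ∧ ¬ Odd (rk f A x)} := by
      apply Nat.card_congr
      apply Equiv.subtypeEquivRight
      intro x
      constructor
      · rintro ⟨⟨h1, h2⟩, h3⟩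
        refine ⟨h1, ?_⟩
        rcases h2 with h2 | h2
        · exact h2
        · exact absurd (hf (le_antisymm (hl.2 _ h1) (h2.2.2 _ hl.1))) h3
      · rintro ⟨h1, h2⟩
        refine ⟨⟨h1, Or.inl h2⟩, ?_⟩
        rintro rfl
        exact h2 hlo
    rw [e1, e2, add_comm]
  · rw [if_neg h, add_zero, ← card_even hf A]
    apply Nat.card_congr
    apply Equiv.subtypeEquivRight
    intro x
    unfold halfSet
    tauto

end Pool.Agent.PMNC
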