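import Mathlib
import Pool.Agent.Lib.MP_0087d5_lc.Pairing

set_option autoImplicit false
set_option linter.all false

/-!
# Euler split of a bipartite graph
-/

namespace Pool.Agent.PMNC

open Relation

section comb
variable {α β κ μ ν : Type*} [LinearOrder κ] [LinearOrder μ] [LinearOrder ν]

/-- links between edges: consecutive edges at a left vertex, or at a right vertex -/
def Lk (f : α → κ) (g : β → μ) (H : α → β → Prop) (e e' : α × β) : Prop :=
  (e.1 = e'.1 ∧ Pr g (fun v => H e.1 v) e.2 e'.2) ∨ (e.2 = e'.2 ∧ Pr f (fun u => H u e.2) e.1 e'.1)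

/-- the larger half of `H` -/
def Cho (f : α → κ) (g : β → μ) (h : α × β → ν) (H : α → β → Prop) (e : α × β) : Prop :=
  H e.1 e.2 ∧ (Side h (Lk f g H) e ↔
    Nat.card {e : α × β // H e.1 e.2 ∧ ¬ Side h (Lk f g H) e} ≤
      Nat.card {e : α × β // H e.1 e.2 ∧ Side h (Lk f g H) e})

variable [Finite α] [Finite β] {f : α → κ} {g : β → μ} {h : α × β → ν}

theorem lk_side (hf : Function.Injective f) (hg : Function.Injective g)
    (hh : Function.Injective h) {H : α → β → Prop} {e e' : α × β} (hl : Lk f g H e e') :
    Side h (Lk f g H) e ↔ ¬ Side h (Lk f g H) e' := by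
  obtain ⟨col, hcol⟩ := two_matchings_col
    (fun e e' : α × β => e.1 = e'.1 ∧ Pr g (fun v => H e.1 v) e.2 e'.2)
    (fun e e' : α × β => e.2 = e'.2 ∧ Pr f (fun u => H u e.2) e.1 e'.1)
    (fun x y hxy => ⟨hxy.1.symm, by rw [← hxy.1]; exact hxy.2.symm⟩)
    (fun x y z hxy hxz => Prod.ext (hxy.1.symm.trans hxz.1) (Pr.unique hg hxy.2 hxz.2))
    (fun x hx => Pr.irrefl hx.2)
    (fun x y hxy => ⟨hxy.1.symm, by rw [← hxy.1]; exact hxy.2.symm⟩)
    (fun x y z hxy hxz => Prod.ext (Pr.unique hf hxy.2 hxz.2) (hxy.1.symm.trans hxz.1))
    (fun x hx => Pr.irrefl hx.2)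
  refine side_proper hh ?_ col hcol hl
  rintro a b (⟨h1, h2⟩ | ⟨h1, h2⟩)
  · exact Or.inl ⟨h1.symm, by rw [← h1]; exact h2.symm⟩
  · exact Or.inr ⟨h1.symm, by rw [← h1]; exact h2.symm⟩

theorem cho_left (hf : Function.Injective f) (hg : Function.Injective g)
    (hh : Function.Injective h) (H : α → β → Prop) (u : α) :
    2 * Nat.card {v // H u v ∧ Cho f g h H (u, v)} ≤ Nat.card {v // H u v} + 1 := by
  apply card_half' hg
  intro a b hab
  have h1 := lk_side hf hg hh (e := (u, a)) (e' := (u, b)) (Or.inl ⟨rfl, hab⟩)
  have h2 : H u a := hab.1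
  have h3 : H u b := hab.2.1
  unfold Cho
  simp only [h2, h3, true_and]
  rw [h1]
  tauto

theorem cho_right (hf : Function.Injective f) (hg : Function.Injective g)
    (hh : Function.Injective h) (H : α → β → Prop) (v : β) :
    2 * Nat.card {u // H u v ∧ Cho f g h H (u, v)} ≤ Nat.card {u // H u v} + 1 := by
  apply card_half' hf
  intro a b hab
  have h1 := lk_side hf hg hh (e := (a, v)) (e' := (b, v)) (Or.inr ⟨rfl, hab⟩)
  have h2 : H a v := hab.1
  have h3 : H b v := hab.2.1
  unfold Cho
  simp only [h2, h3, true_and]
  rw [h1]
  tauto

theorem cho_total (H : α → β → Prop) :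
    Nat.card {e : α × β // H e.1 e.2} ≤ 2 * Nat.card {e // Cho f g h H e} := by
  have h1 := card_split (fun e : α × β => H e.1 e.2) (fun e => Side h (Lk f g H) e)
  by_cases hc : Nat.card {e : α × β // H e.1 e.2 ∧ ¬ Side h (Lk f g H) e} ≤
      Nat.card {e : α × β // H e.1 e.2 ∧ Side h (Lk f g H) e}
  · have h2 : Nat.card {e // Cho f g h H e} =
        Nat.card {e : α × β // H e.1 e.2 ∧ Side h (Lk f g H) e} := by
      apply Nat.card_congr
      apply Equiv.subtypeEquivRight
      intro e
      unfold Cho
      simp only [hc, iff_true]
    omega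
  · have h2 : Nat.card {e // Cho f g h H e} =
        Nat.card {e : α × β // H e.1 e.2 ∧ ¬ Side h (Lk f g H) e} := by
      apply Nat.card_congr
      apply Equiv.subtypeEquivRight
      intro e
      unfold Cho
      simp only [hc, iff_false]
    omega

end comb

section def_
variable {E S T : ℕ → Type} [Env E] [Env S] [Env T]

theorem DefP.oddRk {A : ∀ n : ℕ, SimpleGraph (Fin n) → Ctx n → E n → S n → Prop}
    (hA : DefP (E := fun n => E n × S n) (fun n G X y => A n G X y.1 y.2))
    {f : ∀ n : ℕ, E n → S n} (hf : Tm f) :
    DefP (fun n G X x => Odd (rk key (A n G X x) (f n x))) := by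
  unfold rk
  have hf' : Tm (fun n (y : E n × S n) => f n y.1) := hf.comp (Tm.fst (H := S) Tm.id)
  (repeat' (first
      | apply DefP.side | apply DefP.oddCard | apply DefP.cardEq | apply DefP.cardLt
      | apply DefP.cardLe | apply DefP.lst | apply DefP.fst | apply DefP.nxt | apply DefP.keyLe
      | apply DefP.keyLt | apply DefP.rtc | (apply DefP.app4; assumption)
      | (apply DefP.app3'; assumption) | (apply DefP.app3; assumption)
      | (apply DefP.app2; assumption) | (apply DefP.comp; assumption) | exact Tm.id
      | exact Tm.unit | apply Tm.fst | apply Tm.snd | apply Tm.app | exact DefP.const _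
      | apply DefP.and | apply DefP.not | apply DefP.or | apply DefP.iff | apply DefP.adj
      | apply DefP.le | apply DefP.lt | apply DefP.eqFin | apply DefP.eq | apply DefP.rv
      | apply DefP.imp | apply DefP.allFin | apply DefP.exFin | apply DefP.all | apply DefP.ex
      | assumption | (apply Tm.comp; assumption) | apply Tm.pair | apply Tm.lam))

theorem DefP.pr {A : ∀ n : ℕ, SimpleGraph (Fin n) → Ctx n → E n → S n → Prop}
    (hA : DefP (E := fun n => E n × S n) (fun n G X y => A n G X y.1 y.2))
    {f g : ∀ n : ℕ, E n → S n} (hf : Tm f) (hg : Tm g) :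
    DefP (fun n G X x => Pr key (A n G X x) (f n x) (g n x)) := by
  unfold Pr
  have h1 := DefP.oddRk hA hf
  have h2 := DefP.oddRk hA hg
  (repeat' (first
      | apply DefP.side | apply DefP.oddCard | apply DefP.cardEq | apply DefP.cardLt
      | apply DefP.cardLe | apply DefP.lst | apply DefP.fst | apply DefP.nxt | apply DefP.keyLe
      | apply DefP.keyLt | apply DefP.rtc | (apply DefP.app4; assumption)
      | (apply DefP.app3'; assumption) | (apply DefP.app3; assumption)
      | (apply DefP.app2; assumption) | (apply DefP.comp; assumption) | exact Tm.id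
      | exact Tm.unit | apply Tm.fst | apply Tm.snd | apply Tm.app | exact DefP.const _
      | apply DefP.and | apply DefP.not | apply DefP.or | apply DefP.iff | apply DefP.adj
      | apply DefP.le | apply DefP.lt | apply DefP.eqFin | apply DefP.eq | apply DefP.rv
      | apply DefP.imp | apply DefP.allFin | apply DefP.exFin | apply DefP.all | apply DefP.ex
      | assumption | (apply Tm.comp; assumption) | apply Tm.pair | apply Tm.lam))

theorem DefP.halfSet {A : ∀ n : ℕ, SimpleGraph (Fin n) → Ctx n → E n → S n → Prop}
    (hA : DefP (E := fun n => E n × S n) (fun n G X y => A n G X y.1 y.2))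
    {c : ∀ n : ℕ, SimpleGraph (Fin n) → Ctx n → E n → Prop} (hc : DefP c)
    {f : ∀ n : ℕ, E n → S n} (hf : Tm f) :
    DefP (fun n G X x => PMNC.halfSet key (A n G X x) (c n G X x) (f n x)) := by
  unfold PMNC.halfSet
  have h1 := DefP.oddRk hA hf
  (repeat' (first
      | apply DefP.side | apply DefP.oddCard | apply DefP.cardEq | apply DefP.cardLt
      | apply DefP.cardLe | apply DefP.lst | apply DefP.fst | apply DefP.nxt | apply DefP.keyLe
      | apply DefP.keyLt | apply DefP.rtc | (apply DefP.app4; assumption)
      | (apply DefP.app3'; assumption) | (apply DefP.app3; assumption)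
      | (apply DefP.app2; assumption) | (apply DefP.comp; assumption) | exact Tm.id
      | exact Tm.unit | apply Tm.fst | apply Tm.snd | apply Tm.app | exact DefP.const _
      | apply DefP.and | apply DefP.not | apply DefP.or | apply DefP.iff | apply DefP.adj
      | apply DefP.le | apply DefP.lt | apply DefP.eqFin | apply DefP.eq | apply DefP.rv
      | apply DefP.imp | apply DefP.allFin | apply DefP.exFin | apply DefP.all | apply DefP.ex
      | assumption | (apply Tm.comp; assumption) | apply Tm.pair | apply Tm.lam))

end def_


section def_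
variable {E S T : ℕ → Type} [Env E] [Env S] [Env T]

theorem DefP.lk {H : ∀ n : ℕ, SimpleGraph (Fin n) → Ctx n → E n → S n → T n → Prop}
    (hH : DefP (E := fun n => E n × (S n × T n)) (fun n G X y => H n G X y.1 y.2.1 y.2.2)) :
    DefP (E := fun n => E n × ((S n × T n) × (S n × T n)))
      (fun n G X y => Lk key key (H n G X y.1) y.2.1 y.2.2) := by
  unfold Lk
  (repeat' (first
      | apply DefP.halfSet | apply DefP.pr | apply DefP.oddRk | apply DefP.side
      | apply DefP.oddCard | apply DefP.cardEq | apply DefP.cardLt | apply DefP.cardLe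
      | apply DefP.lst | apply DefP.fst | apply DefP.nxt | apply DefP.keyLe | apply DefP.keyLt
      | apply DefP.rtc | (apply DefP.app4; assumption) | (apply DefP.app3'; assumption)
      | (apply DefP.app3; assumption) | (apply DefP.app2; assumption)
      | (apply DefP.comp; assumption) | exact Tm.id | exact Tm.unit | apply Tm.fst
      | apply Tm.snd | apply Tm.app | exact DefP.const _ | apply DefP.and | apply DefP.not
      | apply DefP.or | apply DefP.iff | apply DefP.adj | apply DefP.le | apply DefP.lt
      | apply DefP.eqFin | apply DefP.eq | apply DefP.rv | apply DefP.imp | apply DefP.allFin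
      | apply DefP.exFin | apply DefP.all | apply DefP.ex | assumption
      | (apply Tm.comp; assumption) | apply Tm.pair | apply Tm.lam))

theorem DefP.cho {H : ∀ n : ℕ, SimpleGraph (Fin n) → Ctx n → E n → S n → T n → Prop}
    (hH : DefP (E := fun n => E n × (S n × T n)) (fun n G X y => H n G X y.1 y.2.1 y.2.2))
    {f : ∀ n : ℕ, E n → S n × T n} (hf : Tm (F := fun n => S n × T n) f) :
    DefP (fun n G X x => Cho key key (key (S := fun n => S n × T n)) (H n G X x) (f n x)) := by
  have hs : DefP (E := fun n => E n × (S n × T n)) (fun n G X y =>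
      Side (key (S := fun n => S n × T n)) (Lk key key (H n G X y.1)) y.2) := by
    refine DefP.side (E := fun n => E n × (S n × T n)) (S := fun n => S n × T n)
      (R := fun n G X x e e' => Lk key key (H n G X x.1) e e') ?_ (Tm.snd Tm.id)
    exact DefP.app3 (F := E) (H := fun n => S n × T n) (K := fun n => S n × T n)
      (P := fun n G X x e e' => Lk key key (H n G X x) e e') (DefP.lk hH)
      (by (repeat' (first
          | apply DefP.halfSet | apply DefP.pr | apply DefP.oddRk | apply DefP.side
          | apply DefP.oddCard | apply DefP.cardEq | apply DefP.cardLt | apply DefP.cardLe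
          | apply DefP.lst | apply DefP.fst | apply DefP.nxt | apply DefP.keyLe
          | apply DefP.keyLt | apply DefP.rtc | (apply DefP.app4; assumption)
          | (apply DefP.app3'; assumption) | (apply DefP.app3; assumption)
          | (apply DefP.app2; assumption) | (apply DefP.comp; assumption) | exact Tm.id
          | exact Tm.unit | apply Tm.fst | apply Tm.snd | apply Tm.app | exact DefP.const _
          | apply DefP.and | apply DefP.not | apply DefP.or | apply DefP.iff | apply DefP.adj
          | apply DefP.le | apply DefP.lt | apply DefP.eqFin | apply DefP.eq | apply DefP.rv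
          | apply DefP.imp | apply DefP.allFin | apply DefP.exFin | apply DefP.all
          | apply DefP.ex | assumption | (apply Tm.comp; assumption) | apply Tm.pair
          | apply Tm.lam))) (by (repeat' (first
          | apply DefP.halfSet | apply DefP.pr | apply DefP.oddRk | apply DefP.side
          | apply DefP.oddCard | apply DefP.cardEq | apply DefP.cardLt | apply DefP.cardLe
          | apply DefP.lst | apply DefP.fst | apply DefP.nxt | apply DefP.keyLe
          | apply DefP.keyLt | apply DefP.rtc | (apply DefP.app4; assumption)
          | (apply DefP.app3'; assumption) | (apply DefP.app3; assumption)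
          | (apply DefP.app2; assumption) | (apply DefP.comp; assumption) | exact Tm.id
          | exact Tm.unit | apply Tm.fst | apply Tm.snd | apply Tm.app | exact DefP.const _
          | apply DefP.and | apply DefP.not | apply DefP.or | apply DefP.iff | apply DefP.adj
          | apply DefP.le | apply DefP.lt | apply DefP.eqFin | apply DefP.eq | apply DefP.rv
          | apply DefP.imp | apply DefP.allFin | apply DefP.exFin | apply DefP.all
          | apply DefP.ex | assumption | (apply Tm.comp; assumption) | apply Tm.pair
          | apply Tm.lam))) (by (repeat' (first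
          | apply DefP.halfSet | apply DefP.pr | apply DefP.oddRk | apply DefP.side
          | apply DefP.oddCard | apply DefP.cardEq | apply DefP.cardLt | apply DefP.cardLe
          | apply DefP.lst | apply DefP.fst | apply DefP.nxt | apply DefP.keyLe
          | apply DefP.keyLt | apply DefP.rtc | (apply DefP.app4; assumption)
          | (apply DefP.app3'; assumption) | (apply DefP.app3; assumption)
          | (apply DefP.app2; assumption) | (apply DefP.comp; assumption) | exact Tm.id
          | exact Tm.unit | apply Tm.fst | apply Tm.snd | apply Tm.app | exact DefP.const _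
          | apply DefP.and | apply DefP.not | apply DefP.or | apply DefP.iff | apply DefP.adj
          | apply DefP.le | apply DefP.lt | apply DefP.eqFin | apply DefP.eq | apply DefP.rv
          | apply DefP.imp | apply DefP.allFin | apply DefP.exFin | apply DefP.all
          | apply DefP.ex | assumption | (apply Tm.comp; assumption) | apply Tm.pair
          | apply Tm.lam)))
  have hc : DefP (E := E) (fun n G X x =>
      Nat.card {e : S n × T n // H n G X x e.1 e.2 ∧
        ¬ Side (key (S := fun n => S n × T n)) (Lk key key (H n G X x)) e} ≤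
      Nat.card {e : S n × T n // H n G X x e.1 e.2 ∧
        Side (key (S := fun n => S n × T n)) (Lk key key (H n G X x)) e}) :=
    DefP.cardLe (S := fun n => S n × T n) (T := fun n => S n × T n) (hH.and hs.not) (hH.and hs)
  refine DefP.and ?_ (DefP.iff ?_ hc)
  · exact DefP.app3 hH Tm.id (Tm.fst hf) (Tm.snd hf)
  · exact DefP.app2 (H := fun n => S n × T n) (P := fun n G X x e =>
      Side (key (S := fun n => S n × T n)) (Lk key key (H n G X x)) e) hs Tm.id hf

end def_


end Pool.Agent.PMNC
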