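import Mathlib
import Pool.Agent.Lib.MP_0087d5_lc.Split

set_option autoImplicit false
set_option linter.all false

/-!
# The halving loop
-/

namespace Pool.Agent.PMNC

open Relation

section comb
variable {α β π κ μ ν ξ : Type*} [LinearOrder κ] [LinearOrder μ] [LinearOrder ν] [LinearOrder ξ]

/-- the edges of odd multiplicity -/
def OddE (Y : (α × β) × π → Prop) (u : α) (v : β) : Prop := Odd (Nat.card {p // Y ((u, v), p)})

/-- one halving step -/
def Hv (f : α → κ) (g : β → μ) (h : α × β → ν) (k : π → ξ) (Y : (α × β) × π → Prop)
    (e : (α × β) × π) : Prop :=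
  halfSet k (fun p => Y (e.1, p)) (Cho f g h (OddE Y) e.1) e.2

/-- the multiplicity of an edge -/
noncomputable def mul (Y : (α × β) × π → Prop) (u : α) (v : β) : ℕ := Nat.card {p // Y ((u, v), p)}

variable [Fintype α] [Fintype β] [Finite π] {f : α → κ} {g : β → μ} {h : α × β → ν} {k : π → ξ}

open Classical in
/-- indicator -/
noncomputable def ind (p : Prop) : ℕ := if p then 1 else 0

theorem ind_pos {p : Prop} (h : p) : ind p = 1 := if_pos h

theorem ind_neg {p : Prop} (h : ¬ p) : ind p = 0 := if_neg h

theorem hv_sub {Y : (α × β) × π → Prop} {e : (α × β) × π} (he : Hv f g h k Y e) : Y e := he.1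

theorem mul_hv (hk : Function.Injective k) (Y : (α × β) × π → Prop) (u : α) (v : β) :
    mul (Hv f g h k Y) u v = mul Y u v / 2 + ind (Cho f g h (OddE Y) (u, v)) :=
  card_halfSet hk (fun p => Y ((u, v), p)) (Cho f g h (OddE Y) (u, v)) fun hc => hc.1

theorem two_mul_hv (hk : Function.Injective k) (Y : (α × β) × π → Prop) (u : α) (v : β) :
    2 * mul (Hv f g h k Y) u v + ind (OddE Y u v) =
      mul Y u v + 2 * ind (OddE Y u v ∧ Cho f g h (OddE Y) (u, v)) := by
  rw [mul_hv hk]
  have h1 : OddE Y u v ↔ Odd (mul Y u v) := Iff.rfl
  by_cases ho : OddE Y u v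
  · have h2 := h1.1 ho
    obtain ⟨t, ht⟩ := h2
    by_cases hc : Cho f g h (OddE Y) (u, v)
    · rw [ind_pos hc, ind_pos ho, ind_pos ⟨ho, hc⟩]
      omega
    · rw [ind_neg hc, ind_pos ho, ind_neg (fun h => hc h.2)]
      omega
  · have hc : ¬ Cho f g h (OddE Y) (u, v) := fun hc => ho hc.1
    have h2 : Even (mul Y u v) := by
      rw [← Nat.not_odd_iff_even]
      exact fun h => ho (h1.2 h)
    obtain ⟨t, ht⟩ := h2
    rw [ind_neg hc, ind_neg ho, ind_neg (fun h => hc h.2)]
    omega

theorem card_sum {γ : Type*} [Fintype γ] (p : γ → Prop) :
    Nat.card {x // p x} = ∑ x, ind (p x) := by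
  classical
  rw [Nat.card_eq_fintype_card, Fintype.card_subtype, Finset.card_filter]
  refine Finset.sum_congr rfl fun x _ => ?_
  unfold ind
  congr

theorem hv_left (hf : Function.Injective f) (hg : Function.Injective g)
    (hh : Function.Injective h) (hk : Function.Injective k) (Y : (α × β) × π → Prop) (u : α) :
    2 * ∑ v, mul (Hv f g h k Y) u v ≤ ∑ v, mul Y u v + 1 := by
  have h1 := cho_left hf hg hh (OddE Y) u
  have h2 : ∑ v, (2 * mul (Hv f g h k Y) u v + ind (OddE Y u v)) =
      ∑ v, (mul Y u v + 2 * ind (OddE Y u v ∧ Cho f g h (OddE Y) (u, v))) :=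
    Finset.sum_congr rfl fun v _ => two_mul_hv hk Y u v
  rw [Finset.sum_add_distrib, Finset.sum_add_distrib, ← Finset.mul_sum, ← Finset.mul_sum,
    ← card_sum, ← card_sum] at h2
  omega

theorem hv_right (hf : Function.Injective f) (hg : Function.Injective g)
    (hh : Function.Injective h) (hk : Function.Injective k) (Y : (α × β) × π → Prop) (v : β) :
    2 * ∑ u, mul (Hv f g h k Y) u v ≤ ∑ u, mul Y u v + 1 := by
  have h1 := cho_right hf hg hh (OddE Y) v
  have h2 : ∑ u, (2 * mul (Hv f g h k Y) u v + ind (OddE Y u v)) =
      ∑ u, (mul Y u v + 2 * ind (OddE Y u v ∧ Cho f g h (OddE Y) (u, v))) :=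
    Finset.sum_congr rfl fun u _ => two_mul_hv hk Y u v
  rw [Finset.sum_add_distrib, Finset.sum_add_distrib, ← Finset.mul_sum, ← Finset.mul_sum,
    ← card_sum, ← card_sum] at h2
  omega

theorem hv_total (hk : Function.Injective k) (Y : (α × β) × π → Prop) :
    ∑ e : α × β, mul Y e.1 e.2 ≤ 2 * ∑ e : α × β, mul (Hv f g h k Y) e.1 e.2 := by
  have h1 := cho_total (f := f) (g := g) (h := h) (OddE Y)
  have h2 : ∑ e : α × β, (2 * mul (Hv f g h k Y) e.1 e.2 + ind (OddE Y e.1 e.2)) =
      ∑ e : α × β, (mul Y e.1 e.2 +
        2 * ind (OddE Y e.1 e.2 ∧ Cho f g h (OddE Y) (e.1, e.2))) :=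
    Finset.sum_congr rfl fun e _ => two_mul_hv hk Y e.1 e.2
  rw [Finset.sum_add_distrib, Finset.sum_add_distrib, ← Finset.mul_sum, ← Finset.mul_sum,
    ← card_sum, ← card_sum] at h2
  have h3 : Nat.card {e : α × β // OddE Y e.1 e.2 ∧ Cho f g h (OddE Y) (e.1, e.2)} =
      Nat.card {e // Cho f g h (OddE Y) e} := by
    apply Nat.card_congr
    apply Equiv.subtypeEquivRight
    intro e
    exact ⟨fun hx => hx.2, fun hx => ⟨hx.1, hx⟩⟩
  rw [h3] at h2
  omega

theorem hv_iterate (hf : Function.Injective f) (hg : Function.Injective g)
    (hh : Function.Injective h) (hk : Function.Injective k) (s : ℕ) (Y : (α × β) × π → Prop)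
    (hL : ∀ u, ∑ v, mul Y u v ≤ 2 ^ s) (hR : ∀ v, ∑ u, mul Y u v ≤ 2 ^ s) :
    (∀ u, ∑ v, mul ((Hv f g h k)^[s] Y) u v ≤ 1) ∧ (∀ v, ∑ u, mul ((Hv f g h k)^[s] Y) u v ≤ 1) ∧
      ∑ e : α × β, mul Y e.1 e.2 ≤ 2 ^ s * ∑ e : α × β, mul ((Hv f g h k)^[s] Y) e.1 e.2 ∧
      ∀ e, ((Hv f g h k)^[s] Y) e → Y e := by
  induction s generalizing Y with
  | zero =>
    refine ⟨?_, ?_, ?_, fun e he => he⟩
    · simpa using hL
    · simpa using hR
    · simp
  | succ s ih =>
    have hL' : ∀ u, ∑ v, mul (Hv f g h k Y) u v ≤ 2 ^ s := by
      intro u
      have h1 := hv_left hf hg hh hk Y u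
      have h2 := hL u
      rw [pow_succ] at h2
      omega
    have hR' : ∀ v, ∑ u, mul (Hv f g h k Y) u v ≤ 2 ^ s := by
      intro v
      have h1 := hv_right hf hg hh hk Y v
      have h2 := hR v
      rw [pow_succ] at h2
      omega
    obtain ⟨i1, i2, i3, i4⟩ := ih (Hv f g h k Y) hL' hR'
    rw [Function.iterate_succ_apply]
    refine ⟨i1, i2, ?_, fun e he => hv_sub (i4 e he)⟩
    have h1 := hv_total (f := f) (g := g) (h := h) hk Y
    calc ∑ e : α × β, mul Y e.1 e.2 ≤ 2 * ∑ e : α × β, mul (Hv f g h k Y) e.1 e.2 := h1
      _ ≤ 2 * (2 ^ s * ∑ e : α × β, mul ((Hv f g h k)^[s] (Hv f g h k Y)) e.1 e.2) :=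
        Nat.mul_le_mul_left _ i3
      _ = _ := by rw [pow_succ]; ring

end comb

section def_
variable {E S T P : ℕ → Type} [Env E] [Env S] [Env T] [Env P]

theorem DefP.hv {Y : ∀ n : ℕ, SimpleGraph (Fin n) → Ctx n → E n → (S n × T n) × P n → Prop}
    (hY : DefP (E := fun n => E n × ((S n × T n) × P n)) (fun n G X y => Y n G X y.1 y.2)) :
    DefP (E := fun n => E n × ((S n × T n) × P n)) (fun n G X y =>
      Hv key key (key (S := fun n => S n × T n)) key (Y n G X y.1) y.2) := by
  have hY' : DefP (E := fun n => E n × ((S n × T n) × P n))
    (fun n G X y => Y n G X y.1 (y.2.1, y.2.2)) := hY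
  have ho : DefP (E := fun n => E n × (S n × T n)) (fun n G X y =>
      OddE (Y n G X y.1) y.2.1 y.2.2) := by
    unfold OddE
    refine DefP.oddCard (S := P) ?_
    refine DefP.app2 (F := E) (H := fun n => (S n × T n) × P n) (P := Y) hY ?_ ?_
    all_goals (repeat' (first
        | apply DefP.cho | apply DefP.halfSet | apply DefP.pr | apply DefP.oddRk
        | apply DefP.side | apply DefP.oddCard | apply DefP.cardEq | apply DefP.cardLt
        | apply DefP.cardLe | apply DefP.lst | apply DefP.fst | apply DefP.nxt
        | apply DefP.keyLe | apply DefP.keyLt | apply DefP.rtc | (apply DefP.app4; assumption)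
        | (apply DefP.app3'; assumption) | (apply DefP.app3; assumption)
        | (apply DefP.app2; assumption) | (apply DefP.comp; assumption) | exact Tm.id
        | exact Tm.unit | apply Tm.fst | apply Tm.snd | apply Tm.app | exact DefP.const _
        | apply DefP.and | apply DefP.not | apply DefP.or | apply DefP.iff | apply DefP.adj
        | apply DefP.le | apply DefP.lt | apply DefP.eqFin | apply DefP.eq | apply DefP.rv
        | apply DefP.imp | apply DefP.allFin | apply DefP.exFin | apply DefP.all | apply DefP.ex
        | assumption | (apply Tm.comp; assumption) | apply Tm.pair | apply Tm.lam))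
  have hc : DefP (E := fun n => E n × (S n × T n)) (fun n G X y =>
      Cho key key (key (S := fun n => S n × T n)) (OddE (Y n G X y.1)) y.2) :=
    DefP.cho (H := fun n G X (y : E n × (S n × T n)) u v => OddE (Y n G X y.1) u v)
      (DefP.app3 (F := E) (P := fun n G X x u v => OddE (Y n G X x) u v) ho
        (by (repeat' (first
            | apply DefP.cho | apply DefP.halfSet | apply DefP.pr | apply DefP.oddRk
            | apply DefP.side | apply DefP.oddCard | apply DefP.cardEq | apply DefP.cardLt
            | apply DefP.cardLe | apply DefP.lst | apply DefP.fst | apply DefP.nxt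
            | apply DefP.keyLe | apply DefP.keyLt | apply DefP.rtc
            | (apply DefP.app4; assumption) | (apply DefP.app3'; assumption)
            | (apply DefP.app3; assumption) | (apply DefP.app2; assumption)
            | (apply DefP.comp; assumption) | exact Tm.id | exact Tm.unit | apply Tm.fst
            | apply Tm.snd | apply Tm.app | exact DefP.const _ | apply DefP.and | apply DefP.not
            | apply DefP.or | apply DefP.iff | apply DefP.adj | apply DefP.le | apply DefP.lt
            | apply DefP.eqFin | apply DefP.eq | apply DefP.rv | apply DefP.imp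
            | apply DefP.allFin | apply DefP.exFin | apply DefP.all | apply DefP.ex | assumption
            | (apply Tm.comp; assumption) | apply Tm.pair | apply Tm.lam))) (by (repeat' (first
            | apply DefP.cho | apply DefP.halfSet | apply DefP.pr | apply DefP.oddRk
            | apply DefP.side | apply DefP.oddCard | apply DefP.cardEq | apply DefP.cardLt
            | apply DefP.cardLe | apply DefP.lst | apply DefP.fst | apply DefP.nxt
            | apply DefP.keyLe | apply DefP.keyLt | apply DefP.rtc
            | (apply DefP.app4; assumption) | (apply DefP.app3'; assumption)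
            | (apply DefP.app3; assumption) | (apply DefP.app2; assumption)
            | (apply DefP.comp; assumption) | exact Tm.id | exact Tm.unit | apply Tm.fst
            | apply Tm.snd | apply Tm.app | exact DefP.const _ | apply DefP.and | apply DefP.not
            | apply DefP.or | apply DefP.iff | apply DefP.adj | apply DefP.le | apply DefP.lt
            | apply DefP.eqFin | apply DefP.eq | apply DefP.rv | apply DefP.imp
            | apply DefP.allFin | apply DefP.exFin | apply DefP.all | apply DefP.ex | assumption
            | (apply Tm.comp; assumption) | apply Tm.pair | apply Tm.lam))) (by (repeat' (first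
            | apply DefP.cho | apply DefP.halfSet | apply DefP.pr | apply DefP.oddRk
            | apply DefP.side | apply DefP.oddCard | apply DefP.cardEq | apply DefP.cardLt
            | apply DefP.cardLe | apply DefP.lst | apply DefP.fst | apply DefP.nxt
            | apply DefP.keyLe | apply DefP.keyLt | apply DefP.rtc
            | (apply DefP.app4; assumption) | (apply DefP.app3'; assumption)
            | (apply DefP.app3; assumption) | (apply DefP.app2; assumption)
            | (apply DefP.comp; assumption) | exact Tm.id | exact Tm.unit | apply Tm.fst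
            | apply Tm.snd | apply Tm.app | exact DefP.const _ | apply DefP.and | apply DefP.not
            | apply DefP.or | apply DefP.iff | apply DefP.adj | apply DefP.le | apply DefP.lt
            | apply DefP.eqFin | apply DefP.eq | apply DefP.rv | apply DefP.imp
            | apply DefP.allFin | apply DefP.exFin | apply DefP.all | apply DefP.ex | assumption
            | (apply Tm.comp; assumption) | apply Tm.pair | apply Tm.lam)))) (by (repeat' (first
            | apply DefP.cho | apply DefP.halfSet | apply DefP.pr | apply DefP.oddRk
            | apply DefP.side | apply DefP.oddCard | apply DefP.cardEq | apply DefP.cardLt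
            | apply DefP.cardLe | apply DefP.lst | apply DefP.fst | apply DefP.nxt
            | apply DefP.keyLe | apply DefP.keyLt | apply DefP.rtc
            | (apply DefP.app4; assumption) | (apply DefP.app3'; assumption)
            | (apply DefP.app3; assumption) | (apply DefP.app2; assumption)
            | (apply DefP.comp; assumption) | exact Tm.id | exact Tm.unit | apply Tm.fst
            | apply Tm.snd | apply Tm.app | exact DefP.const _ | apply DefP.and | apply DefP.not
            | apply DefP.or | apply DefP.iff | apply DefP.adj | apply DefP.le | apply DefP.lt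
            | apply DefP.eqFin | apply DefP.eq | apply DefP.rv | apply DefP.imp
            | apply DefP.allFin | apply DefP.exFin | apply DefP.all | apply DefP.ex | assumption
            | (apply Tm.comp; assumption) | apply Tm.pair | apply Tm.lam)))
  unfold Hv
  refine DefP.halfSet (E := fun n => E n × ((S n × T n) × P n)) (S := P)
    (A := fun n G X y p => Y n G X y.1 (y.2.1, p)) ?_ ?_ ?_
  · refine DefP.app2 (F := E) (H := fun n => (S n × T n) × P n) (P := Y) hY ?_ ?_
    all_goals (repeat' (first
        | apply DefP.cho | apply DefP.halfSet | apply DefP.pr | apply DefP.oddRk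
        | apply DefP.side | apply DefP.oddCard | apply DefP.cardEq | apply DefP.cardLt
        | apply DefP.cardLe | apply DefP.lst | apply DefP.fst | apply DefP.nxt
        | apply DefP.keyLe | apply DefP.keyLt | apply DefP.rtc | (apply DefP.app4; assumption)
        | (apply DefP.app3'; assumption) | (apply DefP.app3; assumption)
        | (apply DefP.app2; assumption) | (apply DefP.comp; assumption) | exact Tm.id
        | exact Tm.unit | apply Tm.fst | apply Tm.snd | apply Tm.app | exact DefP.const _
        | apply DefP.and | apply DefP.not | apply DefP.or | apply DefP.iff | apply DefP.adj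
        | apply DefP.le | apply DefP.lt | apply DefP.eqFin | apply DefP.eq | apply DefP.rv
        | apply DefP.imp | apply DefP.allFin | apply DefP.exFin | apply DefP.all | apply DefP.ex
        | assumption | (apply Tm.comp; assumption) | apply Tm.pair | apply Tm.lam))
  · exact DefP.app2 (F := E) (H := fun n => S n × T n) (P := fun n G X x e =>
      Cho key key (key (S := fun n => S n × T n)) (OddE (Y n G X x)) e) hc (by (repeat' (first
          | apply DefP.cho | apply DefP.halfSet | apply DefP.pr | apply DefP.oddRk
          | apply DefP.side | apply DefP.oddCard | apply DefP.cardEq | apply DefP.cardLt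
          | apply DefP.cardLe | apply DefP.lst | apply DefP.fst | apply DefP.nxt
          | apply DefP.keyLe | apply DefP.keyLt | apply DefP.rtc | (apply DefP.app4; assumption)
          | (apply DefP.app3'; assumption) | (apply DefP.app3; assumption)
          | (apply DefP.app2; assumption) | (apply DefP.comp; assumption) | exact Tm.id
          | exact Tm.unit | apply Tm.fst | apply Tm.snd | apply Tm.app | exact DefP.const _
          | apply DefP.and | apply DefP.not | apply DefP.or | apply DefP.iff | apply DefP.adj
          | apply DefP.le | apply DefP.lt | apply DefP.eqFin | apply DefP.eq | apply DefP.rv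
          | apply DefP.imp | apply DefP.allFin | apply DefP.exFin | apply DefP.all
          | apply DefP.ex | assumption | (apply Tm.comp; assumption) | apply Tm.pair
          | apply Tm.lam))) (by (repeat' (first
          | apply DefP.cho | apply DefP.halfSet | apply DefP.pr | apply DefP.oddRk
          | apply DefP.side | apply DefP.oddCard | apply DefP.cardEq | apply DefP.cardLt
          | apply DefP.cardLe | apply DefP.lst | apply DefP.fst | apply DefP.nxt
          | apply DefP.keyLe | apply DefP.keyLt | apply DefP.rtc | (apply DefP.app4; assumption)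
          | (apply DefP.app3'; assumption) | (apply DefP.app3; assumption)
          | (apply DefP.app2; assumption) | (apply DefP.comp; assumption) | exact Tm.id
          | exact Tm.unit | apply Tm.fst | apply Tm.snd | apply Tm.app | exact DefP.const _
          | apply DefP.and | apply DefP.not | apply DefP.or | apply DefP.iff | apply DefP.adj
          | apply DefP.le | apply DefP.lt | apply DefP.eqFin | apply DefP.eq | apply DefP.rv
          | apply DefP.imp | apply DefP.allFin | apply DefP.exFin | apply DefP.all
          | apply DefP.ex | assumption | (apply Tm.comp; assumption) | apply Tm.pair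
          | apply Tm.lam)))
  · (repeat' (first
      | apply DefP.cho | apply DefP.halfSet | apply DefP.pr | apply DefP.oddRk | apply DefP.side
      | apply DefP.oddCard | apply DefP.cardEq | apply DefP.cardLt | apply DefP.cardLe
      | apply DefP.lst | apply DefP.fst | apply DefP.nxt | apply DefP.keyLe | apply DefP.keyLt
      | apply DefP.rtc | (apply DefP.app4; assumption) | (apply DefP.app3'; assumption)
      | (apply DefP.app3; assumption) | (apply DefP.app2; assumption)
      | (apply DefP.comp; assumption) | exact Tm.id | exact Tm.unit | apply Tm.fst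
      | apply Tm.snd | apply Tm.app | exact DefP.const _ | apply DefP.and | apply DefP.not
      | apply DefP.or | apply DefP.iff | apply DefP.adj | apply DefP.le | apply DefP.lt
      | apply DefP.eqFin | apply DefP.eq | apply DefP.rv | apply DefP.imp | apply DefP.allFin
      | apply DefP.exFin | apply DefP.all | apply DefP.ex | assumption
      | (apply Tm.comp; assumption) | apply Tm.pair | apply Tm.lam))

end def_

end Pool.Agent.PMNC
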