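import Mathlib
import Pool.Agent.Lib.MP_0087d5_lc.Halve

set_option autoImplicit false
set_option linter.all false

/-!
# The initial multiplicities `⌊B / max(d(u), d(v))⌋`
-/

namespace Pool.Agent.PMNC

open Relation

section comb
variable {α π ξ : Type*} [LinearOrder ξ]

/-- the initial multiset of edges -/
def Ini (G : SimpleGraph α) (L : α → Prop) (k : π → ξ) (b : π) (e : (α × α) × π) : Prop :=
  (L e.1.1 ∧ ¬ L e.1.2 ∧ G.Adj e.1.1 e.1.2) ∧
    Nat.card {q : π × α // k q.1 ≤ k e.2 ∧ G.Adj e.1.1 q.2} ≤ Nat.card {q : π // k q ≤ k b} ∧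
    Nat.card {q : π × α // k q.1 ≤ k e.2 ∧ G.Adj e.1.2 q.2} ≤ Nat.card {q : π // k q ≤ k b}

variable [Fintype α] [Finite π] {k : π → ξ}

theorem card_rank (hk : Function.Injective k) {t : ℕ} (ht : t ≤ Nat.card π) :
    Nat.card {p : π // Nat.card {q : π // k q ≤ k p} ≤ t} = t := by
  have hrk : ∀ p : π, Nat.card {q : π // k q ≤ k p} = rk k (fun _ => True) p := by
    intro p
    unfold rk
    simp
  have hcard : Nat.card {x : π // True} = Nat.card π := by
    exact Nat.card_congr (Equiv.subtypeUnivEquiv fun _ => trivial)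
  simp only [hrk]
  rcases Nat.eq_zero_or_pos t with h0 | h0
  · subst h0
    haveI : IsEmpty {p : π // rk k (fun _ => True) p ≤ 0} := by
      refine ⟨fun p => ?_⟩
      have h1 := p.2
      rw [← hrk] at h1
      haveI : Nonempty {q : π // k q ≤ k p.1} := ⟨⟨p.1, le_rfl⟩⟩
      have := Nat.card_pos (α := {q : π // k q ≤ k p.1})
      omega
    exact Nat.card_of_isEmpty
  · obtain ⟨p₀, _, hp₀⟩ := exists_rk (f := k) hk (A := fun _ => True) (m := t) h0
      (by rw [hcard]; exact ht)
    conv_rhs => rw [← hp₀, ← hrk]
    apply Nat.card_congr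
    apply Equiv.subtypeEquivRight
    intro p
    rw [← hp₀]
    constructor
    · intro h
      by_contra hc
      have := rk_lt (f := k) (fun _ => True) (a := p₀) (b := p) trivial (not_le.1 hc)
      omega
    · intro h
      rcases h.lt_or_eq with h | h
      · exact (rk_lt (f := k) (fun _ => True) (a := p) (b := p₀) trivial h).le
      · rw [hk h]

theorem card_prod_rank (p : π) (u : α) (G : SimpleGraph α) :
    Nat.card {q : π × α // k q.1 ≤ k p ∧ G.Adj u q.2} = Nat.card {q : π // k q ≤ k p} * dg G u := by
  unfold dg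
  rw [← Nat.card_prod]
  apply Nat.card_congr
  exact
    { toFun := fun x => (⟨x.1.1, x.2.1⟩, ⟨x.1.2, x.2.2⟩)
      invFun := fun y => ⟨(y.1.1, y.2.1), y.1.2, y.2.2⟩
      left_inv := fun x => rfl
      right_inv := fun y => rfl }

theorem mul_ini (hk : Function.Injective k) (G : SimpleGraph α) (L : α → Prop) (b : π)
    {u v : α} (h : L u ∧ ¬ L v ∧ G.Adj u v) :
    mul (Ini G L k b) u v = Nat.card {q : π // k q ≤ k b} / max (dg G u) (dg G v) := by
  have hcard : Nat.card {q : π // k q ≤ k b} ≤ Nat.card π :=
    Nat.card_le_card_of_injective (fun x => x.1) Subtype.val_injective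
  have hu : 0 < dg G u := by
    unfold dg
    haveI : Nonempty {w // G.Adj u w} := ⟨⟨v, h.2.2⟩⟩
    exact Nat.card_pos
  have hD : 0 < max (dg G u) (dg G v) := lt_of_lt_of_le hu (le_max_left _ _)
  have h1 := card_rank hk (t := Nat.card {q : π // k q ≤ k b} / max (dg G u) (dg G v))
    ((Nat.div_le_self _ _).trans hcard)
  rw [← h1]
  unfold mul
  apply Nat.card_congr
  apply Equiv.subtypeEquivRight
  intro p
  unfold Ini
  simp only [h, true_and, card_prod_rank, not_false_eq_true]
  rw [Nat.le_div_iff_mul_le hD]
  constructor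
  · rintro ⟨h3, h4⟩
    rcases max_choice (dg G u) (dg G v) with hm | hm
    · rw [hm]; exact h3
    · rw [hm]; exact h4
  · intro h3
    exact ⟨(Nat.mul_le_mul_left _ (le_max_left _ _)).trans h3,
      (Nat.mul_le_mul_left _ (le_max_right _ _)).trans h3⟩

theorem mul_ini_neg (G : SimpleGraph α) (L : α → Prop) (b : π)
    {u v : α} (h : ¬ (L u ∧ ¬ L v ∧ G.Adj u v)) : mul (Ini G L k b) u v = 0 := by
  unfold mul
  haveI : IsEmpty {p // Ini G L k b ((u, v), p)} := ⟨fun x => h x.2.1⟩
  exact Nat.card_of_isEmpty

theorem ini_left (hk : Function.Injective k) (G : SimpleGraph α) (L : α → Prop) (b : π) (u : α) :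
    ∑ v, mul (Ini G L k b) u v ≤ Nat.card {q : π // k q ≤ k b} := by
  have h1 : ∀ v, mul (Ini G L k b) u v ≤
      ind (G.Adj u v) * (Nat.card {q : π // k q ≤ k b} / dg G u) := by
    intro v
    by_cases h : L u ∧ ¬ L v ∧ G.Adj u v
    · rw [mul_ini hk G L b h, ind_pos h.2.2, one_mul]
      apply Nat.div_le_div_left (le_max_left _ _)
      unfold dg
      haveI : Nonempty {w // G.Adj u w} := ⟨⟨v, h.2.2⟩⟩
      exact Nat.card_pos
    · rw [mul_ini_neg G L b h]
      exact Nat.zero_le _
  calc ∑ v, mul (Ini G L k b) u v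
      ≤ ∑ v, ind (G.Adj u v) * (Nat.card {q : π // k q ≤ k b} / dg G u) :=
        Finset.sum_le_sum fun v _ => h1 v
    _ = dg G u * (Nat.card {q : π // k q ≤ k b} / dg G u) := by
        rw [← Finset.sum_mul, ← card_sum]
        rfl
    _ ≤ _ := Nat.mul_div_le _ _

theorem ini_right (hk : Function.Injective k) (G : SimpleGraph α) (L : α → Prop) (b : π) (v : α) :
    ∑ u, mul (Ini G L k b) u v ≤ Nat.card {q : π // k q ≤ k b} := by
  have h1 : ∀ u, mul (Ini G L k b) u v ≤
      ind (G.Adj v u) * (Nat.card {q : π // k q ≤ k b} / dg G v) := by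
    intro u
    by_cases h : L u ∧ ¬ L v ∧ G.Adj u v
    · rw [mul_ini hk G L b h, ind_pos h.2.2.symm, one_mul]
      apply Nat.div_le_div_left (le_max_right _ _)
      unfold dg
      haveI : Nonempty {w // G.Adj v w} := ⟨⟨u, h.2.2.symm⟩⟩
      exact Nat.card_pos
    · rw [mul_ini_neg G L b h]
      exact Nat.zero_le _
  calc ∑ u, mul (Ini G L k b) u v
      ≤ ∑ u, ind (G.Adj v u) * (Nat.card {q : π // k q ≤ k b} / dg G v) :=
        Finset.sum_le_sum fun u _ => h1 u
    _ = dg G v * (Nat.card {q : π // k q ≤ k b} / dg G v) := by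
        rw [← Finset.sum_mul, ← card_sum]
        rfl
    _ ≤ _ := Nat.mul_div_le _ _

theorem ini_total (hk : Function.Injective k) (G : SimpleGraph α) (L : α → Prop)
    (hL : ∀ u v, G.Adj u v → L u → ¬ L v) (hiso : ∀ u, ∃ v, G.Adj u v) (b : π)
    (hb : Fintype.card α ^ 2 ≤ Nat.card {q : π // k q ≤ k b}) :
    (Nat.card {u // L u} : ℝ) ≤
      (∑ e : α × α, mul (Ini G L k b) e.1 e.2 : ℕ) / (Nat.card {q : π // k q ≤ k b} : ℝ)
        + irr G + 1 := by
  classical
  set B := Nat.card {q : π // k q ≤ k b} with hB
  rcases isEmpty_or_nonempty α with he | hne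
  · have : irr G = 0 := by
      unfold irr
      simp
    rw [this]
    simp
  obtain ⟨a₀⟩ := hne
  have hBpos : 0 < B := lt_of_lt_of_le (by
    have : 0 < Fintype.card α := Fintype.card_pos_iff.2 ⟨a₀⟩
    positivity) hb
  have hBr : (0 : ℝ) < B := by exact_mod_cast hBpos
  have hd : ∀ u, 0 < dg G u := by
    intro u
    obtain ⟨v, hv⟩ := hiso u
    unfold dg
    haveI : Nonempty {w // G.Adj u w} := ⟨⟨v, hv⟩⟩
    exact Nat.card_pos
  -- pointwise bound
  have h1 : ∀ u v, (if L u ∧ G.Adj u v then 1 / (dg G u : ℝ) else 0) ≤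
      (mul (Ini G L k b) u v : ℝ) / B +
        (if G.Adj u v then |1 / (dg G u : ℝ) - 1 / (dg G v : ℝ)| else 0) + 1 / B := by
    intro u v
    have hnn : (0 : ℝ) ≤ (mul (Ini G L k b) u v : ℝ) / B := by positivity
    have hnn2 : (0 : ℝ) ≤ 1 / B := by positivity
    by_cases h : L u ∧ G.Adj u v
    · have h2 : L u ∧ ¬ L v ∧ G.Adj u v := ⟨h.1, hL u v h.2 h.1, h.2⟩
      rw [if_pos h, if_pos h.2, mul_ini hk G L b h2]
      set D := max (dg G u) (dg G v) with hD
      have hDpos : 0 < D := lt_of_lt_of_le (hd u) (le_max_left _ _)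
      have hDr : (0 : ℝ) < D := by exact_mod_cast hDpos
      have h3 : (B : ℝ) / D - 1 ≤ ((B / D : ℕ) : ℝ) := by
        have := Nat.lt_div_mul_add hDpos (a := B)
        have h4 : (B : ℝ) < (B / D : ℕ) * D + D := by exact_mod_cast this
        rw [sub_le_iff_le_add, div_le_iff₀ hDr]
        nlinarith
      have h5 : 1 / (D : ℝ) - 1 / B ≤ ((B / D : ℕ) : ℝ) / B := by
        rw [le_div_iff₀ hBr]
        calc (1 / (D : ℝ) - 1 / B) * B = B / D - 1 := by field_simp
          _ ≤ _ := h3
      have h6 : 1 / (dg G u : ℝ) ≤ 1 / (D : ℝ) + |1 / (dg G u : ℝ) - 1 / (dg G v : ℝ)| := by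
        rcases max_choice (dg G u) (dg G v) with hm | hm
        · rw [hD, hm]
          have := abs_nonneg (1 / (dg G u : ℝ) - 1 / (dg G v : ℝ))
          linarith
        · rw [hD, hm]
          have := le_abs_self (1 / (dg G u : ℝ) - 1 / (dg G v : ℝ))
          linarith
      linarith
    · rw [if_neg h]
      have : (0 : ℝ) ≤ if G.Adj u v then |1 / (dg G u : ℝ) - 1 / (dg G v : ℝ)| else 0 := by
        split_ifs
        · exact abs_nonneg _
        · exact le_rfl
      linarith
  have h2 : (Nat.card {u // L u} : ℝ) =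
      ∑ u, ∑ v, (if L u ∧ G.Adj u v then 1 / (dg G u : ℝ) else 0) := by
    rw [card_sum, Nat.cast_sum]
    refine Finset.sum_congr rfl fun u _ => ?_
    by_cases hu : L u
    · rw [ind_pos hu]
      simp only [hu, true_and]
      have h3 : ∑ v, (if G.Adj u v then 1 / (dg G u : ℝ) else 0) =
          (∑ v, (ind (G.Adj u v) : ℝ)) * (1 / (dg G u : ℝ)) := by
        rw [Finset.sum_mul]
        refine Finset.sum_congr rfl fun v _ => ?_
        by_cases hv : G.Adj u v
        · rw [if_pos hv, ind_pos hv]; simp
        · rw [if_neg hv, ind_neg hv]; simp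
      rw [h3, ← Nat.cast_sum, ← card_sum]
      have : (dg G u : ℝ) ≠ 0 := by
        have := hd u
        positivity
      change ((1 : ℕ) : ℝ) = (dg G u : ℝ) * (1 / (dg G u : ℝ))
      field_simp
      simp
    · rw [ind_neg hu]
      simp [hu]
  rw [h2]
  calc ∑ u, ∑ v, (if L u ∧ G.Adj u v then 1 / (dg G u : ℝ) else 0)
      ≤ ∑ u, ∑ v, ((mul (Ini G L k b) u v : ℝ) / B +
        (if G.Adj u v then |1 / (dg G u : ℝ) - 1 / (dg G v : ℝ)| else 0) + 1 / B) :=
        Finset.sum_le_sum fun u _ => Finset.sum_le_sum fun v _ => h1 u v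
    _ = (∑ e : α × α, mul (Ini G L k b) e.1 e.2 : ℕ) / (B : ℝ) + irr G +
        (Fintype.card α : ℝ) ^ 2 / B := by
        simp only [Finset.sum_add_distrib]
        congr 1
        · congr 1
          rw [Nat.cast_sum, Finset.sum_div, Fintype.sum_prod_type]
        · simp only [Finset.sum_const, Finset.card_univ, nsmul_eq_mul]
          ring
    _ ≤ _ := by
        have : (Fintype.card α : ℝ) ^ 2 / B ≤ 1 := by
          rw [div_le_one hBr]
          exact_mod_cast hb
        linarith

end comb

section def_
variable {E P : ℕ → Type} [Env E] [Env P]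

theorem DefP.ini {L : ∀ n : ℕ, SimpleGraph (Fin n) → Ctx n → E n → Fin n → Prop}
    (hL : DefP (E := fun n => E n × Fin n) (fun n G X y => L n G X y.1 y.2))
    {b : ∀ n : ℕ, E n → P n} (hb : Tm b) :
    DefP (E := fun n => E n × ((Fin n × Fin n) × P n)) (fun n G X y =>
      Ini G (L n G X y.1) key (b n y.1) y.2) := by
  unfold Ini
  refine DefP.and (DefP.and ?_ (DefP.and ?_ ?_)) (DefP.and ?_ ?_)
  · (repeat' (first
      | apply DefP.cho | apply DefP.halfSet | apply DefP.pr | apply DefP.oddRk | apply DefP.side
      | apply DefP.oddCard | apply DefP.cardEq | apply DefP.cardLt | apply DefP.cardLe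
      | apply DefP.lst | apply DefP.fst | apply DefP.nxt | apply DefP.keyLe | apply DefP.keyLt
      | apply DefP.rtc | (apply DefP.app4; assumption) | (apply DefP.app3'; assumption)
      | (apply DefP.app3; assumption) | (apply DefP.app2; assumption)
      | (apply DefP.comp; assumption) | exact Tm.id | exact Tm.unit | apply Tm.fst
      | apply Tm.snd | apply Tm.app | exact DefP.const _ | apply DefP.and | apply DefP.not
      | apply DefP.or | apply DefP.iff | apply DefP.adj | apply DefP.le | apply DefP.lt
      | apply DefP.eqFin | apply DefP.eq | apply DefP.rv | apply DefP.imp | apply DefP.allFin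
      | apply DefP.exFin | apply DefP.all | apply DefP.ex | assumption
      | (apply Tm.comp; assumption) | apply Tm.pair | apply Tm.lam))
  · (repeat' (first
      | apply DefP.cho | apply DefP.halfSet | apply DefP.pr | apply DefP.oddRk | apply DefP.side
      | apply DefP.oddCard | apply DefP.cardEq | apply DefP.cardLt | apply DefP.cardLe
      | apply DefP.lst | apply DefP.fst | apply DefP.nxt | apply DefP.keyLe | apply DefP.keyLt
      | apply DefP.rtc | (apply DefP.app4; assumption) | (apply DefP.app3'; assumption)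
      | (apply DefP.app3; assumption) | (apply DefP.app2; assumption)
      | (apply DefP.comp; assumption) | exact Tm.id | exact Tm.unit | apply Tm.fst
      | apply Tm.snd | apply Tm.app | exact DefP.const _ | apply DefP.and | apply DefP.not
      | apply DefP.or | apply DefP.iff | apply DefP.adj | apply DefP.le | apply DefP.lt
      | apply DefP.eqFin | apply DefP.eq | apply DefP.rv | apply DefP.imp | apply DefP.allFin
      | apply DefP.exFin | apply DefP.all | apply DefP.ex | assumption
      | (apply Tm.comp; assumption) | apply Tm.pair | apply Tm.lam))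
  · (repeat' (first
      | apply DefP.cho | apply DefP.halfSet | apply DefP.pr | apply DefP.oddRk | apply DefP.side
      | apply DefP.oddCard | apply DefP.cardEq | apply DefP.cardLt | apply DefP.cardLe
      | apply DefP.lst | apply DefP.fst | apply DefP.nxt | apply DefP.keyLe | apply DefP.keyLt
      | apply DefP.rtc | (apply DefP.app4; assumption) | (apply DefP.app3'; assumption)
      | (apply DefP.app3; assumption) | (apply DefP.app2; assumption)
      | (apply DefP.comp; assumption) | exact Tm.id | exact Tm.unit | apply Tm.fst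
      | apply Tm.snd | apply Tm.app | exact DefP.const _ | apply DefP.and | apply DefP.not
      | apply DefP.or | apply DefP.iff | apply DefP.adj | apply DefP.le | apply DefP.lt
      | apply DefP.eqFin | apply DefP.eq | apply DefP.rv | apply DefP.imp | apply DefP.allFin
      | apply DefP.exFin | apply DefP.all | apply DefP.ex | assumption
      | (apply Tm.comp; assumption) | apply Tm.pair | apply Tm.lam))
  · (repeat' (first
      | apply DefP.cho | apply DefP.halfSet | apply DefP.pr | apply DefP.oddRk | apply DefP.side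
      | apply DefP.oddCard | apply DefP.cardEq | apply DefP.cardLt | apply DefP.cardLe
      | apply DefP.lst | apply DefP.fst | apply DefP.nxt | apply DefP.keyLe | apply DefP.keyLt
      | apply DefP.rtc | (apply DefP.app4; assumption) | (apply DefP.app3'; assumption)
      | (apply DefP.app3; assumption) | (apply DefP.app2; assumption)
      | (apply DefP.comp; assumption) | exact Tm.id | exact Tm.unit | apply Tm.fst
      | apply Tm.snd | apply Tm.app | exact DefP.const _ | apply DefP.and | apply DefP.not
      | apply DefP.or | apply DefP.iff | apply DefP.adj | apply DefP.le | apply DefP.lt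
      | apply DefP.eqFin | apply DefP.eq | apply DefP.rv | apply DefP.imp | apply DefP.allFin
      | apply DefP.exFin | apply DefP.all | apply DefP.ex | assumption
      | (apply Tm.comp; assumption) | apply Tm.pair | apply Tm.lam))
  · (repeat' (first
      | apply DefP.cho | apply DefP.halfSet | apply DefP.pr | apply DefP.oddRk | apply DefP.side
      | apply DefP.oddCard | apply DefP.cardEq | apply DefP.cardLt | apply DefP.cardLe
      | apply DefP.lst | apply DefP.fst | apply DefP.nxt | apply DefP.keyLe | apply DefP.keyLt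
      | apply DefP.rtc | (apply DefP.app4; assumption) | (apply DefP.app3'; assumption)
      | (apply DefP.app3; assumption) | (apply DefP.app2; assumption)
      | (apply DefP.comp; assumption) | exact Tm.id | exact Tm.unit | apply Tm.fst
      | apply Tm.snd | apply Tm.app | exact DefP.const _ | apply DefP.and | apply DefP.not
      | apply DefP.or | apply DefP.iff | apply DefP.adj | apply DefP.le | apply DefP.lt
      | apply DefP.eqFin | apply DefP.eq | apply DefP.rv | apply DefP.imp | apply DefP.allFin
      | apply DefP.exFin | apply DefP.all | apply DefP.ex | assumption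
      | (apply Tm.comp; assumption) | apply Tm.pair | apply Tm.lam))

end def_

end Pool.Agent.PMNC
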