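import Mathlib
import Pool.Agent.Lib.MP_0087d5_lc.AugProof
import Pool.Agent.Lib.MP_0087d5_lc.Frac

set_option autoImplicit false
set_option linter.all false

/-!
# Perfect matchings in bipartite graphs of small irregularity
-/

namespace Pool.Agent.PMNC

open Relation

/-- the canonical side -/
def Sd {n : ℕ} (G : SimpleGraph (Fin n)) (v : Fin n) : Prop :=
  Side (key (S := fun n => Fin n)) G.Adj v

/-- the halving loop -/
def Loop {n : ℕ} (G : SimpleGraph (Fin n)) (b : Fin 4 → Fin n) :
    (Fin n × Fin n) × (Fin 4 → Fin n) → Prop :=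
  (Hv (key (S := fun n => Fin n)) (key (S := fun n => Fin n)) (key (S := fun n => Fin n × Fin n))
    (key (S := fun n => Fin 4 → Fin n)))^[2 * Nat.size n]
    (Ini G (Sd G) (key (S := fun n => Fin 4 → Fin n)) b)

/-- the first matching -/
def Mat {n : ℕ} (G : SimpleGraph (Fin n)) (b : Fin 4 → Fin n) (e : Fin n × Fin n) : Prop :=
  ∃ p, Loop G b (e, p)

/-- the final matching -/
def Fin' {n : ℕ} (d : ℕ) (G : SimpleGraph (Fin n)) (b : Fin 4 → Fin n) : Fin n × Fin n → Prop :=
  (Aug G (Sd G))^[(2 * Nat.size n) ^ (d + 1)] (Mat G b)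

/-- the language -/
def Lang (d : ℕ) (n : ℕ) (G : SimpleGraph (Fin n)) : Prop :=
  (∀ v : Fin n, False) ∨ ∃ b : Fin 4 → Fin n,
    IsPM G (fun u v => Fin' d G b (u, v) ∨ Fin' d G b (v, u))

theorem defP_sd {E : ℕ → Type} [Env E] {f : ∀ n : ℕ, E n → Fin n}
    (hf : Tm (F := fun n => Fin n) f) : DefP (fun n G X x => Sd G (f n x)) := by
  unfold Sd
  refine DefP.side (S := fun n => Fin n) (R := fun n G X x a b => G.Adj a b) ?_ hf
  (repeat' (first
      | apply DefP.cho | apply DefP.halfSet | apply DefP.pr | apply DefP.oddRk | apply DefP.aug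
      | apply DefP.pth | apply DefP.nx | apply DefP.cnd | apply DefP.hmin | apply DefP.hit
      | apply DefP.cdn | apply DefP.firstEx | apply DefP.exN | apply DefP.end_
      | apply DefP.isZero | apply DefP.isSucc | apply DefP.alt | apply DefP.exr | apply DefP.exl
      | apply DefP.side | apply DefP.oddCard | apply DefP.cardEq | apply DefP.cardLt
      | apply DefP.cardLe | apply DefP.lst | apply DefP.fst | apply DefP.nxt | apply DefP.keyLe
      | apply DefP.keyLt | apply DefP.rtc | (apply DefP.app4; assumption)
      | (apply DefP.app3'; assumption) | (apply DefP.app3; assumption)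
      | (apply DefP.app2; assumption) | (apply DefP.comp; assumption) | exact Tm.id
      | exact Tm.unit | apply Tm.fst | apply Tm.snd | apply Tm.app | exact DefP.const _
      | apply DefP.and | apply DefP.not | apply DefP.or | apply DefP.iff | apply DefP.adj
      | apply DefP.le | apply DefP.lt | apply DefP.eqFin | apply DefP.eq | apply DefP.rv
      | apply DefP.imp | apply DefP.allFin | apply DefP.exFin | apply DefP.all | apply DefP.ex
      | assumption | (apply Tm.comp; assumption) | apply Tm.pair | apply Tm.lam))

theorem defP_loop : DefP (E := fun n => (Fin 4 → Fin n) × ((Fin n × Fin n) × (Fin 4 → Fin n)))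
    (fun n G X y => Loop G y.1 y.2) := by
  unfold Loop
  refine DefP.iter (E := fun n => Fin 4 → Fin n) (S := fun n => (Fin n × Fin n) × (Fin 4 → Fin n)) 2
    (I := fun n G X b => Ini G (Sd G) (key (S := fun n => Fin 4 → Fin n)) b)
    (Φ := fun n G X b Q => Hv (key (S := fun n => Fin n)) (key (S := fun n => Fin n))
      (key (S := fun n => Fin n × Fin n)) (key (S := fun n => Fin 4 → Fin n)) Q) ?_ ?_
  · exact DefP.ini (E := fun n => Fin 4 → Fin n) (P := fun n => Fin 4 → Fin n)
      (L := fun n G X b v => Sd G v) (b := fun n b => b) (defP_sd (by (repeat' (first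
          | apply DefP.cho | apply DefP.halfSet | apply DefP.pr | apply DefP.oddRk
          | apply DefP.aug | apply DefP.pth | apply DefP.nx | apply DefP.cnd | apply DefP.hmin
          | apply DefP.hit | apply DefP.cdn | apply DefP.firstEx | apply DefP.exN
          | apply DefP.end_ | apply DefP.isZero | apply DefP.isSucc | apply DefP.alt
          | apply DefP.exr | apply DefP.exl | apply DefP.side | apply DefP.oddCard
          | apply DefP.cardEq | apply DefP.cardLt | apply DefP.cardLe | apply DefP.lst
          | apply DefP.fst | apply DefP.nxt | apply DefP.keyLe | apply DefP.keyLt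
          | apply DefP.rtc | (apply DefP.app4; assumption) | (apply DefP.app3'; assumption)
          | (apply DefP.app3; assumption) | (apply DefP.app2; assumption)
          | (apply DefP.comp; assumption) | exact Tm.id | exact Tm.unit | apply Tm.fst
          | apply Tm.snd | apply Tm.app | exact DefP.const _ | apply DefP.and | apply DefP.not
          | apply DefP.or | apply DefP.iff | apply DefP.adj | apply DefP.le | apply DefP.lt
          | apply DefP.eqFin | apply DefP.eq | apply DefP.rv | apply DefP.imp
          | apply DefP.allFin | apply DefP.exFin | apply DefP.all | apply DefP.ex | assumption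
          | (apply Tm.comp; assumption) | apply Tm.pair | apply Tm.lam)))) Tm.id
  · exact DefP.hv (E := fun n => Fin 4 → Fin n) (S := fun n => Fin n) (T := fun n => Fin n)
      (P := fun n => Fin 4 → Fin n)
      (Y := fun n G X b s => rv (S := fun n => (Fin n × Fin n) × (Fin 4 → Fin n)) X 0 s)
      (DefP.rv 0 (Tm.snd Tm.id))

theorem defP_mat : DefP (E := fun n => (Fin 4 → Fin n) × (Fin n × Fin n))
    (fun n G X y => Mat G y.1 y.2) := by
  unfold Mat
  refine DefP.ex (F := fun n => Fin 4 → Fin n) ?_
  exact DefP.app2 (F := fun n => Fin 4 → Fin n) (H := fun n => (Fin n × Fin n) × (Fin 4 → Fin n))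
    (P := fun n G X b s => Loop G b s) defP_loop (by (repeat' (first
        | apply DefP.cho | apply DefP.halfSet | apply DefP.pr | apply DefP.oddRk
        | apply DefP.aug | apply DefP.pth | apply DefP.nx | apply DefP.cnd | apply DefP.hmin
        | apply DefP.hit | apply DefP.cdn | apply DefP.firstEx | apply DefP.exN
        | apply DefP.end_ | apply DefP.isZero | apply DefP.isSucc | apply DefP.alt
        | apply DefP.exr | apply DefP.exl | apply DefP.side | apply DefP.oddCard
        | apply DefP.cardEq | apply DefP.cardLt | apply DefP.cardLe | apply DefP.lst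
        | apply DefP.fst | apply DefP.nxt | apply DefP.keyLe | apply DefP.keyLt | apply DefP.rtc
        | (apply DefP.app4; assumption) | (apply DefP.app3'; assumption)
        | (apply DefP.app3; assumption) | (apply DefP.app2; assumption)
        | (apply DefP.comp; assumption) | exact Tm.id | exact Tm.unit | apply Tm.fst
        | apply Tm.snd | apply Tm.app | exact DefP.const _ | apply DefP.and | apply DefP.not
        | apply DefP.or | apply DefP.iff | apply DefP.adj | apply DefP.le | apply DefP.lt
        | apply DefP.eqFin | apply DefP.eq | apply DefP.rv | apply DefP.imp | apply DefP.allFin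
        | apply DefP.exFin | apply DefP.all | apply DefP.ex | assumption
        | (apply Tm.comp; assumption) | apply Tm.pair | apply Tm.lam))) (by (repeat' (first
        | apply DefP.cho | apply DefP.halfSet | apply DefP.pr | apply DefP.oddRk
        | apply DefP.aug | apply DefP.pth | apply DefP.nx | apply DefP.cnd | apply DefP.hmin
        | apply DefP.hit | apply DefP.cdn | apply DefP.firstEx | apply DefP.exN
        | apply DefP.end_ | apply DefP.isZero | apply DefP.isSucc | apply DefP.alt
        | apply DefP.exr | apply DefP.exl | apply DefP.side | apply DefP.oddCard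
        | apply DefP.cardEq | apply DefP.cardLt | apply DefP.cardLe | apply DefP.lst
        | apply DefP.fst | apply DefP.nxt | apply DefP.keyLe | apply DefP.keyLt | apply DefP.rtc
        | (apply DefP.app4; assumption) | (apply DefP.app3'; assumption)
        | (apply DefP.app3; assumption) | (apply DefP.app2; assumption)
        | (apply DefP.comp; assumption) | exact Tm.id | exact Tm.unit | apply Tm.fst
        | apply Tm.snd | apply Tm.app | exact DefP.const _ | apply DefP.and | apply DefP.not
        | apply DefP.or | apply DefP.iff | apply DefP.adj | apply DefP.le | apply DefP.lt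
        | apply DefP.eqFin | apply DefP.eq | apply DefP.rv | apply DefP.imp | apply DefP.allFin
        | apply DefP.exFin | apply DefP.all | apply DefP.ex | assumption
        | (apply Tm.comp; assumption) | apply Tm.pair | apply Tm.lam)))

theorem defP_fin (d : ℕ) : DefP (E := fun n => (Fin 4 → Fin n) × (Fin n × Fin n))
    (fun n G X y => Fin' d G y.1 y.2) := by
  unfold Fin'
  refine DefP.iterPow' (E := fun n => Fin 4 → Fin n) (S := fun n => Fin n × Fin n) 2 d
    (I := fun n G X b => Mat G b) (Φ := fun n G b Q => Aug G (Sd G) Q) defP_mat ?_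
  exact DefP.aug (E := fun n => (Fin 4 → Fin n) × (Fin n × Fin n))
    (L := fun n G X y v => Sd G v) (M := fun n G X y s => rv (S := fun n => Fin n × Fin n) X 0 s)
    (e := fun n y => y.2) (defP_sd (by (repeat' (first
        | apply DefP.cho | apply DefP.halfSet | apply DefP.pr | apply DefP.oddRk
        | apply DefP.aug | apply DefP.pth | apply DefP.nx | apply DefP.cnd | apply DefP.hmin
        | apply DefP.hit | apply DefP.cdn | apply DefP.firstEx | apply DefP.exN
        | apply DefP.end_ | apply DefP.isZero | apply DefP.isSucc | apply DefP.alt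
        | apply DefP.exr | apply DefP.exl | apply DefP.side | apply DefP.oddCard
        | apply DefP.cardEq | apply DefP.cardLt | apply DefP.cardLe | apply DefP.lst
        | apply DefP.fst | apply DefP.nxt | apply DefP.keyLe | apply DefP.keyLt | apply DefP.rtc
        | (apply DefP.app4; assumption) | (apply DefP.app3'; assumption)
        | (apply DefP.app3; assumption) | (apply DefP.app2; assumption)
        | (apply DefP.comp; assumption) | exact Tm.id | exact Tm.unit | apply Tm.fst
        | apply Tm.snd | apply Tm.app | exact DefP.const _ | apply DefP.and | apply DefP.not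
        | apply DefP.or | apply DefP.iff | apply DefP.adj | apply DefP.le | apply DefP.lt
        | apply DefP.eqFin | apply DefP.eq | apply DefP.rv | apply DefP.imp | apply DefP.allFin
        | apply DefP.exFin | apply DefP.all | apply DefP.ex | assumption
        | (apply Tm.comp; assumption) | apply Tm.pair
        | apply Tm.lam)))) (DefP.rv 0 (Tm.snd Tm.id)) (Tm.snd Tm.id)

theorem inNC_lang (d : ℕ) : InNC (Lang d) := by
  apply inNC_of_defP
  unfold Lang
  refine DefP.or (by (repeat' (first
      | apply DefP.cho | apply DefP.halfSet | apply DefP.pr | apply DefP.oddRk | apply DefP.aug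
      | apply DefP.pth | apply DefP.nx | apply DefP.cnd | apply DefP.hmin | apply DefP.hit
      | apply DefP.cdn | apply DefP.firstEx | apply DefP.exN | apply DefP.end_
      | apply DefP.isZero | apply DefP.isSucc | apply DefP.alt | apply DefP.exr | apply DefP.exl
      | apply DefP.side | apply DefP.oddCard | apply DefP.cardEq | apply DefP.cardLt
      | apply DefP.cardLe | apply DefP.lst | apply DefP.fst | apply DefP.nxt | apply DefP.keyLe
      | apply DefP.keyLt | apply DefP.rtc | (apply DefP.app4; assumption)
      | (apply DefP.app3'; assumption) | (apply DefP.app3; assumption)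
      | (apply DefP.app2; assumption) | (apply DefP.comp; assumption) | exact Tm.id
      | exact Tm.unit | apply Tm.fst | apply Tm.snd | apply Tm.app | exact DefP.const _
      | apply DefP.and | apply DefP.not | apply DefP.or | apply DefP.iff | apply DefP.adj
      | apply DefP.le | apply DefP.lt | apply DefP.eqFin | apply DefP.eq | apply DefP.rv
      | apply DefP.imp | apply DefP.allFin | apply DefP.exFin | apply DefP.all | apply DefP.ex
      | assumption | (apply Tm.comp; assumption) | apply Tm.pair
      | apply Tm.lam))) (DefP.ex (F := fun n => Fin 4 → Fin n) ?_)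
  unfold IsPM
  have hf : ∀ {E : ℕ → Type} [Env E] {f : ∀ n : ℕ, E n → Fin 4 → Fin n}
      {g h : ∀ n : ℕ, E n → Fin n} (hf : Tm (F := fun n => Fin 4 → Fin n) f)
      (hg : Tm (F := fun n => Fin n) g) (hh : Tm (F := fun n => Fin n) h),
      DefP (fun n G X x => Fin' d G (f n x) (g n x, h n x)) := by
    intro E _ f g h hf hg hh
    exact DefP.app2 (F := fun n => Fin 4 → Fin n) (H := fun n => Fin n × Fin n)
      (P := fun n G X b s => Fin' d G b s) (defP_fin d) hf (hg.pair hh)
  refine DefP.allFin (DefP.and (DefP.exFin (DefP.or (hf ?_ ?_ ?_) (hf ?_ ?_ ?_)))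
    (DefP.allFin (DefP.imp (DefP.or (hf ?_ ?_ ?_) (hf ?_ ?_ ?_)) (DefP.and (by (repeat' (first
        | apply DefP.cho | apply DefP.halfSet | apply DefP.pr | apply DefP.oddRk
        | apply DefP.aug | apply DefP.pth | apply DefP.nx | apply DefP.cnd | apply DefP.hmin
        | apply DefP.hit | apply DefP.cdn | apply DefP.firstEx | apply DefP.exN
        | apply DefP.end_ | apply DefP.isZero | apply DefP.isSucc | apply DefP.alt
        | apply DefP.exr | apply DefP.exl | apply DefP.side | apply DefP.oddCard
        | apply DefP.cardEq | apply DefP.cardLt | apply DefP.cardLe | apply DefP.lst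
        | apply DefP.fst | apply DefP.nxt | apply DefP.keyLe | apply DefP.keyLt | apply DefP.rtc
        | (apply DefP.app4; assumption) | (apply DefP.app3'; assumption)
        | (apply DefP.app3; assumption) | (apply DefP.app2; assumption)
        | (apply DefP.comp; assumption) | exact Tm.id | exact Tm.unit | apply Tm.fst
        | apply Tm.snd | apply Tm.app | exact DefP.const _ | apply DefP.and | apply DefP.not
        | apply DefP.or | apply DefP.iff | apply DefP.adj | apply DefP.le | apply DefP.lt
        | apply DefP.eqFin | apply DefP.eq | apply DefP.rv | apply DefP.imp | apply DefP.allFin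
        | apply DefP.exFin | apply DefP.all | apply DefP.ex | assumption
        | (apply Tm.comp; assumption) | apply Tm.pair | apply Tm.lam)))
      (DefP.and (DefP.or (hf ?_ ?_ ?_) (hf ?_ ?_ ?_)) (DefP.allFin (DefP.imp
        (DefP.or (hf ?_ ?_ ?_) (hf ?_ ?_ ?_)) (by (repeat' (first
            | apply DefP.cho | apply DefP.halfSet | apply DefP.pr | apply DefP.oddRk
            | apply DefP.aug | apply DefP.pth | apply DefP.nx | apply DefP.cnd | apply DefP.hmin
            | apply DefP.hit | apply DefP.cdn | apply DefP.firstEx | apply DefP.exN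
            | apply DefP.end_ | apply DefP.isZero | apply DefP.isSucc | apply DefP.alt
            | apply DefP.exr | apply DefP.exl | apply DefP.side | apply DefP.oddCard
            | apply DefP.cardEq | apply DefP.cardLt | apply DefP.cardLe | apply DefP.lst
            | apply DefP.fst | apply DefP.nxt | apply DefP.keyLe | apply DefP.keyLt
            | apply DefP.rtc | (apply DefP.app4; assumption) | (apply DefP.app3'; assumption)
            | (apply DefP.app3; assumption) | (apply DefP.app2; assumption)
            | (apply DefP.comp; assumption) | exact Tm.id | exact Tm.unit | apply Tm.fst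
            | apply Tm.snd | apply Tm.app | exact DefP.const _ | apply DefP.and | apply DefP.not
            | apply DefP.or | apply DefP.iff | apply DefP.adj | apply DefP.le | apply DefP.lt
            | apply DefP.eqFin | apply DefP.eq | apply DefP.rv | apply DefP.imp
            | apply DefP.allFin | apply DefP.exFin | apply DefP.all | apply DefP.ex | assumption
            | (apply Tm.comp; assumption) | apply Tm.pair | apply Tm.lam))))))))))
  all_goals (repeat' (first
      | apply DefP.cho | apply DefP.halfSet | apply DefP.pr | apply DefP.oddRk | apply DefP.aug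
      | apply DefP.pth | apply DefP.nx | apply DefP.cnd | apply DefP.hmin | apply DefP.hit
      | apply DefP.cdn | apply DefP.firstEx | apply DefP.exN | apply DefP.end_
      | apply DefP.isZero | apply DefP.isSucc | apply DefP.alt | apply DefP.exr | apply DefP.exl
      | apply DefP.side | apply DefP.oddCard | apply DefP.cardEq | apply DefP.cardLt
      | apply DefP.cardLe | apply DefP.lst | apply DefP.fst | apply DefP.nxt | apply DefP.keyLe
      | apply DefP.keyLt | apply DefP.rtc | (apply DefP.app4; assumption)
      | (apply DefP.app3'; assumption) | (apply DefP.app3; assumption)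
      | (apply DefP.app2; assumption) | (apply DefP.comp; assumption) | exact Tm.id
      | exact Tm.unit | apply Tm.fst | apply Tm.snd | apply Tm.app | exact DefP.const _
      | apply DefP.and | apply DefP.not | apply DefP.or | apply DefP.iff | apply DefP.adj
      | apply DefP.le | apply DefP.lt | apply DefP.eqFin | apply DefP.eq | apply DefP.rv
      | apply DefP.imp | apply DefP.allFin | apply DefP.exFin | apply DefP.all | apply DefP.ex
      | assumption | (apply Tm.comp; assumption) | apply Tm.pair | apply Tm.lam))

theorem lang_sound (d n : ℕ) (G : SimpleGraph (Fin n)) (h : Lang d n G) : HasPM G := by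
  rcases h with h | ⟨b, hb⟩
  · exact hasPM_iff.2 ⟨fun v => (h v).elim, fun v => (h v).elim, fun v => (h v).elim⟩
  · exact hb.hasPM

theorem sd_proper {n : ℕ} {G : SimpleGraph (Fin n)} (hG : G.Colorable 2) {u v : Fin n}
    (h : G.Adj u v) : Sd G u ↔ ¬ Sd G v := by
  obtain ⟨C⟩ := hG
  refine side_proper key_injective (fun a b hab => hab.symm) (fun a => C a = 0) ?_ h
  intro a b hab
  have h1 := C.valid hab
  have h2 : ∀ x y : Fin 2, x ≠ y → (x = 0 ↔ ¬ y = 0) := by decide
  exact h2 _ _ h1

theorem lang_complete (c n : ℕ) (G : SimpleGraph (Fin n)) (hG : G.Colorable 2)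
    (hirr : irr G ≤ (Nat.log 2 n : ℝ) ^ c) (hPM : HasPM G) : Lang c n G := by
  classical
  rcases Nat.eq_zero_or_pos n with h0 | hn
  · subst h0
    exact Or.inl fun v => v.elim0
  obtain ⟨f, hf, hfa⟩ := hasPM_iff.1 hPM
  have hn2 : 2 ≤ n := by
    by_contra hc
    have : n = 1 := by omega
    subst this
    exact (hfa 0).ne (Subsingleton.elim _ _)
  -- the load bound
  set B := 2 ^ (2 * Nat.size n) with hB
  have hcard : Nat.card (Fin 4 → Fin n) = n ^ 4 := by simp
  have hsz : 2 ^ Nat.size n ≤ 2 * n := by
    have h1 : 0 < Nat.size n := Nat.size_pos.2 hn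
    have h2 : 2 ^ (Nat.size n - 1) ≤ n := Nat.lt_size.1 (by omega)
    calc 2 ^ Nat.size n = 2 * 2 ^ (Nat.size n - 1) := by
          rw [← pow_succ']
          congr 1
          omega
      _ ≤ 2 * n := by omega
  have hB1 : B ≤ n ^ 4 := by
    calc B = (2 ^ Nat.size n) ^ 2 := by rw [hB, mul_comm, pow_mul]
      _ ≤ (2 * n) ^ 2 := Nat.pow_le_pow_left hsz 2
      _ ≤ (n * n) ^ 2 := Nat.pow_le_pow_left (Nat.mul_le_mul_right n hn2) 2
      _ = n ^ 4 := by ring
  have hB2 : n ^ 2 ≤ B := by
    calc n ^ 2 ≤ (2 ^ Nat.size n) ^ 2 := Nat.pow_le_pow_left (Nat.lt_size_self n).le 2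
      _ = B := by rw [hB, mul_comm, pow_mul]
  have hBpos : 1 ≤ B := Nat.one_le_two_pow
  obtain ⟨b, _, hb⟩ := exists_rk (f := key (S := fun n => Fin 4 → Fin n) (n := n)) key_injective
    (A := fun _ => True) (m := B) hBpos (by
      rw [Nat.card_congr (Equiv.subtypeUnivEquiv fun _ => trivial), hcard]
      exact hB1)
  have hb' : Nat.card {q : Fin 4 → Fin n // key (S := fun n => Fin 4 → Fin n) q ≤
      key (S := fun n => Fin 4 → Fin n) b} = B := by
    rw [← hb]
    unfold rk
    simp
  refine Or.inr ⟨b, ?_⟩
  have hL : ∀ u v, G.Adj u v → (Sd G u ↔ ¬ Sd G v) := fun u v h => sd_proper hG h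
  have hkf : Function.Injective (key (S := fun n => Fin n) (n := n)) := key_injective
  have hkh : Function.Injective (key (S := fun n => Fin n × Fin n) (n := n)) := key_injective
  have hkp : Function.Injective (key (S := fun n => Fin 4 → Fin n) (n := n)) := key_injective
  have h1 := ini_left hkp G (Sd G) b
  have h2 := ini_right hkp G (Sd G) b
  have h3 := ini_total hkp G (Sd G) (fun u v h => (hL u v h).1) (fun u => ⟨f u, hfa u⟩) b
    (by rw [hb']; simpa using hB2)
  rw [hb'] at h1 h2 h3
  obtain ⟨i1, i2, i3, i4⟩ := hv_iterate hkf hkf hkh hkp (2 * Nat.size n)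
    (Ini G (Sd G) (key (S := fun n => Fin 4 → Fin n)) b) h1 h2
  change (∀ u, ∑ v, mul (Loop G b) u v ≤ 1) at i1
  change (∀ v, ∑ u, mul (Loop G b) u v ≤ 1) at i2
  change _ ≤ B * ∑ e : Fin n × Fin n, mul (Loop G b) e.1 e.2 at i3
  change (∀ e, Loop G b e → _) at i4
  have hpos : ∀ {u v}, Mat G b (u, v) → 1 ≤ mul (Loop G b) u v := by
    rintro u v ⟨p, hp⟩
    haveI : Nonempty {p // Loop G b ((u, v), p)} := ⟨⟨p, hp⟩⟩
    exact Nat.card_pos
  have hM : PMat G (Sd G) (Mat G b) := by
    refine ⟨?_, ?_, ?_⟩
    · rintro u v ⟨p, hp⟩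
      exact (i4 _ hp).1
    · intro u v v' h h'
      by_contra hne
      have e1 : mul (Loop G b) u v + mul (Loop G b) u v' ≤ ∑ v, mul (Loop G b) u v := by
        rw [← Finset.sum_pair hne]
        exact Finset.sum_le_sum_of_subset (Finset.subset_univ _)
      have := hpos h
      have := hpos h'
      have := i1 u
      omega
    · intro u u' v h h'
      by_contra hne
      have e1 : mul (Loop G b) u v + mul (Loop G b) u' v ≤ ∑ u, mul (Loop G b) u v := by
        rw [← Finset.sum_pair (f := fun u => mul (Loop G b) u v) hne]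
        exact Finset.sum_le_sum_of_subset (Finset.subset_univ _)
      have := hpos h
      have := hpos h'
      have := i2 v
      omega
  have hdom : ∑ e : Fin n × Fin n, mul (Loop G b) e.1 e.2 ≤
      Nat.card {u // ∃ v, Mat G b (u, v)} := by
    rw [card_sum, Fintype.sum_prod_type]
    refine Finset.sum_le_sum fun u _ => ?_
    by_cases hu : ∃ v, Mat G b (u, v)
    · rw [ind_pos hu]
      exact i1 u
    · rw [ind_neg hu]
      apply le_of_eq
      apply Finset.sum_eq_zero
      intro v _
      unfold mul
      haveI : IsEmpty {p // Loop G b ((u, v), p)} := ⟨fun p => hu ⟨v, p.1, p.2⟩⟩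
      exact Nat.card_of_isEmpty
  refine aug_iterate f hf hfa hL _ hM ?_
  have hBr : (0 : ℝ) < B := by exact_mod_cast hBpos
  have h4 : ((∑ e : Fin n × Fin n, mul (Ini G (Sd G) (key (S := fun n => Fin 4 → Fin n)) b) e.1 e.2
      : ℕ) : ℝ) / B ≤ (Nat.card {u // ∃ v, Mat G b (u, v)} : ℝ) := by
    rw [div_le_iff₀ hBr]
    calc ((∑ e : Fin n × Fin n, mul (Ini G (Sd G) (key (S := fun n => Fin 4 → Fin n)) b) e.1 e.2
      : ℕ) : ℝ) ≤ ((B * ∑ e : Fin n × Fin n, mul (Loop G b) e.1 e.2 : ℕ) : ℝ) := by
          exact_mod_cast i3
      _ ≤ ((B * Nat.card {u // ∃ v, Mat G b (u, v)} : ℕ) : ℝ) := by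
          exact_mod_cast Nat.mul_le_mul_left B hdom
      _ = _ := by push_cast; ring
  have h5 : (Nat.card {u // Sd G u} : ℝ) ≤ (Nat.card {u // ∃ v, Mat G b (u, v)} : ℝ) +
      ((Nat.log 2 n) ^ c + 1 : ℕ) := by
    push_cast
    have h3' : (Nat.card {u // Sd G u} : ℝ) ≤
      ((∑ e : Fin n × Fin n, mul (Ini G (Sd G) (key (S := fun n => Fin 4 → Fin n)) b) e.1 e.2
      : ℕ) : ℝ) / B + irr G + 1 := h3
    linarith
  have h6 : Nat.card {u // Sd G u} ≤ Nat.card {u // ∃ v, Mat G b (u, v)} +
      ((Nat.log 2 n) ^ c + 1) := by exact_mod_cast h5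
  have h7 : (Nat.log 2 n) ^ c + 1 ≤ (2 * Nat.size n) ^ (c + 1) := by
    have hs : 1 ≤ Nat.size n := Nat.size_pos.2 hn
    have hlog : Nat.log 2 n ≤ Nat.size n := by
      have e1 : 2 ^ Nat.log 2 n ≤ n := Nat.pow_log_le_self 2 (by omega)
      have e2 := Nat.lt_size_self n
      have e3 : 2 ^ Nat.log 2 n < 2 ^ Nat.size n := lt_of_le_of_lt e1 e2
      exact ((Nat.pow_lt_pow_iff_right (by norm_num)).1 e3).le
    have e1 : (Nat.log 2 n) ^ c ≤ (2 * Nat.size n) ^ c :=
      Nat.pow_le_pow_left (by omega) c
    have e2 : 1 ≤ (2 * Nat.size n) ^ c := Nat.one_le_pow _ _ (by omega)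
    calc (Nat.log 2 n) ^ c + 1 ≤ (2 * Nat.size n) ^ c + (2 * Nat.size n) ^ c := by omega
      _ = (2 * Nat.size n) ^ c * 2 := by ring
      _ ≤ (2 * Nat.size n) ^ c * (2 * Nat.size n) := Nat.mul_le_mul_left _ (by omega)
      _ = _ := by rw [pow_succ]
  omega

/-- **Theorem.** -/
theorem bipartite_small_irr (c : ℕ) : ∃ L : ∀ n : ℕ, SimpleGraph (Fin n) → Prop, InNC L ∧
    (∀ (n : ℕ) (G : SimpleGraph (Fin n)), L n G → HasPM G) ∧
    ∀ (n : ℕ) (G : SimpleGraph (Fin n)), G.Colorable 2 → irr G ≤ (Nat.log 2 n : ℝ) ^ c →
      (HasPM G ↔ L n G) :=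
  ⟨Lang c, inNC_lang c, lang_sound c, fun n G h1 h2 =>
    ⟨lang_complete c n G h1 h2, lang_sound c n G⟩⟩

end Pool.Agent.PMNC
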