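import Mathlib

set_option autoImplicit false
set_option linter.all false

/-!
# A small prime number that does not divide a given number
-/

namespace Pool.Agent.PMNC

open Polynomial

theorem two_pow_card_le {s : Finset ℕ} (hs : ∀ p ∈ s, 2 ≤ p) : 2 ^ s.card ≤ ∏ p ∈ s, p := by
  rw [← Finset.prod_const]
  exact Finset.prod_le_prod' hs

/-- a prime number that does not divide `D` -/
theorem exists_prime_not_dvd {D L : ℕ} (hD : D ≠ 0) (hL : D ≤ 2 ^ L) :
    ∃ p, p.Prime ∧ ¬ p ∣ D ∧ p ≤ 64 * (L + 1) ^ 2 := by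
  by_contra hc
  push Not at hc
  -- all primes up to N divide D
  set j := Nat.size (L + 1) + 2 with hj
  set N := 2 ^ (2 * j) - 1 with hN
  have hj1 : 2 ^ (Nat.size (L + 1)) ≤ 2 * (L + 1) := by
    have h1 : 0 < Nat.size (L + 1) := Nat.size_pos.2 (by omega)
    have h2 : 2 ^ (Nat.size (L + 1) - 1) ≤ L + 1 := Nat.lt_size.1 (by omega)
    calc 2 ^ Nat.size (L + 1) = 2 * 2 ^ (Nat.size (L + 1) - 1) := by
          rw [← pow_succ']
          congr 1
          omega
      _ ≤ 2 * (L + 1) := by omega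
  have hj2 : L + 1 < 2 ^ (Nat.size (L + 1)) := Nat.lt_size_self _
  have hj3 : 2 ^ j = 4 * 2 ^ (Nat.size (L + 1)) := by
    rw [hj, pow_add]
    ring
  have hj4 : 2 ^ (2 * j) = 2 ^ j * 2 ^ j := by
    rw [two_mul, pow_add]
  have hpos : 0 < 2 ^ (2 * j) := by positivity
  have hNle : N ≤ 64 * (L + 1) ^ 2 := by
    have : 2 ^ j ≤ 8 * (L + 1) := by omega
    calc N ≤ 2 ^ (2 * j) := by omega
      _ = 2 ^ j * 2 ^ j := hj4
      _ ≤ (8 * (L + 1)) * (8 * (L + 1)) := Nat.mul_le_mul this this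
      _ = 64 * (L + 1) ^ 2 := by ring
  have h1 : ∀ p ∈ Nat.primesLE N, p ∣ D := by
    intro p hp
    rw [Nat.mem_primesLE] at hp
    by_contra h2
    have := hc p hp.2 h2
    omega
  have h2 : (Nat.primesLE N).card ≤ L := by
    have h3 : ∏ p ∈ Nat.primesLE N, p ∣ D := by
      refine Finset.prod_primes_dvd D ?_ h1
      intro p hp
      rw [Nat.mem_primesLE] at hp
      exact hp.2.prime
    have h4 := Nat.le_of_dvd (Nat.pos_of_ne_zero hD) h3
    have h5 : 2 ^ (Nat.primesLE N).card ≤ 2 ^ L := by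
      refine le_trans (two_pow_card_le ?_) (h4.trans hL)
      intro p hp
      rw [Nat.mem_primesLE] at hp
      exact hp.2.two_le
    exact (Nat.pow_le_pow_iff_right (by norm_num)).1 h5
  have h3 := Chebyshev.two_pow_le_mul_lcmUpto N
  have h4 : Nat.lcmUpto N ≤ 2 ^ (2 * j * L) := by
    rw [Nat.lcmUpto_eq_prod_pow_log]
    calc ∏ p ∈ Nat.primesLE N, p ^ Nat.log p N ≤ ∏ p ∈ Nat.primesLE N, 2 ^ (2 * j) := by
          refine Finset.prod_le_prod' fun p hp => ?_
          rw [Nat.mem_primesLE] at hp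
          have : N ≠ 0 := by
            have := hp.1
            have := hp.2.pos
            omega
          exact (Nat.pow_log_le_self p this).trans (by omega)
      _ = (2 ^ (2 * j)) ^ (Nat.primesLE N).card := by rw [Finset.prod_const]
      _ ≤ (2 ^ (2 * j)) ^ L := Nat.pow_le_pow_right hpos h2
      _ = 2 ^ (2 * j * L) := by rw [← pow_mul]
  have h5 : 2 ^ N ≤ 2 ^ (2 * j * (L + 1)) := by
    calc 2 ^ N ≤ (N + 1) * Nat.lcmUpto N := h3
      _ ≤ 2 ^ (2 * j) * 2 ^ (2 * j * L) := Nat.mul_le_mul (by omega) h4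
      _ = 2 ^ (2 * j * (L + 1)) := by
        rw [← pow_add]
        congr 1
        ring
  have h6 : N ≤ 2 * j * (L + 1) := (Nat.pow_le_pow_iff_right (by norm_num)).1 h5
  have h7 : j < 2 ^ j := Nat.lt_two_pow_self
  -- 2 j (L+1) < 2^j * 2^j
  have h8 : 2 * j * (L + 1) + 1 < 2 ^ (2 * j) := by
    rw [hj4]
    have h9 : 2 * (L + 1) + 2 ≤ 2 ^ j := by omega
    have h10 : j * (2 * (L + 1)) ≤ 2 ^ j * (2 * (L + 1)) := Nat.mul_le_mul_right _ h7.le
    have h11 : 2 ^ j * (2 * (L + 1) + 2) ≤ 2 ^ j * 2 ^ j := Nat.mul_le_mul_left _ h9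
    nlinarith
  omega

/-- a natural number that is not a zero of a polynomial -/
theorem exists_nat_not_root {R : Type*} [CommRing R] [IsDomain R] [CharZero R] {D : R[X]}
    (hD : D ≠ 0) {N : ℕ} (hN : D.natDegree ≤ N) : ∃ t : ℕ, 1 ≤ t ∧ t ≤ N + 1 ∧ D.eval (t : R) ≠ 0 := by
  by_contra hc
  push Not at hc
  apply hD
  refine Polynomial.eq_zero_of_natDegree_lt_card_of_eval_eq_zero D
    (f := fun i : Fin (N + 1) => ((i.val + 1 : ℕ) : R)) ?_ ?_ ?_
  · intro i j hij
    have := Nat.cast_injective hij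
    apply Fin.ext
    omega
  · intro i
    exact hc _ (by omega) (by omega)
  · rw [Fintype.card_fin]
    omega

theorem natDegree_det_le {T R : Type*} [Fintype T] [DecidableEq T] [CommRing R]
    (M : Matrix T T R[X]) {d : ℕ} (h : ∀ i j, (M i j).natDegree ≤ d) :
    M.det.natDegree ≤ Fintype.card T * d := by
  rw [Matrix.det_apply]
  refine Polynomial.natDegree_sum_le_of_forall_le _ _ fun σ _ => ?_
  refine (Polynomial.natDegree_smul_le _ _).trans ?_
  refine (Polynomial.natDegree_prod_le _ _).trans ?_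
  refine (Finset.sum_le_sum fun i _ => h (σ i) i).trans ?_
  simp

end Pool.Agent.PMNC
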