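import Mathlib
import Pool.Agent.Lib.MP_0087d5_lc.ZPri

set_option autoImplicit false
set_option linter.all false

/-!
# Bordering a symmetric matrix
-/

namespace Pool.Agent.PMNC

open Polynomial Matrix Module

section ech
variable {K : Type*} [Field K] {n : ℕ}

/-- an echelon basis of a subspace -/
theorem exists_echelon (W : Submodule K (Fin n → K)) {k : ℕ} (hk : finrank K W = k) :
    ∃ (q : Fin k → Fin n) (w : Fin k → Fin n → K),
      Function.Injective q ∧ (∀ a, w a ∈ W) ∧ (∀ a, w a (q a) ≠ 0) ∧
      (∀ a v, v < q a → w a v = 0) ∧ ∀ x ∈ W, ∃ z : Fin k → K, x = ∑ a, z a • w a := by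
  subst hk
  classical
  let J : Finset (Fin n) := Finset.univ.filter fun i => ∃ w ∈ W, w i ≠ 0 ∧ ∀ v < i, w v = 0
  have hJ : ∀ i : J, ∃ w ∈ W, w i.1 ≠ 0 ∧ ∀ v < i.1, w v = 0 := fun i =>
    (Finset.mem_filter.1 i.2).2
  choose w hw1 hw2 hw3 using hJ
  -- the family is independent
  have hli : LinearIndependent K (fun i : J => (⟨w i, hw1 i⟩ : W)) := by
    rw [Fintype.linearIndependent_iff]
    intro g hg
    by_contra hc
    push Not at hc
    have hne : (Finset.univ.filter fun i : J => g i ≠ 0).Nonempty := by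
      obtain ⟨i, hi⟩ := hc
      exact ⟨i, by simpa using hi⟩
    obtain ⟨i, hi, hmin⟩ := Finset.exists_min_image _ (fun i : J => i.1) hne
    have h1 := congrArg (fun x : W => (x : Fin n → K) i.1) hg
    simp only [AddSubmonoidClass.coe_finset_sum, SetLike.val_smul, Submodule.coe_zero,
      Finset.sum_apply, Pi.smul_apply, smul_eq_mul, Pi.zero_apply] at h1
    rw [Finset.sum_eq_single i] at h1
    · rcases mul_eq_zero.1 h1 with h2 | h2
      · exact (Finset.mem_filter.1 hi).2 h2
      · exact hw2 i h2
    · intro j _ hj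
      by_cases h2 : g j = 0
      · rw [h2, zero_mul]
      · have h3 := hmin j (Finset.mem_filter.2 ⟨Finset.mem_univ _, h2⟩)
        have h4 : i.1 < j.1 := lt_of_le_of_ne h3 (fun h => hj (Subtype.ext h.symm))
        rw [hw3 j i.1 h4, mul_zero]
    · intro h2
      exact absurd (Finset.mem_univ _) h2
  have hle1 : Fintype.card J ≤ finrank K W := hli.fintype_card_le_finrank
  -- the restriction to the pivots is injective
  let f : W →ₗ[K] (J → K) :=
    { toFun := fun x i => (x : Fin n → K) i.1
      map_add' := fun x y => rfl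
      map_smul' := fun a x => rfl }
  have hf : Function.Injective f := by
    rw [← LinearMap.ker_eq_bot, LinearMap.ker_eq_bot']
    intro x hx
    by_contra hc
    have hne : (Finset.univ.filter fun i : Fin n => (x : Fin n → K) i ≠ 0).Nonempty := by
      by_contra h1
      apply hc
      ext i
      by_contra h2
      exact h1 ⟨i, by simpa using h2⟩
    obtain ⟨i, hi, hmin⟩ := Finset.exists_min_image _ id hne
    have hi2 := (Finset.mem_filter.1 hi).2
    have hiJ : i ∈ J := by
      refine Finset.mem_filter.2 ⟨Finset.mem_univ _, x.1, x.2, hi2, fun v hv => ?_⟩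
      by_contra h1
      exact absurd (hmin v (Finset.mem_filter.2 ⟨Finset.mem_univ _, h1⟩)) (not_le.2 hv)
    have h3 := congrFun hx ⟨i, hiJ⟩
    exact hi2 h3
  have hle2 : finrank K W ≤ Fintype.card J := by
    have := LinearMap.finrank_le_finrank_of_injective hf
    rwa [Module.finrank_fintype_fun_eq_card] at this
  have hcard : Fintype.card J = finrank K W := le_antisymm hle1 hle2
  let e : Fin (finrank K W) ≃ J := (Fintype.equivFinOfCardEq hcard).symm
  have hspan := hli.span_eq_top_of_card_eq_finrank' hcard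
  refine ⟨fun a => (e a).1, fun a => w (e a), ?_, fun a => hw1 _, fun a => hw2 _,
    fun a v hv => hw3 _ v hv, ?_⟩
  · intro a b hab
    exact e.injective (Subtype.ext hab)
  · intro x hx
    have h1 : (⟨x, hx⟩ : W) ∈ Submodule.span K (Set.range fun i : J => (⟨w i, hw1 i⟩ : W)) := by
      rw [hspan]
      exact Submodule.mem_top
    rw [Submodule.mem_span_range_iff_exists_fun] at h1
    obtain ⟨c, hc⟩ := h1
    refine ⟨fun a => c (e a), ?_⟩
    have h2 := congrArg (fun x : W => (x : Fin n → K)) hc
    simp only [AddSubmonoidClass.coe_finset_sum, SetLike.val_smul] at h2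
    rw [← h2, ← Equiv.sum_comp e]

/-- the border matrix restricted to an echelon family is nonsingular for some parameter -/
theorem exists_param_ech [CharZero K] {k : ℕ} (q : Fin k → Fin n) (w : Fin k → Fin n → K)
    (hq : Function.Injective q) (h1 : ∀ a, w a (q a) ≠ 0) (h2 : ∀ a v, v < q a → w a v = 0) :
    ∃ t : ℕ, 1 ≤ t ∧ t ≤ k * n + 1 ∧
      (Matrix.of fun a l : Fin k => ∑ v : Fin n, w a v * ((t : K) ^ v.val * (v.val : K) ^ l.val)).det
        ≠ 0 := by
  classical
  let R : Matrix (Fin k) (Fin k) K[X] := Matrix.of fun a l =>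
    ∑ v : Fin n, C (w a v * (v.val : K) ^ l.val) * X ^ (v.val - (q a).val)
  have hdeg : R.det.natDegree ≤ k * n := by
    have := natDegree_det_le R (d := n) (fun i j => ?_)
    · simpa using this
    · simp only [R, Matrix.of_apply]
      refine Polynomial.natDegree_sum_le_of_forall_le _ _ fun v _ => ?_
      refine (Polynomial.natDegree_C_mul_X_pow_le _ _).trans ?_
      omega
  have hR0 : (R.det).eval 0 ≠ 0 := by
    rw [← Polynomial.coe_evalRingHom, RingHom.map_det]
    have e : (Polynomial.evalRingHom (0 : K)).mapMatrix R =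
        Matrix.of fun a l => w a (q a) * (Matrix.vandermonde fun a => ((q a).val : K)) a l := by
      ext a l
      simp only [RingHom.mapMatrix_apply, Matrix.map_apply, Matrix.of_apply, R,
        Polynomial.coe_evalRingHom, Polynomial.eval_finset_sum, Polynomial.eval_mul,
        Polynomial.eval_C, Polynomial.eval_pow, Polynomial.eval_X, Matrix.vandermonde_apply]
      rw [Finset.sum_eq_single (q a)]
      · rw [Nat.sub_self, pow_zero, mul_one]
      · intro v _ hv
        rcases lt_or_ge v (q a) with h3 | h3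
        · rw [h2 a v h3]
          simp
        · have h4 : (q a).val < v.val := lt_of_le_of_ne h3 (fun h => hv (Fin.ext h.symm))
          rw [zero_pow (by omega), mul_zero]
      · intro h3
        exact absurd (Finset.mem_univ _) h3
    rw [e, Matrix.det_mul_column]
    refine mul_ne_zero (Finset.prod_ne_zero_iff.2 fun a _ => h1 a) ?_
    rw [Matrix.det_vandermonde_ne_zero_iff]
    intro a b hab
    have := Nat.cast_injective hab
    exact hq (Fin.ext this)
  have hRne : R.det ≠ 0 := by
    intro hc
    rw [hc, Polynomial.eval_zero] at hR0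
    exact hR0 rfl
  obtain ⟨t, ht1, ht2, ht3⟩ := exists_nat_not_root hRne hdeg
  refine ⟨t, ht1, ht2, ?_⟩
  have htK : (t : K) ≠ 0 := by
    rw [Ne, Nat.cast_eq_zero]
    omega
  have e : (Matrix.of fun a l : Fin k =>
      ∑ v : Fin n, w a v * ((t : K) ^ v.val * (v.val : K) ^ l.val)) =
      Matrix.of fun a l => (t : K) ^ (q a).val *
        ((Polynomial.evalRingHom (t : K)).mapMatrix R) a l := by
    ext a l
    simp only [RingHom.mapMatrix_apply, Matrix.map_apply, Matrix.of_apply, R,
      Polynomial.coe_evalRingHom, Polynomial.eval_finset_sum, Polynomial.eval_mul,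
      Polynomial.eval_C, Polynomial.eval_pow, Polynomial.eval_X]
    rw [Finset.mul_sum]
    refine Finset.sum_congr rfl fun v _ => ?_
    rcases lt_or_ge v (q a) with h3 | h3
    · rw [h2 a v h3]
      simp
    · have h4 : (q a).val ≤ v.val := h3
      have h5 : (t : K) ^ v.val = (t : K) ^ (q a).val * (t : K) ^ (v.val - (q a).val) := by
        rw [← pow_add]
        congr 1
        omega
      rw [h5]
      ring
  rw [e, Matrix.det_mul_column]
  refine mul_ne_zero (Finset.prod_ne_zero_iff.2 fun a _ => pow_ne_zero _ htK) ?_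
  rw [← RingHom.map_det]
  exact ht3

end ech

section bord
variable {K : Type*} [Field K] {n : ℕ}

/-- for some parameter the bordered matrix is nonsingular -/
theorem exists_border [CharZero K] (A : Matrix (Fin n) (Fin n) K) (hA : Aᵀ = A) {k : ℕ}
    (hk : finrank K (LinearMap.ker A.mulVecLin) = k) :
    ∃ t : ℕ, 1 ≤ t ∧ t ≤ n * n + 1 ∧ ∀ (x : Fin n → K) (y : Fin n → K),
      (∀ l, k ≤ l.val → y l = 0) →
      (∀ v, (A *ᵥ x) v + ∑ l : Fin n, (t : K) ^ v.val * (v.val : K) ^ l.val * y l = 0) →
      (∀ l : Fin n, l.val < k →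
        ∑ v : Fin n, (t : K) ^ v.val * (v.val : K) ^ l.val * x v = 0) → x = 0 ∧ y = 0 := by
  classical
  set W := LinearMap.ker A.mulVecLin with hW
  obtain ⟨q, w, hq, hw1, hw2, hw3, hw4⟩ := exists_echelon W hk
  have hkn : k ≤ n := by
    have := Submodule.finrank_le W
    rwa [hk, Module.finrank_fintype_fun_eq_card, Fintype.card_fin] at this
  obtain ⟨t, ht1, ht2, ht3⟩ := exists_param_ech q w hq hw2 hw3
  have htn : t ≤ n * n + 1 := by
    have : k * n ≤ n * n := Nat.mul_le_mul_right _ hkn
    omega
  refine ⟨t, ht1, htn, fun x y hy hx1 hx2 => ?_⟩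
  set P : Matrix (Fin k) (Fin k) K := Matrix.of fun a l : Fin k =>
    ∑ v : Fin n, w a v * ((t : K) ^ v.val * (v.val : K) ^ l.val) with hP
  have hwk : ∀ a, A *ᵥ w a = 0 := fun a => by
    have := hw1 a
    rw [hW, LinearMap.mem_ker, Matrix.mulVecLin_apply] at this
    exact this
  -- the coordinates y
  let y' : Fin k → K := fun l => y ⟨l.val, by omega⟩
  have hsum : ∀ f : Fin n → K, (∀ l, k ≤ l.val → f l = 0) →
      ∑ l : Fin n, f l = ∑ l : Fin k, f ⟨l.val, by omega⟩ := by
    intro f hf
    symm
    refine Finset.sum_of_injOn (fun l : Fin k => (⟨l.val, by omega⟩ : Fin n)) ?_ ?_ ?_ ?_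
    · intro a _ b _ hab
      have := congrArg Fin.val hab
      exact Fin.ext this
    · intro a _
      exact Finset.mem_coe.2 (Finset.mem_univ _)
    · intro l _ hl
      apply hf
      by_contra hc
      apply hl
      exact ⟨⟨l.val, by omega⟩, by simp, rfl⟩
    · intro l _
      rfl
  have hy0 : y' = 0 := by
    have h1 : P *ᵥ y' = 0 := by
      funext a
      have h2 : ∑ v, w a v * ((A *ᵥ x) v + ∑ l : Fin n, (t : K) ^ v.val * (v.val : K) ^ l.val * y l)
          = 0 := Finset.sum_eq_zero fun v _ => by rw [hx1 v, mul_zero]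
      have h3 : ∑ v, w a v * (A *ᵥ x) v = 0 := by
        have h4 : w a ⬝ᵥ (A *ᵥ x) = (A *ᵥ w a) ⬝ᵥ x := by
          rw [Matrix.dotProduct_mulVec, ← Matrix.mulVec_transpose, hA]
        rw [hwk a, zero_dotProduct] at h4
        exact h4
      simp only [mul_add] at h2
      rw [Finset.sum_add_distrib, h3, zero_add] at h2
      rw [Pi.zero_apply, ← h2]
      unfold Matrix.mulVec dotProduct
      rw [hP]
      simp only [Matrix.of_apply]
      have h5 : ∀ v : Fin n, ∑ l : Fin n, (t : K) ^ v.val * (v.val : K) ^ l.val * y l =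
          ∑ l : Fin k, (t : K) ^ v.val * (v.val : K) ^ l.val * y' l := by
        intro v
        rw [hsum _ (fun l hl => by rw [hy l hl, mul_zero])]
      simp only [h5]
      simp only [Finset.sum_mul, Finset.mul_sum]
      rw [Finset.sum_comm]
      refine Finset.sum_congr rfl fun v _ => Finset.sum_congr rfl fun l _ => ?_
      ring
    exact Matrix.eq_zero_of_mulVec_eq_zero ht3 h1
  have hy00 : y = 0 := by
    funext l
    rcases Nat.lt_or_ge l.val k with h1 | h1
    · exact congrFun hy0 ⟨l.val, h1⟩
    · exact hy l h1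
  have hxW : x ∈ W := by
    rw [hW, LinearMap.mem_ker, Matrix.mulVecLin_apply]
    funext v
    have := hx1 v
    rw [hy00] at this
    simpa using this
  obtain ⟨z, hz⟩ := hw4 x hxW
  have hz0 : z = 0 := by
    have h1 : z ᵥ* P = 0 := by
      funext l
      have h2 := hx2 ⟨l.val, by omega⟩ l.2
      rw [Pi.zero_apply, ← h2, hz]
      unfold Matrix.vecMul dotProduct
      rw [hP]
      simp only [Matrix.of_apply, Finset.sum_apply, Pi.smul_apply, smul_eq_mul]
      simp only [Finset.mul_sum]
      rw [Finset.sum_comm]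
      refine Finset.sum_congr rfl fun v _ => Finset.sum_congr rfl fun a _ => ?_
      ring
    exact Matrix.eq_zero_of_vecMul_eq_zero ht3 h1
  refine ⟨?_, hy00⟩
  rw [hz, hz0]
  simp

end bord

end Pool.Agent.PMNC
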