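import Mathlib
import Pool.Agent.Lib.MP_0087d5_lc.ZBord

set_option autoImplicit false
set_option linter.all false

/-!
# The initial matrix: the weighted adjacency matrix with a border
-/

namespace Pool.Agent.PMNC

open Polynomial Matrix Module

/-- original vertices -/
def isO {n : ℕ} (t : Fin n × Fin n) : Prop := t.1.val = 0

/-- the first `k` dummies -/
def isA {n : ℕ} (k : ℕ) (t : Fin n × Fin n) : Prop := t.1.val = 1 ∧ t.2.val < k

section ring
variable {n : ℕ} {R : Type*} [CommRing R] (G : SimpleGraph (Fin n)) (w : Fin n → Fin n → ℕ)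

open Classical in
/-- the weighted adjacency matrix -/
noncomputable def adx (x : R) : Matrix (Fin n) (Fin n) R :=
  Matrix.of fun u v => if G.Adj u v then x ^ w u v else 0

open Classical in
/-- the weighted adjacency matrix with a border -/
noncomputable def bz (k : ℕ) (x y : R) : Matrix (Fin n × Fin n) (Fin n × Fin n) R :=
  Matrix.of fun r c =>
    if isO r ∧ isO c then (if G.Adj r.2 c.2 then x ^ w r.2 c.2 else 0)
    else if isO r ∧ isA k c then y ^ r.2.val * (r.2.val : R) ^ c.2.val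
    else if isA k r ∧ isO c then y ^ c.2.val * (c.2.val : R) ^ r.2.val
    else if r = c ∧ ¬ isA k r then 1 else 0

variable {G w}

theorem bz_map {R' : Type*} [CommRing R'] (f : R →+* R') (k : ℕ) (x y : R) :
    f.mapMatrix (bz G w k x y) = bz G w k (f x) (f y) := by
  classical
  ext r c
  unfold bz
  simp only [RingHom.mapMatrix_apply, Matrix.map_apply, Matrix.of_apply]
  split_ifs <;> simp

theorem isA_not_isO {k : ℕ} {t : Fin n × Fin n} (h : isA k t) : ¬ isO t := by
  intro h2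
  have h3 := h.1
  unfold isO at h2
  omega

theorem bz_oo (k : ℕ) (x y : R) {r c : Fin n × Fin n} (hr : isO r) (hc : isO c) :
    bz G w k x y r c = adx G w x r.2 c.2 := by
  unfold bz adx
  rw [Matrix.of_apply, if_pos ⟨hr, hc⟩, Matrix.of_apply]

theorem bz_oa {k : ℕ} (x y : R) {r c : Fin n × Fin n} (hr : isO r) (hc : isA k c) :
    bz G w k x y r c = y ^ r.2.val * (r.2.val : R) ^ c.2.val := by
  unfold bz
  rw [Matrix.of_apply, if_neg (fun h => isA_not_isO hc h.2), if_pos ⟨hr, hc⟩]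

theorem bz_ao {k : ℕ} (x y : R) {r c : Fin n × Fin n} (hr : isA k r) (hc : isO c) :
    bz G w k x y r c = y ^ c.2.val * (c.2.val : R) ^ r.2.val := by
  unfold bz
  rw [Matrix.of_apply, if_neg (fun h => isA_not_isO hr h.1), if_neg (fun h => isA_not_isO hr h.1),
    if_pos ⟨hr, hc⟩]

theorem bz_ax {k : ℕ} (x y : R) {r c : Fin n × Fin n} (hr : isA k r) (hc : ¬ isO c) :
    bz G w k x y r c = 0 := by
  unfold bz
  rw [Matrix.of_apply, if_neg (fun h => hc h.2), if_neg (fun h => isA_not_isO hr h.1),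
    if_neg (fun h => hc h.2), if_neg (fun h => h.2 hr)]

theorem bz_ox {k : ℕ} (x y : R) {r c : Fin n × Fin n} (hr : isO r) (hc : ¬ isO c)
    (hc2 : ¬ isA k c) : bz G w k x y r c = 0 := by
  unfold bz
  rw [Matrix.of_apply, if_neg (fun h => hc h.2), if_neg (fun h => hc2 h.2),
    if_neg (fun h => hc h.2), if_neg]
  rintro ⟨rfl, _⟩
  exact hc hr

open Classical in
theorem bz_x {k : ℕ} (x y : R) {r c : Fin n × Fin n} (hr : ¬ isO r) (hr2 : ¬ isA k r) :
    bz G w k x y r c = if r = c then 1 else 0 := by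
  unfold bz
  rw [Matrix.of_apply, if_neg (fun h => hr h.1), if_neg (fun h => hr h.1),
    if_neg (fun h => hr2 h.1)]
  by_cases h : r = c
  · rw [if_pos h, if_pos ⟨h, hr2⟩]
  · rw [if_neg h, if_neg (fun h2 => h h2.1)]

open Classical in
theorem bz_x' {k : ℕ} (x y : R) {r c : Fin n × Fin n} (hc : ¬ isO c) (hc2 : ¬ isA k c) :
    bz G w k x y r c = if r = c then 1 else 0 := by
  by_cases hr : isO r
  · rw [bz_ox x y hr hc hc2, if_neg]
    rintro rfl
    exact hc hr
  · by_cases hr2 : isA k r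
    · rw [bz_ax x y hr2 hc, if_neg]
      rintro rfl
      exact hc2 hr2
    · exact bz_x x y hr hr2

theorem adx_transpose (hw : ∀ u v, w u v = w v u) (x : R) : (adx G w x)ᵀ = adx G w x := by
  ext u v
  unfold adx
  rw [Matrix.transpose_apply, Matrix.of_apply, Matrix.of_apply, hw v u]
  by_cases h : G.Adj u v
  · rw [if_pos h, if_pos h.symm]
  · rw [if_neg h, if_neg (fun h2 => h h2.symm)]

/-- the sum over an original row -/
theorem bz_mul_o (hn : 2 ≤ n) (k : ℕ) (x y : R) (z : Fin n × Fin n → R) (v : Fin n) :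
    (bz G w k x y *ᵥ z) (⟨0, by omega⟩, v) =
      (adx G w x *ᵥ fun u => z (⟨0, by omega⟩, u)) v +
        ∑ l : Fin n, y ^ v.val * (v.val : R) ^ l.val *
          (if l.val < k then z (⟨1, by omega⟩, l) else 0) := by
  classical
  have hne : (⟨0, by omega⟩ : Fin n) ≠ ⟨1, by omega⟩ := by
    rw [Ne, Fin.mk.injEq]
    omega
  unfold Matrix.mulVec dotProduct
  rw [Fintype.sum_prod_type, Fintype.sum_eq_add _ _ hne]
  · congr 1
    · refine Finset.sum_congr rfl fun l _ => ?_
      beta_reduce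
      rw [bz_oo (G := G) (w := w) k x y (r := (⟨0, by omega⟩, v)) (c := (⟨0, by omega⟩, l)) rfl rfl]
    · refine Finset.sum_congr rfl fun l _ => ?_
      beta_reduce
      by_cases hl : l.val < k
      · rw [if_pos hl, bz_oa (G := G) (w := w) x y (r := (⟨0, by omega⟩, v))
          (c := (⟨1, by omega⟩, l)) rfl ⟨rfl, hl⟩]
      · rw [if_neg hl, bz_ox (G := G) (w := w) x y (r := (⟨0, by omega⟩, v))
          (c := (⟨1, by omega⟩, l)) rfl (by unfold isO; simp) (fun h => hl h.2)]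
        simp
  · intro a ha
    refine Finset.sum_eq_zero fun l _ => ?_
    beta_reduce
    rw [bz_ox (G := G) (w := w) x y (r := (⟨0, by omega⟩, v)) (c := (a, l)) rfl, zero_mul]
    · intro h
      exact ha.1 (Fin.ext h)
    · intro h
      exact ha.2 (Fin.ext h.1)

theorem bz_mul_a (hn : 2 ≤ n) (k : ℕ) (x y : R) (z : Fin n × Fin n → R) (l : Fin n)
    (hl : l.val < k) :
    (bz G w k x y *ᵥ z) (⟨1, by omega⟩, l) =
      ∑ v : Fin n, y ^ v.val * (v.val : R) ^ l.val * z (⟨0, by omega⟩, v) := by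
  classical
  unfold Matrix.mulVec dotProduct
  rw [Fintype.sum_prod_type, Fintype.sum_eq_single (⟨0, by omega⟩ : Fin n)]
  · refine Finset.sum_congr rfl fun v _ => ?_
    beta_reduce
    rw [bz_ao (G := G) (w := w) x y (r := (⟨1, by omega⟩, l)) (c := (⟨0, by omega⟩, v))
      ⟨rfl, hl⟩ rfl]
  · intro a ha
    refine Finset.sum_eq_zero fun v _ => ?_
    beta_reduce
    rw [bz_ax (G := G) (w := w) x y (r := (⟨1, by omega⟩, l)) (c := (a, v)) ⟨rfl, hl⟩, zero_mul]
    intro h
    exact ha (Fin.ext h)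

theorem bz_mul_x (k : ℕ) (x y : R) (z : Fin n × Fin n → R) {r : Fin n × Fin n}
    (hr : ¬ isO r) (hr2 : ¬ isA k r) : (bz G w k x y *ᵥ z) r = z r := by
  classical
  unfold Matrix.mulVec dotProduct
  rw [Fintype.sum_eq_single r]
  · beta_reduce
    rw [bz_x x y hr hr2, if_pos rfl, one_mul]
  · intro c hc
    beta_reduce
    rw [bz_x x y hr hr2, if_neg (Ne.symm hc), zero_mul]

end ring

section field
variable {n : ℕ} {K : Type*} [Field K] {G : SimpleGraph (Fin n)} {w : Fin n → Fin n → ℕ}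

theorem bz_det_ne (hn : 2 ≤ n) {k : ℕ} {x y : K}
    (h : ∀ (a : Fin n → K) (b : Fin n → K), (∀ l, k ≤ l.val → b l = 0) →
      (∀ v, (adx G w x *ᵥ a) v + ∑ l : Fin n, y ^ v.val * (v.val : K) ^ l.val * b l = 0) →
      (∀ l : Fin n, l.val < k → ∑ v : Fin n, y ^ v.val * (v.val : K) ^ l.val * a v = 0) →
        a = 0 ∧ b = 0) : (bz G w k x y).det ≠ 0 := by
  classical
  intro hd
  obtain ⟨z, hz, hz0⟩ := Matrix.exists_mulVec_eq_zero_iff.2 hd
  apply hz
  have h1 := h (fun u => z (⟨0, by omega⟩, u))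
    (fun l => if l.val < k then z (⟨1, by omega⟩, l) else 0)
    (fun l hl => if_neg (by omega))
    (fun v => by rw [← bz_mul_o hn k x y z v, hz0]; rfl)
    (fun l hl => by rw [← bz_mul_a hn k x y z l hl, hz0]; rfl)
  funext r
  by_cases hr : isO r
  · have h2 := congrFun h1.1 r.2
    have e : r = (⟨0, by omega⟩, r.2) := Prod.ext (Fin.ext hr) rfl
    rw [e]
    exact h2
  · by_cases hr2 : isA k r
    · have h2 := congrFun h1.2 r.2
      beta_reduce at h2
      rw [if_pos hr2.2] at h2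
      have e : r = (⟨1, by omega⟩, r.2) := Prod.ext (Fin.ext hr2.1) rfl
      rw [e]
      exact h2
    · rw [← bz_mul_x (G := G) (w := w) k x y z hr hr2, hz0]

theorem bz_rank (hn : 2 ≤ n) {k : ℕ} {x y : K} (hd : (bz G w k x y).det ≠ 0) :
    finrank K (LinearMap.ker (adx G w x).mulVecLin) ≤ k := by
  classical
  let f : LinearMap.ker (adx G w x).mulVecLin →ₗ[K] (Fin k → K) :=
    { toFun := fun a l => ∑ v : Fin n, y ^ v.val * (v.val : K) ^ l.val * (a : Fin n → K) v
      map_add' := fun a b => by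
        funext l
        simp [mul_add, Finset.sum_add_distrib]
      map_smul' := fun c a => by
        funext l
        simp only [Submodule.coe_smul, Pi.smul_apply, smul_eq_mul, RingHom.id_apply,
          Finset.mul_sum]
        refine Finset.sum_congr rfl fun v _ => ?_
        ring }
  have hf : Function.Injective f := by
    rw [← LinearMap.ker_eq_bot, LinearMap.ker_eq_bot']
    intro a ha
    have hA : adx G w x *ᵥ (a : Fin n → K) = 0 := by
      have := a.2
      rw [LinearMap.mem_ker, Matrix.mulVecLin_apply] at this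
      exact this
    have h1 : bz G w k x y *ᵥ (fun t => if t.1.val = 0 then (a : Fin n → K) t.2 else 0) = 0 := by
      funext r
      by_cases hr : isO r
      · have e : r = (⟨0, by omega⟩, r.2) := Prod.ext (Fin.ext hr) rfl
        rw [e, bz_mul_o hn]
        simp only [if_true]
        rw [show (fun u => (a : Fin n → K) u) = (a : Fin n → K) from rfl, hA]
        simp
      · by_cases hr2 : isA k r
        · have e : r = (⟨1, by omega⟩, r.2) := Prod.ext (Fin.ext hr2.1) rfl
          rw [e, bz_mul_a hn k x y _ _ hr2.2]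
          simp only [if_true]
          exact congrFun ha ⟨r.2.val, hr2.2⟩
        · rw [bz_mul_x k x y _ hr hr2]
          exact if_neg hr
    have h2 := Matrix.eq_zero_of_mulVec_eq_zero hd h1
    ext v
    have h3 := congrFun h2 (⟨0, by omega⟩, v)
    exact h3
  have := LinearMap.finrank_le_finrank_of_injective hf
  rwa [Module.finrank_fintype_fun_eq_card, Fintype.card_fin] at this

end field

section param
variable {n : ℕ} {G : SimpleGraph (Fin n)} {w : Fin n → Fin n → ℕ}

/-- from polynomials to rational functions -/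
noncomputable def tRF : ℤ[X] →+* RatFunc ℚ :=
  (algebraMap ℚ[X] (RatFunc ℚ)).comp (Polynomial.mapRingHom (Int.castRingHom ℚ))

theorem tRF_X : tRF X = RatFunc.X := by
  unfold tRF
  simp

theorem tRF_det (k t : ℕ) :
    tRF (bz G w k (X : ℤ[X]) (t : ℤ[X])).det = (bz G w k (RatFunc.X : RatFunc ℚ) (t : RatFunc ℚ)).det := by
  rw [RingHom.map_det, bz_map, tRF_X, map_natCast]

theorem eval_det' (k t a : ℕ) :
    (bz G w k (X : ℤ[X]) (t : ℤ[X])).det.eval (a : ℤ) = (bz G w k (a : ℤ) (t : ℤ)).det := by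
  rw [← Polynomial.coe_evalRingHom, RingHom.map_det, bz_map, map_natCast]
  simp

theorem tRF_inj : Function.Injective tRF := by
  unfold tRF
  rw [RingHom.coe_comp]
  exact (IsFractionRing.injective ℚ[X] (RatFunc ℚ)).comp
    (Polynomial.map_injective _ Int.cast_injective)

/-- soundness of the rank test -/
theorem rank_sound (hn : 2 ≤ n) {k t a : ℕ} (h : (bz G w k (a : ℤ) (t : ℤ)).det ≠ 0) :
    finrank (RatFunc ℚ) (LinearMap.ker (adx G w (RatFunc.X : RatFunc ℚ)).mulVecLin) ≤ k := by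
  apply bz_rank hn (y := (t : RatFunc ℚ))
  rw [← tRF_det]
  intro hc
  apply h
  have : (bz G w k (X : ℤ[X]) (t : ℤ[X])).det = 0 := tRF_inj (by rw [hc, map_zero])
  rw [← eval_det', this, Polynomial.eval_zero]

theorem bz_degree {M : ℕ} (hw : ∀ u v, w u v ≤ M) (k t : ℕ) :
    (bz G w k (X : ℤ[X]) (t : ℤ[X])).det.natDegree ≤ n * n * M := by
  classical
  have h := natDegree_det_le (bz G w k (X : ℤ[X]) (t : ℤ[X])) (d := M) ?_
  · rwa [Fintype.card_prod, Fintype.card_fin] at h
  · intro r c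
    unfold bz
    rw [Matrix.of_apply]
    have e : ∀ (a b : ℕ) (i j : ℕ), ((a : ℤ[X]) ^ i * (b : ℤ[X]) ^ j).natDegree ≤ M := by
      intro a b i j
      have : ((a : ℤ[X]) ^ i * (b : ℤ[X]) ^ j) = ((a ^ i * b ^ j : ℕ) : ℤ[X]) := by push_cast; rfl
      rw [this, Polynomial.natDegree_natCast]
      exact Nat.zero_le _
    split_ifs
    · rw [Polynomial.natDegree_X_pow]
      exact hw _ _
    · simp
    · exact e _ _ _ _
    · exact e _ _ _ _
    · simp
    · simp

theorem bz_bound {M Q : ℕ} (hw : ∀ u v, w u v ≤ M) {k t a : ℕ} (hQ : 1 ≤ Q) (ha : a ≤ Q)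
    (ht : t ≤ Q) (hn : n ≤ Q) (r c : Fin n × Fin n) :
    |bz G w k (a : ℤ) (t : ℤ) r c| ≤ ((Q ^ (M + 2 * n) : ℕ) : ℤ) := by
  classical
  have hQ' : 1 ≤ Q ^ (M + 2 * n) := Nat.one_le_pow _ _ (by omega)
  have key : ∀ b : ℕ, b ≤ Q ^ (M + 2 * n) → |(b : ℤ)| ≤ ((Q ^ (M + 2 * n) : ℕ) : ℤ) := by
    intro b hb
    rw [abs_of_nonneg (by positivity)]
    exact_mod_cast hb
  have e : ∀ (b : ℕ) (i j : Fin n), b ≤ Q → |((t : ℤ) ^ i.val * (b : ℤ) ^ j.val)| ≤
      ((Q ^ (M + 2 * n) : ℕ) : ℤ) := by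
    intro b i j hb
    have : ((t : ℤ) ^ i.val * (b : ℤ) ^ j.val) = ((t ^ i.val * b ^ j.val : ℕ) : ℤ) := by
      push_cast; rfl
    rw [this]
    apply key
    calc t ^ i.val * b ^ j.val ≤ Q ^ i.val * Q ^ j.val :=
          Nat.mul_le_mul (Nat.pow_le_pow_left ht _) (Nat.pow_le_pow_left hb _)
      _ = Q ^ (i.val + j.val) := by rw [pow_add]
      _ ≤ Q ^ (M + 2 * n) := Nat.pow_le_pow_right (by omega) (by omega)
  unfold bz
  rw [Matrix.of_apply]
  split_ifs
  · have : ((a : ℤ) ^ w r.2 c.2) = ((a ^ w r.2 c.2 : ℕ) : ℤ) := by push_cast; rfl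
    rw [this]
    apply key
    calc a ^ w r.2 c.2 ≤ Q ^ w r.2 c.2 := Nat.pow_le_pow_left ha _
      _ ≤ Q ^ (M + 2 * n) := Nat.pow_le_pow_right (by omega) (by have := hw r.2 c.2; omega)
  · simp
  · exact e _ _ _ (by omega)
  · exact e _ _ _ (by omega)
  · rw [abs_one]
    exact_mod_cast hQ'
  · simp

/-- completeness of the rank test -/
theorem rank_complete (hn : 2 ≤ n) {M c : ℕ} (hw : ∀ u v, w u v ≤ M) (hws : ∀ u v, w u v = w v u)
    (hM : M ≤ n ^ c) {k : ℕ}
    (hk : finrank (RatFunc ℚ) (LinearMap.ker (adx G w (RatFunc.X : RatFunc ℚ)).mulVecLin) = k) :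
    ∃ t a p : ℕ, t < n ^ (4 * c + 29) ∧ a < n ^ (4 * c + 29) ∧ p < n ^ (4 * c + 29) ∧ p.Prime ∧
      n * n < p ∧ ¬ (p : ℤ) ∣ (bz G w k (a : ℤ) (t : ℤ)).det := by
  classical
  obtain ⟨t, ht1, ht2, ht3⟩ := exists_border (adx G w (RatFunc.X : RatFunc ℚ))
    (adx_transpose hws _) hk
  have h1 : (bz G w k (RatFunc.X : RatFunc ℚ) (t : RatFunc ℚ)).det ≠ 0 := bz_det_ne hn ht3
  rw [← tRF_det] at h1
  have h2 : (bz G w k (X : ℤ[X]) (t : ℤ[X])).det ≠ 0 := by
    intro hc
    rw [hc, map_zero] at h1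
    exact h1 rfl
  obtain ⟨a, ha1, ha2, ha3⟩ := exists_nat_not_root h2 (bz_degree hw k t)
  rw [eval_det'] at ha3
  -- numbers
  have hp : ∀ i, 1 ≤ n ^ i := fun i => Nat.one_le_pow _ _ (by omega)
  have hstep : ∀ i, 2 * n ^ i ≤ n ^ (i + 1) := fun i => by
    rw [pow_succ, mul_comm]
    exact Nat.mul_le_mul_left _ hn
  have hsq : n * n = n ^ 2 := by ring
  set Q := n ^ (c + 4) with hQ
  have hQ1 : 1 ≤ Q := hp _
  have hn2 : n ^ 2 ≤ n ^ (c + 2) := Nat.pow_le_pow_right (by omega) (by omega)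
  have hq1 : 2 * n ^ (c + 2) ≤ n ^ (c + 3) := hstep (c + 2)
  have hq2 : 2 * n ^ (c + 3) ≤ n ^ (c + 4) := hstep (c + 3)
  have haQ : a ≤ Q := by
    have : n * n * M ≤ n ^ (c + 2) := by
      calc n * n * M ≤ n * n * n ^ c := Nat.mul_le_mul_left _ hM
        _ = n ^ (c + 2) := by ring
    have := hp (c + 2)
    omega
  have htQ : t ≤ Q := by
    have := hp (c + 2)
    omega
  have hnQ : n ≤ Q := by
    calc n = n ^ 1 := (pow_one n).symm
      _ ≤ Q := Nat.pow_le_pow_right (by omega) (by omega)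
  have hnnQ : n * n ≤ Q := by
    rw [hsq]
    exact Nat.pow_le_pow_right (by omega) (by omega)
  have hdet := Matrix.det_le (A := bz G w k (a : ℤ) (t : ℤ)) (abv := AbsoluteValue.abs)
    (x := ((Q ^ (M + 2 * n) : ℕ) : ℤ)) (fun r c => bz_bound hw hQ1 haQ htQ hnQ r c)
  rw [Fintype.card_prod, Fintype.card_fin] at hdet
  set D := (bz G w k (a : ℤ) (t : ℤ)).det with hD
  have hD1 : D.natAbs ≤ (n * n).factorial * (Q ^ (M + 2 * n)) ^ (n * n) := by
    have h3 : |D| ≤ (((n * n).factorial * (Q ^ (M + 2 * n)) ^ (n * n) : ℕ) : ℤ) := by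
      have h4 : AbsoluteValue.abs D = |D| := rfl
      rw [h4, nsmul_eq_mul] at hdet
      push_cast at hdet ⊢
      exact hdet
    rw [Int.abs_eq_natAbs] at h3
    exact_mod_cast h3
  have hfac : (n * n).factorial ≤ Q ^ (n * n) := by
    calc (n * n).factorial ≤ (n * n) ^ (n * n) := Nat.factorial_le_pow _
      _ ≤ Q ^ (n * n) := Nat.pow_le_pow_left hnnQ _
  set L := Q * ((M + 2 * n + 2) * (n * n)) with hL
  have hDL : D.natAbs * (n * n).factorial ≤ 2 ^ L := by
    calc D.natAbs * (n * n).factorial ≤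
        ((n * n).factorial * (Q ^ (M + 2 * n)) ^ (n * n)) * (n * n).factorial :=
          Nat.mul_le_mul_right _ hD1
      _ ≤ (Q ^ (n * n) * (Q ^ (M + 2 * n)) ^ (n * n)) * Q ^ (n * n) :=
          Nat.mul_le_mul (Nat.mul_le_mul_right _ hfac) hfac
      _ = Q ^ ((M + 2 * n + 2) * (n * n)) := by
        have e : ∀ q a b : ℕ, q ^ a * (q ^ b) ^ a * q ^ a = q ^ ((b + 2) * a) := by
          intro q a b
          rw [← pow_mul, ← pow_add, ← pow_add]
          congr 1
          ring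
        exact e Q (n * n) (M + 2 * n)
      _ ≤ (2 ^ Q) ^ ((M + 2 * n + 2) * (n * n)) :=
        Nat.pow_le_pow_left Nat.lt_two_pow_self.le _
      _ = 2 ^ L := by rw [← pow_mul]
  have hDne : D.natAbs * (n * n).factorial ≠ 0 :=
    mul_ne_zero (Int.natAbs_ne_zero.2 ha3) (Nat.factorial_ne_zero _)
  obtain ⟨p, hp1, hp2, hp3⟩ := exists_prime_not_dvd hDne hDL
  have hLb : L ≤ n ^ (2 * c + 10) := by
    have h5 : (M + 2 * n + 2) * (n * n) ≤ n ^ (c + 6) := by
      have h6 : M + 2 * n + 2 ≤ n ^ (c + 4) := by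
        have e1 : n ^ c ≤ n ^ (c + 2) := Nat.pow_le_pow_right (by omega) (by omega)
        have e2 : n ≤ n ^ (c + 2) := by
          calc n = n ^ 1 := (pow_one n).symm
            _ ≤ n ^ (c + 2) := Nat.pow_le_pow_right (by omega) (by omega)
        have e3 : 2 * n ^ (c + 2) ≤ n ^ (c + 3) := hstep (c + 2)
        have e4 : 2 * n ^ (c + 3) ≤ n ^ (c + 4) := hstep (c + 3)
        have e5 : n ^ 2 ≤ n ^ (c + 2) := Nat.pow_le_pow_right (by omega) (by omega)
        have e6 : 2 * n ≤ n ^ 2 := by rw [pow_two]; exact Nat.mul_le_mul_right _ hn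
        omega
      calc (M + 2 * n + 2) * (n * n) ≤ n ^ (c + 4) * (n * n) := Nat.mul_le_mul_right _ h6
        _ = n ^ (c + 6) := by ring
    calc L ≤ n ^ (c + 4) * n ^ (c + 6) := Nat.mul_le_mul_left _ h5
      _ = n ^ (2 * c + 10) := by
        rw [← pow_add]
        congr 1
        ring
  have hpb : p < n ^ (4 * c + 29) := by
    have h5 : L + 1 ≤ n ^ (2 * c + 11) := by
      have e1 : 2 * n ^ (2 * c + 10) ≤ n ^ (2 * c + 11) := hstep (2 * c + 10)
      have e2 := hp (2 * c + 10)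
      omega
    have h6 : 64 ≤ n ^ 6 := by
      calc 64 = 2 ^ 6 := by norm_num
        _ ≤ n ^ 6 := Nat.pow_le_pow_left hn _
    have h7 : 64 * (L + 1) ^ 2 ≤ n ^ (4 * c + 28) := by
      calc 64 * (L + 1) ^ 2 ≤ n ^ 6 * (n ^ (2 * c + 11)) ^ 2 :=
            Nat.mul_le_mul h6 (Nat.pow_le_pow_left h5 _)
        _ = n ^ (4 * c + 28) := by
          rw [← pow_mul, ← pow_add]
          congr 1
          ring
    have e1 : 2 * n ^ (4 * c + 28) ≤ n ^ (4 * c + 29) := hstep (4 * c + 28)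
    have e2 := hp (4 * c + 28)
    omega
  have hQlt : Q < n ^ (4 * c + 29) := Nat.pow_lt_pow_right (by omega) (by omega)
  refine ⟨t, a, p, by omega, by omega, hpb, hp1, ?_, ?_⟩
  · by_contra hc
    apply hp2
    exact Dvd.dvd.mul_left ((Nat.Prime.dvd_factorial hp1).2 (by omega)) _
  · intro hc
    apply hp2
    refine Dvd.dvd.mul_right ?_ _
    exact Int.natCast_dvd.1 hc

end param

end Pool.Agent.PMNC
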