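import Mathlib

set_option autoImplicit false
set_option linter.all false

/-!
# Perturbing a nonsingular matrix along a shortest alternating path
-/

namespace Pool.Agent.PMNC

open Matrix Polynomial

section minor
variable {T : Type*} [Fintype T] [DecidableEq T] {R : Type*} [CommRing R]

/-- the row and the column `τ` are replaced by unit vectors -/
def mnr (B : Matrix T T R) (τ : T) : Matrix T T R :=
  Matrix.of fun r c => if r = τ ∨ c = τ then (if r = c then 1 else 0) else B r c

theorem det_mnr (B : Matrix T T R) (τ : T) : (mnr B τ).det = adjugate B τ τ := by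
  rw [adjugate_apply]
  refine Matrix.det_eq_of_forall_row_eq_smul_add_const (fun i => if i = τ then 0 else - B i τ) τ
    (by simp) ?_
  intro i j
  unfold mnr
  rw [Matrix.of_apply, Matrix.updateRow_self]
  by_cases hi : i = τ
  · subst hi
    rw [Matrix.updateRow_self]
    by_cases hj : i = j
    · subst hj
      simp
    · simp [hj, Pi.single_apply, Ne.symm hj]
  · rw [Matrix.updateRow_ne hi]
    by_cases hj : j = τ
    · subst hj
      simp [hi]
    · simp [hi, hj, Pi.single_apply]

end minor

section prog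
variable {T : Type*} [Fintype T] [DecidableEq T] {K : Type*} [Field K]

theorem progress (B N Q : Matrix T T K) (hQ : Q * B = 1) (τ : T) (s : ℕ)
    (h0 : ∀ m < s, ((Q * N) ^ m * Q) τ τ = 0) (h1 : ((Q * N) ^ s * Q) τ τ ≠ 0) :
    adjugate (B.map (C (R := K)) + (X : K[X]) • N.map (C (R := K))) τ τ ≠ 0 := by
  set A : Matrix T T K[X] := B.map (C (R := K)) + (X : K[X]) • N.map (C (R := K)) with hA
  have hmm : ∀ M M' : Matrix T T K, (M * M').map (C (R := K)) =
      M.map (C (R := K)) * M'.map (C (R := K)) := fun M M' => Matrix.map_mul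
  have key1 : Q.map (C (R := K)) * A = 1 + (X : K[X]) • (Q * N).map (C (R := K)) := by
    rw [hA, Matrix.mul_add, Matrix.mul_smul, ← hmm, ← hmm, hQ]
    congr 1
    rw [Matrix.map_one _ (map_zero _) (map_one _)]
  have key2 : adjugate A + (X : K[X]) • ((Q * N).map (C (R := K)) * adjugate A) =
      A.det • Q.map (C (R := K)) := by
    have h2 : (Q.map (C (R := K)) * A) * adjugate A = A.det • Q.map (C (R := K)) := by
      rw [Matrix.mul_assoc, Matrix.mul_adjugate, Matrix.mul_smul, Matrix.mul_one]
    rw [key1, Matrix.add_mul, Matrix.one_mul, Matrix.smul_mul] at h2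
    exact h2
  set f : ℕ → K[X] := fun m => ((((Q * N) ^ m).map (C (R := K))) * adjugate A) τ τ with hf
  have key3 : ∀ m, f m + X * f (m + 1) = A.det * C (((Q * N) ^ m * Q) τ τ) := by
    intro m
    have h2 := congrArg (fun M => ((((Q * N) ^ m).map (C (R := K))) * M) τ τ) key2
    beta_reduce at h2
    rw [Matrix.mul_add, Matrix.mul_smul, Matrix.mul_smul, ← Matrix.mul_assoc, ← hmm, ← hmm,
      ← pow_succ, Matrix.add_apply, Matrix.smul_apply, Matrix.smul_apply, Matrix.map_apply,
      smul_eq_mul, smul_eq_mul] at h2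
    exact h2
  have key4 : ∀ m ≤ s, f 0 = (-X) ^ m * f m := by
    intro m
    induction m with
    | zero => intro _; simp
    | succ m ih =>
      intro hm
      rw [ih (by omega)]
      have h2 := key3 m
      rw [h0 m (by omega), map_zero, mul_zero] at h2
      have h3 : f m = -X * f (m + 1) := by linear_combination h2
      rw [h3]
      ring
  have key5 : f 0 = adjugate A τ τ := by
    rw [hf]
    simp only
    rw [pow_zero, Matrix.map_one _ (map_zero _) (map_one _), Matrix.one_mul]
  have hBdet : B.det ≠ 0 := by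
    intro hc
    have h2 := congrArg Matrix.det hQ
    rw [Matrix.det_mul, hc, mul_zero, Matrix.det_one] at h2
    exact zero_ne_one h2
  have key6 : (f s).eval 0 ≠ 0 := by
    have h2 : (f s).eval 0 = B.det * ((Q * N) ^ s * Q) τ τ := by
      have h3 := congrArg (Polynomial.eval 0) (key3 s)
      rw [Polynomial.eval_add, Polynomial.eval_mul, Polynomial.eval_X, zero_mul, add_zero,
        Polynomial.eval_mul, Polynomial.eval_C] at h3
      rw [h3]
      congr 1
      rw [← Polynomial.coe_evalRingHom, RingHom.map_det]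
      congr 1
      ext r c
      rw [hA]
      simp
    rw [h2]
    exact mul_ne_zero hBdet h1
  rw [← key5, key4 s le_rfl]
  refine mul_ne_zero (pow_ne_zero _ (neg_ne_zero.2 Polynomial.X_ne_zero)) ?_
  intro hc
  rw [hc, Polynomial.eval_zero] at key6
  exact key6 rfl

/-- the coefficient along a path without shortcuts -/
theorem path_coeff (N Q : Matrix T T K) (τ : T) (s : ℕ) (c i : ℕ → T) (hc0 : c 0 = τ)
    (hinj : ∀ e e', e ≤ s → e' ≤ s → c e = c e' → e = e')
    (hN1 : ∀ e < s, N (i e) (c (e + 1)) = 1)
    (hN0 : ∀ x y, N x y ≠ 0 → ∃ e < s, x = i e ∧ y = c (e + 1))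
    (hq : ∀ e < s, Q (c e) (i e) ≠ 0) (hq0 : ∀ e e', e < e' → e' < s → Q (c e) (i e') = 0)
    (ht0 : ∀ e < s, Q (c e) τ = 0) (ht : Q (c s) τ ≠ 0) :
    (∀ m < s, ((Q * N) ^ m * Q) τ τ = 0) ∧ ((Q * N) ^ s * Q) τ τ ≠ 0 := by
  have e1 : ∀ e < s, ∀ j, (Q * N) j (c (e + 1)) = Q j (i e) := by
    intro e he j
    rw [Matrix.mul_apply, Finset.sum_eq_single (i e)]
    · rw [hN1 e he, mul_one]
    · intro x _ hx
      by_contra h
      obtain ⟨e', he', h1, h2⟩ := hN0 x (c (e + 1)) (fun h2 => h (by rw [h2, mul_zero]))
      have := hinj _ _ (by omega) (by omega) h2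
      apply hx
      rw [h1]
      congr 1
      omega
    · intro h
      exact absurd (Finset.mem_univ _) h
  have e2 : ∀ j y, (Q * N) j y ≠ 0 → ∃ e < s, y = c (e + 1) := by
    intro j y h
    rw [Matrix.mul_apply] at h
    obtain ⟨x, _, hx⟩ := Finset.exists_ne_zero_of_sum_ne_zero h
    obtain ⟨e, he, _, h2⟩ := hN0 x y (fun h2 => hx (by rw [h2, mul_zero]))
    exact ⟨e, he, h2⟩
  have e3 : ∀ m ≤ s, (∀ j, ((Q * N) ^ m) τ j ≠ 0 → ∃ e ≤ m, j = c e) ∧
      ((Q * N) ^ m) τ (c m) ≠ 0 := by
    intro m
    induction m with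
    | zero =>
      intro _
      constructor
      · intro j hj
        rw [pow_zero, Matrix.one_apply] at hj
        refine ⟨0, le_rfl, ?_⟩
        rw [hc0]
        by_contra h
        exact hj (if_neg (fun h2 => h h2.symm))
      · rw [hc0, pow_zero, Matrix.one_apply_eq]
        exact one_ne_zero
    | succ m ih =>
      intro hm
      obtain ⟨ih1, ih2⟩ := ih (by omega)
      constructor
      · intro j hj
        rw [pow_succ, Matrix.mul_apply] at hj
        obtain ⟨x, _, hx⟩ := Finset.exists_ne_zero_of_sum_ne_zero hj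
        obtain ⟨e', he', rfl⟩ := ih1 x (left_ne_zero_of_mul hx)
        have h2 := right_ne_zero_of_mul hx
        obtain ⟨e, he, rfl⟩ := e2 _ _ h2
        rw [e1 e he] at h2
        refine ⟨e + 1, ?_, rfl⟩
        by_contra h3
        exact h2 (hq0 e' e (by omega) he)
      · rw [pow_succ, Matrix.mul_apply, Finset.sum_eq_single (c m)]
        · rw [e1 m (by omega)]
          exact mul_ne_zero ih2 (hq m (by omega))
        · intro x _ hx
          by_contra h
          obtain ⟨e', he', rfl⟩ := ih1 x (left_ne_zero_of_mul h)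
          rw [e1 m (by omega)] at h
          have h3 : e' < m := lt_of_le_of_ne he' (fun h => hx (by rw [h]))
          exact h (by rw [hq0 e' m h3 (by omega), mul_zero])
        · intro h
          exact absurd (Finset.mem_univ _) h
  constructor
  · intro m hm
    rw [Matrix.mul_apply]
    refine Finset.sum_eq_zero fun j _ => ?_
    by_contra h
    obtain ⟨e, he, rfl⟩ := (e3 m hm.le).1 j (left_ne_zero_of_mul h)
    exact h (by rw [ht0 e (by omega), mul_zero])
  · rw [Matrix.mul_apply, Finset.sum_eq_single (c s)]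
    · exact mul_ne_zero (e3 s le_rfl).2 ht
    · intro j _ hj
      by_contra h
      obtain ⟨e, he, rfl⟩ := (e3 s le_rfl).1 j (left_ne_zero_of_mul h)
      have h3 : e < s := lt_of_le_of_ne he (fun h => hj (by rw [h]))
      exact h (by rw [ht0 e h3, mul_zero])
    · intro h
      exact absurd (Finset.mem_univ _) h

/-- there is a value of the parameter for which the perturbed matrix is nonsingular -/
theorem exists_param [Fintype K] (B N Q : Matrix T T K) (hQ : Q * B = 1) (τ : T) (s : ℕ)
    (h0 : ∀ m < s, ((Q * N) ^ m * Q) τ τ = 0) (h1 : ((Q * N) ^ s * Q) τ τ ≠ 0)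
    (hN : ∀ x, N x τ = 0 ∧ N τ x = 0) (hcard : Fintype.card T < Fintype.card K) :
    ∃ l : K, (mnr B τ + l • N).det ≠ 0 := by
  have h2 := progress B N Q hQ τ s h0 h1
  rw [← det_mnr] at h2
  have h3 : mnr (B.map (C (R := K)) + (X : K[X]) • N.map (C (R := K))) τ =
      (X : K[X]) • N.map (C (R := K)) + (mnr B τ).map (C (R := K)) := by
    ext1 r c
    unfold mnr
    simp only [Matrix.add_apply, Matrix.smul_apply, Matrix.map_apply, Matrix.of_apply, smul_eq_mul]
    by_cases hr : r = τ
    · subst hr
      rw [(hN c).2]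
      simp only [true_or, if_true, map_zero, mul_zero, zero_add]
      split_ifs <;> simp
    · by_cases hc : c = τ
      · subst hc
        rw [(hN r).1]
        simp only [or_true, if_true, map_zero, mul_zero, zero_add]
        split_ifs <;> simp
      · rw [if_neg (by tauto), if_neg (by tauto), add_comm]
  rw [h3] at h2
  obtain ⟨l, hl⟩ := Polynomial.exists_eval_ne_zero_of_natDegree_lt_card _ h2 (by
    refine lt_of_le_of_lt (Nat.cast_le.2 (Polynomial.natDegree_det_X_add_C_le N (mnr B τ))) ?_
    rw [Cardinal.mk_fintype]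
    exact_mod_cast hcard)
  refine ⟨l, ?_⟩
  rw [← Polynomial.coe_evalRingHom, RingHom.map_det] at hl
  have h4 : (Polynomial.evalRingHom l).mapMatrix
      ((X : K[X]) • N.map (C (R := K)) + (mnr B τ).map (C (R := K))) = mnr B τ + l • N := by
    ext r c
    simp
    ring
  rw [h4] at hl
  exact hl

end prog

end Pool.Agent.PMNC
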