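import Mathlib
import Pool.Agent.Lib.MP_0087d5_lc.WNum

set_option autoImplicit false
set_option linter.all false

/-!
# Powers of two modulo `m` are definable; the weights of the edges
-/

namespace Pool.Agent.PMNC

open Relation

section
variable {S : ℕ → Type} [Env S] {n : ℕ}

/-- one doubling modulo `m`, with a counter -/
def pst (m : S n) (p q : S n × S n) : Prop :=
  nv q.1 = nv p.1 + 1 ∧ ((nv p.2 + nv p.2 = nv q.2 ∧ nv q.2 < nv m) ∨
    ∃ c : S n, nv q.2 + nv c = nv p.2 ∧ nv p.2 + nv c = nv m)

/-- `a` is the remainder of `2 ^ i` modulo `m` -/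
def pwR (m i a : S n) : Prop :=
  ∃ z o : S n, nv z = 0 ∧ nv o = 1 ∧ ReflTransGen (pst m) (z, o) (i, a)

theorem two_mod {m a k : ℕ} (h : a = 2 ^ k % m) : 2 ^ (k + 1) % m = (a + a) % m := by
  rw [pow_succ, mul_two, Nat.add_mod, ← h]

theorem pwR_iff {m i a : S n} (hm : 2 ≤ nv m) : pwR m i a ↔ nv a = 2 ^ nv i % nv m := by
  constructor
  · rintro ⟨z, o, hz, ho, h⟩
    have key : ∀ q : S n × S n, ReflTransGen (pst m) (z, o) q →
        nv q.2 = 2 ^ nv q.1 % nv m := by
      intro q hq
      induction hq with
      | refl => rw [hz, ho, pow_zero, Nat.mod_eq_of_lt (by omega)]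
      | @tail p q _ hpq ih =>
        obtain ⟨h1, h2⟩ := hpq
        rw [h1, two_mod ih]
        have h3 : nv p.2 < nv m := by rw [ih]; exact Nat.mod_lt _ (by omega)
        rcases h2 with ⟨h4, h5⟩ | ⟨c, h4, h5⟩
        · rw [h4, Nat.mod_eq_of_lt h5]
        · rw [show nv p.2 + nv p.2 = nv q.2 + nv m by omega, Nat.add_mod_right,
            Nat.mod_eq_of_lt (by omega)]
    exact key _ h
  · intro h
    obtain ⟨z, hz⟩ := nv_down' (b := i) (m := 0) (Nat.zero_le _)
    obtain ⟨o, ho⟩ := nv_down' (b := m) (m := 1) (by omega)
    refine ⟨z, o, hz, ho, ?_⟩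
    have key : ∀ k ≤ nv i, ∃ i' a' : S n, nv i' = k ∧ nv a' = 2 ^ k % nv m ∧
        ReflTransGen (pst m) (z, o) (i', a') := by
      intro k
      induction k with
      | zero =>
        intro _
        exact ⟨z, o, hz, by rw [ho, pow_zero, Nat.mod_eq_of_lt (by omega)], ReflTransGen.refl⟩
      | succ k ih =>
        intro hk
        obtain ⟨i', a', h1, h2, h3⟩ := ih (by omega)
        obtain ⟨i'', hi''⟩ := nv_down' (b := i) hk
        have h4 : nv a' < nv m := by rw [h2]; exact Nat.mod_lt _ (by omega)
        have h5 : 2 ^ (k + 1) % nv m < nv m := Nat.mod_lt _ (by omega)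
        obtain ⟨a'', ha''⟩ := nv_down' (b := m) h5.le
        refine ⟨i'', a'', hi'', ha'', h3.tail ⟨by rw [hi'', h1], ?_⟩⟩
        rw [two_mod h2] at ha'' h5
        simp only
        rcases Nat.lt_or_ge (nv a' + nv a') (nv m) with h6 | h6
        · rw [Nat.mod_eq_of_lt h6] at ha''
          exact Or.inl ⟨ha''.symm, by omega⟩
        · rw [Nat.mod_eq_sub_mod h6, Nat.mod_eq_of_lt (by omega)] at ha''
          obtain ⟨c, hc⟩ := nv_down' (b := m) (m := nv m - nv a') (by omega)
          exact Or.inr ⟨c, by omega, by omega⟩
    obtain ⟨i', a', h1, h2, h3⟩ := key _ le_rfl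
    rw [nv_inj] at h1
    rw [← h] at h2
    rw [nv_inj] at h2
    subst h1 h2
    exact h3

/-- the number of the pair of vertices -/
noncomputable def eid (u v : Fin n) : ℕ :=
  if u < v then nv (S := fun n => Fin n × Fin n) (u, v) else nv (S := fun n => Fin n × Fin n) (v, u)

theorem eid_comm (u v : Fin n) : eid u v = eid v u := by
  unfold eid
  rcases lt_trichotomy u v with h | h | h
  · rw [if_pos h, if_neg (not_lt.2 h.le)]
  · rw [h]
  · rw [if_neg (not_lt.2 h.le), if_pos h]

theorem eid_lt (u v : Fin n) : eid u v < n ^ 2 := by
  unfold eid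
  split_ifs
  · exact nv_lt (S := fun n => Fin n × Fin n) _
  · exact nv_lt (S := fun n => Fin n × Fin n) _

/-- the weight modulo `m` of a pair of vertices -/
noncomputable def wE (m : ℕ) (u v : Fin n) : ℕ := if 2 ≤ m then 2 ^ eid u v % m else 0

theorem wE_comm (m : ℕ) (u v : Fin n) : wE m u v = wE m v u := by
  unfold wE
  rw [eid_comm]

end

section
variable {E S : ℕ → Type} [Env E] [Env S]

theorem DefP.pwR {m i a : ∀ n : ℕ, E n → S n} (hm : Tm m) (hi : Tm i) (ha : Tm a) :
    DefP (fun n G X x => PMNC.pwR (m n x) (i n x) (a n x)) := by
  have key : DefP (E := fun n => S n × (S n × S n))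
      (fun n G X y => PMNC.pwR y.1 y.2.1 y.2.2) := by
    unfold PMNC.pwR pst
    refine DefP.ex (DefP.ex (DefP.and ?_ (DefP.and ?_ (DefP.rtc ?_ ?_ ?_))))
    all_goals (repeat' (first
        | apply DefP.nOne | apply DefP.nZero | apply DefP.nSucc | apply DefP.nAdd
        | apply DefP.nLt | apply DefP.nLe | apply DefP.nEq | apply DefP.hlf | apply DefP.p1le
        | apply DefP.p1 | apply DefP.p0 | apply DefP.aug | apply DefP.pth | apply DefP.nx
        | apply DefP.cnd | apply DefP.hmin | apply DefP.hit | apply DefP.cdn
        | apply DefP.firstEx | apply DefP.exN | apply DefP.end_ | apply DefP.isZero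
        | apply DefP.isSucc | apply DefP.alt | apply DefP.exr | apply DefP.exl | apply DefP.side
        | apply DefP.oddCard | apply DefP.cardEq | apply DefP.cardLt | apply DefP.cardLe
        | apply DefP.lst | apply DefP.fst | apply DefP.nxt | apply DefP.keyLe | apply DefP.keyLt
        | apply DefP.rtc | (apply DefP.app4; assumption) | (apply DefP.app3'; assumption)
        | (apply DefP.app3; assumption) | (apply DefP.app2; assumption)
        | (apply DefP.comp; assumption) | exact Tm.id | exact Tm.unit | apply Tm.fst
        | apply Tm.snd | apply Tm.app | exact DefP.const _ | apply DefP.and | apply DefP.not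
        | apply DefP.or | apply DefP.iff | apply DefP.adj | apply DefP.le | apply DefP.lt
        | apply DefP.eqFin | apply DefP.eq | apply DefP.rv | apply DefP.imp | apply DefP.allFin
        | apply DefP.exFin | apply DefP.all | apply DefP.ex | assumption
        | (apply Tm.comp; assumption) | apply Tm.pair | apply Tm.lam))
  exact DefP.app3 (P := fun n G X a b c => PMNC.pwR a b c) key hm hi ha

theorem DefP.wE (hS : 2 ≤ dim S) {m : ∀ n : ℕ, E n → S n} (hm : Tm m) :
    DefP (E := fun n => E n × ((Fin n × Fin n) × S n))
      (fun n G X y => PMNC.wE (nv (m n y.1)) y.2.1.1 y.2.1.2 = nv y.2.2) := by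
  have hm' : Tm (fun n (y : E n × ((Fin n × Fin n) × S n)) => m n y.1) :=
    hm.comp (Tm.fst (H := fun n => (Fin n × Fin n) × S n) Tm.id)
  have hm'' : Tm (fun n (y : (E n × ((Fin n × Fin n) × S n)) × S n) => m n y.1.1) :=
    hm'.comp (Tm.fst (H := S) Tm.id)
  refine DefP.congr (P := fun n G X y =>
    ((¬ (nv (m n y.1) = 0) ∧ ¬ (nv (m n y.1) = 1)) ∧ ∃ i : S n,
      ((y.2.1.1 < y.2.1.2 ∧ nv i = nv (S := fun n => Fin n × Fin n) (y.2.1.1, y.2.1.2)) ∨
      (¬ (y.2.1.1 < y.2.1.2) ∧ nv i = nv (S := fun n => Fin n × Fin n) (y.2.1.2, y.2.1.1))) ∧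
      PMNC.pwR (m n y.1) i y.2.2) ∨
    (¬ (¬ (nv (m n y.1) = 0) ∧ ¬ (nv (m n y.1) = 1)) ∧ nv y.2.2 = 0)) ?_ ?_
  · refine DefP.or (DefP.and ?_ (DefP.ex (DefP.and (DefP.or ?_ ?_) (DefP.pwR ?_ ?_ ?_))))
      (DefP.and ?_ ?_)
    · (repeat' (first
        | apply DefP.nOne | apply DefP.nZero | apply DefP.nSucc | apply DefP.nAdd
        | apply DefP.nLt | apply DefP.nLe | apply DefP.nEq | apply DefP.hlf | apply DefP.p1le
        | apply DefP.p1 | apply DefP.p0 | apply DefP.aug | apply DefP.pth | apply DefP.nx
        | apply DefP.cnd | apply DefP.hmin | apply DefP.hit | apply DefP.cdn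
        | apply DefP.firstEx | apply DefP.exN | apply DefP.end_ | apply DefP.isZero
        | apply DefP.isSucc | apply DefP.alt | apply DefP.exr | apply DefP.exl | apply DefP.side
        | apply DefP.oddCard | apply DefP.cardEq | apply DefP.cardLt | apply DefP.cardLe
        | apply DefP.lst | apply DefP.fst | apply DefP.nxt | apply DefP.keyLe | apply DefP.keyLt
        | apply DefP.rtc | (apply DefP.app4; assumption) | (apply DefP.app3'; assumption)
        | (apply DefP.app3; assumption) | (apply DefP.app2; assumption)
        | (apply DefP.comp; assumption) | exact Tm.id | exact Tm.unit | apply Tm.fst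
        | apply Tm.snd | apply Tm.app | exact DefP.const _ | apply DefP.and | apply DefP.not
        | apply DefP.or | apply DefP.iff | apply DefP.adj | apply DefP.le | apply DefP.lt
        | apply DefP.eqFin | apply DefP.eq | apply DefP.rv | apply DefP.imp | apply DefP.allFin
        | apply DefP.exFin | apply DefP.all | apply DefP.ex | assumption
        | (apply Tm.comp; assumption) | apply Tm.pair | apply Tm.lam))
    · refine DefP.and ?_ (DefP.nEq (F := S) (H := fun n => Fin n × Fin n) ?_ ?_)
      all_goals (repeat' (first
          | apply DefP.nOne | apply DefP.nZero | apply DefP.nSucc | apply DefP.nAdd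
          | apply DefP.nLt | apply DefP.nLe | apply DefP.nEq | apply DefP.hlf | apply DefP.p1le
          | apply DefP.p1 | apply DefP.p0 | apply DefP.aug | apply DefP.pth | apply DefP.nx
          | apply DefP.cnd | apply DefP.hmin | apply DefP.hit | apply DefP.cdn
          | apply DefP.firstEx | apply DefP.exN | apply DefP.end_ | apply DefP.isZero
          | apply DefP.isSucc | apply DefP.alt | apply DefP.exr | apply DefP.exl
          | apply DefP.side | apply DefP.oddCard | apply DefP.cardEq | apply DefP.cardLt
          | apply DefP.cardLe | apply DefP.lst | apply DefP.fst | apply DefP.nxt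
          | apply DefP.keyLe | apply DefP.keyLt | apply DefP.rtc | (apply DefP.app4; assumption)
          | (apply DefP.app3'; assumption) | (apply DefP.app3; assumption)
          | (apply DefP.app2; assumption) | (apply DefP.comp; assumption) | exact Tm.id
          | exact Tm.unit | apply Tm.fst | apply Tm.snd | apply Tm.app | exact DefP.const _
          | apply DefP.and | apply DefP.not | apply DefP.or | apply DefP.iff | apply DefP.adj
          | apply DefP.le | apply DefP.lt | apply DefP.eqFin | apply DefP.eq | apply DefP.rv
          | apply DefP.imp | apply DefP.allFin | apply DefP.exFin | apply DefP.all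
          | apply DefP.ex | assumption | (apply Tm.comp; assumption) | apply Tm.pair
          | apply Tm.lam))
    · refine DefP.and ?_ (DefP.nEq (F := S) (H := fun n => Fin n × Fin n) ?_ ?_)
      all_goals (repeat' (first
          | apply DefP.nOne | apply DefP.nZero | apply DefP.nSucc | apply DefP.nAdd
          | apply DefP.nLt | apply DefP.nLe | apply DefP.nEq | apply DefP.hlf | apply DefP.p1le
          | apply DefP.p1 | apply DefP.p0 | apply DefP.aug | apply DefP.pth | apply DefP.nx
          | apply DefP.cnd | apply DefP.hmin | apply DefP.hit | apply DefP.cdn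
          | apply DefP.firstEx | apply DefP.exN | apply DefP.end_ | apply DefP.isZero
          | apply DefP.isSucc | apply DefP.alt | apply DefP.exr | apply DefP.exl
          | apply DefP.side | apply DefP.oddCard | apply DefP.cardEq | apply DefP.cardLt
          | apply DefP.cardLe | apply DefP.lst | apply DefP.fst | apply DefP.nxt
          | apply DefP.keyLe | apply DefP.keyLt | apply DefP.rtc | (apply DefP.app4; assumption)
          | (apply DefP.app3'; assumption) | (apply DefP.app3; assumption)
          | (apply DefP.app2; assumption) | (apply DefP.comp; assumption) | exact Tm.id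
          | exact Tm.unit | apply Tm.fst | apply Tm.snd | apply Tm.app | exact DefP.const _
          | apply DefP.and | apply DefP.not | apply DefP.or | apply DefP.iff | apply DefP.adj
          | apply DefP.le | apply DefP.lt | apply DefP.eqFin | apply DefP.eq | apply DefP.rv
          | apply DefP.imp | apply DefP.allFin | apply DefP.exFin | apply DefP.all
          | apply DefP.ex | assumption | (apply Tm.comp; assumption) | apply Tm.pair
          | apply Tm.lam))
    · exact hm''
    · (repeat' (first
        | apply DefP.nOne | apply DefP.nZero | apply DefP.nSucc | apply DefP.nAdd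
        | apply DefP.nLt | apply DefP.nLe | apply DefP.nEq | apply DefP.hlf | apply DefP.p1le
        | apply DefP.p1 | apply DefP.p0 | apply DefP.aug | apply DefP.pth | apply DefP.nx
        | apply DefP.cnd | apply DefP.hmin | apply DefP.hit | apply DefP.cdn
        | apply DefP.firstEx | apply DefP.exN | apply DefP.end_ | apply DefP.isZero
        | apply DefP.isSucc | apply DefP.alt | apply DefP.exr | apply DefP.exl | apply DefP.side
        | apply DefP.oddCard | apply DefP.cardEq | apply DefP.cardLt | apply DefP.cardLe
        | apply DefP.lst | apply DefP.fst | apply DefP.nxt | apply DefP.keyLe | apply DefP.keyLt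
        | apply DefP.rtc | (apply DefP.app4; assumption) | (apply DefP.app3'; assumption)
        | (apply DefP.app3; assumption) | (apply DefP.app2; assumption)
        | (apply DefP.comp; assumption) | exact Tm.id | exact Tm.unit | apply Tm.fst
        | apply Tm.snd | apply Tm.app | exact DefP.const _ | apply DefP.and | apply DefP.not
        | apply DefP.or | apply DefP.iff | apply DefP.adj | apply DefP.le | apply DefP.lt
        | apply DefP.eqFin | apply DefP.eq | apply DefP.rv | apply DefP.imp | apply DefP.allFin
        | apply DefP.exFin | apply DefP.all | apply DefP.ex | assumption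
        | (apply Tm.comp; assumption) | apply Tm.pair | apply Tm.lam))
    · (repeat' (first
        | apply DefP.nOne | apply DefP.nZero | apply DefP.nSucc | apply DefP.nAdd
        | apply DefP.nLt | apply DefP.nLe | apply DefP.nEq | apply DefP.hlf | apply DefP.p1le
        | apply DefP.p1 | apply DefP.p0 | apply DefP.aug | apply DefP.pth | apply DefP.nx
        | apply DefP.cnd | apply DefP.hmin | apply DefP.hit | apply DefP.cdn
        | apply DefP.firstEx | apply DefP.exN | apply DefP.end_ | apply DefP.isZero
        | apply DefP.isSucc | apply DefP.alt | apply DefP.exr | apply DefP.exl | apply DefP.side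
        | apply DefP.oddCard | apply DefP.cardEq | apply DefP.cardLt | apply DefP.cardLe
        | apply DefP.lst | apply DefP.fst | apply DefP.nxt | apply DefP.keyLe | apply DefP.keyLt
        | apply DefP.rtc | (apply DefP.app4; assumption) | (apply DefP.app3'; assumption)
        | (apply DefP.app3; assumption) | (apply DefP.app2; assumption)
        | (apply DefP.comp; assumption) | exact Tm.id | exact Tm.unit | apply Tm.fst
        | apply Tm.snd | apply Tm.app | exact DefP.const _ | apply DefP.and | apply DefP.not
        | apply DefP.or | apply DefP.iff | apply DefP.adj | apply DefP.le | apply DefP.lt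
        | apply DefP.eqFin | apply DefP.eq | apply DefP.rv | apply DefP.imp | apply DefP.allFin
        | apply DefP.exFin | apply DefP.all | apply DefP.ex | assumption
        | (apply Tm.comp; assumption) | apply Tm.pair | apply Tm.lam))
    · (repeat' (first
        | apply DefP.nOne | apply DefP.nZero | apply DefP.nSucc | apply DefP.nAdd
        | apply DefP.nLt | apply DefP.nLe | apply DefP.nEq | apply DefP.hlf | apply DefP.p1le
        | apply DefP.p1 | apply DefP.p0 | apply DefP.aug | apply DefP.pth | apply DefP.nx
        | apply DefP.cnd | apply DefP.hmin | apply DefP.hit | apply DefP.cdn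
        | apply DefP.firstEx | apply DefP.exN | apply DefP.end_ | apply DefP.isZero
        | apply DefP.isSucc | apply DefP.alt | apply DefP.exr | apply DefP.exl | apply DefP.side
        | apply DefP.oddCard | apply DefP.cardEq | apply DefP.cardLt | apply DefP.cardLe
        | apply DefP.lst | apply DefP.fst | apply DefP.nxt | apply DefP.keyLe | apply DefP.keyLt
        | apply DefP.rtc | (apply DefP.app4; assumption) | (apply DefP.app3'; assumption)
        | (apply DefP.app3; assumption) | (apply DefP.app2; assumption)
        | (apply DefP.comp; assumption) | exact Tm.id | exact Tm.unit | apply Tm.fst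
        | apply Tm.snd | apply Tm.app | exact DefP.const _ | apply DefP.and | apply DefP.not
        | apply DefP.or | apply DefP.iff | apply DefP.adj | apply DefP.le | apply DefP.lt
        | apply DefP.eqFin | apply DefP.eq | apply DefP.rv | apply DefP.imp | apply DefP.allFin
        | apply DefP.exFin | apply DefP.all | apply DefP.ex | assumption
        | (apply Tm.comp; assumption) | apply Tm.pair | apply Tm.lam))
    · (repeat' (first
        | apply DefP.nOne | apply DefP.nZero | apply DefP.nSucc | apply DefP.nAdd
        | apply DefP.nLt | apply DefP.nLe | apply DefP.nEq | apply DefP.hlf | apply DefP.p1le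
        | apply DefP.p1 | apply DefP.p0 | apply DefP.aug | apply DefP.pth | apply DefP.nx
        | apply DefP.cnd | apply DefP.hmin | apply DefP.hit | apply DefP.cdn
        | apply DefP.firstEx | apply DefP.exN | apply DefP.end_ | apply DefP.isZero
        | apply DefP.isSucc | apply DefP.alt | apply DefP.exr | apply DefP.exl | apply DefP.side
        | apply DefP.oddCard | apply DefP.cardEq | apply DefP.cardLt | apply DefP.cardLe
        | apply DefP.lst | apply DefP.fst | apply DefP.nxt | apply DefP.keyLe | apply DefP.keyLt
        | apply DefP.rtc | (apply DefP.app4; assumption) | (apply DefP.app3'; assumption)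
        | (apply DefP.app3; assumption) | (apply DefP.app2; assumption)
        | (apply DefP.comp; assumption) | exact Tm.id | exact Tm.unit | apply Tm.fst
        | apply Tm.snd | apply Tm.app | exact DefP.const _ | apply DefP.and | apply DefP.not
        | apply DefP.or | apply DefP.iff | apply DefP.adj | apply DefP.le | apply DefP.lt
        | apply DefP.eqFin | apply DefP.eq | apply DefP.rv | apply DefP.imp | apply DefP.allFin
        | apply DefP.exFin | apply DefP.all | apply DefP.ex | assumption
        | (apply Tm.comp; assumption) | apply Tm.pair | apply Tm.lam))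
  · intro n G X y
    have e2 : (¬ (nv (m n y.1) = 0) ∧ ¬ (nv (m n y.1) = 1)) ↔ 2 ≤ nv (m n y.1) := by omega
    rw [e2]
    unfold PMNC.wE
    by_cases h2 : 2 ≤ nv (m n y.1)
    · simp only [h2, true_and, not_true, false_and, or_false, if_true]
      have e3 : ∀ i : S n, ((y.2.1.1 < y.2.1.2 ∧
          nv i = nv (S := fun n => Fin n × Fin n) (y.2.1.1, y.2.1.2)) ∨
          (¬ (y.2.1.1 < y.2.1.2) ∧
          nv i = nv (S := fun n => Fin n × Fin n) (y.2.1.2, y.2.1.1))) ↔
          nv i = eid y.2.1.1 y.2.1.2 := by
        intro i
        unfold eid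
        by_cases h : y.2.1.1 < y.2.1.2 <;> simp [h]
      constructor
      · rintro ⟨i, h3, h4⟩
        rw [e3] at h3
        rw [pwR_iff h2, h3] at h4
        exact h4.symm
      · intro h3
        have hn : 0 < n := by have := y.2.1.1.2; omega
        obtain ⟨i, hi⟩ := nv_surj (S := S) (n := n) (m := eid y.2.1.1 y.2.1.2)
          (lt_of_lt_of_le (eid_lt _ _) (Nat.pow_le_pow_right hn hS))
        exact ⟨i, (e3 i).2 hi, (pwR_iff h2).2 (by rw [hi]; exact h3.symm)⟩
    · simp only [h2, false_and, not_false_eq_true, true_and, false_or, if_false]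
      exact eq_comm

end

end Pool.Agent.PMNC
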