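import Mathlib
import Pool.Agent.Lib.MP_0087d5_lc.WPow

set_option autoImplicit false
set_option linter.all false

/-!
# Integers modulo a number that is given by a tuple: sums and products are definable
-/

namespace Pool.Agent.PMNC

open Relation

section
variable {S F : ℕ → Type} [Env S] [Env F] {n : ℕ}

/-- `s` is the remainder of the integer `a` modulo `p` -/
def rsd (p s : S n) (a : ℤ) : Prop := nv s < nv p ∧ (nv p : ℤ) ∣ a - nv s

theorem rsd_ex {p : S n} (hp : 0 < nv p) (a : ℤ) : ∃ s, rsd p s a := by
  have h1 : 0 ≤ a % (nv p : ℤ) := Int.emod_nonneg _ (by omega)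
  have h2 : a % (nv p : ℤ) < nv p := Int.emod_lt_of_pos _ (by omega)
  obtain ⟨s, hs⟩ := nv_down (b := p) (m := (a % (nv p : ℤ)).toNat) (by omega)
  refine ⟨s, by omega, ?_⟩
  have h3 : ((nv s : ℕ) : ℤ) = a % (nv p : ℤ) := by rw [hs]; omega
  rw [h3]
  exact Int.dvd_self_sub_emod

theorem rsd_unique {p s t : S n} {a b : ℤ} (hs : rsd p s a) (ht : rsd p t b)
    (hab : (nv p : ℤ) ∣ a - b) : s = t := by
  have h1 : (nv p : ℤ) ∣ (nv s : ℤ) - nv t := by
    have := dvd_add (dvd_sub ht.2 hs.2) hab
    have e : b - nv t - (a - nv s) + (a - b) = (nv s : ℤ) - nv t := by ring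
    rwa [e] at this
  have h2 := hs.1
  have h3 := ht.1
  have h4 : (nv s : ℤ) - nv t = 0 := by
    apply Int.eq_zero_of_abs_lt_dvd h1
    rw [abs_lt]
    omega
  apply nv_injective
  omega

theorem rsd_congr {p s : S n} {a b : ℤ} (hab : (nv p : ℤ) ∣ a - b) : rsd p s a ↔ rsd p s b := by
  constructor
  · rintro ⟨h1, h2⟩
    refine ⟨h1, ?_⟩
    have := dvd_sub h2 hab
    have e : a - nv s - (a - b) = b - nv s := by ring
    rwa [e] at this
  · rintro ⟨h1, h2⟩
    refine ⟨h1, ?_⟩
    have := dvd_add h2 hab
    have e : b - nv s + (a - b) = a - nv s := by ring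
    rwa [e] at this

theorem rsd_iff {p s t : S n} {a b : ℤ} (hs : rsd p s a) (hab : (nv p : ℤ) ∣ a - b) :
    rsd p t b ↔ t = s := by
  constructor
  · intro h
    exact (rsd_unique hs h hab).symm
  · rintro rfl
    exact (rsd_congr hab).1 hs

/-- addition modulo `p` -/
def amod (p a b c : S n) : Prop :=
  nv c < nv p ∧ (nv a + nv b = nv c ∨ ∃ d : S n, nv b + nv d = nv p ∧ nv c + nv d = nv a)

theorem amod_iff {p a b c : S n} {x y : ℤ} (ha : rsd p a x) (hb : rsd p b y) :
    amod p a b c ↔ rsd p c (x + y) := by
  have hx := ha.1
  have hy := hb.1
  have key : ∀ c : S n, amod p a b c → rsd p c (x + y) := by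
    rintro c ⟨h1, h2⟩
    refine ⟨h1, ?_⟩
    have h3 := dvd_add ha.2 hb.2
    rcases h2 with h2 | ⟨d, h2, h4⟩
    · have e : x - nv a + (y - nv b) = x + y - nv c := by
        have : (nv c : ℤ) = nv a + nv b := by exact_mod_cast h2.symm
        rw [this]; ring
      rwa [e] at h3
    · have h5 := dvd_sub h3 (dvd_refl (nv p : ℤ)).neg_right
      have e : x - nv a + (y - nv b) - -(nv p : ℤ) = x + y - nv c := by
        have h6 : (nv p : ℤ) = nv b + nv d := by exact_mod_cast h2.symm
        have h7 : (nv a : ℤ) = nv c + nv d := by exact_mod_cast h4.symm
        rw [h6, h7]; ring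
      rwa [e] at h5
  refine ⟨key c, fun h => ?_⟩
  have hex : ∃ c' : S n, amod p a b c' := by
    rcases Nat.lt_or_ge (nv a + nv b) (nv p) with h1 | h1
    · obtain ⟨c', hc'⟩ := nv_down (b := p) h1
      exact ⟨c', by omega, Or.inl hc'.symm⟩
    · obtain ⟨d, hd⟩ := nv_down' (b := p) (m := nv p - nv b) (by omega)
      obtain ⟨c', hc'⟩ := nv_down (b := p) (m := nv a + nv b - nv p) (by omega)
      exact ⟨c', by omega, Or.inr ⟨d, by omega, by omega⟩⟩
  obtain ⟨c', hc'⟩ := hex
  have := rsd_unique (key c' hc') h (by simp)
  rwa [← this]

/-- one step of a fold -/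
def fdS (o : S n → S n → S n → Prop) (r : F n → S n → Prop) (u v : F n × S n) : Prop :=
  nv v.1 = nv u.1 + 1 ∧ ∃ b, r u.1 b ∧ o u.2 b v.2

/-- a fold over all tuples -/
def fdR (init : S n → Prop) (o : S n → S n → S n → Prop) (r : F n → S n → Prop) (s : S n) : Prop :=
  ∃ z l : F n, ∃ i a b : S n, nv z = 0 ∧ init i ∧ (∀ t : F n, nv t ≤ nv l) ∧
    ReflTransGen (fdS o r) (z, i) (l, a) ∧ r l b ∧ o a b s

theorem fdR_iff {p s : S n} {init : S n → Prop} {o : S n → S n → S n → Prop} {r : F n → S n → Prop}
    (g : ℕ → ℤ) (φ : F n → ℤ) (op : ℤ → ℤ → ℤ) (hp : 0 < nv p) (hF : Nonempty (F n))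
    (hg : ∀ t : F n, g (nv t + 1) = op (g (nv t)) (φ t)) (hr : ∀ t s, r t s ↔ rsd p s (φ t))
    (ho : ∀ a b c x y, rsd p a x → rsd p b y → (o a b c ↔ rsd p c (op x y)))
    (hi : ∀ s, init s ↔ rsd p s (g 0)) : fdR init o r s ↔ rsd p s (g (n ^ dim F)) := by
  have hz : ∃ z : F n, nv z = 0 := by
    obtain ⟨t⟩ := hF
    exact nv_down' (b := t) (Nat.zero_le _)
  have h1 : ∀ (z : F n) (i : S n), nv z = 0 → init i → ∀ (u : F n × S n),
      ReflTransGen (fdS o r) (z, i) u → rsd p u.2 (g (nv u.1)) := by
    intro z i hz hi' u h
    induction h with
    | refl =>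
      rw [hz]
      exact (hi _).1 hi'
    | @tail u v _ h ih =>
      obtain ⟨h2, b, h3, h4⟩ := h
      rw [h2, hg]
      exact (ho _ _ _ _ _ ih ((hr _ _).1 h3)).1 h4
  have h2 : ∀ (z : F n) (i : S n), nv z = 0 → init i → ∀ (k : ℕ) (t : F n), nv t = k →
      ∀ a, rsd p a (g k) → ReflTransGen (fdS o r) (z, i) (t, a) := by
    intro z i hz hi' k
    induction k with
    | zero =>
      intro t ht a ha
      have e1 : t = z := nv_injective (ht.trans hz.symm)
      have e2 : a = i := rsd_unique ha ((hi _).1 hi') (by simp)
      rw [e1, e2]
    | succ k ih =>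
      intro t ht a ha
      obtain ⟨t', ht'⟩ := nv_down (b := t) (m := k) (by omega)
      obtain ⟨a', ha'⟩ := rsd_ex hp (g k)
      obtain ⟨b, hb⟩ := rsd_ex hp (φ t')
      refine (ih t' ht' a' ha').tail ⟨by simp only; omega, b, (hr _ _).2 hb, ?_⟩
      rw [ho _ _ _ _ _ ha' hb]
      have := hg t'
      rw [ht'] at this
      rw [← this]
      exact ha
  have hl : ∃ l : F n, nv l = n ^ dim F - 1 := by
    obtain ⟨t⟩ := hF
    have := nv_lt t
    exact nv_surj (by omega)
  have hl2 : ∀ l : F n, (∀ t : F n, nv t ≤ nv l) ↔ nv l + 1 = n ^ dim F := by
    intro l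
    constructor
    · intro h
      obtain ⟨l', hl'⟩ := hl
      have h3 := h l'
      have h4 := nv_lt l
      omega
    · intro h t
      have := nv_lt t
      omega
  constructor
  · rintro ⟨z, l, i, a, b, h3, h4, h5, h6, h7, h8⟩
    have h9 := h1 z i h3 h4 _ h6
    rw [← (hl2 l).1 h5, hg]
    exact (ho _ _ _ _ _ h9 ((hr _ _).1 h7)).1 h8
  · intro h
    obtain ⟨z, hz⟩ := hz
    obtain ⟨l, hl⟩ := hl
    obtain ⟨i, hi'⟩ := rsd_ex hp (g 0)
    obtain ⟨a, ha⟩ := rsd_ex hp (g (nv l))
    obtain ⟨b, hb⟩ := rsd_ex hp (φ l)
    have hN : nv l + 1 = n ^ dim F := by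
      have := nv_lt l
      omega
    refine ⟨z, l, i, a, b, hz, (hi _).2 hi', (hl2 l).2 hN, h2 z i hz ((hi _).2 hi') _ l rfl a ha,
      (hr _ _).2 hb, ?_⟩
    rw [ho _ _ _ _ _ ha hb, ← hg, hN]
    exact h

theorem pos_of_nv {p : S n} (hp : 0 < nv p) : 0 < n := by
  by_contra hc
  have hn : n = 0 := by omega
  subst hn
  have := nv_lt p
  rcases Nat.eq_zero_or_pos (dim S) with h | h
  · rw [h] at this
    omega
  · rw [Nat.zero_pow h] at this
    omega

theorem nonempty_env (hn : 0 < n) : Nonempty (F n) := ⟨(vec n).symm fun _ => ⟨0, hn⟩⟩

theorem sum_lt_succ [Fintype (F n)] {M : Type*} [AddCommMonoid M] (φ : F n → M) (t : F n) :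
    ∑ u ∈ Finset.univ.filter (fun u => nv u < nv t + 1), φ u =
      ∑ u ∈ Finset.univ.filter (fun u => nv u < nv t), φ u + φ t := by
  classical
  have : Finset.univ.filter (fun u : F n => nv u < nv t + 1) =
      insert t (Finset.univ.filter (fun u => nv u < nv t)) := by
    ext u
    simp only [Finset.mem_filter, Finset.mem_univ, true_and, Finset.mem_insert]
    constructor
    · intro h
      by_cases h2 : nv u = nv t
      · exact Or.inl (nv_injective h2)
      · right; omega
    · rintro (h | h)
      · rw [h]; omega
      · omega
  rw [this, Finset.sum_insert (by simp), add_comm]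

theorem prod_lt_succ [Fintype (F n)] {M : Type*} [CommMonoid M] (φ : F n → M) (t : F n) :
    ∏ u ∈ Finset.univ.filter (fun u => nv u < nv t + 1), φ u =
      (∏ u ∈ Finset.univ.filter (fun u => nv u < nv t), φ u) * φ t := by
  classical
  have : Finset.univ.filter (fun u : F n => nv u < nv t + 1) =
      insert t (Finset.univ.filter (fun u => nv u < nv t)) := by
    ext u
    simp only [Finset.mem_filter, Finset.mem_univ, true_and, Finset.mem_insert]
    constructor
    · intro h
      by_cases h2 : nv u = nv t
      · exact Or.inl (nv_injective h2)
      · right; omega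
    · rintro (h | h)
      · rw [h]; omega
      · omega
  rw [this, Finset.prod_insert (by simp), mul_comm]

theorem filter_all [Fintype (F n)] :
    Finset.univ.filter (fun u : F n => nv u < n ^ dim F) = Finset.univ :=
  Finset.filter_true_of_mem fun u _ => nv_lt u

theorem filter_none [Fintype (F n)] :
    Finset.univ.filter (fun u : F n => nv u < 0) = ∅ := by
  ext u
  simp

theorem card_nv_lt [Fintype (F n)] (t : F n) :
    (Finset.univ.filter (fun u : F n => nv u < nv t)).card = nv t := by
  have h : ∀ k, k ≤ nv t → (Finset.univ.filter (fun u : F n => nv u < k)).card = k := by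
    intro k
    induction k with
    | zero => intro _; simp
    | succ k ih =>
      intro hk
      obtain ⟨u, hu⟩ := nv_down (b := t) (m := k) (by omega)
      have := sum_lt_succ (fun _ : F n => 1) u
      rw [Finset.sum_const, Finset.sum_const] at this
      simp only [smul_eq_mul, mul_one] at this
      rw [hu] at this
      rw [this, ih (by omega)]
  exact h _ le_rfl

/-- conditional value -/
noncomputable def cnd (P : Prop) (a b : ℤ) : ℤ := by
  classical
  exact if P then a else b

theorem cnd_pos {P : Prop} (h : P) (a b : ℤ) : cnd P a b = a := if_pos h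

theorem cnd_neg {P : Prop} (h : ¬ P) (a b : ℤ) : cnd P a b = b := if_neg h

end

section def_
variable {E S F H : ℕ → Type} [Env E] [Env S] [Env F] [Env H]

/-- the residues modulo `p` of the values of `φ` are definable -/
def DefZ (p : ∀ n : ℕ, E n → S n) (φ : ∀ n : ℕ, SimpleGraph (Fin n) → Ctx n → E n → ℤ) : Prop :=
  DefP (E := fun n => E n × S n) (fun n G X y => rsd (p n y.1) y.2 (φ n G X y.1))

theorem DefZ.congr {p : ∀ n : ℕ, E n → S n} {φ ψ : ∀ n : ℕ, SimpleGraph (Fin n) → Ctx n → E n → ℤ}
    (h : DefZ p φ) (he : ∀ n G X x, φ n G X x = ψ n G X x) : DefZ p ψ :=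
  DefP.congr (E := fun n => E n × S n) h fun n G X y => by rw [he]

theorem DefZ.comp {p : ∀ n : ℕ, F n → S n} {φ : ∀ n : ℕ, SimpleGraph (Fin n) → Ctx n → F n → ℤ}
    (h : DefZ p φ) {f : ∀ n : ℕ, E n → F n} (hf : Tm f) :
    DefZ (fun n x => p n (f n x)) (fun n G X x => φ n G X (f n x)) := by
  unfold DefZ at h ⊢
  exact DefP.comp (F := fun n => F n × S n) (f := fun n (y : E n × S n) => (f n y.1, y.2)) h
    (Tm.pair (hf.comp (Tm.fst Tm.id)) (Tm.snd Tm.id))

theorem DefP.amod {p a b c : ∀ n : ℕ, E n → S n} (hp : Tm p) (ha : Tm a) (hb : Tm b) (hc : Tm c) :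
    DefP (fun n G X x => PMNC.amod (p n x) (a n x) (b n x) (c n x)) := by
  have key : DefP (E := fun n => S n × (S n × (S n × S n)))
      (fun n G X y => PMNC.amod y.1 y.2.1 y.2.2.1 y.2.2.2) := by
    unfold PMNC.amod
    refine DefP.and ?_ (DefP.or ?_ (DefP.ex (DefP.and ?_ ?_)))
    all_goals (repeat' (first
        | apply DefP.nOne | apply DefP.nZero | apply DefP.nSucc | apply DefP.nAdd
        | apply DefP.nLt | apply DefP.nLe | apply DefP.nEq | apply DefP.hlf | apply DefP.p1le
        | apply DefP.p1 | apply DefP.p0 | apply DefP.aug | apply DefP.pth | apply DefP.nx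
        | apply DefP.cnd | apply DefP.hmin | apply DefP.hit | apply DefP.cdn
        | apply DefP.firstEx | apply DefP.exN | apply DefP.end_ | apply DefP.isZero
        | apply DefP.isSucc | apply DefP.alt | apply DefP.exr | apply DefP.exl | apply DefP.side
        | apply DefP.oddCard | apply DefP.cardEq | apply DefP.cardLt | apply DefP.cardLe
        | apply DefP.lst | apply DefP.fst | apply DefP.nxt | apply DefP.keyLe | apply DefP.keyLt
        | apply DefP.rtc | (apply DefP.app4; assumption) | (apply DefP.app3'; assumption)
        | (apply DefP.app3; assumption) | (apply DefP.app2; assumption)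
        | (apply DefP.comp; assumption) | exact Tm.id | exact Tm.unit | apply Tm.fst
        | apply Tm.snd | apply Tm.app | exact DefP.const _ | apply DefP.and | apply DefP.not
        | apply DefP.or | apply DefP.iff | apply DefP.adj | apply DefP.le | apply DefP.lt
        | apply DefP.eqFin | apply DefP.eq | apply DefP.rv | apply DefP.imp | apply DefP.allFin
        | apply DefP.exFin | apply DefP.all | apply DefP.ex | assumption
        | (apply Tm.comp; assumption) | apply Tm.pair | apply Tm.lam))
  exact DefP.app4 (P := fun n G X a b c d => PMNC.amod a b c d) key hp ha hb hc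

theorem DefP.fdR {init : ∀ n : ℕ, SimpleGraph (Fin n) → Ctx n → E n → S n → Prop}
    {o : ∀ n : ℕ, SimpleGraph (Fin n) → Ctx n → E n → S n → S n → S n → Prop}
    {r : ∀ n : ℕ, SimpleGraph (Fin n) → Ctx n → E n → F n → S n → Prop}
    (hi : DefP (E := fun n => E n × S n) (fun n G X y => init n G X y.1 y.2))
    (ho : DefP (E := fun n => E n × (S n × (S n × S n)))
      (fun n G X y => o n G X y.1 y.2.1 y.2.2.1 y.2.2.2))
    (hr : DefP (E := fun n => E n × (F n × S n)) (fun n G X y => r n G X y.1 y.2.1 y.2.2)) :
    DefP (E := fun n => E n × S n)
      (fun n G X y => PMNC.fdR (init n G X y.1) (o n G X y.1) (r n G X y.1) y.2) := by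
  unfold PMNC.fdR fdS
  refine DefP.ex (DefP.ex (DefP.ex (DefP.ex (DefP.ex ?_))))
  refine DefP.and ?_ (DefP.and ?_ (DefP.and ?_ (DefP.and (DefP.rtc ?_ ?_ ?_) (DefP.and ?_ ?_))))
  · (repeat' (first
      | apply DefP.nOne | apply DefP.nZero | apply DefP.nSucc | apply DefP.nAdd | apply DefP.nLt
      | apply DefP.nLe | apply DefP.nEq | apply DefP.hlf | apply DefP.p1le | apply DefP.p1
      | apply DefP.p0 | apply DefP.aug | apply DefP.pth | apply DefP.nx | apply DefP.cnd
      | apply DefP.hmin | apply DefP.hit | apply DefP.cdn | apply DefP.firstEx | apply DefP.exN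
      | apply DefP.end_ | apply DefP.isZero | apply DefP.isSucc | apply DefP.alt
      | apply DefP.exr | apply DefP.exl | apply DefP.side | apply DefP.oddCard
      | apply DefP.cardEq | apply DefP.cardLt | apply DefP.cardLe | apply DefP.lst
      | apply DefP.fst | apply DefP.nxt | apply DefP.keyLe | apply DefP.keyLt | apply DefP.rtc
      | (apply DefP.app4; assumption) | (apply DefP.app3'; assumption)
      | (apply DefP.app3; assumption) | (apply DefP.app2; assumption)
      | (apply DefP.comp; assumption) | exact Tm.id | exact Tm.unit | apply Tm.fst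
      | apply Tm.snd | apply Tm.app | exact DefP.const _ | apply DefP.and | apply DefP.not
      | apply DefP.or | apply DefP.iff | apply DefP.adj | apply DefP.le | apply DefP.lt
      | apply DefP.eqFin | apply DefP.eq | apply DefP.rv | apply DefP.imp | apply DefP.allFin
      | apply DefP.exFin | apply DefP.all | apply DefP.ex | assumption
      | (apply Tm.comp; assumption) | apply Tm.pair | apply Tm.lam))
  · exact DefP.app2 (P := fun n G X x s => init n G X x s) hi (by (repeat' (first
      | apply DefP.nOne | apply DefP.nZero | apply DefP.nSucc | apply DefP.nAdd | apply DefP.nLt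
      | apply DefP.nLe | apply DefP.nEq | apply DefP.hlf | apply DefP.p1le | apply DefP.p1
      | apply DefP.p0 | apply DefP.aug | apply DefP.pth | apply DefP.nx | apply DefP.cnd
      | apply DefP.hmin | apply DefP.hit | apply DefP.cdn | apply DefP.firstEx | apply DefP.exN
      | apply DefP.end_ | apply DefP.isZero | apply DefP.isSucc | apply DefP.alt
      | apply DefP.exr | apply DefP.exl | apply DefP.side | apply DefP.oddCard
      | apply DefP.cardEq | apply DefP.cardLt | apply DefP.cardLe | apply DefP.lst
      | apply DefP.fst | apply DefP.nxt | apply DefP.keyLe | apply DefP.keyLt | apply DefP.rtc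
      | (apply DefP.app4; assumption) | (apply DefP.app3'; assumption)
      | (apply DefP.app3; assumption) | (apply DefP.app2; assumption)
      | (apply DefP.comp; assumption) | exact Tm.id | exact Tm.unit | apply Tm.fst
      | apply Tm.snd | apply Tm.app | exact DefP.const _ | apply DefP.and | apply DefP.not
      | apply DefP.or | apply DefP.iff | apply DefP.adj | apply DefP.le | apply DefP.lt
      | apply DefP.eqFin | apply DefP.eq | apply DefP.rv | apply DefP.imp | apply DefP.allFin
      | apply DefP.exFin | apply DefP.all | apply DefP.ex | assumption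
      | (apply Tm.comp; assumption) | apply Tm.pair | apply Tm.lam))) (by (repeat' (first
      | apply DefP.nOne | apply DefP.nZero | apply DefP.nSucc | apply DefP.nAdd | apply DefP.nLt
      | apply DefP.nLe | apply DefP.nEq | apply DefP.hlf | apply DefP.p1le | apply DefP.p1
      | apply DefP.p0 | apply DefP.aug | apply DefP.pth | apply DefP.nx | apply DefP.cnd
      | apply DefP.hmin | apply DefP.hit | apply DefP.cdn | apply DefP.firstEx | apply DefP.exN
      | apply DefP.end_ | apply DefP.isZero | apply DefP.isSucc | apply DefP.alt
      | apply DefP.exr | apply DefP.exl | apply DefP.side | apply DefP.oddCard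
      | apply DefP.cardEq | apply DefP.cardLt | apply DefP.cardLe | apply DefP.lst
      | apply DefP.fst | apply DefP.nxt | apply DefP.keyLe | apply DefP.keyLt | apply DefP.rtc
      | (apply DefP.app4; assumption) | (apply DefP.app3'; assumption)
      | (apply DefP.app3; assumption) | (apply DefP.app2; assumption)
      | (apply DefP.comp; assumption) | exact Tm.id | exact Tm.unit | apply Tm.fst
      | apply Tm.snd | apply Tm.app | exact DefP.const _ | apply DefP.and | apply DefP.not
      | apply DefP.or | apply DefP.iff | apply DefP.adj | apply DefP.le | apply DefP.lt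
      | apply DefP.eqFin | apply DefP.eq | apply DefP.rv | apply DefP.imp | apply DefP.allFin
      | apply DefP.exFin | apply DefP.all | apply DefP.ex | assumption
      | (apply Tm.comp; assumption) | apply Tm.pair | apply Tm.lam)))
  · (repeat' (first
      | apply DefP.nOne | apply DefP.nZero | apply DefP.nSucc | apply DefP.nAdd | apply DefP.nLt
      | apply DefP.nLe | apply DefP.nEq | apply DefP.hlf | apply DefP.p1le | apply DefP.p1
      | apply DefP.p0 | apply DefP.aug | apply DefP.pth | apply DefP.nx | apply DefP.cnd
      | apply DefP.hmin | apply DefP.hit | apply DefP.cdn | apply DefP.firstEx | apply DefP.exN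
      | apply DefP.end_ | apply DefP.isZero | apply DefP.isSucc | apply DefP.alt
      | apply DefP.exr | apply DefP.exl | apply DefP.side | apply DefP.oddCard
      | apply DefP.cardEq | apply DefP.cardLt | apply DefP.cardLe | apply DefP.lst
      | apply DefP.fst | apply DefP.nxt | apply DefP.keyLe | apply DefP.keyLt | apply DefP.rtc
      | (apply DefP.app4; assumption) | (apply DefP.app3'; assumption)
      | (apply DefP.app3; assumption) | (apply DefP.app2; assumption)
      | (apply DefP.comp; assumption) | exact Tm.id | exact Tm.unit | apply Tm.fst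
      | apply Tm.snd | apply Tm.app | exact DefP.const _ | apply DefP.and | apply DefP.not
      | apply DefP.or | apply DefP.iff | apply DefP.adj | apply DefP.le | apply DefP.lt
      | apply DefP.eqFin | apply DefP.eq | apply DefP.rv | apply DefP.imp | apply DefP.allFin
      | apply DefP.exFin | apply DefP.all | apply DefP.ex | assumption
      | (apply Tm.comp; assumption) | apply Tm.pair | apply Tm.lam))
  · refine DefP.and ?_ (DefP.ex (DefP.and ?_ ?_))
    · (repeat' (first
        | apply DefP.nOne | apply DefP.nZero | apply DefP.nSucc | apply DefP.nAdd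
        | apply DefP.nLt | apply DefP.nLe | apply DefP.nEq | apply DefP.hlf | apply DefP.p1le
        | apply DefP.p1 | apply DefP.p0 | apply DefP.aug | apply DefP.pth | apply DefP.nx
        | apply DefP.cnd | apply DefP.hmin | apply DefP.hit | apply DefP.cdn
        | apply DefP.firstEx | apply DefP.exN | apply DefP.end_ | apply DefP.isZero
        | apply DefP.isSucc | apply DefP.alt | apply DefP.exr | apply DefP.exl | apply DefP.side
        | apply DefP.oddCard | apply DefP.cardEq | apply DefP.cardLt | apply DefP.cardLe
        | apply DefP.lst | apply DefP.fst | apply DefP.nxt | apply DefP.keyLe | apply DefP.keyLt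
        | apply DefP.rtc | (apply DefP.app4; assumption) | (apply DefP.app3'; assumption)
        | (apply DefP.app3; assumption) | (apply DefP.app2; assumption)
        | (apply DefP.comp; assumption) | exact Tm.id | exact Tm.unit | apply Tm.fst
        | apply Tm.snd | apply Tm.app | exact DefP.const _ | apply DefP.and | apply DefP.not
        | apply DefP.or | apply DefP.iff | apply DefP.adj | apply DefP.le | apply DefP.lt
        | apply DefP.eqFin | apply DefP.eq | apply DefP.rv | apply DefP.imp | apply DefP.allFin
        | apply DefP.exFin | apply DefP.all | apply DefP.ex | assumption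
        | (apply Tm.comp; assumption) | apply Tm.pair | apply Tm.lam))
    · exact DefP.app3 (P := fun n G X x t s => r n G X x t s) hr (by (repeat' (first
        | apply DefP.nOne | apply DefP.nZero | apply DefP.nSucc | apply DefP.nAdd
        | apply DefP.nLt | apply DefP.nLe | apply DefP.nEq | apply DefP.hlf | apply DefP.p1le
        | apply DefP.p1 | apply DefP.p0 | apply DefP.aug | apply DefP.pth | apply DefP.nx
        | apply DefP.cnd | apply DefP.hmin | apply DefP.hit | apply DefP.cdn
        | apply DefP.firstEx | apply DefP.exN | apply DefP.end_ | apply DefP.isZero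
        | apply DefP.isSucc | apply DefP.alt | apply DefP.exr | apply DefP.exl | apply DefP.side
        | apply DefP.oddCard | apply DefP.cardEq | apply DefP.cardLt | apply DefP.cardLe
        | apply DefP.lst | apply DefP.fst | apply DefP.nxt | apply DefP.keyLe | apply DefP.keyLt
        | apply DefP.rtc | (apply DefP.app4; assumption) | (apply DefP.app3'; assumption)
        | (apply DefP.app3; assumption) | (apply DefP.app2; assumption)
        | (apply DefP.comp; assumption) | exact Tm.id | exact Tm.unit | apply Tm.fst
        | apply Tm.snd | apply Tm.app | exact DefP.const _ | apply DefP.and | apply DefP.not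
        | apply DefP.or | apply DefP.iff | apply DefP.adj | apply DefP.le | apply DefP.lt
        | apply DefP.eqFin | apply DefP.eq | apply DefP.rv | apply DefP.imp | apply DefP.allFin
        | apply DefP.exFin | apply DefP.all | apply DefP.ex | assumption
        | (apply Tm.comp; assumption) | apply Tm.pair | apply Tm.lam))) (by (repeat' (first
        | apply DefP.nOne | apply DefP.nZero | apply DefP.nSucc | apply DefP.nAdd
        | apply DefP.nLt | apply DefP.nLe | apply DefP.nEq | apply DefP.hlf | apply DefP.p1le
        | apply DefP.p1 | apply DefP.p0 | apply DefP.aug | apply DefP.pth | apply DefP.nx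
        | apply DefP.cnd | apply DefP.hmin | apply DefP.hit | apply DefP.cdn
        | apply DefP.firstEx | apply DefP.exN | apply DefP.end_ | apply DefP.isZero
        | apply DefP.isSucc | apply DefP.alt | apply DefP.exr | apply DefP.exl | apply DefP.side
        | apply DefP.oddCard | apply DefP.cardEq | apply DefP.cardLt | apply DefP.cardLe
        | apply DefP.lst | apply DefP.fst | apply DefP.nxt | apply DefP.keyLe | apply DefP.keyLt
        | apply DefP.rtc | (apply DefP.app4; assumption) | (apply DefP.app3'; assumption)
        | (apply DefP.app3; assumption) | (apply DefP.app2; assumption)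
        | (apply DefP.comp; assumption) | exact Tm.id | exact Tm.unit | apply Tm.fst
        | apply Tm.snd | apply Tm.app | exact DefP.const _ | apply DefP.and | apply DefP.not
        | apply DefP.or | apply DefP.iff | apply DefP.adj | apply DefP.le | apply DefP.lt
        | apply DefP.eqFin | apply DefP.eq | apply DefP.rv | apply DefP.imp | apply DefP.allFin
        | apply DefP.exFin | apply DefP.all | apply DefP.ex | assumption
        | (apply Tm.comp; assumption) | apply Tm.pair | apply Tm.lam))) (by (repeat' (first
        | apply DefP.nOne | apply DefP.nZero | apply DefP.nSucc | apply DefP.nAdd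
        | apply DefP.nLt | apply DefP.nLe | apply DefP.nEq | apply DefP.hlf | apply DefP.p1le
        | apply DefP.p1 | apply DefP.p0 | apply DefP.aug | apply DefP.pth | apply DefP.nx
        | apply DefP.cnd | apply DefP.hmin | apply DefP.hit | apply DefP.cdn
        | apply DefP.firstEx | apply DefP.exN | apply DefP.end_ | apply DefP.isZero
        | apply DefP.isSucc | apply DefP.alt | apply DefP.exr | apply DefP.exl | apply DefP.side
        | apply DefP.oddCard | apply DefP.cardEq | apply DefP.cardLt | apply DefP.cardLe
        | apply DefP.lst | apply DefP.fst | apply DefP.nxt | apply DefP.keyLe | apply DefP.keyLt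
        | apply DefP.rtc | (apply DefP.app4; assumption) | (apply DefP.app3'; assumption)
        | (apply DefP.app3; assumption) | (apply DefP.app2; assumption)
        | (apply DefP.comp; assumption) | exact Tm.id | exact Tm.unit | apply Tm.fst
        | apply Tm.snd | apply Tm.app | exact DefP.const _ | apply DefP.and | apply DefP.not
        | apply DefP.or | apply DefP.iff | apply DefP.adj | apply DefP.le | apply DefP.lt
        | apply DefP.eqFin | apply DefP.eq | apply DefP.rv | apply DefP.imp | apply DefP.allFin
        | apply DefP.exFin | apply DefP.all | apply DefP.ex | assumption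
        | (apply Tm.comp; assumption) | apply Tm.pair | apply Tm.lam)))
    · exact DefP.app4 (P := fun n G X x a b c => o n G X x a b c) ho (by (repeat' (first
        | apply DefP.nOne | apply DefP.nZero | apply DefP.nSucc | apply DefP.nAdd
        | apply DefP.nLt | apply DefP.nLe | apply DefP.nEq | apply DefP.hlf | apply DefP.p1le
        | apply DefP.p1 | apply DefP.p0 | apply DefP.aug | apply DefP.pth | apply DefP.nx
        | apply DefP.cnd | apply DefP.hmin | apply DefP.hit | apply DefP.cdn
        | apply DefP.firstEx | apply DefP.exN | apply DefP.end_ | apply DefP.isZero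
        | apply DefP.isSucc | apply DefP.alt | apply DefP.exr | apply DefP.exl | apply DefP.side
        | apply DefP.oddCard | apply DefP.cardEq | apply DefP.cardLt | apply DefP.cardLe
        | apply DefP.lst | apply DefP.fst | apply DefP.nxt | apply DefP.keyLe | apply DefP.keyLt
        | apply DefP.rtc | (apply DefP.app4; assumption) | (apply DefP.app3'; assumption)
        | (apply DefP.app3; assumption) | (apply DefP.app2; assumption)
        | (apply DefP.comp; assumption) | exact Tm.id | exact Tm.unit | apply Tm.fst
        | apply Tm.snd | apply Tm.app | exact DefP.const _ | apply DefP.and | apply DefP.not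
        | apply DefP.or | apply DefP.iff | apply DefP.adj | apply DefP.le | apply DefP.lt
        | apply DefP.eqFin | apply DefP.eq | apply DefP.rv | apply DefP.imp | apply DefP.allFin
        | apply DefP.exFin | apply DefP.all | apply DefP.ex | assumption
        | (apply Tm.comp; assumption) | apply Tm.pair | apply Tm.lam))) (by (repeat' (first
        | apply DefP.nOne | apply DefP.nZero | apply DefP.nSucc | apply DefP.nAdd
        | apply DefP.nLt | apply DefP.nLe | apply DefP.nEq | apply DefP.hlf | apply DefP.p1le
        | apply DefP.p1 | apply DefP.p0 | apply DefP.aug | apply DefP.pth | apply DefP.nx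
        | apply DefP.cnd | apply DefP.hmin | apply DefP.hit | apply DefP.cdn
        | apply DefP.firstEx | apply DefP.exN | apply DefP.end_ | apply DefP.isZero
        | apply DefP.isSucc | apply DefP.alt | apply DefP.exr | apply DefP.exl | apply DefP.side
        | apply DefP.oddCard | apply DefP.cardEq | apply DefP.cardLt | apply DefP.cardLe
        | apply DefP.lst | apply DefP.fst | apply DefP.nxt | apply DefP.keyLe | apply DefP.keyLt
        | apply DefP.rtc | (apply DefP.app4; assumption) | (apply DefP.app3'; assumption)
        | (apply DefP.app3; assumption) | (apply DefP.app2; assumption)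
        | (apply DefP.comp; assumption) | exact Tm.id | exact Tm.unit | apply Tm.fst
        | apply Tm.snd | apply Tm.app | exact DefP.const _ | apply DefP.and | apply DefP.not
        | apply DefP.or | apply DefP.iff | apply DefP.adj | apply DefP.le | apply DefP.lt
        | apply DefP.eqFin | apply DefP.eq | apply DefP.rv | apply DefP.imp | apply DefP.allFin
        | apply DefP.exFin | apply DefP.all | apply DefP.ex | assumption
        | (apply Tm.comp; assumption) | apply Tm.pair | apply Tm.lam)))
        (by (repeat' (first
            | apply DefP.nOne | apply DefP.nZero | apply DefP.nSucc | apply DefP.nAdd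
            | apply DefP.nLt | apply DefP.nLe | apply DefP.nEq | apply DefP.hlf
            | apply DefP.p1le | apply DefP.p1 | apply DefP.p0 | apply DefP.aug | apply DefP.pth
            | apply DefP.nx | apply DefP.cnd | apply DefP.hmin | apply DefP.hit | apply DefP.cdn
            | apply DefP.firstEx | apply DefP.exN | apply DefP.end_ | apply DefP.isZero
            | apply DefP.isSucc | apply DefP.alt | apply DefP.exr | apply DefP.exl
            | apply DefP.side | apply DefP.oddCard | apply DefP.cardEq | apply DefP.cardLt
            | apply DefP.cardLe | apply DefP.lst | apply DefP.fst | apply DefP.nxt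
            | apply DefP.keyLe | apply DefP.keyLt | apply DefP.rtc
            | (apply DefP.app4; assumption) | (apply DefP.app3'; assumption)
            | (apply DefP.app3; assumption) | (apply DefP.app2; assumption)
            | (apply DefP.comp; assumption) | exact Tm.id | exact Tm.unit | apply Tm.fst
            | apply Tm.snd | apply Tm.app | exact DefP.const _ | apply DefP.and | apply DefP.not
            | apply DefP.or | apply DefP.iff | apply DefP.adj | apply DefP.le | apply DefP.lt
            | apply DefP.eqFin | apply DefP.eq | apply DefP.rv | apply DefP.imp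
            | apply DefP.allFin | apply DefP.exFin | apply DefP.all | apply DefP.ex | assumption
            | (apply Tm.comp; assumption) | apply Tm.pair | apply Tm.lam))) (by (repeat' (first
            | apply DefP.nOne | apply DefP.nZero | apply DefP.nSucc | apply DefP.nAdd
            | apply DefP.nLt | apply DefP.nLe | apply DefP.nEq | apply DefP.hlf
            | apply DefP.p1le | apply DefP.p1 | apply DefP.p0 | apply DefP.aug | apply DefP.pth
            | apply DefP.nx | apply DefP.cnd | apply DefP.hmin | apply DefP.hit | apply DefP.cdn
            | apply DefP.firstEx | apply DefP.exN | apply DefP.end_ | apply DefP.isZero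
            | apply DefP.isSucc | apply DefP.alt | apply DefP.exr | apply DefP.exl
            | apply DefP.side | apply DefP.oddCard | apply DefP.cardEq | apply DefP.cardLt
            | apply DefP.cardLe | apply DefP.lst | apply DefP.fst | apply DefP.nxt
            | apply DefP.keyLe | apply DefP.keyLt | apply DefP.rtc
            | (apply DefP.app4; assumption) | (apply DefP.app3'; assumption)
            | (apply DefP.app3; assumption) | (apply DefP.app2; assumption)
            | (apply DefP.comp; assumption) | exact Tm.id | exact Tm.unit | apply Tm.fst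
            | apply Tm.snd | apply Tm.app | exact DefP.const _ | apply DefP.and | apply DefP.not
            | apply DefP.or | apply DefP.iff | apply DefP.adj | apply DefP.le | apply DefP.lt
            | apply DefP.eqFin | apply DefP.eq | apply DefP.rv | apply DefP.imp
            | apply DefP.allFin | apply DefP.exFin | apply DefP.all | apply DefP.ex | assumption
            | (apply Tm.comp; assumption) | apply Tm.pair | apply Tm.lam)))
  · (repeat' (first
      | apply DefP.nOne | apply DefP.nZero | apply DefP.nSucc | apply DefP.nAdd | apply DefP.nLt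
      | apply DefP.nLe | apply DefP.nEq | apply DefP.hlf | apply DefP.p1le | apply DefP.p1
      | apply DefP.p0 | apply DefP.aug | apply DefP.pth | apply DefP.nx | apply DefP.cnd
      | apply DefP.hmin | apply DefP.hit | apply DefP.cdn | apply DefP.firstEx | apply DefP.exN
      | apply DefP.end_ | apply DefP.isZero | apply DefP.isSucc | apply DefP.alt
      | apply DefP.exr | apply DefP.exl | apply DefP.side | apply DefP.oddCard
      | apply DefP.cardEq | apply DefP.cardLt | apply DefP.cardLe | apply DefP.lst
      | apply DefP.fst | apply DefP.nxt | apply DefP.keyLe | apply DefP.keyLt | apply DefP.rtc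
      | (apply DefP.app4; assumption) | (apply DefP.app3'; assumption)
      | (apply DefP.app3; assumption) | (apply DefP.app2; assumption)
      | (apply DefP.comp; assumption) | exact Tm.id | exact Tm.unit | apply Tm.fst
      | apply Tm.snd | apply Tm.app | exact DefP.const _ | apply DefP.and | apply DefP.not
      | apply DefP.or | apply DefP.iff | apply DefP.adj | apply DefP.le | apply DefP.lt
      | apply DefP.eqFin | apply DefP.eq | apply DefP.rv | apply DefP.imp | apply DefP.allFin
      | apply DefP.exFin | apply DefP.all | apply DefP.ex | assumption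
      | (apply Tm.comp; assumption) | apply Tm.pair | apply Tm.lam))
  · (repeat' (first
      | apply DefP.nOne | apply DefP.nZero | apply DefP.nSucc | apply DefP.nAdd | apply DefP.nLt
      | apply DefP.nLe | apply DefP.nEq | apply DefP.hlf | apply DefP.p1le | apply DefP.p1
      | apply DefP.p0 | apply DefP.aug | apply DefP.pth | apply DefP.nx | apply DefP.cnd
      | apply DefP.hmin | apply DefP.hit | apply DefP.cdn | apply DefP.firstEx | apply DefP.exN
      | apply DefP.end_ | apply DefP.isZero | apply DefP.isSucc | apply DefP.alt
      | apply DefP.exr | apply DefP.exl | apply DefP.side | apply DefP.oddCard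
      | apply DefP.cardEq | apply DefP.cardLt | apply DefP.cardLe | apply DefP.lst
      | apply DefP.fst | apply DefP.nxt | apply DefP.keyLe | apply DefP.keyLt | apply DefP.rtc
      | (apply DefP.app4; assumption) | (apply DefP.app3'; assumption)
      | (apply DefP.app3; assumption) | (apply DefP.app2; assumption)
      | (apply DefP.comp; assumption) | exact Tm.id | exact Tm.unit | apply Tm.fst
      | apply Tm.snd | apply Tm.app | exact DefP.const _ | apply DefP.and | apply DefP.not
      | apply DefP.or | apply DefP.iff | apply DefP.adj | apply DefP.le | apply DefP.lt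
      | apply DefP.eqFin | apply DefP.eq | apply DefP.rv | apply DefP.imp | apply DefP.allFin
      | apply DefP.exFin | apply DefP.all | apply DefP.ex | assumption
      | (apply Tm.comp; assumption) | apply Tm.pair | apply Tm.lam))
  · exact DefP.app3 (P := fun n G X x t s => r n G X x t s) hr (by (repeat' (first
      | apply DefP.nOne | apply DefP.nZero | apply DefP.nSucc | apply DefP.nAdd | apply DefP.nLt
      | apply DefP.nLe | apply DefP.nEq | apply DefP.hlf | apply DefP.p1le | apply DefP.p1
      | apply DefP.p0 | apply DefP.aug | apply DefP.pth | apply DefP.nx | apply DefP.cnd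
      | apply DefP.hmin | apply DefP.hit | apply DefP.cdn | apply DefP.firstEx | apply DefP.exN
      | apply DefP.end_ | apply DefP.isZero | apply DefP.isSucc | apply DefP.alt
      | apply DefP.exr | apply DefP.exl | apply DefP.side | apply DefP.oddCard
      | apply DefP.cardEq | apply DefP.cardLt | apply DefP.cardLe | apply DefP.lst
      | apply DefP.fst | apply DefP.nxt | apply DefP.keyLe | apply DefP.keyLt | apply DefP.rtc
      | (apply DefP.app4; assumption) | (apply DefP.app3'; assumption)
      | (apply DefP.app3; assumption) | (apply DefP.app2; assumption)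
      | (apply DefP.comp; assumption) | exact Tm.id | exact Tm.unit | apply Tm.fst
      | apply Tm.snd | apply Tm.app | exact DefP.const _ | apply DefP.and | apply DefP.not
      | apply DefP.or | apply DefP.iff | apply DefP.adj | apply DefP.le | apply DefP.lt
      | apply DefP.eqFin | apply DefP.eq | apply DefP.rv | apply DefP.imp | apply DefP.allFin
      | apply DefP.exFin | apply DefP.all | apply DefP.ex | assumption
      | (apply Tm.comp; assumption) | apply Tm.pair | apply Tm.lam))) (by (repeat' (first
      | apply DefP.nOne | apply DefP.nZero | apply DefP.nSucc | apply DefP.nAdd | apply DefP.nLt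
      | apply DefP.nLe | apply DefP.nEq | apply DefP.hlf | apply DefP.p1le | apply DefP.p1
      | apply DefP.p0 | apply DefP.aug | apply DefP.pth | apply DefP.nx | apply DefP.cnd
      | apply DefP.hmin | apply DefP.hit | apply DefP.cdn | apply DefP.firstEx | apply DefP.exN
      | apply DefP.end_ | apply DefP.isZero | apply DefP.isSucc | apply DefP.alt
      | apply DefP.exr | apply DefP.exl | apply DefP.side | apply DefP.oddCard
      | apply DefP.cardEq | apply DefP.cardLt | apply DefP.cardLe | apply DefP.lst
      | apply DefP.fst | apply DefP.nxt | apply DefP.keyLe | apply DefP.keyLt | apply DefP.rtc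
      | (apply DefP.app4; assumption) | (apply DefP.app3'; assumption)
      | (apply DefP.app3; assumption) | (apply DefP.app2; assumption)
      | (apply DefP.comp; assumption) | exact Tm.id | exact Tm.unit | apply Tm.fst
      | apply Tm.snd | apply Tm.app | exact DefP.const _ | apply DefP.and | apply DefP.not
      | apply DefP.or | apply DefP.iff | apply DefP.adj | apply DefP.le | apply DefP.lt
      | apply DefP.eqFin | apply DefP.eq | apply DefP.rv | apply DefP.imp | apply DefP.allFin
      | apply DefP.exFin | apply DefP.all | apply DefP.ex | assumption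
      | (apply Tm.comp; assumption) | apply Tm.pair | apply Tm.lam))) (by (repeat' (first
      | apply DefP.nOne | apply DefP.nZero | apply DefP.nSucc | apply DefP.nAdd | apply DefP.nLt
      | apply DefP.nLe | apply DefP.nEq | apply DefP.hlf | apply DefP.p1le | apply DefP.p1
      | apply DefP.p0 | apply DefP.aug | apply DefP.pth | apply DefP.nx | apply DefP.cnd
      | apply DefP.hmin | apply DefP.hit | apply DefP.cdn | apply DefP.firstEx | apply DefP.exN
      | apply DefP.end_ | apply DefP.isZero | apply DefP.isSucc | apply DefP.alt
      | apply DefP.exr | apply DefP.exl | apply DefP.side | apply DefP.oddCard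
      | apply DefP.cardEq | apply DefP.cardLt | apply DefP.cardLe | apply DefP.lst
      | apply DefP.fst | apply DefP.nxt | apply DefP.keyLe | apply DefP.keyLt | apply DefP.rtc
      | (apply DefP.app4; assumption) | (apply DefP.app3'; assumption)
      | (apply DefP.app3; assumption) | (apply DefP.app2; assumption)
      | (apply DefP.comp; assumption) | exact Tm.id | exact Tm.unit | apply Tm.fst
      | apply Tm.snd | apply Tm.app | exact DefP.const _ | apply DefP.and | apply DefP.not
      | apply DefP.or | apply DefP.iff | apply DefP.adj | apply DefP.le | apply DefP.lt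
      | apply DefP.eqFin | apply DefP.eq | apply DefP.rv | apply DefP.imp | apply DefP.allFin
      | apply DefP.exFin | apply DefP.all | apply DefP.ex | assumption
      | (apply Tm.comp; assumption) | apply Tm.pair | apply Tm.lam)))
  · exact DefP.app4 (P := fun n G X x a b c => o n G X x a b c) ho (by (repeat' (first
      | apply DefP.nOne | apply DefP.nZero | apply DefP.nSucc | apply DefP.nAdd | apply DefP.nLt
      | apply DefP.nLe | apply DefP.nEq | apply DefP.hlf | apply DefP.p1le | apply DefP.p1
      | apply DefP.p0 | apply DefP.aug | apply DefP.pth | apply DefP.nx | apply DefP.cnd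
      | apply DefP.hmin | apply DefP.hit | apply DefP.cdn | apply DefP.firstEx | apply DefP.exN
      | apply DefP.end_ | apply DefP.isZero | apply DefP.isSucc | apply DefP.alt
      | apply DefP.exr | apply DefP.exl | apply DefP.side | apply DefP.oddCard
      | apply DefP.cardEq | apply DefP.cardLt | apply DefP.cardLe | apply DefP.lst
      | apply DefP.fst | apply DefP.nxt | apply DefP.keyLe | apply DefP.keyLt | apply DefP.rtc
      | (apply DefP.app4; assumption) | (apply DefP.app3'; assumption)
      | (apply DefP.app3; assumption) | (apply DefP.app2; assumption)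
      | (apply DefP.comp; assumption) | exact Tm.id | exact Tm.unit | apply Tm.fst
      | apply Tm.snd | apply Tm.app | exact DefP.const _ | apply DefP.and | apply DefP.not
      | apply DefP.or | apply DefP.iff | apply DefP.adj | apply DefP.le | apply DefP.lt
      | apply DefP.eqFin | apply DefP.eq | apply DefP.rv | apply DefP.imp | apply DefP.allFin
      | apply DefP.exFin | apply DefP.all | apply DefP.ex | assumption
      | (apply Tm.comp; assumption) | apply Tm.pair | apply Tm.lam))) (by (repeat' (first
      | apply DefP.nOne | apply DefP.nZero | apply DefP.nSucc | apply DefP.nAdd | apply DefP.nLt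
      | apply DefP.nLe | apply DefP.nEq | apply DefP.hlf | apply DefP.p1le | apply DefP.p1
      | apply DefP.p0 | apply DefP.aug | apply DefP.pth | apply DefP.nx | apply DefP.cnd
      | apply DefP.hmin | apply DefP.hit | apply DefP.cdn | apply DefP.firstEx | apply DefP.exN
      | apply DefP.end_ | apply DefP.isZero | apply DefP.isSucc | apply DefP.alt
      | apply DefP.exr | apply DefP.exl | apply DefP.side | apply DefP.oddCard
      | apply DefP.cardEq | apply DefP.cardLt | apply DefP.cardLe | apply DefP.lst
      | apply DefP.fst | apply DefP.nxt | apply DefP.keyLe | apply DefP.keyLt | apply DefP.rtc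
      | (apply DefP.app4; assumption) | (apply DefP.app3'; assumption)
      | (apply DefP.app3; assumption) | (apply DefP.app2; assumption)
      | (apply DefP.comp; assumption) | exact Tm.id | exact Tm.unit | apply Tm.fst
      | apply Tm.snd | apply Tm.app | exact DefP.const _ | apply DefP.and | apply DefP.not
      | apply DefP.or | apply DefP.iff | apply DefP.adj | apply DefP.le | apply DefP.lt
      | apply DefP.eqFin | apply DefP.eq | apply DefP.rv | apply DefP.imp | apply DefP.allFin
      | apply DefP.exFin | apply DefP.all | apply DefP.ex | assumption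
      | (apply Tm.comp; assumption) | apply Tm.pair | apply Tm.lam)))
      (by (repeat' (first
          | apply DefP.nOne | apply DefP.nZero | apply DefP.nSucc | apply DefP.nAdd
          | apply DefP.nLt | apply DefP.nLe | apply DefP.nEq | apply DefP.hlf | apply DefP.p1le
          | apply DefP.p1 | apply DefP.p0 | apply DefP.aug | apply DefP.pth | apply DefP.nx
          | apply DefP.cnd | apply DefP.hmin | apply DefP.hit | apply DefP.cdn
          | apply DefP.firstEx | apply DefP.exN | apply DefP.end_ | apply DefP.isZero
          | apply DefP.isSucc | apply DefP.alt | apply DefP.exr | apply DefP.exl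
          | apply DefP.side | apply DefP.oddCard | apply DefP.cardEq | apply DefP.cardLt
          | apply DefP.cardLe | apply DefP.lst | apply DefP.fst | apply DefP.nxt
          | apply DefP.keyLe | apply DefP.keyLt | apply DefP.rtc | (apply DefP.app4; assumption)
          | (apply DefP.app3'; assumption) | (apply DefP.app3; assumption)
          | (apply DefP.app2; assumption) | (apply DefP.comp; assumption) | exact Tm.id
          | exact Tm.unit | apply Tm.fst | apply Tm.snd | apply Tm.app | exact DefP.const _
          | apply DefP.and | apply DefP.not | apply DefP.or | apply DefP.iff | apply DefP.adj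
          | apply DefP.le | apply DefP.lt | apply DefP.eqFin | apply DefP.eq | apply DefP.rv
          | apply DefP.imp | apply DefP.allFin | apply DefP.exFin | apply DefP.all
          | apply DefP.ex | assumption | (apply Tm.comp; assumption) | apply Tm.pair
          | apply Tm.lam))) (by (repeat' (first
          | apply DefP.nOne | apply DefP.nZero | apply DefP.nSucc | apply DefP.nAdd
          | apply DefP.nLt | apply DefP.nLe | apply DefP.nEq | apply DefP.hlf | apply DefP.p1le
          | apply DefP.p1 | apply DefP.p0 | apply DefP.aug | apply DefP.pth | apply DefP.nx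
          | apply DefP.cnd | apply DefP.hmin | apply DefP.hit | apply DefP.cdn
          | apply DefP.firstEx | apply DefP.exN | apply DefP.end_ | apply DefP.isZero
          | apply DefP.isSucc | apply DefP.alt | apply DefP.exr | apply DefP.exl
          | apply DefP.side | apply DefP.oddCard | apply DefP.cardEq | apply DefP.cardLt
          | apply DefP.cardLe | apply DefP.lst | apply DefP.fst | apply DefP.nxt
          | apply DefP.keyLe | apply DefP.keyLt | apply DefP.rtc | (apply DefP.app4; assumption)
          | (apply DefP.app3'; assumption) | (apply DefP.app3; assumption)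
          | (apply DefP.app2; assumption) | (apply DefP.comp; assumption) | exact Tm.id
          | exact Tm.unit | apply Tm.fst | apply Tm.snd | apply Tm.app | exact DefP.const _
          | apply DefP.and | apply DefP.not | apply DefP.or | apply DefP.iff | apply DefP.adj
          | apply DefP.le | apply DefP.lt | apply DefP.eqFin | apply DefP.eq | apply DefP.rv
          | apply DefP.imp | apply DefP.allFin | apply DefP.exFin | apply DefP.all
          | apply DefP.ex | assumption | (apply Tm.comp; assumption) | apply Tm.pair
          | apply Tm.lam)))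

end def_

end Pool.Agent.PMNC
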