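import Mathlib
import Pool.Agent.Lib.MP_0087d5_lc.ZDef

set_option autoImplicit false
set_option linter.all false

/-!
# Integers modulo a number: the ring operations are definable
-/

namespace Pool.Agent.PMNC

open Relation

section def_
variable {E S F H : ℕ → Type} [Env E] [Env S] [Env F] [Env H]

theorem DefZ.sum [∀ n, Fintype (F n)] {p : ∀ n : ℕ, E n → S n} (hp : Tm p)
    {φ : ∀ n : ℕ, SimpleGraph (Fin n) → Ctx n → E n → F n → ℤ}
    (h : DefZ (E := fun n => E n × F n) (fun n y => p n y.1) (fun n G X y => φ n G X y.1 y.2)) :
    DefZ p (fun n G X x => ∑ t : F n, φ n G X x t) := by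
  unfold DefZ at h ⊢
  have h1 := DefP.fdR (E := E) (S := S) (F := F)
    (init := fun n G X x s => 0 < nv (p n x) ∧ nv s = 0)
    (o := fun n G X x a b c => PMNC.amod (p n x) a b c)
    (r := fun n G X x t s => rsd (p n x) s (φ n G X x t)) ?_ ?_ ?_
  · refine DefP.congr (E := fun n => E n × S n) h1 fun n G X y => ?_
    rcases Nat.eq_zero_or_pos (nv (p n y.1)) with h0 | h0
    · constructor
      · rintro ⟨z, l, i, a, b, _, h2, _⟩
        omega
      · intro h2
        have := h2.1
        omega
    · have hn := pos_of_nv h0
      rw [fdR_iff (p := p n y.1)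
        (fun k => ∑ u ∈ Finset.univ.filter (fun u : F n => nv u < k), φ n G X y.1 u)
        (fun t => φ n G X y.1 t) (fun a b => a + b) h0 (nonempty_env hn)
        (fun t => sum_lt_succ _ t) (fun t s => Iff.rfl)
        (fun a b c x y ha hb => amod_iff ha hb) ?_]
      · rw [filter_all]
      · intro s
        rw [filter_none, Finset.sum_empty]
        constructor
        · rintro ⟨h3, h4⟩
          exact ⟨by omega, by simp [h4]⟩
        · rintro ⟨h3, h4⟩
          refine ⟨h0, ?_⟩
          rw [zero_sub, dvd_neg] at h4
          have := Int.eq_zero_of_abs_lt_dvd h4 (by rw [abs_lt]; omega)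
          omega
  · refine DefP.and ?_ ?_
    · refine DefP.congr (P := fun n G X y => ¬ (nv (p n y.1) = 0)) (DefP.not (DefP.nZero ?_)) ?_
      · exact hp.comp (Tm.fst Tm.id)
      · intro n G X y
        exact Nat.pos_iff_ne_zero.symm
    · (repeat' (first
        | apply DefP.nOne | apply DefP.nZero | apply DefP.nSucc | apply DefP.nAdd
        | apply DefP.nLt | apply DefP.nLe | apply DefP.nEq | apply DefP.hlf | apply DefP.p1le
        | apply DefP.p1 | apply DefP.p0 | apply DefP.aug | apply DefP.pth | apply DefP.nx
        | apply DefP.cnd | apply DefP.hmin | apply DefP.hit | apply DefP.cdn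
        | apply DefP.firstEx | apply DefP.exN | apply DefP.end_ | apply DefP.isZero
        | apply DefP.isSucc | apply DefP.alt | apply DefP.exr | apply DefP.exl | apply DefP.side
        | apply DefP.oddCard | apply DefP.cardEq | apply DefP.cardLt | apply DefP.cardLe
        | apply DefP.lst | apply DefP.fst | apply DefP.nxt | apply DefP.keyLe | apply DefP.keyLt
        | apply DefP.rtc | (apply DefP.app4; assumption) | (apply DefP.app3'; assumption)
        | (apply DefP.app3; assumption) | (apply DefP.app2; assumption)
        | (apply DefP.comp; assumption) | exact Tm.id | exact Tm.unit | apply Tm.fst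
        | apply Tm.snd | apply Tm.app | exact DefP.const _ | apply DefP.and | apply DefP.not
        | apply DefP.or | apply DefP.iff | apply DefP.adj | apply DefP.le | apply DefP.lt
        | apply DefP.eqFin | apply DefP.eq | apply DefP.rv | apply DefP.imp | apply DefP.allFin
        | apply DefP.exFin | apply DefP.all | apply DefP.ex | assumption
        | (apply Tm.comp; assumption) | apply Tm.pair | apply Tm.lam))
  · refine DefP.amod ?_ ?_ ?_ ?_
    · exact hp.comp (Tm.fst Tm.id)
    · (repeat' (first
        | apply DefP.nOne | apply DefP.nZero | apply DefP.nSucc | apply DefP.nAdd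
        | apply DefP.nLt | apply DefP.nLe | apply DefP.nEq | apply DefP.hlf | apply DefP.p1le
        | apply DefP.p1 | apply DefP.p0 | apply DefP.aug | apply DefP.pth | apply DefP.nx
        | apply DefP.cnd | apply DefP.hmin | apply DefP.hit | apply DefP.cdn
        | apply DefP.firstEx | apply DefP.exN | apply DefP.end_ | apply DefP.isZero
        | apply DefP.isSucc | apply DefP.alt | apply DefP.exr | apply DefP.exl | apply DefP.side
        | apply DefP.oddCard | apply DefP.cardEq | apply DefP.cardLt | apply DefP.cardLe
        | apply DefP.lst | apply DefP.fst | apply DefP.nxt | apply DefP.keyLe | apply DefP.keyLt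
        | apply DefP.rtc | (apply DefP.app4; assumption) | (apply DefP.app3'; assumption)
        | (apply DefP.app3; assumption) | (apply DefP.app2; assumption)
        | (apply DefP.comp; assumption) | exact Tm.id | exact Tm.unit | apply Tm.fst
        | apply Tm.snd | apply Tm.app | exact DefP.const _ | apply DefP.and | apply DefP.not
        | apply DefP.or | apply DefP.iff | apply DefP.adj | apply DefP.le | apply DefP.lt
        | apply DefP.eqFin | apply DefP.eq | apply DefP.rv | apply DefP.imp | apply DefP.allFin
        | apply DefP.exFin | apply DefP.all | apply DefP.ex | assumption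
        | (apply Tm.comp; assumption) | apply Tm.pair | apply Tm.lam))
    · (repeat' (first
        | apply DefP.nOne | apply DefP.nZero | apply DefP.nSucc | apply DefP.nAdd
        | apply DefP.nLt | apply DefP.nLe | apply DefP.nEq | apply DefP.hlf | apply DefP.p1le
        | apply DefP.p1 | apply DefP.p0 | apply DefP.aug | apply DefP.pth | apply DefP.nx
        | apply DefP.cnd | apply DefP.hmin | apply DefP.hit | apply DefP.cdn
        | apply DefP.firstEx | apply DefP.exN | apply DefP.end_ | apply DefP.isZero
        | apply DefP.isSucc | apply DefP.alt | apply DefP.exr | apply DefP.exl | apply DefP.side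
        | apply DefP.oddCard | apply DefP.cardEq | apply DefP.cardLt | apply DefP.cardLe
        | apply DefP.lst | apply DefP.fst | apply DefP.nxt | apply DefP.keyLe | apply DefP.keyLt
        | apply DefP.rtc | (apply DefP.app4; assumption) | (apply DefP.app3'; assumption)
        | (apply DefP.app3; assumption) | (apply DefP.app2; assumption)
        | (apply DefP.comp; assumption) | exact Tm.id | exact Tm.unit | apply Tm.fst
        | apply Tm.snd | apply Tm.app | exact DefP.const _ | apply DefP.and | apply DefP.not
        | apply DefP.or | apply DefP.iff | apply DefP.adj | apply DefP.le | apply DefP.lt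
        | apply DefP.eqFin | apply DefP.eq | apply DefP.rv | apply DefP.imp | apply DefP.allFin
        | apply DefP.exFin | apply DefP.all | apply DefP.ex | assumption
        | (apply Tm.comp; assumption) | apply Tm.pair | apply Tm.lam))
    · (repeat' (first
        | apply DefP.nOne | apply DefP.nZero | apply DefP.nSucc | apply DefP.nAdd
        | apply DefP.nLt | apply DefP.nLe | apply DefP.nEq | apply DefP.hlf | apply DefP.p1le
        | apply DefP.p1 | apply DefP.p0 | apply DefP.aug | apply DefP.pth | apply DefP.nx
        | apply DefP.cnd | apply DefP.hmin | apply DefP.hit | apply DefP.cdn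
        | apply DefP.firstEx | apply DefP.exN | apply DefP.end_ | apply DefP.isZero
        | apply DefP.isSucc | apply DefP.alt | apply DefP.exr | apply DefP.exl | apply DefP.side
        | apply DefP.oddCard | apply DefP.cardEq | apply DefP.cardLt | apply DefP.cardLe
        | apply DefP.lst | apply DefP.fst | apply DefP.nxt | apply DefP.keyLe | apply DefP.keyLt
        | apply DefP.rtc | (apply DefP.app4; assumption) | (apply DefP.app3'; assumption)
        | (apply DefP.app3; assumption) | (apply DefP.app2; assumption)
        | (apply DefP.comp; assumption) | exact Tm.id | exact Tm.unit | apply Tm.fst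
        | apply Tm.snd | apply Tm.app | exact DefP.const _ | apply DefP.and | apply DefP.not
        | apply DefP.or | apply DefP.iff | apply DefP.adj | apply DefP.le | apply DefP.lt
        | apply DefP.eqFin | apply DefP.eq | apply DefP.rv | apply DefP.imp | apply DefP.allFin
        | apply DefP.exFin | apply DefP.all | apply DefP.ex | assumption
        | (apply Tm.comp; assumption) | apply Tm.pair | apply Tm.lam))
  · exact DefP.comp (E := fun n => E n × (F n × S n)) (F := fun n => (E n × F n) × S n)
      (f := fun n y => ((y.1, y.2.1), y.2.2)) h (by (repeat' (first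
          | apply DefP.nOne | apply DefP.nZero | apply DefP.nSucc | apply DefP.nAdd
          | apply DefP.nLt | apply DefP.nLe | apply DefP.nEq | apply DefP.hlf | apply DefP.p1le
          | apply DefP.p1 | apply DefP.p0 | apply DefP.aug | apply DefP.pth | apply DefP.nx
          | apply DefP.cnd | apply DefP.hmin | apply DefP.hit | apply DefP.cdn
          | apply DefP.firstEx | apply DefP.exN | apply DefP.end_ | apply DefP.isZero
          | apply DefP.isSucc | apply DefP.alt | apply DefP.exr | apply DefP.exl
          | apply DefP.side | apply DefP.oddCard | apply DefP.cardEq | apply DefP.cardLt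
          | apply DefP.cardLe | apply DefP.lst | apply DefP.fst | apply DefP.nxt
          | apply DefP.keyLe | apply DefP.keyLt | apply DefP.rtc | (apply DefP.app4; assumption)
          | (apply DefP.app3'; assumption) | (apply DefP.app3; assumption)
          | (apply DefP.app2; assumption) | (apply DefP.comp; assumption) | exact Tm.id
          | exact Tm.unit | apply Tm.fst | apply Tm.snd | apply Tm.app | exact DefP.const _
          | apply DefP.and | apply DefP.not | apply DefP.or | apply DefP.iff | apply DefP.adj
          | apply DefP.le | apply DefP.lt | apply DefP.eqFin | apply DefP.eq | apply DefP.rv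
          | apply DefP.imp | apply DefP.allFin | apply DefP.exFin | apply DefP.all
          | apply DefP.ex | assumption | (apply Tm.comp; assumption) | apply Tm.pair
          | apply Tm.lam)))

theorem DefZ.ite {p : ∀ n : ℕ, E n → S n}
    {P : ∀ n : ℕ, SimpleGraph (Fin n) → Ctx n → E n → Prop} (hP : DefP P)
    {φ ψ : ∀ n : ℕ, SimpleGraph (Fin n) → Ctx n → E n → ℤ} (h1 : DefZ p φ) (h2 : DefZ p ψ) :
    DefZ p (fun n G X x => cnd (P n G X x) (φ n G X x) (ψ n G X x)) := by
  unfold DefZ at h1 h2 ⊢
  have hP' : DefP (E := fun n => E n × S n) (fun n G X y => P n G X y.1) :=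
    DefP.comp (F := E) (f := fun n (y : E n × S n) => y.1) hP (Tm.fst Tm.id)
  refine DefP.congr (E := fun n => E n × S n) (DefP.or (DefP.and hP' h1) (DefP.and hP'.not h2))
    fun n G X y => ?_
  beta_reduce
  by_cases h : P n G X y.1
  · rw [cnd_pos h]
    simp only [h, true_and, not_true, false_and, or_false]
  · rw [cnd_neg h]
    simp only [h, false_and, not_false_eq_true, true_and, false_or]

theorem DefZ.zero {p : ∀ n : ℕ, E n → S n} (hp : Tm p) : DefZ p (fun n G X x => 0) := by
  unfold DefZ
  refine DefP.congr (E := fun n => E n × S n) (P := fun n G X y =>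
    nv y.2 = 0 ∧ ¬ (nv (p n y.1) = 0)) ?_ ?_
  · refine DefP.and ?_ (DefP.not (DefP.nZero ?_))
    · (repeat' (first
        | apply DefP.nOne | apply DefP.nZero | apply DefP.nSucc | apply DefP.nAdd
        | apply DefP.nLt | apply DefP.nLe | apply DefP.nEq | apply DefP.hlf | apply DefP.p1le
        | apply DefP.p1 | apply DefP.p0 | apply DefP.aug | apply DefP.pth | apply DefP.nx
        | apply DefP.cnd | apply DefP.hmin | apply DefP.hit | apply DefP.cdn
        | apply DefP.firstEx | apply DefP.exN | apply DefP.end_ | apply DefP.isZero
        | apply DefP.isSucc | apply DefP.alt | apply DefP.exr | apply DefP.exl | apply DefP.side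
        | apply DefP.oddCard | apply DefP.cardEq | apply DefP.cardLt | apply DefP.cardLe
        | apply DefP.lst | apply DefP.fst | apply DefP.nxt | apply DefP.keyLe | apply DefP.keyLt
        | apply DefP.rtc | (apply DefP.app4; assumption) | (apply DefP.app3'; assumption)
        | (apply DefP.app3; assumption) | (apply DefP.app2; assumption)
        | (apply DefP.comp; assumption) | exact Tm.id | exact Tm.unit | apply Tm.fst
        | apply Tm.snd | apply Tm.app | exact DefP.const _ | apply DefP.and | apply DefP.not
        | apply DefP.or | apply DefP.iff | apply DefP.adj | apply DefP.le | apply DefP.lt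
        | apply DefP.eqFin | apply DefP.eq | apply DefP.rv | apply DefP.imp | apply DefP.allFin
        | apply DefP.exFin | apply DefP.all | apply DefP.ex | assumption
        | (apply Tm.comp; assumption) | apply Tm.pair | apply Tm.lam))
    · exact hp.comp (Tm.fst Tm.id)
  · intro n G X y
    constructor
    · rintro ⟨h1, h2⟩
      exact ⟨by omega, by simp [h1]⟩
    · rintro ⟨h1, h2⟩
      rw [zero_sub, dvd_neg] at h2
      have := Int.eq_zero_of_abs_lt_dvd h2 (by rw [abs_lt]; omega)
      exact ⟨by omega, by omega⟩

theorem DefZ.one {p : ∀ n : ℕ, E n → S n} (hp : Tm p) : DefZ p (fun n G X x => 1) := by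
  unfold DefZ
  refine DefP.congr (E := fun n => E n × S n) (P := fun n G X y =>
    (nv y.2 = 1 ∧ ¬ (nv (p n y.1) = 0) ∧ ¬ (nv (p n y.1) = 1)) ∨
      (nv y.2 = 0 ∧ nv (p n y.1) = 1)) ?_ ?_
  · have hp' : Tm (fun n (y : E n × S n) => p n y.1) := hp.comp (Tm.fst Tm.id)
    refine DefP.or (DefP.and ?_ (DefP.and (DefP.not (DefP.nZero hp')) (DefP.not (DefP.nOne hp'))))
      (DefP.and ?_ (DefP.nOne hp'))
    all_goals (repeat' (first
        | apply DefP.nOne | apply DefP.nZero | apply DefP.nSucc | apply DefP.nAdd
        | apply DefP.nLt | apply DefP.nLe | apply DefP.nEq | apply DefP.hlf | apply DefP.p1le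
        | apply DefP.p1 | apply DefP.p0 | apply DefP.aug | apply DefP.pth | apply DefP.nx
        | apply DefP.cnd | apply DefP.hmin | apply DefP.hit | apply DefP.cdn
        | apply DefP.firstEx | apply DefP.exN | apply DefP.end_ | apply DefP.isZero
        | apply DefP.isSucc | apply DefP.alt | apply DefP.exr | apply DefP.exl | apply DefP.side
        | apply DefP.oddCard | apply DefP.cardEq | apply DefP.cardLt | apply DefP.cardLe
        | apply DefP.lst | apply DefP.fst | apply DefP.nxt | apply DefP.keyLe | apply DefP.keyLt
        | apply DefP.rtc | (apply DefP.app4; assumption) | (apply DefP.app3'; assumption)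
        | (apply DefP.app3; assumption) | (apply DefP.app2; assumption)
        | (apply DefP.comp; assumption) | exact Tm.id | exact Tm.unit | apply Tm.fst
        | apply Tm.snd | apply Tm.app | exact DefP.const _ | apply DefP.and | apply DefP.not
        | apply DefP.or | apply DefP.iff | apply DefP.adj | apply DefP.le | apply DefP.lt
        | apply DefP.eqFin | apply DefP.eq | apply DefP.rv | apply DefP.imp | apply DefP.allFin
        | apply DefP.exFin | apply DefP.all | apply DefP.ex | assumption
        | (apply Tm.comp; assumption) | apply Tm.pair | apply Tm.lam))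
  · intro n G X y
    beta_reduce
    constructor
    · rintro (⟨h1, h2, h3⟩ | ⟨h1, h2⟩)
      · exact ⟨by omega, by simp [h1]⟩
      · exact ⟨by omega, by simp [h1, h2]⟩
    · rintro ⟨h1, h2⟩
      rcases Nat.lt_or_ge 1 (nv (p n y.1)) with h3 | h3
      · left
        have := Int.eq_zero_of_abs_lt_dvd h2 (by rw [abs_lt]; omega)
        omega
      · right
        omega

/-- the value of a tuple as a number -/
theorem DefZ.nv' [∀ n, Fintype (H n)] {p : ∀ n : ℕ, E n → S n} (hp : Tm p) {f : ∀ n : ℕ, E n → H n}
    (hf : Tm f) : DefZ p (fun n G X x => ((nv (f n x) : ℕ) : ℤ)) := by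
  have h1 : DefZ p (fun n G X x => ∑ t : H n, cnd (nv t < nv (f n x)) 1 0) := by
    refine DefZ.sum hp (DefZ.ite (DefP.nLt ?_ ?_) (DefZ.one ?_) (DefZ.zero ?_))
    · (repeat' (first
        | apply DefP.nOne | apply DefP.nZero | apply DefP.nSucc | apply DefP.nAdd
        | apply DefP.nLt | apply DefP.nLe | apply DefP.nEq | apply DefP.hlf | apply DefP.p1le
        | apply DefP.p1 | apply DefP.p0 | apply DefP.aug | apply DefP.pth | apply DefP.nx
        | apply DefP.cnd | apply DefP.hmin | apply DefP.hit | apply DefP.cdn
        | apply DefP.firstEx | apply DefP.exN | apply DefP.end_ | apply DefP.isZero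
        | apply DefP.isSucc | apply DefP.alt | apply DefP.exr | apply DefP.exl | apply DefP.side
        | apply DefP.oddCard | apply DefP.cardEq | apply DefP.cardLt | apply DefP.cardLe
        | apply DefP.lst | apply DefP.fst | apply DefP.nxt | apply DefP.keyLe | apply DefP.keyLt
        | apply DefP.rtc | (apply DefP.app4; assumption) | (apply DefP.app3'; assumption)
        | (apply DefP.app3; assumption) | (apply DefP.app2; assumption)
        | (apply DefP.comp; assumption) | exact Tm.id | exact Tm.unit | apply Tm.fst
        | apply Tm.snd | apply Tm.app | exact DefP.const _ | apply DefP.and | apply DefP.not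
        | apply DefP.or | apply DefP.iff | apply DefP.adj | apply DefP.le | apply DefP.lt
        | apply DefP.eqFin | apply DefP.eq | apply DefP.rv | apply DefP.imp | apply DefP.allFin
        | apply DefP.exFin | apply DefP.all | apply DefP.ex | assumption
        | (apply Tm.comp; assumption) | apply Tm.pair | apply Tm.lam))
    · exact hf.comp (Tm.fst Tm.id)
    · exact hp.comp (Tm.fst Tm.id)
    · exact hp.comp (Tm.fst Tm.id)
  refine h1.congr fun n G X x => ?_
  classical
  have e : ∀ t : H n, cnd (nv t < nv (f n x)) 1 0 = if nv t < nv (f n x) then (1 : ℤ) else 0 := by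
    intro t
    by_cases h : nv t < nv (f n x)
    · rw [cnd_pos h, if_pos h]
    · rw [cnd_neg h, if_neg h]
  simp only [e]
  rw [Finset.sum_ite, Finset.sum_const_zero, add_zero, Finset.sum_const, card_nv_lt]
  simp

theorem DefZ.add {p : ∀ n : ℕ, E n → S n} (hp : Tm p)
    {φ ψ : ∀ n : ℕ, SimpleGraph (Fin n) → Ctx n → E n → ℤ} (h1 : DefZ p φ) (h2 : DefZ p ψ) :
    DefZ p (fun n G X x => φ n G X x + ψ n G X x) := by
  unfold DefZ at h1 h2 ⊢
  have h1' : DefP (E := fun n => ((E n × S n) × S n) × S n)
      (fun n G X y => rsd (p n y.1.1.1) y.1.2 (φ n G X y.1.1.1)) :=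
    DefP.comp (F := fun n => E n × S n)
      (f := fun n (y : ((E n × S n) × S n) × S n) => (y.1.1.1, y.1.2)) h1 (by (repeat' (first
          | apply DefP.nOne | apply DefP.nZero | apply DefP.nSucc | apply DefP.nAdd
          | apply DefP.nLt | apply DefP.nLe | apply DefP.nEq | apply DefP.hlf | apply DefP.p1le
          | apply DefP.p1 | apply DefP.p0 | apply DefP.aug | apply DefP.pth | apply DefP.nx
          | apply DefP.cnd | apply DefP.hmin | apply DefP.hit | apply DefP.cdn
          | apply DefP.firstEx | apply DefP.exN | apply DefP.end_ | apply DefP.isZero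
          | apply DefP.isSucc | apply DefP.alt | apply DefP.exr | apply DefP.exl
          | apply DefP.side | apply DefP.oddCard | apply DefP.cardEq | apply DefP.cardLt
          | apply DefP.cardLe | apply DefP.lst | apply DefP.fst | apply DefP.nxt
          | apply DefP.keyLe | apply DefP.keyLt | apply DefP.rtc | (apply DefP.app4; assumption)
          | (apply DefP.app3'; assumption) | (apply DefP.app3; assumption)
          | (apply DefP.app2; assumption) | (apply DefP.comp; assumption) | exact Tm.id
          | exact Tm.unit | apply Tm.fst | apply Tm.snd | apply Tm.app | exact DefP.const _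
          | apply DefP.and | apply DefP.not | apply DefP.or | apply DefP.iff | apply DefP.adj
          | apply DefP.le | apply DefP.lt | apply DefP.eqFin | apply DefP.eq | apply DefP.rv
          | apply DefP.imp | apply DefP.allFin | apply DefP.exFin | apply DefP.all
          | apply DefP.ex | assumption | (apply Tm.comp; assumption) | apply Tm.pair
          | apply Tm.lam)))
  have h2' : DefP (E := fun n => ((E n × S n) × S n) × S n)
      (fun n G X y => rsd (p n y.1.1.1) y.2 (ψ n G X y.1.1.1)) :=
    DefP.comp (F := fun n => E n × S n)
      (f := fun n (y : ((E n × S n) × S n) × S n) => (y.1.1.1, y.2)) h2 (by (repeat' (first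
          | apply DefP.nOne | apply DefP.nZero | apply DefP.nSucc | apply DefP.nAdd
          | apply DefP.nLt | apply DefP.nLe | apply DefP.nEq | apply DefP.hlf | apply DefP.p1le
          | apply DefP.p1 | apply DefP.p0 | apply DefP.aug | apply DefP.pth | apply DefP.nx
          | apply DefP.cnd | apply DefP.hmin | apply DefP.hit | apply DefP.cdn
          | apply DefP.firstEx | apply DefP.exN | apply DefP.end_ | apply DefP.isZero
          | apply DefP.isSucc | apply DefP.alt | apply DefP.exr | apply DefP.exl
          | apply DefP.side | apply DefP.oddCard | apply DefP.cardEq | apply DefP.cardLt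
          | apply DefP.cardLe | apply DefP.lst | apply DefP.fst | apply DefP.nxt
          | apply DefP.keyLe | apply DefP.keyLt | apply DefP.rtc | (apply DefP.app4; assumption)
          | (apply DefP.app3'; assumption) | (apply DefP.app3; assumption)
          | (apply DefP.app2; assumption) | (apply DefP.comp; assumption) | exact Tm.id
          | exact Tm.unit | apply Tm.fst | apply Tm.snd | apply Tm.app | exact DefP.const _
          | apply DefP.and | apply DefP.not | apply DefP.or | apply DefP.iff | apply DefP.adj
          | apply DefP.le | apply DefP.lt | apply DefP.eqFin | apply DefP.eq | apply DefP.rv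
          | apply DefP.imp | apply DefP.allFin | apply DefP.exFin | apply DefP.all
          | apply DefP.ex | assumption | (apply Tm.comp; assumption) | apply Tm.pair
          | apply Tm.lam)))
  refine DefP.congr (E := fun n => E n × S n) (P := fun n G X y => ∃ a b : S n,
    rsd (p n y.1) a (φ n G X y.1) ∧ rsd (p n y.1) b (ψ n G X y.1) ∧
      PMNC.amod (p n y.1) a b y.2) ?_ ?_
  · refine DefP.ex (DefP.ex (DefP.and h1' (DefP.and h2' (DefP.amod ?_ ?_ ?_ ?_))))
    · exact hp.comp (Tm.fst (Tm.fst (Tm.fst Tm.id)))
    · (repeat' (first
        | apply DefP.nOne | apply DefP.nZero | apply DefP.nSucc | apply DefP.nAdd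
        | apply DefP.nLt | apply DefP.nLe | apply DefP.nEq | apply DefP.hlf | apply DefP.p1le
        | apply DefP.p1 | apply DefP.p0 | apply DefP.aug | apply DefP.pth | apply DefP.nx
        | apply DefP.cnd | apply DefP.hmin | apply DefP.hit | apply DefP.cdn
        | apply DefP.firstEx | apply DefP.exN | apply DefP.end_ | apply DefP.isZero
        | apply DefP.isSucc | apply DefP.alt | apply DefP.exr | apply DefP.exl | apply DefP.side
        | apply DefP.oddCard | apply DefP.cardEq | apply DefP.cardLt | apply DefP.cardLe
        | apply DefP.lst | apply DefP.fst | apply DefP.nxt | apply DefP.keyLe | apply DefP.keyLt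
        | apply DefP.rtc | (apply DefP.app4; assumption) | (apply DefP.app3'; assumption)
        | (apply DefP.app3; assumption) | (apply DefP.app2; assumption)
        | (apply DefP.comp; assumption) | exact Tm.id | exact Tm.unit | apply Tm.fst
        | apply Tm.snd | apply Tm.app | exact DefP.const _ | apply DefP.and | apply DefP.not
        | apply DefP.or | apply DefP.iff | apply DefP.adj | apply DefP.le | apply DefP.lt
        | apply DefP.eqFin | apply DefP.eq | apply DefP.rv | apply DefP.imp | apply DefP.allFin
        | apply DefP.exFin | apply DefP.all | apply DefP.ex | assumption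
        | (apply Tm.comp; assumption) | apply Tm.pair | apply Tm.lam))
    · (repeat' (first
        | apply DefP.nOne | apply DefP.nZero | apply DefP.nSucc | apply DefP.nAdd
        | apply DefP.nLt | apply DefP.nLe | apply DefP.nEq | apply DefP.hlf | apply DefP.p1le
        | apply DefP.p1 | apply DefP.p0 | apply DefP.aug | apply DefP.pth | apply DefP.nx
        | apply DefP.cnd | apply DefP.hmin | apply DefP.hit | apply DefP.cdn
        | apply DefP.firstEx | apply DefP.exN | apply DefP.end_ | apply DefP.isZero
        | apply DefP.isSucc | apply DefP.alt | apply DefP.exr | apply DefP.exl | apply DefP.side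
        | apply DefP.oddCard | apply DefP.cardEq | apply DefP.cardLt | apply DefP.cardLe
        | apply DefP.lst | apply DefP.fst | apply DefP.nxt | apply DefP.keyLe | apply DefP.keyLt
        | apply DefP.rtc | (apply DefP.app4; assumption) | (apply DefP.app3'; assumption)
        | (apply DefP.app3; assumption) | (apply DefP.app2; assumption)
        | (apply DefP.comp; assumption) | exact Tm.id | exact Tm.unit | apply Tm.fst
        | apply Tm.snd | apply Tm.app | exact DefP.const _ | apply DefP.and | apply DefP.not
        | apply DefP.or | apply DefP.iff | apply DefP.adj | apply DefP.le | apply DefP.lt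
        | apply DefP.eqFin | apply DefP.eq | apply DefP.rv | apply DefP.imp | apply DefP.allFin
        | apply DefP.exFin | apply DefP.all | apply DefP.ex | assumption
        | (apply Tm.comp; assumption) | apply Tm.pair | apply Tm.lam))
    · (repeat' (first
        | apply DefP.nOne | apply DefP.nZero | apply DefP.nSucc | apply DefP.nAdd
        | apply DefP.nLt | apply DefP.nLe | apply DefP.nEq | apply DefP.hlf | apply DefP.p1le
        | apply DefP.p1 | apply DefP.p0 | apply DefP.aug | apply DefP.pth | apply DefP.nx
        | apply DefP.cnd | apply DefP.hmin | apply DefP.hit | apply DefP.cdn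
        | apply DefP.firstEx | apply DefP.exN | apply DefP.end_ | apply DefP.isZero
        | apply DefP.isSucc | apply DefP.alt | apply DefP.exr | apply DefP.exl | apply DefP.side
        | apply DefP.oddCard | apply DefP.cardEq | apply DefP.cardLt | apply DefP.cardLe
        | apply DefP.lst | apply DefP.fst | apply DefP.nxt | apply DefP.keyLe | apply DefP.keyLt
        | apply DefP.rtc | (apply DefP.app4; assumption) | (apply DefP.app3'; assumption)
        | (apply DefP.app3; assumption) | (apply DefP.app2; assumption)
        | (apply DefP.comp; assumption) | exact Tm.id | exact Tm.unit | apply Tm.fst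
        | apply Tm.snd | apply Tm.app | exact DefP.const _ | apply DefP.and | apply DefP.not
        | apply DefP.or | apply DefP.iff | apply DefP.adj | apply DefP.le | apply DefP.lt
        | apply DefP.eqFin | apply DefP.eq | apply DefP.rv | apply DefP.imp | apply DefP.allFin
        | apply DefP.exFin | apply DefP.all | apply DefP.ex | assumption
        | (apply Tm.comp; assumption) | apply Tm.pair | apply Tm.lam))
  · intro n G X y
    constructor
    · rintro ⟨a, b, ha, hb, h⟩
      exact (amod_iff ha hb).1 h
    · intro h
      have h0 : 0 < nv (p n y.1) := by have := h.1; omega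
      obtain ⟨a, ha⟩ := rsd_ex h0 (φ n G X y.1)
      obtain ⟨b, hb⟩ := rsd_ex h0 (ψ n G X y.1)
      exact ⟨a, b, ha, hb, (amod_iff ha hb).2 h⟩

/-- replace a factor by its residue -/
theorem DefZ.mul [∀ n, Fintype (S n)] {p : ∀ n : ℕ, E n → S n} (hp : Tm p)
    {φ ψ : ∀ n : ℕ, SimpleGraph (Fin n) → Ctx n → E n → ℤ} (h1 : DefZ p φ) (h2 : DefZ p ψ) :
    DefZ p (fun n G X x => φ n G X x * ψ n G X x) := by
  have h3 : DefZ (E := fun n => E n × S n) (fun n y => p n y.1)
      (fun n G X y => ∑ t : S n, cnd (nv t < nv y.2) (ψ n G X y.1) 0) := by
    refine DefZ.sum (hp.comp (Tm.fst Tm.id)) (DefZ.ite (DefP.nLt ?_ ?_) ?_ (DefZ.zero ?_))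
    · (repeat' (first
        | apply DefP.nOne | apply DefP.nZero | apply DefP.nSucc | apply DefP.nAdd
        | apply DefP.nLt | apply DefP.nLe | apply DefP.nEq | apply DefP.hlf | apply DefP.p1le
        | apply DefP.p1 | apply DefP.p0 | apply DefP.aug | apply DefP.pth | apply DefP.nx
        | apply DefP.cnd | apply DefP.hmin | apply DefP.hit | apply DefP.cdn
        | apply DefP.firstEx | apply DefP.exN | apply DefP.end_ | apply DefP.isZero
        | apply DefP.isSucc | apply DefP.alt | apply DefP.exr | apply DefP.exl | apply DefP.side
        | apply DefP.oddCard | apply DefP.cardEq | apply DefP.cardLt | apply DefP.cardLe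
        | apply DefP.lst | apply DefP.fst | apply DefP.nxt | apply DefP.keyLe | apply DefP.keyLt
        | apply DefP.rtc | (apply DefP.app4; assumption) | (apply DefP.app3'; assumption)
        | (apply DefP.app3; assumption) | (apply DefP.app2; assumption)
        | (apply DefP.comp; assumption) | exact Tm.id | exact Tm.unit | apply Tm.fst
        | apply Tm.snd | apply Tm.app | exact DefP.const _ | apply DefP.and | apply DefP.not
        | apply DefP.or | apply DefP.iff | apply DefP.adj | apply DefP.le | apply DefP.lt
        | apply DefP.eqFin | apply DefP.eq | apply DefP.rv | apply DefP.imp | apply DefP.allFin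
        | apply DefP.exFin | apply DefP.all | apply DefP.ex | assumption
        | (apply Tm.comp; assumption) | apply Tm.pair | apply Tm.lam))
    · (repeat' (first
        | apply DefP.nOne | apply DefP.nZero | apply DefP.nSucc | apply DefP.nAdd
        | apply DefP.nLt | apply DefP.nLe | apply DefP.nEq | apply DefP.hlf | apply DefP.p1le
        | apply DefP.p1 | apply DefP.p0 | apply DefP.aug | apply DefP.pth | apply DefP.nx
        | apply DefP.cnd | apply DefP.hmin | apply DefP.hit | apply DefP.cdn
        | apply DefP.firstEx | apply DefP.exN | apply DefP.end_ | apply DefP.isZero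
        | apply DefP.isSucc | apply DefP.alt | apply DefP.exr | apply DefP.exl | apply DefP.side
        | apply DefP.oddCard | apply DefP.cardEq | apply DefP.cardLt | apply DefP.cardLe
        | apply DefP.lst | apply DefP.fst | apply DefP.nxt | apply DefP.keyLe | apply DefP.keyLt
        | apply DefP.rtc | (apply DefP.app4; assumption) | (apply DefP.app3'; assumption)
        | (apply DefP.app3; assumption) | (apply DefP.app2; assumption)
        | (apply DefP.comp; assumption) | exact Tm.id | exact Tm.unit | apply Tm.fst
        | apply Tm.snd | apply Tm.app | exact DefP.const _ | apply DefP.and | apply DefP.not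
        | apply DefP.or | apply DefP.iff | apply DefP.adj | apply DefP.le | apply DefP.lt
        | apply DefP.eqFin | apply DefP.eq | apply DefP.rv | apply DefP.imp | apply DefP.allFin
        | apply DefP.exFin | apply DefP.all | apply DefP.ex | assumption
        | (apply Tm.comp; assumption) | apply Tm.pair | apply Tm.lam))
    · exact DefZ.comp (E := fun n => (E n × S n) × S n) h2 (f := fun n y => y.1.1) (by (repeat' (first
        | apply DefP.nOne | apply DefP.nZero | apply DefP.nSucc | apply DefP.nAdd
        | apply DefP.nLt | apply DefP.nLe | apply DefP.nEq | apply DefP.hlf | apply DefP.p1le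
        | apply DefP.p1 | apply DefP.p0 | apply DefP.aug | apply DefP.pth | apply DefP.nx
        | apply DefP.cnd | apply DefP.hmin | apply DefP.hit | apply DefP.cdn
        | apply DefP.firstEx | apply DefP.exN | apply DefP.end_ | apply DefP.isZero
        | apply DefP.isSucc | apply DefP.alt | apply DefP.exr | apply DefP.exl | apply DefP.side
        | apply DefP.oddCard | apply DefP.cardEq | apply DefP.cardLt | apply DefP.cardLe
        | apply DefP.lst | apply DefP.fst | apply DefP.nxt | apply DefP.keyLe | apply DefP.keyLt
        | apply DefP.rtc | (apply DefP.app4; assumption) | (apply DefP.app3'; assumption)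
        | (apply DefP.app3; assumption) | (apply DefP.app2; assumption)
        | (apply DefP.comp; assumption) | exact Tm.id | exact Tm.unit | apply Tm.fst
        | apply Tm.snd | apply Tm.app | exact DefP.const _ | apply DefP.and | apply DefP.not
        | apply DefP.or | apply DefP.iff | apply DefP.adj | apply DefP.le | apply DefP.lt
        | apply DefP.eqFin | apply DefP.eq | apply DefP.rv | apply DefP.imp | apply DefP.allFin
        | apply DefP.exFin | apply DefP.all | apply DefP.ex | assumption
        | (apply Tm.comp; assumption) | apply Tm.pair | apply Tm.lam)))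
    · exact hp.comp (Tm.fst (Tm.fst Tm.id))
  unfold DefZ at h1 h3 ⊢
  have h3' : DefP (E := fun n => (E n × S n) × S n)
      (fun n G X y => rsd (p n y.1.1) y.1.2 (∑ t : S n, cnd (nv t < nv y.2) (ψ n G X y.1.1) 0)) :=
    DefP.comp (F := fun n => (E n × S n) × S n)
      (f := fun n (y : (E n × S n) × S n) => ((y.1.1, y.2), y.1.2)) h3 (by (repeat' (first
          | apply DefP.nOne | apply DefP.nZero | apply DefP.nSucc | apply DefP.nAdd
          | apply DefP.nLt | apply DefP.nLe | apply DefP.nEq | apply DefP.hlf | apply DefP.p1le
          | apply DefP.p1 | apply DefP.p0 | apply DefP.aug | apply DefP.pth | apply DefP.nx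
          | apply DefP.cnd | apply DefP.hmin | apply DefP.hit | apply DefP.cdn
          | apply DefP.firstEx | apply DefP.exN | apply DefP.end_ | apply DefP.isZero
          | apply DefP.isSucc | apply DefP.alt | apply DefP.exr | apply DefP.exl
          | apply DefP.side | apply DefP.oddCard | apply DefP.cardEq | apply DefP.cardLt
          | apply DefP.cardLe | apply DefP.lst | apply DefP.fst | apply DefP.nxt
          | apply DefP.keyLe | apply DefP.keyLt | apply DefP.rtc | (apply DefP.app4; assumption)
          | (apply DefP.app3'; assumption) | (apply DefP.app3; assumption)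
          | (apply DefP.app2; assumption) | (apply DefP.comp; assumption) | exact Tm.id
          | exact Tm.unit | apply Tm.fst | apply Tm.snd | apply Tm.app | exact DefP.const _
          | apply DefP.and | apply DefP.not | apply DefP.or | apply DefP.iff | apply DefP.adj
          | apply DefP.le | apply DefP.lt | apply DefP.eqFin | apply DefP.eq | apply DefP.rv
          | apply DefP.imp | apply DefP.allFin | apply DefP.exFin | apply DefP.all
          | apply DefP.ex | assumption | (apply Tm.comp; assumption) | apply Tm.pair
          | apply Tm.lam)))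
  have h1' : DefP (E := fun n => (E n × S n) × S n)
      (fun n G X y => rsd (p n y.1.1) y.2 (φ n G X y.1.1)) :=
    DefP.comp (F := fun n => E n × S n)
      (f := fun n (y : (E n × S n) × S n) => (y.1.1, y.2)) h1 (by (repeat' (first
          | apply DefP.nOne | apply DefP.nZero | apply DefP.nSucc | apply DefP.nAdd
          | apply DefP.nLt | apply DefP.nLe | apply DefP.nEq | apply DefP.hlf | apply DefP.p1le
          | apply DefP.p1 | apply DefP.p0 | apply DefP.aug | apply DefP.pth | apply DefP.nx
          | apply DefP.cnd | apply DefP.hmin | apply DefP.hit | apply DefP.cdn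
          | apply DefP.firstEx | apply DefP.exN | apply DefP.end_ | apply DefP.isZero
          | apply DefP.isSucc | apply DefP.alt | apply DefP.exr | apply DefP.exl
          | apply DefP.side | apply DefP.oddCard | apply DefP.cardEq | apply DefP.cardLt
          | apply DefP.cardLe | apply DefP.lst | apply DefP.fst | apply DefP.nxt
          | apply DefP.keyLe | apply DefP.keyLt | apply DefP.rtc | (apply DefP.app4; assumption)
          | (apply DefP.app3'; assumption) | (apply DefP.app3; assumption)
          | (apply DefP.app2; assumption) | (apply DefP.comp; assumption) | exact Tm.id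
          | exact Tm.unit | apply Tm.fst | apply Tm.snd | apply Tm.app | exact DefP.const _
          | apply DefP.and | apply DefP.not | apply DefP.or | apply DefP.iff | apply DefP.adj
          | apply DefP.le | apply DefP.lt | apply DefP.eqFin | apply DefP.eq | apply DefP.rv
          | apply DefP.imp | apply DefP.allFin | apply DefP.exFin | apply DefP.all
          | apply DefP.ex | assumption | (apply Tm.comp; assumption) | apply Tm.pair
          | apply Tm.lam)))
  refine DefP.congr (E := fun n => E n × S n) (P := fun n G X y => ∃ a : S n,
    rsd (p n y.1) a (φ n G X y.1) ∧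
      rsd (p n y.1) y.2 (∑ t : S n, cnd (nv t < nv a) (ψ n G X y.1) 0))
    (DefP.ex (DefP.and h1' h3')) ?_
  intro n G X y
  have e : ∀ a : S n, ∑ t : S n, cnd (nv t < nv a) (ψ n G X y.1) 0 = nv a * ψ n G X y.1 := by
    intro a
    classical
    have e : ∀ t : S n, cnd (nv t < nv a) (ψ n G X y.1) 0 =
        if nv t < nv a then ψ n G X y.1 else 0 := by
      intro t
      by_cases h : nv t < nv a
      · rw [cnd_pos h, if_pos h]
      · rw [cnd_neg h, if_neg h]
    simp only [e]
    rw [Finset.sum_ite, Finset.sum_const_zero, add_zero, Finset.sum_const, card_nv_lt]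
    simp
  have key : ∀ a : S n, rsd (p n y.1) a (φ n G X y.1) →
      (rsd (p n y.1) y.2 (∑ t : S n, cnd (nv t < nv a) (ψ n G X y.1) 0) ↔
        rsd (p n y.1) y.2 (φ n G X y.1 * ψ n G X y.1)) := by
    intro a ha
    rw [e]
    apply rsd_congr
    rw [← sub_mul]
    refine Dvd.dvd.mul_right ?_ _
    have := ha.2
    rw [← dvd_neg] at this
    rwa [neg_sub] at this
  constructor
  · rintro ⟨a, ha, h⟩
    exact (key a ha).1 h
  · intro h
    have h0 : 0 < nv (p n y.1) := by have := h.1; omega
    obtain ⟨a, ha⟩ := rsd_ex h0 (φ n G X y.1)
    exact ⟨a, ha, (key a ha).2 h⟩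

theorem DefZ.neg {p : ∀ n : ℕ, E n → S n} (hp : Tm p)
    {φ : ∀ n : ℕ, SimpleGraph (Fin n) → Ctx n → E n → ℤ} (h1 : DefZ p φ) :
    DefZ p (fun n G X x => - φ n G X x) := by
  unfold DefZ at h1 ⊢
  have h1' : DefP (E := fun n => (E n × S n) × S n)
      (fun n G X y => rsd (p n y.1.1) y.2 (φ n G X y.1.1)) :=
    DefP.comp (F := fun n => E n × S n)
      (f := fun n (y : (E n × S n) × S n) => (y.1.1, y.2)) h1 (by (repeat' (first
          | apply DefP.nOne | apply DefP.nZero | apply DefP.nSucc | apply DefP.nAdd
          | apply DefP.nLt | apply DefP.nLe | apply DefP.nEq | apply DefP.hlf | apply DefP.p1le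
          | apply DefP.p1 | apply DefP.p0 | apply DefP.aug | apply DefP.pth | apply DefP.nx
          | apply DefP.cnd | apply DefP.hmin | apply DefP.hit | apply DefP.cdn
          | apply DefP.firstEx | apply DefP.exN | apply DefP.end_ | apply DefP.isZero
          | apply DefP.isSucc | apply DefP.alt | apply DefP.exr | apply DefP.exl
          | apply DefP.side | apply DefP.oddCard | apply DefP.cardEq | apply DefP.cardLt
          | apply DefP.cardLe | apply DefP.lst | apply DefP.fst | apply DefP.nxt
          | apply DefP.keyLe | apply DefP.keyLt | apply DefP.rtc | (apply DefP.app4; assumption)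
          | (apply DefP.app3'; assumption) | (apply DefP.app3; assumption)
          | (apply DefP.app2; assumption) | (apply DefP.comp; assumption) | exact Tm.id
          | exact Tm.unit | apply Tm.fst | apply Tm.snd | apply Tm.app | exact DefP.const _
          | apply DefP.and | apply DefP.not | apply DefP.or | apply DefP.iff | apply DefP.adj
          | apply DefP.le | apply DefP.lt | apply DefP.eqFin | apply DefP.eq | apply DefP.rv
          | apply DefP.imp | apply DefP.allFin | apply DefP.exFin | apply DefP.all
          | apply DefP.ex | assumption | (apply Tm.comp; assumption) | apply Tm.pair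
          | apply Tm.lam)))
  have hp' : Tm (fun n (y : (E n × S n) × S n) => p n y.1.1) := hp.comp (Tm.fst (Tm.fst Tm.id))
  refine DefP.congr (E := fun n => E n × S n) (P := fun n G X y => ∃ a : S n,
    rsd (p n y.1) a (φ n G X y.1) ∧ ((nv a = 0 ∧ nv y.2 = 0) ∨
      (¬ (nv a = 0) ∧ nv a + nv y.2 = nv (p n y.1)))) ?_ ?_
  · refine DefP.ex (DefP.and h1' (DefP.or (DefP.and ?_ ?_) (DefP.and ?_ (DefP.nAdd ?_ ?_ hp'))))
    all_goals (repeat' (first
        | apply DefP.nOne | apply DefP.nZero | apply DefP.nSucc | apply DefP.nAdd
        | apply DefP.nLt | apply DefP.nLe | apply DefP.nEq | apply DefP.hlf | apply DefP.p1le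
        | apply DefP.p1 | apply DefP.p0 | apply DefP.aug | apply DefP.pth | apply DefP.nx
        | apply DefP.cnd | apply DefP.hmin | apply DefP.hit | apply DefP.cdn
        | apply DefP.firstEx | apply DefP.exN | apply DefP.end_ | apply DefP.isZero
        | apply DefP.isSucc | apply DefP.alt | apply DefP.exr | apply DefP.exl | apply DefP.side
        | apply DefP.oddCard | apply DefP.cardEq | apply DefP.cardLt | apply DefP.cardLe
        | apply DefP.lst | apply DefP.fst | apply DefP.nxt | apply DefP.keyLe | apply DefP.keyLt
        | apply DefP.rtc | (apply DefP.app4; assumption) | (apply DefP.app3'; assumption)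
        | (apply DefP.app3; assumption) | (apply DefP.app2; assumption)
        | (apply DefP.comp; assumption) | exact Tm.id | exact Tm.unit | apply Tm.fst
        | apply Tm.snd | apply Tm.app | exact DefP.const _ | apply DefP.and | apply DefP.not
        | apply DefP.or | apply DefP.iff | apply DefP.adj | apply DefP.le | apply DefP.lt
        | apply DefP.eqFin | apply DefP.eq | apply DefP.rv | apply DefP.imp | apply DefP.allFin
        | apply DefP.exFin | apply DefP.all | apply DefP.ex | assumption
        | (apply Tm.comp; assumption) | apply Tm.pair | apply Tm.lam))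
  · intro n G X y
    have key : ∀ a s : S n, rsd (p n y.1) a (φ n G X y.1) → ((nv a = 0 ∧ nv s = 0) ∨
        (¬ (nv a = 0) ∧ nv a + nv s = nv (p n y.1))) → rsd (p n y.1) s (- φ n G X y.1) := by
      intro a s ha h
      have h2 := ha.1
      have h3 := ha.2
      rcases h with ⟨h4, h5⟩ | ⟨h4, h5⟩
      · refine ⟨by omega, ?_⟩
        rw [h4] at h3
        rw [h5]
        simpa using h3
      · refine ⟨by omega, ?_⟩
        have h6 := dvd_add h3 (dvd_refl (nv (p n y.1) : ℤ))
        rw [← dvd_neg] at h6
        have h7 : (nv (p n y.1) : ℤ) = nv a + nv s := by exact_mod_cast h5.symm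
        have e : -(φ n G X y.1 - nv a + (nv (p n y.1) : ℤ)) = - φ n G X y.1 - nv s := by
          rw [h7]; ring
        rwa [e] at h6
    constructor
    · rintro ⟨a, ha, h⟩
      exact key a _ ha h
    · intro h
      have h0 : 0 < nv (p n y.1) := by have := h.1; omega
      obtain ⟨a, ha⟩ := rsd_ex h0 (φ n G X y.1)
      refine ⟨a, ha, ?_⟩
      have ha1 := ha.1
      by_cases h2 : nv a = 0
      · have h3 := key a a ha (Or.inl ⟨h2, h2⟩)
        have h4 := rsd_unique h h3 (by simp)
        left
        rw [h4]
        exact ⟨h2, h2⟩
      · obtain ⟨s, hs⟩ := nv_down (b := p n y.1) (m := nv (p n y.1) - nv a) (by omega)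
        have h3 := key a s ha (Or.inr ⟨h2, by omega⟩)
        have h4 := rsd_unique h h3 (by simp)
        right
        rw [h4]
        exact ⟨h2, by omega⟩

theorem DefZ.sub {p : ∀ n : ℕ, E n → S n} (hp : Tm p)
    {φ ψ : ∀ n : ℕ, SimpleGraph (Fin n) → Ctx n → E n → ℤ} (h1 : DefZ p φ) (h2 : DefZ p ψ) :
    DefZ p (fun n G X x => φ n G X x - ψ n G X x) :=
  (DefZ.add hp h1 (DefZ.neg hp h2)).congr fun n G X x => (sub_eq_add_neg _ _).symm

theorem DefZ.dvd {p : ∀ n : ℕ, E n → S n}
    {φ : ∀ n : ℕ, SimpleGraph (Fin n) → Ctx n → E n → ℤ} (h1 : DefZ p φ) :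
    DefP (fun n G X x => 0 < nv (p n x) ∧ (nv (p n x) : ℤ) ∣ φ n G X x) := by
  unfold DefZ at h1
  refine DefP.congr (P := fun n G X x => ∃ s : S n, nv s = 0 ∧ rsd (p n x) s (φ n G X x))
    (DefP.ex (DefP.and (by (repeat' (first
        | apply DefP.nOne | apply DefP.nZero | apply DefP.nSucc | apply DefP.nAdd
        | apply DefP.nLt | apply DefP.nLe | apply DefP.nEq | apply DefP.hlf | apply DefP.p1le
        | apply DefP.p1 | apply DefP.p0 | apply DefP.aug | apply DefP.pth | apply DefP.nx
        | apply DefP.cnd | apply DefP.hmin | apply DefP.hit | apply DefP.cdn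
        | apply DefP.firstEx | apply DefP.exN | apply DefP.end_ | apply DefP.isZero
        | apply DefP.isSucc | apply DefP.alt | apply DefP.exr | apply DefP.exl | apply DefP.side
        | apply DefP.oddCard | apply DefP.cardEq | apply DefP.cardLt | apply DefP.cardLe
        | apply DefP.lst | apply DefP.fst | apply DefP.nxt | apply DefP.keyLe | apply DefP.keyLt
        | apply DefP.rtc | (apply DefP.app4; assumption) | (apply DefP.app3'; assumption)
        | (apply DefP.app3; assumption) | (apply DefP.app2; assumption)
        | (apply DefP.comp; assumption) | exact Tm.id | exact Tm.unit | apply Tm.fst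
        | apply Tm.snd | apply Tm.app | exact DefP.const _ | apply DefP.and | apply DefP.not
        | apply DefP.or | apply DefP.iff | apply DefP.adj | apply DefP.le | apply DefP.lt
        | apply DefP.eqFin | apply DefP.eq | apply DefP.rv | apply DefP.imp | apply DefP.allFin
        | apply DefP.exFin | apply DefP.all | apply DefP.ex | assumption
        | (apply Tm.comp; assumption) | apply Tm.pair | apply Tm.lam))) h1)) ?_
  intro n G X x
  constructor
  · rintro ⟨s, h2, h3, h4⟩
    refine ⟨by omega, ?_⟩
    rw [h2] at h4
    simpa using h4
  · rintro ⟨h2, h3⟩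
    obtain ⟨s, hs⟩ := nv_down (b := p n x) h2
    exact ⟨s, hs, by omega, by rw [hs]; simpa using h3⟩

theorem DefZ.ndvd {p : ∀ n : ℕ, E n → S n} (hp : Tm p)
    {φ : ∀ n : ℕ, SimpleGraph (Fin n) → Ctx n → E n → ℤ} (h1 : DefZ p φ) :
    DefP (fun n G X x => 0 < nv (p n x) ∧ ¬ (nv (p n x) : ℤ) ∣ φ n G X x) := by
  refine DefP.congr (P := fun n G X x => ¬ (nv (p n x) = 0) ∧
    ¬ (0 < nv (p n x) ∧ (nv (p n x) : ℤ) ∣ φ n G X x))
    (DefP.and (DefP.not (DefP.nZero hp)) (DefP.not (DefZ.dvd h1))) ?_
  intro n G X x
  have : ¬ (nv (p n x) = 0) ↔ 0 < nv (p n x) := Nat.pos_iff_ne_zero.symm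
  rw [this]
  tauto

/-- the product modulo `p` as a relation between tuples -/
theorem DefP.mmod [∀ n, Fintype (S n)] {p : ∀ n : ℕ, E n → S n} (hp : Tm p) :
    DefP (E := fun n => E n × (S n × (S n × S n)))
      (fun n G X y => rsd (p n y.1) y.2.2.2 (((nv y.2.1 : ℕ) : ℤ) * ((nv y.2.2.1 : ℕ) : ℤ))) := by
  have h : DefZ (E := fun n => E n × (S n × S n)) (fun n y => p n y.1)
      (fun n G X y => ((nv y.2.1 : ℕ) : ℤ) * ((nv y.2.2 : ℕ) : ℤ)) := by
    refine DefZ.mul (hp.comp (Tm.fst Tm.id)) (DefZ.nv' (H := S) (hp.comp (Tm.fst Tm.id)) ?_)
      (DefZ.nv' (H := S) (hp.comp (Tm.fst Tm.id)) ?_)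
    all_goals (repeat' (first
        | apply DefP.nOne | apply DefP.nZero | apply DefP.nSucc | apply DefP.nAdd
        | apply DefP.nLt | apply DefP.nLe | apply DefP.nEq | apply DefP.hlf | apply DefP.p1le
        | apply DefP.p1 | apply DefP.p0 | apply DefP.aug | apply DefP.pth | apply DefP.nx
        | apply DefP.cnd | apply DefP.hmin | apply DefP.hit | apply DefP.cdn
        | apply DefP.firstEx | apply DefP.exN | apply DefP.end_ | apply DefP.isZero
        | apply DefP.isSucc | apply DefP.alt | apply DefP.exr | apply DefP.exl | apply DefP.side
        | apply DefP.oddCard | apply DefP.cardEq | apply DefP.cardLt | apply DefP.cardLe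
        | apply DefP.lst | apply DefP.fst | apply DefP.nxt | apply DefP.keyLe | apply DefP.keyLt
        | apply DefP.rtc | (apply DefP.app4; assumption) | (apply DefP.app3'; assumption)
        | (apply DefP.app3; assumption) | (apply DefP.app2; assumption)
        | (apply DefP.comp; assumption) | exact Tm.id | exact Tm.unit | apply Tm.fst
        | apply Tm.snd | apply Tm.app | exact DefP.const _ | apply DefP.and | apply DefP.not
        | apply DefP.or | apply DefP.iff | apply DefP.adj | apply DefP.le | apply DefP.lt
        | apply DefP.eqFin | apply DefP.eq | apply DefP.rv | apply DefP.imp | apply DefP.allFin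
        | apply DefP.exFin | apply DefP.all | apply DefP.ex | assumption
        | (apply Tm.comp; assumption) | apply Tm.pair | apply Tm.lam))
  unfold DefZ at h
  exact DefP.comp (F := fun n => (E n × (S n × S n)) × S n)
    (f := fun n (y : E n × (S n × (S n × S n))) => ((y.1, (y.2.1, y.2.2.1)), y.2.2.2)) h (by (repeat' (first
        | apply DefP.nOne | apply DefP.nZero | apply DefP.nSucc | apply DefP.nAdd
        | apply DefP.nLt | apply DefP.nLe | apply DefP.nEq | apply DefP.hlf | apply DefP.p1le
        | apply DefP.p1 | apply DefP.p0 | apply DefP.aug | apply DefP.pth | apply DefP.nx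
        | apply DefP.cnd | apply DefP.hmin | apply DefP.hit | apply DefP.cdn
        | apply DefP.firstEx | apply DefP.exN | apply DefP.end_ | apply DefP.isZero
        | apply DefP.isSucc | apply DefP.alt | apply DefP.exr | apply DefP.exl | apply DefP.side
        | apply DefP.oddCard | apply DefP.cardEq | apply DefP.cardLt | apply DefP.cardLe
        | apply DefP.lst | apply DefP.fst | apply DefP.nxt | apply DefP.keyLe | apply DefP.keyLt
        | apply DefP.rtc | (apply DefP.app4; assumption) | (apply DefP.app3'; assumption)
        | (apply DefP.app3; assumption) | (apply DefP.app2; assumption)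
        | (apply DefP.comp; assumption) | exact Tm.id | exact Tm.unit | apply Tm.fst
        | apply Tm.snd | apply Tm.app | exact DefP.const _ | apply DefP.and | apply DefP.not
        | apply DefP.or | apply DefP.iff | apply DefP.adj | apply DefP.le | apply DefP.lt
        | apply DefP.eqFin | apply DefP.eq | apply DefP.rv | apply DefP.imp | apply DefP.allFin
        | apply DefP.exFin | apply DefP.all | apply DefP.ex | assumption
        | (apply Tm.comp; assumption) | apply Tm.pair | apply Tm.lam)))

theorem DefZ.prod [∀ n, Fintype (F n)] [∀ n, Fintype (S n)] {p : ∀ n : ℕ, E n → S n} (hp : Tm p)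
    {φ : ∀ n : ℕ, SimpleGraph (Fin n) → Ctx n → E n → F n → ℤ}
    (h : DefZ (E := fun n => E n × F n) (fun n y => p n y.1) (fun n G X y => φ n G X y.1 y.2)) :
    DefZ p (fun n G X x => ∏ t : F n, φ n G X x t) := by
  unfold DefZ at h ⊢
  have h1 := DefP.fdR (E := E) (S := S) (F := F)
    (init := fun n G X x s => rsd (p n x) s 1)
    (o := fun n G X x a b c => rsd (p n x) c (((nv a : ℕ) : ℤ) * ((nv b : ℕ) : ℤ)))
    (r := fun n G X x t s => rsd (p n x) s (φ n G X x t)) ?_ ?_ ?_
  · refine DefP.congr (E := fun n => E n × S n) h1 fun n G X y => ?_
    rcases Nat.eq_zero_or_pos (nv (p n y.1)) with h0 | h0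
    · constructor
      · rintro ⟨z, l, i, a, b, _, h2, _⟩
        have := h2.1
        omega
      · intro h2
        have := h2.1
        omega
    · have hn := pos_of_nv h0
      rw [fdR_iff (p := p n y.1)
        (fun k => ∏ u ∈ Finset.univ.filter (fun u : F n => nv u < k), φ n G X y.1 u)
        (fun t => φ n G X y.1 t) (fun a b => a * b) h0 (nonempty_env hn)
        (fun t => prod_lt_succ _ t) (fun t s => Iff.rfl) ?_ ?_]
      · rw [filter_all]
      · intro a b c x' y' ha hb
        apply rsd_congr
        have e : ((nv a : ℕ) : ℤ) * ((nv b : ℕ) : ℤ) - x' * y' =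
            -((x' - nv a) * y' + nv a * (y' - nv b)) := by ring
        rw [e, dvd_neg]
        exact dvd_add (Dvd.dvd.mul_right ha.2 _) (Dvd.dvd.mul_left hb.2 _)
      · intro s
        rw [filter_none, Finset.prod_empty]
  · exact DefZ.one hp
  · exact DefP.mmod hp
  · exact DefP.comp (E := fun n => E n × (F n × S n)) (F := fun n => (E n × F n) × S n)
      (f := fun n y => ((y.1, y.2.1), y.2.2)) h (by (repeat' (first
          | apply DefP.nOne | apply DefP.nZero | apply DefP.nSucc | apply DefP.nAdd
          | apply DefP.nLt | apply DefP.nLe | apply DefP.nEq | apply DefP.hlf | apply DefP.p1le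
          | apply DefP.p1 | apply DefP.p0 | apply DefP.aug | apply DefP.pth | apply DefP.nx
          | apply DefP.cnd | apply DefP.hmin | apply DefP.hit | apply DefP.cdn
          | apply DefP.firstEx | apply DefP.exN | apply DefP.end_ | apply DefP.isZero
          | apply DefP.isSucc | apply DefP.alt | apply DefP.exr | apply DefP.exl
          | apply DefP.side | apply DefP.oddCard | apply DefP.cardEq | apply DefP.cardLt
          | apply DefP.cardLe | apply DefP.lst | apply DefP.fst | apply DefP.nxt
          | apply DefP.keyLe | apply DefP.keyLt | apply DefP.rtc | (apply DefP.app4; assumption)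
          | (apply DefP.app3'; assumption) | (apply DefP.app3; assumption)
          | (apply DefP.app2; assumption) | (apply DefP.comp; assumption) | exact Tm.id
          | exact Tm.unit | apply Tm.fst | apply Tm.snd | apply Tm.app | exact DefP.const _
          | apply DefP.and | apply DefP.not | apply DefP.or | apply DefP.iff | apply DefP.adj
          | apply DefP.le | apply DefP.lt | apply DefP.eqFin | apply DefP.eq | apply DefP.rv
          | apply DefP.imp | apply DefP.allFin | apply DefP.exFin | apply DefP.all
          | apply DefP.ex | assumption | (apply Tm.comp; assumption) | apply Tm.pair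
          | apply Tm.lam)))

/-- powers with a tuple as exponent -/
theorem DefZ.pow [∀ n, Fintype (H n)] [∀ n, Fintype (S n)] {p : ∀ n : ℕ, E n → S n} (hp : Tm p)
    {φ : ∀ n : ℕ, SimpleGraph (Fin n) → Ctx n → E n → ℤ} (h1 : DefZ p φ)
    {f : ∀ n : ℕ, E n → H n} (hf : Tm f) :
    DefZ p (fun n G X x => φ n G X x ^ nv (f n x)) := by
  have h2 : DefZ p (fun n G X x => ∏ t : H n, cnd (nv t < nv (f n x)) (φ n G X x) 1) := by
    refine DefZ.prod hp (DefZ.ite (DefP.nLt ?_ ?_) ?_ (DefZ.one ?_))
    · (repeat' (first
        | apply DefP.nOne | apply DefP.nZero | apply DefP.nSucc | apply DefP.nAdd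
        | apply DefP.nLt | apply DefP.nLe | apply DefP.nEq | apply DefP.hlf | apply DefP.p1le
        | apply DefP.p1 | apply DefP.p0 | apply DefP.aug | apply DefP.pth | apply DefP.nx
        | apply DefP.cnd | apply DefP.hmin | apply DefP.hit | apply DefP.cdn
        | apply DefP.firstEx | apply DefP.exN | apply DefP.end_ | apply DefP.isZero
        | apply DefP.isSucc | apply DefP.alt | apply DefP.exr | apply DefP.exl | apply DefP.side
        | apply DefP.oddCard | apply DefP.cardEq | apply DefP.cardLt | apply DefP.cardLe
        | apply DefP.lst | apply DefP.fst | apply DefP.nxt | apply DefP.keyLe | apply DefP.keyLt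
        | apply DefP.rtc | (apply DefP.app4; assumption) | (apply DefP.app3'; assumption)
        | (apply DefP.app3; assumption) | (apply DefP.app2; assumption)
        | (apply DefP.comp; assumption) | exact Tm.id | exact Tm.unit | apply Tm.fst
        | apply Tm.snd | apply Tm.app | exact DefP.const _ | apply DefP.and | apply DefP.not
        | apply DefP.or | apply DefP.iff | apply DefP.adj | apply DefP.le | apply DefP.lt
        | apply DefP.eqFin | apply DefP.eq | apply DefP.rv | apply DefP.imp | apply DefP.allFin
        | apply DefP.exFin | apply DefP.all | apply DefP.ex | assumption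
        | (apply Tm.comp; assumption) | apply Tm.pair | apply Tm.lam))
    · exact hf.comp (Tm.fst Tm.id)
    · exact DefZ.comp (E := fun n => E n × H n) h1 (f := fun n y => y.1) (by (repeat' (first
        | apply DefP.nOne | apply DefP.nZero | apply DefP.nSucc | apply DefP.nAdd
        | apply DefP.nLt | apply DefP.nLe | apply DefP.nEq | apply DefP.hlf | apply DefP.p1le
        | apply DefP.p1 | apply DefP.p0 | apply DefP.aug | apply DefP.pth | apply DefP.nx
        | apply DefP.cnd | apply DefP.hmin | apply DefP.hit | apply DefP.cdn
        | apply DefP.firstEx | apply DefP.exN | apply DefP.end_ | apply DefP.isZero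
        | apply DefP.isSucc | apply DefP.alt | apply DefP.exr | apply DefP.exl | apply DefP.side
        | apply DefP.oddCard | apply DefP.cardEq | apply DefP.cardLt | apply DefP.cardLe
        | apply DefP.lst | apply DefP.fst | apply DefP.nxt | apply DefP.keyLe | apply DefP.keyLt
        | apply DefP.rtc | (apply DefP.app4; assumption) | (apply DefP.app3'; assumption)
        | (apply DefP.app3; assumption) | (apply DefP.app2; assumption)
        | (apply DefP.comp; assumption) | exact Tm.id | exact Tm.unit | apply Tm.fst
        | apply Tm.snd | apply Tm.app | exact DefP.const _ | apply DefP.and | apply DefP.not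
        | apply DefP.or | apply DefP.iff | apply DefP.adj | apply DefP.le | apply DefP.lt
        | apply DefP.eqFin | apply DefP.eq | apply DefP.rv | apply DefP.imp | apply DefP.allFin
        | apply DefP.exFin | apply DefP.all | apply DefP.ex | assumption
        | (apply Tm.comp; assumption) | apply Tm.pair | apply Tm.lam)))
    · exact hp.comp (Tm.fst Tm.id)
  refine h2.congr fun n G X x => ?_
  classical
  have e : ∀ t : H n, cnd (nv t < nv (f n x)) (φ n G X x) 1 =
      if nv t < nv (f n x) then φ n G X x else 1 := by
    intro t
    by_cases h : nv t < nv (f n x)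
    · rw [cnd_pos h, if_pos h]
    · rw [cnd_neg h, if_neg h]
  simp only [e]
  rw [Finset.prod_ite, Finset.prod_const_one, mul_one, Finset.prod_const, card_nv_lt]

end def_

end Pool.Agent.PMNC
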