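import Mathlib
import Pool.Agent.Lib.MP_0087d5_lc.ZRing

set_option autoImplicit false
set_option linter.all false

/-!
# Path sums in layered graphs are definable
-/

namespace Pool.Agent.PMNC

open Relation

section
variable {H A S : ℕ → Type} [Env H] [Env A] [Env S] [∀ n, Fintype (H n)] [∀ n, Fintype (A n)]
  [∀ n, Fintype (S n)] {n : ℕ}

/-- the layered matrix -/
noncomputable def lym (M : H n × A n → H n × A n → ℤ) : Matrix (H n × A n) (H n × A n) ℤ :=
  Matrix.of fun a b => cnd (nv b.1 = nv a.1 + 1) (M a b) 0

open Classical in
/-- the sum over all paths from `a` to `b` -/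
noncomputable def psum (M : H n × A n → H n × A n → ℤ) (a b : H n × A n) : ℤ :=
  (lym M ^ (nv b.1 - nv a.1)) a b

open Classical in
theorem lym_pow_ne (M : H n × A n → H n × A n → ℤ) (k : ℕ) : ∀ (a b : H n × A n),
    nv b.1 ≠ nv a.1 + k → (lym M ^ k) a b = 0 := by
  induction k with
  | zero =>
    intro a b h
    rw [pow_zero, Matrix.one_apply, if_neg]
    rintro rfl
    exact h rfl
  | succ k ih =>
    intro a b h
    rw [pow_succ, Matrix.mul_apply]
    refine Finset.sum_eq_zero fun m _ => ?_
    by_cases h1 : nv m.1 = nv a.1 + k
    · have : lym M m b = 0 := by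
        unfold lym
        rw [Matrix.of_apply, cnd_neg (by omega)]
      rw [this, mul_zero]
    · rw [ih a m h1, zero_mul]

open Classical in
theorem psum_le (M : H n × A n → H n × A n → ℤ) {a b : H n × A n} (h : nv b.1 ≤ nv a.1) :
    psum M a b = cnd (a = b) 1 0 := by
  unfold psum
  rw [show nv b.1 - nv a.1 = 0 by omega, pow_zero, Matrix.one_apply]
  by_cases hab : a = b
  · rw [if_pos hab, cnd_pos hab]
  · rw [if_neg hab, cnd_neg hab]

theorem psum_one (M : H n × A n → H n × A n → ℤ) {a b : H n × A n} (h : nv b.1 = nv a.1 + 1) :
    psum M a b = M a b := by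
  classical
  unfold psum
  rw [show nv b.1 - nv a.1 = 1 by omega, pow_one]
  unfold lym
  rw [Matrix.of_apply, cnd_pos h]

/-- `m` is in the middle layer between `a` and `b` -/
def mid (a m b : H n × A n) : Prop := ∃ d : H n, nv a.1 + nv d = nv m.1 ∧
  (nv m.1 + nv d = nv b.1 ∨ ∃ d' : H n, nv d' = nv d + 1 ∧ nv m.1 + nv d' = nv b.1)

theorem mid_iff {a m b : H n × A n} (h : nv a.1 + 2 ≤ nv b.1) :
    mid a m b ↔ nv m.1 = nv a.1 + (nv b.1 - nv a.1) / 2 := by
  constructor
  · rintro ⟨d, h1, h2 | ⟨d', h2, h3⟩⟩
    · omega
    · omega
  · intro h1
    obtain ⟨d, hd⟩ := nv_down' (b := b.1) (m := (nv b.1 - nv a.1) / 2) (by omega)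
    refine ⟨d, by omega, ?_⟩
    rcases Nat.even_or_odd' (nv b.1 - nv a.1) with ⟨q, hq | hq⟩
    · left
      omega
    · right
      obtain ⟨d', hd'⟩ := nv_down' (b := b.1) (m := nv d + 1) (by omega)
      exact ⟨d', hd', by omega⟩

theorem psum_mid (M : H n × A n → H n × A n → ℤ) {a b : H n × A n} (h : nv a.1 + 2 ≤ nv b.1) :
    psum M a b = ∑ m : H n × A n, cnd (mid a m b) (psum M a m * psum M m b) 0 := by
  classical
  have e : nv b.1 - nv a.1 = (nv b.1 - nv a.1) / 2 + (nv b.1 - nv a.1 - (nv b.1 - nv a.1) / 2) := by
    omega
  have h1 : psum M a b = ∑ m : H n × A n, (lym M ^ ((nv b.1 - nv a.1) / 2)) a m *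
      (lym M ^ (nv b.1 - nv a.1 - (nv b.1 - nv a.1) / 2)) m b := by
    unfold psum
    conv_lhs => rw [e]
    rw [pow_add, Matrix.mul_apply]
  rw [h1]
  refine Finset.sum_congr rfl fun m _ => ?_
  by_cases hm : mid a m b
  · rw [cnd_pos hm]
    rw [mid_iff h] at hm
    unfold psum
    rw [show nv m.1 - nv a.1 = (nv b.1 - nv a.1) / 2 by omega,
      show nv b.1 - nv m.1 = nv b.1 - nv a.1 - (nv b.1 - nv a.1) / 2 by omega]
  · rw [cnd_neg hm]
    rw [mid_iff h] at hm
    rw [lym_pow_ne M _ a m hm, zero_mul]

/-- the number stored in a relation -/
noncomputable def vl {B : Type*} (R : B × S n → Prop) (b : B) : ℤ :=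
  ∑ s : S n, cnd (R (b, s)) ((nv s : ℕ) : ℤ) 0

theorem vl_eq {B : Type*} {p : S n} {R : B × S n → Prop} {b : B} {a : ℤ} (hp : 0 < nv p)
    (h : ∀ s, R (b, s) ↔ rsd p s a) : (nv p : ℤ) ∣ a - vl R b := by
  obtain ⟨s, hs⟩ := rsd_ex hp a
  have h1 : vl R b = nv s := by
    unfold vl
    rw [Finset.sum_eq_single s]
    · rw [cnd_pos ((h s).2 hs)]
    · intro t _ ht
      rw [cnd_neg]
      intro h2
      exact ht ((rsd_unique ((h t).1 h2) hs (by simp)))
    · intro h2
      exact absurd (Finset.mem_univ _) h2
  rw [h1]
  exact hs.2

/-- one step of the computation of the path sums -/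
noncomputable def pvl (M : H n × A n → H n × A n → ℤ)
    (R : ((H n × A n) × (H n × A n)) × S n → Prop) (a b : H n × A n) : ℤ :=
  cnd (nv b.1 ≤ nv a.1) (cnd (a = b) 1 0) (cnd (nv b.1 = nv a.1 + 1) (M a b)
    (∑ m : H n × A n, cnd (mid a m b) (vl R (a, m) * vl R (m, b)) 0))

theorem pvl_iterate {p : S n} (hp : 0 < nv p) (M : H n × A n → H n × A n → ℤ)
    (R₀ : ((H n × A n) × (H n × A n)) × S n → Prop) (k : ℕ) : ∀ (a b : H n × A n) (s : S n),
    nv b.1 ≤ nv a.1 + 2 ^ k →
    (((fun R (y : ((H n × A n) × (H n × A n)) × S n) => rsd p y.2 (pvl M R y.1.1 y.1.2))^[k + 1] R₀)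
      ((a, b), s) ↔ rsd p s (psum M a b)) := by
  induction k with
  | zero =>
    intro a b s h
    rw [zero_add, Function.iterate_one]
    beta_reduce
    show rsd p s (pvl M R₀ a b) ↔ _
    unfold pvl
    by_cases h1 : nv b.1 ≤ nv a.1
    · rw [cnd_pos h1, psum_le M h1]
    · have h2 : nv b.1 = nv a.1 + 1 := by
        rw [pow_zero] at h
        omega
      rw [cnd_neg h1, cnd_pos h2, psum_one M h2]
  | succ k ih =>
    intro a b s h
    rw [Function.iterate_succ_apply']
    generalize hR : ((fun R (y : ((H n × A n) × (H n × A n)) × S n) =>
      rsd p y.2 (pvl M R y.1.1 y.1.2))^[k + 1] R₀) = R at ih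
    show rsd p s (pvl M R a b) ↔ _
    unfold pvl
    by_cases h1 : nv b.1 ≤ nv a.1
    · rw [cnd_pos h1, psum_le M h1]
    · rw [cnd_neg h1]
      by_cases h2 : nv b.1 = nv a.1 + 1
      · rw [cnd_pos h2, psum_one M h2]
      · rw [cnd_neg h2, psum_mid M (by omega)]
        apply rsd_congr
        rw [← Finset.sum_sub_distrib]
        refine Finset.dvd_sum fun m _ => ?_
        by_cases hm : mid a m b
        · rw [cnd_pos hm, cnd_pos hm]
          rw [mid_iff (by omega)] at hm
          rw [pow_succ] at h
          have e1 := vl_eq hp (fun s => ih a m s (by omega))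
          have e2 := vl_eq hp (fun s => ih m b s (by omega))
          have e : vl R (a, m) * vl R (m, b) - psum M a m * psum M m b =
              -((psum M a m - vl R (a, m)) * psum M m b +
                vl R (a, m) * (psum M m b - vl R (m, b))) := by ring
          rw [e, dvd_neg]
          exact dvd_add (Dvd.dvd.mul_right e1 _) (Dvd.dvd.mul_left e2 _)
        · rw [cnd_neg hm, cnd_neg hm]
          simp

end

section def_
variable {E H A S : ℕ → Type} [Env E] [Env H] [Env A] [Env S] [∀ n, Fintype (H n)]
  [∀ n, Fintype (A n)] [∀ n, Fintype (S n)]

theorem DefZ.pop {p : ∀ n : ℕ, E n → S n} {φ : ∀ n : ℕ, SimpleGraph (Fin n) → Ctx n → E n → ℤ}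
    (h : DefZ p φ) : DefZ p (fun n G X x => φ n G (PMNC.pop X) x) := by
  unfold DefZ at h ⊢
  exact DefP.pop (E := fun n => E n × S n) h

theorem DefZ.vl {B : ℕ → Type} [Env B] {p : ∀ n : ℕ, E n → S n} (hp : Tm p)
    {R : ∀ n : ℕ, SimpleGraph (Fin n) → Ctx n → E n → B n × S n → Prop}
    (hR : DefP (E := fun n => E n × (B n × S n)) (fun n G X y => R n G X y.1 y.2))
    {f : ∀ n : ℕ, E n → B n} (hf : Tm f) : DefZ p (fun n G X x => PMNC.vl (R n G X x) (f n x)) := by
  unfold PMNC.vl
  refine DefZ.sum hp (DefZ.ite ?_ (DefZ.nv' ?_ ?_) (DefZ.zero ?_))
  · exact DefP.comp (F := fun n => E n × (B n × S n))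
      (f := fun n (y : E n × S n) => (y.1, (f n y.1, y.2))) hR
      (Tm.pair (Tm.fst Tm.id) (Tm.pair (hf.comp (Tm.fst Tm.id)) (Tm.snd Tm.id)))
  · exact hp.comp (Tm.fst Tm.id)
  · (repeat' (first
      | apply DefP.nOne | apply DefP.nZero | apply DefP.nSucc | apply DefP.nAdd | apply DefP.nLt
      | apply DefP.nLe | apply DefP.nEq | apply DefP.hlf | apply DefP.p1le | apply DefP.p1
      | apply DefP.p0 | apply DefP.aug | apply DefP.pth | apply DefP.nx | apply DefP.cnd
      | apply DefP.hmin | apply DefP.hit | apply DefP.cdn | apply DefP.firstEx | apply DefP.exN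
      | apply DefP.end_ | apply DefP.isZero | apply DefP.isSucc | apply DefP.alt
      | apply DefP.exr | apply DefP.exl | apply DefP.side | apply DefP.oddCard
      | apply DefP.cardEq | apply DefP.cardLt | apply DefP.cardLe | apply DefP.lst
      | apply DefP.fst | apply DefP.nxt | apply DefP.keyLe | apply DefP.keyLt | apply DefP.rtc
      | (apply DefP.app4; assumption) | (apply DefP.app3'; assumption)
      | (apply DefP.app3; assumption) | (apply DefP.app2; assumption)
      | (apply DefP.comp; assumption) | exact Tm.id | exact Tm.unit | apply Tm.fst
      | apply Tm.snd | apply Tm.app | exact DefP.const _ | apply DefP.and | apply DefP.not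
      | apply DefP.or | apply DefP.iff | apply DefP.adj | apply DefP.le | apply DefP.lt
      | apply DefP.eqFin | apply DefP.eq | apply DefP.rv | apply DefP.imp | apply DefP.allFin
      | apply DefP.exFin | apply DefP.all | apply DefP.ex | assumption
      | (apply Tm.comp; assumption) | apply Tm.pair | apply Tm.lam))
  · exact hp.comp (Tm.fst Tm.id)

theorem DefP.mid {f g h : ∀ n : ℕ, E n → H n × A n} (hf : Tm (F := fun n => H n × A n) f)
    (hg : Tm (F := fun n => H n × A n) g) (hh : Tm (F := fun n => H n × A n) h) :
    DefP (fun n G X x => PMNC.mid (f n x) (g n x) (h n x)) := by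
  have key : DefP (E := fun n => (H n × A n) × ((H n × A n) × (H n × A n)))
      (fun n G X y => PMNC.mid y.1 y.2.1 y.2.2) := by
    unfold PMNC.mid
    refine DefP.ex (DefP.and ?_ (DefP.or ?_ (DefP.ex (DefP.and ?_ ?_))))
    all_goals (repeat' (first
        | apply DefP.nOne | apply DefP.nZero | apply DefP.nSucc | apply DefP.nAdd
        | apply DefP.nLt | apply DefP.nLe | apply DefP.nEq | apply DefP.hlf | apply DefP.p1le
        | apply DefP.p1 | apply DefP.p0 | apply DefP.aug | apply DefP.pth | apply DefP.nx
        | apply DefP.cnd | apply DefP.hmin | apply DefP.hit | apply DefP.cdn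
        | apply DefP.firstEx | apply DefP.exN | apply DefP.end_ | apply DefP.isZero
        | apply DefP.isSucc | apply DefP.alt | apply DefP.exr | apply DefP.exl | apply DefP.side
        | apply DefP.oddCard | apply DefP.cardEq | apply DefP.cardLt | apply DefP.cardLe
        | apply DefP.lst | apply DefP.fst | apply DefP.nxt | apply DefP.keyLe | apply DefP.keyLt
        | apply DefP.rtc | (apply DefP.app4; assumption) | (apply DefP.app3'; assumption)
        | (apply DefP.app3; assumption) | (apply DefP.app2; assumption)
        | (apply DefP.comp; assumption) | exact Tm.id | exact Tm.unit | apply Tm.fst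
        | apply Tm.snd | apply Tm.app | exact DefP.const _ | apply DefP.and | apply DefP.not
        | apply DefP.or | apply DefP.iff | apply DefP.adj | apply DefP.le | apply DefP.lt
        | apply DefP.eqFin | apply DefP.eq | apply DefP.rv | apply DefP.imp | apply DefP.allFin
        | apply DefP.exFin | apply DefP.all | apply DefP.ex | assumption
        | (apply Tm.comp; assumption) | apply Tm.pair | apply Tm.lam))
  exact DefP.app3 (F := fun n => H n × A n) (H := fun n => H n × A n) (K := fun n => H n × A n)
    (P := fun n G X a b c => PMNC.mid a b c) key hf hg hh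

/-- path sums -/
theorem DefZ.psum {p : ∀ n : ℕ, E n → S n} (hp : Tm p)
    {M : ∀ n : ℕ, SimpleGraph (Fin n) → Ctx n → E n → H n × A n → H n × A n → ℤ}
    (hM : DefZ (E := fun n => E n × ((H n × A n) × (H n × A n))) (fun n y => p n y.1)
      (fun n G X y => M n G X y.1 y.2.1 y.2.2))
    {f g : ∀ n : ℕ, E n → H n × A n} (hf : Tm (F := fun n => H n × A n) f)
    (hg : Tm (F := fun n => H n × A n) g) :
    DefZ p (fun n G X x => PMNC.psum (M n G X x) (f n x) (g n x)) := by
  have h1 := DefP.iter (E := E) (S := fun n => ((H n × A n) × (H n × A n)) × S n) (dim H + 1)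
    (I := fun n G X x y => False)
    (Φ := fun n G X x R y => rsd (p n x) y.2 (pvl (M n G X x) R y.1.1 y.1.2))
    (DefP.const _) ?_
  · have h2 := DefP.comp (E := fun n => E n × S n)
      (F := fun n => E n × (((H n × A n) × (H n × A n)) × S n))
      (f := fun n (y : E n × S n) => (y.1, ((f n y.1, g n y.1), y.2))) h1
      (Tm.pair (Tm.fst Tm.id) (Tm.pair (Tm.pair (hf.comp (Tm.fst Tm.id))
        (hg.comp (Tm.fst Tm.id))) (Tm.snd Tm.id)))
    unfold DefZ
    refine h2.congr fun n G X y => ?_
    rcases Nat.eq_zero_or_pos (nv (p n y.1)) with h0 | h0
    · constructor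
      · intro h3
        exfalso
        rcases Nat.eq_zero_or_pos ((dim H + 1) * Nat.size n) with h4 | h4
        · rw [h4] at h3
          exact h3
        · obtain ⟨k, hk⟩ := Nat.exists_eq_succ_of_ne_zero h4.ne'
          rw [hk, Function.iterate_succ_apply'] at h3
          have h5 : nv y.2 < nv (p n y.1) := h3.1
          omega
      · intro h3
        have h5 : nv y.2 < nv (p n y.1) := h3.1
        omega
    · have hn := pos_of_nv h0
      have h3 : 1 ≤ Nat.size n := Nat.size_pos.2 hn
      obtain ⟨k, hk⟩ : ∃ k, (dim H + 1) * Nat.size n = k + 1 :=
        ⟨(dim H + 1) * Nat.size n - 1, by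
          have : 0 < (dim H + 1) * Nat.size n := by positivity
          omega⟩
      rw [hk]
      apply pvl_iterate h0
      have h4 := nv_lt (g n y.1).1
      have h5 : n ^ dim H ≤ 2 ^ (dim H * Nat.size n) := by
        rw [← card_env (S := H)]
        exact card_env_le n
      have h6 : dim H * Nat.size n ≤ k := by
        rw [add_mul, one_mul] at hk
        omega
      have h7 : 2 ^ (dim H * Nat.size n) ≤ 2 ^ k := Nat.pow_le_pow_right (by norm_num) h6
      show nv (g n y.1).1 ≤ nv (f n y.1).1 + 2 ^ k
      omega
  · -- the step is definable
    have hpp : Tm (fun n (y : (E n × (((H n × A n) × (H n × A n)))) ) => p n y.1) :=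
      hp.comp (Tm.fst Tm.id)
    have h2 : DefZ (E := fun n => E n × ((H n × A n) × (H n × A n))) (fun n y => p n y.1)
        (fun n G X y => pvl (M n G (PMNC.pop X) y.1)
          (fun s => PMNC.rv (S := fun n => ((H n × A n) × (H n × A n)) × S n) X 0 s) y.2.1 y.2.2) := by
      unfold pvl
      refine DefZ.ite (DefP.nLe ?_ ?_) (DefZ.ite (DefP.eq ?_ ?_) (DefZ.one hpp) (DefZ.zero hpp))
        (DefZ.ite (DefP.nSucc ?_ ?_) ?_ (DefZ.sum hpp (DefZ.ite (DefP.mid ?_ ?_ ?_)
          (DefZ.mul ?_ (DefZ.vl (B := fun n => (H n × A n) × (H n × A n)) ?_ ?_ ?_)
            (DefZ.vl (B := fun n => (H n × A n) × (H n × A n)) ?_ ?_ ?_)) (DefZ.zero ?_))))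
      · (repeat' (first
          | apply DefP.nOne | apply DefP.nZero | apply DefP.nSucc | apply DefP.nAdd
          | apply DefP.nLt | apply DefP.nLe | apply DefP.nEq | apply DefP.hlf | apply DefP.p1le
          | apply DefP.p1 | apply DefP.p0 | apply DefP.aug | apply DefP.pth | apply DefP.nx
          | apply DefP.cnd | apply DefP.hmin | apply DefP.hit | apply DefP.cdn
          | apply DefP.firstEx | apply DefP.exN | apply DefP.end_ | apply DefP.isZero
          | apply DefP.isSucc | apply DefP.alt | apply DefP.exr | apply DefP.exl
          | apply DefP.side | apply DefP.oddCard | apply DefP.cardEq | apply DefP.cardLt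
          | apply DefP.cardLe | apply DefP.lst | apply DefP.fst | apply DefP.nxt
          | apply DefP.keyLe | apply DefP.keyLt | apply DefP.rtc | (apply DefP.app4; assumption)
          | (apply DefP.app3'; assumption) | (apply DefP.app3; assumption)
          | (apply DefP.app2; assumption) | (apply DefP.comp; assumption) | exact Tm.id
          | exact Tm.unit | apply Tm.fst | apply Tm.snd | apply Tm.app | exact DefP.const _
          | apply DefP.and | apply DefP.not | apply DefP.or | apply DefP.iff | apply DefP.adj
          | apply DefP.le | apply DefP.lt | apply DefP.eqFin | apply DefP.eq | apply DefP.rv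
          | apply DefP.imp | apply DefP.allFin | apply DefP.exFin | apply DefP.all
          | apply DefP.ex | assumption | (apply Tm.comp; assumption) | apply Tm.pair
          | apply Tm.lam))
      · (repeat' (first
          | apply DefP.nOne | apply DefP.nZero | apply DefP.nSucc | apply DefP.nAdd
          | apply DefP.nLt | apply DefP.nLe | apply DefP.nEq | apply DefP.hlf | apply DefP.p1le
          | apply DefP.p1 | apply DefP.p0 | apply DefP.aug | apply DefP.pth | apply DefP.nx
          | apply DefP.cnd | apply DefP.hmin | apply DefP.hit | apply DefP.cdn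
          | apply DefP.firstEx | apply DefP.exN | apply DefP.end_ | apply DefP.isZero
          | apply DefP.isSucc | apply DefP.alt | apply DefP.exr | apply DefP.exl
          | apply DefP.side | apply DefP.oddCard | apply DefP.cardEq | apply DefP.cardLt
          | apply DefP.cardLe | apply DefP.lst | apply DefP.fst | apply DefP.nxt
          | apply DefP.keyLe | apply DefP.keyLt | apply DefP.rtc | (apply DefP.app4; assumption)
          | (apply DefP.app3'; assumption) | (apply DefP.app3; assumption)
          | (apply DefP.app2; assumption) | (apply DefP.comp; assumption) | exact Tm.id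
          | exact Tm.unit | apply Tm.fst | apply Tm.snd | apply Tm.app | exact DefP.const _
          | apply DefP.and | apply DefP.not | apply DefP.or | apply DefP.iff | apply DefP.adj
          | apply DefP.le | apply DefP.lt | apply DefP.eqFin | apply DefP.eq | apply DefP.rv
          | apply DefP.imp | apply DefP.allFin | apply DefP.exFin | apply DefP.all
          | apply DefP.ex | assumption | (apply Tm.comp; assumption) | apply Tm.pair
          | apply Tm.lam))
      · (repeat' (first
          | apply DefP.nOne | apply DefP.nZero | apply DefP.nSucc | apply DefP.nAdd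
          | apply DefP.nLt | apply DefP.nLe | apply DefP.nEq | apply DefP.hlf | apply DefP.p1le
          | apply DefP.p1 | apply DefP.p0 | apply DefP.aug | apply DefP.pth | apply DefP.nx
          | apply DefP.cnd | apply DefP.hmin | apply DefP.hit | apply DefP.cdn
          | apply DefP.firstEx | apply DefP.exN | apply DefP.end_ | apply DefP.isZero
          | apply DefP.isSucc | apply DefP.alt | apply DefP.exr | apply DefP.exl
          | apply DefP.side | apply DefP.oddCard | apply DefP.cardEq | apply DefP.cardLt
          | apply DefP.cardLe | apply DefP.lst | apply DefP.fst | apply DefP.nxt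
          | apply DefP.keyLe | apply DefP.keyLt | apply DefP.rtc | (apply DefP.app4; assumption)
          | (apply DefP.app3'; assumption) | (apply DefP.app3; assumption)
          | (apply DefP.app2; assumption) | (apply DefP.comp; assumption) | exact Tm.id
          | exact Tm.unit | apply Tm.fst | apply Tm.snd | apply Tm.app | exact DefP.const _
          | apply DefP.and | apply DefP.not | apply DefP.or | apply DefP.iff | apply DefP.adj
          | apply DefP.le | apply DefP.lt | apply DefP.eqFin | apply DefP.eq | apply DefP.rv
          | apply DefP.imp | apply DefP.allFin | apply DefP.exFin | apply DefP.all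
          | apply DefP.ex | assumption | (apply Tm.comp; assumption) | apply Tm.pair
          | apply Tm.lam))
      · (repeat' (first
          | apply DefP.nOne | apply DefP.nZero | apply DefP.nSucc | apply DefP.nAdd
          | apply DefP.nLt | apply DefP.nLe | apply DefP.nEq | apply DefP.hlf | apply DefP.p1le
          | apply DefP.p1 | apply DefP.p0 | apply DefP.aug | apply DefP.pth | apply DefP.nx
          | apply DefP.cnd | apply DefP.hmin | apply DefP.hit | apply DefP.cdn
          | apply DefP.firstEx | apply DefP.exN | apply DefP.end_ | apply DefP.isZero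
          | apply DefP.isSucc | apply DefP.alt | apply DefP.exr | apply DefP.exl
          | apply DefP.side | apply DefP.oddCard | apply DefP.cardEq | apply DefP.cardLt
          | apply DefP.cardLe | apply DefP.lst | apply DefP.fst | apply DefP.nxt
          | apply DefP.keyLe | apply DefP.keyLt | apply DefP.rtc | (apply DefP.app4; assumption)
          | (apply DefP.app3'; assumption) | (apply DefP.app3; assumption)
          | (apply DefP.app2; assumption) | (apply DefP.comp; assumption) | exact Tm.id
          | exact Tm.unit | apply Tm.fst | apply Tm.snd | apply Tm.app | exact DefP.const _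
          | apply DefP.and | apply DefP.not | apply DefP.or | apply DefP.iff | apply DefP.adj
          | apply DefP.le | apply DefP.lt | apply DefP.eqFin | apply DefP.eq | apply DefP.rv
          | apply DefP.imp | apply DefP.allFin | apply DefP.exFin | apply DefP.all
          | apply DefP.ex | assumption | (apply Tm.comp; assumption) | apply Tm.pair
          | apply Tm.lam))
      · (repeat' (first
          | apply DefP.nOne | apply DefP.nZero | apply DefP.nSucc | apply DefP.nAdd
          | apply DefP.nLt | apply DefP.nLe | apply DefP.nEq | apply DefP.hlf | apply DefP.p1le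
          | apply DefP.p1 | apply DefP.p0 | apply DefP.aug | apply DefP.pth | apply DefP.nx
          | apply DefP.cnd | apply DefP.hmin | apply DefP.hit | apply DefP.cdn
          | apply DefP.firstEx | apply DefP.exN | apply DefP.end_ | apply DefP.isZero
          | apply DefP.isSucc | apply DefP.alt | apply DefP.exr | apply DefP.exl
          | apply DefP.side | apply DefP.oddCard | apply DefP.cardEq | apply DefP.cardLt
          | apply DefP.cardLe | apply DefP.lst | apply DefP.fst | apply DefP.nxt
          | apply DefP.keyLe | apply DefP.keyLt | apply DefP.rtc | (apply DefP.app4; assumption)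
          | (apply DefP.app3'; assumption) | (apply DefP.app3; assumption)
          | (apply DefP.app2; assumption) | (apply DefP.comp; assumption) | exact Tm.id
          | exact Tm.unit | apply Tm.fst | apply Tm.snd | apply Tm.app | exact DefP.const _
          | apply DefP.and | apply DefP.not | apply DefP.or | apply DefP.iff | apply DefP.adj
          | apply DefP.le | apply DefP.lt | apply DefP.eqFin | apply DefP.eq | apply DefP.rv
          | apply DefP.imp | apply DefP.allFin | apply DefP.exFin | apply DefP.all
          | apply DefP.ex | assumption | (apply Tm.comp; assumption) | apply Tm.pair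
          | apply Tm.lam))
      · (repeat' (first
          | apply DefP.nOne | apply DefP.nZero | apply DefP.nSucc | apply DefP.nAdd
          | apply DefP.nLt | apply DefP.nLe | apply DefP.nEq | apply DefP.hlf | apply DefP.p1le
          | apply DefP.p1 | apply DefP.p0 | apply DefP.aug | apply DefP.pth | apply DefP.nx
          | apply DefP.cnd | apply DefP.hmin | apply DefP.hit | apply DefP.cdn
          | apply DefP.firstEx | apply DefP.exN | apply DefP.end_ | apply DefP.isZero
          | apply DefP.isSucc | apply DefP.alt | apply DefP.exr | apply DefP.exl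
          | apply DefP.side | apply DefP.oddCard | apply DefP.cardEq | apply DefP.cardLt
          | apply DefP.cardLe | apply DefP.lst | apply DefP.fst | apply DefP.nxt
          | apply DefP.keyLe | apply DefP.keyLt | apply DefP.rtc | (apply DefP.app4; assumption)
          | (apply DefP.app3'; assumption) | (apply DefP.app3; assumption)
          | (apply DefP.app2; assumption) | (apply DefP.comp; assumption) | exact Tm.id
          | exact Tm.unit | apply Tm.fst | apply Tm.snd | apply Tm.app | exact DefP.const _
          | apply DefP.and | apply DefP.not | apply DefP.or | apply DefP.iff | apply DefP.adj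
          | apply DefP.le | apply DefP.lt | apply DefP.eqFin | apply DefP.eq | apply DefP.rv
          | apply DefP.imp | apply DefP.allFin | apply DefP.exFin | apply DefP.all
          | apply DefP.ex | assumption | (apply Tm.comp; assumption) | apply Tm.pair
          | apply Tm.lam))
      · exact DefZ.pop hM
      · (repeat' (first
          | apply DefP.nOne | apply DefP.nZero | apply DefP.nSucc | apply DefP.nAdd
          | apply DefP.nLt | apply DefP.nLe | apply DefP.nEq | apply DefP.hlf | apply DefP.p1le
          | apply DefP.p1 | apply DefP.p0 | apply DefP.aug | apply DefP.pth | apply DefP.nx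
          | apply DefP.cnd | apply DefP.hmin | apply DefP.hit | apply DefP.cdn
          | apply DefP.firstEx | apply DefP.exN | apply DefP.end_ | apply DefP.isZero
          | apply DefP.isSucc | apply DefP.alt | apply DefP.exr | apply DefP.exl
          | apply DefP.side | apply DefP.oddCard | apply DefP.cardEq | apply DefP.cardLt
          | apply DefP.cardLe | apply DefP.lst | apply DefP.fst | apply DefP.nxt
          | apply DefP.keyLe | apply DefP.keyLt | apply DefP.rtc | (apply DefP.app4; assumption)
          | (apply DefP.app3'; assumption) | (apply DefP.app3; assumption)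
          | (apply DefP.app2; assumption) | (apply DefP.comp; assumption) | exact Tm.id
          | exact Tm.unit | apply Tm.fst | apply Tm.snd | apply Tm.app | exact DefP.const _
          | apply DefP.and | apply DefP.not | apply DefP.or | apply DefP.iff | apply DefP.adj
          | apply DefP.le | apply DefP.lt | apply DefP.eqFin | apply DefP.eq | apply DefP.rv
          | apply DefP.imp | apply DefP.allFin | apply DefP.exFin | apply DefP.all
          | apply DefP.ex | assumption | (apply Tm.comp; assumption) | apply Tm.pair
          | apply Tm.lam))
      · (repeat' (first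
          | apply DefP.nOne | apply DefP.nZero | apply DefP.nSucc | apply DefP.nAdd
          | apply DefP.nLt | apply DefP.nLe | apply DefP.nEq | apply DefP.hlf | apply DefP.p1le
          | apply DefP.p1 | apply DefP.p0 | apply DefP.aug | apply DefP.pth | apply DefP.nx
          | apply DefP.cnd | apply DefP.hmin | apply DefP.hit | apply DefP.cdn
          | apply DefP.firstEx | apply DefP.exN | apply DefP.end_ | apply DefP.isZero
          | apply DefP.isSucc | apply DefP.alt | apply DefP.exr | apply DefP.exl
          | apply DefP.side | apply DefP.oddCard | apply DefP.cardEq | apply DefP.cardLt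
          | apply DefP.cardLe | apply DefP.lst | apply DefP.fst | apply DefP.nxt
          | apply DefP.keyLe | apply DefP.keyLt | apply DefP.rtc | (apply DefP.app4; assumption)
          | (apply DefP.app3'; assumption) | (apply DefP.app3; assumption)
          | (apply DefP.app2; assumption) | (apply DefP.comp; assumption) | exact Tm.id
          | exact Tm.unit | apply Tm.fst | apply Tm.snd | apply Tm.app | exact DefP.const _
          | apply DefP.and | apply DefP.not | apply DefP.or | apply DefP.iff | apply DefP.adj
          | apply DefP.le | apply DefP.lt | apply DefP.eqFin | apply DefP.eq | apply DefP.rv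
          | apply DefP.imp | apply DefP.allFin | apply DefP.exFin | apply DefP.all
          | apply DefP.ex | assumption | (apply Tm.comp; assumption) | apply Tm.pair
          | apply Tm.lam))
      · (repeat' (first
          | apply DefP.nOne | apply DefP.nZero | apply DefP.nSucc | apply DefP.nAdd
          | apply DefP.nLt | apply DefP.nLe | apply DefP.nEq | apply DefP.hlf | apply DefP.p1le
          | apply DefP.p1 | apply DefP.p0 | apply DefP.aug | apply DefP.pth | apply DefP.nx
          | apply DefP.cnd | apply DefP.hmin | apply DefP.hit | apply DefP.cdn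
          | apply DefP.firstEx | apply DefP.exN | apply DefP.end_ | apply DefP.isZero
          | apply DefP.isSucc | apply DefP.alt | apply DefP.exr | apply DefP.exl
          | apply DefP.side | apply DefP.oddCard | apply DefP.cardEq | apply DefP.cardLt
          | apply DefP.cardLe | apply DefP.lst | apply DefP.fst | apply DefP.nxt
          | apply DefP.keyLe | apply DefP.keyLt | apply DefP.rtc | (apply DefP.app4; assumption)
          | (apply DefP.app3'; assumption) | (apply DefP.app3; assumption)
          | (apply DefP.app2; assumption) | (apply DefP.comp; assumption) | exact Tm.id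
          | exact Tm.unit | apply Tm.fst | apply Tm.snd | apply Tm.app | exact DefP.const _
          | apply DefP.and | apply DefP.not | apply DefP.or | apply DefP.iff | apply DefP.adj
          | apply DefP.le | apply DefP.lt | apply DefP.eqFin | apply DefP.eq | apply DefP.rv
          | apply DefP.imp | apply DefP.allFin | apply DefP.exFin | apply DefP.all
          | apply DefP.ex | assumption | (apply Tm.comp; assumption) | apply Tm.pair
          | apply Tm.lam))
      · exact hp.comp (Tm.fst (Tm.fst Tm.id))
      · exact hp.comp (Tm.fst (Tm.fst Tm.id))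
      · exact DefP.rv (S := fun n => ((H n × A n) × (H n × A n)) × S n) 0 (by (repeat' (first
          | apply DefP.nOne | apply DefP.nZero | apply DefP.nSucc | apply DefP.nAdd
          | apply DefP.nLt | apply DefP.nLe | apply DefP.nEq | apply DefP.hlf | apply DefP.p1le
          | apply DefP.p1 | apply DefP.p0 | apply DefP.aug | apply DefP.pth | apply DefP.nx
          | apply DefP.cnd | apply DefP.hmin | apply DefP.hit | apply DefP.cdn
          | apply DefP.firstEx | apply DefP.exN | apply DefP.end_ | apply DefP.isZero
          | apply DefP.isSucc | apply DefP.alt | apply DefP.exr | apply DefP.exl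
          | apply DefP.side | apply DefP.oddCard | apply DefP.cardEq | apply DefP.cardLt
          | apply DefP.cardLe | apply DefP.lst | apply DefP.fst | apply DefP.nxt
          | apply DefP.keyLe | apply DefP.keyLt | apply DefP.rtc | (apply DefP.app4; assumption)
          | (apply DefP.app3'; assumption) | (apply DefP.app3; assumption)
          | (apply DefP.app2; assumption) | (apply DefP.comp; assumption) | exact Tm.id
          | exact Tm.unit | apply Tm.fst | apply Tm.snd | apply Tm.app | exact DefP.const _
          | apply DefP.and | apply DefP.not | apply DefP.or | apply DefP.iff | apply DefP.adj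
          | apply DefP.le | apply DefP.lt | apply DefP.eqFin | apply DefP.eq | apply DefP.rv
          | apply DefP.imp | apply DefP.allFin | apply DefP.exFin | apply DefP.all
          | apply DefP.ex | assumption | (apply Tm.comp; assumption) | apply Tm.pair
          | apply Tm.lam)))
      · (repeat' (first
          | apply DefP.nOne | apply DefP.nZero | apply DefP.nSucc | apply DefP.nAdd
          | apply DefP.nLt | apply DefP.nLe | apply DefP.nEq | apply DefP.hlf | apply DefP.p1le
          | apply DefP.p1 | apply DefP.p0 | apply DefP.aug | apply DefP.pth | apply DefP.nx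
          | apply DefP.cnd | apply DefP.hmin | apply DefP.hit | apply DefP.cdn
          | apply DefP.firstEx | apply DefP.exN | apply DefP.end_ | apply DefP.isZero
          | apply DefP.isSucc | apply DefP.alt | apply DefP.exr | apply DefP.exl
          | apply DefP.side | apply DefP.oddCard | apply DefP.cardEq | apply DefP.cardLt
          | apply DefP.cardLe | apply DefP.lst | apply DefP.fst | apply DefP.nxt
          | apply DefP.keyLe | apply DefP.keyLt | apply DefP.rtc | (apply DefP.app4; assumption)
          | (apply DefP.app3'; assumption) | (apply DefP.app3; assumption)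
          | (apply DefP.app2; assumption) | (apply DefP.comp; assumption) | exact Tm.id
          | exact Tm.unit | apply Tm.fst | apply Tm.snd | apply Tm.app | exact DefP.const _
          | apply DefP.and | apply DefP.not | apply DefP.or | apply DefP.iff | apply DefP.adj
          | apply DefP.le | apply DefP.lt | apply DefP.eqFin | apply DefP.eq | apply DefP.rv
          | apply DefP.imp | apply DefP.allFin | apply DefP.exFin | apply DefP.all
          | apply DefP.ex | assumption | (apply Tm.comp; assumption) | apply Tm.pair
          | apply Tm.lam))
      · exact hp.comp (Tm.fst (Tm.fst Tm.id))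
      · exact DefP.rv (S := fun n => ((H n × A n) × (H n × A n)) × S n) 0 (by (repeat' (first
          | apply DefP.nOne | apply DefP.nZero | apply DefP.nSucc | apply DefP.nAdd
          | apply DefP.nLt | apply DefP.nLe | apply DefP.nEq | apply DefP.hlf | apply DefP.p1le
          | apply DefP.p1 | apply DefP.p0 | apply DefP.aug | apply DefP.pth | apply DefP.nx
          | apply DefP.cnd | apply DefP.hmin | apply DefP.hit | apply DefP.cdn
          | apply DefP.firstEx | apply DefP.exN | apply DefP.end_ | apply DefP.isZero
          | apply DefP.isSucc | apply DefP.alt | apply DefP.exr | apply DefP.exl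
          | apply DefP.side | apply DefP.oddCard | apply DefP.cardEq | apply DefP.cardLt
          | apply DefP.cardLe | apply DefP.lst | apply DefP.fst | apply DefP.nxt
          | apply DefP.keyLe | apply DefP.keyLt | apply DefP.rtc | (apply DefP.app4; assumption)
          | (apply DefP.app3'; assumption) | (apply DefP.app3; assumption)
          | (apply DefP.app2; assumption) | (apply DefP.comp; assumption) | exact Tm.id
          | exact Tm.unit | apply Tm.fst | apply Tm.snd | apply Tm.app | exact DefP.const _
          | apply DefP.and | apply DefP.not | apply DefP.or | apply DefP.iff | apply DefP.adj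
          | apply DefP.le | apply DefP.lt | apply DefP.eqFin | apply DefP.eq | apply DefP.rv
          | apply DefP.imp | apply DefP.allFin | apply DefP.exFin | apply DefP.all
          | apply DefP.ex | assumption | (apply Tm.comp; assumption) | apply Tm.pair
          | apply Tm.lam)))
      · (repeat' (first
          | apply DefP.nOne | apply DefP.nZero | apply DefP.nSucc | apply DefP.nAdd
          | apply DefP.nLt | apply DefP.nLe | apply DefP.nEq | apply DefP.hlf | apply DefP.p1le
          | apply DefP.p1 | apply DefP.p0 | apply DefP.aug | apply DefP.pth | apply DefP.nx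
          | apply DefP.cnd | apply DefP.hmin | apply DefP.hit | apply DefP.cdn
          | apply DefP.firstEx | apply DefP.exN | apply DefP.end_ | apply DefP.isZero
          | apply DefP.isSucc | apply DefP.alt | apply DefP.exr | apply DefP.exl
          | apply DefP.side | apply DefP.oddCard | apply DefP.cardEq | apply DefP.cardLt
          | apply DefP.cardLe | apply DefP.lst | apply DefP.fst | apply DefP.nxt
          | apply DefP.keyLe | apply DefP.keyLt | apply DefP.rtc | (apply DefP.app4; assumption)
          | (apply DefP.app3'; assumption) | (apply DefP.app3; assumption)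
          | (apply DefP.app2; assumption) | (apply DefP.comp; assumption) | exact Tm.id
          | exact Tm.unit | apply Tm.fst | apply Tm.snd | apply Tm.app | exact DefP.const _
          | apply DefP.and | apply DefP.not | apply DefP.or | apply DefP.iff | apply DefP.adj
          | apply DefP.le | apply DefP.lt | apply DefP.eqFin | apply DefP.eq | apply DefP.rv
          | apply DefP.imp | apply DefP.allFin | apply DefP.exFin | apply DefP.all
          | apply DefP.ex | assumption | (apply Tm.comp; assumption) | apply Tm.pair
          | apply Tm.lam))
      · exact hp.comp (Tm.fst (Tm.fst Tm.id))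
    unfold DefZ at h2
    exact DefP.comp (E := fun n => E n × (((H n × A n) × (H n × A n)) × S n))
      (F := fun n => (E n × ((H n × A n) × (H n × A n))) × S n)
      (f := fun n y => ((y.1, y.2.1), y.2.2)) h2 (by (repeat' (first
          | apply DefP.nOne | apply DefP.nZero | apply DefP.nSucc | apply DefP.nAdd
          | apply DefP.nLt | apply DefP.nLe | apply DefP.nEq | apply DefP.hlf | apply DefP.p1le
          | apply DefP.p1 | apply DefP.p0 | apply DefP.aug | apply DefP.pth | apply DefP.nx
          | apply DefP.cnd | apply DefP.hmin | apply DefP.hit | apply DefP.cdn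
          | apply DefP.firstEx | apply DefP.exN | apply DefP.end_ | apply DefP.isZero
          | apply DefP.isSucc | apply DefP.alt | apply DefP.exr | apply DefP.exl
          | apply DefP.side | apply DefP.oddCard | apply DefP.cardEq | apply DefP.cardLt
          | apply DefP.cardLe | apply DefP.lst | apply DefP.fst | apply DefP.nxt
          | apply DefP.keyLe | apply DefP.keyLt | apply DefP.rtc | (apply DefP.app4; assumption)
          | (apply DefP.app3'; assumption) | (apply DefP.app3; assumption)
          | (apply DefP.app2; assumption) | (apply DefP.comp; assumption) | exact Tm.id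
          | exact Tm.unit | apply Tm.fst | apply Tm.snd | apply Tm.app | exact DefP.const _
          | apply DefP.and | apply DefP.not | apply DefP.or | apply DefP.iff | apply DefP.adj
          | apply DefP.le | apply DefP.lt | apply DefP.eqFin | apply DefP.eq | apply DefP.rv
          | apply DefP.imp | apply DefP.allFin | apply DefP.exFin | apply DefP.all
          | apply DefP.ex | assumption | (apply Tm.comp; assumption) | apply Tm.pair
          | apply Tm.lam)))

end def_

end Pool.Agent.PMNC
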