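import Mathlib
import Pool.Agent.Lib.MP_0087d5_lc.UNum

set_option autoImplicit false
set_option linter.all false

/-!
# Powers of matrices over `ZMod 2` are definable
-/

namespace Pool.Agent.PMNC

open Classical in
/-- the matrix over `ZMod 2` of a relation -/
noncomputable def mtx {α β : Type*} (B : α → β → Prop) : Matrix α β (ZMod 2) :=
  Matrix.of fun x y => if B x y then 1 else 0

theorem mtx_eq_one {α β : Type*} {B : α → β → Prop} {x : α} {y : β} :
    mtx B x y = 1 ↔ B x y := by
  classical
  unfold mtx
  simp

theorem z2_cases (a : ZMod 2) : a = 0 ∨ a = 1 := by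
  revert a; decide

theorem z2_ext {a b : ZMod 2} (h : a = 1 ↔ b = 1) : a = b := by
  revert a b; decide

/-- the parity of a count as an element of `ZMod 2` -/
theorem card_z2 {α : Type*} [Fintype α] (P : α → Prop) [DecidablePred P] :
    (Nat.card {r // P r} : ZMod 2) = ∑ r, if P r then (1 : ZMod 2) else 0 := by
  rw [Finset.sum_boole, Nat.card_eq_fintype_card, Fintype.card_subtype]

theorem odd_card_z2 {α : Type*} [Fintype α] (P : α → Prop) [DecidablePred P] :
    Odd (Nat.card {r // P r}) ↔ (∑ r, if P r then (1 : ZMod 2) else 0) = 1 := by
  rw [← card_z2, ZMod.natCast_eq_one_iff_odd]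

/-- a sum over `ZMod 2` as a parity -/
theorem sum_z2 {α : Type*} [Fintype α] (f : α → ZMod 2) :
    ∑ r, f r = 1 ↔ Odd (Nat.card {r // f r = 1}) := by
  classical
  rw [odd_card_z2]
  have : ∀ r, f r = if f r = 1 then 1 else 0 := fun r => by
    rcases z2_cases (f r) with h | h <;> simp [h]
  rw [Finset.sum_congr rfl fun r _ => this r]

/-- parity of the number of walks of length `j` from `s` to `t` -/
def wpar {α : Type*} (B : α → α → Prop) : ℕ → α → α → Prop
  | 0, s, t => s = t
  | j + 1, s, t => Odd (Nat.card {r // wpar B j s r ∧ B r t})

theorem wpar_iff {α : Type*} [Fintype α] [DecidableEq α] {B : α → α → Prop} (j : ℕ) (s t : α) :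
    wpar B j s t ↔ (mtx B ^ j) s t = 1 := by
  induction j generalizing t with
  | zero =>
    rw [wpar, pow_zero, Matrix.one_apply]
    simp
  | succ j ih =>
    rw [wpar, pow_succ, Matrix.mul_apply, sum_z2]
    have : ∀ r, (wpar B j s r ∧ B r t) ↔ (mtx B ^ j) s r * mtx B r t = 1 := by
      intro r
      rw [ih]
      have h1 := mtx_eq_one (B := B) (x := r) (y := t)
      rcases z2_cases ((mtx B ^ j) s r) with h | h <;>
        rcases z2_cases (mtx B r t) with h' | h' <;> simp [h, h', ← h1]
    rw [Nat.card_congr (Equiv.subtypeEquivRight this)]

theorem wpar_add {α : Type*} [Finite α] {B : α → α → Prop} (i j : ℕ) (s t : α) :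
    wpar B (i + j) s t ↔ Odd (Nat.card {r // wpar B i s r ∧ wpar B j r t}) := by
  classical
  haveI := Fintype.ofFinite α
  rw [wpar_iff, pow_add, Matrix.mul_apply, sum_z2]
  have : ∀ r, (wpar B i s r ∧ wpar B j r t) ↔ (mtx B ^ i) s r * (mtx B ^ j) r t = 1 := by
    intro r
    rw [wpar_iff, wpar_iff]
    rcases z2_cases ((mtx B ^ i) s r) with h | h <;>
      rcases z2_cases ((mtx B ^ j) r t) with h' | h' <;> simp [h, h']
  rw [Nat.card_congr (Equiv.subtypeEquivRight this)]

theorem wpar_one {α : Type*} [Finite α] {B : α → α → Prop} (s t : α) :
    wpar B 1 s t ↔ B s t := by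
  classical
  haveI := Fintype.ofFinite α
  rw [wpar_iff, pow_one, mtx_eq_one]

/-- walks of length at most one -/
def pw0 {n : ℕ} {α : Type} (B : α → α → Prop) (x : Fin n × (α × α)) : Prop :=
  (IsZero x.1 ∧ x.2.1 = x.2.2) ∨ (IsOne x.1 ∧ B x.2.1 x.2.2)

/-- doubling of the length -/
def pwS {n : ℕ} {α : Type} (B : α → α → Prop) (W : Fin n × (α × α) → Prop)
    (x : Fin n × (α × α)) : Prop :=
  pw0 B x ∨ (¬ IsZero x.1 ∧ ¬ IsOne x.1 ∧ ∃ h h' : Fin n, Hlf x.1 h ∧ P0 h h' x.1 ∧
    Odd (Nat.card {r // W (h, (x.2.1, r)) ∧ W (h', (r, x.2.2))}))

theorem pwS_iterate {n : ℕ} {α : Type} [Finite α] (B : α → α → Prop) (k : ℕ) :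
    ∀ (j : Fin n) (s t : α), j.val ≤ 2 ^ k →
      ((pwS B)^[k] (pw0 B) (j, (s, t)) ↔ wpar B j.val s t) := by
  induction k with
  | zero =>
    intro j s t hj
    change pw0 B (j, (s, t)) ↔ _
    unfold pw0
    simp only
    rw [isZero_iff, isOne_iff]
    have : j.val = 0 ∨ j.val = 1 := by
      have : (2:ℕ) ^ 0 = 1 := rfl
      omega
    rcases this with h | h
    · rw [h]
      simp [wpar]
    · rw [h, wpar_one]
      simp
  | succ k ih =>
    intro j s t hj
    rw [Function.iterate_succ_apply']
    generalize (pwS B)^[k] (pw0 B) = W at ih ⊢
    unfold pwS pw0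
    simp only
    rw [isZero_iff, isOne_iff]
    rcases Nat.lt_or_ge j.val 2 with h | h
    · have : j.val = 0 ∨ j.val = 1 := by omega
      rcases this with h | h
      · rw [h]
        simp [wpar]
      · rw [h, wpar_one]
        simp
    · have e1 : ¬ (j.val = 0) := by omega
      have e2 : ¬ (j.val = 1) := by omega
      simp only [e1, e2, false_and, false_or, not_false_eq_true, true_and]
      have e3 : j.val / 2 ≤ 2 ^ k := by rw [pow_succ] at hj; omega
      have e4 : j.val - j.val / 2 ≤ 2 ^ k := by rw [pow_succ] at hj; omega
      have e5 : j.val / 2 < n := by have := j.2; omega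
      have e6 : j.val - j.val / 2 < n := by have := j.2; omega
      have e7 : j.val = j.val / 2 + (j.val - j.val / 2) := by omega
      rw [show wpar B j.val s t = wpar B (j.val / 2 + (j.val - j.val / 2)) s t from by rw [← e7],
        wpar_add]
      constructor
      · rintro ⟨a, a', ha, ha', hodd⟩
        rw [hlf_iff] at ha
        unfold P0 at ha'
        have e8 : a'.val = j.val - j.val / 2 := by omega
        rw [← ha, ← show a'.val = j.val - a.val by omega]
        convert hodd using 5 with r
        · rw [ih a s r (by omega)]
        · rw [ih a' r t (by omega)]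
      · intro hodd
        refine ⟨⟨j.val / 2, e5⟩, ⟨j.val - j.val / 2, e6⟩, hlf_iff.2 rfl, ?_, ?_⟩
        · unfold P0
          simp only
          omega
        · convert hodd using 5 with r
          · rw [ih _ s r e3]
          · rw [ih _ r t e4]

/-- powers are definable -/
theorem DefP.wpar {E T : ℕ → Type} [Env E] [Env T]
    {B : ∀ n : ℕ, SimpleGraph (Fin n) → Ctx n → E n → T n → T n → Prop}
    (hB : DefP (E := fun n => E n × (T n × T n)) (fun n G X y => B n G X y.1 y.2.1 y.2.2))
    {j : ∀ n : ℕ, E n → Fin n} {s t : ∀ n : ℕ, E n → T n}
    (hj : Tm (F := fun n => Fin n) j) (hs : Tm s) (ht : Tm t) :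
    DefP (fun n G X x => PMNC.wpar (B n G X x) (j n x).val (s n x) (t n x)) := by
  have hB' := hB.pop
  have key := DefP.iter (E := E) (S := fun n => Fin n × (T n × T n)) 1
    (I := fun n G X x => pw0 (B n G X x))
    (Φ := fun n G X x W => pwS (B n G X x) W)
    (by unfold pw0; (repeat' (first
        | apply DefP.hlf | apply DefP.p1le | apply DefP.p1 | apply DefP.p0 | apply DefP.aug
        | apply DefP.pth | apply DefP.nx | apply DefP.cnd | apply DefP.hmin | apply DefP.hit
        | apply DefP.cdn | apply DefP.firstEx | apply DefP.exN | apply DefP.end_
        | apply DefP.isZero | apply DefP.isSucc | apply DefP.alt | apply DefP.exr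
        | apply DefP.exl | apply DefP.side | apply DefP.oddCard | apply DefP.cardEq
        | apply DefP.cardLt | apply DefP.cardLe | apply DefP.lst | apply DefP.fst
        | apply DefP.nxt | apply DefP.keyLe | apply DefP.keyLt | apply DefP.rtc
        | (apply DefP.app4; assumption) | (apply DefP.app3'; assumption)
        | (apply DefP.app3; assumption) | (apply DefP.app2; assumption)
        | (apply DefP.comp; assumption) | exact Tm.id | exact Tm.unit | apply Tm.fst
        | apply Tm.snd | apply Tm.app | exact DefP.const _ | apply DefP.and | apply DefP.not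
        | apply DefP.or | apply DefP.iff | apply DefP.adj | apply DefP.le | apply DefP.lt
        | apply DefP.eqFin | apply DefP.eq | apply DefP.rv | apply DefP.imp | apply DefP.allFin
        | apply DefP.exFin | apply DefP.all | apply DefP.ex | assumption
        | (apply Tm.comp; assumption) | apply Tm.pair | apply Tm.lam))) (by
      unfold pwS pw0
      refine DefP.or (by (repeat' (first
          | apply DefP.hlf | apply DefP.p1le | apply DefP.p1 | apply DefP.p0 | apply DefP.aug
          | apply DefP.pth | apply DefP.nx | apply DefP.cnd | apply DefP.hmin | apply DefP.hit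
          | apply DefP.cdn | apply DefP.firstEx | apply DefP.exN | apply DefP.end_
          | apply DefP.isZero | apply DefP.isSucc | apply DefP.alt | apply DefP.exr
          | apply DefP.exl | apply DefP.side | apply DefP.oddCard | apply DefP.cardEq
          | apply DefP.cardLt | apply DefP.cardLe | apply DefP.lst | apply DefP.fst
          | apply DefP.nxt | apply DefP.keyLe | apply DefP.keyLt | apply DefP.rtc
          | (apply DefP.app4; assumption) | (apply DefP.app3'; assumption)
          | (apply DefP.app3; assumption) | (apply DefP.app2; assumption)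
          | (apply DefP.comp; assumption) | exact Tm.id | exact Tm.unit | apply Tm.fst
          | apply Tm.snd | apply Tm.app | exact DefP.const _ | apply DefP.and | apply DefP.not
          | apply DefP.or | apply DefP.iff | apply DefP.adj | apply DefP.le | apply DefP.lt
          | apply DefP.eqFin | apply DefP.eq | apply DefP.rv | apply DefP.imp
          | apply DefP.allFin | apply DefP.exFin | apply DefP.all | apply DefP.ex | assumption
          | (apply Tm.comp; assumption) | apply Tm.pair
          | apply Tm.lam))) (DefP.and (by (repeat' (first
          | apply DefP.hlf | apply DefP.p1le | apply DefP.p1 | apply DefP.p0 | apply DefP.aug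
          | apply DefP.pth | apply DefP.nx | apply DefP.cnd | apply DefP.hmin | apply DefP.hit
          | apply DefP.cdn | apply DefP.firstEx | apply DefP.exN | apply DefP.end_
          | apply DefP.isZero | apply DefP.isSucc | apply DefP.alt | apply DefP.exr
          | apply DefP.exl | apply DefP.side | apply DefP.oddCard | apply DefP.cardEq
          | apply DefP.cardLt | apply DefP.cardLe | apply DefP.lst | apply DefP.fst
          | apply DefP.nxt | apply DefP.keyLe | apply DefP.keyLt | apply DefP.rtc
          | (apply DefP.app4; assumption) | (apply DefP.app3'; assumption)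
          | (apply DefP.app3; assumption) | (apply DefP.app2; assumption)
          | (apply DefP.comp; assumption) | exact Tm.id | exact Tm.unit | apply Tm.fst
          | apply Tm.snd | apply Tm.app | exact DefP.const _ | apply DefP.and | apply DefP.not
          | apply DefP.or | apply DefP.iff | apply DefP.adj | apply DefP.le | apply DefP.lt
          | apply DefP.eqFin | apply DefP.eq | apply DefP.rv | apply DefP.imp
          | apply DefP.allFin | apply DefP.exFin | apply DefP.all | apply DefP.ex | assumption
          | (apply Tm.comp; assumption) | apply Tm.pair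
          | apply Tm.lam))) (DefP.and (by (repeat' (first
          | apply DefP.hlf | apply DefP.p1le | apply DefP.p1 | apply DefP.p0 | apply DefP.aug
          | apply DefP.pth | apply DefP.nx | apply DefP.cnd | apply DefP.hmin | apply DefP.hit
          | apply DefP.cdn | apply DefP.firstEx | apply DefP.exN | apply DefP.end_
          | apply DefP.isZero | apply DefP.isSucc | apply DefP.alt | apply DefP.exr
          | apply DefP.exl | apply DefP.side | apply DefP.oddCard | apply DefP.cardEq
          | apply DefP.cardLt | apply DefP.cardLe | apply DefP.lst | apply DefP.fst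
          | apply DefP.nxt | apply DefP.keyLe | apply DefP.keyLt | apply DefP.rtc
          | (apply DefP.app4; assumption) | (apply DefP.app3'; assumption)
          | (apply DefP.app3; assumption) | (apply DefP.app2; assumption)
          | (apply DefP.comp; assumption) | exact Tm.id | exact Tm.unit | apply Tm.fst
          | apply Tm.snd | apply Tm.app | exact DefP.const _ | apply DefP.and | apply DefP.not
          | apply DefP.or | apply DefP.iff | apply DefP.adj | apply DefP.le | apply DefP.lt
          | apply DefP.eqFin | apply DefP.eq | apply DefP.rv | apply DefP.imp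
          | apply DefP.allFin | apply DefP.exFin | apply DefP.all | apply DefP.ex | assumption
          | (apply Tm.comp; assumption) | apply Tm.pair | apply Tm.lam))) ?_))
      refine DefP.exFin (DefP.exFin (DefP.and (by (repeat' (first
          | apply DefP.hlf | apply DefP.p1le | apply DefP.p1 | apply DefP.p0 | apply DefP.aug
          | apply DefP.pth | apply DefP.nx | apply DefP.cnd | apply DefP.hmin | apply DefP.hit
          | apply DefP.cdn | apply DefP.firstEx | apply DefP.exN | apply DefP.end_
          | apply DefP.isZero | apply DefP.isSucc | apply DefP.alt | apply DefP.exr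
          | apply DefP.exl | apply DefP.side | apply DefP.oddCard | apply DefP.cardEq
          | apply DefP.cardLt | apply DefP.cardLe | apply DefP.lst | apply DefP.fst
          | apply DefP.nxt | apply DefP.keyLe | apply DefP.keyLt | apply DefP.rtc
          | (apply DefP.app4; assumption) | (apply DefP.app3'; assumption)
          | (apply DefP.app3; assumption) | (apply DefP.app2; assumption)
          | (apply DefP.comp; assumption) | exact Tm.id | exact Tm.unit | apply Tm.fst
          | apply Tm.snd | apply Tm.app | exact DefP.const _ | apply DefP.and | apply DefP.not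
          | apply DefP.or | apply DefP.iff | apply DefP.adj | apply DefP.le | apply DefP.lt
          | apply DefP.eqFin | apply DefP.eq | apply DefP.rv | apply DefP.imp
          | apply DefP.allFin | apply DefP.exFin | apply DefP.all | apply DefP.ex | assumption
          | (apply Tm.comp; assumption) | apply Tm.pair
          | apply Tm.lam))) (DefP.and (by (repeat' (first
          | apply DefP.hlf | apply DefP.p1le | apply DefP.p1 | apply DefP.p0 | apply DefP.aug
          | apply DefP.pth | apply DefP.nx | apply DefP.cnd | apply DefP.hmin | apply DefP.hit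
          | apply DefP.cdn | apply DefP.firstEx | apply DefP.exN | apply DefP.end_
          | apply DefP.isZero | apply DefP.isSucc | apply DefP.alt | apply DefP.exr
          | apply DefP.exl | apply DefP.side | apply DefP.oddCard | apply DefP.cardEq
          | apply DefP.cardLt | apply DefP.cardLe | apply DefP.lst | apply DefP.fst
          | apply DefP.nxt | apply DefP.keyLe | apply DefP.keyLt | apply DefP.rtc
          | (apply DefP.app4; assumption) | (apply DefP.app3'; assumption)
          | (apply DefP.app3; assumption) | (apply DefP.app2; assumption)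
          | (apply DefP.comp; assumption) | exact Tm.id | exact Tm.unit | apply Tm.fst
          | apply Tm.snd | apply Tm.app | exact DefP.const _ | apply DefP.and | apply DefP.not
          | apply DefP.or | apply DefP.iff | apply DefP.adj | apply DefP.le | apply DefP.lt
          | apply DefP.eqFin | apply DefP.eq | apply DefP.rv | apply DefP.imp
          | apply DefP.allFin | apply DefP.exFin | apply DefP.all | apply DefP.ex | assumption
          | (apply Tm.comp; assumption) | apply Tm.pair | apply Tm.lam))) ?_)))
      refine DefP.oddCard (S := T) ?_
      (repeat' (first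
          | apply DefP.hlf | apply DefP.p1le | apply DefP.p1 | apply DefP.p0 | apply DefP.aug
          | apply DefP.pth | apply DefP.nx | apply DefP.cnd | apply DefP.hmin | apply DefP.hit
          | apply DefP.cdn | apply DefP.firstEx | apply DefP.exN | apply DefP.end_
          | apply DefP.isZero | apply DefP.isSucc | apply DefP.alt | apply DefP.exr
          | apply DefP.exl | apply DefP.side | apply DefP.oddCard | apply DefP.cardEq
          | apply DefP.cardLt | apply DefP.cardLe | apply DefP.lst | apply DefP.fst
          | apply DefP.nxt | apply DefP.keyLe | apply DefP.keyLt | apply DefP.rtc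
          | (apply DefP.app4; assumption) | (apply DefP.app3'; assumption)
          | (apply DefP.app3; assumption) | (apply DefP.app2; assumption)
          | (apply DefP.comp; assumption) | exact Tm.id | exact Tm.unit | apply Tm.fst
          | apply Tm.snd | apply Tm.app | exact DefP.const _ | apply DefP.and | apply DefP.not
          | apply DefP.or | apply DefP.iff | apply DefP.adj | apply DefP.le | apply DefP.lt
          | apply DefP.eqFin | apply DefP.eq | apply DefP.rv | apply DefP.imp
          | apply DefP.allFin | apply DefP.exFin | apply DefP.all | apply DefP.ex | assumption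
          | (apply Tm.comp; assumption) | apply Tm.pair | apply Tm.lam)))
  have key2 : DefP (E := fun n => E n × (Fin n × (T n × T n)))
      (fun n G X y => PMNC.wpar (B n G X y.1) y.2.1.val y.2.2.1 y.2.2.2) := by
    refine key.congr ?_
    intro n G X y
    rw [one_mul]
    haveI : Finite (T n) := Finite.of_equiv _ (vec n).symm
    obtain ⟨x, j, s, t⟩ := y
    have hle : j.val ≤ 2 ^ Nat.size n := (j.2.trans (Nat.lt_size_self n)).le
    exact pwS_iterate (B n G X x) (Nat.size n) j s t hle
  exact DefP.app4 (H := fun n => Fin n) (K := T) (L := T)
    (P := fun n G X x j s t => PMNC.wpar (B n G X x) (Fin.val j) s t) key2 Tm.id hj hs ht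

end Pool.Agent.PMNC
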