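import Mathlib
import Pool.Agent.Lib.MP_0087d5_lc.UPow
import Pool.Agent.Lib.MP_0087d5_lc.WNum

set_option autoImplicit false
set_option linter.all false

/-!
# Weighted matrices over `ZMod 2` and walks in the product with the weights
-/

namespace Pool.Agent.PMNC

open Matrix

/-- power series that record a weight -/
abbrev YS := PowerSeries (ZMod 2)

open Classical in
/-- the weighted matrix of a relation -/
noncomputable def mxw {α : Type*} (A : α → α → Prop) (w : α → α → ℕ) : Matrix α α YS :=
  Matrix.of fun x y => if A x y then PowerSeries.X ^ w x y else 0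

/-- the values of `nu` are different and form an initial segment -/
structure Dn {β : Type*} (nu : β → ℕ) : Prop where
  inj : Function.Injective nu
  down : ∀ b m, m ≤ nu b → ∃ c, nu c = m

theorem dn_nv {S : ℕ → Type} [Env S] {n : ℕ} : Dn (nv (S := S) (n := n)) :=
  ⟨nv_injective, fun b m h => nv_down' h⟩

section
variable {α β : Type*} {nu : β → ℕ}

theorem conv [Fintype β] (hd : Dn nu) (F : ℕ → ℕ → ZMod 2) {a b : β} (hab : nu a ≤ nu b) :
    ∑ c : β, (if nu a ≤ nu c ∧ nu c ≤ nu b then F (nu c - nu a) (nu b - nu c) else 0) =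
      ∑ p ∈ Finset.HasAntidiagonal.antidiagonal (nu b - nu a), F p.1 p.2 := by
  classical
  rw [← Finset.sum_filter]
  refine Finset.sum_nbij (fun c => (nu c - nu a, nu b - nu c)) ?_ ?_ ?_ ?_
  · intro c hc
    rw [Finset.mem_filter] at hc
    rw [Finset.HasAntidiagonal.mem_antidiagonal]
    simp only
    omega
  · intro c hc c' hc' h
    rw [Finset.mem_coe, Finset.mem_filter] at hc hc'
    simp only [Prod.mk.injEq] at h
    apply hd.inj
    omega
  · rintro ⟨i, j⟩ hp
    rw [Finset.mem_coe, Finset.HasAntidiagonal.mem_antidiagonal] at hp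
    simp only at hp
    obtain ⟨c, hc⟩ := hd.down b (nu a + i) (by omega)
    refine ⟨c, ?_, ?_⟩
    · rw [Finset.mem_coe, Finset.mem_filter]
      exact ⟨Finset.mem_univ _, by omega, by omega⟩
    · simp only [Prod.mk.injEq]
      omega
  · intro c hc
    rfl

/-- the relation `P` on states describes the matrix `M` -/
def Rep (nu : β → ℕ) (P : α × β → α × β → Prop) (M : Matrix α α YS) : Prop :=
  ∀ s a t b, P (s, a) (t, b) ↔ (nu a ≤ nu b ∧ PowerSeries.coeff (nu b - nu a) (M s t) = 1)

theorem rep_mul [Fintype α] [Finite β] (hd : Dn nu) {P Q : α × β → α × β → Prop}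
    {M M' : Matrix α α YS} (hP : Rep nu P M) (hQ : Rep nu Q M') :
    Rep nu (fun s t => Odd (Nat.card {r // P s r ∧ Q r t})) (M * M') := by
  classical
  haveI := Fintype.ofFinite β
  intro s a t b
  by_cases hab : nu a ≤ nu b
  · have e : ∀ x, PowerSeries.coeff (nu b - nu a) (M s x * M' x t) = ∑ c : β,
        (if nu a ≤ nu c ∧ nu c ≤ nu b then PowerSeries.coeff (nu c - nu a) (M s x) *
          PowerSeries.coeff (nu b - nu c) (M' x t) else 0) := by
      intro x
      rw [PowerSeries.coeff_mul]
      exact (conv hd (fun i j => PowerSeries.coeff i (M s x) *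
        PowerSeries.coeff j (M' x t)) hab).symm
    simp only [hab, true_and]
    rw [Matrix.mul_apply, map_sum, Finset.sum_congr rfl fun x _ => e x,
      ← Fintype.sum_prod_type', sum_z2]
    refine iff_of_eq (congrArg Odd (Nat.card_congr (Equiv.subtypeEquivRight ?_)))
    rintro ⟨x, c⟩
    rw [hP, hQ]
    simp only
    rcases z2_cases (PowerSeries.coeff (nu c - nu a) (M s x)) with h1 | h1 <;>
      rcases z2_cases (PowerSeries.coeff (nu b - nu c) (M' x t)) with h2 | h2 <;>
      simp [h1, h2]
  · simp only [hab, false_and, iff_false]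
    have : IsEmpty {r : α × β // P (s, a) r ∧ Q r (t, b)} := by
      constructor
      rintro ⟨⟨x, c⟩, h1, h2⟩
      rw [hP] at h1
      rw [hQ] at h2
      exact hab (h1.1.trans h2.1)
    rw [Nat.card_of_isEmpty]
    decide

theorem rep_one [DecidableEq α] (hd : Dn nu) :
    Rep nu (fun s t => s = t) (1 : Matrix α α YS) := by
  intro s a t b
  change (s, a) = (t, b) ↔ _
  rw [Prod.mk.injEq, Matrix.one_apply]
  by_cases h : s = t
  · simp only [h, true_and, if_true, PowerSeries.coeff_one]
    constructor
    · rintro rfl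
      simp
    · rintro ⟨h1, h2⟩
      apply hd.inj
      by_contra hc
      rw [if_neg (by omega)] at h2
      exact absurd h2 (by decide)
  · simp [h]

theorem rep_wpar [Fintype α] [DecidableEq α] [Finite β] (hd : Dn nu)
    {P : α × β → α × β → Prop} {M : Matrix α α YS} (hP : Rep nu P M) (j : ℕ) :
    Rep nu (wpar P j) (M ^ j) := by
  induction j with
  | zero =>
    rw [pow_zero]
    exact rep_one hd
  | succ j ih =>
    rw [pow_succ]
    exact rep_mul hd ih hP

/-- the steps in the product with the weights -/
def PB (nu : β → ℕ) (A : α → α → Prop) (w : α → α → ℕ) (p q : α × β) : Prop :=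
  A p.1 q.1 ∧ nu p.2 + w p.1 q.1 = nu q.2

theorem rep_pb (A : α → α → Prop) (w : α → α → ℕ) : Rep nu (PB nu A w) (mxw A w) := by
  classical
  intro s a t b
  unfold PB mxw
  rw [Matrix.of_apply]
  by_cases h : A s t
  · simp only [h, if_true, true_and, PowerSeries.coeff_X_pow]
    constructor
    · intro h1
      exact ⟨by omega, by rw [if_pos (by omega)]⟩
    · rintro ⟨h1, h2⟩
      by_contra hc
      rw [if_neg (by omega)] at h2
      exact absurd h2 (by decide)
  · simp [h]

end

end Pool.Agent.PMNC
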