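import Mathlib
import Pool.Agent.Lib.MP_0087d5_lc.WRep

set_option autoImplicit false
set_option linter.all false

/-!
# Samuelson's recursion for determinants over a commutative ring
-/

namespace Pool.Agent.PMNC

open Matrix

section gen
variable {α : Type*} [Fintype α] [DecidableEq α] {R : Type*} [CommRing R]

/-- `1 - X M` -/
noncomputable def psG (M : Matrix α α R) : Matrix α α (PowerSeries R) :=
  1 - (PowerSeries.X : PowerSeries R) • M.map (PowerSeries.C (R := R))

/-- the power series of the powers of `M` -/
noncomputable def geG (M : Matrix α α R) : Matrix α α (PowerSeries R) :=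
  Matrix.of fun x y => PowerSeries.mk fun j => (M ^ j) x y

theorem psG_mul_geG (M : Matrix α α R) : psG M * geG M = 1 := by
  have h : psG M * geG M = geG M - (PowerSeries.X : PowerSeries R) •
      (M.map (PowerSeries.C (R := R)) * geG M) := by
    unfold psG
    rw [Matrix.sub_mul, Matrix.one_mul, Matrix.smul_mul]
  rw [h]
  ext x y j
  rw [Matrix.sub_apply, Matrix.smul_apply, smul_eq_mul, map_sub, Matrix.mul_apply]
  cases j with
  | zero =>
    rw [PowerSeries.coeff_zero_X_mul]
    simp only [geG, Matrix.of_apply, PowerSeries.coeff_mk, pow_zero, sub_zero, Matrix.one_apply]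
    split_ifs <;> simp
  | succ j =>
    rw [PowerSeries.coeff_succ_X_mul, map_sum]
    simp only [geG, Matrix.of_apply, PowerSeries.coeff_mk, Matrix.map_apply,
      PowerSeries.coeff_C_mul, Matrix.one_apply]
    rw [pow_succ', Matrix.mul_apply, sub_self]
    split_ifs <;> simp [PowerSeries.coeff_one]

theorem psG_det_unit (M : Matrix α α R) : IsUnit (psG M).det := by
  apply IsUnit.of_mul_eq_one (geG M).det
  rw [← Matrix.det_mul, psG_mul_geG, Matrix.det_one]

theorem psG_inv (M : Matrix α α R) : (psG M)⁻¹ = geG M :=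
  Matrix.inv_eq_right_inv (psG_mul_geG M)

theorem psG_det (M : Matrix α α R) :
    (psG M).det = (M.charpolyRev : PowerSeries R) := by
  unfold Matrix.charpolyRev psG
  rw [← Polynomial.coeToPowerSeries.ringHom_apply, RingHom.map_det]
  congr 1
  ext1 x y
  simp only [Matrix.sub_apply, Matrix.smul_apply, Matrix.map_apply, RingHom.mapMatrix_apply,
    map_sub, smul_eq_mul, map_mul, Polynomial.coeToPowerSeries.ringHom_apply, Polynomial.coe_X,
    Polynomial.coe_C, Matrix.one_apply]
  split_ifs <;> simp

theorem coeff_psG_det [Nontrivial R] (M : Matrix α α R) :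
    PowerSeries.coeff (Fintype.card α) (psG M).det = (-1) ^ Fintype.card α * M.det := by
  rw [psG_det, Polynomial.coeff_coe, ← Matrix.reverse_charpoly, Polynomial.coeff_reverse,
    Matrix.charpoly_natDegree_eq_dim, Polynomial.revAt_le le_rfl, Nat.sub_self,
    Matrix.det_eq_sign_charpoly_coeff, ← mul_assoc, ← mul_pow]
  simp

end gen

section main
variable {n : ℕ} {R : Type*} [CommRing R] {M : Matrix (Fin n) (Fin n) R}

/-- the matrix restricted to the numbers below `m` -/
def mkm (M : Matrix (Fin n) (Fin n) R) (m : ℕ) : Matrix (Fin n) (Fin n) R :=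
  Matrix.of fun x y => if x.val < m ∧ y.val < m then M x y else 0

/-- the row `k` up to the diagonal -/
def rwm (M : Matrix (Fin n) (Fin n) R) (k : Fin n) : Matrix (Fin n) (Fin n) R :=
  Matrix.of fun x y => if x = k ∧ y < k then M x y else 0

/-- the column `k` up to the diagonal -/
def clm (M : Matrix (Fin n) (Fin n) R) (k : Fin n) : Matrix (Fin n) (Fin n) R :=
  Matrix.of fun x y => if x < k ∧ y = k then M x y else 0

/-- closed walks with `j + 2` steps from `k` through numbers below `k` -/
def qcm (M : Matrix (Fin n) (Fin n) R) (k : Fin n) (j : ℕ) : R :=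
  (rwm M k * (mkm M k ^ j * clm M k)) k k

/-- the factor number `k` -/
noncomputable def fcG (M : Matrix (Fin n) (Fin n) R) (k : Fin n) : PowerSeries R :=
  1 - PowerSeries.X * (PowerSeries.X * PowerSeries.mk fun j => qcm M k j)

theorem coeff_fcG_zero (k : Fin n) : PowerSeries.coeff 0 (fcG M k) = 1 := by
  unfold fcG
  rw [map_sub, PowerSeries.coeff_zero_X_mul]
  simp

theorem coeff_fcG_one (k : Fin n) : PowerSeries.coeff 1 (fcG M k) = 0 := by
  unfold fcG
  rw [map_sub, show (1 : ℕ) = 0 + 1 from rfl, PowerSeries.coeff_succ_X_mul,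
    PowerSeries.coeff_zero_X_mul, PowerSeries.coeff_one]
  simp

theorem coeff_fcG (k : Fin n) (j : ℕ) :
    PowerSeries.coeff (j + 2) (fcG M k) = - qcm M k j := by
  unfold fcG
  rw [map_sub, show j + 2 = (j + 1) + 1 from rfl, PowerSeries.coeff_succ_X_mul,
      PowerSeries.coeff_succ_X_mul, PowerSeries.coeff_one, PowerSeries.coeff_mk]
  simp

theorem mkm_row (k : Fin n) (y : Fin n) : mkm M k k y = 0 := by
  unfold mkm
  simp

theorem mkm_col (k : Fin n) (x : Fin n) : mkm M k x k = 0 := by
  unfold mkm
  simp

theorem geG_row (k y : Fin n) : geG (mkm M k) k y = if k = y then 1 else 0 := by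
  unfold geG
  rw [Matrix.of_apply]
  ext j
  rw [PowerSeries.coeff_mk]
  cases j with
  | zero =>
    rw [pow_zero, Matrix.one_apply]
    split_ifs <;> simp
  | succ j =>
    rw [pow_succ', Matrix.mul_apply, Finset.sum_eq_zero fun z _ => by
      rw [mkm_row, zero_mul]]
    split_ifs <;> simp [PowerSeries.coeff_one]

theorem geG_col (k x : Fin n) : geG (mkm M k) x k = if x = k then 1 else 0 := by
  unfold geG
  rw [Matrix.of_apply]
  ext j
  rw [PowerSeries.coeff_mk]
  cases j with
  | zero =>
    rw [pow_zero, Matrix.one_apply]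
    split_ifs <;> simp
  | succ j =>
    rw [pow_succ, Matrix.mul_apply, Finset.sum_eq_zero fun z _ => by
      rw [mkm_col, mul_zero]]
    split_ifs <;> simp [PowerSeries.coeff_one]

/-- row `k` -/
noncomputable def rwP (M : Matrix (Fin n) (Fin n) R) (k y : Fin n) : PowerSeries R :=
  if y < k then PowerSeries.C (M k y) else 0

/-- column `k` -/
noncomputable def clP (M : Matrix (Fin n) (Fin n) R) (k x : Fin n) : PowerSeries R :=
  if x < k then PowerSeries.C (M x k) else 0

theorem psG_succ (h : ∀ x, M x x = 0) (k : Fin n) :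
    psG (mkm M (k + 1)) = psG (mkm M k) +
      (Matrix.of fun (x : Fin n) (i : Fin 2) => if i = 0 then (if x = k then 1 else 0)
        else clP M k x) *
      (Matrix.of fun (i : Fin 2) (y : Fin n) => -PowerSeries.X * (if i = 0 then rwP M k y
        else (if y = k then 1 else 0))) := by
  ext1 x y
  rw [Matrix.add_apply, Matrix.mul_apply, Fin.sum_univ_two]
  unfold psG
  simp only [Matrix.sub_apply, Matrix.smul_apply, Matrix.map_apply, Matrix.of_apply, smul_eq_mul]
  rw [sub_add_eq_add_sub, sub_eq_sub_iff_add_eq_add]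
  have e : (1 : Fin 2) ≠ 0 := by decide
  simp only [if_true, if_neg e]
  have hmt : ∀ m, mkm M m x y = if x.val < m ∧ y.val < m then M x y else 0 := fun m => by
    unfold mkm
    rw [Matrix.of_apply]
  rw [hmt, hmt]
  unfold rwP clP
  by_cases hx : x = k
  · subst hx
    by_cases hy : y = x
    · subst hy
      simp [h y]
    · have : y.val ≠ x.val := fun hh => hy (Fin.ext hh)
      have h3 : (x.val < x.val + 1 ∧ y.val < x.val + 1) ↔ y < x := by
        rw [Fin.lt_def]; omega
      by_cases h4 : y < x
      · have h5 := h3.2 h4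
        simp [h4, hy, h5]
      · have h5 : ¬ (x.val < x.val + 1 ∧ y.val < x.val + 1) := fun hh => h4 (h3.1 hh)
        rw [if_neg h5]
        simp [h4, hy]
  · by_cases hy : y = k
    · subst hy
      have : x.val ≠ y.val := fun hh => hx (Fin.ext hh)
      have h3 : (x.val < y.val + 1 ∧ y.val < y.val + 1) ↔ x < y := by
        rw [Fin.lt_def]; omega
      by_cases h4 : x < y
      · have h5 := h3.2 h4
        simp [h4, hx, h5]
        ring
      · have h5 : ¬ (x.val < y.val + 1 ∧ y.val < y.val + 1) := fun hh => h4 (h3.1 hh)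
        rw [if_neg h5]
        simp [h4, hx]
    · have h3 : (x.val < k.val + 1 ∧ y.val < k.val + 1) ↔ (x.val < k.val ∧ y.val < k.val) := by
        have : x.val ≠ k.val := fun hh => hx (Fin.ext hh)
        have : y.val ≠ k.val := fun hh => hy (Fin.ext hh)
        omega
      simp only [h3]
      simp [hx, hy]

theorem sum_qcm (k : Fin n) : ∑ x, ∑ y, rwP M k x * geG (mkm M k) x y * clP M k y =
    PowerSeries.mk fun j => qcm M k j := by
  ext j
  rw [PowerSeries.coeff_mk, map_sum]
  unfold qcm
  rw [Matrix.mul_apply]
  refine Finset.sum_congr rfl fun x _ => ?_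
  rw [map_sum, Matrix.mul_apply, Finset.mul_sum]
  refine Finset.sum_congr rfl fun y _ => ?_
  unfold rwP clP geG rwm clm
  simp only [Matrix.of_apply]
  by_cases h1 : x < k <;> by_cases h2 : y < k
  · simp [h1, h2, mul_assoc, PowerSeries.coeff_mul_C, PowerSeries.coeff_C_mul]
  · simp [h1, h2]
  · simp [h1, h2]
  · simp [h1, h2]

/-- Samuelson's recursion -/
theorem detG_succ (h : ∀ x, M x x = 0) (k : Fin n) :
    (psG (mkm M (k + 1))).det = (psG (mkm M k)).det * fcG M k := by
  rw [psG_succ h, Matrix.det_add_mul _ _ (psG_det_unit _), psG_inv]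
  congr 1
  rw [Matrix.det_fin_two]
  have e10 : (1 : Fin 2) ≠ 0 := by decide
  have q : ∀ (i j : Fin 2), ((Matrix.of fun (i : Fin 2) (y : Fin n) =>
      -PowerSeries.X * (if i = 0 then rwP M k y else (if y = k then 1 else 0))) *
      geG (mkm M k) *
      (Matrix.of fun (x : Fin n) (i : Fin 2) => if i = 0 then (if x = k then 1 else 0)
        else clP M k x) : Matrix (Fin 2) (Fin 2) (PowerSeries R)) i j =
      ∑ x, ∑ y, (-PowerSeries.X * (if i = 0 then rwP M k x else (if x = k then 1 else 0))) *
        geG (mkm M k) x y * (if j = 0 then (if y = k then 1 else 0) else clP M k y) := by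
    intro i j
    rw [Matrix.mul_apply, Finset.sum_comm]
    refine Finset.sum_congr rfl fun y _ => ?_
    rw [Matrix.mul_apply, Finset.sum_mul]
    rfl
  simp only [Matrix.add_apply, q, if_true, if_neg e10, Matrix.one_apply_eq]
  have z00 : ∑ x, ∑ y, (-PowerSeries.X * rwP M k x) * geG (mkm M k) x y *
      (if y = k then 1 else 0) = 0 := by
    refine Finset.sum_eq_zero fun x _ => ?_
    rw [Finset.sum_eq_single k (fun y _ hy => by rw [if_neg hy, mul_zero])
      (fun hh => absurd (Finset.mem_univ k) hh), geG_col]
    by_cases hx : x = k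
    · subst hx
      have : rwP M x x = 0 := by
        unfold rwP
        simp
      rw [this]
      simp
    · rw [if_neg hx]
      simp
  have z11 : ∑ x, ∑ y, (-PowerSeries.X * (if x = k then 1 else 0)) * geG (mkm M k) x y *
      clP M k y = 0 := by
    refine Finset.sum_eq_zero fun x _ => Finset.sum_eq_zero fun y _ => ?_
    by_cases hx : x = k
    · subst hx
      rw [geG_row]
      by_cases hy : x = y
      · subst hy
        have : clP M x x = 0 := by
          unfold clP
          simp
        rw [this]
        simp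
      · rw [if_neg hy]
        simp
    · rw [if_neg hx]
      simp
  have z10 : ∑ x, ∑ y, (-PowerSeries.X * (if x = k then 1 else 0)) * geG (mkm M k) x y *
      (if y = k then 1 else 0) = -(PowerSeries.X : PowerSeries R) := by
    rw [Finset.sum_eq_single k (fun x _ hx => by
        refine Finset.sum_eq_zero fun y _ => ?_
        rw [if_neg hx]; simp)
      (fun hh => absurd (Finset.mem_univ k) hh),
      Finset.sum_eq_single k (fun y _ hy => by rw [if_neg hy, mul_zero])
      (fun hh => absurd (Finset.mem_univ k) hh), geG_row]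
    simp
  have z01 : ∑ x, ∑ y, (-PowerSeries.X * rwP M k x) * geG (mkm M k) x y * clP M k y =
      -PowerSeries.X * PowerSeries.mk fun j => qcm M k j := by
    rw [← sum_qcm, Finset.mul_sum]
    refine Finset.sum_congr rfl fun x _ => ?_
    rw [Finset.mul_sum]
    refine Finset.sum_congr rfl fun y _ => ?_
    ring
  rw [z00, z11, z10, z01]
  have o1 : (1 : Matrix (Fin 2) (Fin 2) (PowerSeries R)) 0 1 = 0 :=
    Matrix.one_apply_ne (by decide)
  have o2 : (1 : Matrix (Fin 2) (Fin 2) (PowerSeries R)) 1 0 = 0 :=
    Matrix.one_apply_ne (by decide)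
  rw [o1, o2]
  unfold fcG
  ring

theorem psG_mkm_zero : psG (mkm M 0) = 1 := by
  have : mkm M 0 = 0 := by
    ext x y
    unfold mkm
    simp
  rw [this]
  unfold psG
  ext x y
  simp

end main

end Pool.Agent.PMNC
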