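import Mathlib
import Pool.Agent.Lib.MP_0087d5_lc.WDet

set_option autoImplicit false
set_option linter.all false

/-!
# Samuelson's recursion for determinants, any diagonal
-/

namespace Pool.Agent.PMNC

open Matrix

section sam
variable {α : Type*} [Fintype α] [DecidableEq α] {R : Type*} [CommRing R] {M : Matrix α α R}
  {ρ : α → ℕ}

/-- the matrix restricted to the elements with number below `m` -/
def mkz (ρ : α → ℕ) (M : Matrix α α R) (m : ℕ) : Matrix α α R :=
  Matrix.of fun x y => if ρ x < m ∧ ρ y < m then M x y else 0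

/-- closed walks with `j + 2` steps from `k` through elements below `k` -/
def qcz (ρ : α → ℕ) (M : Matrix α α R) (k : α) (j : ℕ) : R :=
  ∑ x, ∑ y, if ρ x < ρ k ∧ ρ y < ρ k then M k x * (mkz ρ M (ρ k) ^ j) x y * M y k else 0

/-- the factor number `k` -/
noncomputable def fcz (ρ : α → ℕ) (M : Matrix α α R) (k : α) : PowerSeries R :=
  1 - PowerSeries.X * (PowerSeries.C (M k k) +
    PowerSeries.X * PowerSeries.mk fun j => qcz ρ M k j)

theorem coeff_fcz_zero (k : α) : PowerSeries.coeff 0 (fcz ρ M k) = 1 := by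
  unfold fcz
  rw [map_sub, PowerSeries.coeff_zero_X_mul]
  simp

theorem coeff_fcz_one (k : α) : PowerSeries.coeff 1 (fcz ρ M k) = - M k k := by
  unfold fcz
  rw [map_sub, show (1 : ℕ) = 0 + 1 from rfl, PowerSeries.coeff_succ_X_mul, map_add,
    PowerSeries.coeff_zero_X_mul, PowerSeries.coeff_one, PowerSeries.coeff_zero_C]
  simp

theorem coeff_fcz (k : α) (j : ℕ) :
    PowerSeries.coeff (j + 2) (fcz ρ M k) = - qcz ρ M k j := by
  unfold fcz
  rw [map_sub, show j + 2 = (j + 1) + 1 from rfl, PowerSeries.coeff_succ_X_mul, map_add,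
      PowerSeries.coeff_succ_X_mul, PowerSeries.coeff_one, PowerSeries.coeff_mk,
      PowerSeries.coeff_C]
  simp

theorem mkz_row (k : α) (y : α) : mkz ρ M (ρ k) k y = 0 := by
  unfold mkz
  simp

theorem mkz_col (k : α) (x : α) : mkz ρ M (ρ k) x k = 0 := by
  unfold mkz
  simp

theorem geG_rowz (k y : α) : geG (mkz ρ M (ρ k)) k y = if k = y then 1 else 0 := by
  unfold geG
  rw [Matrix.of_apply]
  ext j
  rw [PowerSeries.coeff_mk]
  cases j with
  | zero =>
    rw [pow_zero, Matrix.one_apply]
    split_ifs <;> simp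
  | succ j =>
    rw [pow_succ', Matrix.mul_apply, Finset.sum_eq_zero fun z _ => by
      rw [mkz_row, zero_mul]]
    split_ifs <;> simp [PowerSeries.coeff_one]

theorem geG_colz (k x : α) : geG (mkz ρ M (ρ k)) x k = if x = k then 1 else 0 := by
  unfold geG
  rw [Matrix.of_apply]
  ext j
  rw [PowerSeries.coeff_mk]
  cases j with
  | zero =>
    rw [pow_zero, Matrix.one_apply]
    split_ifs <;> simp
  | succ j =>
    rw [pow_succ, Matrix.mul_apply, Finset.sum_eq_zero fun z _ => by
      rw [mkz_col, mul_zero]]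
    split_ifs <;> simp [PowerSeries.coeff_one]

/-- row `k` -/
noncomputable def rwz (ρ : α → ℕ) (M : Matrix α α R) (k y : α) : PowerSeries R :=
  if ρ y < ρ k then PowerSeries.C (M k y) else 0

/-- column `k` with the diagonal entry -/
noncomputable def clz (ρ : α → ℕ) (M : Matrix α α R) (k x : α) : PowerSeries R :=
  if ρ x ≤ ρ k then PowerSeries.C (M x k) else 0

theorem psG_succz (hρ : Function.Injective ρ) (k : α) :
    psG (mkz ρ M (ρ k + 1)) = psG (mkz ρ M (ρ k)) +
      (Matrix.of fun (x : α) (i : Fin 2) => if i = 0 then (if x = k then 1 else 0)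
        else clz ρ M k x) *
      (Matrix.of fun (i : Fin 2) (y : α) => -PowerSeries.X * (if i = 0 then rwz ρ M k y
        else (if y = k then 1 else 0))) := by
  ext1 x y
  rw [Matrix.add_apply, Matrix.mul_apply, Fin.sum_univ_two]
  unfold psG
  simp only [Matrix.sub_apply, Matrix.smul_apply, Matrix.map_apply, Matrix.of_apply, smul_eq_mul]
  rw [sub_add_eq_add_sub, sub_eq_sub_iff_add_eq_add]
  have e : (1 : Fin 2) ≠ 0 := by decide
  simp only [if_true, if_neg e]
  have hmt : ∀ m, mkz ρ M m x y = if ρ x < m ∧ ρ y < m then M x y else 0 := fun m => by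
    unfold mkz
    rw [Matrix.of_apply]
  rw [hmt, hmt]
  unfold rwz clz
  by_cases hx : x = k
  · subst hx
    by_cases hy : y = x
    · subst hy
      simp
      ring
    · have : ρ y ≠ ρ x := fun hh => hy (hρ hh)
      have h3 : (ρ x < ρ x + 1 ∧ ρ y < ρ x + 1) ↔ ρ y < ρ x := by
        omega
      by_cases h4 : ρ y < ρ x
      · have h5 := h3.2 h4
        simp [h4, hy, h5]
      · have h5 : ¬ (ρ x < ρ x + 1 ∧ ρ y < ρ x + 1) := fun hh => h4 (h3.1 hh)
        rw [if_neg h5]
        simp [h4, hy]
  · by_cases hy : y = k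
    · subst hy
      have : ρ x ≠ ρ y := fun hh => hx (hρ hh)
      have h3 : (ρ x < ρ y + 1 ∧ ρ y < ρ y + 1) ↔ ρ x ≤ ρ y := by
        omega
      by_cases h4 : ρ x ≤ ρ y
      · have h5 := h3.2 h4
        simp [h4, hx, h5]
        ring
      · have h5 : ¬ (ρ x < ρ y + 1 ∧ ρ y < ρ y + 1) := fun hh => h4 (h3.1 hh)
        rw [if_neg h5]
        simp [h4, hx]
    · have h3 : (ρ x < ρ k + 1 ∧ ρ y < ρ k + 1) ↔ (ρ x < ρ k ∧ ρ y < ρ k) := by
        have : ρ x ≠ ρ k := fun hh => hx (hρ hh)
        have : ρ y ≠ ρ k := fun hh => hy (hρ hh)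
        omega
      simp only [h3]
      simp [hx, hy]

theorem sum_qcz (hρ : Function.Injective ρ) (k : α) :
    ∑ x, ∑ y, rwz ρ M k x * geG (mkz ρ M (ρ k)) x y * clz ρ M k y =
    PowerSeries.mk fun j => qcz ρ M k j := by
  ext j
  rw [PowerSeries.coeff_mk, map_sum]
  unfold qcz
  refine Finset.sum_congr rfl fun x _ => ?_
  rw [map_sum]
  refine Finset.sum_congr rfl fun y _ => ?_
  by_cases h1 : ρ x < ρ k
  · by_cases h2 : ρ y < ρ k
    · unfold rwz clz geG
      simp only [Matrix.of_apply]
      simp [h1, h2, h2.le, PowerSeries.coeff_mul_C, PowerSeries.coeff_C_mul]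
    · rw [if_neg (fun h => h2 h.2)]
      by_cases h3 : y = k
      · subst h3
        rw [geG_colz, if_neg (fun h => by rw [h] at h1; omega)]
        simp
      · have h4 : ¬ (ρ y ≤ ρ k) := by
          intro h4
          have : ρ y ≠ ρ k := fun hh => h3 (hρ hh)
          omega
        unfold clz
        rw [if_neg h4]
        simp
  · unfold rwz
    simp [h1]

/-- Samuelson's recursion -/
theorem detG_succz (hρ : Function.Injective ρ) (k : α) :
    (psG (mkz ρ M (ρ k + 1))).det = (psG (mkz ρ M (ρ k))).det * fcz ρ M k := by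
  rw [psG_succz hρ, Matrix.det_add_mul _ _ (psG_det_unit _), psG_inv]
  congr 1
  rw [Matrix.det_fin_two]
  have e10 : (1 : Fin 2) ≠ 0 := by decide
  have q : ∀ (i j : Fin 2), ((Matrix.of fun (i : Fin 2) (y : α) =>
      -PowerSeries.X * (if i = 0 then rwz ρ M k y else (if y = k then 1 else 0))) *
      geG (mkz ρ M (ρ k)) *
      (Matrix.of fun (x : α) (i : Fin 2) => if i = 0 then (if x = k then 1 else 0)
        else clz ρ M k x) : Matrix (Fin 2) (Fin 2) (PowerSeries R)) i j =
      ∑ x, ∑ y, (-PowerSeries.X * (if i = 0 then rwz ρ M k x else (if x = k then 1 else 0))) *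
        geG (mkz ρ M (ρ k)) x y * (if j = 0 then (if y = k then 1 else 0) else clz ρ M k y) := by
    intro i j
    rw [Matrix.mul_apply, Finset.sum_comm]
    refine Finset.sum_congr rfl fun y _ => ?_
    rw [Matrix.mul_apply, Finset.sum_mul]
    rfl
  simp only [Matrix.add_apply, q, if_true, if_neg e10, Matrix.one_apply_eq]
  have z00 : ∑ x, ∑ y, (-PowerSeries.X * rwz ρ M k x) * geG (mkz ρ M (ρ k)) x y *
      (if y = k then 1 else 0) = 0 := by
    refine Finset.sum_eq_zero fun x _ => ?_
    rw [Finset.sum_eq_single k (fun y _ hy => by rw [if_neg hy, mul_zero])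
      (fun hh => absurd (Finset.mem_univ k) hh), geG_colz]
    by_cases hx : x = k
    · subst hx
      have : rwz ρ M x x = 0 := by
        unfold rwz
        simp
      rw [this]
      simp
    · rw [if_neg hx]
      simp
  have z11 : ∑ x, ∑ y, (-PowerSeries.X * (if x = k then 1 else 0)) *
      geG (mkz ρ M (ρ k)) x y * clz ρ M k y =
      -(PowerSeries.X : PowerSeries R) * PowerSeries.C (M k k) := by
    rw [Finset.sum_eq_single k (fun x _ hx => by
        refine Finset.sum_eq_zero fun y _ => ?_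
        rw [if_neg hx]; simp)
      (fun hh => absurd (Finset.mem_univ k) hh),
      Finset.sum_eq_single k (fun y _ hy => by
        rw [geG_rowz, if_neg (show ¬ (k = y) from fun h => hy h.symm)]; simp)
      (fun hh => absurd (Finset.mem_univ k) hh), geG_rowz]
    unfold clz
    simp
  have z10 : ∑ x, ∑ y, (-PowerSeries.X * (if x = k then 1 else 0)) *
      geG (mkz ρ M (ρ k)) x y * (if y = k then 1 else 0) = -(PowerSeries.X : PowerSeries R) := by
    rw [Finset.sum_eq_single k (fun x _ hx => by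
        refine Finset.sum_eq_zero fun y _ => ?_
        rw [if_neg hx]; simp)
      (fun hh => absurd (Finset.mem_univ k) hh),
      Finset.sum_eq_single k (fun y _ hy => by rw [if_neg hy, mul_zero])
      (fun hh => absurd (Finset.mem_univ k) hh), geG_rowz]
    simp
  have z01 : ∑ x, ∑ y, (-PowerSeries.X * rwz ρ M k x) * geG (mkz ρ M (ρ k)) x y *
      clz ρ M k y = -PowerSeries.X * PowerSeries.mk fun j => qcz ρ M k j := by
    rw [← sum_qcz hρ, Finset.mul_sum]
    refine Finset.sum_congr rfl fun x _ => ?_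
    rw [Finset.mul_sum]
    refine Finset.sum_congr rfl fun y _ => ?_
    ring
  rw [z00, z11, z10, z01]
  have o1 : (1 : Matrix (Fin 2) (Fin 2) (PowerSeries R)) 0 1 = 0 :=
    Matrix.one_apply_ne (by decide)
  have o2 : (1 : Matrix (Fin 2) (Fin 2) (PowerSeries R)) 1 0 = 0 :=
    Matrix.one_apply_ne (by decide)
  rw [o1, o2]
  unfold fcz
  ring

theorem psG_mkz_zero : psG (mkz ρ M 0) = 1 := by
  have : mkz ρ M 0 = 0 := by
    ext x y
    unfold mkz
    simp
  rw [this]
  unfold psG
  ext x y
  simp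

theorem mkz_top {N : ℕ} (h : ∀ x, ρ x < N) : mkz ρ M N = M := by
  ext x y
  unfold mkz
  rw [Matrix.of_apply, if_pos ⟨h x, h y⟩]

end sam

end Pool.Agent.PMNC
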