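import Mathlib
import Pool.Agent.Lib.MP_0087d5_lc.ZPath
import Pool.Agent.Lib.MP_0087d5_lc.ZSam

set_option autoImplicit false
set_option linter.all false

/-!
# Determinants of definable integer matrices are definable modulo a number
-/

namespace Pool.Agent.PMNC

open Relation Matrix

section
variable {T H : ℕ → Type} [Env T] [Env H] [∀ n, Fintype (T n)] [∀ n, Fintype (H n)] {n : ℕ}

open Classical in
/-- the layered matrix of a constant matrix -/
theorem psum_const (m : Matrix (T n) (T n) ℤ) : ∀ (d : ℕ) (a b : H n × T n),
    nv b.1 = nv a.1 + d → (lym (fun a b => m a.2 b.2) ^ d) a b = (m ^ d) a.2 b.2 := by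
  intro d
  induction d with
  | zero =>
    intro a b h
    rw [pow_zero, pow_zero, Matrix.one_apply, Matrix.one_apply]
    have h1 : a.1 = b.1 := nv_injective (by omega)
    by_cases h2 : a.2 = b.2
    · rw [if_pos (Prod.ext h1 h2), if_pos h2]
    · rw [if_neg (fun h3 => h2 (by rw [h3])), if_neg h2]
  | succ d ih =>
    intro a b h
    rw [pow_succ, pow_succ, Matrix.mul_apply, Matrix.mul_apply]
    obtain ⟨h', hh'⟩ := nv_down (b := b.1) (m := nv a.1 + d) (by omega)
    rw [Fintype.sum_prod_type, Finset.sum_eq_single h']
    · refine Finset.sum_congr rfl fun z _ => ?_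
      rw [ih a (h', z) hh']
      congr 1
      unfold lym
      rw [Matrix.of_apply, cnd_pos (by simp only; omega)]
    · intro h'' _ hne
      refine Finset.sum_eq_zero fun z _ => ?_
      rw [lym_pow_ne, zero_mul]
      simp only
      intro hc
      exact hne (nv_injective (by omega))
    · intro hc
      exact absurd (Finset.mem_univ _) hc

/-- `i ≤ h` and `h + 2 = j` -/
def sc2 (i h j : H n) : Prop := nv i ≤ nv h ∧ ∃ h' : H n, nv h' = nv h + 1 ∧ nv j = nv h' + 1

theorem sc2_iff {i h j : H n} : sc2 i h j ↔ nv i ≤ nv h ∧ nv h + 2 = nv j := by
  unfold sc2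
  constructor
  · rintro ⟨h1, h', h2, h3⟩
    exact ⟨h1, by omega⟩
  · rintro ⟨h1, h2⟩
    obtain ⟨h', hh'⟩ := nv_down (b := j) (m := nv h + 1) (by omega)
    exact ⟨h1, h', hh', by omega⟩

/-- the masked matrix -/
noncomputable def mskz (M : T n → T n → ℤ) (k x y : T n) : ℤ :=
  cnd (nv x < nv k ∧ nv y < nv k) (M x y) 0

/-- the coefficient of the factor number `k` at `j - i` -/
noncomputable def dco (M : T n → T n → ℤ) (k : T n) (i j : H n) : ℤ :=
  cnd (i = j) 1 0 - cnd (nv j = nv i + 1) (M k k) 0 -
    ∑ h : H n, cnd (sc2 i h j) (∑ x : T n, ∑ y : T n, cnd (nv x < nv k ∧ nv y < nv k)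
      (M k x * psum (fun a b => mskz M k a.2 b.2) (i, x) (h, y) * M y k) 0) 0

open Classical in
theorem mkz_eq (M : T n → T n → ℤ) (k : T n) :
    mkz nv (Matrix.of M) (nv k) = Matrix.of (mskz M k) := by
  ext x y
  unfold mkz mskz
  rw [Matrix.of_apply, Matrix.of_apply, Matrix.of_apply]
  by_cases h : nv x < nv k ∧ nv y < nv k
  · rw [if_pos h, cnd_pos h]
  · rw [if_neg h, cnd_neg h]

open Classical in
theorem dco_eq (M : T n → T n → ℤ) (k : T n) {i j : H n} (hij : nv i ≤ nv j) :
    dco M k i j = PowerSeries.coeff (nv j - nv i) (fcz nv (Matrix.of M) k) := by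
  unfold dco
  obtain ⟨t, ht⟩ : ∃ t, nv j - nv i = t := ⟨_, rfl⟩
  rw [ht]
  match t, ht with
  | 0, ht =>
    have e : i = j := nv_injective (by omega)
    rw [cnd_pos e, cnd_neg (by omega), coeff_fcz_zero, Finset.sum_eq_zero]
    · simp
    · intro h _
      rw [cnd_neg]
      rw [sc2_iff]
      omega
  | 1, ht =>
    have e : ¬ i = j := by
      rintro rfl
      omega
    rw [cnd_neg e, cnd_pos (by omega), coeff_fcz_one, Finset.sum_eq_zero]
    · simp
    · intro h _
      rw [cnd_neg]
      rw [sc2_iff]
      omega
  | t + 2, ht =>
    have e : ¬ i = j := by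
      rintro rfl
      omega
    rw [cnd_neg e, cnd_neg (by omega), coeff_fcz]
    obtain ⟨h, hh⟩ := nv_down (b := j) (m := nv j - 2) (by omega)
    have hs : sc2 i h j := sc2_iff.2 ⟨by omega, by omega⟩
    rw [Finset.sum_eq_single h]
    · rw [cnd_pos hs]
      unfold qcz
      rw [zero_sub, neg_zero, zero_sub]
      congr 1
      refine Finset.sum_congr rfl fun x _ => Finset.sum_congr rfl fun y _ => ?_
      by_cases hxy : nv x < nv k ∧ nv y < nv k
      · have hp : psum (fun a b => mskz M k a.2 b.2) (i, x) (h, y) =
            (Matrix.of (mskz M k) ^ t) x y := by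
          have e2 : nv h - nv i = t := by omega
          unfold psum
          show (lym _ ^ (nv h - nv i)) _ _ = _
          rw [e2]
          exact psum_const (Matrix.of (mskz M k)) t (i, x) (h, y) (by simp only; omega)
        rw [cnd_pos hxy, if_pos hxy, mkz_eq, hp]
        rfl
      · rw [cnd_neg hxy, if_neg hxy]
    · intro h' _ hne
      rw [cnd_neg]
      rw [sc2_iff]
      intro hc
      exact hne (nv_injective (by omega))
    · intro hc
      exact absurd (Finset.mem_univ _) hc

theorem dco_zero (M : T n → T n → ℤ) (k : T n) {i j : H n} (hij : nv j < nv i) :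
    dco M k i j = 0 := by
  unfold dco
  have e : ¬ i = j := by
    rintro rfl
    omega
  rw [cnd_neg e, cnd_neg (by omega), Finset.sum_eq_zero]
  · simp
  · intro h _
    rw [cnd_neg]
    rw [sc2_iff]
    omega

/-- one layer of the product of the factors -/
noncomputable def dly (M : T n → T n → ℤ) (a b : H n × H n) : ℤ :=
  ∑ k : T n, cnd (nv k = nv a.1) (dco M k a.2 b.2) 0

open Classical in
theorem dly_pow (M : T n → T n → ℤ) {o : H n} (ho : nv o = 0) (d : ℕ)
    (hd : d ≤ Fintype.card (T n)) : ∀ (L j : H n), nv L = d →
    (lym (dly M) ^ d) (o, o) (L, j) =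
      PowerSeries.coeff (nv j) (psG (mkz nv (Matrix.of M) d)).det := by
  induction d with
  | zero =>
    intro L j hL
    rw [psG_mkz_zero, Matrix.det_one, PowerSeries.coeff_one, pow_zero, Matrix.one_apply]
    have e : o = L := nv_injective (by omega)
    by_cases h : nv j = 0
    · rw [if_pos h, if_pos]
      exact Prod.ext e (nv_injective (by simp only; omega))
    · rw [if_neg h, if_neg]
      intro hc
      rw [Prod.mk.injEq] at hc
      rw [← hc.2] at h
      exact h ho
  | succ d ih =>
    intro L j hL
    obtain ⟨L', hL'⟩ := nv_down (b := L) (m := d) (by omega)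
    have hcard : d < n ^ dim T := by
      rw [← card_env (S := T), Nat.card_eq_fintype_card]
      omega
    obtain ⟨k, hk⟩ := nv_surj (S := T) hcard
    rw [← hk, detG_succz nv_injective k, PowerSeries.coeff_mul,
      Finset.Nat.sum_antidiagonal_eq_sum_range_succ_mk, hk, pow_succ, Matrix.mul_apply,
      Fintype.sum_prod_type, Finset.sum_eq_single L']
    · have e1 : ∀ i : H n, (lym (dly M) ^ d) (o, o) (L', i) * lym (dly M) (L', i) (L, j) =
          if nv i ≤ nv j then PowerSeries.coeff (nv i) (psG (mkz nv (Matrix.of M) d)).det *
            PowerSeries.coeff (nv j - nv i) (fcz nv (Matrix.of M) k) else 0 := by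
        intro i
        rw [ih (by omega) L' i hL']
        unfold lym dly
        rw [Matrix.of_apply, cnd_pos (by simp only; omega), Finset.sum_eq_single k]
        · rw [cnd_pos (by simp only; omega)]
          simp only
          by_cases hij : nv i ≤ nv j
          · rw [if_pos hij, dco_eq M k hij]
          · rw [if_neg hij, dco_zero M k (by omega), mul_zero]
        · intro k' _ hne
          rw [cnd_neg]
          simp only
          intro hc
          exact hne (nv_injective (by omega))
        · intro hc
          exact absurd (Finset.mem_univ _) hc
      simp only [e1]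
      rw [← Finset.sum_filter]
      refine Finset.sum_nbij' (fun i => nv i) (fun m => if hm : m < nv j + 1 then
        (nv_down' (b := j) (m := m) (by omega)).choose else j) ?_ ?_ ?_ ?_ ?_
      · intro i hi
        rw [Finset.mem_filter] at hi
        rw [Finset.mem_range]
        omega
      · intro m hm
        rw [Finset.mem_range] at hm
        rw [Finset.mem_filter]
        refine ⟨Finset.mem_univ _, ?_⟩
        rw [dif_pos hm, (nv_down' (b := j) (m := m) (by omega)).choose_spec]
        omega
      · intro i hi
        rw [Finset.mem_filter] at hi
        have hm : nv i < nv j + 1 := by omega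
        rw [dif_pos hm]
        exact nv_injective (nv_down' (b := j) (m := nv i) (by omega)).choose_spec
      · intro m hm
        rw [Finset.mem_range] at hm
        rw [dif_pos hm]
        exact (nv_down' (b := j) (m := m) (by omega)).choose_spec
      · intro i hi
        rfl
    · intro L'' _ hne
      refine Finset.sum_eq_zero fun i _ => ?_
      have : lym (dly M) (L'', i) (L, j) = 0 := by
        unfold lym
        rw [Matrix.of_apply, cnd_neg]
        simp only
        intro hc
        exact hne (nv_injective (by omega))
      rw [this, mul_zero]
    · intro hc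
      exact absurd (Finset.mem_univ _) hc

/-- the determinant as a path sum -/
noncomputable def dtH (H : ℕ → Type) [Env H] [∀ n, Fintype (H n)] (M : T n → T n → ℤ) : ℤ :=
  ∑ o : H n, ∑ L : H n, cnd (nv o = 0 ∧ ∃ t : T n, (∀ u : T n, nv u ≤ nv t) ∧ nv L = nv t + 1)
    ((∏ t : T n, (-1)) * psum (dly M) (o, o) (L, L)) 0

open Classical in
theorem dtH_eq (M : T n → T n → ℤ) (hn : 0 < n) (h : n ^ dim T < n ^ dim H) :
    dtH H M = Matrix.det (Matrix.of M) := by
  obtain ⟨o, ho⟩ := nv_surj (S := H) (n := n) (m := 0) (by positivity)
  obtain ⟨L, hL⟩ := nv_surj (S := H) (n := n) (m := n ^ dim T) h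
  have hN : 0 < n ^ dim T := by positivity
  obtain ⟨t, ht⟩ := nv_surj (S := T) (n := n) (m := n ^ dim T - 1) (by omega)
  have hmax : ∀ u : T n, nv u ≤ nv t := by
    intro u
    have := nv_lt u
    omega
  have hc : nv o = 0 ∧ ∃ t : T n, (∀ u : T n, nv u ≤ nv t) ∧ nv L = nv t + 1 :=
    ⟨ho, t, hmax, by omega⟩
  unfold dtH
  rw [Finset.sum_eq_single o, Finset.sum_eq_single L]
  · rw [cnd_pos hc]
    unfold psum
    simp only
    have hcard : Fintype.card (T n) = n ^ dim T := by
      rw [← Nat.card_eq_fintype_card]
      exact card_env (S := T) n
    rw [ho, Nat.sub_zero, dly_pow M ho (nv L) (by omega) L L rfl,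
      mkz_top (fun x => by have := nv_lt x; omega), hL, ← hcard, coeff_psG_det, ← mul_assoc,
      Finset.prod_const, Finset.card_univ, ← mul_pow]
    simp
  · intro L' _ hne
    rw [cnd_neg]
    rintro ⟨_, t', h1, h2⟩
    have := h1 t
    have := hmax t'
    exact hne (nv_injective (by omega))
  · intro hc
    exact absurd (Finset.mem_univ _) hc
  · intro o' _ hne
    refine Finset.sum_eq_zero fun L' _ => ?_
    rw [cnd_neg]
    rintro ⟨h1, _⟩
    exact hne (nv_injective (by omega))
  · intro hc
    exact absurd (Finset.mem_univ _) hc

end

section def_
variable {E T H S : ℕ → Type} [Env E] [Env T] [Env H] [Env S] [∀ n, Fintype (T n)]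
  [∀ n, Fintype (H n)] [∀ n, Fintype (S n)]

theorem DefP.sc2 {f g h : ∀ n : ℕ, E n → H n} (hf : Tm f) (hg : Tm g) (hh : Tm h) :
    DefP (fun n G X x => PMNC.sc2 (f n x) (g n x) (h n x)) := by
  have key : DefP (E := fun n => H n × (H n × H n)) (fun n G X y => PMNC.sc2 y.1 y.2.1 y.2.2) := by
    unfold PMNC.sc2
    refine DefP.and ?_ (DefP.ex (DefP.and ?_ ?_))
    all_goals (repeat' (first
        | apply DefP.nOne | apply DefP.nZero | apply DefP.nSucc | apply DefP.nAdd
        | apply DefP.nLt | apply DefP.nLe | apply DefP.nEq | apply DefP.hlf | apply DefP.p1le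
        | apply DefP.p1 | apply DefP.p0 | apply DefP.aug | apply DefP.pth | apply DefP.nx
        | apply DefP.cnd | apply DefP.hmin | apply DefP.hit | apply DefP.cdn
        | apply DefP.firstEx | apply DefP.exN | apply DefP.end_ | apply DefP.isZero
        | apply DefP.isSucc | apply DefP.alt | apply DefP.exr | apply DefP.exl | apply DefP.side
        | apply DefP.oddCard | apply DefP.cardEq | apply DefP.cardLt | apply DefP.cardLe
        | apply DefP.lst | apply DefP.fst | apply DefP.nxt | apply DefP.keyLe | apply DefP.keyLt
        | apply DefP.rtc | (apply DefP.app4; assumption) | (apply DefP.app3'; assumption)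
        | (apply DefP.app3; assumption) | (apply DefP.app2; assumption)
        | (apply DefP.comp; assumption) | exact Tm.id | exact Tm.unit | apply Tm.fst
        | apply Tm.snd | apply Tm.app | exact DefP.const _ | apply DefP.and | apply DefP.not
        | apply DefP.or | apply DefP.iff | apply DefP.adj | apply DefP.le | apply DefP.lt
        | apply DefP.eqFin | apply DefP.eq | apply DefP.rv | apply DefP.imp | apply DefP.allFin
        | apply DefP.exFin | apply DefP.all | apply DefP.ex | assumption
        | (apply Tm.comp; assumption) | apply Tm.pair | apply Tm.lam))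
  exact DefP.app3 (P := fun n G X a b c => PMNC.sc2 a b c) key hf hg hh

variable {p : ∀ n : ℕ, E n → S n} {M : ∀ n : ℕ, SimpleGraph (Fin n) → Ctx n → E n → T n → T n → ℤ}

theorem DefZ.mskz (hp : Tm p) (hM : DefZ (E := fun n => E n × (T n × T n)) (fun n y => p n y.1)
      (fun n G X y => M n G X y.1 y.2.1 y.2.2)) :
    DefZ (E := fun n => E n × (T n × (T n × T n))) (fun n y => p n y.1)
      (fun n G X y => PMNC.mskz (M n G X y.1) y.2.1 y.2.2.1 y.2.2.2) := by
  unfold PMNC.mskz
  refine DefZ.ite (DefP.and (DefP.nLt ?_ ?_) (DefP.nLt ?_ ?_)) ?_ (DefZ.zero ?_)
  · exact Tm.fst (Tm.snd (Tm.snd Tm.id))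
  · exact Tm.fst (Tm.snd Tm.id)
  · exact Tm.snd (Tm.snd (Tm.snd Tm.id))
  · exact Tm.fst (Tm.snd Tm.id)
  · exact DefZ.comp (E := fun n => E n × (T n × (T n × T n))) hM
      (f := fun n y => (y.1, y.2.2)) (by (repeat' (first
          | apply DefP.nOne | apply DefP.nZero | apply DefP.nSucc | apply DefP.nAdd
          | apply DefP.nLt | apply DefP.nLe | apply DefP.nEq | apply DefP.hlf | apply DefP.p1le
          | apply DefP.p1 | apply DefP.p0 | apply DefP.aug | apply DefP.pth | apply DefP.nx
          | apply DefP.cnd | apply DefP.hmin | apply DefP.hit | apply DefP.cdn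
          | apply DefP.firstEx | apply DefP.exN | apply DefP.end_ | apply DefP.isZero
          | apply DefP.isSucc | apply DefP.alt | apply DefP.exr | apply DefP.exl
          | apply DefP.side | apply DefP.oddCard | apply DefP.cardEq | apply DefP.cardLt
          | apply DefP.cardLe | apply DefP.lst | apply DefP.fst | apply DefP.nxt
          | apply DefP.keyLe | apply DefP.keyLt | apply DefP.rtc | (apply DefP.app4; assumption)
          | (apply DefP.app3'; assumption) | (apply DefP.app3; assumption)
          | (apply DefP.app2; assumption) | (apply DefP.comp; assumption) | exact Tm.id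
          | exact Tm.unit | apply Tm.fst | apply Tm.snd | apply Tm.app | exact DefP.const _
          | apply DefP.and | apply DefP.not | apply DefP.or | apply DefP.iff | apply DefP.adj
          | apply DefP.le | apply DefP.lt | apply DefP.eqFin | apply DefP.eq | apply DefP.rv
          | apply DefP.imp | apply DefP.allFin | apply DefP.exFin | apply DefP.all
          | apply DefP.ex | assumption | (apply Tm.comp; assumption) | apply Tm.pair
          | apply Tm.lam)))
  · exact hp.comp (Tm.fst Tm.id)

theorem DefZ.dco (hp : Tm p) (hM : DefZ (E := fun n => E n × (T n × T n)) (fun n y => p n y.1)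
      (fun n G X y => M n G X y.1 y.2.1 y.2.2)) :
    DefZ (E := fun n => E n × (T n × (H n × H n))) (fun n y => p n y.1)
      (fun n G X y => PMNC.dco (M n G X y.1) y.2.1 y.2.2.1 y.2.2.2) := by
  unfold PMNC.dco
  have hp1 : Tm (fun n (y : E n × (T n × (H n × H n))) => p n y.1) := hp.comp (Tm.fst Tm.id)
  refine DefZ.sub hp1 (DefZ.sub hp1 (DefZ.ite (by (repeat' (first
      | apply DefP.nOne | apply DefP.nZero | apply DefP.nSucc | apply DefP.nAdd | apply DefP.nLt
      | apply DefP.nLe | apply DefP.nEq | apply DefP.hlf | apply DefP.p1le | apply DefP.p1
      | apply DefP.p0 | apply DefP.aug | apply DefP.pth | apply DefP.nx | apply DefP.cnd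
      | apply DefP.hmin | apply DefP.hit | apply DefP.cdn | apply DefP.firstEx | apply DefP.exN
      | apply DefP.end_ | apply DefP.isZero | apply DefP.isSucc | apply DefP.alt
      | apply DefP.exr | apply DefP.exl | apply DefP.side | apply DefP.oddCard
      | apply DefP.cardEq | apply DefP.cardLt | apply DefP.cardLe | apply DefP.lst
      | apply DefP.fst | apply DefP.nxt | apply DefP.keyLe | apply DefP.keyLt | apply DefP.rtc
      | (apply DefP.app4; assumption) | (apply DefP.app3'; assumption)
      | (apply DefP.app3; assumption) | (apply DefP.app2; assumption)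
      | (apply DefP.comp; assumption) | exact Tm.id | exact Tm.unit | apply Tm.fst
      | apply Tm.snd | apply Tm.app | exact DefP.const _ | apply DefP.and | apply DefP.not
      | apply DefP.or | apply DefP.iff | apply DefP.adj | apply DefP.le | apply DefP.lt
      | apply DefP.eqFin | apply DefP.eq | apply DefP.rv | apply DefP.imp | apply DefP.allFin
      | apply DefP.exFin | apply DefP.all | apply DefP.ex | assumption
      | (apply Tm.comp; assumption) | apply Tm.pair
      | apply Tm.lam))) (DefZ.one hp1) (DefZ.zero hp1))
    (DefZ.ite (DefP.nSucc ?_ ?_) ?_ (DefZ.zero hp1))) ?_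
  · (repeat' (first
      | apply DefP.nOne | apply DefP.nZero | apply DefP.nSucc | apply DefP.nAdd | apply DefP.nLt
      | apply DefP.nLe | apply DefP.nEq | apply DefP.hlf | apply DefP.p1le | apply DefP.p1
      | apply DefP.p0 | apply DefP.aug | apply DefP.pth | apply DefP.nx | apply DefP.cnd
      | apply DefP.hmin | apply DefP.hit | apply DefP.cdn | apply DefP.firstEx | apply DefP.exN
      | apply DefP.end_ | apply DefP.isZero | apply DefP.isSucc | apply DefP.alt
      | apply DefP.exr | apply DefP.exl | apply DefP.side | apply DefP.oddCard
      | apply DefP.cardEq | apply DefP.cardLt | apply DefP.cardLe | apply DefP.lst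
      | apply DefP.fst | apply DefP.nxt | apply DefP.keyLe | apply DefP.keyLt | apply DefP.rtc
      | (apply DefP.app4; assumption) | (apply DefP.app3'; assumption)
      | (apply DefP.app3; assumption) | (apply DefP.app2; assumption)
      | (apply DefP.comp; assumption) | exact Tm.id | exact Tm.unit | apply Tm.fst
      | apply Tm.snd | apply Tm.app | exact DefP.const _ | apply DefP.and | apply DefP.not
      | apply DefP.or | apply DefP.iff | apply DefP.adj | apply DefP.le | apply DefP.lt
      | apply DefP.eqFin | apply DefP.eq | apply DefP.rv | apply DefP.imp | apply DefP.allFin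
      | apply DefP.exFin | apply DefP.all | apply DefP.ex | assumption
      | (apply Tm.comp; assumption) | apply Tm.pair | apply Tm.lam))
  · (repeat' (first
      | apply DefP.nOne | apply DefP.nZero | apply DefP.nSucc | apply DefP.nAdd | apply DefP.nLt
      | apply DefP.nLe | apply DefP.nEq | apply DefP.hlf | apply DefP.p1le | apply DefP.p1
      | apply DefP.p0 | apply DefP.aug | apply DefP.pth | apply DefP.nx | apply DefP.cnd
      | apply DefP.hmin | apply DefP.hit | apply DefP.cdn | apply DefP.firstEx | apply DefP.exN
      | apply DefP.end_ | apply DefP.isZero | apply DefP.isSucc | apply DefP.alt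
      | apply DefP.exr | apply DefP.exl | apply DefP.side | apply DefP.oddCard
      | apply DefP.cardEq | apply DefP.cardLt | apply DefP.cardLe | apply DefP.lst
      | apply DefP.fst | apply DefP.nxt | apply DefP.keyLe | apply DefP.keyLt | apply DefP.rtc
      | (apply DefP.app4; assumption) | (apply DefP.app3'; assumption)
      | (apply DefP.app3; assumption) | (apply DefP.app2; assumption)
      | (apply DefP.comp; assumption) | exact Tm.id | exact Tm.unit | apply Tm.fst
      | apply Tm.snd | apply Tm.app | exact DefP.const _ | apply DefP.and | apply DefP.not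
      | apply DefP.or | apply DefP.iff | apply DefP.adj | apply DefP.le | apply DefP.lt
      | apply DefP.eqFin | apply DefP.eq | apply DefP.rv | apply DefP.imp | apply DefP.allFin
      | apply DefP.exFin | apply DefP.all | apply DefP.ex | assumption
      | (apply Tm.comp; assumption) | apply Tm.pair | apply Tm.lam))
  · exact DefZ.comp (E := fun n => E n × (T n × (H n × H n))) hM
      (f := fun n y => (y.1, (y.2.1, y.2.1))) (by (repeat' (first
          | apply DefP.nOne | apply DefP.nZero | apply DefP.nSucc | apply DefP.nAdd
          | apply DefP.nLt | apply DefP.nLe | apply DefP.nEq | apply DefP.hlf | apply DefP.p1le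
          | apply DefP.p1 | apply DefP.p0 | apply DefP.aug | apply DefP.pth | apply DefP.nx
          | apply DefP.cnd | apply DefP.hmin | apply DefP.hit | apply DefP.cdn
          | apply DefP.firstEx | apply DefP.exN | apply DefP.end_ | apply DefP.isZero
          | apply DefP.isSucc | apply DefP.alt | apply DefP.exr | apply DefP.exl
          | apply DefP.side | apply DefP.oddCard | apply DefP.cardEq | apply DefP.cardLt
          | apply DefP.cardLe | apply DefP.lst | apply DefP.fst | apply DefP.nxt
          | apply DefP.keyLe | apply DefP.keyLt | apply DefP.rtc | (apply DefP.app4; assumption)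
          | (apply DefP.app3'; assumption) | (apply DefP.app3; assumption)
          | (apply DefP.app2; assumption) | (apply DefP.comp; assumption) | exact Tm.id
          | exact Tm.unit | apply Tm.fst | apply Tm.snd | apply Tm.app | exact DefP.const _
          | apply DefP.and | apply DefP.not | apply DefP.or | apply DefP.iff | apply DefP.adj
          | apply DefP.le | apply DefP.lt | apply DefP.eqFin | apply DefP.eq | apply DefP.rv
          | apply DefP.imp | apply DefP.allFin | apply DefP.exFin | apply DefP.all
          | apply DefP.ex | assumption | (apply Tm.comp; assumption) | apply Tm.pair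
          | apply Tm.lam)))
  · refine DefZ.sum hp1 (DefZ.ite (DefP.sc2 ?_ ?_ ?_) (DefZ.sum ?_ (DefZ.sum ?_ (DefZ.ite ?_
      (DefZ.mul ?_ (DefZ.mul ?_ ?_ ?_) ?_) ?_))) (DefZ.zero ?_))
    · (repeat' (first
        | apply DefP.nOne | apply DefP.nZero | apply DefP.nSucc | apply DefP.nAdd
        | apply DefP.nLt | apply DefP.nLe | apply DefP.nEq | apply DefP.hlf | apply DefP.p1le
        | apply DefP.p1 | apply DefP.p0 | apply DefP.aug | apply DefP.pth | apply DefP.nx
        | apply DefP.cnd | apply DefP.hmin | apply DefP.hit | apply DefP.cdn
        | apply DefP.firstEx | apply DefP.exN | apply DefP.end_ | apply DefP.isZero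
        | apply DefP.isSucc | apply DefP.alt | apply DefP.exr | apply DefP.exl | apply DefP.side
        | apply DefP.oddCard | apply DefP.cardEq | apply DefP.cardLt | apply DefP.cardLe
        | apply DefP.lst | apply DefP.fst | apply DefP.nxt | apply DefP.keyLe | apply DefP.keyLt
        | apply DefP.rtc | (apply DefP.app4; assumption) | (apply DefP.app3'; assumption)
        | (apply DefP.app3; assumption) | (apply DefP.app2; assumption)
        | (apply DefP.comp; assumption) | exact Tm.id | exact Tm.unit | apply Tm.fst
        | apply Tm.snd | apply Tm.app | exact DefP.const _ | apply DefP.and | apply DefP.not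
        | apply DefP.or | apply DefP.iff | apply DefP.adj | apply DefP.le | apply DefP.lt
        | apply DefP.eqFin | apply DefP.eq | apply DefP.rv | apply DefP.imp | apply DefP.allFin
        | apply DefP.exFin | apply DefP.all | apply DefP.ex | assumption
        | (apply Tm.comp; assumption) | apply Tm.pair | apply Tm.lam))
    · (repeat' (first
        | apply DefP.nOne | apply DefP.nZero | apply DefP.nSucc | apply DefP.nAdd
        | apply DefP.nLt | apply DefP.nLe | apply DefP.nEq | apply DefP.hlf | apply DefP.p1le
        | apply DefP.p1 | apply DefP.p0 | apply DefP.aug | apply DefP.pth | apply DefP.nx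
        | apply DefP.cnd | apply DefP.hmin | apply DefP.hit | apply DefP.cdn
        | apply DefP.firstEx | apply DefP.exN | apply DefP.end_ | apply DefP.isZero
        | apply DefP.isSucc | apply DefP.alt | apply DefP.exr | apply DefP.exl | apply DefP.side
        | apply DefP.oddCard | apply DefP.cardEq | apply DefP.cardLt | apply DefP.cardLe
        | apply DefP.lst | apply DefP.fst | apply DefP.nxt | apply DefP.keyLe | apply DefP.keyLt
        | apply DefP.rtc | (apply DefP.app4; assumption) | (apply DefP.app3'; assumption)
        | (apply DefP.app3; assumption) | (apply DefP.app2; assumption)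
        | (apply DefP.comp; assumption) | exact Tm.id | exact Tm.unit | apply Tm.fst
        | apply Tm.snd | apply Tm.app | exact DefP.const _ | apply DefP.and | apply DefP.not
        | apply DefP.or | apply DefP.iff | apply DefP.adj | apply DefP.le | apply DefP.lt
        | apply DefP.eqFin | apply DefP.eq | apply DefP.rv | apply DefP.imp | apply DefP.allFin
        | apply DefP.exFin | apply DefP.all | apply DefP.ex | assumption
        | (apply Tm.comp; assumption) | apply Tm.pair | apply Tm.lam))
    · (repeat' (first
        | apply DefP.nOne | apply DefP.nZero | apply DefP.nSucc | apply DefP.nAdd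
        | apply DefP.nLt | apply DefP.nLe | apply DefP.nEq | apply DefP.hlf | apply DefP.p1le
        | apply DefP.p1 | apply DefP.p0 | apply DefP.aug | apply DefP.pth | apply DefP.nx
        | apply DefP.cnd | apply DefP.hmin | apply DefP.hit | apply DefP.cdn
        | apply DefP.firstEx | apply DefP.exN | apply DefP.end_ | apply DefP.isZero
        | apply DefP.isSucc | apply DefP.alt | apply DefP.exr | apply DefP.exl | apply DefP.side
        | apply DefP.oddCard | apply DefP.cardEq | apply DefP.cardLt | apply DefP.cardLe
        | apply DefP.lst | apply DefP.fst | apply DefP.nxt | apply DefP.keyLe | apply DefP.keyLt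
        | apply DefP.rtc | (apply DefP.app4; assumption) | (apply DefP.app3'; assumption)
        | (apply DefP.app3; assumption) | (apply DefP.app2; assumption)
        | (apply DefP.comp; assumption) | exact Tm.id | exact Tm.unit | apply Tm.fst
        | apply Tm.snd | apply Tm.app | exact DefP.const _ | apply DefP.and | apply DefP.not
        | apply DefP.or | apply DefP.iff | apply DefP.adj | apply DefP.le | apply DefP.lt
        | apply DefP.eqFin | apply DefP.eq | apply DefP.rv | apply DefP.imp | apply DefP.allFin
        | apply DefP.exFin | apply DefP.all | apply DefP.ex | assumption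
        | (apply Tm.comp; assumption) | apply Tm.pair | apply Tm.lam))
    · exact hp.comp (Tm.fst (Tm.fst Tm.id))
    · exact hp.comp (Tm.fst (Tm.fst (Tm.fst Tm.id)))
    · refine DefP.and (DefP.nLt ?_ ?_) (DefP.nLt ?_ ?_)
      · exact Tm.snd (Tm.fst Tm.id)
      · exact Tm.fst (Tm.snd (Tm.fst (Tm.fst (Tm.fst Tm.id))))
      · exact Tm.snd Tm.id
      · exact Tm.fst (Tm.snd (Tm.fst (Tm.fst (Tm.fst Tm.id))))
    · exact hp.comp (Tm.fst (Tm.fst (Tm.fst (Tm.fst Tm.id))))
    · exact hp.comp (Tm.fst (Tm.fst (Tm.fst (Tm.fst Tm.id))))
    · exact DefZ.comp (E := fun n => (((E n × (T n × (H n × H n))) × H n) × T n) × T n) hM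
        (f := fun n y => (y.1.1.1.1, (y.1.1.1.2.1, y.1.2))) (by (repeat' (first
            | apply DefP.nOne | apply DefP.nZero | apply DefP.nSucc | apply DefP.nAdd
            | apply DefP.nLt | apply DefP.nLe | apply DefP.nEq | apply DefP.hlf
            | apply DefP.p1le | apply DefP.p1 | apply DefP.p0 | apply DefP.aug | apply DefP.pth
            | apply DefP.nx | apply DefP.cnd | apply DefP.hmin | apply DefP.hit | apply DefP.cdn
            | apply DefP.firstEx | apply DefP.exN | apply DefP.end_ | apply DefP.isZero
            | apply DefP.isSucc | apply DefP.alt | apply DefP.exr | apply DefP.exl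
            | apply DefP.side | apply DefP.oddCard | apply DefP.cardEq | apply DefP.cardLt
            | apply DefP.cardLe | apply DefP.lst | apply DefP.fst | apply DefP.nxt
            | apply DefP.keyLe | apply DefP.keyLt | apply DefP.rtc
            | (apply DefP.app4; assumption) | (apply DefP.app3'; assumption)
            | (apply DefP.app3; assumption) | (apply DefP.app2; assumption)
            | (apply DefP.comp; assumption) | exact Tm.id | exact Tm.unit | apply Tm.fst
            | apply Tm.snd | apply Tm.app | exact DefP.const _ | apply DefP.and | apply DefP.not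
            | apply DefP.or | apply DefP.iff | apply DefP.adj | apply DefP.le | apply DefP.lt
            | apply DefP.eqFin | apply DefP.eq | apply DefP.rv | apply DefP.imp
            | apply DefP.allFin | apply DefP.exFin | apply DefP.all | apply DefP.ex | assumption
            | (apply Tm.comp; assumption) | apply Tm.pair | apply Tm.lam)))
    · refine DefZ.psum (H := H) (A := T)
        (M := fun n G X (y : (((E n × (T n × (H n × H n))) × H n) × T n) × T n) a b =>
          PMNC.mskz (M n G X y.1.1.1.1) y.1.1.1.2.1 a.2 b.2) ?_ ?_ ?_ ?_
      · exact hp.comp (Tm.fst (Tm.fst (Tm.fst (Tm.fst Tm.id))))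
      · exact DefZ.comp (E := fun n => ((((E n × (T n × (H n × H n))) × H n) × T n) × T n) ×
            ((H n × T n) × (H n × T n))) (DefZ.mskz hp hM)
          (f := fun n y => (y.1.1.1.1.1, (y.1.1.1.1.2.1, (y.2.1.2, y.2.2.2)))) (by (repeat' (first
              | apply DefP.nOne | apply DefP.nZero | apply DefP.nSucc | apply DefP.nAdd
              | apply DefP.nLt | apply DefP.nLe | apply DefP.nEq | apply DefP.hlf
              | apply DefP.p1le | apply DefP.p1 | apply DefP.p0 | apply DefP.aug
              | apply DefP.pth | apply DefP.nx | apply DefP.cnd | apply DefP.hmin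
              | apply DefP.hit | apply DefP.cdn | apply DefP.firstEx | apply DefP.exN
              | apply DefP.end_ | apply DefP.isZero | apply DefP.isSucc | apply DefP.alt
              | apply DefP.exr | apply DefP.exl | apply DefP.side | apply DefP.oddCard
              | apply DefP.cardEq | apply DefP.cardLt | apply DefP.cardLe | apply DefP.lst
              | apply DefP.fst | apply DefP.nxt | apply DefP.keyLe | apply DefP.keyLt
              | apply DefP.rtc | (apply DefP.app4; assumption) | (apply DefP.app3'; assumption)
              | (apply DefP.app3; assumption) | (apply DefP.app2; assumption)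
              | (apply DefP.comp; assumption) | exact Tm.id | exact Tm.unit | apply Tm.fst
              | apply Tm.snd | apply Tm.app | exact DefP.const _ | apply DefP.and
              | apply DefP.not | apply DefP.or | apply DefP.iff | apply DefP.adj | apply DefP.le
              | apply DefP.lt | apply DefP.eqFin | apply DefP.eq | apply DefP.rv
              | apply DefP.imp | apply DefP.allFin | apply DefP.exFin | apply DefP.all
              | apply DefP.ex | assumption | (apply Tm.comp; assumption) | apply Tm.pair
              | apply Tm.lam)))
      · (repeat' (first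
          | apply DefP.nOne | apply DefP.nZero | apply DefP.nSucc | apply DefP.nAdd
          | apply DefP.nLt | apply DefP.nLe | apply DefP.nEq | apply DefP.hlf | apply DefP.p1le
          | apply DefP.p1 | apply DefP.p0 | apply DefP.aug | apply DefP.pth | apply DefP.nx
          | apply DefP.cnd | apply DefP.hmin | apply DefP.hit | apply DefP.cdn
          | apply DefP.firstEx | apply DefP.exN | apply DefP.end_ | apply DefP.isZero
          | apply DefP.isSucc | apply DefP.alt | apply DefP.exr | apply DefP.exl
          | apply DefP.side | apply DefP.oddCard | apply DefP.cardEq | apply DefP.cardLt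
          | apply DefP.cardLe | apply DefP.lst | apply DefP.fst | apply DefP.nxt
          | apply DefP.keyLe | apply DefP.keyLt | apply DefP.rtc | (apply DefP.app4; assumption)
          | (apply DefP.app3'; assumption) | (apply DefP.app3; assumption)
          | (apply DefP.app2; assumption) | (apply DefP.comp; assumption) | exact Tm.id
          | exact Tm.unit | apply Tm.fst | apply Tm.snd | apply Tm.app | exact DefP.const _
          | apply DefP.and | apply DefP.not | apply DefP.or | apply DefP.iff | apply DefP.adj
          | apply DefP.le | apply DefP.lt | apply DefP.eqFin | apply DefP.eq | apply DefP.rv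
          | apply DefP.imp | apply DefP.allFin | apply DefP.exFin | apply DefP.all
          | apply DefP.ex | assumption | (apply Tm.comp; assumption) | apply Tm.pair
          | apply Tm.lam))
      · (repeat' (first
          | apply DefP.nOne | apply DefP.nZero | apply DefP.nSucc | apply DefP.nAdd
          | apply DefP.nLt | apply DefP.nLe | apply DefP.nEq | apply DefP.hlf | apply DefP.p1le
          | apply DefP.p1 | apply DefP.p0 | apply DefP.aug | apply DefP.pth | apply DefP.nx
          | apply DefP.cnd | apply DefP.hmin | apply DefP.hit | apply DefP.cdn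
          | apply DefP.firstEx | apply DefP.exN | apply DefP.end_ | apply DefP.isZero
          | apply DefP.isSucc | apply DefP.alt | apply DefP.exr | apply DefP.exl
          | apply DefP.side | apply DefP.oddCard | apply DefP.cardEq | apply DefP.cardLt
          | apply DefP.cardLe | apply DefP.lst | apply DefP.fst | apply DefP.nxt
          | apply DefP.keyLe | apply DefP.keyLt | apply DefP.rtc | (apply DefP.app4; assumption)
          | (apply DefP.app3'; assumption) | (apply DefP.app3; assumption)
          | (apply DefP.app2; assumption) | (apply DefP.comp; assumption) | exact Tm.id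
          | exact Tm.unit | apply Tm.fst | apply Tm.snd | apply Tm.app | exact DefP.const _
          | apply DefP.and | apply DefP.not | apply DefP.or | apply DefP.iff | apply DefP.adj
          | apply DefP.le | apply DefP.lt | apply DefP.eqFin | apply DefP.eq | apply DefP.rv
          | apply DefP.imp | apply DefP.allFin | apply DefP.exFin | apply DefP.all
          | apply DefP.ex | assumption | (apply Tm.comp; assumption) | apply Tm.pair
          | apply Tm.lam))
    · exact DefZ.comp (E := fun n => (((E n × (T n × (H n × H n))) × H n) × T n) × T n) hM
        (f := fun n y => (y.1.1.1.1, (y.2, y.1.1.1.2.1))) (by (repeat' (first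
            | apply DefP.nOne | apply DefP.nZero | apply DefP.nSucc | apply DefP.nAdd
            | apply DefP.nLt | apply DefP.nLe | apply DefP.nEq | apply DefP.hlf
            | apply DefP.p1le | apply DefP.p1 | apply DefP.p0 | apply DefP.aug | apply DefP.pth
            | apply DefP.nx | apply DefP.cnd | apply DefP.hmin | apply DefP.hit | apply DefP.cdn
            | apply DefP.firstEx | apply DefP.exN | apply DefP.end_ | apply DefP.isZero
            | apply DefP.isSucc | apply DefP.alt | apply DefP.exr | apply DefP.exl
            | apply DefP.side | apply DefP.oddCard | apply DefP.cardEq | apply DefP.cardLt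
            | apply DefP.cardLe | apply DefP.lst | apply DefP.fst | apply DefP.nxt
            | apply DefP.keyLe | apply DefP.keyLt | apply DefP.rtc
            | (apply DefP.app4; assumption) | (apply DefP.app3'; assumption)
            | (apply DefP.app3; assumption) | (apply DefP.app2; assumption)
            | (apply DefP.comp; assumption) | exact Tm.id | exact Tm.unit | apply Tm.fst
            | apply Tm.snd | apply Tm.app | exact DefP.const _ | apply DefP.and | apply DefP.not
            | apply DefP.or | apply DefP.iff | apply DefP.adj | apply DefP.le | apply DefP.lt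
            | apply DefP.eqFin | apply DefP.eq | apply DefP.rv | apply DefP.imp
            | apply DefP.allFin | apply DefP.exFin | apply DefP.all | apply DefP.ex | assumption
            | (apply Tm.comp; assumption) | apply Tm.pair | apply Tm.lam)))
    · exact DefZ.zero (hp.comp (Tm.fst (Tm.fst (Tm.fst (Tm.fst Tm.id)))))
    · exact hp.comp (Tm.fst (Tm.fst Tm.id))

theorem DefZ.dly (hp : Tm p) (hM : DefZ (E := fun n => E n × (T n × T n)) (fun n y => p n y.1)
      (fun n G X y => M n G X y.1 y.2.1 y.2.2)) :
    DefZ (E := fun n => E n × ((H n × H n) × (H n × H n))) (fun n y => p n y.1)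
      (fun n G X y => PMNC.dly (M n G X y.1) y.2.1 y.2.2) := by
  unfold PMNC.dly
  refine DefZ.sum (hp.comp (Tm.fst Tm.id)) (DefZ.ite (DefP.nEq ?_ ?_) ?_ (DefZ.zero ?_))
  · (repeat' (first
      | apply DefP.nOne | apply DefP.nZero | apply DefP.nSucc | apply DefP.nAdd | apply DefP.nLt
      | apply DefP.nLe | apply DefP.nEq | apply DefP.hlf | apply DefP.p1le | apply DefP.p1
      | apply DefP.p0 | apply DefP.aug | apply DefP.pth | apply DefP.nx | apply DefP.cnd
      | apply DefP.hmin | apply DefP.hit | apply DefP.cdn | apply DefP.firstEx | apply DefP.exN
      | apply DefP.end_ | apply DefP.isZero | apply DefP.isSucc | apply DefP.alt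
      | apply DefP.exr | apply DefP.exl | apply DefP.side | apply DefP.oddCard
      | apply DefP.cardEq | apply DefP.cardLt | apply DefP.cardLe | apply DefP.lst
      | apply DefP.fst | apply DefP.nxt | apply DefP.keyLe | apply DefP.keyLt | apply DefP.rtc
      | (apply DefP.app4; assumption) | (apply DefP.app3'; assumption)
      | (apply DefP.app3; assumption) | (apply DefP.app2; assumption)
      | (apply DefP.comp; assumption) | exact Tm.id | exact Tm.unit | apply Tm.fst
      | apply Tm.snd | apply Tm.app | exact DefP.const _ | apply DefP.and | apply DefP.not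
      | apply DefP.or | apply DefP.iff | apply DefP.adj | apply DefP.le | apply DefP.lt
      | apply DefP.eqFin | apply DefP.eq | apply DefP.rv | apply DefP.imp | apply DefP.allFin
      | apply DefP.exFin | apply DefP.all | apply DefP.ex | assumption
      | (apply Tm.comp; assumption) | apply Tm.pair | apply Tm.lam))
  · (repeat' (first
      | apply DefP.nOne | apply DefP.nZero | apply DefP.nSucc | apply DefP.nAdd | apply DefP.nLt
      | apply DefP.nLe | apply DefP.nEq | apply DefP.hlf | apply DefP.p1le | apply DefP.p1
      | apply DefP.p0 | apply DefP.aug | apply DefP.pth | apply DefP.nx | apply DefP.cnd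
      | apply DefP.hmin | apply DefP.hit | apply DefP.cdn | apply DefP.firstEx | apply DefP.exN
      | apply DefP.end_ | apply DefP.isZero | apply DefP.isSucc | apply DefP.alt
      | apply DefP.exr | apply DefP.exl | apply DefP.side | apply DefP.oddCard
      | apply DefP.cardEq | apply DefP.cardLt | apply DefP.cardLe | apply DefP.lst
      | apply DefP.fst | apply DefP.nxt | apply DefP.keyLe | apply DefP.keyLt | apply DefP.rtc
      | (apply DefP.app4; assumption) | (apply DefP.app3'; assumption)
      | (apply DefP.app3; assumption) | (apply DefP.app2; assumption)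
      | (apply DefP.comp; assumption) | exact Tm.id | exact Tm.unit | apply Tm.fst
      | apply Tm.snd | apply Tm.app | exact DefP.const _ | apply DefP.and | apply DefP.not
      | apply DefP.or | apply DefP.iff | apply DefP.adj | apply DefP.le | apply DefP.lt
      | apply DefP.eqFin | apply DefP.eq | apply DefP.rv | apply DefP.imp | apply DefP.allFin
      | apply DefP.exFin | apply DefP.all | apply DefP.ex | assumption
      | (apply Tm.comp; assumption) | apply Tm.pair | apply Tm.lam))
  · exact DefZ.comp (E := fun n => (E n × ((H n × H n) × (H n × H n))) × T n) (DefZ.dco hp hM)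
      (f := fun n y => (y.1.1, (y.2, (y.1.2.1.2, y.1.2.2.2)))) (by (repeat' (first
          | apply DefP.nOne | apply DefP.nZero | apply DefP.nSucc | apply DefP.nAdd
          | apply DefP.nLt | apply DefP.nLe | apply DefP.nEq | apply DefP.hlf | apply DefP.p1le
          | apply DefP.p1 | apply DefP.p0 | apply DefP.aug | apply DefP.pth | apply DefP.nx
          | apply DefP.cnd | apply DefP.hmin | apply DefP.hit | apply DefP.cdn
          | apply DefP.firstEx | apply DefP.exN | apply DefP.end_ | apply DefP.isZero
          | apply DefP.isSucc | apply DefP.alt | apply DefP.exr | apply DefP.exl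
          | apply DefP.side | apply DefP.oddCard | apply DefP.cardEq | apply DefP.cardLt
          | apply DefP.cardLe | apply DefP.lst | apply DefP.fst | apply DefP.nxt
          | apply DefP.keyLe | apply DefP.keyLt | apply DefP.rtc | (apply DefP.app4; assumption)
          | (apply DefP.app3'; assumption) | (apply DefP.app3; assumption)
          | (apply DefP.app2; assumption) | (apply DefP.comp; assumption) | exact Tm.id
          | exact Tm.unit | apply Tm.fst | apply Tm.snd | apply Tm.app | exact DefP.const _
          | apply DefP.and | apply DefP.not | apply DefP.or | apply DefP.iff | apply DefP.adj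
          | apply DefP.le | apply DefP.lt | apply DefP.eqFin | apply DefP.eq | apply DefP.rv
          | apply DefP.imp | apply DefP.allFin | apply DefP.exFin | apply DefP.all
          | apply DefP.ex | assumption | (apply Tm.comp; assumption) | apply Tm.pair
          | apply Tm.lam)))
  · exact hp.comp (Tm.fst (Tm.fst Tm.id))

theorem DefZ.dtH (hp : Tm p) (hM : DefZ (E := fun n => E n × (T n × T n)) (fun n y => p n y.1)
      (fun n G X y => M n G X y.1 y.2.1 y.2.2)) :
    DefZ p (fun n G X x => PMNC.dtH H (M n G X x)) := by
  unfold PMNC.dtH
  have hp2 : Tm (fun n (y : (E n × H n) × H n) => p n y.1.1) := hp.comp (Tm.fst (Tm.fst Tm.id))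
  refine DefZ.sum hp ?_
  refine DefZ.sum (hp.comp (Tm.fst Tm.id)) ?_
  refine DefZ.ite ?_ ?_ (DefZ.zero hp2)
  · refine DefP.and ?_ (DefP.ex (DefP.and (DefP.all (DefP.nLe ?_ ?_)) (DefP.nSucc ?_ ?_)))
    · exact DefP.nZero (Tm.snd (Tm.fst Tm.id))
    · (repeat' (first
        | apply DefP.nOne | apply DefP.nZero | apply DefP.nSucc | apply DefP.nAdd
        | apply DefP.nLt | apply DefP.nLe | apply DefP.nEq | apply DefP.hlf | apply DefP.p1le
        | apply DefP.p1 | apply DefP.p0 | apply DefP.aug | apply DefP.pth | apply DefP.nx
        | apply DefP.cnd | apply DefP.hmin | apply DefP.hit | apply DefP.cdn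
        | apply DefP.firstEx | apply DefP.exN | apply DefP.end_ | apply DefP.isZero
        | apply DefP.isSucc | apply DefP.alt | apply DefP.exr | apply DefP.exl | apply DefP.side
        | apply DefP.oddCard | apply DefP.cardEq | apply DefP.cardLt | apply DefP.cardLe
        | apply DefP.lst | apply DefP.fst | apply DefP.nxt | apply DefP.keyLe | apply DefP.keyLt
        | apply DefP.rtc | (apply DefP.app4; assumption) | (apply DefP.app3'; assumption)
        | (apply DefP.app3; assumption) | (apply DefP.app2; assumption)
        | (apply DefP.comp; assumption) | exact Tm.id | exact Tm.unit | apply Tm.fst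
        | apply Tm.snd | apply Tm.app | exact DefP.const _ | apply DefP.and | apply DefP.not
        | apply DefP.or | apply DefP.iff | apply DefP.adj | apply DefP.le | apply DefP.lt
        | apply DefP.eqFin | apply DefP.eq | apply DefP.rv | apply DefP.imp | apply DefP.allFin
        | apply DefP.exFin | apply DefP.all | apply DefP.ex | assumption
        | (apply Tm.comp; assumption) | apply Tm.pair | apply Tm.lam))
    · (repeat' (first
        | apply DefP.nOne | apply DefP.nZero | apply DefP.nSucc | apply DefP.nAdd
        | apply DefP.nLt | apply DefP.nLe | apply DefP.nEq | apply DefP.hlf | apply DefP.p1le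
        | apply DefP.p1 | apply DefP.p0 | apply DefP.aug | apply DefP.pth | apply DefP.nx
        | apply DefP.cnd | apply DefP.hmin | apply DefP.hit | apply DefP.cdn
        | apply DefP.firstEx | apply DefP.exN | apply DefP.end_ | apply DefP.isZero
        | apply DefP.isSucc | apply DefP.alt | apply DefP.exr | apply DefP.exl | apply DefP.side
        | apply DefP.oddCard | apply DefP.cardEq | apply DefP.cardLt | apply DefP.cardLe
        | apply DefP.lst | apply DefP.fst | apply DefP.nxt | apply DefP.keyLe | apply DefP.keyLt
        | apply DefP.rtc | (apply DefP.app4; assumption) | (apply DefP.app3'; assumption)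
        | (apply DefP.app3; assumption) | (apply DefP.app2; assumption)
        | (apply DefP.comp; assumption) | exact Tm.id | exact Tm.unit | apply Tm.fst
        | apply Tm.snd | apply Tm.app | exact DefP.const _ | apply DefP.and | apply DefP.not
        | apply DefP.or | apply DefP.iff | apply DefP.adj | apply DefP.le | apply DefP.lt
        | apply DefP.eqFin | apply DefP.eq | apply DefP.rv | apply DefP.imp | apply DefP.allFin
        | apply DefP.exFin | apply DefP.all | apply DefP.ex | assumption
        | (apply Tm.comp; assumption) | apply Tm.pair | apply Tm.lam))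
    · (repeat' (first
        | apply DefP.nOne | apply DefP.nZero | apply DefP.nSucc | apply DefP.nAdd
        | apply DefP.nLt | apply DefP.nLe | apply DefP.nEq | apply DefP.hlf | apply DefP.p1le
        | apply DefP.p1 | apply DefP.p0 | apply DefP.aug | apply DefP.pth | apply DefP.nx
        | apply DefP.cnd | apply DefP.hmin | apply DefP.hit | apply DefP.cdn
        | apply DefP.firstEx | apply DefP.exN | apply DefP.end_ | apply DefP.isZero
        | apply DefP.isSucc | apply DefP.alt | apply DefP.exr | apply DefP.exl | apply DefP.side
        | apply DefP.oddCard | apply DefP.cardEq | apply DefP.cardLt | apply DefP.cardLe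
        | apply DefP.lst | apply DefP.fst | apply DefP.nxt | apply DefP.keyLe | apply DefP.keyLt
        | apply DefP.rtc | (apply DefP.app4; assumption) | (apply DefP.app3'; assumption)
        | (apply DefP.app3; assumption) | (apply DefP.app2; assumption)
        | (apply DefP.comp; assumption) | exact Tm.id | exact Tm.unit | apply Tm.fst
        | apply Tm.snd | apply Tm.app | exact DefP.const _ | apply DefP.and | apply DefP.not
        | apply DefP.or | apply DefP.iff | apply DefP.adj | apply DefP.le | apply DefP.lt
        | apply DefP.eqFin | apply DefP.eq | apply DefP.rv | apply DefP.imp | apply DefP.allFin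
        | apply DefP.exFin | apply DefP.all | apply DefP.ex | assumption
        | (apply Tm.comp; assumption) | apply Tm.pair | apply Tm.lam))
    · (repeat' (first
        | apply DefP.nOne | apply DefP.nZero | apply DefP.nSucc | apply DefP.nAdd
        | apply DefP.nLt | apply DefP.nLe | apply DefP.nEq | apply DefP.hlf | apply DefP.p1le
        | apply DefP.p1 | apply DefP.p0 | apply DefP.aug | apply DefP.pth | apply DefP.nx
        | apply DefP.cnd | apply DefP.hmin | apply DefP.hit | apply DefP.cdn
        | apply DefP.firstEx | apply DefP.exN | apply DefP.end_ | apply DefP.isZero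
        | apply DefP.isSucc | apply DefP.alt | apply DefP.exr | apply DefP.exl | apply DefP.side
        | apply DefP.oddCard | apply DefP.cardEq | apply DefP.cardLt | apply DefP.cardLe
        | apply DefP.lst | apply DefP.fst | apply DefP.nxt | apply DefP.keyLe | apply DefP.keyLt
        | apply DefP.rtc | (apply DefP.app4; assumption) | (apply DefP.app3'; assumption)
        | (apply DefP.app3; assumption) | (apply DefP.app2; assumption)
        | (apply DefP.comp; assumption) | exact Tm.id | exact Tm.unit | apply Tm.fst
        | apply Tm.snd | apply Tm.app | exact DefP.const _ | apply DefP.and | apply DefP.not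
        | apply DefP.or | apply DefP.iff | apply DefP.adj | apply DefP.le | apply DefP.lt
        | apply DefP.eqFin | apply DefP.eq | apply DefP.rv | apply DefP.imp | apply DefP.allFin
        | apply DefP.exFin | apply DefP.all | apply DefP.ex | assumption
        | (apply Tm.comp; assumption) | apply Tm.pair | apply Tm.lam))
  · refine DefZ.mul hp2 ?_ ?_
    · refine DefZ.prod hp2 (DefZ.neg ?_ (DefZ.one ?_))
      · exact hp.comp (Tm.fst (Tm.fst (Tm.fst Tm.id)))
      · exact hp.comp (Tm.fst (Tm.fst (Tm.fst Tm.id)))
    · refine DefZ.psum (H := H) (A := H)
        (M := fun n G X (y : (E n × H n) × H n) a b => PMNC.dly (M n G X y.1.1) a b) hp2 ?_ ?_ ?_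
      · exact DefZ.comp (E := fun n => ((E n × H n) × H n) × ((H n × H n) × (H n × H n)))
          (DefZ.dly hp hM) (f := fun n y => (y.1.1.1, y.2)) (by (repeat' (first
              | apply DefP.nOne | apply DefP.nZero | apply DefP.nSucc | apply DefP.nAdd
              | apply DefP.nLt | apply DefP.nLe | apply DefP.nEq | apply DefP.hlf
              | apply DefP.p1le | apply DefP.p1 | apply DefP.p0 | apply DefP.aug
              | apply DefP.pth | apply DefP.nx | apply DefP.cnd | apply DefP.hmin
              | apply DefP.hit | apply DefP.cdn | apply DefP.firstEx | apply DefP.exN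
              | apply DefP.end_ | apply DefP.isZero | apply DefP.isSucc | apply DefP.alt
              | apply DefP.exr | apply DefP.exl | apply DefP.side | apply DefP.oddCard
              | apply DefP.cardEq | apply DefP.cardLt | apply DefP.cardLe | apply DefP.lst
              | apply DefP.fst | apply DefP.nxt | apply DefP.keyLe | apply DefP.keyLt
              | apply DefP.rtc | (apply DefP.app4; assumption) | (apply DefP.app3'; assumption)
              | (apply DefP.app3; assumption) | (apply DefP.app2; assumption)
              | (apply DefP.comp; assumption) | exact Tm.id | exact Tm.unit | apply Tm.fst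
              | apply Tm.snd | apply Tm.app | exact DefP.const _ | apply DefP.and
              | apply DefP.not | apply DefP.or | apply DefP.iff | apply DefP.adj | apply DefP.le
              | apply DefP.lt | apply DefP.eqFin | apply DefP.eq | apply DefP.rv
              | apply DefP.imp | apply DefP.allFin | apply DefP.exFin | apply DefP.all
              | apply DefP.ex | assumption | (apply Tm.comp; assumption) | apply Tm.pair
              | apply Tm.lam)))
      · (repeat' (first
          | apply DefP.nOne | apply DefP.nZero | apply DefP.nSucc | apply DefP.nAdd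
          | apply DefP.nLt | apply DefP.nLe | apply DefP.nEq | apply DefP.hlf | apply DefP.p1le
          | apply DefP.p1 | apply DefP.p0 | apply DefP.aug | apply DefP.pth | apply DefP.nx
          | apply DefP.cnd | apply DefP.hmin | apply DefP.hit | apply DefP.cdn
          | apply DefP.firstEx | apply DefP.exN | apply DefP.end_ | apply DefP.isZero
          | apply DefP.isSucc | apply DefP.alt | apply DefP.exr | apply DefP.exl
          | apply DefP.side | apply DefP.oddCard | apply DefP.cardEq | apply DefP.cardLt
          | apply DefP.cardLe | apply DefP.lst | apply DefP.fst | apply DefP.nxt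
          | apply DefP.keyLe | apply DefP.keyLt | apply DefP.rtc | (apply DefP.app4; assumption)
          | (apply DefP.app3'; assumption) | (apply DefP.app3; assumption)
          | (apply DefP.app2; assumption) | (apply DefP.comp; assumption) | exact Tm.id
          | exact Tm.unit | apply Tm.fst | apply Tm.snd | apply Tm.app | exact DefP.const _
          | apply DefP.and | apply DefP.not | apply DefP.or | apply DefP.iff | apply DefP.adj
          | apply DefP.le | apply DefP.lt | apply DefP.eqFin | apply DefP.eq | apply DefP.rv
          | apply DefP.imp | apply DefP.allFin | apply DefP.exFin | apply DefP.all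
          | apply DefP.ex | assumption | (apply Tm.comp; assumption) | apply Tm.pair
          | apply Tm.lam))
      · (repeat' (first
          | apply DefP.nOne | apply DefP.nZero | apply DefP.nSucc | apply DefP.nAdd
          | apply DefP.nLt | apply DefP.nLe | apply DefP.nEq | apply DefP.hlf | apply DefP.p1le
          | apply DefP.p1 | apply DefP.p0 | apply DefP.aug | apply DefP.pth | apply DefP.nx
          | apply DefP.cnd | apply DefP.hmin | apply DefP.hit | apply DefP.cdn
          | apply DefP.firstEx | apply DefP.exN | apply DefP.end_ | apply DefP.isZero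
          | apply DefP.isSucc | apply DefP.alt | apply DefP.exr | apply DefP.exl
          | apply DefP.side | apply DefP.oddCard | apply DefP.cardEq | apply DefP.cardLt
          | apply DefP.cardLe | apply DefP.lst | apply DefP.fst | apply DefP.nxt
          | apply DefP.keyLe | apply DefP.keyLt | apply DefP.rtc | (apply DefP.app4; assumption)
          | (apply DefP.app3'; assumption) | (apply DefP.app3; assumption)
          | (apply DefP.app2; assumption) | (apply DefP.comp; assumption) | exact Tm.id
          | exact Tm.unit | apply Tm.fst | apply Tm.snd | apply Tm.app | exact DefP.const _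
          | apply DefP.and | apply DefP.not | apply DefP.or | apply DefP.iff | apply DefP.adj
          | apply DefP.le | apply DefP.lt | apply DefP.eqFin | apply DefP.eq | apply DefP.rv
          | apply DefP.imp | apply DefP.allFin | apply DefP.exFin | apply DefP.all
          | apply DefP.ex | assumption | (apply Tm.comp; assumption) | apply Tm.pair
          | apply Tm.lam))

open Classical in
/-- determinants are definable -/
theorem DefZ.det (hp : Tm p) (hM : DefZ (E := fun n => E n × (T n × T n)) (fun n y => p n y.1)
      (fun n G X y => M n G X y.1 y.2.1 y.2.2)) :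
    DefZ p (fun n G X x => Matrix.det (Matrix.of (M n G X x))) := by
  have h1 : DefZ p (fun n G X x => cnd (∃ a b : Fin n, a ≠ b)
      (PMNC.dtH (fun n => T n × Fin n) (M n G X x)) (∑ t : T n, M n G X x t t)) := by
    refine DefZ.ite (by (repeat' (first
        | apply DefP.nOne | apply DefP.nZero | apply DefP.nSucc | apply DefP.nAdd
        | apply DefP.nLt | apply DefP.nLe | apply DefP.nEq | apply DefP.hlf | apply DefP.p1le
        | apply DefP.p1 | apply DefP.p0 | apply DefP.aug | apply DefP.pth | apply DefP.nx
        | apply DefP.cnd | apply DefP.hmin | apply DefP.hit | apply DefP.cdn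
        | apply DefP.firstEx | apply DefP.exN | apply DefP.end_ | apply DefP.isZero
        | apply DefP.isSucc | apply DefP.alt | apply DefP.exr | apply DefP.exl | apply DefP.side
        | apply DefP.oddCard | apply DefP.cardEq | apply DefP.cardLt | apply DefP.cardLe
        | apply DefP.lst | apply DefP.fst | apply DefP.nxt | apply DefP.keyLe | apply DefP.keyLt
        | apply DefP.rtc | (apply DefP.app4; assumption) | (apply DefP.app3'; assumption)
        | (apply DefP.app3; assumption) | (apply DefP.app2; assumption)
        | (apply DefP.comp; assumption) | exact Tm.id | exact Tm.unit | apply Tm.fst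
        | apply Tm.snd | apply Tm.app | exact DefP.const _ | apply DefP.and | apply DefP.not
        | apply DefP.or | apply DefP.iff | apply DefP.adj | apply DefP.le | apply DefP.lt
        | apply DefP.eqFin | apply DefP.eq | apply DefP.rv | apply DefP.imp | apply DefP.allFin
        | apply DefP.exFin | apply DefP.all | apply DefP.ex | assumption
        | (apply Tm.comp; assumption) | apply Tm.pair
        | apply Tm.lam))) (DefZ.dtH hp hM) (DefZ.sum hp ?_)
    exact DefZ.comp (E := fun n => E n × T n) hM (f := fun n y => (y.1, (y.2, y.2))) (by (repeat' (first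
        | apply DefP.nOne | apply DefP.nZero | apply DefP.nSucc | apply DefP.nAdd
        | apply DefP.nLt | apply DefP.nLe | apply DefP.nEq | apply DefP.hlf | apply DefP.p1le
        | apply DefP.p1 | apply DefP.p0 | apply DefP.aug | apply DefP.pth | apply DefP.nx
        | apply DefP.cnd | apply DefP.hmin | apply DefP.hit | apply DefP.cdn
        | apply DefP.firstEx | apply DefP.exN | apply DefP.end_ | apply DefP.isZero
        | apply DefP.isSucc | apply DefP.alt | apply DefP.exr | apply DefP.exl | apply DefP.side
        | apply DefP.oddCard | apply DefP.cardEq | apply DefP.cardLt | apply DefP.cardLe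
        | apply DefP.lst | apply DefP.fst | apply DefP.nxt | apply DefP.keyLe | apply DefP.keyLt
        | apply DefP.rtc | (apply DefP.app4; assumption) | (apply DefP.app3'; assumption)
        | (apply DefP.app3; assumption) | (apply DefP.app2; assumption)
        | (apply DefP.comp; assumption) | exact Tm.id | exact Tm.unit | apply Tm.fst
        | apply Tm.snd | apply Tm.app | exact DefP.const _ | apply DefP.and | apply DefP.not
        | apply DefP.or | apply DefP.iff | apply DefP.adj | apply DefP.le | apply DefP.lt
        | apply DefP.eqFin | apply DefP.eq | apply DefP.rv | apply DefP.imp | apply DefP.allFin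
        | apply DefP.exFin | apply DefP.all | apply DefP.ex | assumption
        | (apply Tm.comp; assumption) | apply Tm.pair | apply Tm.lam)))
  unfold DefZ at h1 ⊢
  refine DefP.congr (E := fun n => E n × S n) h1 fun n G X y => ?_
  rcases Nat.eq_zero_or_pos (nv (p n y.1)) with h0 | h0
  · constructor
    · intro h
      have := h.1
      omega
    · intro h
      have := h.1
      omega
  · have hn := pos_of_nv h0
    beta_reduce
    by_cases h2 : ∃ a b : Fin n, a ≠ b
    · rw [cnd_pos h2, dtH_eq (T := T) (H := fun n => T n × Fin n) _ hn]
      obtain ⟨a, b, hab⟩ := h2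
      have h3 : 1 < n := by
        by_contra hc
        apply hab
        ext
        omega
      show n ^ dim T < n ^ (dim T + 1)
      exact Nat.pow_lt_pow_right h3 (by omega)
    · rw [cnd_neg h2]
      have h3 : n = 1 := by
        by_contra hc
        apply h2
        exact ⟨⟨0, hn⟩, ⟨1, by omega⟩, by simp⟩
      have h4 : Fintype.card (T n) = 1 := by
        rw [← Nat.card_eq_fintype_card, card_env, h3, one_pow]
      obtain ⟨t, ht⟩ := Fintype.card_eq_one_iff.1 h4
      rw [Matrix.det_eq_elem_of_card_eq_one h4 t, Finset.sum_eq_single t]
      · rfl
      · intro u _ hu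
        exact absurd (ht u) hu
      · intro hc
        exact absurd (Finset.mem_univ _) hc

end def_

end Pool.Agent.PMNC
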