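import Mathlib
import Pool.Agent.Lib.MP_0087d5_lc.ZDet
import Pool.Agent.Lib.MP_0087d5_lc.ZAlg

set_option autoImplicit false
set_option linter.all false

/-!
# Alternating walks, distances and canonical shortest paths
-/

namespace Pool.Agent.PMNC

open Relation

theorem exists_perm_of_det {T K : Type*} [Fintype T] [DecidableEq T] [CommRing K]
    (Q : Matrix T T K) (h : Q.det ≠ 0) : ∃ ρ : Equiv.Perm T, ∀ y, Q y (ρ y) ≠ 0 := by
  rw [Matrix.det_apply'] at h
  obtain ⟨σ, _, hσ⟩ := Finset.exists_ne_zero_of_sum_ne_zero h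
  have h1 := right_ne_zero_of_mul hσ
  refine ⟨σ.symm, fun y => ?_⟩
  intro hy
  apply h1
  refine Finset.prod_eq_zero (Finset.mem_univ (σ.symm y)) ?_
  rw [Equiv.apply_symm_apply]
  exact hy

theorem walk_exists {T : Type*} [Finite T] {qa ed : T → T → Prop} {τ : T} (ρ π : Equiv.Perm T)
    (hρ : ∀ y, qa y (ρ y)) (hτ : π τ = τ)
    (hπ : ∀ j i, ReflTransGen (fun j j' => ∃ i, qa j i ∧ ed i j') τ j → qa j i → i ≠ τ →
      ed i (π i)) :
    ∃ j, ReflTransGen (fun j j' => ∃ i, qa j i ∧ ed i j') τ j ∧ qa j τ := by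
  by_contra hc
  push Not at hc
  have h1 : ∀ j, ReflTransGen (fun j j' => ∃ i, qa j i ∧ ed i j') τ j → ρ j ≠ τ := by
    intro j hj he
    exact hc j hj (by rw [← he]; exact hρ j)
  have h2 : ∀ j, ReflTransGen (fun j j' => ∃ i, qa j i ∧ ed i j') τ j →
      ReflTransGen (fun j j' => ∃ i, qa j i ∧ ed i j') τ (π (ρ j)) := fun j hj =>
    hj.tail ⟨ρ j, hρ j, hπ j _ hj (hρ j) (h1 j hj)⟩
  let f : {j // ReflTransGen (fun j j' => ∃ i, qa j i ∧ ed i j') τ j} →
      {j // ReflTransGen (fun j j' => ∃ i, qa j i ∧ ed i j') τ j} := fun j => ⟨π (ρ j.1), h2 _ j.2⟩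
  have hf : Function.Injective f := by
    intro a b hab
    apply Subtype.ext
    exact ρ.injective (π.injective (congrArg Subtype.val hab))
  obtain ⟨j, hj⟩ := (Finite.injective_iff_surjective.1 hf) ⟨τ, ReflTransGen.refl⟩
  have h3 : π (ρ j.1) = τ := congrArg Subtype.val hj
  apply h1 j.1 j.2
  apply π.injective
  rw [h3, hτ]

section W
variable {T : Type*} (qa ed : T → T → Prop) (τ : T)

/-- a walk with `k` edges from the column `j` to the row `τ` -/
def zW : ℕ → T → Prop
  | 0, j => qa j τ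
  | k + 1, j => ∃ i j', qa j i ∧ ed i j' ∧ zW k j'

/-- the distance is `k` -/
def zmn (k : ℕ) (j : T) : Prop := zW qa ed τ k j ∧ ∀ k' < k, ¬ zW qa ed τ k' j

variable {qa ed τ}

theorem zmn_unique {k k' : ℕ} {j : T} (h : zmn qa ed τ k j) (h' : zmn qa ed τ k' j) : k = k' := by
  rcases lt_trichotomy k k' with h1 | h1 | h1
  · exact absurd h.1 (h'.2 k h1)
  · exact h1
  · exact absurd h'.1 (h.2 k' h1)

theorem exists_zmn {k : ℕ} {j : T} (h : zW qa ed τ k j) : ∃ k, zmn qa ed τ k j := by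
  classical
  have h1 : ∃ k, zW qa ed τ k j := ⟨k, h⟩
  exact ⟨Nat.find h1, Nat.find_spec h1, fun k' hk' => Nat.find_min h1 hk'⟩

theorem zmn_pred {k : ℕ} {j : T} (h : zmn qa ed τ (k + 1) j) :
    ∃ i j', qa j i ∧ ed i j' ∧ zmn qa ed τ k j' := by
  obtain ⟨⟨i, j', h1, h2, h3⟩, h4⟩ := h
  exact ⟨i, j', h1, h2, h3, fun k' hk' hc => h4 (k' + 1) (by omega) ⟨i, j', h1, h2, hc⟩⟩

theorem zmn_chain (k : ℕ) : ∀ j : T, zmn qa ed τ k j →
    ∃ c : ℕ → T, ∀ e ≤ k, zmn qa ed τ (k - e) (c e) := by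
  induction k with
  | zero =>
    intro j h
    refine ⟨fun _ => j, fun e he => ?_⟩
    rw [Nat.zero_sub]
    exact h
  | succ k ih =>
    intro j h
    obtain ⟨i, j', _, _, h3⟩ := zmn_pred h
    obtain ⟨c, hc⟩ := ih j' h3
    refine ⟨fun e => if e = 0 then j else c (e - 1), fun e he => ?_⟩
    rcases Nat.eq_zero_or_pos e with h0 | h0
    · subst h0
      exact h
    · beta_reduce
      rw [if_neg (by omega)]
      have := hc (e - 1) (by omega)
      rwa [show k + 1 - e = k - (e - 1) by omega]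

theorem zmn_lt [Fintype T] {k : ℕ} {j : T} (h : zmn qa ed τ k j) : k < Fintype.card T := by
  obtain ⟨c, hc⟩ := zmn_chain k j h
  have h1 : Function.Injective (fun e : Fin (k + 1) => c e.1) := by
    intro a b hab
    have ha := hc a.1 (by omega)
    have hb := hc b.1 (by omega)
    simp only at hab
    rw [← hab] at hb
    have := zmn_unique ha hb
    apply Fin.ext
    omega
  have := Fintype.card_le_of_injective _ h1
  rw [Fintype.card_fin] at this
  omega

theorem zW_of_rtg {j : T} (h : ReflTransGen (fun j j' => ∃ i, qa j i ∧ ed i j') τ j)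
    {x : T} (hx : ReflTransGen (fun j j' => ∃ i, qa j i ∧ ed i j') x j) (hj : qa j τ) :
    ∃ k, zW qa ed τ k x := by
  induction hx using ReflTransGen.head_induction_on with
  | refl => exact ⟨0, hj⟩
  | head h1 _ ih =>
    obtain ⟨k, hk⟩ := ih
    obtain ⟨i, h2, h3⟩ := h1
    exact ⟨k + 1, i, _, h2, h3, hk⟩

end W

section levels
variable {T : ℕ → Type} [Env T] [∀ n, Fintype (T n)] {n : ℕ}
variable (qa ed : T n → T n → Prop) (τ : T n)

/-- a step that lowers the level -/
def zst (a b : T n × T n) : Prop := nv a.1 = nv b.1 + 1 ∧ ∃ i, qa a.2 i ∧ ed i b.2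

/-- there is a walk with `l` edges -/
def zlv (l j : T n) : Prop :=
  ∃ z j' : T n, nv z = 0 ∧ qa j' τ ∧ ReflTransGen (zst qa ed) (l, j) (z, j')

/-- the distance is `l` -/
def zds (l j : T n) : Prop := zlv qa ed τ l j ∧ ∀ l', zlv qa ed τ l' j → nv l ≤ nv l'

/-- the row and the column `u` continue a shortest path -/
def zgd (j : T n) (u : T n × T n) : Prop := qa j u.1 ∧ ed u.1 u.2 ∧
  ∃ l l' : T n, zds qa ed τ l j ∧ zds qa ed τ l' u.2 ∧ nv l = nv l' + 1

/-- the canonical continuation -/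
def znx (j : T n) (u : T n × T n) : Prop := zgd qa ed τ j u ∧ ∀ u', zgd qa ed τ j u' →
  nv (S := fun n => T n × T n) u ≤ nv (S := fun n => T n × T n) u'

/-- `j` is a column of the canonical path -/
def zon (j : T n) : Prop := ReflTransGen (fun j j' => ∃ i, znx qa ed τ j (i, j')) τ j

/-- the edges of the canonical path -/
def zN (i j' : T n) : Prop := ∃ j, zon qa ed τ j ∧ znx qa ed τ j (i, j')

variable {qa ed τ}

theorem zlv_iff {l j : T n} : zlv qa ed τ l j ↔ zW qa ed τ (nv l) j := by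
  constructor
  · rintro ⟨z, j', h1, h2, h3⟩
    have key : ∀ a : T n × T n, ReflTransGen (zst qa ed) a (z, j') →
        zW qa ed τ (nv a.1) a.2 := by
      intro a ha
      induction ha using ReflTransGen.head_induction_on with
      | refl =>
        simp only
        rw [h1]
        exact h2
      | head h4 _ ih =>
        obtain ⟨h5, i, h6, h7⟩ := h4
        rw [h5]
        exact ⟨i, _, h6, h7, ih⟩
    exact key _ h3
  · intro h
    have key : ∀ k : ℕ, ∀ l j : T n, nv l = k → zW qa ed τ k j → zlv qa ed τ l j := by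
      intro k
      induction k with
      | zero =>
        intro l j h1 h2
        exact ⟨l, j, h1, h2, ReflTransGen.refl⟩
      | succ k ih =>
        intro l j h1 h2
        obtain ⟨i, j', h3, h4, h5⟩ := h2
        obtain ⟨l', hl'⟩ := nv_down (b := l) (m := k) (by omega)
        obtain ⟨z, j'', h6, h7, h8⟩ := ih l' j' hl' h5
        exact ⟨z, j'', h6, h7, ReflTransGen.head ⟨by simp only; omega, i, h3, h4⟩ h8⟩
    exact key _ l j rfl h

theorem zds_iff {l j : T n} : zds qa ed τ l j ↔ zmn qa ed τ (nv l) j := by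
  unfold zds zmn
  rw [zlv_iff]
  constructor
  · rintro ⟨h1, h2⟩
    refine ⟨h1, fun k' hk' hc => ?_⟩
    obtain ⟨l', hl'⟩ := nv_down (b := l) hk'
    have := h2 l' (zlv_iff.2 (by rw [hl']; exact hc))
    omega
  · rintro ⟨h1, h2⟩
    refine ⟨h1, fun l' hl' => ?_⟩
    rw [zlv_iff] at hl'
    by_contra hc
    exact h2 _ (by omega) hl'

theorem zgd_iff {j : T n} {u : T n × T n} : zgd qa ed τ j u ↔
    qa j u.1 ∧ ed u.1 u.2 ∧ ∃ k, zmn qa ed τ (k + 1) j ∧ zmn qa ed τ k u.2 := by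
  unfold zgd
  constructor
  · rintro ⟨h1, h2, l, l', h3, h4, h5⟩
    rw [zds_iff] at h3 h4
    rw [h5] at h3
    exact ⟨h1, h2, nv l', h3, h4⟩
  · rintro ⟨h1, h2, k, h3, h4⟩
    have h5 := zmn_lt h3
    rw [← Nat.card_eq_fintype_card, card_env] at h5
    obtain ⟨l, hl⟩ := nv_surj (S := T) h5
    obtain ⟨l', hl'⟩ := nv_down (b := l) (m := k) (by omega)
    refine ⟨h1, h2, l, l', zds_iff.2 (by rw [hl]; exact h3), zds_iff.2 (by rw [hl']; exact h4),
      by omega⟩

theorem exists_least {S : ℕ → Type} [Env S] {P : S n → Prop} (h : ∃ s, P s) :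
    ∃ s, P s ∧ ∀ t, P t → nv s ≤ nv t := by
  classical
  have h1 : ∃ k, ∃ s, P s ∧ nv s = k := by
    obtain ⟨s, hs⟩ := h
    exact ⟨nv s, s, hs, rfl⟩
  obtain ⟨s, hs, he⟩ := Nat.find_spec h1
  refine ⟨s, hs, fun t ht => ?_⟩
  rw [he]
  exact Nat.find_min' h1 ⟨t, ht, rfl⟩

theorem znx_unique {j : T n} {u u' : T n × T n} (h : znx qa ed τ j u) (h' : znx qa ed τ j u') :
    u = u' :=
  nv_injective (S := fun n => T n × T n) (le_antisymm (h.2 u' h'.1) (h'.2 u h.1))

theorem zpath (k : ℕ) : ∀ j : T n, zmn qa ed τ k j → ∃ c i : ℕ → T n, c 0 = j ∧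
    (∀ e < k, znx qa ed τ (c e) (i e, c (e + 1))) ∧ ∀ e ≤ k, zmn qa ed τ (k - e) (c e) := by
  induction k with
  | zero =>
    intro j h
    refine ⟨fun _ => j, fun _ => j, rfl, fun e he => absurd he (by omega), fun e he => ?_⟩
    rw [Nat.zero_sub]
    exact h
  | succ k ih =>
    intro j h
    obtain ⟨i, j', h1, h2, h3⟩ := zmn_pred h
    obtain ⟨u, hu, hmin⟩ := exists_least (S := fun n => T n × T n) (P := zgd qa ed τ j)
      ⟨(i, j'), zgd_iff.2 ⟨h1, h2, k, h, h3⟩⟩
    have hu2 := zgd_iff.1 hu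
    obtain ⟨_, _, k', h4, h5⟩ := hu2
    have hk : k' = k := by
      have := zmn_unique h4 h
      omega
    subst hk
    obtain ⟨c, i', hc0, hc1, hc2⟩ := ih u.2 h5
    refine ⟨fun e => if e = 0 then j else c (e - 1), fun e => if e = 0 then u.1 else i' (e - 1),
      by simp, fun e he => ?_, fun e he => ?_⟩
    · rcases Nat.eq_zero_or_pos e with h0 | h0
      · subst h0
        simp only [if_true]
        rw [if_neg (by omega), show 0 + 1 - 1 = 0 from rfl, hc0]
        exact ⟨hu, hmin⟩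
      · beta_reduce
        rw [if_neg (by omega), if_neg (by omega), if_neg (by omega)]
        have := hc1 (e - 1) (by omega)
        rwa [show e - 1 + 1 = e + 1 - 1 by omega] at this
    · rcases Nat.eq_zero_or_pos e with h0 | h0
      · subst h0
        exact h
      · beta_reduce
        rw [if_neg (by omega)]
        have := hc2 (e - 1) (by omega)
        rwa [show k' + 1 - e = k' - (e - 1) by omega]

theorem zon_iff {s : ℕ} {c i : ℕ → T n} (hc0 : c 0 = τ)
    (hc1 : ∀ e < s, znx qa ed τ (c e) (i e, c (e + 1)))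
    (hc2 : ∀ e ≤ s, zmn qa ed τ (s - e) (c e)) {j : T n} :
    zon qa ed τ j ↔ ∃ e ≤ s, j = c e := by
  constructor
  · intro h
    induction h with
    | refl => exact ⟨0, Nat.zero_le _, hc0.symm⟩
    | tail _ h1 ih =>
      obtain ⟨e, he, rfl⟩ := ih
      obtain ⟨i', h2⟩ := h1
      rcases Nat.lt_or_ge e s with h3 | h3
      · have := znx_unique h2 (hc1 e h3)
        rw [Prod.mk.injEq] at this
        exact ⟨e + 1, h3, this.2⟩
      · exfalso
        obtain ⟨_, _, k, h4, _⟩ := zgd_iff.1 h2.1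
        have := zmn_unique h4 (hc2 e he)
        omega
  · rintro ⟨e, he, rfl⟩
    induction e with
    | zero =>
      rw [hc0]
      exact ReflTransGen.refl
    | succ e ih =>
      exact (ih (by omega)).tail ⟨i e, hc1 e (by omega)⟩

theorem zN_iff {s : ℕ} {c i : ℕ → T n} (hc0 : c 0 = τ)
    (hc1 : ∀ e < s, znx qa ed τ (c e) (i e, c (e + 1)))
    (hc2 : ∀ e ≤ s, zmn qa ed τ (s - e) (c e)) {x y : T n} :
    zN qa ed τ x y ↔ ∃ e < s, x = i e ∧ y = c (e + 1) := by
  unfold zN
  constructor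
  · rintro ⟨j, h1, h2⟩
    obtain ⟨e, he, rfl⟩ := (zon_iff hc0 hc1 hc2).1 h1
    rcases Nat.lt_or_ge e s with h3 | h3
    · have := znx_unique h2 (hc1 e h3)
      rw [Prod.mk.injEq] at this
      exact ⟨e, h3, this.1, this.2⟩
    · exfalso
      obtain ⟨_, _, k, h4, _⟩ := zgd_iff.1 h2.1
      have := zmn_unique h4 (hc2 e he)
      omega
  · rintro ⟨e, he, rfl, rfl⟩
    exact ⟨c e, (zon_iff hc0 hc1 hc2).2 ⟨e, by omega, rfl⟩, hc1 e he⟩

theorem zN_ed {x y : T n} (h : zN qa ed τ x y) : ed x y := by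
  obtain ⟨j, _, h2, _⟩ := h
  exact (zgd_iff.1 h2).2.1

end levels

end Pool.Agent.PMNC
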