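import Mathlib
import Pool.Agent.Lib.MP_0087d5_lc.ZWalk

set_option autoImplicit false
set_option linter.all false

/-!
# Removing one dummy vertex from a matrix that is nonsingular modulo a number
-/

namespace Pool.Agent.PMNC

open Relation Matrix

section defs
variable {T S : ℕ → Type} [Env T] [Env S] [∀ n, Fintype (T n)] [∀ n, Fintype (S n)] {n : ℕ}

/-- divisible by the modulus -/
def dv (p : S n) (a : ℤ) : Prop := 0 < nv p ∧ (nv p : ℤ) ∣ a

/-- not divisible by the modulus -/
def nd (p : S n) (a : ℤ) : Prop := 0 < nv p ∧ ¬ (nv p : ℤ) ∣ a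

variable (p : S n) (Du : T n → Prop) (Ok : T n → T n → Prop) (B : T n → T n → ℤ) (τ : T n)

/-- the identity matrix -/
noncomputable def dlt (i j : T n) : ℤ := cnd (i = j) 1 0

/-- row and column `i` are unit vectors -/
def ina (i : T n) : Prop := ∀ j, dv p (B i j - dlt i j) ∧ dv p (B j i - dlt j i)

/-- active dummies -/
def act (i : T n) : Prop := Du i ∧ ¬ ina p B i

/-- the least active dummy -/
def tau : Prop := act p Du B τ ∧ ∀ i, act p Du B i → nv τ ≤ nv i

open Classical in
/-- the entries of the adjugate matrix -/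
noncomputable def adz (j i : T n) : ℤ :=
  Matrix.det (Matrix.of fun r c => cnd (r = i) (cnd (c = j) 1 0) (B r c))

/-- nonzero entries of the adjugate matrix -/
def qa (j i : T n) : Prop := nd p (adz B j i)

/-- the allowed positions -/
def ed (i j : T n) : Prop := i ≠ τ ∧ j ≠ τ ∧ (Du i → act p Du B i) ∧ (Du j → act p Du B j) ∧ Ok i j

/-- the positions of the canonical path -/
def pN (i j : T n) : Prop := zN (qa p B) (ed p Du Ok B τ) τ i j

/-- the new matrix -/
noncomputable def nB (l : S n) (r c : T n) : ℤ :=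
  cnd (r = τ ∨ c = τ) (dlt r c) (B r c) + cnd (pN p Du Ok B τ r c) ((nv l : ℕ) : ℤ) 0

open Classical in
/-- `l` is a good parameter -/
def gdl (l : S n) : Prop := nv l < nv p ∧ nd p (Matrix.det (Matrix.of (nB p Du Ok B τ l)))

/-- the least good parameter -/
def lgl (l : S n) : Prop := gdl p Du Ok B τ l ∧ ∀ l', gdl p Du Ok B τ l' → nv l ≤ nv l'

/-- the matrix after one stage -/
noncomputable def nxB (r c : T n) : ℤ :=
  cnd (∃ (τ : T n) (l : S n), tau p Du B τ ∧ lgl p Du Ok B τ l)
    (∑ τ : T n, ∑ l : S n, cnd (tau p Du B τ ∧ lgl p Du Ok B τ l) (nB p Du Ok B τ l r c) 0) (B r c)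

end defs

section lemmas
variable {T S : ℕ → Type} [Env T] [Env S] [∀ n, Fintype (T n)] [∀ n, Fintype (S n)] {n : ℕ}
variable {p : S n} {Du : T n → Prop} {Ok : T n → T n → Prop} {B B' : T n → T n → ℤ} {τ : T n}

theorem tau_unique {τ τ' : T n} (h : tau p Du B τ) (h' : tau p Du B τ') : τ = τ' :=
  nv_injective (le_antisymm (h.2 _ h'.1) (h'.2 _ h.1))

theorem nxB_of {l : S n} (h1 : tau p Du B τ) (h2 : lgl p Du Ok B τ l) :
    nxB p Du Ok B = nB p Du Ok B τ l := by
  funext r c
  unfold nxB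
  rw [cnd_pos ⟨τ, l, h1, h2⟩, Finset.sum_eq_single τ, Finset.sum_eq_single l, cnd_pos ⟨h1, h2⟩]
  · intro l' _ hne
    rw [cnd_neg]
    rintro ⟨_, h3⟩
    exact hne (nv_injective (le_antisymm (h3.2 _ h2.1) (h2.2 _ h3.1)))
  · intro hc
    exact absurd (Finset.mem_univ _) hc
  · intro τ' _ hne
    refine Finset.sum_eq_zero fun l' _ => ?_
    rw [cnd_neg]
    rintro ⟨h3, _⟩
    exact hne (tau_unique h3 h1)
  · intro hc
    exact absurd (Finset.mem_univ _) hc

theorem nxB_none (h : ¬ ∃ (τ : T n) (l : S n), tau p Du B τ ∧ lgl p Du Ok B τ l) :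
    nxB p Du Ok B = B := by
  funext r c
  unfold nxB
  rw [cnd_neg h]

theorem dlt_self (i : T n) : dlt i i = 1 := cnd_pos rfl _ _

theorem dlt_ne {i j : T n} (h : i ≠ j) : dlt i j = 0 := cnd_neg h _ _

/-- the entries at allowed positions stay at allowed positions -/
def sup (p : S n) (Du : T n → Prop) (Ok : T n → T n → Prop) (B : T n → T n → ℤ) : Prop :=
  ∀ r c, ¬ Du r → ¬ Du c → nd p (B r c) → Ok r c

theorem sup_nxB (h : sup p Du Ok B) : sup p Du Ok (nxB p Du Ok B) := by
  by_cases hc : ∃ (τ : T n) (l : S n), tau p Du B τ ∧ lgl p Du Ok B τ l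
  · obtain ⟨τ, l, h1, h2⟩ := hc
    rw [nxB_of h1 h2]
    intro r c hr hcc hnd
    by_cases hN : pN p Du Ok B τ r c
    · exact (zN_ed hN).2.2.2.2
    · unfold nB at hnd
      rw [cnd_neg hN, add_zero, cnd_neg] at hnd
      · exact h r c hr hcc hnd
      · rintro (rfl | rfl)
        · exact hr h1.1.1
        · exact hcc h1.1.1
  · rw [nxB_none hc]
    exact h

/-- congruent matrices -/
def cg (p : S n) (B B' : T n → T n → ℤ) : Prop := ∀ r c, (nv p : ℤ) ∣ B r c - B' r c

theorem cg_iff : cg p B B' ↔ ∀ r c, ((B r c : ℤ) : ZMod (nv p)) = B' r c := by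
  unfold cg
  constructor
  · intro h r c
    rw [eq_comm, ZMod.intCast_eq_intCast_iff_dvd_sub]
    exact h r c
  · intro h r c
    rw [← ZMod.intCast_eq_intCast_iff_dvd_sub]
    exact (h r c).symm

open Classical in
theorem cast_det (B : T n → T n → ℤ) (m : ℕ) :
    ((Matrix.det (Matrix.of B) : ℤ) : ZMod m) =
      Matrix.det (Matrix.of fun r c => ((B r c : ℤ) : ZMod m)) := by
  rw [← eq_intCast (Int.castRingHom (ZMod m)), RingHom.map_det]
  rfl

theorem nd_iff {a : ℤ} (hp : 0 < nv p) : nd p a ↔ ((a : ℤ) : ZMod (nv p)) ≠ 0 := by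
  unfold nd
  rw [Ne, ZMod.intCast_zmod_eq_zero_iff_dvd]
  tauto

theorem dv_iff {a : ℤ} (hp : 0 < nv p) : dv p a ↔ ((a : ℤ) : ZMod (nv p)) = 0 := by
  unfold dv
  rw [ZMod.intCast_zmod_eq_zero_iff_dvd]
  tauto

open Classical in
theorem cg_det (h : cg p B B') : nd p (Matrix.det (Matrix.of B)) ↔
    nd p (Matrix.det (Matrix.of B')) := by
  rcases Nat.eq_zero_or_pos (nv p) with h0 | h0
  · unfold nd
    rw [h0]
    simp
  · rw [nd_iff h0, nd_iff h0, cast_det, cast_det]
    rw [cg_iff] at h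
    have : (fun r c => ((B r c : ℤ) : ZMod (nv p))) = fun r c => ((B' r c : ℤ) : ZMod (nv p)) := by
      funext r c
      exact h r c
    rw [this]

theorem cg_ina (h : cg p B B') (i : T n) : ina p B i ↔ ina p B' i := by
  rcases Nat.eq_zero_or_pos (nv p) with h0 | h0
  · unfold ina dv
    rw [h0]
    simp
  · unfold ina
    simp only [dv_iff h0, Int.cast_sub]
    rw [cg_iff] at h
    simp only [h]

theorem cg_act (h : cg p B B') (i : T n) : act p Du B i ↔ act p Du B' i := by
  unfold act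
  rw [cg_ina h]

theorem cg_sup (h : cg p B B') : sup p Du Ok B ↔ sup p Du Ok B' := by
  rcases Nat.eq_zero_or_pos (nv p) with h0 | h0
  · unfold sup nd
    rw [h0]
    simp
  · unfold sup
    simp only [nd_iff h0]
    rw [cg_iff] at h
    simp only [h]

open Classical in
/-- a matrix without active dummies that is nonsingular modulo `p` gives a permutation -/
theorem final_perm (hs : sup p Du Ok B)
    (hd : nd p (Matrix.det (Matrix.of B))) (ha : ∀ i, ¬ act p Du B i) :
    ∃ σ : Equiv.Perm (T n), ∀ i, ¬ Du i → ¬ Du (σ i) ∧ Ok i (σ i) := by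
  have h0 : 0 < nv p := hd.1
  rw [nd_iff h0, cast_det] at hd
  obtain ⟨σ, hσ⟩ := exists_perm_of_det _ hd
  simp only [Matrix.of_apply] at hσ
  have h1 : ∀ i, Du (σ i) → σ i = i := by
    intro i hi
    have h2 : ina p B (σ i) := by
      by_contra h
      exact ha _ ⟨hi, h⟩
    have h3 := (h2 i).2
    rw [dv_iff h0, Int.cast_sub, sub_eq_zero] at h3
    by_contra h4
    have h5 := hσ i
    rw [h3, dlt_ne (Ne.symm h4)] at h5
    simp at h5
  refine ⟨σ, fun i hi => ?_⟩
  have h2 : ¬ Du (σ i) := by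
    intro h
    rw [h1 i h] at h
    exact hi h
  exact ⟨h2, hs i _ hi h2 ((nd_iff h0).2 (hσ i))⟩

end lemmas

section prog
variable {T S : ℕ → Type} [Env T] [Env S] [∀ n, Fintype (T n)] [∀ n, Fintype (S n)] {n : ℕ}
variable {p : S n} {Du : T n → Prop} {Ok : T n → T n → Prop} {B : T n → T n → ℤ} {τ : T n}

open Classical in
theorem adz_eq (B : T n → T n → ℤ) (j i : T n) :
    adz B j i = Matrix.adjugate (Matrix.of B) j i := by
  unfold adz
  rw [Matrix.adjugate_apply]
  have e : (Matrix.of fun r c => cnd (r = i) (cnd (c = j) 1 0) (B r c)) =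
      (Matrix.of B).updateRow i (Pi.single j 1) := by
    ext r c
    rw [Matrix.of_apply, Matrix.updateRow_apply]
    by_cases hr : r = i
    · rw [cnd_pos hr, if_pos hr, Pi.single_apply]
      by_cases hc : c = j
      · rw [cnd_pos hc, if_pos hc]
      · rw [cnd_neg hc, if_neg hc]
    · rw [cnd_neg hr, if_neg hr]
      rfl
  rw [e]

/-- the matrix over the field -/
noncomputable def mK (p : S n) (B : T n → T n → ℤ) : Matrix (T n) (T n) (ZMod (nv p)) :=
  Matrix.of fun r c => ((B r c : ℤ) : ZMod (nv p))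

open Classical in
theorem qa_iff [Fact (nv p).Prime] (hd : (mK p B).det ≠ 0) (j i : T n) :
    qa p B j i ↔ (mK p B)⁻¹ j i ≠ 0 := by
  have h0 : 0 < nv p := (Fact.out : (nv p).Prime).pos
  unfold qa
  rw [nd_iff h0, adz_eq]
  have e : ((Matrix.adjugate (Matrix.of B) j i : ℤ) : ZMod (nv p)) =
      Matrix.adjugate (mK p B) j i := by
    have h1 := RingHom.map_adjugate (Int.castRingHom (ZMod (nv p))) (Matrix.of B)
    have h2 := congrFun (congrFun h1 j) i
    exact h2
  rw [e, Matrix.inv_def, Matrix.smul_apply, smul_eq_mul, Ring.inverse_eq_inv']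
  constructor
  · intro h
    exact mul_ne_zero (inv_ne_zero hd) h
  · intro h
    exact right_ne_zero_of_mul h

open Classical in
theorem stage (hp : (nv p).Prime) (hcard : Fintype.card (T n) < nv p)
    (π : Equiv.Perm (T n)) (hπ1 : ∀ i, Du i → π i = i) (hπ2 : ∀ i, Ok i (π i))
    (hd : nd p (Matrix.det (Matrix.of B))) (hτ : tau p Du B τ) :
    ∃ l : S n, gdl p Du Ok B τ l := by
  haveI : Fact (nv p).Prime := ⟨hp⟩
  have h0 : 0 < nv p := hp.pos
  have hd' : (mK p B).det ≠ 0 := by
    rw [nd_iff h0, cast_det] at hd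
    exact hd
  have hu : IsUnit (mK p B).det := isUnit_iff_ne_zero.2 hd'
  have hQ : (mK p B)⁻¹ * mK p B = 1 := Matrix.nonsing_inv_mul _ hu
  have hQd : (mK p B)⁻¹.det ≠ 0 := by
    intro hc
    have h1 := congrArg Matrix.det hQ
    rw [Matrix.det_mul, hc, zero_mul, Matrix.det_one] at h1
    exact zero_ne_one h1
  obtain ⟨ρ, hρ⟩ := exists_perm_of_det _ hQd
  have hρ' : ∀ y, qa p B y (ρ y) := fun y => (qa_iff hd' _ _).2 (hρ y)
  -- a walk exists
  have hw : ∃ j, ReflTransGen (fun j j' => ∃ i, qa p B j i ∧ ed p Du Ok B τ i j') τ j ∧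
      qa p B j τ := by
    refine walk_exists ρ π hρ' (hπ1 τ hτ.1.1) ?_
    intro j i hj hq hi
    have h2 : Du i → act p Du B i := by
      intro hdi
      by_contra hc
      have h3 : ina p B i := by
        by_contra h4
        exact hc ⟨hdi, h4⟩
      -- column i of the inverse matrix
      have h4 : (mK p B)⁻¹ j i = if j = i then 1 else 0 := by
        have h5 := congrFun (congrFun hQ j) i
        rw [Matrix.mul_apply, Matrix.one_apply, Finset.sum_eq_single i] at h5
        · have h6 := (h3 i).1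
          rw [dv_iff h0, Int.cast_sub, sub_eq_zero, dlt_self] at h6
          unfold mK at h5 ⊢
          rw [Matrix.of_apply, h6, Int.cast_one, mul_one] at h5
          exact h5
        · intro r _ hr
          have h6 := (h3 r).2
          rw [dv_iff h0, Int.cast_sub, sub_eq_zero, dlt_ne hr] at h6
          unfold mK
          rw [Matrix.of_apply, h6, Int.cast_zero, mul_zero]
        · intro hcc
          exact absurd (Finset.mem_univ _) hcc
      have h5 := (qa_iff hd' _ _).1 hq
      rw [h4] at h5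
      have h6 : j = i := by
        by_contra h7
        rw [if_neg h7] at h5
        exact h5 rfl
      subst h6
      rcases Relation.ReflTransGen.cases_tail hj with h7 | ⟨j', _, i', _, h8⟩
      · exact hi h7
      · exact hc (h8.2.2.2.1 hdi)
    have h3 : π i ≠ τ := by
      intro h
      apply hi
      apply π.injective
      rw [h, hπ1 τ hτ.1.1]
    refine ⟨hi, h3, h2, ?_, hπ2 i⟩
    intro hdi
    have h4 : π i = i := by
      have := hπ1 _ hdi
      exact π.injective this
    rw [h4] at hdi ⊢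
    exact h2 hdi
  obtain ⟨j, hj1, hj2⟩ := hw
  obtain ⟨k, hk⟩ := zW_of_rtg hj1 hj1 hj2
  obtain ⟨s, hs⟩ := exists_zmn hk
  obtain ⟨c, i, hc0, hc1, hc2⟩ := zpath s τ hs
  have hNi := fun x y => zN_iff (x := x) (y := y) hc0 hc1 hc2
  -- the matrix of the path
  let N : Matrix (T n) (T n) (ZMod (nv p)) :=
    Matrix.of fun x y => if pN p Du Ok B τ x y then 1 else 0
  have hN1 : ∀ x y, pN p Du Ok B τ x y → N x y = 1 := fun x y h => if_pos h
  have hN0 : ∀ x y, ¬ pN p Du Ok B τ x y → N x y = 0 := fun x y h => if_neg h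
  have hgd : ∀ e < s, qa p B (c e) (i e) ∧ ed p Du Ok B τ (i e) (c (e + 1)) := fun e he => by
    have := (zgd_iff.1 (hc1 e he).1)
    exact ⟨this.1, this.2.1⟩
  have hpc := path_coeff N (mK p B)⁻¹ τ s c i hc0
    (fun e e' he he' h => by
      have h1 := hc2 e he
      have h2 := hc2 e' he'
      rw [← h] at h2
      have := zmn_unique h1 h2
      omega)
    (fun e he => hN1 _ _ ((hNi _ _).2 ⟨e, he, rfl, rfl⟩))
    (fun x y h => by
      by_contra hc
      exact h (hN0 x y (fun h2 => hc ((hNi _ _).1 h2))))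
    (fun e he => (qa_iff hd' _ _).1 (hgd e he).1)
    (fun e e' he he' => by
      by_contra h
      have h1 := (qa_iff hd' _ _).2 h
      have h2 := hc2 (e' + 1) (by omega)
      have h3 : zW (qa p B) (ed p Du Ok B τ) τ (s - (e' + 1) + 1) (c e) :=
        ⟨i e', c (e' + 1), h1, (hgd e' he').2, h2.1⟩
      exact (hc2 e (by omega)).2 _ (by omega) h3)
    (fun e he => by
      by_contra h
      have h1 := (qa_iff hd' _ _).2 h
      exact (hc2 e (by omega)).2 0 (by omega) h1)
    (by
      have h1 := hc2 s le_rfl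
      rw [Nat.sub_self] at h1
      exact (qa_iff hd' _ _).1 h1.1)
  have hNτ : ∀ x, N x τ = 0 ∧ N τ x = 0 := by
    intro x
    constructor
    · exact hN0 _ _ (fun h => (zN_ed h).2.1 rfl)
    · exact hN0 _ _ (fun h => (zN_ed h).1 rfl)
  obtain ⟨l, hl⟩ := exists_param (mK p B) N (mK p B)⁻¹ hQ τ s hpc.1 hpc.2 hNτ (by
    rw [ZMod.card]
    exact hcard)
  obtain ⟨l', hl'⟩ := nv_down (b := p) (m := l.val) (ZMod.val_lt l)
  refine ⟨l', by rw [hl']; exact ZMod.val_lt l, ?_⟩
  rw [nd_iff h0]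
  have e : ((Matrix.det (Matrix.of (nB p Du Ok B τ l')) : ℤ) : ZMod (nv p)) =
      (mnr (mK p B) τ + l • N).det := by
    rw [cast_det]
    congr 1
    ext r c
    rw [Matrix.of_apply, Matrix.add_apply, Matrix.smul_apply, smul_eq_mul]
    unfold nB mnr mK
    rw [Int.cast_add, Matrix.of_apply]
    congr 1
    · by_cases h1 : r = τ ∨ c = τ
      · rw [cnd_pos h1, if_pos h1]
        by_cases h2 : r = c
        · rw [h2, dlt_self, if_pos rfl, Int.cast_one]
        · rw [dlt_ne h2, if_neg h2, Int.cast_zero]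
      · rw [cnd_neg h1, if_neg h1]
        rfl
    · by_cases h1 : pN p Du Ok B τ r c
      · rw [cnd_pos h1, hN1 r c h1, mul_one, hl', Int.cast_natCast, ZMod.natCast_zmod_val]
      · rw [cnd_neg h1, hN0 r c h1, mul_zero, Int.cast_zero]
  rw [e]
  exact hl

/-- the number of active dummies -/
noncomputable def nact (p : S n) (Du : T n → Prop) (B : T n → T n → ℤ) : ℕ :=
  Nat.card {i : T n // act p Du B i}

theorem ina_nB {i : T n} (l : S n) (hi : Du i) (h : ina p B i) :
    ina p (nB p Du Ok B τ l) i := by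
  intro j
  have hna : ¬ act p Du B i := fun h2 => h2.2 h
  have e1 : ¬ pN p Du Ok B τ i j := fun h2 => hna ((zN_ed h2).2.2.1 hi)
  have e2 : ¬ pN p Du Ok B τ j i := fun h2 => hna ((zN_ed h2).2.2.2.1 hi)
  have h0 : 0 < nv p := (h i).1.1
  unfold nB
  rw [cnd_neg e1, cnd_neg e2, add_zero, add_zero]
  constructor
  · by_cases h1 : i = τ ∨ j = τ
    · rw [cnd_pos h1, sub_self]
      exact ⟨h0, dvd_zero _⟩
    · rw [cnd_neg h1]
      exact (h j).1
  · by_cases h1 : j = τ ∨ i = τ
    · rw [cnd_pos h1, sub_self]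
      exact ⟨h0, dvd_zero _⟩
    · rw [cnd_neg h1]
      exact (h j).2

theorem ina_τ (hp : 0 < nv p) (l : S n) : ina p (nB p Du Ok B τ l) τ := by
  intro j
  have e1 : ¬ pN p Du Ok B τ τ j := fun h2 => (zN_ed h2).1 rfl
  have e2 : ¬ pN p Du Ok B τ j τ := fun h2 => (zN_ed h2).2.1 rfl
  unfold nB
  rw [cnd_neg e1, cnd_neg e2, add_zero, add_zero, cnd_pos (Or.inl rfl), cnd_pos (Or.inr rfl),
    sub_self, sub_self]
  exact ⟨⟨hp, dvd_zero _⟩, ⟨hp, dvd_zero _⟩⟩

theorem nact_lt (hp : 0 < nv p) (hτ : act p Du B τ) (l : S n) :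
    nact p Du (nB p Du Ok B τ l) < nact p Du B := by
  classical
  unfold nact
  have h1 : ∀ i, act p Du (nB p Du Ok B τ l) i → act p Du B i := by
    intro i hi
    refine ⟨hi.1, fun h => hi.2 (ina_nB l hi.1 h)⟩
  have h2 : ¬ act p Du (nB p Du Ok B τ l) τ := fun h => h.2 (ina_τ hp l)
  rw [Nat.card_eq_fintype_card, Nat.card_eq_fintype_card, Fintype.card_subtype,
    Fintype.card_subtype]
  apply Finset.card_lt_card
  rw [Finset.ssubset_iff_of_subset]
  · exact ⟨τ, by simp [hτ], by simp [h2]⟩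
  · intro i hi
    rw [Finset.mem_filter] at hi ⊢
    exact ⟨hi.1, h1 i hi.2⟩

theorem exists_tau (h : ∃ i, act p Du B i) : ∃ τ, tau p Du B τ := exists_least h

open Classical in
/-- one stage with a prime modulus -/
theorem nxB_prog (hp : (nv p).Prime) (hcard : Fintype.card (T n) < nv p)
    (π : Equiv.Perm (T n)) (hπ1 : ∀ i, Du i → π i = i) (hπ2 : ∀ i, Ok i (π i))
    (hd : nd p (Matrix.det (Matrix.of B))) :
    nd p (Matrix.det (Matrix.of (nxB p Du Ok B))) ∧
      nact p Du (nxB p Du Ok B) ≤ nact p Du B - 1 := by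
  by_cases h : ∃ i, act p Du B i
  · obtain ⟨τ, hτ⟩ := exists_tau h
    obtain ⟨l, hl, hl2⟩ := exists_least (stage hp hcard π hπ1 hπ2 hd hτ)
    have hlg : lgl p Du Ok B τ l := ⟨hl, hl2⟩
    rw [nxB_of hτ hlg]
    exact ⟨hl.2, by have := nact_lt (Ok := Ok) hp.pos hτ.1 l; omega⟩
  · have hn : ¬ ∃ (τ : T n) (l : S n), tau p Du B τ ∧ lgl p Du Ok B τ l := by
      rintro ⟨τ, l, h1, _⟩
      exact h ⟨τ, h1.1⟩
    rw [nxB_none hn]
    refine ⟨hd, ?_⟩
    have : nact p Du B = 0 := by
      unfold nact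
      rw [Nat.card_eq_zero]
      left
      exact ⟨fun i => h ⟨i.1, i.2⟩⟩
    omega

end prog

end Pool.Agent.PMNC
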