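import Mathlib
import Pool.Agent.Lib.MP_0087d5_lc.ZStep

set_option autoImplicit false
set_option linter.all false

/-!
# The stages are iterated
-/

namespace Pool.Agent.PMNC

open Relation Matrix

section sem
variable {T S : ℕ → Type} [Env T] [Env S] [∀ n, Fintype (T n)] [∀ n, Fintype (S n)] {n : ℕ}
variable (p : S n) (Du : T n → Prop) (Ok : T n → T n → Prop)

/-- the matrix stored in a relation -/
noncomputable def vlm (R : (T n × T n) × S n → Prop) (r c : T n) : ℤ := vl R (r, c)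

/-- a matrix as a relation -/
def rlm (B : T n → T n → ℤ) (y : (T n × T n) × S n) : Prop := rsd p y.2 (B y.1.1 y.1.2)

/-- one stage -/
def stg (R : (T n × T n) × S n → Prop) (y : (T n × T n) × S n) : Prop :=
  rsd p y.2 (nxB p Du Ok (vlm R) y.1.1 y.1.2)

open Classical in
/-- the matrix is nonsingular and no dummy is active -/
def fin' (R : (T n × T n) × S n → Prop) : Prop :=
  nd p (Matrix.det (Matrix.of (vlm R))) ∧ ∀ i, ¬ act p Du (vlm R) i

variable {p Du Ok}

theorem vlm_rlm (hp : 0 < nv p) (B : T n → T n → ℤ) : cg p B (vlm (rlm p B)) := by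
  intro r c
  exact vl_eq (b := (r, c)) hp (fun s => Iff.rfl)

theorem cg_symm {B B' : T n → T n → ℤ} (h : cg p B B') : cg p B' B := by
  intro r c
  have := h r c
  rw [← dvd_neg, neg_sub] at this
  exact this

theorem vlm_stg (hp : 0 < nv p) (R : (T n × T n) × S n → Prop) :
    cg p (nxB p Du Ok (vlm R)) (vlm (stg p Du Ok R)) := vlm_rlm hp _

theorem sup_iter (hp : 0 < nv p) {B : T n → T n → ℤ} (h : sup p Du Ok B) (j : ℕ) :
    sup p Du Ok (vlm ((stg p Du Ok)^[j] (rlm p B))) := by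
  induction j with
  | zero => exact (cg_sup (vlm_rlm hp B)).1 h
  | succ j ih =>
    rw [Function.iterate_succ_apply']
    exact (cg_sup (vlm_stg hp _)).1 (sup_nxB ih)

theorem cg_nact {B B' : T n → T n → ℤ} (h : cg p B B') : nact p Du B = nact p Du B' := by
  unfold nact
  simp only [cg_act h]

open Classical in
theorem prog_iter (hp : (nv p).Prime) (hcard : Fintype.card (T n) < nv p)
    (π : Equiv.Perm (T n)) (hπ1 : ∀ i, Du i → π i = i) (hπ2 : ∀ i, Ok i (π i))
    {B : T n → T n → ℤ} (hd : nd p (Matrix.det (Matrix.of B))) (j : ℕ) :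
    nd p (Matrix.det (Matrix.of (vlm ((stg p Du Ok)^[j] (rlm p B))))) ∧
      nact p Du (vlm ((stg p Du Ok)^[j] (rlm p B))) ≤ nact p Du B - j := by
  induction j with
  | zero =>
    have h := vlm_rlm hp.pos B
    exact ⟨(cg_det h).1 hd, (cg_nact h).ge⟩
  | succ j ih =>
    rw [Function.iterate_succ_apply']
    have h := vlm_stg (Du := Du) (Ok := Ok) hp.pos ((stg p Du Ok)^[j] (rlm p B))
    obtain ⟨h1, h2⟩ := nxB_prog hp hcard π hπ1 hπ2 ih.1
    refine ⟨(cg_det h).1 h1, ?_⟩
    rw [← cg_nact h]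
    omega

theorem fin_sound {B : T n → T n → ℤ} (h : sup p Du Ok B) {j : ℕ}
    (hf : fin' p Du ((stg p Du Ok)^[j] (rlm p B))) :
    ∃ σ : Equiv.Perm (T n), ∀ i, ¬ Du i → ¬ Du (σ i) ∧ Ok i (σ i) :=
  final_perm (sup_iter hf.1.1 h j) hf.1 hf.2

open Classical in
theorem fin_complete (hp : (nv p).Prime) (hcard : Fintype.card (T n) < nv p)
    (π : Equiv.Perm (T n)) (hπ1 : ∀ i, Du i → π i = i) (hπ2 : ∀ i, Ok i (π i))
    {B : T n → T n → ℤ} (hd : nd p (Matrix.det (Matrix.of B))) {j : ℕ} (hj : nact p Du B ≤ j) :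
    fin' p Du ((stg p Du Ok)^[j] (rlm p B)) := by
  obtain ⟨h1, h2⟩ := prog_iter hp hcard π hπ1 hπ2 hd j
  refine ⟨h1, fun i hi => ?_⟩
  have h3 : nact p Du (vlm ((stg p Du Ok)^[j] (rlm p B))) = 0 := by omega
  unfold nact at h3
  rw [Nat.card_eq_zero] at h3
  rcases h3 with h3 | h3
  · exact h3.elim ⟨i, hi⟩
  · exact absurd (inferInstance : Finite {i : T n // _}) (not_finite_iff_infinite.2 h3)

end sem

end Pool.Agent.PMNC
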