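import Mathlib
import Pool.Agent.Lib.MP_0087d5_lc.ZIter

set_option autoImplicit false
set_option linter.all false

/-!
# The stages are definable
-/

namespace Pool.Agent.PMNC

open Relation

section def_
variable {E T S : ℕ → Type} [Env E] [Env T] [Env S] [∀ n, Fintype (T n)] [∀ n, Fintype (S n)]

theorem DefZ.dlt {p : ∀ n : ℕ, E n → S n} (hp : Tm p) {f g : ∀ n : ℕ, E n → T n}
    (hf : Tm f) (hg : Tm g) : DefZ p (fun n G X x => PMNC.dlt (f n x) (g n x)) := by
  unfold PMNC.dlt
  exact DefZ.ite (DefP.eq hf hg) (DefZ.one hp) (DefZ.zero hp)

variable {p : ∀ n : ℕ, E n → S n}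
  {Du : ∀ n : ℕ, SimpleGraph (Fin n) → Ctx n → E n → T n → Prop}
  {Ok : ∀ n : ℕ, SimpleGraph (Fin n) → Ctx n → E n → T n → T n → Prop}
  {B : ∀ n : ℕ, SimpleGraph (Fin n) → Ctx n → E n → T n → T n → ℤ}

theorem DefP.ina (hp : Tm p)
    (hB : DefZ (E := fun n => E n × (T n × T n)) (fun n y => p n y.1)
      (fun n G X y => B n G X y.1 y.2.1 y.2.2)) :
    DefP (E := fun n => E n × T n) (fun n G X y => PMNC.ina (p n y.1) (B n G X y.1) y.2) := by
  unfold PMNC.ina PMNC.dv
  have hp2 : Tm (fun n (y : (E n × T n) × T n) => p n y.1.1) := hp.comp (Tm.fst (Tm.fst Tm.id))
  refine DefP.all (DefP.and (DefZ.dvd (DefZ.sub hp2 ?_ (DefZ.dlt hp2 ?_ ?_)))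
    (DefZ.dvd (DefZ.sub hp2 ?_ (DefZ.dlt hp2 ?_ ?_))))
  · exact DefZ.comp (E := fun n => (E n × T n) × T n) hB (f := fun n y => (y.1.1, (y.1.2, y.2)))
      (by (repeat' (first
          | apply DefP.nOne | apply DefP.nZero | apply DefP.nSucc | apply DefP.nAdd
          | apply DefP.nLt | apply DefP.nLe | apply DefP.nEq | apply DefP.hlf | apply DefP.p1le
          | apply DefP.p1 | apply DefP.p0 | apply DefP.aug | apply DefP.pth | apply DefP.nx
          | apply DefP.cnd | apply DefP.hmin | apply DefP.hit | apply DefP.cdn
          | apply DefP.firstEx | apply DefP.exN | apply DefP.end_ | apply DefP.isZero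
          | apply DefP.isSucc | apply DefP.alt | apply DefP.exr | apply DefP.exl
          | apply DefP.side | apply DefP.oddCard | apply DefP.cardEq | apply DefP.cardLt
          | apply DefP.cardLe | apply DefP.lst | apply DefP.fst | apply DefP.nxt
          | apply DefP.keyLe | apply DefP.keyLt | apply DefP.rtc | (apply DefP.app4; assumption)
          | (apply DefP.app3'; assumption) | (apply DefP.app3; assumption)
          | (apply DefP.app2; assumption) | (apply DefP.comp; assumption) | exact Tm.id
          | exact Tm.unit | apply Tm.fst | apply Tm.snd | apply Tm.app | exact DefP.const _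
          | apply DefP.and | apply DefP.not | apply DefP.or | apply DefP.iff | apply DefP.adj
          | apply DefP.le | apply DefP.lt | apply DefP.eqFin | apply DefP.eq | apply DefP.rv
          | apply DefP.imp | apply DefP.allFin | apply DefP.exFin | apply DefP.all
          | apply DefP.ex | assumption | (apply Tm.comp; assumption) | apply Tm.pair
          | apply Tm.lam)))
  · (repeat' (first
      | apply DefP.nOne | apply DefP.nZero | apply DefP.nSucc | apply DefP.nAdd | apply DefP.nLt
      | apply DefP.nLe | apply DefP.nEq | apply DefP.hlf | apply DefP.p1le | apply DefP.p1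
      | apply DefP.p0 | apply DefP.aug | apply DefP.pth | apply DefP.nx | apply DefP.cnd
      | apply DefP.hmin | apply DefP.hit | apply DefP.cdn | apply DefP.firstEx | apply DefP.exN
      | apply DefP.end_ | apply DefP.isZero | apply DefP.isSucc | apply DefP.alt
      | apply DefP.exr | apply DefP.exl | apply DefP.side | apply DefP.oddCard
      | apply DefP.cardEq | apply DefP.cardLt | apply DefP.cardLe | apply DefP.lst
      | apply DefP.fst | apply DefP.nxt | apply DefP.keyLe | apply DefP.keyLt | apply DefP.rtc
      | (apply DefP.app4; assumption) | (apply DefP.app3'; assumption)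
      | (apply DefP.app3; assumption) | (apply DefP.app2; assumption)
      | (apply DefP.comp; assumption) | exact Tm.id | exact Tm.unit | apply Tm.fst
      | apply Tm.snd | apply Tm.app | exact DefP.const _ | apply DefP.and | apply DefP.not
      | apply DefP.or | apply DefP.iff | apply DefP.adj | apply DefP.le | apply DefP.lt
      | apply DefP.eqFin | apply DefP.eq | apply DefP.rv | apply DefP.imp | apply DefP.allFin
      | apply DefP.exFin | apply DefP.all | apply DefP.ex | assumption
      | (apply Tm.comp; assumption) | apply Tm.pair | apply Tm.lam))
  · (repeat' (first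
      | apply DefP.nOne | apply DefP.nZero | apply DefP.nSucc | apply DefP.nAdd | apply DefP.nLt
      | apply DefP.nLe | apply DefP.nEq | apply DefP.hlf | apply DefP.p1le | apply DefP.p1
      | apply DefP.p0 | apply DefP.aug | apply DefP.pth | apply DefP.nx | apply DefP.cnd
      | apply DefP.hmin | apply DefP.hit | apply DefP.cdn | apply DefP.firstEx | apply DefP.exN
      | apply DefP.end_ | apply DefP.isZero | apply DefP.isSucc | apply DefP.alt
      | apply DefP.exr | apply DefP.exl | apply DefP.side | apply DefP.oddCard
      | apply DefP.cardEq | apply DefP.cardLt | apply DefP.cardLe | apply DefP.lst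
      | apply DefP.fst | apply DefP.nxt | apply DefP.keyLe | apply DefP.keyLt | apply DefP.rtc
      | (apply DefP.app4; assumption) | (apply DefP.app3'; assumption)
      | (apply DefP.app3; assumption) | (apply DefP.app2; assumption)
      | (apply DefP.comp; assumption) | exact Tm.id | exact Tm.unit | apply Tm.fst
      | apply Tm.snd | apply Tm.app | exact DefP.const _ | apply DefP.and | apply DefP.not
      | apply DefP.or | apply DefP.iff | apply DefP.adj | apply DefP.le | apply DefP.lt
      | apply DefP.eqFin | apply DefP.eq | apply DefP.rv | apply DefP.imp | apply DefP.allFin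
      | apply DefP.exFin | apply DefP.all | apply DefP.ex | assumption
      | (apply Tm.comp; assumption) | apply Tm.pair | apply Tm.lam))
  · exact DefZ.comp (E := fun n => (E n × T n) × T n) hB (f := fun n y => (y.1.1, (y.2, y.1.2)))
      (by (repeat' (first
          | apply DefP.nOne | apply DefP.nZero | apply DefP.nSucc | apply DefP.nAdd
          | apply DefP.nLt | apply DefP.nLe | apply DefP.nEq | apply DefP.hlf | apply DefP.p1le
          | apply DefP.p1 | apply DefP.p0 | apply DefP.aug | apply DefP.pth | apply DefP.nx
          | apply DefP.cnd | apply DefP.hmin | apply DefP.hit | apply DefP.cdn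
          | apply DefP.firstEx | apply DefP.exN | apply DefP.end_ | apply DefP.isZero
          | apply DefP.isSucc | apply DefP.alt | apply DefP.exr | apply DefP.exl
          | apply DefP.side | apply DefP.oddCard | apply DefP.cardEq | apply DefP.cardLt
          | apply DefP.cardLe | apply DefP.lst | apply DefP.fst | apply DefP.nxt
          | apply DefP.keyLe | apply DefP.keyLt | apply DefP.rtc | (apply DefP.app4; assumption)
          | (apply DefP.app3'; assumption) | (apply DefP.app3; assumption)
          | (apply DefP.app2; assumption) | (apply DefP.comp; assumption) | exact Tm.id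
          | exact Tm.unit | apply Tm.fst | apply Tm.snd | apply Tm.app | exact DefP.const _
          | apply DefP.and | apply DefP.not | apply DefP.or | apply DefP.iff | apply DefP.adj
          | apply DefP.le | apply DefP.lt | apply DefP.eqFin | apply DefP.eq | apply DefP.rv
          | apply DefP.imp | apply DefP.allFin | apply DefP.exFin | apply DefP.all
          | apply DefP.ex | assumption | (apply Tm.comp; assumption) | apply Tm.pair
          | apply Tm.lam)))
  · (repeat' (first
      | apply DefP.nOne | apply DefP.nZero | apply DefP.nSucc | apply DefP.nAdd | apply DefP.nLt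
      | apply DefP.nLe | apply DefP.nEq | apply DefP.hlf | apply DefP.p1le | apply DefP.p1
      | apply DefP.p0 | apply DefP.aug | apply DefP.pth | apply DefP.nx | apply DefP.cnd
      | apply DefP.hmin | apply DefP.hit | apply DefP.cdn | apply DefP.firstEx | apply DefP.exN
      | apply DefP.end_ | apply DefP.isZero | apply DefP.isSucc | apply DefP.alt
      | apply DefP.exr | apply DefP.exl | apply DefP.side | apply DefP.oddCard
      | apply DefP.cardEq | apply DefP.cardLt | apply DefP.cardLe | apply DefP.lst
      | apply DefP.fst | apply DefP.nxt | apply DefP.keyLe | apply DefP.keyLt | apply DefP.rtc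
      | (apply DefP.app4; assumption) | (apply DefP.app3'; assumption)
      | (apply DefP.app3; assumption) | (apply DefP.app2; assumption)
      | (apply DefP.comp; assumption) | exact Tm.id | exact Tm.unit | apply Tm.fst
      | apply Tm.snd | apply Tm.app | exact DefP.const _ | apply DefP.and | apply DefP.not
      | apply DefP.or | apply DefP.iff | apply DefP.adj | apply DefP.le | apply DefP.lt
      | apply DefP.eqFin | apply DefP.eq | apply DefP.rv | apply DefP.imp | apply DefP.allFin
      | apply DefP.exFin | apply DefP.all | apply DefP.ex | assumption
      | (apply Tm.comp; assumption) | apply Tm.pair | apply Tm.lam))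
  · (repeat' (first
      | apply DefP.nOne | apply DefP.nZero | apply DefP.nSucc | apply DefP.nAdd | apply DefP.nLt
      | apply DefP.nLe | apply DefP.nEq | apply DefP.hlf | apply DefP.p1le | apply DefP.p1
      | apply DefP.p0 | apply DefP.aug | apply DefP.pth | apply DefP.nx | apply DefP.cnd
      | apply DefP.hmin | apply DefP.hit | apply DefP.cdn | apply DefP.firstEx | apply DefP.exN
      | apply DefP.end_ | apply DefP.isZero | apply DefP.isSucc | apply DefP.alt
      | apply DefP.exr | apply DefP.exl | apply DefP.side | apply DefP.oddCard
      | apply DefP.cardEq | apply DefP.cardLt | apply DefP.cardLe | apply DefP.lst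
      | apply DefP.fst | apply DefP.nxt | apply DefP.keyLe | apply DefP.keyLt | apply DefP.rtc
      | (apply DefP.app4; assumption) | (apply DefP.app3'; assumption)
      | (apply DefP.app3; assumption) | (apply DefP.app2; assumption)
      | (apply DefP.comp; assumption) | exact Tm.id | exact Tm.unit | apply Tm.fst
      | apply Tm.snd | apply Tm.app | exact DefP.const _ | apply DefP.and | apply DefP.not
      | apply DefP.or | apply DefP.iff | apply DefP.adj | apply DefP.le | apply DefP.lt
      | apply DefP.eqFin | apply DefP.eq | apply DefP.rv | apply DefP.imp | apply DefP.allFin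
      | apply DefP.exFin | apply DefP.all | apply DefP.ex | assumption
      | (apply Tm.comp; assumption) | apply Tm.pair | apply Tm.lam))

theorem DefP.act (hp : Tm p)
    (hDu : DefP (E := fun n => E n × T n) (fun n G X y => Du n G X y.1 y.2))
    (hB : DefZ (E := fun n => E n × (T n × T n)) (fun n y => p n y.1)
      (fun n G X y => B n G X y.1 y.2.1 y.2.2)) :
    DefP (E := fun n => E n × T n)
      (fun n G X y => PMNC.act (p n y.1) (Du n G X y.1) (B n G X y.1) y.2) := by
  unfold PMNC.act
  exact DefP.and hDu (DefP.not (DefP.ina hp hB))

theorem DefP.tau (hp : Tm p)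
    (hDu : DefP (E := fun n => E n × T n) (fun n G X y => Du n G X y.1 y.2))
    (hB : DefZ (E := fun n => E n × (T n × T n)) (fun n y => p n y.1)
      (fun n G X y => B n G X y.1 y.2.1 y.2.2)) :
    DefP (E := fun n => E n × T n)
      (fun n G X y => PMNC.tau (p n y.1) (Du n G X y.1) (B n G X y.1) y.2) := by
  unfold PMNC.tau
  have h := DefP.act hp hDu hB
  refine DefP.and h (DefP.all (DefP.imp ?_ (DefP.nLe ?_ ?_)))
  · exact DefP.comp (F := fun n => E n × T n)
      (f := fun n (y : (E n × T n) × T n) => (y.1.1, y.2)) h (by (repeat' (first
          | apply DefP.nOne | apply DefP.nZero | apply DefP.nSucc | apply DefP.nAdd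
          | apply DefP.nLt | apply DefP.nLe | apply DefP.nEq | apply DefP.hlf | apply DefP.p1le
          | apply DefP.p1 | apply DefP.p0 | apply DefP.aug | apply DefP.pth | apply DefP.nx
          | apply DefP.cnd | apply DefP.hmin | apply DefP.hit | apply DefP.cdn
          | apply DefP.firstEx | apply DefP.exN | apply DefP.end_ | apply DefP.isZero
          | apply DefP.isSucc | apply DefP.alt | apply DefP.exr | apply DefP.exl
          | apply DefP.side | apply DefP.oddCard | apply DefP.cardEq | apply DefP.cardLt
          | apply DefP.cardLe | apply DefP.lst | apply DefP.fst | apply DefP.nxt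
          | apply DefP.keyLe | apply DefP.keyLt | apply DefP.rtc | (apply DefP.app4; assumption)
          | (apply DefP.app3'; assumption) | (apply DefP.app3; assumption)
          | (apply DefP.app2; assumption) | (apply DefP.comp; assumption) | exact Tm.id
          | exact Tm.unit | apply Tm.fst | apply Tm.snd | apply Tm.app | exact DefP.const _
          | apply DefP.and | apply DefP.not | apply DefP.or | apply DefP.iff | apply DefP.adj
          | apply DefP.le | apply DefP.lt | apply DefP.eqFin | apply DefP.eq | apply DefP.rv
          | apply DefP.imp | apply DefP.allFin | apply DefP.exFin | apply DefP.all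
          | apply DefP.ex | assumption | (apply Tm.comp; assumption) | apply Tm.pair
          | apply Tm.lam)))
  · (repeat' (first
      | apply DefP.nOne | apply DefP.nZero | apply DefP.nSucc | apply DefP.nAdd | apply DefP.nLt
      | apply DefP.nLe | apply DefP.nEq | apply DefP.hlf | apply DefP.p1le | apply DefP.p1
      | apply DefP.p0 | apply DefP.aug | apply DefP.pth | apply DefP.nx | apply DefP.cnd
      | apply DefP.hmin | apply DefP.hit | apply DefP.cdn | apply DefP.firstEx | apply DefP.exN
      | apply DefP.end_ | apply DefP.isZero | apply DefP.isSucc | apply DefP.alt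
      | apply DefP.exr | apply DefP.exl | apply DefP.side | apply DefP.oddCard
      | apply DefP.cardEq | apply DefP.cardLt | apply DefP.cardLe | apply DefP.lst
      | apply DefP.fst | apply DefP.nxt | apply DefP.keyLe | apply DefP.keyLt | apply DefP.rtc
      | (apply DefP.app4; assumption) | (apply DefP.app3'; assumption)
      | (apply DefP.app3; assumption) | (apply DefP.app2; assumption)
      | (apply DefP.comp; assumption) | exact Tm.id | exact Tm.unit | apply Tm.fst
      | apply Tm.snd | apply Tm.app | exact DefP.const _ | apply DefP.and | apply DefP.not
      | apply DefP.or | apply DefP.iff | apply DefP.adj | apply DefP.le | apply DefP.lt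
      | apply DefP.eqFin | apply DefP.eq | apply DefP.rv | apply DefP.imp | apply DefP.allFin
      | apply DefP.exFin | apply DefP.all | apply DefP.ex | assumption
      | (apply Tm.comp; assumption) | apply Tm.pair | apply Tm.lam))
  · (repeat' (first
      | apply DefP.nOne | apply DefP.nZero | apply DefP.nSucc | apply DefP.nAdd | apply DefP.nLt
      | apply DefP.nLe | apply DefP.nEq | apply DefP.hlf | apply DefP.p1le | apply DefP.p1
      | apply DefP.p0 | apply DefP.aug | apply DefP.pth | apply DefP.nx | apply DefP.cnd
      | apply DefP.hmin | apply DefP.hit | apply DefP.cdn | apply DefP.firstEx | apply DefP.exN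
      | apply DefP.end_ | apply DefP.isZero | apply DefP.isSucc | apply DefP.alt
      | apply DefP.exr | apply DefP.exl | apply DefP.side | apply DefP.oddCard
      | apply DefP.cardEq | apply DefP.cardLt | apply DefP.cardLe | apply DefP.lst
      | apply DefP.fst | apply DefP.nxt | apply DefP.keyLe | apply DefP.keyLt | apply DefP.rtc
      | (apply DefP.app4; assumption) | (apply DefP.app3'; assumption)
      | (apply DefP.app3; assumption) | (apply DefP.app2; assumption)
      | (apply DefP.comp; assumption) | exact Tm.id | exact Tm.unit | apply Tm.fst
      | apply Tm.snd | apply Tm.app | exact DefP.const _ | apply DefP.and | apply DefP.not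
      | apply DefP.or | apply DefP.iff | apply DefP.adj | apply DefP.le | apply DefP.lt
      | apply DefP.eqFin | apply DefP.eq | apply DefP.rv | apply DefP.imp | apply DefP.allFin
      | apply DefP.exFin | apply DefP.all | apply DefP.ex | assumption
      | (apply Tm.comp; assumption) | apply Tm.pair | apply Tm.lam))

theorem DefZ.adz (hp : Tm p)
    (hB : DefZ (E := fun n => E n × (T n × T n)) (fun n y => p n y.1)
      (fun n G X y => B n G X y.1 y.2.1 y.2.2)) :
    DefZ (E := fun n => E n × (T n × T n)) (fun n y => p n y.1)
      (fun n G X y => PMNC.adz (B n G X y.1) y.2.1 y.2.2) := by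
  unfold PMNC.adz
  have hp1 : Tm (fun n (y : E n × (T n × T n)) => p n y.1) := hp.comp (Tm.fst Tm.id)
  have hp2 : Tm (fun n (y : (E n × (T n × T n)) × (T n × T n)) => p n y.1.1) :=
    hp.comp (Tm.fst (Tm.fst Tm.id))
  refine DefZ.det (T := T) (M := fun n G X (y : E n × (T n × T n)) r c =>
    cnd (r = y.2.2) (cnd (c = y.2.1) 1 0) (B n G X y.1 r c)) hp1 ?_
  refine DefZ.ite (DefP.eq ?_ ?_) (DefZ.ite (DefP.eq ?_ ?_) (DefZ.one hp2) (DefZ.zero hp2)) ?_
  · (repeat' (first
      | apply DefP.nOne | apply DefP.nZero | apply DefP.nSucc | apply DefP.nAdd | apply DefP.nLt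
      | apply DefP.nLe | apply DefP.nEq | apply DefP.hlf | apply DefP.p1le | apply DefP.p1
      | apply DefP.p0 | apply DefP.aug | apply DefP.pth | apply DefP.nx | apply DefP.cnd
      | apply DefP.hmin | apply DefP.hit | apply DefP.cdn | apply DefP.firstEx | apply DefP.exN
      | apply DefP.end_ | apply DefP.isZero | apply DefP.isSucc | apply DefP.alt
      | apply DefP.exr | apply DefP.exl | apply DefP.side | apply DefP.oddCard
      | apply DefP.cardEq | apply DefP.cardLt | apply DefP.cardLe | apply DefP.lst
      | apply DefP.fst | apply DefP.nxt | apply DefP.keyLe | apply DefP.keyLt | apply DefP.rtc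
      | (apply DefP.app4; assumption) | (apply DefP.app3'; assumption)
      | (apply DefP.app3; assumption) | (apply DefP.app2; assumption)
      | (apply DefP.comp; assumption) | exact Tm.id | exact Tm.unit | apply Tm.fst
      | apply Tm.snd | apply Tm.app | exact DefP.const _ | apply DefP.and | apply DefP.not
      | apply DefP.or | apply DefP.iff | apply DefP.adj | apply DefP.le | apply DefP.lt
      | apply DefP.eqFin | apply DefP.eq | apply DefP.rv | apply DefP.imp | apply DefP.allFin
      | apply DefP.exFin | apply DefP.all | apply DefP.ex | assumption
      | (apply Tm.comp; assumption) | apply Tm.pair | apply Tm.lam))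
  · (repeat' (first
      | apply DefP.nOne | apply DefP.nZero | apply DefP.nSucc | apply DefP.nAdd | apply DefP.nLt
      | apply DefP.nLe | apply DefP.nEq | apply DefP.hlf | apply DefP.p1le | apply DefP.p1
      | apply DefP.p0 | apply DefP.aug | apply DefP.pth | apply DefP.nx | apply DefP.cnd
      | apply DefP.hmin | apply DefP.hit | apply DefP.cdn | apply DefP.firstEx | apply DefP.exN
      | apply DefP.end_ | apply DefP.isZero | apply DefP.isSucc | apply DefP.alt
      | apply DefP.exr | apply DefP.exl | apply DefP.side | apply DefP.oddCard
      | apply DefP.cardEq | apply DefP.cardLt | apply DefP.cardLe | apply DefP.lst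
      | apply DefP.fst | apply DefP.nxt | apply DefP.keyLe | apply DefP.keyLt | apply DefP.rtc
      | (apply DefP.app4; assumption) | (apply DefP.app3'; assumption)
      | (apply DefP.app3; assumption) | (apply DefP.app2; assumption)
      | (apply DefP.comp; assumption) | exact Tm.id | exact Tm.unit | apply Tm.fst
      | apply Tm.snd | apply Tm.app | exact DefP.const _ | apply DefP.and | apply DefP.not
      | apply DefP.or | apply DefP.iff | apply DefP.adj | apply DefP.le | apply DefP.lt
      | apply DefP.eqFin | apply DefP.eq | apply DefP.rv | apply DefP.imp | apply DefP.allFin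
      | apply DefP.exFin | apply DefP.all | apply DefP.ex | assumption
      | (apply Tm.comp; assumption) | apply Tm.pair | apply Tm.lam))
  · (repeat' (first
      | apply DefP.nOne | apply DefP.nZero | apply DefP.nSucc | apply DefP.nAdd | apply DefP.nLt
      | apply DefP.nLe | apply DefP.nEq | apply DefP.hlf | apply DefP.p1le | apply DefP.p1
      | apply DefP.p0 | apply DefP.aug | apply DefP.pth | apply DefP.nx | apply DefP.cnd
      | apply DefP.hmin | apply DefP.hit | apply DefP.cdn | apply DefP.firstEx | apply DefP.exN
      | apply DefP.end_ | apply DefP.isZero | apply DefP.isSucc | apply DefP.alt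
      | apply DefP.exr | apply DefP.exl | apply DefP.side | apply DefP.oddCard
      | apply DefP.cardEq | apply DefP.cardLt | apply DefP.cardLe | apply DefP.lst
      | apply DefP.fst | apply DefP.nxt | apply DefP.keyLe | apply DefP.keyLt | apply DefP.rtc
      | (apply DefP.app4; assumption) | (apply DefP.app3'; assumption)
      | (apply DefP.app3; assumption) | (apply DefP.app2; assumption)
      | (apply DefP.comp; assumption) | exact Tm.id | exact Tm.unit | apply Tm.fst
      | apply Tm.snd | apply Tm.app | exact DefP.const _ | apply DefP.and | apply DefP.not
      | apply DefP.or | apply DefP.iff | apply DefP.adj | apply DefP.le | apply DefP.lt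
      | apply DefP.eqFin | apply DefP.eq | apply DefP.rv | apply DefP.imp | apply DefP.allFin
      | apply DefP.exFin | apply DefP.all | apply DefP.ex | assumption
      | (apply Tm.comp; assumption) | apply Tm.pair | apply Tm.lam))
  · (repeat' (first
      | apply DefP.nOne | apply DefP.nZero | apply DefP.nSucc | apply DefP.nAdd | apply DefP.nLt
      | apply DefP.nLe | apply DefP.nEq | apply DefP.hlf | apply DefP.p1le | apply DefP.p1
      | apply DefP.p0 | apply DefP.aug | apply DefP.pth | apply DefP.nx | apply DefP.cnd
      | apply DefP.hmin | apply DefP.hit | apply DefP.cdn | apply DefP.firstEx | apply DefP.exN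
      | apply DefP.end_ | apply DefP.isZero | apply DefP.isSucc | apply DefP.alt
      | apply DefP.exr | apply DefP.exl | apply DefP.side | apply DefP.oddCard
      | apply DefP.cardEq | apply DefP.cardLt | apply DefP.cardLe | apply DefP.lst
      | apply DefP.fst | apply DefP.nxt | apply DefP.keyLe | apply DefP.keyLt | apply DefP.rtc
      | (apply DefP.app4; assumption) | (apply DefP.app3'; assumption)
      | (apply DefP.app3; assumption) | (apply DefP.app2; assumption)
      | (apply DefP.comp; assumption) | exact Tm.id | exact Tm.unit | apply Tm.fst
      | apply Tm.snd | apply Tm.app | exact DefP.const _ | apply DefP.and | apply DefP.not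
      | apply DefP.or | apply DefP.iff | apply DefP.adj | apply DefP.le | apply DefP.lt
      | apply DefP.eqFin | apply DefP.eq | apply DefP.rv | apply DefP.imp | apply DefP.allFin
      | apply DefP.exFin | apply DefP.all | apply DefP.ex | assumption
      | (apply Tm.comp; assumption) | apply Tm.pair | apply Tm.lam))
  · exact DefZ.comp (E := fun n => (E n × (T n × T n)) × (T n × T n)) hB
      (f := fun n y => (y.1.1, y.2)) (by (repeat' (first
          | apply DefP.nOne | apply DefP.nZero | apply DefP.nSucc | apply DefP.nAdd
          | apply DefP.nLt | apply DefP.nLe | apply DefP.nEq | apply DefP.hlf | apply DefP.p1le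
          | apply DefP.p1 | apply DefP.p0 | apply DefP.aug | apply DefP.pth | apply DefP.nx
          | apply DefP.cnd | apply DefP.hmin | apply DefP.hit | apply DefP.cdn
          | apply DefP.firstEx | apply DefP.exN | apply DefP.end_ | apply DefP.isZero
          | apply DefP.isSucc | apply DefP.alt | apply DefP.exr | apply DefP.exl
          | apply DefP.side | apply DefP.oddCard | apply DefP.cardEq | apply DefP.cardLt
          | apply DefP.cardLe | apply DefP.lst | apply DefP.fst | apply DefP.nxt
          | apply DefP.keyLe | apply DefP.keyLt | apply DefP.rtc | (apply DefP.app4; assumption)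
          | (apply DefP.app3'; assumption) | (apply DefP.app3; assumption)
          | (apply DefP.app2; assumption) | (apply DefP.comp; assumption) | exact Tm.id
          | exact Tm.unit | apply Tm.fst | apply Tm.snd | apply Tm.app | exact DefP.const _
          | apply DefP.and | apply DefP.not | apply DefP.or | apply DefP.iff | apply DefP.adj
          | apply DefP.le | apply DefP.lt | apply DefP.eqFin | apply DefP.eq | apply DefP.rv
          | apply DefP.imp | apply DefP.allFin | apply DefP.exFin | apply DefP.all
          | apply DefP.ex | assumption | (apply Tm.comp; assumption) | apply Tm.pair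
          | apply Tm.lam)))

theorem DefP.qa (hp : Tm p)
    (hB : DefZ (E := fun n => E n × (T n × T n)) (fun n y => p n y.1)
      (fun n G X y => B n G X y.1 y.2.1 y.2.2)) :
    DefP (E := fun n => E n × (T n × T n))
      (fun n G X y => PMNC.qa (p n y.1) (B n G X y.1) y.2.1 y.2.2) := by
  unfold PMNC.qa PMNC.nd
  exact DefZ.ndvd (hp.comp (Tm.fst Tm.id)) (DefZ.adz hp hB)

theorem DefP.ed (hp : Tm p)
    (hDu : DefP (E := fun n => E n × T n) (fun n G X y => Du n G X y.1 y.2))
    (hOk : DefP (E := fun n => E n × (T n × T n)) (fun n G X y => Ok n G X y.1 y.2.1 y.2.2))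
    (hB : DefZ (E := fun n => E n × (T n × T n)) (fun n y => p n y.1)
      (fun n G X y => B n G X y.1 y.2.1 y.2.2)) :
    DefP (E := fun n => E n × (T n × (T n × T n)))
      (fun n G X y => PMNC.ed (p n y.1) (Du n G X y.1) (Ok n G X y.1) (B n G X y.1)
        y.2.1 y.2.2.1 y.2.2.2) := by
  unfold PMNC.ed
  have h := DefP.act hp hDu hB
  refine DefP.and (DefP.not (DefP.eq ?_ ?_)) (DefP.and (DefP.not (DefP.eq ?_ ?_))
    (DefP.and (DefP.imp ?_ ?_) (DefP.and (DefP.imp ?_ ?_) ?_)))
  · (repeat' (first
      | apply DefP.nOne | apply DefP.nZero | apply DefP.nSucc | apply DefP.nAdd | apply DefP.nLt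
      | apply DefP.nLe | apply DefP.nEq | apply DefP.hlf | apply DefP.p1le | apply DefP.p1
      | apply DefP.p0 | apply DefP.aug | apply DefP.pth | apply DefP.nx | apply DefP.cnd
      | apply DefP.hmin | apply DefP.hit | apply DefP.cdn | apply DefP.firstEx | apply DefP.exN
      | apply DefP.end_ | apply DefP.isZero | apply DefP.isSucc | apply DefP.alt
      | apply DefP.exr | apply DefP.exl | apply DefP.side | apply DefP.oddCard
      | apply DefP.cardEq | apply DefP.cardLt | apply DefP.cardLe | apply DefP.lst
      | apply DefP.fst | apply DefP.nxt | apply DefP.keyLe | apply DefP.keyLt | apply DefP.rtc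
      | (apply DefP.app4; assumption) | (apply DefP.app3'; assumption)
      | (apply DefP.app3; assumption) | (apply DefP.app2; assumption)
      | (apply DefP.comp; assumption) | exact Tm.id | exact Tm.unit | apply Tm.fst
      | apply Tm.snd | apply Tm.app | exact DefP.const _ | apply DefP.and | apply DefP.not
      | apply DefP.or | apply DefP.iff | apply DefP.adj | apply DefP.le | apply DefP.lt
      | apply DefP.eqFin | apply DefP.eq | apply DefP.rv | apply DefP.imp | apply DefP.allFin
      | apply DefP.exFin | apply DefP.all | apply DefP.ex | assumption
      | (apply Tm.comp; assumption) | apply Tm.pair | apply Tm.lam))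
  · (repeat' (first
      | apply DefP.nOne | apply DefP.nZero | apply DefP.nSucc | apply DefP.nAdd | apply DefP.nLt
      | apply DefP.nLe | apply DefP.nEq | apply DefP.hlf | apply DefP.p1le | apply DefP.p1
      | apply DefP.p0 | apply DefP.aug | apply DefP.pth | apply DefP.nx | apply DefP.cnd
      | apply DefP.hmin | apply DefP.hit | apply DefP.cdn | apply DefP.firstEx | apply DefP.exN
      | apply DefP.end_ | apply DefP.isZero | apply DefP.isSucc | apply DefP.alt
      | apply DefP.exr | apply DefP.exl | apply DefP.side | apply DefP.oddCard
      | apply DefP.cardEq | apply DefP.cardLt | apply DefP.cardLe | apply DefP.lst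
      | apply DefP.fst | apply DefP.nxt | apply DefP.keyLe | apply DefP.keyLt | apply DefP.rtc
      | (apply DefP.app4; assumption) | (apply DefP.app3'; assumption)
      | (apply DefP.app3; assumption) | (apply DefP.app2; assumption)
      | (apply DefP.comp; assumption) | exact Tm.id | exact Tm.unit | apply Tm.fst
      | apply Tm.snd | apply Tm.app | exact DefP.const _ | apply DefP.and | apply DefP.not
      | apply DefP.or | apply DefP.iff | apply DefP.adj | apply DefP.le | apply DefP.lt
      | apply DefP.eqFin | apply DefP.eq | apply DefP.rv | apply DefP.imp | apply DefP.allFin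
      | apply DefP.exFin | apply DefP.all | apply DefP.ex | assumption
      | (apply Tm.comp; assumption) | apply Tm.pair | apply Tm.lam))
  · (repeat' (first
      | apply DefP.nOne | apply DefP.nZero | apply DefP.nSucc | apply DefP.nAdd | apply DefP.nLt
      | apply DefP.nLe | apply DefP.nEq | apply DefP.hlf | apply DefP.p1le | apply DefP.p1
      | apply DefP.p0 | apply DefP.aug | apply DefP.pth | apply DefP.nx | apply DefP.cnd
      | apply DefP.hmin | apply DefP.hit | apply DefP.cdn | apply DefP.firstEx | apply DefP.exN
      | apply DefP.end_ | apply DefP.isZero | apply DefP.isSucc | apply DefP.alt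
      | apply DefP.exr | apply DefP.exl | apply DefP.side | apply DefP.oddCard
      | apply DefP.cardEq | apply DefP.cardLt | apply DefP.cardLe | apply DefP.lst
      | apply DefP.fst | apply DefP.nxt | apply DefP.keyLe | apply DefP.keyLt | apply DefP.rtc
      | (apply DefP.app4; assumption) | (apply DefP.app3'; assumption)
      | (apply DefP.app3; assumption) | (apply DefP.app2; assumption)
      | (apply DefP.comp; assumption) | exact Tm.id | exact Tm.unit | apply Tm.fst
      | apply Tm.snd | apply Tm.app | exact DefP.const _ | apply DefP.and | apply DefP.not
      | apply DefP.or | apply DefP.iff | apply DefP.adj | apply DefP.le | apply DefP.lt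
      | apply DefP.eqFin | apply DefP.eq | apply DefP.rv | apply DefP.imp | apply DefP.allFin
      | apply DefP.exFin | apply DefP.all | apply DefP.ex | assumption
      | (apply Tm.comp; assumption) | apply Tm.pair | apply Tm.lam))
  · (repeat' (first
      | apply DefP.nOne | apply DefP.nZero | apply DefP.nSucc | apply DefP.nAdd | apply DefP.nLt
      | apply DefP.nLe | apply DefP.nEq | apply DefP.hlf | apply DefP.p1le | apply DefP.p1
      | apply DefP.p0 | apply DefP.aug | apply DefP.pth | apply DefP.nx | apply DefP.cnd
      | apply DefP.hmin | apply DefP.hit | apply DefP.cdn | apply DefP.firstEx | apply DefP.exN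
      | apply DefP.end_ | apply DefP.isZero | apply DefP.isSucc | apply DefP.alt
      | apply DefP.exr | apply DefP.exl | apply DefP.side | apply DefP.oddCard
      | apply DefP.cardEq | apply DefP.cardLt | apply DefP.cardLe | apply DefP.lst
      | apply DefP.fst | apply DefP.nxt | apply DefP.keyLe | apply DefP.keyLt | apply DefP.rtc
      | (apply DefP.app4; assumption) | (apply DefP.app3'; assumption)
      | (apply DefP.app3; assumption) | (apply DefP.app2; assumption)
      | (apply DefP.comp; assumption) | exact Tm.id | exact Tm.unit | apply Tm.fst
      | apply Tm.snd | apply Tm.app | exact DefP.const _ | apply DefP.and | apply DefP.not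
      | apply DefP.or | apply DefP.iff | apply DefP.adj | apply DefP.le | apply DefP.lt
      | apply DefP.eqFin | apply DefP.eq | apply DefP.rv | apply DefP.imp | apply DefP.allFin
      | apply DefP.exFin | apply DefP.all | apply DefP.ex | assumption
      | (apply Tm.comp; assumption) | apply Tm.pair | apply Tm.lam))
  · exact DefP.comp (F := fun n => E n × T n)
      (f := fun n (y : E n × (T n × (T n × T n))) => (y.1, y.2.2.1)) hDu (by (repeat' (first
          | apply DefP.nOne | apply DefP.nZero | apply DefP.nSucc | apply DefP.nAdd
          | apply DefP.nLt | apply DefP.nLe | apply DefP.nEq | apply DefP.hlf | apply DefP.p1le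
          | apply DefP.p1 | apply DefP.p0 | apply DefP.aug | apply DefP.pth | apply DefP.nx
          | apply DefP.cnd | apply DefP.hmin | apply DefP.hit | apply DefP.cdn
          | apply DefP.firstEx | apply DefP.exN | apply DefP.end_ | apply DefP.isZero
          | apply DefP.isSucc | apply DefP.alt | apply DefP.exr | apply DefP.exl
          | apply DefP.side | apply DefP.oddCard | apply DefP.cardEq | apply DefP.cardLt
          | apply DefP.cardLe | apply DefP.lst | apply DefP.fst | apply DefP.nxt
          | apply DefP.keyLe | apply DefP.keyLt | apply DefP.rtc | (apply DefP.app4; assumption)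
          | (apply DefP.app3'; assumption) | (apply DefP.app3; assumption)
          | (apply DefP.app2; assumption) | (apply DefP.comp; assumption) | exact Tm.id
          | exact Tm.unit | apply Tm.fst | apply Tm.snd | apply Tm.app | exact DefP.const _
          | apply DefP.and | apply DefP.not | apply DefP.or | apply DefP.iff | apply DefP.adj
          | apply DefP.le | apply DefP.lt | apply DefP.eqFin | apply DefP.eq | apply DefP.rv
          | apply DefP.imp | apply DefP.allFin | apply DefP.exFin | apply DefP.all
          | apply DefP.ex | assumption | (apply Tm.comp; assumption) | apply Tm.pair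
          | apply Tm.lam)))
  · exact DefP.comp (F := fun n => E n × T n)
      (f := fun n (y : E n × (T n × (T n × T n))) => (y.1, y.2.2.1)) h (by (repeat' (first
          | apply DefP.nOne | apply DefP.nZero | apply DefP.nSucc | apply DefP.nAdd
          | apply DefP.nLt | apply DefP.nLe | apply DefP.nEq | apply DefP.hlf | apply DefP.p1le
          | apply DefP.p1 | apply DefP.p0 | apply DefP.aug | apply DefP.pth | apply DefP.nx
          | apply DefP.cnd | apply DefP.hmin | apply DefP.hit | apply DefP.cdn
          | apply DefP.firstEx | apply DefP.exN | apply DefP.end_ | apply DefP.isZero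
          | apply DefP.isSucc | apply DefP.alt | apply DefP.exr | apply DefP.exl
          | apply DefP.side | apply DefP.oddCard | apply DefP.cardEq | apply DefP.cardLt
          | apply DefP.cardLe | apply DefP.lst | apply DefP.fst | apply DefP.nxt
          | apply DefP.keyLe | apply DefP.keyLt | apply DefP.rtc | (apply DefP.app4; assumption)
          | (apply DefP.app3'; assumption) | (apply DefP.app3; assumption)
          | (apply DefP.app2; assumption) | (apply DefP.comp; assumption) | exact Tm.id
          | exact Tm.unit | apply Tm.fst | apply Tm.snd | apply Tm.app | exact DefP.const _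
          | apply DefP.and | apply DefP.not | apply DefP.or | apply DefP.iff | apply DefP.adj
          | apply DefP.le | apply DefP.lt | apply DefP.eqFin | apply DefP.eq | apply DefP.rv
          | apply DefP.imp | apply DefP.allFin | apply DefP.exFin | apply DefP.all
          | apply DefP.ex | assumption | (apply Tm.comp; assumption) | apply Tm.pair
          | apply Tm.lam)))
  · exact DefP.comp (F := fun n => E n × T n)
      (f := fun n (y : E n × (T n × (T n × T n))) => (y.1, y.2.2.2)) hDu (by (repeat' (first
          | apply DefP.nOne | apply DefP.nZero | apply DefP.nSucc | apply DefP.nAdd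
          | apply DefP.nLt | apply DefP.nLe | apply DefP.nEq | apply DefP.hlf | apply DefP.p1le
          | apply DefP.p1 | apply DefP.p0 | apply DefP.aug | apply DefP.pth | apply DefP.nx
          | apply DefP.cnd | apply DefP.hmin | apply DefP.hit | apply DefP.cdn
          | apply DefP.firstEx | apply DefP.exN | apply DefP.end_ | apply DefP.isZero
          | apply DefP.isSucc | apply DefP.alt | apply DefP.exr | apply DefP.exl
          | apply DefP.side | apply DefP.oddCard | apply DefP.cardEq | apply DefP.cardLt
          | apply DefP.cardLe | apply DefP.lst | apply DefP.fst | apply DefP.nxt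
          | apply DefP.keyLe | apply DefP.keyLt | apply DefP.rtc | (apply DefP.app4; assumption)
          | (apply DefP.app3'; assumption) | (apply DefP.app3; assumption)
          | (apply DefP.app2; assumption) | (apply DefP.comp; assumption) | exact Tm.id
          | exact Tm.unit | apply Tm.fst | apply Tm.snd | apply Tm.app | exact DefP.const _
          | apply DefP.and | apply DefP.not | apply DefP.or | apply DefP.iff | apply DefP.adj
          | apply DefP.le | apply DefP.lt | apply DefP.eqFin | apply DefP.eq | apply DefP.rv
          | apply DefP.imp | apply DefP.allFin | apply DefP.exFin | apply DefP.all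
          | apply DefP.ex | assumption | (apply Tm.comp; assumption) | apply Tm.pair
          | apply Tm.lam)))
  · exact DefP.comp (F := fun n => E n × T n)
      (f := fun n (y : E n × (T n × (T n × T n))) => (y.1, y.2.2.2)) h (by (repeat' (first
          | apply DefP.nOne | apply DefP.nZero | apply DefP.nSucc | apply DefP.nAdd
          | apply DefP.nLt | apply DefP.nLe | apply DefP.nEq | apply DefP.hlf | apply DefP.p1le
          | apply DefP.p1 | apply DefP.p0 | apply DefP.aug | apply DefP.pth | apply DefP.nx
          | apply DefP.cnd | apply DefP.hmin | apply DefP.hit | apply DefP.cdn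
          | apply DefP.firstEx | apply DefP.exN | apply DefP.end_ | apply DefP.isZero
          | apply DefP.isSucc | apply DefP.alt | apply DefP.exr | apply DefP.exl
          | apply DefP.side | apply DefP.oddCard | apply DefP.cardEq | apply DefP.cardLt
          | apply DefP.cardLe | apply DefP.lst | apply DefP.fst | apply DefP.nxt
          | apply DefP.keyLe | apply DefP.keyLt | apply DefP.rtc | (apply DefP.app4; assumption)
          | (apply DefP.app3'; assumption) | (apply DefP.app3; assumption)
          | (apply DefP.app2; assumption) | (apply DefP.comp; assumption) | exact Tm.id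
          | exact Tm.unit | apply Tm.fst | apply Tm.snd | apply Tm.app | exact DefP.const _
          | apply DefP.and | apply DefP.not | apply DefP.or | apply DefP.iff | apply DefP.adj
          | apply DefP.le | apply DefP.lt | apply DefP.eqFin | apply DefP.eq | apply DefP.rv
          | apply DefP.imp | apply DefP.allFin | apply DefP.exFin | apply DefP.all
          | apply DefP.ex | assumption | (apply Tm.comp; assumption) | apply Tm.pair
          | apply Tm.lam)))
  · exact DefP.comp (F := fun n => E n × (T n × T n))
      (f := fun n (y : E n × (T n × (T n × T n))) => (y.1, y.2.2)) hOk (by (repeat' (first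
          | apply DefP.nOne | apply DefP.nZero | apply DefP.nSucc | apply DefP.nAdd
          | apply DefP.nLt | apply DefP.nLe | apply DefP.nEq | apply DefP.hlf | apply DefP.p1le
          | apply DefP.p1 | apply DefP.p0 | apply DefP.aug | apply DefP.pth | apply DefP.nx
          | apply DefP.cnd | apply DefP.hmin | apply DefP.hit | apply DefP.cdn
          | apply DefP.firstEx | apply DefP.exN | apply DefP.end_ | apply DefP.isZero
          | apply DefP.isSucc | apply DefP.alt | apply DefP.exr | apply DefP.exl
          | apply DefP.side | apply DefP.oddCard | apply DefP.cardEq | apply DefP.cardLt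
          | apply DefP.cardLe | apply DefP.lst | apply DefP.fst | apply DefP.nxt
          | apply DefP.keyLe | apply DefP.keyLt | apply DefP.rtc | (apply DefP.app4; assumption)
          | (apply DefP.app3'; assumption) | (apply DefP.app3; assumption)
          | (apply DefP.app2; assumption) | (apply DefP.comp; assumption) | exact Tm.id
          | exact Tm.unit | apply Tm.fst | apply Tm.snd | apply Tm.app | exact DefP.const _
          | apply DefP.and | apply DefP.not | apply DefP.or | apply DefP.iff | apply DefP.adj
          | apply DefP.le | apply DefP.lt | apply DefP.eqFin | apply DefP.eq | apply DefP.rv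
          | apply DefP.imp | apply DefP.allFin | apply DefP.exFin | apply DefP.all
          | apply DefP.ex | assumption | (apply Tm.comp; assumption) | apply Tm.pair
          | apply Tm.lam)))

section walks
variable {q : ∀ n : ℕ, SimpleGraph (Fin n) → Ctx n → E n → T n → T n → Prop}
  {e : ∀ n : ℕ, SimpleGraph (Fin n) → Ctx n → E n → T n → T n → T n → Prop}

theorem DefP.zst (hq : DefP (E := fun n => E n × (T n × T n))
      (fun n G X y => q n G X y.1 y.2.1 y.2.2))
    (he : DefP (E := fun n => E n × (T n × (T n × T n)))
      (fun n G X y => e n G X y.1 y.2.1 y.2.2.1 y.2.2.2)) :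
    DefP (E := fun n => E n × (T n × ((T n × T n) × (T n × T n))))
      (fun n G X y => PMNC.zst (q n G X y.1) (e n G X y.1 y.2.1) y.2.2.1 y.2.2.2) := by
  unfold PMNC.zst
  refine DefP.and (DefP.nSucc ?_ ?_) (DefP.ex (DefP.and ?_ ?_))
  · (repeat' (first
      | apply DefP.nOne | apply DefP.nZero | apply DefP.nSucc | apply DefP.nAdd | apply DefP.nLt
      | apply DefP.nLe | apply DefP.nEq | apply DefP.hlf | apply DefP.p1le | apply DefP.p1
      | apply DefP.p0 | apply DefP.aug | apply DefP.pth | apply DefP.nx | apply DefP.cnd
      | apply DefP.hmin | apply DefP.hit | apply DefP.cdn | apply DefP.firstEx | apply DefP.exN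
      | apply DefP.end_ | apply DefP.isZero | apply DefP.isSucc | apply DefP.alt
      | apply DefP.exr | apply DefP.exl | apply DefP.side | apply DefP.oddCard
      | apply DefP.cardEq | apply DefP.cardLt | apply DefP.cardLe | apply DefP.lst
      | apply DefP.fst | apply DefP.nxt | apply DefP.keyLe | apply DefP.keyLt | apply DefP.rtc
      | (apply DefP.app4; assumption) | (apply DefP.app3'; assumption)
      | (apply DefP.app3; assumption) | (apply DefP.app2; assumption)
      | (apply DefP.comp; assumption) | exact Tm.id | exact Tm.unit | apply Tm.fst
      | apply Tm.snd | apply Tm.app | exact DefP.const _ | apply DefP.and | apply DefP.not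
      | apply DefP.or | apply DefP.iff | apply DefP.adj | apply DefP.le | apply DefP.lt
      | apply DefP.eqFin | apply DefP.eq | apply DefP.rv | apply DefP.imp | apply DefP.allFin
      | apply DefP.exFin | apply DefP.all | apply DefP.ex | assumption
      | (apply Tm.comp; assumption) | apply Tm.pair | apply Tm.lam))
  · (repeat' (first
      | apply DefP.nOne | apply DefP.nZero | apply DefP.nSucc | apply DefP.nAdd | apply DefP.nLt
      | apply DefP.nLe | apply DefP.nEq | apply DefP.hlf | apply DefP.p1le | apply DefP.p1
      | apply DefP.p0 | apply DefP.aug | apply DefP.pth | apply DefP.nx | apply DefP.cnd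
      | apply DefP.hmin | apply DefP.hit | apply DefP.cdn | apply DefP.firstEx | apply DefP.exN
      | apply DefP.end_ | apply DefP.isZero | apply DefP.isSucc | apply DefP.alt
      | apply DefP.exr | apply DefP.exl | apply DefP.side | apply DefP.oddCard
      | apply DefP.cardEq | apply DefP.cardLt | apply DefP.cardLe | apply DefP.lst
      | apply DefP.fst | apply DefP.nxt | apply DefP.keyLe | apply DefP.keyLt | apply DefP.rtc
      | (apply DefP.app4; assumption) | (apply DefP.app3'; assumption)
      | (apply DefP.app3; assumption) | (apply DefP.app2; assumption)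
      | (apply DefP.comp; assumption) | exact Tm.id | exact Tm.unit | apply Tm.fst
      | apply Tm.snd | apply Tm.app | exact DefP.const _ | apply DefP.and | apply DefP.not
      | apply DefP.or | apply DefP.iff | apply DefP.adj | apply DefP.le | apply DefP.lt
      | apply DefP.eqFin | apply DefP.eq | apply DefP.rv | apply DefP.imp | apply DefP.allFin
      | apply DefP.exFin | apply DefP.all | apply DefP.ex | assumption
      | (apply Tm.comp; assumption) | apply Tm.pair | apply Tm.lam))
  · exact DefP.comp (F := fun n => E n × (T n × T n))
      (f := fun n (y : (E n × (T n × ((T n × T n) × (T n × T n)))) × T n) =>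
        (y.1.1, (y.1.2.2.1.2, y.2))) hq (by (repeat' (first
            | apply DefP.nOne | apply DefP.nZero | apply DefP.nSucc | apply DefP.nAdd
            | apply DefP.nLt | apply DefP.nLe | apply DefP.nEq | apply DefP.hlf
            | apply DefP.p1le | apply DefP.p1 | apply DefP.p0 | apply DefP.aug | apply DefP.pth
            | apply DefP.nx | apply DefP.cnd | apply DefP.hmin | apply DefP.hit | apply DefP.cdn
            | apply DefP.firstEx | apply DefP.exN | apply DefP.end_ | apply DefP.isZero
            | apply DefP.isSucc | apply DefP.alt | apply DefP.exr | apply DefP.exl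
            | apply DefP.side | apply DefP.oddCard | apply DefP.cardEq | apply DefP.cardLt
            | apply DefP.cardLe | apply DefP.lst | apply DefP.fst | apply DefP.nxt
            | apply DefP.keyLe | apply DefP.keyLt | apply DefP.rtc
            | (apply DefP.app4; assumption) | (apply DefP.app3'; assumption)
            | (apply DefP.app3; assumption) | (apply DefP.app2; assumption)
            | (apply DefP.comp; assumption) | exact Tm.id | exact Tm.unit | apply Tm.fst
            | apply Tm.snd | apply Tm.app | exact DefP.const _ | apply DefP.and | apply DefP.not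
            | apply DefP.or | apply DefP.iff | apply DefP.adj | apply DefP.le | apply DefP.lt
            | apply DefP.eqFin | apply DefP.eq | apply DefP.rv | apply DefP.imp
            | apply DefP.allFin | apply DefP.exFin | apply DefP.all | apply DefP.ex | assumption
            | (apply Tm.comp; assumption) | apply Tm.pair | apply Tm.lam)))
  · exact DefP.comp (F := fun n => E n × (T n × (T n × T n)))
      (f := fun n (y : (E n × (T n × ((T n × T n) × (T n × T n)))) × T n) =>
        (y.1.1, (y.1.2.1, (y.2, y.1.2.2.2.2)))) he (by (repeat' (first
            | apply DefP.nOne | apply DefP.nZero | apply DefP.nSucc | apply DefP.nAdd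
            | apply DefP.nLt | apply DefP.nLe | apply DefP.nEq | apply DefP.hlf
            | apply DefP.p1le | apply DefP.p1 | apply DefP.p0 | apply DefP.aug | apply DefP.pth
            | apply DefP.nx | apply DefP.cnd | apply DefP.hmin | apply DefP.hit | apply DefP.cdn
            | apply DefP.firstEx | apply DefP.exN | apply DefP.end_ | apply DefP.isZero
            | apply DefP.isSucc | apply DefP.alt | apply DefP.exr | apply DefP.exl
            | apply DefP.side | apply DefP.oddCard | apply DefP.cardEq | apply DefP.cardLt
            | apply DefP.cardLe | apply DefP.lst | apply DefP.fst | apply DefP.nxt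
            | apply DefP.keyLe | apply DefP.keyLt | apply DefP.rtc
            | (apply DefP.app4; assumption) | (apply DefP.app3'; assumption)
            | (apply DefP.app3; assumption) | (apply DefP.app2; assumption)
            | (apply DefP.comp; assumption) | exact Tm.id | exact Tm.unit | apply Tm.fst
            | apply Tm.snd | apply Tm.app | exact DefP.const _ | apply DefP.and | apply DefP.not
            | apply DefP.or | apply DefP.iff | apply DefP.adj | apply DefP.le | apply DefP.lt
            | apply DefP.eqFin | apply DefP.eq | apply DefP.rv | apply DefP.imp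
            | apply DefP.allFin | apply DefP.exFin | apply DefP.all | apply DefP.ex | assumption
            | (apply Tm.comp; assumption) | apply Tm.pair | apply Tm.lam)))

theorem DefP.zlv (hq : DefP (E := fun n => E n × (T n × T n))
      (fun n G X y => q n G X y.1 y.2.1 y.2.2))
    (he : DefP (E := fun n => E n × (T n × (T n × T n)))
      (fun n G X y => e n G X y.1 y.2.1 y.2.2.1 y.2.2.2)) :
    DefP (E := fun n => E n × (T n × (T n × T n)))
      (fun n G X y => PMNC.zlv (q n G X y.1) (e n G X y.1 y.2.1) y.2.1 y.2.2.1 y.2.2.2) := by
  unfold PMNC.zlv
  refine DefP.ex (DefP.ex (DefP.and (DefP.nZero ?_) (DefP.and ?_ ?_)))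
  · (repeat' (first
      | apply DefP.nOne | apply DefP.nZero | apply DefP.nSucc | apply DefP.nAdd | apply DefP.nLt
      | apply DefP.nLe | apply DefP.nEq | apply DefP.hlf | apply DefP.p1le | apply DefP.p1
      | apply DefP.p0 | apply DefP.aug | apply DefP.pth | apply DefP.nx | apply DefP.cnd
      | apply DefP.hmin | apply DefP.hit | apply DefP.cdn | apply DefP.firstEx | apply DefP.exN
      | apply DefP.end_ | apply DefP.isZero | apply DefP.isSucc | apply DefP.alt
      | apply DefP.exr | apply DefP.exl | apply DefP.side | apply DefP.oddCard
      | apply DefP.cardEq | apply DefP.cardLt | apply DefP.cardLe | apply DefP.lst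
      | apply DefP.fst | apply DefP.nxt | apply DefP.keyLe | apply DefP.keyLt | apply DefP.rtc
      | (apply DefP.app4; assumption) | (apply DefP.app3'; assumption)
      | (apply DefP.app3; assumption) | (apply DefP.app2; assumption)
      | (apply DefP.comp; assumption) | exact Tm.id | exact Tm.unit | apply Tm.fst
      | apply Tm.snd | apply Tm.app | exact DefP.const _ | apply DefP.and | apply DefP.not
      | apply DefP.or | apply DefP.iff | apply DefP.adj | apply DefP.le | apply DefP.lt
      | apply DefP.eqFin | apply DefP.eq | apply DefP.rv | apply DefP.imp | apply DefP.allFin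
      | apply DefP.exFin | apply DefP.all | apply DefP.ex | assumption
      | (apply Tm.comp; assumption) | apply Tm.pair | apply Tm.lam))
  · exact DefP.comp (F := fun n => E n × (T n × T n))
      (f := fun n (y : ((E n × (T n × (T n × T n))) × T n) × T n) =>
        (y.1.1.1, (y.2, y.1.1.2.1))) hq (by (repeat' (first
            | apply DefP.nOne | apply DefP.nZero | apply DefP.nSucc | apply DefP.nAdd
            | apply DefP.nLt | apply DefP.nLe | apply DefP.nEq | apply DefP.hlf
            | apply DefP.p1le | apply DefP.p1 | apply DefP.p0 | apply DefP.aug | apply DefP.pth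
            | apply DefP.nx | apply DefP.cnd | apply DefP.hmin | apply DefP.hit | apply DefP.cdn
            | apply DefP.firstEx | apply DefP.exN | apply DefP.end_ | apply DefP.isZero
            | apply DefP.isSucc | apply DefP.alt | apply DefP.exr | apply DefP.exl
            | apply DefP.side | apply DefP.oddCard | apply DefP.cardEq | apply DefP.cardLt
            | apply DefP.cardLe | apply DefP.lst | apply DefP.fst | apply DefP.nxt
            | apply DefP.keyLe | apply DefP.keyLt | apply DefP.rtc
            | (apply DefP.app4; assumption) | (apply DefP.app3'; assumption)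
            | (apply DefP.app3; assumption) | (apply DefP.app2; assumption)
            | (apply DefP.comp; assumption) | exact Tm.id | exact Tm.unit | apply Tm.fst
            | apply Tm.snd | apply Tm.app | exact DefP.const _ | apply DefP.and | apply DefP.not
            | apply DefP.or | apply DefP.iff | apply DefP.adj | apply DefP.le | apply DefP.lt
            | apply DefP.eqFin | apply DefP.eq | apply DefP.rv | apply DefP.imp
            | apply DefP.allFin | apply DefP.exFin | apply DefP.all | apply DefP.ex | assumption
            | (apply Tm.comp; assumption) | apply Tm.pair | apply Tm.lam)))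
  · refine DefP.rtc (S := fun n => T n × T n)
      (R := fun n G X (y : ((E n × (T n × (T n × T n))) × T n) × T n) =>
        PMNC.zst (q n G X y.1.1.1) (e n G X y.1.1.1 y.1.1.2.1)) ?_ ?_ ?_
    · exact DefP.comp (F := fun n => E n × (T n × ((T n × T n) × (T n × T n))))
        (f := fun n (y : (((E n × (T n × (T n × T n))) × T n) × T n) ×
          ((T n × T n) × (T n × T n))) => (y.1.1.1.1, (y.1.1.1.2.1, y.2)))
        (DefP.zst hq he) (by (repeat' (first
            | apply DefP.nOne | apply DefP.nZero | apply DefP.nSucc | apply DefP.nAdd
            | apply DefP.nLt | apply DefP.nLe | apply DefP.nEq | apply DefP.hlf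
            | apply DefP.p1le | apply DefP.p1 | apply DefP.p0 | apply DefP.aug | apply DefP.pth
            | apply DefP.nx | apply DefP.cnd | apply DefP.hmin | apply DefP.hit | apply DefP.cdn
            | apply DefP.firstEx | apply DefP.exN | apply DefP.end_ | apply DefP.isZero
            | apply DefP.isSucc | apply DefP.alt | apply DefP.exr | apply DefP.exl
            | apply DefP.side | apply DefP.oddCard | apply DefP.cardEq | apply DefP.cardLt
            | apply DefP.cardLe | apply DefP.lst | apply DefP.fst | apply DefP.nxt
            | apply DefP.keyLe | apply DefP.keyLt | apply DefP.rtc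
            | (apply DefP.app4; assumption) | (apply DefP.app3'; assumption)
            | (apply DefP.app3; assumption) | (apply DefP.app2; assumption)
            | (apply DefP.comp; assumption) | exact Tm.id | exact Tm.unit | apply Tm.fst
            | apply Tm.snd | apply Tm.app | exact DefP.const _ | apply DefP.and | apply DefP.not
            | apply DefP.or | apply DefP.iff | apply DefP.adj | apply DefP.le | apply DefP.lt
            | apply DefP.eqFin | apply DefP.eq | apply DefP.rv | apply DefP.imp
            | apply DefP.allFin | apply DefP.exFin | apply DefP.all | apply DefP.ex | assumption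
            | (apply Tm.comp; assumption) | apply Tm.pair | apply Tm.lam)))
    · (repeat' (first
        | apply DefP.nOne | apply DefP.nZero | apply DefP.nSucc | apply DefP.nAdd
        | apply DefP.nLt | apply DefP.nLe | apply DefP.nEq | apply DefP.hlf | apply DefP.p1le
        | apply DefP.p1 | apply DefP.p0 | apply DefP.aug | apply DefP.pth | apply DefP.nx
        | apply DefP.cnd | apply DefP.hmin | apply DefP.hit | apply DefP.cdn
        | apply DefP.firstEx | apply DefP.exN | apply DefP.end_ | apply DefP.isZero
        | apply DefP.isSucc | apply DefP.alt | apply DefP.exr | apply DefP.exl | apply DefP.side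
        | apply DefP.oddCard | apply DefP.cardEq | apply DefP.cardLt | apply DefP.cardLe
        | apply DefP.lst | apply DefP.fst | apply DefP.nxt | apply DefP.keyLe | apply DefP.keyLt
        | apply DefP.rtc | (apply DefP.app4; assumption) | (apply DefP.app3'; assumption)
        | (apply DefP.app3; assumption) | (apply DefP.app2; assumption)
        | (apply DefP.comp; assumption) | exact Tm.id | exact Tm.unit | apply Tm.fst
        | apply Tm.snd | apply Tm.app | exact DefP.const _ | apply DefP.and | apply DefP.not
        | apply DefP.or | apply DefP.iff | apply DefP.adj | apply DefP.le | apply DefP.lt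
        | apply DefP.eqFin | apply DefP.eq | apply DefP.rv | apply DefP.imp | apply DefP.allFin
        | apply DefP.exFin | apply DefP.all | apply DefP.ex | assumption
        | (apply Tm.comp; assumption) | apply Tm.pair | apply Tm.lam))
    · (repeat' (first
        | apply DefP.nOne | apply DefP.nZero | apply DefP.nSucc | apply DefP.nAdd
        | apply DefP.nLt | apply DefP.nLe | apply DefP.nEq | apply DefP.hlf | apply DefP.p1le
        | apply DefP.p1 | apply DefP.p0 | apply DefP.aug | apply DefP.pth | apply DefP.nx
        | apply DefP.cnd | apply DefP.hmin | apply DefP.hit | apply DefP.cdn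
        | apply DefP.firstEx | apply DefP.exN | apply DefP.end_ | apply DefP.isZero
        | apply DefP.isSucc | apply DefP.alt | apply DefP.exr | apply DefP.exl | apply DefP.side
        | apply DefP.oddCard | apply DefP.cardEq | apply DefP.cardLt | apply DefP.cardLe
        | apply DefP.lst | apply DefP.fst | apply DefP.nxt | apply DefP.keyLe | apply DefP.keyLt
        | apply DefP.rtc | (apply DefP.app4; assumption) | (apply DefP.app3'; assumption)
        | (apply DefP.app3; assumption) | (apply DefP.app2; assumption)
        | (apply DefP.comp; assumption) | exact Tm.id | exact Tm.unit | apply Tm.fst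
        | apply Tm.snd | apply Tm.app | exact DefP.const _ | apply DefP.and | apply DefP.not
        | apply DefP.or | apply DefP.iff | apply DefP.adj | apply DefP.le | apply DefP.lt
        | apply DefP.eqFin | apply DefP.eq | apply DefP.rv | apply DefP.imp | apply DefP.allFin
        | apply DefP.exFin | apply DefP.all | apply DefP.ex | assumption
        | (apply Tm.comp; assumption) | apply Tm.pair | apply Tm.lam))

theorem DefP.zds (hq : DefP (E := fun n => E n × (T n × T n))
      (fun n G X y => q n G X y.1 y.2.1 y.2.2))
    (he : DefP (E := fun n => E n × (T n × (T n × T n)))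
      (fun n G X y => e n G X y.1 y.2.1 y.2.2.1 y.2.2.2)) :
    DefP (E := fun n => E n × (T n × (T n × T n)))
      (fun n G X y => PMNC.zds (q n G X y.1) (e n G X y.1 y.2.1) y.2.1 y.2.2.1 y.2.2.2) := by
  unfold PMNC.zds
  have h := DefP.zlv hq he
  refine DefP.and h (DefP.all (DefP.imp ?_ (DefP.nLe ?_ ?_)))
  · exact DefP.comp (F := fun n => E n × (T n × (T n × T n)))
      (f := fun n (y : (E n × (T n × (T n × T n))) × T n) =>
        (y.1.1, (y.1.2.1, (y.2, y.1.2.2.2)))) h (by (repeat' (first
            | apply DefP.nOne | apply DefP.nZero | apply DefP.nSucc | apply DefP.nAdd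
            | apply DefP.nLt | apply DefP.nLe | apply DefP.nEq | apply DefP.hlf
            | apply DefP.p1le | apply DefP.p1 | apply DefP.p0 | apply DefP.aug | apply DefP.pth
            | apply DefP.nx | apply DefP.cnd | apply DefP.hmin | apply DefP.hit | apply DefP.cdn
            | apply DefP.firstEx | apply DefP.exN | apply DefP.end_ | apply DefP.isZero
            | apply DefP.isSucc | apply DefP.alt | apply DefP.exr | apply DefP.exl
            | apply DefP.side | apply DefP.oddCard | apply DefP.cardEq | apply DefP.cardLt
            | apply DefP.cardLe | apply DefP.lst | apply DefP.fst | apply DefP.nxt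
            | apply DefP.keyLe | apply DefP.keyLt | apply DefP.rtc
            | (apply DefP.app4; assumption) | (apply DefP.app3'; assumption)
            | (apply DefP.app3; assumption) | (apply DefP.app2; assumption)
            | (apply DefP.comp; assumption) | exact Tm.id | exact Tm.unit | apply Tm.fst
            | apply Tm.snd | apply Tm.app | exact DefP.const _ | apply DefP.and | apply DefP.not
            | apply DefP.or | apply DefP.iff | apply DefP.adj | apply DefP.le | apply DefP.lt
            | apply DefP.eqFin | apply DefP.eq | apply DefP.rv | apply DefP.imp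
            | apply DefP.allFin | apply DefP.exFin | apply DefP.all | apply DefP.ex | assumption
            | (apply Tm.comp; assumption) | apply Tm.pair | apply Tm.lam)))
  · (repeat' (first
      | apply DefP.nOne | apply DefP.nZero | apply DefP.nSucc | apply DefP.nAdd | apply DefP.nLt
      | apply DefP.nLe | apply DefP.nEq | apply DefP.hlf | apply DefP.p1le | apply DefP.p1
      | apply DefP.p0 | apply DefP.aug | apply DefP.pth | apply DefP.nx | apply DefP.cnd
      | apply DefP.hmin | apply DefP.hit | apply DefP.cdn | apply DefP.firstEx | apply DefP.exN
      | apply DefP.end_ | apply DefP.isZero | apply DefP.isSucc | apply DefP.alt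
      | apply DefP.exr | apply DefP.exl | apply DefP.side | apply DefP.oddCard
      | apply DefP.cardEq | apply DefP.cardLt | apply DefP.cardLe | apply DefP.lst
      | apply DefP.fst | apply DefP.nxt | apply DefP.keyLe | apply DefP.keyLt | apply DefP.rtc
      | (apply DefP.app4; assumption) | (apply DefP.app3'; assumption)
      | (apply DefP.app3; assumption) | (apply DefP.app2; assumption)
      | (apply DefP.comp; assumption) | exact Tm.id | exact Tm.unit | apply Tm.fst
      | apply Tm.snd | apply Tm.app | exact DefP.const _ | apply DefP.and | apply DefP.not
      | apply DefP.or | apply DefP.iff | apply DefP.adj | apply DefP.le | apply DefP.lt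
      | apply DefP.eqFin | apply DefP.eq | apply DefP.rv | apply DefP.imp | apply DefP.allFin
      | apply DefP.exFin | apply DefP.all | apply DefP.ex | assumption
      | (apply Tm.comp; assumption) | apply Tm.pair | apply Tm.lam))
  · (repeat' (first
      | apply DefP.nOne | apply DefP.nZero | apply DefP.nSucc | apply DefP.nAdd | apply DefP.nLt
      | apply DefP.nLe | apply DefP.nEq | apply DefP.hlf | apply DefP.p1le | apply DefP.p1
      | apply DefP.p0 | apply DefP.aug | apply DefP.pth | apply DefP.nx | apply DefP.cnd
      | apply DefP.hmin | apply DefP.hit | apply DefP.cdn | apply DefP.firstEx | apply DefP.exN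
      | apply DefP.end_ | apply DefP.isZero | apply DefP.isSucc | apply DefP.alt
      | apply DefP.exr | apply DefP.exl | apply DefP.side | apply DefP.oddCard
      | apply DefP.cardEq | apply DefP.cardLt | apply DefP.cardLe | apply DefP.lst
      | apply DefP.fst | apply DefP.nxt | apply DefP.keyLe | apply DefP.keyLt | apply DefP.rtc
      | (apply DefP.app4; assumption) | (apply DefP.app3'; assumption)
      | (apply DefP.app3; assumption) | (apply DefP.app2; assumption)
      | (apply DefP.comp; assumption) | exact Tm.id | exact Tm.unit | apply Tm.fst
      | apply Tm.snd | apply Tm.app | exact DefP.const _ | apply DefP.and | apply DefP.not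
      | apply DefP.or | apply DefP.iff | apply DefP.adj | apply DefP.le | apply DefP.lt
      | apply DefP.eqFin | apply DefP.eq | apply DefP.rv | apply DefP.imp | apply DefP.allFin
      | apply DefP.exFin | apply DefP.all | apply DefP.ex | assumption
      | (apply Tm.comp; assumption) | apply Tm.pair | apply Tm.lam))

theorem DefP.zgd (hq : DefP (E := fun n => E n × (T n × T n))
      (fun n G X y => q n G X y.1 y.2.1 y.2.2))
    (he : DefP (E := fun n => E n × (T n × (T n × T n)))
      (fun n G X y => e n G X y.1 y.2.1 y.2.2.1 y.2.2.2)) :
    DefP (E := fun n => E n × (T n × (T n × (T n × T n))))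
      (fun n G X y => PMNC.zgd (q n G X y.1) (e n G X y.1 y.2.1) y.2.1 y.2.2.1 y.2.2.2) := by
  unfold PMNC.zgd
  have h := DefP.zds hq he
  refine DefP.and ?_ (DefP.and ?_ (DefP.ex (DefP.ex (DefP.and ?_ (DefP.and ?_ (DefP.nSucc ?_ ?_))))))
  · exact DefP.comp (F := fun n => E n × (T n × T n))
      (f := fun n (y : E n × (T n × (T n × (T n × T n)))) => (y.1, (y.2.2.1, y.2.2.2.1))) hq
      (by (repeat' (first
          | apply DefP.nOne | apply DefP.nZero | apply DefP.nSucc | apply DefP.nAdd
          | apply DefP.nLt | apply DefP.nLe | apply DefP.nEq | apply DefP.hlf | apply DefP.p1le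
          | apply DefP.p1 | apply DefP.p0 | apply DefP.aug | apply DefP.pth | apply DefP.nx
          | apply DefP.cnd | apply DefP.hmin | apply DefP.hit | apply DefP.cdn
          | apply DefP.firstEx | apply DefP.exN | apply DefP.end_ | apply DefP.isZero
          | apply DefP.isSucc | apply DefP.alt | apply DefP.exr | apply DefP.exl
          | apply DefP.side | apply DefP.oddCard | apply DefP.cardEq | apply DefP.cardLt
          | apply DefP.cardLe | apply DefP.lst | apply DefP.fst | apply DefP.nxt
          | apply DefP.keyLe | apply DefP.keyLt | apply DefP.rtc | (apply DefP.app4; assumption)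
          | (apply DefP.app3'; assumption) | (apply DefP.app3; assumption)
          | (apply DefP.app2; assumption) | (apply DefP.comp; assumption) | exact Tm.id
          | exact Tm.unit | apply Tm.fst | apply Tm.snd | apply Tm.app | exact DefP.const _
          | apply DefP.and | apply DefP.not | apply DefP.or | apply DefP.iff | apply DefP.adj
          | apply DefP.le | apply DefP.lt | apply DefP.eqFin | apply DefP.eq | apply DefP.rv
          | apply DefP.imp | apply DefP.allFin | apply DefP.exFin | apply DefP.all
          | apply DefP.ex | assumption | (apply Tm.comp; assumption) | apply Tm.pair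
          | apply Tm.lam)))
  · exact DefP.comp (F := fun n => E n × (T n × (T n × T n)))
      (f := fun n (y : E n × (T n × (T n × (T n × T n)))) => (y.1, (y.2.1, y.2.2.2))) he
      (by (repeat' (first
          | apply DefP.nOne | apply DefP.nZero | apply DefP.nSucc | apply DefP.nAdd
          | apply DefP.nLt | apply DefP.nLe | apply DefP.nEq | apply DefP.hlf | apply DefP.p1le
          | apply DefP.p1 | apply DefP.p0 | apply DefP.aug | apply DefP.pth | apply DefP.nx
          | apply DefP.cnd | apply DefP.hmin | apply DefP.hit | apply DefP.cdn
          | apply DefP.firstEx | apply DefP.exN | apply DefP.end_ | apply DefP.isZero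
          | apply DefP.isSucc | apply DefP.alt | apply DefP.exr | apply DefP.exl
          | apply DefP.side | apply DefP.oddCard | apply DefP.cardEq | apply DefP.cardLt
          | apply DefP.cardLe | apply DefP.lst | apply DefP.fst | apply DefP.nxt
          | apply DefP.keyLe | apply DefP.keyLt | apply DefP.rtc | (apply DefP.app4; assumption)
          | (apply DefP.app3'; assumption) | (apply DefP.app3; assumption)
          | (apply DefP.app2; assumption) | (apply DefP.comp; assumption) | exact Tm.id
          | exact Tm.unit | apply Tm.fst | apply Tm.snd | apply Tm.app | exact DefP.const _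
          | apply DefP.and | apply DefP.not | apply DefP.or | apply DefP.iff | apply DefP.adj
          | apply DefP.le | apply DefP.lt | apply DefP.eqFin | apply DefP.eq | apply DefP.rv
          | apply DefP.imp | apply DefP.allFin | apply DefP.exFin | apply DefP.all
          | apply DefP.ex | assumption | (apply Tm.comp; assumption) | apply Tm.pair
          | apply Tm.lam)))
  · exact DefP.comp (F := fun n => E n × (T n × (T n × T n)))
      (f := fun n (y : ((E n × (T n × (T n × (T n × T n)))) × T n) × T n) =>
        (y.1.1.1, (y.1.1.2.1, (y.1.2, y.1.1.2.2.1)))) h (by (repeat' (first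
            | apply DefP.nOne | apply DefP.nZero | apply DefP.nSucc | apply DefP.nAdd
            | apply DefP.nLt | apply DefP.nLe | apply DefP.nEq | apply DefP.hlf
            | apply DefP.p1le | apply DefP.p1 | apply DefP.p0 | apply DefP.aug | apply DefP.pth
            | apply DefP.nx | apply DefP.cnd | apply DefP.hmin | apply DefP.hit | apply DefP.cdn
            | apply DefP.firstEx | apply DefP.exN | apply DefP.end_ | apply DefP.isZero
            | apply DefP.isSucc | apply DefP.alt | apply DefP.exr | apply DefP.exl
            | apply DefP.side | apply DefP.oddCard | apply DefP.cardEq | apply DefP.cardLt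
            | apply DefP.cardLe | apply DefP.lst | apply DefP.fst | apply DefP.nxt
            | apply DefP.keyLe | apply DefP.keyLt | apply DefP.rtc
            | (apply DefP.app4; assumption) | (apply DefP.app3'; assumption)
            | (apply DefP.app3; assumption) | (apply DefP.app2; assumption)
            | (apply DefP.comp; assumption) | exact Tm.id | exact Tm.unit | apply Tm.fst
            | apply Tm.snd | apply Tm.app | exact DefP.const _ | apply DefP.and | apply DefP.not
            | apply DefP.or | apply DefP.iff | apply DefP.adj | apply DefP.le | apply DefP.lt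
            | apply DefP.eqFin | apply DefP.eq | apply DefP.rv | apply DefP.imp
            | apply DefP.allFin | apply DefP.exFin | apply DefP.all | apply DefP.ex | assumption
            | (apply Tm.comp; assumption) | apply Tm.pair | apply Tm.lam)))
  · exact DefP.comp (F := fun n => E n × (T n × (T n × T n)))
      (f := fun n (y : ((E n × (T n × (T n × (T n × T n)))) × T n) × T n) =>
        (y.1.1.1, (y.1.1.2.1, (y.2, y.1.1.2.2.2.2)))) h (by (repeat' (first
            | apply DefP.nOne | apply DefP.nZero | apply DefP.nSucc | apply DefP.nAdd
            | apply DefP.nLt | apply DefP.nLe | apply DefP.nEq | apply DefP.hlf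
            | apply DefP.p1le | apply DefP.p1 | apply DefP.p0 | apply DefP.aug | apply DefP.pth
            | apply DefP.nx | apply DefP.cnd | apply DefP.hmin | apply DefP.hit | apply DefP.cdn
            | apply DefP.firstEx | apply DefP.exN | apply DefP.end_ | apply DefP.isZero
            | apply DefP.isSucc | apply DefP.alt | apply DefP.exr | apply DefP.exl
            | apply DefP.side | apply DefP.oddCard | apply DefP.cardEq | apply DefP.cardLt
            | apply DefP.cardLe | apply DefP.lst | apply DefP.fst | apply DefP.nxt
            | apply DefP.keyLe | apply DefP.keyLt | apply DefP.rtc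
            | (apply DefP.app4; assumption) | (apply DefP.app3'; assumption)
            | (apply DefP.app3; assumption) | (apply DefP.app2; assumption)
            | (apply DefP.comp; assumption) | exact Tm.id | exact Tm.unit | apply Tm.fst
            | apply Tm.snd | apply Tm.app | exact DefP.const _ | apply DefP.and | apply DefP.not
            | apply DefP.or | apply DefP.iff | apply DefP.adj | apply DefP.le | apply DefP.lt
            | apply DefP.eqFin | apply DefP.eq | apply DefP.rv | apply DefP.imp
            | apply DefP.allFin | apply DefP.exFin | apply DefP.all | apply DefP.ex | assumption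
            | (apply Tm.comp; assumption) | apply Tm.pair | apply Tm.lam)))
  · (repeat' (first
      | apply DefP.nOne | apply DefP.nZero | apply DefP.nSucc | apply DefP.nAdd | apply DefP.nLt
      | apply DefP.nLe | apply DefP.nEq | apply DefP.hlf | apply DefP.p1le | apply DefP.p1
      | apply DefP.p0 | apply DefP.aug | apply DefP.pth | apply DefP.nx | apply DefP.cnd
      | apply DefP.hmin | apply DefP.hit | apply DefP.cdn | apply DefP.firstEx | apply DefP.exN
      | apply DefP.end_ | apply DefP.isZero | apply DefP.isSucc | apply DefP.alt
      | apply DefP.exr | apply DefP.exl | apply DefP.side | apply DefP.oddCard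
      | apply DefP.cardEq | apply DefP.cardLt | apply DefP.cardLe | apply DefP.lst
      | apply DefP.fst | apply DefP.nxt | apply DefP.keyLe | apply DefP.keyLt | apply DefP.rtc
      | (apply DefP.app4; assumption) | (apply DefP.app3'; assumption)
      | (apply DefP.app3; assumption) | (apply DefP.app2; assumption)
      | (apply DefP.comp; assumption) | exact Tm.id | exact Tm.unit | apply Tm.fst
      | apply Tm.snd | apply Tm.app | exact DefP.const _ | apply DefP.and | apply DefP.not
      | apply DefP.or | apply DefP.iff | apply DefP.adj | apply DefP.le | apply DefP.lt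
      | apply DefP.eqFin | apply DefP.eq | apply DefP.rv | apply DefP.imp | apply DefP.allFin
      | apply DefP.exFin | apply DefP.all | apply DefP.ex | assumption
      | (apply Tm.comp; assumption) | apply Tm.pair | apply Tm.lam))
  · (repeat' (first
      | apply DefP.nOne | apply DefP.nZero | apply DefP.nSucc | apply DefP.nAdd | apply DefP.nLt
      | apply DefP.nLe | apply DefP.nEq | apply DefP.hlf | apply DefP.p1le | apply DefP.p1
      | apply DefP.p0 | apply DefP.aug | apply DefP.pth | apply DefP.nx | apply DefP.cnd
      | apply DefP.hmin | apply DefP.hit | apply DefP.cdn | apply DefP.firstEx | apply DefP.exN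
      | apply DefP.end_ | apply DefP.isZero | apply DefP.isSucc | apply DefP.alt
      | apply DefP.exr | apply DefP.exl | apply DefP.side | apply DefP.oddCard
      | apply DefP.cardEq | apply DefP.cardLt | apply DefP.cardLe | apply DefP.lst
      | apply DefP.fst | apply DefP.nxt | apply DefP.keyLe | apply DefP.keyLt | apply DefP.rtc
      | (apply DefP.app4; assumption) | (apply DefP.app3'; assumption)
      | (apply DefP.app3; assumption) | (apply DefP.app2; assumption)
      | (apply DefP.comp; assumption) | exact Tm.id | exact Tm.unit | apply Tm.fst
      | apply Tm.snd | apply Tm.app | exact DefP.const _ | apply DefP.and | apply DefP.not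
      | apply DefP.or | apply DefP.iff | apply DefP.adj | apply DefP.le | apply DefP.lt
      | apply DefP.eqFin | apply DefP.eq | apply DefP.rv | apply DefP.imp | apply DefP.allFin
      | apply DefP.exFin | apply DefP.all | apply DefP.ex | assumption
      | (apply Tm.comp; assumption) | apply Tm.pair | apply Tm.lam))

theorem DefP.znx (hq : DefP (E := fun n => E n × (T n × T n))
      (fun n G X y => q n G X y.1 y.2.1 y.2.2))
    (he : DefP (E := fun n => E n × (T n × (T n × T n)))
      (fun n G X y => e n G X y.1 y.2.1 y.2.2.1 y.2.2.2)) :
    DefP (E := fun n => E n × (T n × (T n × (T n × T n))))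
      (fun n G X y => PMNC.znx (q n G X y.1) (e n G X y.1 y.2.1) y.2.1 y.2.2.1 y.2.2.2) := by
  unfold PMNC.znx
  have h := DefP.zgd hq he
  refine DefP.and h (DefP.all (F := fun n => T n × T n) (DefP.imp ?_
    (DefP.nLe (F := fun n => T n × T n) (H := fun n => T n × T n) ?_ ?_)))
  · exact DefP.comp (F := fun n => E n × (T n × (T n × (T n × T n))))
      (f := fun n (y : (E n × (T n × (T n × (T n × T n)))) × (T n × T n)) =>
        (y.1.1, (y.1.2.1, (y.1.2.2.1, y.2)))) h (by (repeat' (first
            | apply DefP.nOne | apply DefP.nZero | apply DefP.nSucc | apply DefP.nAdd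
            | apply DefP.nLt | apply DefP.nLe | apply DefP.nEq | apply DefP.hlf
            | apply DefP.p1le | apply DefP.p1 | apply DefP.p0 | apply DefP.aug | apply DefP.pth
            | apply DefP.nx | apply DefP.cnd | apply DefP.hmin | apply DefP.hit | apply DefP.cdn
            | apply DefP.firstEx | apply DefP.exN | apply DefP.end_ | apply DefP.isZero
            | apply DefP.isSucc | apply DefP.alt | apply DefP.exr | apply DefP.exl
            | apply DefP.side | apply DefP.oddCard | apply DefP.cardEq | apply DefP.cardLt
            | apply DefP.cardLe | apply DefP.lst | apply DefP.fst | apply DefP.nxt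
            | apply DefP.keyLe | apply DefP.keyLt | apply DefP.rtc
            | (apply DefP.app4; assumption) | (apply DefP.app3'; assumption)
            | (apply DefP.app3; assumption) | (apply DefP.app2; assumption)
            | (apply DefP.comp; assumption) | exact Tm.id | exact Tm.unit | apply Tm.fst
            | apply Tm.snd | apply Tm.app | exact DefP.const _ | apply DefP.and | apply DefP.not
            | apply DefP.or | apply DefP.iff | apply DefP.adj | apply DefP.le | apply DefP.lt
            | apply DefP.eqFin | apply DefP.eq | apply DefP.rv | apply DefP.imp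
            | apply DefP.allFin | apply DefP.exFin | apply DefP.all | apply DefP.ex | assumption
            | (apply Tm.comp; assumption) | apply Tm.pair | apply Tm.lam)))
  · (repeat' (first
      | apply DefP.nOne | apply DefP.nZero | apply DefP.nSucc | apply DefP.nAdd | apply DefP.nLt
      | apply DefP.nLe | apply DefP.nEq | apply DefP.hlf | apply DefP.p1le | apply DefP.p1
      | apply DefP.p0 | apply DefP.aug | apply DefP.pth | apply DefP.nx | apply DefP.cnd
      | apply DefP.hmin | apply DefP.hit | apply DefP.cdn | apply DefP.firstEx | apply DefP.exN
      | apply DefP.end_ | apply DefP.isZero | apply DefP.isSucc | apply DefP.alt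
      | apply DefP.exr | apply DefP.exl | apply DefP.side | apply DefP.oddCard
      | apply DefP.cardEq | apply DefP.cardLt | apply DefP.cardLe | apply DefP.lst
      | apply DefP.fst | apply DefP.nxt | apply DefP.keyLe | apply DefP.keyLt | apply DefP.rtc
      | (apply DefP.app4; assumption) | (apply DefP.app3'; assumption)
      | (apply DefP.app3; assumption) | (apply DefP.app2; assumption)
      | (apply DefP.comp; assumption) | exact Tm.id | exact Tm.unit | apply Tm.fst
      | apply Tm.snd | apply Tm.app | exact DefP.const _ | apply DefP.and | apply DefP.not
      | apply DefP.or | apply DefP.iff | apply DefP.adj | apply DefP.le | apply DefP.lt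
      | apply DefP.eqFin | apply DefP.eq | apply DefP.rv | apply DefP.imp | apply DefP.allFin
      | apply DefP.exFin | apply DefP.all | apply DefP.ex | assumption
      | (apply Tm.comp; assumption) | apply Tm.pair | apply Tm.lam))
  · (repeat' (first
      | apply DefP.nOne | apply DefP.nZero | apply DefP.nSucc | apply DefP.nAdd | apply DefP.nLt
      | apply DefP.nLe | apply DefP.nEq | apply DefP.hlf | apply DefP.p1le | apply DefP.p1
      | apply DefP.p0 | apply DefP.aug | apply DefP.pth | apply DefP.nx | apply DefP.cnd
      | apply DefP.hmin | apply DefP.hit | apply DefP.cdn | apply DefP.firstEx | apply DefP.exN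
      | apply DefP.end_ | apply DefP.isZero | apply DefP.isSucc | apply DefP.alt
      | apply DefP.exr | apply DefP.exl | apply DefP.side | apply DefP.oddCard
      | apply DefP.cardEq | apply DefP.cardLt | apply DefP.cardLe | apply DefP.lst
      | apply DefP.fst | apply DefP.nxt | apply DefP.keyLe | apply DefP.keyLt | apply DefP.rtc
      | (apply DefP.app4; assumption) | (apply DefP.app3'; assumption)
      | (apply DefP.app3; assumption) | (apply DefP.app2; assumption)
      | (apply DefP.comp; assumption) | exact Tm.id | exact Tm.unit | apply Tm.fst
      | apply Tm.snd | apply Tm.app | exact DefP.const _ | apply DefP.and | apply DefP.not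
      | apply DefP.or | apply DefP.iff | apply DefP.adj | apply DefP.le | apply DefP.lt
      | apply DefP.eqFin | apply DefP.eq | apply DefP.rv | apply DefP.imp | apply DefP.allFin
      | apply DefP.exFin | apply DefP.all | apply DefP.ex | assumption
      | (apply Tm.comp; assumption) | apply Tm.pair | apply Tm.lam))

theorem DefP.zon (hq : DefP (E := fun n => E n × (T n × T n))
      (fun n G X y => q n G X y.1 y.2.1 y.2.2))
    (he : DefP (E := fun n => E n × (T n × (T n × T n)))
      (fun n G X y => e n G X y.1 y.2.1 y.2.2.1 y.2.2.2)) :
    DefP (E := fun n => E n × (T n × T n))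
      (fun n G X y => PMNC.zon (q n G X y.1) (e n G X y.1 y.2.1) y.2.1 y.2.2) := by
  unfold PMNC.zon
  refine DefP.rtc (R := fun n G X (y : E n × (T n × T n)) j j' =>
    ∃ i, PMNC.znx (q n G X y.1) (e n G X y.1 y.2.1) y.2.1 j (i, j')) (DefP.ex ?_) ?_ ?_
  · exact DefP.comp (F := fun n => E n × (T n × (T n × (T n × T n))))
      (f := fun n (y : ((E n × (T n × T n)) × (T n × T n)) × T n) =>
        (y.1.1.1, (y.1.1.2.1, (y.1.2.1, (y.2, y.1.2.2))))) (DefP.znx hq he) (by (repeat' (first
            | apply DefP.nOne | apply DefP.nZero | apply DefP.nSucc | apply DefP.nAdd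
            | apply DefP.nLt | apply DefP.nLe | apply DefP.nEq | apply DefP.hlf
            | apply DefP.p1le | apply DefP.p1 | apply DefP.p0 | apply DefP.aug | apply DefP.pth
            | apply DefP.nx | apply DefP.cnd | apply DefP.hmin | apply DefP.hit | apply DefP.cdn
            | apply DefP.firstEx | apply DefP.exN | apply DefP.end_ | apply DefP.isZero
            | apply DefP.isSucc | apply DefP.alt | apply DefP.exr | apply DefP.exl
            | apply DefP.side | apply DefP.oddCard | apply DefP.cardEq | apply DefP.cardLt
            | apply DefP.cardLe | apply DefP.lst | apply DefP.fst | apply DefP.nxt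
            | apply DefP.keyLe | apply DefP.keyLt | apply DefP.rtc
            | (apply DefP.app4; assumption) | (apply DefP.app3'; assumption)
            | (apply DefP.app3; assumption) | (apply DefP.app2; assumption)
            | (apply DefP.comp; assumption) | exact Tm.id | exact Tm.unit | apply Tm.fst
            | apply Tm.snd | apply Tm.app | exact DefP.const _ | apply DefP.and | apply DefP.not
            | apply DefP.or | apply DefP.iff | apply DefP.adj | apply DefP.le | apply DefP.lt
            | apply DefP.eqFin | apply DefP.eq | apply DefP.rv | apply DefP.imp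
            | apply DefP.allFin | apply DefP.exFin | apply DefP.all | apply DefP.ex | assumption
            | (apply Tm.comp; assumption) | apply Tm.pair | apply Tm.lam)))
  · (repeat' (first
      | apply DefP.nOne | apply DefP.nZero | apply DefP.nSucc | apply DefP.nAdd | apply DefP.nLt
      | apply DefP.nLe | apply DefP.nEq | apply DefP.hlf | apply DefP.p1le | apply DefP.p1
      | apply DefP.p0 | apply DefP.aug | apply DefP.pth | apply DefP.nx | apply DefP.cnd
      | apply DefP.hmin | apply DefP.hit | apply DefP.cdn | apply DefP.firstEx | apply DefP.exN
      | apply DefP.end_ | apply DefP.isZero | apply DefP.isSucc | apply DefP.alt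
      | apply DefP.exr | apply DefP.exl | apply DefP.side | apply DefP.oddCard
      | apply DefP.cardEq | apply DefP.cardLt | apply DefP.cardLe | apply DefP.lst
      | apply DefP.fst | apply DefP.nxt | apply DefP.keyLe | apply DefP.keyLt | apply DefP.rtc
      | (apply DefP.app4; assumption) | (apply DefP.app3'; assumption)
      | (apply DefP.app3; assumption) | (apply DefP.app2; assumption)
      | (apply DefP.comp; assumption) | exact Tm.id | exact Tm.unit | apply Tm.fst
      | apply Tm.snd | apply Tm.app | exact DefP.const _ | apply DefP.and | apply DefP.not
      | apply DefP.or | apply DefP.iff | apply DefP.adj | apply DefP.le | apply DefP.lt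
      | apply DefP.eqFin | apply DefP.eq | apply DefP.rv | apply DefP.imp | apply DefP.allFin
      | apply DefP.exFin | apply DefP.all | apply DefP.ex | assumption
      | (apply Tm.comp; assumption) | apply Tm.pair | apply Tm.lam))
  · (repeat' (first
      | apply DefP.nOne | apply DefP.nZero | apply DefP.nSucc | apply DefP.nAdd | apply DefP.nLt
      | apply DefP.nLe | apply DefP.nEq | apply DefP.hlf | apply DefP.p1le | apply DefP.p1
      | apply DefP.p0 | apply DefP.aug | apply DefP.pth | apply DefP.nx | apply DefP.cnd
      | apply DefP.hmin | apply DefP.hit | apply DefP.cdn | apply DefP.firstEx | apply DefP.exN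
      | apply DefP.end_ | apply DefP.isZero | apply DefP.isSucc | apply DefP.alt
      | apply DefP.exr | apply DefP.exl | apply DefP.side | apply DefP.oddCard
      | apply DefP.cardEq | apply DefP.cardLt | apply DefP.cardLe | apply DefP.lst
      | apply DefP.fst | apply DefP.nxt | apply DefP.keyLe | apply DefP.keyLt | apply DefP.rtc
      | (apply DefP.app4; assumption) | (apply DefP.app3'; assumption)
      | (apply DefP.app3; assumption) | (apply DefP.app2; assumption)
      | (apply DefP.comp; assumption) | exact Tm.id | exact Tm.unit | apply Tm.fst
      | apply Tm.snd | apply Tm.app | exact DefP.const _ | apply DefP.and | apply DefP.not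
      | apply DefP.or | apply DefP.iff | apply DefP.adj | apply DefP.le | apply DefP.lt
      | apply DefP.eqFin | apply DefP.eq | apply DefP.rv | apply DefP.imp | apply DefP.allFin
      | apply DefP.exFin | apply DefP.all | apply DefP.ex | assumption
      | (apply Tm.comp; assumption) | apply Tm.pair | apply Tm.lam))

theorem DefP.zN (hq : DefP (E := fun n => E n × (T n × T n))
      (fun n G X y => q n G X y.1 y.2.1 y.2.2))
    (he : DefP (E := fun n => E n × (T n × (T n × T n)))
      (fun n G X y => e n G X y.1 y.2.1 y.2.2.1 y.2.2.2)) :
    DefP (E := fun n => E n × (T n × (T n × T n)))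
      (fun n G X y => PMNC.zN (q n G X y.1) (e n G X y.1 y.2.1) y.2.1 y.2.2.1 y.2.2.2) := by
  unfold PMNC.zN
  refine DefP.ex (DefP.and ?_ ?_)
  · exact DefP.comp (F := fun n => E n × (T n × T n))
      (f := fun n (y : (E n × (T n × (T n × T n))) × T n) => (y.1.1, (y.1.2.1, y.2)))
      (DefP.zon hq he) (by (repeat' (first
          | apply DefP.nOne | apply DefP.nZero | apply DefP.nSucc | apply DefP.nAdd
          | apply DefP.nLt | apply DefP.nLe | apply DefP.nEq | apply DefP.hlf | apply DefP.p1le
          | apply DefP.p1 | apply DefP.p0 | apply DefP.aug | apply DefP.pth | apply DefP.nx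
          | apply DefP.cnd | apply DefP.hmin | apply DefP.hit | apply DefP.cdn
          | apply DefP.firstEx | apply DefP.exN | apply DefP.end_ | apply DefP.isZero
          | apply DefP.isSucc | apply DefP.alt | apply DefP.exr | apply DefP.exl
          | apply DefP.side | apply DefP.oddCard | apply DefP.cardEq | apply DefP.cardLt
          | apply DefP.cardLe | apply DefP.lst | apply DefP.fst | apply DefP.nxt
          | apply DefP.keyLe | apply DefP.keyLt | apply DefP.rtc | (apply DefP.app4; assumption)
          | (apply DefP.app3'; assumption) | (apply DefP.app3; assumption)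
          | (apply DefP.app2; assumption) | (apply DefP.comp; assumption) | exact Tm.id
          | exact Tm.unit | apply Tm.fst | apply Tm.snd | apply Tm.app | exact DefP.const _
          | apply DefP.and | apply DefP.not | apply DefP.or | apply DefP.iff | apply DefP.adj
          | apply DefP.le | apply DefP.lt | apply DefP.eqFin | apply DefP.eq | apply DefP.rv
          | apply DefP.imp | apply DefP.allFin | apply DefP.exFin | apply DefP.all
          | apply DefP.ex | assumption | (apply Tm.comp; assumption) | apply Tm.pair
          | apply Tm.lam)))
  · exact DefP.comp (F := fun n => E n × (T n × (T n × (T n × T n))))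
      (f := fun n (y : (E n × (T n × (T n × T n))) × T n) =>
        (y.1.1, (y.1.2.1, (y.2, y.1.2.2)))) (DefP.znx hq he) (by (repeat' (first
            | apply DefP.nOne | apply DefP.nZero | apply DefP.nSucc | apply DefP.nAdd
            | apply DefP.nLt | apply DefP.nLe | apply DefP.nEq | apply DefP.hlf
            | apply DefP.p1le | apply DefP.p1 | apply DefP.p0 | apply DefP.aug | apply DefP.pth
            | apply DefP.nx | apply DefP.cnd | apply DefP.hmin | apply DefP.hit | apply DefP.cdn
            | apply DefP.firstEx | apply DefP.exN | apply DefP.end_ | apply DefP.isZero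
            | apply DefP.isSucc | apply DefP.alt | apply DefP.exr | apply DefP.exl
            | apply DefP.side | apply DefP.oddCard | apply DefP.cardEq | apply DefP.cardLt
            | apply DefP.cardLe | apply DefP.lst | apply DefP.fst | apply DefP.nxt
            | apply DefP.keyLe | apply DefP.keyLt | apply DefP.rtc
            | (apply DefP.app4; assumption) | (apply DefP.app3'; assumption)
            | (apply DefP.app3; assumption) | (apply DefP.app2; assumption)
            | (apply DefP.comp; assumption) | exact Tm.id | exact Tm.unit | apply Tm.fst
            | apply Tm.snd | apply Tm.app | exact DefP.const _ | apply DefP.and | apply DefP.not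
            | apply DefP.or | apply DefP.iff | apply DefP.adj | apply DefP.le | apply DefP.lt
            | apply DefP.eqFin | apply DefP.eq | apply DefP.rv | apply DefP.imp
            | apply DefP.allFin | apply DefP.exFin | apply DefP.all | apply DefP.ex | assumption
            | (apply Tm.comp; assumption) | apply Tm.pair | apply Tm.lam)))

end walks

theorem DefP.pN (hp : Tm p)
    (hDu : DefP (E := fun n => E n × T n) (fun n G X y => Du n G X y.1 y.2))
    (hOk : DefP (E := fun n => E n × (T n × T n)) (fun n G X y => Ok n G X y.1 y.2.1 y.2.2))
    (hB : DefZ (E := fun n => E n × (T n × T n)) (fun n y => p n y.1)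
      (fun n G X y => B n G X y.1 y.2.1 y.2.2)) :
    DefP (E := fun n => E n × (T n × (T n × T n)))
      (fun n G X y => PMNC.pN (p n y.1) (Du n G X y.1) (Ok n G X y.1) (B n G X y.1)
        y.2.1 y.2.2.1 y.2.2.2) := by
  unfold PMNC.pN
  exact DefP.zN (q := fun n G X x => PMNC.qa (p n x) (B n G X x))
    (e := fun n G X x τ => PMNC.ed (p n x) (Du n G X x) (Ok n G X x) (B n G X x) τ)
    (DefP.qa hp hB) (DefP.ed hp hDu hOk hB)

theorem DefZ.nB (hp : Tm p)
    (hDu : DefP (E := fun n => E n × T n) (fun n G X y => Du n G X y.1 y.2))
    (hOk : DefP (E := fun n => E n × (T n × T n)) (fun n G X y => Ok n G X y.1 y.2.1 y.2.2))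
    (hB : DefZ (E := fun n => E n × (T n × T n)) (fun n y => p n y.1)
      (fun n G X y => B n G X y.1 y.2.1 y.2.2)) :
    DefZ (E := fun n => E n × ((T n × S n) × (T n × T n))) (fun n y => p n y.1)
      (fun n G X y => PMNC.nB (p n y.1) (Du n G X y.1) (Ok n G X y.1) (B n G X y.1)
        y.2.1.1 y.2.1.2 y.2.2.1 y.2.2.2) := by
  unfold PMNC.nB
  have hp1 : Tm (fun n (y : E n × ((T n × S n) × (T n × T n))) => p n y.1) :=
    hp.comp (Tm.fst Tm.id)
  refine DefZ.add hp1 (DefZ.ite (DefP.or (DefP.eq ?_ ?_) (DefP.eq ?_ ?_)) (DefZ.dlt hp1 ?_ ?_) ?_)
    (DefZ.ite ?_ (DefZ.nv' (H := S) hp1 ?_) (DefZ.zero hp1))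
  · (repeat' (first
      | apply DefP.nOne | apply DefP.nZero | apply DefP.nSucc | apply DefP.nAdd | apply DefP.nLt
      | apply DefP.nLe | apply DefP.nEq | apply DefP.hlf | apply DefP.p1le | apply DefP.p1
      | apply DefP.p0 | apply DefP.aug | apply DefP.pth | apply DefP.nx | apply DefP.cnd
      | apply DefP.hmin | apply DefP.hit | apply DefP.cdn | apply DefP.firstEx | apply DefP.exN
      | apply DefP.end_ | apply DefP.isZero | apply DefP.isSucc | apply DefP.alt
      | apply DefP.exr | apply DefP.exl | apply DefP.side | apply DefP.oddCard
      | apply DefP.cardEq | apply DefP.cardLt | apply DefP.cardLe | apply DefP.lst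
      | apply DefP.fst | apply DefP.nxt | apply DefP.keyLe | apply DefP.keyLt | apply DefP.rtc
      | (apply DefP.app4; assumption) | (apply DefP.app3'; assumption)
      | (apply DefP.app3; assumption) | (apply DefP.app2; assumption)
      | (apply DefP.comp; assumption) | exact Tm.id | exact Tm.unit | apply Tm.fst
      | apply Tm.snd | apply Tm.app | exact DefP.const _ | apply DefP.and | apply DefP.not
      | apply DefP.or | apply DefP.iff | apply DefP.adj | apply DefP.le | apply DefP.lt
      | apply DefP.eqFin | apply DefP.eq | apply DefP.rv | apply DefP.imp | apply DefP.allFin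
      | apply DefP.exFin | apply DefP.all | apply DefP.ex | assumption
      | (apply Tm.comp; assumption) | apply Tm.pair | apply Tm.lam))
  · (repeat' (first
      | apply DefP.nOne | apply DefP.nZero | apply DefP.nSucc | apply DefP.nAdd | apply DefP.nLt
      | apply DefP.nLe | apply DefP.nEq | apply DefP.hlf | apply DefP.p1le | apply DefP.p1
      | apply DefP.p0 | apply DefP.aug | apply DefP.pth | apply DefP.nx | apply DefP.cnd
      | apply DefP.hmin | apply DefP.hit | apply DefP.cdn | apply DefP.firstEx | apply DefP.exN
      | apply DefP.end_ | apply DefP.isZero | apply DefP.isSucc | apply DefP.alt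
      | apply DefP.exr | apply DefP.exl | apply DefP.side | apply DefP.oddCard
      | apply DefP.cardEq | apply DefP.cardLt | apply DefP.cardLe | apply DefP.lst
      | apply DefP.fst | apply DefP.nxt | apply DefP.keyLe | apply DefP.keyLt | apply DefP.rtc
      | (apply DefP.app4; assumption) | (apply DefP.app3'; assumption)
      | (apply DefP.app3; assumption) | (apply DefP.app2; assumption)
      | (apply DefP.comp; assumption) | exact Tm.id | exact Tm.unit | apply Tm.fst
      | apply Tm.snd | apply Tm.app | exact DefP.const _ | apply DefP.and | apply DefP.not
      | apply DefP.or | apply DefP.iff | apply DefP.adj | apply DefP.le | apply DefP.lt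
      | apply DefP.eqFin | apply DefP.eq | apply DefP.rv | apply DefP.imp | apply DefP.allFin
      | apply DefP.exFin | apply DefP.all | apply DefP.ex | assumption
      | (apply Tm.comp; assumption) | apply Tm.pair | apply Tm.lam))
  · (repeat' (first
      | apply DefP.nOne | apply DefP.nZero | apply DefP.nSucc | apply DefP.nAdd | apply DefP.nLt
      | apply DefP.nLe | apply DefP.nEq | apply DefP.hlf | apply DefP.p1le | apply DefP.p1
      | apply DefP.p0 | apply DefP.aug | apply DefP.pth | apply DefP.nx | apply DefP.cnd
      | apply DefP.hmin | apply DefP.hit | apply DefP.cdn | apply DefP.firstEx | apply DefP.exN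
      | apply DefP.end_ | apply DefP.isZero | apply DefP.isSucc | apply DefP.alt
      | apply DefP.exr | apply DefP.exl | apply DefP.side | apply DefP.oddCard
      | apply DefP.cardEq | apply DefP.cardLt | apply DefP.cardLe | apply DefP.lst
      | apply DefP.fst | apply DefP.nxt | apply DefP.keyLe | apply DefP.keyLt | apply DefP.rtc
      | (apply DefP.app4; assumption) | (apply DefP.app3'; assumption)
      | (apply DefP.app3; assumption) | (apply DefP.app2; assumption)
      | (apply DefP.comp; assumption) | exact Tm.id | exact Tm.unit | apply Tm.fst
      | apply Tm.snd | apply Tm.app | exact DefP.const _ | apply DefP.and | apply DefP.not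
      | apply DefP.or | apply DefP.iff | apply DefP.adj | apply DefP.le | apply DefP.lt
      | apply DefP.eqFin | apply DefP.eq | apply DefP.rv | apply DefP.imp | apply DefP.allFin
      | apply DefP.exFin | apply DefP.all | apply DefP.ex | assumption
      | (apply Tm.comp; assumption) | apply Tm.pair | apply Tm.lam))
  · (repeat' (first
      | apply DefP.nOne | apply DefP.nZero | apply DefP.nSucc | apply DefP.nAdd | apply DefP.nLt
      | apply DefP.nLe | apply DefP.nEq | apply DefP.hlf | apply DefP.p1le | apply DefP.p1
      | apply DefP.p0 | apply DefP.aug | apply DefP.pth | apply DefP.nx | apply DefP.cnd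
      | apply DefP.hmin | apply DefP.hit | apply DefP.cdn | apply DefP.firstEx | apply DefP.exN
      | apply DefP.end_ | apply DefP.isZero | apply DefP.isSucc | apply DefP.alt
      | apply DefP.exr | apply DefP.exl | apply DefP.side | apply DefP.oddCard
      | apply DefP.cardEq | apply DefP.cardLt | apply DefP.cardLe | apply DefP.lst
      | apply DefP.fst | apply DefP.nxt | apply DefP.keyLe | apply DefP.keyLt | apply DefP.rtc
      | (apply DefP.app4; assumption) | (apply DefP.app3'; assumption)
      | (apply DefP.app3; assumption) | (apply DefP.app2; assumption)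
      | (apply DefP.comp; assumption) | exact Tm.id | exact Tm.unit | apply Tm.fst
      | apply Tm.snd | apply Tm.app | exact DefP.const _ | apply DefP.and | apply DefP.not
      | apply DefP.or | apply DefP.iff | apply DefP.adj | apply DefP.le | apply DefP.lt
      | apply DefP.eqFin | apply DefP.eq | apply DefP.rv | apply DefP.imp | apply DefP.allFin
      | apply DefP.exFin | apply DefP.all | apply DefP.ex | assumption
      | (apply Tm.comp; assumption) | apply Tm.pair | apply Tm.lam))
  · (repeat' (first
      | apply DefP.nOne | apply DefP.nZero | apply DefP.nSucc | apply DefP.nAdd | apply DefP.nLt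
      | apply DefP.nLe | apply DefP.nEq | apply DefP.hlf | apply DefP.p1le | apply DefP.p1
      | apply DefP.p0 | apply DefP.aug | apply DefP.pth | apply DefP.nx | apply DefP.cnd
      | apply DefP.hmin | apply DefP.hit | apply DefP.cdn | apply DefP.firstEx | apply DefP.exN
      | apply DefP.end_ | apply DefP.isZero | apply DefP.isSucc | apply DefP.alt
      | apply DefP.exr | apply DefP.exl | apply DefP.side | apply DefP.oddCard
      | apply DefP.cardEq | apply DefP.cardLt | apply DefP.cardLe | apply DefP.lst
      | apply DefP.fst | apply DefP.nxt | apply DefP.keyLe | apply DefP.keyLt | apply DefP.rtc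
      | (apply DefP.app4; assumption) | (apply DefP.app3'; assumption)
      | (apply DefP.app3; assumption) | (apply DefP.app2; assumption)
      | (apply DefP.comp; assumption) | exact Tm.id | exact Tm.unit | apply Tm.fst
      | apply Tm.snd | apply Tm.app | exact DefP.const _ | apply DefP.and | apply DefP.not
      | apply DefP.or | apply DefP.iff | apply DefP.adj | apply DefP.le | apply DefP.lt
      | apply DefP.eqFin | apply DefP.eq | apply DefP.rv | apply DefP.imp | apply DefP.allFin
      | apply DefP.exFin | apply DefP.all | apply DefP.ex | assumption
      | (apply Tm.comp; assumption) | apply Tm.pair | apply Tm.lam))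
  · (repeat' (first
      | apply DefP.nOne | apply DefP.nZero | apply DefP.nSucc | apply DefP.nAdd | apply DefP.nLt
      | apply DefP.nLe | apply DefP.nEq | apply DefP.hlf | apply DefP.p1le | apply DefP.p1
      | apply DefP.p0 | apply DefP.aug | apply DefP.pth | apply DefP.nx | apply DefP.cnd
      | apply DefP.hmin | apply DefP.hit | apply DefP.cdn | apply DefP.firstEx | apply DefP.exN
      | apply DefP.end_ | apply DefP.isZero | apply DefP.isSucc | apply DefP.alt
      | apply DefP.exr | apply DefP.exl | apply DefP.side | apply DefP.oddCard
      | apply DefP.cardEq | apply DefP.cardLt | apply DefP.cardLe | apply DefP.lst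
      | apply DefP.fst | apply DefP.nxt | apply DefP.keyLe | apply DefP.keyLt | apply DefP.rtc
      | (apply DefP.app4; assumption) | (apply DefP.app3'; assumption)
      | (apply DefP.app3; assumption) | (apply DefP.app2; assumption)
      | (apply DefP.comp; assumption) | exact Tm.id | exact Tm.unit | apply Tm.fst
      | apply Tm.snd | apply Tm.app | exact DefP.const _ | apply DefP.and | apply DefP.not
      | apply DefP.or | apply DefP.iff | apply DefP.adj | apply DefP.le | apply DefP.lt
      | apply DefP.eqFin | apply DefP.eq | apply DefP.rv | apply DefP.imp | apply DefP.allFin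
      | apply DefP.exFin | apply DefP.all | apply DefP.ex | assumption
      | (apply Tm.comp; assumption) | apply Tm.pair | apply Tm.lam))
  · exact DefZ.comp (E := fun n => E n × ((T n × S n) × (T n × T n))) hB
      (f := fun n y => (y.1, y.2.2)) (by (repeat' (first
          | apply DefP.nOne | apply DefP.nZero | apply DefP.nSucc | apply DefP.nAdd
          | apply DefP.nLt | apply DefP.nLe | apply DefP.nEq | apply DefP.hlf | apply DefP.p1le
          | apply DefP.p1 | apply DefP.p0 | apply DefP.aug | apply DefP.pth | apply DefP.nx
          | apply DefP.cnd | apply DefP.hmin | apply DefP.hit | apply DefP.cdn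
          | apply DefP.firstEx | apply DefP.exN | apply DefP.end_ | apply DefP.isZero
          | apply DefP.isSucc | apply DefP.alt | apply DefP.exr | apply DefP.exl
          | apply DefP.side | apply DefP.oddCard | apply DefP.cardEq | apply DefP.cardLt
          | apply DefP.cardLe | apply DefP.lst | apply DefP.fst | apply DefP.nxt
          | apply DefP.keyLe | apply DefP.keyLt | apply DefP.rtc | (apply DefP.app4; assumption)
          | (apply DefP.app3'; assumption) | (apply DefP.app3; assumption)
          | (apply DefP.app2; assumption) | (apply DefP.comp; assumption) | exact Tm.id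
          | exact Tm.unit | apply Tm.fst | apply Tm.snd | apply Tm.app | exact DefP.const _
          | apply DefP.and | apply DefP.not | apply DefP.or | apply DefP.iff | apply DefP.adj
          | apply DefP.le | apply DefP.lt | apply DefP.eqFin | apply DefP.eq | apply DefP.rv
          | apply DefP.imp | apply DefP.allFin | apply DefP.exFin | apply DefP.all
          | apply DefP.ex | assumption | (apply Tm.comp; assumption) | apply Tm.pair
          | apply Tm.lam)))
  · exact DefP.comp (F := fun n => E n × (T n × (T n × T n)))
      (f := fun n (y : E n × ((T n × S n) × (T n × T n))) => (y.1, (y.2.1.1, y.2.2)))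
      (DefP.pN hp hDu hOk hB) (by (repeat' (first
          | apply DefP.nOne | apply DefP.nZero | apply DefP.nSucc | apply DefP.nAdd
          | apply DefP.nLt | apply DefP.nLe | apply DefP.nEq | apply DefP.hlf | apply DefP.p1le
          | apply DefP.p1 | apply DefP.p0 | apply DefP.aug | apply DefP.pth | apply DefP.nx
          | apply DefP.cnd | apply DefP.hmin | apply DefP.hit | apply DefP.cdn
          | apply DefP.firstEx | apply DefP.exN | apply DefP.end_ | apply DefP.isZero
          | apply DefP.isSucc | apply DefP.alt | apply DefP.exr | apply DefP.exl
          | apply DefP.side | apply DefP.oddCard | apply DefP.cardEq | apply DefP.cardLt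
          | apply DefP.cardLe | apply DefP.lst | apply DefP.fst | apply DefP.nxt
          | apply DefP.keyLe | apply DefP.keyLt | apply DefP.rtc | (apply DefP.app4; assumption)
          | (apply DefP.app3'; assumption) | (apply DefP.app3; assumption)
          | (apply DefP.app2; assumption) | (apply DefP.comp; assumption) | exact Tm.id
          | exact Tm.unit | apply Tm.fst | apply Tm.snd | apply Tm.app | exact DefP.const _
          | apply DefP.and | apply DefP.not | apply DefP.or | apply DefP.iff | apply DefP.adj
          | apply DefP.le | apply DefP.lt | apply DefP.eqFin | apply DefP.eq | apply DefP.rv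
          | apply DefP.imp | apply DefP.allFin | apply DefP.exFin | apply DefP.all
          | apply DefP.ex | assumption | (apply Tm.comp; assumption) | apply Tm.pair
          | apply Tm.lam)))
  · (repeat' (first
      | apply DefP.nOne | apply DefP.nZero | apply DefP.nSucc | apply DefP.nAdd | apply DefP.nLt
      | apply DefP.nLe | apply DefP.nEq | apply DefP.hlf | apply DefP.p1le | apply DefP.p1
      | apply DefP.p0 | apply DefP.aug | apply DefP.pth | apply DefP.nx | apply DefP.cnd
      | apply DefP.hmin | apply DefP.hit | apply DefP.cdn | apply DefP.firstEx | apply DefP.exN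
      | apply DefP.end_ | apply DefP.isZero | apply DefP.isSucc | apply DefP.alt
      | apply DefP.exr | apply DefP.exl | apply DefP.side | apply DefP.oddCard
      | apply DefP.cardEq | apply DefP.cardLt | apply DefP.cardLe | apply DefP.lst
      | apply DefP.fst | apply DefP.nxt | apply DefP.keyLe | apply DefP.keyLt | apply DefP.rtc
      | (apply DefP.app4; assumption) | (apply DefP.app3'; assumption)
      | (apply DefP.app3; assumption) | (apply DefP.app2; assumption)
      | (apply DefP.comp; assumption) | exact Tm.id | exact Tm.unit | apply Tm.fst
      | apply Tm.snd | apply Tm.app | exact DefP.const _ | apply DefP.and | apply DefP.not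
      | apply DefP.or | apply DefP.iff | apply DefP.adj | apply DefP.le | apply DefP.lt
      | apply DefP.eqFin | apply DefP.eq | apply DefP.rv | apply DefP.imp | apply DefP.allFin
      | apply DefP.exFin | apply DefP.all | apply DefP.ex | assumption
      | (apply Tm.comp; assumption) | apply Tm.pair | apply Tm.lam))

theorem DefP.gdl (hp : Tm p)
    (hDu : DefP (E := fun n => E n × T n) (fun n G X y => Du n G X y.1 y.2))
    (hOk : DefP (E := fun n => E n × (T n × T n)) (fun n G X y => Ok n G X y.1 y.2.1 y.2.2))
    (hB : DefZ (E := fun n => E n × (T n × T n)) (fun n y => p n y.1)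
      (fun n G X y => B n G X y.1 y.2.1 y.2.2)) :
    DefP (E := fun n => E n × (T n × S n))
      (fun n G X y => PMNC.gdl (p n y.1) (Du n G X y.1) (Ok n G X y.1) (B n G X y.1)
        y.2.1 y.2.2) := by
  unfold PMNC.gdl PMNC.nd
  have hp1 : Tm (fun n (y : E n × (T n × S n)) => p n y.1) := hp.comp (Tm.fst Tm.id)
  refine DefP.and (DefP.nLt ?_ hp1) (DefZ.ndvd hp1 (DefZ.det (T := T)
    (M := fun n G X (y : E n × (T n × S n)) r c => PMNC.nB (p n y.1) (Du n G X y.1) (Ok n G X y.1)
      (B n G X y.1) y.2.1 y.2.2 r c) hp1 ?_))
  · (repeat' (first
      | apply DefP.nOne | apply DefP.nZero | apply DefP.nSucc | apply DefP.nAdd | apply DefP.nLt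
      | apply DefP.nLe | apply DefP.nEq | apply DefP.hlf | apply DefP.p1le | apply DefP.p1
      | apply DefP.p0 | apply DefP.aug | apply DefP.pth | apply DefP.nx | apply DefP.cnd
      | apply DefP.hmin | apply DefP.hit | apply DefP.cdn | apply DefP.firstEx | apply DefP.exN
      | apply DefP.end_ | apply DefP.isZero | apply DefP.isSucc | apply DefP.alt
      | apply DefP.exr | apply DefP.exl | apply DefP.side | apply DefP.oddCard
      | apply DefP.cardEq | apply DefP.cardLt | apply DefP.cardLe | apply DefP.lst
      | apply DefP.fst | apply DefP.nxt | apply DefP.keyLe | apply DefP.keyLt | apply DefP.rtc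
      | (apply DefP.app4; assumption) | (apply DefP.app3'; assumption)
      | (apply DefP.app3; assumption) | (apply DefP.app2; assumption)
      | (apply DefP.comp; assumption) | exact Tm.id | exact Tm.unit | apply Tm.fst
      | apply Tm.snd | apply Tm.app | exact DefP.const _ | apply DefP.and | apply DefP.not
      | apply DefP.or | apply DefP.iff | apply DefP.adj | apply DefP.le | apply DefP.lt
      | apply DefP.eqFin | apply DefP.eq | apply DefP.rv | apply DefP.imp | apply DefP.allFin
      | apply DefP.exFin | apply DefP.all | apply DefP.ex | assumption
      | (apply Tm.comp; assumption) | apply Tm.pair | apply Tm.lam))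
  · exact DefZ.comp (E := fun n => (E n × (T n × S n)) × (T n × T n)) (DefZ.nB hp hDu hOk hB)
      (f := fun n y => (y.1.1, (y.1.2, y.2))) (by (repeat' (first
          | apply DefP.nOne | apply DefP.nZero | apply DefP.nSucc | apply DefP.nAdd
          | apply DefP.nLt | apply DefP.nLe | apply DefP.nEq | apply DefP.hlf | apply DefP.p1le
          | apply DefP.p1 | apply DefP.p0 | apply DefP.aug | apply DefP.pth | apply DefP.nx
          | apply DefP.cnd | apply DefP.hmin | apply DefP.hit | apply DefP.cdn
          | apply DefP.firstEx | apply DefP.exN | apply DefP.end_ | apply DefP.isZero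
          | apply DefP.isSucc | apply DefP.alt | apply DefP.exr | apply DefP.exl
          | apply DefP.side | apply DefP.oddCard | apply DefP.cardEq | apply DefP.cardLt
          | apply DefP.cardLe | apply DefP.lst | apply DefP.fst | apply DefP.nxt
          | apply DefP.keyLe | apply DefP.keyLt | apply DefP.rtc | (apply DefP.app4; assumption)
          | (apply DefP.app3'; assumption) | (apply DefP.app3; assumption)
          | (apply DefP.app2; assumption) | (apply DefP.comp; assumption) | exact Tm.id
          | exact Tm.unit | apply Tm.fst | apply Tm.snd | apply Tm.app | exact DefP.const _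
          | apply DefP.and | apply DefP.not | apply DefP.or | apply DefP.iff | apply DefP.adj
          | apply DefP.le | apply DefP.lt | apply DefP.eqFin | apply DefP.eq | apply DefP.rv
          | apply DefP.imp | apply DefP.allFin | apply DefP.exFin | apply DefP.all
          | apply DefP.ex | assumption | (apply Tm.comp; assumption) | apply Tm.pair
          | apply Tm.lam)))

theorem DefP.lgl (hp : Tm p)
    (hDu : DefP (E := fun n => E n × T n) (fun n G X y => Du n G X y.1 y.2))
    (hOk : DefP (E := fun n => E n × (T n × T n)) (fun n G X y => Ok n G X y.1 y.2.1 y.2.2))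
    (hB : DefZ (E := fun n => E n × (T n × T n)) (fun n y => p n y.1)
      (fun n G X y => B n G X y.1 y.2.1 y.2.2)) :
    DefP (E := fun n => E n × (T n × S n))
      (fun n G X y => PMNC.lgl (p n y.1) (Du n G X y.1) (Ok n G X y.1) (B n G X y.1)
        y.2.1 y.2.2) := by
  unfold PMNC.lgl
  have h := DefP.gdl hp hDu hOk hB
  refine DefP.and h (DefP.all (DefP.imp ?_ (DefP.nLe ?_ ?_)))
  · exact DefP.comp (F := fun n => E n × (T n × S n))
      (f := fun n (y : (E n × (T n × S n)) × S n) => (y.1.1, (y.1.2.1, y.2))) h (by (repeat' (first
          | apply DefP.nOne | apply DefP.nZero | apply DefP.nSucc | apply DefP.nAdd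
          | apply DefP.nLt | apply DefP.nLe | apply DefP.nEq | apply DefP.hlf | apply DefP.p1le
          | apply DefP.p1 | apply DefP.p0 | apply DefP.aug | apply DefP.pth | apply DefP.nx
          | apply DefP.cnd | apply DefP.hmin | apply DefP.hit | apply DefP.cdn
          | apply DefP.firstEx | apply DefP.exN | apply DefP.end_ | apply DefP.isZero
          | apply DefP.isSucc | apply DefP.alt | apply DefP.exr | apply DefP.exl
          | apply DefP.side | apply DefP.oddCard | apply DefP.cardEq | apply DefP.cardLt
          | apply DefP.cardLe | apply DefP.lst | apply DefP.fst | apply DefP.nxt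
          | apply DefP.keyLe | apply DefP.keyLt | apply DefP.rtc | (apply DefP.app4; assumption)
          | (apply DefP.app3'; assumption) | (apply DefP.app3; assumption)
          | (apply DefP.app2; assumption) | (apply DefP.comp; assumption) | exact Tm.id
          | exact Tm.unit | apply Tm.fst | apply Tm.snd | apply Tm.app | exact DefP.const _
          | apply DefP.and | apply DefP.not | apply DefP.or | apply DefP.iff | apply DefP.adj
          | apply DefP.le | apply DefP.lt | apply DefP.eqFin | apply DefP.eq | apply DefP.rv
          | apply DefP.imp | apply DefP.allFin | apply DefP.exFin | apply DefP.all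
          | apply DefP.ex | assumption | (apply Tm.comp; assumption) | apply Tm.pair
          | apply Tm.lam)))
  · (repeat' (first
      | apply DefP.nOne | apply DefP.nZero | apply DefP.nSucc | apply DefP.nAdd | apply DefP.nLt
      | apply DefP.nLe | apply DefP.nEq | apply DefP.hlf | apply DefP.p1le | apply DefP.p1
      | apply DefP.p0 | apply DefP.aug | apply DefP.pth | apply DefP.nx | apply DefP.cnd
      | apply DefP.hmin | apply DefP.hit | apply DefP.cdn | apply DefP.firstEx | apply DefP.exN
      | apply DefP.end_ | apply DefP.isZero | apply DefP.isSucc | apply DefP.alt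
      | apply DefP.exr | apply DefP.exl | apply DefP.side | apply DefP.oddCard
      | apply DefP.cardEq | apply DefP.cardLt | apply DefP.cardLe | apply DefP.lst
      | apply DefP.fst | apply DefP.nxt | apply DefP.keyLe | apply DefP.keyLt | apply DefP.rtc
      | (apply DefP.app4; assumption) | (apply DefP.app3'; assumption)
      | (apply DefP.app3; assumption) | (apply DefP.app2; assumption)
      | (apply DefP.comp; assumption) | exact Tm.id | exact Tm.unit | apply Tm.fst
      | apply Tm.snd | apply Tm.app | exact DefP.const _ | apply DefP.and | apply DefP.not
      | apply DefP.or | apply DefP.iff | apply DefP.adj | apply DefP.le | apply DefP.lt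
      | apply DefP.eqFin | apply DefP.eq | apply DefP.rv | apply DefP.imp | apply DefP.allFin
      | apply DefP.exFin | apply DefP.all | apply DefP.ex | assumption
      | (apply Tm.comp; assumption) | apply Tm.pair | apply Tm.lam))
  · (repeat' (first
      | apply DefP.nOne | apply DefP.nZero | apply DefP.nSucc | apply DefP.nAdd | apply DefP.nLt
      | apply DefP.nLe | apply DefP.nEq | apply DefP.hlf | apply DefP.p1le | apply DefP.p1
      | apply DefP.p0 | apply DefP.aug | apply DefP.pth | apply DefP.nx | apply DefP.cnd
      | apply DefP.hmin | apply DefP.hit | apply DefP.cdn | apply DefP.firstEx | apply DefP.exN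
      | apply DefP.end_ | apply DefP.isZero | apply DefP.isSucc | apply DefP.alt
      | apply DefP.exr | apply DefP.exl | apply DefP.side | apply DefP.oddCard
      | apply DefP.cardEq | apply DefP.cardLt | apply DefP.cardLe | apply DefP.lst
      | apply DefP.fst | apply DefP.nxt | apply DefP.keyLe | apply DefP.keyLt | apply DefP.rtc
      | (apply DefP.app4; assumption) | (apply DefP.app3'; assumption)
      | (apply DefP.app3; assumption) | (apply DefP.app2; assumption)
      | (apply DefP.comp; assumption) | exact Tm.id | exact Tm.unit | apply Tm.fst
      | apply Tm.snd | apply Tm.app | exact DefP.const _ | apply DefP.and | apply DefP.not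
      | apply DefP.or | apply DefP.iff | apply DefP.adj | apply DefP.le | apply DefP.lt
      | apply DefP.eqFin | apply DefP.eq | apply DefP.rv | apply DefP.imp | apply DefP.allFin
      | apply DefP.exFin | apply DefP.all | apply DefP.ex | assumption
      | (apply Tm.comp; assumption) | apply Tm.pair | apply Tm.lam))

theorem DefZ.nxB (hp : Tm p)
    (hDu : DefP (E := fun n => E n × T n) (fun n G X y => Du n G X y.1 y.2))
    (hOk : DefP (E := fun n => E n × (T n × T n)) (fun n G X y => Ok n G X y.1 y.2.1 y.2.2))
    (hB : DefZ (E := fun n => E n × (T n × T n)) (fun n y => p n y.1)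
      (fun n G X y => B n G X y.1 y.2.1 y.2.2)) :
    DefZ (E := fun n => E n × (T n × T n)) (fun n y => p n y.1)
      (fun n G X y => PMNC.nxB (p n y.1) (Du n G X y.1) (Ok n G X y.1) (B n G X y.1)
        y.2.1 y.2.2) := by
  unfold PMNC.nxB
  have hp1 : Tm (fun n (y : E n × (T n × T n)) => p n y.1) := hp.comp (Tm.fst Tm.id)
  have hp2 : Tm (fun n (y : (E n × (T n × T n)) × T n) => p n y.1.1) :=
    hp.comp (Tm.fst (Tm.fst Tm.id))
  have hp3 : Tm (fun n (y : ((E n × (T n × T n)) × T n) × S n) => p n y.1.1.1) :=
    hp.comp (Tm.fst (Tm.fst (Tm.fst Tm.id)))
  have h1 : DefP (E := fun n => ((E n × (T n × T n)) × T n) × S n) (fun n G X y =>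
      PMNC.tau (p n y.1.1.1) (Du n G X y.1.1.1) (B n G X y.1.1.1) y.1.2 ∧
      PMNC.lgl (p n y.1.1.1) (Du n G X y.1.1.1) (Ok n G X y.1.1.1) (B n G X y.1.1.1)
        y.1.2 y.2) := by
    refine DefP.and ?_ ?_
    · exact DefP.comp (F := fun n => E n × T n)
        (f := fun n (y : ((E n × (T n × T n)) × T n) × S n) => (y.1.1.1, y.1.2))
        (DefP.tau hp hDu hB) (by (repeat' (first
            | apply DefP.nOne | apply DefP.nZero | apply DefP.nSucc | apply DefP.nAdd
            | apply DefP.nLt | apply DefP.nLe | apply DefP.nEq | apply DefP.hlf
            | apply DefP.p1le | apply DefP.p1 | apply DefP.p0 | apply DefP.aug | apply DefP.pth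
            | apply DefP.nx | apply DefP.cnd | apply DefP.hmin | apply DefP.hit | apply DefP.cdn
            | apply DefP.firstEx | apply DefP.exN | apply DefP.end_ | apply DefP.isZero
            | apply DefP.isSucc | apply DefP.alt | apply DefP.exr | apply DefP.exl
            | apply DefP.side | apply DefP.oddCard | apply DefP.cardEq | apply DefP.cardLt
            | apply DefP.cardLe | apply DefP.lst | apply DefP.fst | apply DefP.nxt
            | apply DefP.keyLe | apply DefP.keyLt | apply DefP.rtc
            | (apply DefP.app4; assumption) | (apply DefP.app3'; assumption)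
            | (apply DefP.app3; assumption) | (apply DefP.app2; assumption)
            | (apply DefP.comp; assumption) | exact Tm.id | exact Tm.unit | apply Tm.fst
            | apply Tm.snd | apply Tm.app | exact DefP.const _ | apply DefP.and | apply DefP.not
            | apply DefP.or | apply DefP.iff | apply DefP.adj | apply DefP.le | apply DefP.lt
            | apply DefP.eqFin | apply DefP.eq | apply DefP.rv | apply DefP.imp
            | apply DefP.allFin | apply DefP.exFin | apply DefP.all | apply DefP.ex | assumption
            | (apply Tm.comp; assumption) | apply Tm.pair | apply Tm.lam)))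
    · exact DefP.comp (F := fun n => E n × (T n × S n))
        (f := fun n (y : ((E n × (T n × T n)) × T n) × S n) => (y.1.1.1, (y.1.2, y.2)))
        (DefP.lgl hp hDu hOk hB) (by (repeat' (first
            | apply DefP.nOne | apply DefP.nZero | apply DefP.nSucc | apply DefP.nAdd
            | apply DefP.nLt | apply DefP.nLe | apply DefP.nEq | apply DefP.hlf
            | apply DefP.p1le | apply DefP.p1 | apply DefP.p0 | apply DefP.aug | apply DefP.pth
            | apply DefP.nx | apply DefP.cnd | apply DefP.hmin | apply DefP.hit | apply DefP.cdn
            | apply DefP.firstEx | apply DefP.exN | apply DefP.end_ | apply DefP.isZero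
            | apply DefP.isSucc | apply DefP.alt | apply DefP.exr | apply DefP.exl
            | apply DefP.side | apply DefP.oddCard | apply DefP.cardEq | apply DefP.cardLt
            | apply DefP.cardLe | apply DefP.lst | apply DefP.fst | apply DefP.nxt
            | apply DefP.keyLe | apply DefP.keyLt | apply DefP.rtc
            | (apply DefP.app4; assumption) | (apply DefP.app3'; assumption)
            | (apply DefP.app3; assumption) | (apply DefP.app2; assumption)
            | (apply DefP.comp; assumption) | exact Tm.id | exact Tm.unit | apply Tm.fst
            | apply Tm.snd | apply Tm.app | exact DefP.const _ | apply DefP.and | apply DefP.not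
            | apply DefP.or | apply DefP.iff | apply DefP.adj | apply DefP.le | apply DefP.lt
            | apply DefP.eqFin | apply DefP.eq | apply DefP.rv | apply DefP.imp
            | apply DefP.allFin | apply DefP.exFin | apply DefP.all | apply DefP.ex | assumption
            | (apply Tm.comp; assumption) | apply Tm.pair | apply Tm.lam)))
  refine DefZ.ite (DefP.ex (DefP.ex h1)) ?_ hB
  refine DefZ.sum hp1 ?_
  refine DefZ.sum hp2 ?_
  refine DefZ.ite h1 ?_ (DefZ.zero hp3)
  exact DefZ.comp (E := fun n => ((E n × (T n × T n)) × T n) × S n) (DefZ.nB hp hDu hOk hB)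
    (f := fun n y => (y.1.1.1, ((y.1.2, y.2), y.1.1.2))) (by (repeat' (first
        | apply DefP.nOne | apply DefP.nZero | apply DefP.nSucc | apply DefP.nAdd
        | apply DefP.nLt | apply DefP.nLe | apply DefP.nEq | apply DefP.hlf | apply DefP.p1le
        | apply DefP.p1 | apply DefP.p0 | apply DefP.aug | apply DefP.pth | apply DefP.nx
        | apply DefP.cnd | apply DefP.hmin | apply DefP.hit | apply DefP.cdn
        | apply DefP.firstEx | apply DefP.exN | apply DefP.end_ | apply DefP.isZero
        | apply DefP.isSucc | apply DefP.alt | apply DefP.exr | apply DefP.exl | apply DefP.side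
        | apply DefP.oddCard | apply DefP.cardEq | apply DefP.cardLt | apply DefP.cardLe
        | apply DefP.lst | apply DefP.fst | apply DefP.nxt | apply DefP.keyLe | apply DefP.keyLt
        | apply DefP.rtc | (apply DefP.app4; assumption) | (apply DefP.app3'; assumption)
        | (apply DefP.app3; assumption) | (apply DefP.app2; assumption)
        | (apply DefP.comp; assumption) | exact Tm.id | exact Tm.unit | apply Tm.fst
        | apply Tm.snd | apply Tm.app | exact DefP.const _ | apply DefP.and | apply DefP.not
        | apply DefP.or | apply DefP.iff | apply DefP.adj | apply DefP.le | apply DefP.lt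
        | apply DefP.eqFin | apply DefP.eq | apply DefP.rv | apply DefP.imp | apply DefP.allFin
        | apply DefP.exFin | apply DefP.all | apply DefP.ex | assumption
        | (apply Tm.comp; assumption) | apply Tm.pair | apply Tm.lam)))

end def_

section stage
variable {E T S : ℕ → Type} [Env E] [Env T] [Env S] [∀ n, Fintype (T n)] [∀ n, Fintype (S n)]
variable {p : ∀ n : ℕ, E n → S n}
  {Du : ∀ n : ℕ, SimpleGraph (Fin n) → E n → T n → Prop}
  {Ok : ∀ n : ℕ, SimpleGraph (Fin n) → E n → T n → T n → Prop}
  {B : ∀ n : ℕ, SimpleGraph (Fin n) → E n → T n → T n → ℤ}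
  {R : ∀ n : ℕ, SimpleGraph (Fin n) → Ctx n → E n → (T n × T n) × S n → Prop}

theorem DefZ.vlm (hp : Tm p)
    (hR : DefP (E := fun n => E n × ((T n × T n) × S n)) (fun n G X y => R n G X y.1 y.2)) :
    DefZ (E := fun n => E n × (T n × T n)) (fun n y => p n y.1)
      (fun n G X y => PMNC.vlm (R n G X y.1) y.2.1 y.2.2) := by
  unfold PMNC.vlm
  exact DefZ.vl (B := fun n => T n × T n) (E := fun n => E n × (T n × T n))
    (R := fun n G X y => R n G X y.1) (f := fun n y => y.2) (hp.comp (Tm.fst Tm.id))
    (DefP.comp (F := fun n => E n × ((T n × T n) × S n))
      (f := fun n (y : (E n × (T n × T n)) × ((T n × T n) × S n)) => (y.1.1, y.2)) hR (by (repeat' (first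
          | apply DefP.nOne | apply DefP.nZero | apply DefP.nSucc | apply DefP.nAdd
          | apply DefP.nLt | apply DefP.nLe | apply DefP.nEq | apply DefP.hlf | apply DefP.p1le
          | apply DefP.p1 | apply DefP.p0 | apply DefP.aug | apply DefP.pth | apply DefP.nx
          | apply DefP.cnd | apply DefP.hmin | apply DefP.hit | apply DefP.cdn
          | apply DefP.firstEx | apply DefP.exN | apply DefP.end_ | apply DefP.isZero
          | apply DefP.isSucc | apply DefP.alt | apply DefP.exr | apply DefP.exl
          | apply DefP.side | apply DefP.oddCard | apply DefP.cardEq | apply DefP.cardLt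
          | apply DefP.cardLe | apply DefP.lst | apply DefP.fst | apply DefP.nxt
          | apply DefP.keyLe | apply DefP.keyLt | apply DefP.rtc | (apply DefP.app4; assumption)
          | (apply DefP.app3'; assumption) | (apply DefP.app3; assumption)
          | (apply DefP.app2; assumption) | (apply DefP.comp; assumption) | exact Tm.id
          | exact Tm.unit | apply Tm.fst | apply Tm.snd | apply Tm.app | exact DefP.const _
          | apply DefP.and | apply DefP.not | apply DefP.or | apply DefP.iff | apply DefP.adj
          | apply DefP.le | apply DefP.lt | apply DefP.eqFin | apply DefP.eq | apply DefP.rv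
          | apply DefP.imp | apply DefP.allFin | apply DefP.exFin | apply DefP.all
          | apply DefP.ex | assumption | (apply Tm.comp; assumption) | apply Tm.pair
          | apply Tm.lam))))
    (Tm.snd Tm.id)

theorem DefP.stgIter (hp : Tm p) (c d : ℕ)
    (hDu : DefP (E := fun n => E n × T n) (fun n G X y => Du n G y.1 y.2))
    (hOk : DefP (E := fun n => E n × (T n × T n)) (fun n G X y => Ok n G y.1 y.2.1 y.2.2))
    (hB : DefZ (E := fun n => E n × (T n × T n)) (fun n y => p n y.1)
      (fun n G X y => B n G y.1 y.2.1 y.2.2)) :
    DefP (E := fun n => E n × ((T n × T n) × S n)) (fun n G X y =>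
      ((stg (p n y.1) (Du n G y.1) (Ok n G y.1))^[(c * Nat.size n) ^ (d + 1)]
        (rlm (p n y.1) (B n G y.1))) y.2) := by
  refine DefP.iterPow' (E := E) (S := fun n => (T n × T n) × S n) c d
    (I := fun n G X x => rlm (p n x) (B n G x))
    (Φ := fun n G x => stg (p n x) (Du n G x) (Ok n G x)) ?_ ?_
  · unfold rlm
    unfold DefZ at hB
    exact DefP.comp (F := fun n => (E n × (T n × T n)) × S n)
      (f := fun n (y : E n × ((T n × T n) × S n)) => ((y.1, y.2.1), y.2.2)) hB (by (repeat' (first
          | apply DefP.nOne | apply DefP.nZero | apply DefP.nSucc | apply DefP.nAdd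
          | apply DefP.nLt | apply DefP.nLe | apply DefP.nEq | apply DefP.hlf | apply DefP.p1le
          | apply DefP.p1 | apply DefP.p0 | apply DefP.aug | apply DefP.pth | apply DefP.nx
          | apply DefP.cnd | apply DefP.hmin | apply DefP.hit | apply DefP.cdn
          | apply DefP.firstEx | apply DefP.exN | apply DefP.end_ | apply DefP.isZero
          | apply DefP.isSucc | apply DefP.alt | apply DefP.exr | apply DefP.exl
          | apply DefP.side | apply DefP.oddCard | apply DefP.cardEq | apply DefP.cardLt
          | apply DefP.cardLe | apply DefP.lst | apply DefP.fst | apply DefP.nxt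
          | apply DefP.keyLe | apply DefP.keyLt | apply DefP.rtc | (apply DefP.app4; assumption)
          | (apply DefP.app3'; assumption) | (apply DefP.app3; assumption)
          | (apply DefP.app2; assumption) | (apply DefP.comp; assumption) | exact Tm.id
          | exact Tm.unit | apply Tm.fst | apply Tm.snd | apply Tm.app | exact DefP.const _
          | apply DefP.and | apply DefP.not | apply DefP.or | apply DefP.iff | apply DefP.adj
          | apply DefP.le | apply DefP.lt | apply DefP.eqFin | apply DefP.eq | apply DefP.rv
          | apply DefP.imp | apply DefP.allFin | apply DefP.exFin | apply DefP.all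
          | apply DefP.ex | assumption | (apply Tm.comp; assumption) | apply Tm.pair
          | apply Tm.lam)))
  · have h1 := DefZ.nxB (E := E) (T := T) (S := S) (p := p) (Du := fun n G X => Du n G)
      (Ok := fun n G X => Ok n G)
      (B := fun n G X x => PMNC.vlm (fun s => PMNC.rv (S := fun n => (T n × T n) × S n) X 0 s))
      hp hDu hOk (DefZ.vlm (R := fun n G X x s =>
        PMNC.rv (S := fun n => (T n × T n) × S n) X 0 s) hp
        (DefP.rv (S := fun n => (T n × T n) × S n) 0 (Tm.snd Tm.id)))
    unfold DefZ at h1
    exact DefP.comp (F := fun n => (E n × (T n × T n)) × S n)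
      (f := fun n (y : E n × ((T n × T n) × S n)) => ((y.1, y.2.1), y.2.2)) h1 (by (repeat' (first
          | apply DefP.nOne | apply DefP.nZero | apply DefP.nSucc | apply DefP.nAdd
          | apply DefP.nLt | apply DefP.nLe | apply DefP.nEq | apply DefP.hlf | apply DefP.p1le
          | apply DefP.p1 | apply DefP.p0 | apply DefP.aug | apply DefP.pth | apply DefP.nx
          | apply DefP.cnd | apply DefP.hmin | apply DefP.hit | apply DefP.cdn
          | apply DefP.firstEx | apply DefP.exN | apply DefP.end_ | apply DefP.isZero
          | apply DefP.isSucc | apply DefP.alt | apply DefP.exr | apply DefP.exl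
          | apply DefP.side | apply DefP.oddCard | apply DefP.cardEq | apply DefP.cardLt
          | apply DefP.cardLe | apply DefP.lst | apply DefP.fst | apply DefP.nxt
          | apply DefP.keyLe | apply DefP.keyLt | apply DefP.rtc | (apply DefP.app4; assumption)
          | (apply DefP.app3'; assumption) | (apply DefP.app3; assumption)
          | (apply DefP.app2; assumption) | (apply DefP.comp; assumption) | exact Tm.id
          | exact Tm.unit | apply Tm.fst | apply Tm.snd | apply Tm.app | exact DefP.const _
          | apply DefP.and | apply DefP.not | apply DefP.or | apply DefP.iff | apply DefP.adj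
          | apply DefP.le | apply DefP.lt | apply DefP.eqFin | apply DefP.eq | apply DefP.rv
          | apply DefP.imp | apply DefP.allFin | apply DefP.exFin | apply DefP.all
          | apply DefP.ex | assumption | (apply Tm.comp; assumption) | apply Tm.pair
          | apply Tm.lam)))

theorem DefP.fin' (hp : Tm p)
    (hDu : DefP (E := fun n => E n × T n) (fun n G X y => Du n G y.1 y.2))
    (hR : DefP (E := fun n => E n × ((T n × T n) × S n)) (fun n G X y => R n G X y.1 y.2)) :
    DefP (fun n G X x => PMNC.fin' (p n x) (Du n G x) (R n G X x)) := by
  unfold PMNC.fin' PMNC.nd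
  have hB := DefZ.vlm hp hR
  refine DefP.and (DefZ.ndvd hp (DefZ.det (T := T) (M := fun n G X x r c =>
    PMNC.vlm (R n G X x) r c) hp hB)) (DefP.all (DefP.not ?_))
  exact DefP.act (Du := fun n G X => Du n G) (B := fun n G X x => PMNC.vlm (R n G X x)) hp hDu hB

end stage

end Pool.Agent.PMNC
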