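import Mathlib
import Pool.Agent.Lib.MP_0087d5_lc.ZDefS
import Pool.Agent.Lib.MP_0087d5_lc.ZBz

set_option autoImplicit false
set_option linter.all false

/-!
# Numbers: pairs, powers of `n` and of `log n`
-/

namespace Pool.Agent.PMNC

open Relation

section pair
variable {n : ℕ}

theorem key_pair_lt (a b : Fin n × Fin n) :
    key (S := fun n => Fin n × Fin n) a < key (S := fun n => Fin n × Fin n) b ↔
      a.1 < b.1 ∨ (a.1 = b.1 ∧ a.2 < b.2) := by
  obtain ⟨a1, a2⟩ := a
  obtain ⟨b1, b2⟩ := b
  have e : ∀ (x y : Fin n), vec (E := fun n => Fin n × Fin n) n (x, y) =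
      Fin.append (fun _ : Fin 1 => x) (fun _ : Fin 1 => y) := fun x y => rfl
  have e0 : ∀ (x y : Fin n), vec (E := fun n => Fin n × Fin n) n (x, y) (0 : Fin 2) = x :=
    fun x y => rfl
  have e1 : ∀ (x y : Fin n), vec (E := fun n => Fin n × Fin n) n (x, y) (1 : Fin 2) = y :=
    fun x y => rfl
  constructor
  · rintro ⟨i, h1, h2⟩
    have hi : i = (0 : Fin 2) ∨ i = (1 : Fin 2) := by
      have : ∀ i : Fin 2, i = 0 ∨ i = 1 := by decide
      exact this i
    rcases hi with rfl | rfl
    · left
      exact h2
    · right
      exact ⟨h1 (0 : Fin 2) (by decide), h2⟩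
  · rintro (h | ⟨h1, h2⟩)
    · exact ⟨(0 : Fin 2), fun j hj => absurd hj (Fin.not_lt_zero j), h⟩
    · refine ⟨(1 : Fin 2), fun j hj => ?_, h2⟩
      have hj0 : j = (0 : Fin 2) := by
        have : ∀ j : Fin 2, j < 1 → j = 0 := by decide
        exact this j hj
      rw [hj0]
      exact h1

theorem nv_pair (u v : Fin n) : nv (S := fun n => Fin n × Fin n) (u, v) = n * u.val + v.val := by
  unfold nv
  have e2 : (finProdFinEquiv (u, v)).val = v.val + n * u.val := rfl
  have hlt : n * u.val + v.val < n * n := by
    calc n * u.val + v.val < n * u.val + n := by omega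
      _ = n * (u.val + 1) := by ring
      _ ≤ n * n := Nat.mul_le_mul_left _ u.2
  have key : ∀ t : Fin n × Fin n, (PMNC.key (S := fun n => Fin n × Fin n) t <
      PMNC.key (S := fun n => Fin n × Fin n) (u, v)) ↔
      finProdFinEquiv t < finProdFinEquiv (u, v) := by
    intro t
    have e1 : (finProdFinEquiv t < finProdFinEquiv (u, v)) ↔
        t.2.val + n * t.1.val < v.val + n * u.val := Iff.rfl
    rw [key_pair_lt, e1]
    constructor
    · rintro (h | ⟨h1, h2⟩)
      · have h3 : t.1.val + 1 ≤ u.val := h
        have h4 : n * (t.1.val + 1) ≤ n * u.val := Nat.mul_le_mul_left _ h3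
        have h5 := t.2.2
        rw [mul_add, mul_one] at h4
        omega
      · have h3 : t.2.val < v.val := h2
        simp only at h1
        rw [h1]
        omega
    · intro h
      rcases lt_trichotomy t.1 u with h1 | h1 | h1
      · left
        exact h1
      · right
        refine ⟨h1, ?_⟩
        rw [h1] at h
        show t.2.val < v.val
        omega
      · exfalso
        have h3 : u.val + 1 ≤ t.1.val := h1
        have h4 : n * (u.val + 1) ≤ n * t.1.val := Nat.mul_le_mul_left _ h3
        have h5 := v.2
        rw [mul_add, mul_one] at h4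
        omega
  rw [Nat.card_congr (finProdFinEquiv.subtypeEquiv (q := fun y => y < finProdFinEquiv (u, v)) key),
    card_lt_fin, e2]
  omega

theorem eid_eq (u v : Fin n) : eid u v = n * (min u v).val + (max u v).val := by
  unfold eid
  by_cases h : u < v
  · rw [if_pos h, nv_pair, min_eq_left h.le, max_eq_right h.le]
  · rw [if_neg h, nv_pair, min_eq_right (not_lt.1 h), max_eq_left (not_lt.1 h)]

theorem wE_eq {m : ℕ} (hm : 1 ≤ m) (u v : Fin n) :
    wE m u v = 2 ^ (n * (min u v).val + (max u v).val) % m := by
  unfold wE
  rw [eid_eq]
  by_cases h : 2 ≤ m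
  · rw [if_pos h]
  · rw [if_neg h, show m = 1 by omega, Nat.mod_one]

theorem wE_lt {m : ℕ} (hm : 1 ≤ m) (u v : Fin n) : wE m u v < m := by
  rw [wE_eq hm]
  exact Nat.mod_lt _ (by omega)

end pair

section small
variable {E H : ℕ → Type} [Env E] [Env H]

/-- initial segments -/
def inc {n : ℕ} (R : Fin n → Prop) (y : Fin n) : Prop :=
  nv (S := fun n => Fin n) y = 0 ∨
    ∃ x, R x ∧ nv (S := fun n => Fin n) y = nv (S := fun n => Fin n) x + 1

theorem inc_iterate {n : ℕ} (j : ℕ) (y : Fin n) : (inc^[j] (fun _ => False)) y ↔ y.val < j := by
  induction j generalizing y with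
  | zero => simp
  | succ j ih =>
    rw [Function.iterate_succ_apply']
    generalize hR : inc^[j] (fun _ => False) = R at ih ⊢
    unfold inc
    simp only [nv_fin]
    constructor
    · rintro (h | ⟨x, h1, h2⟩)
      · omega
      · have := (ih x).1 h1
        omega
    · intro h
      rcases Nat.eq_zero_or_pos y.val with h0 | h0
      · exact Or.inl h0
      · right
        refine ⟨⟨y.val - 1, by omega⟩, (ih _).2 (by simp only; omega), ?_⟩
        simp only
        omega

theorem DefP.ltSize {f : ∀ n : ℕ, E n → Fin n} (hf : Tm (F := fun n => Fin n) f) :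
    DefP (fun n G X x => (f n x).val < Nat.size n) := by
  have h := DefP.iter (E := fun _ => Unit) (S := fun n => Fin n) 1
    (I := fun n G X _ _ => False) (Φ := fun n G X _ Q => inc Q) (DefP.const False) (by
      unfold inc
      refine DefP.or (DefP.nZero (F := fun n => Fin n) ?_) (DefP.exFin (DefP.and ?_
        (DefP.nSucc (F := fun n => Fin n) (H := fun n => Fin n) ?_ ?_)))
      · (repeat' (first
          | apply DefP.nOne | apply DefP.nZero | apply DefP.nSucc | apply DefP.nAdd
          | apply DefP.nLt | apply DefP.nLe | apply DefP.nEq | apply DefP.hlf | apply DefP.p1le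
          | apply DefP.p1 | apply DefP.p0 | apply DefP.aug | apply DefP.pth | apply DefP.nx
          | apply DefP.cnd | apply DefP.hmin | apply DefP.hit | apply DefP.cdn
          | apply DefP.firstEx | apply DefP.exN | apply DefP.end_ | apply DefP.isZero
          | apply DefP.isSucc | apply DefP.alt | apply DefP.exr | apply DefP.exl
          | apply DefP.side | apply DefP.oddCard | apply DefP.cardEq | apply DefP.cardLt
          | apply DefP.cardLe | apply DefP.lst | apply DefP.fst | apply DefP.nxt
          | apply DefP.keyLe | apply DefP.keyLt | apply DefP.rtc | (apply DefP.app4; assumption)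
          | (apply DefP.app3'; assumption) | (apply DefP.app3; assumption)
          | (apply DefP.app2; assumption) | (apply DefP.comp; assumption) | exact Tm.id
          | exact Tm.unit | apply Tm.fst | apply Tm.snd | apply Tm.app | exact DefP.const _
          | apply DefP.and | apply DefP.not | apply DefP.or | apply DefP.iff | apply DefP.adj
          | apply DefP.le | apply DefP.lt | apply DefP.eqFin | apply DefP.eq | apply DefP.rv
          | apply DefP.imp | apply DefP.allFin | apply DefP.exFin | apply DefP.all
          | apply DefP.ex | assumption | (apply Tm.comp; assumption) | apply Tm.pair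
          | apply Tm.lam))
      · exact DefP.rv (S := fun n => Fin n) 0 (by (repeat' (first
          | apply DefP.nOne | apply DefP.nZero | apply DefP.nSucc | apply DefP.nAdd
          | apply DefP.nLt | apply DefP.nLe | apply DefP.nEq | apply DefP.hlf | apply DefP.p1le
          | apply DefP.p1 | apply DefP.p0 | apply DefP.aug | apply DefP.pth | apply DefP.nx
          | apply DefP.cnd | apply DefP.hmin | apply DefP.hit | apply DefP.cdn
          | apply DefP.firstEx | apply DefP.exN | apply DefP.end_ | apply DefP.isZero
          | apply DefP.isSucc | apply DefP.alt | apply DefP.exr | apply DefP.exl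
          | apply DefP.side | apply DefP.oddCard | apply DefP.cardEq | apply DefP.cardLt
          | apply DefP.cardLe | apply DefP.lst | apply DefP.fst | apply DefP.nxt
          | apply DefP.keyLe | apply DefP.keyLt | apply DefP.rtc | (apply DefP.app4; assumption)
          | (apply DefP.app3'; assumption) | (apply DefP.app3; assumption)
          | (apply DefP.app2; assumption) | (apply DefP.comp; assumption) | exact Tm.id
          | exact Tm.unit | apply Tm.fst | apply Tm.snd | apply Tm.app | exact DefP.const _
          | apply DefP.and | apply DefP.not | apply DefP.or | apply DefP.iff | apply DefP.adj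
          | apply DefP.le | apply DefP.lt | apply DefP.eqFin | apply DefP.eq | apply DefP.rv
          | apply DefP.imp | apply DefP.allFin | apply DefP.exFin | apply DefP.all
          | apply DefP.ex | assumption | (apply Tm.comp; assumption) | apply Tm.pair
          | apply Tm.lam)))
      · (repeat' (first
          | apply DefP.nOne | apply DefP.nZero | apply DefP.nSucc | apply DefP.nAdd
          | apply DefP.nLt | apply DefP.nLe | apply DefP.nEq | apply DefP.hlf | apply DefP.p1le
          | apply DefP.p1 | apply DefP.p0 | apply DefP.aug | apply DefP.pth | apply DefP.nx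
          | apply DefP.cnd | apply DefP.hmin | apply DefP.hit | apply DefP.cdn
          | apply DefP.firstEx | apply DefP.exN | apply DefP.end_ | apply DefP.isZero
          | apply DefP.isSucc | apply DefP.alt | apply DefP.exr | apply DefP.exl
          | apply DefP.side | apply DefP.oddCard | apply DefP.cardEq | apply DefP.cardLt
          | apply DefP.cardLe | apply DefP.lst | apply DefP.fst | apply DefP.nxt
          | apply DefP.keyLe | apply DefP.keyLt | apply DefP.rtc | (apply DefP.app4; assumption)
          | (apply DefP.app3'; assumption) | (apply DefP.app3; assumption)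
          | (apply DefP.app2; assumption) | (apply DefP.comp; assumption) | exact Tm.id
          | exact Tm.unit | apply Tm.fst | apply Tm.snd | apply Tm.app | exact DefP.const _
          | apply DefP.and | apply DefP.not | apply DefP.or | apply DefP.iff | apply DefP.adj
          | apply DefP.le | apply DefP.lt | apply DefP.eqFin | apply DefP.eq | apply DefP.rv
          | apply DefP.imp | apply DefP.allFin | apply DefP.exFin | apply DefP.all
          | apply DefP.ex | assumption | (apply Tm.comp; assumption) | apply Tm.pair
          | apply Tm.lam))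
      · (repeat' (first
          | apply DefP.nOne | apply DefP.nZero | apply DefP.nSucc | apply DefP.nAdd
          | apply DefP.nLt | apply DefP.nLe | apply DefP.nEq | apply DefP.hlf | apply DefP.p1le
          | apply DefP.p1 | apply DefP.p0 | apply DefP.aug | apply DefP.pth | apply DefP.nx
          | apply DefP.cnd | apply DefP.hmin | apply DefP.hit | apply DefP.cdn
          | apply DefP.firstEx | apply DefP.exN | apply DefP.end_ | apply DefP.isZero
          | apply DefP.isSucc | apply DefP.alt | apply DefP.exr | apply DefP.exl
          | apply DefP.side | apply DefP.oddCard | apply DefP.cardEq | apply DefP.cardLt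
          | apply DefP.cardLe | apply DefP.lst | apply DefP.fst | apply DefP.nxt
          | apply DefP.keyLe | apply DefP.keyLt | apply DefP.rtc | (apply DefP.app4; assumption)
          | (apply DefP.app3'; assumption) | (apply DefP.app3; assumption)
          | (apply DefP.app2; assumption) | (apply DefP.comp; assumption) | exact Tm.id
          | exact Tm.unit | apply Tm.fst | apply Tm.snd | apply Tm.app | exact DefP.const _
          | apply DefP.and | apply DefP.not | apply DefP.or | apply DefP.iff | apply DefP.adj
          | apply DefP.le | apply DefP.lt | apply DefP.eqFin | apply DefP.eq | apply DefP.rv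
          | apply DefP.imp | apply DefP.allFin | apply DefP.exFin | apply DefP.all
          | apply DefP.ex | assumption | (apply Tm.comp; assumption) | apply Tm.pair
          | apply Tm.lam)))
  have h2 : DefP (E := fun n => Fin n) (fun n G X x => x.val < Nat.size n) := by
    refine (DefP.comp (F := fun n => Unit × Fin n) h (f := fun n (x : Fin n) => ((), x))
      (Tm.pair (Tm.unit) Tm.id)).congr fun n G X x => ?_
    rw [one_mul]
    exact inc_iterate _ _
  exact DefP.comp (F := fun n => Fin n) h2 hf

theorem size_log {n : ℕ} (hn : 1 ≤ n) : Nat.size n = Nat.log 2 n + 1 := by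
  apply le_antisymm
  · rw [Nat.size_le]
    exact Nat.lt_pow_succ_log_self (by norm_num) n
  · rw [Nat.succ_le_iff, Nat.lt_size]
    exact Nat.pow_log_le_self 2 (by omega)

theorem size_le_self {n : ℕ} (hn : 1 ≤ n) : Nat.size n ≤ n := by
  rw [Nat.size_le]
  exact Nat.lt_two_pow_self

theorem DefP.ltLog {f : ∀ n : ℕ, E n → Fin n} (hf : Tm (F := fun n => Fin n) f) :
    DefP (fun n G X x => (f n x).val < Nat.log 2 n) := by
  refine DefP.congr (P := fun n G X x => ∃ y : Fin n, y.val < Nat.size n ∧
    nv (S := fun n => Fin n) y = nv (S := fun n => Fin n) (f n x) + 1) ?_ ?_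
  · refine DefP.exFin (DefP.and (DefP.ltSize ?_)
      (DefP.nSucc (F := fun n => Fin n) (H := fun n => Fin n) ?_ ?_))
    · (repeat' (first
        | apply DefP.nOne | apply DefP.nZero | apply DefP.nSucc | apply DefP.nAdd
        | apply DefP.nLt | apply DefP.nLe | apply DefP.nEq | apply DefP.hlf | apply DefP.p1le
        | apply DefP.p1 | apply DefP.p0 | apply DefP.aug | apply DefP.pth | apply DefP.nx
        | apply DefP.cnd | apply DefP.hmin | apply DefP.hit | apply DefP.cdn
        | apply DefP.firstEx | apply DefP.exN | apply DefP.end_ | apply DefP.isZero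
        | apply DefP.isSucc | apply DefP.alt | apply DefP.exr | apply DefP.exl | apply DefP.side
        | apply DefP.oddCard | apply DefP.cardEq | apply DefP.cardLt | apply DefP.cardLe
        | apply DefP.lst | apply DefP.fst | apply DefP.nxt | apply DefP.keyLe | apply DefP.keyLt
        | apply DefP.rtc | (apply DefP.app4; assumption) | (apply DefP.app3'; assumption)
        | (apply DefP.app3; assumption) | (apply DefP.app2; assumption)
        | (apply DefP.comp; assumption) | exact Tm.id | exact Tm.unit | apply Tm.fst
        | apply Tm.snd | apply Tm.app | exact DefP.const _ | apply DefP.and | apply DefP.not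
        | apply DefP.or | apply DefP.iff | apply DefP.adj | apply DefP.le | apply DefP.lt
        | apply DefP.eqFin | apply DefP.eq | apply DefP.rv | apply DefP.imp | apply DefP.allFin
        | apply DefP.exFin | apply DefP.all | apply DefP.ex | assumption
        | (apply Tm.comp; assumption) | apply Tm.pair | apply Tm.lam))
    · exact hf.comp (Tm.fst Tm.id)
    · (repeat' (first
        | apply DefP.nOne | apply DefP.nZero | apply DefP.nSucc | apply DefP.nAdd
        | apply DefP.nLt | apply DefP.nLe | apply DefP.nEq | apply DefP.hlf | apply DefP.p1le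
        | apply DefP.p1 | apply DefP.p0 | apply DefP.aug | apply DefP.pth | apply DefP.nx
        | apply DefP.cnd | apply DefP.hmin | apply DefP.hit | apply DefP.cdn
        | apply DefP.firstEx | apply DefP.exN | apply DefP.end_ | apply DefP.isZero
        | apply DefP.isSucc | apply DefP.alt | apply DefP.exr | apply DefP.exl | apply DefP.side
        | apply DefP.oddCard | apply DefP.cardEq | apply DefP.cardLt | apply DefP.cardLe
        | apply DefP.lst | apply DefP.fst | apply DefP.nxt | apply DefP.keyLe | apply DefP.keyLt
        | apply DefP.rtc | (apply DefP.app4; assumption) | (apply DefP.app3'; assumption)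
        | (apply DefP.app3; assumption) | (apply DefP.app2; assumption)
        | (apply DefP.comp; assumption) | exact Tm.id | exact Tm.unit | apply Tm.fst
        | apply Tm.snd | apply Tm.app | exact DefP.const _ | apply DefP.and | apply DefP.not
        | apply DefP.or | apply DefP.iff | apply DefP.adj | apply DefP.le | apply DefP.lt
        | apply DefP.eqFin | apply DefP.eq | apply DefP.rv | apply DefP.imp | apply DefP.allFin
        | apply DefP.exFin | apply DefP.all | apply DefP.ex | assumption
        | (apply Tm.comp; assumption) | apply Tm.pair | apply Tm.lam))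
  · intro n G X x
    have hn : 1 ≤ n := by have := (f n x).2; omega
    have h1 := size_log hn
    have h2 := size_le_self hn
    simp only [nv_fin]
    constructor
    · rintro ⟨y, h3, h4⟩
      omega
    · intro h3
      exact ⟨⟨(f n x).val + 1, by omega⟩, by simp only; omega, rfl⟩

/-- the number of tuples of numbers below the logarithm -/
theorem card_logs (c n : ℕ) (hn : 1 ≤ n) :
    Nat.card {z : Fin c → Fin n // ∀ i, (z i).val < Nat.log 2 n} = (Nat.log 2 n) ^ c := by
  have h1 : Nat.log 2 n ≤ n := Nat.log_le_self 2 n
  have e : {z : Fin c → Fin n // ∀ i, (z i).val < Nat.log 2 n} ≃ (Fin c → Fin (Nat.log 2 n)) :=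
    { toFun := fun z i => ⟨(z.1 i).val, z.2 i⟩
      invFun := fun z => ⟨fun i => ⟨(z i).val, lt_of_lt_of_le (z i).2 h1⟩, fun i => (z i).2⟩
      left_inv := fun z => rfl
      right_inv := fun z => rfl }
  rw [Nat.card_congr e]
  simp

theorem DefP.leLogPow (c : ℕ) {f : ∀ n : ℕ, E n → H n} (hf : Tm f) :
    DefP (fun n G X x => nv (f n x) ≤ (Nat.log 2 n) ^ c ∧ 1 ≤ n) := by
  refine DefP.congr (P := fun n G X x =>
    Nat.card {s : H n // nv s < nv (f n x)} ≤
      Nat.card {z : Fin c → Fin n // ∀ i, (z i).val < Nat.log 2 n} ∧ ¬ (n ≤ 0)) ?_ ?_
  · refine DefP.and (DefP.cardLe (S := H) (T := fun n => Fin c → Fin n) ?_ ?_)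
      (DefP.not (defP_card_le 0))
    · exact DefP.nLt (Tm.snd Tm.id) (hf.comp (Tm.fst Tm.id))
    · exact DefP.forallFintype fun i => DefP.ltLog (Tm.app (Tm.snd Tm.id) i)
  · intro n G X x
    have e : Nat.card {s : H n // nv s < nv (f n x)} = nv (f n x) := by
      unfold nv
      have : ∀ s : H n, (Nat.card {t : H n // key t < key s} <
          Nat.card {t : H n // key t < key (f n x)}) ↔ key s < key (f n x) := fun s => nv_lt_iff
      simp only [this]
    rw [e]
    constructor
    · rintro ⟨h1, h2⟩
      rw [card_logs c n (by omega)] at h1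
      exact ⟨h1, by omega⟩
    · rintro ⟨h1, h2⟩
      rw [card_logs c n h2]
      exact ⟨h1, by omega⟩

/-- at most `n ^ c` -/
theorem DefP.lePow (c : ℕ) {f : ∀ n : ℕ, E n → H n} (hf : Tm f) :
    DefP (fun n G X x => nv (f n x) ≤ n ^ c ∧ 1 ≤ n) := by
  refine DefP.congr (P := fun n G X x => (∃ z : Fin c → Fin n,
    nv (f n x) ≤ nv (S := fun n => Fin c → Fin n) z ∨
      nv (f n x) = nv (S := fun n => Fin c → Fin n) z + 1) ∧ ¬ (n ≤ 0)) ?_ ?_
  · refine DefP.and (DefP.ex (F := fun n => Fin c → Fin n) (DefP.or ?_ ?_))
      (DefP.not (defP_card_le 0))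
    · exact DefP.nLe (H := fun n => Fin c → Fin n) (hf.comp (Tm.fst Tm.id)) (Tm.snd Tm.id)
    · exact DefP.nSucc (F := fun n => Fin c → Fin n) (Tm.snd Tm.id) (hf.comp (Tm.fst Tm.id))
  · intro n G X x
    have hd : dim (fun n => Fin c → Fin n) = c := by
      show c * 1 = c
      omega
    constructor
    · rintro ⟨⟨z, hz⟩, h2⟩
      have := nv_lt (S := fun n => Fin c → Fin n) z
      rw [hd] at this
      exact ⟨by omega, by omega⟩
    · rintro ⟨h1, h2⟩
      refine ⟨?_, by omega⟩
      have h3 : 0 < n ^ c := by positivity
      obtain ⟨z, hz⟩ := nv_surj (S := fun n => Fin c → Fin n) (n := n) (m := n ^ c - 1)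
        (by rw [hd]; omega)
      exact ⟨z, by omega⟩

end small

end Pool.Agent.PMNC
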