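import Mathlib
import Pool.Agent.Lib.MP_0087d5_lc.ZNum
import Pool.Agent.Lib.MP_0087d5_lc.R1

set_option autoImplicit false
set_option linter.all false

/-!
# Bipartite graphs of small nullity
-/

namespace Pool.Agent.PMNC

open Relation Matrix Module

/-- the graph is bipartite -/
def bip {n : ℕ} (G : SimpleGraph (Fin n)) : Prop := ∀ u v, G.Adj u v → (Sd G u ↔ ¬ Sd G v)

theorem bip_iff {n : ℕ} (G : SimpleGraph (Fin n)) : G.Colorable 2 ↔ bip G := by
  classical
  constructor
  · intro h u v huv
    exact sd_proper h huv
  · intro h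
    refine ⟨SimpleGraph.Coloring.mk (fun v => if Sd G v then (0 : Fin 2) else 1) ?_⟩
    intro u v huv
    have := h u v huv
    by_cases h1 : Sd G u
    · rw [if_pos h1, if_neg (this.1 h1)]
      decide
    · have h2 : Sd G v := by
        by_contra h3
        exact h1 (this.2 h3)
      rw [if_neg h1, if_pos h2]
      decide

/-- from a permutation along the edges of a bipartite graph to a perfect matching -/
theorem hasPM_of_perm {n : ℕ} {G : SimpleGraph (Fin n)} (hG : G.Colorable 2) (σ : Equiv.Perm (Fin n))
    (hσ : ∀ v, G.Adj v (σ v)) : HasPM G := by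
  classical
  obtain ⟨C⟩ := hG
  have h2 : ∀ x y : Fin 2, x ≠ y → (x = 0 ↔ ¬ y = 0) := by decide
  have hc : ∀ u v, G.Adj u v → (C u = 0 ↔ ¬ C v = 0) := fun u v h => h2 _ _ (C.valid h)
  refine hasPM_iff.2 ⟨fun v => if C v = 0 then σ v else σ.symm v, fun v => ?_, fun v => ?_⟩
  · by_cases h : C v = 0
    · have h1 := (hc _ _ (hσ v)).1 h
      beta_reduce
      rw [if_pos h, if_neg h1, Equiv.symm_apply_apply]
    · have h1 : C (σ.symm v) = 0 := by
        have := hσ (σ.symm v)
        rw [Equiv.apply_symm_apply] at this
        exact (hc _ _ this).2 h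
      beta_reduce
      rw [if_neg h, if_pos h1, Equiv.apply_symm_apply]
  · by_cases h : C v = 0
    · beta_reduce
      rw [if_pos h]
      exact hσ v
    · beta_reduce
      rw [if_neg h]
      have := hσ (σ.symm v)
      rw [Equiv.apply_symm_apply] at this
      exact this.symm

section main
variable {S : ℕ → Type} [Env S] [∀ n, Fintype (S n)] {n : ℕ}

/-- dummies -/
def du {n : ℕ} (t : Fin n × Fin n) : Prop := ¬ isO t

/-- allowed positions -/
def ok (G : SimpleGraph (Fin n)) (r c : Fin n × Fin n) : Prop := ¬ du r → ¬ du c → G.Adj r.2 c.2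

/-- the initial matrix -/
noncomputable def B0 (G : SimpleGraph (Fin n)) (m k t a : S n) (r c : Fin n × Fin n) : ℤ :=
  cnd (isO r ∧ isO c)
    (cnd (G.Adj r.2 c.2)
      (∑ e : S n, cnd (wE (nv m) r.2 c.2 = nv e) (((nv a : ℕ) : ℤ) ^ nv e) 0) 0)
  (cnd (isO r ∧ isA (nv k) c)
    (((nv t : ℕ) : ℤ) ^ nv (S := fun n => Fin n) r.2 *
      ((nv (S := fun n => Fin n) r.2 : ℕ) : ℤ) ^ nv (S := fun n => Fin n) c.2)
  (cnd (isA (nv k) r ∧ isO c)
    (((nv t : ℕ) : ℤ) ^ nv (S := fun n => Fin n) c.2 *
      ((nv (S := fun n => Fin n) c.2 : ℕ) : ℤ) ^ nv (S := fun n => Fin n) r.2)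
  (cnd (r = c ∧ ¬ isA (nv k) r) 1 0)))

theorem wE_le (m : ℕ) (u v : Fin n) : wE m u v ≤ m := by
  unfold wE
  split_ifs with h
  · exact (Nat.mod_lt _ (by omega)).le
  · exact Nat.zero_le _

theorem cnd_eq_ite (P : Prop) [Decidable P] (a b : ℤ) : cnd P a b = if P then a else b := by
  by_cases h : P
  · rw [cnd_pos h, if_pos h]
  · rw [cnd_neg h, if_neg h]

theorem B0_eq (G : SimpleGraph (Fin n)) (m k t a : S n) (r c : Fin n × Fin n) :
    B0 G m k t a r c = bz G (wE (nv m)) (nv k) ((nv a : ℕ) : ℤ) ((nv t : ℕ) : ℤ) r c := by
  classical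
  have e1 : ∑ e : S n, cnd (wE (nv m) r.2 c.2 = nv e) (((nv a : ℕ) : ℤ) ^ nv e) 0 =
      ((nv a : ℕ) : ℤ) ^ wE (nv m) r.2 c.2 := by
    obtain ⟨e, he⟩ := nv_down' (b := m) (wE_le (nv m) r.2 c.2)
    rw [Finset.sum_eq_single e]
    · rw [cnd_pos he.symm, he]
    · intro e' _ hne
      rw [cnd_neg]
      intro h
      exact hne (nv_injective (by omega))
    · intro h
      exact absurd (Finset.mem_univ _) h
  unfold B0 bz
  rw [e1, Matrix.of_apply]
  simp only [cnd_eq_ite, nv_fin]

theorem B0_of (G : SimpleGraph (Fin n)) (m k t a : S n) :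
    Matrix.of (B0 G m k t a) = bz G (wE (nv m)) (nv k) ((nv a : ℕ) : ℤ) ((nv t : ℕ) : ℤ) := by
  ext r c
  rw [Matrix.of_apply, B0_eq]

theorem sup_B0 (p : S n) (G : SimpleGraph (Fin n)) (m k t a : S n) :
    sup (T := fun n => Fin n × Fin n) p du (ok G) (B0 G m k t a) := by
  intro r c hr hc hnd _ _
  by_contra h
  apply hnd.2
  have hr' : isO r := not_not.1 hr
  have hc' : isO c := not_not.1 hc
  unfold B0
  rw [cnd_pos ⟨hr', hc'⟩, cnd_neg h]
  exact dvd_zero _

theorem nact_B0 {p : S n} (hp : 0 < nv p) (G : SimpleGraph (Fin n)) (m k t a : S n) :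
    nact (T := fun n => Fin n × Fin n) p du (B0 G m k t a) ≤ nv k := by
  classical
  have h1 : ∀ i : Fin n × Fin n, act (T := fun n => Fin n × Fin n) p du (B0 G m k t a) i →
      isA (nv k) i := by
    intro i hi
    by_contra hc
    apply hi.2
    intro j
    have hO : ¬ isO i := hi.1
    rw [B0_eq, B0_eq, bz_x _ _ hO hc, bz_x' _ _ hO hc]
    unfold dlt
    rw [cnd_eq_ite, cnd_eq_ite, sub_self, sub_self]
    exact ⟨⟨hp, dvd_zero _⟩, ⟨hp, dvd_zero _⟩⟩
  unfold nact
  have h2 : Nat.card {i : Fin n × Fin n //
      act (T := fun n => Fin n × Fin n) p du (B0 G m k t a) i} ≤ Nat.card (Fin (nv k)) := by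
    refine Nat.card_le_card_of_injective (fun i => ⟨i.1.2.val, (h1 i.1 i.2).2⟩) ?_
    intro i j hij
    have h3 : i.1.2.val = j.1.2.val := by
      have := congrArg Fin.val hij
      exact this
    have h4 := (h1 i.1 i.2).1
    have h5 := (h1 j.1 j.2).1
    apply Subtype.ext
    exact Prod.ext (Fin.ext (by omega)) (Fin.ext h3)
  have h6 : Nat.card (Fin (nv k)) = nv k := by simp
  rwa [h6] at h2

open Classical in
/-- the determinant of a matrix whose rows and columns are tuples -/
noncomputable def zdet {T : ℕ → Type} [∀ n, Fintype (T n)] {n : ℕ} (B : T n → T n → ℤ) : ℤ :=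
  Matrix.det (Matrix.of B)

theorem zdet_eq {T : ℕ → Type} [∀ n, Fintype (T n)] {n : ℕ} (inst : DecidableEq (T n))
    (B : T n → T n → ℤ) : zdet B = Matrix.det (Matrix.of B) := by
  have h : inst = fun a b => Classical.propDecidable (a = b) := Subsingleton.elim _ _
  subst h
  rfl

end main

/-- the class -/
def cls (c d n : ℕ) (G : SimpleGraph (Fin n)) : Prop :=
  G.Colorable 2 ∧ ∃ m, 1 ≤ m ∧ m ≤ n ^ d ∧
    n ≤ (adx G (wE m) (RatFunc.X : RatFunc ℚ)).rank + (Nat.log 2 n) ^ c

theorem rank_iff {n : ℕ} (A : Matrix (Fin n) (Fin n) (RatFunc ℚ)) (L : ℕ) :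
    n ≤ A.rank + L ↔ finrank (RatFunc ℚ) (LinearMap.ker A.mulVecLin) ≤ L := by
  have h := LinearMap.finrank_range_add_finrank_ker A.mulVecLin
  rw [Module.finrank_fintype_fun_eq_card, Fintype.card_fin] at h
  unfold Matrix.rank
  omega

section sem
variable {S : ℕ → Type} [Env S] [∀ n, Fintype (S n)] {c d n : ℕ}

/-- the tuple `m k t a p` shows that the nullity is small -/
def ts1 (c d : ℕ) (G : SimpleGraph (Fin n)) (e : (S n × (S n × (S n × (S n × S n))))) : Prop :=
  (nv e.1 ≤ n ^ d ∧ 1 ≤ n) ∧ ¬ (nv e.1 = 0) ∧
    (nv e.2.1 ≤ (Nat.log 2 n) ^ c ∧ 1 ≤ n) ∧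
    nd e.2.2.2.2
      (zdet (T := fun n => Fin n × Fin n) (B0 G e.1 e.2.1 e.2.2.1 e.2.2.2.1))

/-- the stages lead to a nonsingular matrix without active dummies -/
def ts2 (c : ℕ) (G : SimpleGraph (Fin n)) (e : (S n × (S n × (S n × (S n × S n))))) : Prop :=
  fin' (T := fun n => Fin n × Fin n) e.2.2.2.2 du
    ((stg (T := fun n => Fin n × Fin n) e.2.2.2.2 du (ok G))^[(1 * Nat.size n) ^ (c + 1)]
      (rlm (T := fun n => Fin n × Fin n) e.2.2.2.2
        (B0 G e.1 e.2.1 e.2.2.1 e.2.2.2.1)))

theorem ts1_sound (hn : 2 ≤ n) (G : SimpleGraph (Fin n)) (hG : bip G) {e : (S n × (S n × (S n × (S n × S n))))}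
    (h : ts1 c d G e) : cls c d n G := by
  obtain ⟨⟨h1, _⟩, h2, ⟨h3, _⟩, h4⟩ := h
  refine ⟨(bip_iff G).2 hG, nv e.1, by omega, h1, ?_⟩
  rw [rank_iff]
  refine le_trans (rank_sound hn (k := nv e.2.1) (t := nv e.2.2.1)
    (a := nv e.2.2.2.1) ?_) h3
  intro hc
  apply h4.2
  rw [zdet_eq (T := fun n => Fin n × Fin n) inferInstance, B0_of, hc]
  exact dvd_zero _

theorem ts1_complete (hS : dim S = 4 * d + 29) (hn : 2 ≤ n) (G : SimpleGraph (Fin n))
    (h : cls c d n G) :
    ∃ e : (S n × (S n × (S n × (S n × S n)))), ts1 c d G e ∧ (nv e.2.2.2.2).Prime ∧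
      n * n < nv e.2.2.2.2 := by
  obtain ⟨hG, m, hm1, hm2, hm3⟩ := h
  rw [rank_iff] at hm3
  obtain ⟨k, hk⟩ : ∃ k, finrank (RatFunc ℚ) (LinearMap.ker
    (adx G (wE m) (RatFunc.X : RatFunc ℚ)).mulVecLin) = k := ⟨_, rfl⟩
  rw [hk] at hm3
  obtain ⟨t, a, p, ht, ha, hp, hp1, hp2, hp3⟩ := rank_complete hn (c := d)
    (fun u v => (wE_le m u v)) (wE_comm m) hm2 hk
  have hkn : k ≤ n := by
    rw [← hk]
    have := Submodule.finrank_le (LinearMap.ker
      (adx G (wE m) (RatFunc.X : RatFunc ℚ)).mulVecLin)
    rwa [Module.finrank_fintype_fun_eq_card, Fintype.card_fin] at this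
  have hb : ∀ x, x < n ^ (4 * d + 29) → ∃ s : S n, nv s = x := fun x hx =>
    nv_surj (by rw [hS]; exact hx)
  obtain ⟨m', hm'⟩ := hb m (lt_of_le_of_lt hm2 (Nat.pow_lt_pow_right (by omega) (by omega)))
  obtain ⟨k', hk'⟩ := hb k (lt_of_le_of_lt hkn (by
    calc n = n ^ 1 := (pow_one n).symm
      _ < n ^ (4 * d + 29) := Nat.pow_lt_pow_right (by omega) (by omega)))
  obtain ⟨t', ht'⟩ := hb t ht
  obtain ⟨a', ha'⟩ := hb a ha
  obtain ⟨p', hp'⟩ := hb p hp
  refine ⟨(m', (k', (t', (a', p')))), ⟨⟨by rw [hm']; exact hm2, by omega⟩, by rw [hm']; omega,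
    ⟨by rw [hk']; exact hm3, by omega⟩, ?_⟩, by rw [hp']; exact hp1, by rw [hp']; exact hp2⟩
  refine ⟨by rw [hp']; exact hp1.pos, ?_⟩
  rw [zdet_eq (T := fun n => Fin n × Fin n) inferInstance, B0_of, hm', hk', ht', ha', hp']
  exact hp3

theorem ts2_sound (hn : 2 ≤ n) (G : SimpleGraph (Fin n)) (hG : bip G) {e : (S n × (S n × (S n × (S n × S n))))}
    (h : ts2 c G e) : HasPM G := by
  obtain ⟨σ, hσ⟩ := fin_sound (T := fun n => Fin n × Fin n) 
    (sup_B0 e.2.2.2.2 G e.1 e.2.1 e.2.2.1 e.2.2.2.1) h
  have h0 : ∀ v : Fin n, ¬ du ((⟨0, by omega⟩ : Fin n), v) := fun v hv => hv rfl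
  have h1 : ∀ v : Fin n, isO (σ (⟨0, by omega⟩, v)) := fun v => not_not.1 (hσ _ (h0 v)).1
  have hinj : Function.Injective (fun v : Fin n => (σ (⟨0, by omega⟩, v)).2) := by
    intro u v huv
    have h2 : σ (⟨0, by omega⟩, u) = σ (⟨0, by omega⟩, v) := by
      refine Prod.ext (Fin.ext ?_) huv
      have e1 := h1 u
      have e2 := h1 v
      unfold isO at e1 e2
      rw [e1, e2]
    have h3 := σ.injective h2
    exact congrArg Prod.snd h3
  refine hasPM_of_perm ((bip_iff G).2 hG) (Equiv.ofBijective _
    (Finite.injective_iff_bijective.1 hinj)) ?_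
  intro v
  have h2 := hσ _ (h0 v)
  exact h2.2 (h0 v) h2.1

theorem ts2_complete (hn : 2 ≤ n) (G : SimpleGraph (Fin n)) (hPM : HasPM G) {e : (S n × (S n × (S n × (S n × S n))))}
    (h : ts1 c d G e) (hp : (nv e.2.2.2.2).Prime)
    (hp2 : n * n < nv e.2.2.2.2) : ts2 c G e := by
  classical
  obtain ⟨f, hf, hfa⟩ := hasPM_iff.1 hPM
  let g : Fin n × Fin n → Fin n × Fin n := fun t => if t.1.val = 0 then (t.1, f t.2) else t
  have hg : Function.Involutive g := by
    intro t
    by_cases h0 : t.1.val = 0
    · have e1 : g t = (t.1, f t.2) := if_pos h0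
      have e2 : g (t.1, f t.2) = (t.1, f (f t.2)) := if_pos h0
      rw [e1, e2, hf]
    · have e1 : g t = t := if_neg h0
      rw [e1, e1]
  have hcard : Fintype.card (Fin n × Fin n) < nv e.2.2.2.2 := by
    rw [Fintype.card_prod, Fintype.card_fin]
    exact hp2
  refine fin_complete (T := fun n => Fin n × Fin n) hp hcard (hg.toPerm g) ?_ ?_
    (show nd e.2.2.2.2 (zdet (T := fun n => Fin n × Fin n)
      (B0 G e.1 e.2.1 e.2.2.1 e.2.2.2.1)) from h.2.2.2) ?_
  · intro i hi
    exact if_neg hi
  · intro i hi1 hi2
    have hO : i.1.val = 0 := not_not.1 hi1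
    have e1 : (hg.toPerm g) i = (i.1, f i.2) := if_pos hO
    rw [e1]
    exact hfa _
  · refine (nact_B0 hp.pos G e.1 e.2.1 e.2.2.1 e.2.2.2.1).trans (h.2.2.1.1.trans ?_)
    rw [one_mul]
    have h1 := size_log (n := n) (by omega)
    calc (Nat.log 2 n) ^ c ≤ (Nat.size n) ^ c := Nat.pow_le_pow_left (by omega) _
      _ ≤ (Nat.size n) ^ (c + 1) := Nat.pow_le_pow_right (by omega) (by omega)

theorem cls_iff (hS : dim S = 4 * d + 29) (hn : 2 ≤ n) (G : SimpleGraph (Fin n)) :
    cls c d n G ↔ bip G ∧ ∃ e : (S n × (S n × (S n × (S n × S n)))), ts1 c d G e := by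
  constructor
  · intro h
    obtain ⟨e, he, _⟩ := ts1_complete hS hn G h
    exact ⟨(bip_iff G).1 h.1, e, he⟩
  · rintro ⟨h1, e, he⟩
    exact ts1_sound hn G h1 he

theorem cls_pm_iff (hS : dim S = 4 * d + 29) (hn : 2 ≤ n) (G : SimpleGraph (Fin n)) :
    (cls c d n G ∧ HasPM G) ↔ bip G ∧ ∃ e : (S n × (S n × (S n × (S n × S n)))), ts1 c d G e ∧ ts2 c G e := by
  constructor
  · rintro ⟨h, h2⟩
    obtain ⟨e, he, hp, hp2⟩ := ts1_complete hS hn G h
    exact ⟨(bip_iff G).1 h.1, e, he, ts2_complete hn G h2 he hp hp2⟩
  · rintro ⟨h1, e, he, he2⟩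
    exact ⟨ts1_sound hn G h1 he, ts2_sound hn G h1 he2⟩

end sem

section def_
variable {E S : ℕ → Type} [Env E] [Env S] [∀ n, Fintype (S n)]

theorem DefP.isO {f : ∀ n : ℕ, E n → Fin n × Fin n} (hf : Tm (F := fun n => Fin n × Fin n) f) :
    DefP (fun n G X x => PMNC.isO (f n x)) := by
  refine DefP.congr (P := fun n G X x => nv (S := fun n => Fin n) (f n x).1 = 0)
    (DefP.nZero (F := fun n => Fin n) hf.fst) ?_
  intro n G X x
  rw [nv_fin]
  rfl

theorem DefP.isA {f : ∀ n : ℕ, E n → Fin n × Fin n} (hf : Tm (F := fun n => Fin n × Fin n) f)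
    {k : ∀ n : ℕ, E n → S n} (hk : Tm k) :
    DefP (fun n G X x => PMNC.isA (nv (k n x)) (f n x)) := by
  refine DefP.congr (P := fun n G X x => nv (S := fun n => Fin n) (f n x).1 = 1 ∧
    nv (S := fun n => Fin n) (f n x).2 < nv (k n x))
    (DefP.and (DefP.nOne (F := fun n => Fin n) hf.fst)
      (DefP.nLt (F := fun n => Fin n) hf.snd hk)) ?_
  intro n G X x
  rw [nv_fin, nv_fin]
  rfl

theorem DefZ.B0 (hS : 2 ≤ dim S) {p m k t a : ∀ n : ℕ, E n → S n} (hp : Tm p) (hm : Tm m)
    (hk : Tm k) (ht : Tm t) (ha : Tm a) :
    DefZ (E := fun n => E n × ((Fin n × Fin n) × (Fin n × Fin n))) (fun n y => p n y.1)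
      (fun n G X y => PMNC.B0 G (m n y.1) (k n y.1) (t n y.1) (a n y.1) y.2.1 y.2.2) := by
  unfold PMNC.B0
  have hE : ∀ {f : ∀ n : ℕ, E n → S n}, Tm f →
      Tm (fun n (y : E n × ((Fin n × Fin n) × (Fin n × Fin n))) => f n y.1) := fun hf =>
    hf.comp (Tm.fst Tm.id)
  have hE2 : ∀ {f : ∀ n : ℕ, E n → S n}, Tm f →
      Tm (fun n (y : (E n × ((Fin n × Fin n) × (Fin n × Fin n))) × S n) => f n y.1.1) := fun hf =>
    hf.comp (Tm.fst (Tm.fst Tm.id))
  refine DefZ.ite (DefP.and (DefP.isO ?_) (DefP.isO ?_)) (DefZ.ite (DefP.adj ?_ ?_) ?_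
    (DefZ.zero (hE hp))) ?_
  · (repeat' (first
      | apply DefP.cho | apply DefP.halfSet | apply DefP.pr | apply DefP.oddRk | apply DefP.nOne
      | apply DefP.nZero | apply DefP.nSucc | apply DefP.nAdd | apply DefP.nLt | apply DefP.nLe
      | apply DefP.nEq | apply DefP.hlf | apply DefP.p1le | apply DefP.p1 | apply DefP.p0
      | apply DefP.aug | apply DefP.pth | apply DefP.nx | apply DefP.cnd | apply DefP.hmin
      | apply DefP.hit | apply DefP.cdn | apply DefP.firstEx | apply DefP.exN | apply DefP.end_
      | apply DefP.isZero | apply DefP.isSucc | apply DefP.alt | apply DefP.exr | apply DefP.exl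
      | apply DefP.side | apply DefP.oddCard | apply DefP.cardEq | apply DefP.cardLt
      | apply DefP.cardLe | apply DefP.lst | apply DefP.fst | apply DefP.nxt | apply DefP.keyLe
      | apply DefP.keyLt | apply DefP.rtc | (apply DefP.app4; assumption)
      | (apply DefP.app3'; assumption) | (apply DefP.app3; assumption)
      | (apply DefP.app2; assumption) | (apply DefP.comp; assumption) | exact Tm.id
      | exact Tm.unit | apply Tm.fst | apply Tm.snd | apply Tm.app | exact DefP.const _
      | apply DefP.and | apply DefP.not | apply DefP.or | apply DefP.iff | apply DefP.adj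
      | apply DefP.le | apply DefP.lt | apply DefP.eqFin | apply DefP.eq | apply DefP.rv
      | apply DefP.imp | apply DefP.allFin | apply DefP.exFin | apply DefP.all | apply DefP.ex
      | assumption | (apply Tm.comp; assumption) | apply Tm.pair | apply Tm.lam))
  · (repeat' (first
      | apply DefP.cho | apply DefP.halfSet | apply DefP.pr | apply DefP.oddRk | apply DefP.nOne
      | apply DefP.nZero | apply DefP.nSucc | apply DefP.nAdd | apply DefP.nLt | apply DefP.nLe
      | apply DefP.nEq | apply DefP.hlf | apply DefP.p1le | apply DefP.p1 | apply DefP.p0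
      | apply DefP.aug | apply DefP.pth | apply DefP.nx | apply DefP.cnd | apply DefP.hmin
      | apply DefP.hit | apply DefP.cdn | apply DefP.firstEx | apply DefP.exN | apply DefP.end_
      | apply DefP.isZero | apply DefP.isSucc | apply DefP.alt | apply DefP.exr | apply DefP.exl
      | apply DefP.side | apply DefP.oddCard | apply DefP.cardEq | apply DefP.cardLt
      | apply DefP.cardLe | apply DefP.lst | apply DefP.fst | apply DefP.nxt | apply DefP.keyLe
      | apply DefP.keyLt | apply DefP.rtc | (apply DefP.app4; assumption)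
      | (apply DefP.app3'; assumption) | (apply DefP.app3; assumption)
      | (apply DefP.app2; assumption) | (apply DefP.comp; assumption) | exact Tm.id
      | exact Tm.unit | apply Tm.fst | apply Tm.snd | apply Tm.app | exact DefP.const _
      | apply DefP.and | apply DefP.not | apply DefP.or | apply DefP.iff | apply DefP.adj
      | apply DefP.le | apply DefP.lt | apply DefP.eqFin | apply DefP.eq | apply DefP.rv
      | apply DefP.imp | apply DefP.allFin | apply DefP.exFin | apply DefP.all | apply DefP.ex
      | assumption | (apply Tm.comp; assumption) | apply Tm.pair | apply Tm.lam))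
  · (repeat' (first
      | apply DefP.cho | apply DefP.halfSet | apply DefP.pr | apply DefP.oddRk | apply DefP.nOne
      | apply DefP.nZero | apply DefP.nSucc | apply DefP.nAdd | apply DefP.nLt | apply DefP.nLe
      | apply DefP.nEq | apply DefP.hlf | apply DefP.p1le | apply DefP.p1 | apply DefP.p0
      | apply DefP.aug | apply DefP.pth | apply DefP.nx | apply DefP.cnd | apply DefP.hmin
      | apply DefP.hit | apply DefP.cdn | apply DefP.firstEx | apply DefP.exN | apply DefP.end_
      | apply DefP.isZero | apply DefP.isSucc | apply DefP.alt | apply DefP.exr | apply DefP.exl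
      | apply DefP.side | apply DefP.oddCard | apply DefP.cardEq | apply DefP.cardLt
      | apply DefP.cardLe | apply DefP.lst | apply DefP.fst | apply DefP.nxt | apply DefP.keyLe
      | apply DefP.keyLt | apply DefP.rtc | (apply DefP.app4; assumption)
      | (apply DefP.app3'; assumption) | (apply DefP.app3; assumption)
      | (apply DefP.app2; assumption) | (apply DefP.comp; assumption) | exact Tm.id
      | exact Tm.unit | apply Tm.fst | apply Tm.snd | apply Tm.app | exact DefP.const _
      | apply DefP.and | apply DefP.not | apply DefP.or | apply DefP.iff | apply DefP.adj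
      | apply DefP.le | apply DefP.lt | apply DefP.eqFin | apply DefP.eq | apply DefP.rv
      | apply DefP.imp | apply DefP.allFin | apply DefP.exFin | apply DefP.all | apply DefP.ex
      | assumption | (apply Tm.comp; assumption) | apply Tm.pair | apply Tm.lam))
  · (repeat' (first
      | apply DefP.cho | apply DefP.halfSet | apply DefP.pr | apply DefP.oddRk | apply DefP.nOne
      | apply DefP.nZero | apply DefP.nSucc | apply DefP.nAdd | apply DefP.nLt | apply DefP.nLe
      | apply DefP.nEq | apply DefP.hlf | apply DefP.p1le | apply DefP.p1 | apply DefP.p0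
      | apply DefP.aug | apply DefP.pth | apply DefP.nx | apply DefP.cnd | apply DefP.hmin
      | apply DefP.hit | apply DefP.cdn | apply DefP.firstEx | apply DefP.exN | apply DefP.end_
      | apply DefP.isZero | apply DefP.isSucc | apply DefP.alt | apply DefP.exr | apply DefP.exl
      | apply DefP.side | apply DefP.oddCard | apply DefP.cardEq | apply DefP.cardLt
      | apply DefP.cardLe | apply DefP.lst | apply DefP.fst | apply DefP.nxt | apply DefP.keyLe
      | apply DefP.keyLt | apply DefP.rtc | (apply DefP.app4; assumption)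
      | (apply DefP.app3'; assumption) | (apply DefP.app3; assumption)
      | (apply DefP.app2; assumption) | (apply DefP.comp; assumption) | exact Tm.id
      | exact Tm.unit | apply Tm.fst | apply Tm.snd | apply Tm.app | exact DefP.const _
      | apply DefP.and | apply DefP.not | apply DefP.or | apply DefP.iff | apply DefP.adj
      | apply DefP.le | apply DefP.lt | apply DefP.eqFin | apply DefP.eq | apply DefP.rv
      | apply DefP.imp | apply DefP.allFin | apply DefP.exFin | apply DefP.all | apply DefP.ex
      | assumption | (apply Tm.comp; assumption) | apply Tm.pair | apply Tm.lam))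
  · refine DefZ.sum (hE hp) (DefZ.ite ?_ (DefZ.pow (H := S) (hE2 hp)
      (DefZ.nv' (H := S) (hE2 hp) (hE2 ha)) ?_) (DefZ.zero (hE2 hp)))
    · exact DefP.comp (F := fun n => E n × ((Fin n × Fin n) × S n))
        (f := fun n (y : (E n × ((Fin n × Fin n) × (Fin n × Fin n))) × S n) =>
          (y.1.1, ((y.1.2.1.2, y.1.2.2.2), y.2))) (DefP.wE hS hm) (by (repeat' (first
              | apply DefP.cho | apply DefP.halfSet | apply DefP.pr | apply DefP.oddRk
              | apply DefP.nOne | apply DefP.nZero | apply DefP.nSucc | apply DefP.nAdd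
              | apply DefP.nLt | apply DefP.nLe | apply DefP.nEq | apply DefP.hlf
              | apply DefP.p1le | apply DefP.p1 | apply DefP.p0 | apply DefP.aug
              | apply DefP.pth | apply DefP.nx | apply DefP.cnd | apply DefP.hmin
              | apply DefP.hit | apply DefP.cdn | apply DefP.firstEx | apply DefP.exN
              | apply DefP.end_ | apply DefP.isZero | apply DefP.isSucc | apply DefP.alt
              | apply DefP.exr | apply DefP.exl | apply DefP.side | apply DefP.oddCard
              | apply DefP.cardEq | apply DefP.cardLt | apply DefP.cardLe | apply DefP.lst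
              | apply DefP.fst | apply DefP.nxt | apply DefP.keyLe | apply DefP.keyLt
              | apply DefP.rtc | (apply DefP.app4; assumption) | (apply DefP.app3'; assumption)
              | (apply DefP.app3; assumption) | (apply DefP.app2; assumption)
              | (apply DefP.comp; assumption) | exact Tm.id | exact Tm.unit | apply Tm.fst
              | apply Tm.snd | apply Tm.app | exact DefP.const _ | apply DefP.and
              | apply DefP.not | apply DefP.or | apply DefP.iff | apply DefP.adj | apply DefP.le
              | apply DefP.lt | apply DefP.eqFin | apply DefP.eq | apply DefP.rv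
              | apply DefP.imp | apply DefP.allFin | apply DefP.exFin | apply DefP.all
              | apply DefP.ex | assumption | (apply Tm.comp; assumption) | apply Tm.pair
              | apply Tm.lam)))
    · (repeat' (first
        | apply DefP.cho | apply DefP.halfSet | apply DefP.pr | apply DefP.oddRk
        | apply DefP.nOne | apply DefP.nZero | apply DefP.nSucc | apply DefP.nAdd
        | apply DefP.nLt | apply DefP.nLe | apply DefP.nEq | apply DefP.hlf | apply DefP.p1le
        | apply DefP.p1 | apply DefP.p0 | apply DefP.aug | apply DefP.pth | apply DefP.nx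
        | apply DefP.cnd | apply DefP.hmin | apply DefP.hit | apply DefP.cdn
        | apply DefP.firstEx | apply DefP.exN | apply DefP.end_ | apply DefP.isZero
        | apply DefP.isSucc | apply DefP.alt | apply DefP.exr | apply DefP.exl | apply DefP.side
        | apply DefP.oddCard | apply DefP.cardEq | apply DefP.cardLt | apply DefP.cardLe
        | apply DefP.lst | apply DefP.fst | apply DefP.nxt | apply DefP.keyLe | apply DefP.keyLt
        | apply DefP.rtc | (apply DefP.app4; assumption) | (apply DefP.app3'; assumption)
        | (apply DefP.app3; assumption) | (apply DefP.app2; assumption)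
        | (apply DefP.comp; assumption) | exact Tm.id | exact Tm.unit | apply Tm.fst
        | apply Tm.snd | apply Tm.app | exact DefP.const _ | apply DefP.and | apply DefP.not
        | apply DefP.or | apply DefP.iff | apply DefP.adj | apply DefP.le | apply DefP.lt
        | apply DefP.eqFin | apply DefP.eq | apply DefP.rv | apply DefP.imp | apply DefP.allFin
        | apply DefP.exFin | apply DefP.all | apply DefP.ex | assumption
        | (apply Tm.comp; assumption) | apply Tm.pair | apply Tm.lam))
  · refine DefZ.ite (DefP.and (DefP.isO ?_) (DefP.isA ?_ (hE hk))) (DefZ.mul (hE hp)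
      (DefZ.pow (H := fun n => Fin n) (hE hp) (DefZ.nv' (H := S) (hE hp) (hE ht)) ?_)
      (DefZ.pow (H := fun n => Fin n) (hE hp) (DefZ.nv' (H := fun n => Fin n) (hE hp) ?_) ?_)) ?_
    · (repeat' (first
        | apply DefP.cho | apply DefP.halfSet | apply DefP.pr | apply DefP.oddRk
        | apply DefP.nOne | apply DefP.nZero | apply DefP.nSucc | apply DefP.nAdd
        | apply DefP.nLt | apply DefP.nLe | apply DefP.nEq | apply DefP.hlf | apply DefP.p1le
        | apply DefP.p1 | apply DefP.p0 | apply DefP.aug | apply DefP.pth | apply DefP.nx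
        | apply DefP.cnd | apply DefP.hmin | apply DefP.hit | apply DefP.cdn
        | apply DefP.firstEx | apply DefP.exN | apply DefP.end_ | apply DefP.isZero
        | apply DefP.isSucc | apply DefP.alt | apply DefP.exr | apply DefP.exl | apply DefP.side
        | apply DefP.oddCard | apply DefP.cardEq | apply DefP.cardLt | apply DefP.cardLe
        | apply DefP.lst | apply DefP.fst | apply DefP.nxt | apply DefP.keyLe | apply DefP.keyLt
        | apply DefP.rtc | (apply DefP.app4; assumption) | (apply DefP.app3'; assumption)
        | (apply DefP.app3; assumption) | (apply DefP.app2; assumption)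
        | (apply DefP.comp; assumption) | exact Tm.id | exact Tm.unit | apply Tm.fst
        | apply Tm.snd | apply Tm.app | exact DefP.const _ | apply DefP.and | apply DefP.not
        | apply DefP.or | apply DefP.iff | apply DefP.adj | apply DefP.le | apply DefP.lt
        | apply DefP.eqFin | apply DefP.eq | apply DefP.rv | apply DefP.imp | apply DefP.allFin
        | apply DefP.exFin | apply DefP.all | apply DefP.ex | assumption
        | (apply Tm.comp; assumption) | apply Tm.pair | apply Tm.lam))
    · (repeat' (first
        | apply DefP.cho | apply DefP.halfSet | apply DefP.pr | apply DefP.oddRk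
        | apply DefP.nOne | apply DefP.nZero | apply DefP.nSucc | apply DefP.nAdd
        | apply DefP.nLt | apply DefP.nLe | apply DefP.nEq | apply DefP.hlf | apply DefP.p1le
        | apply DefP.p1 | apply DefP.p0 | apply DefP.aug | apply DefP.pth | apply DefP.nx
        | apply DefP.cnd | apply DefP.hmin | apply DefP.hit | apply DefP.cdn
        | apply DefP.firstEx | apply DefP.exN | apply DefP.end_ | apply DefP.isZero
        | apply DefP.isSucc | apply DefP.alt | apply DefP.exr | apply DefP.exl | apply DefP.side
        | apply DefP.oddCard | apply DefP.cardEq | apply DefP.cardLt | apply DefP.cardLe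
        | apply DefP.lst | apply DefP.fst | apply DefP.nxt | apply DefP.keyLe | apply DefP.keyLt
        | apply DefP.rtc | (apply DefP.app4; assumption) | (apply DefP.app3'; assumption)
        | (apply DefP.app3; assumption) | (apply DefP.app2; assumption)
        | (apply DefP.comp; assumption) | exact Tm.id | exact Tm.unit | apply Tm.fst
        | apply Tm.snd | apply Tm.app | exact DefP.const _ | apply DefP.and | apply DefP.not
        | apply DefP.or | apply DefP.iff | apply DefP.adj | apply DefP.le | apply DefP.lt
        | apply DefP.eqFin | apply DefP.eq | apply DefP.rv | apply DefP.imp | apply DefP.allFin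
        | apply DefP.exFin | apply DefP.all | apply DefP.ex | assumption
        | (apply Tm.comp; assumption) | apply Tm.pair | apply Tm.lam))
    · (repeat' (first
        | apply DefP.cho | apply DefP.halfSet | apply DefP.pr | apply DefP.oddRk
        | apply DefP.nOne | apply DefP.nZero | apply DefP.nSucc | apply DefP.nAdd
        | apply DefP.nLt | apply DefP.nLe | apply DefP.nEq | apply DefP.hlf | apply DefP.p1le
        | apply DefP.p1 | apply DefP.p0 | apply DefP.aug | apply DefP.pth | apply DefP.nx
        | apply DefP.cnd | apply DefP.hmin | apply DefP.hit | apply DefP.cdn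
        | apply DefP.firstEx | apply DefP.exN | apply DefP.end_ | apply DefP.isZero
        | apply DefP.isSucc | apply DefP.alt | apply DefP.exr | apply DefP.exl | apply DefP.side
        | apply DefP.oddCard | apply DefP.cardEq | apply DefP.cardLt | apply DefP.cardLe
        | apply DefP.lst | apply DefP.fst | apply DefP.nxt | apply DefP.keyLe | apply DefP.keyLt
        | apply DefP.rtc | (apply DefP.app4; assumption) | (apply DefP.app3'; assumption)
        | (apply DefP.app3; assumption) | (apply DefP.app2; assumption)
        | (apply DefP.comp; assumption) | exact Tm.id | exact Tm.unit | apply Tm.fst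
        | apply Tm.snd | apply Tm.app | exact DefP.const _ | apply DefP.and | apply DefP.not
        | apply DefP.or | apply DefP.iff | apply DefP.adj | apply DefP.le | apply DefP.lt
        | apply DefP.eqFin | apply DefP.eq | apply DefP.rv | apply DefP.imp | apply DefP.allFin
        | apply DefP.exFin | apply DefP.all | apply DefP.ex | assumption
        | (apply Tm.comp; assumption) | apply Tm.pair | apply Tm.lam))
    · (repeat' (first
        | apply DefP.cho | apply DefP.halfSet | apply DefP.pr | apply DefP.oddRk
        | apply DefP.nOne | apply DefP.nZero | apply DefP.nSucc | apply DefP.nAdd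
        | apply DefP.nLt | apply DefP.nLe | apply DefP.nEq | apply DefP.hlf | apply DefP.p1le
        | apply DefP.p1 | apply DefP.p0 | apply DefP.aug | apply DefP.pth | apply DefP.nx
        | apply DefP.cnd | apply DefP.hmin | apply DefP.hit | apply DefP.cdn
        | apply DefP.firstEx | apply DefP.exN | apply DefP.end_ | apply DefP.isZero
        | apply DefP.isSucc | apply DefP.alt | apply DefP.exr | apply DefP.exl | apply DefP.side
        | apply DefP.oddCard | apply DefP.cardEq | apply DefP.cardLt | apply DefP.cardLe
        | apply DefP.lst | apply DefP.fst | apply DefP.nxt | apply DefP.keyLe | apply DefP.keyLt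
        | apply DefP.rtc | (apply DefP.app4; assumption) | (apply DefP.app3'; assumption)
        | (apply DefP.app3; assumption) | (apply DefP.app2; assumption)
        | (apply DefP.comp; assumption) | exact Tm.id | exact Tm.unit | apply Tm.fst
        | apply Tm.snd | apply Tm.app | exact DefP.const _ | apply DefP.and | apply DefP.not
        | apply DefP.or | apply DefP.iff | apply DefP.adj | apply DefP.le | apply DefP.lt
        | apply DefP.eqFin | apply DefP.eq | apply DefP.rv | apply DefP.imp | apply DefP.allFin
        | apply DefP.exFin | apply DefP.all | apply DefP.ex | assumption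
        | (apply Tm.comp; assumption) | apply Tm.pair | apply Tm.lam))
    · (repeat' (first
        | apply DefP.cho | apply DefP.halfSet | apply DefP.pr | apply DefP.oddRk
        | apply DefP.nOne | apply DefP.nZero | apply DefP.nSucc | apply DefP.nAdd
        | apply DefP.nLt | apply DefP.nLe | apply DefP.nEq | apply DefP.hlf | apply DefP.p1le
        | apply DefP.p1 | apply DefP.p0 | apply DefP.aug | apply DefP.pth | apply DefP.nx
        | apply DefP.cnd | apply DefP.hmin | apply DefP.hit | apply DefP.cdn
        | apply DefP.firstEx | apply DefP.exN | apply DefP.end_ | apply DefP.isZero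
        | apply DefP.isSucc | apply DefP.alt | apply DefP.exr | apply DefP.exl | apply DefP.side
        | apply DefP.oddCard | apply DefP.cardEq | apply DefP.cardLt | apply DefP.cardLe
        | apply DefP.lst | apply DefP.fst | apply DefP.nxt | apply DefP.keyLe | apply DefP.keyLt
        | apply DefP.rtc | (apply DefP.app4; assumption) | (apply DefP.app3'; assumption)
        | (apply DefP.app3; assumption) | (apply DefP.app2; assumption)
        | (apply DefP.comp; assumption) | exact Tm.id | exact Tm.unit | apply Tm.fst
        | apply Tm.snd | apply Tm.app | exact DefP.const _ | apply DefP.and | apply DefP.not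
        | apply DefP.or | apply DefP.iff | apply DefP.adj | apply DefP.le | apply DefP.lt
        | apply DefP.eqFin | apply DefP.eq | apply DefP.rv | apply DefP.imp | apply DefP.allFin
        | apply DefP.exFin | apply DefP.all | apply DefP.ex | assumption
        | (apply Tm.comp; assumption) | apply Tm.pair | apply Tm.lam))
    · refine DefZ.ite (DefP.and (DefP.isA ?_ (hE hk)) (DefP.isO ?_)) (DefZ.mul (hE hp)
        (DefZ.pow (H := fun n => Fin n) (hE hp) (DefZ.nv' (H := S) (hE hp) (hE ht)) ?_)
        (DefZ.pow (H := fun n => Fin n) (hE hp) (DefZ.nv' (H := fun n => Fin n) (hE hp) ?_) ?_))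
        (DefZ.ite (DefP.and ?_ (DefP.not (DefP.isA ?_ (hE hk)))) (DefZ.one (hE hp))
          (DefZ.zero (hE hp)))
      · (repeat' (first
          | apply DefP.cho | apply DefP.halfSet | apply DefP.pr | apply DefP.oddRk
          | apply DefP.nOne | apply DefP.nZero | apply DefP.nSucc | apply DefP.nAdd
          | apply DefP.nLt | apply DefP.nLe | apply DefP.nEq | apply DefP.hlf | apply DefP.p1le
          | apply DefP.p1 | apply DefP.p0 | apply DefP.aug | apply DefP.pth | apply DefP.nx
          | apply DefP.cnd | apply DefP.hmin | apply DefP.hit | apply DefP.cdn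
          | apply DefP.firstEx | apply DefP.exN | apply DefP.end_ | apply DefP.isZero
          | apply DefP.isSucc | apply DefP.alt | apply DefP.exr | apply DefP.exl
          | apply DefP.side | apply DefP.oddCard | apply DefP.cardEq | apply DefP.cardLt
          | apply DefP.cardLe | apply DefP.lst | apply DefP.fst | apply DefP.nxt
          | apply DefP.keyLe | apply DefP.keyLt | apply DefP.rtc | (apply DefP.app4; assumption)
          | (apply DefP.app3'; assumption) | (apply DefP.app3; assumption)
          | (apply DefP.app2; assumption) | (apply DefP.comp; assumption) | exact Tm.id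
          | exact Tm.unit | apply Tm.fst | apply Tm.snd | apply Tm.app | exact DefP.const _
          | apply DefP.and | apply DefP.not | apply DefP.or | apply DefP.iff | apply DefP.adj
          | apply DefP.le | apply DefP.lt | apply DefP.eqFin | apply DefP.eq | apply DefP.rv
          | apply DefP.imp | apply DefP.allFin | apply DefP.exFin | apply DefP.all
          | apply DefP.ex | assumption | (apply Tm.comp; assumption) | apply Tm.pair
          | apply Tm.lam))
      · (repeat' (first
          | apply DefP.cho | apply DefP.halfSet | apply DefP.pr | apply DefP.oddRk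
          | apply DefP.nOne | apply DefP.nZero | apply DefP.nSucc | apply DefP.nAdd
          | apply DefP.nLt | apply DefP.nLe | apply DefP.nEq | apply DefP.hlf | apply DefP.p1le
          | apply DefP.p1 | apply DefP.p0 | apply DefP.aug | apply DefP.pth | apply DefP.nx
          | apply DefP.cnd | apply DefP.hmin | apply DefP.hit | apply DefP.cdn
          | apply DefP.firstEx | apply DefP.exN | apply DefP.end_ | apply DefP.isZero
          | apply DefP.isSucc | apply DefP.alt | apply DefP.exr | apply DefP.exl
          | apply DefP.side | apply DefP.oddCard | apply DefP.cardEq | apply DefP.cardLt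
          | apply DefP.cardLe | apply DefP.lst | apply DefP.fst | apply DefP.nxt
          | apply DefP.keyLe | apply DefP.keyLt | apply DefP.rtc | (apply DefP.app4; assumption)
          | (apply DefP.app3'; assumption) | (apply DefP.app3; assumption)
          | (apply DefP.app2; assumption) | (apply DefP.comp; assumption) | exact Tm.id
          | exact Tm.unit | apply Tm.fst | apply Tm.snd | apply Tm.app | exact DefP.const _
          | apply DefP.and | apply DefP.not | apply DefP.or | apply DefP.iff | apply DefP.adj
          | apply DefP.le | apply DefP.lt | apply DefP.eqFin | apply DefP.eq | apply DefP.rv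
          | apply DefP.imp | apply DefP.allFin | apply DefP.exFin | apply DefP.all
          | apply DefP.ex | assumption | (apply Tm.comp; assumption) | apply Tm.pair
          | apply Tm.lam))
      · (repeat' (first
          | apply DefP.cho | apply DefP.halfSet | apply DefP.pr | apply DefP.oddRk
          | apply DefP.nOne | apply DefP.nZero | apply DefP.nSucc | apply DefP.nAdd
          | apply DefP.nLt | apply DefP.nLe | apply DefP.nEq | apply DefP.hlf | apply DefP.p1le
          | apply DefP.p1 | apply DefP.p0 | apply DefP.aug | apply DefP.pth | apply DefP.nx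
          | apply DefP.cnd | apply DefP.hmin | apply DefP.hit | apply DefP.cdn
          | apply DefP.firstEx | apply DefP.exN | apply DefP.end_ | apply DefP.isZero
          | apply DefP.isSucc | apply DefP.alt | apply DefP.exr | apply DefP.exl
          | apply DefP.side | apply DefP.oddCard | apply DefP.cardEq | apply DefP.cardLt
          | apply DefP.cardLe | apply DefP.lst | apply DefP.fst | apply DefP.nxt
          | apply DefP.keyLe | apply DefP.keyLt | apply DefP.rtc | (apply DefP.app4; assumption)
          | (apply DefP.app3'; assumption) | (apply DefP.app3; assumption)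
          | (apply DefP.app2; assumption) | (apply DefP.comp; assumption) | exact Tm.id
          | exact Tm.unit | apply Tm.fst | apply Tm.snd | apply Tm.app | exact DefP.const _
          | apply DefP.and | apply DefP.not | apply DefP.or | apply DefP.iff | apply DefP.adj
          | apply DefP.le | apply DefP.lt | apply DefP.eqFin | apply DefP.eq | apply DefP.rv
          | apply DefP.imp | apply DefP.allFin | apply DefP.exFin | apply DefP.all
          | apply DefP.ex | assumption | (apply Tm.comp; assumption) | apply Tm.pair
          | apply Tm.lam))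
      · (repeat' (first
          | apply DefP.cho | apply DefP.halfSet | apply DefP.pr | apply DefP.oddRk
          | apply DefP.nOne | apply DefP.nZero | apply DefP.nSucc | apply DefP.nAdd
          | apply DefP.nLt | apply DefP.nLe | apply DefP.nEq | apply DefP.hlf | apply DefP.p1le
          | apply DefP.p1 | apply DefP.p0 | apply DefP.aug | apply DefP.pth | apply DefP.nx
          | apply DefP.cnd | apply DefP.hmin | apply DefP.hit | apply DefP.cdn
          | apply DefP.firstEx | apply DefP.exN | apply DefP.end_ | apply DefP.isZero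
          | apply DefP.isSucc | apply DefP.alt | apply DefP.exr | apply DefP.exl
          | apply DefP.side | apply DefP.oddCard | apply DefP.cardEq | apply DefP.cardLt
          | apply DefP.cardLe | apply DefP.lst | apply DefP.fst | apply DefP.nxt
          | apply DefP.keyLe | apply DefP.keyLt | apply DefP.rtc | (apply DefP.app4; assumption)
          | (apply DefP.app3'; assumption) | (apply DefP.app3; assumption)
          | (apply DefP.app2; assumption) | (apply DefP.comp; assumption) | exact Tm.id
          | exact Tm.unit | apply Tm.fst | apply Tm.snd | apply Tm.app | exact DefP.const _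
          | apply DefP.and | apply DefP.not | apply DefP.or | apply DefP.iff | apply DefP.adj
          | apply DefP.le | apply DefP.lt | apply DefP.eqFin | apply DefP.eq | apply DefP.rv
          | apply DefP.imp | apply DefP.allFin | apply DefP.exFin | apply DefP.all
          | apply DefP.ex | assumption | (apply Tm.comp; assumption) | apply Tm.pair
          | apply Tm.lam))
      · (repeat' (first
          | apply DefP.cho | apply DefP.halfSet | apply DefP.pr | apply DefP.oddRk
          | apply DefP.nOne | apply DefP.nZero | apply DefP.nSucc | apply DefP.nAdd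
          | apply DefP.nLt | apply DefP.nLe | apply DefP.nEq | apply DefP.hlf | apply DefP.p1le
          | apply DefP.p1 | apply DefP.p0 | apply DefP.aug | apply DefP.pth | apply DefP.nx
          | apply DefP.cnd | apply DefP.hmin | apply DefP.hit | apply DefP.cdn
          | apply DefP.firstEx | apply DefP.exN | apply DefP.end_ | apply DefP.isZero
          | apply DefP.isSucc | apply DefP.alt | apply DefP.exr | apply DefP.exl
          | apply DefP.side | apply DefP.oddCard | apply DefP.cardEq | apply DefP.cardLt
          | apply DefP.cardLe | apply DefP.lst | apply DefP.fst | apply DefP.nxt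
          | apply DefP.keyLe | apply DefP.keyLt | apply DefP.rtc | (apply DefP.app4; assumption)
          | (apply DefP.app3'; assumption) | (apply DefP.app3; assumption)
          | (apply DefP.app2; assumption) | (apply DefP.comp; assumption) | exact Tm.id
          | exact Tm.unit | apply Tm.fst | apply Tm.snd | apply Tm.app | exact DefP.const _
          | apply DefP.and | apply DefP.not | apply DefP.or | apply DefP.iff | apply DefP.adj
          | apply DefP.le | apply DefP.lt | apply DefP.eqFin | apply DefP.eq | apply DefP.rv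
          | apply DefP.imp | apply DefP.allFin | apply DefP.exFin | apply DefP.all
          | apply DefP.ex | assumption | (apply Tm.comp; assumption) | apply Tm.pair
          | apply Tm.lam))
      · exact DefP.eq (F := fun n => Fin n × Fin n) (Tm.fst (Tm.snd Tm.id)) (Tm.snd (Tm.snd Tm.id))
      · (repeat' (first
          | apply DefP.cho | apply DefP.halfSet | apply DefP.pr | apply DefP.oddRk
          | apply DefP.nOne | apply DefP.nZero | apply DefP.nSucc | apply DefP.nAdd
          | apply DefP.nLt | apply DefP.nLe | apply DefP.nEq | apply DefP.hlf | apply DefP.p1le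
          | apply DefP.p1 | apply DefP.p0 | apply DefP.aug | apply DefP.pth | apply DefP.nx
          | apply DefP.cnd | apply DefP.hmin | apply DefP.hit | apply DefP.cdn
          | apply DefP.firstEx | apply DefP.exN | apply DefP.end_ | apply DefP.isZero
          | apply DefP.isSucc | apply DefP.alt | apply DefP.exr | apply DefP.exl
          | apply DefP.side | apply DefP.oddCard | apply DefP.cardEq | apply DefP.cardLt
          | apply DefP.cardLe | apply DefP.lst | apply DefP.fst | apply DefP.nxt
          | apply DefP.keyLe | apply DefP.keyLt | apply DefP.rtc | (apply DefP.app4; assumption)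
          | (apply DefP.app3'; assumption) | (apply DefP.app3; assumption)
          | (apply DefP.app2; assumption) | (apply DefP.comp; assumption) | exact Tm.id
          | exact Tm.unit | apply Tm.fst | apply Tm.snd | apply Tm.app | exact DefP.const _
          | apply DefP.and | apply DefP.not | apply DefP.or | apply DefP.iff | apply DefP.adj
          | apply DefP.le | apply DefP.lt | apply DefP.eqFin | apply DefP.eq | apply DefP.rv
          | apply DefP.imp | apply DefP.allFin | apply DefP.exFin | apply DefP.all
          | apply DefP.ex | assumption | (apply Tm.comp; assumption) | apply Tm.pair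
          | apply Tm.lam))

theorem defP_ts1 (hS : 2 ≤ dim S) (c d : ℕ) :
    DefP (E := fun n => S n × (S n × (S n × (S n × S n)))) (fun n G X e => ts1 c d G e) := by
  unfold ts1 nd zdet
  have t1 : Tm (fun n (e : S n × (S n × (S n × (S n × S n)))) => e.1) := Tm.fst Tm.id
  have t2 : Tm (fun n (e : S n × (S n × (S n × (S n × S n)))) => e.2.1) := Tm.fst (Tm.snd Tm.id)
  have t3 : Tm (fun n (e : S n × (S n × (S n × (S n × S n)))) => e.2.2.1) :=
    Tm.fst (Tm.snd (Tm.snd Tm.id))
  have t4 : Tm (fun n (e : S n × (S n × (S n × (S n × S n)))) => e.2.2.2.1) :=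
    Tm.fst (Tm.snd (Tm.snd (Tm.snd Tm.id)))
  have t5 : Tm (fun n (e : S n × (S n × (S n × (S n × S n)))) => e.2.2.2.2) :=
    Tm.snd (Tm.snd (Tm.snd (Tm.snd Tm.id)))
  have hB := DefZ.B0 (E := fun n => S n × (S n × (S n × (S n × S n)))) hS t5 t1 t2 t3 t4
  have hD := DefZ.det (T := fun n => Fin n × Fin n)
    (M := fun n G X (e : S n × (S n × (S n × (S n × S n)))) r c' =>
      PMNC.B0 G e.1 e.2.1 e.2.2.1 e.2.2.2.1 r c')
    t5 hB
  exact DefP.and (DefP.lePow d t1) (DefP.and (DefP.not (DefP.nZero t1))
    (DefP.and (DefP.leLogPow c t2) (DefZ.ndvd t5 hD)))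

theorem defP_ts2 (hS : 2 ≤ dim S) (c : ℕ) :
    DefP (E := fun n => S n × (S n × (S n × (S n × S n)))) (fun n G X e => ts2 c G e) := by
  unfold ts2
  have t1 : Tm (fun n (e : S n × (S n × (S n × (S n × S n)))) => e.1) := Tm.fst Tm.id
  have t2 : Tm (fun n (e : S n × (S n × (S n × (S n × S n)))) => e.2.1) := Tm.fst (Tm.snd Tm.id)
  have t3 : Tm (fun n (e : S n × (S n × (S n × (S n × S n)))) => e.2.2.1) :=
    Tm.fst (Tm.snd (Tm.snd Tm.id))
  have t4 : Tm (fun n (e : S n × (S n × (S n × (S n × S n)))) => e.2.2.2.1) :=
    Tm.fst (Tm.snd (Tm.snd (Tm.snd Tm.id)))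
  have t5 : Tm (fun n (e : S n × (S n × (S n × (S n × S n)))) => e.2.2.2.2) :=
    Tm.snd (Tm.snd (Tm.snd (Tm.snd Tm.id)))
  have hdu : DefP (E := fun n => (S n × (S n × (S n × (S n × S n)))) × (Fin n × Fin n))
      (fun n G X y => du y.2) := by
    unfold du
    exact DefP.not (DefP.isO (Tm.snd Tm.id))
  have hB := DefZ.B0 (E := fun n => S n × (S n × (S n × (S n × S n)))) hS t5 t1 t2 t3 t4
  refine DefP.fin' (T := fun n => Fin n × Fin n)
    (p := fun n (e : S n × (S n × (S n × (S n × S n)))) => e.2.2.2.2)
    (Du := fun n G e => du)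
    (R := fun n G X e => (stg (T := fun n => Fin n × Fin n) e.2.2.2.2 du
      (ok G))^[(1 * Nat.size n) ^ (c + 1)] (rlm (T := fun n => Fin n × Fin n) e.2.2.2.2
        (PMNC.B0 G e.1 e.2.1 e.2.2.1 e.2.2.2.1))) t5 hdu ?_
  refine DefP.stgIter (T := fun n => Fin n × Fin n)
    (p := fun n (e : S n × (S n × (S n × (S n × S n)))) => e.2.2.2.2) (Du := fun n G e => du)
    (Ok := fun n G e => ok G)
    (B := fun n G e => PMNC.B0 G e.1 e.2.1 e.2.2.1 e.2.2.2.1) t5 1 c hdu ?_ ?_
  · unfold ok du
    refine DefP.imp (DefP.not (DefP.not (DefP.isO ?_))) (DefP.imp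
      (DefP.not (DefP.not (DefP.isO ?_))) (DefP.adj ?_ ?_))
    all_goals (repeat' (first
        | apply DefP.cho | apply DefP.halfSet | apply DefP.pr | apply DefP.oddRk
        | apply DefP.nOne | apply DefP.nZero | apply DefP.nSucc | apply DefP.nAdd
        | apply DefP.nLt | apply DefP.nLe | apply DefP.nEq | apply DefP.hlf | apply DefP.p1le
        | apply DefP.p1 | apply DefP.p0 | apply DefP.aug | apply DefP.pth | apply DefP.nx
        | apply DefP.cnd | apply DefP.hmin | apply DefP.hit | apply DefP.cdn
        | apply DefP.firstEx | apply DefP.exN | apply DefP.end_ | apply DefP.isZero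
        | apply DefP.isSucc | apply DefP.alt | apply DefP.exr | apply DefP.exl | apply DefP.side
        | apply DefP.oddCard | apply DefP.cardEq | apply DefP.cardLt | apply DefP.cardLe
        | apply DefP.lst | apply DefP.fst | apply DefP.nxt | apply DefP.keyLe | apply DefP.keyLt
        | apply DefP.rtc | (apply DefP.app4; assumption) | (apply DefP.app3'; assumption)
        | (apply DefP.app3; assumption) | (apply DefP.app2; assumption)
        | (apply DefP.comp; assumption) | exact Tm.id | exact Tm.unit | apply Tm.fst
        | apply Tm.snd | apply Tm.app | exact DefP.const _ | apply DefP.and | apply DefP.not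
        | apply DefP.or | apply DefP.iff | apply DefP.adj | apply DefP.le | apply DefP.lt
        | apply DefP.eqFin | apply DefP.eq | apply DefP.rv | apply DefP.imp | apply DefP.allFin
        | apply DefP.exFin | apply DefP.all | apply DefP.ex | assumption
        | (apply Tm.comp; assumption) | apply Tm.pair | apply Tm.lam))
  · exact hB

theorem defP_bip : DefP (E := fun _ => Unit) (fun n G X _ => bip G) := by
  unfold bip
  refine DefP.allFin (DefP.allFin (DefP.imp (by (repeat' (first
      | apply DefP.cho | apply DefP.halfSet | apply DefP.pr | apply DefP.oddRk | apply DefP.nOne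
      | apply DefP.nZero | apply DefP.nSucc | apply DefP.nAdd | apply DefP.nLt | apply DefP.nLe
      | apply DefP.nEq | apply DefP.hlf | apply DefP.p1le | apply DefP.p1 | apply DefP.p0
      | apply DefP.aug | apply DefP.pth | apply DefP.nx | apply DefP.cnd | apply DefP.hmin
      | apply DefP.hit | apply DefP.cdn | apply DefP.firstEx | apply DefP.exN | apply DefP.end_
      | apply DefP.isZero | apply DefP.isSucc | apply DefP.alt | apply DefP.exr | apply DefP.exl
      | apply DefP.side | apply DefP.oddCard | apply DefP.cardEq | apply DefP.cardLt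
      | apply DefP.cardLe | apply DefP.lst | apply DefP.fst | apply DefP.nxt | apply DefP.keyLe
      | apply DefP.keyLt | apply DefP.rtc | (apply DefP.app4; assumption)
      | (apply DefP.app3'; assumption) | (apply DefP.app3; assumption)
      | (apply DefP.app2; assumption) | (apply DefP.comp; assumption) | exact Tm.id
      | exact Tm.unit | apply Tm.fst | apply Tm.snd | apply Tm.app | exact DefP.const _
      | apply DefP.and | apply DefP.not | apply DefP.or | apply DefP.iff | apply DefP.adj
      | apply DefP.le | apply DefP.lt | apply DefP.eqFin | apply DefP.eq | apply DefP.rv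
      | apply DefP.imp | apply DefP.allFin | apply DefP.exFin | apply DefP.all | apply DefP.ex
      | assumption | (apply Tm.comp; assumption) | apply Tm.pair
      | apply Tm.lam))) (DefP.iff (defP_sd ?_)
    (DefP.not (defP_sd ?_)))))
  all_goals (repeat' (first
      | apply DefP.cho | apply DefP.halfSet | apply DefP.pr | apply DefP.oddRk | apply DefP.nOne
      | apply DefP.nZero | apply DefP.nSucc | apply DefP.nAdd | apply DefP.nLt | apply DefP.nLe
      | apply DefP.nEq | apply DefP.hlf | apply DefP.p1le | apply DefP.p1 | apply DefP.p0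
      | apply DefP.aug | apply DefP.pth | apply DefP.nx | apply DefP.cnd | apply DefP.hmin
      | apply DefP.hit | apply DefP.cdn | apply DefP.firstEx | apply DefP.exN | apply DefP.end_
      | apply DefP.isZero | apply DefP.isSucc | apply DefP.alt | apply DefP.exr | apply DefP.exl
      | apply DefP.side | apply DefP.oddCard | apply DefP.cardEq | apply DefP.cardLt
      | apply DefP.cardLe | apply DefP.lst | apply DefP.fst | apply DefP.nxt | apply DefP.keyLe
      | apply DefP.keyLt | apply DefP.rtc | (apply DefP.app4; assumption)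
      | (apply DefP.app3'; assumption) | (apply DefP.app3; assumption)
      | (apply DefP.app2; assumption) | (apply DefP.comp; assumption) | exact Tm.id
      | exact Tm.unit | apply Tm.fst | apply Tm.snd | apply Tm.app | exact DefP.const _
      | apply DefP.and | apply DefP.not | apply DefP.or | apply DefP.iff | apply DefP.adj
      | apply DefP.le | apply DefP.lt | apply DefP.eqFin | apply DefP.eq | apply DefP.rv
      | apply DefP.imp | apply DefP.allFin | apply DefP.exFin | apply DefP.all | apply DefP.ex
      | assumption | (apply Tm.comp; assumption) | apply Tm.pair | apply Tm.lam))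

/-- small graphs may be treated separately -/
theorem inNC_small {P Q : ∀ n : ℕ, SimpleGraph (Fin n) → Prop}
    (hQ : DefP (E := fun _ => Unit) (fun n G X _ => Q n G))
    (h : ∀ n G, 2 ≤ n → (P n G ↔ Q n G)) : InNC P := by
  apply inNC_of_defP
  refine DefP.congr (P := fun n G X _ => (n ≤ 0 ∧ P 0 ⊥) ∨ ((n ≤ 1 ∧ ¬ (n ≤ 0)) ∧ P 1 ⊥) ∨
    (¬ (n ≤ 1) ∧ Q n G)) ?_ ?_
  · exact DefP.or (DefP.and (defP_card_le 0) (DefP.const _)) (DefP.or (DefP.and (DefP.and
      (defP_card_le 1) (DefP.not (defP_card_le 0))) (DefP.const _))
      (DefP.and (DefP.not (defP_card_le 1)) hQ))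
  · intro n G X _
    rcases Nat.lt_or_ge n 2 with h1 | h1
    · have h2 : n = 0 ∨ n = 1 := by omega
      rcases h2 with rfl | rfl
      · have hG : G = ⊥ := by
          ext u v
          exact u.elim0
        rw [hG]
        simp
      · have hG : G = ⊥ := by
          ext u v
          rw [Subsingleton.elim u v]
          simp
        rw [hG]
        simp
    · rw [h n G h1]
      have h2 : ¬ n ≤ 0 := by omega
      have h3 : ¬ n ≤ 1 := by omega
      simp [h2, h3]

theorem exists_SS (d : ℕ) : ∃ (S : ℕ → Type) (_ : Env S) (_ : ∀ n, Fintype (S n)), dim S = d := by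
  letI i : Env (fun n => Fin d → (fun n => Fin n) n) := inferInstance
  exact ⟨fun n => Fin d → Fin n, i, fun n => inferInstance, Nat.mul_one _⟩

theorem cls_inNC (c d : ℕ) : InNC (cls c d) := by
  obtain ⟨S, i1, i2, hS⟩ := exists_SS (4 * d + 29)
  refine inNC_small (Q := fun n G => bip G ∧ ∃ e : (S n × (S n × (S n × (S n × S n)))), ts1 c d G e) ?_
    (fun n G hn => cls_iff hS hn G)
  refine DefP.and defP_bip (DefP.ex (F := fun n => S n × (S n × (S n × (S n × S n)))) ?_)
  exact DefP.comp (F := fun n => S n × (S n × (S n × (S n × S n))))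
    (f := fun n (y : Unit × (S n × (S n × (S n × (S n × S n))))) => y.2)
    (defP_ts1 (by omega) c d) (Tm.snd Tm.id)

theorem cls_pm_inNC (c d : ℕ) : InNC (fun n G => cls c d n G ∧ HasPM G) := by
  obtain ⟨S, i1, i2, hS⟩ := exists_SS (4 * d + 29)
  refine inNC_small (Q := fun n G => bip G ∧ ∃ e : (S n × (S n × (S n × (S n × S n)))),
    ts1 c d G e ∧ ts2 c G e) ?_ (fun n G hn => cls_pm_iff hS hn G)
  refine DefP.and defP_bip (DefP.ex (F := fun n => S n × (S n × (S n × (S n × S n))))
    (DefP.and ?_ ?_))
  · exact DefP.comp (F := fun n => S n × (S n × (S n × (S n × S n))))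
      (f := fun n (y : Unit × (S n × (S n × (S n × (S n × S n))))) => y.2)
      (defP_ts1 (by omega) c d) (Tm.snd Tm.id)
  · exact DefP.comp (F := fun n => S n × (S n × (S n × (S n × S n))))
      (f := fun n (y : Unit × (S n × (S n × (S n × (S n × S n))))) => y.2)
      (defP_ts2 (by omega) c) (Tm.snd Tm.id)

end def_

end Pool.Agent.PMNC
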