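import Mathlib
import Pool.Agent.Lib.MP_0087d5_lc.UPow

set_option autoImplicit false
set_option linter.all false

/-!
# Determinants over `ZMod 2` (Berkowitz, Chistov)
-/

namespace Pool.Agent.PMNC

open Matrix

section gen
variable {α : Type*} [Fintype α] [DecidableEq α]

/-- `1 - X M` -/
noncomputable def psm (M : Matrix α α (ZMod 2)) : Matrix α α (PowerSeries (ZMod 2)) :=
  1 - (PowerSeries.X : PowerSeries (ZMod 2)) • M.map (PowerSeries.C (R := ZMod 2))

/-- the power series of the powers of `M` -/
noncomputable def gen (M : Matrix α α (ZMod 2)) : Matrix α α (PowerSeries (ZMod 2)) :=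
  Matrix.of fun x y => PowerSeries.mk fun j => (M ^ j) x y

theorem psm_mul_gen (M : Matrix α α (ZMod 2)) : psm M * gen M = 1 := by
  have h : psm M * gen M = gen M - (PowerSeries.X : PowerSeries (ZMod 2)) •
      (M.map (PowerSeries.C (R := ZMod 2)) * gen M) := by
    unfold psm
    rw [Matrix.sub_mul, Matrix.one_mul, Matrix.smul_mul]
  rw [h]
  ext x y j
  rw [Matrix.sub_apply, Matrix.smul_apply, smul_eq_mul, map_sub, Matrix.mul_apply]
  cases j with
  | zero =>
    rw [PowerSeries.coeff_zero_X_mul]
    simp only [gen, Matrix.of_apply, PowerSeries.coeff_mk, pow_zero, sub_zero, Matrix.one_apply]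
    split_ifs <;> simp
  | succ j =>
    rw [PowerSeries.coeff_succ_X_mul, map_sum]
    simp only [gen, Matrix.of_apply, PowerSeries.coeff_mk, Matrix.map_apply,
      PowerSeries.coeff_C_mul, Matrix.one_apply]
    rw [pow_succ', Matrix.mul_apply, sub_self]
    split_ifs <;> simp [PowerSeries.coeff_one]

theorem psm_det_unit (M : Matrix α α (ZMod 2)) : IsUnit (psm M).det := by
  apply IsUnit.of_mul_eq_one (gen M).det
  rw [← Matrix.det_mul, psm_mul_gen, Matrix.det_one]

theorem psm_inv (M : Matrix α α (ZMod 2)) : (psm M)⁻¹ = gen M :=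
  Matrix.inv_eq_right_inv (psm_mul_gen M)

theorem psm_det (M : Matrix α α (ZMod 2)) :
    (psm M).det = (M.charpolyRev : PowerSeries (ZMod 2)) := by
  unfold Matrix.charpolyRev psm
  rw [← Polynomial.coeToPowerSeries.ringHom_apply, RingHom.map_det]
  congr 1
  ext1 x y
  simp only [Matrix.sub_apply, Matrix.smul_apply, Matrix.map_apply, RingHom.mapMatrix_apply,
    map_sub, smul_eq_mul, map_mul, Polynomial.coeToPowerSeries.ringHom_apply, Polynomial.coe_X,
    Polynomial.coe_C, Matrix.one_apply]
  split_ifs <;> simp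

theorem coeff_psm_det (M : Matrix α α (ZMod 2)) :
    PowerSeries.coeff (Fintype.card α) (psm M).det = M.det := by
  rw [psm_det, Polynomial.coeff_coe, ← Matrix.reverse_charpoly, Polynomial.coeff_reverse,
    Matrix.charpoly_natDegree_eq_dim, Polynomial.revAt_le le_rfl, Nat.sub_self,
    Matrix.det_eq_sign_charpoly_coeff]
  have : (-1 : ZMod 2) = 1 := by decide
  rw [this, one_pow, one_mul]

end gen

/-- product of power series over `ZMod 2` -/
theorem coeff_mul_z2 (P Q : PowerSeries (ZMod 2)) (k N : ℕ)
    (h : ∀ a, N ≤ a → a ≤ k → PowerSeries.coeff a P * PowerSeries.coeff (k - a) Q = 0) :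
    PowerSeries.coeff k (P * Q) = 1 ↔ Odd (Nat.card {a : Fin N //
      PowerSeries.coeff a.val P = 1 ∧ a.val ≤ k ∧ PowerSeries.coeff (k - a.val) Q = 1}) := by
  classical
  have e1 : PowerSeries.coeff k (P * Q) = ∑ a : Fin N, if a.val ≤ k then
      PowerSeries.coeff a.val P * PowerSeries.coeff (k - a.val) Q else 0 := by
    rw [PowerSeries.coeff_mul, Finset.Nat.sum_antidiagonal_eq_sum_range_succ_mk,
      Fin.sum_univ_eq_sum_range (fun a => if a ≤ k then
      PowerSeries.coeff a P * PowerSeries.coeff (k - a) Q else 0) N, ← Finset.sum_filter]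
    symm
    apply Finset.sum_subset
    · intro a ha
      rw [Finset.mem_filter] at ha
      rw [Finset.mem_range]
      omega
    · intro a ha hn
      rw [Finset.mem_range] at ha
      apply h a _ (by omega)
      by_contra hc
      apply hn
      rw [Finset.mem_filter, Finset.mem_range]
      omega
  rw [e1, sum_z2]
  have : ∀ a : Fin N, (if a.val ≤ k then
      PowerSeries.coeff a.val P * PowerSeries.coeff (k - a.val) Q else 0) = 1 ↔
      (PowerSeries.coeff a.val P = 1 ∧ a.val ≤ k ∧ PowerSeries.coeff (k - a.val) Q = 1) := by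
    intro a
    rcases z2_cases (PowerSeries.coeff a.val P) with h1 | h1 <;>
      rcases z2_cases (PowerSeries.coeff (k - a.val) Q) with h2 | h2 <;>
      simp [h1, h2]
  rw [Nat.card_congr (Equiv.subtypeEquivRight this)]

section main
variable {n : ℕ} {A : Fin n → Fin n → Prop}

/-- the relation restricted to the numbers below `m` -/
def msk (A : Fin n → Fin n → Prop) (m : ℕ) (x y : Fin n) : Prop := x.val < m ∧ y.val < m ∧ A x y

/-- the coefficient of `X ^ (j + 2)` in the factor number `k` -/
def fcR (A : Fin n → Fin n → Prop) (k : Fin n) (j : ℕ) : Prop :=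
  Odd (Nat.card {p : Fin n × Fin n // p.1 < k ∧ p.2 < k ∧ A k p.1 ∧ A p.2 k ∧
    wpar (msk A k) j p.1 p.2})

open Classical in
/-- the factor number `k` -/
noncomputable def fac (A : Fin n → Fin n → Prop) (k : Fin n) : PowerSeries (ZMod 2) :=
  1 - PowerSeries.X * (PowerSeries.X * PowerSeries.mk fun j => if fcR A k j then 1 else 0)

theorem coeff_fac (k : Fin n) (j : ℕ) : PowerSeries.coeff j (fac A k) = 1 ↔
    (j = 0 ∨ ∃ i, j = i + 2 ∧ fcR A k i) := by
  unfold fac
  rw [map_sub]
  match j with
  | 0 =>
    rw [PowerSeries.coeff_zero_X_mul]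
    simp
  | 1 =>
    rw [show (1 : ℕ) = 0 + 1 from rfl, PowerSeries.coeff_succ_X_mul, PowerSeries.coeff_zero_X_mul,
      PowerSeries.coeff_one]
    simp
  | j + 2 =>
    rw [show j + 2 = (j + 1) + 1 from rfl, PowerSeries.coeff_succ_X_mul,
      PowerSeries.coeff_succ_X_mul, PowerSeries.coeff_one, PowerSeries.coeff_mk]
    by_cases h : fcR A k j
    · simp [h]
    · simp [h]

theorem mtx_msk_row (k : Fin n) (y : Fin n) : mtx (msk A k) k y = 0 := by
  unfold mtx msk
  simp

theorem mtx_msk_col (k : Fin n) (x : Fin n) : mtx (msk A k) x k = 0 := by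
  unfold mtx msk
  simp

theorem gen_row (k y : Fin n) : gen (mtx (msk A k)) k y = if k = y then 1 else 0 := by
  unfold gen
  rw [Matrix.of_apply]
  ext j
  rw [PowerSeries.coeff_mk]
  cases j with
  | zero =>
    rw [pow_zero, Matrix.one_apply]
    split_ifs <;> simp
  | succ j =>
    rw [pow_succ', Matrix.mul_apply, Finset.sum_eq_zero fun z _ => by
      rw [mtx_msk_row, zero_mul]]
    split_ifs <;> simp [PowerSeries.coeff_one]

theorem gen_col (k x : Fin n) : gen (mtx (msk A k)) x k = if x = k then 1 else 0 := by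
  unfold gen
  rw [Matrix.of_apply]
  ext j
  rw [PowerSeries.coeff_mk]
  cases j with
  | zero =>
    rw [pow_zero, Matrix.one_apply]
    split_ifs <;> simp
  | succ j =>
    rw [pow_succ, Matrix.mul_apply, Finset.sum_eq_zero fun z _ => by
      rw [mtx_msk_col, mul_zero]]
    split_ifs <;> simp [PowerSeries.coeff_one]

open Classical in
/-- row `k` -/
noncomputable def rowP (A : Fin n → Fin n → Prop) (k y : Fin n) : PowerSeries (ZMod 2) :=
  if y < k ∧ A k y then 1 else 0

open Classical in
/-- column `k` -/
noncomputable def colP (A : Fin n → Fin n → Prop) (k x : Fin n) : PowerSeries (ZMod 2) :=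
  if x < k ∧ A x k then 1 else 0

theorem psm_succ (h : ∀ x, ¬ A x x) (k : Fin n) :
    psm (mtx (msk A (k + 1))) = psm (mtx (msk A k)) +
      (Matrix.of fun (x : Fin n) (i : Fin 2) => if i = 0 then (if x = k then 1 else 0)
        else colP A k x) *
      (Matrix.of fun (i : Fin 2) (y : Fin n) => -PowerSeries.X * (if i = 0 then rowP A k y
        else (if y = k then 1 else 0))) := by
  classical
  ext1 x y
  rw [Matrix.add_apply, Matrix.mul_apply, Fin.sum_univ_two]
  unfold psm
  simp only [Matrix.sub_apply, Matrix.smul_apply, Matrix.map_apply, Matrix.of_apply, smul_eq_mul]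
  rw [sub_add_eq_add_sub, sub_eq_sub_iff_add_eq_add]
  have e : (1 : Fin 2) ≠ 0 := by decide
  simp only [if_true, if_neg e]
  have hmt : ∀ m, (mtx (msk A m) x y : ZMod 2) = if msk A m x y then 1 else 0 := fun m => by
    unfold mtx
    rw [Matrix.of_apply]
  rw [hmt, hmt]
  unfold rowP colP
  by_cases hx : x = k
  · subst hx
    by_cases hy : y = x
    · subst hy
      have h1 : ¬ msk A (y.val + 1) y y := fun hh => h y hh.2.2
      have h2 : ¬ msk A y.val y y := fun hh => h y hh.2.2
      simp [h1, h2]
    · have h2 : ¬ msk A x.val x y := fun hh => absurd hh.1 (lt_irrefl _)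
      have h3 : msk A (x.val + 1) x y ↔ y < x ∧ A x y := by
        unfold msk
        have : y.val ≠ x.val := fun hh => hy (Fin.ext hh)
        rw [Fin.lt_def]
        constructor
        · rintro ⟨_, a, b⟩; exact ⟨by omega, b⟩
        · rintro ⟨a, b⟩; exact ⟨by omega, by omega, b⟩
      by_cases h4 : y < x ∧ A x y
      · rw [if_neg h2, if_pos (h3.2 h4)]
        simp [h4, hy]
      · rw [if_neg h2, if_neg (fun hh => h4 (h3.1 hh))]
        simp [h4, hy]
  · by_cases hy : y = k
    · subst hy
      have h2 : ¬ msk A y.val x y := fun hh => absurd hh.2.1 (lt_irrefl _)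
      have h3 : msk A (y.val + 1) x y ↔ x < y ∧ A x y := by
        unfold msk
        have : x.val ≠ y.val := fun hh => hx (Fin.ext hh)
        rw [Fin.lt_def]
        constructor
        · rintro ⟨a, _, b⟩; exact ⟨by omega, b⟩
        · rintro ⟨a, b⟩; exact ⟨by omega, by omega, b⟩
      by_cases h4 : x < y ∧ A x y
      · rw [if_neg h2, if_pos (h3.2 h4)]
        simp [h4, hx]
      · rw [if_neg h2, if_neg (fun hh => h4 (h3.1 hh))]
        simp [h4, hx]
    · have h3 : msk A (k.val + 1) x y ↔ msk A k.val x y := by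
        unfold msk
        have : x.val ≠ k.val := fun hh => hx (Fin.ext hh)
        have : y.val ≠ k.val := fun hh => hy (Fin.ext hh)
        constructor
        · rintro ⟨a, b, c⟩; exact ⟨by omega, by omega, c⟩
        · rintro ⟨a, b, c⟩; exact ⟨by omega, by omega, c⟩
      simp only [h3]
      simp [hx, hy]

theorem sum_fcR (k : Fin n) : ∑ x, ∑ y, rowP A k x * gen (mtx (msk A k)) x y * colP A k y =
    PowerSeries.mk fun j => (open Classical in if fcR A k j then 1 else 0) := by
  classical
  ext j
  rw [PowerSeries.coeff_mk]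
  apply z2_ext
  rw [← Finset.sum_product', map_sum]
  simp only [Finset.univ_product_univ]
  rw [sum_z2]
  have : ∀ p : Fin n × Fin n, (PowerSeries.coeff j (rowP A k p.1 * gen (mtx (msk A k)) p.1 p.2 *
      colP A k p.2) = 1) ↔ (p.1 < k ∧ p.2 < k ∧ A k p.1 ∧ A p.2 k ∧
      wpar (msk A k) j p.1 p.2) := by
    intro p
    rw [wpar_iff]
    unfold rowP colP gen
    by_cases h1 : p.1 < k ∧ A k p.1 <;> by_cases h2 : p.2 < k ∧ A p.2 k
    · simp [h1, h2]
    · simp only [h1, h2, if_true, if_false, mul_zero, map_zero]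
      constructor
      · intro h; exact absurd h (by decide)
      · rintro ⟨a, b, c, d, _⟩; exact absurd ⟨b, d⟩ h2
    · simp only [h1, h2, if_true, if_false, mul_zero, zero_mul, map_zero]
      constructor
      · intro h; exact absurd h (by decide)
      · rintro ⟨a, b, c, d, _⟩; exact absurd ⟨a, c⟩ h1
    · simp only [h1, h2, if_true, if_false, mul_zero, zero_mul, map_zero]
      constructor
      · intro h; exact absurd h (by decide)
      · rintro ⟨a, b, c, d, _⟩; exact absurd ⟨a, c⟩ h1
  rw [Nat.card_congr (Equiv.subtypeEquivRight this)]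
  change fcR A k j ↔ _
  split_ifs with hh <;> simp [hh]

/-- Samuelson's recursion -/
theorem det_succ (h : ∀ x, ¬ A x x) (k : Fin n) :
    (psm (mtx (msk A (k + 1)))).det = (psm (mtx (msk A k))).det * fac A k := by
  classical
  rw [psm_succ h, Matrix.det_add_mul _ _ (psm_det_unit _), psm_inv]
  congr 1
  rw [Matrix.det_fin_two]
  have e10 : (1 : Fin 2) ≠ 0 := by decide
  have q : ∀ (i j : Fin 2), ((Matrix.of fun (i : Fin 2) (y : Fin n) =>
      -PowerSeries.X * (if i = 0 then rowP A k y else (if y = k then 1 else 0))) *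
      gen (mtx (msk A k)) *
      (Matrix.of fun (x : Fin n) (i : Fin 2) => if i = 0 then (if x = k then 1 else 0)
        else colP A k x) : Matrix (Fin 2) (Fin 2) (PowerSeries (ZMod 2))) i j =
      ∑ x, ∑ y, (-PowerSeries.X * (if i = 0 then rowP A k x else (if x = k then 1 else 0))) *
        gen (mtx (msk A k)) x y * (if j = 0 then (if y = k then 1 else 0) else colP A k y) := by
    intro i j
    rw [Matrix.mul_apply, Finset.sum_comm]
    refine Finset.sum_congr rfl fun y _ => ?_
    rw [Matrix.mul_apply, Finset.sum_mul]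
    rfl
  simp only [Matrix.add_apply, q, if_true, if_neg e10, Matrix.one_apply_eq]
  have z00 : ∑ x, ∑ y, (-PowerSeries.X * rowP A k x) * gen (mtx (msk A k)) x y *
      (if y = k then 1 else 0) = 0 := by
    refine Finset.sum_eq_zero fun x _ => ?_
    rw [Finset.sum_eq_single k (fun y _ hy => by rw [if_neg hy, mul_zero])
      (fun hh => absurd (Finset.mem_univ k) hh), gen_col]
    by_cases hx : x = k
    · subst hx
      have : rowP A x x = 0 := by
        unfold rowP
        simp
      rw [this]
      simp
    · rw [if_neg hx]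
      simp
  have z11 : ∑ x, ∑ y, (-PowerSeries.X * (if x = k then 1 else 0)) * gen (mtx (msk A k)) x y *
      colP A k y = 0 := by
    refine Finset.sum_eq_zero fun x _ => Finset.sum_eq_zero fun y _ => ?_
    by_cases hx : x = k
    · subst hx
      rw [gen_row]
      by_cases hy : x = y
      · subst hy
        have : colP A x x = 0 := by
          unfold colP
          simp
        rw [this]
        simp
      · rw [if_neg hy]
        simp
    · rw [if_neg hx]
      simp
  have z10 : ∑ x, ∑ y, (-PowerSeries.X * (if x = k then 1 else 0)) * gen (mtx (msk A k)) x y *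
      (if y = k then 1 else 0) = -(PowerSeries.X : PowerSeries (ZMod 2)) := by
    rw [Finset.sum_eq_single k (fun x _ hx => by
        refine Finset.sum_eq_zero fun y _ => ?_
        rw [if_neg hx]; simp)
      (fun hh => absurd (Finset.mem_univ k) hh),
      Finset.sum_eq_single k (fun y _ hy => by rw [if_neg hy, mul_zero])
      (fun hh => absurd (Finset.mem_univ k) hh), gen_row]
    simp
  have z01 : ∑ x, ∑ y, (-PowerSeries.X * rowP A k x) * gen (mtx (msk A k)) x y * colP A k y =
      -PowerSeries.X * PowerSeries.mk fun j => (if fcR A k j then 1 else 0) := by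
    rw [← sum_fcR, Finset.mul_sum]
    refine Finset.sum_congr rfl fun x _ => ?_
    rw [Finset.mul_sum]
    refine Finset.sum_congr rfl fun y _ => ?_
    ring
  rw [z00, z11, z10, z01]
  have o1 : (1 : Matrix (Fin 2) (Fin 2) (PowerSeries (ZMod 2))) 0 1 = 0 :=
    Matrix.one_apply_ne (by decide)
  have o2 : (1 : Matrix (Fin 2) (Fin 2) (PowerSeries (ZMod 2))) 1 0 = 0 :=
    Matrix.one_apply_ne (by decide)
  rw [o1, o2]
  unfold fac
  ring

end main

end Pool.Agent.PMNC
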