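import Mathlib
import Pool.Agent.Lib.MP_0087d5_lc.UDet

set_option autoImplicit false
set_option linter.all false

/-!
# Determinants over `ZMod 2` are definable
-/

namespace Pool.Agent.PMNC

open Matrix

section main
variable {n : ℕ} {A : Fin n → Fin n → Prop}

/-- multiplication by the factor number `p.1` -/
def stpR (A : Fin n → Fin n → Prop) (p q : Fin n × Fin n) : Prop :=
  IsSucc p.1 q.1 ∧ (p.2 = q.2 ∨ ∃ j j' : Fin n, IsSucc j j' ∧ P1 p.2 j' q.2 ∧ fcR A p.1 j.val)

theorem psm_msk_zero : psm (mtx (msk A 0)) = 1 := by
  have : mtx (msk A 0) = 0 := by
    ext x y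
    unfold mtx msk
    simp
  rw [this]
  unfold psm
  ext x y
  simp

theorem stp_snd {k : Fin n} {m a i : Fin n} (hm : m.val = k.val + 1) :
    stpR A (k, a) (m, i) ↔
      (a.val ≤ i.val ∧ PowerSeries.coeff (i.val - a.val) (fac A k) = 1) := by
  unfold stpR
  rw [coeff_fac, isSucc_iff]
  simp only
  constructor
  · rintro ⟨_, h | ⟨j, j', h1, h2, h3⟩⟩
    · rw [h]
      exact ⟨le_rfl, Or.inl (by omega)⟩
    · rw [isSucc_iff] at h1
      unfold P1 at h2
      exact ⟨by omega, Or.inr ⟨j.val, by omega, h3⟩⟩
  · rintro ⟨h0, h | ⟨j, h1, h2⟩⟩
    · exact ⟨hm, Or.inl (Fin.ext (by omega))⟩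
    · have hi := i.2
      refine ⟨hm, Or.inr ⟨⟨j, by omega⟩, ⟨j + 1, by omega⟩, isSucc_iff.2 rfl, ?_, h2⟩⟩
      unfold P1
      simp only
      omega

/-- the coefficients of the determinants as walks -/
theorem coef_wpar (h : ∀ x, ¬ A x x) {z : Fin n} (hz : z.val = 0) (t : ℕ) : ∀ m i : Fin n,
    wpar (stpR A) t (z, z) (m, i) ↔
      (m.val = t ∧ PowerSeries.coeff i.val (psm (mtx (msk A t))).det = 1) := by
  induction t with
  | zero =>
    intro m i
    rw [psm_msk_zero, Matrix.det_one, PowerSeries.coeff_one]
    unfold wpar
    rw [Prod.mk.injEq, Fin.ext_iff, Fin.ext_iff, hz]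
    constructor
    · rintro ⟨h1, h2⟩
      exact ⟨h1.symm, by rw [if_pos h2.symm]⟩
    · rintro ⟨h1, h2⟩
      refine ⟨h1.symm, ?_⟩
      by_contra hc
      rw [if_neg (fun hh => hc hh.symm)] at h2
      exact absurd h2 (by decide)
  | succ t ih =>
    intro m i
    unfold wpar
    by_cases hm : m.val = t + 1
    · have ht : t < n := by have := m.2; omega
      have hd : (psm (mtx (msk A (t + 1)))).det =
          (psm (mtx (msk A t))).det * fac A ⟨t, ht⟩ := det_succ h ⟨t, ht⟩
      rw [hd, coeff_mul_z2 _ _ i.val n (fun a h1 h2 => by have := i.2; omega)]
      simp only [hm, true_and]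
      rw [Nat.card_congr (show {r : Fin n × Fin n // wpar (stpR A) t (z, z) r ∧
          stpR A r (m, i)} ≃ {a : Fin n //
          PowerSeries.coeff a.val (psm (mtx (msk A t))).det = 1 ∧ a.val ≤ i.val ∧
          PowerSeries.coeff (i.val - a.val) (fac A ⟨t, ht⟩) = 1} from
        { toFun := fun r => ⟨r.1.2, by
            obtain ⟨⟨k, a⟩, h1, h2⟩ := r
            rw [ih] at h1
            have hk : k = ⟨t, ht⟩ := Fin.ext h1.1
            subst hk
            exact ⟨h1.2, (stp_snd hm).1 h2⟩⟩
          invFun := fun a => ⟨(⟨t, ht⟩, a.1), by
            obtain ⟨a, h1, h2⟩ := a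
            exact ⟨(ih _ _).2 ⟨rfl, h1⟩, (stp_snd hm).2 h2⟩⟩
          left_inv := by
            rintro ⟨⟨k, a⟩, h1, h2⟩
            rw [ih] at h1
            have hk : k = ⟨t, ht⟩ := Fin.ext h1.1
            subst hk
            rfl
          right_inv := fun a => rfl })]
    · constructor
      · intro hodd
        exfalso
        have : IsEmpty {r : Fin n × Fin n // wpar (stpR A) t (z, z) r ∧ stpR A r (m, i)} := by
          constructor
          rintro ⟨⟨k, a⟩, h1, h2⟩
          rw [ih] at h1
          have h3 := isSucc_iff.1 h2.1
          simp only at h3
          omega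
        rw [Nat.card_of_isEmpty] at hodd
        exact absurd hodd (by decide)
      · rintro ⟨h1, _⟩
        exact absurd h1 hm

/-- the determinant over `ZMod 2` is one -/
def dtR (A : Fin n → Fin n → Prop) : Prop :=
  (¬ ∃ x : Fin n, x = x) ∨ ∃ z L : Fin n, IsZero z ∧ (∀ y, y ≤ L) ∧
    Odd (Nat.card {i : Fin n // ∃ j : Fin n, P1 i j L ∧ fcR A L j.val ∧
      wpar (stpR A) L.val (z, z) (L, i)})

end main

theorem dtR_iff {n : ℕ} {A : Fin n → Fin n → Prop} (h : ∀ x, ¬ A x x) :
    dtR A ↔ (mtx A).det = 1 := by
  cases n with
  | zero =>
    rw [Matrix.det_isEmpty]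
    simp only [iff_true]
    left
    rintro ⟨x, _⟩
    exact x.elim0
  | succ N =>
    have hL : dtR A ↔ Odd (Nat.card {i : Fin (N + 1) // ∃ j : Fin (N + 1), P1 i j (Fin.last N) ∧
        fcR A (Fin.last N) j.val ∧ wpar (stpR A) N (0, 0) (Fin.last N, i)}) := by
      unfold dtR
      constructor
      · rintro (h1 | ⟨z, L, h1, h2, h3⟩)
        · exact absurd ⟨0, rfl⟩ h1
        · have e1 : z = 0 := Fin.ext (isZero_iff.1 h1)
          have e2 : L = Fin.last N := le_antisymm (Fin.le_last L) (h2 _)
          subst e1 e2
          exact h3
      · intro h3
        exact Or.inr ⟨0, Fin.last N, isZero_iff.2 rfl, fun y => Fin.le_last y, h3⟩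
    rw [hL]
    have e1 : mtx A = mtx (msk A (N + 1)) := by
      congr 1
      funext x y
      apply propext
      unfold msk
      exact ⟨fun hh => ⟨x.2, y.2, hh⟩, fun hh => hh.2.2⟩
    have e2 : (psm (mtx (msk A (N + 1)))).det =
          (psm (mtx (msk A N))).det * fac A (Fin.last N) := det_succ h (Fin.last N)
    have e3 := coeff_psm_det (mtx (msk A (N + 1)))
    rw [Fintype.card_fin] at e3
    have e4 := coeff_psm_det (mtx (msk A N))
    rw [Fintype.card_fin] at e4
    have e5 : (mtx (msk A N)).det = 0 :=
      Matrix.det_eq_zero_of_row_eq_zero (Fin.last N) (fun y => mtx_msk_row (A := A) (Fin.last N) y)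
    rw [e5] at e4
    rw [e1, ← e3, e2, coeff_mul_z2 _ _ (N + 1) (N + 1) (fun a h1 h2 => by
      have : a = N + 1 := le_antisymm h2 h1
      rw [this, e4, zero_mul])]
    refine iff_of_eq (congrArg Odd (Nat.card_congr (Equiv.subtypeEquivRight fun a => ?_)))
    rw [coeff_fac]
    constructor
    · rintro ⟨j, h1, h2, h3⟩
      rw [coef_wpar h rfl] at h3
      unfold P1 at h1
      rw [Fin.val_last] at h1
      exact ⟨h3.2, by omega, Or.inr ⟨j.val, by omega, h2⟩⟩
    · rintro ⟨h1, h2, h3 | ⟨j, h3, h4⟩⟩
      · have := a.2
        omega
      · refine ⟨⟨j, by omega⟩, ?_, h4, (coef_wpar h rfl _ _ _).2 ⟨Fin.val_last N, h1⟩⟩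
        unfold P1
        rw [Fin.val_last]
        simp only
        omega

section def_
variable {E : ℕ → Type} [Env E]
  {A : ∀ n : ℕ, SimpleGraph (Fin n) → Ctx n → E n → Fin n → Fin n → Prop}

theorem DefP.fcR (hA : DefP (E := fun n => E n × (Fin n × Fin n))
      (fun n G X y => A n G X y.1 y.2.1 y.2.2))
    {k j : ∀ n : ℕ, E n → Fin n} (hk : Tm (F := fun n => Fin n) k)
    (hj : Tm (F := fun n => Fin n) j) :
    DefP (fun n G X x => PMNC.fcR (A n G X x) (k n x) (j n x).val) := by
  have key : DefP (E := fun n => E n × (Fin n × Fin n))
      (fun n G X y => PMNC.fcR (A n G X y.1) y.2.1 y.2.2.val) := by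
    unfold PMNC.fcR
    refine DefP.oddCard (S := fun n => Fin n × Fin n) ?_
    refine DefP.and (by (repeat' (first
        | apply DefP.hlf | apply DefP.p1le | apply DefP.p1 | apply DefP.p0 | apply DefP.aug
        | apply DefP.pth | apply DefP.nx | apply DefP.cnd | apply DefP.hmin | apply DefP.hit
        | apply DefP.cdn | apply DefP.firstEx | apply DefP.exN | apply DefP.end_
        | apply DefP.isZero | apply DefP.isSucc | apply DefP.alt | apply DefP.exr
        | apply DefP.exl | apply DefP.side | apply DefP.oddCard | apply DefP.cardEq
        | apply DefP.cardLt | apply DefP.cardLe | apply DefP.lst | apply DefP.fst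
        | apply DefP.nxt | apply DefP.keyLe | apply DefP.keyLt | apply DefP.rtc
        | (apply DefP.app4; assumption) | (apply DefP.app3'; assumption)
        | (apply DefP.app3; assumption) | (apply DefP.app2; assumption)
        | (apply DefP.comp; assumption) | exact Tm.id | exact Tm.unit | apply Tm.fst
        | apply Tm.snd | apply Tm.app | exact DefP.const _ | apply DefP.and | apply DefP.not
        | apply DefP.or | apply DefP.iff | apply DefP.adj | apply DefP.le | apply DefP.lt
        | apply DefP.eqFin | apply DefP.eq | apply DefP.rv | apply DefP.imp | apply DefP.allFin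
        | apply DefP.exFin | apply DefP.all | apply DefP.ex | assumption
        | (apply Tm.comp; assumption) | apply Tm.pair
        | apply Tm.lam))) (DefP.and (by (repeat' (first
        | apply DefP.hlf | apply DefP.p1le | apply DefP.p1 | apply DefP.p0 | apply DefP.aug
        | apply DefP.pth | apply DefP.nx | apply DefP.cnd | apply DefP.hmin | apply DefP.hit
        | apply DefP.cdn | apply DefP.firstEx | apply DefP.exN | apply DefP.end_
        | apply DefP.isZero | apply DefP.isSucc | apply DefP.alt | apply DefP.exr
        | apply DefP.exl | apply DefP.side | apply DefP.oddCard | apply DefP.cardEq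
        | apply DefP.cardLt | apply DefP.cardLe | apply DefP.lst | apply DefP.fst
        | apply DefP.nxt | apply DefP.keyLe | apply DefP.keyLt | apply DefP.rtc
        | (apply DefP.app4; assumption) | (apply DefP.app3'; assumption)
        | (apply DefP.app3; assumption) | (apply DefP.app2; assumption)
        | (apply DefP.comp; assumption) | exact Tm.id | exact Tm.unit | apply Tm.fst
        | apply Tm.snd | apply Tm.app | exact DefP.const _ | apply DefP.and | apply DefP.not
        | apply DefP.or | apply DefP.iff | apply DefP.adj | apply DefP.le | apply DefP.lt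
        | apply DefP.eqFin | apply DefP.eq | apply DefP.rv | apply DefP.imp | apply DefP.allFin
        | apply DefP.exFin | apply DefP.all | apply DefP.ex | assumption
        | (apply Tm.comp; assumption) | apply Tm.pair
        | apply Tm.lam))) (DefP.and (by (repeat' (first
        | apply DefP.hlf | apply DefP.p1le | apply DefP.p1 | apply DefP.p0 | apply DefP.aug
        | apply DefP.pth | apply DefP.nx | apply DefP.cnd | apply DefP.hmin | apply DefP.hit
        | apply DefP.cdn | apply DefP.firstEx | apply DefP.exN | apply DefP.end_
        | apply DefP.isZero | apply DefP.isSucc | apply DefP.alt | apply DefP.exr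
        | apply DefP.exl | apply DefP.side | apply DefP.oddCard | apply DefP.cardEq
        | apply DefP.cardLt | apply DefP.cardLe | apply DefP.lst | apply DefP.fst
        | apply DefP.nxt | apply DefP.keyLe | apply DefP.keyLt | apply DefP.rtc
        | (apply DefP.app4; assumption) | (apply DefP.app3'; assumption)
        | (apply DefP.app3; assumption) | (apply DefP.app2; assumption)
        | (apply DefP.comp; assumption) | exact Tm.id | exact Tm.unit | apply Tm.fst
        | apply Tm.snd | apply Tm.app | exact DefP.const _ | apply DefP.and | apply DefP.not
        | apply DefP.or | apply DefP.iff | apply DefP.adj | apply DefP.le | apply DefP.lt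
        | apply DefP.eqFin | apply DefP.eq | apply DefP.rv | apply DefP.imp | apply DefP.allFin
        | apply DefP.exFin | apply DefP.all | apply DefP.ex | assumption
        | (apply Tm.comp; assumption) | apply Tm.pair
        | apply Tm.lam))) (DefP.and (by (repeat' (first
        | apply DefP.hlf | apply DefP.p1le | apply DefP.p1 | apply DefP.p0 | apply DefP.aug
        | apply DefP.pth | apply DefP.nx | apply DefP.cnd | apply DefP.hmin | apply DefP.hit
        | apply DefP.cdn | apply DefP.firstEx | apply DefP.exN | apply DefP.end_
        | apply DefP.isZero | apply DefP.isSucc | apply DefP.alt | apply DefP.exr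
        | apply DefP.exl | apply DefP.side | apply DefP.oddCard | apply DefP.cardEq
        | apply DefP.cardLt | apply DefP.cardLe | apply DefP.lst | apply DefP.fst
        | apply DefP.nxt | apply DefP.keyLe | apply DefP.keyLt | apply DefP.rtc
        | (apply DefP.app4; assumption) | (apply DefP.app3'; assumption)
        | (apply DefP.app3; assumption) | (apply DefP.app2; assumption)
        | (apply DefP.comp; assumption) | exact Tm.id | exact Tm.unit | apply Tm.fst
        | apply Tm.snd | apply Tm.app | exact DefP.const _ | apply DefP.and | apply DefP.not
        | apply DefP.or | apply DefP.iff | apply DefP.adj | apply DefP.le | apply DefP.lt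
        | apply DefP.eqFin | apply DefP.eq | apply DefP.rv | apply DefP.imp | apply DefP.allFin
        | apply DefP.exFin | apply DefP.all | apply DefP.ex | assumption
        | (apply Tm.comp; assumption) | apply Tm.pair | apply Tm.lam))) ?_)))
    refine DefP.wpar (T := fun n => Fin n) ?_ (by (repeat' (first
        | apply DefP.hlf | apply DefP.p1le | apply DefP.p1 | apply DefP.p0 | apply DefP.aug
        | apply DefP.pth | apply DefP.nx | apply DefP.cnd | apply DefP.hmin | apply DefP.hit
        | apply DefP.cdn | apply DefP.firstEx | apply DefP.exN | apply DefP.end_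
        | apply DefP.isZero | apply DefP.isSucc | apply DefP.alt | apply DefP.exr
        | apply DefP.exl | apply DefP.side | apply DefP.oddCard | apply DefP.cardEq
        | apply DefP.cardLt | apply DefP.cardLe | apply DefP.lst | apply DefP.fst
        | apply DefP.nxt | apply DefP.keyLe | apply DefP.keyLt | apply DefP.rtc
        | (apply DefP.app4; assumption) | (apply DefP.app3'; assumption)
        | (apply DefP.app3; assumption) | (apply DefP.app2; assumption)
        | (apply DefP.comp; assumption) | exact Tm.id | exact Tm.unit | apply Tm.fst
        | apply Tm.snd | apply Tm.app | exact DefP.const _ | apply DefP.and | apply DefP.not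
        | apply DefP.or | apply DefP.iff | apply DefP.adj | apply DefP.le | apply DefP.lt
        | apply DefP.eqFin | apply DefP.eq | apply DefP.rv | apply DefP.imp | apply DefP.allFin
        | apply DefP.exFin | apply DefP.all | apply DefP.ex | assumption
        | (apply Tm.comp; assumption) | apply Tm.pair | apply Tm.lam))) (by (repeat' (first
        | apply DefP.hlf | apply DefP.p1le | apply DefP.p1 | apply DefP.p0 | apply DefP.aug
        | apply DefP.pth | apply DefP.nx | apply DefP.cnd | apply DefP.hmin | apply DefP.hit
        | apply DefP.cdn | apply DefP.firstEx | apply DefP.exN | apply DefP.end_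
        | apply DefP.isZero | apply DefP.isSucc | apply DefP.alt | apply DefP.exr
        | apply DefP.exl | apply DefP.side | apply DefP.oddCard | apply DefP.cardEq
        | apply DefP.cardLt | apply DefP.cardLe | apply DefP.lst | apply DefP.fst
        | apply DefP.nxt | apply DefP.keyLe | apply DefP.keyLt | apply DefP.rtc
        | (apply DefP.app4; assumption) | (apply DefP.app3'; assumption)
        | (apply DefP.app3; assumption) | (apply DefP.app2; assumption)
        | (apply DefP.comp; assumption) | exact Tm.id | exact Tm.unit | apply Tm.fst
        | apply Tm.snd | apply Tm.app | exact DefP.const _ | apply DefP.and | apply DefP.not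
        | apply DefP.or | apply DefP.iff | apply DefP.adj | apply DefP.le | apply DefP.lt
        | apply DefP.eqFin | apply DefP.eq | apply DefP.rv | apply DefP.imp | apply DefP.allFin
        | apply DefP.exFin | apply DefP.all | apply DefP.ex | assumption
        | (apply Tm.comp; assumption) | apply Tm.pair | apply Tm.lam))) (by (repeat' (first
        | apply DefP.hlf | apply DefP.p1le | apply DefP.p1 | apply DefP.p0 | apply DefP.aug
        | apply DefP.pth | apply DefP.nx | apply DefP.cnd | apply DefP.hmin | apply DefP.hit
        | apply DefP.cdn | apply DefP.firstEx | apply DefP.exN | apply DefP.end_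
        | apply DefP.isZero | apply DefP.isSucc | apply DefP.alt | apply DefP.exr
        | apply DefP.exl | apply DefP.side | apply DefP.oddCard | apply DefP.cardEq
        | apply DefP.cardLt | apply DefP.cardLe | apply DefP.lst | apply DefP.fst
        | apply DefP.nxt | apply DefP.keyLe | apply DefP.keyLt | apply DefP.rtc
        | (apply DefP.app4; assumption) | (apply DefP.app3'; assumption)
        | (apply DefP.app3; assumption) | (apply DefP.app2; assumption)
        | (apply DefP.comp; assumption) | exact Tm.id | exact Tm.unit | apply Tm.fst
        | apply Tm.snd | apply Tm.app | exact DefP.const _ | apply DefP.and | apply DefP.not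
        | apply DefP.or | apply DefP.iff | apply DefP.adj | apply DefP.le | apply DefP.lt
        | apply DefP.eqFin | apply DefP.eq | apply DefP.rv | apply DefP.imp | apply DefP.allFin
        | apply DefP.exFin | apply DefP.all | apply DefP.ex | assumption
        | (apply Tm.comp; assumption) | apply Tm.pair | apply Tm.lam)))
    refine DefP.congr (P := fun n G X (y : (((E n × (Fin n × Fin n)) × (Fin n × Fin n)) ×
      (Fin n × Fin n))) => y.2.1 < y.1.1.2.1 ∧ y.2.2 < y.1.1.2.1 ∧
        A n G X y.1.1.1 y.2.1 y.2.2) (by (repeat' (first
            | apply DefP.hlf | apply DefP.p1le | apply DefP.p1 | apply DefP.p0 | apply DefP.aug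
            | apply DefP.pth | apply DefP.nx | apply DefP.cnd | apply DefP.hmin | apply DefP.hit
            | apply DefP.cdn | apply DefP.firstEx | apply DefP.exN | apply DefP.end_
            | apply DefP.isZero | apply DefP.isSucc | apply DefP.alt | apply DefP.exr
            | apply DefP.exl | apply DefP.side | apply DefP.oddCard | apply DefP.cardEq
            | apply DefP.cardLt | apply DefP.cardLe | apply DefP.lst | apply DefP.fst
            | apply DefP.nxt | apply DefP.keyLe | apply DefP.keyLt | apply DefP.rtc
            | (apply DefP.app4; assumption) | (apply DefP.app3'; assumption)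
            | (apply DefP.app3; assumption) | (apply DefP.app2; assumption)
            | (apply DefP.comp; assumption) | exact Tm.id | exact Tm.unit | apply Tm.fst
            | apply Tm.snd | apply Tm.app | exact DefP.const _ | apply DefP.and | apply DefP.not
            | apply DefP.or | apply DefP.iff | apply DefP.adj | apply DefP.le | apply DefP.lt
            | apply DefP.eqFin | apply DefP.eq | apply DefP.rv | apply DefP.imp
            | apply DefP.allFin | apply DefP.exFin | apply DefP.all | apply DefP.ex | assumption
            | (apply Tm.comp; assumption) | apply Tm.pair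
            | apply Tm.lam))) (fun n G X y => Iff.rfl)
  exact DefP.app3 (H := fun n => Fin n) (K := fun n => Fin n)
    (P := fun n G X x k j => PMNC.fcR (A n G X x) k (Fin.val j)) key Tm.id hk hj

theorem DefP.dtR (hA : DefP (E := fun n => E n × (Fin n × Fin n))
      (fun n G X y => A n G X y.1 y.2.1 y.2.2)) :
    DefP (fun n G X x => PMNC.dtR (A n G X x)) := by
  unfold PMNC.dtR
  refine DefP.or (by (repeat' (first
      | apply DefP.hlf | apply DefP.p1le | apply DefP.p1 | apply DefP.p0 | apply DefP.aug
      | apply DefP.pth | apply DefP.nx | apply DefP.cnd | apply DefP.hmin | apply DefP.hit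
      | apply DefP.cdn | apply DefP.firstEx | apply DefP.exN | apply DefP.end_
      | apply DefP.isZero | apply DefP.isSucc | apply DefP.alt | apply DefP.exr | apply DefP.exl
      | apply DefP.side | apply DefP.oddCard | apply DefP.cardEq | apply DefP.cardLt
      | apply DefP.cardLe | apply DefP.lst | apply DefP.fst | apply DefP.nxt | apply DefP.keyLe
      | apply DefP.keyLt | apply DefP.rtc | (apply DefP.app4; assumption)
      | (apply DefP.app3'; assumption) | (apply DefP.app3; assumption)
      | (apply DefP.app2; assumption) | (apply DefP.comp; assumption) | exact Tm.id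
      | exact Tm.unit | apply Tm.fst | apply Tm.snd | apply Tm.app | exact DefP.const _
      | apply DefP.and | apply DefP.not | apply DefP.or | apply DefP.iff | apply DefP.adj
      | apply DefP.le | apply DefP.lt | apply DefP.eqFin | apply DefP.eq | apply DefP.rv
      | apply DefP.imp | apply DefP.allFin | apply DefP.exFin | apply DefP.all | apply DefP.ex
      | assumption | (apply Tm.comp; assumption) | apply Tm.pair
      | apply Tm.lam))) (DefP.exFin (DefP.exFin (DefP.and (by (repeat' (first
      | apply DefP.hlf | apply DefP.p1le | apply DefP.p1 | apply DefP.p0 | apply DefP.aug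
      | apply DefP.pth | apply DefP.nx | apply DefP.cnd | apply DefP.hmin | apply DefP.hit
      | apply DefP.cdn | apply DefP.firstEx | apply DefP.exN | apply DefP.end_
      | apply DefP.isZero | apply DefP.isSucc | apply DefP.alt | apply DefP.exr | apply DefP.exl
      | apply DefP.side | apply DefP.oddCard | apply DefP.cardEq | apply DefP.cardLt
      | apply DefP.cardLe | apply DefP.lst | apply DefP.fst | apply DefP.nxt | apply DefP.keyLe
      | apply DefP.keyLt | apply DefP.rtc | (apply DefP.app4; assumption)
      | (apply DefP.app3'; assumption) | (apply DefP.app3; assumption)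
      | (apply DefP.app2; assumption) | (apply DefP.comp; assumption) | exact Tm.id
      | exact Tm.unit | apply Tm.fst | apply Tm.snd | apply Tm.app | exact DefP.const _
      | apply DefP.and | apply DefP.not | apply DefP.or | apply DefP.iff | apply DefP.adj
      | apply DefP.le | apply DefP.lt | apply DefP.eqFin | apply DefP.eq | apply DefP.rv
      | apply DefP.imp | apply DefP.allFin | apply DefP.exFin | apply DefP.all | apply DefP.ex
      | assumption | (apply Tm.comp; assumption) | apply Tm.pair
      | apply Tm.lam))) (DefP.and (by (repeat' (first
      | apply DefP.hlf | apply DefP.p1le | apply DefP.p1 | apply DefP.p0 | apply DefP.aug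
      | apply DefP.pth | apply DefP.nx | apply DefP.cnd | apply DefP.hmin | apply DefP.hit
      | apply DefP.cdn | apply DefP.firstEx | apply DefP.exN | apply DefP.end_
      | apply DefP.isZero | apply DefP.isSucc | apply DefP.alt | apply DefP.exr | apply DefP.exl
      | apply DefP.side | apply DefP.oddCard | apply DefP.cardEq | apply DefP.cardLt
      | apply DefP.cardLe | apply DefP.lst | apply DefP.fst | apply DefP.nxt | apply DefP.keyLe
      | apply DefP.keyLt | apply DefP.rtc | (apply DefP.app4; assumption)
      | (apply DefP.app3'; assumption) | (apply DefP.app3; assumption)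
      | (apply DefP.app2; assumption) | (apply DefP.comp; assumption) | exact Tm.id
      | exact Tm.unit | apply Tm.fst | apply Tm.snd | apply Tm.app | exact DefP.const _
      | apply DefP.and | apply DefP.not | apply DefP.or | apply DefP.iff | apply DefP.adj
      | apply DefP.le | apply DefP.lt | apply DefP.eqFin | apply DefP.eq | apply DefP.rv
      | apply DefP.imp | apply DefP.allFin | apply DefP.exFin | apply DefP.all | apply DefP.ex
      | assumption | (apply Tm.comp; assumption) | apply Tm.pair | apply Tm.lam))) ?_))))
  refine DefP.oddCard (S := fun n => Fin n) (DefP.exFin (DefP.and (by (repeat' (first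
      | apply DefP.hlf | apply DefP.p1le | apply DefP.p1 | apply DefP.p0 | apply DefP.aug
      | apply DefP.pth | apply DefP.nx | apply DefP.cnd | apply DefP.hmin | apply DefP.hit
      | apply DefP.cdn | apply DefP.firstEx | apply DefP.exN | apply DefP.end_
      | apply DefP.isZero | apply DefP.isSucc | apply DefP.alt | apply DefP.exr | apply DefP.exl
      | apply DefP.side | apply DefP.oddCard | apply DefP.cardEq | apply DefP.cardLt
      | apply DefP.cardLe | apply DefP.lst | apply DefP.fst | apply DefP.nxt | apply DefP.keyLe
      | apply DefP.keyLt | apply DefP.rtc | (apply DefP.app4; assumption)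
      | (apply DefP.app3'; assumption) | (apply DefP.app3; assumption)
      | (apply DefP.app2; assumption) | (apply DefP.comp; assumption) | exact Tm.id
      | exact Tm.unit | apply Tm.fst | apply Tm.snd | apply Tm.app | exact DefP.const _
      | apply DefP.and | apply DefP.not | apply DefP.or | apply DefP.iff | apply DefP.adj
      | apply DefP.le | apply DefP.lt | apply DefP.eqFin | apply DefP.eq | apply DefP.rv
      | apply DefP.imp | apply DefP.allFin | apply DefP.exFin | apply DefP.all | apply DefP.ex
      | assumption | (apply Tm.comp; assumption) | apply Tm.pair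
      | apply Tm.lam))) (DefP.and ?_ ?_)))
  · refine DefP.fcR ?_ ?_ ?_
    all_goals (repeat' (first
        | apply DefP.hlf | apply DefP.p1le | apply DefP.p1 | apply DefP.p0 | apply DefP.aug
        | apply DefP.pth | apply DefP.nx | apply DefP.cnd | apply DefP.hmin | apply DefP.hit
        | apply DefP.cdn | apply DefP.firstEx | apply DefP.exN | apply DefP.end_
        | apply DefP.isZero | apply DefP.isSucc | apply DefP.alt | apply DefP.exr
        | apply DefP.exl | apply DefP.side | apply DefP.oddCard | apply DefP.cardEq
        | apply DefP.cardLt | apply DefP.cardLe | apply DefP.lst | apply DefP.fst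
        | apply DefP.nxt | apply DefP.keyLe | apply DefP.keyLt | apply DefP.rtc
        | (apply DefP.app4; assumption) | (apply DefP.app3'; assumption)
        | (apply DefP.app3; assumption) | (apply DefP.app2; assumption)
        | (apply DefP.comp; assumption) | exact Tm.id | exact Tm.unit | apply Tm.fst
        | apply Tm.snd | apply Tm.app | exact DefP.const _ | apply DefP.and | apply DefP.not
        | apply DefP.or | apply DefP.iff | apply DefP.adj | apply DefP.le | apply DefP.lt
        | apply DefP.eqFin | apply DefP.eq | apply DefP.rv | apply DefP.imp | apply DefP.allFin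
        | apply DefP.exFin | apply DefP.all | apply DefP.ex | assumption
        | (apply Tm.comp; assumption) | apply Tm.pair | apply Tm.lam))
  · refine DefP.wpar (T := fun n => Fin n × Fin n) ?_ (by (repeat' (first
      | apply DefP.hlf | apply DefP.p1le | apply DefP.p1 | apply DefP.p0 | apply DefP.aug
      | apply DefP.pth | apply DefP.nx | apply DefP.cnd | apply DefP.hmin | apply DefP.hit
      | apply DefP.cdn | apply DefP.firstEx | apply DefP.exN | apply DefP.end_
      | apply DefP.isZero | apply DefP.isSucc | apply DefP.alt | apply DefP.exr | apply DefP.exl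
      | apply DefP.side | apply DefP.oddCard | apply DefP.cardEq | apply DefP.cardLt
      | apply DefP.cardLe | apply DefP.lst | apply DefP.fst | apply DefP.nxt | apply DefP.keyLe
      | apply DefP.keyLt | apply DefP.rtc | (apply DefP.app4; assumption)
      | (apply DefP.app3'; assumption) | (apply DefP.app3; assumption)
      | (apply DefP.app2; assumption) | (apply DefP.comp; assumption) | exact Tm.id
      | exact Tm.unit | apply Tm.fst | apply Tm.snd | apply Tm.app | exact DefP.const _
      | apply DefP.and | apply DefP.not | apply DefP.or | apply DefP.iff | apply DefP.adj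
      | apply DefP.le | apply DefP.lt | apply DefP.eqFin | apply DefP.eq | apply DefP.rv
      | apply DefP.imp | apply DefP.allFin | apply DefP.exFin | apply DefP.all | apply DefP.ex
      | assumption | (apply Tm.comp; assumption) | apply Tm.pair
      | apply Tm.lam))) (by (repeat' (first
      | apply DefP.hlf | apply DefP.p1le | apply DefP.p1 | apply DefP.p0 | apply DefP.aug
      | apply DefP.pth | apply DefP.nx | apply DefP.cnd | apply DefP.hmin | apply DefP.hit
      | apply DefP.cdn | apply DefP.firstEx | apply DefP.exN | apply DefP.end_
      | apply DefP.isZero | apply DefP.isSucc | apply DefP.alt | apply DefP.exr | apply DefP.exl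
      | apply DefP.side | apply DefP.oddCard | apply DefP.cardEq | apply DefP.cardLt
      | apply DefP.cardLe | apply DefP.lst | apply DefP.fst | apply DefP.nxt | apply DefP.keyLe
      | apply DefP.keyLt | apply DefP.rtc | (apply DefP.app4; assumption)
      | (apply DefP.app3'; assumption) | (apply DefP.app3; assumption)
      | (apply DefP.app2; assumption) | (apply DefP.comp; assumption) | exact Tm.id
      | exact Tm.unit | apply Tm.fst | apply Tm.snd | apply Tm.app | exact DefP.const _
      | apply DefP.and | apply DefP.not | apply DefP.or | apply DefP.iff | apply DefP.adj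
      | apply DefP.le | apply DefP.lt | apply DefP.eqFin | apply DefP.eq | apply DefP.rv
      | apply DefP.imp | apply DefP.allFin | apply DefP.exFin | apply DefP.all | apply DefP.ex
      | assumption | (apply Tm.comp; assumption) | apply Tm.pair
      | apply Tm.lam))) (by (repeat' (first
      | apply DefP.hlf | apply DefP.p1le | apply DefP.p1 | apply DefP.p0 | apply DefP.aug
      | apply DefP.pth | apply DefP.nx | apply DefP.cnd | apply DefP.hmin | apply DefP.hit
      | apply DefP.cdn | apply DefP.firstEx | apply DefP.exN | apply DefP.end_
      | apply DefP.isZero | apply DefP.isSucc | apply DefP.alt | apply DefP.exr | apply DefP.exl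
      | apply DefP.side | apply DefP.oddCard | apply DefP.cardEq | apply DefP.cardLt
      | apply DefP.cardLe | apply DefP.lst | apply DefP.fst | apply DefP.nxt | apply DefP.keyLe
      | apply DefP.keyLt | apply DefP.rtc | (apply DefP.app4; assumption)
      | (apply DefP.app3'; assumption) | (apply DefP.app3; assumption)
      | (apply DefP.app2; assumption) | (apply DefP.comp; assumption) | exact Tm.id
      | exact Tm.unit | apply Tm.fst | apply Tm.snd | apply Tm.app | exact DefP.const _
      | apply DefP.and | apply DefP.not | apply DefP.or | apply DefP.iff | apply DefP.adj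
      | apply DefP.le | apply DefP.lt | apply DefP.eqFin | apply DefP.eq | apply DefP.rv
      | apply DefP.imp | apply DefP.allFin | apply DefP.exFin | apply DefP.all | apply DefP.ex
      | assumption | (apply Tm.comp; assumption) | apply Tm.pair | apply Tm.lam)))
    unfold stpR
    refine DefP.and (by (repeat' (first
        | apply DefP.hlf | apply DefP.p1le | apply DefP.p1 | apply DefP.p0 | apply DefP.aug
        | apply DefP.pth | apply DefP.nx | apply DefP.cnd | apply DefP.hmin | apply DefP.hit
        | apply DefP.cdn | apply DefP.firstEx | apply DefP.exN | apply DefP.end_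
        | apply DefP.isZero | apply DefP.isSucc | apply DefP.alt | apply DefP.exr
        | apply DefP.exl | apply DefP.side | apply DefP.oddCard | apply DefP.cardEq
        | apply DefP.cardLt | apply DefP.cardLe | apply DefP.lst | apply DefP.fst
        | apply DefP.nxt | apply DefP.keyLe | apply DefP.keyLt | apply DefP.rtc
        | (apply DefP.app4; assumption) | (apply DefP.app3'; assumption)
        | (apply DefP.app3; assumption) | (apply DefP.app2; assumption)
        | (apply DefP.comp; assumption) | exact Tm.id | exact Tm.unit | apply Tm.fst
        | apply Tm.snd | apply Tm.app | exact DefP.const _ | apply DefP.and | apply DefP.not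
        | apply DefP.or | apply DefP.iff | apply DefP.adj | apply DefP.le | apply DefP.lt
        | apply DefP.eqFin | apply DefP.eq | apply DefP.rv | apply DefP.imp | apply DefP.allFin
        | apply DefP.exFin | apply DefP.all | apply DefP.ex | assumption
        | (apply Tm.comp; assumption) | apply Tm.pair
        | apply Tm.lam))) (DefP.or (by (repeat' (first
        | apply DefP.hlf | apply DefP.p1le | apply DefP.p1 | apply DefP.p0 | apply DefP.aug
        | apply DefP.pth | apply DefP.nx | apply DefP.cnd | apply DefP.hmin | apply DefP.hit
        | apply DefP.cdn | apply DefP.firstEx | apply DefP.exN | apply DefP.end_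
        | apply DefP.isZero | apply DefP.isSucc | apply DefP.alt | apply DefP.exr
        | apply DefP.exl | apply DefP.side | apply DefP.oddCard | apply DefP.cardEq
        | apply DefP.cardLt | apply DefP.cardLe | apply DefP.lst | apply DefP.fst
        | apply DefP.nxt | apply DefP.keyLe | apply DefP.keyLt | apply DefP.rtc
        | (apply DefP.app4; assumption) | (apply DefP.app3'; assumption)
        | (apply DefP.app3; assumption) | (apply DefP.app2; assumption)
        | (apply DefP.comp; assumption) | exact Tm.id | exact Tm.unit | apply Tm.fst
        | apply Tm.snd | apply Tm.app | exact DefP.const _ | apply DefP.and | apply DefP.not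
        | apply DefP.or | apply DefP.iff | apply DefP.adj | apply DefP.le | apply DefP.lt
        | apply DefP.eqFin | apply DefP.eq | apply DefP.rv | apply DefP.imp | apply DefP.allFin
        | apply DefP.exFin | apply DefP.all | apply DefP.ex | assumption
        | (apply Tm.comp; assumption) | apply Tm.pair | apply Tm.lam)))
      (DefP.exFin (DefP.exFin (DefP.and (by (repeat' (first
          | apply DefP.hlf | apply DefP.p1le | apply DefP.p1 | apply DefP.p0 | apply DefP.aug
          | apply DefP.pth | apply DefP.nx | apply DefP.cnd | apply DefP.hmin | apply DefP.hit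
          | apply DefP.cdn | apply DefP.firstEx | apply DefP.exN | apply DefP.end_
          | apply DefP.isZero | apply DefP.isSucc | apply DefP.alt | apply DefP.exr
          | apply DefP.exl | apply DefP.side | apply DefP.oddCard | apply DefP.cardEq
          | apply DefP.cardLt | apply DefP.cardLe | apply DefP.lst | apply DefP.fst
          | apply DefP.nxt | apply DefP.keyLe | apply DefP.keyLt | apply DefP.rtc
          | (apply DefP.app4; assumption) | (apply DefP.app3'; assumption)
          | (apply DefP.app3; assumption) | (apply DefP.app2; assumption)
          | (apply DefP.comp; assumption) | exact Tm.id | exact Tm.unit | apply Tm.fst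
          | apply Tm.snd | apply Tm.app | exact DefP.const _ | apply DefP.and | apply DefP.not
          | apply DefP.or | apply DefP.iff | apply DefP.adj | apply DefP.le | apply DefP.lt
          | apply DefP.eqFin | apply DefP.eq | apply DefP.rv | apply DefP.imp
          | apply DefP.allFin | apply DefP.exFin | apply DefP.all | apply DefP.ex | assumption
          | (apply Tm.comp; assumption) | apply Tm.pair
          | apply Tm.lam))) (DefP.and (by (repeat' (first
          | apply DefP.hlf | apply DefP.p1le | apply DefP.p1 | apply DefP.p0 | apply DefP.aug
          | apply DefP.pth | apply DefP.nx | apply DefP.cnd | apply DefP.hmin | apply DefP.hit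
          | apply DefP.cdn | apply DefP.firstEx | apply DefP.exN | apply DefP.end_
          | apply DefP.isZero | apply DefP.isSucc | apply DefP.alt | apply DefP.exr
          | apply DefP.exl | apply DefP.side | apply DefP.oddCard | apply DefP.cardEq
          | apply DefP.cardLt | apply DefP.cardLe | apply DefP.lst | apply DefP.fst
          | apply DefP.nxt | apply DefP.keyLe | apply DefP.keyLt | apply DefP.rtc
          | (apply DefP.app4; assumption) | (apply DefP.app3'; assumption)
          | (apply DefP.app3; assumption) | (apply DefP.app2; assumption)
          | (apply DefP.comp; assumption) | exact Tm.id | exact Tm.unit | apply Tm.fst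
          | apply Tm.snd | apply Tm.app | exact DefP.const _ | apply DefP.and | apply DefP.not
          | apply DefP.or | apply DefP.iff | apply DefP.adj | apply DefP.le | apply DefP.lt
          | apply DefP.eqFin | apply DefP.eq | apply DefP.rv | apply DefP.imp
          | apply DefP.allFin | apply DefP.exFin | apply DefP.all | apply DefP.ex | assumption
          | (apply Tm.comp; assumption) | apply Tm.pair | apply Tm.lam))) ?_)))))
    refine DefP.fcR ?_ ?_ ?_
    all_goals (repeat' (first
        | apply DefP.hlf | apply DefP.p1le | apply DefP.p1 | apply DefP.p0 | apply DefP.aug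
        | apply DefP.pth | apply DefP.nx | apply DefP.cnd | apply DefP.hmin | apply DefP.hit
        | apply DefP.cdn | apply DefP.firstEx | apply DefP.exN | apply DefP.end_
        | apply DefP.isZero | apply DefP.isSucc | apply DefP.alt | apply DefP.exr
        | apply DefP.exl | apply DefP.side | apply DefP.oddCard | apply DefP.cardEq
        | apply DefP.cardLt | apply DefP.cardLe | apply DefP.lst | apply DefP.fst
        | apply DefP.nxt | apply DefP.keyLe | apply DefP.keyLt | apply DefP.rtc
        | (apply DefP.app4; assumption) | (apply DefP.app3'; assumption)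
        | (apply DefP.app3; assumption) | (apply DefP.app2; assumption)
        | (apply DefP.comp; assumption) | exact Tm.id | exact Tm.unit | apply Tm.fst
        | apply Tm.snd | apply Tm.app | exact DefP.const _ | apply DefP.and | apply DefP.not
        | apply DefP.or | apply DefP.iff | apply DefP.adj | apply DefP.le | apply DefP.lt
        | apply DefP.eqFin | apply DefP.eq | apply DefP.rv | apply DefP.imp | apply DefP.allFin
        | apply DefP.exFin | apply DefP.all | apply DefP.ex | assumption
        | (apply Tm.comp; assumption) | apply Tm.pair | apply Tm.lam))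

end def_

end Pool.Agent.PMNC
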