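import Mathlib
import Pool.Agent.Lib.MP_0087d5_lc.UDetB

set_option autoImplicit false
set_option linter.all false

/-!
# The determinant over `ZMod 2` of a symmetric matrix counts perfect matchings
-/

namespace Pool.Agent.PMNC

open Matrix

section
variable {n : ℕ} {A : Fin n → Fin n → Prop}

/-- a perfect matching of the relation `A`, as a map -/
def IsM (A : Fin n → Fin n → Prop) (f : Fin n → Fin n) : Prop :=
  (∀ v, f (f v) = v) ∧ ∀ v, A v (f v)

open Classical in
/-- the contribution of a permutation -/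
noncomputable def wt (A : Fin n → Fin n → Prop) (σ : Equiv.Perm (Fin n)) : ZMod 2 :=
  if ∀ i, A (σ i) i then 1 else 0

theorem det_eq_wt : (mtx A).det = ∑ σ : Equiv.Perm (Fin n), wt A σ := by
  classical
  rw [Matrix.det_apply']
  refine Finset.sum_congr rfl fun σ _ => ?_
  have h1 : ((Equiv.Perm.sign σ : ℤ) : ZMod 2) = 1 := by
    rcases Int.units_eq_one_or (Equiv.Perm.sign σ) with h | h
    · rw [h]; simp
    · rw [h]
      simp
  rw [h1, one_mul]
  unfold wt
  by_cases h : ∀ i, A (σ i) i
  · rw [if_pos h]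
    apply Finset.prod_eq_one
    intro i _
    exact mtx_eq_one.2 (h i)
  · rw [if_neg h]
    push Not at h
    obtain ⟨i, hi⟩ := h
    apply Finset.prod_eq_zero (Finset.mem_univ i)
    rcases z2_cases (mtx A (σ i) i) with h2 | h2
    · exact h2
    · exact absurd (mtx_eq_one.1 h2) hi

theorem wt_inv (hs : ∀ x y, A x y → A y x) (σ : Equiv.Perm (Fin n)) : wt A σ⁻¹ = wt A σ := by
  unfold wt
  have : (∀ i, A (σ⁻¹ i) i) ↔ ∀ i, A (σ i) i := by
    constructor
    · intro h i
      have := h (σ i)
      rw [show σ⁻¹ (σ i) = i from Equiv.symm_apply_apply σ i] at this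
      exact hs _ _ this
    · intro h i
      have := h (σ⁻¹ i)
      rw [show σ (σ⁻¹ i) = i from Equiv.apply_symm_apply σ i] at this
      exact hs _ _ this
  by_cases h : ∀ i, A (σ i) i
  · rw [if_pos (this.2 h), if_pos h]
  · rw [if_neg (fun hh => h (this.1 hh)), if_neg h]

theorem det_eq_inv (hs : ∀ x y, A x y → A y x) : (mtx A).det =
    ∑ σ ∈ Finset.univ.filter (fun σ : Equiv.Perm (Fin n) => σ⁻¹ = σ), wt A σ := by
  classical
  rw [det_eq_wt, ← Finset.sum_filter_add_sum_filter_not Finset.univ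
    (fun σ : Equiv.Perm (Fin n) => σ⁻¹ = σ)]
  have : ∑ σ ∈ Finset.univ.filter (fun σ : Equiv.Perm (Fin n) => ¬ σ⁻¹ = σ), wt A σ = 0 := by
    refine Finset.sum_involution (fun σ _ => σ⁻¹) ?_ ?_ ?_ ?_
    · intro σ _
      rw [wt_inv hs]
      rcases z2_cases (wt A σ) with h | h
      · rw [h]; decide
      · rw [h]; decide
    · intro σ hσ _
      exact (Finset.mem_filter.1 hσ).2
    · intro σ hσ
      rw [Finset.mem_filter] at hσ ⊢
      refine ⟨Finset.mem_univ _, fun h => hσ.2 ?_⟩
      rw [inv_inv] at h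
      exact h.symm
    · intro σ _
      exact inv_inv σ
  rw [this, add_zero]

/-- a map that is its own inverse as a permutation -/
def invPerm (f : Fin n → Fin n) (h : ∀ v, f (f v) = v) : Equiv.Perm (Fin n) := ⟨f, f, h, h⟩

theorem isM_of_wt (hs : ∀ x y, A x y → A y x) {σ : Equiv.Perm (Fin n)} (h : σ⁻¹ = σ)
    (hw : wt A σ ≠ 0) : IsM A σ := by
  unfold wt at hw
  have h1 : ∀ i, A (σ i) i := by
    by_contra hc
    exact hw (if_neg hc)
  refine ⟨fun v => ?_, fun v => hs _ _ (h1 v)⟩
  nth_rewrite 1 [← h]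
  exact Equiv.symm_apply_apply σ v

theorem det_of_none (hs : ∀ x y, A x y → A y x) (h : ¬ ∃ f, IsM A f) : (mtx A).det ≠ 1 := by
  rw [det_eq_inv hs, Finset.sum_eq_zero]
  · decide
  · intro σ hσ
    by_contra hc
    exact h ⟨σ, isM_of_wt hs (Finset.mem_filter.1 hσ).2 hc⟩

theorem det_of_unique (hs : ∀ x y, A x y → A y x) (h : ∃! f, IsM A f) : (mtx A).det = 1 := by
  obtain ⟨f, hf, hu⟩ := h
  rw [det_eq_inv hs, Finset.sum_eq_single (invPerm f hf.1)]
  · unfold wt
    rw [if_pos]
    intro i
    exact hs _ _ (hf.2 i)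
  · intro σ hσ hne
    by_contra hc
    apply hne
    have := hu σ (isM_of_wt hs (Finset.mem_filter.1 hσ).2 hc)
    ext1 x
    exact congrFun this x
  · intro h
    exfalso
    apply h
    rw [Finset.mem_filter]
    refine ⟨Finset.mem_univ _, ?_⟩
    ext1 x
    rfl

/-- `A` with the vertices `x` and `y` joined only to each other -/
def gxy (A : Fin n → Fin n → Prop) (x y u v : Fin n) : Prop :=
  (u ≠ x ∧ u ≠ y ∧ v ≠ x ∧ v ≠ y ∧ A u v) ∨ (u = x ∧ v = y) ∨ (u = y ∧ v = x)

/-- the candidate for the perfect matching -/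
def nR (A : Fin n → Fin n → Prop) (x y : Fin n) : Prop := A x y ∧ dtR (gxy A x y)

theorem gxy_isM (hs : ∀ x y, A x y → A y x) (hi : ∀ x, ¬ A x x) {x y : Fin n} (hxy : A x y)
    (g : Fin n → Fin n) : IsM (gxy A x y) g ↔ IsM A g ∧ g x = y := by
  have hne : x ≠ y := fun h => hi x (by nth_rewrite 2 [h]; exact hxy)
  constructor
  · rintro ⟨h1, h2⟩
    have hx : g x = y := by
      rcases h2 x with h | h | h
      · exact absurd rfl h.1
      · exact h.2
      · exact absurd h.1 hne
    refine ⟨⟨h1, fun v => ?_⟩, hx⟩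
    rcases h2 v with h | h | h
    · exact h.2.2.2.2
    · rw [h.2, h.1]; exact hxy
    · rw [h.2, h.1]; exact hs _ _ hxy
  · rintro ⟨⟨h1, h2⟩, h3⟩
    have h4 : g y = x := by rw [← h3, h1]
    refine ⟨h1, fun v => ?_⟩
    by_cases hvx : v = x
    · subst hvx
      exact Or.inr (Or.inl ⟨rfl, h3⟩)
    · by_cases hvy : v = y
      · subst hvy
        exact Or.inr (Or.inr ⟨rfl, h4⟩)
      · refine Or.inl ⟨hvx, hvy, fun h => hvy ?_, fun h => hvx ?_, h2 v⟩
        · rw [← h1 v, h, h3]
        · rw [← h1 v, h, h4]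

theorem nR_iff (hs : ∀ x y, A x y → A y x) (hi : ∀ x, ¬ A x x) {f : Fin n → Fin n}
    (hf : IsM A f) (hu : ∀ g, IsM A g → g = f) {x y : Fin n} : nR A x y ↔ y = f x := by
  unfold nR
  have hgs : ∀ x y u v, gxy A x y u v → gxy A x y v u := by
    intro x y u v h
    rcases h with h | h | h
    · exact Or.inl ⟨h.2.2.1, h.2.2.2.1, h.1, h.2.1, hs _ _ h.2.2.2.2⟩
    · exact Or.inr (Or.inr ⟨h.2, h.1⟩)
    · exact Or.inr (Or.inl ⟨h.2, h.1⟩)
  have hgi : ∀ x y, x ≠ y → ∀ u, ¬ gxy A x y u u := by
    intro x y hxy u h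
    rcases h with h | h | h
    · exact hi _ h.2.2.2.2
    · exact hxy (h.1.symm.trans h.2)
    · exact hxy (h.2.symm.trans h.1)
  constructor
  · rintro ⟨hA, hd⟩
    have hne : x ≠ y := fun h => hi x (by nth_rewrite 2 [h]; exact hA)
    rw [dtR_iff (hgi x y hne)] at hd
    by_contra hc
    refine det_of_none (hgs x y) ?_ hd
    rintro ⟨g, hg⟩
    rw [gxy_isM hs hi hA] at hg
    apply hc
    rw [← hg.2, hu g hg.1]
  · intro h
    have hA : A x y := by rw [h]; exact hf.2 x
    have hne : x ≠ y := fun h => hi x (by nth_rewrite 2 [h]; exact hA)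
    refine ⟨hA, ?_⟩
    rw [dtR_iff (hgi x y hne)]
    refine det_of_unique (hgs x y) ⟨f, (gxy_isM hs hi hA f).2 ⟨hf, h.symm⟩, fun g hg => ?_⟩
    exact hu g ((gxy_isM hs hi hA g).1 hg).1

end

theorem DefP.nR {E : ℕ → Type} [Env E]
    {A : ∀ n : ℕ, SimpleGraph (Fin n) → Fin n → Fin n → Prop}
    (hA : DefP (E := fun n => Fin n × Fin n) (fun n G X y => A n G y.1 y.2))
    {x y : ∀ n : ℕ, E n → Fin n} (hx : Tm (F := fun n => Fin n) x)
    (hy : Tm (F := fun n => Fin n) y) :
    DefP (fun n G X e => PMNC.nR (A n G) (x n e) (y n e)) := by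
  have key : DefP (E := fun n => Fin n × Fin n) (fun n G X e => PMNC.nR (A n G) e.1 e.2) := by
    unfold PMNC.nR
    refine DefP.and hA ?_
    refine DefP.dtR ?_
    unfold gxy
    (repeat' (first
        | apply DefP.hlf | apply DefP.p1le | apply DefP.p1 | apply DefP.p0 | apply DefP.aug
        | apply DefP.pth | apply DefP.nx | apply DefP.cnd | apply DefP.hmin | apply DefP.hit
        | apply DefP.cdn | apply DefP.firstEx | apply DefP.exN | apply DefP.end_
        | apply DefP.isZero | apply DefP.isSucc | apply DefP.alt | apply DefP.exr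
        | apply DefP.exl | apply DefP.side | apply DefP.oddCard | apply DefP.cardEq
        | apply DefP.cardLt | apply DefP.cardLe | apply DefP.lst | apply DefP.fst
        | apply DefP.nxt | apply DefP.keyLe | apply DefP.keyLt | apply DefP.rtc
        | (apply DefP.app4; assumption) | (apply DefP.app3'; assumption)
        | (apply DefP.app3; assumption) | (apply DefP.app2; assumption)
        | (apply DefP.comp; assumption) | exact Tm.id | exact Tm.unit | apply Tm.fst
        | apply Tm.snd | apply Tm.app | exact DefP.const _ | apply DefP.and | apply DefP.not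
        | apply DefP.or | apply DefP.iff | apply DefP.adj | apply DefP.le | apply DefP.lt
        | apply DefP.eqFin | apply DefP.eq | apply DefP.rv | apply DefP.imp | apply DefP.allFin
        | apply DefP.exFin | apply DefP.all | apply DefP.ex | assumption
        | (apply Tm.comp; assumption) | apply Tm.pair | apply Tm.lam))
  exact DefP.app2 (F := fun n => Fin n) (H := fun n => Fin n)
    (P := fun n G X x y => PMNC.nR (A n G) x y) key hx hy

end Pool.Agent.PMNC
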