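import Mathlib

set_option autoImplicit false
set_option linter.all false

/-!
# Alternating walks relative to a perfect matching

`mate` is a perfect matching, `E` are the other edges.  A state is a vertex `x` reached through the
matching edge `mate x - x`; the next state `t` after `s` satisfies `E s (mate t)`.
-/

namespace Pool.Agent.PMNC.U

/-- a graph with a perfect matching `mate`; `E` are the edges outside the matching -/
structure AG (V : Type*) where
  mate : V → V
  E : V → V → Prop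
  mm : ∀ x, mate (mate x) = x
  mne : ∀ x, mate x ≠ x
  symm : ∀ x y, E x y → E y x
  irr : ∀ x, ¬ E x x
  nm : ∀ x, ¬ E x (mate x)

variable {V : Type*} (H : AG V)

/-- `x` and `y` lie on different matching edges -/
def AG.sep (x y : V) : Prop := x ≠ y ∧ x ≠ H.mate y

/-- the walk from the state `s` through the states `l`, ending in `t` -/
def AG.Wk : V → List V → V → Prop
  | s, [], t => s = t
  | s, x :: l, t => H.E s (H.mate x) ∧ AG.Wk x l t

/-- the reversed list of states -/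
def AG.rv (l : List V) : List V := (l.map H.mate).reverse

/-- no matching edge is used twice -/
def AG.ND (l : List V) : Prop := l.Pairwise H.sep

/-- there is no alternating cycle -/
def AG.NoCyc : Prop := ∀ c l, H.Wk c l c → H.ND l → l = []

variable {H}

theorem mate_inj {x y : V} (h : H.mate x = H.mate y) : x = y := by
  rw [← H.mm x, h, H.mm]

theorem sep_comm {x y : V} : H.sep x y ↔ H.sep y x := by
  unfold AG.sep
  constructor
  · rintro ⟨h1, h2⟩
    exact ⟨fun h => h1 h.symm, fun h => h2 (by rw [h, H.mm])⟩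
  · rintro ⟨h1, h2⟩
    exact ⟨fun h => h1 h.symm, fun h => h2 (by rw [h, H.mm])⟩

theorem sep_mr {x y : V} : H.sep x (H.mate y) ↔ H.sep x y := by
  unfold AG.sep
  rw [H.mm]
  exact and_comm

theorem sep_ml {x y : V} : H.sep (H.mate x) y ↔ H.sep x y := by
  rw [sep_comm, sep_mr, sep_comm]

theorem sep_self {x : V} (h : H.sep x x) : False := h.1 rfl

theorem not_sep {x y : V} : ¬ H.sep x y ↔ x = y ∨ x = H.mate y := by
  unfold AG.sep
  tauto

theorem E_comm {x y : V} : H.E x y ↔ H.E y x := ⟨H.symm _ _, H.symm _ _⟩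

@[simp] theorem wk_nil {s t : V} : H.Wk s [] t ↔ s = t := Iff.rfl

@[simp] theorem wk_cons {s x t : V} {l : List V} :
    H.Wk s (x :: l) t ↔ H.E s (H.mate x) ∧ H.Wk x l t := Iff.rfl

theorem wk_append {s t : V} {l₁ l₂ : List V} :
    H.Wk s (l₁ ++ l₂) t ↔ ∃ m, H.Wk s l₁ m ∧ H.Wk m l₂ t := by
  induction l₁ generalizing s with
  | nil => simp
  | cons x l ih =>
    simp only [List.cons_append, wk_cons, ih]
    constructor
    · rintro ⟨h, m, h1, h2⟩
      exact ⟨m, ⟨h, h1⟩, h2⟩
    · rintro ⟨m, ⟨h, h1⟩, h2⟩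
      exact ⟨h, m, h1, h2⟩

theorem wk_snoc {s t u : V} {l : List V} :
    H.Wk s (l ++ [t]) u ↔ t = u ∧ ∃ m, H.Wk s l m ∧ H.E m (H.mate t) := by
  rw [wk_append]
  simp only [wk_cons, wk_nil]
  constructor
  · rintro ⟨m, h1, h2, h3⟩
    exact ⟨h3, m, h1, h2⟩
  · rintro ⟨h3, m, h1, h2⟩
    exact ⟨m, h1, h2, h3⟩

/-- split a walk at a state -/
theorem wk_mid {s z t : V} {X Y : List V} :
    H.Wk s (X ++ z :: Y) t ↔ H.Wk s (X ++ [z]) z ∧ H.Wk z Y t := by
  rw [wk_append, wk_snoc]
  constructor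
  · rintro ⟨m, h1, h2, h3⟩
    exact ⟨⟨rfl, m, h1, h2⟩, h3⟩
  · rintro ⟨⟨-, m, h1, h2⟩, h3⟩
    exact ⟨m, h1, h2, h3⟩

theorem wk_last {s t : V} {l : List V} (h : H.Wk s l t) (hl : l ≠ []) : ∃ l', l = l' ++ [t] := by
  rcases List.eq_nil_or_concat l with rfl | ⟨l', x, rfl⟩
  · exact absurd rfl hl
  · rw [List.concat_eq_append, wk_snoc] at h
    exact ⟨l', by rw [List.concat_eq_append, h.1]⟩

theorem wk_end_mem {s t : V} {l : List V} (h : H.Wk s l t) : t = s ∨ t ∈ l := by
  by_cases hl : l = []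
  · subst hl
    exact Or.inl h.symm
  · obtain ⟨l', rfl⟩ := wk_last h hl
    right
    simp

theorem rv_nil : H.rv [] = [] := rfl

theorem rv_cons {x : V} {l : List V} : H.rv (x :: l) = H.rv l ++ [H.mate x] := by
  simp [AG.rv]

theorem rv_append {l₁ l₂ : List V} : H.rv (l₁ ++ l₂) = H.rv l₂ ++ H.rv l₁ := by
  simp [AG.rv]

theorem mem_rv {x : V} {l : List V} : x ∈ H.rv l ↔ H.mate x ∈ l := by
  unfold AG.rv
  rw [List.mem_reverse, List.mem_map]
  constructor
  · rintro ⟨a, ha, rfl⟩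
    rwa [H.mm]
  · intro h
    exact ⟨_, h, H.mm x⟩

theorem rv_length {l : List V} : (H.rv l).length = l.length := by simp [AG.rv]

/-- the reversed walk -/
theorem wk_rev {x w s : V} {l : List V} (h : H.Wk x l w) (hs : H.E s w) :
    H.Wk s (H.rv l ++ [H.mate x]) (H.mate x) := by
  induction l generalizing x with
  | nil =>
    rw [wk_nil] at h
    subst h
    rw [rv_nil, List.nil_append, wk_cons, H.mm]
    exact ⟨hs, rfl⟩
  | cons y l ih =>
    rw [wk_cons] at h
    rw [rv_cons, wk_snoc]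
    refine ⟨rfl, H.mate y, ih h.2, ?_⟩
    rw [H.mm]
    exact H.symm _ _ h.1

theorem wk_rev' {s c : V} {l : List V} (h : H.Wk s (l ++ [c]) c) :
    ∃ w, H.Wk (H.mate c) (H.rv l) w ∧ H.E s w := by
  induction l generalizing s with
  | nil =>
    rw [List.nil_append, wk_cons] at h
    exact ⟨H.mate c, rfl, h.1⟩
  | cons x l ih =>
    rw [List.cons_append, wk_cons] at h
    obtain ⟨w, h1, h2⟩ := ih h.2
    refine ⟨H.mate x, ?_, h.1⟩
    rw [rv_cons, wk_snoc]
    refine ⟨rfl, w, h1, ?_⟩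
    rw [H.mm]
    exact H.symm _ _ h2

theorem nd_append {l₁ l₂ : List V} :
    H.ND (l₁ ++ l₂) ↔ H.ND l₁ ∧ H.ND l₂ ∧ ∀ x ∈ l₁, ∀ y ∈ l₂, H.sep x y := by
  unfold AG.ND
  rw [List.pairwise_append]

theorem nd_cons {x : V} {l : List V} : H.ND (x :: l) ↔ (∀ y ∈ l, H.sep x y) ∧ H.ND l := by
  unfold AG.ND
  rw [List.pairwise_cons]

@[simp] theorem nd_nil : H.ND [] := List.Pairwise.nil

theorem nd_single {x : V} : H.ND [x] := List.pairwise_singleton _ _

theorem nd_rv {l : List V} : H.ND (H.rv l) ↔ H.ND l := by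
  unfold AG.ND AG.rv
  rw [List.pairwise_reverse, List.pairwise_map]
  constructor
  · intro h
    refine h.imp ?_
    intro a b hab
    rw [sep_mr, sep_ml] at hab
    exact sep_comm.1 hab
  · intro h
    refine h.imp ?_
    intro a b hab
    rw [sep_mr, sep_ml]
    exact sep_comm.1 hab

theorem nd_mid {X Y : List V} {z : V} (h : H.ND (X ++ z :: Y)) :
    H.ND X ∧ H.ND Y ∧ (∀ x ∈ X, H.sep x z) ∧ (∀ y ∈ Y, H.sep y z) ∧
      ∀ x ∈ X, ∀ y ∈ Y, H.sep x y := by
  rw [nd_append, nd_cons] at h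
  refine ⟨h.1, h.2.1.2, fun x hx => h.2.2 x hx z (by simp), fun y hy => ?_, fun x hx y hy =>
    h.2.2 x hx y (by simp [hy])⟩
  exact sep_comm.1 (h.2.1.1 y hy)

/-- the first element with a property -/
theorem split_first (p : V → Prop) (l : List V) :
    (∀ x ∈ l, ¬ p x) ∨ ∃ X t Y, l = X ++ t :: Y ∧ (∀ x ∈ X, ¬ p x) ∧ p t := by
  induction l with
  | nil => exact Or.inl (by simp)
  | cons a l ih =>
    by_cases ha : p a
    · exact Or.inr ⟨[], a, l, rfl, by simp, ha⟩
    · rcases ih with h | ⟨X, t, Y, rfl, h1, h2⟩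
      · left
        intro x hx
        rcases List.mem_cons.1 hx with rfl | hx
        · exact ha
        · exact h x hx
      · right
        refine ⟨a :: X, t, Y, rfl, ?_, h2⟩
        intro x hx
        rcases List.mem_cons.1 hx with rfl | hx
        · exact ha
        · exact h1 x hx

/-- the last element with a property -/
theorem split_last (p : V → Prop) (l : List V) :
    (∀ x ∈ l, ¬ p x) ∨ ∃ X t Y, l = X ++ t :: Y ∧ (∀ x ∈ Y, ¬ p x) ∧ p t := by
  rcases split_first p l.reverse with h | ⟨X, t, Y, h, h1, h2⟩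
  · left
    intro x hx
    exact h x (List.mem_reverse.2 hx)
  · right
    refine ⟨Y.reverse, t, X.reverse, ?_, ?_, h2⟩
    · have := congrArg List.reverse h
      rw [List.reverse_reverse] at this
      rw [this]
      simp
    · intro x hx
      exact h1 x (List.mem_reverse.1 hx)

/-! ### two walks from the two ends of a matching edge -/

/-- two simple walks from `c` and from `mate c` that meet: they first meet in an ear -/
theorem meet (hN : H.NoCyc) {c y₁ y₂ : V} {l₁ l₂ : List V} (h₁ : H.Wk c l₁ y₁)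
    (h₂ : H.Wk (H.mate c) l₂ y₂) (n₁ : H.ND l₁) (n₂ : H.ND l₂) (s₁ : ∀ x ∈ l₁, H.sep x c)
    (s₂ : ∀ x ∈ l₂, H.sep x c) (hm : ¬ ∀ x ∈ l₁, ∀ y ∈ l₂, H.sep x y) :
    ∃ z X₁ Y₁ X₂ Y₂, l₁ = X₁ ++ z :: Y₁ ∧ l₂ = X₂ ++ z :: Y₂ ∧
      (∀ x ∈ X₁, ∀ y ∈ X₂, H.sep x y) ∧
      ∃ w, H.Wk (H.mate z) (H.rv X₂ ++ c :: X₁) w ∧ H.E w (H.mate z) ∧
        H.ND (H.rv X₂ ++ c :: X₁) ∧ ∀ x ∈ H.rv X₂ ++ c :: X₁, H.sep x (H.mate z) := by
  rcases split_first (fun y => ∃ x ∈ l₁, ¬ H.sep x y) l₂ with h | ⟨X₂, v, Y₂, rfl, hX, ⟨z, hz, hzv⟩⟩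
  · exfalso
    apply hm
    intro x hx y hy
    by_contra hc
    exact h y hy ⟨x, hx, hc⟩
  · push Not at hX
    obtain ⟨X₁, Y₁, rfl⟩ := List.append_of_mem hz
    have m₁ := nd_mid n₁
    have m₂ := nd_mid n₂
    have w₁ := wk_mid.1 h₁
    have w₂ := wk_mid.1 h₂
    obtain ⟨w, hw, hw2⟩ := wk_rev' w₂.1
    obtain ⟨-, y', hy', hy2⟩ := wk_snoc.1 w₁.1
    have hdis : ∀ x ∈ X₁, ∀ y ∈ X₂, H.sep x y := fun x hx y hy => hX y hy x (by simp [hx])
    have hzX : ∀ y ∈ X₂, H.sep z y := fun y hy => hX y hy z (by simp)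
    rcases not_sep.1 hzv with e | e
    · -- the same state
      subst e
      refine ⟨z, X₁, Y₁, X₂, Y₂, rfl, rfl, hdis, y', ?_, hy2, ?_, ?_⟩
      · rw [wk_mid]
        refine ⟨?_, hy'⟩
        rw [wk_snoc]
        exact ⟨rfl, w, hw, H.symm _ _ hw2⟩
      · rw [nd_append, nd_cons, nd_rv]
        refine ⟨m₂.1, ⟨fun y hy => sep_comm.1 (s₁ y (by simp [hy])), m₁.1⟩, ?_⟩
        intro x hx y hy
        rw [mem_rv] at hx
        rcases List.mem_cons.1 hy with rfl | hy
        · exact sep_ml.1 (s₂ _ (by simp [hx]))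
        · exact sep_ml.1 (sep_comm.1 (hdis y hy _ hx))
      · intro x hx
        rw [sep_mr]
        rcases List.mem_append.1 hx with hx | hx
        · rw [mem_rv] at hx
          exact sep_ml.1 (m₂.2.2.1 _ hx)
        · rcases List.mem_cons.1 hx with rfl | hx
          · exact sep_comm.1 (s₁ z (by simp))
          · exact m₁.2.2.1 x hx
    · -- opposite states: an alternating cycle
      exfalso
      have e' : H.mate v = z := e.symm
      rw [e'] at hw
      have hcyc : H.Wk c (X₁ ++ z :: (H.rv X₂ ++ [c])) c := by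
        rw [wk_mid]
        refine ⟨w₁.1, ?_⟩
        rw [wk_snoc]
        exact ⟨rfl, w, hw, H.symm _ _ hw2⟩
      have hnd : H.ND (X₁ ++ z :: (H.rv X₂ ++ [c])) := by
        rw [nd_append, nd_cons, nd_append, nd_rv]
        refine ⟨m₁.1, ⟨?_, m₂.1, nd_single, ?_⟩, ?_⟩
        · intro y hy
          rcases List.mem_append.1 hy with hy | hy
          · rw [mem_rv] at hy
            exact sep_mr.1 (hzX _ hy)
          · rw [List.mem_singleton.1 hy]
            exact s₁ z (by simp)
        · intro x hx y hy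
          rw [List.mem_singleton.1 hy]
          rw [mem_rv] at hx
          exact sep_ml.1 (s₂ _ (by simp [hx]))
        · intro x hx y hy
          rcases List.mem_cons.1 hy with rfl | hy
          · exact m₁.2.2.1 x hx
          rcases List.mem_append.1 hy with hy | hy
          · rw [mem_rv] at hy
            exact sep_mr.1 (hdis x hx _ hy)
          · rw [List.mem_singleton.1 hy]
            exact s₁ x (by simp [hx])
      have := hN c _ hcyc hnd
      simp at this

end Pool.Agent.PMNC.U
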