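import Mathlib
import Pool.Agent.Lib.MP_0087d5_lc.UAlt

set_option autoImplicit false
set_option linter.all false

/-!
# Blossoms

`K a` is the largest blossom with base `a`.  If there is no alternating cycle, then
the relation (lies in the blossom of) is transitive, and two short walks from the two ends of a matching edge
to the blossom which have no common bottleneck force the edge to lie in the blossom.
-/

namespace Pool.Agent.PMNC.U

variable {V : Type*} {H : AG V}

/-- `B` is a blossom with base `a` -/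
structure Bl (H : AG V) (a : V) (B : Set V) : Prop where
  base : a ∈ B
  nmate : H.mate a ∉ B
  mate : ∀ x ∈ B, x ≠ a → H.mate x ∈ B
  walk : ∀ v ∈ B, ∃ l, H.Wk a l v ∧ H.ND l ∧ ∀ x ∈ l, x ∈ B ∧ H.sep x a

theorem bl_single (a : V) : Bl H a {a} where
  base := rfl
  nmate := fun h => H.mne a h
  mate := fun x hx hne => absurd hx hne
  walk := fun v hv => ⟨[], by rw [Set.mem_singleton_iff.1 hv]; rfl, nd_nil, by simp⟩

/-- the union of the blossoms with base `a` inside `S` -/
def Kin (H : AG V) (a : V) (S : Set V) : Set V := {v | ∃ B, Bl H a B ∧ B ⊆ S ∧ v ∈ B}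

theorem bl_kin {a : V} {S : Set V} (ha : a ∈ S) : Bl H a (Kin H a S) where
  base := ⟨{a}, bl_single a, by simpa using ha, rfl⟩
  nmate := by
    rintro ⟨B, hB, -, h⟩
    exact hB.nmate h
  mate := by
    rintro x ⟨B, hB, hS, h⟩ hne
    exact ⟨B, hB, hS, hB.mate x h hne⟩
  walk := by
    rintro v ⟨B, hB, hS, h⟩
    obtain ⟨l, h1, h2, h3⟩ := hB.walk v h
    exact ⟨l, h1, h2, fun x hx => ⟨⟨B, hB, hS, (h3 x hx).1⟩, (h3 x hx).2⟩⟩

theorem kin_sub {a : V} {S : Set V} : Kin H a S ⊆ S := by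
  rintro v ⟨B, -, hS, h⟩
  exact hS h

theorem sub_kin {a : V} {S B : Set V} (hB : Bl H a B) (hS : B ⊆ S) : B ⊆ Kin H a S :=
  fun v hv => ⟨B, hB, hS, hv⟩

/-- the largest blossom with base `a` -/
def KK (H : AG V) (a : V) : Set V := Kin H a Set.univ

theorem bl_KK (a : V) : Bl H a (KK H a) := bl_kin (Set.mem_univ _)

theorem sub_KK {a : V} {B : Set V} (hB : Bl H a B) : B ⊆ KK H a := sub_kin hB (Set.subset_univ _)

theorem Bl.sep_out {a x z : V} {B : Set V} (hB : Bl H a B) (hx : x ∉ B) (hs : H.sep x a)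
    (hz : z ∈ B) : H.sep x z := by
  by_cases h : z = a
  · rw [h]; exact hs
  · refine ⟨fun e => hx (e ▸ hz), fun e => hx (e ▸ hB.mate z hz h)⟩

theorem Bl.mate_mem {a x : V} {B : Set V} (hB : Bl H a B) (hs : H.sep x a) :
    H.mate x ∈ B ↔ x ∈ B := by
  constructor
  · intro h
    have := hB.mate _ h (fun e => hs.2 (by rw [← e, H.mm]))
    rwa [H.mm] at this
  · intro h
    exact hB.mate x h hs.1

/-- a blossom can be extended by an ear -/
theorem bl_ext {a u w y : V} {B : Set V} {l : List V} (hB : Bl H a B) (hu : u ∈ B) (hw : w ∈ B)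
    (h : H.Wk u l y) (hy : H.E y w) (hnd : H.ND l) (hl : ∀ x ∈ l, x ∉ B ∧ H.sep x a) :
    Bl H a (B ∪ {x | x ∈ l ∨ H.mate x ∈ l}) where
  base := Or.inl hB.base
  nmate := by
    rintro (h | h | h)
    · exact hB.nmate h
    · exact (hl _ h).2.2 rfl
    · rw [H.mm] at h
      exact sep_self (hl _ h).2
  mate := by
    rintro x (hx | hx | hx) hne
    · exact Or.inl (hB.mate x hx hne)
    · right; right
      rwa [H.mm]
    · exact Or.inr (Or.inl hx)
  walk := by
    have key : ∀ v₀ ∈ B, ∀ l' : List V, ∀ v, H.Wk v₀ l' v → H.ND l' →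
        (∀ x ∈ l', (x ∈ l ∨ H.mate x ∈ l)) →
        ∃ m, H.Wk a m v ∧ H.ND m ∧ ∀ x ∈ m, x ∈ B ∪ {x | x ∈ l ∨ H.mate x ∈ l} ∧ H.sep x a := by
      intro v₀ hv₀ l' v h1 h2 h3
      obtain ⟨m, hm1, hm2, hm3⟩ := hB.walk v₀ hv₀
      have hsa : ∀ x ∈ l', H.sep x a := by
        intro x hx
        rcases h3 x hx with h | h
        · exact (hl x h).2
        · exact sep_ml.1 (hl _ h).2
      have hout : ∀ x ∈ l', x ∉ B := by
        intro x hx
        rcases h3 x hx with h | h
        · exact (hl x h).1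
        · intro hc
          exact (hl _ h).1 ((hB.mate_mem (hsa x hx)).2 hc)
      refine ⟨m ++ l', wk_append.2 ⟨v₀, hm1, h1⟩, ?_, ?_⟩
      · rw [nd_append]
        refine ⟨hm2, h2, fun x hx y hy => ?_⟩
        exact sep_comm.1 (hB.sep_out (hout y hy) (hsa y hy) (hm3 x hx).1)
      · intro x hx
        rcases List.mem_append.1 hx with hx | hx
        · exact ⟨Or.inl (hm3 x hx).1, (hm3 x hx).2⟩
        · exact ⟨Or.inr (h3 x hx), hsa x hx⟩
    rintro v (hv | hv | hv)
    · obtain ⟨m, h1, h2, h3⟩ := hB.walk v hv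
      exact ⟨m, h1, h2, fun x hx => ⟨Or.inl (h3 x hx).1, (h3 x hx).2⟩⟩
    · obtain ⟨X, Y, rfl⟩ := List.append_of_mem hv
      refine key u hu (X ++ [v]) v (wk_mid.1 h).1 ?_ ?_
      · have := nd_mid hnd
        rw [nd_append]
        exact ⟨this.1, nd_single, fun x hx y hy => by
          rw [List.mem_singleton.1 hy]; exact this.2.2.1 x hx⟩
      · intro x hx
        left
        rcases List.mem_append.1 hx with hx | hx
        · simp [hx]
        · rw [List.mem_singleton.1 hx]; simp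
    · obtain ⟨X, Y, rfl⟩ := List.append_of_mem hv
      have h4 := wk_rev (wk_mid.1 h).2 (H.symm _ _ hy)
      rw [H.mm] at h4
      refine key w hw _ v h4 ?_ ?_
      · have := nd_mid hnd
        rw [nd_append, nd_rv]
        refine ⟨this.2.1, nd_single, fun x hx y hy => ?_⟩
        rw [List.mem_singleton.1 hy]
        rw [mem_rv] at hx
        exact sep_ml.1 (sep_mr.1 (this.2.2.2.1 _ hx))
      · intro x hx
        right
        rcases List.mem_append.1 hx with hx | hx
        · rw [mem_rv] at hx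
          simp [hx]
        · rw [List.mem_singleton.1 hx]; simp

/-- the largest blossom is closed under ears -/
theorem KK_ear {a u w y : V} {l : List V} (hu : u ∈ KK H a) (hw : w ∈ KK H a)
    (h : H.Wk u l y) (hy : H.E y w) (hnd : H.ND l) (hl : ∀ x ∈ l, H.sep x a) :
    ∀ x ∈ l, x ∈ KK H a := by
  have hK := bl_KK (H := H) a
  have ext : ∀ (u w y : V) (l : List V), u ∈ KK H a → w ∈ KK H a → H.Wk u l y → H.E y w →
      H.ND l → (∀ x ∈ l, x ∉ KK H a ∧ H.sep x a) → l = [] := by
    intro u w y l hu hw h hy hnd hl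
    rcases l with _ | ⟨x, l⟩
    · rfl
    exfalso
    have := sub_KK (bl_ext hK hu hw h hy hnd hl)
    exact (hl x (by simp)).1 (this (Or.inr (Or.inl (by simp))))
  by_contra hc
  rcases split_first (fun x => x ∉ KK H a) l with h0 | ⟨X, x, Y, rfl, hX, hx⟩
  · exact hc fun x hx => not_not.1 (h0 x hx)
  simp only [not_not] at hX
  rw [wk_append] at h
  obtain ⟨u', hu', h2⟩ := h
  have hu'K : u' ∈ KK H a := by
    rcases wk_end_mem hu' with e | e
    · rw [e]; exact hu
    · exact hX _ e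
  rw [nd_append] at hnd
  rcases split_first (fun z => z ∈ KK H a) (x :: Y) with h0 | ⟨Z, z, Y', hZ, hZ1, hz⟩
  · have := ext u' w y (x :: Y) hu'K hw h2 hy hnd.2.1
      (fun z hz => ⟨h0 z hz, hl z (List.mem_append_right _ hz)⟩)
    simp at this
  · have hZne : Z ≠ [] := by
      rintro rfl
      simp only [List.nil_append, List.cons.injEq] at hZ
      exact hx (hZ.1 ▸ hz)
    rw [hZ] at h2 hnd hl
    have hzs : H.sep z a := hl z (by simp)
    obtain ⟨z', hz', hz2⟩ := wk_append.1 h2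
    have hnd2 := nd_mid hnd.2.1
    exact hZne (ext u' (H.mate z) z' Z hu'K (hK.mate z hz hzs.1) hz' hz2.1 hnd2.1
      (fun v hv => ⟨hZ1 v hv, hl v (by simp [hv])⟩))

/-- no walk from the mate of the base enters the blossom -/
theorem no_enter (hN : H.NoCyc) {a v : V} {l : List V} (h : H.Wk (H.mate a) l v) (hnd : H.ND l)
    (hl : ∀ x ∈ l, H.sep x a) : ∀ x ∈ l, x ∉ KK H a := by
  have hK := bl_KK (H := H) a
  rcases split_first (fun x => x ∈ KK H a) l with h0 | ⟨X, x, Y, rfl, hX, hx⟩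
  · exact h0
  exfalso
  have hxs : H.sep x a := hl x (by simp)
  obtain ⟨l', h1, h2, h3⟩ := hK.walk _ (hK.mate x hx hxs.1)
  have hne : l' ≠ [] := by
    rintro rfl
    rw [wk_nil] at h1
    exact hxs.2 (by rw [h1, H.mm])
  obtain ⟨l'', rfl⟩ := wk_last h1 hne
  obtain ⟨-, z, hz, hz2⟩ := wk_snoc.1 h1
  rw [H.mm] at hz2
  have hcyc : H.Wk (H.mate a) (X ++ x :: (H.rv l'' ++ [H.mate a])) (H.mate a) :=
    wk_mid.2 ⟨(wk_mid.1 h).1, wk_rev hz (H.symm _ _ hz2)⟩
  have m := nd_mid hnd
  have n := nd_mid h2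
  have hll : ∀ z ∈ H.rv l'', z ∈ KK H a ∧ H.sep z a := by
    intro z hz
    rw [mem_rv] at hz
    have := h3 _ (List.mem_append_left _ hz)
    have hs := sep_ml.1 this.2
    exact ⟨(hK.mate_mem hs).1 this.1, hs⟩
  have hnd2 : H.ND (X ++ x :: (H.rv l'' ++ [H.mate a])) := by
    rw [nd_append, nd_cons, nd_append, nd_rv]
    refine ⟨m.1, ⟨?_, n.1, nd_single, ?_⟩, ?_⟩
    · intro y hy
      rcases List.mem_append.1 hy with hy | hy
      · rw [mem_rv] at hy
        exact sep_comm.1 (sep_ml.1 (sep_mr.1 (n.2.2.1 _ hy)))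
      · rw [List.mem_singleton.1 hy, sep_mr]
        exact hxs
    · intro y hy z hz
      rw [List.mem_singleton.1 hz, sep_mr]
      exact (hll y hy).2
    · intro y hy z hz
      rcases List.mem_cons.1 hz with rfl | hz
      · exact m.2.2.1 y hy
      rcases List.mem_append.1 hz with hz | hz
      · exact hK.sep_out (hX y hy) (hl y (by simp [hy])) (hll z hz).1
      · rw [List.mem_singleton.1 hz, sep_mr]
        exact hl y (by simp [hy])
  have := hN _ _ hcyc hnd2
  simp at this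

theorem no_enter' (hN : H.NoCyc) {a y w : V} {l : List V} (h : H.Wk (H.mate a) l y) (hnd : H.ND l)
    (hl : ∀ x ∈ l, H.sep x a) (hw : w ∈ KK H a) : ¬ H.E y w := by
  intro hy
  have hK := bl_KK (H := H) a
  have h0 := no_enter hN h hnd hl
  by_cases hwa : w = a
  · subst hwa
    have hcyc : H.Wk (H.mate w) (l ++ [H.mate w]) (H.mate w) := by
      rw [wk_snoc]
      exact ⟨rfl, y, h, by rwa [H.mm]⟩
    have := hN _ _ hcyc (by
      rw [nd_append]
      exact ⟨hnd, nd_single, fun x hx z hz => by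
        rw [List.mem_singleton.1 hz, sep_mr]; exact hl x hx⟩)
    simp at this
  · have hw' : H.mate w ∈ KK H a := hK.mate w hw hwa
    have h1 : H.Wk (H.mate a) (l ++ [H.mate w]) (H.mate w) := by
      rw [wk_snoc]
      exact ⟨rfl, y, h, by rwa [H.mm]⟩
    have hs : H.sep (H.mate w) a := by
      refine ⟨fun e => ?_, fun e => hwa (mate_inj e)⟩
      have : w = H.mate a := by rw [← e, H.mm]
      exact hK.nmate (this ▸ hw)
    refine no_enter hN h1 ?_ ?_ (H.mate w) (by simp) hw'
    · rw [nd_append]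
      exact ⟨hnd, nd_single, fun x hx z hz => by
        rw [List.mem_singleton.1 hz]
        exact hK.sep_out (h0 x hx) (hl x hx) hw'⟩
    · intro x hx
      rcases List.mem_append.1 hx with hx | hx
      · exact hl x hx
      · rw [List.mem_singleton.1 hx]; exact hs

/-- transitivity -/
theorem KK_trans (hN : H.NoCyc) {a b : V} (hb : b ∈ KK H a) (hne : b ≠ a) : KK H b ⊆ KK H a := by
  have hKa := bl_KK (H := H) a
  have hKb := bl_KK (H := H) b
  set B := Kin H b (KK H a) with hBdef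
  have hB : Bl H b B := bl_kin hb
  have hBs : B ⊆ KK H a := kin_sub
  intro v hv
  by_contra hva
  obtain ⟨l, h1, h2, h3⟩ := hKb.walk v hv
  have hvB : v ∉ B := fun h => hva (hBs h)
  -- the first state outside `B`
  rcases split_first (fun x => x ∉ B) l with h0 | ⟨X, x, Y, rfl, hX, hx⟩
  · rcases wk_end_mem h1 with e | e
    · exact hvB (e ▸ hB.base)
    · exact hvB (not_not.1 (h0 _ e))
  simp only [not_not] at hX
  obtain ⟨u, hu, hu2⟩ := wk_append.1 h1
  have huE : H.E u (H.mate x) := hu2.1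
  have huB : u ∈ B := by
    rcases wk_end_mem hu with e | e
    · rw [e]; exact hB.base
    · exact hX _ e
  have hxK : x ∈ KK H b := (h3 x (by simp)).1
  have hxs : H.sep x b := (h3 x (by simp)).2
  obtain ⟨l₂, k1, k2, k3⟩ := hKb.walk _ (hKb.mate x hxK hxs.1)
  have hmx : H.mate x ∉ B := fun h => hx ((hB.mate_mem hxs).1 h)
  have hne2 : l₂ ≠ [] := by
    rintro rfl
    rw [wk_nil] at k1
    exact hxs.2 (by rw [k1, H.mm])
  -- the last part, outside `B`
  obtain ⟨u₂, O, hu₂, hO, hOB, hOm⟩ : ∃ u₂ O, u₂ ∈ B ∧ H.Wk u₂ O (H.mate x) ∧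
      (∀ z ∈ O, z ∉ B) ∧ ∃ P, l₂ = P ++ O := by
    rcases split_last (fun z => z ∈ B) l₂ with h0 | ⟨P, q, R, hl₂, hR, hq⟩
    · exact ⟨b, l₂, hB.base, k1, h0, [], rfl⟩
    · rw [hl₂] at k1
      exact ⟨q, R, hq, (wk_mid.1 k1).2, hR, P ++ [q], by rw [hl₂]; simp⟩
  obtain ⟨P, hP⟩ := hOm
  have hOne : O ≠ [] := by
    rintro rfl
    rw [wk_nil] at hO
    exact hmx (hO ▸ hu₂)
  have hOnd : H.ND O := by
    rw [hP, nd_append] at k2
    exact k2.2.1
  have hOs : ∀ z ∈ O, z ∈ KK H b ∧ H.sep z b := fun z hz => k3 z (by rw [hP]; simp [hz])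
  have hmxO : H.mate x ∈ O := by
    obtain ⟨O', rfl⟩ := wk_last hO hOne
    simp
  have hext := bl_ext hB hu₂ huB hO (H.symm _ _ huE) hOnd (fun z hz => ⟨hOB z hz, (hOs z hz).2⟩)
  -- the ear avoids the base `a`
  have hOa : ∀ z ∈ O, H.sep z a := by
    intro y hy
    by_contra hc
    obtain ⟨O₁, O₂, rfl⟩ := List.append_of_mem hy
    have m := nd_mid hOnd
    rcases not_sep.1 hc with e | e
    · -- reversed
      obtain ⟨w, hw, hw2⟩ := wk_rev' (wk_mid.1 hO).1
      rw [e] at hw
      refine no_enter' hN hw (nd_rv.2 m.1) ?_ (hBs hu₂) (H.symm _ _ hw2)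
      intro z hz
      rw [mem_rv] at hz
      have := m.2.2.1 _ hz
      rw [e] at this
      exact sep_ml.1 this
    · have hw := (wk_mid.1 hO).2
      rw [e] at hw
      refine no_enter' hN hw m.2.1 ?_ (hBs huB) (H.symm _ _ huE)
      intro z hz
      have := m.2.2.2.1 z hz
      rw [e, sep_mr] at this
      exact this
  have hOK := KK_ear (hBs hu₂) (hBs huB) hO (H.symm _ _ huE) hOnd hOa
  have hsub : B ∪ {x | x ∈ O ∨ H.mate x ∈ O} ⊆ KK H a := by
    rintro z (hz | hz | hz)
    · exact hBs hz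
    · exact hOK z hz
    · exact (hKa.mate_mem (sep_ml.1 (hOa _ hz))).1 (hOK _ hz)
  exact hmx (sub_kin hext hsub (Or.inr (Or.inl hmxO)))

end Pool.Agent.PMNC.U
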