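import Mathlib
import Pool.Agent.Lib.MP_0087d5_lc.UBl

set_option autoImplicit false
set_option linter.all false

/-!
# Bottlenecks

If both ends of a matching edge `c` have simple walks to the vertex `a` and `c` does not lie in the
blossom of `a`, then one matching edge meets all these walks.
-/

namespace Pool.Agent.PMNC.U

variable {V : Type*} {H : AG V}

/-- `l` is a simple walk from `c'` to a neighbour of `t` that avoids the matching edges `c`, `a` -/
structure Cn (H : AG V) (c a c' : V) (l : List V) (y t : V) : Prop where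
  wk : H.Wk c' l y
  e : H.E y t
  nd : H.ND l
  sc : ∀ x ∈ l, H.sep x c
  sa : ∀ x ∈ l, H.sep x a

/-- bases of blossoms through `c` that are reached from `a` -/
def Cand (H : AG V) (c a b : V) : Prop :=
  H.sep b a ∧ H.sep b c ∧ c ∈ KK H b ∧ ∃ q, H.Wk a q b ∧ H.ND q ∧ ∀ x ∈ q, H.sep x a

theorem cand_exists (hN : H.NoCyc) {a c y₁ y₂ : V} {l₁ l₂ : List V} (hca : H.sep c a)
    (hcK : c ∉ KK H a) (h₁ : Cn H c a c l₁ y₁ a) (h₂ : Cn H c a (H.mate c) l₂ y₂ a) :
    ∃ b, Cand H c a b := by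
  have hKa := bl_KK (H := H) a
  by_cases hd : ∀ x ∈ l₁, ∀ y ∈ l₂, H.sep x y
  · exfalso
    have h3 := wk_rev h₂.wk (H.symm _ _ h₂.e)
    rw [H.mm] at h3
    have h4 : H.Wk a (H.rv l₂ ++ c :: l₁) y₁ := wk_mid.2 ⟨h3, h₁.wk⟩
    have h5 := KK_ear hKa.base hKa.base h4 h₁.e (by
      rw [nd_append, nd_cons, nd_rv]
      refine ⟨h₂.nd, ⟨fun x hx => sep_comm.1 (h₁.sc x hx), h₁.nd⟩, ?_⟩
      intro x hx y hy
      rw [mem_rv] at hx
      rcases List.mem_cons.1 hy with rfl | hy
      · exact sep_ml.1 (h₂.sc _ hx)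
      · exact sep_ml.1 (sep_comm.1 (hd y hy _ hx))) (by
      intro x hx
      rcases List.mem_append.1 hx with hx | hx
      · rw [mem_rv] at hx
        exact sep_ml.1 (h₂.sa _ hx)
      · rcases List.mem_cons.1 hx with rfl | hx
        · exact hca
        · exact h₁.sa x hx)
    exact hcK (h5 c (by simp))
  · obtain ⟨z, X₁, Y₁, X₂, Y₂, rfl, rfl, hdis, w, hw, hw2, hnd, hs⟩ :=
      meet hN h₁.wk h₂.wk h₁.nd h₂.nd h₁.sc h₂.sc hd
    have hKb := bl_KK (H := H) (H.mate z)
    refine ⟨H.mate z, sep_ml.2 (h₁.sa z (by simp)), sep_ml.2 (h₁.sc z (by simp)), ?_, ?_⟩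
    · exact KK_ear hKb.base hKb.base hw hw2 hnd hs c (by simp)
    · have m := nd_mid h₁.nd
      refine ⟨_, wk_rev (wk_mid.1 h₁.wk).2 (H.symm _ _ h₁.e), ?_, ?_⟩
      · rw [nd_append, nd_rv]
        refine ⟨m.2.1, nd_single, fun x hx y hy => ?_⟩
        rw [List.mem_singleton.1 hy, sep_mr]
        rw [mem_rv] at hx
        exact sep_ml.1 (m.2.2.2.1 _ hx)
      · intro x hx
        rcases List.mem_append.1 hx with hx | hx
        · rw [mem_rv] at hx
          exact sep_ml.1 (h₁.sa _ (by simp [hx]))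
        · rw [List.mem_singleton.1 hx]
          exact sep_ml.2 (h₁.sa z (by simp))

/-- the bottleneck -/
theorem bottleneck [Finite V] (hN : H.NoCyc) {a c y₁ y₂ : V} {l₁ l₂ : List V} (hca : H.sep c a)
    (hcK : c ∉ KK H a) (h₁ : Cn H c a c l₁ y₁ a) (h₂ : Cn H c a (H.mate c) l₂ y₂ a) :
    ∃ b, H.sep b a ∧ H.sep b c ∧ c ∈ KK H b ∧ ∀ c' l y, (c' = c ∨ c' = H.mate c) →
      Cn H c a c' l y a → ¬ ∀ x ∈ l, H.sep x b := by
  have hKa := bl_KK (H := H) a
  obtain ⟨b, hb, hmax⟩ : ∃ b, Cand H c a b ∧ ∀ b', Cand H c a b' →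
      (KK H b').ncard ≤ (KK H b).ncard := by
    obtain ⟨b, hb, hm⟩ := Set.exists_max_image {b | Cand H c a b} (fun b => (KK H b).ncard)
      (Set.toFinite _) (cand_exists hN hca hcK h₁ h₂)
    exact ⟨b, hb, fun b' hb' => hm b' hb'⟩
  obtain ⟨hba, hbc, hcb, q, hq1, hq2, hq3⟩ := hb
  refine ⟨b, hba, hbc, hcb, ?_⟩
  intro c' l y hc' hl hlb
  have hKb := bl_KK (H := H) b
  have hqne : q ≠ [] := by
    rintro rfl
    rw [wk_nil] at hq1
    exact hba.1 hq1.symm
  obtain ⟨q₀, rfl⟩ := wk_last hq1 hqne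
  have nq := nd_mid hq2
  -- the walk from `a` to `b` avoids the blossom of `b`
  obtain ⟨w₀, hw₀, hw₀2⟩ := wk_rev' hq1
  have hrq : ∀ x ∈ H.rv q₀, H.sep x b := by
    intro x hx
    rw [mem_rv] at hx
    exact sep_ml.1 (nq.2.2.1 _ hx)
  have hrK := no_enter hN hw₀ (nd_rv.2 nq.1) hrq
  have hq₀K : ∀ x ∈ q₀, x ∉ KK H b := by
    intro x hx hc
    have : H.mate x ∈ H.rv q₀ := by rw [mem_rv, H.mm]; exact hx
    exact hrK _ this (hKb.mate x hc (nq.2.2.1 x hx).1)
  have haK : a ∉ KK H b := fun h => no_enter' hN hw₀ (nd_rv.2 nq.1) hrq h (H.symm _ _ hw₀2)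
  -- the other walk, seen from `a`
  have hc'K : H.mate c' ∈ KK H b ∧ H.sep (H.mate c') b ∧ H.sep (H.mate c') a := by
    have h1 := (hKb.mate_mem (sep_comm.1 hbc)).2 hcb
    rcases hc' with rfl | rfl
    · exact ⟨h1, sep_ml.2 (sep_comm.1 hbc), sep_ml.2 hca⟩
    · rw [H.mm]
      exact ⟨hcb, sep_comm.1 hbc, hca⟩
  have hm1 := wk_rev hl.wk (H.symm _ _ hl.e)
  have hmnd : H.ND (H.rv l ++ [H.mate c']) := by
    rw [nd_append, nd_rv]
    refine ⟨hl.nd, nd_single, fun x hx z hz => ?_⟩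
    rw [List.mem_singleton.1 hz, sep_mr]
    rw [mem_rv] at hx
    have := sep_ml.1 (hl.sc _ hx)
    rcases hc' with rfl | rfl
    · exact this
    · rw [sep_mr]; exact this
  have hmb : ∀ x ∈ H.rv l ++ [H.mate c'], H.sep x b ∧ H.sep x a := by
    intro x hx
    rcases List.mem_append.1 hx with hx | hx
    · rw [mem_rv] at hx
      exact ⟨sep_ml.1 (hlb _ hx), sep_ml.1 (hl.sa _ hx)⟩
    · rw [List.mem_singleton.1 hx]
      exact hc'K.2
  rcases split_first (fun x => x ∈ KK H b) (H.rv l ++ [H.mate c']) with h0 | ⟨X, t, Y, hX1, hX2, ht⟩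
  · exact h0 _ (by simp) hc'K.1
  rw [hX1] at hm1 hmnd hmb
  have nX := nd_mid hmnd
  have hts := (hmb t (by simp)).1
  obtain ⟨l₃, k1, k2, k3⟩ := hKb.walk _ (hKb.mate t ht hts.1)
  obtain ⟨w, hw, hw2⟩ := wk_rev' (wk_mid.1 hm1).1
  have hXs : ∀ x ∈ H.rv X, x ∉ KK H b ∧ H.sep x b ∧ H.sep x a := by
    intro x hx
    rw [mem_rv] at hx
    have h1 := hmb (H.mate x) (by simp [hx])
    refine ⟨fun hc => hX2 _ hx ((hKb.mate_mem (sep_ml.1 h1.1)).2 hc), sep_ml.1 h1.1,
      sep_ml.1 h1.2⟩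
  rcases split_first (fun x => ∃ z ∈ q₀, ¬ H.sep x z) (H.rv X) with h0 | ⟨R₁, v, R₂, hR, hR1, z, hz, hvz⟩
  · -- an ear at `a` through `b`
    push Not at h0
    have hear : H.Wk a (q₀ ++ b :: (l₃ ++ H.rv X)) w :=
      wk_mid.2 ⟨hq1, wk_append.2 ⟨_, k1, hw⟩⟩
    have hb' := KK_ear hKa.base hKa.base hear (H.symm _ _ hw2) (by
      rw [nd_append, nd_cons, nd_append]
      refine ⟨nq.1, ⟨?_, k2, nd_rv.2 nX.1, ?_⟩, ?_⟩
      · intro x hx
        rcases List.mem_append.1 hx with hx | hx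
        · exact sep_comm.1 (k3 x hx).2
        · exact sep_comm.1 (hXs x hx).2.1
      · intro x hx y hy
        exact sep_comm.1 (hKb.sep_out (hXs y hy).1 (hXs y hy).2.1 (k3 x hx).1)
      · intro x hx y hy
        rcases List.mem_cons.1 hy with rfl | hy
        · exact nq.2.2.1 x hx
        rcases List.mem_append.1 hy with hy | hy
        · exact hKb.sep_out (hq₀K x hx) (nq.2.2.1 x hx) (k3 y hy).1
        · exact sep_comm.1 (h0 y hy x hx)) (by
      intro x hx
      rcases List.mem_append.1 hx with hx | hx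
      · exact hq3 x (by simp [hx])
      rcases List.mem_cons.1 hx with rfl | hx
      · exact hba
      rcases List.mem_append.1 hx with hx | hx
      · have : H.sep a x := hKb.sep_out haK (sep_comm.1 hba) (k3 x hx).1
        exact sep_comm.1 this
      · exact (hXs x hx).2.2) b (by simp)
    exact hcK (KK_trans hN hb' hba.1 hcb)
  · obtain ⟨Q₁, Q₂, rfl⟩ := List.append_of_mem hz
    push Not at hR1
    have mQ := nd_mid nq.1
    rw [hR] at hw hXs
    have nR : H.ND (R₁ ++ v :: R₂) := by rw [← hR, nd_rv]; exact nX.1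
    have mR := nd_mid nR
    have hwv := (wk_mid.1 hw).1
    have hzb : H.Wk z (Q₂ ++ [b]) b := by
      rw [List.append_assoc, List.cons_append] at hq1
      exact (wk_mid.1 hq1).2
    have haz : H.Wk a (Q₁ ++ [z]) z := by
      rw [List.append_assoc, List.cons_append] at hq1
      exact (wk_mid.1 hq1).1
    have hzbs : H.sep z b := nq.2.2.1 z (by simp)
    rcases not_sep.1 hvz with e | e
    · -- an alternating cycle
      subst e
      have hcyc : H.Wk b (l₃ ++ (R₁ ++ v :: (Q₂ ++ [b]))) b :=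
        wk_append.2 ⟨_, k1, wk_mid.2 ⟨hwv, hzb⟩⟩
      have := hN _ _ hcyc (by
        rw [nd_append, nd_append, nd_cons, nd_append]
        refine ⟨k2, ⟨mR.1, ⟨?_, mQ.2.1, nd_single, ?_⟩, ?_⟩, ?_⟩
        · intro x hx
          rcases List.mem_append.1 hx with hx | hx
          · exact sep_comm.1 (mQ.2.2.2.1 x hx)
          · rw [List.mem_singleton.1 hx]
            exact hzbs
        · intro x hx y hy
          rw [List.mem_singleton.1 hy]
          exact nq.2.2.1 x (by simp [hx])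
        · intro x hx y hy
          rcases List.mem_cons.1 hy with rfl | hy
          · exact mR.2.2.1 x hx
          rcases List.mem_append.1 hy with hy | hy
          · exact hR1 x hx y (by simp [hy])
          · rw [List.mem_singleton.1 hy]
            exact (hXs x (by simp [hx])).2.1
        · intro x hx y hy
          rcases List.mem_append.1 hy with hy | hy
          · have := hXs y (by simp [hy])
            exact sep_comm.1 (hKb.sep_out this.1 this.2.1 (k3 x hx).1)
          rcases List.mem_cons.1 hy with rfl | hy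
          · exact sep_comm.1 (hKb.sep_out (hq₀K _ (by simp)) hzbs (k3 x hx).1)
          rcases List.mem_append.1 hy with hy | hy
          · exact sep_comm.1 (hKb.sep_out (hq₀K y (by simp [hy])) (nq.2.2.1 y (by simp [hy]))
              (k3 x hx).1)
          · rw [List.mem_singleton.1 hy]
            exact (k3 x hx).2)
      simp at this
    · -- a larger blossom
      rw [e] at hwv
      obtain ⟨-, r, hr, hr2⟩ := wk_snoc.1 hwv
      rw [H.mm] at hr2
      have hKz := bl_KK (H := H) z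
      have hear : H.Wk z (Q₂ ++ b :: (l₃ ++ R₁)) r := by
        refine wk_mid.2 ⟨hzb, wk_append.2 ⟨_, k1, hr⟩⟩
      have hbz := KK_ear hKz.base hKz.base hear hr2 (by
        rw [nd_append, nd_cons, nd_append]
        refine ⟨mQ.2.1, ⟨?_, k2, mR.1, ?_⟩, ?_⟩
        · intro x hx
          rcases List.mem_append.1 hx with hx | hx
          · exact sep_comm.1 (k3 x hx).2
          · exact sep_comm.1 (hXs x (by simp [hx])).2.1
        · intro x hx y hy
          have := hXs y (by simp [hy])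
          exact sep_comm.1 (hKb.sep_out this.1 this.2.1 (k3 x hx).1)
        · intro x hx y hy
          rcases List.mem_cons.1 hy with rfl | hy
          · exact nq.2.2.1 x (by simp [hx])
          rcases List.mem_append.1 hy with hy | hy
          · exact hKb.sep_out (hq₀K x (by simp [hx])) (nq.2.2.1 x (by simp [hx])) (k3 y hy).1
          · exact sep_comm.1 (hR1 y hy x (by simp [hx]))) (by
        intro x hx
        rcases List.mem_append.1 hx with hx | hx
        · exact mQ.2.2.2.1 x hx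
        rcases List.mem_cons.1 hx with rfl | hx
        · exact sep_comm.1 hzbs
        rcases List.mem_append.1 hx with hx | hx
        · exact sep_comm.1 (hKb.sep_out (hq₀K z (by simp)) hzbs (k3 x hx).1)
        · exact hR1 x hx z (by simp)) b (by simp)
      have hbzne : b ≠ z := hzbs.1.symm
      have hsub := KK_trans hN hbz hbzne
      have hzc : H.sep z c := hKb.sep_out (hq₀K z (by simp)) hzbs hcb
      have hcand : Cand H c a z := by
        refine ⟨hq3 z (by simp), hzc, hsub hcb, Q₁ ++ [z], haz, ?_, ?_⟩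
        · rw [nd_append]
          exact ⟨mQ.1, nd_single, fun x hx y hy => by
            rw [List.mem_singleton.1 hy]; exact mQ.2.2.1 x hx⟩
        · intro x hx
          rcases List.mem_append.1 hx with hx | hx
          · exact hq3 x (by simp [hx])
          · rw [List.mem_singleton.1 hx]; exact hq3 z (by simp)
      have h1 := hmax z hcand
      have h2 : KK H b ⊂ KK H z := by
        refine ⟨hsub, fun h => ?_⟩
        exact hKb.nmate (h (hKz.mate b hbz hbzne))
      have h3 := Set.ncard_lt_ncard h2 (Set.toFinite _)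
      omega

/-- walks to the blossom of `a` can be continued to `a` -/
theorem extend {a c c' y t : V} {l : List V} (hcK : c ∉ KK H a) (hca : H.sep c a)
    (h : Cn H c a c' l y t) (ht : t ∈ KK H a) :
    ∃ m z, Cn H c a c' m z a ∧ ∀ x ∈ m, x ∈ l ∨ (x ∈ KK H a ∧ H.sep x a) := by
  have hK := bl_KK (H := H) a
  -- the part up to the first vertex of the blossom
  obtain ⟨X, x', y', t', hX1, hX2, hX3, hX4, ht'⟩ : ∃ (X : List V) (x' y' t' : V),
      H.Wk c' X y' ∧ H.E y' t' ∧ H.ND X ∧ (∀ x ∈ X, x ∈ l ∧ x ∉ KK H a) ∧ t' ∈ KK H a := by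
    rcases split_first (fun x => x ∈ KK H a) l with h0 | ⟨X, x, Y, rfl, hX, hx⟩
    · exact ⟨l, a, y, t, h.wk, h.e, h.nd, fun x hx => ⟨hx, h0 x hx⟩, ht⟩
    · have hxs : H.sep x a := h.sa x (by simp)
      obtain ⟨-, y', h1, h2⟩ := wk_snoc.1 (wk_mid.1 h.wk).1
      exact ⟨X, a, y', H.mate x, h1, h2, (nd_mid h.nd).1, fun z hz => ⟨by simp [hz], hX z hz⟩,
        hK.mate x hx hxs.1⟩
  by_cases hta : t' = a
  · subst hta
    exact ⟨X, y', ⟨hX1, hX2, hX3, fun x hx => h.sc x (hX4 x hx).1, fun x hx => h.sa x (hX4 x hx).1⟩,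
      fun x hx => Or.inl (hX4 x hx).1⟩
  · obtain ⟨l₃, k1, k2, k3⟩ := hK.walk t' ht'
    have hne : l₃ ≠ [] := by
      rintro rfl
      rw [wk_nil] at k1
      exact hta k1.symm
    obtain ⟨l₄, rfl⟩ := wk_last k1 hne
    obtain ⟨w, hw, hw2⟩ := wk_rev' k1
    have n4 := nd_mid k2
    have hin : ∀ x ∈ H.mate t' :: H.rv l₄, x ∈ KK H a ∧ H.sep x a := by
      intro x hx
      rcases List.mem_cons.1 hx with rfl | hx
      · exact ⟨hK.mate t' ht' hta, sep_ml.2 (k3 t' (by simp)).2⟩
      · rw [mem_rv] at hx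
        have := k3 _ (List.mem_append_left _ hx)
        have hs := sep_ml.1 this.2
        exact ⟨(hK.mate_mem hs).1 this.1, hs⟩
    refine ⟨X ++ H.mate t' :: H.rv l₄, w, ⟨?_, H.symm _ _ hw2, ?_, ?_, ?_⟩, ?_⟩
    · refine wk_mid.2 ⟨?_, hw⟩
      rw [wk_snoc]
      exact ⟨rfl, y', hX1, by rwa [H.mm]⟩
    · rw [nd_append, nd_cons, nd_rv]
      refine ⟨hX3, ⟨?_, n4.1⟩, ?_⟩
      · intro x hx
        rw [mem_rv] at hx
        rw [sep_ml]
        exact sep_comm.1 (sep_ml.1 (n4.2.2.1 _ hx))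
      · intro x hx z hz
        exact hK.sep_out (hX4 x hx).2 (h.sa x (hX4 x hx).1) (hin z hz).1
    · intro x hx
      rcases List.mem_append.1 hx with hx | hx
      · exact h.sc x (hX4 x hx).1
      · exact sep_comm.1 (hK.sep_out hcK hca (hin x hx).1)
    · intro x hx
      rcases List.mem_append.1 hx with hx | hx
      · exact h.sa x (hX4 x hx).1
      · exact (hin x hx).2
    · intro x hx
      rcases List.mem_append.1 hx with hx | hx
      · exact Or.inl (hX4 x hx).1
      · exact Or.inr (hin x hx)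

/-- the bottleneck for walks to the blossom of `a` -/
theorem bottleneck' [Finite V] (hN : H.NoCyc) {a c y₁ y₂ t₁ t₂ : V} {l₁ l₂ : List V}
    (hca : H.sep c a) (hcK : c ∉ KK H a) (h₁ : Cn H c a c l₁ y₁ t₁)
    (h₂ : Cn H c a (H.mate c) l₂ y₂ t₂) (ht₁ : t₁ ∈ KK H a) (ht₂ : t₂ ∈ KK H a) :
    ∃ b, H.sep b a ∧ H.sep b c ∧ ∀ c' l y t, (c' = c ∨ c' = H.mate c) → t ∈ KK H a →
      Cn H c a c' l y t → ¬ ∀ x ∈ l, H.sep x b := by
  have hKa := bl_KK (H := H) a
  obtain ⟨m₁, z₁, g₁, -⟩ := extend hcK hca h₁ ht₁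
  obtain ⟨m₂, z₂, g₂, -⟩ := extend hcK hca h₂ ht₂
  obtain ⟨b, hba, hbc, hcb, hb⟩ := bottleneck hN hca hcK g₁ g₂
  refine ⟨b, hba, hbc, ?_⟩
  intro c' l y t hc' ht hl hlb
  obtain ⟨m, z, g, hm⟩ := extend hcK hca hl ht
  apply hb c' m z hc' g
  intro x hx
  rcases hm x hx with h | ⟨h1, h2⟩
  · exact hlb x h
  · by_contra hc
    have hbK : b ∈ KK H a := by
      rcases not_sep.1 hc with e | e
      · exact e ▸ h1
      · rw [e] at h1
        exact (hKa.mate_mem hba).1 h1
    exact hcK (KK_trans hN hbK hba.1 hcb)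

end Pool.Agent.PMNC.U
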