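import Mathlib
import Pool.Agent.Lib.MP_0087d5_lc.UBn

set_option autoImplicit false
set_option linter.all false

/-!
# Derivation of simple alternating walks

A simple walk below `s` is a reversed walk from the mate of its top state `c`, the state `c`, and a
walk from `c`.  If the order is good for ears with at most `L` states, then this recursion derives
exactly the simple walks with at most `L` states.
-/

namespace Pool.Agent.PMNC.U

variable {V : Type*} {H : AG V}

/-- a linear order of the matching edges -/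
structure Ord (H : AG V) (lt : V → V → Prop) : Prop where
  irr : ∀ x, ¬ lt x x
  trans : ∀ x y z, lt x y → lt y z → lt x z
  ml : ∀ x y, lt (H.mate x) y ↔ lt x y
  mr : ∀ x y, lt x (H.mate y) ↔ lt x y
  tot : ∀ x y, H.sep x y → lt x y ∨ lt y x

/-- the states of an ear with at most `L` states lie below its base -/
def Good (H : AG V) (L : ℕ) (lt : V → V → Prop) : Prop :=
  ∀ a l y, H.Wk a l y → H.E y a → H.ND l → (∀ x ∈ l, H.sep x a) → l.length ≤ L → ∀ x ∈ l, lt x a

/-- derivable walks -/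
inductive Der (H : AG V) (A : V → Prop) (lt : V → V → Prop) : V → V → ℕ → Prop
  | base (c : V) : Der H A lt c c 0
  | step (s c t w : V) (i j : ℕ) : A c → lt c s → Der H A lt (H.mate c) w i → H.E s w →
      Der H A lt c t j → Der H A lt s t (i + 1 + j)

/-- the top of a nonempty list -/
theorem exists_top {lt : V → V → Prop} (ho : Ord H lt) {l : List V} (hnd : H.ND l) (hl : l ≠ []) :
    ∃ X c Y, l = X ++ c :: Y ∧ (∀ x ∈ X, lt x c) ∧ ∀ x ∈ Y, lt x c := by
  induction l with
  | nil => exact absurd rfl hl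
  | cons a l ih =>
    by_cases hl' : l = []
    · subst hl'
      exact ⟨[], a, [], rfl, by simp, by simp⟩
    · rw [nd_cons] at hnd
      obtain ⟨X, c, Y, rfl, h1, h2⟩ := ih hnd.2 hl'
      rcases ho.tot a c (hnd.1 c (by simp)) with h | h
      · refine ⟨a :: X, c, Y, rfl, ?_, h2⟩
        intro x hx
        rcases List.mem_cons.1 hx with rfl | hx
        · exact h
        · exact h1 x hx
      · refine ⟨[], a, X ++ c :: Y, rfl, by simp, ?_⟩
        intro x hx
        rcases List.mem_append.1 hx with hx | hx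
        · exact ho.trans _ _ _ (h1 x hx) h
        rcases List.mem_cons.1 hx with rfl | hx
        · exact h
        · exact ho.trans _ _ _ (h2 x hx) h

/-- the composition of two walks at the top state -/
theorem join (hN : H.NoCyc) {lt : V → V → Prop} (ho : Ord H lt) {L : ℕ} (hg : Good H L lt)
    {s c t w : V} {l₁ l₂ : List V} (h₁ : H.Wk (H.mate c) l₁ w) (h₂ : H.Wk c l₂ t)
    (n₁ : H.ND l₁) (n₂ : H.ND l₂) (b₁ : ∀ x ∈ l₁, lt x c) (b₂ : ∀ x ∈ l₂, lt x c)
    (hs : H.E s w) (hL : l₁.length + 1 + l₂.length ≤ L) :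
    H.Wk s (H.rv l₁ ++ c :: l₂) t ∧ H.ND (H.rv l₁ ++ c :: l₂) := by
  have s₁ : ∀ x ∈ l₁, H.sep x c := by
    intro x hx
    by_contra hc
    rcases not_sep.1 hc with e | e
    · exact ho.irr c (e ▸ b₁ x hx)
    · have := b₁ x hx
      rw [e, ho.ml] at this
      exact ho.irr c this
  have s₂ : ∀ x ∈ l₂, H.sep x c := by
    intro x hx
    by_contra hc
    rcases not_sep.1 hc with e | e
    · exact ho.irr c (e ▸ b₂ x hx)
    · have := b₂ x hx
      rw [e, ho.ml] at this
      exact ho.irr c this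
  have hd : ∀ x ∈ l₂, ∀ y ∈ l₁, H.sep x y := by
    by_contra hd
    obtain ⟨z, X₁, Y₁, X₂, Y₂, rfl, rfl, hdis, w', hw, hw2, hnd, hss⟩ :=
      meet hN h₂ h₁ n₂ n₁ s₂ s₁ hd
    have := hg (H.mate z) _ w' hw hw2 hnd hss (by
      simp only [List.length_append, List.length_cons, rv_length] at hL ⊢
      omega) c (by simp)
    rw [ho.mr] at this
    exact ho.irr c (ho.trans _ _ _ this (b₁ z (by simp)))
  constructor
  · refine wk_mid.2 ⟨?_, h₂⟩
    have := wk_rev h₁ hs
    rwa [H.mm] at this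
  · rw [nd_append, nd_cons, nd_rv]
    refine ⟨n₁, ⟨fun y hy => sep_comm.1 (s₂ y hy), n₂⟩, ?_⟩
    intro x hx y hy
    rw [mem_rv] at hx
    rcases List.mem_cons.1 hy with rfl | hy
    · exact sep_ml.1 (s₁ _ hx)
    · exact sep_ml.1 (sep_comm.1 (hd y hy _ hx))

theorem der_sound (hN : H.NoCyc) {lt : V → V → Prop} (ho : Ord H lt) {L : ℕ} (hg : Good H L lt)
    {A : V → Prop} (hA : ∀ x, A x → A (H.mate x)) {s t : V} {k : ℕ} (h : Der H A lt s t k)
    (hk : k ≤ L) : ∃ l, l.length = k ∧ H.Wk s l t ∧ H.ND l ∧ ∀ x ∈ l, A x ∧ lt x s := by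
  induction h with
  | base c => exact ⟨[], rfl, rfl, nd_nil, by simp⟩
  | step s c t w i j hc hcs _ hsw _ ih1 ih2 =>
    obtain ⟨l₁, rfl, a2, a3, a4⟩ := ih1 (by omega)
    obtain ⟨l₂, rfl, b2, b3, b4⟩ := ih2 (by omega)
    obtain ⟨g1, g2⟩ := join hN ho hg a2 b2 a3 b3 (fun x hx => (ho.mr _ _).1 (a4 x hx).2)
      (fun x hx => (b4 x hx).2) hsw hk
    refine ⟨_, ?_, g1, g2, ?_⟩
    · simp only [List.length_append, List.length_cons, rv_length]
      omega
    · intro x hx
      rcases List.mem_append.1 hx with hx | hx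
      · rw [mem_rv] at hx
        have := a4 _ hx
        refine ⟨by have h5 := hA _ this.1; rwa [H.mm] at h5, ?_⟩
        have h5 := this.2
        rw [ho.ml, ho.mr] at h5
        exact ho.trans _ _ _ h5 hcs
      rcases List.mem_cons.1 hx with rfl | hx
      · exact ⟨hc, hcs⟩
      · exact ⟨(b4 x hx).1, ho.trans _ _ _ (b4 x hx).2 hcs⟩

theorem der_complete {lt : V → V → Prop} (ho : Ord H lt) {A : V → Prop}
    (hA : ∀ x, A x → A (H.mate x)) (k : ℕ) : ∀ {s t : V} {l : List V}, l.length = k → H.Wk s l t →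
    H.ND l → (∀ x ∈ l, A x ∧ lt x s) → Der H A lt s t k := by
  induction k using Nat.strong_induction_on with
  | _ k ih =>
    intro s t l hk h hnd hl
    by_cases hne : l = []
    · subst hne
      rw [wk_nil] at h
      subst h
      subst hk
      exact Der.base s
    · obtain ⟨X, c, Y, rfl, h1, h2⟩ := exists_top ho hnd hne
      have hc := hl c (by simp)
      obtain ⟨w, hw, hw2⟩ := wk_rev' (wk_mid.1 h).1
      have m := nd_mid hnd
      have e : k = X.length + 1 + Y.length := by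
        rw [← hk]
        simp only [List.length_append, List.length_cons]
        omega
      rw [e]
      refine Der.step s c t w X.length Y.length hc.1 hc.2 ?_ hw2 ?_
      · refine ih _ (by omega) rv_length hw (nd_rv.2 m.1) ?_
        intro x hx
        rw [mem_rv] at hx
        refine ⟨?_, ?_⟩
        · have := hA _ (hl (H.mate x) (by simp [hx])).1
          rwa [H.mm] at this
        · rw [ho.mr]
          exact (ho.ml _ _).1 (h1 _ hx)
      · exact ih _ (by omega) rfl (wk_mid.1 h).2 m.2.1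
          (fun x hx => ⟨(hl x (by simp [hx])).1, h2 x hx⟩)

/-! ### short walks to a set of vertices -/

/-- a simple walk with at most `L` states in `A` from `s` to a neighbour of `T` -/
def Sp (H : AG V) (A : V → Prop) (L : ℕ) (s : V) (T : V → Prop) : Prop :=
  ∃ l y t, H.Wk s l y ∧ l.length ≤ L ∧ H.ND l ∧ (∀ x ∈ l, A x) ∧ H.E y t ∧ T t

/-- the same in terms of derivations -/
def SpD (H : AG V) (A : V → Prop) (lt : V → V → Prop) (L : ℕ) (s : V) (T : V → Prop) : Prop :=
  (∃ t, H.E s t ∧ T t) ∨ ∃ c w i y j t, A c ∧ Der H A lt (H.mate c) w i ∧ H.E s w ∧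
    Der H A lt c y j ∧ i + 1 + j ≤ L ∧ H.E y t ∧ T t

/-- the order may be used for walks with at most `L` states -/
def Val (H : AG V) (L : ℕ) (lt : V → V → Prop) : Prop := L = 0 ∨ (Ord H lt ∧ Good H L lt)

theorem spD_iff (hN : H.NoCyc) {lt : V → V → Prop} {L : ℕ} (hv : Val H L lt)
    {A : V → Prop} (hA : ∀ x, A x → A (H.mate x)) {s : V} {T : V → Prop} :
    SpD H A lt L s T ↔ Sp H A L s T := by
  constructor
  · rintro (⟨t, h1, h2⟩ | ⟨c, w, i, y, j, t, hc, h1, h2, h3, h4, h5, h6⟩)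
    · exact ⟨[], s, t, rfl, by simp, nd_nil, by simp, h1, h2⟩
    · rcases hv with hv | ⟨ho, hg⟩
      · omega
      obtain ⟨l₁, rfl, a2, a3, a4⟩ := der_sound hN ho hg hA h1 (by omega)
      obtain ⟨l₂, rfl, b2, b3, b4⟩ := der_sound hN ho hg hA h3 (by omega)
      obtain ⟨g1, g2⟩ := join hN ho hg a2 b2 a3 b3 (fun x hx => (ho.mr _ _).1 (a4 x hx).2)
        (fun x hx => (b4 x hx).2) h2 h4
      refine ⟨_, y, t, g1, ?_, g2, ?_, h5, h6⟩
      · simp only [List.length_append, List.length_cons, rv_length]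
        omega
      · intro x hx
        rcases List.mem_append.1 hx with hx | hx
        · rw [mem_rv] at hx
          have h7 := hA _ (a4 _ hx).1
          rwa [H.mm] at h7
        rcases List.mem_cons.1 hx with rfl | hx
        · exact hc
        · exact (b4 x hx).1
  · rintro ⟨l, y, t, h1, h2, h3, h4, h5, h6⟩
    by_cases hne : l = []
    · subst hne
      rw [wk_nil] at h1
      subst h1
      exact Or.inl ⟨t, h5, h6⟩
    · right
      rcases hv with hv | ⟨ho, hg⟩
      · exfalso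
        have := List.length_pos_iff.2 hne
        omega
      obtain ⟨X, c, Y, rfl, k1, k2⟩ := exists_top ho h3 hne
      obtain ⟨w, hw, hw2⟩ := wk_rev' (wk_mid.1 h1).1
      have m := nd_mid h3
      refine ⟨c, w, X.length, y, Y.length, t, h4 c (by simp), ?_, hw2, ?_, ?_, h5, h6⟩
      · refine der_complete ho hA _ rv_length hw (nd_rv.2 m.1) ?_
        intro x hx
        rw [mem_rv] at hx
        refine ⟨?_, ?_⟩
        · have := hA _ (h4 (H.mate x) (by simp [hx]))
          rwa [H.mm] at this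
        · rw [ho.mr]
          exact (ho.ml _ _).1 (k1 _ hx)
      · exact der_complete ho hA _ rfl (wk_mid.1 h1).2 m.2.1
          (fun x hx => ⟨h4 x (by simp [hx]), k2 x hx⟩)
      · simp only [List.length_append, List.length_cons] at h2
        omega

/-- avoid three matching edges -/
def Avd (H : AG V) (f a h x : V) : Prop := H.sep x f ∧ H.sep x a ∧ H.sep x h

theorem avd_mate {f a h x : V} (hx : Avd H f a h x) : Avd H f a h (H.mate x) :=
  ⟨sep_ml.2 hx.1, sep_ml.2 hx.2.1, sep_ml.2 hx.2.2⟩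

theorem spD_avd (hN : H.NoCyc) {lt : V → V → Prop} {L : ℕ} (hv : Val H L lt)
    {f a h s : V} {T : V → Prop} :
    SpD H (Avd H f a h) lt L s T ↔ Sp H (Avd H f a h) L s T :=
  spD_iff hN hv (fun _ hx => avd_mate hx)

/-- both ends of `f` have short walks to `T`, without a bottleneck -/
def Phi (H : AG V) (lt : V → V → Prop) (L : ℕ) (T : V → Prop) (a f : V) : Prop :=
  H.sep f a ∧ SpD H (Avd H f a a) lt L f T ∧ SpD H (Avd H f a a) lt L (H.mate f) T ∧
    ∀ h, H.sep h f → H.sep h a →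
      SpD H (Avd H f a h) lt L f T ∨ SpD H (Avd H f a h) lt L (H.mate f) T

theorem phi_sound [Finite V] (hN : H.NoCyc) {lt : V → V → Prop} {L : ℕ} (hv : Val H L lt)
    {T : V → Prop} {a f : V} (hT : ∀ t, T t → t ∈ KK H a) (h : Phi H lt L T a f) :
    f ∈ KK H a := by
  obtain ⟨h1, h2, h3, h4⟩ := h
  rw [spD_avd hN hv] at h2 h3
  by_contra hf
  obtain ⟨l₁, y₁, t₁, a1, -, a2, a3, a4, a5⟩ := h2
  obtain ⟨l₂, y₂, t₂, b1, -, b2, b3, b4, b5⟩ := h3
  obtain ⟨b, hba, hbf, hb⟩ := bottleneck' hN h1 hf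
    ⟨a1, a4, a2, fun x hx => (a3 x hx).1, fun x hx => (a3 x hx).2.1⟩
    ⟨b1, b4, b2, fun x hx => (b3 x hx).1, fun x hx => (b3 x hx).2.1⟩ (hT _ a5) (hT _ b5)
  rcases h4 b hbf hba with h | h
  · rw [spD_avd hN hv] at h
    obtain ⟨l, y, t, c1, -, c2, c3, c4, c5⟩ := h
    exact hb f l y t (Or.inl rfl) (hT _ c5)
      ⟨c1, c4, c2, fun x hx => (c3 x hx).1, fun x hx => (c3 x hx).2.1⟩ fun x hx => (c3 x hx).2.2
  · rw [spD_avd hN hv] at h
    obtain ⟨l, y, t, c1, -, c2, c3, c4, c5⟩ := h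
    exact hb _ l y t (Or.inr rfl) (hT _ c5)
      ⟨c1, c4, c2, fun x hx => (c3 x hx).1, fun x hx => (c3 x hx).2.1⟩ fun x hx => (c3 x hx).2.2

theorem phi_complete (hN : H.NoCyc) {lt : V → V → Prop} {L : ℕ} (hv : Val H L lt)
    {T : V → Prop} {a f y₁ y₂ t₁ t₂ : V} {l₁ l₂ : List V} (hfa : H.sep f a)
    (h₁ : Cn H f a f l₁ y₁ t₁) (h₂ : Cn H f a (H.mate f) l₂ y₂ t₂) (ht₁ : T t₁) (ht₂ : T t₂)
    (k₁ : l₁.length ≤ L) (k₂ : l₂.length ≤ L) (hd : ∀ x ∈ l₁, ∀ y ∈ l₂, H.sep x y) :
    Phi H lt L T a f := by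
  refine ⟨hfa, ?_, ?_, ?_⟩
  · rw [spD_avd hN hv]
    exact ⟨l₁, y₁, t₁, h₁.wk, k₁, h₁.nd, fun x hx => ⟨h₁.sc x hx, h₁.sa x hx, h₁.sa x hx⟩,
      h₁.e, ht₁⟩
  · rw [spD_avd hN hv]
    exact ⟨l₂, y₂, t₂, h₂.wk, k₂, h₂.nd, fun x hx => ⟨h₂.sc x hx, h₂.sa x hx, h₂.sa x hx⟩,
      h₂.e, ht₂⟩
  · intro h _ _
    rw [spD_avd hN hv, spD_avd hN hv]
    by_cases hh : ∀ x ∈ l₁, H.sep x h
    · left
      exact ⟨l₁, y₁, t₁, h₁.wk, k₁, h₁.nd, fun x hx => ⟨h₁.sc x hx, h₁.sa x hx, hh x hx⟩,
        h₁.e, ht₁⟩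
    · right
      push Not at hh
      obtain ⟨z, hz, hzh⟩ := hh
      refine ⟨l₂, y₂, t₂, h₂.wk, k₂, h₂.nd, fun x hx => ⟨h₂.sc x hx, h₂.sa x hx, ?_⟩,
        h₂.e, ht₂⟩
      have := hd z hz x hx
      rcases not_sep.1 hzh with e | e
      · rw [← e]
        exact sep_comm.1 this
      · rw [e, sep_ml] at this
        exact sep_comm.1 this

theorem phi_mate {lt : V → V → Prop} {L : ℕ} {T : V → Prop} {a f : V} (h : Phi H lt L T a f) :
    Phi H lt L T a (H.mate f) := by
  have e : ∀ h : V, Avd H (H.mate f) a h = Avd H f a h := by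
    intro h
    funext x
    unfold Avd
    rw [sep_mr]
  obtain ⟨h1, h2, h3, h4⟩ := h
  refine ⟨sep_ml.2 h1, ?_, ?_, ?_⟩
  · rw [e]; exact h3
  · rw [e, H.mm]; exact h2
  · intro h hf ha
    rw [e, H.mm]
    exact (h4 h (sep_mr.1 hf) ha).symm

/-- two rounds -/
def Psi (H : AG V) (lt : V → V → Prop) (L : ℕ) (a f : V) : Prop :=
  Phi H lt L (fun t => t = a) a f ∨
    Phi H lt L (fun t => t = a ∨ Phi H lt L (fun t => t = a) a t) a f

theorem psi_sound [Finite V] (hN : H.NoCyc) {lt : V → V → Prop} {L : ℕ} (hv : Val H L lt)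
    {a f : V} (h : Psi H lt L a f) : f ∈ KK H a := by
  have h0 : ∀ f, Phi H lt L (fun t => t = a) a f → f ∈ KK H a := fun f hf =>
    phi_sound hN hv (fun t ht => by rw [ht]; exact (bl_KK a).base) hf
  rcases h with h | h
  · exact h0 f h
  · refine phi_sound hN hv ?_ h
    rintro t (rfl | ht)
    · exact (bl_KK t).base
    · exact h0 t ht

/-- a part of an ear -/
theorem psi_complete (hN : H.NoCyc) {lt : V → V → Prop} {L : ℕ} (hv : Val H L lt)
    {a y : V} {l : List V} (h : H.Wk a l y) (hy : H.E y a) (hnd : H.ND l)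
    (hl : ∀ x ∈ l, H.sep x a) (hlen : l.length ≤ 2 * L + 1) : ∀ x ∈ l, Psi H lt L a x := by
  intro x₀ hx₀
  have hpos : 0 < l.length := List.length_pos_of_mem hx₀
  -- the middle
  obtain ⟨P, m, Q, rfl, hP, hQ⟩ : ∃ P m Q, l = P ++ m :: Q ∧ P.length ≤ L ∧ Q.length ≤ L := by
    refine ⟨l.take (l.length / 2), l[l.length / 2]'(by omega), l.drop (l.length / 2 + 1), ?_, ?_, ?_⟩
    · rw [List.getElem_cons_drop, List.take_append_drop]
    · rw [List.length_take]; omega
    · rw [List.length_drop]; omega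
  have n := nd_mid hnd
  have w := wk_mid.1 h
  obtain ⟨z, hz, hz2⟩ := wk_rev' w.1
  have hms : H.sep m a := hl m (by simp)
  -- the middle state is found in the first round
  have hm : Phi H lt L (fun t => t = a) a m := by
    refine phi_complete (l₁ := Q) (l₂ := H.rv P) hN hv hms
      ⟨w.2, hy, n.2.1, n.2.2.2.1, fun x hx => hl x (by simp [hx])⟩
      ⟨hz, H.symm _ _ hz2, nd_rv.2 n.1, ?_, ?_⟩ rfl rfl hQ (by rw [rv_length]; exact hP) ?_
    · intro x hx
      rw [mem_rv] at hx
      exact sep_ml.1 (n.2.2.1 _ hx)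
    · intro x hx
      rw [mem_rv] at hx
      exact sep_ml.1 (hl _ (by simp [hx]))
    · intro x hx v hv
      rw [mem_rv] at hv
      exact sep_mr.1 (sep_comm.1 (n.2.2.2.2 _ hv x hx))
  rcases List.mem_append.1 hx₀ with hx | hx
  · -- on the first half
    right
    obtain ⟨P₁, P₂, rfl⟩ := List.append_of_mem hx
    have k := nd_mid n.1
    have w' := w.1
    rw [List.append_assoc, List.cons_append] at w'
    have w1 := wk_mid.1 w'
    obtain ⟨-, z', hz', hz'2⟩ := wk_snoc.1 w1.2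
    obtain ⟨v, hv', hv2⟩ := wk_rev' w1.1
    simp only [List.length_append, List.length_cons] at hP
    refine phi_complete (l₁ := P₂) (l₂ := H.rv P₁) (t₁ := H.mate m) (t₂ := a) hN hv
      (hl x₀ (by simp)) ⟨hz', hz'2, k.2.1, k.2.2.2.1, fun x hx => hl x (by simp [hx])⟩
      ⟨hv', H.symm _ _ hv2, nd_rv.2 k.1, ?_, ?_⟩ (Or.inr (phi_mate hm)) (Or.inl rfl)
      (by omega) (by rw [rv_length]; omega) ?_
    · intro x hx
      rw [mem_rv] at hx
      exact sep_ml.1 (k.2.2.1 _ hx)
    · intro x hx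
      rw [mem_rv] at hx
      exact sep_ml.1 (hl _ (by simp [hx]))
    · intro x hx v hv
      rw [mem_rv] at hv
      exact sep_mr.1 (sep_comm.1 (k.2.2.2.2 _ hv x hx))
  rcases List.mem_cons.1 hx with rfl | hx
  · exact Or.inl hm
  · right
    obtain ⟨Q₁, Q₂, rfl⟩ := List.append_of_mem hx
    have k := nd_mid n.2.1
    have w1 := wk_mid.1 w.2
    obtain ⟨v, hv', hv2⟩ := wk_rev' w1.1
    simp only [List.length_append, List.length_cons] at hQ
    refine phi_complete (l₁ := Q₂) (l₂ := H.rv Q₁) (t₁ := a) (t₂ := m) hN hv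
      (hl x₀ (by simp)) ⟨w1.2, hy, k.2.1, k.2.2.2.1, fun x hx => hl x (by simp [hx])⟩
      ⟨hv', H.symm _ _ hv2, nd_rv.2 k.1, ?_, ?_⟩ (Or.inl rfl) (Or.inr hm)
      (by omega) (by rw [rv_length]; omega) ?_
    · intro x hx
      rw [mem_rv] at hx
      exact sep_ml.1 (k.2.2.1 _ hx)
    · intro x hx
      rw [mem_rv] at hx
      exact sep_ml.1 (hl _ (by simp [hx]))
    · intro x hx v hv
      rw [mem_rv] at hv
      exact sep_mr.1 (sep_comm.1 (k.2.2.2.2 _ hv x hx))

/-! ### the new order -/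

/-- `f` lies in the blossom of one end of `g` -/
def Kn (H : AG V) (f g : V) : Prop := H.sep f g ∧ (f ∈ KK H g ∨ f ∈ KK H (H.mate g))

theorem kn_mate_r {f g : V} : Kn H f (H.mate g) ↔ Kn H f g := by
  unfold Kn
  rw [sep_mr, H.mm, or_comm (a := f ∈ KK H (H.mate g))]

theorem kn_trans (hN : H.NoCyc) {f g h : V} (h1 : Kn H f g) (h2 : Kn H g h) : Kn H f h := by
  have key : ∀ h, g ∈ KK H h → H.sep g h → Kn H f h := by
    intro h hg hs
    have hK := bl_KK (H := H) h
    have e1 := KK_trans hN hg hs.1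
    have hmg := hK.mate g hg hs.1
    have e2 := KK_trans hN hmg (sep_ml.2 hs).1
    have hfh : f ∈ KK H h := by
      rcases h1.2 with h3 | h3
      · exact e1 h3
      · exact e2 h3
    refine ⟨?_, Or.inl hfh⟩
    by_contra hc
    rcases not_sep.1 hc with e | e
    · -- `h` would lie in a blossom of `g`
      subst e
      rcases h1.2 with h3 | h3
      · have := (bl_KK (H := H) g).mate f h3 h1.1.1
        exact hK.nmate (e1 this)
      · have := (bl_KK (H := H) (H.mate g)).mate f h3 (sep_mr.2 h1.1).1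
        exact hK.nmate (e2 this)
    · exact hK.nmate (e ▸ hfh)
  rcases h2.2 with h3 | h3
  · exact key h h3 h2.1
  · exact kn_mate_r.1 (key (H.mate h) h3 (sep_mr.2 h2.1))

def Rel (H : AG V) (lt : V → V → Prop) (L : ℕ) (f g : V) : Prop :=
  H.sep f g ∧ (Psi H lt L g f ∨ Psi H lt L (H.mate g) f)

theorem rel_mate {lt : V → V → Prop} {L : ℕ} {f g : V} :
    Rel H lt L f (H.mate g) ↔ Rel H lt L f g := by
  unfold Rel
  rw [sep_mr, H.mm, or_comm (a := Psi H lt L (H.mate g) f)]

/-- there is a chain of relations from `f` to `g` -/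
def Ch (H : AG V) (lt : V → V → Prop) (L : ℕ) (f g : V) : Prop :=
  ∃ x, Relation.ReflTransGen (Rel H lt L) f x ∧ Rel H lt L x g

theorem ch_mate {lt : V → V → Prop} {L : ℕ} {f g : V} :
    Ch H lt L f (H.mate g) ↔ Ch H lt L f g := by
  unfold Ch
  exact exists_congr fun x => and_congr Iff.rfl rel_mate

/-- the number of predecessors -/
noncomputable def pre (H : AG V) (lt : V → V → Prop) (L : ℕ) (g : V) : ℕ :=
  Nat.card {f // Ch H lt L f g}

variable [LinearOrder V]

/-- the new order -/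
def upd (H : AG V) (lt : V → V → Prop) (L : ℕ) (x y : V) : Prop :=
  pre H lt L x < pre H lt L y ∨
    (pre H lt L x = pre H lt L y ∧ min x (H.mate x) < min y (H.mate y))

theorem upd_ord (lt : V → V → Prop) (L : ℕ) : Ord H (upd H lt L) := by
  have hp : ∀ x, pre H lt L (H.mate x) = pre H lt L x := by
    intro x
    unfold pre
    exact Nat.card_congr (Equiv.subtypeEquivRight fun f => ch_mate)
  have hm : ∀ x, min (H.mate x) (H.mate (H.mate x)) = min x (H.mate x) := by
    intro x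
    rw [H.mm, min_comm]
  refine ⟨?_, ?_, ?_, ?_, ?_⟩
  · intro x h
    rcases h with h | h
    · exact lt_irrefl _ h
    · exact lt_irrefl _ h.2
  · rintro x y z (h1 | ⟨h1, h1'⟩) (h2 | ⟨h2, h2'⟩)
    · exact Or.inl (h1.trans h2)
    · exact Or.inl (h2 ▸ h1)
    · exact Or.inl (h1 ▸ h2)
    · exact Or.inr ⟨h1.trans h2, h1'.trans h2'⟩
  · intro x y
    unfold upd
    rw [hp, hm]
  · intro x y
    unfold upd
    rw [hp, hm]
  · intro x y hs
    rcases lt_trichotomy (pre H lt L x) (pre H lt L y) with h | h | h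
    · exact Or.inl (Or.inl h)
    · rcases lt_trichotomy (min x (H.mate x)) (min y (H.mate y)) with h' | h' | h'
      · exact Or.inl (Or.inr ⟨h, h'⟩)
      · exfalso
        rcases min_choice x (H.mate x) with e1 | e1 <;> rcases min_choice y (H.mate y) with e2 | e2
        · exact hs.1 (by rw [← e1, h', e2])
        · exact hs.2 (by rw [← e1, h', e2])
        · apply hs.2
          have : H.mate x = y := by rw [← e1, h', e2]
          rw [← this, H.mm]
        · apply hs.1
          exact mate_inj (by rw [← e1, h', e2])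
      · exact Or.inr (Or.inr ⟨h.symm, h'⟩)
    · exact Or.inr (Or.inl h)

theorem upd_good [Finite V] (hN : H.NoCyc) {lt : V → V → Prop} {L : ℕ} (hv : Val H L lt) :
    Good H (2 * L + 1) (upd H lt L) := by
  intro a l y h hy hnd hl hlen x hx
  left
  have hrel : ∀ f g, Rel H lt L f g → Kn H f g := by
    rintro f g ⟨h1, h2 | h2⟩
    · exact ⟨h1, Or.inl (psi_sound hN hv h2)⟩
    · exact ⟨h1, Or.inr (psi_sound hN hv h2)⟩
  have hch : ∀ f g, Ch H lt L f g → Kn H f g := by
    rintro f g ⟨x, h1, h2⟩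
    have h3 := hrel x g h2
    clear h2
    induction h1 using Relation.ReflTransGen.head_induction_on with
    | refl => exact h3
    | head h4 _ ih => exact kn_trans hN (hrel _ _ h4) ih
  have hxa : Rel H lt L x a := ⟨hl x hx, Or.inl (psi_complete hN hv h hy hnd hl hlen x hx)⟩
  have h1 : {f | Ch H lt L f x} ⊂ {f | Ch H lt L f a} := by
    refine ⟨?_, ?_⟩
    · rintro f ⟨z, h1, h2⟩
      exact ⟨x, h1.tail h2, hxa⟩
    · intro hc
      have : x ∈ {f | Ch H lt L f a} := ⟨x, .refl, hxa⟩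
      exact sep_self (hch _ _ (hc this)).1
  exact Set.ncard_lt_ncard h1 (Set.toFinite _)

end Pool.Agent.PMNC.U
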