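import Mathlib
import Pool.Agent.Lib.MP_0087d5_lc.UDer
import Pool.Agent.Lib.MP_0087d5_lc.UNum

set_option autoImplicit false
set_option linter.all false

/-!
# The algorithm in relational form

`N` is the matching, `Ed` are the other edges, `lt` is an order of the matching edges.
-/

namespace Pool.Agent.PMNC

open Relation

section defs
variable {n : ℕ} (Ed N : Fin n → Fin n → Prop)

/-- different matching edges -/
def sR (x y : Fin n) : Prop := ¬ x = y ∧ ¬ N x y

def avR (f a h x : Fin n) : Prop := sR N x f ∧ sR N x a ∧ sR N x h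

/-- the item `I` is derivable from the item `J` and one item of `D` -/
def stR (lt : Fin n → Fin n → Prop) (A : Fin n → Prop) (D : Fin n × (Fin n × Fin n) → Prop)
    (I J : Fin n × (Fin n × Fin n)) : Prop :=
  ∃ c c' : Fin n, lt c I.1 ∧ A c ∧ N c c' ∧
    ((J.1 = c ∧ J.2.1 = I.2.1 ∧ ∃ w i : Fin n, D (c', (w, i)) ∧ Ed I.1 w ∧ P1 i J.2.2 I.2.2) ∨
      (J.1 = c' ∧ Ed I.1 J.2.1 ∧ ∃ j : Fin n, D (c, (I.2.1, j)) ∧ P1 J.2.2 j I.2.2))

/-- one round -/
def psR (lt : Fin n → Fin n → Prop) (A : Fin n → Prop) (D : Fin n × (Fin n × Fin n) → Prop)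
    (I : Fin n × (Fin n × Fin n)) : Prop :=
  ∃ J : Fin n × (Fin n × Fin n), D J ∧ ReflTransGen (stR Ed N lt A D) I J

def d0R (I : Fin n × (Fin n × Fin n)) : Prop := I.1 = I.2.1 ∧ IsZero I.2.2

/-- the derivable items -/
def dR (lt : Fin n → Fin n → Prop) (A : Fin n → Prop) : Fin n × (Fin n × Fin n) → Prop :=
  (psR Ed N lt A)^[1 * Nat.size n] d0R

/-- short walks to `T` -/
def spR (lt : Fin n → Fin n → Prop) (A : Fin n → Prop) (L s : Fin n) (T : Fin n → Prop) : Prop :=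
  (∃ t : Fin n, Ed s t ∧ T t) ∨ ∃ c c' w i y j t : Fin n, A c ∧ N c c' ∧
    dR Ed N lt A (c', (w, i)) ∧ Ed s w ∧ dR Ed N lt A (c, (y, j)) ∧ P1le i j L ∧ Ed y t ∧ T t

def phR (lt : Fin n → Fin n → Prop) (L : Fin n) (T : Fin n → Prop) (a f : Fin n) : Prop :=
  sR N f a ∧ ∃ f' : Fin n, N f f' ∧ spR Ed N lt (avR N f a a) L f T ∧
    spR Ed N lt (avR N f a a) L f' T ∧ ∀ h : Fin n, sR N h f → sR N h a →
      (spR Ed N lt (avR N f a h) L f T ∨ spR Ed N lt (avR N f a h) L f' T)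

def qR (lt : Fin n → Fin n → Prop) (L a f : Fin n) : Prop :=
  phR Ed N lt L (fun t => t = a) a f ∨
    phR Ed N lt L (fun t => t = a ∨ phR Ed N lt L (fun t => t = a) a t) a f

def relR (lt : Fin n → Fin n → Prop) (L f g : Fin n) : Prop :=
  sR N f g ∧ (qR Ed N lt L g f ∨ ∃ g' : Fin n, N g g' ∧ qR Ed N lt L g' f)

def chR (lt : Fin n → Fin n → Prop) (L f g : Fin n) : Prop :=
  ∃ x : Fin n, ReflTransGen (relR Ed N lt L) f x ∧ relR Ed N lt L x g

def updR (lt : Fin n → Fin n → Prop) (L x y : Fin n) : Prop :=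
  Nat.card {f : Fin n // chR Ed N lt L f x} < Nat.card {f : Fin n // chR Ed N lt L f y} ∨
    (Nat.card {f : Fin n // chR Ed N lt L f x} = Nat.card {f : Fin n // chR Ed N lt L f y} ∧
      ∃ x' y' : Fin n, N x x' ∧ N y y' ∧ ((x < y ∧ x < y') ∨ (x' < y ∧ x' < y')))

/-- one stage; the first coordinate is the bound on the length -/
def stgR (R : Fin n × (Fin n × Fin n) → Prop) (I : Fin n × (Fin n × Fin n)) : Prop :=
  ∃ h : Fin n, Hlf I.1 h ∧ updR Ed N (fun x y => R (h, (x, y))) h I.2.1 I.2.2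

/-- the orders -/
def ltR : Fin n × (Fin n × Fin n) → Prop := (stgR Ed N)^[1 * Nat.size n] (fun _ => False)

/-- a closed alternating walk is derived -/
def detR (lt : Fin n → Fin n → Prop) : Prop :=
  ∃ c c' t k : Fin n, N c c' ∧ dR Ed N lt (fun x => sR N x c) (c, (t, k)) ∧ Ed t c'

/-- the final test -/
def tstR : Prop := ∀ l : Fin n, (∀ j : Fin n, j ≤ l) → ¬ detR Ed N (fun x y => ltR Ed N (l, (x, y)))

end defs

section equiv
variable {n : ℕ} {Ed N : Fin n → Fin n → Prop} {H : U.AG (Fin n)}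

/-- the relations describe `H` -/
structure Desc (Ed N : Fin n → Fin n → Prop) (H : U.AG (Fin n)) : Prop where
  N : ∀ x y, N x y ↔ y = H.mate x
  E : ∀ x y, Ed x y ↔ H.E x y

theorem sR_iff (hd : Desc Ed N H) {x y : Fin n} : sR N x y ↔ H.sep x y := by
  unfold sR U.AG.sep
  rw [hd.N]
  refine and_congr Iff.rfl (not_congr ?_)
  constructor
  · rintro rfl; rw [H.mm]
  · rintro rfl; rw [H.mm]

theorem avR_eq (hd : Desc Ed N H) {f a h : Fin n} : avR N f a h = U.Avd H f a h := by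
  funext x
  unfold avR U.Avd
  rw [sR_iff hd, sR_iff hd, sR_iff hd]

theorem stR_iff (hd : Desc Ed N H) {lt : Fin n → Fin n → Prop} {A : Fin n → Prop}
    {D : Fin n × (Fin n × Fin n) → Prop} {I J : Fin n × (Fin n × Fin n)} :
    stR Ed N lt A D I J ↔ ∃ c, lt c I.1 ∧ A c ∧
      ((J.1 = c ∧ J.2.1 = I.2.1 ∧ ∃ w i, D (H.mate c, (w, i)) ∧ H.E I.1 w ∧ P1 i J.2.2 I.2.2) ∨
      (J.1 = H.mate c ∧ H.E I.1 J.2.1 ∧ ∃ j, D (c, (I.2.1, j)) ∧ P1 J.2.2 j I.2.2)) := by
  unfold stR
  simp only [hd.N, hd.E]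
  constructor
  · rintro ⟨c, c', h1, h2, rfl, h3⟩
    exact ⟨c, h1, h2, h3⟩
  · rintro ⟨c, h1, h2, h3⟩
    exact ⟨c, _, h1, h2, rfl, h3⟩

theorem psR_iterate_sound (hd : Desc Ed N H) {lt : Fin n → Fin n → Prop} {A : Fin n → Prop}
    (m : ℕ) : ∀ I : Fin n × (Fin n × Fin n), (psR Ed N lt A)^[m] d0R I →
      U.Der H A lt I.1 I.2.1 I.2.2.val := by
  induction m with
  | zero =>
    rintro ⟨s, t, k⟩ ⟨h1, h2⟩
    simp only at h1 h2 ⊢
    rw [isZero_iff] at h2
    rw [h2, h1]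
    exact U.Der.base t
  | succ m ih =>
    intro I h
    rw [Function.iterate_succ_apply'] at h
    obtain ⟨J, hJ, hIJ⟩ := h
    induction hIJ using ReflTransGen.head_induction_on with
    | refl => exact ih J hJ
    | @head I K hIK _ ihK =>
      rw [stR_iff hd] at hIK
      obtain ⟨c, hc1, hc2, h | h⟩ := hIK
      · obtain ⟨h1, h2, w, i, h3, h4, h5⟩ := h
        have e := ih _ h3
        simp only at e
        rw [h1, h2] at ihK
        rw [← show i.val + 1 + K.2.2.val = I.2.2.val from h5]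
        exact U.Der.step _ _ _ _ _ _ hc2 hc1 e h4 ihK
      · obtain ⟨h1, h2, j, h3, h4⟩ := h
        have e := ih _ h3
        simp only at e
        rw [h1] at ihK
        rw [← show K.2.2.val + 1 + j.val = I.2.2.val from h4]
        exact U.Der.step _ _ _ _ _ _ hc2 hc1 ihK h2 e

theorem psR_iterate_complete (hd : Desc Ed N H) {lt : Fin n → Fin n → Prop} {A : Fin n → Prop}
    (m : ℕ) : ∀ {s t : Fin n} {k : ℕ}, U.Der H A lt s t k → ∀ i : Fin n, i.val = k → k < 2 ^ m →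
      (psR Ed N lt A)^[m] d0R (s, (t, i)) := by
  induction m with
  | zero =>
    intro s t k h i hi hk
    have hk0 : k = 0 := by simpa using hk
    cases h with
    | base => exact ⟨rfl, isZero_iff.2 (hi.trans hk0)⟩
    | step => omega
  | succ m ih =>
    intro s t k h
    have key : ∀ i : Fin n, i.val = k → k < 2 ^ (m + 1) → ∃ J, (psR Ed N lt A)^[m] d0R J ∧
        ReflTransGen (stR Ed N lt A ((psR Ed N lt A)^[m] d0R)) (s, (t, i)) J := by
      induction h with
      | base c =>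
        intro i hi _
        exact ⟨(c, (c, i)), ih (U.Der.base c) i hi (Nat.two_pow_pos m), .refl⟩
      | step s c t w i j hc hcs h1 hsw h2 ih1 ih2 =>
        intro k hk hk2
        have hi' : i < n := by have := k.2; omega
        have hj' : j < n := by have := k.2; omega
        rw [pow_succ] at hk2
        by_cases hi : i < 2 ^ m
        · obtain ⟨J, hJ, hJ2⟩ := ih2 ⟨j, hj'⟩ rfl (by rw [pow_succ]; omega)
          refine ⟨J, hJ, ReflTransGen.head ?_ hJ2⟩
          rw [stR_iff hd]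
          refine ⟨c, hcs, hc, Or.inl ⟨rfl, rfl, w, ⟨i, hi'⟩, ih h1 ⟨i, hi'⟩ rfl hi, hsw, ?_⟩⟩
          exact hk.symm
        · obtain ⟨J, hJ, hJ2⟩ := ih1 ⟨i, hi'⟩ rfl (by rw [pow_succ]; omega)
          refine ⟨J, hJ, ReflTransGen.head ?_ hJ2⟩
          rw [stR_iff hd]
          refine ⟨c, hcs, hc, Or.inr ⟨rfl, hsw, ⟨j, hj'⟩, ih h2 ⟨j, hj'⟩ rfl (by omega), ?_⟩⟩
          exact hk.symm
    intro i hi hk
    rw [Function.iterate_succ_apply']
    exact key i hi hk

theorem dR_iff (hd : Desc Ed N H) {lt : Fin n → Fin n → Prop} {A : Fin n → Prop}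
    {s t k : Fin n} : dR Ed N lt A (s, (t, k)) ↔ U.Der H A lt s t k.val := by
  unfold dR
  rw [one_mul]
  exact ⟨psR_iterate_sound hd _ (s, (t, k)), fun h => psR_iterate_complete hd _ h k rfl
    (k.2.trans (Nat.lt_size_self n))⟩

theorem spR_iff (hd : Desc Ed N H) {lt : Fin n → Fin n → Prop} {A : Fin n → Prop}
    {L s : Fin n} {T : Fin n → Prop} :
    spR Ed N lt A L s T ↔ U.SpD H A lt L.val s T := by
  unfold spR U.SpD
  simp only [hd.N, hd.E, dR_iff hd]
  refine or_congr Iff.rfl ?_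
  constructor
  · rintro ⟨c, c', w, i, y, j, t, h1, rfl, h2, h3, h4, h5, h6⟩
    exact ⟨c, w, i.val, y, j.val, t, h1, h2, h3, h4, h5, h6⟩
  · rintro ⟨c, w, i, y, j, t, h1, h2, h3, h4, h5, h6⟩
    have := L.2
    exact ⟨c, _, w, ⟨i, by omega⟩, y, ⟨j, by omega⟩, t, h1, rfl, h2, h3, h4, h5, h6⟩

theorem phR_iff (hd : Desc Ed N H) {lt : Fin n → Fin n → Prop} {L : Fin n} {T : Fin n → Prop}
    {a f : Fin n} : phR Ed N lt L T a f ↔ U.Phi H lt L.val T a f := by
  unfold phR U.Phi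
  simp only [hd.N, spR_iff hd, sR_iff hd, avR_eq hd]
  constructor
  · rintro ⟨h1, f', rfl, h2⟩
    exact ⟨h1, h2⟩
  · rintro ⟨h1, h2⟩
    exact ⟨h1, _, rfl, h2⟩

theorem qR_iff (hd : Desc Ed N H) {lt : Fin n → Fin n → Prop} {L a f : Fin n} :
    qR Ed N lt L a f ↔ U.Psi H lt L.val a f := by
  unfold qR U.Psi
  simp only [phR_iff hd]

theorem relR_iff (hd : Desc Ed N H) {lt : Fin n → Fin n → Prop} {L f g : Fin n} :
    relR Ed N lt L f g ↔ U.Rel H lt L.val f g := by
  unfold relR U.Rel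
  simp only [hd.N, qR_iff hd, sR_iff hd]
  refine and_congr Iff.rfl (or_congr Iff.rfl ?_)
  constructor
  · rintro ⟨g', rfl, h⟩; exact h
  · intro h; exact ⟨_, rfl, h⟩

theorem chR_iff (hd : Desc Ed N H) {lt : Fin n → Fin n → Prop} {L f g : Fin n} :
    chR Ed N lt L f g ↔ U.Ch H lt L.val f g := by
  have e : relR Ed N lt L = U.Rel H lt L.val := by
    funext f g
    exact propext (relR_iff hd)
  unfold chR U.Ch
  rw [e]

theorem updR_iff (hd : Desc Ed N H) {lt : Fin n → Fin n → Prop} {L x y : Fin n} :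
    updR Ed N lt L x y ↔ U.upd H lt L.val x y := by
  unfold updR U.upd U.pre
  simp only [chR_iff hd, hd.N]
  refine or_congr Iff.rfl (and_congr Iff.rfl ?_)
  rw [lt_min_iff, min_lt_iff, min_lt_iff]
  constructor
  · rintro ⟨x', y', rfl, rfl, h⟩
    tauto
  · intro h
    refine ⟨_, _, rfl, rfl, ?_⟩
    rcases h with ⟨h1 | h1, h2 | h2⟩
    · exact Or.inl ⟨h1, h2⟩
    · rcases lt_or_ge x (H.mate x) with h3 | h3
      · exact Or.inl ⟨h1, h3.trans h2⟩
      · exact Or.inr ⟨h3.trans_lt h1, h2⟩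
    · rcases lt_or_ge x (H.mate x) with h3 | h3
      · exact Or.inl ⟨h3.trans h1, h2⟩
      · exact Or.inr ⟨h1, h3.trans_lt h2⟩
    · exact Or.inr ⟨h1, h2⟩

/-- the orders computed by the stages -/
theorem stg_spec (hd : Desc Ed N H) (m : ℕ) : ∀ l : Fin n,
    U.Ord H (fun x y => (stgR Ed N)^[m + 1] (fun _ => False) (l, (x, y))) ∧
    (H.NoCyc → l.val < 2 ^ (m + 1) →
      U.Good H l.val (fun x y => (stgR Ed N)^[m + 1] (fun _ => False) (l, (x, y)))) := by
  have key : ∀ (R : Fin n × (Fin n × Fin n) → Prop) (l h : Fin n), Hlf l h →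
      (fun x y => stgR Ed N R (l, (x, y))) = U.upd H (fun x y => R (h, (x, y))) h.val := by
    intro R l h hh
    funext x y
    apply propext
    unfold stgR
    simp only
    constructor
    · rintro ⟨h', h1, h2⟩
      rw [hlf_iff] at hh h1
      obtain rfl : h' = h := Fin.ext (h1.trans hh.symm)
      exact (updR_iff hd).1 h2
    · intro h2
      exact ⟨h, hh, (updR_iff hd).2 h2⟩
  have mono : ∀ (k k' : ℕ) (lt : Fin n → Fin n → Prop), k ≤ k' → U.Good H k' lt → U.Good H k lt :=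
    fun k k' lt hk hg a l y h1 h2 h3 h4 h5 => hg a l y h1 h2 h3 h4 (h5.trans hk)
  induction m with
  | zero =>
    intro l
    have hh : Hlf l ⟨l.val / 2, by have := l.2; omega⟩ := hlf_iff.2 rfl
    rw [show (stgR Ed N)^[0 + 1] (fun _ => False) = stgR Ed N (fun _ => False) from rfl,
      key _ l _ hh]
    refine ⟨U.upd_ord _ _, fun hN hl => ?_⟩
    have e : l.val / 2 = 0 := by
      rw [pow_one] at hl
      omega
    refine mono _ _ _ ?_ (U.upd_good hN (Or.inl e))
    simp only [pow_one] at hl ⊢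
    omega
  | succ m ih =>
    intro l
    have hh : Hlf l ⟨l.val / 2, by have := l.2; omega⟩ := hlf_iff.2 rfl
    rw [Function.iterate_succ_apply' (n := m + 1), key _ l _ hh]
    refine ⟨U.upd_ord _ _, fun hN hl => ?_⟩
    rw [pow_succ] at hl
    have h1 := ih ⟨l.val / 2, by have := l.2; omega⟩
    refine mono _ _ _ ?_ (U.upd_good hN (Or.inr ⟨h1.1, h1.2 hN ?_⟩))
    · simp only
      omega
    · simp only
      omega

theorem ltR_spec (hd : Desc Ed N H) (l : Fin n) :
    U.Ord H (fun x y => ltR Ed N (l, (x, y))) ∧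
    (H.NoCyc → U.Good H l.val (fun x y => ltR Ed N (l, (x, y)))) := by
  have hs : 0 < Nat.size n := Nat.size_pos.2 (by have := l.2; omega)
  obtain ⟨m, hm⟩ : ∃ m, Nat.size n = m + 1 := ⟨Nat.size n - 1, by omega⟩
  unfold ltR
  rw [one_mul, hm]
  refine ⟨(stg_spec hd m l).1, fun hN => (stg_spec hd m l).2 hN ?_⟩
  rw [← hm]
  exact l.2.trans (Nat.lt_size_self n)

/-- the test detects the alternating cycles -/
theorem tstR_iff (hd : Desc Ed N H) : tstR Ed N ↔ H.NoCyc := by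
  constructor
  · intro h c l hl hnd
    by_contra hne
    have hn : 0 < n := by have := c.2; omega
    apply h ⟨n - 1, by omega⟩ (fun j => by rw [Fin.le_def]; have := j.2; simp only; omega)
    obtain ⟨ho, -⟩ := ltR_spec hd (⟨n - 1, by omega⟩ : Fin n)
    obtain ⟨X, m, Y, rfl, h1, h2⟩ := U.exists_top ho hnd hne
    have w := U.wk_mid.1 hl
    have h3 : H.Wk m (Y ++ (X ++ [m])) m := U.wk_append.2 ⟨c, w.2, w.1⟩
    rw [← List.append_assoc] at h3
    obtain ⟨-, t, h4, h5⟩ := U.wk_snoc.1 h3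
    have k := U.nd_mid hnd
    have hnd2 : H.ND (Y ++ X) := by
      rw [U.nd_append]
      exact ⟨k.2.1, k.1, fun x hx y hy => U.sep_comm.1 (k.2.2.2.2 y hy x hx)⟩
    have hlen : (Y ++ X).length < n := by
      have h6 : (m :: (Y ++ X)).Nodup := by
        have : H.ND (m :: (Y ++ X)) := by
          rw [U.nd_cons]
          refine ⟨fun y hy => ?_, hnd2⟩
          rcases List.mem_append.1 hy with hy | hy
          · exact U.sep_comm.1 (k.2.2.2.1 y hy)
          · exact U.sep_comm.1 (k.2.2.1 y hy)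
        exact this.imp (fun h => h.1)
      have := h6.length_le_card
      simp only [List.length_cons, Fintype.card_fin] at this
      omega
    refine ⟨m, H.mate m, t, ⟨_, hlen⟩, (hd.N _ _).2 rfl, ?_, (hd.E _ _).2 h5⟩
    rw [dR_iff hd]
    refine U.der_complete ho (fun x hx => ?_) _ rfl h4 hnd2 ?_
    · rw [sR_iff hd] at hx ⊢
      exact U.sep_ml.2 hx
    · intro x hx
      rw [sR_iff hd]
      rcases List.mem_append.1 hx with hx | hx
      · exact ⟨k.2.2.2.1 x hx, h2 x hx⟩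
      · exact ⟨k.2.2.1 x hx, h1 x hx⟩
  · intro hN l hl
    rintro ⟨c, c', t, k, h1, h2, h3⟩
    obtain ⟨ho, hg⟩ := ltR_spec hd l
    rw [hd.N] at h1
    subst h1
    rw [dR_iff hd] at h2
    rw [hd.E] at h3
    obtain ⟨l', -, h4, h5, h6⟩ := U.der_sound hN ho (hg hN) (fun x hx => by
      rw [sR_iff hd] at hx ⊢
      exact U.sep_ml.2 hx) h2 (hl k)
    have h7 : H.Wk c (l' ++ [c]) c := U.wk_snoc.2 ⟨rfl, t, h4, h3⟩
    have := hN c _ h7 (by
      rw [U.nd_append]
      exact ⟨h5, U.nd_single, fun x hx y hy => by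
        rw [List.mem_singleton.1 hy]; exact (sR_iff hd).1 (h6 x hx).1⟩)
    simp at this

end equiv

end Pool.Agent.PMNC
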