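import Mathlib
import Pool.Agent.Lib.MP_0087d5_lc.UAlg

set_option autoImplicit false
set_option linter.all false

/-!
# The algorithm is definable
-/

namespace Pool.Agent.PMNC

open Relation

section
variable {E : ℕ → Type} [Env E]
  {Ed N : ∀ n : ℕ, SimpleGraph (Fin n) → Fin n → Fin n → Prop}
  {lt : ∀ n : ℕ, SimpleGraph (Fin n) → Ctx n → E n → Fin n → Fin n → Prop}
  {A T : ∀ n : ℕ, SimpleGraph (Fin n) → Ctx n → E n → Fin n → Prop}
  {D : ∀ n : ℕ, SimpleGraph (Fin n) → Ctx n → E n → Fin n × (Fin n × Fin n) → Prop}

theorem DefP.sRd (hN : DefP (E := fun n => Fin n × Fin n) (fun n G X y => N n G y.1 y.2))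
    {a b : ∀ n : ℕ, E n → Fin n} (ha : Tm (F := fun n => Fin n) a)
    (hb : Tm (F := fun n => Fin n) b) :
    DefP (fun n G X x => sR (N n G) (a n x) (b n x)) := by
  unfold sR
  (repeat' (first
      | apply DefP.hlf | apply DefP.p1le | apply DefP.p1 | apply DefP.p0 | apply DefP.aug
      | apply DefP.pth | apply DefP.nx | apply DefP.cnd | apply DefP.hmin | apply DefP.hit
      | apply DefP.cdn | apply DefP.firstEx | apply DefP.exN | apply DefP.end_
      | apply DefP.isZero | apply DefP.isSucc | apply DefP.alt | apply DefP.exr | apply DefP.exl
      | apply DefP.side | apply DefP.oddCard | apply DefP.cardEq | apply DefP.cardLt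
      | apply DefP.cardLe | apply DefP.lst | apply DefP.fst | apply DefP.nxt | apply DefP.keyLe
      | apply DefP.keyLt | apply DefP.rtc | (apply DefP.app4; assumption)
      | (apply DefP.app3'; assumption) | (apply DefP.app3; assumption)
      | (apply DefP.app2; assumption) | (apply DefP.comp; assumption) | exact Tm.id
      | exact Tm.unit | apply Tm.fst | apply Tm.snd | apply Tm.app | exact DefP.const _
      | apply DefP.and | apply DefP.not | apply DefP.or | apply DefP.iff | apply DefP.adj
      | apply DefP.le | apply DefP.lt | apply DefP.eqFin | apply DefP.eq | apply DefP.rv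
      | apply DefP.imp | apply DefP.allFin | apply DefP.exFin | apply DefP.all | apply DefP.ex
      | assumption | (apply Tm.comp; assumption) | apply Tm.pair | apply Tm.lam))


theorem DefP.avRd (hN : DefP (E := fun n => Fin n × Fin n) (fun n G X y => N n G y.1 y.2))
    {a b c d : ∀ n : ℕ, E n → Fin n} (ha : Tm (F := fun n => Fin n) a)
    (hb : Tm (F := fun n => Fin n) b) (hc : Tm (F := fun n => Fin n) c)
    (hd : Tm (F := fun n => Fin n) d) :
    DefP (fun n G X x => avR (N n G) (a n x) (b n x) (c n x) (d n x)) := by
  unfold avR
  (repeat' (first
      | apply DefP.sRd | apply DefP.hlf | apply DefP.p1le | apply DefP.p1 | apply DefP.p0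
      | apply DefP.aug | apply DefP.pth | apply DefP.nx | apply DefP.cnd | apply DefP.hmin
      | apply DefP.hit | apply DefP.cdn | apply DefP.firstEx | apply DefP.exN | apply DefP.end_
      | apply DefP.isZero | apply DefP.isSucc | apply DefP.alt | apply DefP.exr | apply DefP.exl
      | apply DefP.side | apply DefP.oddCard | apply DefP.cardEq | apply DefP.cardLt
      | apply DefP.cardLe | apply DefP.lst | apply DefP.fst | apply DefP.nxt | apply DefP.keyLe
      | apply DefP.keyLt | apply DefP.rtc | (apply DefP.app4; assumption)
      | (apply DefP.app3'; assumption) | (apply DefP.app3; assumption)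
      | (apply DefP.app2; assumption) | (apply DefP.comp; assumption) | exact Tm.id
      | exact Tm.unit | apply Tm.fst | apply Tm.snd | apply Tm.app | exact DefP.const _
      | apply DefP.and | apply DefP.not | apply DefP.or | apply DefP.iff | apply DefP.adj
      | apply DefP.le | apply DefP.lt | apply DefP.eqFin | apply DefP.eq | apply DefP.rv
      | apply DefP.imp | apply DefP.allFin | apply DefP.exFin | apply DefP.all | apply DefP.ex
      | assumption | (apply Tm.comp; assumption) | apply Tm.pair | apply Tm.lam))


theorem DefP.stRd (hE : DefP (E := fun n => Fin n × Fin n) (fun n G X y => Ed n G y.1 y.2))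
    (hN : DefP (E := fun n => Fin n × Fin n) (fun n G X y => N n G y.1 y.2))
    (hlt : DefP (E := fun n => E n × (Fin n × Fin n)) (fun n G X y => lt n G X y.1 y.2.1 y.2.2))
    (hA : DefP (E := fun n => E n × Fin n) (fun n G X y => A n G X y.1 y.2))
    (hD : DefP (E := fun n => E n × (Fin n × (Fin n × Fin n))) (fun n G X y => D n G X y.1 y.2))
    {f g : ∀ n : ℕ, E n → Fin n × (Fin n × Fin n)}
    (hf : Tm (F := fun n => Fin n × (Fin n × Fin n)) f)
    (hg : Tm (F := fun n => Fin n × (Fin n × Fin n)) g) :
    DefP (fun n G X x => stR (Ed n G) (N n G) (lt n G X x) (A n G X x) (D n G X x)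
      (f n x) (g n x)) := by
  have key : DefP (E := fun n => E n × ((Fin n × (Fin n × Fin n)) × (Fin n × (Fin n × Fin n))))
      (fun n G X y => stR (Ed n G) (N n G) (lt n G X y.1) (A n G X y.1) (D n G X y.1)
        y.2.1 y.2.2) := by
    unfold stR
    (repeat' (first
        | apply DefP.avRd | apply DefP.sRd | apply DefP.hlf | apply DefP.p1le | apply DefP.p1
        | apply DefP.p0 | apply DefP.aug | apply DefP.pth | apply DefP.nx | apply DefP.cnd
        | apply DefP.hmin | apply DefP.hit | apply DefP.cdn | apply DefP.firstEx
        | apply DefP.exN | apply DefP.end_ | apply DefP.isZero | apply DefP.isSucc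
        | apply DefP.alt | apply DefP.exr | apply DefP.exl | apply DefP.side
        | apply DefP.oddCard | apply DefP.cardEq | apply DefP.cardLt | apply DefP.cardLe
        | apply DefP.lst | apply DefP.fst | apply DefP.nxt | apply DefP.keyLe | apply DefP.keyLt
        | apply DefP.rtc | (apply DefP.app4; assumption) | (apply DefP.app3'; assumption)
        | (apply DefP.app3; assumption) | (apply DefP.app2; assumption)
        | (apply DefP.comp; assumption) | exact Tm.id | exact Tm.unit | apply Tm.fst
        | apply Tm.snd | apply Tm.app | exact DefP.const _ | apply DefP.and | apply DefP.not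
        | apply DefP.or | apply DefP.iff | apply DefP.adj | apply DefP.le | apply DefP.lt
        | apply DefP.eqFin | apply DefP.eq | apply DefP.rv | apply DefP.imp | apply DefP.allFin
        | apply DefP.exFin | apply DefP.all | apply DefP.ex | assumption
        | (apply Tm.comp; assumption) | apply Tm.pair | apply Tm.lam))
  exact DefP.app3 (H := fun n => Fin n × (Fin n × Fin n)) (K := fun n => Fin n × (Fin n × Fin n))
    (P := fun n G X x I J => stR (Ed n G) (N n G) (lt n G X x) (A n G X x) (D n G X x) I J)
    key Tm.id hf hg


theorem DefP.psRd (hE : DefP (E := fun n => Fin n × Fin n) (fun n G X y => Ed n G y.1 y.2))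
    (hN : DefP (E := fun n => Fin n × Fin n) (fun n G X y => N n G y.1 y.2))
    (hlt : DefP (E := fun n => E n × (Fin n × Fin n)) (fun n G X y => lt n G X y.1 y.2.1 y.2.2))
    (hA : DefP (E := fun n => E n × Fin n) (fun n G X y => A n G X y.1 y.2))
    (hD : DefP (E := fun n => E n × (Fin n × (Fin n × Fin n))) (fun n G X y => D n G X y.1 y.2))
    {f : ∀ n : ℕ, E n → Fin n × (Fin n × Fin n)}
    (hf : Tm (F := fun n => Fin n × (Fin n × Fin n)) f) :
    DefP (fun n G X x => psR (Ed n G) (N n G) (lt n G X x) (A n G X x) (D n G X x) (f n x)) := by
  have key : DefP (E := fun n => E n × (Fin n × (Fin n × Fin n)))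
      (fun n G X y => psR (Ed n G) (N n G) (lt n G X y.1) (A n G X y.1) (D n G X y.1) y.2) := by
    unfold psR
    refine DefP.ex (F := fun n => Fin n × (Fin n × Fin n)) (DefP.and (by (repeat' (first
        | apply DefP.stRd | apply DefP.avRd | apply DefP.sRd | apply DefP.hlf | apply DefP.p1le
        | apply DefP.p1 | apply DefP.p0 | apply DefP.aug | apply DefP.pth | apply DefP.nx
        | apply DefP.cnd | apply DefP.hmin | apply DefP.hit | apply DefP.cdn
        | apply DefP.firstEx | apply DefP.exN | apply DefP.end_ | apply DefP.isZero
        | apply DefP.isSucc | apply DefP.alt | apply DefP.exr | apply DefP.exl | apply DefP.side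
        | apply DefP.oddCard | apply DefP.cardEq | apply DefP.cardLt | apply DefP.cardLe
        | apply DefP.lst | apply DefP.fst | apply DefP.nxt | apply DefP.keyLe | apply DefP.keyLt
        | apply DefP.rtc | (apply DefP.app4; assumption) | (apply DefP.app3'; assumption)
        | (apply DefP.app3; assumption) | (apply DefP.app2; assumption)
        | (apply DefP.comp; assumption) | exact Tm.id | exact Tm.unit | apply Tm.fst
        | apply Tm.snd | apply Tm.app | exact DefP.const _ | apply DefP.and | apply DefP.not
        | apply DefP.or | apply DefP.iff | apply DefP.adj | apply DefP.le | apply DefP.lt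
        | apply DefP.eqFin | apply DefP.eq | apply DefP.rv | apply DefP.imp | apply DefP.allFin
        | apply DefP.exFin | apply DefP.all | apply DefP.ex | assumption
        | (apply Tm.comp; assumption) | apply Tm.pair | apply Tm.lam))) ?_)
    refine DefP.rtc (S := fun n => Fin n × (Fin n × Fin n)) ?_ (by (repeat' (first
        | apply DefP.stRd | apply DefP.avRd | apply DefP.sRd | apply DefP.hlf | apply DefP.p1le
        | apply DefP.p1 | apply DefP.p0 | apply DefP.aug | apply DefP.pth | apply DefP.nx
        | apply DefP.cnd | apply DefP.hmin | apply DefP.hit | apply DefP.cdn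
        | apply DefP.firstEx | apply DefP.exN | apply DefP.end_ | apply DefP.isZero
        | apply DefP.isSucc | apply DefP.alt | apply DefP.exr | apply DefP.exl | apply DefP.side
        | apply DefP.oddCard | apply DefP.cardEq | apply DefP.cardLt | apply DefP.cardLe
        | apply DefP.lst | apply DefP.fst | apply DefP.nxt | apply DefP.keyLe | apply DefP.keyLt
        | apply DefP.rtc | (apply DefP.app4; assumption) | (apply DefP.app3'; assumption)
        | (apply DefP.app3; assumption) | (apply DefP.app2; assumption)
        | (apply DefP.comp; assumption) | exact Tm.id | exact Tm.unit | apply Tm.fst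
        | apply Tm.snd | apply Tm.app | exact DefP.const _ | apply DefP.and | apply DefP.not
        | apply DefP.or | apply DefP.iff | apply DefP.adj | apply DefP.le | apply DefP.lt
        | apply DefP.eqFin | apply DefP.eq | apply DefP.rv | apply DefP.imp | apply DefP.allFin
        | apply DefP.exFin | apply DefP.all | apply DefP.ex | assumption
        | (apply Tm.comp; assumption) | apply Tm.pair | apply Tm.lam))) (by (repeat' (first
        | apply DefP.stRd | apply DefP.avRd | apply DefP.sRd | apply DefP.hlf | apply DefP.p1le
        | apply DefP.p1 | apply DefP.p0 | apply DefP.aug | apply DefP.pth | apply DefP.nx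
        | apply DefP.cnd | apply DefP.hmin | apply DefP.hit | apply DefP.cdn
        | apply DefP.firstEx | apply DefP.exN | apply DefP.end_ | apply DefP.isZero
        | apply DefP.isSucc | apply DefP.alt | apply DefP.exr | apply DefP.exl | apply DefP.side
        | apply DefP.oddCard | apply DefP.cardEq | apply DefP.cardLt | apply DefP.cardLe
        | apply DefP.lst | apply DefP.fst | apply DefP.nxt | apply DefP.keyLe | apply DefP.keyLt
        | apply DefP.rtc | (apply DefP.app4; assumption) | (apply DefP.app3'; assumption)
        | (apply DefP.app3; assumption) | (apply DefP.app2; assumption)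
        | (apply DefP.comp; assumption) | exact Tm.id | exact Tm.unit | apply Tm.fst
        | apply Tm.snd | apply Tm.app | exact DefP.const _ | apply DefP.and | apply DefP.not
        | apply DefP.or | apply DefP.iff | apply DefP.adj | apply DefP.le | apply DefP.lt
        | apply DefP.eqFin | apply DefP.eq | apply DefP.rv | apply DefP.imp | apply DefP.allFin
        | apply DefP.exFin | apply DefP.all | apply DefP.ex | assumption
        | (apply Tm.comp; assumption) | apply Tm.pair | apply Tm.lam)))
    (repeat' (first
        | apply DefP.stRd | apply DefP.avRd | apply DefP.sRd | apply DefP.hlf | apply DefP.p1le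
        | apply DefP.p1 | apply DefP.p0 | apply DefP.aug | apply DefP.pth | apply DefP.nx
        | apply DefP.cnd | apply DefP.hmin | apply DefP.hit | apply DefP.cdn
        | apply DefP.firstEx | apply DefP.exN | apply DefP.end_ | apply DefP.isZero
        | apply DefP.isSucc | apply DefP.alt | apply DefP.exr | apply DefP.exl | apply DefP.side
        | apply DefP.oddCard | apply DefP.cardEq | apply DefP.cardLt | apply DefP.cardLe
        | apply DefP.lst | apply DefP.fst | apply DefP.nxt | apply DefP.keyLe | apply DefP.keyLt
        | apply DefP.rtc | (apply DefP.app4; assumption) | (apply DefP.app3'; assumption)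
        | (apply DefP.app3; assumption) | (apply DefP.app2; assumption)
        | (apply DefP.comp; assumption) | exact Tm.id | exact Tm.unit | apply Tm.fst
        | apply Tm.snd | apply Tm.app | exact DefP.const _ | apply DefP.and | apply DefP.not
        | apply DefP.or | apply DefP.iff | apply DefP.adj | apply DefP.le | apply DefP.lt
        | apply DefP.eqFin | apply DefP.eq | apply DefP.rv | apply DefP.imp | apply DefP.allFin
        | apply DefP.exFin | apply DefP.all | apply DefP.ex | assumption
        | (apply Tm.comp; assumption) | apply Tm.pair | apply Tm.lam))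
  exact DefP.app2 (H := fun n => Fin n × (Fin n × Fin n))
    (P := fun n G X x I => psR (Ed n G) (N n G) (lt n G X x) (A n G X x) (D n G X x) I)
    key Tm.id hf


theorem DefP.dRd (hE : DefP (E := fun n => Fin n × Fin n) (fun n G X y => Ed n G y.1 y.2))
    (hN : DefP (E := fun n => Fin n × Fin n) (fun n G X y => N n G y.1 y.2))
    (hlt : DefP (E := fun n => E n × (Fin n × Fin n)) (fun n G X y => lt n G X y.1 y.2.1 y.2.2))
    (hA : DefP (E := fun n => E n × Fin n) (fun n G X y => A n G X y.1 y.2))
    {f : ∀ n : ℕ, E n → Fin n × (Fin n × Fin n)}
    (hf : Tm (F := fun n => Fin n × (Fin n × Fin n)) f) :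
    DefP (fun n G X x => dR (Ed n G) (N n G) (lt n G X x) (A n G X x) (f n x)) := by
  have hlt' := hlt.pop
  have hA' := hA.pop
  have key := DefP.iter (E := E) (S := fun n => Fin n × (Fin n × Fin n)) 1
    (I := fun n G X x => d0R)
    (Φ := fun n G X x D => psR (Ed n G) (N n G) (lt n G X x) (A n G X x) D)
    (by unfold d0R; (repeat' (first
        | apply DefP.psRd | apply DefP.stRd | apply DefP.avRd | apply DefP.sRd | apply DefP.hlf
        | apply DefP.p1le | apply DefP.p1 | apply DefP.p0 | apply DefP.aug | apply DefP.pth
        | apply DefP.nx | apply DefP.cnd | apply DefP.hmin | apply DefP.hit | apply DefP.cdn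
        | apply DefP.firstEx | apply DefP.exN | apply DefP.end_ | apply DefP.isZero
        | apply DefP.isSucc | apply DefP.alt | apply DefP.exr | apply DefP.exl | apply DefP.side
        | apply DefP.oddCard | apply DefP.cardEq | apply DefP.cardLt | apply DefP.cardLe
        | apply DefP.lst | apply DefP.fst | apply DefP.nxt | apply DefP.keyLe | apply DefP.keyLt
        | apply DefP.rtc | (apply DefP.app4; assumption) | (apply DefP.app3'; assumption)
        | (apply DefP.app3; assumption) | (apply DefP.app2; assumption)
        | (apply DefP.comp; assumption) | exact Tm.id | exact Tm.unit | apply Tm.fst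
        | apply Tm.snd | apply Tm.app | exact DefP.const _ | apply DefP.and | apply DefP.not
        | apply DefP.or | apply DefP.iff | apply DefP.adj | apply DefP.le | apply DefP.lt
        | apply DefP.eqFin | apply DefP.eq | apply DefP.rv | apply DefP.imp | apply DefP.allFin
        | apply DefP.exFin | apply DefP.all | apply DefP.ex | assumption
        | (apply Tm.comp; assumption) | apply Tm.pair | apply Tm.lam))) (by (repeat' (first
        | apply DefP.psRd | apply DefP.stRd | apply DefP.avRd | apply DefP.sRd | apply DefP.hlf
        | apply DefP.p1le | apply DefP.p1 | apply DefP.p0 | apply DefP.aug | apply DefP.pth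
        | apply DefP.nx | apply DefP.cnd | apply DefP.hmin | apply DefP.hit | apply DefP.cdn
        | apply DefP.firstEx | apply DefP.exN | apply DefP.end_ | apply DefP.isZero
        | apply DefP.isSucc | apply DefP.alt | apply DefP.exr | apply DefP.exl | apply DefP.side
        | apply DefP.oddCard | apply DefP.cardEq | apply DefP.cardLt | apply DefP.cardLe
        | apply DefP.lst | apply DefP.fst | apply DefP.nxt | apply DefP.keyLe | apply DefP.keyLt
        | apply DefP.rtc | (apply DefP.app4; assumption) | (apply DefP.app3'; assumption)
        | (apply DefP.app3; assumption) | (apply DefP.app2; assumption)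
        | (apply DefP.comp; assumption) | exact Tm.id | exact Tm.unit | apply Tm.fst
        | apply Tm.snd | apply Tm.app | exact DefP.const _ | apply DefP.and | apply DefP.not
        | apply DefP.or | apply DefP.iff | apply DefP.adj | apply DefP.le | apply DefP.lt
        | apply DefP.eqFin | apply DefP.eq | apply DefP.rv | apply DefP.imp | apply DefP.allFin
        | apply DefP.exFin | apply DefP.all | apply DefP.ex | assumption
        | (apply Tm.comp; assumption) | apply Tm.pair | apply Tm.lam)))
  exact DefP.app2 (H := fun n => Fin n × (Fin n × Fin n))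
    (P := fun n G X x I => dR (Ed n G) (N n G) (lt n G X x) (A n G X x) I)
    key Tm.id hf


theorem DefP.spRd (hE : DefP (E := fun n => Fin n × Fin n) (fun n G X y => Ed n G y.1 y.2))
    (hN : DefP (E := fun n => Fin n × Fin n) (fun n G X y => N n G y.1 y.2))
    (hlt : DefP (E := fun n => E n × (Fin n × Fin n)) (fun n G X y => lt n G X y.1 y.2.1 y.2.2))
    (hA : DefP (E := fun n => E n × Fin n) (fun n G X y => A n G X y.1 y.2))
    (hT : DefP (E := fun n => E n × Fin n) (fun n G X y => T n G X y.1 y.2))
    {a b : ∀ n : ℕ, E n → Fin n} (ha : Tm (F := fun n => Fin n) a)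
    (hb : Tm (F := fun n => Fin n) b) :
    DefP (fun n G X x => spR (Ed n G) (N n G) (lt n G X x) (A n G X x) (a n x) (b n x)
      (T n G X x)) := by
  have key : DefP (E := fun n => E n × (Fin n × Fin n))
      (fun n G X y => spR (Ed n G) (N n G) (lt n G X y.1) (A n G X y.1) y.2.1 y.2.2
        (T n G X y.1)) := by
    unfold spR
    (repeat' (first
        | apply DefP.dRd | apply DefP.psRd | apply DefP.stRd | apply DefP.avRd | apply DefP.sRd
        | apply DefP.hlf | apply DefP.p1le | apply DefP.p1 | apply DefP.p0 | apply DefP.aug
        | apply DefP.pth | apply DefP.nx | apply DefP.cnd | apply DefP.hmin | apply DefP.hit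
        | apply DefP.cdn | apply DefP.firstEx | apply DefP.exN | apply DefP.end_
        | apply DefP.isZero | apply DefP.isSucc | apply DefP.alt | apply DefP.exr
        | apply DefP.exl | apply DefP.side | apply DefP.oddCard | apply DefP.cardEq
        | apply DefP.cardLt | apply DefP.cardLe | apply DefP.lst | apply DefP.fst
        | apply DefP.nxt | apply DefP.keyLe | apply DefP.keyLt | apply DefP.rtc
        | (apply DefP.app4; assumption) | (apply DefP.app3'; assumption)
        | (apply DefP.app3; assumption) | (apply DefP.app2; assumption)
        | (apply DefP.comp; assumption) | exact Tm.id | exact Tm.unit | apply Tm.fst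
        | apply Tm.snd | apply Tm.app | exact DefP.const _ | apply DefP.and | apply DefP.not
        | apply DefP.or | apply DefP.iff | apply DefP.adj | apply DefP.le | apply DefP.lt
        | apply DefP.eqFin | apply DefP.eq | apply DefP.rv | apply DefP.imp | apply DefP.allFin
        | apply DefP.exFin | apply DefP.all | apply DefP.ex | assumption
        | (apply Tm.comp; assumption) | apply Tm.pair | apply Tm.lam))
  exact DefP.app3 (H := fun n => Fin n) (K := fun n => Fin n)
    (P := fun n G X x I J => spR (Ed n G) (N n G) (lt n G X x) (A n G X x) I J (T n G X x))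
    key Tm.id ha hb


theorem DefP.phRd (hE : DefP (E := fun n => Fin n × Fin n) (fun n G X y => Ed n G y.1 y.2))
    (hN : DefP (E := fun n => Fin n × Fin n) (fun n G X y => N n G y.1 y.2))
    (hlt : DefP (E := fun n => E n × (Fin n × Fin n)) (fun n G X y => lt n G X y.1 y.2.1 y.2.2))
    (hT : DefP (E := fun n => E n × Fin n) (fun n G X y => T n G X y.1 y.2))
    {a b c : ∀ n : ℕ, E n → Fin n} (ha : Tm (F := fun n => Fin n) a)
    (hb : Tm (F := fun n => Fin n) b) (hc : Tm (F := fun n => Fin n) c) :
    DefP (fun n G X x => phR (Ed n G) (N n G) (lt n G X x) (a n x) (T n G X x)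
      (b n x) (c n x)) := by
  have key : DefP (E := fun n => E n × (Fin n × (Fin n × Fin n)))
      (fun n G X y => phR (Ed n G) (N n G) (lt n G X y.1) y.2.1 (T n G X y.1)
        y.2.2.1 y.2.2.2) := by
    unfold phR
    (repeat' (first
        | apply DefP.spRd | apply DefP.dRd | apply DefP.psRd | apply DefP.stRd | apply DefP.avRd
        | apply DefP.sRd | apply DefP.hlf | apply DefP.p1le | apply DefP.p1 | apply DefP.p0
        | apply DefP.aug | apply DefP.pth | apply DefP.nx | apply DefP.cnd | apply DefP.hmin
        | apply DefP.hit | apply DefP.cdn | apply DefP.firstEx | apply DefP.exN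
        | apply DefP.end_ | apply DefP.isZero | apply DefP.isSucc | apply DefP.alt
        | apply DefP.exr | apply DefP.exl | apply DefP.side | apply DefP.oddCard
        | apply DefP.cardEq | apply DefP.cardLt | apply DefP.cardLe | apply DefP.lst
        | apply DefP.fst | apply DefP.nxt | apply DefP.keyLe | apply DefP.keyLt | apply DefP.rtc
        | (apply DefP.app4; assumption) | (apply DefP.app3'; assumption)
        | (apply DefP.app3; assumption) | (apply DefP.app2; assumption)
        | (apply DefP.comp; assumption) | exact Tm.id | exact Tm.unit | apply Tm.fst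
        | apply Tm.snd | apply Tm.app | exact DefP.const _ | apply DefP.and | apply DefP.not
        | apply DefP.or | apply DefP.iff | apply DefP.adj | apply DefP.le | apply DefP.lt
        | apply DefP.eqFin | apply DefP.eq | apply DefP.rv | apply DefP.imp | apply DefP.allFin
        | apply DefP.exFin | apply DefP.all | apply DefP.ex | assumption
        | (apply Tm.comp; assumption) | apply Tm.pair | apply Tm.lam))
  exact DefP.app4 (H := fun n => Fin n) (K := fun n => Fin n) (L := fun n => Fin n)
    (P := fun n G X x I J K => phR (Ed n G) (N n G) (lt n G X x) I (T n G X x) J K)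
    key Tm.id ha hb hc


theorem DefP.qRd (hE : DefP (E := fun n => Fin n × Fin n) (fun n G X y => Ed n G y.1 y.2))
    (hN : DefP (E := fun n => Fin n × Fin n) (fun n G X y => N n G y.1 y.2))
    (hlt : DefP (E := fun n => E n × (Fin n × Fin n)) (fun n G X y => lt n G X y.1 y.2.1 y.2.2))
    {a b c : ∀ n : ℕ, E n → Fin n} (ha : Tm (F := fun n => Fin n) a)
    (hb : Tm (F := fun n => Fin n) b) (hc : Tm (F := fun n => Fin n) c) :
    DefP (fun n G X x => qR (Ed n G) (N n G) (lt n G X x) (a n x) (b n x) (c n x)) := by
  have key : DefP (E := fun n => E n × (Fin n × (Fin n × Fin n)))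
      (fun n G X y => qR (Ed n G) (N n G) (lt n G X y.1) y.2.1 y.2.2.1 y.2.2.2) := by
    unfold qR
    (repeat' (first
        | apply DefP.phRd | apply DefP.spRd | apply DefP.dRd | apply DefP.psRd | apply DefP.stRd
        | apply DefP.avRd | apply DefP.sRd | apply DefP.hlf | apply DefP.p1le | apply DefP.p1
        | apply DefP.p0 | apply DefP.aug | apply DefP.pth | apply DefP.nx | apply DefP.cnd
        | apply DefP.hmin | apply DefP.hit | apply DefP.cdn | apply DefP.firstEx
        | apply DefP.exN | apply DefP.end_ | apply DefP.isZero | apply DefP.isSucc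
        | apply DefP.alt | apply DefP.exr | apply DefP.exl | apply DefP.side
        | apply DefP.oddCard | apply DefP.cardEq | apply DefP.cardLt | apply DefP.cardLe
        | apply DefP.lst | apply DefP.fst | apply DefP.nxt | apply DefP.keyLe | apply DefP.keyLt
        | apply DefP.rtc | (apply DefP.app4; assumption) | (apply DefP.app3'; assumption)
        | (apply DefP.app3; assumption) | (apply DefP.app2; assumption)
        | (apply DefP.comp; assumption) | exact Tm.id | exact Tm.unit | apply Tm.fst
        | apply Tm.snd | apply Tm.app | exact DefP.const _ | apply DefP.and | apply DefP.not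
        | apply DefP.or | apply DefP.iff | apply DefP.adj | apply DefP.le | apply DefP.lt
        | apply DefP.eqFin | apply DefP.eq | apply DefP.rv | apply DefP.imp | apply DefP.allFin
        | apply DefP.exFin | apply DefP.all | apply DefP.ex | assumption
        | (apply Tm.comp; assumption) | apply Tm.pair | apply Tm.lam))
  exact DefP.app4 (H := fun n => Fin n) (K := fun n => Fin n) (L := fun n => Fin n)
    (P := fun n G X x I J K => qR (Ed n G) (N n G) (lt n G X x) I J K)
    key Tm.id ha hb hc


theorem DefP.relRd (hE : DefP (E := fun n => Fin n × Fin n) (fun n G X y => Ed n G y.1 y.2))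
    (hN : DefP (E := fun n => Fin n × Fin n) (fun n G X y => N n G y.1 y.2))
    (hlt : DefP (E := fun n => E n × (Fin n × Fin n)) (fun n G X y => lt n G X y.1 y.2.1 y.2.2))
    {a b c : ∀ n : ℕ, E n → Fin n} (ha : Tm (F := fun n => Fin n) a)
    (hb : Tm (F := fun n => Fin n) b) (hc : Tm (F := fun n => Fin n) c) :
    DefP (fun n G X x => relR (Ed n G) (N n G) (lt n G X x) (a n x) (b n x) (c n x)) := by
  have key : DefP (E := fun n => E n × (Fin n × (Fin n × Fin n)))
      (fun n G X y => relR (Ed n G) (N n G) (lt n G X y.1) y.2.1 y.2.2.1 y.2.2.2) := by
    unfold relR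
    (repeat' (first
        | apply DefP.qRd | apply DefP.phRd | apply DefP.spRd | apply DefP.dRd | apply DefP.psRd
        | apply DefP.stRd | apply DefP.avRd | apply DefP.sRd | apply DefP.hlf | apply DefP.p1le
        | apply DefP.p1 | apply DefP.p0 | apply DefP.aug | apply DefP.pth | apply DefP.nx
        | apply DefP.cnd | apply DefP.hmin | apply DefP.hit | apply DefP.cdn
        | apply DefP.firstEx | apply DefP.exN | apply DefP.end_ | apply DefP.isZero
        | apply DefP.isSucc | apply DefP.alt | apply DefP.exr | apply DefP.exl | apply DefP.side
        | apply DefP.oddCard | apply DefP.cardEq | apply DefP.cardLt | apply DefP.cardLe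
        | apply DefP.lst | apply DefP.fst | apply DefP.nxt | apply DefP.keyLe | apply DefP.keyLt
        | apply DefP.rtc | (apply DefP.app4; assumption) | (apply DefP.app3'; assumption)
        | (apply DefP.app3; assumption) | (apply DefP.app2; assumption)
        | (apply DefP.comp; assumption) | exact Tm.id | exact Tm.unit | apply Tm.fst
        | apply Tm.snd | apply Tm.app | exact DefP.const _ | apply DefP.and | apply DefP.not
        | apply DefP.or | apply DefP.iff | apply DefP.adj | apply DefP.le | apply DefP.lt
        | apply DefP.eqFin | apply DefP.eq | apply DefP.rv | apply DefP.imp | apply DefP.allFin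
        | apply DefP.exFin | apply DefP.all | apply DefP.ex | assumption
        | (apply Tm.comp; assumption) | apply Tm.pair | apply Tm.lam))
  exact DefP.app4 (H := fun n => Fin n) (K := fun n => Fin n) (L := fun n => Fin n)
    (P := fun n G X x I J K => relR (Ed n G) (N n G) (lt n G X x) I J K)
    key Tm.id ha hb hc


theorem DefP.chRd (hE : DefP (E := fun n => Fin n × Fin n) (fun n G X y => Ed n G y.1 y.2))
    (hN : DefP (E := fun n => Fin n × Fin n) (fun n G X y => N n G y.1 y.2))
    (hlt : DefP (E := fun n => E n × (Fin n × Fin n)) (fun n G X y => lt n G X y.1 y.2.1 y.2.2))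
    {a b c : ∀ n : ℕ, E n → Fin n} (ha : Tm (F := fun n => Fin n) a)
    (hb : Tm (F := fun n => Fin n) b) (hc : Tm (F := fun n => Fin n) c) :
    DefP (fun n G X x => chR (Ed n G) (N n G) (lt n G X x) (a n x) (b n x) (c n x)) := by
  have key : DefP (E := fun n => E n × (Fin n × (Fin n × Fin n)))
      (fun n G X y => chR (Ed n G) (N n G) (lt n G X y.1) y.2.1 y.2.2.1 y.2.2.2) := by
    unfold chR
    refine DefP.exFin (DefP.and ?_ (by (repeat' (first
        | apply DefP.relRd | apply DefP.qRd | apply DefP.phRd | apply DefP.spRd | apply DefP.dRd
        | apply DefP.psRd | apply DefP.stRd | apply DefP.avRd | apply DefP.sRd | apply DefP.hlf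
        | apply DefP.p1le | apply DefP.p1 | apply DefP.p0 | apply DefP.aug | apply DefP.pth
        | apply DefP.nx | apply DefP.cnd | apply DefP.hmin | apply DefP.hit | apply DefP.cdn
        | apply DefP.firstEx | apply DefP.exN | apply DefP.end_ | apply DefP.isZero
        | apply DefP.isSucc | apply DefP.alt | apply DefP.exr | apply DefP.exl | apply DefP.side
        | apply DefP.oddCard | apply DefP.cardEq | apply DefP.cardLt | apply DefP.cardLe
        | apply DefP.lst | apply DefP.fst | apply DefP.nxt | apply DefP.keyLe | apply DefP.keyLt
        | apply DefP.rtc | (apply DefP.app4; assumption) | (apply DefP.app3'; assumption)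
        | (apply DefP.app3; assumption) | (apply DefP.app2; assumption)
        | (apply DefP.comp; assumption) | exact Tm.id | exact Tm.unit | apply Tm.fst
        | apply Tm.snd | apply Tm.app | exact DefP.const _ | apply DefP.and | apply DefP.not
        | apply DefP.or | apply DefP.iff | apply DefP.adj | apply DefP.le | apply DefP.lt
        | apply DefP.eqFin | apply DefP.eq | apply DefP.rv | apply DefP.imp | apply DefP.allFin
        | apply DefP.exFin | apply DefP.all | apply DefP.ex | assumption
        | (apply Tm.comp; assumption) | apply Tm.pair | apply Tm.lam))))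
    refine DefP.rtc (S := fun n => Fin n) ?_ (by (repeat' (first
        | apply DefP.relRd | apply DefP.qRd | apply DefP.phRd | apply DefP.spRd | apply DefP.dRd
        | apply DefP.psRd | apply DefP.stRd | apply DefP.avRd | apply DefP.sRd | apply DefP.hlf
        | apply DefP.p1le | apply DefP.p1 | apply DefP.p0 | apply DefP.aug | apply DefP.pth
        | apply DefP.nx | apply DefP.cnd | apply DefP.hmin | apply DefP.hit | apply DefP.cdn
        | apply DefP.firstEx | apply DefP.exN | apply DefP.end_ | apply DefP.isZero
        | apply DefP.isSucc | apply DefP.alt | apply DefP.exr | apply DefP.exl | apply DefP.side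
        | apply DefP.oddCard | apply DefP.cardEq | apply DefP.cardLt | apply DefP.cardLe
        | apply DefP.lst | apply DefP.fst | apply DefP.nxt | apply DefP.keyLe | apply DefP.keyLt
        | apply DefP.rtc | (apply DefP.app4; assumption) | (apply DefP.app3'; assumption)
        | (apply DefP.app3; assumption) | (apply DefP.app2; assumption)
        | (apply DefP.comp; assumption) | exact Tm.id | exact Tm.unit | apply Tm.fst
        | apply Tm.snd | apply Tm.app | exact DefP.const _ | apply DefP.and | apply DefP.not
        | apply DefP.or | apply DefP.iff | apply DefP.adj | apply DefP.le | apply DefP.lt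
        | apply DefP.eqFin | apply DefP.eq | apply DefP.rv | apply DefP.imp | apply DefP.allFin
        | apply DefP.exFin | apply DefP.all | apply DefP.ex | assumption
        | (apply Tm.comp; assumption) | apply Tm.pair | apply Tm.lam))) (by (repeat' (first
        | apply DefP.relRd | apply DefP.qRd | apply DefP.phRd | apply DefP.spRd | apply DefP.dRd
        | apply DefP.psRd | apply DefP.stRd | apply DefP.avRd | apply DefP.sRd | apply DefP.hlf
        | apply DefP.p1le | apply DefP.p1 | apply DefP.p0 | apply DefP.aug | apply DefP.pth
        | apply DefP.nx | apply DefP.cnd | apply DefP.hmin | apply DefP.hit | apply DefP.cdn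
        | apply DefP.firstEx | apply DefP.exN | apply DefP.end_ | apply DefP.isZero
        | apply DefP.isSucc | apply DefP.alt | apply DefP.exr | apply DefP.exl | apply DefP.side
        | apply DefP.oddCard | apply DefP.cardEq | apply DefP.cardLt | apply DefP.cardLe
        | apply DefP.lst | apply DefP.fst | apply DefP.nxt | apply DefP.keyLe | apply DefP.keyLt
        | apply DefP.rtc | (apply DefP.app4; assumption) | (apply DefP.app3'; assumption)
        | (apply DefP.app3; assumption) | (apply DefP.app2; assumption)
        | (apply DefP.comp; assumption) | exact Tm.id | exact Tm.unit | apply Tm.fst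
        | apply Tm.snd | apply Tm.app | exact DefP.const _ | apply DefP.and | apply DefP.not
        | apply DefP.or | apply DefP.iff | apply DefP.adj | apply DefP.le | apply DefP.lt
        | apply DefP.eqFin | apply DefP.eq | apply DefP.rv | apply DefP.imp | apply DefP.allFin
        | apply DefP.exFin | apply DefP.all | apply DefP.ex | assumption
        | (apply Tm.comp; assumption) | apply Tm.pair | apply Tm.lam)))
    (repeat' (first
        | apply DefP.relRd | apply DefP.qRd | apply DefP.phRd | apply DefP.spRd | apply DefP.dRd
        | apply DefP.psRd | apply DefP.stRd | apply DefP.avRd | apply DefP.sRd | apply DefP.hlf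
        | apply DefP.p1le | apply DefP.p1 | apply DefP.p0 | apply DefP.aug | apply DefP.pth
        | apply DefP.nx | apply DefP.cnd | apply DefP.hmin | apply DefP.hit | apply DefP.cdn
        | apply DefP.firstEx | apply DefP.exN | apply DefP.end_ | apply DefP.isZero
        | apply DefP.isSucc | apply DefP.alt | apply DefP.exr | apply DefP.exl | apply DefP.side
        | apply DefP.oddCard | apply DefP.cardEq | apply DefP.cardLt | apply DefP.cardLe
        | apply DefP.lst | apply DefP.fst | apply DefP.nxt | apply DefP.keyLe | apply DefP.keyLt
        | apply DefP.rtc | (apply DefP.app4; assumption) | (apply DefP.app3'; assumption)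
        | (apply DefP.app3; assumption) | (apply DefP.app2; assumption)
        | (apply DefP.comp; assumption) | exact Tm.id | exact Tm.unit | apply Tm.fst
        | apply Tm.snd | apply Tm.app | exact DefP.const _ | apply DefP.and | apply DefP.not
        | apply DefP.or | apply DefP.iff | apply DefP.adj | apply DefP.le | apply DefP.lt
        | apply DefP.eqFin | apply DefP.eq | apply DefP.rv | apply DefP.imp | apply DefP.allFin
        | apply DefP.exFin | apply DefP.all | apply DefP.ex | assumption
        | (apply Tm.comp; assumption) | apply Tm.pair | apply Tm.lam))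
  exact DefP.app4 (H := fun n => Fin n) (K := fun n => Fin n) (L := fun n => Fin n)
    (P := fun n G X x I J K => chR (Ed n G) (N n G) (lt n G X x) I J K)
    key Tm.id ha hb hc


theorem DefP.updRd (hE : DefP (E := fun n => Fin n × Fin n) (fun n G X y => Ed n G y.1 y.2))
    (hN : DefP (E := fun n => Fin n × Fin n) (fun n G X y => N n G y.1 y.2))
    (hlt : DefP (E := fun n => E n × (Fin n × Fin n)) (fun n G X y => lt n G X y.1 y.2.1 y.2.2))
    {a b c : ∀ n : ℕ, E n → Fin n} (ha : Tm (F := fun n => Fin n) a)
    (hb : Tm (F := fun n => Fin n) b) (hc : Tm (F := fun n => Fin n) c) :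
    DefP (fun n G X x => updR (Ed n G) (N n G) (lt n G X x) (a n x) (b n x) (c n x)) := by
  have key : DefP (E := fun n => E n × (Fin n × (Fin n × Fin n)))
      (fun n G X y => updR (Ed n G) (N n G) (lt n G X y.1) y.2.1 y.2.2.1 y.2.2.2) := by
    unfold updR
    refine DefP.or (DefP.cardLt (S := fun n => Fin n) (T := fun n => Fin n) ?_ ?_)
      (DefP.and (DefP.cardEq (S := fun n => Fin n) (T := fun n => Fin n) ?_ ?_) ?_)
    all_goals (repeat' (first
        | apply DefP.chRd | apply DefP.relRd | apply DefP.qRd | apply DefP.phRd
        | apply DefP.spRd | apply DefP.dRd | apply DefP.psRd | apply DefP.stRd | apply DefP.avRd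
        | apply DefP.sRd | apply DefP.hlf | apply DefP.p1le | apply DefP.p1 | apply DefP.p0
        | apply DefP.aug | apply DefP.pth | apply DefP.nx | apply DefP.cnd | apply DefP.hmin
        | apply DefP.hit | apply DefP.cdn | apply DefP.firstEx | apply DefP.exN
        | apply DefP.end_ | apply DefP.isZero | apply DefP.isSucc | apply DefP.alt
        | apply DefP.exr | apply DefP.exl | apply DefP.side | apply DefP.oddCard
        | apply DefP.cardEq | apply DefP.cardLt | apply DefP.cardLe | apply DefP.lst
        | apply DefP.fst | apply DefP.nxt | apply DefP.keyLe | apply DefP.keyLt | apply DefP.rtc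
        | (apply DefP.app4; assumption) | (apply DefP.app3'; assumption)
        | (apply DefP.app3; assumption) | (apply DefP.app2; assumption)
        | (apply DefP.comp; assumption) | exact Tm.id | exact Tm.unit | apply Tm.fst
        | apply Tm.snd | apply Tm.app | exact DefP.const _ | apply DefP.and | apply DefP.not
        | apply DefP.or | apply DefP.iff | apply DefP.adj | apply DefP.le | apply DefP.lt
        | apply DefP.eqFin | apply DefP.eq | apply DefP.rv | apply DefP.imp | apply DefP.allFin
        | apply DefP.exFin | apply DefP.all | apply DefP.ex | assumption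
        | (apply Tm.comp; assumption) | apply Tm.pair | apply Tm.lam))
  exact DefP.app4 (H := fun n => Fin n) (K := fun n => Fin n) (L := fun n => Fin n)
    (P := fun n G X x I J K => updR (Ed n G) (N n G) (lt n G X x) I J K)
    key Tm.id ha hb hc


theorem DefP.ltRd (hE : DefP (E := fun n => Fin n × Fin n) (fun n G X y => Ed n G y.1 y.2))
    (hN : DefP (E := fun n => Fin n × Fin n) (fun n G X y => N n G y.1 y.2))
    {f : ∀ n : ℕ, E n → Fin n × (Fin n × Fin n)}
    (hf : Tm (F := fun n => Fin n × (Fin n × Fin n)) f) :
    DefP (fun n G X x => ltR (Ed n G) (N n G) (f n x)) := by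
  have key := DefP.iter (E := fun _ => Unit) (S := fun n => Fin n × (Fin n × Fin n)) 1
    (I := fun n G X x _ => False)
    (Φ := fun n G X x R => stgR (Ed n G) (N n G) R)
    (by (repeat' (first
        | apply DefP.updRd | apply DefP.chRd | apply DefP.relRd | apply DefP.qRd
        | apply DefP.phRd | apply DefP.spRd | apply DefP.dRd | apply DefP.psRd | apply DefP.stRd
        | apply DefP.avRd | apply DefP.sRd | apply DefP.hlf | apply DefP.p1le | apply DefP.p1
        | apply DefP.p0 | apply DefP.aug | apply DefP.pth | apply DefP.nx | apply DefP.cnd
        | apply DefP.hmin | apply DefP.hit | apply DefP.cdn | apply DefP.firstEx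
        | apply DefP.exN | apply DefP.end_ | apply DefP.isZero | apply DefP.isSucc
        | apply DefP.alt | apply DefP.exr | apply DefP.exl | apply DefP.side
        | apply DefP.oddCard | apply DefP.cardEq | apply DefP.cardLt | apply DefP.cardLe
        | apply DefP.lst | apply DefP.fst | apply DefP.nxt | apply DefP.keyLe | apply DefP.keyLt
        | apply DefP.rtc | (apply DefP.app4; assumption) | (apply DefP.app3'; assumption)
        | (apply DefP.app3; assumption) | (apply DefP.app2; assumption)
        | (apply DefP.comp; assumption) | exact Tm.id | exact Tm.unit | apply Tm.fst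
        | apply Tm.snd | apply Tm.app | exact DefP.const _ | apply DefP.and | apply DefP.not
        | apply DefP.or | apply DefP.iff | apply DefP.adj | apply DefP.le | apply DefP.lt
        | apply DefP.eqFin | apply DefP.eq | apply DefP.rv | apply DefP.imp | apply DefP.allFin
        | apply DefP.exFin | apply DefP.all | apply DefP.ex | assumption
        | (apply Tm.comp; assumption) | apply Tm.pair | apply Tm.lam))) (by
      unfold stgR
      refine DefP.exFin (DefP.and (by (repeat' (first
          | apply DefP.updRd | apply DefP.chRd | apply DefP.relRd | apply DefP.qRd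
          | apply DefP.phRd | apply DefP.spRd | apply DefP.dRd | apply DefP.psRd
          | apply DefP.stRd | apply DefP.avRd | apply DefP.sRd | apply DefP.hlf
          | apply DefP.p1le | apply DefP.p1 | apply DefP.p0 | apply DefP.aug | apply DefP.pth
          | apply DefP.nx | apply DefP.cnd | apply DefP.hmin | apply DefP.hit | apply DefP.cdn
          | apply DefP.firstEx | apply DefP.exN | apply DefP.end_ | apply DefP.isZero
          | apply DefP.isSucc | apply DefP.alt | apply DefP.exr | apply DefP.exl
          | apply DefP.side | apply DefP.oddCard | apply DefP.cardEq | apply DefP.cardLt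
          | apply DefP.cardLe | apply DefP.lst | apply DefP.fst | apply DefP.nxt
          | apply DefP.keyLe | apply DefP.keyLt | apply DefP.rtc | (apply DefP.app4; assumption)
          | (apply DefP.app3'; assumption) | (apply DefP.app3; assumption)
          | (apply DefP.app2; assumption) | (apply DefP.comp; assumption) | exact Tm.id
          | exact Tm.unit | apply Tm.fst | apply Tm.snd | apply Tm.app | exact DefP.const _
          | apply DefP.and | apply DefP.not | apply DefP.or | apply DefP.iff | apply DefP.adj
          | apply DefP.le | apply DefP.lt | apply DefP.eqFin | apply DefP.eq | apply DefP.rv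
          | apply DefP.imp | apply DefP.allFin | apply DefP.exFin | apply DefP.all
          | apply DefP.ex | assumption | (apply Tm.comp; assumption) | apply Tm.pair
          | apply Tm.lam))) ?_)
      refine DefP.updRd hE hN (lt := fun n G X (x : (Unit × (Fin n × (Fin n × Fin n))) × Fin n)
        a b => PMNC.rv (S := fun n => Fin n × (Fin n × Fin n)) X 0 (x.2, (a, b))) ?_ ?_ ?_ ?_
      all_goals (repeat' (first
          | apply DefP.updRd | apply DefP.chRd | apply DefP.relRd | apply DefP.qRd
          | apply DefP.phRd | apply DefP.spRd | apply DefP.dRd | apply DefP.psRd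
          | apply DefP.stRd | apply DefP.avRd | apply DefP.sRd | apply DefP.hlf
          | apply DefP.p1le | apply DefP.p1 | apply DefP.p0 | apply DefP.aug | apply DefP.pth
          | apply DefP.nx | apply DefP.cnd | apply DefP.hmin | apply DefP.hit | apply DefP.cdn
          | apply DefP.firstEx | apply DefP.exN | apply DefP.end_ | apply DefP.isZero
          | apply DefP.isSucc | apply DefP.alt | apply DefP.exr | apply DefP.exl
          | apply DefP.side | apply DefP.oddCard | apply DefP.cardEq | apply DefP.cardLt
          | apply DefP.cardLe | apply DefP.lst | apply DefP.fst | apply DefP.nxt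
          | apply DefP.keyLe | apply DefP.keyLt | apply DefP.rtc | (apply DefP.app4; assumption)
          | (apply DefP.app3'; assumption) | (apply DefP.app3; assumption)
          | (apply DefP.app2; assumption) | (apply DefP.comp; assumption) | exact Tm.id
          | exact Tm.unit | apply Tm.fst | apply Tm.snd | apply Tm.app | exact DefP.const _
          | apply DefP.and | apply DefP.not | apply DefP.or | apply DefP.iff | apply DefP.adj
          | apply DefP.le | apply DefP.lt | apply DefP.eqFin | apply DefP.eq | apply DefP.rv
          | apply DefP.imp | apply DefP.allFin | apply DefP.exFin | apply DefP.all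
          | apply DefP.ex | assumption | (apply Tm.comp; assumption) | apply Tm.pair
          | apply Tm.lam)))
  exact DefP.app2 (F := fun n => Unit) (H := fun n => Fin n × (Fin n × Fin n))
    (P := fun n G X x I => ltR (Ed n G) (N n G) I) key Tm.unit hf


theorem DefP.tstRd (hE : DefP (E := fun n => Fin n × Fin n) (fun n G X y => Ed n G y.1 y.2))
    (hN : DefP (E := fun n => Fin n × Fin n) (fun n G X y => N n G y.1 y.2)) :
    DefP (fun n G X (_ : E n) => tstR (Ed n G) (N n G)) := by
  unfold tstR detR
  refine DefP.allFin (DefP.imp (by (repeat' (first
      | apply DefP.ltRd | apply DefP.updRd | apply DefP.chRd | apply DefP.relRd | apply DefP.qRd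
      | apply DefP.phRd | apply DefP.spRd | apply DefP.dRd | apply DefP.psRd | apply DefP.stRd
      | apply DefP.avRd | apply DefP.sRd | apply DefP.hlf | apply DefP.p1le | apply DefP.p1
      | apply DefP.p0 | apply DefP.aug | apply DefP.pth | apply DefP.nx | apply DefP.cnd
      | apply DefP.hmin | apply DefP.hit | apply DefP.cdn | apply DefP.firstEx | apply DefP.exN
      | apply DefP.end_ | apply DefP.isZero | apply DefP.isSucc | apply DefP.alt
      | apply DefP.exr | apply DefP.exl | apply DefP.side | apply DefP.oddCard
      | apply DefP.cardEq | apply DefP.cardLt | apply DefP.cardLe | apply DefP.lst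
      | apply DefP.fst | apply DefP.nxt | apply DefP.keyLe | apply DefP.keyLt | apply DefP.rtc
      | (apply DefP.app4; assumption) | (apply DefP.app3'; assumption)
      | (apply DefP.app3; assumption) | (apply DefP.app2; assumption)
      | (apply DefP.comp; assumption) | exact Tm.id | exact Tm.unit | apply Tm.fst
      | apply Tm.snd | apply Tm.app | exact DefP.const _ | apply DefP.and | apply DefP.not
      | apply DefP.or | apply DefP.iff | apply DefP.adj | apply DefP.le | apply DefP.lt
      | apply DefP.eqFin | apply DefP.eq | apply DefP.rv | apply DefP.imp | apply DefP.allFin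
      | apply DefP.exFin | apply DefP.all | apply DefP.ex | assumption
      | (apply Tm.comp; assumption) | apply Tm.pair | apply Tm.lam))) (DefP.not ?_))
  refine DefP.exFin (DefP.exFin (DefP.exFin (DefP.exFin (DefP.and (by (repeat' (first
      | apply DefP.ltRd | apply DefP.updRd | apply DefP.chRd | apply DefP.relRd | apply DefP.qRd
      | apply DefP.phRd | apply DefP.spRd | apply DefP.dRd | apply DefP.psRd | apply DefP.stRd
      | apply DefP.avRd | apply DefP.sRd | apply DefP.hlf | apply DefP.p1le | apply DefP.p1
      | apply DefP.p0 | apply DefP.aug | apply DefP.pth | apply DefP.nx | apply DefP.cnd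
      | apply DefP.hmin | apply DefP.hit | apply DefP.cdn | apply DefP.firstEx | apply DefP.exN
      | apply DefP.end_ | apply DefP.isZero | apply DefP.isSucc | apply DefP.alt
      | apply DefP.exr | apply DefP.exl | apply DefP.side | apply DefP.oddCard
      | apply DefP.cardEq | apply DefP.cardLt | apply DefP.cardLe | apply DefP.lst
      | apply DefP.fst | apply DefP.nxt | apply DefP.keyLe | apply DefP.keyLt | apply DefP.rtc
      | (apply DefP.app4; assumption) | (apply DefP.app3'; assumption)
      | (apply DefP.app3; assumption) | (apply DefP.app2; assumption)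
      | (apply DefP.comp; assumption) | exact Tm.id | exact Tm.unit | apply Tm.fst
      | apply Tm.snd | apply Tm.app | exact DefP.const _ | apply DefP.and | apply DefP.not
      | apply DefP.or | apply DefP.iff | apply DefP.adj | apply DefP.le | apply DefP.lt
      | apply DefP.eqFin | apply DefP.eq | apply DefP.rv | apply DefP.imp | apply DefP.allFin
      | apply DefP.exFin | apply DefP.all | apply DefP.ex | assumption
      | (apply Tm.comp; assumption) | apply Tm.pair | apply Tm.lam)))
    (DefP.and ?_ (by (repeat' (first
        | apply DefP.ltRd | apply DefP.updRd | apply DefP.chRd | apply DefP.relRd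
        | apply DefP.qRd | apply DefP.phRd | apply DefP.spRd | apply DefP.dRd | apply DefP.psRd
        | apply DefP.stRd | apply DefP.avRd | apply DefP.sRd | apply DefP.hlf | apply DefP.p1le
        | apply DefP.p1 | apply DefP.p0 | apply DefP.aug | apply DefP.pth | apply DefP.nx
        | apply DefP.cnd | apply DefP.hmin | apply DefP.hit | apply DefP.cdn
        | apply DefP.firstEx | apply DefP.exN | apply DefP.end_ | apply DefP.isZero
        | apply DefP.isSucc | apply DefP.alt | apply DefP.exr | apply DefP.exl | apply DefP.side
        | apply DefP.oddCard | apply DefP.cardEq | apply DefP.cardLt | apply DefP.cardLe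
        | apply DefP.lst | apply DefP.fst | apply DefP.nxt | apply DefP.keyLe | apply DefP.keyLt
        | apply DefP.rtc | (apply DefP.app4; assumption) | (apply DefP.app3'; assumption)
        | (apply DefP.app3; assumption) | (apply DefP.app2; assumption)
        | (apply DefP.comp; assumption) | exact Tm.id | exact Tm.unit | apply Tm.fst
        | apply Tm.snd | apply Tm.app | exact DefP.const _ | apply DefP.and | apply DefP.not
        | apply DefP.or | apply DefP.iff | apply DefP.adj | apply DefP.le | apply DefP.lt
        | apply DefP.eqFin | apply DefP.eq | apply DefP.rv | apply DefP.imp | apply DefP.allFin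
        | apply DefP.exFin | apply DefP.all | apply DefP.ex | assumption
        | (apply Tm.comp; assumption) | apply Tm.pair | apply Tm.lam))))))))
  refine DefP.dRd hE hN
    (lt := fun n G X (x : ((((E n × Fin n) × Fin n) × Fin n) × Fin n) × Fin n)
      a b => ltR (Ed n G) (N n G) (x.1.1.1.1.2, (a, b)))
    (A := fun n G X (x : ((((E n × Fin n) × Fin n) × Fin n) × Fin n) × Fin n)
      a => sR (N n G) a x.1.1.1.2) ?_ ?_ ?_
  all_goals (repeat' (first
      | apply DefP.ltRd | apply DefP.updRd | apply DefP.chRd | apply DefP.relRd | apply DefP.qRd
      | apply DefP.phRd | apply DefP.spRd | apply DefP.dRd | apply DefP.psRd | apply DefP.stRd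
      | apply DefP.avRd | apply DefP.sRd | apply DefP.hlf | apply DefP.p1le | apply DefP.p1
      | apply DefP.p0 | apply DefP.aug | apply DefP.pth | apply DefP.nx | apply DefP.cnd
      | apply DefP.hmin | apply DefP.hit | apply DefP.cdn | apply DefP.firstEx | apply DefP.exN
      | apply DefP.end_ | apply DefP.isZero | apply DefP.isSucc | apply DefP.alt
      | apply DefP.exr | apply DefP.exl | apply DefP.side | apply DefP.oddCard
      | apply DefP.cardEq | apply DefP.cardLt | apply DefP.cardLe | apply DefP.lst
      | apply DefP.fst | apply DefP.nxt | apply DefP.keyLe | apply DefP.keyLt | apply DefP.rtc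
      | (apply DefP.app4; assumption) | (apply DefP.app3'; assumption)
      | (apply DefP.app3; assumption) | (apply DefP.app2; assumption)
      | (apply DefP.comp; assumption) | exact Tm.id | exact Tm.unit | apply Tm.fst
      | apply Tm.snd | apply Tm.app | exact DefP.const _ | apply DefP.and | apply DefP.not
      | apply DefP.or | apply DefP.iff | apply DefP.adj | apply DefP.le | apply DefP.lt
      | apply DefP.eqFin | apply DefP.eq | apply DefP.rv | apply DefP.imp | apply DefP.allFin
      | apply DefP.exFin | apply DefP.all | apply DefP.ex | assumption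
      | (apply Tm.comp; assumption) | apply Tm.pair | apply Tm.lam))

end

end Pool.Agent.PMNC
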