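import Mathlib
import Pool.Agent.Lib.MP_0087d5_lc.UAlt

set_option autoImplicit false
set_option linter.all false

/-!
# Alternating cycles and second perfect matchings
-/

namespace Pool.Agent.PMNC.U

open Function

variable {V : Type*} {H : AG V}

theorem nd_no_mate {l : List V} (h : H.ND l) {v : V} (h1 : v ∈ l) (h2 : H.mate v ∈ l) : False := by
  obtain ⟨X, Y, rfl⟩ := List.append_of_mem h1
  obtain ⟨_, _, hX, hY, _⟩ := nd_mid h
  have hne := H.mne v
  rw [List.mem_append, List.mem_cons] at h2
  rcases h2 with h2 | h2 | h2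
  · exact (hX _ h2).2 rfl
  · exact hne h2
  · exact (hY _ h2).2 rfl

theorem wk_get {s t : V} {l : List V} (h : H.Wk s l t) (i : ℕ) (hi : i + 1 < l.length) :
    H.E (l[i]'(by omega)) (H.mate (l[i + 1])) := by
  induction l generalizing s i with
  | nil => simp at hi
  | cons x l ih =>
    obtain ⟨h1, h2⟩ := h
    cases i with
    | zero =>
      cases l with
      | nil => simp at hi
      | cons y l => exact h2.1
    | succ i =>
      simp only [List.length_cons] at hi
      simpa using ih h2 i (by omega)

/-- an alternating cycle gives a second matching -/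
theorem second_of_cycle [DecidableEq V] {c : V} {l : List V} (hw : H.Wk c l c) (hnd : H.ND l)
    (hl : l ≠ []) :
    ∃ g : V → V, (∀ v, g (g v) = v) ∧ (∀ v, g v = H.mate v ∨ H.E v (g v)) ∧
      ∃ v, g v ≠ H.mate v := by
  have hno : l.Nodup := List.Pairwise.imp (fun h => h.1) hnd
  have hpos : 0 < l.length := List.length_pos_iff.2 hl
  have hstep : ∀ v ∈ l, H.E v (H.mate (l.formPerm v)) := by
    intro v hv
    obtain ⟨i, hi, rfl⟩ := List.getElem_of_mem hv
    rw [List.formPerm_apply_getElem l hno i hi]
    rcases Nat.lt_or_ge (i + 1) l.length with h | h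
    · simp only [Nat.mod_eq_of_lt h]
      exact wk_get hw i h
    · have e : i + 1 = l.length := by omega
      simp only [e, Nat.mod_self]
      have h1 : l[i] = c := by
        obtain ⟨l', rfl⟩ := wk_last hw hl
        have : i = l'.length := by simpa using e
        subst this
        simp
      rw [h1]
      cases l with
      | nil => exact absurd rfl hl
      | cons x l => exact hw.1
  have hmem : ∀ v, l.formPerm v ∈ l ↔ v ∈ l := fun v =>
    ⟨List.mem_of_formPerm_apply_mem, List.formPerm_apply_mem_of_mem⟩
  let P : V → V := fun v => l.formPerm v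
  let Q : V → V := fun v => l.formPerm.symm v
  have hPQ : ∀ v, P (Q v) = v := fun v => Equiv.apply_symm_apply _ v
  have hQP : ∀ v, Q (P v) = v := fun v => Equiv.symm_apply_apply _ v
  have hQmem : ∀ v, v ∈ l → Q v ∈ l := fun v hv => by
    rw [← hmem]
    change P (Q v) ∈ l
    rwa [hPQ]
  have hPmem : ∀ v, v ∈ l → P v ∈ l := fun v hv => (hmem v).2 hv
  refine ⟨fun v => if v ∈ l then H.mate (P v) else if H.mate v ∈ l then Q (H.mate v)
    else H.mate v, ?_, ?_, ?_⟩
  · intro v
    by_cases h1 : v ∈ l
    · have h2 : H.mate (P v) ∉ l := fun h => nd_no_mate hnd (hPmem v h1) h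
      simp only [h1, if_true, h2, if_false, H.mm, hPmem v h1, hQP]
    · by_cases h2 : H.mate v ∈ l
      · simp only [h1, if_false, h2, if_true, hQmem _ h2, hPQ, H.mm]
      · simp only [h1, if_false, h2, H.mm]
  · intro v
    by_cases h1 : v ∈ l
    · simp only [h1, if_true]
      exact Or.inr (hstep v h1)
    · by_cases h2 : H.mate v ∈ l
      · simp only [h1, if_false, h2, if_true]
        right
        have h3 := hstep (Q (H.mate v)) (hQmem _ h2)
        rw [show l.formPerm (Q (H.mate v)) = H.mate v from hPQ _, H.mm] at h3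
        exact H.symm _ _ h3
      · simp only [h1, if_false, h2]
        exact Or.inl trivial
  · obtain ⟨v, hv⟩ := List.exists_mem_of_ne_nil l hl
    refine ⟨v, ?_⟩
    simp only [hv, if_true]
    intro h
    have h1 := hstep v hv
    rw [show H.mate (l.formPerm v) = H.mate v from h] at h1
    exact H.nm v h1

/-- a second matching gives an alternating cycle -/
theorem cycle_of_second [Finite V] {g : V → V} (hg : ∀ v, g (g v) = v)
    (hE : ∀ v, g v = H.mate v ∨ H.E v (g v)) (hfix : ∀ v, g v ≠ v) {v : V}
    (hv : g v ≠ H.mate v) : ∃ l, H.Wk v l v ∧ H.ND l ∧ l ≠ [] := by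
  let φ : V → V := fun x => H.mate (g x)
  have hφ : Injective φ := by
    intro x y h
    have : g x = g y := mate_inj h
    rw [← hg x, this, hg]
  have hper : ∃ p, 0 < p ∧ φ^[p] v = v := by
    have := hφ.mem_periodicPts v
    rw [mem_periodicPts] at this
    obtain ⟨p, hp, h⟩ := this
    exact ⟨p, hp, h⟩
  classical
  obtain ⟨p, ⟨hp, hpv⟩, hmin⟩ : ∃ p, (0 < p ∧ φ^[p] v = v) ∧
      ∀ q, 0 < q → q < p → φ^[q] v ≠ v :=
    ⟨Nat.find hper, Nat.find_spec hper, fun q hq hlt h => Nat.find_min hper hlt ⟨hq, h⟩⟩
  have hstep : ∀ i, H.E (φ^[i] v) (H.mate (φ^[i + 1] v)) := by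
    intro i
    rw [iterate_succ_apply']
    change H.E (φ^[i] v) (H.mate (H.mate (g (φ^[i] v))))
    rw [H.mm]
    rcases hE (φ^[i] v) with h | h
    · exfalso
      apply hv
      have h1 : φ (φ^[i] v) = φ^[i] v := by
        change H.mate (g (φ^[i] v)) = _
        rw [h, H.mm]
      have h1' : φ^[i + 1] v = φ^[i] v := by rw [iterate_succ_apply']; exact h1
      rw [iterate_succ_apply] at h1'
      have h2 : φ v = v := hφ.iterate i h1'
      have h3 : H.mate (g v) = v := h2
      rw [← H.mm (g v), h3]
    · exact h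
  have hwk : ∀ k, H.Wk v ((List.range k).map fun i => φ^[i + 1] v) (φ^[k] v) := by
    intro k
    induction k with
    | zero => simp
    | succ k ih =>
      rw [List.range_succ, List.map_append, List.map_singleton, wk_snoc]
      exact ⟨rfl, _, ih, hstep k⟩
  have hF : ∀ j, φ^[j] (H.mate (φ^[j] v)) = H.mate v := by
    intro j
    induction j with
    | zero => rfl
    | succ j ih =>
      rw [iterate_succ_apply]
      have : φ (H.mate (φ^[j + 1] v)) = H.mate (φ^[j] v) := by
        rw [iterate_succ_apply']
        change H.mate (g (H.mate (H.mate (g (φ^[j] v))))) = _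
        rw [H.mm, hg]
      rw [this, ih]
  have hne : ∀ m, H.mate v ≠ φ^[m] v := by
    intro m h
    rcases Nat.even_or_odd' m with ⟨k, hk | hk⟩
    · rw [hk, two_mul, iterate_add_apply, ← hF k] at h
      have := hφ.iterate k h
      exact H.mne _ this
    · rw [hk, show 2 * k + 1 = k + (1 + k) by ring, iterate_add_apply, ← hF k] at h
      have h2 := hφ.iterate k h
      rw [iterate_add_apply, iterate_one] at h2
      have h3 : H.mate (φ^[k] v) = H.mate (g (φ^[k] v)) := h2
      exact hfix _ (mate_inj h3).symm
  have hsep2 : ∀ i j, φ^[i] v ≠ H.mate (φ^[j] v) := by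
    intro i j h
    apply hne (j + i)
    rw [iterate_add_apply, h, hF]
  have hsep1 : ∀ i j, i < j → j ≤ i + (p - 1) → φ^[i] v ≠ φ^[j] v := by
    intro i j hij hj h
    obtain ⟨d, rfl⟩ := Nat.exists_eq_add_of_lt hij
    rw [add_assoc, iterate_add_apply] at h
    have := hφ.iterate i h
    exact hmin (d + 1) (by omega) (by omega) this.symm
  refine ⟨(List.range p).map fun i => φ^[i + 1] v, ?_, ?_, ?_⟩
  · have := hwk p
    rwa [hpv] at this
  · unfold AG.ND
    rw [List.pairwise_map]
    refine List.Pairwise.imp_of_mem ?_ List.pairwise_lt_range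
    intro a b ha hb hab
    rw [List.mem_range] at ha hb
    exact ⟨hsep1 _ _ (by omega) (by omega), hsep2 _ _⟩
  · intro h
    have := congrArg List.length h
    simp at this
    omega

/-- no alternating cycle means that the matching is unique -/
theorem noCyc_iff [Finite V] : H.NoCyc ↔ ∀ g : V → V, (∀ v, g (g v) = v) →
    (∀ v, g v = H.mate v ∨ H.E v (g v)) → g = H.mate := by
  classical
  constructor
  · intro hN g hg hE
    by_contra hc
    have : ∃ v, g v ≠ H.mate v := by
      by_contra hcc
      push Not at hcc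
      exact hc (funext hcc)
    obtain ⟨v, hv⟩ := this
    have hfix : ∀ v, g v ≠ v := by
      intro v h
      rcases hE v with h1 | h1
      · exact H.mne v (h1.symm.trans h)
      · rw [h] at h1
        exact H.irr v h1
    obtain ⟨l, h1, h2, h3⟩ := cycle_of_second hg hE hfix hv
    exact h3 (hN v l h1 h2)
  · intro h c l hw hnd
    by_contra hl
    obtain ⟨g, h1, h2, v, h3⟩ := second_of_cycle hw hnd hl
    exact h3 (congrFun (h g h1 h2) v)

end Pool.Agent.PMNC.U
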