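import Mathlib
import Pool.Agent.Lib.MP_0087d5_lc.UDef
import Pool.Agent.Lib.MP_0087d5_lc.UCnt
import Pool.Agent.Lib.MP_0087d5_lc.ULink

set_option autoImplicit false
set_option linter.all false

/-!
# The unique perfect matching problem is in NC
-/

namespace Pool.Agent.PMNC

section
variable {n : ℕ} {G : SimpleGraph (Fin n)}

/-- the perfect matching of an involution -/
def subOf {f : Fin n → Fin n} (hf : IsM G.Adj f) : G.Subgraph where
  verts := Set.univ
  Adj := fun v w => w = f v
  adj_sub := fun {v w} h => h ▸ hf.2 v
  edge_vert := fun _ => Set.mem_univ _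
  symm := ⟨fun v w (h : w = f v) => by
    change v = f w
    rw [h, hf.1]⟩

theorem subOf_pm {f : Fin n → Fin n} (hf : IsM G.Adj f) : (subOf hf).IsPerfectMatching := by
  constructor
  · intro v _
    exact ⟨f v, rfl, fun w h => h⟩
  · intro v
    exact Set.mem_univ v

theorem exists_map {M : G.Subgraph} (hM : M.IsPerfectMatching) :
    ∃ f : Fin n → Fin n, IsM G.Adj f ∧ ∀ v w, M.Adj v w ↔ w = f v := by
  obtain ⟨h1, h2⟩ := hM
  have h : ∀ v, ∃! w, M.Adj v w := fun v => h1 (h2 v)
  choose f hf huniq using h
  refine ⟨f, ⟨fun v => ?_, fun v => M.adj_sub (hf v)⟩, fun v w => ⟨huniq v w, ?_⟩⟩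
  · exact (huniq (f v) v (hf v).symm).symm
  · rintro rfl
    exact hf v

theorem upm_iff : (∃! M : G.Subgraph, M.IsPerfectMatching) ↔
    ∃ f : Fin n → Fin n, IsM G.Adj f ∧ ∀ g, IsM G.Adj g → g = f := by
  constructor
  · rintro ⟨M, hM, hu⟩
    obtain ⟨f, hf, hMf⟩ := exists_map hM
    refine ⟨f, hf, fun g hg => ?_⟩
    have := hu (subOf hg) (subOf_pm hg)
    funext v
    rw [← hMf v (g v), ← this]
    rfl
  · rintro ⟨f, hf, hu⟩
    refine ⟨subOf hf, subOf_pm hf, fun M hM => ?_⟩
    obtain ⟨g, hg, hMg⟩ := exists_map hM
    have e := hu g hg
    subst e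
    ext v w
    · exact ⟨fun _ => Set.mem_univ _, fun _ => hM.2 v⟩
    · exact hMg v w

/-- the edges outside the candidate -/
def edR (G : SimpleGraph (Fin n)) (x y : Fin n) : Prop := G.Adj x y ∧ ¬ nR G.Adj x y

/-- the algorithm -/
def upR (G : SimpleGraph (Fin n)) : Prop := IsPM G (nR G.Adj) ∧ tstR (edR G) (nR G.Adj)

/-- a graph with a perfect matching -/
def agOf {f : Fin n → Fin n} (hf : IsM G.Adj f) : U.AG (Fin n) where
  mate := f
  E := fun x y => G.Adj x y ∧ y ≠ f x
  mm := hf.1
  mne := fun x h => by
    have := hf.2 x
    rw [h] at this
    exact G.irrefl this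
  symm := fun x y h => ⟨h.1.symm, fun hh => h.2 (by rw [hh, hf.1])⟩
  irr := fun x h => G.irrefl h.1
  nm := fun x h => h.2 rfl

theorem noCyc_agOf {f : Fin n → Fin n} (hf : IsM G.Adj f) :
    (agOf hf).NoCyc ↔ ∀ g, IsM G.Adj g → g = f := by
  rw [U.noCyc_iff]
  constructor
  · intro h g hg
    refine h g hg.1 fun v => ?_
    by_cases hv : g v = f v
    · exact Or.inl hv
    · exact Or.inr ⟨hg.2 v, hv⟩
  · intro h g h1 h2
    refine h g ⟨h1, fun v => ?_⟩
    rcases h2 v with hv | hv
    · rw [hv]
      exact hf.2 v
    · exact hv.1

theorem upR_iff : upR G ↔ ∃ f : Fin n → Fin n, IsM G.Adj f ∧ ∀ g, IsM G.Adj g → g = f := by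
  have hs : ∀ x y, G.Adj x y → G.Adj y x := fun x y h => h.symm
  have hi : ∀ x, ¬ G.Adj x x := fun x => G.irrefl
  constructor
  · rintro ⟨h1, h2⟩
    choose f hf using fun v => (h1 v).1
    have hN : ∀ x y, nR G.Adj x y ↔ y = f x := by
      intro x y
      constructor
      · intro h
        exact ((h1 x).2 y h).2.2 (f x) (hf x)
      · rintro rfl
        exact hf x
    have hM : IsM G.Adj f :=
      ⟨fun v => ((hN (f v) v).1 ((h1 v).2 _ (hf v)).2.1).symm, fun v => ((h1 v).2 _ (hf v)).1⟩
    refine ⟨f, hM, ?_⟩
    rw [← noCyc_agOf hM]
    refine (tstR_iff (N := nR G.Adj) (Ed := edR G) ⟨hN, fun x y => ?_⟩).1 h2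
    unfold edR
    rw [hN]
    rfl
  · rintro ⟨f, hM, hu⟩
    have hN : ∀ x y, nR G.Adj x y ↔ y = f x := fun x y => nR_iff hs hi hM hu
    refine ⟨fun v => ⟨⟨f v, (hN _ _).2 rfl⟩, fun w hw => ?_⟩, ?_⟩
    · rw [hN] at hw
      subst hw
      exact ⟨hM.2 v, (hN _ _).2 (hM.1 v).symm, fun w' hw' => ((hN _ _).1 hw').symm⟩
    · refine (tstR_iff (N := nR G.Adj) (Ed := edR G) (H := agOf hM) ⟨hN, fun x y => ?_⟩).2
        ((noCyc_agOf hM).2 hu)
      unfold edR
      rw [hN]
      rfl

end

theorem unique_pm_def : DefP (E := fun _ => Unit)
    (fun n G X _ => ∃! M : G.Subgraph, M.IsPerfectMatching) := by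
  have hN : ∀ {E : ℕ → Type} [Env E] {a b : ∀ n : ℕ, E n → Fin n}
      (ha : Tm (F := fun n => Fin n) a) (hb : Tm (F := fun n => Fin n) b),
      DefP (fun n G X x => nR G.Adj (a n x) (b n x)) := by
    intro E _ a b ha hb
    exact DefP.nR (A := fun n G => G.Adj) (by (repeat' (first
        | apply DefP.ltRd | apply DefP.updRd | apply DefP.chRd | apply DefP.relRd
        | apply DefP.qRd | apply DefP.phRd | apply DefP.spRd | apply DefP.dRd | apply DefP.psRd
        | apply DefP.stRd | apply DefP.avRd | apply DefP.sRd | apply DefP.hlf | apply DefP.p1le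
        | apply DefP.p1 | apply DefP.p0 | apply DefP.aug | apply DefP.pth | apply DefP.nx
        | apply DefP.cnd | apply DefP.hmin | apply DefP.hit | apply DefP.cdn
        | apply DefP.firstEx | apply DefP.exN | apply DefP.end_ | apply DefP.isZero
        | apply DefP.isSucc | apply DefP.alt | apply DefP.exr | apply DefP.exl | apply DefP.side
        | apply DefP.oddCard | apply DefP.cardEq | apply DefP.cardLt | apply DefP.cardLe
        | apply DefP.lst | apply DefP.fst | apply DefP.nxt | apply DefP.keyLe | apply DefP.keyLt
        | apply DefP.rtc | (apply DefP.app4; assumption) | (apply DefP.app3'; assumption)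
        | (apply DefP.app3; assumption) | (apply DefP.app2; assumption)
        | (apply DefP.comp; assumption) | exact Tm.id | exact Tm.unit | apply Tm.fst
        | apply Tm.snd | apply Tm.app | exact DefP.const _ | apply DefP.and | apply DefP.not
        | apply DefP.or | apply DefP.iff | apply DefP.adj | apply DefP.le | apply DefP.lt
        | apply DefP.eqFin | apply DefP.eq | apply DefP.rv | apply DefP.imp | apply DefP.allFin
        | apply DefP.exFin | apply DefP.all | apply DefP.ex | assumption
        | (apply Tm.comp; assumption) | apply Tm.pair | apply Tm.lam))) ha hb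
  have hE : DefP (E := fun n => Fin n × Fin n) (fun n G X y => edR G y.1 y.2) := by
    unfold edR
    refine DefP.and (by (repeat' (first
        | apply DefP.ltRd | apply DefP.updRd | apply DefP.chRd | apply DefP.relRd
        | apply DefP.qRd | apply DefP.phRd | apply DefP.spRd | apply DefP.dRd | apply DefP.psRd
        | apply DefP.stRd | apply DefP.avRd | apply DefP.sRd | apply DefP.hlf | apply DefP.p1le
        | apply DefP.p1 | apply DefP.p0 | apply DefP.aug | apply DefP.pth | apply DefP.nx
        | apply DefP.cnd | apply DefP.hmin | apply DefP.hit | apply DefP.cdn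
        | apply DefP.firstEx | apply DefP.exN | apply DefP.end_ | apply DefP.isZero
        | apply DefP.isSucc | apply DefP.alt | apply DefP.exr | apply DefP.exl | apply DefP.side
        | apply DefP.oddCard | apply DefP.cardEq | apply DefP.cardLt | apply DefP.cardLe
        | apply DefP.lst | apply DefP.fst | apply DefP.nxt | apply DefP.keyLe | apply DefP.keyLt
        | apply DefP.rtc | (apply DefP.app4; assumption) | (apply DefP.app3'; assumption)
        | (apply DefP.app3; assumption) | (apply DefP.app2; assumption)
        | (apply DefP.comp; assumption) | exact Tm.id | exact Tm.unit | apply Tm.fst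
        | apply Tm.snd | apply Tm.app | exact DefP.const _ | apply DefP.and | apply DefP.not
        | apply DefP.or | apply DefP.iff | apply DefP.adj | apply DefP.le | apply DefP.lt
        | apply DefP.eqFin | apply DefP.eq | apply DefP.rv | apply DefP.imp | apply DefP.allFin
        | apply DefP.exFin | apply DefP.all | apply DefP.ex | assumption
        | (apply Tm.comp; assumption) | apply Tm.pair | apply Tm.lam))) (DefP.not (hN ?_ ?_))
    all_goals (repeat' (first
        | apply DefP.ltRd | apply DefP.updRd | apply DefP.chRd | apply DefP.relRd
        | apply DefP.qRd | apply DefP.phRd | apply DefP.spRd | apply DefP.dRd | apply DefP.psRd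
        | apply DefP.stRd | apply DefP.avRd | apply DefP.sRd | apply DefP.hlf | apply DefP.p1le
        | apply DefP.p1 | apply DefP.p0 | apply DefP.aug | apply DefP.pth | apply DefP.nx
        | apply DefP.cnd | apply DefP.hmin | apply DefP.hit | apply DefP.cdn
        | apply DefP.firstEx | apply DefP.exN | apply DefP.end_ | apply DefP.isZero
        | apply DefP.isSucc | apply DefP.alt | apply DefP.exr | apply DefP.exl | apply DefP.side
        | apply DefP.oddCard | apply DefP.cardEq | apply DefP.cardLt | apply DefP.cardLe
        | apply DefP.lst | apply DefP.fst | apply DefP.nxt | apply DefP.keyLe | apply DefP.keyLt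
        | apply DefP.rtc | (apply DefP.app4; assumption) | (apply DefP.app3'; assumption)
        | (apply DefP.app3; assumption) | (apply DefP.app2; assumption)
        | (apply DefP.comp; assumption) | exact Tm.id | exact Tm.unit | apply Tm.fst
        | apply Tm.snd | apply Tm.app | exact DefP.const _ | apply DefP.and | apply DefP.not
        | apply DefP.or | apply DefP.iff | apply DefP.adj | apply DefP.le | apply DefP.lt
        | apply DefP.eqFin | apply DefP.eq | apply DefP.rv | apply DefP.imp | apply DefP.allFin
        | apply DefP.exFin | apply DefP.all | apply DefP.ex | assumption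
        | (apply Tm.comp; assumption) | apply Tm.pair | apply Tm.lam))
  have h1 : DefP (E := fun _ => Unit) (fun n G X _ => IsPM G (nR G.Adj)) := by
    unfold IsPM
    refine DefP.allFin (DefP.and (DefP.exFin (hN ?_ ?_)) (DefP.allFin (DefP.imp (hN ?_ ?_)
      (DefP.and (by (repeat' (first
          | apply DefP.ltRd | apply DefP.updRd | apply DefP.chRd | apply DefP.relRd
          | apply DefP.qRd | apply DefP.phRd | apply DefP.spRd | apply DefP.dRd
          | apply DefP.psRd | apply DefP.stRd | apply DefP.avRd | apply DefP.sRd
          | apply DefP.hlf | apply DefP.p1le | apply DefP.p1 | apply DefP.p0 | apply DefP.aug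
          | apply DefP.pth | apply DefP.nx | apply DefP.cnd | apply DefP.hmin | apply DefP.hit
          | apply DefP.cdn | apply DefP.firstEx | apply DefP.exN | apply DefP.end_
          | apply DefP.isZero | apply DefP.isSucc | apply DefP.alt | apply DefP.exr
          | apply DefP.exl | apply DefP.side | apply DefP.oddCard | apply DefP.cardEq
          | apply DefP.cardLt | apply DefP.cardLe | apply DefP.lst | apply DefP.fst
          | apply DefP.nxt | apply DefP.keyLe | apply DefP.keyLt | apply DefP.rtc
          | (apply DefP.app4; assumption) | (apply DefP.app3'; assumption)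
          | (apply DefP.app3; assumption) | (apply DefP.app2; assumption)
          | (apply DefP.comp; assumption) | exact Tm.id | exact Tm.unit | apply Tm.fst
          | apply Tm.snd | apply Tm.app | exact DefP.const _ | apply DefP.and | apply DefP.not
          | apply DefP.or | apply DefP.iff | apply DefP.adj | apply DefP.le | apply DefP.lt
          | apply DefP.eqFin | apply DefP.eq | apply DefP.rv | apply DefP.imp
          | apply DefP.allFin | apply DefP.exFin | apply DefP.all | apply DefP.ex | assumption
          | (apply Tm.comp; assumption) | apply Tm.pair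
          | apply Tm.lam))) (DefP.and (hN ?_ ?_) (DefP.allFin (DefP.imp (hN ?_ ?_)
        (by (repeat' (first
            | apply DefP.ltRd | apply DefP.updRd | apply DefP.chRd | apply DefP.relRd
            | apply DefP.qRd | apply DefP.phRd | apply DefP.spRd | apply DefP.dRd
            | apply DefP.psRd | apply DefP.stRd | apply DefP.avRd | apply DefP.sRd
            | apply DefP.hlf | apply DefP.p1le | apply DefP.p1 | apply DefP.p0 | apply DefP.aug
            | apply DefP.pth | apply DefP.nx | apply DefP.cnd | apply DefP.hmin | apply DefP.hit
            | apply DefP.cdn | apply DefP.firstEx | apply DefP.exN | apply DefP.end_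
            | apply DefP.isZero | apply DefP.isSucc | apply DefP.alt | apply DefP.exr
            | apply DefP.exl | apply DefP.side | apply DefP.oddCard | apply DefP.cardEq
            | apply DefP.cardLt | apply DefP.cardLe | apply DefP.lst | apply DefP.fst
            | apply DefP.nxt | apply DefP.keyLe | apply DefP.keyLt | apply DefP.rtc
            | (apply DefP.app4; assumption) | (apply DefP.app3'; assumption)
            | (apply DefP.app3; assumption) | (apply DefP.app2; assumption)
            | (apply DefP.comp; assumption) | exact Tm.id | exact Tm.unit | apply Tm.fst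
            | apply Tm.snd | apply Tm.app | exact DefP.const _ | apply DefP.and | apply DefP.not
            | apply DefP.or | apply DefP.iff | apply DefP.adj | apply DefP.le | apply DefP.lt
            | apply DefP.eqFin | apply DefP.eq | apply DefP.rv | apply DefP.imp
            | apply DefP.allFin | apply DefP.exFin | apply DefP.all | apply DefP.ex | assumption
            | (apply Tm.comp; assumption) | apply Tm.pair | apply Tm.lam))))))))))
    all_goals (repeat' (first
        | apply DefP.ltRd | apply DefP.updRd | apply DefP.chRd | apply DefP.relRd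
        | apply DefP.qRd | apply DefP.phRd | apply DefP.spRd | apply DefP.dRd | apply DefP.psRd
        | apply DefP.stRd | apply DefP.avRd | apply DefP.sRd | apply DefP.hlf | apply DefP.p1le
        | apply DefP.p1 | apply DefP.p0 | apply DefP.aug | apply DefP.pth | apply DefP.nx
        | apply DefP.cnd | apply DefP.hmin | apply DefP.hit | apply DefP.cdn
        | apply DefP.firstEx | apply DefP.exN | apply DefP.end_ | apply DefP.isZero
        | apply DefP.isSucc | apply DefP.alt | apply DefP.exr | apply DefP.exl | apply DefP.side
        | apply DefP.oddCard | apply DefP.cardEq | apply DefP.cardLt | apply DefP.cardLe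
        | apply DefP.lst | apply DefP.fst | apply DefP.nxt | apply DefP.keyLe | apply DefP.keyLt
        | apply DefP.rtc | (apply DefP.app4; assumption) | (apply DefP.app3'; assumption)
        | (apply DefP.app3; assumption) | (apply DefP.app2; assumption)
        | (apply DefP.comp; assumption) | exact Tm.id | exact Tm.unit | apply Tm.fst
        | apply Tm.snd | apply Tm.app | exact DefP.const _ | apply DefP.and | apply DefP.not
        | apply DefP.or | apply DefP.iff | apply DefP.adj | apply DefP.le | apply DefP.lt
        | apply DefP.eqFin | apply DefP.eq | apply DefP.rv | apply DefP.imp | apply DefP.allFin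
        | apply DefP.exFin | apply DefP.all | apply DefP.ex | assumption
        | (apply Tm.comp; assumption) | apply Tm.pair | apply Tm.lam))
  have h2 : DefP (E := fun _ => Unit) (fun n G X _ => tstR (edR G) (nR G.Adj)) :=
    DefP.tstRd (Ed := fun n G => edR G) (N := fun n G => nR G.Adj) hE (hN (by (repeat' (first
        | apply DefP.ltRd | apply DefP.updRd | apply DefP.chRd | apply DefP.relRd
        | apply DefP.qRd | apply DefP.phRd | apply DefP.spRd | apply DefP.dRd | apply DefP.psRd
        | apply DefP.stRd | apply DefP.avRd | apply DefP.sRd | apply DefP.hlf | apply DefP.p1le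
        | apply DefP.p1 | apply DefP.p0 | apply DefP.aug | apply DefP.pth | apply DefP.nx
        | apply DefP.cnd | apply DefP.hmin | apply DefP.hit | apply DefP.cdn
        | apply DefP.firstEx | apply DefP.exN | apply DefP.end_ | apply DefP.isZero
        | apply DefP.isSucc | apply DefP.alt | apply DefP.exr | apply DefP.exl | apply DefP.side
        | apply DefP.oddCard | apply DefP.cardEq | apply DefP.cardLt | apply DefP.cardLe
        | apply DefP.lst | apply DefP.fst | apply DefP.nxt | apply DefP.keyLe | apply DefP.keyLt
        | apply DefP.rtc | (apply DefP.app4; assumption) | (apply DefP.app3'; assumption)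
        | (apply DefP.app3; assumption) | (apply DefP.app2; assumption)
        | (apply DefP.comp; assumption) | exact Tm.id | exact Tm.unit | apply Tm.fst
        | apply Tm.snd | apply Tm.app | exact DefP.const _ | apply DefP.and | apply DefP.not
        | apply DefP.or | apply DefP.iff | apply DefP.adj | apply DefP.le | apply DefP.lt
        | apply DefP.eqFin | apply DefP.eq | apply DefP.rv | apply DefP.imp | apply DefP.allFin
        | apply DefP.exFin | apply DefP.all | apply DefP.ex | assumption
        | (apply Tm.comp; assumption) | apply Tm.pair | apply Tm.lam))) (by (repeat' (first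
        | apply DefP.ltRd | apply DefP.updRd | apply DefP.chRd | apply DefP.relRd
        | apply DefP.qRd | apply DefP.phRd | apply DefP.spRd | apply DefP.dRd | apply DefP.psRd
        | apply DefP.stRd | apply DefP.avRd | apply DefP.sRd | apply DefP.hlf | apply DefP.p1le
        | apply DefP.p1 | apply DefP.p0 | apply DefP.aug | apply DefP.pth | apply DefP.nx
        | apply DefP.cnd | apply DefP.hmin | apply DefP.hit | apply DefP.cdn
        | apply DefP.firstEx | apply DefP.exN | apply DefP.end_ | apply DefP.isZero
        | apply DefP.isSucc | apply DefP.alt | apply DefP.exr | apply DefP.exl | apply DefP.side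
        | apply DefP.oddCard | apply DefP.cardEq | apply DefP.cardLt | apply DefP.cardLe
        | apply DefP.lst | apply DefP.fst | apply DefP.nxt | apply DefP.keyLe | apply DefP.keyLt
        | apply DefP.rtc | (apply DefP.app4; assumption) | (apply DefP.app3'; assumption)
        | (apply DefP.app3; assumption) | (apply DefP.app2; assumption)
        | (apply DefP.comp; assumption) | exact Tm.id | exact Tm.unit | apply Tm.fst
        | apply Tm.snd | apply Tm.app | exact DefP.const _ | apply DefP.and | apply DefP.not
        | apply DefP.or | apply DefP.iff | apply DefP.adj | apply DefP.le | apply DefP.lt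
        | apply DefP.eqFin | apply DefP.eq | apply DefP.rv | apply DefP.imp | apply DefP.allFin
        | apply DefP.exFin | apply DefP.all | apply DefP.ex | assumption
        | (apply Tm.comp; assumption) | apply Tm.pair | apply Tm.lam))))
  exact (h1.and h2).congr fun n G X _ => (upR_iff.trans upm_iff.symm)

/-- the unique perfect matching problem is in NC -/
theorem unique_pm : InNC (fun n G => ∃! M : G.Subgraph, M.IsPerfectMatching) :=
  inNC_of_defP unique_pm_def

end Pool.Agent.PMNC
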