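import Mathlib
import Pool.Agent.Lib.MP_0087d5_lc.UPM
import Pool.Agent.Lib.MP_0087d5_lc.WNum

set_option autoImplicit false
set_option linter.all false

/-!
# A list of perfect matchings is certified to be complete by uniqueness tests
-/

namespace Pool.Agent.PMNC

section
variable {n : ℕ} {α : Type*} (G : SimpleGraph (Fin n)) (C : α → Fin n → Fin n → Prop)

/-- the order number of a pair of vertices -/
noncomputable def pn (u v : Fin n) : ℕ := nv (S := fun n => Fin n × Fin n) (u, v)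

/-- the candidates differ at the pair -/
def dif (a b : α) (u v : Fin n) : Prop := u < v ∧ (C a u v ↔ ¬ C b u v)

/-- the first difference -/
def fdf (a b : α) (u v : Fin n) : Prop :=
  dif C a b u v ∧ ∀ u' v', pn u' v' < pn u v → ¬ dif C a b u' v'

/-- the pairs that are fixed for the candidate `a` -/
def fxd (a : α) (u v : Fin n) : Prop := ∃ b, IsPM G (C b) ∧ fdf C a b u v

/-- the part of the graph of the candidate `a` -/
def rg (a : α) : SimpleGraph (Fin n) where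
  Adj x y := G.Adj x y ∧ ∀ u v, fxd G C a u v →
    (¬ C a u v → ¬ ((x = u ∧ y = v) ∨ (x = v ∧ y = u))) ∧
    (C a u v → (x = u ∨ x = v ∨ y = u ∨ y = v) → ((x = u ∧ y = v) ∨ (x = v ∧ y = u)))
  symm := ⟨fun x y h => ⟨h.1.symm, fun u v huv =>
    ⟨fun h1 h2 => (h.2 u v huv).1 h1 (h2.elim (fun h3 => Or.inr ⟨h3.2, h3.1⟩)
      (fun h3 => Or.inl ⟨h3.2, h3.1⟩)),
     fun h1 h2 => ((h.2 u v huv).2 h1 (by tauto)).elim (fun h3 => Or.inr ⟨h3.2, h3.1⟩)
      (fun h3 => Or.inl ⟨h3.2, h3.1⟩)⟩⟩⟩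
  loopless := ⟨fun x h => G.irrefl h.1⟩

/-- the list of candidates passes the tests -/
def tsL : Prop := (∃ a, IsPM G (C a)) ∧
  ∀ a, IsPM G (C a) → ∃! M : (rg G C a).Subgraph, M.IsPerfectMatching

variable {G C}

theorem map_of_isPM {a : α} (h : IsPM G (C a)) :
    ∃ f : Fin n → Fin n, IsM G.Adj f ∧ ∀ x y, C a x y ↔ y = f x := by
  choose f hf using fun v => (h v).1
  have hN : ∀ x y, C a x y ↔ y = f x := by
    intro x y
    constructor
    · intro h1
      exact ((h x).2 y h1).2.2 (f x) (hf x)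
    · rintro rfl
      exact hf x
  exact ⟨f, ⟨fun v => ((hN (f v) v).1 ((h v).2 _ (hf v)).2.1).symm,
    fun v => ((h v).2 _ (hf v)).1⟩, hN⟩

theorem isPM_of_map {a : α} {f : Fin n → Fin n} (hf : IsM G.Adj f)
    (h : ∀ x y, C a x y ↔ y = f x) : IsPM G (C a) := by
  intro v
  refine ⟨⟨f v, (h _ _).2 rfl⟩, fun w hw => ?_⟩
  rw [h] at hw
  subst hw
  exact ⟨hf.2 v, (h _ _).2 (hf.1 v).symm, fun w' hw' => ((h _ _).1 hw').symm⟩

theorem pn_lt (u v : Fin n) : pn u v < n ^ 2 := nv_lt (S := fun n => Fin n × Fin n) _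

theorem pn_inj {u v u' v' : Fin n} (h : pn u v = pn u' v') : u = u' ∧ v = v' := by
  have := nv_injective (S := fun n => Fin n × Fin n) h
  rwa [Prod.mk.injEq] at this

/-- descent in the tree of all candidates -/
theorem trie (f : Fin n → Fin n) (h0 : ∃ a, IsPM G (C a)) (k : ℕ) :
    ∃ a, IsPM G (C a) ∧ ∀ b, IsPM G (C b) → ∀ u v, pn u v < k → fdf C a b u v →
      (C a u v ↔ v = f u) := by
  induction k with
  | zero =>
    obtain ⟨a, ha⟩ := h0
    exact ⟨a, ha, fun b _ u v h => absurd h (Nat.not_lt_zero _)⟩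
  | succ k ih =>
    obtain ⟨a, ha, hk⟩ := ih
    by_cases hc : ∃ b u v, IsPM G (C b) ∧ pn u v = k ∧ fdf C a b u v ∧ ¬ (C a u v ↔ v = f u)
    · obtain ⟨b, u, v, hb, huv, hfd, hne⟩ := hc
      refine ⟨b, hb, fun c hcc u' v' hlt hfd' => ?_⟩
      have hbf : C b u v ↔ v = f u := by
        have := hfd.1.2
        tauto
      rcases Nat.lt_or_ge (pn u' v') k with h1 | h1
      · -- the candidates `a` and `b` agree below `k`
        have hab : ∀ u'' v'', u'' < v'' → pn u'' v'' < k → (C a u'' v'' ↔ C b u'' v'') := by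
          intro u'' v'' h2 h3
          have h4 := hfd.2 u'' v'' (by omega)
          unfold dif at h4
          tauto
        have h5 : fdf C a c u' v' := by
          refine ⟨⟨hfd'.1.1, ?_⟩, fun u'' v'' h6 h7 => ?_⟩
          · rw [hab u' v' hfd'.1.1 h1]
            exact hfd'.1.2
          · apply hfd'.2 u'' v'' h6
            refine ⟨h7.1, ?_⟩
            rw [← hab u'' v'' h7.1 (by omega)]
            exact h7.2
        rw [← hab u' v' hfd'.1.1 h1]
        exact hk c hcc u' v' h1 h5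
      · obtain ⟨e1, e2⟩ := pn_inj (show pn u' v' = pn u v by omega)
        subst e1 e2
        exact hbf
    · push Not at hc
      refine ⟨a, ha, fun b hb u v hlt hfd => ?_⟩
      rcases Nat.lt_or_ge (pn u v) k with h1 | h1
      · exact hk b hb u v h1 hfd
      · by_contra hne
        exact hne (hc b u v hb (by omega) hfd)

theorem isM_rg {a : α} {f : Fin n → Fin n} (hf : IsM G.Adj f)
    (h : ∀ u v, fxd G C a u v → (C a u v ↔ v = f u)) : IsM (rg G C a).Adj f := by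
  refine ⟨hf.1, fun x => ⟨hf.2 x, fun u v huv => ⟨fun h1 h2 => ?_, fun h1 h2 => ?_⟩⟩⟩
  · apply h1
    rw [h u v huv]
    rcases h2 with ⟨rfl, h2⟩ | ⟨rfl, h2⟩
    · exact h2.symm
    · rw [← h2, hf.1]
  · rw [h u v huv] at h1
    subst h1
    rcases h2 with rfl | rfl | h2 | h2
    · exact Or.inl ⟨rfl, rfl⟩
    · exact Or.inr ⟨rfl, hf.1 _⟩
    · refine Or.inr ⟨?_, h2⟩
      rw [← h2, hf.1]
    · refine Or.inl ⟨?_, h2⟩
      rw [← hf.1 x, h2, hf.1]

theorem tsL_sound (h : tsL G C) {f : Fin n → Fin n} (hf : IsM G.Adj f) :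
    ∃ a, IsPM G (C a) ∧ ∀ x y, C a x y ↔ y = f x := by
  obtain ⟨h0, h1⟩ := h
  obtain ⟨a, ha, hk⟩ := trie f h0 (n ^ 2)
  obtain ⟨g, hg, hga⟩ := map_of_isPM ha
  refine ⟨a, ha, ?_⟩
  obtain ⟨M, hM, hu⟩ := upm_iff.1 (h1 a ha)
  have e1 : f = M := by
    refine hu f (isM_rg hf fun u v huv => ?_)
    obtain ⟨b, hb, hfd⟩ := huv
    exact hk b hb u v (pn_lt u v) hfd
  have e2 : g = M := hu g (isM_rg hg fun u v _ => hga u v)
  rw [e1, ← e2]
  exact hga

theorem tsL_complete (h0 : ∃ f, IsM G.Adj f)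
    (h1 : ∀ f, IsM G.Adj f → ∃ a, ∀ x y, C a x y ↔ y = f x) : tsL G C := by
  obtain ⟨f₀, hf₀⟩ := h0
  obtain ⟨a₀, ha₀⟩ := h1 f₀ hf₀
  refine ⟨⟨a₀, isPM_of_map hf₀ ha₀⟩, fun a ha => ?_⟩
  obtain ⟨f, hf, hfa⟩ := map_of_isPM ha
  rw [upm_iff]
  refine ⟨f, isM_rg hf fun u v _ => hfa u v, fun g hg => ?_⟩
  have hgG : IsM G.Adj g := ⟨hg.1, fun v => (hg.2 v).1⟩
  obtain ⟨b, hgb⟩ := h1 g hgG
  by_contra hne
  have hd : ∃ u v, dif C a b u v := by
    have : ∃ u, g u ≠ f u := by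
      by_contra hc
      push Not at hc
      exact hne (funext hc)
    obtain ⟨u, hu⟩ := this
    rcases lt_trichotomy u (f u) with h2 | h2 | h2
    · exact ⟨u, f u, h2, by rw [hfa, hgb]; simp [Ne.symm hu]⟩
    · have := hf.2 u
      rw [← h2] at this
      exact absurd this G.irrefl
    · refine ⟨f u, u, h2, ?_⟩
      rw [hfa, hgb, hf.1]
      simp only [true_iff]
      intro h3
      apply hu
      rw [h3, hgG.1, ← h3]
  -- the first difference
  classical
  have hex : ∃ k, ∃ u v, pn u v = k ∧ dif C a b u v := by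
    obtain ⟨u, v, h⟩ := hd
    exact ⟨_, u, v, rfl, h⟩
  obtain ⟨u, v, h2, h3⟩ := Nat.find_spec hex
  have hfd : fdf C a b u v := by
    refine ⟨h3, fun u' v' h4 h5 => ?_⟩
    rw [h2] at h4
    exact Nat.find_min hex h4 ⟨u', v', rfl, h5⟩
  have hfx : fxd G C a u v := ⟨b, isPM_of_map hgG hgb, hfd⟩
  have h4 := h3.2
  rw [hgb] at h4
  obtain ⟨h5, h6⟩ := (hg.2 u).2 u v hfx
  by_cases h7 : C a u v
  · have h8 := h4.1 h7
    rcases h6 h7 (Or.inl rfl) with h9 | h9
    · exact h8 h9.2.symm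
    · exact absurd h9.1 (ne_of_lt h3.1)
  · have h8 : v = g u := by
      by_contra hc
      exact h7 (h4.2 hc)
    exact h5 h7 (Or.inl ⟨rfl, h8.symm⟩)

end

section
variable {n : ℕ} {S : ℕ → Type} [Env S] {G : SimpleGraph (Fin n)} {C : S n → Fin n → Fin n → Prop}

/-- the smallest number of a candidate -/
def rpL (G : SimpleGraph (Fin n)) (C : S n → Fin n → Fin n → Prop) (a : S n) : Prop :=
  IsPM G (C a) ∧ ∀ b, key b < key a → ¬ (∀ x y, C b x y ↔ C a x y)

theorem card_rpL (h1 : ∀ f, IsM G.Adj f → ∃ a, ∀ x y, C a x y ↔ y = f x) :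
    Nat.card {a // rpL G C a} = Nat.card {f // IsM G.Adj f} := by
  classical
  haveI : Finite (S n) := Finite.of_equiv _ (vec n).symm
  refine Nat.card_congr (Equiv.ofBijective (fun a : {a // rpL G C a} =>
    (⟨(map_of_isPM a.2.1).choose, (map_of_isPM a.2.1).choose_spec.1⟩ : {f // IsM G.Adj f}))
    ⟨?_, ?_⟩)
  · intro a b h
    have h2 : (map_of_isPM a.2.1).choose = (map_of_isPM b.2.1).choose := congrArg Subtype.val h
    have ha := (map_of_isPM a.2.1).choose_spec.2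
    have hb := (map_of_isPM b.2.1).choose_spec.2
    rw [← h2] at hb
    have hab : ∀ x y, C a.1 x y ↔ C b.1 x y := fun x y => (ha x y).trans (hb x y).symm
    apply Subtype.ext
    apply key_injective
    rcases lt_trichotomy (key a.1) (key b.1) with h3 | h3 | h3
    · exact absurd hab (b.2.2 a.1 h3)
    · exact h3
    · exact absurd (fun x y => (hab x y).symm) (a.2.2 b.1 h3)
  · rintro ⟨f, hf⟩
    obtain ⟨a, ha⟩ := h1 f hf
    have hex : ∃ k, ∃ a : S n, nv a = k ∧ ∀ x y, C a x y ↔ y = f x := ⟨_, a, rfl, ha⟩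
    obtain ⟨a', h2, h3⟩ := Nat.find_spec hex
    have hr : rpL G C a' := by
      refine ⟨isPM_of_map hf h3, fun b hb hcc => ?_⟩
      rw [← nv_lt_iff, h2] at hb
      exact Nat.find_min hex hb ⟨b, rfl, fun x y => (hcc x y).trans (h3 x y)⟩
    refine ⟨⟨a', hr⟩, ?_⟩
    apply Subtype.ext
    funext x
    have h4 := (map_of_isPM hr.1).choose_spec.2
    have h5 := (h4 x (f x)).1 ((h3 x (f x)).2 rfl)
    exact h5.symm

end

end Pool.Agent.PMNC
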