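import Mathlib
import Pool.Agent.Lib.MP_0087d5_lc.WDet
import Pool.Agent.Lib.MP_0087d5_lc.UDetB

set_option autoImplicit false
set_option linter.all false

/-!
# Weighted determinants over `ZMod 2` are definable
-/

namespace Pool.Agent.PMNC

open Matrix

section main
variable {n : ℕ} {β : Type*} {nu : β → ℕ} {A : Fin n → Fin n → Prop} {w : Fin n → Fin n → ℕ}

/-- the parity of the number of closed walks with `j + 2` steps and weight `nu b - nu a` from `k`
through numbers below `k` -/
def cwR (nu : β → ℕ) (A : Fin n → Fin n → Prop) (w : Fin n → Fin n → ℕ) (k : Fin n) (j : ℕ)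
    (a b : β) : Prop :=
  Odd (Nat.card {r : Fin n × β // PB nu (fun x y => x = k ∧ y < k ∧ A x y) w (k, a) r ∧
    Odd (Nat.card {r' : Fin n × β // wpar (PB nu (msk A k) w) j r r' ∧
      PB nu (fun x y => x < k ∧ y = k ∧ A x y) w r' (k, b)})})

theorem cwR_iff [Finite β] (hd : Dn nu) (k : Fin n) (j : ℕ) (a b : β) :
    cwR nu A w k j a b ↔
      (nu a ≤ nu b ∧ PowerSeries.coeff (nu b - nu a) (qcm (mxw A w) k j) = 1) := by
  classical
  have e1 : mxw (fun x y => x = k ∧ y < k ∧ A x y) w = rwm (mxw A w) k := by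
    ext x y : 2
    unfold mxw rwm
    simp only [Matrix.of_apply]
    by_cases h1 : x = k ∧ y < k <;> by_cases h2 : A x y <;> simp [← and_assoc, h1, h2]
  have e2 : mxw (msk A k) w = mkm (mxw A w) k := by
    ext x y : 2
    unfold mxw mkm msk
    simp only [Matrix.of_apply]
    by_cases h1 : x.val < k.val ∧ y.val < k.val <;> by_cases h2 : A x y <;>
      simp [← and_assoc, h1, h2]
  have e3 : mxw (fun x y => x < k ∧ y = k ∧ A x y) w = clm (mxw A w) k := by
    ext x y : 2
    unfold mxw clm
    simp only [Matrix.of_apply]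
    by_cases h1 : x < k ∧ y = k <;> by_cases h2 : A x y <;> simp [← and_assoc, h1, h2]
  have h := rep_mul hd (rep_pb (nu := nu) (fun x y => x = k ∧ y < k ∧ A x y) w)
    (rep_mul hd (rep_wpar hd (rep_pb (nu := nu) (msk A k) w) j)
      (rep_pb (nu := nu) (fun x y => x < k ∧ y = k ∧ A x y) w))
  rw [e1, e2, e3] at h
  exact h k a k b

theorem conv2 [Fintype β] (hd : Dn nu) (P Q : PowerSeries YS) (i N : ℕ) {a b : β}
    (hab : nu a ≤ nu b)
    (h : ∀ c, N ≤ c → c ≤ i → PowerSeries.coeff c P * PowerSeries.coeff (i - c) Q = 0) :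
    PowerSeries.coeff (nu b - nu a) (PowerSeries.coeff i (P * Q)) = 1 ↔
      Odd (Nat.card {s : Fin N × β // s.1.val ≤ i ∧ nu a ≤ nu s.2 ∧ nu s.2 ≤ nu b ∧
        PowerSeries.coeff (nu s.2 - nu a) (PowerSeries.coeff s.1.val P) = 1 ∧
        PowerSeries.coeff (nu b - nu s.2) (PowerSeries.coeff (i - s.1.val) Q) = 1}) := by
  classical
  have e1 : PowerSeries.coeff i (P * Q) = ∑ c : Fin N, if c.val ≤ i then
      PowerSeries.coeff c.val P * PowerSeries.coeff (i - c.val) Q else 0 := by
    rw [PowerSeries.coeff_mul, Finset.Nat.sum_antidiagonal_eq_sum_range_succ_mk,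
      Fin.sum_univ_eq_sum_range (fun c => if c ≤ i then
      PowerSeries.coeff c P * PowerSeries.coeff (i - c) Q else 0) N, ← Finset.sum_filter]
    symm
    apply Finset.sum_subset
    · intro c hc
      rw [Finset.mem_filter] at hc
      rw [Finset.mem_range]
      omega
    · intro c hc hn
      rw [Finset.mem_range] at hc
      apply h c _ (by omega)
      by_contra hcc
      apply hn
      rw [Finset.mem_filter, Finset.mem_range]
      omega
  have e2 : ∀ c : Fin N, PowerSeries.coeff (nu b - nu a) (if c.val ≤ i then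
      PowerSeries.coeff c.val P * PowerSeries.coeff (i - c.val) Q else 0) =
      ∑ d : β, (if c.val ≤ i ∧ nu a ≤ nu d ∧ nu d ≤ nu b then
        PowerSeries.coeff (nu d - nu a) (PowerSeries.coeff c.val P) *
        PowerSeries.coeff (nu b - nu d) (PowerSeries.coeff (i - c.val) Q) else 0) := by
    intro c
    by_cases hc : c.val ≤ i
    · simp only [hc, if_true, true_and]
      rw [PowerSeries.coeff_mul]
      exact (conv hd (fun x y => PowerSeries.coeff x (PowerSeries.coeff c.val P) *
        PowerSeries.coeff y (PowerSeries.coeff (i - c.val) Q)) hab).symm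
    · simp [hc]
  rw [e1, map_sum, Finset.sum_congr rfl fun c _ => e2 c, ← Fintype.sum_prod_type', sum_z2]
  refine iff_of_eq (congrArg Odd (Nat.card_congr (Equiv.subtypeEquivRight ?_)))
  rintro ⟨c, d⟩
  simp only
  rcases z2_cases (PowerSeries.coeff (nu d - nu a) (PowerSeries.coeff c.val P)) with h1 | h1 <;>
    rcases z2_cases (PowerSeries.coeff (nu b - nu d) (PowerSeries.coeff (i - c.val) Q))
      with h2 | h2 <;> simp [h1, h2]

/-- multiplication by the factor number `p.1` -/
def stW (nu : β → ℕ) (A : Fin n → Fin n → Prop) (w : Fin n → Fin n → ℕ)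
    (p q : Fin n × (Fin n × β)) : Prop :=
  IsSucc p.1 q.1 ∧ (p.2 = q.2 ∨ ∃ j j' : Fin n, IsSucc j j' ∧ P1 p.2.1 j' q.2.1 ∧
    cwR nu A w p.1 j.val p.2.2 q.2.2)

theorem z2_neg (a : ZMod 2) : -a = a := by
  revert a; decide

theorem stW_snd [Finite β] (hd : Dn nu) {k : Fin n} {m a i : Fin n} {c d : β}
    (hm : m.val = k.val + 1) :
    stW nu A w (k, (a, c)) (m, (i, d)) ↔
      (a.val ≤ i.val ∧ nu c ≤ nu d ∧
        PowerSeries.coeff (nu d - nu c)
          (PowerSeries.coeff (i.val - a.val) (fcG (mxw A w) k)) = 1) := by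
  unfold stW
  rw [isSucc_iff]
  simp only
  constructor
  · rintro ⟨_, h | ⟨j, j', h1, h2, h3⟩⟩
    · rw [Prod.mk.injEq] at h
      obtain ⟨rfl, rfl⟩ := h
      rw [Nat.sub_self, Nat.sub_self, coeff_fcG_zero]
      simp
    · rw [isSucc_iff] at h1
      unfold P1 at h2
      rw [cwR_iff hd] at h3
      refine ⟨by omega, h3.1, ?_⟩
      rw [show i.val - a.val = j.val + 2 by omega, coeff_fcG, map_neg, z2_neg]
      exact h3.2
  · rintro ⟨h0, h1, h2⟩
    refine ⟨hm, ?_⟩
    obtain ⟨t, ht⟩ : ∃ t, i.val - a.val = t := ⟨_, rfl⟩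
    rw [ht] at h2
    match t, ht, h2 with
    | 0, ht, h2 =>
      left
      rw [coeff_fcG_zero, PowerSeries.coeff_one] at h2
      rw [Prod.mk.injEq]
      refine ⟨Fin.ext (by omega), hd.inj ?_⟩
      by_contra hc
      rw [if_neg (by omega)] at h2
      exact absurd h2 (by decide)
    | 1, ht, h2 =>
      rw [coeff_fcG_one, map_zero] at h2
      exact absurd h2 (by decide)
    | t + 2, ht, h2 =>
      right
      rw [coeff_fcG, map_neg, z2_neg] at h2
      have hi := i.2
      refine ⟨⟨t, by omega⟩, ⟨t + 1, by omega⟩, isSucc_iff.2 rfl, ?_,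
        (cwR_iff hd _ _ _ _).2 ⟨h1, h2⟩⟩
      unfold P1
      simp only
      omega

/-- the coefficients of the determinants as walks -/
theorem coefW_wpar [Finite β] (hd : Dn nu) (h : ∀ x, ¬ A x x) {z : Fin n} (hz : z.val = 0)
    (o : β) (t : ℕ) : ∀ (m i : Fin n) (a : β),
    wpar (stW nu A w) t (z, (z, o)) (m, (i, a)) ↔
      (m.val = t ∧ nu o ≤ nu a ∧ PowerSeries.coeff (nu a - nu o)
        (PowerSeries.coeff i.val (psG (mkm (mxw A w) t)).det) = 1) := by
  classical
  haveI := Fintype.ofFinite β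
  have h0 : ∀ x, mxw A w x x = 0 := by
    intro x
    unfold mxw
    rw [Matrix.of_apply, if_neg (h x)]
  induction t with
  | zero =>
    intro m i a
    rw [psG_mkm_zero, Matrix.det_one, PowerSeries.coeff_one]
    unfold wpar
    rw [Prod.mk.injEq, Prod.mk.injEq, Fin.ext_iff, Fin.ext_iff, hz]
    constructor
    · rintro ⟨h1, h2, rfl⟩
      refine ⟨h1.symm, le_rfl, by rw [if_pos h2.symm]; simp⟩
    · rintro ⟨h1, h2, h3⟩
      have hi : i.val = 0 := by
        by_contra hc
        rw [if_neg hc, map_zero] at h3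
        exact absurd h3 (by decide)
      rw [if_pos hi, PowerSeries.coeff_one] at h3
      refine ⟨h1.symm, hi.symm, hd.inj ?_⟩
      by_contra hc
      rw [if_neg (by omega)] at h3
      exact absurd h3 (by decide)
  | succ t ih =>
    intro m i a
    unfold wpar
    by_cases hm : m.val = t + 1
    · have ht : t < n := by have := m.2; omega
      have hdt : (psG (mkm (mxw A w) (t + 1))).det =
          (psG (mkm (mxw A w) t)).det * fcG (mxw A w) ⟨t, ht⟩ := detG_succ h0 ⟨t, ht⟩
      by_cases hoa : nu o ≤ nu a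
      · rw [hdt, conv2 hd _ _ i.val n hoa (fun a h1 h2 => by have := i.2; omega)]
        simp only [hm, hoa, true_and]
        rw [Nat.card_congr (show {r : Fin n × (Fin n × β) //
            wpar (stW nu A w) t (z, (z, o)) r ∧ stW nu A w r (m, (i, a))} ≃
            {s : Fin n × β // s.1.val ≤ i.val ∧ nu o ≤ nu s.2 ∧ nu s.2 ≤ nu a ∧
            PowerSeries.coeff (nu s.2 - nu o)
              (PowerSeries.coeff s.1.val (psG (mkm (mxw A w) t)).det) = 1 ∧
            PowerSeries.coeff (nu a - nu s.2) (PowerSeries.coeff (i.val - s.1.val)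
              (fcG (mxw A w) ⟨t, ht⟩)) = 1} from
          { toFun := fun r => ⟨r.1.2, by
              obtain ⟨⟨k, b, c⟩, h1, h2⟩ := r
              rw [ih] at h1
              have hk : k = ⟨t, ht⟩ := Fin.ext h1.1
              subst hk
              have h3 := (stW_snd hd hm).1 h2
              exact ⟨h3.1, h1.2.1, h3.2.1, h1.2.2, h3.2.2⟩⟩
            invFun := fun s => ⟨(⟨t, ht⟩, s.1), by
              obtain ⟨⟨b, c⟩, h1, h2, h3, h4, h5⟩ := s
              exact ⟨(ih _ _ _).2 ⟨rfl, h2, h4⟩, (stW_snd hd hm).2 ⟨h1, h3, h5⟩⟩⟩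
            left_inv := by
              rintro ⟨⟨k, b, c⟩, h1, h2⟩
              rw [ih] at h1
              have hk : k = ⟨t, ht⟩ := Fin.ext h1.1
              subst hk
              rfl
            right_inv := fun a => rfl })]
      · simp only [hoa, false_and, and_false, iff_false]
        have : IsEmpty {r : Fin n × (Fin n × β) // wpar (stW nu A w) t (z, (z, o)) r ∧
            stW nu A w r (m, (i, a))} := by
          constructor
          rintro ⟨⟨k, b, c⟩, h1, h2⟩
          rw [ih] at h1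
          have hk : k = ⟨t, ht⟩ := Fin.ext h1.1
          subst hk
          exact hoa (h1.2.1.trans ((stW_snd hd hm).1 h2).2.1)
        rw [Nat.card_of_isEmpty]
        decide
    · constructor
      · intro hodd
        exfalso
        have : IsEmpty {r : Fin n × (Fin n × β) // wpar (stW nu A w) t (z, (z, o)) r ∧
            stW nu A w r (m, (i, a))} := by
          constructor
          rintro ⟨⟨k, b, c⟩, h1, h2⟩
          rw [ih] at h1
          have h3 := isSucc_iff.1 h2.1
          simp only at h3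
          omega
        rw [Nat.card_of_isEmpty] at hodd
        exact absurd hodd (by decide)
      · rintro ⟨h1, _⟩
        exact absurd h1 hm

/-- the coefficient of the determinant at `nu a` is one -/
def dtW (nu : β → ℕ) (A : Fin n → Fin n → Prop) (w : Fin n → Fin n → ℕ) (a : β) : Prop :=
  ∃ (z L : Fin n) (o : β), IsZero z ∧ (∀ y, y ≤ L) ∧ nu o = 0 ∧
    Odd (Nat.card {s : Fin n × β // ∃ j : Fin n, P1 s.1 j L ∧ cwR nu A w L j.val s.2 a ∧
      wpar (stW nu A w) L.val (z, (z, o)) (L, (s.1, s.2))})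

end main

theorem dtW_iff {N : ℕ} {β : Type*} [Finite β] {nu : β → ℕ} (hd : Dn nu)
    {A : Fin (N + 1) → Fin (N + 1) → Prop} {w : Fin (N + 1) → Fin (N + 1) → ℕ}
    (h : ∀ x, ¬ A x x) (a : β) :
    dtW nu A w a ↔ PowerSeries.coeff (nu a) (mxw A w).det = 1 := by
  classical
  haveI := Fintype.ofFinite β
  obtain ⟨o, ho⟩ := hd.down a 0 (Nat.zero_le _)
  have h0 : ∀ x, mxw A w x x = 0 := by
    intro x
    unfold mxw
    rw [Matrix.of_apply, if_neg (h x)]
  have hL : dtW nu A w a ↔ Odd (Nat.card {s : Fin (N + 1) × β // ∃ j : Fin (N + 1),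
      P1 s.1 j (Fin.last N) ∧ cwR nu A w (Fin.last N) j.val s.2 a ∧
      wpar (stW nu A w) N (0, (0, o)) (Fin.last N, (s.1, s.2))}) := by
    unfold dtW
    constructor
    · rintro ⟨z, L, o', h1, h2, h3, h4⟩
      have e1 : z = 0 := Fin.ext (isZero_iff.1 h1)
      have e2 : L = Fin.last N := le_antisymm (Fin.le_last L) (h2 _)
      have e3 : o' = o := hd.inj (h3.trans ho.symm)
      subst e1 e2 e3
      exact h4
    · intro h3
      exact ⟨0, Fin.last N, o, isZero_iff.2 rfl, fun y => Fin.le_last y, ho, h3⟩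
  rw [hL]
  have e1 : mxw A w = mkm (mxw A w) (N + 1) := by
    ext x y : 2
    unfold mkm
    rw [Matrix.of_apply, if_pos ⟨x.2, y.2⟩]
  have e2 : (psG (mkm (mxw A w) (N + 1))).det =
        (psG (mkm (mxw A w) N)).det * fcG (mxw A w) (Fin.last N) := detG_succ h0 (Fin.last N)
  have neg : (-1 : YS) = 1 := by
    ext i
    rw [map_neg, z2_neg]
  have e3 := coeff_psG_det (mkm (mxw A w) (N + 1))
  rw [Fintype.card_fin, neg, one_pow, one_mul] at e3
  have e4 := coeff_psG_det (mkm (mxw A w) N)
  rw [Fintype.card_fin, neg, one_pow, one_mul] at e4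
  have e5 : (mkm (mxw A w) N).det = 0 :=
    Matrix.det_eq_zero_of_row_eq_zero (Fin.last N) (fun y => mkm_row (M := mxw A w) (Fin.last N) y)
  rw [e5] at e4
  have hoa : nu o ≤ nu a := by omega
  have key := conv2 hd (psG (mkm (mxw A w) N)).det (fcG (mxw A w) (Fin.last N)) (N + 1) (N + 1)
    hoa (fun a h1 h2 => by
      have : a = N + 1 := le_antisymm h2 h1
      rw [this, e4, zero_mul])
  rw [← e2, e3, ← e1, ho, Nat.sub_zero] at key
  rw [key]
  refine iff_of_eq (congrArg Odd (Nat.card_congr (Equiv.subtypeEquivRight ?_)))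
  rintro ⟨i, c⟩
  simp only
  constructor
  · rintro ⟨j, h1, h2, h3⟩
    rw [coefW_wpar hd h rfl] at h3
    rw [cwR_iff hd] at h2
    unfold P1 at h1
    rw [Fin.val_last] at h1
    rw [ho] at h3
    refine ⟨by omega, Nat.zero_le _, h2.1, h3.2.2, ?_⟩
    rw [show N + 1 - i.val = j.val + 2 by omega, coeff_fcG, map_neg, z2_neg]
    exact h2.2
  · rintro ⟨h1, h2, h3, h4, h5⟩
    obtain ⟨t, ht⟩ : ∃ t, N + 1 - i.val = t := ⟨_, rfl⟩
    rw [ht] at h5
    match t, ht, h5 with
    | 0, ht, h5 => have := i.2; omega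
    | 1, ht, h5 =>
      rw [coeff_fcG_one, map_zero] at h5
      exact absurd h5 (by decide)
    | t + 2, ht, h5 =>
      rw [coeff_fcG, map_neg, z2_neg] at h5
      refine ⟨⟨t, by omega⟩, ?_, (cwR_iff hd _ _ _ _).2 ⟨h3, h5⟩,
        (coefW_wpar hd h rfl _ _ _ _ _).2 ⟨Fin.val_last N, by omega, ?_⟩⟩
      · unfold P1
        rw [Fin.val_last]
        simp only
        omega
      · rw [ho]
        exact h4

end Pool.Agent.PMNC
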