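import Mathlib
import Pool.Agent.Lib.MP_0087d5_lc.WDetB

set_option autoImplicit false
set_option linter.all false

/-!
# Weighted determinants over `ZMod 2` are definable, second part
-/

namespace Pool.Agent.PMNC

section def_
variable {E S : ℕ → Type} [Env E] [Env S]
  {A : ∀ n : ℕ, SimpleGraph (Fin n) → Ctx n → E n → Fin n → Fin n → Prop}
  {w : ∀ n : ℕ, SimpleGraph (Fin n) → E n → Fin n → Fin n → ℕ}

theorem DefP.pb (hA : DefP (E := fun n => E n × (Fin n × Fin n))
      (fun n G X y => A n G X y.1 y.2.1 y.2.2))
    (hw : DefP (E := fun n => E n × ((Fin n × Fin n) × S n))
      (fun n G X y => w n G y.1 y.2.1.1 y.2.1.2 = nv y.2.2))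
    {p q : ∀ n : ℕ, E n → Fin n × S n} (hp : Tm (F := fun n => Fin n × S n) p)
    (hq : Tm (F := fun n => Fin n × S n) q) :
    DefP (fun n G X x => PB nv (A n G X x) (w n G x) (p n x) (q n x)) := by
  have key : DefP (E := fun n => E n × ((Fin n × S n) × (Fin n × S n)))
      (fun n G X y => PB nv (A n G X y.1) (w n G y.1) y.2.1 y.2.2) := by
    refine DefP.congr (P := fun n G X y => A n G X y.1 y.2.1.1 y.2.2.1 ∧ ∃ c : S n,
      w n G y.1 y.2.1.1 y.2.2.1 = nv c ∧ nv y.2.1.2 + nv c = nv y.2.2.2) ?_ ?_
    · refine DefP.and ?_ (DefP.ex (DefP.and ?_ ?_))
      · exact DefP.comp (F := fun n => E n × (Fin n × Fin n))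
          (f := fun n (y : E n × ((Fin n × S n) × (Fin n × S n))) => (y.1, (y.2.1.1, y.2.2.1)))
          hA (by (repeat' (first
              | apply DefP.nOne | apply DefP.nZero | apply DefP.nSucc | apply DefP.nAdd
              | apply DefP.nLt | apply DefP.nLe | apply DefP.nEq | apply DefP.hlf
              | apply DefP.p1le | apply DefP.p1 | apply DefP.p0 | apply DefP.aug
              | apply DefP.pth | apply DefP.nx | apply DefP.cnd | apply DefP.hmin
              | apply DefP.hit | apply DefP.cdn | apply DefP.firstEx | apply DefP.exN
              | apply DefP.end_ | apply DefP.isZero | apply DefP.isSucc | apply DefP.alt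
              | apply DefP.exr | apply DefP.exl | apply DefP.side | apply DefP.oddCard
              | apply DefP.cardEq | apply DefP.cardLt | apply DefP.cardLe | apply DefP.lst
              | apply DefP.fst | apply DefP.nxt | apply DefP.keyLe | apply DefP.keyLt
              | apply DefP.rtc | (apply DefP.app4; assumption) | (apply DefP.app3'; assumption)
              | (apply DefP.app3; assumption) | (apply DefP.app2; assumption)
              | (apply DefP.comp; assumption) | exact Tm.id | exact Tm.unit | apply Tm.fst
              | apply Tm.snd | apply Tm.app | exact DefP.const _ | apply DefP.and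
              | apply DefP.not | apply DefP.or | apply DefP.iff | apply DefP.adj | apply DefP.le
              | apply DefP.lt | apply DefP.eqFin | apply DefP.eq | apply DefP.rv
              | apply DefP.imp | apply DefP.allFin | apply DefP.exFin | apply DefP.all
              | apply DefP.ex | assumption | (apply Tm.comp; assumption) | apply Tm.pair
              | apply Tm.lam)))
      · exact DefP.comp (F := fun n => E n × ((Fin n × Fin n) × S n))
          (f := fun n (y : (E n × ((Fin n × S n) × (Fin n × S n))) × S n) =>
            (y.1.1, ((y.1.2.1.1, y.1.2.2.1), y.2))) hw (by (repeat' (first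
                | apply DefP.nOne | apply DefP.nZero | apply DefP.nSucc | apply DefP.nAdd
                | apply DefP.nLt | apply DefP.nLe | apply DefP.nEq | apply DefP.hlf
                | apply DefP.p1le | apply DefP.p1 | apply DefP.p0 | apply DefP.aug
                | apply DefP.pth | apply DefP.nx | apply DefP.cnd | apply DefP.hmin
                | apply DefP.hit | apply DefP.cdn | apply DefP.firstEx | apply DefP.exN
                | apply DefP.end_ | apply DefP.isZero | apply DefP.isSucc | apply DefP.alt
                | apply DefP.exr | apply DefP.exl | apply DefP.side | apply DefP.oddCard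
                | apply DefP.cardEq | apply DefP.cardLt | apply DefP.cardLe | apply DefP.lst
                | apply DefP.fst | apply DefP.nxt | apply DefP.keyLe | apply DefP.keyLt
                | apply DefP.rtc | (apply DefP.app4; assumption)
                | (apply DefP.app3'; assumption) | (apply DefP.app3; assumption)
                | (apply DefP.app2; assumption) | (apply DefP.comp; assumption) | exact Tm.id
                | exact Tm.unit | apply Tm.fst | apply Tm.snd | apply Tm.app
                | exact DefP.const _ | apply DefP.and | apply DefP.not | apply DefP.or
                | apply DefP.iff | apply DefP.adj | apply DefP.le | apply DefP.lt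
                | apply DefP.eqFin | apply DefP.eq | apply DefP.rv | apply DefP.imp
                | apply DefP.allFin | apply DefP.exFin | apply DefP.all | apply DefP.ex
                | assumption | (apply Tm.comp; assumption) | apply Tm.pair | apply Tm.lam)))
      · (repeat' (first
          | apply DefP.nOne | apply DefP.nZero | apply DefP.nSucc | apply DefP.nAdd
          | apply DefP.nLt | apply DefP.nLe | apply DefP.nEq | apply DefP.hlf | apply DefP.p1le
          | apply DefP.p1 | apply DefP.p0 | apply DefP.aug | apply DefP.pth | apply DefP.nx
          | apply DefP.cnd | apply DefP.hmin | apply DefP.hit | apply DefP.cdn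
          | apply DefP.firstEx | apply DefP.exN | apply DefP.end_ | apply DefP.isZero
          | apply DefP.isSucc | apply DefP.alt | apply DefP.exr | apply DefP.exl
          | apply DefP.side | apply DefP.oddCard | apply DefP.cardEq | apply DefP.cardLt
          | apply DefP.cardLe | apply DefP.lst | apply DefP.fst | apply DefP.nxt
          | apply DefP.keyLe | apply DefP.keyLt | apply DefP.rtc | (apply DefP.app4; assumption)
          | (apply DefP.app3'; assumption) | (apply DefP.app3; assumption)
          | (apply DefP.app2; assumption) | (apply DefP.comp; assumption) | exact Tm.id
          | exact Tm.unit | apply Tm.fst | apply Tm.snd | apply Tm.app | exact DefP.const _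
          | apply DefP.and | apply DefP.not | apply DefP.or | apply DefP.iff | apply DefP.adj
          | apply DefP.le | apply DefP.lt | apply DefP.eqFin | apply DefP.eq | apply DefP.rv
          | apply DefP.imp | apply DefP.allFin | apply DefP.exFin | apply DefP.all
          | apply DefP.ex | assumption | (apply Tm.comp; assumption) | apply Tm.pair
          | apply Tm.lam))
    · intro n G X y
      unfold PB
      constructor
      · rintro ⟨h1, c, h2, h3⟩
        exact ⟨h1, by rw [h2]; exact h3⟩
      · rintro ⟨h1, h2⟩
        obtain ⟨c, hc⟩ := nv_down' (b := y.2.2.2) (m := w n G y.1 y.2.1.1 y.2.2.1) (by omega)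
        exact ⟨h1, c, hc.symm, by rw [hc]; exact h2⟩
  exact DefP.app3 (H := fun n => Fin n × S n) (K := fun n => Fin n × S n)
    (P := fun n G X x p q => PB nv (A n G X x) (w n G x) p q) key Tm.id hp hq

theorem DefP.cwR (hA : DefP (E := fun n => E n × (Fin n × Fin n))
      (fun n G X y => A n G X y.1 y.2.1 y.2.2))
    (hw : DefP (E := fun n => E n × ((Fin n × Fin n) × S n))
      (fun n G X y => w n G y.1 y.2.1.1 y.2.1.2 = nv y.2.2))
    {k j : ∀ n : ℕ, E n → Fin n} {a b : ∀ n : ℕ, E n → S n} (hk : Tm (F := fun n => Fin n) k)
    (hj : Tm (F := fun n => Fin n) j) (ha : Tm a) (hb : Tm b) :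
    DefP (fun n G X x => PMNC.cwR nv (A n G X x) (w n G x) (k n x) (j n x).val (a n x) (b n x)) := by
  have key : DefP (E := fun n => E n × ((Fin n × Fin n) × (S n × S n)))
      (fun n G X y => PMNC.cwR nv (A n G X y.1) (w n G y.1) y.2.1.1 y.2.1.2.val y.2.2.1 y.2.2.2) := by
    unfold PMNC.cwR
    refine DefP.oddCard (S := fun n => Fin n × S n) (DefP.and ?_
      (DefP.oddCard (S := fun n => Fin n × S n) (DefP.and ?_ ?_)))
    · refine DefP.pb (A := fun n G X (y : (E n × ((Fin n × Fin n) × (S n × S n))) × (Fin n × S n))
        u v => u = y.1.2.1.1 ∧ v < y.1.2.1.1 ∧ A n G X y.1.1 u v)
        (w := fun n G y => w n G y.1.1) ?_ ?_ ?_ ?_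
      · refine DefP.and ?_ (DefP.and ?_ ?_)
        · (repeat' (first
            | apply DefP.nOne | apply DefP.nZero | apply DefP.nSucc | apply DefP.nAdd
            | apply DefP.nLt | apply DefP.nLe | apply DefP.nEq | apply DefP.hlf
            | apply DefP.p1le | apply DefP.p1 | apply DefP.p0 | apply DefP.aug | apply DefP.pth
            | apply DefP.nx | apply DefP.cnd | apply DefP.hmin | apply DefP.hit | apply DefP.cdn
            | apply DefP.firstEx | apply DefP.exN | apply DefP.end_ | apply DefP.isZero
            | apply DefP.isSucc | apply DefP.alt | apply DefP.exr | apply DefP.exl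
            | apply DefP.side | apply DefP.oddCard | apply DefP.cardEq | apply DefP.cardLt
            | apply DefP.cardLe | apply DefP.lst | apply DefP.fst | apply DefP.nxt
            | apply DefP.keyLe | apply DefP.keyLt | apply DefP.rtc
            | (apply DefP.app4; assumption) | (apply DefP.app3'; assumption)
            | (apply DefP.app3; assumption) | (apply DefP.app2; assumption)
            | (apply DefP.comp; assumption) | exact Tm.id | exact Tm.unit | apply Tm.fst
            | apply Tm.snd | apply Tm.app | exact DefP.const _ | apply DefP.and | apply DefP.not
            | apply DefP.or | apply DefP.iff | apply DefP.adj | apply DefP.le | apply DefP.lt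
            | apply DefP.eqFin | apply DefP.eq | apply DefP.rv | apply DefP.imp
            | apply DefP.allFin | apply DefP.exFin | apply DefP.all | apply DefP.ex | assumption
            | (apply Tm.comp; assumption) | apply Tm.pair | apply Tm.lam))
        · (repeat' (first
            | apply DefP.nOne | apply DefP.nZero | apply DefP.nSucc | apply DefP.nAdd
            | apply DefP.nLt | apply DefP.nLe | apply DefP.nEq | apply DefP.hlf
            | apply DefP.p1le | apply DefP.p1 | apply DefP.p0 | apply DefP.aug | apply DefP.pth
            | apply DefP.nx | apply DefP.cnd | apply DefP.hmin | apply DefP.hit | apply DefP.cdn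
            | apply DefP.firstEx | apply DefP.exN | apply DefP.end_ | apply DefP.isZero
            | apply DefP.isSucc | apply DefP.alt | apply DefP.exr | apply DefP.exl
            | apply DefP.side | apply DefP.oddCard | apply DefP.cardEq | apply DefP.cardLt
            | apply DefP.cardLe | apply DefP.lst | apply DefP.fst | apply DefP.nxt
            | apply DefP.keyLe | apply DefP.keyLt | apply DefP.rtc
            | (apply DefP.app4; assumption) | (apply DefP.app3'; assumption)
            | (apply DefP.app3; assumption) | (apply DefP.app2; assumption)
            | (apply DefP.comp; assumption) | exact Tm.id | exact Tm.unit | apply Tm.fst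
            | apply Tm.snd | apply Tm.app | exact DefP.const _ | apply DefP.and | apply DefP.not
            | apply DefP.or | apply DefP.iff | apply DefP.adj | apply DefP.le | apply DefP.lt
            | apply DefP.eqFin | apply DefP.eq | apply DefP.rv | apply DefP.imp
            | apply DefP.allFin | apply DefP.exFin | apply DefP.all | apply DefP.ex | assumption
            | (apply Tm.comp; assumption) | apply Tm.pair | apply Tm.lam))
        · exact DefP.comp (F := fun n => E n × (Fin n × Fin n)) (E := fun n => ((E n × ((Fin n × Fin n) × (S n × S n))) × (Fin n × S n)) × (Fin n × Fin n))
            (f := fun n y => (y.1.1.1, y.2)) hA (by (repeat' (first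
                | apply DefP.nOne | apply DefP.nZero | apply DefP.nSucc | apply DefP.nAdd
                | apply DefP.nLt | apply DefP.nLe | apply DefP.nEq | apply DefP.hlf
                | apply DefP.p1le | apply DefP.p1 | apply DefP.p0 | apply DefP.aug
                | apply DefP.pth | apply DefP.nx | apply DefP.cnd | apply DefP.hmin
                | apply DefP.hit | apply DefP.cdn | apply DefP.firstEx | apply DefP.exN
                | apply DefP.end_ | apply DefP.isZero | apply DefP.isSucc | apply DefP.alt
                | apply DefP.exr | apply DefP.exl | apply DefP.side | apply DefP.oddCard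
                | apply DefP.cardEq | apply DefP.cardLt | apply DefP.cardLe | apply DefP.lst
                | apply DefP.fst | apply DefP.nxt | apply DefP.keyLe | apply DefP.keyLt
                | apply DefP.rtc | (apply DefP.app4; assumption)
                | (apply DefP.app3'; assumption) | (apply DefP.app3; assumption)
                | (apply DefP.app2; assumption) | (apply DefP.comp; assumption) | exact Tm.id
                | exact Tm.unit | apply Tm.fst | apply Tm.snd | apply Tm.app
                | exact DefP.const _ | apply DefP.and | apply DefP.not | apply DefP.or
                | apply DefP.iff | apply DefP.adj | apply DefP.le | apply DefP.lt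
                | apply DefP.eqFin | apply DefP.eq | apply DefP.rv | apply DefP.imp
                | apply DefP.allFin | apply DefP.exFin | apply DefP.all | apply DefP.ex
                | assumption | (apply Tm.comp; assumption) | apply Tm.pair | apply Tm.lam)))
      · exact DefP.comp (F := fun n => E n × ((Fin n × Fin n) × S n))
          (E := fun n => ((E n × ((Fin n × Fin n) × (S n × S n))) × (Fin n × S n)) × ((Fin n × Fin n) × S n))
          (f := fun n y => (y.1.1.1, y.2)) hw (by (repeat' (first
              | apply DefP.nOne | apply DefP.nZero | apply DefP.nSucc | apply DefP.nAdd
              | apply DefP.nLt | apply DefP.nLe | apply DefP.nEq | apply DefP.hlf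
              | apply DefP.p1le | apply DefP.p1 | apply DefP.p0 | apply DefP.aug
              | apply DefP.pth | apply DefP.nx | apply DefP.cnd | apply DefP.hmin
              | apply DefP.hit | apply DefP.cdn | apply DefP.firstEx | apply DefP.exN
              | apply DefP.end_ | apply DefP.isZero | apply DefP.isSucc | apply DefP.alt
              | apply DefP.exr | apply DefP.exl | apply DefP.side | apply DefP.oddCard
              | apply DefP.cardEq | apply DefP.cardLt | apply DefP.cardLe | apply DefP.lst
              | apply DefP.fst | apply DefP.nxt | apply DefP.keyLe | apply DefP.keyLt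
              | apply DefP.rtc | (apply DefP.app4; assumption) | (apply DefP.app3'; assumption)
              | (apply DefP.app3; assumption) | (apply DefP.app2; assumption)
              | (apply DefP.comp; assumption) | exact Tm.id | exact Tm.unit | apply Tm.fst
              | apply Tm.snd | apply Tm.app | exact DefP.const _ | apply DefP.and
              | apply DefP.not | apply DefP.or | apply DefP.iff | apply DefP.adj | apply DefP.le
              | apply DefP.lt | apply DefP.eqFin | apply DefP.eq | apply DefP.rv
              | apply DefP.imp | apply DefP.allFin | apply DefP.exFin | apply DefP.all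
              | apply DefP.ex | assumption | (apply Tm.comp; assumption) | apply Tm.pair
              | apply Tm.lam)))
      · (repeat' (first
          | apply DefP.nOne | apply DefP.nZero | apply DefP.nSucc | apply DefP.nAdd
          | apply DefP.nLt | apply DefP.nLe | apply DefP.nEq | apply DefP.hlf | apply DefP.p1le
          | apply DefP.p1 | apply DefP.p0 | apply DefP.aug | apply DefP.pth | apply DefP.nx
          | apply DefP.cnd | apply DefP.hmin | apply DefP.hit | apply DefP.cdn
          | apply DefP.firstEx | apply DefP.exN | apply DefP.end_ | apply DefP.isZero
          | apply DefP.isSucc | apply DefP.alt | apply DefP.exr | apply DefP.exl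
          | apply DefP.side | apply DefP.oddCard | apply DefP.cardEq | apply DefP.cardLt
          | apply DefP.cardLe | apply DefP.lst | apply DefP.fst | apply DefP.nxt
          | apply DefP.keyLe | apply DefP.keyLt | apply DefP.rtc | (apply DefP.app4; assumption)
          | (apply DefP.app3'; assumption) | (apply DefP.app3; assumption)
          | (apply DefP.app2; assumption) | (apply DefP.comp; assumption) | exact Tm.id
          | exact Tm.unit | apply Tm.fst | apply Tm.snd | apply Tm.app | exact DefP.const _
          | apply DefP.and | apply DefP.not | apply DefP.or | apply DefP.iff | apply DefP.adj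
          | apply DefP.le | apply DefP.lt | apply DefP.eqFin | apply DefP.eq | apply DefP.rv
          | apply DefP.imp | apply DefP.allFin | apply DefP.exFin | apply DefP.all
          | apply DefP.ex | assumption | (apply Tm.comp; assumption) | apply Tm.pair
          | apply Tm.lam))
      · (repeat' (first
          | apply DefP.nOne | apply DefP.nZero | apply DefP.nSucc | apply DefP.nAdd
          | apply DefP.nLt | apply DefP.nLe | apply DefP.nEq | apply DefP.hlf | apply DefP.p1le
          | apply DefP.p1 | apply DefP.p0 | apply DefP.aug | apply DefP.pth | apply DefP.nx
          | apply DefP.cnd | apply DefP.hmin | apply DefP.hit | apply DefP.cdn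
          | apply DefP.firstEx | apply DefP.exN | apply DefP.end_ | apply DefP.isZero
          | apply DefP.isSucc | apply DefP.alt | apply DefP.exr | apply DefP.exl
          | apply DefP.side | apply DefP.oddCard | apply DefP.cardEq | apply DefP.cardLt
          | apply DefP.cardLe | apply DefP.lst | apply DefP.fst | apply DefP.nxt
          | apply DefP.keyLe | apply DefP.keyLt | apply DefP.rtc | (apply DefP.app4; assumption)
          | (apply DefP.app3'; assumption) | (apply DefP.app3; assumption)
          | (apply DefP.app2; assumption) | (apply DefP.comp; assumption) | exact Tm.id
          | exact Tm.unit | apply Tm.fst | apply Tm.snd | apply Tm.app | exact DefP.const _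
          | apply DefP.and | apply DefP.not | apply DefP.or | apply DefP.iff | apply DefP.adj
          | apply DefP.le | apply DefP.lt | apply DefP.eqFin | apply DefP.eq | apply DefP.rv
          | apply DefP.imp | apply DefP.allFin | apply DefP.exFin | apply DefP.all
          | apply DefP.ex | assumption | (apply Tm.comp; assumption) | apply Tm.pair
          | apply Tm.lam))
    · refine DefP.wpar (T := fun n => Fin n × S n) (B := fun n G X (y : ((E n × ((Fin n × Fin n) × (S n × S n))) × (Fin n × S n)) × (Fin n × S n)) =>
        PB nv (msk (A n G X y.1.1.1) y.1.1.2.1.1) (w n G y.1.1.1)) ?_ ?_ ?_ ?_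
      · refine DefP.pb (A := fun n G X (y : (((E n × ((Fin n × Fin n) × (S n × S n))) × (Fin n × S n)) × (Fin n × S n)) × ((Fin n × S n) × (Fin n × S n))) u v => u < y.1.1.1.2.1.1 ∧
          v < y.1.1.1.2.1.1 ∧ A n G X y.1.1.1.1 u v) (w := fun n G y => w n G y.1.1.1.1) ?_ ?_ ?_ ?_
        · refine DefP.and ?_ (DefP.and ?_ ?_)
          · (repeat' (first
              | apply DefP.nOne | apply DefP.nZero | apply DefP.nSucc | apply DefP.nAdd
              | apply DefP.nLt | apply DefP.nLe | apply DefP.nEq | apply DefP.hlf
              | apply DefP.p1le | apply DefP.p1 | apply DefP.p0 | apply DefP.aug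
              | apply DefP.pth | apply DefP.nx | apply DefP.cnd | apply DefP.hmin
              | apply DefP.hit | apply DefP.cdn | apply DefP.firstEx | apply DefP.exN
              | apply DefP.end_ | apply DefP.isZero | apply DefP.isSucc | apply DefP.alt
              | apply DefP.exr | apply DefP.exl | apply DefP.side | apply DefP.oddCard
              | apply DefP.cardEq | apply DefP.cardLt | apply DefP.cardLe | apply DefP.lst
              | apply DefP.fst | apply DefP.nxt | apply DefP.keyLe | apply DefP.keyLt
              | apply DefP.rtc | (apply DefP.app4; assumption) | (apply DefP.app3'; assumption)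
              | (apply DefP.app3; assumption) | (apply DefP.app2; assumption)
              | (apply DefP.comp; assumption) | exact Tm.id | exact Tm.unit | apply Tm.fst
              | apply Tm.snd | apply Tm.app | exact DefP.const _ | apply DefP.and
              | apply DefP.not | apply DefP.or | apply DefP.iff | apply DefP.adj | apply DefP.le
              | apply DefP.lt | apply DefP.eqFin | apply DefP.eq | apply DefP.rv
              | apply DefP.imp | apply DefP.allFin | apply DefP.exFin | apply DefP.all
              | apply DefP.ex | assumption | (apply Tm.comp; assumption) | apply Tm.pair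
              | apply Tm.lam))
          · (repeat' (first
              | apply DefP.nOne | apply DefP.nZero | apply DefP.nSucc | apply DefP.nAdd
              | apply DefP.nLt | apply DefP.nLe | apply DefP.nEq | apply DefP.hlf
              | apply DefP.p1le | apply DefP.p1 | apply DefP.p0 | apply DefP.aug
              | apply DefP.pth | apply DefP.nx | apply DefP.cnd | apply DefP.hmin
              | apply DefP.hit | apply DefP.cdn | apply DefP.firstEx | apply DefP.exN
              | apply DefP.end_ | apply DefP.isZero | apply DefP.isSucc | apply DefP.alt
              | apply DefP.exr | apply DefP.exl | apply DefP.side | apply DefP.oddCard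
              | apply DefP.cardEq | apply DefP.cardLt | apply DefP.cardLe | apply DefP.lst
              | apply DefP.fst | apply DefP.nxt | apply DefP.keyLe | apply DefP.keyLt
              | apply DefP.rtc | (apply DefP.app4; assumption) | (apply DefP.app3'; assumption)
              | (apply DefP.app3; assumption) | (apply DefP.app2; assumption)
              | (apply DefP.comp; assumption) | exact Tm.id | exact Tm.unit | apply Tm.fst
              | apply Tm.snd | apply Tm.app | exact DefP.const _ | apply DefP.and
              | apply DefP.not | apply DefP.or | apply DefP.iff | apply DefP.adj | apply DefP.le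
              | apply DefP.lt | apply DefP.eqFin | apply DefP.eq | apply DefP.rv
              | apply DefP.imp | apply DefP.allFin | apply DefP.exFin | apply DefP.all
              | apply DefP.ex | assumption | (apply Tm.comp; assumption) | apply Tm.pair
              | apply Tm.lam))
          · exact DefP.comp (F := fun n => E n × (Fin n × Fin n)) (E := fun n => ((((E n × ((Fin n × Fin n) × (S n × S n))) × (Fin n × S n)) × (Fin n × S n)) × ((Fin n × S n) × (Fin n × S n))) × (Fin n × Fin n))
              (f := fun n y => (y.1.1.1.1.1, y.2)) hA (by (repeat' (first
                  | apply DefP.nOne | apply DefP.nZero | apply DefP.nSucc | apply DefP.nAdd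
                  | apply DefP.nLt | apply DefP.nLe | apply DefP.nEq | apply DefP.hlf
                  | apply DefP.p1le | apply DefP.p1 | apply DefP.p0 | apply DefP.aug
                  | apply DefP.pth | apply DefP.nx | apply DefP.cnd | apply DefP.hmin
                  | apply DefP.hit | apply DefP.cdn | apply DefP.firstEx | apply DefP.exN
                  | apply DefP.end_ | apply DefP.isZero | apply DefP.isSucc | apply DefP.alt
                  | apply DefP.exr | apply DefP.exl | apply DefP.side | apply DefP.oddCard
                  | apply DefP.cardEq | apply DefP.cardLt | apply DefP.cardLe | apply DefP.lst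
                  | apply DefP.fst | apply DefP.nxt | apply DefP.keyLe | apply DefP.keyLt
                  | apply DefP.rtc | (apply DefP.app4; assumption)
                  | (apply DefP.app3'; assumption) | (apply DefP.app3; assumption)
                  | (apply DefP.app2; assumption) | (apply DefP.comp; assumption) | exact Tm.id
                  | exact Tm.unit | apply Tm.fst | apply Tm.snd | apply Tm.app
                  | exact DefP.const _ | apply DefP.and | apply DefP.not | apply DefP.or
                  | apply DefP.iff | apply DefP.adj | apply DefP.le | apply DefP.lt
                  | apply DefP.eqFin | apply DefP.eq | apply DefP.rv | apply DefP.imp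
                  | apply DefP.allFin | apply DefP.exFin | apply DefP.all | apply DefP.ex
                  | assumption | (apply Tm.comp; assumption) | apply Tm.pair | apply Tm.lam)))
        · exact DefP.comp (F := fun n => E n × ((Fin n × Fin n) × S n))
            (E := fun n => ((((E n × ((Fin n × Fin n) × (S n × S n))) × (Fin n × S n)) × (Fin n × S n)) × ((Fin n × S n) × (Fin n × S n))) × ((Fin n × Fin n) × S n))
            (f := fun n y => (y.1.1.1.1.1, y.2)) hw (by (repeat' (first
                | apply DefP.nOne | apply DefP.nZero | apply DefP.nSucc | apply DefP.nAdd
                | apply DefP.nLt | apply DefP.nLe | apply DefP.nEq | apply DefP.hlf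
                | apply DefP.p1le | apply DefP.p1 | apply DefP.p0 | apply DefP.aug
                | apply DefP.pth | apply DefP.nx | apply DefP.cnd | apply DefP.hmin
                | apply DefP.hit | apply DefP.cdn | apply DefP.firstEx | apply DefP.exN
                | apply DefP.end_ | apply DefP.isZero | apply DefP.isSucc | apply DefP.alt
                | apply DefP.exr | apply DefP.exl | apply DefP.side | apply DefP.oddCard
                | apply DefP.cardEq | apply DefP.cardLt | apply DefP.cardLe | apply DefP.lst
                | apply DefP.fst | apply DefP.nxt | apply DefP.keyLe | apply DefP.keyLt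
                | apply DefP.rtc | (apply DefP.app4; assumption)
                | (apply DefP.app3'; assumption) | (apply DefP.app3; assumption)
                | (apply DefP.app2; assumption) | (apply DefP.comp; assumption) | exact Tm.id
                | exact Tm.unit | apply Tm.fst | apply Tm.snd | apply Tm.app
                | exact DefP.const _ | apply DefP.and | apply DefP.not | apply DefP.or
                | apply DefP.iff | apply DefP.adj | apply DefP.le | apply DefP.lt
                | apply DefP.eqFin | apply DefP.eq | apply DefP.rv | apply DefP.imp
                | apply DefP.allFin | apply DefP.exFin | apply DefP.all | apply DefP.ex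
                | assumption | (apply Tm.comp; assumption) | apply Tm.pair | apply Tm.lam)))
        · (repeat' (first
            | apply DefP.nOne | apply DefP.nZero | apply DefP.nSucc | apply DefP.nAdd
            | apply DefP.nLt | apply DefP.nLe | apply DefP.nEq | apply DefP.hlf
            | apply DefP.p1le | apply DefP.p1 | apply DefP.p0 | apply DefP.aug | apply DefP.pth
            | apply DefP.nx | apply DefP.cnd | apply DefP.hmin | apply DefP.hit | apply DefP.cdn
            | apply DefP.firstEx | apply DefP.exN | apply DefP.end_ | apply DefP.isZero
            | apply DefP.isSucc | apply DefP.alt | apply DefP.exr | apply DefP.exl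
            | apply DefP.side | apply DefP.oddCard | apply DefP.cardEq | apply DefP.cardLt
            | apply DefP.cardLe | apply DefP.lst | apply DefP.fst | apply DefP.nxt
            | apply DefP.keyLe | apply DefP.keyLt | apply DefP.rtc
            | (apply DefP.app4; assumption) | (apply DefP.app3'; assumption)
            | (apply DefP.app3; assumption) | (apply DefP.app2; assumption)
            | (apply DefP.comp; assumption) | exact Tm.id | exact Tm.unit | apply Tm.fst
            | apply Tm.snd | apply Tm.app | exact DefP.const _ | apply DefP.and | apply DefP.not
            | apply DefP.or | apply DefP.iff | apply DefP.adj | apply DefP.le | apply DefP.lt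
            | apply DefP.eqFin | apply DefP.eq | apply DefP.rv | apply DefP.imp
            | apply DefP.allFin | apply DefP.exFin | apply DefP.all | apply DefP.ex | assumption
            | (apply Tm.comp; assumption) | apply Tm.pair | apply Tm.lam))
        · (repeat' (first
            | apply DefP.nOne | apply DefP.nZero | apply DefP.nSucc | apply DefP.nAdd
            | apply DefP.nLt | apply DefP.nLe | apply DefP.nEq | apply DefP.hlf
            | apply DefP.p1le | apply DefP.p1 | apply DefP.p0 | apply DefP.aug | apply DefP.pth
            | apply DefP.nx | apply DefP.cnd | apply DefP.hmin | apply DefP.hit | apply DefP.cdn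
            | apply DefP.firstEx | apply DefP.exN | apply DefP.end_ | apply DefP.isZero
            | apply DefP.isSucc | apply DefP.alt | apply DefP.exr | apply DefP.exl
            | apply DefP.side | apply DefP.oddCard | apply DefP.cardEq | apply DefP.cardLt
            | apply DefP.cardLe | apply DefP.lst | apply DefP.fst | apply DefP.nxt
            | apply DefP.keyLe | apply DefP.keyLt | apply DefP.rtc
            | (apply DefP.app4; assumption) | (apply DefP.app3'; assumption)
            | (apply DefP.app3; assumption) | (apply DefP.app2; assumption)
            | (apply DefP.comp; assumption) | exact Tm.id | exact Tm.unit | apply Tm.fst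
            | apply Tm.snd | apply Tm.app | exact DefP.const _ | apply DefP.and | apply DefP.not
            | apply DefP.or | apply DefP.iff | apply DefP.adj | apply DefP.le | apply DefP.lt
            | apply DefP.eqFin | apply DefP.eq | apply DefP.rv | apply DefP.imp
            | apply DefP.allFin | apply DefP.exFin | apply DefP.all | apply DefP.ex | assumption
            | (apply Tm.comp; assumption) | apply Tm.pair | apply Tm.lam))
      · (repeat' (first
          | apply DefP.nOne | apply DefP.nZero | apply DefP.nSucc | apply DefP.nAdd
          | apply DefP.nLt | apply DefP.nLe | apply DefP.nEq | apply DefP.hlf | apply DefP.p1le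
          | apply DefP.p1 | apply DefP.p0 | apply DefP.aug | apply DefP.pth | apply DefP.nx
          | apply DefP.cnd | apply DefP.hmin | apply DefP.hit | apply DefP.cdn
          | apply DefP.firstEx | apply DefP.exN | apply DefP.end_ | apply DefP.isZero
          | apply DefP.isSucc | apply DefP.alt | apply DefP.exr | apply DefP.exl
          | apply DefP.side | apply DefP.oddCard | apply DefP.cardEq | apply DefP.cardLt
          | apply DefP.cardLe | apply DefP.lst | apply DefP.fst | apply DefP.nxt
          | apply DefP.keyLe | apply DefP.keyLt | apply DefP.rtc | (apply DefP.app4; assumption)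
          | (apply DefP.app3'; assumption) | (apply DefP.app3; assumption)
          | (apply DefP.app2; assumption) | (apply DefP.comp; assumption) | exact Tm.id
          | exact Tm.unit | apply Tm.fst | apply Tm.snd | apply Tm.app | exact DefP.const _
          | apply DefP.and | apply DefP.not | apply DefP.or | apply DefP.iff | apply DefP.adj
          | apply DefP.le | apply DefP.lt | apply DefP.eqFin | apply DefP.eq | apply DefP.rv
          | apply DefP.imp | apply DefP.allFin | apply DefP.exFin | apply DefP.all
          | apply DefP.ex | assumption | (apply Tm.comp; assumption) | apply Tm.pair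
          | apply Tm.lam))
      · (repeat' (first
          | apply DefP.nOne | apply DefP.nZero | apply DefP.nSucc | apply DefP.nAdd
          | apply DefP.nLt | apply DefP.nLe | apply DefP.nEq | apply DefP.hlf | apply DefP.p1le
          | apply DefP.p1 | apply DefP.p0 | apply DefP.aug | apply DefP.pth | apply DefP.nx
          | apply DefP.cnd | apply DefP.hmin | apply DefP.hit | apply DefP.cdn
          | apply DefP.firstEx | apply DefP.exN | apply DefP.end_ | apply DefP.isZero
          | apply DefP.isSucc | apply DefP.alt | apply DefP.exr | apply DefP.exl
          | apply DefP.side | apply DefP.oddCard | apply DefP.cardEq | apply DefP.cardLt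
          | apply DefP.cardLe | apply DefP.lst | apply DefP.fst | apply DefP.nxt
          | apply DefP.keyLe | apply DefP.keyLt | apply DefP.rtc | (apply DefP.app4; assumption)
          | (apply DefP.app3'; assumption) | (apply DefP.app3; assumption)
          | (apply DefP.app2; assumption) | (apply DefP.comp; assumption) | exact Tm.id
          | exact Tm.unit | apply Tm.fst | apply Tm.snd | apply Tm.app | exact DefP.const _
          | apply DefP.and | apply DefP.not | apply DefP.or | apply DefP.iff | apply DefP.adj
          | apply DefP.le | apply DefP.lt | apply DefP.eqFin | apply DefP.eq | apply DefP.rv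
          | apply DefP.imp | apply DefP.allFin | apply DefP.exFin | apply DefP.all
          | apply DefP.ex | assumption | (apply Tm.comp; assumption) | apply Tm.pair
          | apply Tm.lam))
      · (repeat' (first
          | apply DefP.nOne | apply DefP.nZero | apply DefP.nSucc | apply DefP.nAdd
          | apply DefP.nLt | apply DefP.nLe | apply DefP.nEq | apply DefP.hlf | apply DefP.p1le
          | apply DefP.p1 | apply DefP.p0 | apply DefP.aug | apply DefP.pth | apply DefP.nx
          | apply DefP.cnd | apply DefP.hmin | apply DefP.hit | apply DefP.cdn
          | apply DefP.firstEx | apply DefP.exN | apply DefP.end_ | apply DefP.isZero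
          | apply DefP.isSucc | apply DefP.alt | apply DefP.exr | apply DefP.exl
          | apply DefP.side | apply DefP.oddCard | apply DefP.cardEq | apply DefP.cardLt
          | apply DefP.cardLe | apply DefP.lst | apply DefP.fst | apply DefP.nxt
          | apply DefP.keyLe | apply DefP.keyLt | apply DefP.rtc | (apply DefP.app4; assumption)
          | (apply DefP.app3'; assumption) | (apply DefP.app3; assumption)
          | (apply DefP.app2; assumption) | (apply DefP.comp; assumption) | exact Tm.id
          | exact Tm.unit | apply Tm.fst | apply Tm.snd | apply Tm.app | exact DefP.const _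
          | apply DefP.and | apply DefP.not | apply DefP.or | apply DefP.iff | apply DefP.adj
          | apply DefP.le | apply DefP.lt | apply DefP.eqFin | apply DefP.eq | apply DefP.rv
          | apply DefP.imp | apply DefP.allFin | apply DefP.exFin | apply DefP.all
          | apply DefP.ex | assumption | (apply Tm.comp; assumption) | apply Tm.pair
          | apply Tm.lam))
    · refine DefP.pb (A := fun n G X (y : ((E n × ((Fin n × Fin n) × (S n × S n))) × (Fin n × S n)) × (Fin n × S n))
        u v => u < y.1.1.2.1.1 ∧ v = y.1.1.2.1.1 ∧ A n G X y.1.1.1 u v)
        (w := fun n G y => w n G y.1.1.1) ?_ ?_ ?_ ?_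
      · refine DefP.and ?_ (DefP.and ?_ ?_)
        · (repeat' (first
            | apply DefP.nOne | apply DefP.nZero | apply DefP.nSucc | apply DefP.nAdd
            | apply DefP.nLt | apply DefP.nLe | apply DefP.nEq | apply DefP.hlf
            | apply DefP.p1le | apply DefP.p1 | apply DefP.p0 | apply DefP.aug | apply DefP.pth
            | apply DefP.nx | apply DefP.cnd | apply DefP.hmin | apply DefP.hit | apply DefP.cdn
            | apply DefP.firstEx | apply DefP.exN | apply DefP.end_ | apply DefP.isZero
            | apply DefP.isSucc | apply DefP.alt | apply DefP.exr | apply DefP.exl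
            | apply DefP.side | apply DefP.oddCard | apply DefP.cardEq | apply DefP.cardLt
            | apply DefP.cardLe | apply DefP.lst | apply DefP.fst | apply DefP.nxt
            | apply DefP.keyLe | apply DefP.keyLt | apply DefP.rtc
            | (apply DefP.app4; assumption) | (apply DefP.app3'; assumption)
            | (apply DefP.app3; assumption) | (apply DefP.app2; assumption)
            | (apply DefP.comp; assumption) | exact Tm.id | exact Tm.unit | apply Tm.fst
            | apply Tm.snd | apply Tm.app | exact DefP.const _ | apply DefP.and | apply DefP.not
            | apply DefP.or | apply DefP.iff | apply DefP.adj | apply DefP.le | apply DefP.lt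
            | apply DefP.eqFin | apply DefP.eq | apply DefP.rv | apply DefP.imp
            | apply DefP.allFin | apply DefP.exFin | apply DefP.all | apply DefP.ex | assumption
            | (apply Tm.comp; assumption) | apply Tm.pair | apply Tm.lam))
        · (repeat' (first
            | apply DefP.nOne | apply DefP.nZero | apply DefP.nSucc | apply DefP.nAdd
            | apply DefP.nLt | apply DefP.nLe | apply DefP.nEq | apply DefP.hlf
            | apply DefP.p1le | apply DefP.p1 | apply DefP.p0 | apply DefP.aug | apply DefP.pth
            | apply DefP.nx | apply DefP.cnd | apply DefP.hmin | apply DefP.hit | apply DefP.cdn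
            | apply DefP.firstEx | apply DefP.exN | apply DefP.end_ | apply DefP.isZero
            | apply DefP.isSucc | apply DefP.alt | apply DefP.exr | apply DefP.exl
            | apply DefP.side | apply DefP.oddCard | apply DefP.cardEq | apply DefP.cardLt
            | apply DefP.cardLe | apply DefP.lst | apply DefP.fst | apply DefP.nxt
            | apply DefP.keyLe | apply DefP.keyLt | apply DefP.rtc
            | (apply DefP.app4; assumption) | (apply DefP.app3'; assumption)
            | (apply DefP.app3; assumption) | (apply DefP.app2; assumption)
            | (apply DefP.comp; assumption) | exact Tm.id | exact Tm.unit | apply Tm.fst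
            | apply Tm.snd | apply Tm.app | exact DefP.const _ | apply DefP.and | apply DefP.not
            | apply DefP.or | apply DefP.iff | apply DefP.adj | apply DefP.le | apply DefP.lt
            | apply DefP.eqFin | apply DefP.eq | apply DefP.rv | apply DefP.imp
            | apply DefP.allFin | apply DefP.exFin | apply DefP.all | apply DefP.ex | assumption
            | (apply Tm.comp; assumption) | apply Tm.pair | apply Tm.lam))
        · exact DefP.comp (F := fun n => E n × (Fin n × Fin n)) (E := fun n => (((E n × ((Fin n × Fin n) × (S n × S n))) × (Fin n × S n)) × (Fin n × S n)) × (Fin n × Fin n))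
            (f := fun n y => (y.1.1.1.1, y.2)) hA (by (repeat' (first
                | apply DefP.nOne | apply DefP.nZero | apply DefP.nSucc | apply DefP.nAdd
                | apply DefP.nLt | apply DefP.nLe | apply DefP.nEq | apply DefP.hlf
                | apply DefP.p1le | apply DefP.p1 | apply DefP.p0 | apply DefP.aug
                | apply DefP.pth | apply DefP.nx | apply DefP.cnd | apply DefP.hmin
                | apply DefP.hit | apply DefP.cdn | apply DefP.firstEx | apply DefP.exN
                | apply DefP.end_ | apply DefP.isZero | apply DefP.isSucc | apply DefP.alt
                | apply DefP.exr | apply DefP.exl | apply DefP.side | apply DefP.oddCard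
                | apply DefP.cardEq | apply DefP.cardLt | apply DefP.cardLe | apply DefP.lst
                | apply DefP.fst | apply DefP.nxt | apply DefP.keyLe | apply DefP.keyLt
                | apply DefP.rtc | (apply DefP.app4; assumption)
                | (apply DefP.app3'; assumption) | (apply DefP.app3; assumption)
                | (apply DefP.app2; assumption) | (apply DefP.comp; assumption) | exact Tm.id
                | exact Tm.unit | apply Tm.fst | apply Tm.snd | apply Tm.app
                | exact DefP.const _ | apply DefP.and | apply DefP.not | apply DefP.or
                | apply DefP.iff | apply DefP.adj | apply DefP.le | apply DefP.lt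
                | apply DefP.eqFin | apply DefP.eq | apply DefP.rv | apply DefP.imp
                | apply DefP.allFin | apply DefP.exFin | apply DefP.all | apply DefP.ex
                | assumption | (apply Tm.comp; assumption) | apply Tm.pair | apply Tm.lam)))
      · exact DefP.comp (F := fun n => E n × ((Fin n × Fin n) × S n))
          (E := fun n => (((E n × ((Fin n × Fin n) × (S n × S n))) × (Fin n × S n)) × (Fin n × S n)) × ((Fin n × Fin n) × S n))
          (f := fun n y => (y.1.1.1.1, y.2)) hw (by (repeat' (first
              | apply DefP.nOne | apply DefP.nZero | apply DefP.nSucc | apply DefP.nAdd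
              | apply DefP.nLt | apply DefP.nLe | apply DefP.nEq | apply DefP.hlf
              | apply DefP.p1le | apply DefP.p1 | apply DefP.p0 | apply DefP.aug
              | apply DefP.pth | apply DefP.nx | apply DefP.cnd | apply DefP.hmin
              | apply DefP.hit | apply DefP.cdn | apply DefP.firstEx | apply DefP.exN
              | apply DefP.end_ | apply DefP.isZero | apply DefP.isSucc | apply DefP.alt
              | apply DefP.exr | apply DefP.exl | apply DefP.side | apply DefP.oddCard
              | apply DefP.cardEq | apply DefP.cardLt | apply DefP.cardLe | apply DefP.lst
              | apply DefP.fst | apply DefP.nxt | apply DefP.keyLe | apply DefP.keyLt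
              | apply DefP.rtc | (apply DefP.app4; assumption) | (apply DefP.app3'; assumption)
              | (apply DefP.app3; assumption) | (apply DefP.app2; assumption)
              | (apply DefP.comp; assumption) | exact Tm.id | exact Tm.unit | apply Tm.fst
              | apply Tm.snd | apply Tm.app | exact DefP.const _ | apply DefP.and
              | apply DefP.not | apply DefP.or | apply DefP.iff | apply DefP.adj | apply DefP.le
              | apply DefP.lt | apply DefP.eqFin | apply DefP.eq | apply DefP.rv
              | apply DefP.imp | apply DefP.allFin | apply DefP.exFin | apply DefP.all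
              | apply DefP.ex | assumption | (apply Tm.comp; assumption) | apply Tm.pair
              | apply Tm.lam)))
      · (repeat' (first
          | apply DefP.nOne | apply DefP.nZero | apply DefP.nSucc | apply DefP.nAdd
          | apply DefP.nLt | apply DefP.nLe | apply DefP.nEq | apply DefP.hlf | apply DefP.p1le
          | apply DefP.p1 | apply DefP.p0 | apply DefP.aug | apply DefP.pth | apply DefP.nx
          | apply DefP.cnd | apply DefP.hmin | apply DefP.hit | apply DefP.cdn
          | apply DefP.firstEx | apply DefP.exN | apply DefP.end_ | apply DefP.isZero
          | apply DefP.isSucc | apply DefP.alt | apply DefP.exr | apply DefP.exl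
          | apply DefP.side | apply DefP.oddCard | apply DefP.cardEq | apply DefP.cardLt
          | apply DefP.cardLe | apply DefP.lst | apply DefP.fst | apply DefP.nxt
          | apply DefP.keyLe | apply DefP.keyLt | apply DefP.rtc | (apply DefP.app4; assumption)
          | (apply DefP.app3'; assumption) | (apply DefP.app3; assumption)
          | (apply DefP.app2; assumption) | (apply DefP.comp; assumption) | exact Tm.id
          | exact Tm.unit | apply Tm.fst | apply Tm.snd | apply Tm.app | exact DefP.const _
          | apply DefP.and | apply DefP.not | apply DefP.or | apply DefP.iff | apply DefP.adj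
          | apply DefP.le | apply DefP.lt | apply DefP.eqFin | apply DefP.eq | apply DefP.rv
          | apply DefP.imp | apply DefP.allFin | apply DefP.exFin | apply DefP.all
          | apply DefP.ex | assumption | (apply Tm.comp; assumption) | apply Tm.pair
          | apply Tm.lam))
      · (repeat' (first
          | apply DefP.nOne | apply DefP.nZero | apply DefP.nSucc | apply DefP.nAdd
          | apply DefP.nLt | apply DefP.nLe | apply DefP.nEq | apply DefP.hlf | apply DefP.p1le
          | apply DefP.p1 | apply DefP.p0 | apply DefP.aug | apply DefP.pth | apply DefP.nx
          | apply DefP.cnd | apply DefP.hmin | apply DefP.hit | apply DefP.cdn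
          | apply DefP.firstEx | apply DefP.exN | apply DefP.end_ | apply DefP.isZero
          | apply DefP.isSucc | apply DefP.alt | apply DefP.exr | apply DefP.exl
          | apply DefP.side | apply DefP.oddCard | apply DefP.cardEq | apply DefP.cardLt
          | apply DefP.cardLe | apply DefP.lst | apply DefP.fst | apply DefP.nxt
          | apply DefP.keyLe | apply DefP.keyLt | apply DefP.rtc | (apply DefP.app4; assumption)
          | (apply DefP.app3'; assumption) | (apply DefP.app3; assumption)
          | (apply DefP.app2; assumption) | (apply DefP.comp; assumption) | exact Tm.id
          | exact Tm.unit | apply Tm.fst | apply Tm.snd | apply Tm.app | exact DefP.const _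
          | apply DefP.and | apply DefP.not | apply DefP.or | apply DefP.iff | apply DefP.adj
          | apply DefP.le | apply DefP.lt | apply DefP.eqFin | apply DefP.eq | apply DefP.rv
          | apply DefP.imp | apply DefP.allFin | apply DefP.exFin | apply DefP.all
          | apply DefP.ex | assumption | (apply Tm.comp; assumption) | apply Tm.pair
          | apply Tm.lam))
  exact DefP.comp (F := fun n => E n × ((Fin n × Fin n) × (S n × S n)))
    (f := fun n x => (x, ((k n x, j n x), (a n x, b n x)))) key (by (repeat' (first
        | apply DefP.nOne | apply DefP.nZero | apply DefP.nSucc | apply DefP.nAdd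
        | apply DefP.nLt | apply DefP.nLe | apply DefP.nEq | apply DefP.hlf | apply DefP.p1le
        | apply DefP.p1 | apply DefP.p0 | apply DefP.aug | apply DefP.pth | apply DefP.nx
        | apply DefP.cnd | apply DefP.hmin | apply DefP.hit | apply DefP.cdn
        | apply DefP.firstEx | apply DefP.exN | apply DefP.end_ | apply DefP.isZero
        | apply DefP.isSucc | apply DefP.alt | apply DefP.exr | apply DefP.exl | apply DefP.side
        | apply DefP.oddCard | apply DefP.cardEq | apply DefP.cardLt | apply DefP.cardLe
        | apply DefP.lst | apply DefP.fst | apply DefP.nxt | apply DefP.keyLe | apply DefP.keyLt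
        | apply DefP.rtc | (apply DefP.app4; assumption) | (apply DefP.app3'; assumption)
        | (apply DefP.app3; assumption) | (apply DefP.app2; assumption)
        | (apply DefP.comp; assumption) | exact Tm.id | exact Tm.unit | apply Tm.fst
        | apply Tm.snd | apply Tm.app | exact DefP.const _ | apply DefP.and | apply DefP.not
        | apply DefP.or | apply DefP.iff | apply DefP.adj | apply DefP.le | apply DefP.lt
        | apply DefP.eqFin | apply DefP.eq | apply DefP.rv | apply DefP.imp | apply DefP.allFin
        | apply DefP.exFin | apply DefP.all | apply DefP.ex | assumption
        | (apply Tm.comp; assumption) | apply Tm.pair | apply Tm.lam)))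

theorem DefP.stW (hA : DefP (E := fun n => E n × (Fin n × Fin n))
      (fun n G X y => A n G X y.1 y.2.1 y.2.2))
    (hw : DefP (E := fun n => E n × ((Fin n × Fin n) × S n))
      (fun n G X y => w n G y.1 y.2.1.1 y.2.1.2 = nv y.2.2)) :
    DefP (E := fun n => E n × ((Fin n × (Fin n × S n)) × (Fin n × (Fin n × S n))))
      (fun n G X y => PMNC.stW nv (A n G X y.1) (w n G y.1) y.2.1 y.2.2) := by
  unfold PMNC.stW
  refine DefP.and (by (repeat' (first
      | apply DefP.nOne | apply DefP.nZero | apply DefP.nSucc | apply DefP.nAdd | apply DefP.nLt
      | apply DefP.nLe | apply DefP.nEq | apply DefP.hlf | apply DefP.p1le | apply DefP.p1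
      | apply DefP.p0 | apply DefP.aug | apply DefP.pth | apply DefP.nx | apply DefP.cnd
      | apply DefP.hmin | apply DefP.hit | apply DefP.cdn | apply DefP.firstEx | apply DefP.exN
      | apply DefP.end_ | apply DefP.isZero | apply DefP.isSucc | apply DefP.alt
      | apply DefP.exr | apply DefP.exl | apply DefP.side | apply DefP.oddCard
      | apply DefP.cardEq | apply DefP.cardLt | apply DefP.cardLe | apply DefP.lst
      | apply DefP.fst | apply DefP.nxt | apply DefP.keyLe | apply DefP.keyLt | apply DefP.rtc
      | (apply DefP.app4; assumption) | (apply DefP.app3'; assumption)
      | (apply DefP.app3; assumption) | (apply DefP.app2; assumption)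
      | (apply DefP.comp; assumption) | exact Tm.id | exact Tm.unit | apply Tm.fst
      | apply Tm.snd | apply Tm.app | exact DefP.const _ | apply DefP.and | apply DefP.not
      | apply DefP.or | apply DefP.iff | apply DefP.adj | apply DefP.le | apply DefP.lt
      | apply DefP.eqFin | apply DefP.eq | apply DefP.rv | apply DefP.imp | apply DefP.allFin
      | apply DefP.exFin | apply DefP.all | apply DefP.ex | assumption
      | (apply Tm.comp; assumption) | apply Tm.pair
      | apply Tm.lam))) (DefP.or (by (repeat' (first
      | apply DefP.nOne | apply DefP.nZero | apply DefP.nSucc | apply DefP.nAdd | apply DefP.nLt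
      | apply DefP.nLe | apply DefP.nEq | apply DefP.hlf | apply DefP.p1le | apply DefP.p1
      | apply DefP.p0 | apply DefP.aug | apply DefP.pth | apply DefP.nx | apply DefP.cnd
      | apply DefP.hmin | apply DefP.hit | apply DefP.cdn | apply DefP.firstEx | apply DefP.exN
      | apply DefP.end_ | apply DefP.isZero | apply DefP.isSucc | apply DefP.alt
      | apply DefP.exr | apply DefP.exl | apply DefP.side | apply DefP.oddCard
      | apply DefP.cardEq | apply DefP.cardLt | apply DefP.cardLe | apply DefP.lst
      | apply DefP.fst | apply DefP.nxt | apply DefP.keyLe | apply DefP.keyLt | apply DefP.rtc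
      | (apply DefP.app4; assumption) | (apply DefP.app3'; assumption)
      | (apply DefP.app3; assumption) | (apply DefP.app2; assumption)
      | (apply DefP.comp; assumption) | exact Tm.id | exact Tm.unit | apply Tm.fst
      | apply Tm.snd | apply Tm.app | exact DefP.const _ | apply DefP.and | apply DefP.not
      | apply DefP.or | apply DefP.iff | apply DefP.adj | apply DefP.le | apply DefP.lt
      | apply DefP.eqFin | apply DefP.eq | apply DefP.rv | apply DefP.imp | apply DefP.allFin
      | apply DefP.exFin | apply DefP.all | apply DefP.ex | assumption
      | (apply Tm.comp; assumption) | apply Tm.pair | apply Tm.lam)))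
      (DefP.exFin (DefP.exFin (DefP.and (by (repeat' (first
          | apply DefP.nOne | apply DefP.nZero | apply DefP.nSucc | apply DefP.nAdd
          | apply DefP.nLt | apply DefP.nLe | apply DefP.nEq | apply DefP.hlf | apply DefP.p1le
          | apply DefP.p1 | apply DefP.p0 | apply DefP.aug | apply DefP.pth | apply DefP.nx
          | apply DefP.cnd | apply DefP.hmin | apply DefP.hit | apply DefP.cdn
          | apply DefP.firstEx | apply DefP.exN | apply DefP.end_ | apply DefP.isZero
          | apply DefP.isSucc | apply DefP.alt | apply DefP.exr | apply DefP.exl
          | apply DefP.side | apply DefP.oddCard | apply DefP.cardEq | apply DefP.cardLt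
          | apply DefP.cardLe | apply DefP.lst | apply DefP.fst | apply DefP.nxt
          | apply DefP.keyLe | apply DefP.keyLt | apply DefP.rtc | (apply DefP.app4; assumption)
          | (apply DefP.app3'; assumption) | (apply DefP.app3; assumption)
          | (apply DefP.app2; assumption) | (apply DefP.comp; assumption) | exact Tm.id
          | exact Tm.unit | apply Tm.fst | apply Tm.snd | apply Tm.app | exact DefP.const _
          | apply DefP.and | apply DefP.not | apply DefP.or | apply DefP.iff | apply DefP.adj
          | apply DefP.le | apply DefP.lt | apply DefP.eqFin | apply DefP.eq | apply DefP.rv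
          | apply DefP.imp | apply DefP.allFin | apply DefP.exFin | apply DefP.all
          | apply DefP.ex | assumption | (apply Tm.comp; assumption) | apply Tm.pair
          | apply Tm.lam))) (DefP.and (by (repeat' (first
          | apply DefP.nOne | apply DefP.nZero | apply DefP.nSucc | apply DefP.nAdd
          | apply DefP.nLt | apply DefP.nLe | apply DefP.nEq | apply DefP.hlf | apply DefP.p1le
          | apply DefP.p1 | apply DefP.p0 | apply DefP.aug | apply DefP.pth | apply DefP.nx
          | apply DefP.cnd | apply DefP.hmin | apply DefP.hit | apply DefP.cdn
          | apply DefP.firstEx | apply DefP.exN | apply DefP.end_ | apply DefP.isZero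
          | apply DefP.isSucc | apply DefP.alt | apply DefP.exr | apply DefP.exl
          | apply DefP.side | apply DefP.oddCard | apply DefP.cardEq | apply DefP.cardLt
          | apply DefP.cardLe | apply DefP.lst | apply DefP.fst | apply DefP.nxt
          | apply DefP.keyLe | apply DefP.keyLt | apply DefP.rtc | (apply DefP.app4; assumption)
          | (apply DefP.app3'; assumption) | (apply DefP.app3; assumption)
          | (apply DefP.app2; assumption) | (apply DefP.comp; assumption) | exact Tm.id
          | exact Tm.unit | apply Tm.fst | apply Tm.snd | apply Tm.app | exact DefP.const _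
          | apply DefP.and | apply DefP.not | apply DefP.or | apply DefP.iff | apply DefP.adj
          | apply DefP.le | apply DefP.lt | apply DefP.eqFin | apply DefP.eq | apply DefP.rv
          | apply DefP.imp | apply DefP.allFin | apply DefP.exFin | apply DefP.all
          | apply DefP.ex | assumption | (apply Tm.comp; assumption) | apply Tm.pair
          | apply Tm.lam))) ?_)))))
  refine DefP.cwR (A := fun n G X (y : ((E n × ((Fin n × (Fin n × S n)) × (Fin n × (Fin n × S n)))) × Fin n) × Fin n) => A n G X y.1.1.1) (w := fun n G y => w n G y.1.1.1) ?_ ?_ ?_ ?_ ?_ ?_
  · exact DefP.comp (F := fun n => E n × (Fin n × Fin n)) (E := fun n => (((E n × ((Fin n × (Fin n × S n)) × (Fin n × (Fin n × S n)))) × Fin n) × Fin n) × (Fin n × Fin n))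
      (f := fun n y => (y.1.1.1.1, y.2)) hA (by (repeat' (first
          | apply DefP.nOne | apply DefP.nZero | apply DefP.nSucc | apply DefP.nAdd
          | apply DefP.nLt | apply DefP.nLe | apply DefP.nEq | apply DefP.hlf | apply DefP.p1le
          | apply DefP.p1 | apply DefP.p0 | apply DefP.aug | apply DefP.pth | apply DefP.nx
          | apply DefP.cnd | apply DefP.hmin | apply DefP.hit | apply DefP.cdn
          | apply DefP.firstEx | apply DefP.exN | apply DefP.end_ | apply DefP.isZero
          | apply DefP.isSucc | apply DefP.alt | apply DefP.exr | apply DefP.exl
          | apply DefP.side | apply DefP.oddCard | apply DefP.cardEq | apply DefP.cardLt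
          | apply DefP.cardLe | apply DefP.lst | apply DefP.fst | apply DefP.nxt
          | apply DefP.keyLe | apply DefP.keyLt | apply DefP.rtc | (apply DefP.app4; assumption)
          | (apply DefP.app3'; assumption) | (apply DefP.app3; assumption)
          | (apply DefP.app2; assumption) | (apply DefP.comp; assumption) | exact Tm.id
          | exact Tm.unit | apply Tm.fst | apply Tm.snd | apply Tm.app | exact DefP.const _
          | apply DefP.and | apply DefP.not | apply DefP.or | apply DefP.iff | apply DefP.adj
          | apply DefP.le | apply DefP.lt | apply DefP.eqFin | apply DefP.eq | apply DefP.rv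
          | apply DefP.imp | apply DefP.allFin | apply DefP.exFin | apply DefP.all
          | apply DefP.ex | assumption | (apply Tm.comp; assumption) | apply Tm.pair
          | apply Tm.lam)))
  · exact DefP.comp (F := fun n => E n × ((Fin n × Fin n) × S n))
      (E := fun n => (((E n × ((Fin n × (Fin n × S n)) × (Fin n × (Fin n × S n)))) × Fin n) × Fin n) × ((Fin n × Fin n) × S n))
      (f := fun n y => (y.1.1.1.1, y.2)) hw (by (repeat' (first
          | apply DefP.nOne | apply DefP.nZero | apply DefP.nSucc | apply DefP.nAdd
          | apply DefP.nLt | apply DefP.nLe | apply DefP.nEq | apply DefP.hlf | apply DefP.p1le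
          | apply DefP.p1 | apply DefP.p0 | apply DefP.aug | apply DefP.pth | apply DefP.nx
          | apply DefP.cnd | apply DefP.hmin | apply DefP.hit | apply DefP.cdn
          | apply DefP.firstEx | apply DefP.exN | apply DefP.end_ | apply DefP.isZero
          | apply DefP.isSucc | apply DefP.alt | apply DefP.exr | apply DefP.exl
          | apply DefP.side | apply DefP.oddCard | apply DefP.cardEq | apply DefP.cardLt
          | apply DefP.cardLe | apply DefP.lst | apply DefP.fst | apply DefP.nxt
          | apply DefP.keyLe | apply DefP.keyLt | apply DefP.rtc | (apply DefP.app4; assumption)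
          | (apply DefP.app3'; assumption) | (apply DefP.app3; assumption)
          | (apply DefP.app2; assumption) | (apply DefP.comp; assumption) | exact Tm.id
          | exact Tm.unit | apply Tm.fst | apply Tm.snd | apply Tm.app | exact DefP.const _
          | apply DefP.and | apply DefP.not | apply DefP.or | apply DefP.iff | apply DefP.adj
          | apply DefP.le | apply DefP.lt | apply DefP.eqFin | apply DefP.eq | apply DefP.rv
          | apply DefP.imp | apply DefP.allFin | apply DefP.exFin | apply DefP.all
          | apply DefP.ex | assumption | (apply Tm.comp; assumption) | apply Tm.pair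
          | apply Tm.lam)))
  all_goals (repeat' (first
      | apply DefP.nOne | apply DefP.nZero | apply DefP.nSucc | apply DefP.nAdd | apply DefP.nLt
      | apply DefP.nLe | apply DefP.nEq | apply DefP.hlf | apply DefP.p1le | apply DefP.p1
      | apply DefP.p0 | apply DefP.aug | apply DefP.pth | apply DefP.nx | apply DefP.cnd
      | apply DefP.hmin | apply DefP.hit | apply DefP.cdn | apply DefP.firstEx | apply DefP.exN
      | apply DefP.end_ | apply DefP.isZero | apply DefP.isSucc | apply DefP.alt
      | apply DefP.exr | apply DefP.exl | apply DefP.side | apply DefP.oddCard
      | apply DefP.cardEq | apply DefP.cardLt | apply DefP.cardLe | apply DefP.lst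
      | apply DefP.fst | apply DefP.nxt | apply DefP.keyLe | apply DefP.keyLt | apply DefP.rtc
      | (apply DefP.app4; assumption) | (apply DefP.app3'; assumption)
      | (apply DefP.app3; assumption) | (apply DefP.app2; assumption)
      | (apply DefP.comp; assumption) | exact Tm.id | exact Tm.unit | apply Tm.fst
      | apply Tm.snd | apply Tm.app | exact DefP.const _ | apply DefP.and | apply DefP.not
      | apply DefP.or | apply DefP.iff | apply DefP.adj | apply DefP.le | apply DefP.lt
      | apply DefP.eqFin | apply DefP.eq | apply DefP.rv | apply DefP.imp | apply DefP.allFin
      | apply DefP.exFin | apply DefP.all | apply DefP.ex | assumption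
      | (apply Tm.comp; assumption) | apply Tm.pair | apply Tm.lam))

theorem DefP.dtW (hA : DefP (E := fun n => E n × (Fin n × Fin n))
      (fun n G X y => A n G X y.1 y.2.1 y.2.2))
    (hw : DefP (E := fun n => E n × ((Fin n × Fin n) × S n))
      (fun n G X y => w n G y.1 y.2.1.1 y.2.1.2 = nv y.2.2))
    {a : ∀ n : ℕ, E n → S n} (ha : Tm a) :
    DefP (fun n G X x => PMNC.dtW nv (A n G X x) (w n G x) (a n x)) := by
  have key : DefP (E := fun n => E n × S n)
      (fun n G X y => PMNC.dtW nv (A n G X y.1) (w n G y.1) y.2) := by
    unfold PMNC.dtW
    refine DefP.exFin (DefP.exFin (DefP.ex (F := S) (DefP.and (by (repeat' (first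
        | apply DefP.nOne | apply DefP.nZero | apply DefP.nSucc | apply DefP.nAdd
        | apply DefP.nLt | apply DefP.nLe | apply DefP.nEq | apply DefP.hlf | apply DefP.p1le
        | apply DefP.p1 | apply DefP.p0 | apply DefP.aug | apply DefP.pth | apply DefP.nx
        | apply DefP.cnd | apply DefP.hmin | apply DefP.hit | apply DefP.cdn
        | apply DefP.firstEx | apply DefP.exN | apply DefP.end_ | apply DefP.isZero
        | apply DefP.isSucc | apply DefP.alt | apply DefP.exr | apply DefP.exl | apply DefP.side
        | apply DefP.oddCard | apply DefP.cardEq | apply DefP.cardLt | apply DefP.cardLe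
        | apply DefP.lst | apply DefP.fst | apply DefP.nxt | apply DefP.keyLe | apply DefP.keyLt
        | apply DefP.rtc | (apply DefP.app4; assumption) | (apply DefP.app3'; assumption)
        | (apply DefP.app3; assumption) | (apply DefP.app2; assumption)
        | (apply DefP.comp; assumption) | exact Tm.id | exact Tm.unit | apply Tm.fst
        | apply Tm.snd | apply Tm.app | exact DefP.const _ | apply DefP.and | apply DefP.not
        | apply DefP.or | apply DefP.iff | apply DefP.adj | apply DefP.le | apply DefP.lt
        | apply DefP.eqFin | apply DefP.eq | apply DefP.rv | apply DefP.imp | apply DefP.allFin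
        | apply DefP.exFin | apply DefP.all | apply DefP.ex | assumption
        | (apply Tm.comp; assumption) | apply Tm.pair
        | apply Tm.lam))) (DefP.and (by (repeat' (first
        | apply DefP.nOne | apply DefP.nZero | apply DefP.nSucc | apply DefP.nAdd
        | apply DefP.nLt | apply DefP.nLe | apply DefP.nEq | apply DefP.hlf | apply DefP.p1le
        | apply DefP.p1 | apply DefP.p0 | apply DefP.aug | apply DefP.pth | apply DefP.nx
        | apply DefP.cnd | apply DefP.hmin | apply DefP.hit | apply DefP.cdn
        | apply DefP.firstEx | apply DefP.exN | apply DefP.end_ | apply DefP.isZero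
        | apply DefP.isSucc | apply DefP.alt | apply DefP.exr | apply DefP.exl | apply DefP.side
        | apply DefP.oddCard | apply DefP.cardEq | apply DefP.cardLt | apply DefP.cardLe
        | apply DefP.lst | apply DefP.fst | apply DefP.nxt | apply DefP.keyLe | apply DefP.keyLt
        | apply DefP.rtc | (apply DefP.app4; assumption) | (apply DefP.app3'; assumption)
        | (apply DefP.app3; assumption) | (apply DefP.app2; assumption)
        | (apply DefP.comp; assumption) | exact Tm.id | exact Tm.unit | apply Tm.fst
        | apply Tm.snd | apply Tm.app | exact DefP.const _ | apply DefP.and | apply DefP.not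
        | apply DefP.or | apply DefP.iff | apply DefP.adj | apply DefP.le | apply DefP.lt
        | apply DefP.eqFin | apply DefP.eq | apply DefP.rv | apply DefP.imp | apply DefP.allFin
        | apply DefP.exFin | apply DefP.all | apply DefP.ex | assumption
        | (apply Tm.comp; assumption) | apply Tm.pair | apply Tm.lam)))
      (DefP.and (by (repeat' (first
          | apply DefP.nOne | apply DefP.nZero | apply DefP.nSucc | apply DefP.nAdd
          | apply DefP.nLt | apply DefP.nLe | apply DefP.nEq | apply DefP.hlf | apply DefP.p1le
          | apply DefP.p1 | apply DefP.p0 | apply DefP.aug | apply DefP.pth | apply DefP.nx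
          | apply DefP.cnd | apply DefP.hmin | apply DefP.hit | apply DefP.cdn
          | apply DefP.firstEx | apply DefP.exN | apply DefP.end_ | apply DefP.isZero
          | apply DefP.isSucc | apply DefP.alt | apply DefP.exr | apply DefP.exl
          | apply DefP.side | apply DefP.oddCard | apply DefP.cardEq | apply DefP.cardLt
          | apply DefP.cardLe | apply DefP.lst | apply DefP.fst | apply DefP.nxt
          | apply DefP.keyLe | apply DefP.keyLt | apply DefP.rtc | (apply DefP.app4; assumption)
          | (apply DefP.app3'; assumption) | (apply DefP.app3; assumption)
          | (apply DefP.app2; assumption) | (apply DefP.comp; assumption) | exact Tm.id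
          | exact Tm.unit | apply Tm.fst | apply Tm.snd | apply Tm.app | exact DefP.const _
          | apply DefP.and | apply DefP.not | apply DefP.or | apply DefP.iff | apply DefP.adj
          | apply DefP.le | apply DefP.lt | apply DefP.eqFin | apply DefP.eq | apply DefP.rv
          | apply DefP.imp | apply DefP.allFin | apply DefP.exFin | apply DefP.all
          | apply DefP.ex | assumption | (apply Tm.comp; assumption) | apply Tm.pair
          | apply Tm.lam))) (DefP.oddCard (S := fun n => Fin n × S n) (DefP.exFin (DefP.and (by (repeat' (first
          | apply DefP.nOne | apply DefP.nZero | apply DefP.nSucc | apply DefP.nAdd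
          | apply DefP.nLt | apply DefP.nLe | apply DefP.nEq | apply DefP.hlf | apply DefP.p1le
          | apply DefP.p1 | apply DefP.p0 | apply DefP.aug | apply DefP.pth | apply DefP.nx
          | apply DefP.cnd | apply DefP.hmin | apply DefP.hit | apply DefP.cdn
          | apply DefP.firstEx | apply DefP.exN | apply DefP.end_ | apply DefP.isZero
          | apply DefP.isSucc | apply DefP.alt | apply DefP.exr | apply DefP.exl
          | apply DefP.side | apply DefP.oddCard | apply DefP.cardEq | apply DefP.cardLt
          | apply DefP.cardLe | apply DefP.lst | apply DefP.fst | apply DefP.nxt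
          | apply DefP.keyLe | apply DefP.keyLt | apply DefP.rtc | (apply DefP.app4; assumption)
          | (apply DefP.app3'; assumption) | (apply DefP.app3; assumption)
          | (apply DefP.app2; assumption) | (apply DefP.comp; assumption) | exact Tm.id
          | exact Tm.unit | apply Tm.fst | apply Tm.snd | apply Tm.app | exact DefP.const _
          | apply DefP.and | apply DefP.not | apply DefP.or | apply DefP.iff | apply DefP.adj
          | apply DefP.le | apply DefP.lt | apply DefP.eqFin | apply DefP.eq | apply DefP.rv
          | apply DefP.imp | apply DefP.allFin | apply DefP.exFin | apply DefP.all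
          | apply DefP.ex | assumption | (apply Tm.comp; assumption) | apply Tm.pair
          | apply Tm.lam)))
        (DefP.and ?_ ?_)))))))))
    · refine DefP.cwR (A := fun n G X (y : (((((E n × S n) × Fin n) × Fin n) × S n) × (Fin n × S n)) × Fin n) => A n G X y.1.1.1.1.1.1)
        (w := fun n G y => w n G y.1.1.1.1.1.1) ?_ ?_ ?_ ?_ ?_ ?_
      · exact DefP.comp (F := fun n => E n × (Fin n × Fin n)) (E := fun n => ((((((E n × S n) × Fin n) × Fin n) × S n) × (Fin n × S n)) × Fin n) × (Fin n × Fin n))
          (f := fun n y => (y.1.1.1.1.1.1.1, y.2)) hA (by (repeat' (first
              | apply DefP.nOne | apply DefP.nZero | apply DefP.nSucc | apply DefP.nAdd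
              | apply DefP.nLt | apply DefP.nLe | apply DefP.nEq | apply DefP.hlf
              | apply DefP.p1le | apply DefP.p1 | apply DefP.p0 | apply DefP.aug
              | apply DefP.pth | apply DefP.nx | apply DefP.cnd | apply DefP.hmin
              | apply DefP.hit | apply DefP.cdn | apply DefP.firstEx | apply DefP.exN
              | apply DefP.end_ | apply DefP.isZero | apply DefP.isSucc | apply DefP.alt
              | apply DefP.exr | apply DefP.exl | apply DefP.side | apply DefP.oddCard
              | apply DefP.cardEq | apply DefP.cardLt | apply DefP.cardLe | apply DefP.lst
              | apply DefP.fst | apply DefP.nxt | apply DefP.keyLe | apply DefP.keyLt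
              | apply DefP.rtc | (apply DefP.app4; assumption) | (apply DefP.app3'; assumption)
              | (apply DefP.app3; assumption) | (apply DefP.app2; assumption)
              | (apply DefP.comp; assumption) | exact Tm.id | exact Tm.unit | apply Tm.fst
              | apply Tm.snd | apply Tm.app | exact DefP.const _ | apply DefP.and
              | apply DefP.not | apply DefP.or | apply DefP.iff | apply DefP.adj | apply DefP.le
              | apply DefP.lt | apply DefP.eqFin | apply DefP.eq | apply DefP.rv
              | apply DefP.imp | apply DefP.allFin | apply DefP.exFin | apply DefP.all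
              | apply DefP.ex | assumption | (apply Tm.comp; assumption) | apply Tm.pair
              | apply Tm.lam)))
      · exact DefP.comp (F := fun n => E n × ((Fin n × Fin n) × S n))
          (E := fun n => ((((((E n × S n) × Fin n) × Fin n) × S n) × (Fin n × S n)) × Fin n) × ((Fin n × Fin n) × S n))
          (f := fun n y => (y.1.1.1.1.1.1.1, y.2)) hw (by (repeat' (first
              | apply DefP.nOne | apply DefP.nZero | apply DefP.nSucc | apply DefP.nAdd
              | apply DefP.nLt | apply DefP.nLe | apply DefP.nEq | apply DefP.hlf
              | apply DefP.p1le | apply DefP.p1 | apply DefP.p0 | apply DefP.aug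
              | apply DefP.pth | apply DefP.nx | apply DefP.cnd | apply DefP.hmin
              | apply DefP.hit | apply DefP.cdn | apply DefP.firstEx | apply DefP.exN
              | apply DefP.end_ | apply DefP.isZero | apply DefP.isSucc | apply DefP.alt
              | apply DefP.exr | apply DefP.exl | apply DefP.side | apply DefP.oddCard
              | apply DefP.cardEq | apply DefP.cardLt | apply DefP.cardLe | apply DefP.lst
              | apply DefP.fst | apply DefP.nxt | apply DefP.keyLe | apply DefP.keyLt
              | apply DefP.rtc | (apply DefP.app4; assumption) | (apply DefP.app3'; assumption)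
              | (apply DefP.app3; assumption) | (apply DefP.app2; assumption)
              | (apply DefP.comp; assumption) | exact Tm.id | exact Tm.unit | apply Tm.fst
              | apply Tm.snd | apply Tm.app | exact DefP.const _ | apply DefP.and
              | apply DefP.not | apply DefP.or | apply DefP.iff | apply DefP.adj | apply DefP.le
              | apply DefP.lt | apply DefP.eqFin | apply DefP.eq | apply DefP.rv
              | apply DefP.imp | apply DefP.allFin | apply DefP.exFin | apply DefP.all
              | apply DefP.ex | assumption | (apply Tm.comp; assumption) | apply Tm.pair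
              | apply Tm.lam)))
      all_goals (repeat' (first
          | apply DefP.nOne | apply DefP.nZero | apply DefP.nSucc | apply DefP.nAdd
          | apply DefP.nLt | apply DefP.nLe | apply DefP.nEq | apply DefP.hlf | apply DefP.p1le
          | apply DefP.p1 | apply DefP.p0 | apply DefP.aug | apply DefP.pth | apply DefP.nx
          | apply DefP.cnd | apply DefP.hmin | apply DefP.hit | apply DefP.cdn
          | apply DefP.firstEx | apply DefP.exN | apply DefP.end_ | apply DefP.isZero
          | apply DefP.isSucc | apply DefP.alt | apply DefP.exr | apply DefP.exl
          | apply DefP.side | apply DefP.oddCard | apply DefP.cardEq | apply DefP.cardLt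
          | apply DefP.cardLe | apply DefP.lst | apply DefP.fst | apply DefP.nxt
          | apply DefP.keyLe | apply DefP.keyLt | apply DefP.rtc | (apply DefP.app4; assumption)
          | (apply DefP.app3'; assumption) | (apply DefP.app3; assumption)
          | (apply DefP.app2; assumption) | (apply DefP.comp; assumption) | exact Tm.id
          | exact Tm.unit | apply Tm.fst | apply Tm.snd | apply Tm.app | exact DefP.const _
          | apply DefP.and | apply DefP.not | apply DefP.or | apply DefP.iff | apply DefP.adj
          | apply DefP.le | apply DefP.lt | apply DefP.eqFin | apply DefP.eq | apply DefP.rv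
          | apply DefP.imp | apply DefP.allFin | apply DefP.exFin | apply DefP.all
          | apply DefP.ex | assumption | (apply Tm.comp; assumption) | apply Tm.pair
          | apply Tm.lam))
    · refine DefP.wpar (T := fun n => Fin n × (Fin n × S n)) (B := fun n G X (y : (((((E n × S n) × Fin n) × Fin n) × S n) × (Fin n × S n)) × Fin n) =>
        PMNC.stW nv (A n G X y.1.1.1.1.1.1) (w n G y.1.1.1.1.1.1)) ?_ ?_ ?_ ?_
      · exact DefP.comp (F := fun n => E n × ((Fin n × (Fin n × S n)) × (Fin n × (Fin n × S n))))
          (E := fun n => ((((((E n × S n) × Fin n) × Fin n) × S n) × (Fin n × S n)) × Fin n) × ((Fin n × (Fin n × S n)) × (Fin n × (Fin n × S n))))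
          (f := fun n y => (y.1.1.1.1.1.1.1, y.2)) (DefP.stW hA hw) (by (repeat' (first
              | apply DefP.nOne | apply DefP.nZero | apply DefP.nSucc | apply DefP.nAdd
              | apply DefP.nLt | apply DefP.nLe | apply DefP.nEq | apply DefP.hlf
              | apply DefP.p1le | apply DefP.p1 | apply DefP.p0 | apply DefP.aug
              | apply DefP.pth | apply DefP.nx | apply DefP.cnd | apply DefP.hmin
              | apply DefP.hit | apply DefP.cdn | apply DefP.firstEx | apply DefP.exN
              | apply DefP.end_ | apply DefP.isZero | apply DefP.isSucc | apply DefP.alt
              | apply DefP.exr | apply DefP.exl | apply DefP.side | apply DefP.oddCard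
              | apply DefP.cardEq | apply DefP.cardLt | apply DefP.cardLe | apply DefP.lst
              | apply DefP.fst | apply DefP.nxt | apply DefP.keyLe | apply DefP.keyLt
              | apply DefP.rtc | (apply DefP.app4; assumption) | (apply DefP.app3'; assumption)
              | (apply DefP.app3; assumption) | (apply DefP.app2; assumption)
              | (apply DefP.comp; assumption) | exact Tm.id | exact Tm.unit | apply Tm.fst
              | apply Tm.snd | apply Tm.app | exact DefP.const _ | apply DefP.and
              | apply DefP.not | apply DefP.or | apply DefP.iff | apply DefP.adj | apply DefP.le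
              | apply DefP.lt | apply DefP.eqFin | apply DefP.eq | apply DefP.rv
              | apply DefP.imp | apply DefP.allFin | apply DefP.exFin | apply DefP.all
              | apply DefP.ex | assumption | (apply Tm.comp; assumption) | apply Tm.pair
              | apply Tm.lam)))
      all_goals (repeat' (first
          | apply DefP.nOne | apply DefP.nZero | apply DefP.nSucc | apply DefP.nAdd
          | apply DefP.nLt | apply DefP.nLe | apply DefP.nEq | apply DefP.hlf | apply DefP.p1le
          | apply DefP.p1 | apply DefP.p0 | apply DefP.aug | apply DefP.pth | apply DefP.nx
          | apply DefP.cnd | apply DefP.hmin | apply DefP.hit | apply DefP.cdn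
          | apply DefP.firstEx | apply DefP.exN | apply DefP.end_ | apply DefP.isZero
          | apply DefP.isSucc | apply DefP.alt | apply DefP.exr | apply DefP.exl
          | apply DefP.side | apply DefP.oddCard | apply DefP.cardEq | apply DefP.cardLt
          | apply DefP.cardLe | apply DefP.lst | apply DefP.fst | apply DefP.nxt
          | apply DefP.keyLe | apply DefP.keyLt | apply DefP.rtc | (apply DefP.app4; assumption)
          | (apply DefP.app3'; assumption) | (apply DefP.app3; assumption)
          | (apply DefP.app2; assumption) | (apply DefP.comp; assumption) | exact Tm.id
          | exact Tm.unit | apply Tm.fst | apply Tm.snd | apply Tm.app | exact DefP.const _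
          | apply DefP.and | apply DefP.not | apply DefP.or | apply DefP.iff | apply DefP.adj
          | apply DefP.le | apply DefP.lt | apply DefP.eqFin | apply DefP.eq | apply DefP.rv
          | apply DefP.imp | apply DefP.allFin | apply DefP.exFin | apply DefP.all
          | apply DefP.ex | assumption | (apply Tm.comp; assumption) | apply Tm.pair
          | apply Tm.lam))
  exact DefP.app2 (P := fun n G X x a => PMNC.dtW nv (A n G X x) (w n G x) a) key Tm.id ha

end def_

end Pool.Agent.PMNC
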