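import Mathlib
import Pool.Agent.Lib.MP_0087d5_lc.WDetD
import Pool.Agent.Lib.MP_0087d5_lc.UCnt

set_option autoImplicit false
set_option linter.all false

/-!
# The weighted determinant over `ZMod 2` of a symmetric matrix counts perfect matchings by weight
-/

namespace Pool.Agent.PMNC

open Matrix

section
variable {n : ℕ} {A : Fin n → Fin n → Prop} {w : Fin n → Fin n → ℕ}

open Classical in
/-- the contribution of a permutation -/
noncomputable def wtW (A : Fin n → Fin n → Prop) (w : Fin n → Fin n → ℕ)
    (σ : Equiv.Perm (Fin n)) : YS :=
  if ∀ i, A (σ i) i then PowerSeries.X ^ (∑ i, w (σ i) i) else 0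

theorem ys_add_self (a : YS) : a + a = 0 := by
  ext i
  rw [map_add, map_zero]
  generalize PowerSeries.coeff i a = c
  revert c
  decide

theorem ys_neg (a : YS) : -a = a := by
  rw [neg_eq_iff_add_eq_zero]
  exact ys_add_self a

theorem det_eq_wtW : (mxw A w).det = ∑ σ : Equiv.Perm (Fin n), wtW A w σ := by
  classical
  rw [Matrix.det_apply']
  refine Finset.sum_congr rfl fun σ _ => ?_
  have h1 : ((Equiv.Perm.sign σ : ℤ) : YS) = 1 := by
    rcases Int.units_eq_one_or (Equiv.Perm.sign σ) with h | h
    · rw [h]; simp
    · rw [h]
      simp [ys_neg]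
  rw [h1, one_mul]
  unfold wtW
  by_cases h : ∀ i, A (σ i) i
  · rw [if_pos h, ← Finset.prod_pow_eq_pow_sum]
    refine Finset.prod_congr rfl fun i _ => ?_
    unfold mxw
    rw [Matrix.of_apply, if_pos (h i)]
  · rw [if_neg h]
    push Not at h
    obtain ⟨i, hi⟩ := h
    apply Finset.prod_eq_zero (Finset.mem_univ i)
    unfold mxw
    rw [Matrix.of_apply, if_neg hi]

theorem wtW_inv (hs : ∀ x y, A x y → A y x) (hw : ∀ x y, w x y = w y x)
    (σ : Equiv.Perm (Fin n)) : wtW A w σ⁻¹ = wtW A w σ := by
  unfold wtW
  have : (∀ i, A (σ⁻¹ i) i) ↔ ∀ i, A (σ i) i := by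
    constructor
    · intro h i
      have := h (σ i)
      rw [show σ⁻¹ (σ i) = i from Equiv.symm_apply_apply σ i] at this
      exact hs _ _ this
    · intro h i
      have := h (σ⁻¹ i)
      rw [show σ (σ⁻¹ i) = i from Equiv.apply_symm_apply σ i] at this
      exact hs _ _ this
  have h2 : ∑ i, w (σ⁻¹ i) i = ∑ i, w (σ i) i := by
    rw [← Equiv.sum_comp σ]
    refine Finset.sum_congr rfl fun i _ => ?_
    rw [show σ⁻¹ (σ i) = i from Equiv.symm_apply_apply σ i, hw]
  by_cases h : ∀ i, A (σ i) i
  · rw [if_pos (this.2 h), if_pos h, h2]
  · rw [if_neg (fun hh => h (this.1 hh)), if_neg h]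

theorem detW_eq_inv (hs : ∀ x y, A x y → A y x) (hw : ∀ x y, w x y = w y x) : (mxw A w).det =
    ∑ σ ∈ Finset.univ.filter (fun σ : Equiv.Perm (Fin n) => σ⁻¹ = σ), wtW A w σ := by
  classical
  rw [det_eq_wtW, ← Finset.sum_filter_add_sum_filter_not Finset.univ
    (fun σ : Equiv.Perm (Fin n) => σ⁻¹ = σ)]
  have : ∑ σ ∈ Finset.univ.filter (fun σ : Equiv.Perm (Fin n) => ¬ σ⁻¹ = σ), wtW A w σ = 0 := by
    refine Finset.sum_involution (fun σ _ => σ⁻¹) ?_ ?_ ?_ ?_
    · intro σ _
      rw [wtW_inv hs hw]
      exact ys_add_self _
    · intro σ hσ _
      exact (Finset.mem_filter.1 hσ).2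
    · intro σ hσ
      rw [Finset.mem_filter] at hσ ⊢
      refine ⟨Finset.mem_univ _, fun h => hσ.2 ?_⟩
      rw [inv_inv] at h
      exact h.symm
    · intro σ _
      exact inv_inv σ
  rw [this, add_zero]

/-- twice the weight of a perfect matching -/
def tw (w : Fin n → Fin n → ℕ) (f : Fin n → Fin n) : ℕ := ∑ i, w i (f i)

theorem isM_of_wtW (hs : ∀ x y, A x y → A y x) (hw : ∀ x y, w x y = w y x)
    {σ : Equiv.Perm (Fin n)} (h : σ⁻¹ = σ) {a : ℕ}
    (hc : PowerSeries.coeff a (wtW A w σ) ≠ 0) : IsM A σ ∧ tw w σ = a := by
  unfold wtW at hc
  have h1 : ∀ i, A (σ i) i := by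
    by_contra hcc
    rw [if_neg hcc, map_zero] at hc
    exact hc rfl
  rw [if_pos h1, PowerSeries.coeff_X_pow] at hc
  refine ⟨⟨fun v => ?_, fun v => hs _ _ (h1 v)⟩, ?_⟩
  · nth_rewrite 1 [← h]
    exact Equiv.symm_apply_apply σ v
  · unfold tw
    rw [Finset.sum_congr rfl fun i _ => hw i (σ i)]
    by_contra hcc
    rw [if_neg (fun hh => hcc hh.symm)] at hc
    exact hc rfl

theorem detW_of_none (hs : ∀ x y, A x y → A y x) (hw : ∀ x y, w x y = w y x) {a : ℕ}
    (h : ¬ ∃ f, IsM A f ∧ tw w f = a) : PowerSeries.coeff a (mxw A w).det ≠ 1 := by
  rw [detW_eq_inv hs hw, map_sum, Finset.sum_eq_zero]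
  · decide
  · intro σ hσ
    by_contra hc
    exact h ⟨σ, isM_of_wtW hs hw (Finset.mem_filter.1 hσ).2 hc⟩

theorem detW_of_unique (hs : ∀ x y, A x y → A y x) (hw : ∀ x y, w x y = w y x) {a : ℕ}
    (h : ∃! f, IsM A f ∧ tw w f = a) : PowerSeries.coeff a (mxw A w).det = 1 := by
  obtain ⟨f, ⟨hf, hfa⟩, hu⟩ := h
  rw [detW_eq_inv hs hw, map_sum, Finset.sum_eq_single (invPerm f hf.1)]
  · unfold wtW
    have h1 : ∀ i, A (invPerm f hf.1 i) i := fun i => hs _ _ (hf.2 i)
    rw [if_pos h1, PowerSeries.coeff_X_pow, if_pos]
    rw [← hfa]
    unfold tw
    exact Finset.sum_congr rfl fun i _ => hw i (f i)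
  · intro σ hσ hne
    by_contra hc
    apply hne
    have := hu σ (isM_of_wtW hs hw (Finset.mem_filter.1 hσ).2 hc)
    ext1 x
    exact congrFun this x
  · intro h
    exfalso
    apply h
    rw [Finset.mem_filter]
    refine ⟨Finset.mem_univ _, ?_⟩
    ext1 x
    rfl

/-- the candidate for the perfect matching with doubled weight `nu a` -/
def cnW {β : Type*} (nu : β → ℕ) (A : Fin n → Fin n → Prop) (w : Fin n → Fin n → ℕ) (a : β)
    (x y : Fin n) : Prop := A x y ∧ dtW nu (gxy A x y) w a

end

theorem cnW_iff {N : ℕ} {β : Type*} [Finite β] {nu : β → ℕ} (hd : Dn nu)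
    {A : Fin (N + 1) → Fin (N + 1) → Prop} {w : Fin (N + 1) → Fin (N + 1) → ℕ}
    (hs : ∀ x y, A x y → A y x) (hi : ∀ x, ¬ A x x) (hw : ∀ x y, w x y = w y x)
    {f : Fin (N + 1) → Fin (N + 1)} {a : β}
    (hf : IsM A f) (hfa : tw w f = nu a) (hu : ∀ g, IsM A g → tw w g = nu a → g = f)
    {x y : Fin (N + 1)} : cnW nu A w a x y ↔ y = f x := by
  unfold cnW
  have hgs : ∀ x y u v, gxy A x y u v → gxy A x y v u := by
    intro x y u v h
    rcases h with h | h | h
    · exact Or.inl ⟨h.2.2.1, h.2.2.2.1, h.1, h.2.1, hs _ _ h.2.2.2.2⟩
    · exact Or.inr (Or.inr ⟨h.2, h.1⟩)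
    · exact Or.inr (Or.inl ⟨h.2, h.1⟩)
  have hgi : ∀ x y, x ≠ y → ∀ u, ¬ gxy A x y u u := by
    intro x y hxy u h
    rcases h with h | h | h
    · exact hi _ h.2.2.2.2
    · exact hxy (h.1.symm.trans h.2)
    · exact hxy (h.2.symm.trans h.1)
  constructor
  · rintro ⟨hA, hdt⟩
    have hne : x ≠ y := fun h => hi x (by nth_rewrite 2 [h]; exact hA)
    rw [dtW_iff hd (hgi x y hne)] at hdt
    by_contra hc
    refine detW_of_none (hgs x y) hw ?_ hdt
    rintro ⟨g, hg, hga⟩
    rw [gxy_isM hs hi hA] at hg
    apply hc
    rw [← hg.2, hu g hg.1 hga]
  · intro h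
    have hA : A x y := by rw [h]; exact hf.2 x
    have hne : x ≠ y := fun h => hi x (by nth_rewrite 2 [h]; exact hA)
    refine ⟨hA, ?_⟩
    rw [dtW_iff hd (hgi x y hne)]
    refine detW_of_unique (hgs x y) hw ⟨f, ⟨(gxy_isM hs hi hA f).2 ⟨hf, h.symm⟩, hfa⟩,
      fun g hg => ?_⟩
    exact hu g ((gxy_isM hs hi hA g).1 hg.1).1 hg.2

section def_
variable {E S : ℕ → Type} [Env E] [Env S]
  {A : ∀ n : ℕ, SimpleGraph (Fin n) → Ctx n → E n → Fin n → Fin n → Prop}
  {w : ∀ n : ℕ, SimpleGraph (Fin n) → E n → Fin n → Fin n → ℕ}

theorem DefP.cnW (hA : DefP (E := fun n => E n × (Fin n × Fin n))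
      (fun n G X y => A n G X y.1 y.2.1 y.2.2))
    (hw : DefP (E := fun n => E n × ((Fin n × Fin n) × S n))
      (fun n G X y => w n G y.1 y.2.1.1 y.2.1.2 = nv y.2.2)) :
    DefP (E := fun n => E n × (S n × (Fin n × Fin n)))
      (fun n G X y => PMNC.cnW nv (A n G X y.1) (w n G y.1) y.2.1 y.2.2.1 y.2.2.2) := by
  unfold PMNC.cnW
  refine DefP.and ?_ ?_
  · exact DefP.comp (F := fun n => E n × (Fin n × Fin n))
      (f := fun n (y : E n × (S n × (Fin n × Fin n))) => (y.1, y.2.2)) hA (by (repeat' (first
          | apply DefP.nOne | apply DefP.nZero | apply DefP.nSucc | apply DefP.nAdd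
          | apply DefP.nLt | apply DefP.nLe | apply DefP.nEq | apply DefP.hlf | apply DefP.p1le
          | apply DefP.p1 | apply DefP.p0 | apply DefP.aug | apply DefP.pth | apply DefP.nx
          | apply DefP.cnd | apply DefP.hmin | apply DefP.hit | apply DefP.cdn
          | apply DefP.firstEx | apply DefP.exN | apply DefP.end_ | apply DefP.isZero
          | apply DefP.isSucc | apply DefP.alt | apply DefP.exr | apply DefP.exl
          | apply DefP.side | apply DefP.oddCard | apply DefP.cardEq | apply DefP.cardLt
          | apply DefP.cardLe | apply DefP.lst | apply DefP.fst | apply DefP.nxt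
          | apply DefP.keyLe | apply DefP.keyLt | apply DefP.rtc | (apply DefP.app4; assumption)
          | (apply DefP.app3'; assumption) | (apply DefP.app3; assumption)
          | (apply DefP.app2; assumption) | (apply DefP.comp; assumption) | exact Tm.id
          | exact Tm.unit | apply Tm.fst | apply Tm.snd | apply Tm.app | exact DefP.const _
          | apply DefP.and | apply DefP.not | apply DefP.or | apply DefP.iff | apply DefP.adj
          | apply DefP.le | apply DefP.lt | apply DefP.eqFin | apply DefP.eq | apply DefP.rv
          | apply DefP.imp | apply DefP.allFin | apply DefP.exFin | apply DefP.all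
          | apply DefP.ex | assumption | (apply Tm.comp; assumption) | apply Tm.pair
          | apply Tm.lam)))
  · refine DefP.dtW (A := fun n G X (y : E n × (S n × (Fin n × Fin n))) =>
      gxy (A n G X y.1) y.2.2.1 y.2.2.2) (w := fun n G y => w n G y.1) ?_ ?_ ?_
    · unfold gxy
      refine DefP.or (DefP.and (by (repeat' (first
          | apply DefP.nOne | apply DefP.nZero | apply DefP.nSucc | apply DefP.nAdd
          | apply DefP.nLt | apply DefP.nLe | apply DefP.nEq | apply DefP.hlf | apply DefP.p1le
          | apply DefP.p1 | apply DefP.p0 | apply DefP.aug | apply DefP.pth | apply DefP.nx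
          | apply DefP.cnd | apply DefP.hmin | apply DefP.hit | apply DefP.cdn
          | apply DefP.firstEx | apply DefP.exN | apply DefP.end_ | apply DefP.isZero
          | apply DefP.isSucc | apply DefP.alt | apply DefP.exr | apply DefP.exl
          | apply DefP.side | apply DefP.oddCard | apply DefP.cardEq | apply DefP.cardLt
          | apply DefP.cardLe | apply DefP.lst | apply DefP.fst | apply DefP.nxt
          | apply DefP.keyLe | apply DefP.keyLt | apply DefP.rtc | (apply DefP.app4; assumption)
          | (apply DefP.app3'; assumption) | (apply DefP.app3; assumption)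
          | (apply DefP.app2; assumption) | (apply DefP.comp; assumption) | exact Tm.id
          | exact Tm.unit | apply Tm.fst | apply Tm.snd | apply Tm.app | exact DefP.const _
          | apply DefP.and | apply DefP.not | apply DefP.or | apply DefP.iff | apply DefP.adj
          | apply DefP.le | apply DefP.lt | apply DefP.eqFin | apply DefP.eq | apply DefP.rv
          | apply DefP.imp | apply DefP.allFin | apply DefP.exFin | apply DefP.all
          | apply DefP.ex | assumption | (apply Tm.comp; assumption) | apply Tm.pair
          | apply Tm.lam))) (DefP.and (by (repeat' (first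
          | apply DefP.nOne | apply DefP.nZero | apply DefP.nSucc | apply DefP.nAdd
          | apply DefP.nLt | apply DefP.nLe | apply DefP.nEq | apply DefP.hlf | apply DefP.p1le
          | apply DefP.p1 | apply DefP.p0 | apply DefP.aug | apply DefP.pth | apply DefP.nx
          | apply DefP.cnd | apply DefP.hmin | apply DefP.hit | apply DefP.cdn
          | apply DefP.firstEx | apply DefP.exN | apply DefP.end_ | apply DefP.isZero
          | apply DefP.isSucc | apply DefP.alt | apply DefP.exr | apply DefP.exl
          | apply DefP.side | apply DefP.oddCard | apply DefP.cardEq | apply DefP.cardLt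
          | apply DefP.cardLe | apply DefP.lst | apply DefP.fst | apply DefP.nxt
          | apply DefP.keyLe | apply DefP.keyLt | apply DefP.rtc | (apply DefP.app4; assumption)
          | (apply DefP.app3'; assumption) | (apply DefP.app3; assumption)
          | (apply DefP.app2; assumption) | (apply DefP.comp; assumption) | exact Tm.id
          | exact Tm.unit | apply Tm.fst | apply Tm.snd | apply Tm.app | exact DefP.const _
          | apply DefP.and | apply DefP.not | apply DefP.or | apply DefP.iff | apply DefP.adj
          | apply DefP.le | apply DefP.lt | apply DefP.eqFin | apply DefP.eq | apply DefP.rv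
          | apply DefP.imp | apply DefP.allFin | apply DefP.exFin | apply DefP.all
          | apply DefP.ex | assumption | (apply Tm.comp; assumption) | apply Tm.pair
          | apply Tm.lam))) (DefP.and (by (repeat' (first
          | apply DefP.nOne | apply DefP.nZero | apply DefP.nSucc | apply DefP.nAdd
          | apply DefP.nLt | apply DefP.nLe | apply DefP.nEq | apply DefP.hlf | apply DefP.p1le
          | apply DefP.p1 | apply DefP.p0 | apply DefP.aug | apply DefP.pth | apply DefP.nx
          | apply DefP.cnd | apply DefP.hmin | apply DefP.hit | apply DefP.cdn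
          | apply DefP.firstEx | apply DefP.exN | apply DefP.end_ | apply DefP.isZero
          | apply DefP.isSucc | apply DefP.alt | apply DefP.exr | apply DefP.exl
          | apply DefP.side | apply DefP.oddCard | apply DefP.cardEq | apply DefP.cardLt
          | apply DefP.cardLe | apply DefP.lst | apply DefP.fst | apply DefP.nxt
          | apply DefP.keyLe | apply DefP.keyLt | apply DefP.rtc | (apply DefP.app4; assumption)
          | (apply DefP.app3'; assumption) | (apply DefP.app3; assumption)
          | (apply DefP.app2; assumption) | (apply DefP.comp; assumption) | exact Tm.id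
          | exact Tm.unit | apply Tm.fst | apply Tm.snd | apply Tm.app | exact DefP.const _
          | apply DefP.and | apply DefP.not | apply DefP.or | apply DefP.iff | apply DefP.adj
          | apply DefP.le | apply DefP.lt | apply DefP.eqFin | apply DefP.eq | apply DefP.rv
          | apply DefP.imp | apply DefP.allFin | apply DefP.exFin | apply DefP.all
          | apply DefP.ex | assumption | (apply Tm.comp; assumption) | apply Tm.pair
          | apply Tm.lam)))
        (DefP.and (by (repeat' (first
            | apply DefP.nOne | apply DefP.nZero | apply DefP.nSucc | apply DefP.nAdd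
            | apply DefP.nLt | apply DefP.nLe | apply DefP.nEq | apply DefP.hlf
            | apply DefP.p1le | apply DefP.p1 | apply DefP.p0 | apply DefP.aug | apply DefP.pth
            | apply DefP.nx | apply DefP.cnd | apply DefP.hmin | apply DefP.hit | apply DefP.cdn
            | apply DefP.firstEx | apply DefP.exN | apply DefP.end_ | apply DefP.isZero
            | apply DefP.isSucc | apply DefP.alt | apply DefP.exr | apply DefP.exl
            | apply DefP.side | apply DefP.oddCard | apply DefP.cardEq | apply DefP.cardLt
            | apply DefP.cardLe | apply DefP.lst | apply DefP.fst | apply DefP.nxt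
            | apply DefP.keyLe | apply DefP.keyLt | apply DefP.rtc
            | (apply DefP.app4; assumption) | (apply DefP.app3'; assumption)
            | (apply DefP.app3; assumption) | (apply DefP.app2; assumption)
            | (apply DefP.comp; assumption) | exact Tm.id | exact Tm.unit | apply Tm.fst
            | apply Tm.snd | apply Tm.app | exact DefP.const _ | apply DefP.and | apply DefP.not
            | apply DefP.or | apply DefP.iff | apply DefP.adj | apply DefP.le | apply DefP.lt
            | apply DefP.eqFin | apply DefP.eq | apply DefP.rv | apply DefP.imp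
            | apply DefP.allFin | apply DefP.exFin | apply DefP.all | apply DefP.ex | assumption
            | (apply Tm.comp; assumption) | apply Tm.pair
            | apply Tm.lam))) ?_)))) (by (repeat' (first
            | apply DefP.nOne | apply DefP.nZero | apply DefP.nSucc | apply DefP.nAdd
            | apply DefP.nLt | apply DefP.nLe | apply DefP.nEq | apply DefP.hlf
            | apply DefP.p1le | apply DefP.p1 | apply DefP.p0 | apply DefP.aug | apply DefP.pth
            | apply DefP.nx | apply DefP.cnd | apply DefP.hmin | apply DefP.hit | apply DefP.cdn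
            | apply DefP.firstEx | apply DefP.exN | apply DefP.end_ | apply DefP.isZero
            | apply DefP.isSucc | apply DefP.alt | apply DefP.exr | apply DefP.exl
            | apply DefP.side | apply DefP.oddCard | apply DefP.cardEq | apply DefP.cardLt
            | apply DefP.cardLe | apply DefP.lst | apply DefP.fst | apply DefP.nxt
            | apply DefP.keyLe | apply DefP.keyLt | apply DefP.rtc
            | (apply DefP.app4; assumption) | (apply DefP.app3'; assumption)
            | (apply DefP.app3; assumption) | (apply DefP.app2; assumption)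
            | (apply DefP.comp; assumption) | exact Tm.id | exact Tm.unit | apply Tm.fst
            | apply Tm.snd | apply Tm.app | exact DefP.const _ | apply DefP.and | apply DefP.not
            | apply DefP.or | apply DefP.iff | apply DefP.adj | apply DefP.le | apply DefP.lt
            | apply DefP.eqFin | apply DefP.eq | apply DefP.rv | apply DefP.imp
            | apply DefP.allFin | apply DefP.exFin | apply DefP.all | apply DefP.ex | assumption
            | (apply Tm.comp; assumption) | apply Tm.pair | apply Tm.lam)))
      exact DefP.comp (F := fun n => E n × (Fin n × Fin n))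
        (f := fun n (y : (E n × (S n × (Fin n × Fin n))) × (Fin n × Fin n)) => (y.1.1, y.2))
        hA (by (repeat' (first
            | apply DefP.nOne | apply DefP.nZero | apply DefP.nSucc | apply DefP.nAdd
            | apply DefP.nLt | apply DefP.nLe | apply DefP.nEq | apply DefP.hlf
            | apply DefP.p1le | apply DefP.p1 | apply DefP.p0 | apply DefP.aug | apply DefP.pth
            | apply DefP.nx | apply DefP.cnd | apply DefP.hmin | apply DefP.hit | apply DefP.cdn
            | apply DefP.firstEx | apply DefP.exN | apply DefP.end_ | apply DefP.isZero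
            | apply DefP.isSucc | apply DefP.alt | apply DefP.exr | apply DefP.exl
            | apply DefP.side | apply DefP.oddCard | apply DefP.cardEq | apply DefP.cardLt
            | apply DefP.cardLe | apply DefP.lst | apply DefP.fst | apply DefP.nxt
            | apply DefP.keyLe | apply DefP.keyLt | apply DefP.rtc
            | (apply DefP.app4; assumption) | (apply DefP.app3'; assumption)
            | (apply DefP.app3; assumption) | (apply DefP.app2; assumption)
            | (apply DefP.comp; assumption) | exact Tm.id | exact Tm.unit | apply Tm.fst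
            | apply Tm.snd | apply Tm.app | exact DefP.const _ | apply DefP.and | apply DefP.not
            | apply DefP.or | apply DefP.iff | apply DefP.adj | apply DefP.le | apply DefP.lt
            | apply DefP.eqFin | apply DefP.eq | apply DefP.rv | apply DefP.imp
            | apply DefP.allFin | apply DefP.exFin | apply DefP.all | apply DefP.ex | assumption
            | (apply Tm.comp; assumption) | apply Tm.pair | apply Tm.lam)))
    · exact DefP.comp (F := fun n => E n × ((Fin n × Fin n) × S n))
        (f := fun n (y : (E n × (S n × (Fin n × Fin n))) × ((Fin n × Fin n) × S n)) =>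
          (y.1.1, y.2)) hw (by (repeat' (first
              | apply DefP.nOne | apply DefP.nZero | apply DefP.nSucc | apply DefP.nAdd
              | apply DefP.nLt | apply DefP.nLe | apply DefP.nEq | apply DefP.hlf
              | apply DefP.p1le | apply DefP.p1 | apply DefP.p0 | apply DefP.aug
              | apply DefP.pth | apply DefP.nx | apply DefP.cnd | apply DefP.hmin
              | apply DefP.hit | apply DefP.cdn | apply DefP.firstEx | apply DefP.exN
              | apply DefP.end_ | apply DefP.isZero | apply DefP.isSucc | apply DefP.alt
              | apply DefP.exr | apply DefP.exl | apply DefP.side | apply DefP.oddCard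
              | apply DefP.cardEq | apply DefP.cardLt | apply DefP.cardLe | apply DefP.lst
              | apply DefP.fst | apply DefP.nxt | apply DefP.keyLe | apply DefP.keyLt
              | apply DefP.rtc | (apply DefP.app4; assumption) | (apply DefP.app3'; assumption)
              | (apply DefP.app3; assumption) | (apply DefP.app2; assumption)
              | (apply DefP.comp; assumption) | exact Tm.id | exact Tm.unit | apply Tm.fst
              | apply Tm.snd | apply Tm.app | exact DefP.const _ | apply DefP.and
              | apply DefP.not | apply DefP.or | apply DefP.iff | apply DefP.adj | apply DefP.le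
              | apply DefP.lt | apply DefP.eqFin | apply DefP.eq | apply DefP.rv
              | apply DefP.imp | apply DefP.allFin | apply DefP.exFin | apply DefP.all
              | apply DefP.ex | assumption | (apply Tm.comp; assumption) | apply Tm.pair
              | apply Tm.lam)))
    · (repeat' (first
        | apply DefP.nOne | apply DefP.nZero | apply DefP.nSucc | apply DefP.nAdd
        | apply DefP.nLt | apply DefP.nLe | apply DefP.nEq | apply DefP.hlf | apply DefP.p1le
        | apply DefP.p1 | apply DefP.p0 | apply DefP.aug | apply DefP.pth | apply DefP.nx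
        | apply DefP.cnd | apply DefP.hmin | apply DefP.hit | apply DefP.cdn
        | apply DefP.firstEx | apply DefP.exN | apply DefP.end_ | apply DefP.isZero
        | apply DefP.isSucc | apply DefP.alt | apply DefP.exr | apply DefP.exl | apply DefP.side
        | apply DefP.oddCard | apply DefP.cardEq | apply DefP.cardLt | apply DefP.cardLe
        | apply DefP.lst | apply DefP.fst | apply DefP.nxt | apply DefP.keyLe | apply DefP.keyLt
        | apply DefP.rtc | (apply DefP.app4; assumption) | (apply DefP.app3'; assumption)
        | (apply DefP.app3; assumption) | (apply DefP.app2; assumption)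
        | (apply DefP.comp; assumption) | exact Tm.id | exact Tm.unit | apply Tm.fst
        | apply Tm.snd | apply Tm.app | exact DefP.const _ | apply DefP.and | apply DefP.not
        | apply DefP.or | apply DefP.iff | apply DefP.adj | apply DefP.le | apply DefP.lt
        | apply DefP.eqFin | apply DefP.eq | apply DefP.rv | apply DefP.imp | apply DefP.allFin
        | apply DefP.exFin | apply DefP.all | apply DefP.ex | assumption
        | (apply Tm.comp; assumption) | apply Tm.pair | apply Tm.lam))

end def_

end Pool.Agent.PMNC
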