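import Mathlib
import Pool.Agent.Lib.MP_0087d5_lc.WPow
import Pool.Agent.Lib.MP_0087d5_lc.WCnt

set_option autoImplicit false
set_option linter.all false

/-!
# A small modulus that separates few numbers
-/

namespace Pool.Agent.PMNC

theorem exists_not_dvd {D L : ℕ} (hD : D ≠ 0) (hL : D ≤ 2 ^ L) :
    ∃ m, 2 ≤ m ∧ m ≤ 2 * (L + 4) ∧ ¬ m ∣ D := by
  by_contra hc
  push Not at hc
  set B := L + 4 with hB
  have hcb : Nat.centralBinom B ∣ D := by
    rw [← Nat.factorization_le_iff_dvd (Nat.centralBinom_ne_zero B) hD]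
    intro p
    by_cases hp : p.Prime
    · rw [← hp.pow_dvd_iff_le_factorization hD]
      have h1 : p ^ (Nat.centralBinom B).factorization p ≤ 2 * B := by
        rw [Nat.centralBinom_eq_two_mul_choose]
        exact Nat.pow_factorization_choose_le (by omega)
      rcases Nat.lt_or_ge (p ^ (Nat.centralBinom B).factorization p) 2 with h2 | h2
      · have h3 : 0 < p ^ (Nat.centralBinom B).factorization p := pow_pos hp.pos _
        rw [show p ^ (Nat.centralBinom B).factorization p = 1 by omega]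
        exact one_dvd _
      · exact hc _ h2 h1
    · rw [Nat.factorization_eq_zero_of_not_prime _ hp]
      exact Nat.zero_le _
  have h1 := Nat.le_of_dvd (Nat.pos_of_ne_zero hD) hcb
  have h2 := Nat.four_pow_lt_mul_centralBinom B (by omega)
  have h3 : B < 2 ^ B := Nat.lt_two_pow_self
  have h4 : 4 ^ B = 2 ^ B * 2 ^ B := by rw [← mul_pow]; norm_num
  have h5 : B * 2 ^ B ≤ 4 ^ B := by
    rw [h4]
    exact Nat.mul_le_mul_right _ h3.le
  have h6 : 2 ^ B < Nat.centralBinom B := by
    have : B * 2 ^ B < B * Nat.centralBinom B := lt_of_le_of_lt h5 h2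
    exact lt_of_mul_lt_mul_left this (Nat.zero_le _)
  have h7 : 2 ^ L ≤ 2 ^ B := Nat.pow_le_pow_right (by norm_num) (by omega)
  omega

theorem exists_sep {ι : Type*} [Fintype ι] (X : ι → ℕ) (hX : Function.Injective X) {L N : ℕ}
    (hL : ∀ i, X i ≤ 2 ^ L) (hN : Fintype.card ι ≤ N) :
    ∃ m, 2 ≤ m ∧ m ≤ 2 * (L * (N * N) + 4) ∧ ∀ i j, X i % m = X j % m → i = j := by
  classical
  let d : ι × ι → ℕ := fun p => (X p.1 - X p.2) + (X p.2 - X p.1)
  have hd : ∀ p ∈ (Finset.univ : Finset ι).offDiag, d p ≠ 0 := by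
    intro p hp h
    rw [Finset.mem_offDiag] at hp
    apply hp.2.2
    apply hX
    change (X p.1 - X p.2) + (X p.2 - X p.1) = 0 at h
    omega
  have hle : ∀ p ∈ (Finset.univ : Finset ι).offDiag, d p ≤ 2 ^ L := by
    intro p _
    have h1 := hL p.1
    have h2 := hL p.2
    change (X p.1 - X p.2) + (X p.2 - X p.1) ≤ _
    omega
  have hcard : ((Finset.univ : Finset ι).offDiag).card ≤ N * N := by
    rw [Finset.offDiag_card]
    have := Nat.mul_le_mul hN hN
    simp only [Finset.card_univ]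
    omega
  have hD : ∏ p ∈ (Finset.univ : Finset ι).offDiag, d p ≠ 0 := Finset.prod_ne_zero_iff.2 hd
  have hDL : ∏ p ∈ (Finset.univ : Finset ι).offDiag, d p ≤ 2 ^ (L * (N * N)) := by
    refine (Finset.prod_le_pow_card _ _ _ hle).trans ?_
    rw [← pow_mul]
    exact Nat.pow_le_pow_right (by norm_num) (Nat.mul_le_mul_left _ hcard)
  obtain ⟨m, h1, h2, h3⟩ := exists_not_dvd hD hDL
  refine ⟨m, h1, h2, fun i j hij => ?_⟩
  by_contra hne
  apply h3
  have hmem : (i, j) ∈ (Finset.univ : Finset ι).offDiag := by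
    rw [Finset.mem_offDiag]
    exact ⟨Finset.mem_univ _, Finset.mem_univ _, hne⟩
  refine dvd_trans ?_ (Finset.dvd_prod_of_mem d hmem)
  change m ∣ (X i - X j) + (X j - X i)
  have hij' : X i ≡ X j [MOD m] := hij
  rcases le_total (X i) (X j) with h | h
  · rw [show X i - X j = 0 by omega, zero_add]
    exact (Nat.modEq_iff_dvd' h).1 hij'
  · rw [show X j - X i = 0 by omega, add_zero]
    exact (Nat.modEq_iff_dvd' h).1 hij'.symm

section
variable {n : ℕ}

/-- the binary number of a perfect matching -/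
noncomputable def bn (f : Fin n → Fin n) : ℕ := ∑ i, 2 ^ eid i (f i)

theorem bn_le (f : Fin n → Fin n) : bn f ≤ 2 ^ (n ^ 2 + n) := by
  unfold bn
  calc ∑ i, 2 ^ eid i (f i) ≤ ∑ _i : Fin n, 2 ^ n ^ 2 :=
        Finset.sum_le_sum fun i _ => Nat.pow_le_pow_right (by norm_num) (eid_lt _ _).le
    _ = n * 2 ^ n ^ 2 := by simp
    _ ≤ 2 ^ n * 2 ^ n ^ 2 := Nat.mul_le_mul_right _ Nat.lt_two_pow_self.le
    _ = 2 ^ (n ^ 2 + n) := by rw [← pow_add, add_comm]

/-- the numbers of the edges -/
noncomputable def es (f : Fin n → Fin n) : Finset ℕ :=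
  (Finset.univ.filter fun i => i < f i).image fun i => nv (S := fun n => Fin n × Fin n) (i, f i)

theorem bn_eq {f : Fin n → Fin n} (hf : ∀ v, f (f v) = v) (hne : ∀ v, f v ≠ v) :
    bn f = 2 * ∑ k ∈ es f, 2 ^ k := by
  classical
  have h1 : ∑ k ∈ es f, 2 ^ k = ∑ i ∈ Finset.univ.filter (fun i => i < f i), 2 ^ eid i (f i) := by
    unfold es
    rw [Finset.sum_image]
    · refine Finset.sum_congr rfl fun i hi => ?_
      rw [Finset.mem_filter] at hi
      unfold eid
      rw [if_pos hi.2]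
    · intro i _ j _ h
      have := nv_injective (S := fun n => Fin n × Fin n) h
      rw [Prod.mk.injEq] at this
      exact this.1
  have h2 : ∑ i ∈ Finset.univ.filter (fun i => ¬ i < f i), 2 ^ eid i (f i) =
      ∑ i ∈ Finset.univ.filter (fun i => i < f i), 2 ^ eid i (f i) := by
    refine Finset.sum_nbij' f f ?_ ?_ ?_ ?_ ?_
    · intro i hi
      rw [Finset.mem_filter] at hi ⊢
      rw [hf]
      exact ⟨Finset.mem_univ _, lt_of_le_of_ne (not_lt.1 hi.2) (hne i)⟩
    · intro i hi
      rw [Finset.mem_filter] at hi ⊢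
      rw [hf]
      exact ⟨Finset.mem_univ _, not_lt.2 hi.2.le⟩
    · intro i _
      exact hf i
    · intro i _
      exact hf i
    · intro i _
      rw [hf, eid_comm]
  unfold bn
  rw [← Finset.sum_filter_add_sum_filter_not Finset.univ (fun i => i < f i), h2, h1, two_mul]

theorem es_inj {f g : Fin n → Fin n} (hf : ∀ v, f (f v) = v) (hne : ∀ v, f v ≠ v)
    (hg : ∀ v, g (g v) = v) (h : es f = es g) : f = g := by
  have key : ∀ i, i < f i → g i = f i := by
    intro i hi
    have : nv (S := fun n => Fin n × Fin n) (i, f i) ∈ es f :=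
      Finset.mem_image_of_mem _ (Finset.mem_filter.2 ⟨Finset.mem_univ _, hi⟩)
    rw [h] at this
    obtain ⟨j, hj, hj'⟩ := Finset.mem_image.1 this
    have := nv_injective (S := fun n => Fin n × Fin n) hj'
    rw [Prod.mk.injEq] at this
    rw [← this.1, this.2, this.1]
  funext i
  rcases lt_trichotomy i (f i) with hi | hi | hi
  · exact (key i hi).symm
  · exact absurd hi.symm (hne i)
  · have h1 := key (f i) (by rw [hf]; exact hi)
    rw [hf] at h1
    rw [← h1, hg, h1]

theorem bn_inj {f g : Fin n → Fin n} (hf : ∀ v, f (f v) = v) (hnf : ∀ v, f v ≠ v)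
    (hg : ∀ v, g (g v) = v) (hng : ∀ v, g v ≠ v) (h : bn f = bn g) : f = g := by
  rw [bn_eq hf hnf, bn_eq hg hng] at h
  have h1 : ∑ k ∈ es f, 2 ^ k = ∑ k ∈ es g, 2 ^ k := by omega
  exact es_inj hf hnf hg (Finset.geomSum_injective le_rfl h1)

/-- some modulus separates few perfect matchings -/
theorem exists_modulus {A : Fin n → Fin n → Prop} (hi : ∀ x, ¬ A x x) {N : ℕ}
    (hN : Nat.card {f // IsM A f} ≤ N) :
    ∃ m, 2 ≤ m ∧ m ≤ 2 * ((n ^ 2 + n) * (N * N) + 4) ∧
      ∀ f g, IsM A f → IsM A g → tw (wE m) f = tw (wE m) g → f = g := by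
  classical
  haveI : Fintype {f // IsM A f} := Fintype.ofFinite _
  have hne : ∀ f, IsM A f → ∀ v, f v ≠ v := by
    intro f hf v h
    have := hf.2 v
    rw [h] at this
    exact hi v this
  have hN' : Fintype.card {f // IsM A f} ≤ N := by
    rw [← Nat.card_eq_fintype_card]
    exact hN
  obtain ⟨m, h1, h2, h3⟩ := exists_sep (fun f : {f // IsM A f} => bn f.1) (fun f g h =>
    Subtype.ext (bn_inj f.2.1 (hne _ f.2) g.2.1 (hne _ g.2) h)) (fun f => bn_le f.1) hN'
  refine ⟨m, h1, h2, fun f g hf hg h => ?_⟩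
  have e : ∀ f : Fin n → Fin n, tw (wE m) f % m = bn f % m := by
    intro f
    unfold tw bn wE
    simp only [if_pos h1]
    rw [Finset.sum_nat_mod Finset.univ m (fun i => 2 ^ eid i (f i))]
  have := h3 ⟨f, hf⟩ ⟨g, hg⟩ (by
    simp only
    rw [← e, ← e, h])
  exact congrArg Subtype.val this

end

end Pool.Agent.PMNC
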