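import Mathlib
import Pool.Agent.Lib.MP_0087d5_lc.Interp

set_option autoImplicit false
set_option linter.all false

/-!
# Formulas evaluated in a definable graph on the same vertices
-/

namespace Pool.Agent.PMNC

theorem code_one {n : ℕ} (a : Fin n) : code (S := fun n => Fin n) a = [a] := rfl

theorem code_fin {n r : ℕ} (s : Fin r → Fin n) :
    code (S := fun n => Fin r → Fin n) s = List.ofFn s := by
  rw [code_pow]
  have : (fun a : Fin n => code (S := fun n => Fin n) a) = fun a => [a] := rfl
  change (List.ofFn s).flatMap (fun a : Fin n => [a]) = _
  rw [List.flatMap_singleton']

theorem liftS_fin {n r : ℕ} (R : (Fin r → Fin n) → Prop) :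
    liftS (S := fun n => Fin r → Fin n) R = lift R := by
  funext l
  unfold liftS lift
  simp only [code_fin]

theorem DefP.evalSub {E : ℕ → Type} [Env E]
    {H : ∀ n : ℕ, SimpleGraph (Fin n) → E n → SimpleGraph (Fin n)}
    (hH : DefP (E := fun n => E n × (Fin n × Fin n))
      (fun n G X y => (H n G y.1).Adj y.2.1 y.2.2)) :
    ∀ {k : ℕ} (φ : Fm k), DefP (E := fun n => E n × (Fin k → Fin n))
      (fun n G X y => φ.eval (H n G y.1) X y.2) := by
  intro k φ
  induction φ with
  | @adj k i j =>
    exact DefP.comp (F := fun n => E n × (Fin n × Fin n))
      (f := fun n (y : E n × (Fin k → Fin n)) => (y.1, (y.2 i, y.2 j))) hH (by (repeat' (first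
          | apply DefP.oddCard | apply DefP.cardEq | apply DefP.cardLt | apply DefP.cardLe
          | apply DefP.lst | apply DefP.fst | apply DefP.nxt | apply DefP.keyLe
          | apply DefP.keyLt | apply DefP.rtc | (apply DefP.app4; assumption)
          | (apply DefP.app3'; assumption) | (apply DefP.app3; assumption)
          | (apply DefP.app2; assumption) | (apply DefP.comp; assumption) | exact Tm.id
          | exact Tm.unit | apply Tm.fst | apply Tm.snd | apply Tm.app | exact DefP.const _
          | apply DefP.and | apply DefP.not | apply DefP.or | apply DefP.iff | apply DefP.adj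
          | apply DefP.le | apply DefP.lt | apply DefP.eqFin | apply DefP.eq | apply DefP.rv
          | apply DefP.imp | apply DefP.allFin | apply DefP.exFin | apply DefP.all
          | apply DefP.ex | assumption | (apply Tm.comp; assumption) | apply Tm.pair
          | apply Tm.lam)))
  | @lt k i j =>
    refine DefP.congr (P := fun n G X (y : E n × (Fin k → Fin n)) => y.2 i < y.2 j) (by (repeat' (first
        | apply DefP.oddCard | apply DefP.cardEq | apply DefP.cardLt | apply DefP.cardLe
        | apply DefP.lst | apply DefP.fst | apply DefP.nxt | apply DefP.keyLe | apply DefP.keyLt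
        | apply DefP.rtc | (apply DefP.app4; assumption) | (apply DefP.app3'; assumption)
        | (apply DefP.app3; assumption) | (apply DefP.app2; assumption)
        | (apply DefP.comp; assumption) | exact Tm.id | exact Tm.unit | apply Tm.fst
        | apply Tm.snd | apply Tm.app | exact DefP.const _ | apply DefP.and | apply DefP.not
        | apply DefP.or | apply DefP.iff | apply DefP.adj | apply DefP.le | apply DefP.lt
        | apply DefP.eqFin | apply DefP.eq | apply DefP.rv | apply DefP.imp | apply DefP.allFin
        | apply DefP.exFin | apply DefP.all | apply DefP.ex | assumption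
        | (apply Tm.comp; assumption) | apply Tm.pair | apply Tm.lam))) ?_
    intro n G X y
    exact Iff.rfl
  | @rel k s l =>
    refine ⟨.rel s (l.map fun i => Fin.natAdd (dim E) (finProdFinEquiv (i, (0 : Fin 1)))),
      fun n G X y => ?_⟩
    simp only [Fm.eval]
    rw [List.map_map]
    have : ((vec (E := fun n => E n × (Fin k → Fin n)) n y) ∘ fun i : Fin k =>
        Fin.natAdd (dim E) (finProdFinEquiv (i, (0 : Fin 1)))) = y.2 := by
      funext i
      rw [Function.comp_apply]
      change Fin.append (vec n y.1) (vec (E := fun n => Fin k → Fin n) n y.2) _ = _
      rw [Fin.append_right, vec_pow]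
      simp
      rfl
    rw [this]
  | neg φ ih => exact ih.not
  | and φ ψ ih1 ih2 => exact ih1.and ih2
  | @ex k φ ih =>
    have hsn : Tm (E := fun n => (E n × (Fin k → Fin n)) × Fin n)
        (F := fun n => E n × (Fin (k + 1) → Fin n))
        (fun n y => (y.1.1, Fin.snoc (α := fun _ => Fin n) y.1.2 y.2)) := by
      refine Tm.pair (by (repeat' (first
          | apply DefP.oddCard | apply DefP.cardEq | apply DefP.cardLt | apply DefP.cardLe
          | apply DefP.lst | apply DefP.fst | apply DefP.nxt | apply DefP.keyLe
          | apply DefP.keyLt | apply DefP.rtc | (apply DefP.app4; assumption)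
          | (apply DefP.app3'; assumption) | (apply DefP.app3; assumption)
          | (apply DefP.app2; assumption) | (apply DefP.comp; assumption) | exact Tm.id
          | exact Tm.unit | apply Tm.fst | apply Tm.snd | apply Tm.app | exact DefP.const _
          | apply DefP.and | apply DefP.not | apply DefP.or | apply DefP.iff | apply DefP.adj
          | apply DefP.le | apply DefP.lt | apply DefP.eqFin | apply DefP.eq | apply DefP.rv
          | apply DefP.imp | apply DefP.allFin | apply DefP.exFin | apply DefP.all
          | apply DefP.ex | assumption | (apply Tm.comp; assumption) | apply Tm.pair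
          | apply Tm.lam))) (Tm.lam fun i => ?_)
      refine Fin.lastCases ?_ (fun j => ?_) i
      · simp only [Fin.snoc_last]
        (repeat' (first
            | apply DefP.oddCard | apply DefP.cardEq | apply DefP.cardLt | apply DefP.cardLe
            | apply DefP.lst | apply DefP.fst | apply DefP.nxt | apply DefP.keyLe
            | apply DefP.keyLt | apply DefP.rtc | (apply DefP.app4; assumption)
            | (apply DefP.app3'; assumption) | (apply DefP.app3; assumption)
            | (apply DefP.app2; assumption) | (apply DefP.comp; assumption) | exact Tm.id
            | exact Tm.unit | apply Tm.fst | apply Tm.snd | apply Tm.app | exact DefP.const _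
            | apply DefP.and | apply DefP.not | apply DefP.or | apply DefP.iff | apply DefP.adj
            | apply DefP.le | apply DefP.lt | apply DefP.eqFin | apply DefP.eq | apply DefP.rv
            | apply DefP.imp | apply DefP.allFin | apply DefP.exFin | apply DefP.all
            | apply DefP.ex | assumption | (apply Tm.comp; assumption) | apply Tm.pair
            | apply Tm.lam))
      · simp only [Fin.snoc_castSucc]
        (repeat' (first
            | apply DefP.oddCard | apply DefP.cardEq | apply DefP.cardLt | apply DefP.cardLe
            | apply DefP.lst | apply DefP.fst | apply DefP.nxt | apply DefP.keyLe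
            | apply DefP.keyLt | apply DefP.rtc | (apply DefP.app4; assumption)
            | (apply DefP.app3'; assumption) | (apply DefP.app3; assumption)
            | (apply DefP.app2; assumption) | (apply DefP.comp; assumption) | exact Tm.id
            | exact Tm.unit | apply Tm.fst | apply Tm.snd | apply Tm.app | exact DefP.const _
            | apply DefP.and | apply DefP.not | apply DefP.or | apply DefP.iff | apply DefP.adj
            | apply DefP.le | apply DefP.lt | apply DefP.eqFin | apply DefP.eq | apply DefP.rv
            | apply DefP.imp | apply DefP.allFin | apply DefP.exFin | apply DefP.all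
            | apply DefP.ex | assumption | (apply Tm.comp; assumption) | apply Tm.pair
            | apply Tm.lam))
    exact DefP.exFin (DefP.comp (F := fun n => E n × (Fin (k + 1) → Fin n)) ih hsn)
  | @iter k r c φ₀ φ l ih₀ ih =>
    have happ : Tm (E := fun n => (E n × (Fin k → Fin n)) × (Fin r → Fin n))
        (F := fun n => E n × (Fin (k + r) → Fin n)) (fun n y => (y.1.1, Fin.append y.1.2 y.2)) := by
      refine Tm.pair (by (repeat' (first
          | apply DefP.oddCard | apply DefP.cardEq | apply DefP.cardLt | apply DefP.cardLe
          | apply DefP.lst | apply DefP.fst | apply DefP.nxt | apply DefP.keyLe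
          | apply DefP.keyLt | apply DefP.rtc | (apply DefP.app4; assumption)
          | (apply DefP.app3'; assumption) | (apply DefP.app3; assumption)
          | (apply DefP.app2; assumption) | (apply DefP.comp; assumption) | exact Tm.id
          | exact Tm.unit | apply Tm.fst | apply Tm.snd | apply Tm.app | exact DefP.const _
          | apply DefP.and | apply DefP.not | apply DefP.or | apply DefP.iff | apply DefP.adj
          | apply DefP.le | apply DefP.lt | apply DefP.eqFin | apply DefP.eq | apply DefP.rv
          | apply DefP.imp | apply DefP.allFin | apply DefP.exFin | apply DefP.all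
          | apply DefP.ex | assumption | (apply Tm.comp; assumption) | apply Tm.pair
          | apply Tm.lam))) (Tm.lam fun i => ?_)
      refine Fin.addCases (fun j => ?_) (fun j => ?_) i
      · simp only [Fin.append_left]
        (repeat' (first
            | apply DefP.oddCard | apply DefP.cardEq | apply DefP.cardLt | apply DefP.cardLe
            | apply DefP.lst | apply DefP.fst | apply DefP.nxt | apply DefP.keyLe
            | apply DefP.keyLt | apply DefP.rtc | (apply DefP.app4; assumption)
            | (apply DefP.app3'; assumption) | (apply DefP.app3; assumption)
            | (apply DefP.app2; assumption) | (apply DefP.comp; assumption) | exact Tm.id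
            | exact Tm.unit | apply Tm.fst | apply Tm.snd | apply Tm.app | exact DefP.const _
            | apply DefP.and | apply DefP.not | apply DefP.or | apply DefP.iff | apply DefP.adj
            | apply DefP.le | apply DefP.lt | apply DefP.eqFin | apply DefP.eq | apply DefP.rv
            | apply DefP.imp | apply DefP.allFin | apply DefP.exFin | apply DefP.all
            | apply DefP.ex | assumption | (apply Tm.comp; assumption) | apply Tm.pair
            | apply Tm.lam))
      · simp only [Fin.append_right]
        (repeat' (first
            | apply DefP.oddCard | apply DefP.cardEq | apply DefP.cardLt | apply DefP.cardLe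
            | apply DefP.lst | apply DefP.fst | apply DefP.nxt | apply DefP.keyLe
            | apply DefP.keyLt | apply DefP.rtc | (apply DefP.app4; assumption)
            | (apply DefP.app3'; assumption) | (apply DefP.app3; assumption)
            | (apply DefP.app2; assumption) | (apply DefP.comp; assumption) | exact Tm.id
            | exact Tm.unit | apply Tm.fst | apply Tm.snd | apply Tm.app | exact DefP.const _
            | apply DefP.and | apply DefP.not | apply DefP.or | apply DefP.iff | apply DefP.adj
            | apply DefP.le | apply DefP.lt | apply DefP.eqFin | apply DefP.eq | apply DefP.rv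
            | apply DefP.imp | apply DefP.allFin | apply DefP.exFin | apply DefP.all
            | apply DefP.ex | assumption | (apply Tm.comp; assumption) | apply Tm.pair
            | apply Tm.lam))
    have hcomp : Tm (E := fun n => E n × (Fin k → Fin n))
        (F := fun n => (E n × (Fin k → Fin n)) × (Fin r → Fin n))
        (fun n y => (y, fun i => y.2 (l i))) := by
      refine Tm.pair (by (repeat' (first
          | apply DefP.oddCard | apply DefP.cardEq | apply DefP.cardLt | apply DefP.cardLe
          | apply DefP.lst | apply DefP.fst | apply DefP.nxt | apply DefP.keyLe
          | apply DefP.keyLt | apply DefP.rtc | (apply DefP.app4; assumption)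
          | (apply DefP.app3'; assumption) | (apply DefP.app3; assumption)
          | (apply DefP.app2; assumption) | (apply DefP.comp; assumption) | exact Tm.id
          | exact Tm.unit | apply Tm.fst | apply Tm.snd | apply Tm.app | exact DefP.const _
          | apply DefP.and | apply DefP.not | apply DefP.or | apply DefP.iff | apply DefP.adj
          | apply DefP.le | apply DefP.lt | apply DefP.eqFin | apply DefP.eq | apply DefP.rv
          | apply DefP.imp | apply DefP.allFin | apply DefP.exFin | apply DefP.all
          | apply DefP.ex | assumption | (apply Tm.comp; assumption) | apply Tm.pair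
          | apply Tm.lam))) (Tm.lam fun i => ?_)
      (repeat' (first
          | apply DefP.oddCard | apply DefP.cardEq | apply DefP.cardLt | apply DefP.cardLe
          | apply DefP.lst | apply DefP.fst | apply DefP.nxt | apply DefP.keyLe
          | apply DefP.keyLt | apply DefP.rtc | (apply DefP.app4; assumption)
          | (apply DefP.app3'; assumption) | (apply DefP.app3; assumption)
          | (apply DefP.app2; assumption) | (apply DefP.comp; assumption) | exact Tm.id
          | exact Tm.unit | apply Tm.fst | apply Tm.snd | apply Tm.app | exact DefP.const _
          | apply DefP.and | apply DefP.not | apply DefP.or | apply DefP.iff | apply DefP.adj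
          | apply DefP.le | apply DefP.lt | apply DefP.eqFin | apply DefP.eq | apply DefP.rv
          | apply DefP.imp | apply DefP.allFin | apply DefP.exFin | apply DefP.all
          | apply DefP.ex | assumption | (apply Tm.comp; assumption) | apply Tm.pair
          | apply Tm.lam))
    have h1 := DefP.iterRaw (E := fun n => E n × (Fin k → Fin n)) (S := fun n => Fin r → Fin n) c
      (I := fun n G X y u => φ₀.eval (H n G y.1) X (Fin.append y.2 u))
      (P := fun n G X y u => φ.eval (H n G y.1) X (Fin.append y.2 u))
      (DefP.comp (F := fun n => E n × (Fin (k + r) → Fin n)) ih₀ happ)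
      (DefP.comp (F := fun n => E n × (Fin (k + r) → Fin n)) ih happ)
    have h3 := DefP.comp (F := fun n => (E n × (Fin k → Fin n)) × (Fin r → Fin n)) h1 hcomp
    refine h3.congr ?_
    intro n G X y
    simp only [Fm.eval]
    simp only [liftS_fin]
    rfl

/-- a definable property of a definable graph -/
theorem DefP.subst {E : ℕ → Type} [Env E] {P : ∀ n : ℕ, SimpleGraph (Fin n) → Prop}
    (hP : DefP (E := fun _ => Unit) (fun n G X _ => P n G))
    {H : ∀ n : ℕ, SimpleGraph (Fin n) → E n → SimpleGraph (Fin n)}
    (hH : DefP (E := fun n => E n × (Fin n × Fin n))
      (fun n G X y => (H n G y.1).Adj y.2.1 y.2.2)) :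
    DefP (fun n G X x => P n (H n G x)) := by
  obtain ⟨φ, hφ⟩ := hP
  have h1 := DefP.evalSub hH φ
  have h2 : Tm (E := E) (F := fun n => E n × (Fin (dim fun _ => Unit) → Fin n))
      (fun n x => (x, vec (E := fun _ => Unit) n ())) :=
    Tm.pair Tm.id (Tm.lam fun i => Fin.elim0 i)
  exact (DefP.comp (F := fun n => E n × (Fin (dim fun _ => Unit) → Fin n)) h1 h2).congr
    fun n G X x => hφ n (H n G x) X ()

end Pool.Agent.PMNC
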