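import Mathlib
import Pool.Agent.Lib.MP_0087d5_lc.WList
import Pool.Agent.Lib.MP_0087d5_lc.WSub
import Pool.Agent.Lib.MP_0087d5_lc.WPr

set_option autoImplicit false
set_option linter.all false

/-!
# Graphs with at least one and at most `n ^ c` perfect matchings
-/

namespace Pool.Agent.PMNC

section
variable {n : ℕ} {S : ℕ → Type} [Env S]

/-- the candidate with doubled weight `a`, for the weights modulo `m` -/
def cM (G : SimpleGraph (Fin n)) (m a : S n) (x y : Fin n) : Prop :=
  cnW nv G.Adj (wE (nv m)) a x y

/-- the test -/
def fwT (c : ℕ) (G : SimpleGraph (Fin n)) (m : S n) : Prop :=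
  tsL G (cM G m) ∧ Nat.card {a // rpL G (cM G m) a} ≤ Nat.card {t : Fin c → Fin n // True}

theorem card_pm (G : SimpleGraph (Fin n)) :
    Nat.card {M : G.Subgraph // M.IsPerfectMatching} = Nat.card {f // IsM G.Adj f} := by
  symm
  refine Nat.card_congr (Equiv.ofBijective (fun f : {f // IsM G.Adj f} =>
    (⟨subOf f.2, subOf_pm f.2⟩ : {M : G.Subgraph // M.IsPerfectMatching})) ⟨?_, ?_⟩)
  · rintro ⟨f, hf⟩ ⟨g, hg⟩ h
    have h1 : subOf hf = subOf hg := congrArg Subtype.val h
    apply Subtype.ext
    funext v
    have h2 : (subOf hg).Adj v (f v) := by
      rw [← h1]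
      exact rfl
    exact h2
  · rintro ⟨M, hM⟩
    obtain ⟨f, hf, hMf⟩ := exists_map hM
    refine ⟨⟨f, hf⟩, ?_⟩
    apply Subtype.ext
    ext v w
    · exact ⟨fun _ => hM.2 v, fun _ => Set.mem_univ _⟩
    · exact (hMf v w).symm

theorem bound {n c K : ℕ} (hn : 2 ≤ n) (hK : K = 2 * c + 7) :
    n * (2 * ((n ^ 2 + n) * (n ^ c * n ^ c) + 4)) < n ^ K := by
  subst hK
  have e : n ^ (2 * c + 7) = n ^ 7 * (n ^ c * n ^ c) := by ring
  rw [e]
  have h1 : 1 ≤ n ^ c * n ^ c := Nat.one_le_iff_ne_zero.2 (by positivity)
  generalize n ^ c * n ^ c = t at h1 ⊢
  have h2 : n * (2 * ((n ^ 2 + n) * t + 4)) ≤ n * (2 * ((n ^ 2 + n + 4) * t)) := by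
    apply Nat.mul_le_mul_left
    apply Nat.mul_le_mul_left
    nlinarith
  have h3 : n ^ 2 + n + 4 ≤ n ^ 4 := by nlinarith [pow_two n, mul_self_nonneg (n - 2 : ℤ), sq_nonneg (n ^ 2 : ℕ), show n ^ 4 = n ^ 2 * n ^ 2 by ring, show 4 ≤ n ^ 2 by nlinarith]
  have h4 : n * (2 * ((n ^ 2 + n + 4) * t)) ≤ n * (n * (n ^ 4 * t)) := by
    apply Nat.mul_le_mul_left
    exact Nat.mul_le_mul hn (Nat.mul_le_mul_right _ h3)
  have h5 : n * (n * (n ^ 4 * t)) = n ^ 6 * t := by ring
  have h6 : n ^ 6 * t < n ^ 7 * t := by
    apply Nat.mul_lt_mul_of_pos_right _ h1
    exact Nat.pow_lt_pow_right (by omega) (by omega)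
  omega

theorem fwT_iff {c : ℕ} (hS : dim S = 2 * c + 7) (hn : 2 ≤ n) (G : SimpleGraph (Fin n)) :
    (∃ m : S n, fwT c G m) ↔
      (1 ≤ Nat.card {f // IsM G.Adj f} ∧ Nat.card {f // IsM G.Adj f} ≤ n ^ c) := by
  have hcard : Nat.card {t : Fin c → Fin n // True} = n ^ c := by
    rw [Nat.card_congr (Equiv.subtypeUnivEquiv (fun _ => trivial))]
    simp
  constructor
  · rintro ⟨m, h1, h2⟩
    have hs := fun f (hf : IsM G.Adj f) => tsL_sound h1 hf
    have h3 := card_rpL (G := G) (C := cM G m) (fun f hf => by
      obtain ⟨a, _, ha⟩ := hs f hf
      exact ⟨a, ha⟩)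
    rw [h3, hcard] at h2
    refine ⟨?_, h2⟩
    obtain ⟨a, ha⟩ := h1.1
    obtain ⟨f, hf, _⟩ := map_of_isPM ha
    haveI : Nonempty {f // IsM G.Adj f} := ⟨⟨f, hf⟩⟩
    haveI : Finite {f // IsM G.Adj f} := inferInstance
    exact Nat.one_le_iff_ne_zero.2 Nat.card_pos.ne'
  · rintro ⟨h1, h2⟩
    obtain ⟨N, rfl⟩ : ∃ N, n = N + 1 := ⟨n - 1, by omega⟩
    obtain ⟨m₀, h3, h4, h5⟩ := exists_modulus (A := G.Adj) (fun x => G.irrefl) h2
    have hb := bound (c := c) hn hS.symm.symm
    obtain ⟨m, hm⟩ := nv_surj (S := S) (n := N + 1) (m := m₀) (by
      refine lt_of_le_of_lt ?_ hb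
      refine h4.trans ?_
      exact Nat.le_mul_of_pos_left _ (by omega))
    have key : ∀ f, IsM G.Adj f → ∃ a, ∀ x y, cM G m a x y ↔ y = f x := by
      intro f hf
      have h6 : tw (wE m₀) f < (N + 1) ^ dim S := by
        refine lt_of_le_of_lt ?_ hb
        unfold tw
        calc ∑ i, wE m₀ i (f i) ≤ ∑ _i : Fin (N + 1), m₀ :=
              Finset.sum_le_sum fun i _ => by
                unfold wE
                rw [if_pos h3]
                exact (Nat.mod_lt _ (by omega)).le
          _ = (N + 1) * m₀ := by simp
          _ ≤ _ := Nat.mul_le_mul_left _ h4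
      obtain ⟨a, ha⟩ := nv_surj (S := S) (n := N + 1) h6
      refine ⟨a, fun x y => ?_⟩
      unfold cM
      rw [hm]
      exact cnW_iff dn_nv (fun x y h => h.symm) (fun x => G.irrefl) (wE_comm m₀) hf ha.symm
        (fun g hg hg' => h5 g f hg hf (by rw [hg', ha]))
    refine ⟨m, tsL_complete ?_ key, ?_⟩
    · have : Nonempty {f // IsM G.Adj f} := by
        by_contra hc
        rw [not_nonempty_iff] at hc
        rw [Nat.card_of_isEmpty] at h1
        omega
      obtain ⟨f, hf⟩ := this
      exact ⟨f, hf⟩
    · rw [card_rpL key, hcard]
      exact h2

end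

section
variable {S : ℕ → Type} [Env S]

theorem defP_cM (hS : 2 ≤ dim S) : DefP (E := fun n => S n × (S n × (Fin n × Fin n)))
    (fun n G X y => cM G y.1 y.2.1 y.2.2.1 y.2.2.2) := by
  unfold cM
  exact DefP.cnW (E := S) (S := S) (A := fun n G X e u v => G.Adj u v)
    (w := fun n G e => wE (nv e)) (by (repeat' (first
        | apply DefP.nOne | apply DefP.nZero | apply DefP.nSucc | apply DefP.nAdd
        | apply DefP.nLt | apply DefP.nLe | apply DefP.nEq | apply DefP.ltRd | apply DefP.updRd
        | apply DefP.chRd | apply DefP.relRd | apply DefP.qRd | apply DefP.phRd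
        | apply DefP.spRd | apply DefP.dRd | apply DefP.psRd | apply DefP.stRd | apply DefP.avRd
        | apply DefP.sRd | apply DefP.hlf | apply DefP.p1le | apply DefP.p1 | apply DefP.p0
        | apply DefP.aug | apply DefP.pth | apply DefP.nx | apply DefP.cnd | apply DefP.hmin
        | apply DefP.hit | apply DefP.cdn | apply DefP.firstEx | apply DefP.exN
        | apply DefP.end_ | apply DefP.isZero | apply DefP.isSucc | apply DefP.alt
        | apply DefP.exr | apply DefP.exl | apply DefP.side | apply DefP.oddCard
        | apply DefP.cardEq | apply DefP.cardLt | apply DefP.cardLe | apply DefP.lst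
        | apply DefP.fst | apply DefP.nxt | apply DefP.keyLe | apply DefP.keyLt | apply DefP.rtc
        | (apply DefP.app4; assumption) | (apply DefP.app3'; assumption)
        | (apply DefP.app3; assumption) | (apply DefP.app2; assumption)
        | (apply DefP.comp; assumption) | exact Tm.id | exact Tm.unit | apply Tm.fst
        | apply Tm.snd | apply Tm.app | exact DefP.const _ | apply DefP.and | apply DefP.not
        | apply DefP.or | apply DefP.iff | apply DefP.adj | apply DefP.le | apply DefP.lt
        | apply DefP.eqFin | apply DefP.eq | apply DefP.rv | apply DefP.imp | apply DefP.allFin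
        | apply DefP.exFin | apply DefP.all | apply DefP.ex | assumption
        | (apply Tm.comp; assumption) | apply Tm.pair | apply Tm.lam))) (DefP.wE hS Tm.id)

theorem defP_isPM (hS : 2 ≤ dim S) : DefP (E := fun n => S n × S n)
    (fun n G X y => IsPM G (cM G y.1 y.2)) := by
  have h := defP_cM hS
  have h' : ∀ {E : ℕ → Type} [Env E] {a b : ∀ n, E n → S n} {u v : ∀ n, E n → Fin n}
      (_ : Tm a) (_ : Tm b) (_ : Tm (F := fun n => Fin n) u) (_ : Tm (F := fun n => Fin n) v),
      DefP (fun n G X x => cM G (a n x) (b n x) (u n x) (v n x)) := by
    intro E _ a b u v ha hb hu hv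
    exact DefP.comp (F := fun n => S n × (S n × (Fin n × Fin n)))
      (f := fun n x => (a n x, (b n x, (u n x, v n x)))) h
      (ha.pair (hb.pair (Tm.pair (F := fun n => Fin n) (H := fun n => Fin n) hu hv)))
  unfold IsPM
  refine DefP.allFin (DefP.and (DefP.exFin (h' ?_ ?_ ?_ ?_)) (DefP.allFin (DefP.imp
    (h' ?_ ?_ ?_ ?_) (DefP.and (by (repeat' (first
        | apply DefP.nOne | apply DefP.nZero | apply DefP.nSucc | apply DefP.nAdd
        | apply DefP.nLt | apply DefP.nLe | apply DefP.nEq | apply DefP.ltRd | apply DefP.updRd
        | apply DefP.chRd | apply DefP.relRd | apply DefP.qRd | apply DefP.phRd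
        | apply DefP.spRd | apply DefP.dRd | apply DefP.psRd | apply DefP.stRd | apply DefP.avRd
        | apply DefP.sRd | apply DefP.hlf | apply DefP.p1le | apply DefP.p1 | apply DefP.p0
        | apply DefP.aug | apply DefP.pth | apply DefP.nx | apply DefP.cnd | apply DefP.hmin
        | apply DefP.hit | apply DefP.cdn | apply DefP.firstEx | apply DefP.exN
        | apply DefP.end_ | apply DefP.isZero | apply DefP.isSucc | apply DefP.alt
        | apply DefP.exr | apply DefP.exl | apply DefP.side | apply DefP.oddCard
        | apply DefP.cardEq | apply DefP.cardLt | apply DefP.cardLe | apply DefP.lst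
        | apply DefP.fst | apply DefP.nxt | apply DefP.keyLe | apply DefP.keyLt | apply DefP.rtc
        | (apply DefP.app4; assumption) | (apply DefP.app3'; assumption)
        | (apply DefP.app3; assumption) | (apply DefP.app2; assumption)
        | (apply DefP.comp; assumption) | exact Tm.id | exact Tm.unit | apply Tm.fst
        | apply Tm.snd | apply Tm.app | exact DefP.const _ | apply DefP.and | apply DefP.not
        | apply DefP.or | apply DefP.iff | apply DefP.adj | apply DefP.le | apply DefP.lt
        | apply DefP.eqFin | apply DefP.eq | apply DefP.rv | apply DefP.imp | apply DefP.allFin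
        | apply DefP.exFin | apply DefP.all | apply DefP.ex | assumption
        | (apply Tm.comp; assumption) | apply Tm.pair
        | apply Tm.lam))) (DefP.and (h' ?_ ?_ ?_ ?_) (DefP.allFin (DefP.imp
      (h' ?_ ?_ ?_ ?_) (by (repeat' (first
          | apply DefP.nOne | apply DefP.nZero | apply DefP.nSucc | apply DefP.nAdd
          | apply DefP.nLt | apply DefP.nLe | apply DefP.nEq | apply DefP.ltRd
          | apply DefP.updRd | apply DefP.chRd | apply DefP.relRd | apply DefP.qRd
          | apply DefP.phRd | apply DefP.spRd | apply DefP.dRd | apply DefP.psRd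
          | apply DefP.stRd | apply DefP.avRd | apply DefP.sRd | apply DefP.hlf
          | apply DefP.p1le | apply DefP.p1 | apply DefP.p0 | apply DefP.aug | apply DefP.pth
          | apply DefP.nx | apply DefP.cnd | apply DefP.hmin | apply DefP.hit | apply DefP.cdn
          | apply DefP.firstEx | apply DefP.exN | apply DefP.end_ | apply DefP.isZero
          | apply DefP.isSucc | apply DefP.alt | apply DefP.exr | apply DefP.exl
          | apply DefP.side | apply DefP.oddCard | apply DefP.cardEq | apply DefP.cardLt
          | apply DefP.cardLe | apply DefP.lst | apply DefP.fst | apply DefP.nxt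
          | apply DefP.keyLe | apply DefP.keyLt | apply DefP.rtc | (apply DefP.app4; assumption)
          | (apply DefP.app3'; assumption) | (apply DefP.app3; assumption)
          | (apply DefP.app2; assumption) | (apply DefP.comp; assumption) | exact Tm.id
          | exact Tm.unit | apply Tm.fst | apply Tm.snd | apply Tm.app | exact DefP.const _
          | apply DefP.and | apply DefP.not | apply DefP.or | apply DefP.iff | apply DefP.adj
          | apply DefP.le | apply DefP.lt | apply DefP.eqFin | apply DefP.eq | apply DefP.rv
          | apply DefP.imp | apply DefP.allFin | apply DefP.exFin | apply DefP.all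
          | apply DefP.ex | assumption | (apply Tm.comp; assumption) | apply Tm.pair
          | apply Tm.lam))))))))))
  all_goals (repeat' (first
      | apply DefP.nOne | apply DefP.nZero | apply DefP.nSucc | apply DefP.nAdd | apply DefP.nLt
      | apply DefP.nLe | apply DefP.nEq | apply DefP.ltRd | apply DefP.updRd | apply DefP.chRd
      | apply DefP.relRd | apply DefP.qRd | apply DefP.phRd | apply DefP.spRd | apply DefP.dRd
      | apply DefP.psRd | apply DefP.stRd | apply DefP.avRd | apply DefP.sRd | apply DefP.hlf
      | apply DefP.p1le | apply DefP.p1 | apply DefP.p0 | apply DefP.aug | apply DefP.pth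
      | apply DefP.nx | apply DefP.cnd | apply DefP.hmin | apply DefP.hit | apply DefP.cdn
      | apply DefP.firstEx | apply DefP.exN | apply DefP.end_ | apply DefP.isZero
      | apply DefP.isSucc | apply DefP.alt | apply DefP.exr | apply DefP.exl | apply DefP.side
      | apply DefP.oddCard | apply DefP.cardEq | apply DefP.cardLt | apply DefP.cardLe
      | apply DefP.lst | apply DefP.fst | apply DefP.nxt | apply DefP.keyLe | apply DefP.keyLt
      | apply DefP.rtc | (apply DefP.app4; assumption) | (apply DefP.app3'; assumption)
      | (apply DefP.app3; assumption) | (apply DefP.app2; assumption)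
      | (apply DefP.comp; assumption) | exact Tm.id | exact Tm.unit | apply Tm.fst
      | apply Tm.snd | apply Tm.app | exact DefP.const _ | apply DefP.and | apply DefP.not
      | apply DefP.or | apply DefP.iff | apply DefP.adj | apply DefP.le | apply DefP.lt
      | apply DefP.eqFin | apply DefP.eq | apply DefP.rv | apply DefP.imp | apply DefP.allFin
      | apply DefP.exFin | apply DefP.all | apply DefP.ex | assumption
      | (apply Tm.comp; assumption) | apply Tm.pair | apply Tm.lam))

theorem defP_rg (hS : 2 ≤ dim S) : DefP (E := fun n => (S n × S n) × (Fin n × Fin n))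
    (fun n G X y => (rg G (cM G y.1.1) y.1.2).Adj y.2.1 y.2.2) := by
  have h := defP_cM hS
  have h' : ∀ {E : ℕ → Type} [Env E] {a b : ∀ n, E n → S n} {u v : ∀ n, E n → Fin n}
      (_ : Tm a) (_ : Tm b) (_ : Tm (F := fun n => Fin n) u) (_ : Tm (F := fun n => Fin n) v),
      DefP (fun n G X x => cM G (a n x) (b n x) (u n x) (v n x)) := by
    intro E _ a b u v ha hb hu hv
    exact DefP.comp (F := fun n => S n × (S n × (Fin n × Fin n)))
      (f := fun n x => (a n x, (b n x, (u n x, v n x)))) h
      (ha.pair (hb.pair (Tm.pair (F := fun n => Fin n) (H := fun n => Fin n) hu hv)))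
  have hP := defP_isPM hS
  have hdif : ∀ {E : ℕ → Type} [Env E] {m a b : ∀ n, E n → S n} {u v : ∀ n, E n → Fin n}
      (_ : Tm m) (_ : Tm a) (_ : Tm b) (_ : Tm (F := fun n => Fin n) u)
      (_ : Tm (F := fun n => Fin n) v),
      DefP (fun n G X x => dif (cM G (m n x)) (a n x) (b n x) (u n x) (v n x)) := by
    intro E _ m a b u v hm ha hb hu hv
    unfold dif
    exact DefP.and (DefP.lt hu hv) (DefP.iff (h' hm ha hu hv) (DefP.not (h' hm hb hu hv)))
  have hfdf : DefP (E := fun n => S n × ((S n × S n) × (Fin n × Fin n)))
      (fun n G X x => fdf (cM G x.1) x.2.1.1 x.2.1.2 x.2.2.1 x.2.2.2) := by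
    unfold fdf pn
    refine DefP.and (hdif ?_ ?_ ?_ ?_ ?_) (DefP.allFin (DefP.allFin (DefP.imp
      (DefP.nLt (F := fun n => Fin n × Fin n) (H := fun n => Fin n × Fin n) ?_ ?_)
      (DefP.not (hdif ?_ ?_ ?_ ?_ ?_)))))
    all_goals (repeat' (first
        | apply DefP.nOne | apply DefP.nZero | apply DefP.nSucc | apply DefP.nAdd
        | apply DefP.nLt | apply DefP.nLe | apply DefP.nEq | apply DefP.ltRd | apply DefP.updRd
        | apply DefP.chRd | apply DefP.relRd | apply DefP.qRd | apply DefP.phRd
        | apply DefP.spRd | apply DefP.dRd | apply DefP.psRd | apply DefP.stRd | apply DefP.avRd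
        | apply DefP.sRd | apply DefP.hlf | apply DefP.p1le | apply DefP.p1 | apply DefP.p0
        | apply DefP.aug | apply DefP.pth | apply DefP.nx | apply DefP.cnd | apply DefP.hmin
        | apply DefP.hit | apply DefP.cdn | apply DefP.firstEx | apply DefP.exN
        | apply DefP.end_ | apply DefP.isZero | apply DefP.isSucc | apply DefP.alt
        | apply DefP.exr | apply DefP.exl | apply DefP.side | apply DefP.oddCard
        | apply DefP.cardEq | apply DefP.cardLt | apply DefP.cardLe | apply DefP.lst
        | apply DefP.fst | apply DefP.nxt | apply DefP.keyLe | apply DefP.keyLt | apply DefP.rtc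
        | (apply DefP.app4; assumption) | (apply DefP.app3'; assumption)
        | (apply DefP.app3; assumption) | (apply DefP.app2; assumption)
        | (apply DefP.comp; assumption) | exact Tm.id | exact Tm.unit | apply Tm.fst
        | apply Tm.snd | apply Tm.app | exact DefP.const _ | apply DefP.and | apply DefP.not
        | apply DefP.or | apply DefP.iff | apply DefP.adj | apply DefP.le | apply DefP.lt
        | apply DefP.eqFin | apply DefP.eq | apply DefP.rv | apply DefP.imp | apply DefP.allFin
        | apply DefP.exFin | apply DefP.all | apply DefP.ex | assumption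
        | (apply Tm.comp; assumption) | apply Tm.pair | apply Tm.lam))
  have hfxd : DefP (E := fun n => S n × (S n × (Fin n × Fin n)))
      (fun n G X x => fxd G (cM G x.1) x.2.1 x.2.2.1 x.2.2.2) := by
    unfold fxd
    refine DefP.ex (DefP.and ?_ ?_)
    · exact DefP.comp (F := fun n => S n × S n)
        (f := fun n (y : (S n × (S n × (Fin n × Fin n))) × S n) => (y.1.1, y.2)) hP (by (repeat' (first
            | apply DefP.nOne | apply DefP.nZero | apply DefP.nSucc | apply DefP.nAdd
            | apply DefP.nLt | apply DefP.nLe | apply DefP.nEq | apply DefP.ltRd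
            | apply DefP.updRd | apply DefP.chRd | apply DefP.relRd | apply DefP.qRd
            | apply DefP.phRd | apply DefP.spRd | apply DefP.dRd | apply DefP.psRd
            | apply DefP.stRd | apply DefP.avRd | apply DefP.sRd | apply DefP.hlf
            | apply DefP.p1le | apply DefP.p1 | apply DefP.p0 | apply DefP.aug | apply DefP.pth
            | apply DefP.nx | apply DefP.cnd | apply DefP.hmin | apply DefP.hit | apply DefP.cdn
            | apply DefP.firstEx | apply DefP.exN | apply DefP.end_ | apply DefP.isZero
            | apply DefP.isSucc | apply DefP.alt | apply DefP.exr | apply DefP.exl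
            | apply DefP.side | apply DefP.oddCard | apply DefP.cardEq | apply DefP.cardLt
            | apply DefP.cardLe | apply DefP.lst | apply DefP.fst | apply DefP.nxt
            | apply DefP.keyLe | apply DefP.keyLt | apply DefP.rtc
            | (apply DefP.app4; assumption) | (apply DefP.app3'; assumption)
            | (apply DefP.app3; assumption) | (apply DefP.app2; assumption)
            | (apply DefP.comp; assumption) | exact Tm.id | exact Tm.unit | apply Tm.fst
            | apply Tm.snd | apply Tm.app | exact DefP.const _ | apply DefP.and | apply DefP.not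
            | apply DefP.or | apply DefP.iff | apply DefP.adj | apply DefP.le | apply DefP.lt
            | apply DefP.eqFin | apply DefP.eq | apply DefP.rv | apply DefP.imp
            | apply DefP.allFin | apply DefP.exFin | apply DefP.all | apply DefP.ex | assumption
            | (apply Tm.comp; assumption) | apply Tm.pair | apply Tm.lam)))
    · exact DefP.comp (F := fun n => S n × ((S n × S n) × (Fin n × Fin n)))
        (f := fun n (y : (S n × (S n × (Fin n × Fin n))) × S n) =>
          (y.1.1, ((y.1.2.1, y.2), y.1.2.2))) hfdf (by (repeat' (first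
              | apply DefP.nOne | apply DefP.nZero | apply DefP.nSucc | apply DefP.nAdd
              | apply DefP.nLt | apply DefP.nLe | apply DefP.nEq | apply DefP.ltRd
              | apply DefP.updRd | apply DefP.chRd | apply DefP.relRd | apply DefP.qRd
              | apply DefP.phRd | apply DefP.spRd | apply DefP.dRd | apply DefP.psRd
              | apply DefP.stRd | apply DefP.avRd | apply DefP.sRd | apply DefP.hlf
              | apply DefP.p1le | apply DefP.p1 | apply DefP.p0 | apply DefP.aug
              | apply DefP.pth | apply DefP.nx | apply DefP.cnd | apply DefP.hmin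
              | apply DefP.hit | apply DefP.cdn | apply DefP.firstEx | apply DefP.exN
              | apply DefP.end_ | apply DefP.isZero | apply DefP.isSucc | apply DefP.alt
              | apply DefP.exr | apply DefP.exl | apply DefP.side | apply DefP.oddCard
              | apply DefP.cardEq | apply DefP.cardLt | apply DefP.cardLe | apply DefP.lst
              | apply DefP.fst | apply DefP.nxt | apply DefP.keyLe | apply DefP.keyLt
              | apply DefP.rtc | (apply DefP.app4; assumption) | (apply DefP.app3'; assumption)
              | (apply DefP.app3; assumption) | (apply DefP.app2; assumption)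
              | (apply DefP.comp; assumption) | exact Tm.id | exact Tm.unit | apply Tm.fst
              | apply Tm.snd | apply Tm.app | exact DefP.const _ | apply DefP.and
              | apply DefP.not | apply DefP.or | apply DefP.iff | apply DefP.adj | apply DefP.le
              | apply DefP.lt | apply DefP.eqFin | apply DefP.eq | apply DefP.rv
              | apply DefP.imp | apply DefP.allFin | apply DefP.exFin | apply DefP.all
              | apply DefP.ex | assumption | (apply Tm.comp; assumption) | apply Tm.pair
              | apply Tm.lam)))
  refine DefP.congr (P := fun n G X y => G.Adj y.2.1 y.2.2 ∧ ∀ u v : Fin n,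
    fxd G (cM G y.1.1) y.1.2 u v →
    (¬ cM G y.1.1 y.1.2 u v → ¬ ((y.2.1 = u ∧ y.2.2 = v) ∨ (y.2.1 = v ∧ y.2.2 = u))) ∧
    (cM G y.1.1 y.1.2 u v → (y.2.1 = u ∨ y.2.1 = v ∨ y.2.2 = u ∨ y.2.2 = v) →
      ((y.2.1 = u ∧ y.2.2 = v) ∨ (y.2.1 = v ∧ y.2.2 = u)))) ?_ ?_
  · refine DefP.and (by (repeat' (first
      | apply DefP.nOne | apply DefP.nZero | apply DefP.nSucc | apply DefP.nAdd | apply DefP.nLt
      | apply DefP.nLe | apply DefP.nEq | apply DefP.ltRd | apply DefP.updRd | apply DefP.chRd
      | apply DefP.relRd | apply DefP.qRd | apply DefP.phRd | apply DefP.spRd | apply DefP.dRd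
      | apply DefP.psRd | apply DefP.stRd | apply DefP.avRd | apply DefP.sRd | apply DefP.hlf
      | apply DefP.p1le | apply DefP.p1 | apply DefP.p0 | apply DefP.aug | apply DefP.pth
      | apply DefP.nx | apply DefP.cnd | apply DefP.hmin | apply DefP.hit | apply DefP.cdn
      | apply DefP.firstEx | apply DefP.exN | apply DefP.end_ | apply DefP.isZero
      | apply DefP.isSucc | apply DefP.alt | apply DefP.exr | apply DefP.exl | apply DefP.side
      | apply DefP.oddCard | apply DefP.cardEq | apply DefP.cardLt | apply DefP.cardLe
      | apply DefP.lst | apply DefP.fst | apply DefP.nxt | apply DefP.keyLe | apply DefP.keyLt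
      | apply DefP.rtc | (apply DefP.app4; assumption) | (apply DefP.app3'; assumption)
      | (apply DefP.app3; assumption) | (apply DefP.app2; assumption)
      | (apply DefP.comp; assumption) | exact Tm.id | exact Tm.unit | apply Tm.fst
      | apply Tm.snd | apply Tm.app | exact DefP.const _ | apply DefP.and | apply DefP.not
      | apply DefP.or | apply DefP.iff | apply DefP.adj | apply DefP.le | apply DefP.lt
      | apply DefP.eqFin | apply DefP.eq | apply DefP.rv | apply DefP.imp | apply DefP.allFin
      | apply DefP.exFin | apply DefP.all | apply DefP.ex | assumption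
      | (apply Tm.comp; assumption) | apply Tm.pair
      | apply Tm.lam))) (DefP.allFin (DefP.allFin (DefP.imp ?_ (DefP.and
      (DefP.imp (DefP.not (h' ?_ ?_ ?_ ?_)) (by (repeat' (first
          | apply DefP.nOne | apply DefP.nZero | apply DefP.nSucc | apply DefP.nAdd
          | apply DefP.nLt | apply DefP.nLe | apply DefP.nEq | apply DefP.ltRd
          | apply DefP.updRd | apply DefP.chRd | apply DefP.relRd | apply DefP.qRd
          | apply DefP.phRd | apply DefP.spRd | apply DefP.dRd | apply DefP.psRd
          | apply DefP.stRd | apply DefP.avRd | apply DefP.sRd | apply DefP.hlf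
          | apply DefP.p1le | apply DefP.p1 | apply DefP.p0 | apply DefP.aug | apply DefP.pth
          | apply DefP.nx | apply DefP.cnd | apply DefP.hmin | apply DefP.hit | apply DefP.cdn
          | apply DefP.firstEx | apply DefP.exN | apply DefP.end_ | apply DefP.isZero
          | apply DefP.isSucc | apply DefP.alt | apply DefP.exr | apply DefP.exl
          | apply DefP.side | apply DefP.oddCard | apply DefP.cardEq | apply DefP.cardLt
          | apply DefP.cardLe | apply DefP.lst | apply DefP.fst | apply DefP.nxt
          | apply DefP.keyLe | apply DefP.keyLt | apply DefP.rtc | (apply DefP.app4; assumption)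
          | (apply DefP.app3'; assumption) | (apply DefP.app3; assumption)
          | (apply DefP.app2; assumption) | (apply DefP.comp; assumption) | exact Tm.id
          | exact Tm.unit | apply Tm.fst | apply Tm.snd | apply Tm.app | exact DefP.const _
          | apply DefP.and | apply DefP.not | apply DefP.or | apply DefP.iff | apply DefP.adj
          | apply DefP.le | apply DefP.lt | apply DefP.eqFin | apply DefP.eq | apply DefP.rv
          | apply DefP.imp | apply DefP.allFin | apply DefP.exFin | apply DefP.all
          | apply DefP.ex | assumption | (apply Tm.comp; assumption) | apply Tm.pair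
          | apply Tm.lam))))
      (DefP.imp (h' ?_ ?_ ?_ ?_) (by (repeat' (first
          | apply DefP.nOne | apply DefP.nZero | apply DefP.nSucc | apply DefP.nAdd
          | apply DefP.nLt | apply DefP.nLe | apply DefP.nEq | apply DefP.ltRd
          | apply DefP.updRd | apply DefP.chRd | apply DefP.relRd | apply DefP.qRd
          | apply DefP.phRd | apply DefP.spRd | apply DefP.dRd | apply DefP.psRd
          | apply DefP.stRd | apply DefP.avRd | apply DefP.sRd | apply DefP.hlf
          | apply DefP.p1le | apply DefP.p1 | apply DefP.p0 | apply DefP.aug | apply DefP.pth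
          | apply DefP.nx | apply DefP.cnd | apply DefP.hmin | apply DefP.hit | apply DefP.cdn
          | apply DefP.firstEx | apply DefP.exN | apply DefP.end_ | apply DefP.isZero
          | apply DefP.isSucc | apply DefP.alt | apply DefP.exr | apply DefP.exl
          | apply DefP.side | apply DefP.oddCard | apply DefP.cardEq | apply DefP.cardLt
          | apply DefP.cardLe | apply DefP.lst | apply DefP.fst | apply DefP.nxt
          | apply DefP.keyLe | apply DefP.keyLt | apply DefP.rtc | (apply DefP.app4; assumption)
          | (apply DefP.app3'; assumption) | (apply DefP.app3; assumption)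
          | (apply DefP.app2; assumption) | (apply DefP.comp; assumption) | exact Tm.id
          | exact Tm.unit | apply Tm.fst | apply Tm.snd | apply Tm.app | exact DefP.const _
          | apply DefP.and | apply DefP.not | apply DefP.or | apply DefP.iff | apply DefP.adj
          | apply DefP.le | apply DefP.lt | apply DefP.eqFin | apply DefP.eq | apply DefP.rv
          | apply DefP.imp | apply DefP.allFin | apply DefP.exFin | apply DefP.all
          | apply DefP.ex | assumption | (apply Tm.comp; assumption) | apply Tm.pair
          | apply Tm.lam))))))))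
    · exact DefP.comp (F := fun n => S n × (S n × (Fin n × Fin n)))
        (f := fun n (y : (((S n × S n) × (Fin n × Fin n)) × Fin n) × Fin n) =>
          (y.1.1.1.1, (y.1.1.1.2, (y.1.2, y.2)))) hfxd (by (repeat' (first
              | apply DefP.nOne | apply DefP.nZero | apply DefP.nSucc | apply DefP.nAdd
              | apply DefP.nLt | apply DefP.nLe | apply DefP.nEq | apply DefP.ltRd
              | apply DefP.updRd | apply DefP.chRd | apply DefP.relRd | apply DefP.qRd
              | apply DefP.phRd | apply DefP.spRd | apply DefP.dRd | apply DefP.psRd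
              | apply DefP.stRd | apply DefP.avRd | apply DefP.sRd | apply DefP.hlf
              | apply DefP.p1le | apply DefP.p1 | apply DefP.p0 | apply DefP.aug
              | apply DefP.pth | apply DefP.nx | apply DefP.cnd | apply DefP.hmin
              | apply DefP.hit | apply DefP.cdn | apply DefP.firstEx | apply DefP.exN
              | apply DefP.end_ | apply DefP.isZero | apply DefP.isSucc | apply DefP.alt
              | apply DefP.exr | apply DefP.exl | apply DefP.side | apply DefP.oddCard
              | apply DefP.cardEq | apply DefP.cardLt | apply DefP.cardLe | apply DefP.lst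
              | apply DefP.fst | apply DefP.nxt | apply DefP.keyLe | apply DefP.keyLt
              | apply DefP.rtc | (apply DefP.app4; assumption) | (apply DefP.app3'; assumption)
              | (apply DefP.app3; assumption) | (apply DefP.app2; assumption)
              | (apply DefP.comp; assumption) | exact Tm.id | exact Tm.unit | apply Tm.fst
              | apply Tm.snd | apply Tm.app | exact DefP.const _ | apply DefP.and
              | apply DefP.not | apply DefP.or | apply DefP.iff | apply DefP.adj | apply DefP.le
              | apply DefP.lt | apply DefP.eqFin | apply DefP.eq | apply DefP.rv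
              | apply DefP.imp | apply DefP.allFin | apply DefP.exFin | apply DefP.all
              | apply DefP.ex | assumption | (apply Tm.comp; assumption) | apply Tm.pair
              | apply Tm.lam)))
    all_goals (repeat' (first
        | apply DefP.nOne | apply DefP.nZero | apply DefP.nSucc | apply DefP.nAdd
        | apply DefP.nLt | apply DefP.nLe | apply DefP.nEq | apply DefP.ltRd | apply DefP.updRd
        | apply DefP.chRd | apply DefP.relRd | apply DefP.qRd | apply DefP.phRd
        | apply DefP.spRd | apply DefP.dRd | apply DefP.psRd | apply DefP.stRd | apply DefP.avRd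
        | apply DefP.sRd | apply DefP.hlf | apply DefP.p1le | apply DefP.p1 | apply DefP.p0
        | apply DefP.aug | apply DefP.pth | apply DefP.nx | apply DefP.cnd | apply DefP.hmin
        | apply DefP.hit | apply DefP.cdn | apply DefP.firstEx | apply DefP.exN
        | apply DefP.end_ | apply DefP.isZero | apply DefP.isSucc | apply DefP.alt
        | apply DefP.exr | apply DefP.exl | apply DefP.side | apply DefP.oddCard
        | apply DefP.cardEq | apply DefP.cardLt | apply DefP.cardLe | apply DefP.lst
        | apply DefP.fst | apply DefP.nxt | apply DefP.keyLe | apply DefP.keyLt | apply DefP.rtc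
        | (apply DefP.app4; assumption) | (apply DefP.app3'; assumption)
        | (apply DefP.app3; assumption) | (apply DefP.app2; assumption)
        | (apply DefP.comp; assumption) | exact Tm.id | exact Tm.unit | apply Tm.fst
        | apply Tm.snd | apply Tm.app | exact DefP.const _ | apply DefP.and | apply DefP.not
        | apply DefP.or | apply DefP.iff | apply DefP.adj | apply DefP.le | apply DefP.lt
        | apply DefP.eqFin | apply DefP.eq | apply DefP.rv | apply DefP.imp | apply DefP.allFin
        | apply DefP.exFin | apply DefP.all | apply DefP.ex | assumption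
        | (apply Tm.comp; assumption) | apply Tm.pair | apply Tm.lam))
  · intro n G X y
    exact Iff.rfl

theorem defP_fwT (hS : 2 ≤ dim S) (c : ℕ) : DefP (E := S) (fun n G X m => fwT c G m) := by
  have hP := defP_isPM hS
  have hU := DefP.subst unique_pm_def (H := fun n G (e : S n × S n) => rg G (cM G e.1) e.2)
    (defP_rg hS)
  have h := defP_cM hS
  unfold fwT tsL rpL
  refine DefP.and (DefP.and (DefP.ex hP) (DefP.all (DefP.imp hP hU)))
    (DefP.cardLe (S := S) (T := fun n => Fin c → Fin n) (DefP.and hP (DefP.all (DefP.imp ?_
      (DefP.not (DefP.allFin (DefP.allFin (DefP.iff ?_ ?_))))))) ?_)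
  · (repeat' (first
      | apply DefP.nOne | apply DefP.nZero | apply DefP.nSucc | apply DefP.nAdd | apply DefP.nLt
      | apply DefP.nLe | apply DefP.nEq | apply DefP.ltRd | apply DefP.updRd | apply DefP.chRd
      | apply DefP.relRd | apply DefP.qRd | apply DefP.phRd | apply DefP.spRd | apply DefP.dRd
      | apply DefP.psRd | apply DefP.stRd | apply DefP.avRd | apply DefP.sRd | apply DefP.hlf
      | apply DefP.p1le | apply DefP.p1 | apply DefP.p0 | apply DefP.aug | apply DefP.pth
      | apply DefP.nx | apply DefP.cnd | apply DefP.hmin | apply DefP.hit | apply DefP.cdn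
      | apply DefP.firstEx | apply DefP.exN | apply DefP.end_ | apply DefP.isZero
      | apply DefP.isSucc | apply DefP.alt | apply DefP.exr | apply DefP.exl | apply DefP.side
      | apply DefP.oddCard | apply DefP.cardEq | apply DefP.cardLt | apply DefP.cardLe
      | apply DefP.lst | apply DefP.fst | apply DefP.nxt | apply DefP.keyLe | apply DefP.keyLt
      | apply DefP.rtc | (apply DefP.app4; assumption) | (apply DefP.app3'; assumption)
      | (apply DefP.app3; assumption) | (apply DefP.app2; assumption)
      | (apply DefP.comp; assumption) | exact Tm.id | exact Tm.unit | apply Tm.fst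
      | apply Tm.snd | apply Tm.app | exact DefP.const _ | apply DefP.and | apply DefP.not
      | apply DefP.or | apply DefP.iff | apply DefP.adj | apply DefP.le | apply DefP.lt
      | apply DefP.eqFin | apply DefP.eq | apply DefP.rv | apply DefP.imp | apply DefP.allFin
      | apply DefP.exFin | apply DefP.all | apply DefP.ex | assumption
      | (apply Tm.comp; assumption) | apply Tm.pair | apply Tm.lam))
  · exact DefP.comp (F := fun n => S n × (S n × (Fin n × Fin n)))
      (f := fun n (y : ((((S n × S n) × S n) × Fin n) × Fin n)) =>
        (y.1.1.1.1, (y.1.1.2, (y.1.2, y.2)))) h (by (repeat' (first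
            | apply DefP.nOne | apply DefP.nZero | apply DefP.nSucc | apply DefP.nAdd
            | apply DefP.nLt | apply DefP.nLe | apply DefP.nEq | apply DefP.ltRd
            | apply DefP.updRd | apply DefP.chRd | apply DefP.relRd | apply DefP.qRd
            | apply DefP.phRd | apply DefP.spRd | apply DefP.dRd | apply DefP.psRd
            | apply DefP.stRd | apply DefP.avRd | apply DefP.sRd | apply DefP.hlf
            | apply DefP.p1le | apply DefP.p1 | apply DefP.p0 | apply DefP.aug | apply DefP.pth
            | apply DefP.nx | apply DefP.cnd | apply DefP.hmin | apply DefP.hit | apply DefP.cdn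
            | apply DefP.firstEx | apply DefP.exN | apply DefP.end_ | apply DefP.isZero
            | apply DefP.isSucc | apply DefP.alt | apply DefP.exr | apply DefP.exl
            | apply DefP.side | apply DefP.oddCard | apply DefP.cardEq | apply DefP.cardLt
            | apply DefP.cardLe | apply DefP.lst | apply DefP.fst | apply DefP.nxt
            | apply DefP.keyLe | apply DefP.keyLt | apply DefP.rtc
            | (apply DefP.app4; assumption) | (apply DefP.app3'; assumption)
            | (apply DefP.app3; assumption) | (apply DefP.app2; assumption)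
            | (apply DefP.comp; assumption) | exact Tm.id | exact Tm.unit | apply Tm.fst
            | apply Tm.snd | apply Tm.app | exact DefP.const _ | apply DefP.and | apply DefP.not
            | apply DefP.or | apply DefP.iff | apply DefP.adj | apply DefP.le | apply DefP.lt
            | apply DefP.eqFin | apply DefP.eq | apply DefP.rv | apply DefP.imp
            | apply DefP.allFin | apply DefP.exFin | apply DefP.all | apply DefP.ex | assumption
            | (apply Tm.comp; assumption) | apply Tm.pair | apply Tm.lam)))
  · exact DefP.comp (F := fun n => S n × (S n × (Fin n × Fin n)))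
      (f := fun n (y : ((((S n × S n) × S n) × Fin n) × Fin n)) =>
        (y.1.1.1.1, (y.1.1.1.2, (y.1.2, y.2)))) h (by (repeat' (first
            | apply DefP.nOne | apply DefP.nZero | apply DefP.nSucc | apply DefP.nAdd
            | apply DefP.nLt | apply DefP.nLe | apply DefP.nEq | apply DefP.ltRd
            | apply DefP.updRd | apply DefP.chRd | apply DefP.relRd | apply DefP.qRd
            | apply DefP.phRd | apply DefP.spRd | apply DefP.dRd | apply DefP.psRd
            | apply DefP.stRd | apply DefP.avRd | apply DefP.sRd | apply DefP.hlf
            | apply DefP.p1le | apply DefP.p1 | apply DefP.p0 | apply DefP.aug | apply DefP.pth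
            | apply DefP.nx | apply DefP.cnd | apply DefP.hmin | apply DefP.hit | apply DefP.cdn
            | apply DefP.firstEx | apply DefP.exN | apply DefP.end_ | apply DefP.isZero
            | apply DefP.isSucc | apply DefP.alt | apply DefP.exr | apply DefP.exl
            | apply DefP.side | apply DefP.oddCard | apply DefP.cardEq | apply DefP.cardLt
            | apply DefP.cardLe | apply DefP.lst | apply DefP.fst | apply DefP.nxt
            | apply DefP.keyLe | apply DefP.keyLt | apply DefP.rtc
            | (apply DefP.app4; assumption) | (apply DefP.app3'; assumption)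
            | (apply DefP.app3; assumption) | (apply DefP.app2; assumption)
            | (apply DefP.comp; assumption) | exact Tm.id | exact Tm.unit | apply Tm.fst
            | apply Tm.snd | apply Tm.app | exact DefP.const _ | apply DefP.and | apply DefP.not
            | apply DefP.or | apply DefP.iff | apply DefP.adj | apply DefP.le | apply DefP.lt
            | apply DefP.eqFin | apply DefP.eq | apply DefP.rv | apply DefP.imp
            | apply DefP.allFin | apply DefP.exFin | apply DefP.all | apply DefP.ex | assumption
            | (apply Tm.comp; assumption) | apply Tm.pair | apply Tm.lam)))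
  · (repeat' (first
      | apply DefP.nOne | apply DefP.nZero | apply DefP.nSucc | apply DefP.nAdd | apply DefP.nLt
      | apply DefP.nLe | apply DefP.nEq | apply DefP.ltRd | apply DefP.updRd | apply DefP.chRd
      | apply DefP.relRd | apply DefP.qRd | apply DefP.phRd | apply DefP.spRd | apply DefP.dRd
      | apply DefP.psRd | apply DefP.stRd | apply DefP.avRd | apply DefP.sRd | apply DefP.hlf
      | apply DefP.p1le | apply DefP.p1 | apply DefP.p0 | apply DefP.aug | apply DefP.pth
      | apply DefP.nx | apply DefP.cnd | apply DefP.hmin | apply DefP.hit | apply DefP.cdn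
      | apply DefP.firstEx | apply DefP.exN | apply DefP.end_ | apply DefP.isZero
      | apply DefP.isSucc | apply DefP.alt | apply DefP.exr | apply DefP.exl | apply DefP.side
      | apply DefP.oddCard | apply DefP.cardEq | apply DefP.cardLt | apply DefP.cardLe
      | apply DefP.lst | apply DefP.fst | apply DefP.nxt | apply DefP.keyLe | apply DefP.keyLt
      | apply DefP.rtc | (apply DefP.app4; assumption) | (apply DefP.app3'; assumption)
      | (apply DefP.app3; assumption) | (apply DefP.app2; assumption)
      | (apply DefP.comp; assumption) | exact Tm.id | exact Tm.unit | apply Tm.fst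
      | apply Tm.snd | apply Tm.app | exact DefP.const _ | apply DefP.and | apply DefP.not
      | apply DefP.or | apply DefP.iff | apply DefP.adj | apply DefP.le | apply DefP.lt
      | apply DefP.eqFin | apply DefP.eq | apply DefP.rv | apply DefP.imp | apply DefP.allFin
      | apply DefP.exFin | apply DefP.all | apply DefP.ex | assumption
      | (apply Tm.comp; assumption) | apply Tm.pair | apply Tm.lam))

end

/-- for every `c` it is decided in NC whether the number of perfect matchings of a graph on
`n` vertices lies between one and `n ^ c` -/
theorem few_pm_def (c : ℕ) : DefP (E := fun _ => Unit) (fun n G X _ =>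
    1 ≤ Nat.card {M : G.Subgraph // M.IsPerfectMatching} ∧
      Nat.card {M : G.Subgraph // M.IsPerfectMatching} ≤ n ^ c) := by
  let S : ℕ → Type := fun n => Fin (2 * c + 7) → Fin n
  have hS : dim S = 2 * c + 7 := Nat.mul_one _
  have h1 : DefP (E := fun _ => Unit) (fun n G X _ => ∃ m : S n, fwT c G m) :=
    DefP.ex (F := S) (DefP.comp (F := S) (f := fun n (y : Unit × S n) => y.2)
      (defP_fwT (by omega) c) (by (repeat' (first
          | apply DefP.nOne | apply DefP.nZero | apply DefP.nSucc | apply DefP.nAdd
          | apply DefP.nLt | apply DefP.nLe | apply DefP.nEq | apply DefP.ltRd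
          | apply DefP.updRd | apply DefP.chRd | apply DefP.relRd | apply DefP.qRd
          | apply DefP.phRd | apply DefP.spRd | apply DefP.dRd | apply DefP.psRd
          | apply DefP.stRd | apply DefP.avRd | apply DefP.sRd | apply DefP.hlf
          | apply DefP.p1le | apply DefP.p1 | apply DefP.p0 | apply DefP.aug | apply DefP.pth
          | apply DefP.nx | apply DefP.cnd | apply DefP.hmin | apply DefP.hit | apply DefP.cdn
          | apply DefP.firstEx | apply DefP.exN | apply DefP.end_ | apply DefP.isZero
          | apply DefP.isSucc | apply DefP.alt | apply DefP.exr | apply DefP.exl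
          | apply DefP.side | apply DefP.oddCard | apply DefP.cardEq | apply DefP.cardLt
          | apply DefP.cardLe | apply DefP.lst | apply DefP.fst | apply DefP.nxt
          | apply DefP.keyLe | apply DefP.keyLt | apply DefP.rtc | (apply DefP.app4; assumption)
          | (apply DefP.app3'; assumption) | (apply DefP.app3; assumption)
          | (apply DefP.app2; assumption) | (apply DefP.comp; assumption) | exact Tm.id
          | exact Tm.unit | apply Tm.fst | apply Tm.snd | apply Tm.app | exact DefP.const _
          | apply DefP.and | apply DefP.not | apply DefP.or | apply DefP.iff | apply DefP.adj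
          | apply DefP.le | apply DefP.lt | apply DefP.eqFin | apply DefP.eq | apply DefP.rv
          | apply DefP.imp | apply DefP.allFin | apply DefP.exFin | apply DefP.all
          | apply DefP.ex | assumption | (apply Tm.comp; assumption) | apply Tm.pair
          | apply Tm.lam))))
  have h2 := (defP_small (E := fun _ => Unit) 1 (fun n G =>
    1 ≤ Nat.card {M : G.Subgraph // M.IsPerfectMatching} ∧
      Nat.card {M : G.Subgraph // M.IsPerfectMatching} ≤ n ^ c)).or
    ((defP_card_le (E := fun _ => Unit) 1).not.and h1)
  refine h2.congr fun n G X _ => ?_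
  by_cases hn : n ≤ 1
  · simp only [hn, true_and, not_true, false_and, or_false]
  · simp only [hn, false_and, false_or, not_false_eq_true, true_and]
    rw [card_pm]
    exact fwT_iff hS (by omega) G

theorem few_pm (c : ℕ) : InNC (fun n G =>
    1 ≤ Nat.card {M : G.Subgraph // M.IsPerfectMatching} ∧
      Nat.card {M : G.Subgraph // M.IsPerfectMatching} ≤ n ^ c) := inNC_of_defP (few_pm_def c)

end Pool.Agent.PMNC
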