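import Mathlib
import Pool.Agent.Lib.MP_0087d5_lc.Halve

set_option autoImplicit false
set_option linter.all false

/-!
# The halving loop with weights
-/

namespace Pool.Agent.PMNC

open Relation

section comb
variable {α β γ π κ μ ν ξ : Type*} [LinearOrder κ] [LinearOrder μ] [LinearOrder ν] [LinearOrder ξ]

/-- the heavier half of `H`; the weight of `e` is the number of `c` with `Wt e c` -/
def ChoW (f : α → κ) (g : β → μ) (h : α × β → ν) (Wt : α × β → γ → Prop) (H : α → β → Prop)
    (e : α × β) : Prop :=
  H e.1 e.2 ∧ (Side h (Lk f g H) e ↔
    Nat.card {x : (α × β) × γ // (H x.1.1 x.1.2 ∧ ¬ Side h (Lk f g H) x.1) ∧ Wt x.1 x.2} ≤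
      Nat.card {x : (α × β) × γ // (H x.1.1 x.1.2 ∧ Side h (Lk f g H) x.1) ∧ Wt x.1 x.2})

/-- one halving step -/
def HvW (f : α → κ) (g : β → μ) (h : α × β → ν) (k : π → ξ) (Wt : α × β → γ → Prop)
    (Y : (α × β) × π → Prop) (e : (α × β) × π) : Prop :=
  halfSet k (fun p => Y (e.1, p)) (ChoW f g h Wt (OddE Y) e.1) e.2

/-- the weight of an edge -/
noncomputable def wt (Wt : α × β → γ → Prop) (e : α × β) : ℕ := Nat.card {c // Wt e c}

variable [Fintype α] [Fintype β] [Fintype γ] [Finite π] {f : α → κ} {g : β → μ} {h : α × β → ν}
  {k : π → ξ} {Wt : α × β → γ → Prop}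

theorem choW_left (hf : Function.Injective f) (hg : Function.Injective g)
    (hh : Function.Injective h) (H : α → β → Prop) (u : α) :
    2 * Nat.card {v // H u v ∧ ChoW f g h Wt H (u, v)} ≤ Nat.card {v // H u v} + 1 := by
  apply card_half' hg
  intro a b hab
  have h1 := lk_side hf hg hh (e := (u, a)) (e' := (u, b)) (Or.inl ⟨rfl, hab⟩)
  have h2 : H u a := hab.1
  have h3 : H u b := hab.2.1
  unfold ChoW
  simp only [h2, h3, true_and]
  rw [h1]
  tauto

theorem choW_right (hf : Function.Injective f) (hg : Function.Injective g)
    (hh : Function.Injective h) (H : α → β → Prop) (v : β) :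
    2 * Nat.card {u // H u v ∧ ChoW f g h Wt H (u, v)} ≤ Nat.card {u // H u v} + 1 := by
  apply card_half' hf
  intro a b hab
  have h1 := lk_side hf hg hh (e := (a, v)) (e' := (b, v)) (Or.inr ⟨rfl, hab⟩)
  have h2 : H a v := hab.1
  have h3 : H b v := hab.2.1
  unfold ChoW
  simp only [h2, h3, true_and]
  rw [h1]
  tauto

/-- sums of weights are cardinalities -/
theorem sum_wt (A : α × β → Prop) :
    ∑ e : α × β, ind (A e) * wt Wt e = Nat.card {x : (α × β) × γ // A x.1 ∧ Wt x.1 x.2} := by
  rw [card_sum, Fintype.sum_prod_type (f := fun x : (α × β) × γ => ind (A x.1 ∧ Wt x.1 x.2))]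
  refine Finset.sum_congr rfl fun e _ => ?_
  unfold wt
  rw [card_sum, Finset.mul_sum]
  refine Finset.sum_congr rfl fun c _ => ?_
  by_cases h1 : A e
  · by_cases h2 : Wt e c
    · rw [ind_pos h1, ind_pos h2, ind_pos (show A (e, c).1 ∧ Wt (e, c).1 (e, c).2 from ⟨h1, h2⟩),
        one_mul]
    · rw [ind_neg h2, ind_neg (show ¬ (A (e, c).1 ∧ Wt (e, c).1 (e, c).2) from fun h => h2 h.2),
        mul_zero]
  · rw [ind_neg h1, ind_neg (show ¬ (A (e, c).1 ∧ Wt (e, c).1 (e, c).2) from fun h => h1 h.1)]
    simp

theorem choW_total (H : α → β → Prop) :
    ∑ e : α × β, ind (H e.1 e.2) * wt Wt e ≤ 2 * ∑ e : α × β, ind (ChoW f g h Wt H e) * wt Wt e := by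
  have h1 : ∑ e : α × β, ind (H e.1 e.2) * wt Wt e =
      ∑ e : α × β, ind (H e.1 e.2 ∧ Side h (Lk f g H) e) * wt Wt e +
      ∑ e : α × β, ind (H e.1 e.2 ∧ ¬ Side h (Lk f g H) e) * wt Wt e := by
    rw [← Finset.sum_add_distrib]
    refine Finset.sum_congr rfl fun e _ => ?_
    rw [← add_mul]
    congr 1
    by_cases hH : H e.1 e.2
    · by_cases hs : Side h (Lk f g H) e
      · rw [ind_pos hH, ind_pos ⟨hH, hs⟩, ind_neg (fun h => h.2 hs)]
      · rw [ind_pos hH, ind_neg (fun h => hs h.2), ind_pos ⟨hH, hs⟩]
    · rw [ind_neg hH, ind_neg (fun h => hH h.1), ind_neg (fun h => hH h.1)]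
  have e1 := sum_wt (Wt := Wt) (fun e : α × β => H e.1 e.2 ∧ Side h (Lk f g H) e)
  have e2 := sum_wt (Wt := Wt) (fun e : α × β => H e.1 e.2 ∧ ¬ Side h (Lk f g H) e)
  by_cases hc : Nat.card {x : (α × β) × γ // (H x.1.1 x.1.2 ∧ ¬ Side h (Lk f g H) x.1) ∧
      Wt x.1 x.2} ≤
      Nat.card {x : (α × β) × γ // (H x.1.1 x.1.2 ∧ Side h (Lk f g H) x.1) ∧ Wt x.1 x.2}
  · have h2 : ∑ e : α × β, ind (ChoW f g h Wt H e) * wt Wt e =
        ∑ e : α × β, ind (H e.1 e.2 ∧ Side h (Lk f g H) e) * wt Wt e := by
      refine Finset.sum_congr rfl fun e _ => ?_
      have : ChoW f g h Wt H e ↔ (H e.1 e.2 ∧ Side h (Lk f g H) e) := by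
        unfold ChoW
        simp only [hc, iff_true]
      rw [this]
    omega
  · have h2 : ∑ e : α × β, ind (ChoW f g h Wt H e) * wt Wt e =
        ∑ e : α × β, ind (H e.1 e.2 ∧ ¬ Side h (Lk f g H) e) * wt Wt e := by
      refine Finset.sum_congr rfl fun e _ => ?_
      have : ChoW f g h Wt H e ↔ (H e.1 e.2 ∧ ¬ Side h (Lk f g H) e) := by
        unfold ChoW
        simp only [hc, iff_false]
      rw [this]
    omega

theorem hvW_sub {Y : (α × β) × π → Prop} {e : (α × β) × π} (he : HvW f g h k Wt Y e) : Y e := he.1

theorem mul_hvW (hk : Function.Injective k) (Y : (α × β) × π → Prop) (u : α) (v : β) :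
    mul (HvW f g h k Wt Y) u v = mul Y u v / 2 + ind (ChoW f g h Wt (OddE Y) (u, v)) :=
  card_halfSet hk (fun p => Y ((u, v), p)) (ChoW f g h Wt (OddE Y) (u, v)) fun hc => hc.1

theorem two_mul_hvW (hk : Function.Injective k) (Y : (α × β) × π → Prop) (u : α) (v : β) :
    2 * mul (HvW f g h k Wt Y) u v + ind (OddE Y u v) =
      mul Y u v + 2 * ind (ChoW f g h Wt (OddE Y) (u, v)) := by
  rw [mul_hvW hk]
  have h1 : OddE Y u v ↔ Odd (mul Y u v) := Iff.rfl
  by_cases ho : OddE Y u v
  · have h2 := h1.1 ho
    obtain ⟨t, ht⟩ := h2
    by_cases hc : ChoW f g h Wt (OddE Y) (u, v)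
    · rw [ind_pos hc, ind_pos ho]
      omega
    · rw [ind_neg hc, ind_pos ho]
      omega
  · have hc : ¬ ChoW f g h Wt (OddE Y) (u, v) := fun hc => ho hc.1
    have h2 : Even (mul Y u v) := by
      rw [← Nat.not_odd_iff_even]
      exact fun h => ho (h1.2 h)
    obtain ⟨t, ht⟩ := h2
    rw [ind_neg hc, ind_neg ho]
    omega

theorem hvW_left (hf : Function.Injective f) (hg : Function.Injective g)
    (hh : Function.Injective h) (hk : Function.Injective k) (Y : (α × β) × π → Prop) (u : α) :
    2 * ∑ v, mul (HvW f g h k Wt Y) u v ≤ ∑ v, mul Y u v + 1 := by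
  have h1 := choW_left (Wt := Wt) hf hg hh (OddE Y) u
  have h2 : ∑ v, (2 * mul (HvW f g h k Wt Y) u v + ind (OddE Y u v)) =
      ∑ v, (mul Y u v + 2 * ind (OddE Y u v ∧ ChoW f g h Wt (OddE Y) (u, v))) :=
    Finset.sum_congr rfl fun v _ => by
      rw [two_mul_hvW hk Y u v]
      congr 3
      apply propext
      exact ⟨fun h => ⟨h.1, h⟩, fun h => h.2⟩
  rw [Finset.sum_add_distrib, Finset.sum_add_distrib, ← Finset.mul_sum, ← Finset.mul_sum,
    ← card_sum, ← card_sum] at h2
  omega

theorem hvW_right (hf : Function.Injective f) (hg : Function.Injective g)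
    (hh : Function.Injective h) (hk : Function.Injective k) (Y : (α × β) × π → Prop) (v : β) :
    2 * ∑ u, mul (HvW f g h k Wt Y) u v ≤ ∑ u, mul Y u v + 1 := by
  have h1 := choW_right (Wt := Wt) hf hg hh (OddE Y) v
  have h2 : ∑ u, (2 * mul (HvW f g h k Wt Y) u v + ind (OddE Y u v)) =
      ∑ u, (mul Y u v + 2 * ind (OddE Y u v ∧ ChoW f g h Wt (OddE Y) (u, v))) :=
    Finset.sum_congr rfl fun u _ => by
      rw [two_mul_hvW hk Y u v]
      congr 3
      apply propext
      exact ⟨fun h => ⟨h.1, h⟩, fun h => h.2⟩
  rw [Finset.sum_add_distrib, Finset.sum_add_distrib, ← Finset.mul_sum, ← Finset.mul_sum,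
    ← card_sum, ← card_sum] at h2
  omega

theorem hvW_total (hk : Function.Injective k) (Y : (α × β) × π → Prop) :
    ∑ e : α × β, mul Y e.1 e.2 * wt Wt e ≤
      2 * ∑ e : α × β, mul (HvW f g h k Wt Y) e.1 e.2 * wt Wt e := by
  have h1 := choW_total (f := f) (g := g) (h := h) (Wt := Wt) (OddE Y)
  have h2 : ∑ e : α × β, (2 * mul (HvW f g h k Wt Y) e.1 e.2 + ind (OddE Y e.1 e.2)) * wt Wt e =
      ∑ e : α × β, (mul Y e.1 e.2 + 2 * ind (ChoW f g h Wt (OddE Y) (e.1, e.2))) * wt Wt e :=
    Finset.sum_congr rfl fun e _ => by rw [two_mul_hvW hk Y e.1 e.2]
  simp only [add_mul, Finset.sum_add_distrib, mul_assoc, ← Finset.mul_sum, Prod.mk.eta] at h2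
  omega

theorem hvW_iterate (hf : Function.Injective f) (hg : Function.Injective g)
    (hh : Function.Injective h) (hk : Function.Injective k) (s : ℕ) (Y : (α × β) × π → Prop)
    (hL : ∀ u, ∑ v, mul Y u v ≤ 2 ^ s) (hR : ∀ v, ∑ u, mul Y u v ≤ 2 ^ s) :
    (∀ u, ∑ v, mul ((HvW f g h k Wt)^[s] Y) u v ≤ 1) ∧
    (∀ v, ∑ u, mul ((HvW f g h k Wt)^[s] Y) u v ≤ 1) ∧
      ∑ e : α × β, mul Y e.1 e.2 * wt Wt e ≤
        2 ^ s * ∑ e : α × β, mul ((HvW f g h k Wt)^[s] Y) e.1 e.2 * wt Wt e ∧
      ∀ e, ((HvW f g h k Wt)^[s] Y) e → Y e := by
  induction s generalizing Y with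
  | zero =>
    refine ⟨?_, ?_, ?_, fun e he => he⟩
    · simpa using hL
    · simpa using hR
    · simp
  | succ s ih =>
    have hL' : ∀ u, ∑ v, mul (HvW f g h k Wt Y) u v ≤ 2 ^ s := by
      intro u
      have h1 := hvW_left (Wt := Wt) hf hg hh hk Y u
      have h2 := hL u
      rw [pow_succ] at h2
      omega
    have hR' : ∀ v, ∑ u, mul (HvW f g h k Wt Y) u v ≤ 2 ^ s := by
      intro v
      have h1 := hvW_right (Wt := Wt) hf hg hh hk Y v
      have h2 := hR v
      rw [pow_succ] at h2
      omega
    obtain ⟨i1, i2, i3, i4⟩ := ih (HvW f g h k Wt Y) hL' hR'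
    rw [Function.iterate_succ_apply]
    refine ⟨i1, i2, ?_, fun e he => hvW_sub (i4 e he)⟩
    have h1 := hvW_total (f := f) (g := g) (h := h) (Wt := Wt) hk Y
    calc ∑ e : α × β, mul Y e.1 e.2 * wt Wt e
        ≤ 2 * ∑ e : α × β, mul (HvW f g h k Wt Y) e.1 e.2 * wt Wt e := h1
      _ ≤ 2 * (2 ^ s * ∑ e : α × β,
          mul ((HvW f g h k Wt)^[s] (HvW f g h k Wt Y)) e.1 e.2 * wt Wt e) :=
        Nat.mul_le_mul_left _ i3
      _ = _ := by rw [pow_succ]; ring

end comb

section def_
variable {E S T P C : ℕ → Type} [Env E] [Env S] [Env T] [Env P] [Env C]

theorem DefP.choW {H : ∀ n : ℕ, SimpleGraph (Fin n) → Ctx n → E n → S n → T n → Prop}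
    (hH : DefP (E := fun n => E n × (S n × T n)) (fun n G X y => H n G X y.1 y.2.1 y.2.2))
    {Wt : ∀ n : ℕ, SimpleGraph (Fin n) → Ctx n → E n → S n × T n → C n → Prop}
    (hW : DefP (E := fun n => E n × ((S n × T n) × C n)) (fun n G X y => Wt n G X y.1 y.2.1 y.2.2))
    {f : ∀ n : ℕ, E n → S n × T n} (hf : Tm (F := fun n => S n × T n) f) :
    DefP (fun n G X x => ChoW key key (key (S := fun n => S n × T n)) (Wt n G X x) (H n G X x)
      (f n x)) := by
  have hs : DefP (E := fun n => E n × (S n × T n)) (fun n G X y =>
      Side (key (S := fun n => S n × T n)) (Lk key key (H n G X y.1)) y.2) := by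
    refine DefP.side (E := fun n => E n × (S n × T n)) (S := fun n => S n × T n)
      (R := fun n G X x e e' => Lk key key (H n G X x.1) e e') ?_ (Tm.snd Tm.id)
    exact DefP.app3 (F := E) (H := fun n => S n × T n) (K := fun n => S n × T n)
      (P := fun n G X x e e' => Lk key key (H n G X x) e e') (DefP.lk hH)
      (by (repeat' (first
          | apply DefP.cho | apply DefP.halfSet | apply DefP.pr | apply DefP.oddRk
          | apply DefP.side | apply DefP.oddCard | apply DefP.cardEq | apply DefP.cardLt
          | apply DefP.cardLe | apply DefP.lst | apply DefP.fst | apply DefP.nxt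
          | apply DefP.keyLe | apply DefP.keyLt | apply DefP.rtc | (apply DefP.app4; assumption)
          | (apply DefP.app3'; assumption) | (apply DefP.app3; assumption)
          | (apply DefP.app2; assumption) | (apply DefP.comp; assumption) | exact Tm.id
          | exact Tm.unit | apply Tm.fst | apply Tm.snd | apply Tm.app | exact DefP.const _
          | apply DefP.and | apply DefP.not | apply DefP.or | apply DefP.iff | apply DefP.adj
          | apply DefP.le | apply DefP.lt | apply DefP.eqFin | apply DefP.eq | apply DefP.rv
          | apply DefP.imp | apply DefP.allFin | apply DefP.exFin | apply DefP.all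
          | apply DefP.ex | assumption | (apply Tm.comp; assumption) | apply Tm.pair
          | apply Tm.lam))) (by (repeat' (first
          | apply DefP.cho | apply DefP.halfSet | apply DefP.pr | apply DefP.oddRk
          | apply DefP.side | apply DefP.oddCard | apply DefP.cardEq | apply DefP.cardLt
          | apply DefP.cardLe | apply DefP.lst | apply DefP.fst | apply DefP.nxt
          | apply DefP.keyLe | apply DefP.keyLt | apply DefP.rtc | (apply DefP.app4; assumption)
          | (apply DefP.app3'; assumption) | (apply DefP.app3; assumption)
          | (apply DefP.app2; assumption) | (apply DefP.comp; assumption) | exact Tm.id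
          | exact Tm.unit | apply Tm.fst | apply Tm.snd | apply Tm.app | exact DefP.const _
          | apply DefP.and | apply DefP.not | apply DefP.or | apply DefP.iff | apply DefP.adj
          | apply DefP.le | apply DefP.lt | apply DefP.eqFin | apply DefP.eq | apply DefP.rv
          | apply DefP.imp | apply DefP.allFin | apply DefP.exFin | apply DefP.all
          | apply DefP.ex | assumption | (apply Tm.comp; assumption) | apply Tm.pair
          | apply Tm.lam))) (by (repeat' (first
          | apply DefP.cho | apply DefP.halfSet | apply DefP.pr | apply DefP.oddRk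
          | apply DefP.side | apply DefP.oddCard | apply DefP.cardEq | apply DefP.cardLt
          | apply DefP.cardLe | apply DefP.lst | apply DefP.fst | apply DefP.nxt
          | apply DefP.keyLe | apply DefP.keyLt | apply DefP.rtc | (apply DefP.app4; assumption)
          | (apply DefP.app3'; assumption) | (apply DefP.app3; assumption)
          | (apply DefP.app2; assumption) | (apply DefP.comp; assumption) | exact Tm.id
          | exact Tm.unit | apply Tm.fst | apply Tm.snd | apply Tm.app | exact DefP.const _
          | apply DefP.and | apply DefP.not | apply DefP.or | apply DefP.iff | apply DefP.adj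
          | apply DefP.le | apply DefP.lt | apply DefP.eqFin | apply DefP.eq | apply DefP.rv
          | apply DefP.imp | apply DefP.allFin | apply DefP.exFin | apply DefP.all
          | apply DefP.ex | assumption | (apply Tm.comp; assumption) | apply Tm.pair
          | apply Tm.lam)))
  have hs' : DefP (E := fun n => E n × ((S n × T n) × C n)) (fun n G X y =>
      Side (key (S := fun n => S n × T n)) (Lk key key (H n G X y.1)) y.2.1) :=
    DefP.app2 (F := E) (H := fun n => S n × T n) (P := fun n G X x e =>
      Side (key (S := fun n => S n × T n)) (Lk key key (H n G X x)) e) hs (by (repeat' (first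
          | apply DefP.cho | apply DefP.halfSet | apply DefP.pr | apply DefP.oddRk
          | apply DefP.side | apply DefP.oddCard | apply DefP.cardEq | apply DefP.cardLt
          | apply DefP.cardLe | apply DefP.lst | apply DefP.fst | apply DefP.nxt
          | apply DefP.keyLe | apply DefP.keyLt | apply DefP.rtc | (apply DefP.app4; assumption)
          | (apply DefP.app3'; assumption) | (apply DefP.app3; assumption)
          | (apply DefP.app2; assumption) | (apply DefP.comp; assumption) | exact Tm.id
          | exact Tm.unit | apply Tm.fst | apply Tm.snd | apply Tm.app | exact DefP.const _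
          | apply DefP.and | apply DefP.not | apply DefP.or | apply DefP.iff | apply DefP.adj
          | apply DefP.le | apply DefP.lt | apply DefP.eqFin | apply DefP.eq | apply DefP.rv
          | apply DefP.imp | apply DefP.allFin | apply DefP.exFin | apply DefP.all
          | apply DefP.ex | assumption | (apply Tm.comp; assumption) | apply Tm.pair
          | apply Tm.lam))) (by (repeat' (first
          | apply DefP.cho | apply DefP.halfSet | apply DefP.pr | apply DefP.oddRk
          | apply DefP.side | apply DefP.oddCard | apply DefP.cardEq | apply DefP.cardLt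
          | apply DefP.cardLe | apply DefP.lst | apply DefP.fst | apply DefP.nxt
          | apply DefP.keyLe | apply DefP.keyLt | apply DefP.rtc | (apply DefP.app4; assumption)
          | (apply DefP.app3'; assumption) | (apply DefP.app3; assumption)
          | (apply DefP.app2; assumption) | (apply DefP.comp; assumption) | exact Tm.id
          | exact Tm.unit | apply Tm.fst | apply Tm.snd | apply Tm.app | exact DefP.const _
          | apply DefP.and | apply DefP.not | apply DefP.or | apply DefP.iff | apply DefP.adj
          | apply DefP.le | apply DefP.lt | apply DefP.eqFin | apply DefP.eq | apply DefP.rv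
          | apply DefP.imp | apply DefP.allFin | apply DefP.exFin | apply DefP.all
          | apply DefP.ex | assumption | (apply Tm.comp; assumption) | apply Tm.pair
          | apply Tm.lam)))
  have hH' : DefP (E := fun n => E n × ((S n × T n) × C n)) (fun n G X y =>
      H n G X y.1 y.2.1.1 y.2.1.2) := DefP.app3 hH (by (repeat' (first
          | apply DefP.cho | apply DefP.halfSet | apply DefP.pr | apply DefP.oddRk
          | apply DefP.side | apply DefP.oddCard | apply DefP.cardEq | apply DefP.cardLt
          | apply DefP.cardLe | apply DefP.lst | apply DefP.fst | apply DefP.nxt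
          | apply DefP.keyLe | apply DefP.keyLt | apply DefP.rtc | (apply DefP.app4; assumption)
          | (apply DefP.app3'; assumption) | (apply DefP.app3; assumption)
          | (apply DefP.app2; assumption) | (apply DefP.comp; assumption) | exact Tm.id
          | exact Tm.unit | apply Tm.fst | apply Tm.snd | apply Tm.app | exact DefP.const _
          | apply DefP.and | apply DefP.not | apply DefP.or | apply DefP.iff | apply DefP.adj
          | apply DefP.le | apply DefP.lt | apply DefP.eqFin | apply DefP.eq | apply DefP.rv
          | apply DefP.imp | apply DefP.allFin | apply DefP.exFin | apply DefP.all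
          | apply DefP.ex | assumption | (apply Tm.comp; assumption) | apply Tm.pair
          | apply Tm.lam))) (by (repeat' (first
          | apply DefP.cho | apply DefP.halfSet | apply DefP.pr | apply DefP.oddRk
          | apply DefP.side | apply DefP.oddCard | apply DefP.cardEq | apply DefP.cardLt
          | apply DefP.cardLe | apply DefP.lst | apply DefP.fst | apply DefP.nxt
          | apply DefP.keyLe | apply DefP.keyLt | apply DefP.rtc | (apply DefP.app4; assumption)
          | (apply DefP.app3'; assumption) | (apply DefP.app3; assumption)
          | (apply DefP.app2; assumption) | (apply DefP.comp; assumption) | exact Tm.id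
          | exact Tm.unit | apply Tm.fst | apply Tm.snd | apply Tm.app | exact DefP.const _
          | apply DefP.and | apply DefP.not | apply DefP.or | apply DefP.iff | apply DefP.adj
          | apply DefP.le | apply DefP.lt | apply DefP.eqFin | apply DefP.eq | apply DefP.rv
          | apply DefP.imp | apply DefP.allFin | apply DefP.exFin | apply DefP.all
          | apply DefP.ex | assumption | (apply Tm.comp; assumption) | apply Tm.pair
          | apply Tm.lam))) (by (repeat' (first
          | apply DefP.cho | apply DefP.halfSet | apply DefP.pr | apply DefP.oddRk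
          | apply DefP.side | apply DefP.oddCard | apply DefP.cardEq | apply DefP.cardLt
          | apply DefP.cardLe | apply DefP.lst | apply DefP.fst | apply DefP.nxt
          | apply DefP.keyLe | apply DefP.keyLt | apply DefP.rtc | (apply DefP.app4; assumption)
          | (apply DefP.app3'; assumption) | (apply DefP.app3; assumption)
          | (apply DefP.app2; assumption) | (apply DefP.comp; assumption) | exact Tm.id
          | exact Tm.unit | apply Tm.fst | apply Tm.snd | apply Tm.app | exact DefP.const _
          | apply DefP.and | apply DefP.not | apply DefP.or | apply DefP.iff | apply DefP.adj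
          | apply DefP.le | apply DefP.lt | apply DefP.eqFin | apply DefP.eq | apply DefP.rv
          | apply DefP.imp | apply DefP.allFin | apply DefP.exFin | apply DefP.all
          | apply DefP.ex | assumption | (apply Tm.comp; assumption) | apply Tm.pair
          | apply Tm.lam)))
  have hc : DefP (E := E) (fun n G X x =>
      Nat.card {z : (S n × T n) × C n // (H n G X x z.1.1 z.1.2 ∧
        ¬ Side (key (S := fun n => S n × T n)) (Lk key key (H n G X x)) z.1) ∧
        Wt n G X x z.1 z.2} ≤
      Nat.card {z : (S n × T n) × C n // (H n G X x z.1.1 z.1.2 ∧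
        Side (key (S := fun n => S n × T n)) (Lk key key (H n G X x)) z.1) ∧
        Wt n G X x z.1 z.2}) :=
    DefP.cardLe (S := fun n => (S n × T n) × C n) (T := fun n => (S n × T n) × C n)
      ((hH'.and hs'.not).and hW) ((hH'.and hs').and hW)
  refine DefP.and ?_ (DefP.iff ?_ hc)
  · exact DefP.app3 hH Tm.id (Tm.fst hf) (Tm.snd hf)
  · exact DefP.app2 (H := fun n => S n × T n) (P := fun n G X x e =>
      Side (key (S := fun n => S n × T n)) (Lk key key (H n G X x)) e) hs Tm.id hf

theorem DefP.hvW {Y : ∀ n : ℕ, SimpleGraph (Fin n) → Ctx n → E n → (S n × T n) × P n → Prop}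
    (hY : DefP (E := fun n => E n × ((S n × T n) × P n)) (fun n G X y => Y n G X y.1 y.2))
    {Wt : ∀ n : ℕ, SimpleGraph (Fin n) → Ctx n → E n → S n × T n → C n → Prop}
    (hW : DefP (E := fun n => E n × ((S n × T n) × C n))
      (fun n G X y => Wt n G X y.1 y.2.1 y.2.2)) :
    DefP (E := fun n => E n × ((S n × T n) × P n)) (fun n G X y =>
      HvW key key (key (S := fun n => S n × T n)) key (Wt n G X y.1) (Y n G X y.1) y.2) := by
  have ho : DefP (E := fun n => E n × (S n × T n)) (fun n G X y =>
      OddE (Y n G X y.1) y.2.1 y.2.2) := by
    unfold OddE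
    refine DefP.oddCard (S := P) ?_
    refine DefP.app2 (F := E) (H := fun n => (S n × T n) × P n) (P := Y) hY ?_ ?_
    all_goals (repeat' (first
        | apply DefP.cho | apply DefP.halfSet | apply DefP.pr | apply DefP.oddRk
        | apply DefP.side | apply DefP.oddCard | apply DefP.cardEq | apply DefP.cardLt
        | apply DefP.cardLe | apply DefP.lst | apply DefP.fst | apply DefP.nxt
        | apply DefP.keyLe | apply DefP.keyLt | apply DefP.rtc | (apply DefP.app4; assumption)
        | (apply DefP.app3'; assumption) | (apply DefP.app3; assumption)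
        | (apply DefP.app2; assumption) | (apply DefP.comp; assumption) | exact Tm.id
        | exact Tm.unit | apply Tm.fst | apply Tm.snd | apply Tm.app | exact DefP.const _
        | apply DefP.and | apply DefP.not | apply DefP.or | apply DefP.iff | apply DefP.adj
        | apply DefP.le | apply DefP.lt | apply DefP.eqFin | apply DefP.eq | apply DefP.rv
        | apply DefP.imp | apply DefP.allFin | apply DefP.exFin | apply DefP.all | apply DefP.ex
        | assumption | (apply Tm.comp; assumption) | apply Tm.pair | apply Tm.lam))
  have hc : DefP (E := fun n => E n × (S n × T n)) (fun n G X y =>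
      ChoW key key (key (S := fun n => S n × T n)) (Wt n G X y.1) (OddE (Y n G X y.1)) y.2) :=
    DefP.choW (C := C) (H := fun n G X (y : E n × (S n × T n)) u v => OddE (Y n G X y.1) u v)
      (Wt := fun n G X y e c => Wt n G X y.1 e c)
      (DefP.app3 (F := E) (P := fun n G X x u v => OddE (Y n G X x) u v) ho
        (by (repeat' (first
            | apply DefP.cho | apply DefP.halfSet | apply DefP.pr | apply DefP.oddRk
            | apply DefP.side | apply DefP.oddCard | apply DefP.cardEq | apply DefP.cardLt
            | apply DefP.cardLe | apply DefP.lst | apply DefP.fst | apply DefP.nxt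
            | apply DefP.keyLe | apply DefP.keyLt | apply DefP.rtc
            | (apply DefP.app4; assumption) | (apply DefP.app3'; assumption)
            | (apply DefP.app3; assumption) | (apply DefP.app2; assumption)
            | (apply DefP.comp; assumption) | exact Tm.id | exact Tm.unit | apply Tm.fst
            | apply Tm.snd | apply Tm.app | exact DefP.const _ | apply DefP.and | apply DefP.not
            | apply DefP.or | apply DefP.iff | apply DefP.adj | apply DefP.le | apply DefP.lt
            | apply DefP.eqFin | apply DefP.eq | apply DefP.rv | apply DefP.imp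
            | apply DefP.allFin | apply DefP.exFin | apply DefP.all | apply DefP.ex | assumption
            | (apply Tm.comp; assumption) | apply Tm.pair | apply Tm.lam))) (by (repeat' (first
            | apply DefP.cho | apply DefP.halfSet | apply DefP.pr | apply DefP.oddRk
            | apply DefP.side | apply DefP.oddCard | apply DefP.cardEq | apply DefP.cardLt
            | apply DefP.cardLe | apply DefP.lst | apply DefP.fst | apply DefP.nxt
            | apply DefP.keyLe | apply DefP.keyLt | apply DefP.rtc
            | (apply DefP.app4; assumption) | (apply DefP.app3'; assumption)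
            | (apply DefP.app3; assumption) | (apply DefP.app2; assumption)
            | (apply DefP.comp; assumption) | exact Tm.id | exact Tm.unit | apply Tm.fst
            | apply Tm.snd | apply Tm.app | exact DefP.const _ | apply DefP.and | apply DefP.not
            | apply DefP.or | apply DefP.iff | apply DefP.adj | apply DefP.le | apply DefP.lt
            | apply DefP.eqFin | apply DefP.eq | apply DefP.rv | apply DefP.imp
            | apply DefP.allFin | apply DefP.exFin | apply DefP.all | apply DefP.ex | assumption
            | (apply Tm.comp; assumption) | apply Tm.pair | apply Tm.lam))) (by (repeat' (first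
            | apply DefP.cho | apply DefP.halfSet | apply DefP.pr | apply DefP.oddRk
            | apply DefP.side | apply DefP.oddCard | apply DefP.cardEq | apply DefP.cardLt
            | apply DefP.cardLe | apply DefP.lst | apply DefP.fst | apply DefP.nxt
            | apply DefP.keyLe | apply DefP.keyLt | apply DefP.rtc
            | (apply DefP.app4; assumption) | (apply DefP.app3'; assumption)
            | (apply DefP.app3; assumption) | (apply DefP.app2; assumption)
            | (apply DefP.comp; assumption) | exact Tm.id | exact Tm.unit | apply Tm.fst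
            | apply Tm.snd | apply Tm.app | exact DefP.const _ | apply DefP.and | apply DefP.not
            | apply DefP.or | apply DefP.iff | apply DefP.adj | apply DefP.le | apply DefP.lt
            | apply DefP.eqFin | apply DefP.eq | apply DefP.rv | apply DefP.imp
            | apply DefP.allFin | apply DefP.exFin | apply DefP.all | apply DefP.ex | assumption
            | (apply Tm.comp; assumption) | apply Tm.pair | apply Tm.lam))))
      (DefP.app3 (F := E) (H := fun n => S n × T n) (K := C) (P := Wt) hW
        (by (repeat' (first
            | apply DefP.cho | apply DefP.halfSet | apply DefP.pr | apply DefP.oddRk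
            | apply DefP.side | apply DefP.oddCard | apply DefP.cardEq | apply DefP.cardLt
            | apply DefP.cardLe | apply DefP.lst | apply DefP.fst | apply DefP.nxt
            | apply DefP.keyLe | apply DefP.keyLt | apply DefP.rtc
            | (apply DefP.app4; assumption) | (apply DefP.app3'; assumption)
            | (apply DefP.app3; assumption) | (apply DefP.app2; assumption)
            | (apply DefP.comp; assumption) | exact Tm.id | exact Tm.unit | apply Tm.fst
            | apply Tm.snd | apply Tm.app | exact DefP.const _ | apply DefP.and | apply DefP.not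
            | apply DefP.or | apply DefP.iff | apply DefP.adj | apply DefP.le | apply DefP.lt
            | apply DefP.eqFin | apply DefP.eq | apply DefP.rv | apply DefP.imp
            | apply DefP.allFin | apply DefP.exFin | apply DefP.all | apply DefP.ex | assumption
            | (apply Tm.comp; assumption) | apply Tm.pair | apply Tm.lam))) (by (repeat' (first
            | apply DefP.cho | apply DefP.halfSet | apply DefP.pr | apply DefP.oddRk
            | apply DefP.side | apply DefP.oddCard | apply DefP.cardEq | apply DefP.cardLt
            | apply DefP.cardLe | apply DefP.lst | apply DefP.fst | apply DefP.nxt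
            | apply DefP.keyLe | apply DefP.keyLt | apply DefP.rtc
            | (apply DefP.app4; assumption) | (apply DefP.app3'; assumption)
            | (apply DefP.app3; assumption) | (apply DefP.app2; assumption)
            | (apply DefP.comp; assumption) | exact Tm.id | exact Tm.unit | apply Tm.fst
            | apply Tm.snd | apply Tm.app | exact DefP.const _ | apply DefP.and | apply DefP.not
            | apply DefP.or | apply DefP.iff | apply DefP.adj | apply DefP.le | apply DefP.lt
            | apply DefP.eqFin | apply DefP.eq | apply DefP.rv | apply DefP.imp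
            | apply DefP.allFin | apply DefP.exFin | apply DefP.all | apply DefP.ex | assumption
            | (apply Tm.comp; assumption) | apply Tm.pair | apply Tm.lam))) (by (repeat' (first
            | apply DefP.cho | apply DefP.halfSet | apply DefP.pr | apply DefP.oddRk
            | apply DefP.side | apply DefP.oddCard | apply DefP.cardEq | apply DefP.cardLt
            | apply DefP.cardLe | apply DefP.lst | apply DefP.fst | apply DefP.nxt
            | apply DefP.keyLe | apply DefP.keyLt | apply DefP.rtc
            | (apply DefP.app4; assumption) | (apply DefP.app3'; assumption)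
            | (apply DefP.app3; assumption) | (apply DefP.app2; assumption)
            | (apply DefP.comp; assumption) | exact Tm.id | exact Tm.unit | apply Tm.fst
            | apply Tm.snd | apply Tm.app | exact DefP.const _ | apply DefP.and | apply DefP.not
            | apply DefP.or | apply DefP.iff | apply DefP.adj | apply DefP.le | apply DefP.lt
            | apply DefP.eqFin | apply DefP.eq | apply DefP.rv | apply DefP.imp
            | apply DefP.allFin | apply DefP.exFin | apply DefP.all | apply DefP.ex | assumption
            | (apply Tm.comp; assumption) | apply Tm.pair | apply Tm.lam)))) (by (repeat' (first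
            | apply DefP.cho | apply DefP.halfSet | apply DefP.pr | apply DefP.oddRk
            | apply DefP.side | apply DefP.oddCard | apply DefP.cardEq | apply DefP.cardLt
            | apply DefP.cardLe | apply DefP.lst | apply DefP.fst | apply DefP.nxt
            | apply DefP.keyLe | apply DefP.keyLt | apply DefP.rtc
            | (apply DefP.app4; assumption) | (apply DefP.app3'; assumption)
            | (apply DefP.app3; assumption) | (apply DefP.app2; assumption)
            | (apply DefP.comp; assumption) | exact Tm.id | exact Tm.unit | apply Tm.fst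
            | apply Tm.snd | apply Tm.app | exact DefP.const _ | apply DefP.and | apply DefP.not
            | apply DefP.or | apply DefP.iff | apply DefP.adj | apply DefP.le | apply DefP.lt
            | apply DefP.eqFin | apply DefP.eq | apply DefP.rv | apply DefP.imp
            | apply DefP.allFin | apply DefP.exFin | apply DefP.all | apply DefP.ex | assumption
            | (apply Tm.comp; assumption) | apply Tm.pair | apply Tm.lam)))
  unfold HvW
  refine DefP.halfSet (E := fun n => E n × ((S n × T n) × P n)) (S := P)
    (A := fun n G X y p => Y n G X y.1 (y.2.1, p)) ?_ ?_ ?_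
  · refine DefP.app2 (F := E) (H := fun n => (S n × T n) × P n) (P := Y) hY ?_ ?_
    all_goals (repeat' (first
        | apply DefP.cho | apply DefP.halfSet | apply DefP.pr | apply DefP.oddRk
        | apply DefP.side | apply DefP.oddCard | apply DefP.cardEq | apply DefP.cardLt
        | apply DefP.cardLe | apply DefP.lst | apply DefP.fst | apply DefP.nxt
        | apply DefP.keyLe | apply DefP.keyLt | apply DefP.rtc | (apply DefP.app4; assumption)
        | (apply DefP.app3'; assumption) | (apply DefP.app3; assumption)
        | (apply DefP.app2; assumption) | (apply DefP.comp; assumption) | exact Tm.id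
        | exact Tm.unit | apply Tm.fst | apply Tm.snd | apply Tm.app | exact DefP.const _
        | apply DefP.and | apply DefP.not | apply DefP.or | apply DefP.iff | apply DefP.adj
        | apply DefP.le | apply DefP.lt | apply DefP.eqFin | apply DefP.eq | apply DefP.rv
        | apply DefP.imp | apply DefP.allFin | apply DefP.exFin | apply DefP.all | apply DefP.ex
        | assumption | (apply Tm.comp; assumption) | apply Tm.pair | apply Tm.lam))
  · exact DefP.app2 (F := E) (H := fun n => S n × T n) (P := fun n G X x e =>
      ChoW key key (key (S := fun n => S n × T n)) (Wt n G X x) (OddE (Y n G X x)) e) hc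
      (by (repeat' (first
          | apply DefP.cho | apply DefP.halfSet | apply DefP.pr | apply DefP.oddRk
          | apply DefP.side | apply DefP.oddCard | apply DefP.cardEq | apply DefP.cardLt
          | apply DefP.cardLe | apply DefP.lst | apply DefP.fst | apply DefP.nxt
          | apply DefP.keyLe | apply DefP.keyLt | apply DefP.rtc | (apply DefP.app4; assumption)
          | (apply DefP.app3'; assumption) | (apply DefP.app3; assumption)
          | (apply DefP.app2; assumption) | (apply DefP.comp; assumption) | exact Tm.id
          | exact Tm.unit | apply Tm.fst | apply Tm.snd | apply Tm.app | exact DefP.const _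
          | apply DefP.and | apply DefP.not | apply DefP.or | apply DefP.iff | apply DefP.adj
          | apply DefP.le | apply DefP.lt | apply DefP.eqFin | apply DefP.eq | apply DefP.rv
          | apply DefP.imp | apply DefP.allFin | apply DefP.exFin | apply DefP.all
          | apply DefP.ex | assumption | (apply Tm.comp; assumption) | apply Tm.pair
          | apply Tm.lam))) (by (repeat' (first
          | apply DefP.cho | apply DefP.halfSet | apply DefP.pr | apply DefP.oddRk
          | apply DefP.side | apply DefP.oddCard | apply DefP.cardEq | apply DefP.cardLt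
          | apply DefP.cardLe | apply DefP.lst | apply DefP.fst | apply DefP.nxt
          | apply DefP.keyLe | apply DefP.keyLt | apply DefP.rtc | (apply DefP.app4; assumption)
          | (apply DefP.app3'; assumption) | (apply DefP.app3; assumption)
          | (apply DefP.app2; assumption) | (apply DefP.comp; assumption) | exact Tm.id
          | exact Tm.unit | apply Tm.fst | apply Tm.snd | apply Tm.app | exact DefP.const _
          | apply DefP.and | apply DefP.not | apply DefP.or | apply DefP.iff | apply DefP.adj
          | apply DefP.le | apply DefP.lt | apply DefP.eqFin | apply DefP.eq | apply DefP.rv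
          | apply DefP.imp | apply DefP.allFin | apply DefP.exFin | apply DefP.all
          | apply DefP.ex | assumption | (apply Tm.comp; assumption) | apply Tm.pair
          | apply Tm.lam)))
  · (repeat' (first
      | apply DefP.cho | apply DefP.halfSet | apply DefP.pr | apply DefP.oddRk | apply DefP.side
      | apply DefP.oddCard | apply DefP.cardEq | apply DefP.cardLt | apply DefP.cardLe
      | apply DefP.lst | apply DefP.fst | apply DefP.nxt | apply DefP.keyLe | apply DefP.keyLt
      | apply DefP.rtc | (apply DefP.app4; assumption) | (apply DefP.app3'; assumption)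
      | (apply DefP.app3; assumption) | (apply DefP.app2; assumption)
      | (apply DefP.comp; assumption) | exact Tm.id | exact Tm.unit | apply Tm.fst
      | apply Tm.snd | apply Tm.app | exact DefP.const _ | apply DefP.and | apply DefP.not
      | apply DefP.or | apply DefP.iff | apply DefP.adj | apply DefP.le | apply DefP.lt
      | apply DefP.eqFin | apply DefP.eq | apply DefP.rv | apply DefP.imp | apply DefP.allFin
      | apply DefP.exFin | apply DefP.all | apply DefP.ex | assumption
      | (apply Tm.comp; assumption) | apply Tm.pair | apply Tm.lam))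

end def_

end Pool.Agent.PMNC
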