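import Mathlib
import Pool.Agent.Lib.MP_0087d5_lc.HalveW
import Pool.Agent.Lib.MP_0087d5_lc.Frac

set_option autoImplicit false
set_option linter.all false

/-!
# Rounding of the fractional matching `1 / max (d(u), d(v))` of a bipartite graph, with weights
-/

namespace Pool.Agent.PMNC

open Relation

section comb
variable {α β π ξ : Type*} [LinearOrder ξ]

/-- the initial multiset of edges -/
def IniA (A : α → β → Prop) (k : π → ξ) (b : π) (e : (α × β) × π) : Prop :=
  A e.1.1 e.1.2 ∧
    Nat.card {q : π × β // k q.1 ≤ k e.2 ∧ A e.1.1 q.2} ≤ Nat.card {q : π // k q ≤ k b} ∧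
    Nat.card {q : π × α // k q.1 ≤ k e.2 ∧ A q.2 e.1.2} ≤ Nat.card {q : π // k q ≤ k b}

/-- degrees -/
noncomputable def dL (A : α → β → Prop) (u : α) : ℕ := Nat.card {v // A u v}
noncomputable def dR (A : α → β → Prop) (v : β) : ℕ := Nat.card {u // A u v}

variable [Fintype α] [Fintype β] [Finite π] {k : π → ξ}

theorem card_prod_rank' {γ : Type*} (p : π) (Q : γ → Prop) :
    Nat.card {q : π × γ // k q.1 ≤ k p ∧ Q q.2} = Nat.card {q : π // k q ≤ k p} *
      Nat.card {c // Q c} := by
  rw [← Nat.card_prod]
  apply Nat.card_congr
  exact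
    { toFun := fun x => (⟨x.1.1, x.2.1⟩, ⟨x.1.2, x.2.2⟩)
      invFun := fun y => ⟨(y.1.1, y.2.1), y.1.2, y.2.2⟩
      left_inv := fun x => rfl
      right_inv := fun y => rfl }

theorem dL_pos {A : α → β → Prop} {u : α} {v : β} (h : A u v) : 0 < dL A u := by
  unfold dL
  haveI : Nonempty {w // A u w} := ⟨⟨v, h⟩⟩
  exact Nat.card_pos

theorem dR_pos {A : α → β → Prop} {u : α} {v : β} (h : A u v) : 0 < dR A v := by
  unfold dR
  haveI : Nonempty {w // A w v} := ⟨⟨u, h⟩⟩
  exact Nat.card_pos

theorem mul_iniA (hk : Function.Injective k) (A : α → β → Prop) (b : π) {u : α} {v : β}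
    (h : A u v) :
    mul (IniA A k b) u v = Nat.card {q : π // k q ≤ k b} / max (dL A u) (dR A v) := by
  have hcard : Nat.card {q : π // k q ≤ k b} ≤ Nat.card π :=
    Nat.card_le_card_of_injective (fun x => x.1) Subtype.val_injective
  have hD : 0 < max (dL A u) (dR A v) := lt_of_lt_of_le (dL_pos h) (le_max_left _ _)
  have h1 := card_rank hk (t := Nat.card {q : π // k q ≤ k b} / max (dL A u) (dR A v))
    ((Nat.div_le_self _ _).trans hcard)
  rw [← h1]
  unfold mul
  apply Nat.card_congr
  apply Equiv.subtypeEquivRight
  intro p
  unfold IniA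
  simp only [h, true_and]
  rw [card_prod_rank' p (fun w => A u w), card_prod_rank' p (fun w => A w v)]
  rw [Nat.le_div_iff_mul_le hD]
  constructor
  · rintro ⟨h3, h4⟩
    rcases max_choice (dL A u) (dR A v) with hm | hm
    · rw [hm]; exact h3
    · rw [hm]; exact h4
  · intro h3
    exact ⟨(Nat.mul_le_mul_left _ (le_max_left _ _)).trans h3,
      (Nat.mul_le_mul_left _ (le_max_right _ _)).trans h3⟩

theorem mul_iniA_neg (A : α → β → Prop) (b : π) {u : α} {v : β} (h : ¬ A u v) :
    mul (IniA A k b) u v = 0 := by
  unfold mul
  haveI : IsEmpty {p // IniA A k b ((u, v), p)} := ⟨fun x => h x.2.1⟩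
  exact Nat.card_of_isEmpty

theorem iniA_left (hk : Function.Injective k) (A : α → β → Prop) (b : π) (u : α) :
    ∑ v, mul (IniA A k b) u v ≤ Nat.card {q : π // k q ≤ k b} := by
  have h1 : ∀ v, mul (IniA A k b) u v ≤
      ind (A u v) * (Nat.card {q : π // k q ≤ k b} / dL A u) := by
    intro v
    by_cases h : A u v
    · rw [mul_iniA hk A b h, ind_pos h, one_mul]
      exact Nat.div_le_div_left (le_max_left _ _) (dL_pos h)
    · rw [mul_iniA_neg A b h]
      exact Nat.zero_le _
  calc ∑ v, mul (IniA A k b) u v
      ≤ ∑ v, ind (A u v) * (Nat.card {q : π // k q ≤ k b} / dL A u) :=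
        Finset.sum_le_sum fun v _ => h1 v
    _ = dL A u * (Nat.card {q : π // k q ≤ k b} / dL A u) := by
        rw [← Finset.sum_mul, ← card_sum]
        rfl
    _ ≤ _ := Nat.mul_div_le _ _

theorem iniA_right (hk : Function.Injective k) (A : α → β → Prop) (b : π) (v : β) :
    ∑ u, mul (IniA A k b) u v ≤ Nat.card {q : π // k q ≤ k b} := by
  have h1 : ∀ u, mul (IniA A k b) u v ≤
      ind (A u v) * (Nat.card {q : π // k q ≤ k b} / dR A v) := by
    intro u
    by_cases h : A u v
    · rw [mul_iniA hk A b h, ind_pos h, one_mul]
      exact Nat.div_le_div_left (le_max_right _ _) (dR_pos h)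
    · rw [mul_iniA_neg A b h]
      exact Nat.zero_le _
  calc ∑ u, mul (IniA A k b) u v
      ≤ ∑ u, ind (A u v) * (Nat.card {q : π // k q ≤ k b} / dR A v) :=
        Finset.sum_le_sum fun u _ => h1 u
    _ = dR A v * (Nat.card {q : π // k q ≤ k b} / dR A v) := by
        rw [← Finset.sum_mul, ← card_sum]
        rfl
    _ ≤ _ := Nat.mul_div_le _ _

end comb


/-- the parameter `b` encodes the number `2 ^ (2 * size n)` -/
def Good {n : ℕ} (b : Fin 4 → Fin n) : Prop :=
  Nat.card {q : Fin 4 → Fin n // (key (S := fun n => Fin 4 → Fin n)) q ≤ (key (S := fun n => Fin 4 → Fin n)) b} = 2 ^ (2 * Nat.size n)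

theorem exists_good {n : ℕ} (hn : 2 ≤ n) : ∃ b : Fin 4 → Fin n, Good b := by
  have hcard : Nat.card (Fin 4 → Fin n) = n ^ 4 := by simp
  have hsz : 2 ^ Nat.size n ≤ 2 * n := by
    have h1 : 0 < Nat.size n := Nat.size_pos.2 (by omega)
    have h2 : 2 ^ (Nat.size n - 1) ≤ n := Nat.lt_size.1 (by omega)
    calc 2 ^ Nat.size n = 2 * 2 ^ (Nat.size n - 1) := by
          rw [← pow_succ']
          congr 1
          omega
      _ ≤ 2 * n := by omega
  have hB1 : 2 ^ (2 * Nat.size n) ≤ n ^ 4 := by
    calc 2 ^ (2 * Nat.size n) = (2 ^ Nat.size n) ^ 2 := by rw [mul_comm, pow_mul]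
      _ ≤ (2 * n) ^ 2 := Nat.pow_le_pow_left hsz 2
      _ ≤ (n * n) ^ 2 := Nat.pow_le_pow_left (Nat.mul_le_mul_right n hn) 2
      _ = n ^ 4 := by ring
  obtain ⟨b, _, hb⟩ := exists_rk (f := key (S := fun n => Fin 4 → Fin n) (n := n)) key_injective
    (A := fun _ => True) (m := 2 ^ (2 * Nat.size n)) Nat.one_le_two_pow (by
      rw [Nat.card_congr (Equiv.subtypeUnivEquiv fun _ => trivial), hcard]
      exact hB1)
  refine ⟨b, ?_⟩
  unfold Good
  rw [← hb]
  unfold rk
  simp

theorem sq_le_B (n : ℕ) : n ^ 2 ≤ 2 ^ (2 * Nat.size n) := by
  calc n ^ 2 ≤ (2 ^ Nat.size n) ^ 2 := Nat.pow_le_pow_left (Nat.lt_size_self n).le 2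
    _ = 2 ^ (2 * Nat.size n) := by rw [mul_comm, pow_mul]

/-- the rounded matching -/
def Rnd {n : ℕ} {γ : Type} (Wt : Fin n × Fin n → γ → Prop) (A : Fin n → Fin n → Prop)
    (b : Fin 4 → Fin n) (e : Fin n × Fin n) : Prop :=
  ∃ p, ((HvW (key (S := fun n => Fin n)) (key (S := fun n => Fin n))
    (key (S := fun n => Fin n × Fin n)) (key (S := fun n => Fin 4 → Fin n)) Wt)^[2 * Nat.size n] (IniA A (key (S := fun n => Fin 4 → Fin n)) b)) (e, p)

theorem rnd_spec {n : ℕ} {γ : Type} [Fintype γ] (Wt : Fin n × Fin n → γ → Prop)
    (A : Fin n → Fin n → Prop) {b : Fin 4 → Fin n} (hb : Good b) :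
    (∀ u v, Rnd Wt A b (u, v) → A u v) ∧
    (∀ u v v', Rnd Wt A b (u, v) → Rnd Wt A b (u, v') → v = v') ∧
    (∀ u u' v, Rnd Wt A b (u, v) → Rnd Wt A b (u', v) → u = u') ∧
    ∑ e : Fin n × Fin n, ind (A e.1 e.2) *
        (2 ^ (2 * Nat.size n) / max (dL A e.1) (dR A e.2)) * wt Wt e ≤
      2 ^ (2 * Nat.size n) * ∑ e : Fin n × Fin n, ind (Rnd Wt A b e) * wt Wt e := by
  have hkf : Function.Injective (key (S := fun n => Fin n) (n := n)) := key_injective
  have hkh : Function.Injective (key (S := fun n => Fin n × Fin n) (n := n)) := key_injective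
  have hkp : Function.Injective (key (S := fun n => Fin 4 → Fin n) (n := n)) := key_injective
  have h1 := iniA_left hkp A b
  have h2 := iniA_right hkp A b
  unfold Good at hb
  rw [hb] at h1 h2
  obtain ⟨i1, i2, i3, i4⟩ := hvW_iterate (Wt := Wt) hkf hkf hkh hkp (2 * Nat.size n)
    (IniA A (key (S := fun n => Fin 4 → Fin n)) b) h1 h2
  set Z := (HvW (key (S := fun n => Fin n)) (key (S := fun n => Fin n))
    (key (S := fun n => Fin n × Fin n)) (key (S := fun n => Fin 4 → Fin n)) Wt)^[2 * Nat.size n] (IniA A (key (S := fun n => Fin 4 → Fin n)) b) with hZ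
  have hpos : ∀ {u v}, Rnd Wt A b (u, v) → 1 ≤ mul Z u v := by
    rintro u v ⟨p, hp⟩
    haveI : Nonempty {p // Z ((u, v), p)} := ⟨⟨p, hp⟩⟩
    exact Nat.card_pos
  refine ⟨?_, ?_, ?_, ?_⟩
  · rintro u v ⟨p, hp⟩
    exact (i4 _ hp).1
  · intro u v v' h h'
    by_contra hne
    have e1 : mul Z u v + mul Z u v' ≤ ∑ v, mul Z u v := by
      rw [← Finset.sum_pair hne]
      exact Finset.sum_le_sum_of_subset (Finset.subset_univ _)
    have := hpos h
    have := hpos h'
    have := i1 u
    omega
  · intro u u' v h h'
    by_contra hne
    have e1 : mul Z u v + mul Z u' v ≤ ∑ u, mul Z u v := by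
      rw [← Finset.sum_pair (f := fun u => mul Z u v) hne]
      exact Finset.sum_le_sum_of_subset (Finset.subset_univ _)
    have := hpos h
    have := hpos h'
    have := i2 v
    omega
  · have e1 : ∑ e : Fin n × Fin n, ind (A e.1 e.2) *
        (2 ^ (2 * Nat.size n) / max (dL A e.1) (dR A e.2)) * wt Wt e =
        ∑ e : Fin n × Fin n, mul (IniA A (key (S := fun n => Fin 4 → Fin n)) b) e.1 e.2 * wt Wt e := by
      refine Finset.sum_congr rfl fun e _ => ?_
      congr 1
      by_cases h : A e.1 e.2
      · rw [ind_pos h, one_mul, mul_iniA hkp A b h, hb]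
      · rw [ind_neg h, zero_mul, mul_iniA_neg A b h]
    rw [e1]
    refine i3.trans (Nat.mul_le_mul_left _ (Finset.sum_le_sum fun e _ =>
      Nat.mul_le_mul_right _ ?_))
    by_cases h : Rnd Wt A b e
    · rw [ind_pos h]
      refine le_trans ?_ (i1 e.1)
      exact Finset.single_le_sum (f := fun v => mul Z e.1 v) (fun _ _ => Nat.zero_le _)
        (Finset.mem_univ e.2)
    · rw [ind_neg h]
      apply le_of_eq
      unfold mul
      haveI : IsEmpty {p // Z ((e.1, e.2), p)} := ⟨fun p => h ⟨p.1, p.2⟩⟩
      exact Nat.card_of_isEmpty

section def_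
variable {E C : ℕ → Type} [Env E] [Env C]

theorem DefP.iniA {A : ∀ n : ℕ, SimpleGraph (Fin n) → Ctx n → E n → Fin n → Fin n → Prop}
    (hA : DefP (E := fun n => E n × (Fin n × Fin n)) (fun n G X y => A n G X y.1 y.2.1 y.2.2))
    {b : ∀ n : ℕ, E n → Fin 4 → Fin n} (hb : Tm (F := fun n => Fin 4 → Fin n) b) :
    DefP (E := fun n => E n × ((Fin n × Fin n) × (Fin 4 → Fin n))) (fun n G X y =>
      IniA (A n G X y.1) (key (S := fun n => Fin 4 → Fin n)) (b n y.1) y.2) := by
  unfold IniA
  refine DefP.and ?_ (DefP.and ?_ ?_)
  · (repeat' (first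
      | apply DefP.cho | apply DefP.halfSet | apply DefP.pr | apply DefP.oddRk | apply DefP.side
      | apply DefP.oddCard | apply DefP.cardEq | apply DefP.cardLt | apply DefP.cardLe
      | apply DefP.lst | apply DefP.fst | apply DefP.nxt | apply DefP.keyLe | apply DefP.keyLt
      | apply DefP.rtc | (apply DefP.app4; assumption) | (apply DefP.app3'; assumption)
      | (apply DefP.app3; assumption) | (apply DefP.app2; assumption)
      | (apply DefP.comp; assumption) | exact Tm.id | exact Tm.unit | apply Tm.fst
      | apply Tm.snd | apply Tm.app | exact DefP.const _ | apply DefP.and | apply DefP.not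
      | apply DefP.or | apply DefP.iff | apply DefP.adj | apply DefP.le | apply DefP.lt
      | apply DefP.eqFin | apply DefP.eq | apply DefP.rv | apply DefP.imp | apply DefP.allFin
      | apply DefP.exFin | apply DefP.all | apply DefP.ex | assumption
      | (apply Tm.comp; assumption) | apply Tm.pair | apply Tm.lam))
  · refine DefP.cardLe (S := fun n => (Fin 4 → Fin n) × Fin n) (T := fun n => Fin 4 → Fin n) ?_ ?_
    · exact DefP.and (DefP.keyLe (S := fun n => Fin 4 → Fin n) (by (repeat' (first
        | apply DefP.cho | apply DefP.halfSet | apply DefP.pr | apply DefP.oddRk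
        | apply DefP.side | apply DefP.oddCard | apply DefP.cardEq | apply DefP.cardLt
        | apply DefP.cardLe | apply DefP.lst | apply DefP.fst | apply DefP.nxt
        | apply DefP.keyLe | apply DefP.keyLt | apply DefP.rtc | (apply DefP.app4; assumption)
        | (apply DefP.app3'; assumption) | (apply DefP.app3; assumption)
        | (apply DefP.app2; assumption) | (apply DefP.comp; assumption) | exact Tm.id
        | exact Tm.unit | apply Tm.fst | apply Tm.snd | apply Tm.app | exact DefP.const _
        | apply DefP.and | apply DefP.not | apply DefP.or | apply DefP.iff | apply DefP.adj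
        | apply DefP.le | apply DefP.lt | apply DefP.eqFin | apply DefP.eq | apply DefP.rv
        | apply DefP.imp | apply DefP.allFin | apply DefP.exFin | apply DefP.all | apply DefP.ex
        | assumption | (apply Tm.comp; assumption) | apply Tm.pair
        | apply Tm.lam))) (by (repeat' (first
        | apply DefP.cho | apply DefP.halfSet | apply DefP.pr | apply DefP.oddRk
        | apply DefP.side | apply DefP.oddCard | apply DefP.cardEq | apply DefP.cardLt
        | apply DefP.cardLe | apply DefP.lst | apply DefP.fst | apply DefP.nxt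
        | apply DefP.keyLe | apply DefP.keyLt | apply DefP.rtc | (apply DefP.app4; assumption)
        | (apply DefP.app3'; assumption) | (apply DefP.app3; assumption)
        | (apply DefP.app2; assumption) | (apply DefP.comp; assumption) | exact Tm.id
        | exact Tm.unit | apply Tm.fst | apply Tm.snd | apply Tm.app | exact DefP.const _
        | apply DefP.and | apply DefP.not | apply DefP.or | apply DefP.iff | apply DefP.adj
        | apply DefP.le | apply DefP.lt | apply DefP.eqFin | apply DefP.eq | apply DefP.rv
        | apply DefP.imp | apply DefP.allFin | apply DefP.exFin | apply DefP.all | apply DefP.ex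
        | assumption | (apply Tm.comp; assumption) | apply Tm.pair
        | apply Tm.lam)))) (by (repeat' (first
        | apply DefP.cho | apply DefP.halfSet | apply DefP.pr | apply DefP.oddRk
        | apply DefP.side | apply DefP.oddCard | apply DefP.cardEq | apply DefP.cardLt
        | apply DefP.cardLe | apply DefP.lst | apply DefP.fst | apply DefP.nxt
        | apply DefP.keyLe | apply DefP.keyLt | apply DefP.rtc | (apply DefP.app4; assumption)
        | (apply DefP.app3'; assumption) | (apply DefP.app3; assumption)
        | (apply DefP.app2; assumption) | (apply DefP.comp; assumption) | exact Tm.id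
        | exact Tm.unit | apply Tm.fst | apply Tm.snd | apply Tm.app | exact DefP.const _
        | apply DefP.and | apply DefP.not | apply DefP.or | apply DefP.iff | apply DefP.adj
        | apply DefP.le | apply DefP.lt | apply DefP.eqFin | apply DefP.eq | apply DefP.rv
        | apply DefP.imp | apply DefP.allFin | apply DefP.exFin | apply DefP.all | apply DefP.ex
        | assumption | (apply Tm.comp; assumption) | apply Tm.pair | apply Tm.lam)))
    · exact DefP.keyLe (S := fun n => Fin 4 → Fin n) (by (repeat' (first
        | apply DefP.cho | apply DefP.halfSet | apply DefP.pr | apply DefP.oddRk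
        | apply DefP.side | apply DefP.oddCard | apply DefP.cardEq | apply DefP.cardLt
        | apply DefP.cardLe | apply DefP.lst | apply DefP.fst | apply DefP.nxt
        | apply DefP.keyLe | apply DefP.keyLt | apply DefP.rtc | (apply DefP.app4; assumption)
        | (apply DefP.app3'; assumption) | (apply DefP.app3; assumption)
        | (apply DefP.app2; assumption) | (apply DefP.comp; assumption) | exact Tm.id
        | exact Tm.unit | apply Tm.fst | apply Tm.snd | apply Tm.app | exact DefP.const _
        | apply DefP.and | apply DefP.not | apply DefP.or | apply DefP.iff | apply DefP.adj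
        | apply DefP.le | apply DefP.lt | apply DefP.eqFin | apply DefP.eq | apply DefP.rv
        | apply DefP.imp | apply DefP.allFin | apply DefP.exFin | apply DefP.all | apply DefP.ex
        | assumption | (apply Tm.comp; assumption) | apply Tm.pair
        | apply Tm.lam))) (by (repeat' (first
        | apply DefP.cho | apply DefP.halfSet | apply DefP.pr | apply DefP.oddRk
        | apply DefP.side | apply DefP.oddCard | apply DefP.cardEq | apply DefP.cardLt
        | apply DefP.cardLe | apply DefP.lst | apply DefP.fst | apply DefP.nxt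
        | apply DefP.keyLe | apply DefP.keyLt | apply DefP.rtc | (apply DefP.app4; assumption)
        | (apply DefP.app3'; assumption) | (apply DefP.app3; assumption)
        | (apply DefP.app2; assumption) | (apply DefP.comp; assumption) | exact Tm.id
        | exact Tm.unit | apply Tm.fst | apply Tm.snd | apply Tm.app | exact DefP.const _
        | apply DefP.and | apply DefP.not | apply DefP.or | apply DefP.iff | apply DefP.adj
        | apply DefP.le | apply DefP.lt | apply DefP.eqFin | apply DefP.eq | apply DefP.rv
        | apply DefP.imp | apply DefP.allFin | apply DefP.exFin | apply DefP.all | apply DefP.ex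
        | assumption | (apply Tm.comp; assumption) | apply Tm.pair | apply Tm.lam)))
  · refine DefP.cardLe (S := fun n => (Fin 4 → Fin n) × Fin n) (T := fun n => Fin 4 → Fin n) ?_ ?_
    · exact DefP.and (DefP.keyLe (S := fun n => Fin 4 → Fin n) (by (repeat' (first
        | apply DefP.cho | apply DefP.halfSet | apply DefP.pr | apply DefP.oddRk
        | apply DefP.side | apply DefP.oddCard | apply DefP.cardEq | apply DefP.cardLt
        | apply DefP.cardLe | apply DefP.lst | apply DefP.fst | apply DefP.nxt
        | apply DefP.keyLe | apply DefP.keyLt | apply DefP.rtc | (apply DefP.app4; assumption)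
        | (apply DefP.app3'; assumption) | (apply DefP.app3; assumption)
        | (apply DefP.app2; assumption) | (apply DefP.comp; assumption) | exact Tm.id
        | exact Tm.unit | apply Tm.fst | apply Tm.snd | apply Tm.app | exact DefP.const _
        | apply DefP.and | apply DefP.not | apply DefP.or | apply DefP.iff | apply DefP.adj
        | apply DefP.le | apply DefP.lt | apply DefP.eqFin | apply DefP.eq | apply DefP.rv
        | apply DefP.imp | apply DefP.allFin | apply DefP.exFin | apply DefP.all | apply DefP.ex
        | assumption | (apply Tm.comp; assumption) | apply Tm.pair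
        | apply Tm.lam))) (by (repeat' (first
        | apply DefP.cho | apply DefP.halfSet | apply DefP.pr | apply DefP.oddRk
        | apply DefP.side | apply DefP.oddCard | apply DefP.cardEq | apply DefP.cardLt
        | apply DefP.cardLe | apply DefP.lst | apply DefP.fst | apply DefP.nxt
        | apply DefP.keyLe | apply DefP.keyLt | apply DefP.rtc | (apply DefP.app4; assumption)
        | (apply DefP.app3'; assumption) | (apply DefP.app3; assumption)
        | (apply DefP.app2; assumption) | (apply DefP.comp; assumption) | exact Tm.id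
        | exact Tm.unit | apply Tm.fst | apply Tm.snd | apply Tm.app | exact DefP.const _
        | apply DefP.and | apply DefP.not | apply DefP.or | apply DefP.iff | apply DefP.adj
        | apply DefP.le | apply DefP.lt | apply DefP.eqFin | apply DefP.eq | apply DefP.rv
        | apply DefP.imp | apply DefP.allFin | apply DefP.exFin | apply DefP.all | apply DefP.ex
        | assumption | (apply Tm.comp; assumption) | apply Tm.pair
        | apply Tm.lam)))) (by (repeat' (first
        | apply DefP.cho | apply DefP.halfSet | apply DefP.pr | apply DefP.oddRk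
        | apply DefP.side | apply DefP.oddCard | apply DefP.cardEq | apply DefP.cardLt
        | apply DefP.cardLe | apply DefP.lst | apply DefP.fst | apply DefP.nxt
        | apply DefP.keyLe | apply DefP.keyLt | apply DefP.rtc | (apply DefP.app4; assumption)
        | (apply DefP.app3'; assumption) | (apply DefP.app3; assumption)
        | (apply DefP.app2; assumption) | (apply DefP.comp; assumption) | exact Tm.id
        | exact Tm.unit | apply Tm.fst | apply Tm.snd | apply Tm.app | exact DefP.const _
        | apply DefP.and | apply DefP.not | apply DefP.or | apply DefP.iff | apply DefP.adj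
        | apply DefP.le | apply DefP.lt | apply DefP.eqFin | apply DefP.eq | apply DefP.rv
        | apply DefP.imp | apply DefP.allFin | apply DefP.exFin | apply DefP.all | apply DefP.ex
        | assumption | (apply Tm.comp; assumption) | apply Tm.pair | apply Tm.lam)))
    · exact DefP.keyLe (S := fun n => Fin 4 → Fin n) (by (repeat' (first
        | apply DefP.cho | apply DefP.halfSet | apply DefP.pr | apply DefP.oddRk
        | apply DefP.side | apply DefP.oddCard | apply DefP.cardEq | apply DefP.cardLt
        | apply DefP.cardLe | apply DefP.lst | apply DefP.fst | apply DefP.nxt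
        | apply DefP.keyLe | apply DefP.keyLt | apply DefP.rtc | (apply DefP.app4; assumption)
        | (apply DefP.app3'; assumption) | (apply DefP.app3; assumption)
        | (apply DefP.app2; assumption) | (apply DefP.comp; assumption) | exact Tm.id
        | exact Tm.unit | apply Tm.fst | apply Tm.snd | apply Tm.app | exact DefP.const _
        | apply DefP.and | apply DefP.not | apply DefP.or | apply DefP.iff | apply DefP.adj
        | apply DefP.le | apply DefP.lt | apply DefP.eqFin | apply DefP.eq | apply DefP.rv
        | apply DefP.imp | apply DefP.allFin | apply DefP.exFin | apply DefP.all | apply DefP.ex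
        | assumption | (apply Tm.comp; assumption) | apply Tm.pair
        | apply Tm.lam))) (by (repeat' (first
        | apply DefP.cho | apply DefP.halfSet | apply DefP.pr | apply DefP.oddRk
        | apply DefP.side | apply DefP.oddCard | apply DefP.cardEq | apply DefP.cardLt
        | apply DefP.cardLe | apply DefP.lst | apply DefP.fst | apply DefP.nxt
        | apply DefP.keyLe | apply DefP.keyLt | apply DefP.rtc | (apply DefP.app4; assumption)
        | (apply DefP.app3'; assumption) | (apply DefP.app3; assumption)
        | (apply DefP.app2; assumption) | (apply DefP.comp; assumption) | exact Tm.id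
        | exact Tm.unit | apply Tm.fst | apply Tm.snd | apply Tm.app | exact DefP.const _
        | apply DefP.and | apply DefP.not | apply DefP.or | apply DefP.iff | apply DefP.adj
        | apply DefP.le | apply DefP.lt | apply DefP.eqFin | apply DefP.eq | apply DefP.rv
        | apply DefP.imp | apply DefP.allFin | apply DefP.exFin | apply DefP.all | apply DefP.ex
        | assumption | (apply Tm.comp; assumption) | apply Tm.pair | apply Tm.lam)))

theorem DefP.rnd {A : ∀ n : ℕ, SimpleGraph (Fin n) → Ctx n → E n → Fin n → Fin n → Prop}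
    (hA : DefP (E := fun n => E n × (Fin n × Fin n)) (fun n G X y => A n G X y.1 y.2.1 y.2.2))
    {Wt : ∀ n : ℕ, SimpleGraph (Fin n) → Ctx n → E n → Fin n × Fin n → C n → Prop}
    (hW : DefP (E := fun n => E n × ((Fin n × Fin n) × C n))
      (fun n G X y => Wt n G X y.1 y.2.1 y.2.2))
    {b : ∀ n : ℕ, E n → Fin 4 → Fin n} (hb : Tm (F := fun n => Fin 4 → Fin n) b) :
    DefP (E := fun n => E n × (Fin n × Fin n)) (fun n G X y =>
      Rnd (Wt n G X y.1) (A n G X y.1) (b n y.1) y.2) := by
  unfold Rnd
  have h1 : DefP (E := fun n => E n × ((Fin n × Fin n) × (Fin 4 → Fin n))) (fun n G X y =>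
      ((HvW (key (S := fun n => Fin n)) (key (S := fun n => Fin n))
        (key (S := fun n => Fin n × Fin n)) (key (S := fun n => Fin 4 → Fin n)) (Wt n G X y.1))^[2 * Nat.size n]
        (IniA (A n G X y.1) (key (S := fun n => Fin 4 → Fin n)) (b n y.1))) y.2) := by
    refine DefP.iter (E := E) (S := fun n => (Fin n × Fin n) × (Fin 4 → Fin n)) 2
      (I := fun n G X x => IniA (A n G X x) (key (S := fun n => Fin 4 → Fin n)) (b n x))
      (Φ := fun n G X x Q => HvW (key (S := fun n => Fin n)) (key (S := fun n => Fin n))
        (key (S := fun n => Fin n × Fin n)) (key (S := fun n => Fin 4 → Fin n)) (Wt n G X x) Q) ?_ ?_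
    · exact DefP.iniA hA hb
    · exact DefP.hvW (E := E) (S := fun n => Fin n) (T := fun n => Fin n)
        (P := fun n => Fin 4 → Fin n) (C := C)
        (Y := fun n G X x s => PMNC.rv (S := fun n => (Fin n × Fin n) × (Fin 4 → Fin n)) X 0 s)
        (Wt := fun n G X x e c => Wt n G (PMNC.pop X) x e c)
        (DefP.rv 0 (Tm.snd Tm.id)) (DefP.pop hW)
  refine DefP.ex (F := fun n => Fin 4 → Fin n) ?_
  exact DefP.app2 (F := E) (H := fun n => (Fin n × Fin n) × (Fin 4 → Fin n))
    (P := fun n G X x s => ((HvW (key (S := fun n => Fin n)) (key (S := fun n => Fin n))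
        (key (S := fun n => Fin n × Fin n)) (key (S := fun n => Fin 4 → Fin n)) (Wt n G X x))^[2 * Nat.size n]
        (IniA (A n G X x) (key (S := fun n => Fin 4 → Fin n)) (b n x))) s) h1 (by (repeat' (first
            | apply DefP.cho | apply DefP.halfSet | apply DefP.pr | apply DefP.oddRk
            | apply DefP.side | apply DefP.oddCard | apply DefP.cardEq | apply DefP.cardLt
            | apply DefP.cardLe | apply DefP.lst | apply DefP.fst | apply DefP.nxt
            | apply DefP.keyLe | apply DefP.keyLt | apply DefP.rtc
            | (apply DefP.app4; assumption) | (apply DefP.app3'; assumption)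
            | (apply DefP.app3; assumption) | (apply DefP.app2; assumption)
            | (apply DefP.comp; assumption) | exact Tm.id | exact Tm.unit | apply Tm.fst
            | apply Tm.snd | apply Tm.app | exact DefP.const _ | apply DefP.and | apply DefP.not
            | apply DefP.or | apply DefP.iff | apply DefP.adj | apply DefP.le | apply DefP.lt
            | apply DefP.eqFin | apply DefP.eq | apply DefP.rv | apply DefP.imp
            | apply DefP.allFin | apply DefP.exFin | apply DefP.all | apply DefP.ex | assumption
            | (apply Tm.comp; assumption) | apply Tm.pair | apply Tm.lam))) (by (repeat' (first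
            | apply DefP.cho | apply DefP.halfSet | apply DefP.pr | apply DefP.oddRk
            | apply DefP.side | apply DefP.oddCard | apply DefP.cardEq | apply DefP.cardLt
            | apply DefP.cardLe | apply DefP.lst | apply DefP.fst | apply DefP.nxt
            | apply DefP.keyLe | apply DefP.keyLt | apply DefP.rtc
            | (apply DefP.app4; assumption) | (apply DefP.app3'; assumption)
            | (apply DefP.app3; assumption) | (apply DefP.app2; assumption)
            | (apply DefP.comp; assumption) | exact Tm.id | exact Tm.unit | apply Tm.fst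
            | apply Tm.snd | apply Tm.app | exact DefP.const _ | apply DefP.and | apply DefP.not
            | apply DefP.or | apply DefP.iff | apply DefP.adj | apply DefP.le | apply DefP.lt
            | apply DefP.eqFin | apply DefP.eq | apply DefP.rv | apply DefP.imp
            | apply DefP.allFin | apply DefP.exFin | apply DefP.all | apply DefP.ex | assumption
            | (apply Tm.comp; assumption) | apply Tm.pair | apply Tm.lam)))

end def_

end Pool.Agent.PMNC
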