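import Mathlib
import Pool.Agent.Lib.MP_0087d5_lc.Round
import Pool.Agent.Lib.MP_0087d5_lc.AugProof

set_option autoImplicit false
set_option linter.all false

/-!
# A maximal matching of a bipartite graph in polylogarithmically many rounds
-/

namespace Pool.Agent.PMNC

open Relation

/-- edges between exposed vertices -/
def Av {n : ℕ} (G : SimpleGraph (Fin n)) (L : Fin n → Prop) (M : Fin n × Fin n → Prop)
    (u v : Fin n) : Prop := ExL L M u ∧ ExR L M v ∧ G.Adj u v

/-- `f` is an edge of `A` that meets `e` -/
def Tch {n : ℕ} (A : Fin n → Fin n → Prop) (e f : Fin n × Fin n) : Prop :=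
  A f.1 f.2 ∧ (f.1 = e.1 ∨ f.2 = e.2)

/-- one round -/
def MStep {n : ℕ} (G : SimpleGraph (Fin n)) (L : Fin n → Prop) (b : Fin 4 → Fin n)
    (M : Fin n × Fin n → Prop) (e : Fin n × Fin n) : Prop :=
  M e ∨ Rnd (Tch (Av G L M)) (Av G L M) b e

section comb
variable {n : ℕ} {G : SimpleGraph (Fin n)} {L : Fin n → Prop} {M : Fin n × Fin n → Prop}
  {b : Fin 4 → Fin n}

theorem mstep_pmat (hb : Good b) (hM : PMat G L M) : PMat G L (MStep G L b M) := by
  obtain ⟨h1, h2, h3, _⟩ := rnd_spec (Tch (Av G L M)) (Av G L M) hb
  refine ⟨?_, ?_, ?_⟩
  · rintro u v (h | h)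
    · exact hM.edge _ _ h
    · obtain ⟨hu, hv, ha⟩ := h1 _ _ h
      exact ⟨hu.1, hv.1, ha⟩
  · rintro u v v' (h | h) (h' | h')
    · exact hM.inj1 _ _ _ h h'
    · exact absurd h ((h1 _ _ h').1.2 _)
    · exact absurd h' ((h1 _ _ h).1.2 _)
    · exact h2 _ _ _ h h'
  · rintro u u' v (h | h) (h' | h')
    · exact hM.inj2 _ _ _ h h'
    · exact absurd h ((h1 _ _ h').2.1.2 _)
    · exact absurd h' ((h1 _ _ h).2.1.2 _)
    · exact h3 _ _ _ h h'

theorem max_le_wt (A : Fin n → Fin n → Prop) {u v : Fin n} (h : A u v) :
    max (dL A u) (dR A v) ≤ wt (Tch A) (u, v) := by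
  apply max_le
  · unfold dL wt Tch
    refine Nat.card_le_card_of_injective (fun x => ⟨(u, x.1), x.2, Or.inl rfl⟩) ?_
    intro x y hxy
    have := congrArg (fun z => z.1.2) hxy
    exact Subtype.ext this
  · unfold dR wt Tch
    refine Nat.card_le_card_of_injective (fun x => ⟨(x.1, v), x.2, Or.inr rfl⟩) ?_
    intro x y hxy
    have := congrArg (fun z => z.1.1) hxy
    exact Subtype.ext this

theorem two_div {B D : ℕ} (hD : 0 < D) (h : D ≤ B) : B ≤ 2 * (B / D * D) := by
  have h1 := Nat.lt_div_mul_add hD (a := B)
  have h2 : 1 ≤ B / D := (Nat.one_le_div_iff hD).2 h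
  nlinarith

theorem mstep_av (hb : Good b) :
    4 * Nat.card {f : Fin n × Fin n // Av G L (MStep G L b M) f.1 f.2} ≤
      3 * Nat.card {f : Fin n × Fin n // Av G L M f.1 f.2} := by
  classical
  set A := Av G L M with hA
  obtain ⟨h1, h2, h3, h4⟩ := rnd_spec (Tch A) A hb
  set R := Rnd (Tch A) A b with hR
  set B := 2 ^ (2 * Nat.size n) with hB
  have hBpos : 0 < B := Nat.two_pow_pos _
  -- many edges are touched
  have h5 : B * Nat.card {f : Fin n × Fin n // A f.1 f.2} ≤
      2 * ∑ e : Fin n × Fin n, ind (A e.1 e.2) * (B / max (dL A e.1) (dR A e.2)) * wt (Tch A) e := by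
    rw [card_sum, Finset.mul_sum, Finset.mul_sum]
    refine Finset.sum_le_sum fun e _ => ?_
    by_cases he : A e.1 e.2
    · rw [ind_pos he, one_mul, mul_one]
      have h6 := max_le_wt A he
      have h7 : 0 < max (dL A e.1) (dR A e.2) := lt_of_lt_of_le (dL_pos he) (le_max_left _ _)
      have h8 : max (dL A e.1) (dR A e.2) ≤ B := by
        have e1 : dL A e.1 ≤ n := by
          have := Nat.card_le_card_of_injective (fun x : {v // A e.1 v} => x.1)
            Subtype.val_injective
          rwa [Nat.card_eq_fintype_card (α := Fin n), Fintype.card_fin] at this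
        have e2 : dR A e.2 ≤ n := by
          have := Nat.card_le_card_of_injective (fun x : {u // A u e.2} => x.1)
            Subtype.val_injective
          rwa [Nat.card_eq_fintype_card (α := Fin n), Fintype.card_fin] at this
        have e3 : n ≤ n ^ 2 := Nat.le_self_pow (by norm_num) n
        have e4 := sq_le_B n
        exact (max_le e1 e2).trans (e3.trans e4)
      refine (two_div h7 h8).trans ?_
      exact Nat.mul_le_mul_left _ (Nat.mul_le_mul_left _ h6)
    · rw [ind_neg he]
      simp
  have h6 : Nat.card {f : Fin n × Fin n // A f.1 f.2} ≤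
      2 * ∑ e : Fin n × Fin n, ind (R e) * wt (Tch A) e := by
    have h7 : B * Nat.card {f : Fin n × Fin n // A f.1 f.2} ≤
        B * (2 * ∑ e : Fin n × Fin n, ind (R e) * wt (Tch A) e) := by
      calc B * Nat.card {f : Fin n × Fin n // A f.1 f.2}
          ≤ 2 * ∑ e : Fin n × Fin n, ind (A e.1 e.2) *
            (B / max (dL A e.1) (dR A e.2)) * wt (Tch A) e := h5
        _ ≤ 2 * (B * ∑ e : Fin n × Fin n, ind (R e) * wt (Tch A) e) := Nat.mul_le_mul_left 2 h4
        _ = _ := by ring
    exact Nat.le_of_mul_le_mul_left h7 hBpos
  -- every touched edge is counted at most twice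
  have h7 : ∑ e : Fin n × Fin n, ind (R e) * wt (Tch A) e ≤
      2 * Nat.card {f : Fin n × Fin n // A f.1 f.2 ∧ ∃ e : Fin n × Fin n, R e ∧
        (f.1 = e.1 ∨ f.2 = e.2)} := by
    have e1 : ∀ e : Fin n × Fin n, ind (R e) * wt (Tch A) e =
        ∑ f : Fin n × Fin n, ind (R e ∧ Tch A e f) := by
      intro e
      unfold wt
      rw [card_sum, Finset.mul_sum]
      refine Finset.sum_congr rfl fun f _ => ?_
      by_cases a1 : R e
      · by_cases a2 : Tch A e f
        · rw [ind_pos a1, ind_pos a2, ind_pos (p := R e ∧ Tch A e f) ⟨a1, a2⟩, one_mul]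
        · rw [ind_neg a2, ind_neg (p := R e ∧ Tch A e f) (fun h => a2 h.2), mul_zero]
      · rw [ind_neg a1, ind_neg (p := R e ∧ Tch A e f) (fun h => a1 h.1), zero_mul]
    rw [Finset.sum_congr rfl fun e _ => e1 e, Finset.sum_comm, card_sum, Finset.mul_sum]
    refine Finset.sum_le_sum fun f _ => ?_
    by_cases hf : A f.1 f.2 ∧ ∃ e : Fin n × Fin n, R e ∧ (f.1 = e.1 ∨ f.2 = e.2)
    · rw [ind_pos hf, mul_one, ← card_sum]
      -- at most two edges of the matching meet `f`
      have e2 : Nat.card {e : Fin n × Fin n // R e ∧ Tch A e f} ≤ Nat.card Bool := by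
        refine Nat.card_le_card_of_injective (fun e => decide (f.1 = e.1.1)) ?_
        intro x y hxy
        simp only at hxy
        obtain ⟨⟨x1, x2⟩, hx, hxA, hxt⟩ := x
        obtain ⟨⟨y1, y2⟩, hy, hyA, hyt⟩ := y
        simp only at hxy hxt hyt
        apply Subtype.ext
        by_cases hfx : f.1 = x1
        · have hfy : f.1 = y1 := by
            have : decide (f.1 = x1) = true := decide_eq_true hfx
            rw [this] at hxy
            exact of_decide_eq_true hxy.symm
          have e3 : x1 = y1 := hfx.symm.trans hfy
          subst e3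
          have e4 := h2 _ _ _ hx hy
          simp only
          rw [e4]
        · have hfy : ¬ f.1 = y1 := by
            have : decide (f.1 = x1) = false := decide_eq_false hfx
            rw [this] at hxy
            exact of_decide_eq_false hxy.symm
          have e3 : x2 = y2 := (hxt.resolve_left hfx).symm.trans (hyt.resolve_left hfy)
          subst e3
          have e4 := h3 _ _ _ hx hy
          simp only
          rw [e4]
      simpa using e2
    · rw [ind_neg hf, mul_zero, Nat.le_zero]
      apply Finset.sum_eq_zero
      intro e _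
      apply ind_neg
      rintro ⟨a1, a2, a3⟩
      exact hf ⟨a2, e, a1, a3⟩
  have h8 := card_split (fun f : Fin n × Fin n => A f.1 f.2)
    (fun f => ∃ e : Fin n × Fin n, R e ∧ (f.1 = e.1 ∨ f.2 = e.2))
  have h9 : Nat.card {f : Fin n × Fin n // Av G L (MStep G L b M) f.1 f.2} ≤
      Nat.card {f : Fin n × Fin n // A f.1 f.2 ∧ ¬ ∃ e : Fin n × Fin n, R e ∧
        (f.1 = e.1 ∨ f.2 = e.2)} := by
    refine Nat.card_le_card_of_injective (fun f => ⟨f.1, ?_, ?_⟩) ?_
    · obtain ⟨⟨f1, f2⟩, ⟨hu, hu'⟩, ⟨hv, hv'⟩, ha⟩ := f
      exact ⟨⟨hu, fun v h => hu' v (Or.inl h)⟩, ⟨hv, fun u h => hv' u (Or.inl h)⟩, ha⟩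
    · obtain ⟨⟨f1, f2⟩, ⟨hu, hu'⟩, ⟨hv, hv'⟩, ha⟩ := f
      rintro ⟨⟨e1, e2⟩, he, he' | he'⟩
      · simp only at he'
        subst he'
        exact hu' _ (Or.inr he)
      · simp only at he'
        subst he'
        exact hv' _ (Or.inr he)
    · intro x y hxy
      have h10 : x.1 = y.1 := congrArg (fun z : {f : Fin n × Fin n // A f.1 f.2 ∧
        ¬ ∃ e : Fin n × Fin n, R e ∧ (f.1 = e.1 ∨ f.2 = e.2)} => z.1) hxy
      exact Subtype.ext h10
  omega

/-- the maximal matching -/
def MM {n : ℕ} (G : SimpleGraph (Fin n)) (L : Fin n → Prop) (b : Fin 4 → Fin n) :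
    Fin n × Fin n → Prop := (MStep G L b)^[5 * Nat.size n] (fun _ => False)

theorem mm_spec (hb : Good b) : PMat G L (MM G L b) ∧ ∀ u v, ¬ Av G L (MM G L b) u v := by
  have h1 : ∀ t : ℕ, PMat G L ((MStep G L b)^[t] (fun _ => False)) ∧
      4 ^ t * Nat.card {f : Fin n × Fin n // Av G L ((MStep G L b)^[t] (fun _ => False)) f.1 f.2} ≤
        3 ^ t * n ^ 2 := by
    intro t
    induction t with
    | zero =>
      refine ⟨⟨fun _ _ h => h.elim, fun _ _ _ h => h.elim, fun _ _ _ h => h.elim⟩, ?_⟩
      have := Nat.card_le_card_of_injective
        (fun x : {f : Fin n × Fin n // Av G L (fun _ => False) f.1 f.2} => x.1)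
        Subtype.val_injective
      simp only [pow_zero, one_mul, Function.iterate_zero, id]
      refine this.trans ?_
      rw [Nat.card_prod, Nat.card_eq_fintype_card, Fintype.card_fin, pow_two]
    | succ t ih =>
      rw [Function.iterate_succ_apply']
      refine ⟨mstep_pmat hb ih.1, ?_⟩
      have h2 := mstep_av (G := G) (L := L) (M := (MStep G L b)^[t] (fun _ => False)) hb
      rw [pow_succ, pow_succ]
      have h3 := ih.2
      calc 4 ^ t * 4 * Nat.card {f : Fin n × Fin n //
            Av G L (MStep G L b ((MStep G L b)^[t] (fun _ => False))) f.1 f.2}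
          = 4 ^ t * (4 * Nat.card {f : Fin n × Fin n //
            Av G L (MStep G L b ((MStep G L b)^[t] (fun _ => False))) f.1 f.2}) := by ring
        _ ≤ 4 ^ t * (3 * Nat.card {f : Fin n × Fin n //
            Av G L ((MStep G L b)^[t] (fun _ => False)) f.1 f.2}) := Nat.mul_le_mul_left _ h2
        _ = 3 * (4 ^ t * Nat.card {f : Fin n × Fin n //
            Av G L ((MStep G L b)^[t] (fun _ => False)) f.1 f.2}) := by ring
        _ ≤ 3 * (3 ^ t * n ^ 2) := Nat.mul_le_mul_left _ h3
        _ = 3 ^ t * 3 * n ^ 2 := by ring
  refine ⟨(h1 _).1, fun u v huv => ?_⟩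
  have h2 := (h1 (5 * Nat.size n)).2
  change 4 ^ (5 * Nat.size n) * Nat.card {f : Fin n × Fin n // Av G L (MM G L b) f.1 f.2} ≤ _ at h2
  have h3 : 1 ≤ Nat.card {f : Fin n × Fin n // Av G L (MM G L b) f.1 f.2} := by
    haveI : Nonempty {f : Fin n × Fin n // Av G L (MM G L b) f.1 f.2} := ⟨⟨(u, v), huv⟩⟩
    exact Nat.card_pos
  have hn : 0 < n := by have := u.2; omega
  have hs : 0 < Nat.size n := Nat.size_pos.2 hn
  have h4 : 4 ^ (5 * Nat.size n) ≤ 3 ^ (5 * Nat.size n) * n ^ 2 := by
    calc 4 ^ (5 * Nat.size n) = 4 ^ (5 * Nat.size n) * 1 := (mul_one _).symm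
      _ ≤ _ := (Nat.mul_le_mul_left _ h3).trans h2
  have h5 : n ^ 2 < 4 ^ Nat.size n := by
    have : n < 2 ^ Nat.size n := Nat.lt_size_self n
    calc n ^ 2 < (2 ^ Nat.size n) ^ 2 := Nat.pow_lt_pow_left this (by norm_num)
      _ = 4 ^ Nat.size n := by
        rw [← pow_mul, mul_comm, pow_mul]
        norm_num
  have h6 : 4 ^ (5 * Nat.size n) < 4 ^ (5 * Nat.size n) := by
    calc 4 ^ (5 * Nat.size n) ≤ 3 ^ (5 * Nat.size n) * n ^ 2 := h4
      _ < 3 ^ (5 * Nat.size n) * 4 ^ Nat.size n := Nat.mul_lt_mul_of_pos_left h5 (by positivity)
      _ = 972 ^ Nat.size n := by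
        rw [pow_mul, ← mul_pow]
        norm_num
      _ ≤ 1024 ^ Nat.size n := Nat.pow_le_pow_left (by norm_num) _
      _ = 4 ^ (5 * Nat.size n) := by
        rw [pow_mul]
        norm_num
  exact lt_irrefl _ h6

end comb

section def_
variable {E : ℕ → Type} [Env E]
  {L : ∀ n : ℕ, SimpleGraph (Fin n) → Ctx n → E n → Fin n → Prop}
  {M : ∀ n : ℕ, SimpleGraph (Fin n) → Ctx n → E n → Fin n × Fin n → Prop}

theorem DefP.av (hL : DefP (E := fun n => E n × Fin n) (fun n G X y => L n G X y.1 y.2))
    (hM : DefP (E := fun n => E n × (Fin n × Fin n)) (fun n G X y => M n G X y.1 y.2))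
    {f g : ∀ n : ℕ, E n → Fin n}
    (hf : Tm (F := fun n => Fin n) f) (hg : Tm (F := fun n => Fin n) g) :
    DefP (fun n G X x => Av G (L n G X x) (M n G X x) (f n x) (g n x)) := by
  unfold Av
  exact DefP.and (DefP.exl hL hM hf) (DefP.and (DefP.exr hL hM hg) (DefP.adj hf hg))

theorem DefP.mstep (hL : DefP (E := fun n => E n × Fin n) (fun n G X y => L n G X y.1 y.2))
    (hM : DefP (E := fun n => E n × (Fin n × Fin n)) (fun n G X y => M n G X y.1 y.2))
    {b : ∀ n : ℕ, E n → Fin 4 → Fin n} (hb : Tm (F := fun n => Fin 4 → Fin n) b) :
    DefP (E := fun n => E n × (Fin n × Fin n)) (fun n G X y =>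
      MStep G (L n G X y.1) (b n y.1) (M n G X y.1) y.2) := by
  have hA : DefP (E := fun n => E n × (Fin n × Fin n)) (fun n G X y =>
      Av G (L n G X y.1) (M n G X y.1) y.2.1 y.2.2) := by
    refine DefP.av (E := fun n => E n × (Fin n × Fin n)) (L := fun n G X y => L n G X y.1)
      (M := fun n G X y => M n G X y.1) ?_ ?_ ?_ ?_
    · exact DefP.app2 hL (by (repeat' (first
        | apply DefP.aug | apply DefP.pth | apply DefP.nx | apply DefP.cnd | apply DefP.hmin
        | apply DefP.hit | apply DefP.cdn | apply DefP.firstEx | apply DefP.exN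
        | apply DefP.end_ | apply DefP.isZero | apply DefP.isSucc | apply DefP.alt
        | apply DefP.exr | apply DefP.exl | apply DefP.cho | apply DefP.halfSet | apply DefP.pr
        | apply DefP.oddRk | apply DefP.side | apply DefP.oddCard | apply DefP.cardEq
        | apply DefP.cardLt | apply DefP.cardLe | apply DefP.lst | apply DefP.fst
        | apply DefP.nxt | apply DefP.keyLe | apply DefP.keyLt | apply DefP.rtc
        | (apply DefP.app4; assumption) | (apply DefP.app3'; assumption)
        | (apply DefP.app3; assumption) | (apply DefP.app2; assumption)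
        | (apply DefP.comp; assumption) | exact Tm.id | exact Tm.unit | apply Tm.fst
        | apply Tm.snd | apply Tm.app | exact DefP.const _ | apply DefP.and | apply DefP.not
        | apply DefP.or | apply DefP.iff | apply DefP.adj | apply DefP.le | apply DefP.lt
        | apply DefP.eqFin | apply DefP.eq | apply DefP.rv | apply DefP.imp | apply DefP.allFin
        | apply DefP.exFin | apply DefP.all | apply DefP.ex | assumption
        | (apply Tm.comp; assumption) | apply Tm.pair | apply Tm.lam))) (by (repeat' (first
        | apply DefP.aug | apply DefP.pth | apply DefP.nx | apply DefP.cnd | apply DefP.hmin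
        | apply DefP.hit | apply DefP.cdn | apply DefP.firstEx | apply DefP.exN
        | apply DefP.end_ | apply DefP.isZero | apply DefP.isSucc | apply DefP.alt
        | apply DefP.exr | apply DefP.exl | apply DefP.cho | apply DefP.halfSet | apply DefP.pr
        | apply DefP.oddRk | apply DefP.side | apply DefP.oddCard | apply DefP.cardEq
        | apply DefP.cardLt | apply DefP.cardLe | apply DefP.lst | apply DefP.fst
        | apply DefP.nxt | apply DefP.keyLe | apply DefP.keyLt | apply DefP.rtc
        | (apply DefP.app4; assumption) | (apply DefP.app3'; assumption)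
        | (apply DefP.app3; assumption) | (apply DefP.app2; assumption)
        | (apply DefP.comp; assumption) | exact Tm.id | exact Tm.unit | apply Tm.fst
        | apply Tm.snd | apply Tm.app | exact DefP.const _ | apply DefP.and | apply DefP.not
        | apply DefP.or | apply DefP.iff | apply DefP.adj | apply DefP.le | apply DefP.lt
        | apply DefP.eqFin | apply DefP.eq | apply DefP.rv | apply DefP.imp | apply DefP.allFin
        | apply DefP.exFin | apply DefP.all | apply DefP.ex | assumption
        | (apply Tm.comp; assumption) | apply Tm.pair | apply Tm.lam)))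
    · exact DefP.app2 (H := fun n => Fin n × Fin n) hM (by (repeat' (first
        | apply DefP.aug | apply DefP.pth | apply DefP.nx | apply DefP.cnd | apply DefP.hmin
        | apply DefP.hit | apply DefP.cdn | apply DefP.firstEx | apply DefP.exN
        | apply DefP.end_ | apply DefP.isZero | apply DefP.isSucc | apply DefP.alt
        | apply DefP.exr | apply DefP.exl | apply DefP.cho | apply DefP.halfSet | apply DefP.pr
        | apply DefP.oddRk | apply DefP.side | apply DefP.oddCard | apply DefP.cardEq
        | apply DefP.cardLt | apply DefP.cardLe | apply DefP.lst | apply DefP.fst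
        | apply DefP.nxt | apply DefP.keyLe | apply DefP.keyLt | apply DefP.rtc
        | (apply DefP.app4; assumption) | (apply DefP.app3'; assumption)
        | (apply DefP.app3; assumption) | (apply DefP.app2; assumption)
        | (apply DefP.comp; assumption) | exact Tm.id | exact Tm.unit | apply Tm.fst
        | apply Tm.snd | apply Tm.app | exact DefP.const _ | apply DefP.and | apply DefP.not
        | apply DefP.or | apply DefP.iff | apply DefP.adj | apply DefP.le | apply DefP.lt
        | apply DefP.eqFin | apply DefP.eq | apply DefP.rv | apply DefP.imp | apply DefP.allFin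
        | apply DefP.exFin | apply DefP.all | apply DefP.ex | assumption
        | (apply Tm.comp; assumption) | apply Tm.pair | apply Tm.lam))) (by (repeat' (first
        | apply DefP.aug | apply DefP.pth | apply DefP.nx | apply DefP.cnd | apply DefP.hmin
        | apply DefP.hit | apply DefP.cdn | apply DefP.firstEx | apply DefP.exN
        | apply DefP.end_ | apply DefP.isZero | apply DefP.isSucc | apply DefP.alt
        | apply DefP.exr | apply DefP.exl | apply DefP.cho | apply DefP.halfSet | apply DefP.pr
        | apply DefP.oddRk | apply DefP.side | apply DefP.oddCard | apply DefP.cardEq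
        | apply DefP.cardLt | apply DefP.cardLe | apply DefP.lst | apply DefP.fst
        | apply DefP.nxt | apply DefP.keyLe | apply DefP.keyLt | apply DefP.rtc
        | (apply DefP.app4; assumption) | (apply DefP.app3'; assumption)
        | (apply DefP.app3; assumption) | (apply DefP.app2; assumption)
        | (apply DefP.comp; assumption) | exact Tm.id | exact Tm.unit | apply Tm.fst
        | apply Tm.snd | apply Tm.app | exact DefP.const _ | apply DefP.and | apply DefP.not
        | apply DefP.or | apply DefP.iff | apply DefP.adj | apply DefP.le | apply DefP.lt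
        | apply DefP.eqFin | apply DefP.eq | apply DefP.rv | apply DefP.imp | apply DefP.allFin
        | apply DefP.exFin | apply DefP.all | apply DefP.ex | assumption
        | (apply Tm.comp; assumption) | apply Tm.pair | apply Tm.lam)))
    · (repeat' (first
        | apply DefP.aug | apply DefP.pth | apply DefP.nx | apply DefP.cnd | apply DefP.hmin
        | apply DefP.hit | apply DefP.cdn | apply DefP.firstEx | apply DefP.exN
        | apply DefP.end_ | apply DefP.isZero | apply DefP.isSucc | apply DefP.alt
        | apply DefP.exr | apply DefP.exl | apply DefP.cho | apply DefP.halfSet | apply DefP.pr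
        | apply DefP.oddRk | apply DefP.side | apply DefP.oddCard | apply DefP.cardEq
        | apply DefP.cardLt | apply DefP.cardLe | apply DefP.lst | apply DefP.fst
        | apply DefP.nxt | apply DefP.keyLe | apply DefP.keyLt | apply DefP.rtc
        | (apply DefP.app4; assumption) | (apply DefP.app3'; assumption)
        | (apply DefP.app3; assumption) | (apply DefP.app2; assumption)
        | (apply DefP.comp; assumption) | exact Tm.id | exact Tm.unit | apply Tm.fst
        | apply Tm.snd | apply Tm.app | exact DefP.const _ | apply DefP.and | apply DefP.not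
        | apply DefP.or | apply DefP.iff | apply DefP.adj | apply DefP.le | apply DefP.lt
        | apply DefP.eqFin | apply DefP.eq | apply DefP.rv | apply DefP.imp | apply DefP.allFin
        | apply DefP.exFin | apply DefP.all | apply DefP.ex | assumption
        | (apply Tm.comp; assumption) | apply Tm.pair | apply Tm.lam))
    · (repeat' (first
        | apply DefP.aug | apply DefP.pth | apply DefP.nx | apply DefP.cnd | apply DefP.hmin
        | apply DefP.hit | apply DefP.cdn | apply DefP.firstEx | apply DefP.exN
        | apply DefP.end_ | apply DefP.isZero | apply DefP.isSucc | apply DefP.alt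
        | apply DefP.exr | apply DefP.exl | apply DefP.cho | apply DefP.halfSet | apply DefP.pr
        | apply DefP.oddRk | apply DefP.side | apply DefP.oddCard | apply DefP.cardEq
        | apply DefP.cardLt | apply DefP.cardLe | apply DefP.lst | apply DefP.fst
        | apply DefP.nxt | apply DefP.keyLe | apply DefP.keyLt | apply DefP.rtc
        | (apply DefP.app4; assumption) | (apply DefP.app3'; assumption)
        | (apply DefP.app3; assumption) | (apply DefP.app2; assumption)
        | (apply DefP.comp; assumption) | exact Tm.id | exact Tm.unit | apply Tm.fst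
        | apply Tm.snd | apply Tm.app | exact DefP.const _ | apply DefP.and | apply DefP.not
        | apply DefP.or | apply DefP.iff | apply DefP.adj | apply DefP.le | apply DefP.lt
        | apply DefP.eqFin | apply DefP.eq | apply DefP.rv | apply DefP.imp | apply DefP.allFin
        | apply DefP.exFin | apply DefP.all | apply DefP.ex | assumption
        | (apply Tm.comp; assumption) | apply Tm.pair | apply Tm.lam))
  unfold MStep
  refine DefP.or hM ?_
  refine DefP.rnd (E := E) (C := fun n => Fin n × Fin n)
    (A := fun n G X x => Av G (L n G X x) (M n G X x))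
    (Wt := fun n G X x => Tch (Av G (L n G X x) (M n G X x))) hA ?_ hb
  unfold Tch
  refine DefP.and ?_ (DefP.or (DefP.eqFin (by (repeat' (first
      | apply DefP.aug | apply DefP.pth | apply DefP.nx | apply DefP.cnd | apply DefP.hmin
      | apply DefP.hit | apply DefP.cdn | apply DefP.firstEx | apply DefP.exN | apply DefP.end_
      | apply DefP.isZero | apply DefP.isSucc | apply DefP.alt | apply DefP.exr | apply DefP.exl
      | apply DefP.cho | apply DefP.halfSet | apply DefP.pr | apply DefP.oddRk | apply DefP.side
      | apply DefP.oddCard | apply DefP.cardEq | apply DefP.cardLt | apply DefP.cardLe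
      | apply DefP.lst | apply DefP.fst | apply DefP.nxt | apply DefP.keyLe | apply DefP.keyLt
      | apply DefP.rtc | (apply DefP.app4; assumption) | (apply DefP.app3'; assumption)
      | (apply DefP.app3; assumption) | (apply DefP.app2; assumption)
      | (apply DefP.comp; assumption) | exact Tm.id | exact Tm.unit | apply Tm.fst
      | apply Tm.snd | apply Tm.app | exact DefP.const _ | apply DefP.and | apply DefP.not
      | apply DefP.or | apply DefP.iff | apply DefP.adj | apply DefP.le | apply DefP.lt
      | apply DefP.eqFin | apply DefP.eq | apply DefP.rv | apply DefP.imp | apply DefP.allFin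
      | apply DefP.exFin | apply DefP.all | apply DefP.ex | assumption
      | (apply Tm.comp; assumption) | apply Tm.pair | apply Tm.lam))) (by (repeat' (first
      | apply DefP.aug | apply DefP.pth | apply DefP.nx | apply DefP.cnd | apply DefP.hmin
      | apply DefP.hit | apply DefP.cdn | apply DefP.firstEx | apply DefP.exN | apply DefP.end_
      | apply DefP.isZero | apply DefP.isSucc | apply DefP.alt | apply DefP.exr | apply DefP.exl
      | apply DefP.cho | apply DefP.halfSet | apply DefP.pr | apply DefP.oddRk | apply DefP.side
      | apply DefP.oddCard | apply DefP.cardEq | apply DefP.cardLt | apply DefP.cardLe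
      | apply DefP.lst | apply DefP.fst | apply DefP.nxt | apply DefP.keyLe | apply DefP.keyLt
      | apply DefP.rtc | (apply DefP.app4; assumption) | (apply DefP.app3'; assumption)
      | (apply DefP.app3; assumption) | (apply DefP.app2; assumption)
      | (apply DefP.comp; assumption) | exact Tm.id | exact Tm.unit | apply Tm.fst
      | apply Tm.snd | apply Tm.app | exact DefP.const _ | apply DefP.and | apply DefP.not
      | apply DefP.or | apply DefP.iff | apply DefP.adj | apply DefP.le | apply DefP.lt
      | apply DefP.eqFin | apply DefP.eq | apply DefP.rv | apply DefP.imp | apply DefP.allFin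
      | apply DefP.exFin | apply DefP.all | apply DefP.ex | assumption
      | (apply Tm.comp; assumption) | apply Tm.pair
      | apply Tm.lam)))) (DefP.eqFin (by (repeat' (first
      | apply DefP.aug | apply DefP.pth | apply DefP.nx | apply DefP.cnd | apply DefP.hmin
      | apply DefP.hit | apply DefP.cdn | apply DefP.firstEx | apply DefP.exN | apply DefP.end_
      | apply DefP.isZero | apply DefP.isSucc | apply DefP.alt | apply DefP.exr | apply DefP.exl
      | apply DefP.cho | apply DefP.halfSet | apply DefP.pr | apply DefP.oddRk | apply DefP.side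
      | apply DefP.oddCard | apply DefP.cardEq | apply DefP.cardLt | apply DefP.cardLe
      | apply DefP.lst | apply DefP.fst | apply DefP.nxt | apply DefP.keyLe | apply DefP.keyLt
      | apply DefP.rtc | (apply DefP.app4; assumption) | (apply DefP.app3'; assumption)
      | (apply DefP.app3; assumption) | (apply DefP.app2; assumption)
      | (apply DefP.comp; assumption) | exact Tm.id | exact Tm.unit | apply Tm.fst
      | apply Tm.snd | apply Tm.app | exact DefP.const _ | apply DefP.and | apply DefP.not
      | apply DefP.or | apply DefP.iff | apply DefP.adj | apply DefP.le | apply DefP.lt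
      | apply DefP.eqFin | apply DefP.eq | apply DefP.rv | apply DefP.imp | apply DefP.allFin
      | apply DefP.exFin | apply DefP.all | apply DefP.ex | assumption
      | (apply Tm.comp; assumption) | apply Tm.pair | apply Tm.lam))) (by (repeat' (first
      | apply DefP.aug | apply DefP.pth | apply DefP.nx | apply DefP.cnd | apply DefP.hmin
      | apply DefP.hit | apply DefP.cdn | apply DefP.firstEx | apply DefP.exN | apply DefP.end_
      | apply DefP.isZero | apply DefP.isSucc | apply DefP.alt | apply DefP.exr | apply DefP.exl
      | apply DefP.cho | apply DefP.halfSet | apply DefP.pr | apply DefP.oddRk | apply DefP.side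
      | apply DefP.oddCard | apply DefP.cardEq | apply DefP.cardLt | apply DefP.cardLe
      | apply DefP.lst | apply DefP.fst | apply DefP.nxt | apply DefP.keyLe | apply DefP.keyLt
      | apply DefP.rtc | (apply DefP.app4; assumption) | (apply DefP.app3'; assumption)
      | (apply DefP.app3; assumption) | (apply DefP.app2; assumption)
      | (apply DefP.comp; assumption) | exact Tm.id | exact Tm.unit | apply Tm.fst
      | apply Tm.snd | apply Tm.app | exact DefP.const _ | apply DefP.and | apply DefP.not
      | apply DefP.or | apply DefP.iff | apply DefP.adj | apply DefP.le | apply DefP.lt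
      | apply DefP.eqFin | apply DefP.eq | apply DefP.rv | apply DefP.imp | apply DefP.allFin
      | apply DefP.exFin | apply DefP.all | apply DefP.ex | assumption
      | (apply Tm.comp; assumption) | apply Tm.pair | apply Tm.lam)))))
  exact DefP.app3 (F := E) (P := fun n G X x u v => Av G (L n G X x) (M n G X x) u v) hA
    (by (repeat' (first
        | apply DefP.aug | apply DefP.pth | apply DefP.nx | apply DefP.cnd | apply DefP.hmin
        | apply DefP.hit | apply DefP.cdn | apply DefP.firstEx | apply DefP.exN
        | apply DefP.end_ | apply DefP.isZero | apply DefP.isSucc | apply DefP.alt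
        | apply DefP.exr | apply DefP.exl | apply DefP.cho | apply DefP.halfSet | apply DefP.pr
        | apply DefP.oddRk | apply DefP.side | apply DefP.oddCard | apply DefP.cardEq
        | apply DefP.cardLt | apply DefP.cardLe | apply DefP.lst | apply DefP.fst
        | apply DefP.nxt | apply DefP.keyLe | apply DefP.keyLt | apply DefP.rtc
        | (apply DefP.app4; assumption) | (apply DefP.app3'; assumption)
        | (apply DefP.app3; assumption) | (apply DefP.app2; assumption)
        | (apply DefP.comp; assumption) | exact Tm.id | exact Tm.unit | apply Tm.fst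
        | apply Tm.snd | apply Tm.app | exact DefP.const _ | apply DefP.and | apply DefP.not
        | apply DefP.or | apply DefP.iff | apply DefP.adj | apply DefP.le | apply DefP.lt
        | apply DefP.eqFin | apply DefP.eq | apply DefP.rv | apply DefP.imp | apply DefP.allFin
        | apply DefP.exFin | apply DefP.all | apply DefP.ex | assumption
        | (apply Tm.comp; assumption) | apply Tm.pair | apply Tm.lam))) (by (repeat' (first
        | apply DefP.aug | apply DefP.pth | apply DefP.nx | apply DefP.cnd | apply DefP.hmin
        | apply DefP.hit | apply DefP.cdn | apply DefP.firstEx | apply DefP.exN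
        | apply DefP.end_ | apply DefP.isZero | apply DefP.isSucc | apply DefP.alt
        | apply DefP.exr | apply DefP.exl | apply DefP.cho | apply DefP.halfSet | apply DefP.pr
        | apply DefP.oddRk | apply DefP.side | apply DefP.oddCard | apply DefP.cardEq
        | apply DefP.cardLt | apply DefP.cardLe | apply DefP.lst | apply DefP.fst
        | apply DefP.nxt | apply DefP.keyLe | apply DefP.keyLt | apply DefP.rtc
        | (apply DefP.app4; assumption) | (apply DefP.app3'; assumption)
        | (apply DefP.app3; assumption) | (apply DefP.app2; assumption)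
        | (apply DefP.comp; assumption) | exact Tm.id | exact Tm.unit | apply Tm.fst
        | apply Tm.snd | apply Tm.app | exact DefP.const _ | apply DefP.and | apply DefP.not
        | apply DefP.or | apply DefP.iff | apply DefP.adj | apply DefP.le | apply DefP.lt
        | apply DefP.eqFin | apply DefP.eq | apply DefP.rv | apply DefP.imp | apply DefP.allFin
        | apply DefP.exFin | apply DefP.all | apply DefP.ex | assumption
        | (apply Tm.comp; assumption) | apply Tm.pair | apply Tm.lam))) (by (repeat' (first
        | apply DefP.aug | apply DefP.pth | apply DefP.nx | apply DefP.cnd | apply DefP.hmin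
        | apply DefP.hit | apply DefP.cdn | apply DefP.firstEx | apply DefP.exN
        | apply DefP.end_ | apply DefP.isZero | apply DefP.isSucc | apply DefP.alt
        | apply DefP.exr | apply DefP.exl | apply DefP.cho | apply DefP.halfSet | apply DefP.pr
        | apply DefP.oddRk | apply DefP.side | apply DefP.oddCard | apply DefP.cardEq
        | apply DefP.cardLt | apply DefP.cardLe | apply DefP.lst | apply DefP.fst
        | apply DefP.nxt | apply DefP.keyLe | apply DefP.keyLt | apply DefP.rtc
        | (apply DefP.app4; assumption) | (apply DefP.app3'; assumption)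
        | (apply DefP.app3; assumption) | (apply DefP.app2; assumption)
        | (apply DefP.comp; assumption) | exact Tm.id | exact Tm.unit | apply Tm.fst
        | apply Tm.snd | apply Tm.app | exact DefP.const _ | apply DefP.and | apply DefP.not
        | apply DefP.or | apply DefP.iff | apply DefP.adj | apply DefP.le | apply DefP.lt
        | apply DefP.eqFin | apply DefP.eq | apply DefP.rv | apply DefP.imp | apply DefP.allFin
        | apply DefP.exFin | apply DefP.all | apply DefP.ex | assumption
        | (apply Tm.comp; assumption) | apply Tm.pair | apply Tm.lam)))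

theorem DefP.mm (hL : DefP (E := fun n => E n × Fin n) (fun n G X y => L n G X y.1 y.2))
    {b : ∀ n : ℕ, E n → Fin 4 → Fin n} (hb : Tm (F := fun n => Fin 4 → Fin n) b) :
    DefP (E := fun n => E n × (Fin n × Fin n)) (fun n G X y =>
      MM G (L n G X y.1) (b n y.1) y.2) := by
  unfold MM
  refine DefP.iter (E := E) (S := fun n => Fin n × Fin n) 5
    (I := fun n G X x _ => False)
    (Φ := fun n G X x Q => MStep G (L n G X x) (b n x) Q) (DefP.const False) ?_
  exact DefP.mstep (E := E) (L := fun n G X x => L n G (PMNC.pop X) x)
    (M := fun n G X x s => PMNC.rv (S := fun n => Fin n × Fin n) X 0 s)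
    (DefP.pop hL) (DefP.rv 0 (Tm.snd Tm.id)) hb

end def_

end Pool.Agent.PMNC
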