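import Mathlib

set_option autoImplicit false
set_option linter.all false

/-!
# Tutte violators in dense nearly regular graphs
-/

namespace Pool.Agent.PMNC.R2

open Finset

variable {V : Type*} [Fintype V] [DecidableEq V] (G : SimpleGraph V) [DecidableRel G.Adj]

/-- neighbourhood -/
def N (x : V) : Finset V := univ.filter fun y => G.Adj x y

/-- deviation of the degree from `d` -/
def dev (d : ℕ) (x : V) : ℕ := ((N G x).card - d) + (d - (N G x).card)

variable {G}

theorem mem_N {x y : V} : y ∈ N G x ↔ G.Adj x y := by simp [N]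

theorem deg_le (d : ℕ) (x : V) : (N G x).card ≤ d + dev G d x := by unfold dev; omega

theorem le_deg (d : ℕ) (x : V) : d ≤ (N G x).card + dev G d x := by unfold dev; omega

/-- double counting -/
theorem double_count (A B : Finset V) :
    ∑ x ∈ A, (N G x ∩ B).card = ∑ y ∈ B, (N G y ∩ A).card := by
  have h : ∀ (A B : Finset V), ∑ x ∈ A, (N G x ∩ B).card =
      ∑ x ∈ A, ∑ y ∈ B, if G.Adj x y then 1 else 0 := by
    intro A B
    refine Finset.sum_congr rfl fun x _ => ?_
    rw [← Finset.card_filter]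
    congr 1
    ext y
    simp [mem_N, and_comm]
  rw [h A B, h B A, Finset.sum_comm]
  refine Finset.sum_congr rfl fun y _ => Finset.sum_congr rfl fun x _ => ?_
  simp [G.adj_comm]

theorem card_N_split (x : V) (A : Finset V) :
    (N G x ∩ A).card + (N G x \ A).card = (N G x).card := Finset.card_inter_add_card_sdiff _ _

section main
variable {K M d : ℕ} (hd : 0 < d) (hn : Fintype.card V ≤ K * d) (hdev : ∑ x, dev G d x ≤ M * d)
  {S O : Finset V} (C : V → Finset V)
  (hC1 : ∀ v ∈ O, v ∈ C v) (hC2 : ∀ v ∈ O, ∀ y ∈ C v, y ∉ S ∧ N G y ⊆ S ∪ C v)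
  (hC3 : ∀ v ∈ O, ∀ w ∈ O, v ≠ w → Disjoint (C v) (C w)) (hO : S.card + 1 ≤ O.card)

include hdev in
theorem sum_dev_le (A : Finset V) : ∑ x ∈ A, dev G d x ≤ M * d :=
  (Finset.sum_le_sum_of_subset (Finset.subset_univ A)).trans hdev

include hdev in
theorem sum_deg_le (A : Finset V) : ∑ x ∈ A, (N G x).card ≤ (A.card + M) * d := by
  have h1 : ∑ x ∈ A, (N G x).card ≤ ∑ x ∈ A, (d + dev G d x) :=
    Finset.sum_le_sum fun x _ => deg_le d x
  rw [Finset.sum_add_distrib, Finset.sum_const, smul_eq_mul] at h1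
  have h2 := sum_dev_le hdev A
  nlinarith

include hdev in
theorem le_sum_deg (A : Finset V) : A.card * d ≤ ∑ x ∈ A, (N G x).card + M * d := by
  have h1 : ∑ x ∈ A, d ≤ ∑ x ∈ A, ((N G x).card + dev G d x) :=
    Finset.sum_le_sum fun x _ => le_deg d x
  rw [Finset.sum_add_distrib, Finset.sum_const, smul_eq_mul] at h1
  have h2 := sum_dev_le hdev A
  nlinarith

include hC2 in
/-- edges leaving a component -/
theorem comp_edges {v : V} (hv : v ∈ O) :
    (C v).card * d + (C v).card ≤
      ∑ y ∈ C v, (N G y ∩ S).card + ∑ y ∈ C v, dev G d y + (C v).card * (C v).card := by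
  have h1 : ∀ y ∈ C v, d + 1 ≤ (N G y ∩ S).card + dev G d y + (C v).card := by
    intro y hy
    have h2 := le_deg (G := G) d y
    have h3 : (N G y).card ≤ (N G y ∩ S).card + ((C v).erase y).card := by
      have h4 : N G y ⊆ (N G y ∩ S) ∪ ((C v).erase y) := by
        intro z hz
        rw [Finset.mem_union, Finset.mem_inter, Finset.mem_erase]
        rcases Finset.mem_union.1 ((hC2 v hv y hy).2 hz) with h | h
        · exact Or.inl ⟨hz, h⟩
        · exact Or.inr ⟨(mem_N.1 hz).ne', h⟩
      exact (Finset.card_le_card h4).trans (Finset.card_union_le _ _)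
    rw [Finset.card_erase_of_mem hy] at h3
    have h5 : 0 < (C v).card := Finset.card_pos.2 ⟨y, hy⟩
    omega
  have h2 := Finset.sum_le_sum h1
  simp only [Finset.sum_add_distrib, Finset.sum_const, smul_eq_mul] at h2
  nlinarith

include hd hn hdev hC1 hC2 hC3 hO in
/-- all but boundedly many of the components are single vertices -/
theorem many_singletons :
    S.card ≤ (univ.filter fun v => v ∉ S ∧ N G v ⊆ S).card + (6 * K + 4 * M) := by
  classical
  set O1 := O.filter fun v => (C v).card = 1 with hO1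
  set O2 := O.filter fun v => (C v).card ≠ 1 ∧ 2 * (C v).card ≤ d with hO2
  set O3 := O.filter fun v => (C v).card ≠ 1 ∧ ¬ 2 * (C v).card ≤ d with hO3
  have hsplit : O.card = O1.card + O2.card + O3.card := by
    have h1 : O.card = O1.card + (O.filter fun v => ¬ (C v).card = 1).card :=
      (Finset.card_filter_add_card_filter_not _).symm
    have h2 : (O.filter fun v => ¬ (C v).card = 1).card = O2.card + O3.card := by
      rw [hO2, hO3, ← Finset.filter_filter, ← Finset.filter_filter]
      exact (Finset.card_filter_add_card_filter_not _).symm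
    omega
  have hcpos : ∀ v ∈ O, 1 ≤ (C v).card := fun v hv => Finset.card_pos.2 ⟨v, hC1 v hv⟩
  -- total number of edges
  have hdisj : (O : Set V).PairwiseDisjoint C := fun v hv w hw hvw => hC3 v hv w hw hvw
  have hE : ∑ v ∈ O, ∑ y ∈ C v, (N G y ∩ S).card ≤ (S.card + M) * d := by
    rw [← Finset.sum_biUnion hdisj, double_count]
    refine le_trans ?_ (sum_deg_le hdev S)
    exact Finset.sum_le_sum fun x _ => Finset.card_le_card Finset.inter_subset_left
  have hD : ∑ v ∈ O, ∑ y ∈ C v, dev G d y ≤ M * d := by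
    rw [← Finset.sum_biUnion hdisj]
    exact sum_dev_le hdev _
  have hA : ∑ v ∈ O, (C v).card ≤ K * d := by
    rw [← Finset.card_biUnion hC3]
    exact (Finset.card_le_univ _).trans hn
  -- the sums
  have h1 : O1.card * (2 * d) ≤
      ∑ v ∈ O1, (2 * ∑ y ∈ C v, (N G y ∩ S).card + 2 * ∑ y ∈ C v, dev G d y) := by
    rw [← smul_eq_mul]
    apply Finset.card_nsmul_le_sum
    intro v hv
    rw [hO1, Finset.mem_filter] at hv
    have h := comp_edges (d := d) C hC2 hv.1
    rw [hv.2] at h
    omega
  have h2 : O2.card * (3 * d) ≤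
      ∑ v ∈ O2, (2 * ∑ y ∈ C v, (N G y ∩ S).card + 2 * ∑ y ∈ C v, dev G d y) := by
    rw [← smul_eq_mul]
    apply Finset.card_nsmul_le_sum
    intro v hv
    rw [hO2, Finset.mem_filter] at hv
    have h := comp_edges (d := d) C hC2 hv.1
    have hp := hcpos v hv.1
    obtain ⟨t, ht⟩ := Nat.exists_eq_add_of_le hv.2.2
    have ha : 2 ≤ (C v).card := by omega
    obtain ⟨u, hu⟩ := Nat.exists_eq_add_of_le ha
    rw [hu] at h ht
    rw [ht] at h ⊢
    nlinarith
  have h3 : O3.card * d ≤ ∑ v ∈ O3, 2 * (C v).card := by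
    rw [← smul_eq_mul]
    apply Finset.card_nsmul_le_sum
    intro v hv
    rw [hO3, Finset.mem_filter] at hv
    omega
  have h4 : O3.card ≤ 2 * K := by
    have h5 : ∑ v ∈ O3, 2 * (C v).card ≤ 2 * (K * d) := by
      rw [← Finset.mul_sum]
      exact Nat.mul_le_mul_left 2 ((Finset.sum_le_sum_of_subset (Finset.filter_subset _ _)).trans hA)
    have h6 : O3.card * d ≤ (2 * K) * d := by nlinarith
    exact Nat.le_of_mul_le_mul_right h6 hd
  have h5 : 2 * O1.card + 3 * O2.card ≤ 2 * S.card + 4 * M := by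
    have h6 : ∑ v ∈ O1, (2 * ∑ y ∈ C v, (N G y ∩ S).card + 2 * ∑ y ∈ C v, dev G d y) +
        ∑ v ∈ O2, (2 * ∑ y ∈ C v, (N G y ∩ S).card + 2 * ∑ y ∈ C v, dev G d y) ≤
        ∑ v ∈ O, (2 * ∑ y ∈ C v, (N G y ∩ S).card + 2 * ∑ y ∈ C v, dev G d y) := by
      rw [← Finset.sum_union]
      · apply Finset.sum_le_sum_of_subset
        exact Finset.union_subset (Finset.filter_subset _ _) (Finset.filter_subset _ _)
      · rw [hO1, hO2, Finset.disjoint_filter]
        tauto
    have h7 : ∑ v ∈ O, (2 * ∑ y ∈ C v, (N G y ∩ S).card + 2 * ∑ y ∈ C v, dev G d y) =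
        2 * ∑ v ∈ O, ∑ y ∈ C v, (N G y ∩ S).card + 2 * ∑ v ∈ O, ∑ y ∈ C v, dev G d y := by
      rw [Finset.sum_add_distrib, Finset.mul_sum, Finset.mul_sum]
    have h8 : (2 * O1.card + 3 * O2.card) * d ≤ (2 * S.card + 4 * M) * d := by nlinarith
    exact Nat.le_of_mul_le_mul_right h8 hd
  have h6 : O1.card ≤ (univ.filter fun v => v ∉ S ∧ N G v ⊆ S).card := by
    apply Finset.card_le_card
    intro v hv
    rw [hO1, Finset.mem_filter] at hv
    obtain ⟨hv1, hv2⟩ := hv
    have h7 := hC2 v hv1 v (hC1 v hv1)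
    rw [Finset.mem_filter]
    refine ⟨Finset.mem_univ _, h7.1, fun z hz => ?_⟩
    rcases Finset.mem_union.1 (h7.2 hz) with h | h
    · exact h
    · exfalso
      obtain ⟨w, hw⟩ := Finset.card_eq_one.1 hv2
      have e1 := hC1 v hv1
      rw [hw, Finset.mem_singleton] at e1 h
      exact (mem_N.1 hz).ne (e1.trans h.symm)
  omega

end main

/-- the neighbourhood of a set -/
def Un (G : SimpleGraph V) [DecidableRel G.Adj] (R : Finset V) : Finset V := R.biUnion (N G)

/-- first approximation of the independent part -/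
def Tp (G : SimpleGraph V) [DecidableRel G.Adj] (R : Finset V) : Finset V :=
  univ.filter fun x => (N G x \ Un G R).card ≤ (N G x ∩ Un G R).card

/-- approximation of the violator -/
def Sp (G : SimpleGraph V) [DecidableRel G.Adj] (c : ℕ) (R : Finset V) : Finset V :=
  univ.filter fun x => c + 1 ≤ (N G x ∩ Tp G R).card

theorem violator_form {K M d : ℕ} (hd : 0 < d) (hn : Fintype.card V ≤ K * d)
    (hdev : ∑ x, dev G d x ≤ M * d) {S : Finset V}
    (hS : S.card ≤ (univ.filter fun v => v ∉ S ∧ N G v ⊆ S).card + (6 * K + 4 * M))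
    (hbig : 4 * (24 * K + 28 * M) ≤ d) :
    ∃ R Y : Finset V, R.card ≤ 4 * K ∧ Y.card ≤ 24 * K + 26 * M ∧
      S = Sp G (24 * K + 26 * M) R ∪ Y := by
  classical
  set T := univ.filter fun v => v ∉ S ∧ N G v ⊆ S with hT
  have hTmem : ∀ {v}, v ∈ T ↔ v ∉ S ∧ N G v ⊆ S := by
    intro v; rw [hT, Finset.mem_filter]; simp
  -- few edges between `S` and the complement of `T`
  have hfew : ∑ x ∈ S, (N G x \ T).card ≤ (6 * K + 6 * M) * d := by
    have h1 : ∑ x ∈ S, (N G x ∩ T).card + ∑ x ∈ S, (N G x \ T).card = ∑ x ∈ S, (N G x).card := by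
      rw [← Finset.sum_add_distrib]
      exact Finset.sum_congr rfl fun x _ => card_N_split (G := G) x T
    have h2 : ∑ x ∈ S, (N G x ∩ T).card = ∑ t ∈ T, (N G t).card := by
      rw [double_count]
      refine Finset.sum_congr rfl fun t ht => ?_
      rw [Finset.inter_eq_left.2 (hTmem.1 ht).2]
    have h3 := sum_deg_le hdev S
    have h4 := le_sum_deg hdev T
    have h5 : S.card * d ≤ (T.card + (6 * K + 4 * M)) * d := Nat.mul_le_mul_right d hS
    nlinarith
  -- vertices of small degree
  set Low := univ.filter fun x => 2 * (N G x).card < d with hLow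
  have hLowcard : Low.card ≤ 2 * M := by
    have h1 : Low.card * d ≤ ∑ x ∈ Low, 2 * dev G d x := by
      rw [← smul_eq_mul]
      apply Finset.card_nsmul_le_sum
      intro x hx
      rw [hLow, Finset.mem_filter] at hx
      have := le_deg (G := G) d x
      omega
    have h2 : ∑ x ∈ Low, 2 * dev G d x ≤ 2 * (M * d) := by
      rw [← Finset.mul_sum]
      exact Nat.mul_le_mul_left 2 (sum_dev_le hdev Low)
    have h3 : Low.card * d ≤ (2 * M) * d := by nlinarith
    exact Nat.le_of_mul_le_mul_right h3 hd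
  have hnl : ∀ {x}, x ∉ Low → d ≤ 2 * (N G x).card := by
    intro x hx
    rw [hLow, Finset.mem_filter] at hx
    simp only [Finset.mem_univ, true_and, not_lt] at hx
    exact hx
  -- the greedy choice
  let good : Finset (Finset V) := (T \ Low).powerset.filter fun R => R.card * d ≤ 4 * (Un G R).card
  have hgood0 : ∅ ∈ good := by simp [good]
  obtain ⟨R, hR, hmax⟩ := Finset.exists_max_image good Finset.card ⟨∅, hgood0⟩
  simp only [good, Finset.mem_filter, Finset.mem_powerset] at hR hmax
  obtain ⟨hRT, hRU⟩ := hR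
  have hRcard : R.card ≤ 4 * K := by
    have h1 : (Un G R).card ≤ K * d := (Finset.card_le_univ _).trans hn
    have h2 : R.card * d ≤ (4 * K) * d := by nlinarith
    exact Nat.le_of_mul_le_mul_right h2 hd
  have hUS : Un G R ⊆ S := by
    intro y hy
    obtain ⟨t, ht, hty⟩ := Finset.mem_biUnion.1 hy
    exact (hTmem.1 (Finset.mem_sdiff.1 (hRT ht)).1).2 hty
  have hgreedy : ∀ t ∈ T \ Low, t ∈ Tp G R := by
    intro t ht
    rw [Tp, Finset.mem_filter]
    refine ⟨Finset.mem_univ _, ?_⟩
    by_contra hc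
    rw [not_le] at hc
    have htR : t ∉ R := by
      intro htR
      have : N G t ⊆ Un G R := fun y hy => Finset.mem_biUnion.2 ⟨t, htR, hy⟩
      rw [Finset.sdiff_eq_empty_iff_subset.2 this, Finset.card_empty] at hc
      omega
    have h1 := hmax (insert t R) ⟨Finset.insert_subset ht hRT, by
      have h2 : Un G (insert t R) = Un G R ∪ (N G t \ Un G R) := by
        unfold Un
        rw [Finset.biUnion_insert, Finset.union_sdiff_self_eq_union, Finset.union_comm]
      have h3 : (Un G (insert t R)).card = (Un G R).card + (N G t \ Un G R).card := by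
        rw [h2, Finset.card_union_of_disjoint Finset.disjoint_sdiff]
      rw [h3, Finset.card_insert_of_notMem htR]
      have h4 := hnl (Finset.mem_sdiff.1 ht).2
      have h5 := card_N_split (G := G) t (Un G R)
      nlinarith⟩
    rw [Finset.card_insert_of_notMem htR] at h1
    omega
  -- comparison of `T` and `Tp`
  have hTT : (T \ Tp G R).card ≤ 2 * M := by
    refine le_trans (Finset.card_le_card ?_) hLowcard
    intro x hx
    rw [Finset.mem_sdiff] at hx
    by_contra hc
    exact hx.2 (hgreedy x (Finset.mem_sdiff.2 ⟨hx.1, hc⟩))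
  have hcount : ∀ A : Finset V, (∀ x ∈ A, d ≤ 4 * (N G x ∩ S).card) → Disjoint A T →
      A.card ≤ 4 * (6 * K + 6 * M) := by
    intro A hA hAT
    have h1 : A.card * d ≤ ∑ x ∈ A, 4 * (N G x ∩ S).card := by
      rw [← smul_eq_mul]
      exact Finset.card_nsmul_le_sum _ _ _ hA
    have h2 : ∑ x ∈ A, (N G x ∩ S).card ≤ ∑ x ∈ S, (N G x \ T).card := by
      rw [double_count]
      refine Finset.sum_le_sum fun y _ => Finset.card_le_card ?_
      intro z hz
      rw [Finset.mem_inter] at hz
      exact Finset.mem_sdiff.2 ⟨hz.1, fun h => Finset.disjoint_left.1 hAT hz.2 h⟩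
    rw [← Finset.mul_sum] at h1
    have h3 : A.card * d ≤ (4 * (6 * K + 6 * M)) * d := by nlinarith
    exact Nat.le_of_mul_le_mul_right h3 hd
  have hTT' : (Tp G R \ T).card ≤ 24 * K + 26 * M := by
    have h1 : (Tp G R \ T).card ≤ ((Tp G R \ T) \ Low).card + Low.card :=
      Finset.card_le_card_sdiff_add_card
    have h2 := hcount ((Tp G R \ T) \ Low) (fun x hx => by
      rw [Finset.mem_sdiff, Finset.mem_sdiff, Tp, Finset.mem_filter] at hx
      have h3 := hnl hx.2
      have h4 := card_N_split (G := G) x (Un G R)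
      have h5 : (N G x ∩ Un G R).card ≤ (N G x ∩ S).card :=
        Finset.card_le_card (Finset.inter_subset_inter_left hUS)
      have h6 := hx.1.1.2
      omega) (by
      rw [Finset.disjoint_left]
      intro x hx
      rw [Finset.mem_sdiff, Finset.mem_sdiff] at hx
      exact hx.1.2)
    omega
  -- comparison of `S` and `Sp`
  have hSS : Sp G (24 * K + 26 * M) R ⊆ S := by
    intro x hx
    rw [Sp, Finset.mem_filter] at hx
    by_contra hc
    have h1 : N G x ∩ Tp G R ⊆ Tp G R \ T := by
      intro y hy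
      rw [Finset.mem_inter] at hy
      refine Finset.mem_sdiff.2 ⟨hy.2, fun hyT => ?_⟩
      exact hc ((hTmem.1 hyT).2 (mem_N.2 (mem_N.1 hy.1).symm))
    have := Finset.card_le_card h1
    omega
  have hSS' : (S \ Sp G (24 * K + 26 * M) R).card ≤ 24 * K + 26 * M := by
    set A := S \ Sp G (24 * K + 26 * M) R with hA
    have h1 : A.card ≤ (A \ Low).card + Low.card := Finset.card_le_card_sdiff_add_card
    have h2 : (A \ Low).card * d ≤ ∑ x ∈ A \ Low, 4 * (N G x \ T).card := by
      rw [← smul_eq_mul]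
      apply Finset.card_nsmul_le_sum
      intro x hx
      rw [Finset.mem_sdiff, hA, Finset.mem_sdiff, Sp, Finset.mem_filter] at hx
      obtain ⟨⟨hxS, hx2⟩, hxL⟩ := hx
      simp only [Finset.mem_univ, true_and, not_le] at hx2
      have h3 := hnl hxL
      have h4 := card_N_split (G := G) x T
      have h5 : (N G x ∩ T).card ≤ (N G x ∩ Tp G R).card + (T \ Tp G R).card := by
        refine (Finset.card_le_card ?_).trans (Finset.card_union_le _ _)
        intro y hy
        rw [Finset.mem_inter] at hy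
        rw [Finset.mem_union, Finset.mem_inter, Finset.mem_sdiff]
        by_cases hyT : y ∈ Tp G R
        · exact Or.inl ⟨hy.1, hyT⟩
        · exact Or.inr ⟨hy.2, hyT⟩
      omega
    have h3 : ∑ x ∈ A \ Low, (N G x \ T).card ≤ ∑ x ∈ S, (N G x \ T).card := by
      apply Finset.sum_le_sum_of_subset
      intro x hx
      rw [Finset.mem_sdiff, hA, Finset.mem_sdiff] at hx
      exact hx.1.1
    rw [← Finset.mul_sum] at h2
    have h4 : (A \ Low).card * d ≤ (4 * (6 * K + 6 * M)) * d := by nlinarith
    have h5 := Nat.le_of_mul_le_mul_right h4 hd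
    omega
  exact ⟨R, S \ Sp G (24 * K + 26 * M) R, hRcard, hSS',
    (Finset.union_sdiff_of_subset hSS).symm⟩

end Pool.Agent.PMNC.R2
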