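import Mathlib
import Pool.Agent.Lib.MP_0087d5_lc.PM

set_option autoImplicit false
set_option linter.all false

/-!
# Tutte's theorem with the first vertices of the odd components
-/

namespace Pool.Agent.PMNC

open Relation

/-- `a` and `b` are joined in `G - S` -/
def Cn {n : ℕ} (G : SimpleGraph (Fin n)) (S : Fin n → Prop) (a b : Fin n) : Prop :=
  ReflTransGen (fun x y => G.Adj x y ∧ ¬ S x ∧ ¬ S y) a b

/-- `v` is the first vertex of an odd component of `G - S` -/
def OLd {n : ℕ} (G : SimpleGraph (Fin n)) (S : Fin n → Prop) (v : Fin n) : Prop :=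
  ¬ S v ∧ (∀ x, Cn G S v x → v ≤ x) ∧ Odd (Nat.card {x // Cn G S v x})

section
variable {n : ℕ} {G : SimpleGraph (Fin n)} {S : Fin n → Prop}

theorem Cn.symm {a b : Fin n} (h : Cn G S a b) : Cn G S b a := by
  unfold Cn at *
  induction h with
  | refl => exact .refl
  | tail _ hc ih => exact ReflTransGen.head ⟨hc.1.symm, hc.2.2, hc.2.1⟩ ih

theorem Cn.trans {a b c : Fin n} (h : Cn G S a b) (h' : Cn G S b c) : Cn G S a c :=
  ReflTransGen.trans h h'

theorem Cn.not_mem {a b : Fin n} (ha : ¬ S a) (h : Cn G S a b) : ¬ S b := by
  rcases ReflTransGen.cases_tail h with h | ⟨c, _, h⟩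
  · rw [h]; exact ha
  · exact h.2.2

/-- the graph `G - S` -/
abbrev dl (G : SimpleGraph (Fin n)) (S : Fin n → Prop) :=
  ((⊤ : G.Subgraph).deleteVerts {v | S v}).coe

theorem reach_dl (a b : ((⊤ : G.Subgraph).deleteVerts {v | S v}).verts) :
    (dl G S).Reachable a b ↔ Cn G S a.1 b.1 := by
  rw [SimpleGraph.reachable_iff_reflTransGen]
  have hadj : ∀ x y : ((⊤ : G.Subgraph).deleteVerts {v | S v}).verts,
      (dl G S).Adj x y ↔ (G.Adj x.1 y.1 ∧ ¬ S x.1 ∧ ¬ S y.1) := by
    intro x y
    have hx : ¬ S x.1 := x.2.2
    have hy : ¬ S y.1 := y.2.2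
    simp [SimpleGraph.Subgraph.deleteVerts_adj, hx, hy]
  constructor
  · intro h
    induction h with
    | refl => exact .refl
    | tail _ hc ih => exact ReflTransGen.tail ih ((hadj _ _).1 hc)
  · intro h
    have key : ∀ y : Fin n, Cn G S a.1 y → ∀ hy : y ∈ ((⊤ : G.Subgraph).deleteVerts {v | S v}).verts,
        ReflTransGen (dl G S).Adj a ⟨y, hy⟩ := by
      intro y hy
      induction hy with
      | refl => intro _; exact .refl
      | @tail z w _ hc ih =>
        intro hw
        have hz : z ∈ ((⊤ : G.Subgraph).deleteVerts {v | S v}).verts := by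
          simpa using hc.2.1
        exact (ih hz).tail ((hadj ⟨z, hz⟩ ⟨w, hw⟩).2 hc)
    exact key b.1 h b.2

theorem card_old : Nat.card {v // OLd G S v} = (dl G S).oddComponents.ncard := by
  have hmem : ∀ v, ¬ S v → v ∈ ((⊤ : G.Subgraph).deleteVerts {v | S v}).verts := by
    intro v hv
    simpa using hv
  have hsupp : ∀ (v : Fin n) (hv : ¬ S v),
      ((dl G S).connectedComponentMk ⟨v, hmem v hv⟩).supp.ncard = Nat.card {x // Cn G S v x} := by
    intro v hv
    refine Nat.card_congr
      { toFun := fun x => ⟨x.1.1, ?_⟩
        invFun := fun x => ⟨⟨x.1, hmem _ (x.2.not_mem hv)⟩, ?_⟩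
        left_inv := fun x => rfl
        right_inv := fun x => rfl }
    · have h1 := x.2
      rw [SimpleGraph.ConnectedComponent.mem_supp_iff, SimpleGraph.ConnectedComponent.eq] at h1
      exact ((reach_dl _ _).1 h1).symm
    · rw [SimpleGraph.ConnectedComponent.mem_supp_iff, SimpleGraph.ConnectedComponent.eq]
      exact (reach_dl _ _).2 x.2.symm
  let F : {v // OLd G S v} → (dl G S).oddComponents := fun v =>
    ⟨(dl G S).connectedComponentMk ⟨v.1, hmem v.1 v.2.1⟩, by
      change Odd _
      rw [hsupp v.1 v.2.1]
      exact v.2.2.2⟩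
  have hF : Function.Bijective F := by
    constructor
    · intro v w hvw
      have h1 := congrArg Subtype.val hvw
      simp only [F] at h1
      rw [SimpleGraph.ConnectedComponent.eq, reach_dl] at h1
      exact Subtype.ext (le_antisymm (v.2.2.1 _ h1) (w.2.2.1 _ h1.symm))
    · rintro ⟨c, hc⟩
      induction c using SimpleGraph.ConnectedComponent.ind with
      | _ a =>
        have ha : ¬ S a.1 := a.2.2
        obtain ⟨m, hm, hmin⟩ := exists_fst (f := fun x : Fin n => x) Function.injective_id
          (A := fun x => Cn G S a.1 x) ⟨a.1, .refl⟩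
        have hmS : ¬ S m := Cn.not_mem ha hm
        have hmin' : ∀ x, Cn G S m x → m ≤ x := fun x hx => hmin x (hm.trans hx)
        have heq : (dl G S).connectedComponentMk ⟨m, hmem m hmS⟩ =
            (dl G S).connectedComponentMk a := by
          rw [SimpleGraph.ConnectedComponent.eq, reach_dl]
          exact hm.symm
        refine ⟨⟨m, hmS, hmin', ?_⟩, Subtype.ext heq⟩
        rw [← hsupp m hmS, heq]
        exact hc
  rw [Nat.card_congr (Equiv.ofBijective F hF)]
  rfl

theorem tutte_lead (G : SimpleGraph (Fin n)) :
    HasPM G ↔ ∀ S : Fin n → Prop, Nat.card {v // OLd G S v} ≤ Nat.card {v // S v} := by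
  unfold HasPM
  rw [SimpleGraph.tutte]
  constructor
  · intro h S
    have h1 := h {v | S v}
    unfold SimpleGraph.IsTutteViolator at h1
    rw [not_lt] at h1
    rw [card_old]
    exact h1
  · intro h u
    unfold SimpleGraph.IsTutteViolator
    rw [not_lt]
    have h1 := h (fun v => v ∈ u)
    rw [card_old] at h1
    exact h1

end

section def_
variable {E : ℕ → Type} [Env E]
  {S : ∀ n : ℕ, SimpleGraph (Fin n) → Ctx n → E n → Fin n → Prop}
  {f g : ∀ n : ℕ, E n → Fin n}

theorem DefP.cn (hS : DefP (E := fun n => E n × Fin n) (fun n G X y => S n G X y.1 y.2))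
    (hf : Tm (F := fun n => Fin n) f) (hg : Tm (F := fun n => Fin n) g) :
    DefP (fun n G X x => Cn G (S n G X x) (f n x) (g n x)) := by
  unfold Cn
  refine DefP.rtc (S := fun n => Fin n) ?_ hf hg
  (repeat' (first
      | apply DefP.oddCard | apply DefP.cardEq | apply DefP.cardLt | apply DefP.cardLe
      | apply DefP.lst | apply DefP.fst | apply DefP.nxt | apply DefP.keyLe | apply DefP.keyLt
      | apply DefP.rtc | (apply DefP.app4; assumption) | (apply DefP.app3'; assumption)
      | (apply DefP.app3; assumption) | (apply DefP.app2; assumption)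
      | (apply DefP.comp; assumption) | exact Tm.id | exact Tm.unit | apply Tm.fst
      | apply Tm.snd | apply Tm.app | exact DefP.const _ | apply DefP.and | apply DefP.not
      | apply DefP.or | apply DefP.iff | apply DefP.adj | apply DefP.le | apply DefP.lt
      | apply DefP.eqFin | apply DefP.eq | apply DefP.rv | apply DefP.imp | apply DefP.allFin
      | apply DefP.exFin | apply DefP.all | apply DefP.ex | assumption
      | (apply Tm.comp; assumption) | apply Tm.pair | apply Tm.lam))

end def_


section def_
variable {E : ℕ → Type} [Env E]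
  {S : ∀ n : ℕ, SimpleGraph (Fin n) → Ctx n → E n → Fin n → Prop}
  {f g : ∀ n : ℕ, E n → Fin n}

theorem DefP.old (hS : DefP (E := fun n => E n × Fin n) (fun n G X y => S n G X y.1 y.2))
    (hf : Tm (F := fun n => Fin n) f) :
    DefP (fun n G X x => OLd G (S n G X x) (f n x)) := by
  unfold OLd
  refine DefP.and (by (repeat' (first
      | apply DefP.cn | apply DefP.oddCard | apply DefP.cardEq | apply DefP.cardLt
      | apply DefP.cardLe | apply DefP.lst | apply DefP.fst | apply DefP.nxt | apply DefP.keyLe
      | apply DefP.keyLt | apply DefP.rtc | (apply DefP.app4; assumption)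
      | (apply DefP.app3'; assumption) | (apply DefP.app3; assumption)
      | (apply DefP.app2; assumption) | (apply DefP.comp; assumption) | exact Tm.id
      | exact Tm.unit | apply Tm.fst | apply Tm.snd | apply Tm.app | exact DefP.const _
      | apply DefP.and | apply DefP.not | apply DefP.or | apply DefP.iff | apply DefP.adj
      | apply DefP.le | apply DefP.lt | apply DefP.eqFin | apply DefP.eq | apply DefP.rv
      | apply DefP.imp | apply DefP.allFin | apply DefP.exFin | apply DefP.all | apply DefP.ex
      | assumption | (apply Tm.comp; assumption) | apply Tm.pair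
      | apply Tm.lam))) (DefP.and (by (repeat' (first
      | apply DefP.cn | apply DefP.oddCard | apply DefP.cardEq | apply DefP.cardLt
      | apply DefP.cardLe | apply DefP.lst | apply DefP.fst | apply DefP.nxt | apply DefP.keyLe
      | apply DefP.keyLt | apply DefP.rtc | (apply DefP.app4; assumption)
      | (apply DefP.app3'; assumption) | (apply DefP.app3; assumption)
      | (apply DefP.app2; assumption) | (apply DefP.comp; assumption) | exact Tm.id
      | exact Tm.unit | apply Tm.fst | apply Tm.snd | apply Tm.app | exact DefP.const _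
      | apply DefP.and | apply DefP.not | apply DefP.or | apply DefP.iff | apply DefP.adj
      | apply DefP.le | apply DefP.lt | apply DefP.eqFin | apply DefP.eq | apply DefP.rv
      | apply DefP.imp | apply DefP.allFin | apply DefP.exFin | apply DefP.all | apply DefP.ex
      | assumption | (apply Tm.comp; assumption) | apply Tm.pair
      | apply Tm.lam))) (DefP.oddCard (S := fun n => Fin n) ?_))
  (repeat' (first
      | apply DefP.cn | apply DefP.oddCard | apply DefP.cardEq | apply DefP.cardLt
      | apply DefP.cardLe | apply DefP.lst | apply DefP.fst | apply DefP.nxt | apply DefP.keyLe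
      | apply DefP.keyLt | apply DefP.rtc | (apply DefP.app4; assumption)
      | (apply DefP.app3'; assumption) | (apply DefP.app3; assumption)
      | (apply DefP.app2; assumption) | (apply DefP.comp; assumption) | exact Tm.id
      | exact Tm.unit | apply Tm.fst | apply Tm.snd | apply Tm.app | exact DefP.const _
      | apply DefP.and | apply DefP.not | apply DefP.or | apply DefP.iff | apply DefP.adj
      | apply DefP.le | apply DefP.lt | apply DefP.eqFin | apply DefP.eq | apply DefP.rv
      | apply DefP.imp | apply DefP.allFin | apply DefP.exFin | apply DefP.all | apply DefP.ex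
      | assumption | (apply Tm.comp; assumption) | apply Tm.pair | apply Tm.lam))

end def_

end Pool.Agent.PMNC
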