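import Mathlib
import Pool.Agent.Lib.MP_0087d5_lc.TutteLead
import Pool.Agent.Lib.MP_0087d5_lc.Frac
import Pool.Agent.Lib.MP_0087d5_lc.R2Comb

set_option autoImplicit false
set_option linter.all false

/-!
# Perfect matchings in dense nearly regular graphs
-/

namespace Pool.Agent.PMNC

open Relation

/-- the set of the vertices `x` with `p i = (x, x)` for some `i` -/
def RS {n k : ℕ} (p : Fin k → Fin n × Fin n) (x : Fin n) : Prop := ∃ i, (p i).1 = x ∧ (p i).2 = x

def UnP {n : ℕ} (G : SimpleGraph (Fin n)) (R : Fin n → Prop) (y : Fin n) : Prop :=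
  ∃ t, R t ∧ G.Adj t y

def TpP {n : ℕ} (G : SimpleGraph (Fin n)) (R : Fin n → Prop) (x : Fin n) : Prop :=
  Nat.card {y // G.Adj x y ∧ ¬ UnP G R y} ≤ Nat.card {y // G.Adj x y ∧ UnP G R y}

def SpP {n : ℕ} (G : SimpleGraph (Fin n)) (c : ℕ) (R : Fin n → Prop) (x : Fin n) : Prop :=
  c + 1 ≤ Nat.card {y // G.Adj x y ∧ TpP G R y}

def SSP {n k l : ℕ} (G : SimpleGraph (Fin n)) (c : ℕ) (p : Fin k → Fin n × Fin n)
    (q : Fin l → Fin n × Fin n) (x : Fin n) : Prop := SpP G c (RS p) x ∨ RS q x

/-- the language -/
def Lang2 (K C : ℕ) (n : ℕ) (G : SimpleGraph (Fin n)) : Prop :=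
  (n ≤ 1 + K * (4 * (24 * K + 28 * (C * K))) ∧ HasPM G) ∨
    (¬ n ≤ 1 + K * (4 * (24 * K + 28 * (C * K))) ∧
      ¬ ∃ (p : Fin (4 * K) → Fin n × Fin n) (q : Fin (24 * K + 26 * (C * K)) → Fin n × Fin n),
        Nat.card {v // SSP G (24 * K + 26 * (C * K)) p q v} <
          Nat.card {v // OLd G (SSP G (24 * K + 26 * (C * K)) p q) v})

section def_
variable {E S : ℕ → Type} [Env E] [Env S]

theorem DefP.numLe (m : ℕ) {A : ∀ n : ℕ, SimpleGraph (Fin n) → Ctx n → E n → S n → Prop}
    (hA : DefP (E := fun n => E n × S n) (fun n G X y => A n G X y.1 y.2)) :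
    DefP (fun n G X x => m ≤ Nat.card {s // A n G X x s}) := by
  refine DefP.congr (P := fun n G X x => ∃ z : Fin m → S n,
    (∀ i : Fin m, ∀ j : Fin m, i ≠ j → ¬ (z i = z j)) ∧ ∀ i : Fin m, A n G X x (z i)) ?_ ?_
  · refine DefP.ex (F := fun n => Fin m → S n) (DefP.and ?_ ?_)
    · refine DefP.forallFintype fun i => DefP.forallFintype fun j => ?_
      refine DefP.imp (DefP.const _) (DefP.not (DefP.eq ?_ ?_))
      all_goals (repeat' (first
          | apply DefP.cho | apply DefP.halfSet | apply DefP.pr | apply DefP.oddRk
          | apply DefP.side | apply DefP.cn | apply DefP.oddCard | apply DefP.cardEq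
          | apply DefP.cardLt | apply DefP.cardLe | apply DefP.lst | apply DefP.fst
          | apply DefP.nxt | apply DefP.keyLe | apply DefP.keyLt | apply DefP.rtc
          | (apply DefP.app4; assumption) | (apply DefP.app3'; assumption)
          | (apply DefP.app3; assumption) | (apply DefP.app2; assumption)
          | (apply DefP.comp; assumption) | exact Tm.id | exact Tm.unit | apply Tm.fst
          | apply Tm.snd | apply Tm.app | exact DefP.const _ | apply DefP.and | apply DefP.not
          | apply DefP.or | apply DefP.iff | apply DefP.adj | apply DefP.le | apply DefP.lt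
          | apply DefP.eqFin | apply DefP.eq | apply DefP.rv | apply DefP.imp
          | apply DefP.allFin | apply DefP.exFin | apply DefP.all | apply DefP.ex | assumption
          | (apply Tm.comp; assumption) | apply Tm.pair | apply Tm.lam))
    · refine DefP.forallFintype fun i => ?_
      (repeat' (first
          | apply DefP.cho | apply DefP.halfSet | apply DefP.pr | apply DefP.oddRk
          | apply DefP.side | apply DefP.cn | apply DefP.oddCard | apply DefP.cardEq
          | apply DefP.cardLt | apply DefP.cardLe | apply DefP.lst | apply DefP.fst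
          | apply DefP.nxt | apply DefP.keyLe | apply DefP.keyLt | apply DefP.rtc
          | (apply DefP.app4; assumption) | (apply DefP.app3'; assumption)
          | (apply DefP.app3; assumption) | (apply DefP.app2; assumption)
          | (apply DefP.comp; assumption) | exact Tm.id | exact Tm.unit | apply Tm.fst
          | apply Tm.snd | apply Tm.app | exact DefP.const _ | apply DefP.and | apply DefP.not
          | apply DefP.or | apply DefP.iff | apply DefP.adj | apply DefP.le | apply DefP.lt
          | apply DefP.eqFin | apply DefP.eq | apply DefP.rv | apply DefP.imp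
          | apply DefP.allFin | apply DefP.exFin | apply DefP.all | apply DefP.ex | assumption
          | (apply Tm.comp; assumption) | apply Tm.pair | apply Tm.lam))
  · intro n G X x
    constructor
    · rintro ⟨z, hz, hA⟩
      have hinj : Function.Injective (fun i : Fin m => (⟨z i, hA i⟩ : {s // A n G X x s})) := by
        intro i j hij
        by_contra hne
        exact hz i j hne (congrArg Subtype.val hij)
      have := Nat.card_le_card_of_injective _ hinj
      simpa using this
    · intro h
      have h1 : m ≤ Nat.card {s // A n G X x s} := h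
      haveI := Fintype.ofFinite {s // A n G X x s}
      rw [Nat.card_eq_fintype_card] at h1
      have h2 : Fintype.card (Fin m) ≤ Fintype.card {s // A n G X x s} := by simpa using h1
      obtain ⟨f⟩ := Function.Embedding.nonempty_of_card_le h2
      exact ⟨fun i => (f i).1, fun i j hij he => hij (f.injective (Subtype.ext he)),
        fun i => (f i).2⟩

end def_

section def_
variable {E : ℕ → Type} [Env E]
  {R : ∀ n : ℕ, SimpleGraph (Fin n) → Ctx n → E n → Fin n → Prop}
  {f g : ∀ n : ℕ, E n → Fin n}

theorem DefP.unP (hR : DefP (E := fun n => E n × Fin n) (fun n G X y => R n G X y.1 y.2))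
    (hf : Tm (F := fun n => Fin n) f) :
    DefP (fun n G X x => UnP G (R n G X x) (f n x)) := by
  unfold UnP
  (repeat' (first
      | apply DefP.cho | apply DefP.halfSet | apply DefP.pr | apply DefP.oddRk | apply DefP.side
      | apply DefP.cn | apply DefP.oddCard | apply DefP.cardEq | apply DefP.cardLt
      | apply DefP.cardLe | apply DefP.lst | apply DefP.fst | apply DefP.nxt | apply DefP.keyLe
      | apply DefP.keyLt | apply DefP.rtc | (apply DefP.app4; assumption)
      | (apply DefP.app3'; assumption) | (apply DefP.app3; assumption)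
      | (apply DefP.app2; assumption) | (apply DefP.comp; assumption) | exact Tm.id
      | exact Tm.unit | apply Tm.fst | apply Tm.snd | apply Tm.app | exact DefP.const _
      | apply DefP.and | apply DefP.not | apply DefP.or | apply DefP.iff | apply DefP.adj
      | apply DefP.le | apply DefP.lt | apply DefP.eqFin | apply DefP.eq | apply DefP.rv
      | apply DefP.imp | apply DefP.allFin | apply DefP.exFin | apply DefP.all | apply DefP.ex
      | assumption | (apply Tm.comp; assumption) | apply Tm.pair | apply Tm.lam))

end def_


section def_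
variable {E : ℕ → Type} [Env E]
  {R : ∀ n : ℕ, SimpleGraph (Fin n) → Ctx n → E n → Fin n → Prop}
  {f g : ∀ n : ℕ, E n → Fin n}

theorem DefP.tpP (hR : DefP (E := fun n => E n × Fin n) (fun n G X y => R n G X y.1 y.2))
    (hf : Tm (F := fun n => Fin n) f) :
    DefP (fun n G X x => TpP G (R n G X x) (f n x)) := by
  unfold TpP
  refine DefP.cardLe (S := fun n => Fin n) (T := fun n => Fin n) ?_ ?_
  all_goals (repeat' (first
      | apply DefP.unP | apply DefP.cho | apply DefP.halfSet | apply DefP.pr | apply DefP.oddRk
      | apply DefP.side | apply DefP.cn | apply DefP.oddCard | apply DefP.cardEq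
      | apply DefP.cardLt | apply DefP.cardLe | apply DefP.lst | apply DefP.fst | apply DefP.nxt
      | apply DefP.keyLe | apply DefP.keyLt | apply DefP.rtc | (apply DefP.app4; assumption)
      | (apply DefP.app3'; assumption) | (apply DefP.app3; assumption)
      | (apply DefP.app2; assumption) | (apply DefP.comp; assumption) | exact Tm.id
      | exact Tm.unit | apply Tm.fst | apply Tm.snd | apply Tm.app | exact DefP.const _
      | apply DefP.and | apply DefP.not | apply DefP.or | apply DefP.iff | apply DefP.adj
      | apply DefP.le | apply DefP.lt | apply DefP.eqFin | apply DefP.eq | apply DefP.rv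
      | apply DefP.imp | apply DefP.allFin | apply DefP.exFin | apply DefP.all | apply DefP.ex
      | assumption | (apply Tm.comp; assumption) | apply Tm.pair | apply Tm.lam))

end def_


section def_
variable {E : ℕ → Type} [Env E]
  {R : ∀ n : ℕ, SimpleGraph (Fin n) → Ctx n → E n → Fin n → Prop}
  {f g : ∀ n : ℕ, E n → Fin n}

theorem DefP.spP (c : ℕ)
    (hR : DefP (E := fun n => E n × Fin n) (fun n G X y => R n G X y.1 y.2))
    (hf : Tm (F := fun n => Fin n) f) :
    DefP (fun n G X x => SpP G c (R n G X x) (f n x)) := by
  unfold SpP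
  refine DefP.numLe (c + 1) (S := fun n => Fin n) ?_
  (repeat' (first
      | apply DefP.tpP | apply DefP.unP | apply DefP.cho | apply DefP.halfSet | apply DefP.pr
      | apply DefP.oddRk | apply DefP.side | apply DefP.cn | apply DefP.oddCard
      | apply DefP.cardEq | apply DefP.cardLt | apply DefP.cardLe | apply DefP.lst
      | apply DefP.fst | apply DefP.nxt | apply DefP.keyLe | apply DefP.keyLt | apply DefP.rtc
      | (apply DefP.app4; assumption) | (apply DefP.app3'; assumption)
      | (apply DefP.app3; assumption) | (apply DefP.app2; assumption)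
      | (apply DefP.comp; assumption) | exact Tm.id | exact Tm.unit | apply Tm.fst
      | apply Tm.snd | apply Tm.app | exact DefP.const _ | apply DefP.and | apply DefP.not
      | apply DefP.or | apply DefP.iff | apply DefP.adj | apply DefP.le | apply DefP.lt
      | apply DefP.eqFin | apply DefP.eq | apply DefP.rv | apply DefP.imp | apply DefP.allFin
      | apply DefP.exFin | apply DefP.all | apply DefP.ex | assumption
      | (apply Tm.comp; assumption) | apply Tm.pair | apply Tm.lam))

theorem DefP.rs {k : ℕ} {p : ∀ n : ℕ, E n → Fin k → Fin n × Fin n}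
    (hp : Tm (F := fun n => Fin k → Fin n × Fin n) p)
    (hf : Tm (F := fun n => Fin n) f) :
    DefP (fun n G X x => RS (p n x) (f n x)) := by
  unfold RS
  refine DefP.existsFintype fun i => DefP.and (DefP.eqFin ?_ ?_) (DefP.eqFin ?_ ?_)
  · exact Tm.fst (Tm.app (F := fun n => Fin n × Fin n) hp i)
  · exact hf
  · exact Tm.snd (Tm.app (F := fun n => Fin n × Fin n) hp i)
  · exact hf

theorem DefP.ssP {k l : ℕ} (c : ℕ) {p : ∀ n : ℕ, E n → Fin k → Fin n × Fin n}
    (hp : Tm (F := fun n => Fin k → Fin n × Fin n) p)
    {q : ∀ n : ℕ, E n → Fin l → Fin n × Fin n}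
    (hq : Tm (F := fun n => Fin l → Fin n × Fin n) q)
    (hf : Tm (F := fun n => Fin n) f) :
    DefP (fun n G X x => SSP G c (p n x) (q n x) (f n x)) := by
  unfold SSP
  refine DefP.or (DefP.spP c (R := fun n G X x => RS (p n x)) ?_ hf) (DefP.rs hq hf)
  exact DefP.rs (E := fun n => E n × Fin n) (p := fun n y => p n y.1) (f := fun n y => y.2)
    (hp.comp (Tm.fst Tm.id)) (Tm.snd Tm.id)

end def_

theorem inNC_lang2 (K C : ℕ) : InNC (Lang2 K C) := by
  apply inNC_of_defP
  unfold Lang2
  refine DefP.or (defP_small _ (fun n G => HasPM G)) (DefP.and (defP_card_le _).not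
    (DefP.not (DefP.ex (F := fun n => Fin (4 * K) → Fin n × Fin n)
      (DefP.ex (F := fun n => Fin (24 * K + 26 * (C * K)) → Fin n × Fin n) ?_))))
  have h1 : DefP (E := fun n => ((Unit × (Fin (4 * K) → Fin n × Fin n)) ×
      (Fin (24 * K + 26 * (C * K)) → Fin n × Fin n)) × Fin n)
      (fun n G X y => SSP G (24 * K + 26 * (C * K)) y.1.1.2 y.1.2 y.2) :=
    DefP.ssP (E := fun n => ((Unit × (Fin (4 * K) → Fin n × Fin n)) ×
      (Fin (24 * K + 26 * (C * K)) → Fin n × Fin n)) × Fin n) _
      (p := fun n y => y.1.1.2) (q := fun n y => y.1.2) (f := fun n y => y.2)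
      (by (repeat' (first
          | apply DefP.tpP | apply DefP.unP | apply DefP.cho | apply DefP.halfSet
          | apply DefP.pr | apply DefP.oddRk | apply DefP.side | apply DefP.cn
          | apply DefP.oddCard | apply DefP.cardEq | apply DefP.cardLt | apply DefP.cardLe
          | apply DefP.lst | apply DefP.fst | apply DefP.nxt | apply DefP.keyLe
          | apply DefP.keyLt | apply DefP.rtc | (apply DefP.app4; assumption)
          | (apply DefP.app3'; assumption) | (apply DefP.app3; assumption)
          | (apply DefP.app2; assumption) | (apply DefP.comp; assumption) | exact Tm.id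
          | exact Tm.unit | apply Tm.fst | apply Tm.snd | apply Tm.app | exact DefP.const _
          | apply DefP.and | apply DefP.not | apply DefP.or | apply DefP.iff | apply DefP.adj
          | apply DefP.le | apply DefP.lt | apply DefP.eqFin | apply DefP.eq | apply DefP.rv
          | apply DefP.imp | apply DefP.allFin | apply DefP.exFin | apply DefP.all
          | apply DefP.ex | assumption | (apply Tm.comp; assumption) | apply Tm.pair
          | apply Tm.lam))) (by (repeat' (first
          | apply DefP.tpP | apply DefP.unP | apply DefP.cho | apply DefP.halfSet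
          | apply DefP.pr | apply DefP.oddRk | apply DefP.side | apply DefP.cn
          | apply DefP.oddCard | apply DefP.cardEq | apply DefP.cardLt | apply DefP.cardLe
          | apply DefP.lst | apply DefP.fst | apply DefP.nxt | apply DefP.keyLe
          | apply DefP.keyLt | apply DefP.rtc | (apply DefP.app4; assumption)
          | (apply DefP.app3'; assumption) | (apply DefP.app3; assumption)
          | (apply DefP.app2; assumption) | (apply DefP.comp; assumption) | exact Tm.id
          | exact Tm.unit | apply Tm.fst | apply Tm.snd | apply Tm.app | exact DefP.const _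
          | apply DefP.and | apply DefP.not | apply DefP.or | apply DefP.iff | apply DefP.adj
          | apply DefP.le | apply DefP.lt | apply DefP.eqFin | apply DefP.eq | apply DefP.rv
          | apply DefP.imp | apply DefP.allFin | apply DefP.exFin | apply DefP.all
          | apply DefP.ex | assumption | (apply Tm.comp; assumption) | apply Tm.pair
          | apply Tm.lam))) (by (repeat' (first
          | apply DefP.tpP | apply DefP.unP | apply DefP.cho | apply DefP.halfSet
          | apply DefP.pr | apply DefP.oddRk | apply DefP.side | apply DefP.cn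
          | apply DefP.oddCard | apply DefP.cardEq | apply DefP.cardLt | apply DefP.cardLe
          | apply DefP.lst | apply DefP.fst | apply DefP.nxt | apply DefP.keyLe
          | apply DefP.keyLt | apply DefP.rtc | (apply DefP.app4; assumption)
          | (apply DefP.app3'; assumption) | (apply DefP.app3; assumption)
          | (apply DefP.app2; assumption) | (apply DefP.comp; assumption) | exact Tm.id
          | exact Tm.unit | apply Tm.fst | apply Tm.snd | apply Tm.app | exact DefP.const _
          | apply DefP.and | apply DefP.not | apply DefP.or | apply DefP.iff | apply DefP.adj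
          | apply DefP.le | apply DefP.lt | apply DefP.eqFin | apply DefP.eq | apply DefP.rv
          | apply DefP.imp | apply DefP.allFin | apply DefP.exFin | apply DefP.all
          | apply DefP.ex | assumption | (apply Tm.comp; assumption) | apply Tm.pair
          | apply Tm.lam)))
  have h2 : DefP (E := fun n => ((Unit × (Fin (4 * K) → Fin n × Fin n)) ×
      (Fin (24 * K + 26 * (C * K)) → Fin n × Fin n)) × Fin n)
      (fun n G X y => OLd G (SSP G (24 * K + 26 * (C * K)) y.1.1.2 y.1.2) y.2) := by
    refine DefP.old (E := fun n => ((Unit × (Fin (4 * K) → Fin n × Fin n)) ×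
      (Fin (24 * K + 26 * (C * K)) → Fin n × Fin n)) × Fin n)
      (S := fun n G X y => SSP G (24 * K + 26 * (C * K)) y.1.1.2 y.1.2) (f := fun n y => y.2) ?_
      (by (repeat' (first
          | apply DefP.tpP | apply DefP.unP | apply DefP.cho | apply DefP.halfSet
          | apply DefP.pr | apply DefP.oddRk | apply DefP.side | apply DefP.cn
          | apply DefP.oddCard | apply DefP.cardEq | apply DefP.cardLt | apply DefP.cardLe
          | apply DefP.lst | apply DefP.fst | apply DefP.nxt | apply DefP.keyLe
          | apply DefP.keyLt | apply DefP.rtc | (apply DefP.app4; assumption)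
          | (apply DefP.app3'; assumption) | (apply DefP.app3; assumption)
          | (apply DefP.app2; assumption) | (apply DefP.comp; assumption) | exact Tm.id
          | exact Tm.unit | apply Tm.fst | apply Tm.snd | apply Tm.app | exact DefP.const _
          | apply DefP.and | apply DefP.not | apply DefP.or | apply DefP.iff | apply DefP.adj
          | apply DefP.le | apply DefP.lt | apply DefP.eqFin | apply DefP.eq | apply DefP.rv
          | apply DefP.imp | apply DefP.allFin | apply DefP.exFin | apply DefP.all
          | apply DefP.ex | assumption | (apply Tm.comp; assumption) | apply Tm.pair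
          | apply Tm.lam)))
    exact DefP.ssP (E := fun n => (((Unit × (Fin (4 * K) → Fin n × Fin n)) ×
      (Fin (24 * K + 26 * (C * K)) → Fin n × Fin n)) × Fin n) × Fin n) _
      (p := fun n y => y.1.1.1.2) (q := fun n y => y.1.1.2) (f := fun n y => y.2)
      (by (repeat' (first
          | apply DefP.tpP | apply DefP.unP | apply DefP.cho | apply DefP.halfSet
          | apply DefP.pr | apply DefP.oddRk | apply DefP.side | apply DefP.cn
          | apply DefP.oddCard | apply DefP.cardEq | apply DefP.cardLt | apply DefP.cardLe
          | apply DefP.lst | apply DefP.fst | apply DefP.nxt | apply DefP.keyLe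
          | apply DefP.keyLt | apply DefP.rtc | (apply DefP.app4; assumption)
          | (apply DefP.app3'; assumption) | (apply DefP.app3; assumption)
          | (apply DefP.app2; assumption) | (apply DefP.comp; assumption) | exact Tm.id
          | exact Tm.unit | apply Tm.fst | apply Tm.snd | apply Tm.app | exact DefP.const _
          | apply DefP.and | apply DefP.not | apply DefP.or | apply DefP.iff | apply DefP.adj
          | apply DefP.le | apply DefP.lt | apply DefP.eqFin | apply DefP.eq | apply DefP.rv
          | apply DefP.imp | apply DefP.allFin | apply DefP.exFin | apply DefP.all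
          | apply DefP.ex | assumption | (apply Tm.comp; assumption) | apply Tm.pair
          | apply Tm.lam))) (by (repeat' (first
          | apply DefP.tpP | apply DefP.unP | apply DefP.cho | apply DefP.halfSet
          | apply DefP.pr | apply DefP.oddRk | apply DefP.side | apply DefP.cn
          | apply DefP.oddCard | apply DefP.cardEq | apply DefP.cardLt | apply DefP.cardLe
          | apply DefP.lst | apply DefP.fst | apply DefP.nxt | apply DefP.keyLe
          | apply DefP.keyLt | apply DefP.rtc | (apply DefP.app4; assumption)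
          | (apply DefP.app3'; assumption) | (apply DefP.app3; assumption)
          | (apply DefP.app2; assumption) | (apply DefP.comp; assumption) | exact Tm.id
          | exact Tm.unit | apply Tm.fst | apply Tm.snd | apply Tm.app | exact DefP.const _
          | apply DefP.and | apply DefP.not | apply DefP.or | apply DefP.iff | apply DefP.adj
          | apply DefP.le | apply DefP.lt | apply DefP.eqFin | apply DefP.eq | apply DefP.rv
          | apply DefP.imp | apply DefP.allFin | apply DefP.exFin | apply DefP.all
          | apply DefP.ex | assumption | (apply Tm.comp; assumption) | apply Tm.pair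
          | apply Tm.lam))) (by (repeat' (first
          | apply DefP.tpP | apply DefP.unP | apply DefP.cho | apply DefP.halfSet
          | apply DefP.pr | apply DefP.oddRk | apply DefP.side | apply DefP.cn
          | apply DefP.oddCard | apply DefP.cardEq | apply DefP.cardLt | apply DefP.cardLe
          | apply DefP.lst | apply DefP.fst | apply DefP.nxt | apply DefP.keyLe
          | apply DefP.keyLt | apply DefP.rtc | (apply DefP.app4; assumption)
          | (apply DefP.app3'; assumption) | (apply DefP.app3; assumption)
          | (apply DefP.app2; assumption) | (apply DefP.comp; assumption) | exact Tm.id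
          | exact Tm.unit | apply Tm.fst | apply Tm.snd | apply Tm.app | exact DefP.const _
          | apply DefP.and | apply DefP.not | apply DefP.or | apply DefP.iff | apply DefP.adj
          | apply DefP.le | apply DefP.lt | apply DefP.eqFin | apply DefP.eq | apply DefP.rv
          | apply DefP.imp | apply DefP.allFin | apply DefP.exFin | apply DefP.all
          | apply DefP.ex | assumption | (apply Tm.comp; assumption) | apply Tm.pair
          | apply Tm.lam)))
  exact DefP.cardLt (E := fun n => (Unit × (Fin (4 * K) → Fin n × Fin n)) ×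
      (Fin (24 * K + 26 * (C * K)) → Fin n × Fin n)) (S := fun n => Fin n) (T := fun n => Fin n)
    h1 h2

theorem exists_tuple {n k : ℕ} (hn : 1 < n) (R : Finset (Fin n)) (hR : R.card ≤ k) :
    ∃ p : Fin k → Fin n × Fin n, ∀ x, RS p x ↔ x ∈ R := by
  classical
  obtain ⟨e⟩ : Nonempty (R ↪ Fin k) := by
    apply Function.Embedding.nonempty_of_card_le
    simpa using hR
  refine ⟨fun i => if h : ∃ x : R, e x = i then (h.choose.1, h.choose.1) else
    (⟨0, by omega⟩, ⟨1, hn⟩), fun x => ?_⟩
  constructor
  · rintro ⟨i, h1, h2⟩
    by_cases h : ∃ x : R, e x = i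
    · simp only [h, dite_true] at h1
      rw [← h1]
      exact h.choose.2
    · simp only [h, dite_false] at h1 h2
      rw [← h2] at h1
      exact absurd (congrArg Fin.val h1) (by simp)
  · intro hx
    have h : ∃ y : R, e y = e ⟨x, hx⟩ := ⟨⟨x, hx⟩, rfl⟩
    have h3 : h.choose = ⟨x, hx⟩ := e.injective h.choose_spec
    refine ⟨e ⟨x, hx⟩, ?_⟩
    simp only [h, dite_true]
    rw [h3]
    exact ⟨rfl, rfl⟩

open Classical in
theorem dg_eq {n : ℕ} (G : SimpleGraph (Fin n)) (x : Fin n) : dg G x = (R2.N G x).card := by
  unfold dg R2.N
  rw [Nat.card_eq_fintype_card, Fintype.card_subtype]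

open Classical in
theorem sp_eq {n : ℕ} (G : SimpleGraph (Fin n)) (c : ℕ) (P : Fin n → Prop) (R : Finset (Fin n))
    (h : ∀ x, P x ↔ x ∈ R) (x : Fin n) : SpP G c P x ↔ x ∈ R2.Sp G c R := by
  have hU : ∀ y, UnP G P y ↔ y ∈ R2.Un G R := by
    intro y
    unfold UnP R2.Un
    rw [Finset.mem_biUnion]
    exact exists_congr fun t => by rw [h, R2.mem_N]
  have hT : ∀ y, TpP G P y ↔ y ∈ R2.Tp G R := by
    intro y
    unfold TpP R2.Tp
    rw [Finset.mem_filter]
    have e1 : Nat.card {z // G.Adj y z ∧ ¬ UnP G P z} = (R2.N G y \ R2.Un G R).card := by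
      rw [Nat.card_eq_fintype_card, Fintype.card_subtype]
      congr 1
      ext z
      rw [Finset.mem_filter, Finset.mem_sdiff, R2.mem_N, hU]
      simp
    have e2 : Nat.card {z // G.Adj y z ∧ UnP G P z} = (R2.N G y ∩ R2.Un G R).card := by
      rw [Nat.card_eq_fintype_card, Fintype.card_subtype]
      congr 1
      ext z
      rw [Finset.mem_filter, Finset.mem_inter, R2.mem_N, hU]
      simp
    rw [e1, e2]
    simp
  unfold SpP R2.Sp
  rw [Finset.mem_filter]
  have e1 : Nat.card {z // G.Adj x z ∧ TpP G P z} = (R2.N G x ∩ R2.Tp G R).card := by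
    rw [Nat.card_eq_fintype_card, Fintype.card_subtype]
    congr 1
    ext z
    rw [Finset.mem_filter, Finset.mem_inter, R2.mem_N, hT]
    simp
  rw [e1]
  simp

theorem lang2_of_hasPM (K C n : ℕ) (G : SimpleGraph (Fin n)) (h : HasPM G) : Lang2 K C n G := by
  by_cases hn : n ≤ 1 + K * (4 * (24 * K + 28 * (C * K)))
  · exact Or.inl ⟨hn, h⟩
  · refine Or.inr ⟨hn, ?_⟩
    rintro ⟨p, q, hpq⟩
    have := (tutte_lead G).1 h (SSP G (24 * K + 26 * (C * K)) p q)
    omega

theorem hasPM_of_lang2 (K C n d : ℕ) (G : SimpleGraph (Fin n)) (hn : n ≤ K * d)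
    (hdev : ∑ v, |(dg G v : ℤ) - d| ≤ C * n) (h : Lang2 K C n G) : HasPM G := by
  classical
  rcases h with h | ⟨hbig, hno⟩
  · exact h.2
  by_contra hPM
  rw [tutte_lead] at hPM
  push Not at hPM
  obtain ⟨S, hS⟩ := hPM
  have hd : 0 < d := by
    rcases Nat.eq_zero_or_pos d with h0 | h0
    · subst h0
      omega
    · exact h0
  have hK : 0 < K := by
    rcases Nat.eq_zero_or_pos K with h0 | h0
    · subst h0
      omega
    · exact h0
  have hdev' : ∑ x, R2.dev G d x ≤ (C * K) * d := by
    have e1 : ∀ x, ((R2.dev G d x : ℕ) : ℤ) = |(dg G x : ℤ) - d| := by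
      intro x
      unfold R2.dev
      rw [← dg_eq]
      rcases le_total (dg G x) d with h | h
      · rw [abs_of_nonpos (by omega)]
        push_cast
        omega
      · rw [abs_of_nonneg (by omega)]
        push_cast
        omega
    have e2 : ((∑ x, R2.dev G d x : ℕ) : ℤ) ≤ ((C * n : ℕ) : ℤ) := by
      push_cast
      rw [Finset.sum_congr rfl fun x _ => e1 x]
      exact hdev
    have e3 : ∑ x, R2.dev G d x ≤ C * n := by exact_mod_cast e2
    calc ∑ x, R2.dev G d x ≤ C * n := e3
      _ ≤ C * (K * d) := Nat.mul_le_mul_left C hn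
      _ = _ := by ring
  have hcardV : Fintype.card (Fin n) ≤ K * d := by simpa using hn
  set Sf : Finset (Fin n) := Finset.univ.filter S with hSf
  set O : Finset (Fin n) := Finset.univ.filter (OLd G S) with hO
  let Cc : Fin n → Finset (Fin n) := fun v => Finset.univ.filter (Cn G S v)
  have hmS : ∀ {x}, x ∈ Sf ↔ S x := by intro x; simp [hSf]
  have hmO : ∀ {x}, x ∈ O ↔ OLd G S x := by intro x; simp [hO]
  have hmC : ∀ {v x}, x ∈ Cc v ↔ Cn G S v x := by intro v x; simp [Cc]
  have hcS : Nat.card {v // S v} = Sf.card := by
    rw [Nat.card_eq_fintype_card, Fintype.card_subtype]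
  have hcO : Nat.card {v // OLd G S v} = O.card := by
    rw [Nat.card_eq_fintype_card, Fintype.card_subtype]
  have h1 := R2.many_singletons (G := G) hd hcardV hdev' (S := Sf) (O := O) Cc
    (fun v hv => hmC.2 .refl)
    (fun v hv y hy => by
      have hvS := (hmO.1 hv).1
      have hyS : ¬ S y := Cn.not_mem hvS (hmC.1 hy)
      refine ⟨fun h => hyS (hmS.1 h), fun z hz => ?_⟩
      rw [Finset.mem_union]
      by_cases hzS : S z
      · exact Or.inl (hmS.2 hzS)
      · exact Or.inr (hmC.2 (ReflTransGen.tail (hmC.1 hy) ⟨R2.mem_N.1 hz, hyS, hzS⟩)))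
    (fun v hv w hw hvw => by
      rw [Finset.disjoint_left]
      intro x hx hx'
      have e1 : Cn G S v w := (hmC.1 hx).trans (hmC.1 hx').symm
      exact hvw (le_antisymm ((hmO.1 hv).2.1 _ e1) ((hmO.1 hw).2.1 _ e1.symm)))
    (by omega)
  have hbig' : 4 * (24 * K + 28 * (C * K)) ≤ d := by
    by_contra hc
    push Not at hc
    have : K * d ≤ K * (4 * (24 * K + 28 * (C * K))) := Nat.mul_le_mul_left K hc.le
    omega
  obtain ⟨R, Y, hR, hY, hSRY⟩ := R2.violator_form (G := G) hd hcardV hdev' (S := Sf) h1 hbig'
  have hn1 : 1 < n := by omega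
  obtain ⟨p, hp⟩ := exists_tuple hn1 R hR
  obtain ⟨q, hq⟩ := exists_tuple hn1 Y hY
  have hSeq : SSP G (24 * K + 26 * (C * K)) p q = S := by
    funext x
    apply propext
    unfold SSP
    rw [sp_eq G _ _ R hp x, hq, ← hmS, hSRY, Finset.mem_union]
  refine hno ⟨p, q, ?_⟩
  rw [hSeq]
  exact hS

/-- **Theorem.** -/
theorem dense_nearly_regular (K C : ℕ) : ∃ L : ∀ n : ℕ, SimpleGraph (Fin n) → Prop, InNC L ∧
    (∀ (n : ℕ) (G : SimpleGraph (Fin n)), HasPM G → L n G) ∧
    ∀ (n : ℕ) (G : SimpleGraph (Fin n)),
      (∃ d : ℕ, n ≤ K * d ∧ ∑ v, |(dg G v : ℤ) - d| ≤ C * n) → (HasPM G ↔ L n G) :=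
  ⟨Lang2 K C, inNC_lang2 K C, lang2_of_hasPM K C, fun n G ⟨d, h1, h2⟩ =>
    ⟨lang2_of_hasPM K C n G, hasPM_of_lang2 K C n d G h1 h2⟩⟩

end Pool.Agent.PMNC
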