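import Mathlib
import Pool.Agent.Lib.MP_0087d5_lc.R2

set_option autoImplicit false
set_option linter.all false

/-!
# Perfect matchings in graphs slightly below the Ore threshold
-/

namespace Pool.Agent.PMNC

namespace R2
open Finset
variable {V : Type*} [Fintype V] [DecidableEq V] {G : SimpleGraph V} [DecidableRel G.Adj]

theorem exists_four {O : Finset V} (h : 4 ≤ O.card) : ∃ a ∈ O, ∃ b ∈ O, ∃ c ∈ O, ∃ d ∈ O,
    a ≠ b ∧ c ≠ d ∧ Disjoint ({a, b} : Finset V) {c, d} := by
  obtain ⟨P, hP, hcard⟩ := Finset.exists_subset_card_eq (show 2 ≤ O.card by omega)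
  have h2 : 2 ≤ (O \ P).card := by
    rw [Finset.card_sdiff_of_subset hP]
    omega
  obtain ⟨Q, hQ, hcardQ⟩ := Finset.exists_subset_card_eq h2
  obtain ⟨a, b, hab, rfl⟩ := Finset.card_eq_two.1 hcard
  obtain ⟨c, d, hcd, rfl⟩ := Finset.card_eq_two.1 hcardQ
  refine ⟨a, hP (by simp), b, hP (by simp), c, (Finset.mem_sdiff.1 (hQ (by simp))).1, d,
    (Finset.mem_sdiff.1 (hQ (by simp))).1, hab, hcd, ?_⟩
  rw [Finset.disjoint_right]
  intro x hx
  exact (Finset.mem_sdiff.1 (hQ hx)).2

theorem ore_violator {c : ℕ} (hore : ∀ u v, u ≠ v → ¬ G.Adj u v →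
      Fintype.card V ≤ (N G u).card + (N G v).card + c)
    {S O : Finset V} (C : V → Finset V)
    (hC1 : ∀ v ∈ O, v ∈ C v) (hC2 : ∀ v ∈ O, ∀ y ∈ C v, y ∉ S ∧ N G y ⊆ S ∪ C v)
    (hC3 : ∀ v ∈ O, ∀ w ∈ O, v ≠ w → Disjoint (C v) (C w)) (hodd : ∀ v ∈ O, Odd (C v).card)
    (hO : S.card + 1 ≤ O.card) (hn : 4 * c ≤ Fintype.card V) :
    S.card ≤ 2 ∨ ∃ t, N G t ⊆ S ∧ (S \ N G t).card ≤ c := by
  classical
  have hcpos : ∀ v ∈ O, 1 ≤ (C v).card := fun v hv => Finset.card_pos.2 ⟨v, hC1 v hv⟩
  have hdeg : ∀ v ∈ O, (N G v).card + 1 ≤ S.card + (C v).card := by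
    intro v hv
    have h1 : N G v ⊆ S ∪ (C v).erase v := by
      intro z hz
      rw [Finset.mem_union, Finset.mem_erase]
      rcases Finset.mem_union.1 ((hC2 v hv v (hC1 v hv)).2 hz) with h | h
      · exact Or.inl h
      · exact Or.inr ⟨(mem_N.1 hz).ne', h⟩
    have h2 := (Finset.card_le_card h1).trans (Finset.card_union_le _ _)
    rw [Finset.card_erase_of_mem (hC1 v hv)] at h2
    have := hcpos v hv
    omega
  have hpair : ∀ v ∈ O, ∀ w ∈ O, v ≠ w →
      Fintype.card V + 2 ≤ (C v).card + (C w).card + 2 * S.card + c := by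
    intro v hv w hw hvw
    have h1 : ¬ G.Adj v w := by
      intro h
      rcases Finset.mem_union.1 ((hC2 v hv v (hC1 v hv)).2 (mem_N.2 h)) with h2 | h2
      · exact (hC2 w hw w (hC1 w hw)).1 h2
      · exact Finset.disjoint_left.1 (hC3 v hv w hw hvw) h2 (hC1 w hw)
    have h2 := hore v w hvw h1
    have h3 := hdeg v hv
    have h4 := hdeg w hw
    omega
  have htot : ∑ v ∈ O, (C v).card + S.card ≤ Fintype.card V := by
    rw [← Finset.card_biUnion hC3, ← Finset.card_union_of_disjoint]
    · exact Finset.card_le_univ _
    · rw [Finset.disjoint_left]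
      intro y hy
      obtain ⟨v, hv, hyv⟩ := Finset.mem_biUnion.1 hy
      exact (hC2 v hv y hyv).1
  by_cases h3 : O.card ≤ 3
  · left; omega
  right
  obtain ⟨a, ha, b, hb, x, hx, y, hy, hab, hxy, hdisj⟩ := exists_four (O := O) (by omega)
  have hs1 := hpair a ha b hb hab
  have hs2 := hpair x hx y hy hxy
  have hs3 : (C a).card + (C b).card + (C x).card + (C y).card + (O.card - 4) ≤
      ∑ v ∈ O, (C v).card := by
    have e1 : ({a, b} ∪ {x, y} : Finset V) ⊆ O := by
      intro z hz
      simp only [Finset.mem_union, Finset.mem_insert, Finset.mem_singleton] at hz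
      rcases hz with (rfl | rfl) | (rfl | rfl) <;> assumption
    rw [← Finset.sum_sdiff e1, Finset.sum_union hdisj, Finset.sum_pair hab, Finset.sum_pair hxy]
    have e2 : (O \ ({a, b} ∪ {x, y})).card ≤ ∑ v ∈ O \ ({a, b} ∪ {x, y}), (C v).card := by
      rw [Finset.card_eq_sum_ones]
      exact Finset.sum_le_sum fun v hv => hcpos v (Finset.mem_sdiff.1 hv).1
    have e3 : (O \ ({a, b} ∪ {x, y})).card = O.card - 4 := by
      rw [Finset.card_sdiff_of_subset e1, Finset.card_union_of_disjoint hdisj,
        Finset.card_pair hab, Finset.card_pair hxy]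
    omega
  have hkey : Fintype.card V + 1 ≤ 2 * S.card + 2 * c := by omega
  -- singletons
  set O1 := O.filter fun v => (C v).card = 1 with hO1
  set O2 := O.filter fun v => ¬ (C v).card = 1 with hO2
  have hsplit : O.card = O1.card + O2.card := (Finset.card_filter_add_card_filter_not _).symm
  have hsum : O1.card + 3 * O2.card ≤ ∑ v ∈ O, (C v).card := by
    rw [← Finset.sum_filter_add_sum_filter_not O (fun v => (C v).card = 1)]
    apply Nat.add_le_add
    · rw [Finset.card_eq_sum_ones]
      exact Finset.sum_le_sum fun v hv => hcpos v (Finset.mem_filter.1 hv).1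
    · rw [mul_comm, ← smul_eq_mul]
      apply Finset.card_nsmul_le_sum
      intro v hv
      rw [Finset.mem_filter] at hv
      obtain ⟨t, ht⟩ := hodd v hv.1
      have := hv.2
      omega
  have h1 : 2 ≤ O1.card := by omega
  obtain ⟨t, ht, t', ht', htt⟩ := Finset.one_lt_card.1 (show 1 < O1.card by omega)
  have hNS : ∀ t ∈ O1, N G t ⊆ S := by
    intro t ht
    rw [hO1, Finset.mem_filter] at ht
    have h7 := hC2 t ht.1 t (hC1 t ht.1)
    intro z hz
    rcases Finset.mem_union.1 (h7.2 hz) with h | h
    · exact h
    · exfalso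
      obtain ⟨w, hw⟩ := Finset.card_eq_one.1 ht.2
      have e1 := hC1 t ht.1
      rw [hw, Finset.mem_singleton] at e1 h
      exact (mem_N.1 hz).ne (e1.trans h.symm)
  refine ⟨t, hNS t ht, ?_⟩
  have hnadj : ¬ G.Adj t t' := by
    intro h
    have h2 := hNS t ht (mem_N.2 h)
    exact (hC2 t' (Finset.mem_filter.1 ht').1 t' (hC1 t' (Finset.mem_filter.1 ht').1)).1 h2
  have h4 := hore t t' htt hnadj
  have h5 : (N G t').card ≤ S.card := Finset.card_le_card (hNS t' ht')
  rw [Finset.card_sdiff_of_subset (hNS t ht)]
  omega

end R2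

/-- the candidate for a violator -/
def SO {n k : ℕ} (G : SimpleGraph (Fin n)) (p : Fin 1 → Fin n × Fin n)
    (q : Fin k → Fin n × Fin n) (x : Fin n) : Prop := UnP G (RS p) x ∨ RS q x

/-- the language -/
def Lang4 (c : ℕ) (n : ℕ) (G : SimpleGraph (Fin n)) : Prop :=
  (n ≤ 1 + 4 * c ∧ HasPM G) ∨
    (¬ n ≤ 1 + 4 * c ∧ ¬ ∃ (p : Fin 1 → Fin n × Fin n) (q : Fin (c + 2) → Fin n × Fin n),
        Nat.card {v // SO G p q v} < Nat.card {v // OLd G (SO G p q) v})

section def_
variable {E : ℕ → Type} [Env E] {f g : ∀ n : ℕ, E n → Fin n}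

theorem DefP.so {k : ℕ} {p : ∀ n : ℕ, E n → Fin 1 → Fin n × Fin n}
    (hp : Tm (F := fun n => Fin 1 → Fin n × Fin n) p)
    {q : ∀ n : ℕ, E n → Fin k → Fin n × Fin n}
    (hq : Tm (F := fun n => Fin k → Fin n × Fin n) q)
    (hf : Tm (F := fun n => Fin n) f) :
    DefP (fun n G X x => SO G (p n x) (q n x) (f n x)) := by
  unfold SO
  refine DefP.or (DefP.unP (R := fun n G X x => RS (p n x)) ?_ hf) (DefP.rs hq hf)
  exact DefP.rs (E := fun n => E n × Fin n) (p := fun n y => p n y.1) (f := fun n y => y.2)
    (hp.comp (Tm.fst Tm.id)) (Tm.snd Tm.id)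

end def_

theorem inNC_lang4_aux (k : ℕ) : DefP (E := fun n => Unit) (fun n G X _ =>
    ∃ (p : Fin 1 → Fin n × Fin n) (q : Fin k → Fin n × Fin n),
        Nat.card {v // SO G p q v} < Nat.card {v // OLd G (SO G p q) v}) := by
  refine DefP.ex (F := fun n => Fin 1 → Fin n × Fin n)
      (DefP.ex (F := fun n => Fin k → Fin n × Fin n) ?_)
  have h1 : DefP (E := fun n => ((Unit × (Fin 1 → Fin n × Fin n)) ×
      (Fin k → Fin n × Fin n)) × Fin n)
      (fun n G X y => SO G y.1.1.2 y.1.2 y.2) :=
    DefP.so (E := fun n => ((Unit × (Fin 1 → Fin n × Fin n)) ×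
      (Fin k → Fin n × Fin n)) × Fin n)
      (p := fun n y => y.1.1.2) (q := fun n y => y.1.2) (f := fun n y => y.2)
      (by (repeat' (first
          | apply DefP.tpP | apply DefP.unP | apply DefP.cho | apply DefP.halfSet
          | apply DefP.pr | apply DefP.oddRk | apply DefP.side | apply DefP.cn
          | apply DefP.oddCard | apply DefP.cardEq | apply DefP.cardLt | apply DefP.cardLe
          | apply DefP.lst | apply DefP.fst | apply DefP.nxt | apply DefP.keyLe
          | apply DefP.keyLt | apply DefP.rtc | (apply DefP.app4; assumption)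
          | (apply DefP.app3'; assumption) | (apply DefP.app3; assumption)
          | (apply DefP.app2; assumption) | (apply DefP.comp; assumption) | exact Tm.id
          | exact Tm.unit | apply Tm.fst | apply Tm.snd | apply Tm.app | exact DefP.const _
          | apply DefP.and | apply DefP.not | apply DefP.or | apply DefP.iff | apply DefP.adj
          | apply DefP.le | apply DefP.lt | apply DefP.eqFin | apply DefP.eq | apply DefP.rv
          | apply DefP.imp | apply DefP.allFin | apply DefP.exFin | apply DefP.all
          | apply DefP.ex | assumption | (apply Tm.comp; assumption) | apply Tm.pair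
          | apply Tm.lam))) (by (repeat' (first
          | apply DefP.tpP | apply DefP.unP | apply DefP.cho | apply DefP.halfSet
          | apply DefP.pr | apply DefP.oddRk | apply DefP.side | apply DefP.cn
          | apply DefP.oddCard | apply DefP.cardEq | apply DefP.cardLt | apply DefP.cardLe
          | apply DefP.lst | apply DefP.fst | apply DefP.nxt | apply DefP.keyLe
          | apply DefP.keyLt | apply DefP.rtc | (apply DefP.app4; assumption)
          | (apply DefP.app3'; assumption) | (apply DefP.app3; assumption)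
          | (apply DefP.app2; assumption) | (apply DefP.comp; assumption) | exact Tm.id
          | exact Tm.unit | apply Tm.fst | apply Tm.snd | apply Tm.app | exact DefP.const _
          | apply DefP.and | apply DefP.not | apply DefP.or | apply DefP.iff | apply DefP.adj
          | apply DefP.le | apply DefP.lt | apply DefP.eqFin | apply DefP.eq | apply DefP.rv
          | apply DefP.imp | apply DefP.allFin | apply DefP.exFin | apply DefP.all
          | apply DefP.ex | assumption | (apply Tm.comp; assumption) | apply Tm.pair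
          | apply Tm.lam))) (by (repeat' (first
          | apply DefP.tpP | apply DefP.unP | apply DefP.cho | apply DefP.halfSet
          | apply DefP.pr | apply DefP.oddRk | apply DefP.side | apply DefP.cn
          | apply DefP.oddCard | apply DefP.cardEq | apply DefP.cardLt | apply DefP.cardLe
          | apply DefP.lst | apply DefP.fst | apply DefP.nxt | apply DefP.keyLe
          | apply DefP.keyLt | apply DefP.rtc | (apply DefP.app4; assumption)
          | (apply DefP.app3'; assumption) | (apply DefP.app3; assumption)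
          | (apply DefP.app2; assumption) | (apply DefP.comp; assumption) | exact Tm.id
          | exact Tm.unit | apply Tm.fst | apply Tm.snd | apply Tm.app | exact DefP.const _
          | apply DefP.and | apply DefP.not | apply DefP.or | apply DefP.iff | apply DefP.adj
          | apply DefP.le | apply DefP.lt | apply DefP.eqFin | apply DefP.eq | apply DefP.rv
          | apply DefP.imp | apply DefP.allFin | apply DefP.exFin | apply DefP.all
          | apply DefP.ex | assumption | (apply Tm.comp; assumption) | apply Tm.pair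
          | apply Tm.lam)))
  have h2 : DefP (E := fun n => ((Unit × (Fin 1 → Fin n × Fin n)) ×
      (Fin k → Fin n × Fin n)) × Fin n)
      (fun n G X y => OLd G (SO G y.1.1.2 y.1.2) y.2) := by
    refine DefP.old (E := fun n => ((Unit × (Fin 1 → Fin n × Fin n)) ×
      (Fin k → Fin n × Fin n)) × Fin n)
      (S := fun n G X y => SO G y.1.1.2 y.1.2) (f := fun n y => y.2) ?_ (by (repeat' (first
          | apply DefP.tpP | apply DefP.unP | apply DefP.cho | apply DefP.halfSet
          | apply DefP.pr | apply DefP.oddRk | apply DefP.side | apply DefP.cn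
          | apply DefP.oddCard | apply DefP.cardEq | apply DefP.cardLt | apply DefP.cardLe
          | apply DefP.lst | apply DefP.fst | apply DefP.nxt | apply DefP.keyLe
          | apply DefP.keyLt | apply DefP.rtc | (apply DefP.app4; assumption)
          | (apply DefP.app3'; assumption) | (apply DefP.app3; assumption)
          | (apply DefP.app2; assumption) | (apply DefP.comp; assumption) | exact Tm.id
          | exact Tm.unit | apply Tm.fst | apply Tm.snd | apply Tm.app | exact DefP.const _
          | apply DefP.and | apply DefP.not | apply DefP.or | apply DefP.iff | apply DefP.adj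
          | apply DefP.le | apply DefP.lt | apply DefP.eqFin | apply DefP.eq | apply DefP.rv
          | apply DefP.imp | apply DefP.allFin | apply DefP.exFin | apply DefP.all
          | apply DefP.ex | assumption | (apply Tm.comp; assumption) | apply Tm.pair
          | apply Tm.lam)))
    exact DefP.so (E := fun n => (((Unit × (Fin 1 → Fin n × Fin n)) ×
      (Fin k → Fin n × Fin n)) × Fin n) × Fin n)
      (p := fun n y => y.1.1.1.2) (q := fun n y => y.1.1.2) (f := fun n y => y.2)
      (by (repeat' (first
          | apply DefP.tpP | apply DefP.unP | apply DefP.cho | apply DefP.halfSet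
          | apply DefP.pr | apply DefP.oddRk | apply DefP.side | apply DefP.cn
          | apply DefP.oddCard | apply DefP.cardEq | apply DefP.cardLt | apply DefP.cardLe
          | apply DefP.lst | apply DefP.fst | apply DefP.nxt | apply DefP.keyLe
          | apply DefP.keyLt | apply DefP.rtc | (apply DefP.app4; assumption)
          | (apply DefP.app3'; assumption) | (apply DefP.app3; assumption)
          | (apply DefP.app2; assumption) | (apply DefP.comp; assumption) | exact Tm.id
          | exact Tm.unit | apply Tm.fst | apply Tm.snd | apply Tm.app | exact DefP.const _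
          | apply DefP.and | apply DefP.not | apply DefP.or | apply DefP.iff | apply DefP.adj
          | apply DefP.le | apply DefP.lt | apply DefP.eqFin | apply DefP.eq | apply DefP.rv
          | apply DefP.imp | apply DefP.allFin | apply DefP.exFin | apply DefP.all
          | apply DefP.ex | assumption | (apply Tm.comp; assumption) | apply Tm.pair
          | apply Tm.lam))) (by (repeat' (first
          | apply DefP.tpP | apply DefP.unP | apply DefP.cho | apply DefP.halfSet
          | apply DefP.pr | apply DefP.oddRk | apply DefP.side | apply DefP.cn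
          | apply DefP.oddCard | apply DefP.cardEq | apply DefP.cardLt | apply DefP.cardLe
          | apply DefP.lst | apply DefP.fst | apply DefP.nxt | apply DefP.keyLe
          | apply DefP.keyLt | apply DefP.rtc | (apply DefP.app4; assumption)
          | (apply DefP.app3'; assumption) | (apply DefP.app3; assumption)
          | (apply DefP.app2; assumption) | (apply DefP.comp; assumption) | exact Tm.id
          | exact Tm.unit | apply Tm.fst | apply Tm.snd | apply Tm.app | exact DefP.const _
          | apply DefP.and | apply DefP.not | apply DefP.or | apply DefP.iff | apply DefP.adj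
          | apply DefP.le | apply DefP.lt | apply DefP.eqFin | apply DefP.eq | apply DefP.rv
          | apply DefP.imp | apply DefP.allFin | apply DefP.exFin | apply DefP.all
          | apply DefP.ex | assumption | (apply Tm.comp; assumption) | apply Tm.pair
          | apply Tm.lam))) (by (repeat' (first
          | apply DefP.tpP | apply DefP.unP | apply DefP.cho | apply DefP.halfSet
          | apply DefP.pr | apply DefP.oddRk | apply DefP.side | apply DefP.cn
          | apply DefP.oddCard | apply DefP.cardEq | apply DefP.cardLt | apply DefP.cardLe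
          | apply DefP.lst | apply DefP.fst | apply DefP.nxt | apply DefP.keyLe
          | apply DefP.keyLt | apply DefP.rtc | (apply DefP.app4; assumption)
          | (apply DefP.app3'; assumption) | (apply DefP.app3; assumption)
          | (apply DefP.app2; assumption) | (apply DefP.comp; assumption) | exact Tm.id
          | exact Tm.unit | apply Tm.fst | apply Tm.snd | apply Tm.app | exact DefP.const _
          | apply DefP.and | apply DefP.not | apply DefP.or | apply DefP.iff | apply DefP.adj
          | apply DefP.le | apply DefP.lt | apply DefP.eqFin | apply DefP.eq | apply DefP.rv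
          | apply DefP.imp | apply DefP.allFin | apply DefP.exFin | apply DefP.all
          | apply DefP.ex | assumption | (apply Tm.comp; assumption) | apply Tm.pair
          | apply Tm.lam)))
  exact DefP.cardLt (E := fun n => (Unit × (Fin 1 → Fin n × Fin n)) ×
      (Fin k → Fin n × Fin n)) (S := fun n => Fin n) (T := fun n => Fin n) h1 h2

theorem inNC_lang4 (c : ℕ) : InNC (Lang4 c) := by
  apply inNC_of_defP
  unfold Lang4
  exact DefP.or (defP_small _ (fun n G => HasPM G)) (DefP.and (defP_card_le _).not
    (DefP.not (inNC_lang4_aux (c + 2))))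

theorem lang4_of_hasPM (c n : ℕ) (G : SimpleGraph (Fin n)) (h : HasPM G) : Lang4 c n G := by
  by_cases hn : n ≤ 1 + 4 * c
  · exact Or.inl ⟨hn, h⟩
  · refine Or.inr ⟨hn, ?_⟩
    rintro ⟨p, q, hpq⟩
    have := (tutte_lead G).1 h (SO G p q)
    omega

theorem hasPM_of_lang4 (c n : ℕ) (G : SimpleGraph (Fin n))
    (hore : ∀ u v, u ≠ v → ¬ G.Adj u v → n ≤ dg G u + dg G v + c) (h : Lang4 c n G) : HasPM G := by
  classical
  rcases h with h | ⟨hbig, hno⟩
  · exact h.2
  by_contra hPM
  rw [tutte_lead] at hPM
  push Not at hPM
  obtain ⟨S, hS⟩ := hPM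
  set Sf : Finset (Fin n) := Finset.univ.filter S with hSf
  set O : Finset (Fin n) := Finset.univ.filter (OLd G S) with hO
  let Cc : Fin n → Finset (Fin n) := fun v => Finset.univ.filter (Cn G S v)
  have hmS : ∀ {x}, x ∈ Sf ↔ S x := by intro x; simp [hSf]
  have hmO : ∀ {x}, x ∈ O ↔ OLd G S x := by intro x; simp [hO]
  have hmC : ∀ {v x}, x ∈ Cc v ↔ Cn G S v x := by intro v x; simp [Cc]
  have hcS : Nat.card {v // S v} = Sf.card := by
    rw [Nat.card_eq_fintype_card, Fintype.card_subtype]
  have hcO : Nat.card {v // OLd G S v} = O.card := by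
    rw [Nat.card_eq_fintype_card, Fintype.card_subtype]
  have h1 := R2.ore_violator (G := G) (c := c) (fun u v huv hadj => by
      rw [← dg_eq, ← dg_eq]
      simpa using hore u v huv hadj) (S := Sf) (O := O) Cc
    (fun v hv => hmC.2 .refl)
    (fun v hv y hy => by
      have hvS := (hmO.1 hv).1
      have hyS : ¬ S y := Cn.not_mem hvS (hmC.1 hy)
      refine ⟨fun h => hyS (hmS.1 h), fun z hz => ?_⟩
      rw [Finset.mem_union]
      by_cases hzS : S z
      · exact Or.inl (hmS.2 hzS)
      · exact Or.inr (hmC.2 (Relation.ReflTransGen.tail (hmC.1 hy) ⟨R2.mem_N.1 hz, hyS, hzS⟩)))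
    (fun v hv w hw hvw => by
      rw [Finset.disjoint_left]
      intro x hx hx'
      have e1 : Cn G S v w := (hmC.1 hx).trans (hmC.1 hx').symm
      exact hvw (le_antisymm ((hmO.1 hv).2.1 _ e1) ((hmO.1 hw).2.1 _ e1.symm)))
    (fun v hv => by
      have h2 := (hmO.1 hv).2.2
      rw [Nat.card_eq_fintype_card, Fintype.card_subtype] at h2
      exact h2)
    (by omega) (by simp; omega)
  have hn1 : 1 < n := by omega
  have hfin : ∃ (p : Fin 1 → Fin n × Fin n) (q : Fin (c + 2) → Fin n × Fin n), SO G p q = S := by
    rcases h1 with h1 | ⟨t, ht, hcard⟩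
    · obtain ⟨p, hp⟩ := exists_tuple hn1 (k := 1) ∅ (by simp)
      obtain ⟨q, hq⟩ := exists_tuple hn1 (k := c + 2) Sf (by omega)
      refine ⟨p, q, ?_⟩
      funext x
      apply propext
      unfold SO UnP
      constructor
      · rintro (⟨t, ht, _⟩ | h)
        · rw [hp] at ht
          simp at ht
        · exact hmS.1 ((hq x).1 h)
      · intro h
        exact Or.inr ((hq x).2 (hmS.2 h))
    · obtain ⟨p, hp⟩ := exists_tuple hn1 (k := 1) {t} (by simp)
      obtain ⟨q, hq⟩ := exists_tuple hn1 (k := c + 2) (Sf \ R2.N G t) (by omega)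
      refine ⟨p, q, ?_⟩
      funext x
      apply propext
      unfold SO UnP
      constructor
      · rintro (⟨t', ht', hadj⟩ | h)
        · rw [hp, Finset.mem_singleton] at ht'
          subst ht'
          exact hmS.1 (ht (R2.mem_N.2 hadj))
        · exact hmS.1 (Finset.mem_sdiff.1 ((hq x).1 h)).1
      · intro h
        by_cases hx : G.Adj t x
        · exact Or.inl ⟨t, (hp t).2 (by simp), hx⟩
        · exact Or.inr ((hq x).2 (Finset.mem_sdiff.2 ⟨hmS.2 h, fun h => hx (R2.mem_N.1 h)⟩))
  obtain ⟨p, q, hpq⟩ := hfin
  refine hno ⟨p, q, ?_⟩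
  rw [hpq]
  exact hS

/-- **Theorem.** -/
theorem below_ore (c : ℕ) : ∃ L : ∀ n : ℕ, SimpleGraph (Fin n) → Prop, InNC L ∧
    (∀ (n : ℕ) (G : SimpleGraph (Fin n)), HasPM G → L n G) ∧
    ∀ (n : ℕ) (G : SimpleGraph (Fin n)),
      (∀ u v, u ≠ v → ¬ G.Adj u v → n ≤ dg G u + dg G v + c) → (HasPM G ↔ L n G) :=
  ⟨Lang4 c, inNC_lang4 c, lang4_of_hasPM c, fun n G h =>
    ⟨lang4_of_hasPM c n G, hasPM_of_lang4 c n G h⟩⟩

end Pool.Agent.PMNC
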