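import Mathlib
import Pool.Agent.Lib.MP_0087d5_lc.Pow
import Pool.Agent.Lib.MP_0087d5_lc.Frac

set_option autoImplicit false
set_option linter.all false

/-!
# Padding a graph to a dense nearly regular graph
-/

namespace Pool.Agent.PMNC

/-- perfect matching as an involution -/
def HasPM' {W : Type*} (G : SimpleGraph W) : Prop :=
  ∃ f : W → W, (∀ v, f (f v) = v) ∧ ∀ v, G.Adj v (f v)

theorem hasPM_iff' {n : ℕ} {G : SimpleGraph (Fin n)} : HasPM G ↔ HasPM' G := hasPM_iff

theorem HasPM'.iso {W W' : Type*} {G : SimpleGraph W} {G' : SimpleGraph W'} (e : G ≃g G')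
    (h : HasPM' G) : HasPM' G' := by
  obtain ⟨f, hf, ha⟩ := h
  refine ⟨fun v => e (f (e.symm v)), fun v => by simp [hf], fun v => ?_⟩
  have := (SimpleGraph.Iso.map_adj_iff e).2 (ha (e.symm v))
  simpa using this

theorem hasPM'_iso {W W' : Type*} {G : SimpleGraph W} {G' : SimpleGraph W'} (e : G ≃g G') :
    HasPM' G ↔ HasPM' G' := ⟨fun h => h.iso e, fun h => h.iso e.symm⟩

theorem dg_iso {W W' : Type*} {G : SimpleGraph W} {G' : SimpleGraph W'} (e : G ≃g G') (v : W) :
    dg G' (e v) = dg G v := by
  unfold dg
  exact (Nat.card_congr (Equiv.subtypeEquiv e.toEquiv fun w =>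
    (SimpleGraph.Iso.map_adj_iff e).symm)).symm

/-! ### the padded graph -/

/-- add an independent set `P × {false}` joined to everything outside, and an independent set
`P × {true}` joined to `P × {false}` only -/
def padG {V : Type*} (P : Type*) (H : SimpleGraph V) : SimpleGraph (V ⊕ (P × Bool)) where
  Adj
    | .inl u, .inl v => H.Adj u v
    | .inl _, .inr q => q.2 = false
    | .inr q, .inl _ => q.2 = false
    | .inr q, .inr q' => q.2 ≠ q'.2
  symm := ⟨by
    rintro (u | q) (v | q') h
    · exact SimpleGraph.Adj.symm h
    · exact h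
    · exact h
    · exact fun e => h e.symm⟩
  loopless := ⟨by
    rintro (u | q) h
    · exact H.loopless.irrefl u h
    · exact h rfl⟩

theorem pad_pm {V P : Type*} [Finite P] (H : SimpleGraph V) : HasPM' (padG P H) ↔ HasPM' H := by
  constructor
  · rintro ⟨f, hf, ha⟩
    -- `P × {true}` is matched into `P × {false}`
    have h1 : ∀ p : P, ∃ p' : P, f (.inr (p, true)) = .inr (p', false) := by
      intro p
      have h := ha (.inr (p, true))
      rcases hx : f (.inr (p, true)) with v | ⟨p', b⟩
      · rw [hx] at h
        exact absurd h (by simp [padG])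
      · rw [hx] at h
        cases b with
        | false => exact ⟨p', rfl⟩
        | true => exact absurd h (by simp [padG])
    choose g hg using h1
    have hinj : Function.Injective g := by
      intro p q hpq
      have h2 := hg p
      rw [hpq, ← hg q] at h2
      have h3 := congrArg f h2
      rw [hf, hf] at h3
      simpa using h3
    have hsurj := Finite.injective_iff_surjective.1 hinj
    have h2 : ∀ v : V, ∃ w : V, f (.inl v) = .inl w := by
      intro v
      rcases hx : f (.inl v) with w | ⟨p', b⟩
      · exact ⟨w, rfl⟩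
      · exfalso
        have h := ha (.inl v)
        rw [hx] at h
        have hb : b = false := h
        subst hb
        obtain ⟨p, hp⟩ := hsurj p'
        have h3 := hg p
        rw [hp, ← hx] at h3
        have h4 := congrArg f h3
        rw [hf, hf] at h4
        simp at h4
    choose k hk using h2
    refine ⟨k, fun v => ?_, fun v => ?_⟩
    · have h3 := hf (.inl v)
      rw [hk, hk] at h3
      simpa using h3
    · have h3 := ha (.inl v)
      rw [hk] at h3
      exact h3
  · rintro ⟨f, hf, ha⟩
    refine ⟨fun x => match x with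
      | .inl v => .inl (f v)
      | .inr (p, b) => .inr (p, !b), ?_, ?_⟩
    · rintro (v | ⟨p, b⟩)
      · simp [hf]
      · simp
    · rintro (v | ⟨p, b⟩)
      · exact ha v
      · change b ≠ !b
        cases b <;> simp

theorem card_sum_subtype {V W : Type*} [Finite V] [Finite W] (A : V ⊕ W → Prop) :
    Nat.card {x // A x} = Nat.card {v // A (.inl v)} + Nat.card {w // A (.inr w)} := by
  rw [← Nat.card_sum]
  refine Nat.card_congr
    { toFun := fun x => match x with
        | ⟨.inl v, h⟩ => .inl ⟨v, h⟩
        | ⟨.inr w, h⟩ => .inr ⟨w, h⟩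
      invFun := fun y => match y with
        | .inl v => ⟨.inl v.1, v.2⟩
        | .inr w => ⟨.inr w.1, w.2⟩
      left_inv := ?_
      right_inv := ?_ }
  · rintro ⟨v | w, h⟩ <;> rfl
  · rintro (v | w) <;> rfl

theorem card_bool {P : Type*} [Finite P] (b : Bool) (q : Prop) [Decidable q] :
    Nat.card {w : P × Bool // w.2 = b} = Nat.card P := by
  refine Nat.card_congr
    { toFun := fun w => w.1.1
      invFun := fun p => ⟨(p, b), rfl⟩
      left_inv := ?_
      right_inv := fun p => rfl }
  rintro ⟨⟨p, c⟩, h⟩
  simp only at h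
  subst h
  rfl

theorem pad_dg {V P : Type*} [Finite V] [Finite P] (H : SimpleGraph V) (x : V ⊕ (P × Bool)) :
    Nat.card P ≤ dg (padG P H) x ∧ dg (padG P H) x ≤ Nat.card P + Nat.card V := by
  unfold dg
  rw [card_sum_subtype]
  rcases x with u | ⟨p, b⟩
  · have h1 : Nat.card {w : P × Bool // (padG P H).Adj (.inl u) (.inr w)} = Nat.card P :=
      card_bool false True
    have h2 : Nat.card {v : V // (padG P H).Adj (.inl u) (.inl v)} ≤ Nat.card V :=
      Nat.card_le_card_of_injective (fun v => v.1) Subtype.val_injective
    omega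
  · have h1 : Nat.card {w : P × Bool // (padG P H).Adj (.inr (p, b)) (.inr w)} = Nat.card P := by
      rw [← card_bool (P := P) (!b) True]
      apply Nat.card_congr
      apply Equiv.subtypeEquivRight
      rintro ⟨q, c⟩
      change b ≠ c ↔ c = !b
      cases b <;> cases c <;> simp
    have h2 : Nat.card {v : V // (padG P H).Adj (.inr (p, b)) (.inl v)} ≤ Nat.card V :=
      Nat.card_le_card_of_injective (fun v => v.1) Subtype.val_injective
    omega

/-! ### bipartite double cover -/

/-- the bipartite double cover -/
def dbl {W : Type*} (G : SimpleGraph W) : SimpleGraph (W × Bool) where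
  Adj x y := x.2 ≠ y.2 ∧ G.Adj x.1 y.1
  symm := ⟨fun x y h => ⟨h.1.symm, h.2.symm⟩⟩
  loopless := ⟨fun x h => h.1 rfl⟩

theorem dbl_colorable {W : Type*} (G : SimpleGraph W) : (dbl G).Colorable 2 :=
  ⟨SimpleGraph.Coloring.mk (fun x => if x.2 then 1 else 0) (by
    rintro ⟨x, b⟩ ⟨y, c⟩ ⟨h, _⟩
    cases b <;> cases c <;> simp_all)⟩

theorem dbl_dg {W : Type*} [Finite W] (G : SimpleGraph W) (x : W × Bool) :
    dg (dbl G) x = dg G x.1 := by
  unfold dg
  refine Nat.card_congr
    { toFun := fun y => ⟨y.1.1, y.2.2⟩
      invFun := fun y => ⟨(y.1, !x.2), by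
        refine ⟨?_, y.2⟩
        cases x.2 <;> simp⟩
      left_inv := ?_
      right_inv := fun y => rfl }
  rintro ⟨⟨y, c⟩, h1, h2⟩
  apply Subtype.ext
  change (y, !x.2) = (y, c)
  have : (!x.2) = c := by
    revert h1
    cases x.2 <;> cases c <;> simp
  rw [this]

/-- the double cover of the padded graph of a bipartite graph -/
theorem dbl_pad_pm {V P : Type*} [Finite V] [Finite P] (H : SimpleGraph V) (hH : H.Colorable 2) :
    HasPM' (dbl (padG P H)) ↔ HasPM' H := by
  constructor
  · rintro ⟨f, hf, ha⟩
    -- the permutation `π`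
    obtain ⟨π, hπ⟩ : ∃ π : (V ⊕ (P × Bool)) → (V ⊕ (P × Bool)),
        ∀ x, f (x, false) = (π x, true) := by
      refine ⟨fun x => (f (x, false)).1, fun x => ?_⟩
      have h1 := (ha (x, false)).1
      apply Prod.ext
      · rfl
      · revert h1
        cases (f (x, false)).2 <;> simp
    obtain ⟨π', hπ'⟩ : ∃ π' : (V ⊕ (P × Bool)) → (V ⊕ (P × Bool)),
        ∀ x, f (x, true) = (π' x, false) := by
      refine ⟨fun x => (f (x, true)).1, fun x => ?_⟩
      have h1 := (ha (x, true)).1
      apply Prod.ext
      · rfl
      · revert h1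
        cases (f (x, true)).2 <;> simp
    have hππ' : ∀ x, π' (π x) = x := by
      intro x
      have h1 := hf (x, false)
      rw [hπ, hπ'] at h1
      exact congrArg Prod.fst h1
    have hπ'π : ∀ x, π (π' x) = x := by
      intro x
      have h1 := hf (x, true)
      rw [hπ', hπ] at h1
      exact congrArg Prod.fst h1
    have hadj : ∀ x, (padG P H).Adj x (π x) := by
      intro x
      have h1 := (ha (x, false)).2
      rw [hπ] at h1
      exact h1
    have hadj' : ∀ x, (padG P H).Adj x (π' x) := by
      intro x
      have h1 := (ha (x, true)).2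
      rw [hπ'] at h1
      exact h1
    -- the image of `P × {true}` under `π` and `π'`
    have hB : ∀ (ρ ρ' : (V ⊕ (P × Bool)) → (V ⊕ (P × Bool))), (∀ x, ρ' (ρ x) = x) →
        (∀ x, ρ (ρ' x) = x) → (∀ x, (padG P H).Adj x (ρ x)) →
        ∀ p : P, ∃ q : P, ρ' (.inr (p, false)) = .inr (q, true) := by
      intro ρ ρ' h1 h2 h3 p
      have h4 : ∀ q : P, ∃ q' : P, ρ (.inr (q, true)) = .inr (q', false) := by
        intro q
        have h := h3 (.inr (q, true))
        rcases hx : ρ (.inr (q, true)) with v | ⟨p', b⟩
        · rw [hx] at h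
          exact absurd h (by simp [padG])
        · rw [hx] at h
          cases b with
          | false => exact ⟨p', rfl⟩
          | true => exact absurd h (by simp [padG])
      choose g hg using h4
      have hinj : Function.Injective g := by
        intro q q' hq
        have h5 := hg q
        rw [hq, ← hg q'] at h5
        have h6 := congrArg ρ' h5
        rw [h1, h1] at h6
        simpa using h6
      obtain ⟨q, hq⟩ := (Finite.injective_iff_surjective.1 hinj) p
      refine ⟨q, ?_⟩
      rw [← hq, ← hg, h1]
    have hVV : ∀ v : V, ∃ w : V, π (.inl v) = .inl w := by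
      intro v
      rcases hx : π (.inl v) with w | ⟨p, b⟩
      · exact ⟨w, rfl⟩
      · exfalso
        have h := hadj (.inl v)
        rw [hx] at h
        have hb : b = false := h
        subst hb
        obtain ⟨q, hq⟩ := hB π π' hππ' hπ'π hadj p
        rw [← hx, hππ'] at hq
        simp at hq
    choose g hg using hVV
    have hginj : Function.Injective g := by
      intro v w hvw
      have h1 := hg v
      rw [hvw, ← hg w] at h1
      have h2 := congrArg π' h1
      rw [hππ', hππ'] at h2
      simpa using h2
    have hgadj : ∀ v, H.Adj v (g v) := by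
      intro v
      have h := hadj (.inl v)
      rw [hg] at h
      exact h
    obtain ⟨C⟩ := hH
    have hC : ∀ v w, H.Adj v w → (C v = 0 ↔ ¬ C w = 0) := by
      intro v w h
      have h1 := C.valid h
      have h2 : ∀ x y : Fin 2, x ≠ y → (x = 0 ↔ ¬ y = 0) := by decide
      exact h2 _ _ h1
    -- `g` is a bijection between the two sides
    have hgsurj := Finite.injective_iff_surjective.1 hginj
    let ge : V ≃ V := Equiv.ofBijective g ⟨hginj, hgsurj⟩
    have hge : ∀ v, ge v = g v := fun v => rfl
    classical
    refine ⟨fun v => if C v = 0 then g v else ge.symm v, fun v => ?_, fun v => ?_⟩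
    · by_cases h : C v = 0
      · have h1 := (hC _ _ (hgadj v)).1 h
        simp only [h, if_true, h1, if_false]
        exact ge.symm_apply_apply v
      · have h1 : g (ge.symm v) = v := ge.apply_symm_apply v
        have h2 := hgadj (ge.symm v)
        rw [h1] at h2
        have h3 : C (ge.symm v) = 0 := (hC _ _ h2).2 h
        simp only [h, if_false, h3, if_true]
        exact h1
    · by_cases h : C v = 0
      · simp only [h, if_true]
        exact hgadj v
      · simp only [h, if_false]
        have h1 : g (ge.symm v) = v := ge.apply_symm_apply v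
        have h2 := hgadj (ge.symm v)
        rw [h1] at h2
        exact h2.symm
  · intro h
    obtain ⟨f, hf, ha⟩ := (pad_pm (P := P) H).2 h
    refine ⟨fun x => (f x.1, !x.2), fun x => ?_, fun x => ?_⟩
    · apply Prod.ext
      · exact hf x.1
      · simp
    · refine ⟨?_, ha x.1⟩
      change x.2 ≠ !x.2
      cases x.2 <;> simp

end Pool.Agent.PMNC
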