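import Mathlib
import Pool.Agent.Lib.MP_0087d5_lc.ZMain
import Pool.Agent.Lib.MP_0087d5_lc.WPr
import Pool.Agent.Lib.MP_0087d5_lc.WMain

set_option autoImplicit false
set_option linter.all false

/-!
# Graphs near to graphs with few perfect matchings have small nullity
-/

namespace Pool.Agent.PMNC

open Matrix Module Polynomial

section
variable {n : ℕ}

theorem adx_det_ne {d : ℕ} (hn : 2 ≤ n) (H : SimpleGraph (Fin n))
    (h1 : 1 ≤ Nat.card {f // IsM H.Adj f}) (h2 : Nat.card {f // IsM H.Adj f} ≤ n ^ d) :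
    ∃ m, 1 ≤ m ∧ m ≤ n ^ (2 * d + 7) ∧ (adx H (wE m) (RatFunc.X : RatFunc ℚ)).det ≠ 0 := by
  classical
  obtain ⟨m, h3, h4, h5⟩ := exists_modulus (A := H.Adj) (fun x => H.irrefl) h2
  have hb := bound (c := d) hn rfl
  refine ⟨m, by omega, ?_, ?_⟩
  · refine le_trans (h4.trans ?_) hb.le
    exact Nat.le_mul_of_pos_left _ (by omega)
  · have : Nonempty {f // IsM H.Adj f} := by
      by_contra hc
      rw [not_nonempty_iff] at hc
      rw [Nat.card_of_isEmpty] at h1
      omega
    obtain ⟨f, hf⟩ := this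
    have h6 := detW_of_unique (A := H.Adj) (w := wE m) (fun x y h => h.symm) (wE_comm m)
      (a := tw (wE m) f) ⟨f, ⟨hf, rfl⟩, fun g hg => h5 g f hg.1 hf hg.2⟩
    have h7 : (mxw H.Adj (wE m)).det ≠ 0 := by
      intro hc
      rw [hc, map_zero] at h6
      exact absurd h6 (by decide)
    let φ : ℤ[X] →+* YS := Polynomial.eval₂RingHom (Int.castRingHom YS) PowerSeries.X
    have h8 : φ.mapMatrix (adx H (wE m) (X : ℤ[X])) = mxw H.Adj (wE m) := by
      ext1 u v
      unfold adx mxw
      simp only [RingHom.mapMatrix_apply, Matrix.map_apply, Matrix.of_apply]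
      by_cases h : H.Adj u v
      · rw [if_pos h, if_pos h, map_pow]
        congr 1
        exact Polynomial.eval₂_X _ _
      · rw [if_neg h, if_neg h, map_zero]
    have h9 : (adx H (wE m) (X : ℤ[X])).det ≠ 0 := by
      intro hc
      apply h7
      rw [← h8, ← RingHom.map_det, hc, map_zero]
    have h10 : tRF.mapMatrix (adx H (wE m) (X : ℤ[X])) = adx H (wE m) (RatFunc.X : RatFunc ℚ) := by
      ext1 u v
      unfold adx
      simp only [RingHom.mapMatrix_apply, Matrix.map_apply, Matrix.of_apply]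
      by_cases h : H.Adj u v
      · rw [if_pos h, if_pos h, map_pow, tRF_X]
      · rw [if_neg h, if_neg h, map_zero]
    rw [← h10, ← RingHom.map_det]
    intro hc
    exact h9 (tRF_inj (by rw [hc, map_zero]))

theorem rank_add_le' {K : Type*} [Field K] (A B : Matrix (Fin n) (Fin n) K) :
    (A + B).rank ≤ A.rank + B.rank := by
  unfold Matrix.rank
  rw [Matrix.mulVecLin_add]
  refine le_trans (Submodule.finrank_mono (LinearMap.range_add_le _ _)) ?_
  exact Submodule.finrank_add_le_finrank_add_finrank _ _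

theorem rank_near {K : Type*} [Field K] (A B : Matrix (Fin n) (Fin n) K) (F : Finset (Fin n))
    (h : ∀ u, u ∉ F → ∀ v, v ∉ F → A u v = B u v) : A.rank ≤ B.rank + 2 * F.card := by
  classical
  let D : Matrix (Fin n) (Fin n) K := Matrix.diagonal fun i => if i ∈ F then 1 else 0
  have hD : D.rank = F.card := by
    rw [Matrix.rank_diagonal, Fintype.card_subtype]
    congr 1
    ext i
    simp
  have hE : A = B + (D * (A - B) + ((1 - D) * (A - B)) * D) := by
    ext u v
    simp only [D, Matrix.add_apply, Matrix.diagonal_mul, Matrix.mul_diagonal, Matrix.sub_mul,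
      Matrix.sub_apply, Matrix.one_mul]
    by_cases hu : u ∈ F
    · by_cases hv : v ∈ F
      · simp [hu, hv]
      · simp [hu, hv]
    · by_cases hv : v ∈ F
      · simp [hu, hv]
      · simp [hu, hv, h u hu v hv]
  have h1 := rank_add_le' B (D * (A - B) + ((1 - D) * (A - B)) * D)
  have h2 := rank_add_le' (D * (A - B)) (((1 - D) * (A - B)) * D)
  have h3 := Matrix.rank_mul_le_left D (A - B)
  have h4 := Matrix.rank_mul_le_right ((1 - D) * (A - B)) D
  rw [← hE] at h1
  omega

/-- graphs near to graphs with few perfect matchings belong to the class -/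
theorem cls_of_near {c d : ℕ} (hn : 4 ≤ n) {G H : SimpleGraph (Fin n)} (hG : G.Colorable 2)
    {F : Finset (Fin n)} (hF : F.card ≤ (Nat.log 2 n) ^ c)
    (hGH : ∀ u, u ∉ F → ∀ v, v ∉ F → (G.Adj u v ↔ H.Adj u v))
    (h1 : 1 ≤ Nat.card {M : H.Subgraph // M.IsPerfectMatching})
    (h2 : Nat.card {M : H.Subgraph // M.IsPerfectMatching} ≤ n ^ d) :
    cls (c + 1) (2 * d + 7) n G := by
  classical
  rw [card_pm] at h1 h2
  obtain ⟨m, hm1, hm2, hm3⟩ := adx_det_ne (by omega) H h1 h2
  refine ⟨hG, m, hm1, hm2, ?_⟩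
  have h3 : (adx H (wE m) (RatFunc.X : RatFunc ℚ)).rank = n := by
    have := Matrix.rank_of_isUnit (adx H (wE m) (RatFunc.X : RatFunc ℚ))
      ((Matrix.isUnit_iff_isUnit_det _).2 (isUnit_iff_ne_zero.2 hm3))
    rwa [Fintype.card_fin] at this
  have h4 := rank_near (adx H (wE m) (RatFunc.X : RatFunc ℚ))
    (adx G (wE m) (RatFunc.X : RatFunc ℚ)) F (fun u hu v hv => by
      unfold adx
      rw [Matrix.of_apply, Matrix.of_apply]
      by_cases h : G.Adj u v
      · rw [if_pos h, if_pos ((hGH u hu v hv).1 h)]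
      · rw [if_neg h, if_neg (fun h5 => h ((hGH u hu v hv).2 h5))])
  have h5 : 2 ≤ Nat.log 2 n := by
    have : Nat.log 2 4 ≤ Nat.log 2 n := Nat.log_mono_right hn
    have e : Nat.log 2 4 = 2 := by
      rw [show 4 = 2 ^ 2 from rfl, Nat.log_pow (by norm_num)]
    omega
  have h6 : 2 * (Nat.log 2 n) ^ c ≤ (Nat.log 2 n) ^ (c + 1) := by
    rw [pow_succ, mul_comm]
    exact Nat.mul_le_mul_left _ h5
  omega

end

end Pool.Agent.PMNC
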