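import Mathlib
import Pool.Agent.Lib.MP_0087d5_lc.Pad

set_option autoImplicit false
set_option linter.all false

/-!
# Hardness of dense nearly regular graphs
-/

namespace Pool.Agent.PMNC

/-- codes -/
abbrev UU (a b : ℕ) : ℕ → Type := fun m => Fin m × ((Fin (a + 1) → Fin m) × (Fin (b + 1) → Fin m))

instance (a b : ℕ) : Env (UU a b) :=
  inferInstanceAs (Env (fun m => Fin m × ((Fin (a + 1) → Fin m) × (Fin (b + 1) → Fin m))))

/-- valid codes: vertices of `H`, and the new vertices -/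
def Vd (a b m : ℕ) (x : UU a b m) : Prop :=
  (IsZero x.1 ∧ (∀ i, x.2.1 i = x.2.1 0) ∧ ∀ j, IsZero (x.2.2 j)) ∨
  (IsOne x.1 ∧ (∀ i, (x.2.1 i).val < 2 ^ (Nat.size m - 1)) ∧ ∀ j, IsZero (x.2.2 j) ∨ IsOne (x.2.2 j))

/-- adjacency of codes -/
def ad (a b m : ℕ) (H : SimpleGraph (Fin m)) (x y : UU a b m) : Prop :=
  (IsZero x.1 ∧ IsZero y.1 ∧ H.Adj (x.2.1 0) (y.2.1 0)) ∨
  (IsZero x.1 ∧ IsOne y.1 ∧ IsZero (y.2.2 0)) ∨
  (IsOne x.1 ∧ IsOne y.1 ∧ IsZero (x.2.2 0) ∧ IsOne (y.2.2 0))

def Vd2 (a b m : ℕ) (x : Fin m × UU a b m) : Prop := (IsZero x.1 ∨ IsOne x.1) ∧ Vd a b m x.2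

def ad2 (a b m : ℕ) (H : SimpleGraph (Fin m)) (x y : Fin m × UU a b m) : Prop :=
  ((IsZero x.1 ∧ IsOne y.1) ∨ (IsOne x.1 ∧ IsZero y.1)) ∧ (ad a b m H x.2 y.2 ∨ ad a b m H y.2 x.2)
    ∧ ¬ x.2 = y.2

section def_
variable {E : ℕ → Type} [Env E]

theorem DefP.vd (a b : ℕ) {f : ∀ m : ℕ, E m → UU a b m} (hf : Tm (F := UU a b) f) :
    DefP (fun m H X x => Vd a b m (f m x)) := by
  unfold Vd
  have h1 : Tm (F := fun m => Fin m) (fun m x => (f m x).1) := Tm.fst hf
  have h2 : Tm (F := fun m => Fin (a + 1) → Fin m) (fun m x => (f m x).2.1) :=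
    Tm.fst (F := fun m => Fin (a + 1) → Fin m) (H := fun m => Fin (b + 1) → Fin m) (Tm.snd hf)
  have h3 : Tm (F := fun m => Fin (b + 1) → Fin m) (fun m x => (f m x).2.2) :=
    Tm.snd (F := fun m => Fin (a + 1) → Fin m) (H := fun m => Fin (b + 1) → Fin m) (Tm.snd hf)
  have h2' : ∀ i, Tm (F := fun m => Fin m) (fun m x => (f m x).2.1 i) := fun i => Tm.app h2 i
  have h3' : ∀ i, Tm (F := fun m => Fin m) (fun m x => (f m x).2.2 i) := fun i => Tm.app h3 i
  refine DefP.or (DefP.and (DefP.isZero h1) (DefP.and (DefP.forallFintype fun i =>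
    DefP.eqFin (h2' i) (h2' 0)) (DefP.forallFintype fun j => DefP.isZero (h3' j))))
    (DefP.and (DefP.isOne h1) (DefP.and (DefP.forallFintype fun i => DefP.ltPow (h2' i))
      (DefP.forallFintype fun j => DefP.or (DefP.isZero (h3' j)) (DefP.isOne (h3' j)))))

theorem DefP.ad (a b : ℕ) {f g : ∀ m : ℕ, E m → UU a b m} (hf : Tm (F := UU a b) f)
    (hg : Tm (F := UU a b) g) :
    DefP (fun m H X x => PMNC.ad a b m H (f m x) (g m x)) := by
  unfold PMNC.ad
  have h1 : ∀ {f : ∀ m : ℕ, E m → UU a b m} (hf : Tm (F := UU a b) f),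
    Tm (F := fun m => Fin m) (fun m x => (f m x).1) := fun hf => Tm.fst hf
  have h2' : ∀ {f : ∀ m : ℕ, E m → UU a b m} (hf : Tm (F := UU a b) f) (i),
    Tm (F := fun m => Fin m) (fun m x => (f m x).2.1 i) := fun hf i =>
      Tm.app (Tm.fst (F := fun m => Fin (a + 1) → Fin m) (H := fun m => Fin (b + 1) → Fin m)
        (Tm.snd hf)) i
  have h3' : ∀ {f : ∀ m : ℕ, E m → UU a b m} (hf : Tm (F := UU a b) f) (i),
    Tm (F := fun m => Fin m) (fun m x => (f m x).2.2 i) := fun hf i =>
      Tm.app (Tm.snd (F := fun m => Fin (a + 1) → Fin m) (H := fun m => Fin (b + 1) → Fin m)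
        (Tm.snd hf)) i
  exact DefP.or (DefP.and (DefP.isZero (h1 hf)) (DefP.and (DefP.isZero (h1 hg))
    (DefP.adj (h2' hf 0) (h2' hg 0))))
    (DefP.or (DefP.and (DefP.isZero (h1 hf)) (DefP.and (DefP.isOne (h1 hg))
      (DefP.isZero (h3' hg 0))))
      (DefP.and (DefP.isOne (h1 hf)) (DefP.and (DefP.isOne (h1 hg))
      (DefP.and (DefP.isZero (h3' hf 0)) (DefP.isOne (h3' hg 0))))))

theorem defP_two_le : DefP (fun m H X (_ : E m) => 2 ≤ m) :=
  (defP_card_le 1).not.congr fun n G X x => by omega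

end def_

/-! ### explicit form of the new graph -/

section interp
variable {U : ℕ → Type} [Env U] (Vd : ∀ m : ℕ, U m → Prop)
  (ad : ∀ m : ℕ, SimpleGraph (Fin m) → U m → U m → Prop)

theorem nn_eq {W : Type} {m : ℕ} (E : W → U m) (hE : Function.Injective E)
    (hV : ∀ x, Vd m x ↔ ∃ w, E w = x) : Nn Vd m = Nat.card W := by
  unfold Nn
  refine (Nat.card_congr (Equiv.ofBijective (fun w => ⟨E w, (hV _).2 ⟨w, rfl⟩⟩) ⟨?_, ?_⟩)).symm
  · intro x y h
    exact hE (congrArg Subtype.val h)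
  · rintro ⟨x, hx⟩
    obtain ⟨w, rfl⟩ := (hV x).1 hx
    exact ⟨w, rfl⟩

theorem gr_iso {W : Type} {m : ℕ} {H : SimpleGraph (Fin m)} (G' : SimpleGraph W) (E : W → U m)
    (hE : Function.Injective E) (hV : ∀ x, Vd m x ↔ ∃ w, E w = x)
    (hA : ∀ x y, G'.Adj x y ↔ (x ≠ y ∧ (ad m H (E x) (E y) ∨ ad m H (E y) (E x)))) :
    Nonempty (gr Vd ad m H ≃g G') := by
  have h1 : ∀ a, ∃ w, E w = enc Vd m a := fun a => (hV _).1 (enc_mem Vd m a)
  choose g hg using h1
  have hbij : Function.Bijective g := by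
    constructor
    · intro a b h
      exact enc_inj Vd m (by rw [← hg, ← hg, h])
    · intro w
      obtain ⟨a, ha⟩ := enc_surj Vd m ((hV (E w)).2 ⟨w, rfl⟩)
      exact ⟨a, hE ((hg a).trans ha)⟩
  refine ⟨⟨Equiv.ofBijective g hbij, ?_⟩⟩
  intro a b
  change G'.Adj (g a) (g b) ↔ (gr Vd ad m H).Adj a b
  rw [hA, hg, hg, gr, SimpleGraph.fromRel_adj]
  exact and_congr_left fun _ => hbij.1.ne_iff

end interp

section enc
variable {a b m : ℕ} (hm : 2 ≤ m)

/-- a bit as an element of `Fin m` -/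
def bit (c : Bool) : Fin m := if c then ⟨1, by omega⟩ else ⟨0, by omega⟩

theorem bit_val (c : Bool) : (bit hm c).val = if c then 1 else 0 := by
  unfold bit
  cases c <;> simp

theorem bit_zero {c : Bool} : IsZero (bit hm c) ↔ c = false := by
  rw [isZero_iff, bit_val]
  cases c <;> simp

theorem bit_one {c : Bool} : IsOne (bit hm c) ↔ c = true := by
  rw [isOne_iff, bit_val]
  cases c <;> simp

theorem bit_inj {c c' : Bool} (h : bit hm c = bit hm c') : c = c' := by
  have := congrArg Fin.val h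
  rw [bit_val, bit_val] at this
  cases c <;> cases c' <;> simp_all

theorem exists_bit {x : Fin m} (h : IsZero x ∨ IsOne x) : ∃ c, bit hm c = x := by
  rcases h with h | h
  · exact ⟨false, Fin.ext (by rw [isZero_iff] at h; rw [bit_val, h]; simp)⟩
  · exact ⟨true, Fin.ext (by rw [isOne_iff] at h; rw [bit_val, h]; simp)⟩

/-- the number of new vertices of each kind -/
abbrev PP (a b m : ℕ) : Type := (Fin (a + 1) → Fin (2 ^ (Nat.size m - 1))) × (Fin b → Bool)

include hm in
theorem pow_size_le : 2 ^ (Nat.size m - 1) ≤ m := by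
  have h1 : 0 < Nat.size m := Nat.size_pos.2 (by omega)
  exact Nat.lt_size.1 (by omega)

/-- the code of a vertex -/
def EE : (Fin m ⊕ (PP a b m × Bool)) → UU a b m
  | .inl v => (bit hm false, (fun _ => v, fun _ => bit hm false))
  | .inr (q, s) => (bit hm true, (fun i => Fin.castLE (pow_size_le hm) (q.1 i),
      Fin.cons (α := fun _ => Fin m) (bit hm s) (fun j => bit hm (q.2 j))))

theorem EE_inj : Function.Injective (EE (a := a) (b := b) hm) := by
  rintro (v | ⟨⟨y, c⟩, s⟩) (v' | ⟨⟨y', c'⟩, s'⟩) h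
  · have h1 := congrArg (fun x => x.2.1 0) h
    change v = v' at h1
    rw [h1]
  · have h0 := congrArg Prod.fst h
    change bit hm false = bit hm true at h0
    exact absurd (bit_inj hm h0) (by simp)
  · have h0 := congrArg Prod.fst h
    change bit hm true = bit hm false at h0
    exact absurd (bit_inj hm h0) (by simp)
  · have h1 : ∀ i, y i = y' i := fun i => by
      have := congrArg (fun x => (x.2.1 i).val) h
      exact Fin.ext this
    have h2 : s = s' := by
      have := congrArg (fun x => x.2.2 0) h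
      change bit hm s = bit hm s' at this
      exact bit_inj hm this
    have h3 : ∀ j, c j = c' j := fun j => by
      have := congrArg (fun x => x.2.2 j.succ) h
      change Fin.cons (α := fun _ => Fin m) (bit hm s) (fun j => bit hm (c j)) j.succ =
        Fin.cons (α := fun _ => Fin m) (bit hm s') (fun j => bit hm (c' j)) j.succ at this
      rw [Fin.cons_succ, Fin.cons_succ] at this
      exact bit_inj hm this
    rw [funext h1, funext h3, h2]

theorem EE_range (x : UU a b m) : Vd a b m x ↔ ∃ w, EE hm w = x := by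
  constructor
  · rintro (⟨h1, h2, h3⟩ | ⟨h1, h2, h3⟩)
    · refine ⟨.inl (x.2.1 0), ?_⟩
      refine Prod.ext ?_ (Prod.ext ?_ ?_)
      · apply Fin.ext
        rw [isZero_iff] at h1
        change (bit hm false).val = x.1.val
        rw [bit_val, h1]; simp
      · funext i
        exact (h2 i).symm
      · funext j
        have := h3 j
        apply Fin.ext
        rw [isZero_iff] at this
        change (bit hm false).val = (x.2.2 j).val
        rw [bit_val, this]; simp
    · choose c hc using fun j => exists_bit hm (h3 j)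
      refine ⟨.inr ((fun i => ⟨(x.2.1 i).val, h2 i⟩, fun j => c j.succ), c 0), ?_⟩
      refine Prod.ext ?_ (Prod.ext ?_ ?_)
      · apply Fin.ext
        rw [isOne_iff] at h1
        change (bit hm true).val = x.1.val
        rw [bit_val, h1]; simp
      · funext i
        rfl
      · funext j
        change Fin.cons (α := fun _ => Fin m) (bit hm (c 0)) (fun j => bit hm (c j.succ)) j = x.2.2 j
        refine Fin.cases ?_ (fun j => ?_) j
        · rw [Fin.cons_zero, hc]
        · rw [Fin.cons_succ, hc]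
  · rintro ⟨v | ⟨⟨y, c⟩, s⟩, rfl⟩
    · exact Or.inl ⟨(bit_zero hm).2 rfl, fun i => rfl, fun j => (bit_zero hm).2 rfl⟩
    · refine Or.inr ⟨(bit_one hm).2 rfl, fun i => (y i).2, fun j => ?_⟩
      change IsZero (Fin.cons (α := fun _ => Fin m) (bit hm s) (fun j => bit hm (c j)) j) ∨
        IsOne (Fin.cons (α := fun _ => Fin m) (bit hm s) (fun j => bit hm (c j)) j)
      have h : ∀ t : Bool, IsZero (bit hm t) ∨ IsOne (bit hm t) := by
        intro t
        cases t
        · exact Or.inl ((bit_zero hm).2 rfl)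
        · exact Or.inr ((bit_one hm).2 rfl)
      refine Fin.cases ?_ (fun j => ?_) j
      · rw [Fin.cons_zero]; exact h s
      · rw [Fin.cons_succ]; exact h _

theorem EE_adj (H : SimpleGraph (Fin m)) (x y : Fin m ⊕ (PP a b m × Bool)) :
    (padG (PP a b m) H).Adj x y ↔
      (x ≠ y ∧ (ad a b m H (EE hm x) (EE hm y) ∨ ad a b m H (EE hm y) (EE hm x))) := by
  have hz : IsZero (bit hm false) := (bit_zero hm).2 rfl
  have ho : IsOne (bit hm true) := (bit_one hm).2 rfl
  have hz' : ¬ IsOne (bit hm false) := fun h => absurd ((bit_one hm).1 h) (by simp)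
  have ho' : ¬ IsZero (bit hm true) := fun h => absurd ((bit_zero hm).1 h) (by simp)
  rcases x with v | ⟨⟨p, c⟩, s⟩ <;> rcases y with v' | ⟨⟨p', c'⟩, s'⟩
  · have e1 : ad a b m H (EE hm (.inl v)) (EE hm (.inl v')) ↔ H.Adj v v' := by
      unfold ad EE
      simp only [hz, hz', true_and, false_and, and_false, or_false]
    have e2 : ad a b m H (EE hm (.inl v')) (EE hm (.inl v)) ↔ H.Adj v' v := by
      unfold ad EE
      simp only [hz, hz', true_and, false_and, and_false, or_false]
    rw [e1, e2]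
    change H.Adj v v' ↔ _
    constructor
    · intro h
      exact ⟨fun e => h.ne (Sum.inl_injective e), Or.inl h⟩
    · rintro ⟨_, h | h⟩
      · exact h
      · exact h.symm
  · have e1 : ad a b m H (EE hm (.inl v)) (EE hm (.inr ((p', c'), s'))) ↔ s' = false := by
      unfold ad EE
      simp only [hz, hz', ho, ho', true_and, false_and, and_false, or_false, false_or]
      exact bit_zero hm
    have e2 : ¬ ad a b m H (EE hm (.inr ((p', c'), s'))) (EE hm (.inl v)) := by
      unfold ad EE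
      simp only [hz, hz', ho, ho', true_and, false_and, and_false, or_false, false_or,
        not_false_eq_true]
    rw [e1]
    change s' = false ↔ _
    constructor
    · intro h
      exact ⟨by simp, Or.inl h⟩
    · rintro ⟨_, h | h⟩
      · exact h
      · exact absurd h e2
  · have e1 : ad a b m H (EE hm (.inl v')) (EE hm (.inr ((p, c), s))) ↔ s = false := by
      unfold ad EE
      simp only [hz, hz', ho, ho', true_and, false_and, and_false, or_false, false_or]
      exact bit_zero hm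
    have e2 : ¬ ad a b m H (EE hm (.inr ((p, c), s))) (EE hm (.inl v')) := by
      unfold ad EE
      simp only [hz, hz', ho, ho', true_and, false_and, and_false, or_false, false_or,
        not_false_eq_true]
    rw [e1]
    change s = false ↔ _
    constructor
    · intro h
      exact ⟨by simp, Or.inr h⟩
    · rintro ⟨_, h | h⟩
      · exact absurd h e2
      · exact h
  · have e1 : ad a b m H (EE hm (.inr ((p, c), s))) (EE hm (.inr ((p', c'), s'))) ↔
        (s = false ∧ s' = true) := by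
      unfold ad EE
      simp only [hz, hz', ho, ho', true_and, false_and, and_false, or_false, false_or]
      change IsZero (bit hm s) ∧ IsOne (bit hm s') ↔ _
      rw [bit_zero, bit_one]
    have e2 : ad a b m H (EE hm (.inr ((p', c'), s'))) (EE hm (.inr ((p, c), s))) ↔
        (s' = false ∧ s = true) := by
      unfold ad EE
      simp only [hz, hz', ho, ho', true_and, false_and, and_false, or_false, false_or]
      change IsZero (bit hm s') ∧ IsOne (bit hm s) ↔ _
      rw [bit_zero, bit_one]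
    rw [e1, e2]
    change s ≠ s' ↔ _
    constructor
    · intro h
      refine ⟨fun e => h ?_, ?_⟩
      · have := Sum.inr_injective e
        exact congrArg Prod.snd this
      · revert h
        cases s <;> cases s' <;> simp
    · rintro ⟨_, h | h⟩
      · rw [h.1, h.2]; simp
      · rw [h.1, h.2]; simp

/-- codes for the double cover -/
def EE2 (x : (Fin m ⊕ (PP a b m × Bool)) × Bool) : Fin m × UU a b m := (bit hm x.2, EE hm x.1)

theorem EE2_inj : Function.Injective (EE2 (a := a) (b := b) hm) := by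
  rintro ⟨x, c⟩ ⟨y, c'⟩ h
  have h1 := bit_inj hm (congrArg Prod.fst h)
  have h2 := EE_inj hm (congrArg Prod.snd h)
  simp only at h1 h2
  rw [h1, h2]

theorem EE2_range (x : Fin m × UU a b m) : Vd2 a b m x ↔ ∃ w, EE2 hm w = x := by
  unfold Vd2
  rw [EE_range hm]
  constructor
  · rintro ⟨h1, w, hw⟩
    obtain ⟨c, hc⟩ := exists_bit hm h1
    exact ⟨(w, c), Prod.ext hc hw⟩
  · rintro ⟨⟨w, c⟩, rfl⟩
    refine ⟨?_, w, rfl⟩
    cases c
    · exact Or.inl ((bit_zero hm).2 rfl)
    · exact Or.inr ((bit_one hm).2 rfl)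

theorem EE2_adj (H : SimpleGraph (Fin m)) (x y : (Fin m ⊕ (PP a b m × Bool)) × Bool) :
    (dbl (padG (PP a b m) H)).Adj x y ↔
      (x ≠ y ∧ (ad2 a b m H (EE2 hm x) (EE2 hm y) ∨ ad2 a b m H (EE2 hm y) (EE2 hm x))) := by
  obtain ⟨x, c⟩ := x
  obtain ⟨y, c'⟩ := y
  change c ≠ c' ∧ (padG (PP a b m) H).Adj x y ↔ _
  rw [EE_adj hm]
  have e : ∀ {x y : Fin m ⊕ (PP a b m × Bool)} {c c' : Bool},
      ad2 a b m H (EE2 hm (x, c)) (EE2 hm (y, c')) ↔
      (c ≠ c' ∧ (ad a b m H (EE hm x) (EE hm y) ∨ ad a b m H (EE hm y) (EE hm x)) ∧ x ≠ y) := by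
    intro x y c c'
    unfold ad2 EE2
    simp only [bit_zero, bit_one]
    refine and_congr ?_ (and_congr Iff.rfl (not_congr (EE_inj hm).eq_iff))
    cases c <;> cases c' <;> simp
  rw [e, e]
  constructor
  · rintro ⟨h1, h2, h3⟩
    exact ⟨fun h => h1 (congrArg Prod.snd h), Or.inl ⟨h1, h3, h2⟩⟩
  · rintro ⟨_, ⟨h1, h2, h3⟩ | ⟨h1, h2, h3⟩⟩
    · exact ⟨h1, h3, h2⟩
    · exact ⟨h1.symm, h3.symm, h2.symm⟩

theorem card_PP : Nat.card (PP a b m) = 2 ^ ((Nat.size m - 1) * (a + 1) + b) := by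
  rw [Nat.card_prod]
  simp only [Nat.card_eq_fintype_card, Fintype.card_pi, Fintype.card_fin, Fintype.card_bool,
    Finset.prod_const, Finset.card_univ]
  rw [← pow_mul, ← pow_add]

end enc

theorem size_eq {n s : ℕ} (h1 : 2 ^ (s - 1) ≤ n) (h2 : n < 2 ^ s) (hs : 0 < s) : Nat.size n = s := by
  apply le_antisymm
  · exact Nat.size_le.2 h2
  · have := Nat.lt_size.2 h1
    omega

theorem vd_def (a b : ℕ) : DefP (fun m H X (x : UU a b m) => 2 ≤ m ∧ Vd a b m x) :=
  defP_two_le.and (DefP.vd a b (f := fun m x => x) Tm.id)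

theorem ad_def (a b : ℕ) : DefP (E := fun m => UU a b m × UU a b m)
    (fun m H X x => 2 ≤ m ∧ Vd a b m x.1 ∧ Vd a b m x.2 ∧ ad a b m H x.1 x.2) := by
  have h1 : Tm (E := fun m => UU a b m × UU a b m) (F := UU a b) (fun m x => x.1) := Tm.fst Tm.id
  have h2 : Tm (E := fun m => UU a b m × UU a b m) (F := UU a b) (fun m x => x.2) := Tm.snd Tm.id
  exact defP_two_le.and ((DefP.vd a b h1).and ((DefP.vd a b h2).and (DefP.ad a b h1 h2)))

theorem vd2_def (a b : ℕ) : DefP (E := fun m => Fin m × UU a b m)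
    (fun m H X x => 2 ≤ m ∧ Vd2 a b m x) := by
  unfold Vd2
  have h1 : Tm (E := fun m => Fin m × UU a b m) (F := fun m => Fin m) (fun m x => x.1) :=
    Tm.fst Tm.id
  have h2 : Tm (E := fun m => Fin m × UU a b m) (F := UU a b) (fun m x => x.2) := Tm.snd Tm.id
  exact defP_two_le.and ((DefP.or (DefP.isZero h1) (DefP.isOne h1)).and (DefP.vd a b h2))

theorem ad2_def (a b : ℕ) : DefP (E := fun m => (Fin m × UU a b m) × (Fin m × UU a b m))
    (fun m H X x => 2 ≤ m ∧ Vd2 a b m x.1 ∧ Vd2 a b m x.2 ∧ ad2 a b m H x.1 x.2) := by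
  have hv : ∀ {E : ℕ → Type} [Env E] {f : ∀ m : ℕ, E m → Fin m × UU a b m}
      (hf : Tm (F := fun m => Fin m × UU a b m) f),
      DefP (fun m H X x => Vd2 a b m (f m x)) := by
    intro E _ f hf
    unfold Vd2
    have h1 : Tm (F := fun m => Fin m) (fun m x => (f m x).1) := Tm.fst hf
    have h2 : Tm (F := UU a b) (fun m x => (f m x).2) := Tm.snd hf
    exact (DefP.or (DefP.isZero h1) (DefP.isOne h1)).and (DefP.vd a b h2)
  have h1 : Tm (E := fun m => (Fin m × UU a b m) × (Fin m × UU a b m))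
      (F := fun m => Fin m × UU a b m) (fun m x => x.1) := Tm.fst Tm.id
  have h2 : Tm (E := fun m => (Fin m × UU a b m) × (Fin m × UU a b m))
      (F := fun m => Fin m × UU a b m) (fun m x => x.2) := Tm.snd Tm.id
  have h11 : Tm (E := fun m => (Fin m × UU a b m) × (Fin m × UU a b m))
      (F := fun m => Fin m) (fun m x => x.1.1) := Tm.fst h1
  have h21 : Tm (E := fun m => (Fin m × UU a b m) × (Fin m × UU a b m))
      (F := fun m => Fin m) (fun m x => x.2.1) := Tm.fst h2
  have h12 : Tm (E := fun m => (Fin m × UU a b m) × (Fin m × UU a b m))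
      (F := UU a b) (fun m x => x.1.2) := Tm.snd h1
  have h22 : Tm (E := fun m => (Fin m × UU a b m) × (Fin m × UU a b m))
      (F := UU a b) (fun m x => x.2.2) := Tm.snd h2
  refine defP_two_le.and ((hv h1).and ((hv h2).and ?_))
  unfold ad2
  exact DefP.and (DefP.or (DefP.and (DefP.isZero h11) (DefP.isOne h21))
    (DefP.and (DefP.isOne h11) (DefP.isZero h21))) (DefP.and (DefP.or
      (DefP.ad a b h12 h22) (DefP.ad a b h22 h12)) (DefP.not (DefP.eq h12 h22)))

theorem dim_pos (a b : ℕ) : 0 < dim (UU a b) := by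
  change 0 < 1 + _
  omega

theorem dim_pos2 (a b : ℕ) : 0 < dim (fun m => Fin m × UU a b m) := by
  change 0 < 1 + _
  omega

/-- **Theorem.** -/
theorem hard_general (k : ℕ) (L : ∀ n : ℕ, SimpleGraph (Fin n) → Prop) (hL : InNC L)
    (h : ∀ (n : ℕ) (G : SimpleGraph (Fin n)),
      (∃ d e : ℕ, e ^ k ≤ n ∧ n ≤ 2 * d + e ∧ ∀ v, d ≤ dg G v ∧ dg G v ≤ d + e) →
        (HasPM G ↔ L n G)) :
    InNC (fun n G => HasPM G) := by
  have hVd := vd_def (k + 1) k
  have had := ad_def (k + 1) k
  have hcard : ∀ m, 2 ≤ m → Nn (Vd (k + 1) k) m = m + 2 * Nat.card (PP (k + 1) k m) := by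
    intro m hm
    rw [nn_eq (Vd (k + 1) k) (EE hm) (EE_inj hm) (EE_range hm), Nat.card_sum, Nat.card_prod]
    simp only [Nat.card_eq_fintype_card (α := Fin m), Nat.card_eq_fintype_card (α := Bool),
      Fintype.card_fin, Fintype.card_bool]
    ring
  have hσ : ∀ m, 2 ≤ m → 2 ≤ Nat.size m := fun m hm => by
    have : 1 < Nat.size m := Nat.lt_size.2 (by simpa using hm)
    omega
  have hexp : ∀ m, 2 ≤ m → (Nat.size m - 1) * (k + 1 + 1) + k + 2 = (k + 2) * Nat.size m := by
    intro m hm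
    obtain ⟨t, ht⟩ := Nat.exists_eq_add_of_le (hσ m hm)
    rw [ht]
    have : 2 + t - 1 = t + 1 := by omega
    rw [this]
    ring
  have hsize : ∀ m, 2 ≤ m → Nat.size (Nn (Vd (k + 1) k) m) = (k + 2) * Nat.size m := by
    intro m hm
    rw [hcard m hm, card_PP]
    have h1 := hexp m hm
    have h2 : 2 * 2 ^ ((Nat.size m - 1) * (k + 1 + 1) + k) = 2 ^ ((k + 2) * Nat.size m - 1) := by
      rw [← pow_succ']
      congr 1
      omega
    have h3 : m < 2 ^ Nat.size m := Nat.lt_size_self m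
    have h4 : 2 ^ Nat.size m ≤ 2 ^ ((k + 2) * Nat.size m - 1) := by
      apply Nat.pow_le_pow_right (by norm_num)
      have := hσ m hm
      have : (k + 2) * Nat.size m = k * Nat.size m + 2 * Nat.size m := by ring
      omega
    have h5 : 2 ^ ((k + 2) * Nat.size m) = 2 * 2 ^ ((k + 2) * Nat.size m - 1) := by
      rw [← pow_succ']
      congr 1
      omega
    apply size_eq
    · rw [h2]; omega
    · rw [h2, h5]; omega
    · have := hσ m hm
      positivity
  have hpos := dim_pos (k + 1) k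
  have hmain := interp_inNC (Vd (k + 1) k) (ad (k + 1) k) hpos (k + 2) hsize hVd had hL
  have hsmall : InNC (fun n G => n ≤ 1 ∧ HasPM G) :=
    inNC_of_defP (defP_small 1 fun n G => HasPM G)
  have hor := hsmall.or hmain
  have heq : (fun (n : ℕ) (G : SimpleGraph (Fin n)) => HasPM G) =
      fun n G => (n ≤ 1 ∧ HasPM G) ∨ (2 ≤ n ∧ L (Nn (Vd (k + 1) k) n) (gr (Vd (k + 1) k) (ad (k + 1) k) n G)) := by
    funext m H
    apply propext
    by_cases hm : 2 ≤ m
    · obtain ⟨e⟩ := gr_iso (Vd (k + 1) k) (ad (k + 1) k) (H := H) (padG (PP (k + 1) k m) H) (EE hm)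
        (EE_inj hm) (EE_range hm) (EE_adj hm H)
      have h1 : HasPM (gr (Vd (k + 1) k) (ad (k + 1) k) m H) ↔ HasPM H := by
        rw [hasPM_iff', hasPM_iff', hasPM'_iso e, pad_pm]
      have h2 : HasPM (gr (Vd (k + 1) k) (ad (k + 1) k) m H) ↔
          L (Nn (Vd (k + 1) k) m) (gr (Vd (k + 1) k) (ad (k + 1) k) m H) := by
        apply h
        refine ⟨Nat.card (PP (k + 1) k m), m, ?_, ?_, ?_⟩
        · rw [hcard m hm, card_PP]
          have h3 : m ^ k ≤ (2 ^ Nat.size m) ^ k := Nat.pow_le_pow_left (Nat.lt_size_self m).le k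
          have h4 : (2 ^ Nat.size m) ^ k ≤ 2 ^ ((Nat.size m - 1) * (k + 1 + 1) + k) := by
            rw [← pow_mul]
            apply Nat.pow_le_pow_right (by norm_num)
            have h5 := hexp m hm
            have h6 := hσ m hm
            have : (k + 2) * Nat.size m = Nat.size m * k + 2 * Nat.size m := by ring
            omega
          omega
        · rw [hcard m hm]; omega
        · intro v
          rw [← dg_iso e v]
          have := pad_dg (P := PP (k + 1) k m) H (e v)
          simpa using this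
      constructor
      · intro hH
        exact Or.inr ⟨hm, h2.1 (h1.2 hH)⟩
      · rintro (⟨h3, _⟩ | ⟨_, h3⟩)
        · omega
        · exact h1.1 (h2.2 h3)
    · constructor
      · intro hH
        exact Or.inl ⟨by omega, hH⟩
      · rintro (⟨_, h3⟩ | ⟨h3, _⟩)
        · exact h3
        · exact absurd h3 hm
  rw [heq]
  exact hor

/-- **Theorem.** -/
theorem hard_bipartite (k : ℕ) (L : ∀ n : ℕ, SimpleGraph (Fin n) → Prop) (hL : InNC L)
    (h : ∀ (n : ℕ) (G : SimpleGraph (Fin n)), G.Colorable 2 →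
      (∃ d e : ℕ, e ^ k ≤ n ∧ n ≤ 4 * d + 2 * e ∧ ∀ v, d ≤ dg G v ∧ dg G v ≤ d + e) →
        (HasPM G ↔ L n G)) :
    ∃ L' : ∀ n : ℕ, SimpleGraph (Fin n) → Prop, InNC L' ∧
      ∀ (n : ℕ) (G : SimpleGraph (Fin n)), G.Colorable 2 → (HasPM G ↔ L' n G) := by
  have hVd := vd2_def (k + 2) k
  have had := ad2_def (k + 2) k
  have hcard : ∀ m, 2 ≤ m → Nn (Vd2 (k + 2) k) m = 2 * m + 4 * Nat.card (PP (k + 2) k m) := by
    intro m hm
    rw [nn_eq (Vd2 (k + 2) k) (EE2 hm) (EE2_inj hm) (EE2_range hm), Nat.card_prod, Nat.card_sum,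
      Nat.card_prod]
    simp only [Nat.card_eq_fintype_card (α := Fin m), Nat.card_eq_fintype_card (α := Bool),
      Fintype.card_fin, Fintype.card_bool]
    ring
  have hσ : ∀ m, 2 ≤ m → 2 ≤ Nat.size m := fun m hm => by
    have : 1 < Nat.size m := Nat.lt_size.2 (by simpa using hm)
    omega
  have hexp : ∀ m, 2 ≤ m → (Nat.size m - 1) * (k + 2 + 1) + k + 3 = (k + 3) * Nat.size m := by
    intro m hm
    obtain ⟨t, ht⟩ := Nat.exists_eq_add_of_le (hσ m hm)
    rw [ht]
    have : 2 + t - 1 = t + 1 := by omega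
    rw [this]
    ring
  have hsize : ∀ m, 2 ≤ m → Nat.size (Nn (Vd2 (k + 2) k) m) = (k + 3) * Nat.size m := by
    intro m hm
    rw [hcard m hm, card_PP]
    have h1 := hexp m hm
    have h2 : 4 * 2 ^ ((Nat.size m - 1) * (k + 2 + 1) + k) = 2 ^ ((k + 3) * Nat.size m - 1) := by
      rw [show 4 = 2 ^ 2 by norm_num, ← pow_add]
      congr 1
      omega
    have h3 : m < 2 ^ Nat.size m := Nat.lt_size_self m
    have h4 : 2 * 2 ^ Nat.size m ≤ 2 ^ ((k + 3) * Nat.size m - 1) := by
      rw [← pow_succ']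
      apply Nat.pow_le_pow_right (by norm_num)
      have := hσ m hm
      have : (k + 3) * Nat.size m = k * Nat.size m + 3 * Nat.size m := by ring
      omega
    have h5 : 2 ^ ((k + 3) * Nat.size m) = 2 * 2 ^ ((k + 3) * Nat.size m - 1) := by
      rw [← pow_succ']
      congr 1
      omega
    apply size_eq
    · rw [h2]; omega
    · rw [h2, h5]; omega
    · have := hσ m hm
      positivity
  have hpos := dim_pos2 (k + 2) k
  have hmain := interp_inNC (Vd2 (k + 2) k) (ad2 (k + 2) k) hpos (k + 3) hsize hVd had hL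
  have hsmall : InNC (fun n G => n ≤ 1 ∧ HasPM G) :=
    inNC_of_defP (defP_small 1 fun n G => HasPM G)
  refine ⟨_, hsmall.or hmain, fun m H hH2 => ?_⟩
  by_cases hm : 2 ≤ m
  · obtain ⟨e⟩ := gr_iso (Vd2 (k + 2) k) (ad2 (k + 2) k) (H := H)
      (dbl (padG (PP (k + 2) k m) H)) (EE2 hm) (EE2_inj hm) (EE2_range hm) (EE2_adj hm H)
    have h1 : HasPM (gr (Vd2 (k + 2) k) (ad2 (k + 2) k) m H) ↔ HasPM H := by
      rw [hasPM_iff', hasPM_iff', hasPM'_iso e, dbl_pad_pm H hH2]
    have hcol : (gr (Vd2 (k + 2) k) (ad2 (k + 2) k) m H).Colorable 2 :=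
      SimpleGraph.Colorable.of_hom e.toHom (dbl_colorable _)
    have h2 : HasPM (gr (Vd2 (k + 2) k) (ad2 (k + 2) k) m H) ↔
        L (Nn (Vd2 (k + 2) k) m) (gr (Vd2 (k + 2) k) (ad2 (k + 2) k) m H) := by
      apply h _ _ hcol
      refine ⟨Nat.card (PP (k + 2) k m), m, ?_, ?_, ?_⟩
      · rw [hcard m hm, card_PP]
        have h3 : m ^ k ≤ (2 ^ Nat.size m) ^ k := Nat.pow_le_pow_left (Nat.lt_size_self m).le k
        have h4 : (2 ^ Nat.size m) ^ k ≤ 2 ^ ((Nat.size m - 1) * (k + 2 + 1) + k) := by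
          rw [← pow_mul]
          apply Nat.pow_le_pow_right (by norm_num)
          have h5 := hexp m hm
          have h6 := hσ m hm
          have : (k + 3) * Nat.size m = Nat.size m * k + 3 * Nat.size m := by ring
          omega
        omega
      · rw [hcard m hm]; omega
      · intro v
        rw [← dg_iso e v, dbl_dg]
        have := pad_dg (P := PP (k + 2) k m) H (e v).1
        simpa using this
    constructor
    · intro hH
      exact Or.inr ⟨hm, h2.1 (h1.2 hH)⟩
    · rintro (⟨h3, _⟩ | ⟨_, h3⟩)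
      · omega
      · exact h1.1 (h2.2 h3)
  · constructor
    · intro hH
      exact Or.inl ⟨by omega, hH⟩
    · rintro (⟨_, h3⟩ | ⟨h3, _⟩)
      · exact h3
      · exact absurd h3 hm

end Pool.Agent.PMNC
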