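import Mathlib
import Pool.Agent.Lib.MP_0087d5_lc.MaxMat

set_option autoImplicit false
set_option linter.all false

/-!
# Simultaneous augmentation along paths with three edges
-/

namespace Pool.Agent.PMNC

open Relation


/-- the exposed vertices `x` and `y` have the same rank on their sides -/
def Prd {n : ℕ} (L : Fin n → Prop) (M : Fin n × Fin n → Prop) (x y : Fin n) : Prop :=
  ExL L M x ∧ ExR L M y ∧ ∃ (a₀ b₀ : Fin n), Fst (key (S := fun n => Fin n)) (ExL L M) a₀ ∧ Fst (key (S := fun n => Fin n)) (ExR L M) b₀ ∧
    ReflTransGen (Stp (key (S := fun n => Fin n)) (key (S := fun n => Fin n)) (ExL L M) (ExR L M)) (a₀, b₀) (x, y)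

/-- the middle edge with the right vertex `v` can be used for the pair of `x` -/
def Mid {n : ℕ} (G : SimpleGraph (Fin n)) (L : Fin n → Prop) (M : Fin n × Fin n → Prop)
    (x v : Fin n) : Prop :=
  G.Adj x v ∧ ∃ u y, M (u, v) ∧ G.Adj u y ∧ Prd L M x y

/-- the chosen middle edges -/
def RM {n : ℕ} (G : SimpleGraph (Fin n)) (L : Fin n → Prop) (b : Fin 4 → Fin n)
    (M : Fin n × Fin n → Prop) (e : Fin n × Fin n) : Prop :=
  Rnd (γ := Unit) (fun _ _ => True) (Mid G L M) b e

/-- the new matching -/
def Swp {n : ℕ} (G : SimpleGraph (Fin n)) (L : Fin n → Prop) (b : Fin 4 → Fin n)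
    (M : Fin n × Fin n → Prop) (e : Fin n × Fin n) : Prop :=
  (M e ∧ ¬ ∃ x, RM G L b M (x, e.2)) ∨ RM G L b M e ∨
    ∃ x v, RM G L b M (x, v) ∧ M (e.1, v) ∧ G.Adj e.1 e.2 ∧ Prd L M x e.2

section comb
variable {n : ℕ} {G : SimpleGraph (Fin n)} {L : Fin n → Prop} {M : Fin n × Fin n → Prop}
  {b : Fin 4 → Fin n}

theorem prd_iff {x y : Fin n} :
    Prd L M x y ↔ (ExL L M x ∧ ExR L M y ∧ rk (key (S := fun n => Fin n)) (ExL L M) x = rk (key (S := fun n => Fin n)) (ExR L M) y) := by
  unfold Prd
  constructor
  · rintro ⟨h1, h2, h3⟩
    exact ⟨h1, h2, (rk_eq_iff key_injective key_injective h1 h2).2 h3⟩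
  · rintro ⟨h1, h2, h3⟩
    exact ⟨h1, h2, (rk_eq_iff key_injective key_injective h1 h2).1 h3⟩

theorem rk_inj {α κ : Type*} [LinearOrder κ] [Finite α] {f : α → κ} (hf : Function.Injective f)
    {A : α → Prop} {a a' : α} (ha : A a) (ha' : A a') (h : rk f A a = rk f A a') : a = a' := by
  rcases lt_trichotomy (f a) (f a') with h1 | h1 | h1
  · have := rk_lt (f := f) A ha' h1
    omega
  · exact hf h1
  · have := rk_lt (f := f) A ha h1
    omega

theorem prd_right {x y y' : Fin n} (h : Prd L M x y) (h' : Prd L M x y') : y = y' := by
  rw [prd_iff] at h h'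
  exact rk_inj key_injective h.2.1 h'.2.1 (h.2.2.symm.trans h'.2.2)

theorem prd_left {x x' y : Fin n} (h : Prd L M x y) (h' : Prd L M x' y) : x = x' := by
  rw [prd_iff] at h h'
  exact rk_inj key_injective h.1 h'.1 (h.2.2.trans h'.2.2.symm)

theorem exists_prd (hc : Nat.card {x // ExL L M x} = Nat.card {y // ExR L M y}) {x : Fin n}
    (hx : ExL L M x) : ∃ y, Prd L M x y := by
  have h1 : 1 ≤ rk (key (S := fun n => Fin n)) (ExL L M) x := by
    unfold rk
    haveI : Nonempty {z // ExL L M z ∧ (key (S := fun n => Fin n)) z ≤ (key (S := fun n => Fin n)) x} := ⟨⟨x, hx, le_rfl⟩⟩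
    exact Nat.card_pos
  have h2 : rk (key (S := fun n => Fin n)) (ExL L M) x ≤ Nat.card {y // ExR L M y} := by
    rw [← hc]
    exact rk_le _ _
  obtain ⟨y, hy, hr⟩ := exists_rk (f := (key (S := fun n => Fin n))) key_injective h1 h2
  exact ⟨y, prd_iff.2 ⟨hx, hy, hr.symm⟩⟩

theorem rm_spec (hb : Good b) : (∀ x v, RM G L b M (x, v) → Mid G L M x v) ∧
    (∀ x v v', RM G L b M (x, v) → RM G L b M (x, v') → v = v') ∧
    (∀ x x' v, RM G L b M (x, v) → RM G L b M (x', v) → x = x') := by
  obtain ⟨h1, h2, h3, _⟩ := rnd_spec (γ := Unit) (fun _ _ => True) (Mid G L M) hb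
  exact ⟨h1, h2, h3⟩

theorem swp_pmat (hb : Good b) (hM : PMat G L M) : PMat G L (Swp G L b M) := by
  obtain ⟨h1, h2, h3⟩ := rm_spec (G := G) (L := L) (M := M) hb
  have hx : ∀ {x v}, RM G L b M (x, v) → ExL L M x := by
    intro x v h
    obtain ⟨_, u, y, _, _, hp⟩ := h1 _ _ h
    exact hp.1
  refine ⟨?_, ?_, ?_⟩
  · rintro u v (⟨h, _⟩ | h | ⟨x, w, hr, hm, ha, hp⟩)
    · exact hM.edge _ _ h
    · obtain ⟨ha, u', y, hm, _, hp⟩ := h1 _ _ h
      exact ⟨hp.1.1, (hM.edge _ _ hm).2.1, ha⟩
    · exact ⟨(hM.edge _ _ hm).1, hp.2.1.1, ha⟩
  · rintro u v v' (⟨h, hn⟩ | h | ⟨x, w, hr, hm, ha, hp⟩) (⟨h', hn'⟩ | h' | ⟨x', w', hr', hm', ha', hp'⟩)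
    · exact hM.inj1 _ _ _ h h'
    · exact absurd h ((hx h').2 _)
    · have e1 : v = w' := hM.inj1 _ _ _ h hm'
      rw [← e1] at hr'
      exact absurd ⟨x', hr'⟩ hn
    · exact absurd h' ((hx h).2 _)
    · exact h2 _ _ _ h h'
    · exact absurd hm' ((hx h).2 _)
    · have e1 : v' = w := hM.inj1 _ _ _ h' hm
      rw [← e1] at hr
      exact absurd ⟨x, hr⟩ hn'
    · exact absurd hm ((hx h').2 _)
    · have e1 : w = w' := hM.inj1 _ _ _ hm hm'
      subst e1
      have e2 := h3 _ _ _ hr hr'
      subst e2
      exact prd_right hp hp'
  · rintro u u' v (⟨h, hn⟩ | h | ⟨x, w, hr, hm, ha, hp⟩) (⟨h', hn'⟩ | h' | ⟨x', w', hr', hm', ha', hp'⟩)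
    · exact hM.inj2 _ _ _ h h'
    · exact absurd ⟨u', h'⟩ hn
    · exact absurd h (hp'.2.1.2 _)
    · exact absurd ⟨u, h⟩ hn'
    · exact h3 _ _ _ h h'
    · obtain ⟨_, u1, y1, hm1, _, _⟩ := h1 _ _ h
      exact absurd hm1 (hp'.2.1.2 _)
    · exact absurd h' (hp.2.1.2 _)
    · obtain ⟨_, u1, y1, hm1, _, _⟩ := h1 _ _ h'
      exact absurd hm1 (hp.2.1.2 _)
    · have e1 := prd_left hp hp'
      subst e1
      have e2 := h2 _ _ _ hr hr'
      subst e2
      exact hM.inj2 _ _ _ hm hm'

/-- the new matching covers everything that was covered, and the ends of the chosen edges -/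
theorem swp_dom (hb : Good b) (hM : PMat G L M) {u : Fin n}
    (h : (∃ v, M (u, v)) ∨ ∃ v, RM G L b M (u, v)) : ∃ v, Swp G L b M (u, v) := by
  obtain ⟨h1, h2, h3⟩ := rm_spec (G := G) (L := L) (M := M) hb
  rcases h with ⟨v, hv⟩ | ⟨v, hv⟩
  · by_cases hr : ∃ x, RM G L b M (x, v)
    · obtain ⟨x, hx⟩ := hr
      obtain ⟨_, u', y, hm, ha, hp⟩ := h1 _ _ hx
      have e1 := hM.inj2 _ _ _ hm hv
      subst e1
      exact ⟨y, Or.inr (Or.inr ⟨x, v, hx, hm, ha, hp⟩)⟩
    · exact ⟨v, Or.inl ⟨hv, hr⟩⟩
  · exact ⟨v, Or.inr (Or.inl hv)⟩

/-- the number of covered left vertices -/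
theorem card_ex (hM : PMat G L M) :
    Nat.card {u // L u} = Nat.card {u // ∃ v, M (u, v)} + Nat.card {u // ExL L M u} := by
  rw [card_split L (fun u => ∃ v, M (u, v))]
  congr 1
  · apply Nat.card_congr
    apply Equiv.subtypeEquivRight
    intro u
    exact ⟨fun h => h.2, fun ⟨v, hv⟩ => ⟨(hM.edge _ _ hv).1, v, hv⟩⟩
  · apply Nat.card_congr
    apply Equiv.subtypeEquivRight
    intro u
    unfold ExL
    push Not
    rfl

theorem card_exR (hM : PMat G L M) :
    Nat.card {v // ¬ L v} = Nat.card {u // ∃ v, M (u, v)} + Nat.card {v // ExR L M v} := by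
  rw [card_split (fun v => ¬ L v) (fun v => ∃ u, M (u, v))]
  congr 1
  · choose f hf using fun u : {u // ∃ v, M (u, v)} => u.2
    refine (Nat.card_congr (Equiv.ofBijective
      (fun u => (⟨f u, (hM.edge _ _ (hf u)).2.1, u.1, hf u⟩ :
        {v // ¬ L v ∧ ∃ u, M (u, v)})) ⟨?_, ?_⟩)).symm
    · intro x y hxy
      have h1 : f x = f y := congrArg (fun z => z.1) hxy
      have h2 := hf x
      rw [h1] at h2
      exact Subtype.ext (hM.inj2 _ _ _ h2 (hf y))
    · rintro ⟨v, _, u, hu⟩
      refine ⟨⟨u, v, hu⟩, ?_⟩
      apply Subtype.ext
      exact hM.inj1 _ _ _ (hf ⟨u, v, hu⟩) hu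
  · apply Nat.card_congr
    apply Equiv.subtypeEquivRight
    intro v
    unfold ExR
    push Not
    rfl

/-- the key count -/
theorem mid_card (hM : PMat G L M) (hmax : ∀ u v, ¬ Av G L M u v) (hL : ∀ u v, G.Adj u v → (L u ↔ ¬ L v))
    (hc : Nat.card {u // L u} = Nat.card {v // ¬ L v}) {D : ℕ}
    (hore : ∀ u v, L u → ¬ L v → ¬ G.Adj u v → Nat.card {u // L u} ≤ dg G u + dg G v + D)
    {x : Fin n} (hx : ExL L M x) :
    Nat.card {u // ExL L M u} ≤ dL (Mid G L M) x + D := by
  classical
  have hcx : Nat.card {x // ExL L M x} = Nat.card {y // ExR L M y} := by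
    have h1 := card_ex hM
    have h2 := card_exR hM
    omega
  obtain ⟨y, hy⟩ := exists_prd hcx hx
  have hxy : ¬ G.Adj x y := fun h => hmax x y ⟨hx, hy.2.1, h⟩
  have h1 := hore x y hx.1 hy.2.1.1 hxy
  -- the two sets of matched right vertices
  have hVx : Nat.card {v // (∃ u, M (u, v)) ∧ G.Adj x v} = dg G x := by
    unfold dg
    apply Nat.card_congr
    apply Equiv.subtypeEquivRight
    intro v
    constructor
    · exact fun h => h.2
    · intro h
      refine ⟨?_, h⟩
      by_contra hcon
      push Not at hcon
      exact hmax x v ⟨hx, ⟨(hL _ _ h).1 hx.1, hcon⟩, h⟩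
  have hVy : Nat.card {v // ∃ u, M (u, v) ∧ G.Adj u y} = dg G y := by
    have h2 : ∀ u : {u // G.Adj y u}, ∃ v, M (u.1, v) := by
      rintro ⟨u, hu⟩
      by_contra hcon
      push Not at hcon
      exact hmax u y ⟨⟨by
        have := hL _ _ hu
        have := hy.2.1.1
        tauto, hcon⟩, hy.2.1, hu.symm⟩
    choose f hf using h2
    unfold dg
    refine (Nat.card_congr (Equiv.ofBijective
      (fun u => (⟨f u, u.1, hf u, u.2.symm⟩ : {v // ∃ u, M (u, v) ∧ G.Adj u y})) ⟨?_, ?_⟩)).symm
    · intro a c hac
      have h1 : f a = f c := congrArg (fun z => z.1) hac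
      have h2 := hf a
      rw [h1] at h2
      exact Subtype.ext (hM.inj2 _ _ _ h2 (hf c))
    · rintro ⟨v, u, hu, ha⟩
      refine ⟨⟨u, ha.symm⟩, ?_⟩
      apply Subtype.ext
      exact hM.inj1 _ _ _ (hf ⟨u, ha.symm⟩) hu
  -- both are sets of matched right vertices
  have h3 : Nat.card {v // (∃ u, M (u, v)) ∧ G.Adj x v} + Nat.card {v // ∃ u, M (u, v) ∧ G.Adj u y} ≤
      Nat.card {u // ∃ v, M (u, v)} + dL (Mid G L M) x := by
    have e1 : Nat.card {v // ∃ u, M (u, v)} = Nat.card {u // ∃ v, M (u, v)} := by
      have e2 := card_exR hM
      have e3 := card_split (fun v => ¬ L v) (fun v => ∃ u, M (u, v))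
      have e4 : Nat.card {v // ¬ L v ∧ ∃ u, M (u, v)} = Nat.card {v // ∃ u, M (u, v)} := by
        apply Nat.card_congr
        apply Equiv.subtypeEquivRight
        intro v
        exact ⟨fun h => h.2, fun ⟨u, hu⟩ => ⟨(hM.edge _ _ hu).2.1, u, hu⟩⟩
      have e5 : Nat.card {v // ¬ L v ∧ ¬ ∃ u, M (u, v)} = Nat.card {v // ExR L M v} := by
        apply Nat.card_congr
        apply Equiv.subtypeEquivRight
        intro v
        unfold ExR
        push Not
        rfl
      omega
    unfold dL
    rw [← e1]
    simp only [Nat.card_eq_fintype_card, Fintype.card_subtype]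
    rw [← Finset.card_union_add_card_inter]
    apply Nat.add_le_add
    · apply Finset.card_le_card
      intro v hv
      simp only [Finset.mem_union, Finset.mem_filter, Finset.mem_univ, true_and] at hv ⊢
      rcases hv with ⟨h, _⟩ | ⟨u, h, _⟩
      · exact h
      · exact ⟨u, h⟩
    · apply Finset.card_le_card
      intro v hv
      simp only [Finset.mem_inter, Finset.mem_filter, Finset.mem_univ, true_and] at hv ⊢
      obtain ⟨⟨_, ha⟩, u, hu, hay⟩ := hv
      exact ⟨ha, u, y, hu, hay, hy⟩
  have h4 := card_ex hM
  omega

theorem ind_card {α : Type*} [Fintype α] (A : α → Prop) : ∑ x, ind (A x) = Nat.card {x // A x} :=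
  (card_sum A).symm

/-- many middle edges are chosen -/
theorem rm_card (hb : Good b) (hM : PMat G L M) (hmax : ∀ u v, ¬ Av G L M u v)
    (hL : ∀ u v, G.Adj u v → (L u ↔ ¬ L v))
    (hc : Nat.card {u // L u} = Nat.card {v // ¬ L v}) {D : ℕ}
    (hore : ∀ u v, L u → ¬ L v → ¬ G.Adj u v → Nat.card {u // L u} ≤ dg G u + dg G v + D) :
    Nat.card {u // ExL L M u} ≤ Nat.card {e : Fin n × Fin n // RM G L b M e} + D + 1 := by
  classical
  set A := Mid G L M with hA
  set X := Nat.card {u // ExL L M u} with hX
  rcases Nat.eq_zero_or_pos X with h0 | hXpos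
  · omega
  obtain ⟨h1, h2, h3, h4⟩ := rnd_spec (γ := Unit) (fun _ _ => True) A hb
  set B := 2 ^ (2 * Nat.size n) with hB
  have hBpos : 0 < B := Nat.two_pow_pos _
  have hBr : (0 : ℝ) < B := by exact_mod_cast hBpos
  have hXr : (0 : ℝ) < X := by exact_mod_cast hXpos
  have hw : ∀ e : Fin n × Fin n, wt (fun (_ : Fin n × Fin n) (_ : Unit) => True) e = 1 := by
    intro e
    unfold wt
    simp
  simp only [hw, mul_one] at h4
  rw [ind_card (fun e => Rnd (γ := Unit) (fun _ _ => True) A b e)] at h4
  change _ ≤ B * Nat.card {e : Fin n × Fin n // RM G L b M e} at h4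
  have hex : ∀ {x v}, A x v → ExL L M x := by
    rintro x v ⟨_, u, y, _, _, hp⟩
    exact hp.1
  have hR : ∀ v, dR A v ≤ X := by
    intro v
    exact Nat.card_le_card_of_injective (fun x => ⟨x.1, hex x.2⟩) fun x y h => by
      have : x.1 = y.1 := congrArg (fun z : {u // ExL L M u} => z.1) h
      exact Subtype.ext this
  -- lower bound for the left side
  have h5 : ∀ x, ExL L M x → (B : ℝ) * ((X : ℝ) - D) / X - n ≤
      ((∑ v, ind (A x v) * (B / max (dL A x) (dR A v)) : ℕ) : ℝ) := by
    intro x hx
    have hmid := mid_card hM hmax hL hc hore hx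
    have e1 : ∀ v, (ind (A x v) : ℝ) * ((B : ℝ) / max (dL A x) X) - 1 ≤
        ((ind (A x v) * (B / max (dL A x) (dR A v)) : ℕ) : ℝ) := by
      intro v
      by_cases hv : A x v
      · rw [ind_pos hv]
        push_cast
        rw [one_mul, one_mul]
        have e2 : 0 < max (dL A x) (dR A v) := lt_of_lt_of_le (dL_pos hv) (le_max_left _ _)
        have e2r : (0 : ℝ) < (max (dL A x) (dR A v) : ℕ) := by exact_mod_cast e2
        have e3 := Nat.lt_div_mul_add e2 (a := B)
        have e4 : (B : ℝ) < ((B / max (dL A x) (dR A v) : ℕ) : ℝ) * (max (dL A x) (dR A v) : ℕ) +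
          (max (dL A x) (dR A v) : ℕ) := by exact_mod_cast e3
        have e5 : (B : ℝ) / (max (dL A x) (dR A v) : ℕ) ≤
            ((B / max (dL A x) (dR A v) : ℕ) : ℝ) + 1 := by
          rw [div_le_iff₀ e2r]
          nlinarith
        have e6 : (B : ℝ) / max (dL A x : ℝ) X ≤ (B : ℝ) / (max (dL A x) (dR A v) : ℕ) := by
          apply div_le_div_of_nonneg_left hBr.le e2r
          push_cast
          exact max_le_max le_rfl (by exact_mod_cast hR v)
        push_cast at e5 e6 ⊢
        linarith
      · rw [ind_neg hv]
        simp
    have e2 : ∑ v, ((ind (A x v) : ℝ) * ((B : ℝ) / max (dL A x) X) - 1) ≤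
        ((∑ v, ind (A x v) * (B / max (dL A x) (dR A v)) : ℕ) : ℝ) := by
      push_cast
      refine Finset.sum_le_sum fun v _ => ?_
      have := e1 v
      push_cast at this
      exact this
    refine le_trans ?_ e2
    rw [Finset.sum_sub_distrib, ← Finset.sum_mul]
    have e3 : (∑ v, (ind (A x v) : ℝ)) = dL A x := by
      rw [← Nat.cast_sum, ind_card]
      rfl
    rw [e3]
    simp only [Finset.sum_const, Finset.card_univ, Fintype.card_fin, nsmul_eq_mul, mul_one]
    have e4 : (B : ℝ) * ((X : ℝ) - D) / X ≤ dL A x * ((B : ℝ) / max (dL A x : ℝ) X) := by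
      have e5 : (X : ℝ) - D ≤ dL A x := by
        have : (X : ℝ) ≤ dL A x + D := by exact_mod_cast hmid
        linarith
      rcases le_total (dL A x : ℝ) X with h | h
      · rw [max_eq_right h]
        rw [← mul_div_assoc]
        apply div_le_div_of_nonneg_right _ hXr.le
        nlinarith
      · rw [max_eq_left h]
        have e6 : (0 : ℝ) < dL A x := lt_of_lt_of_le hXr h
        have e7 : (dL A x : ℝ) * (B / dL A x) = B := by field_simp
        rw [e7, div_le_iff₀ hXr]
        have : (0 : ℝ) ≤ D := Nat.cast_nonneg D
        nlinarith
    rw [← Nat.cast_max] at e4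
    push_cast at e4 ⊢
    linarith
  have h6 : (B : ℝ) * ((X : ℝ) - D) - n ^ 2 ≤
      ((∑ e : Fin n × Fin n, ind (A e.1 e.2) * (B / max (dL A e.1) (dR A e.2)) : ℕ) : ℝ) := by
    rw [Fintype.sum_prod_type]
    have e1 : ∑ x : Fin n, ((ind (ExL L M x) : ℝ) * ((B : ℝ) * ((X : ℝ) - D) / X) - n) ≤
        ((∑ x, ∑ v, ind (A x v) * (B / max (dL A x) (dR A v)) : ℕ) : ℝ) := by
      rw [Nat.cast_sum]
      refine Finset.sum_le_sum fun x _ => ?_
      by_cases hx : ExL L M x
      · rw [ind_pos hx, Nat.cast_one, one_mul]
        exact h5 x hx
      · rw [ind_neg hx, Nat.cast_zero, zero_mul]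
        have : (0 : ℝ) ≤ ((∑ v, ind (A x v) * (B / max (dL A x) (dR A v)) : ℕ) : ℝ) :=
          Nat.cast_nonneg _
        have : (0 : ℝ) ≤ n := Nat.cast_nonneg _
        linarith
    refine le_trans ?_ e1
    rw [Finset.sum_sub_distrib, ← Finset.sum_mul]
    have e3 : (∑ x, (ind (ExL L M x) : ℝ)) = X := by
      rw [← Nat.cast_sum, ind_card]
    rw [e3]
    simp only [Finset.sum_const, Finset.card_univ, Fintype.card_fin, nsmul_eq_mul]
    have e4 : (X : ℝ) * (B * ((X : ℝ) - D) / X) = B * ((X : ℝ) - D) := by field_simp
    rw [e4]
    have e5 : (n : ℝ) * n = n ^ 2 := by ring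
    rw [e5]
  have h7 : (B : ℝ) * ((X : ℝ) - D) - n ^ 2 ≤
      B * (Nat.card {e : Fin n × Fin n // RM G L b M e} : ℝ) := by
    refine h6.trans ?_
    exact_mod_cast h4
  have h8 : ((n : ℝ)) ^ 2 ≤ B := by exact_mod_cast sq_le_B n
  have h9 : (X : ℝ) - D - 1 ≤ (Nat.card {e : Fin n × Fin n // RM G L b M e} : ℝ) := by
    have : (B : ℝ) * ((X : ℝ) - D - 1) ≤
        B * (Nat.card {e : Fin n × Fin n // RM G L b M e} : ℝ) := by nlinarith
    exact le_of_mul_le_mul_left this hBr
  have h10 : (X : ℝ) ≤ (Nat.card {e : Fin n × Fin n // RM G L b M e} + D + 1 : ℕ) := by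
    push_cast
    linarith
  exact_mod_cast h10

theorem swp_card (hb : Good b) (hM : PMat G L M) (hmax : ∀ u v, ¬ Av G L M u v)
    (hL : ∀ u v, G.Adj u v → (L u ↔ ¬ L v))
    (hc : Nat.card {u // L u} = Nat.card {v // ¬ L v}) {D : ℕ}
    (hore : ∀ u v, L u → ¬ L v → ¬ G.Adj u v → Nat.card {u // L u} ≤ dg G u + dg G v + D) :
    Nat.card {u // L u} ≤ Nat.card {u // ∃ v, Swp G L b M (u, v)} + (D + 1) := by
  classical
  obtain ⟨h1, h2, h3⟩ := rm_spec (G := G) (L := L) (M := M) hb
  have e1 := rm_card hb hM hmax hL hc hore
  have e2 := card_ex hM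
  have e3 : Nat.card {e : Fin n × Fin n // RM G L b M e} = Nat.card {u // ∃ v, RM G L b M (u, v)} := by
    refine Nat.card_congr (Equiv.ofBijective (fun e => ⟨e.1.1, e.1.2, e.2⟩) ⟨?_, ?_⟩)
    · rintro ⟨⟨u, v⟩, h⟩ ⟨⟨u', v'⟩, h'⟩ heq
      have e4 : u = u' := congrArg (fun z => z.1) heq
      subst e4
      have e5 := h2 _ _ _ h h'
      subst e5
      rfl
    · rintro ⟨u, v, h⟩
      exact ⟨⟨(u, v), h⟩, rfl⟩
  have e4 : Nat.card {u // ∃ v, M (u, v)} + Nat.card {u // ∃ v, RM G L b M (u, v)} ≤
      Nat.card {u // ∃ v, Swp G L b M (u, v)} := by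
    rw [← Nat.card_sum]
    refine Nat.card_le_card_of_injective (fun x => match x with
      | .inl u => ⟨u.1, swp_dom hb hM (Or.inl u.2)⟩
      | .inr u => ⟨u.1, swp_dom hb hM (Or.inr u.2)⟩) ?_
    have hne : ∀ (u : {u // ∃ v, M (u, v)}) (u' : {u // ∃ v, RM G L b M (u, v)}), u.1 ≠ u'.1 := by
      rintro ⟨u, v, hv⟩ ⟨u', v', hv'⟩ h
      simp only at h
      subst h
      obtain ⟨_, _, _, _, _, hp⟩ := h1 _ _ hv'
      exact hp.1.2 _ hv
    rintro (u | u) (u' | u') h
    · have : u.1 = u'.1 := congrArg (fun z => z.1) h
      rw [Subtype.ext this]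
    · have : u.1 = u'.1 := congrArg (fun z => z.1) h
      exact absurd this (hne u u')
    · have : u.1 = u'.1 := congrArg (fun z => z.1) h
      exact absurd this.symm (hne u' u)
    · have : u.1 = u'.1 := congrArg (fun z => z.1) h
      rw [Subtype.ext this]
  omega

end comb

section def_
variable {E : ℕ → Type} [Env E]
  {L : ∀ n : ℕ, SimpleGraph (Fin n) → Ctx n → E n → Fin n → Prop}
  {M : ∀ n : ℕ, SimpleGraph (Fin n) → Ctx n → E n → Fin n × Fin n → Prop}

theorem DefP.prd (hL : DefP (E := fun n => E n × Fin n) (fun n G X y => L n G X y.1 y.2))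
    (hM : DefP (E := fun n => E n × (Fin n × Fin n)) (fun n G X y => M n G X y.1 y.2)) :
    DefP (E := fun n => E n × (Fin n × Fin n))
      (fun n G X y => Prd (L n G X y.1) (M n G X y.1) y.2.1 y.2.2) := by
  have hexl : DefP (E := fun n => E n × Fin n)
      (fun n G X y => ExL (L n G X y.1) (M n G X y.1) y.2) := by
    refine DefP.exl (E := fun n => E n × Fin n) (L := fun n G X y => L n G X y.1)
      (M := fun n G X y => M n G X y.1) (DefP.app2 hL (by (repeat' (first
          | apply DefP.aug | apply DefP.pth | apply DefP.nx | apply DefP.cnd | apply DefP.hmin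
          | apply DefP.hit | apply DefP.cdn | apply DefP.firstEx | apply DefP.exN
          | apply DefP.end_ | apply DefP.isZero | apply DefP.isSucc | apply DefP.alt
          | apply DefP.exr | apply DefP.exl | apply DefP.cho | apply DefP.halfSet
          | apply DefP.pr | apply DefP.oddRk | apply DefP.side | apply DefP.oddCard
          | apply DefP.cardEq | apply DefP.cardLt | apply DefP.cardLe | apply DefP.lst
          | apply DefP.fst | apply DefP.nxt | apply DefP.keyLe | apply DefP.keyLt
          | apply DefP.rtc | (apply DefP.app4; assumption) | (apply DefP.app3'; assumption)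
          | (apply DefP.app3; assumption) | (apply DefP.app2; assumption)
          | (apply DefP.comp; assumption) | exact Tm.id | exact Tm.unit | apply Tm.fst
          | apply Tm.snd | apply Tm.app | exact DefP.const _ | apply DefP.and | apply DefP.not
          | apply DefP.or | apply DefP.iff | apply DefP.adj | apply DefP.le | apply DefP.lt
          | apply DefP.eqFin | apply DefP.eq | apply DefP.rv | apply DefP.imp
          | apply DefP.allFin | apply DefP.exFin | apply DefP.all | apply DefP.ex | assumption
          | (apply Tm.comp; assumption) | apply Tm.pair | apply Tm.lam))) (by (repeat' (first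
          | apply DefP.aug | apply DefP.pth | apply DefP.nx | apply DefP.cnd | apply DefP.hmin
          | apply DefP.hit | apply DefP.cdn | apply DefP.firstEx | apply DefP.exN
          | apply DefP.end_ | apply DefP.isZero | apply DefP.isSucc | apply DefP.alt
          | apply DefP.exr | apply DefP.exl | apply DefP.cho | apply DefP.halfSet
          | apply DefP.pr | apply DefP.oddRk | apply DefP.side | apply DefP.oddCard
          | apply DefP.cardEq | apply DefP.cardLt | apply DefP.cardLe | apply DefP.lst
          | apply DefP.fst | apply DefP.nxt | apply DefP.keyLe | apply DefP.keyLt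
          | apply DefP.rtc | (apply DefP.app4; assumption) | (apply DefP.app3'; assumption)
          | (apply DefP.app3; assumption) | (apply DefP.app2; assumption)
          | (apply DefP.comp; assumption) | exact Tm.id | exact Tm.unit | apply Tm.fst
          | apply Tm.snd | apply Tm.app | exact DefP.const _ | apply DefP.and | apply DefP.not
          | apply DefP.or | apply DefP.iff | apply DefP.adj | apply DefP.le | apply DefP.lt
          | apply DefP.eqFin | apply DefP.eq | apply DefP.rv | apply DefP.imp
          | apply DefP.allFin | apply DefP.exFin | apply DefP.all | apply DefP.ex | assumption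
          | (apply Tm.comp; assumption) | apply Tm.pair | apply Tm.lam))))
      (DefP.app2 (H := fun n => Fin n × Fin n) hM (by (repeat' (first
          | apply DefP.aug | apply DefP.pth | apply DefP.nx | apply DefP.cnd | apply DefP.hmin
          | apply DefP.hit | apply DefP.cdn | apply DefP.firstEx | apply DefP.exN
          | apply DefP.end_ | apply DefP.isZero | apply DefP.isSucc | apply DefP.alt
          | apply DefP.exr | apply DefP.exl | apply DefP.cho | apply DefP.halfSet
          | apply DefP.pr | apply DefP.oddRk | apply DefP.side | apply DefP.oddCard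
          | apply DefP.cardEq | apply DefP.cardLt | apply DefP.cardLe | apply DefP.lst
          | apply DefP.fst | apply DefP.nxt | apply DefP.keyLe | apply DefP.keyLt
          | apply DefP.rtc | (apply DefP.app4; assumption) | (apply DefP.app3'; assumption)
          | (apply DefP.app3; assumption) | (apply DefP.app2; assumption)
          | (apply DefP.comp; assumption) | exact Tm.id | exact Tm.unit | apply Tm.fst
          | apply Tm.snd | apply Tm.app | exact DefP.const _ | apply DefP.and | apply DefP.not
          | apply DefP.or | apply DefP.iff | apply DefP.adj | apply DefP.le | apply DefP.lt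
          | apply DefP.eqFin | apply DefP.eq | apply DefP.rv | apply DefP.imp
          | apply DefP.allFin | apply DefP.exFin | apply DefP.all | apply DefP.ex | assumption
          | (apply Tm.comp; assumption) | apply Tm.pair | apply Tm.lam))) (by (repeat' (first
          | apply DefP.aug | apply DefP.pth | apply DefP.nx | apply DefP.cnd | apply DefP.hmin
          | apply DefP.hit | apply DefP.cdn | apply DefP.firstEx | apply DefP.exN
          | apply DefP.end_ | apply DefP.isZero | apply DefP.isSucc | apply DefP.alt
          | apply DefP.exr | apply DefP.exl | apply DefP.cho | apply DefP.halfSet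
          | apply DefP.pr | apply DefP.oddRk | apply DefP.side | apply DefP.oddCard
          | apply DefP.cardEq | apply DefP.cardLt | apply DefP.cardLe | apply DefP.lst
          | apply DefP.fst | apply DefP.nxt | apply DefP.keyLe | apply DefP.keyLt
          | apply DefP.rtc | (apply DefP.app4; assumption) | (apply DefP.app3'; assumption)
          | (apply DefP.app3; assumption) | (apply DefP.app2; assumption)
          | (apply DefP.comp; assumption) | exact Tm.id | exact Tm.unit | apply Tm.fst
          | apply Tm.snd | apply Tm.app | exact DefP.const _ | apply DefP.and | apply DefP.not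
          | apply DefP.or | apply DefP.iff | apply DefP.adj | apply DefP.le | apply DefP.lt
          | apply DefP.eqFin | apply DefP.eq | apply DefP.rv | apply DefP.imp
          | apply DefP.allFin | apply DefP.exFin | apply DefP.all | apply DefP.ex | assumption
          | (apply Tm.comp; assumption) | apply Tm.pair | apply Tm.lam)))) (by (repeat' (first
          | apply DefP.aug | apply DefP.pth | apply DefP.nx | apply DefP.cnd | apply DefP.hmin
          | apply DefP.hit | apply DefP.cdn | apply DefP.firstEx | apply DefP.exN
          | apply DefP.end_ | apply DefP.isZero | apply DefP.isSucc | apply DefP.alt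
          | apply DefP.exr | apply DefP.exl | apply DefP.cho | apply DefP.halfSet
          | apply DefP.pr | apply DefP.oddRk | apply DefP.side | apply DefP.oddCard
          | apply DefP.cardEq | apply DefP.cardLt | apply DefP.cardLe | apply DefP.lst
          | apply DefP.fst | apply DefP.nxt | apply DefP.keyLe | apply DefP.keyLt
          | apply DefP.rtc | (apply DefP.app4; assumption) | (apply DefP.app3'; assumption)
          | (apply DefP.app3; assumption) | (apply DefP.app2; assumption)
          | (apply DefP.comp; assumption) | exact Tm.id | exact Tm.unit | apply Tm.fst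
          | apply Tm.snd | apply Tm.app | exact DefP.const _ | apply DefP.and | apply DefP.not
          | apply DefP.or | apply DefP.iff | apply DefP.adj | apply DefP.le | apply DefP.lt
          | apply DefP.eqFin | apply DefP.eq | apply DefP.rv | apply DefP.imp
          | apply DefP.allFin | apply DefP.exFin | apply DefP.all | apply DefP.ex | assumption
          | (apply Tm.comp; assumption) | apply Tm.pair | apply Tm.lam)))
  have hexr : DefP (E := fun n => E n × Fin n)
      (fun n G X y => ExR (L n G X y.1) (M n G X y.1) y.2) := by
    refine DefP.exr (E := fun n => E n × Fin n) (L := fun n G X y => L n G X y.1)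
      (M := fun n G X y => M n G X y.1) (DefP.app2 hL (by (repeat' (first
          | apply DefP.aug | apply DefP.pth | apply DefP.nx | apply DefP.cnd | apply DefP.hmin
          | apply DefP.hit | apply DefP.cdn | apply DefP.firstEx | apply DefP.exN
          | apply DefP.end_ | apply DefP.isZero | apply DefP.isSucc | apply DefP.alt
          | apply DefP.exr | apply DefP.exl | apply DefP.cho | apply DefP.halfSet
          | apply DefP.pr | apply DefP.oddRk | apply DefP.side | apply DefP.oddCard
          | apply DefP.cardEq | apply DefP.cardLt | apply DefP.cardLe | apply DefP.lst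
          | apply DefP.fst | apply DefP.nxt | apply DefP.keyLe | apply DefP.keyLt
          | apply DefP.rtc | (apply DefP.app4; assumption) | (apply DefP.app3'; assumption)
          | (apply DefP.app3; assumption) | (apply DefP.app2; assumption)
          | (apply DefP.comp; assumption) | exact Tm.id | exact Tm.unit | apply Tm.fst
          | apply Tm.snd | apply Tm.app | exact DefP.const _ | apply DefP.and | apply DefP.not
          | apply DefP.or | apply DefP.iff | apply DefP.adj | apply DefP.le | apply DefP.lt
          | apply DefP.eqFin | apply DefP.eq | apply DefP.rv | apply DefP.imp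
          | apply DefP.allFin | apply DefP.exFin | apply DefP.all | apply DefP.ex | assumption
          | (apply Tm.comp; assumption) | apply Tm.pair | apply Tm.lam))) (by (repeat' (first
          | apply DefP.aug | apply DefP.pth | apply DefP.nx | apply DefP.cnd | apply DefP.hmin
          | apply DefP.hit | apply DefP.cdn | apply DefP.firstEx | apply DefP.exN
          | apply DefP.end_ | apply DefP.isZero | apply DefP.isSucc | apply DefP.alt
          | apply DefP.exr | apply DefP.exl | apply DefP.cho | apply DefP.halfSet
          | apply DefP.pr | apply DefP.oddRk | apply DefP.side | apply DefP.oddCard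
          | apply DefP.cardEq | apply DefP.cardLt | apply DefP.cardLe | apply DefP.lst
          | apply DefP.fst | apply DefP.nxt | apply DefP.keyLe | apply DefP.keyLt
          | apply DefP.rtc | (apply DefP.app4; assumption) | (apply DefP.app3'; assumption)
          | (apply DefP.app3; assumption) | (apply DefP.app2; assumption)
          | (apply DefP.comp; assumption) | exact Tm.id | exact Tm.unit | apply Tm.fst
          | apply Tm.snd | apply Tm.app | exact DefP.const _ | apply DefP.and | apply DefP.not
          | apply DefP.or | apply DefP.iff | apply DefP.adj | apply DefP.le | apply DefP.lt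
          | apply DefP.eqFin | apply DefP.eq | apply DefP.rv | apply DefP.imp
          | apply DefP.allFin | apply DefP.exFin | apply DefP.all | apply DefP.ex | assumption
          | (apply Tm.comp; assumption) | apply Tm.pair | apply Tm.lam))))
      (DefP.app2 (H := fun n => Fin n × Fin n) hM (by (repeat' (first
          | apply DefP.aug | apply DefP.pth | apply DefP.nx | apply DefP.cnd | apply DefP.hmin
          | apply DefP.hit | apply DefP.cdn | apply DefP.firstEx | apply DefP.exN
          | apply DefP.end_ | apply DefP.isZero | apply DefP.isSucc | apply DefP.alt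
          | apply DefP.exr | apply DefP.exl | apply DefP.cho | apply DefP.halfSet
          | apply DefP.pr | apply DefP.oddRk | apply DefP.side | apply DefP.oddCard
          | apply DefP.cardEq | apply DefP.cardLt | apply DefP.cardLe | apply DefP.lst
          | apply DefP.fst | apply DefP.nxt | apply DefP.keyLe | apply DefP.keyLt
          | apply DefP.rtc | (apply DefP.app4; assumption) | (apply DefP.app3'; assumption)
          | (apply DefP.app3; assumption) | (apply DefP.app2; assumption)
          | (apply DefP.comp; assumption) | exact Tm.id | exact Tm.unit | apply Tm.fst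
          | apply Tm.snd | apply Tm.app | exact DefP.const _ | apply DefP.and | apply DefP.not
          | apply DefP.or | apply DefP.iff | apply DefP.adj | apply DefP.le | apply DefP.lt
          | apply DefP.eqFin | apply DefP.eq | apply DefP.rv | apply DefP.imp
          | apply DefP.allFin | apply DefP.exFin | apply DefP.all | apply DefP.ex | assumption
          | (apply Tm.comp; assumption) | apply Tm.pair | apply Tm.lam))) (by (repeat' (first
          | apply DefP.aug | apply DefP.pth | apply DefP.nx | apply DefP.cnd | apply DefP.hmin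
          | apply DefP.hit | apply DefP.cdn | apply DefP.firstEx | apply DefP.exN
          | apply DefP.end_ | apply DefP.isZero | apply DefP.isSucc | apply DefP.alt
          | apply DefP.exr | apply DefP.exl | apply DefP.cho | apply DefP.halfSet
          | apply DefP.pr | apply DefP.oddRk | apply DefP.side | apply DefP.oddCard
          | apply DefP.cardEq | apply DefP.cardLt | apply DefP.cardLe | apply DefP.lst
          | apply DefP.fst | apply DefP.nxt | apply DefP.keyLe | apply DefP.keyLt
          | apply DefP.rtc | (apply DefP.app4; assumption) | (apply DefP.app3'; assumption)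
          | (apply DefP.app3; assumption) | (apply DefP.app2; assumption)
          | (apply DefP.comp; assumption) | exact Tm.id | exact Tm.unit | apply Tm.fst
          | apply Tm.snd | apply Tm.app | exact DefP.const _ | apply DefP.and | apply DefP.not
          | apply DefP.or | apply DefP.iff | apply DefP.adj | apply DefP.le | apply DefP.lt
          | apply DefP.eqFin | apply DefP.eq | apply DefP.rv | apply DefP.imp
          | apply DefP.allFin | apply DefP.exFin | apply DefP.all | apply DefP.ex | assumption
          | (apply Tm.comp; assumption) | apply Tm.pair | apply Tm.lam)))) (by (repeat' (first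
          | apply DefP.aug | apply DefP.pth | apply DefP.nx | apply DefP.cnd | apply DefP.hmin
          | apply DefP.hit | apply DefP.cdn | apply DefP.firstEx | apply DefP.exN
          | apply DefP.end_ | apply DefP.isZero | apply DefP.isSucc | apply DefP.alt
          | apply DefP.exr | apply DefP.exl | apply DefP.cho | apply DefP.halfSet
          | apply DefP.pr | apply DefP.oddRk | apply DefP.side | apply DefP.oddCard
          | apply DefP.cardEq | apply DefP.cardLt | apply DefP.cardLe | apply DefP.lst
          | apply DefP.fst | apply DefP.nxt | apply DefP.keyLe | apply DefP.keyLt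
          | apply DefP.rtc | (apply DefP.app4; assumption) | (apply DefP.app3'; assumption)
          | (apply DefP.app3; assumption) | (apply DefP.app2; assumption)
          | (apply DefP.comp; assumption) | exact Tm.id | exact Tm.unit | apply Tm.fst
          | apply Tm.snd | apply Tm.app | exact DefP.const _ | apply DefP.and | apply DefP.not
          | apply DefP.or | apply DefP.iff | apply DefP.adj | apply DefP.le | apply DefP.lt
          | apply DefP.eqFin | apply DefP.eq | apply DefP.rv | apply DefP.imp
          | apply DefP.allFin | apply DefP.exFin | apply DefP.all | apply DefP.ex | assumption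
          | (apply Tm.comp; assumption) | apply Tm.pair | apply Tm.lam)))
  unfold Prd
  refine DefP.and ?_ (DefP.and ?_ ?_)
  · exact DefP.app2 (F := E) (P := fun n G X x u => ExL (L n G X x) (M n G X x) u) hexl
      (by (repeat' (first
          | apply DefP.aug | apply DefP.pth | apply DefP.nx | apply DefP.cnd | apply DefP.hmin
          | apply DefP.hit | apply DefP.cdn | apply DefP.firstEx | apply DefP.exN
          | apply DefP.end_ | apply DefP.isZero | apply DefP.isSucc | apply DefP.alt
          | apply DefP.exr | apply DefP.exl | apply DefP.cho | apply DefP.halfSet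
          | apply DefP.pr | apply DefP.oddRk | apply DefP.side | apply DefP.oddCard
          | apply DefP.cardEq | apply DefP.cardLt | apply DefP.cardLe | apply DefP.lst
          | apply DefP.fst | apply DefP.nxt | apply DefP.keyLe | apply DefP.keyLt
          | apply DefP.rtc | (apply DefP.app4; assumption) | (apply DefP.app3'; assumption)
          | (apply DefP.app3; assumption) | (apply DefP.app2; assumption)
          | (apply DefP.comp; assumption) | exact Tm.id | exact Tm.unit | apply Tm.fst
          | apply Tm.snd | apply Tm.app | exact DefP.const _ | apply DefP.and | apply DefP.not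
          | apply DefP.or | apply DefP.iff | apply DefP.adj | apply DefP.le | apply DefP.lt
          | apply DefP.eqFin | apply DefP.eq | apply DefP.rv | apply DefP.imp
          | apply DefP.allFin | apply DefP.exFin | apply DefP.all | apply DefP.ex | assumption
          | (apply Tm.comp; assumption) | apply Tm.pair | apply Tm.lam))) (by (repeat' (first
          | apply DefP.aug | apply DefP.pth | apply DefP.nx | apply DefP.cnd | apply DefP.hmin
          | apply DefP.hit | apply DefP.cdn | apply DefP.firstEx | apply DefP.exN
          | apply DefP.end_ | apply DefP.isZero | apply DefP.isSucc | apply DefP.alt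
          | apply DefP.exr | apply DefP.exl | apply DefP.cho | apply DefP.halfSet
          | apply DefP.pr | apply DefP.oddRk | apply DefP.side | apply DefP.oddCard
          | apply DefP.cardEq | apply DefP.cardLt | apply DefP.cardLe | apply DefP.lst
          | apply DefP.fst | apply DefP.nxt | apply DefP.keyLe | apply DefP.keyLt
          | apply DefP.rtc | (apply DefP.app4; assumption) | (apply DefP.app3'; assumption)
          | (apply DefP.app3; assumption) | (apply DefP.app2; assumption)
          | (apply DefP.comp; assumption) | exact Tm.id | exact Tm.unit | apply Tm.fst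
          | apply Tm.snd | apply Tm.app | exact DefP.const _ | apply DefP.and | apply DefP.not
          | apply DefP.or | apply DefP.iff | apply DefP.adj | apply DefP.le | apply DefP.lt
          | apply DefP.eqFin | apply DefP.eq | apply DefP.rv | apply DefP.imp
          | apply DefP.allFin | apply DefP.exFin | apply DefP.all | apply DefP.ex | assumption
          | (apply Tm.comp; assumption) | apply Tm.pair | apply Tm.lam)))
  · exact DefP.app2 (F := E) (P := fun n G X x u => ExR (L n G X x) (M n G X x) u) hexr
      (by (repeat' (first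
          | apply DefP.aug | apply DefP.pth | apply DefP.nx | apply DefP.cnd | apply DefP.hmin
          | apply DefP.hit | apply DefP.cdn | apply DefP.firstEx | apply DefP.exN
          | apply DefP.end_ | apply DefP.isZero | apply DefP.isSucc | apply DefP.alt
          | apply DefP.exr | apply DefP.exl | apply DefP.cho | apply DefP.halfSet
          | apply DefP.pr | apply DefP.oddRk | apply DefP.side | apply DefP.oddCard
          | apply DefP.cardEq | apply DefP.cardLt | apply DefP.cardLe | apply DefP.lst
          | apply DefP.fst | apply DefP.nxt | apply DefP.keyLe | apply DefP.keyLt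
          | apply DefP.rtc | (apply DefP.app4; assumption) | (apply DefP.app3'; assumption)
          | (apply DefP.app3; assumption) | (apply DefP.app2; assumption)
          | (apply DefP.comp; assumption) | exact Tm.id | exact Tm.unit | apply Tm.fst
          | apply Tm.snd | apply Tm.app | exact DefP.const _ | apply DefP.and | apply DefP.not
          | apply DefP.or | apply DefP.iff | apply DefP.adj | apply DefP.le | apply DefP.lt
          | apply DefP.eqFin | apply DefP.eq | apply DefP.rv | apply DefP.imp
          | apply DefP.allFin | apply DefP.exFin | apply DefP.all | apply DefP.ex | assumption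
          | (apply Tm.comp; assumption) | apply Tm.pair | apply Tm.lam))) (by (repeat' (first
          | apply DefP.aug | apply DefP.pth | apply DefP.nx | apply DefP.cnd | apply DefP.hmin
          | apply DefP.hit | apply DefP.cdn | apply DefP.firstEx | apply DefP.exN
          | apply DefP.end_ | apply DefP.isZero | apply DefP.isSucc | apply DefP.alt
          | apply DefP.exr | apply DefP.exl | apply DefP.cho | apply DefP.halfSet
          | apply DefP.pr | apply DefP.oddRk | apply DefP.side | apply DefP.oddCard
          | apply DefP.cardEq | apply DefP.cardLt | apply DefP.cardLe | apply DefP.lst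
          | apply DefP.fst | apply DefP.nxt | apply DefP.keyLe | apply DefP.keyLt
          | apply DefP.rtc | (apply DefP.app4; assumption) | (apply DefP.app3'; assumption)
          | (apply DefP.app3; assumption) | (apply DefP.app2; assumption)
          | (apply DefP.comp; assumption) | exact Tm.id | exact Tm.unit | apply Tm.fst
          | apply Tm.snd | apply Tm.app | exact DefP.const _ | apply DefP.and | apply DefP.not
          | apply DefP.or | apply DefP.iff | apply DefP.adj | apply DefP.le | apply DefP.lt
          | apply DefP.eqFin | apply DefP.eq | apply DefP.rv | apply DefP.imp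
          | apply DefP.allFin | apply DefP.exFin | apply DefP.all | apply DefP.ex | assumption
          | (apply Tm.comp; assumption) | apply Tm.pair | apply Tm.lam)))
  · exact DefP.rkEq (E := E) (S := fun n => Fin n) (T := fun n => Fin n)
      (A := fun n G X x u => ExL (L n G X x) (M n G X x) u)
      (B := fun n G X x u => ExR (L n G X x) (M n G X x) u) hexl hexr

theorem DefP.mid (hL : DefP (E := fun n => E n × Fin n) (fun n G X y => L n G X y.1 y.2))
    (hM : DefP (E := fun n => E n × (Fin n × Fin n)) (fun n G X y => M n G X y.1 y.2)) :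
    DefP (E := fun n => E n × (Fin n × Fin n))
      (fun n G X y => Mid G (L n G X y.1) (M n G X y.1) y.2.1 y.2.2) := by
  have hp := DefP.prd hL hM
  unfold Mid
  refine DefP.and (by (repeat' (first
      | apply DefP.aug | apply DefP.pth | apply DefP.nx | apply DefP.cnd | apply DefP.hmin
      | apply DefP.hit | apply DefP.cdn | apply DefP.firstEx | apply DefP.exN | apply DefP.end_
      | apply DefP.isZero | apply DefP.isSucc | apply DefP.alt | apply DefP.exr | apply DefP.exl
      | apply DefP.cho | apply DefP.halfSet | apply DefP.pr | apply DefP.oddRk | apply DefP.side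
      | apply DefP.oddCard | apply DefP.cardEq | apply DefP.cardLt | apply DefP.cardLe
      | apply DefP.lst | apply DefP.fst | apply DefP.nxt | apply DefP.keyLe | apply DefP.keyLt
      | apply DefP.rtc | (apply DefP.app4; assumption) | (apply DefP.app3'; assumption)
      | (apply DefP.app3; assumption) | (apply DefP.app2; assumption)
      | (apply DefP.comp; assumption) | exact Tm.id | exact Tm.unit | apply Tm.fst
      | apply Tm.snd | apply Tm.app | exact DefP.const _ | apply DefP.and | apply DefP.not
      | apply DefP.or | apply DefP.iff | apply DefP.adj | apply DefP.le | apply DefP.lt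
      | apply DefP.eqFin | apply DefP.eq | apply DefP.rv | apply DefP.imp | apply DefP.allFin
      | apply DefP.exFin | apply DefP.all | apply DefP.ex | assumption
      | (apply Tm.comp; assumption) | apply Tm.pair
      | apply Tm.lam))) (DefP.exFin (DefP.exFin (DefP.and (by (repeat' (first
      | apply DefP.aug | apply DefP.pth | apply DefP.nx | apply DefP.cnd | apply DefP.hmin
      | apply DefP.hit | apply DefP.cdn | apply DefP.firstEx | apply DefP.exN | apply DefP.end_
      | apply DefP.isZero | apply DefP.isSucc | apply DefP.alt | apply DefP.exr | apply DefP.exl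
      | apply DefP.cho | apply DefP.halfSet | apply DefP.pr | apply DefP.oddRk | apply DefP.side
      | apply DefP.oddCard | apply DefP.cardEq | apply DefP.cardLt | apply DefP.cardLe
      | apply DefP.lst | apply DefP.fst | apply DefP.nxt | apply DefP.keyLe | apply DefP.keyLt
      | apply DefP.rtc | (apply DefP.app4; assumption) | (apply DefP.app3'; assumption)
      | (apply DefP.app3; assumption) | (apply DefP.app2; assumption)
      | (apply DefP.comp; assumption) | exact Tm.id | exact Tm.unit | apply Tm.fst
      | apply Tm.snd | apply Tm.app | exact DefP.const _ | apply DefP.and | apply DefP.not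
      | apply DefP.or | apply DefP.iff | apply DefP.adj | apply DefP.le | apply DefP.lt
      | apply DefP.eqFin | apply DefP.eq | apply DefP.rv | apply DefP.imp | apply DefP.allFin
      | apply DefP.exFin | apply DefP.all | apply DefP.ex | assumption
      | (apply Tm.comp; assumption) | apply Tm.pair
      | apply Tm.lam))) (DefP.and (by (repeat' (first
      | apply DefP.aug | apply DefP.pth | apply DefP.nx | apply DefP.cnd | apply DefP.hmin
      | apply DefP.hit | apply DefP.cdn | apply DefP.firstEx | apply DefP.exN | apply DefP.end_
      | apply DefP.isZero | apply DefP.isSucc | apply DefP.alt | apply DefP.exr | apply DefP.exl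
      | apply DefP.cho | apply DefP.halfSet | apply DefP.pr | apply DefP.oddRk | apply DefP.side
      | apply DefP.oddCard | apply DefP.cardEq | apply DefP.cardLt | apply DefP.cardLe
      | apply DefP.lst | apply DefP.fst | apply DefP.nxt | apply DefP.keyLe | apply DefP.keyLt
      | apply DefP.rtc | (apply DefP.app4; assumption) | (apply DefP.app3'; assumption)
      | (apply DefP.app3; assumption) | (apply DefP.app2; assumption)
      | (apply DefP.comp; assumption) | exact Tm.id | exact Tm.unit | apply Tm.fst
      | apply Tm.snd | apply Tm.app | exact DefP.const _ | apply DefP.and | apply DefP.not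
      | apply DefP.or | apply DefP.iff | apply DefP.adj | apply DefP.le | apply DefP.lt
      | apply DefP.eqFin | apply DefP.eq | apply DefP.rv | apply DefP.imp | apply DefP.allFin
      | apply DefP.exFin | apply DefP.all | apply DefP.ex | assumption
      | (apply Tm.comp; assumption) | apply Tm.pair | apply Tm.lam))) ?_))))
  exact DefP.app3 (F := E) (P := fun n G X x u v => Prd (L n G X x) (M n G X x) u v) hp
      (by (repeat' (first
          | apply DefP.aug | apply DefP.pth | apply DefP.nx | apply DefP.cnd | apply DefP.hmin
          | apply DefP.hit | apply DefP.cdn | apply DefP.firstEx | apply DefP.exN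
          | apply DefP.end_ | apply DefP.isZero | apply DefP.isSucc | apply DefP.alt
          | apply DefP.exr | apply DefP.exl | apply DefP.cho | apply DefP.halfSet
          | apply DefP.pr | apply DefP.oddRk | apply DefP.side | apply DefP.oddCard
          | apply DefP.cardEq | apply DefP.cardLt | apply DefP.cardLe | apply DefP.lst
          | apply DefP.fst | apply DefP.nxt | apply DefP.keyLe | apply DefP.keyLt
          | apply DefP.rtc | (apply DefP.app4; assumption) | (apply DefP.app3'; assumption)
          | (apply DefP.app3; assumption) | (apply DefP.app2; assumption)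
          | (apply DefP.comp; assumption) | exact Tm.id | exact Tm.unit | apply Tm.fst
          | apply Tm.snd | apply Tm.app | exact DefP.const _ | apply DefP.and | apply DefP.not
          | apply DefP.or | apply DefP.iff | apply DefP.adj | apply DefP.le | apply DefP.lt
          | apply DefP.eqFin | apply DefP.eq | apply DefP.rv | apply DefP.imp
          | apply DefP.allFin | apply DefP.exFin | apply DefP.all | apply DefP.ex | assumption
          | (apply Tm.comp; assumption) | apply Tm.pair | apply Tm.lam))) (by (repeat' (first
          | apply DefP.aug | apply DefP.pth | apply DefP.nx | apply DefP.cnd | apply DefP.hmin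
          | apply DefP.hit | apply DefP.cdn | apply DefP.firstEx | apply DefP.exN
          | apply DefP.end_ | apply DefP.isZero | apply DefP.isSucc | apply DefP.alt
          | apply DefP.exr | apply DefP.exl | apply DefP.cho | apply DefP.halfSet
          | apply DefP.pr | apply DefP.oddRk | apply DefP.side | apply DefP.oddCard
          | apply DefP.cardEq | apply DefP.cardLt | apply DefP.cardLe | apply DefP.lst
          | apply DefP.fst | apply DefP.nxt | apply DefP.keyLe | apply DefP.keyLt
          | apply DefP.rtc | (apply DefP.app4; assumption) | (apply DefP.app3'; assumption)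
          | (apply DefP.app3; assumption) | (apply DefP.app2; assumption)
          | (apply DefP.comp; assumption) | exact Tm.id | exact Tm.unit | apply Tm.fst
          | apply Tm.snd | apply Tm.app | exact DefP.const _ | apply DefP.and | apply DefP.not
          | apply DefP.or | apply DefP.iff | apply DefP.adj | apply DefP.le | apply DefP.lt
          | apply DefP.eqFin | apply DefP.eq | apply DefP.rv | apply DefP.imp
          | apply DefP.allFin | apply DefP.exFin | apply DefP.all | apply DefP.ex | assumption
          | (apply Tm.comp; assumption) | apply Tm.pair | apply Tm.lam))) (by (repeat' (first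
          | apply DefP.aug | apply DefP.pth | apply DefP.nx | apply DefP.cnd | apply DefP.hmin
          | apply DefP.hit | apply DefP.cdn | apply DefP.firstEx | apply DefP.exN
          | apply DefP.end_ | apply DefP.isZero | apply DefP.isSucc | apply DefP.alt
          | apply DefP.exr | apply DefP.exl | apply DefP.cho | apply DefP.halfSet
          | apply DefP.pr | apply DefP.oddRk | apply DefP.side | apply DefP.oddCard
          | apply DefP.cardEq | apply DefP.cardLt | apply DefP.cardLe | apply DefP.lst
          | apply DefP.fst | apply DefP.nxt | apply DefP.keyLe | apply DefP.keyLt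
          | apply DefP.rtc | (apply DefP.app4; assumption) | (apply DefP.app3'; assumption)
          | (apply DefP.app3; assumption) | (apply DefP.app2; assumption)
          | (apply DefP.comp; assumption) | exact Tm.id | exact Tm.unit | apply Tm.fst
          | apply Tm.snd | apply Tm.app | exact DefP.const _ | apply DefP.and | apply DefP.not
          | apply DefP.or | apply DefP.iff | apply DefP.adj | apply DefP.le | apply DefP.lt
          | apply DefP.eqFin | apply DefP.eq | apply DefP.rv | apply DefP.imp
          | apply DefP.allFin | apply DefP.exFin | apply DefP.all | apply DefP.ex | assumption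
          | (apply Tm.comp; assumption) | apply Tm.pair | apply Tm.lam)))

theorem DefP.rm (hL : DefP (E := fun n => E n × Fin n) (fun n G X y => L n G X y.1 y.2))
    (hM : DefP (E := fun n => E n × (Fin n × Fin n)) (fun n G X y => M n G X y.1 y.2))
    {b : ∀ n : ℕ, E n → Fin 4 → Fin n} (hb : Tm (F := fun n => Fin 4 → Fin n) b) :
    DefP (E := fun n => E n × (Fin n × Fin n))
      (fun n G X y => RM G (L n G X y.1) (b n y.1) (M n G X y.1) y.2) := by
  unfold RM
  exact DefP.rnd (E := E) (C := fun _ => Unit)
    (A := fun n G X x => Mid G (L n G X x) (M n G X x))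
    (Wt := fun n G X x _ _ => True) (DefP.mid hL hM) (DefP.const True) hb

theorem DefP.swp (hL : DefP (E := fun n => E n × Fin n) (fun n G X y => L n G X y.1 y.2))
    (hM : DefP (E := fun n => E n × (Fin n × Fin n)) (fun n G X y => M n G X y.1 y.2))
    {b : ∀ n : ℕ, E n → Fin 4 → Fin n} (hb : Tm (F := fun n => Fin 4 → Fin n) b) :
    DefP (E := fun n => E n × (Fin n × Fin n))
      (fun n G X y => Swp G (L n G X y.1) (b n y.1) (M n G X y.1) y.2) := by
  have hr := DefP.rm hL hM hb
  have hp := DefP.prd hL hM
  have hr' : ∀ {F : ℕ → Type} [Env F] {f : ∀ n : ℕ, F n → E n} {g : ∀ n : ℕ, F n → Fin n × Fin n}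
      (hf : Tm f) (hg : Tm (F := fun n => Fin n × Fin n) g),
      DefP (fun n G X x => RM G (L n G X (f n x)) (b n (f n x)) (M n G X (f n x)) (g n x)) := by
    intro F _ f g hf hg
    exact DefP.app2 (F := E) (H := fun n => Fin n × Fin n)
      (P := fun n G X x e => RM G (L n G X x) (b n x) (M n G X x) e) hr hf hg
  have hp' : ∀ {F : ℕ → Type} [Env F] {f : ∀ n : ℕ, F n → E n} {g h : ∀ n : ℕ, F n → Fin n}
      (hf : Tm f) (hg : Tm (F := fun n => Fin n) g) (hh : Tm (F := fun n => Fin n) h),
      DefP (fun n G X x => Prd (L n G X (f n x)) (M n G X (f n x)) (g n x) (h n x)) := by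
    intro F _ f g h hf hg hh
    exact DefP.app3 (F := E) (P := fun n G X x u v => Prd (L n G X x) (M n G X x) u v) hp hf hg hh
  unfold Swp
  refine DefP.or (DefP.and hM (DefP.not (DefP.exFin (hr' ?_ ?_)))) (DefP.or hr
    (DefP.exFin (DefP.exFin (DefP.and (hr' ?_ ?_) (DefP.and ?_ (DefP.and ?_ (hp' ?_ ?_ ?_)))))))
  all_goals (repeat' (first
      | apply DefP.aug | apply DefP.pth | apply DefP.nx | apply DefP.cnd | apply DefP.hmin
      | apply DefP.hit | apply DefP.cdn | apply DefP.firstEx | apply DefP.exN | apply DefP.end_
      | apply DefP.isZero | apply DefP.isSucc | apply DefP.alt | apply DefP.exr | apply DefP.exl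
      | apply DefP.cho | apply DefP.halfSet | apply DefP.pr | apply DefP.oddRk | apply DefP.side
      | apply DefP.oddCard | apply DefP.cardEq | apply DefP.cardLt | apply DefP.cardLe
      | apply DefP.lst | apply DefP.fst | apply DefP.nxt | apply DefP.keyLe | apply DefP.keyLt
      | apply DefP.rtc | (apply DefP.app4; assumption) | (apply DefP.app3'; assumption)
      | (apply DefP.app3; assumption) | (apply DefP.app2; assumption)
      | (apply DefP.comp; assumption) | exact Tm.id | exact Tm.unit | apply Tm.fst
      | apply Tm.snd | apply Tm.app | exact DefP.const _ | apply DefP.and | apply DefP.not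
      | apply DefP.or | apply DefP.iff | apply DefP.adj | apply DefP.le | apply DefP.lt
      | apply DefP.eqFin | apply DefP.eq | apply DefP.rv | apply DefP.imp | apply DefP.allFin
      | apply DefP.exFin | apply DefP.all | apply DefP.ex | assumption
      | (apply Tm.comp; assumption) | apply Tm.pair | apply Tm.lam))

end def_

end Pool.Agent.PMNC
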