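import Mathlib
import Pool.Agent.Lib.MP_0087d5_lc.Swap
import Pool.Agent.Lib.MP_0087d5_lc.R1

set_option autoImplicit false
set_option linter.all false

/-!
# Perfect matchings in bipartite graphs a little below the bipartite Ore bound
-/

namespace Pool.Agent.PMNC

open Relation

/-- the matching before the augmentations -/
def Mat5 {n : ℕ} (G : SimpleGraph (Fin n)) (b : Fin 4 → Fin n) (e : Fin n × Fin n) : Prop :=
  Swp G (Sd G) b (MM G (Sd G) b) e

/-- the final matching -/
def Fin5 {n : ℕ} (d : ℕ) (G : SimpleGraph (Fin n)) (b : Fin 4 → Fin n) : Fin n × Fin n → Prop :=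
  (Aug G (Sd G))^[(2 * Nat.size n) ^ (d + 1)] (Mat5 G b)

/-- the language -/
def Lang5 (d : ℕ) (n : ℕ) (G : SimpleGraph (Fin n)) : Prop :=
  (∀ v : Fin n, False) ∨ ∃ b : Fin 4 → Fin n,
    IsPM G (fun u v => Fin5 d G b (u, v) ∨ Fin5 d G b (v, u))

theorem defP_mat5 : DefP (E := fun n => (Fin 4 → Fin n) × (Fin n × Fin n))
    (fun n G X y => Mat5 G y.1 y.2) := by
  unfold Mat5
  refine DefP.swp (E := fun n => Fin 4 → Fin n) (L := fun n G X b v => Sd G v)
    (M := fun n G X b s => MM G (Sd G) b s) (b := fun n b => b) (defP_sd (by (repeat' (first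
        | apply DefP.aug | apply DefP.pth | apply DefP.nx | apply DefP.cnd | apply DefP.hmin
        | apply DefP.hit | apply DefP.cdn | apply DefP.firstEx | apply DefP.exN
        | apply DefP.end_ | apply DefP.isZero | apply DefP.isSucc | apply DefP.alt
        | apply DefP.exr | apply DefP.exl | apply DefP.cho | apply DefP.halfSet | apply DefP.pr
        | apply DefP.oddRk | apply DefP.side | apply DefP.oddCard | apply DefP.cardEq
        | apply DefP.cardLt | apply DefP.cardLe | apply DefP.lst | apply DefP.fst
        | apply DefP.nxt | apply DefP.keyLe | apply DefP.keyLt | apply DefP.rtc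
        | (apply DefP.app4; assumption) | (apply DefP.app3'; assumption)
        | (apply DefP.app3; assumption) | (apply DefP.app2; assumption)
        | (apply DefP.comp; assumption) | exact Tm.id | exact Tm.unit | apply Tm.fst
        | apply Tm.snd | apply Tm.app | exact DefP.const _ | apply DefP.and | apply DefP.not
        | apply DefP.or | apply DefP.iff | apply DefP.adj | apply DefP.le | apply DefP.lt
        | apply DefP.eqFin | apply DefP.eq | apply DefP.rv | apply DefP.imp | apply DefP.allFin
        | apply DefP.exFin | apply DefP.all | apply DefP.ex | assumption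
        | (apply Tm.comp; assumption) | apply Tm.pair | apply Tm.lam)))) ?_ Tm.id
  exact DefP.mm (E := fun n => Fin 4 → Fin n) (L := fun n G X b v => Sd G v)
    (b := fun n b => b) (defP_sd (by (repeat' (first
        | apply DefP.aug | apply DefP.pth | apply DefP.nx | apply DefP.cnd | apply DefP.hmin
        | apply DefP.hit | apply DefP.cdn | apply DefP.firstEx | apply DefP.exN
        | apply DefP.end_ | apply DefP.isZero | apply DefP.isSucc | apply DefP.alt
        | apply DefP.exr | apply DefP.exl | apply DefP.cho | apply DefP.halfSet | apply DefP.pr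
        | apply DefP.oddRk | apply DefP.side | apply DefP.oddCard | apply DefP.cardEq
        | apply DefP.cardLt | apply DefP.cardLe | apply DefP.lst | apply DefP.fst
        | apply DefP.nxt | apply DefP.keyLe | apply DefP.keyLt | apply DefP.rtc
        | (apply DefP.app4; assumption) | (apply DefP.app3'; assumption)
        | (apply DefP.app3; assumption) | (apply DefP.app2; assumption)
        | (apply DefP.comp; assumption) | exact Tm.id | exact Tm.unit | apply Tm.fst
        | apply Tm.snd | apply Tm.app | exact DefP.const _ | apply DefP.and | apply DefP.not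
        | apply DefP.or | apply DefP.iff | apply DefP.adj | apply DefP.le | apply DefP.lt
        | apply DefP.eqFin | apply DefP.eq | apply DefP.rv | apply DefP.imp | apply DefP.allFin
        | apply DefP.exFin | apply DefP.all | apply DefP.ex | assumption
        | (apply Tm.comp; assumption) | apply Tm.pair | apply Tm.lam)))) Tm.id

theorem defP_fin5 (d : ℕ) : DefP (E := fun n => (Fin 4 → Fin n) × (Fin n × Fin n))
    (fun n G X y => Fin5 d G y.1 y.2) := by
  unfold Fin5
  refine DefP.iterPow' (E := fun n => Fin 4 → Fin n) (S := fun n => Fin n × Fin n) 2 d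
    (I := fun n G X b => Mat5 G b) (Φ := fun n G b Q => Aug G (Sd G) Q) defP_mat5 ?_
  exact DefP.aug (E := fun n => (Fin 4 → Fin n) × (Fin n × Fin n))
    (L := fun n G X y v => Sd G v) (M := fun n G X y s => rv (S := fun n => Fin n × Fin n) X 0 s)
    (e := fun n y => y.2) (defP_sd (by (repeat' (first
        | apply DefP.aug | apply DefP.pth | apply DefP.nx | apply DefP.cnd | apply DefP.hmin
        | apply DefP.hit | apply DefP.cdn | apply DefP.firstEx | apply DefP.exN
        | apply DefP.end_ | apply DefP.isZero | apply DefP.isSucc | apply DefP.alt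
        | apply DefP.exr | apply DefP.exl | apply DefP.cho | apply DefP.halfSet | apply DefP.pr
        | apply DefP.oddRk | apply DefP.side | apply DefP.oddCard | apply DefP.cardEq
        | apply DefP.cardLt | apply DefP.cardLe | apply DefP.lst | apply DefP.fst
        | apply DefP.nxt | apply DefP.keyLe | apply DefP.keyLt | apply DefP.rtc
        | (apply DefP.app4; assumption) | (apply DefP.app3'; assumption)
        | (apply DefP.app3; assumption) | (apply DefP.app2; assumption)
        | (apply DefP.comp; assumption) | exact Tm.id | exact Tm.unit | apply Tm.fst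
        | apply Tm.snd | apply Tm.app | exact DefP.const _ | apply DefP.and | apply DefP.not
        | apply DefP.or | apply DefP.iff | apply DefP.adj | apply DefP.le | apply DefP.lt
        | apply DefP.eqFin | apply DefP.eq | apply DefP.rv | apply DefP.imp | apply DefP.allFin
        | apply DefP.exFin | apply DefP.all | apply DefP.ex | assumption
        | (apply Tm.comp; assumption) | apply Tm.pair
        | apply Tm.lam)))) (DefP.rv 0 (Tm.snd Tm.id)) (Tm.snd Tm.id)

theorem inNC_lang5 (d : ℕ) : InNC (Lang5 d) := by
  apply inNC_of_defP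
  unfold Lang5
  refine DefP.or (by (repeat' (first
      | apply DefP.aug | apply DefP.pth | apply DefP.nx | apply DefP.cnd | apply DefP.hmin
      | apply DefP.hit | apply DefP.cdn | apply DefP.firstEx | apply DefP.exN | apply DefP.end_
      | apply DefP.isZero | apply DefP.isSucc | apply DefP.alt | apply DefP.exr | apply DefP.exl
      | apply DefP.cho | apply DefP.halfSet | apply DefP.pr | apply DefP.oddRk | apply DefP.side
      | apply DefP.oddCard | apply DefP.cardEq | apply DefP.cardLt | apply DefP.cardLe
      | apply DefP.lst | apply DefP.fst | apply DefP.nxt | apply DefP.keyLe | apply DefP.keyLt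
      | apply DefP.rtc | (apply DefP.app4; assumption) | (apply DefP.app3'; assumption)
      | (apply DefP.app3; assumption) | (apply DefP.app2; assumption)
      | (apply DefP.comp; assumption) | exact Tm.id | exact Tm.unit | apply Tm.fst
      | apply Tm.snd | apply Tm.app | exact DefP.const _ | apply DefP.and | apply DefP.not
      | apply DefP.or | apply DefP.iff | apply DefP.adj | apply DefP.le | apply DefP.lt
      | apply DefP.eqFin | apply DefP.eq | apply DefP.rv | apply DefP.imp | apply DefP.allFin
      | apply DefP.exFin | apply DefP.all | apply DefP.ex | assumption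
      | (apply Tm.comp; assumption) | apply Tm.pair
      | apply Tm.lam))) (DefP.ex (F := fun n => Fin 4 → Fin n) ?_)
  unfold IsPM
  have hf : ∀ {E : ℕ → Type} [Env E] {f : ∀ n : ℕ, E n → Fin 4 → Fin n}
      {g h : ∀ n : ℕ, E n → Fin n} (hf : Tm (F := fun n => Fin 4 → Fin n) f)
      (hg : Tm (F := fun n => Fin n) g) (hh : Tm (F := fun n => Fin n) h),
      DefP (fun n G X x => Fin5 d G (f n x) (g n x, h n x)) := by
    intro E _ f g h hf hg hh
    exact DefP.app2 (F := fun n => Fin 4 → Fin n) (H := fun n => Fin n × Fin n)
      (P := fun n G X b s => Fin5 d G b s) (defP_fin5 d) hf (hg.pair hh)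
  refine DefP.allFin (DefP.and (DefP.exFin (DefP.or (hf ?_ ?_ ?_) (hf ?_ ?_ ?_)))
    (DefP.allFin (DefP.imp (DefP.or (hf ?_ ?_ ?_) (hf ?_ ?_ ?_)) (DefP.and (by (repeat' (first
        | apply DefP.aug | apply DefP.pth | apply DefP.nx | apply DefP.cnd | apply DefP.hmin
        | apply DefP.hit | apply DefP.cdn | apply DefP.firstEx | apply DefP.exN
        | apply DefP.end_ | apply DefP.isZero | apply DefP.isSucc | apply DefP.alt
        | apply DefP.exr | apply DefP.exl | apply DefP.cho | apply DefP.halfSet | apply DefP.pr
        | apply DefP.oddRk | apply DefP.side | apply DefP.oddCard | apply DefP.cardEq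
        | apply DefP.cardLt | apply DefP.cardLe | apply DefP.lst | apply DefP.fst
        | apply DefP.nxt | apply DefP.keyLe | apply DefP.keyLt | apply DefP.rtc
        | (apply DefP.app4; assumption) | (apply DefP.app3'; assumption)
        | (apply DefP.app3; assumption) | (apply DefP.app2; assumption)
        | (apply DefP.comp; assumption) | exact Tm.id | exact Tm.unit | apply Tm.fst
        | apply Tm.snd | apply Tm.app | exact DefP.const _ | apply DefP.and | apply DefP.not
        | apply DefP.or | apply DefP.iff | apply DefP.adj | apply DefP.le | apply DefP.lt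
        | apply DefP.eqFin | apply DefP.eq | apply DefP.rv | apply DefP.imp | apply DefP.allFin
        | apply DefP.exFin | apply DefP.all | apply DefP.ex | assumption
        | (apply Tm.comp; assumption) | apply Tm.pair | apply Tm.lam)))
      (DefP.and (DefP.or (hf ?_ ?_ ?_) (hf ?_ ?_ ?_)) (DefP.allFin (DefP.imp
        (DefP.or (hf ?_ ?_ ?_) (hf ?_ ?_ ?_)) (by (repeat' (first
            | apply DefP.aug | apply DefP.pth | apply DefP.nx | apply DefP.cnd | apply DefP.hmin
            | apply DefP.hit | apply DefP.cdn | apply DefP.firstEx | apply DefP.exN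
            | apply DefP.end_ | apply DefP.isZero | apply DefP.isSucc | apply DefP.alt
            | apply DefP.exr | apply DefP.exl | apply DefP.cho | apply DefP.halfSet
            | apply DefP.pr | apply DefP.oddRk | apply DefP.side | apply DefP.oddCard
            | apply DefP.cardEq | apply DefP.cardLt | apply DefP.cardLe | apply DefP.lst
            | apply DefP.fst | apply DefP.nxt | apply DefP.keyLe | apply DefP.keyLt
            | apply DefP.rtc | (apply DefP.app4; assumption) | (apply DefP.app3'; assumption)
            | (apply DefP.app3; assumption) | (apply DefP.app2; assumption)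
            | (apply DefP.comp; assumption) | exact Tm.id | exact Tm.unit | apply Tm.fst
            | apply Tm.snd | apply Tm.app | exact DefP.const _ | apply DefP.and | apply DefP.not
            | apply DefP.or | apply DefP.iff | apply DefP.adj | apply DefP.le | apply DefP.lt
            | apply DefP.eqFin | apply DefP.eq | apply DefP.rv | apply DefP.imp
            | apply DefP.allFin | apply DefP.exFin | apply DefP.all | apply DefP.ex | assumption
            | (apply Tm.comp; assumption) | apply Tm.pair | apply Tm.lam))))))))))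
  all_goals (repeat' (first
      | apply DefP.aug | apply DefP.pth | apply DefP.nx | apply DefP.cnd | apply DefP.hmin
      | apply DefP.hit | apply DefP.cdn | apply DefP.firstEx | apply DefP.exN | apply DefP.end_
      | apply DefP.isZero | apply DefP.isSucc | apply DefP.alt | apply DefP.exr | apply DefP.exl
      | apply DefP.cho | apply DefP.halfSet | apply DefP.pr | apply DefP.oddRk | apply DefP.side
      | apply DefP.oddCard | apply DefP.cardEq | apply DefP.cardLt | apply DefP.cardLe
      | apply DefP.lst | apply DefP.fst | apply DefP.nxt | apply DefP.keyLe | apply DefP.keyLt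
      | apply DefP.rtc | (apply DefP.app4; assumption) | (apply DefP.app3'; assumption)
      | (apply DefP.app3; assumption) | (apply DefP.app2; assumption)
      | (apply DefP.comp; assumption) | exact Tm.id | exact Tm.unit | apply Tm.fst
      | apply Tm.snd | apply Tm.app | exact DefP.const _ | apply DefP.and | apply DefP.not
      | apply DefP.or | apply DefP.iff | apply DefP.adj | apply DefP.le | apply DefP.lt
      | apply DefP.eqFin | apply DefP.eq | apply DefP.rv | apply DefP.imp | apply DefP.allFin
      | apply DefP.exFin | apply DefP.all | apply DefP.ex | assumption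
      | (apply Tm.comp; assumption) | apply Tm.pair | apply Tm.lam))

theorem lang5_sound (d n : ℕ) (G : SimpleGraph (Fin n)) (h : Lang5 d n G) : HasPM G := by
  rcases h with h | ⟨b, hb⟩
  · exact hasPM_iff.2 ⟨fun v => (h v).elim, fun v => (h v).elim, fun v => (h v).elim⟩
  · exact hb.hasPM

/-- the two sides of a proper 2-colouring have the same size -/
theorem sides_card {n : ℕ} {G : SimpleGraph (Fin n)} {f : Fin n → Fin n} (hf : ∀ v, f (f v) = v)
    (hfa : ∀ v, G.Adj v (f v)) {X : Fin n → Prop} (hX : ∀ u v, G.Adj u v → (X u ↔ ¬ X v)) :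
    Nat.card {u // X u} = Nat.card {v // ¬ X v} ∧ n = 2 * Nat.card {u // X u} := by
  classical
  have h1 : Nat.card {u // X u} = Nat.card {v // ¬ X v} := by
    refine Nat.card_congr ⟨fun u => ⟨f u.1, (hX _ _ (hfa u.1)).1 u.2⟩,
      fun v => ⟨f v.1, ?_⟩, ?_, ?_⟩
    · have := hX _ _ (hfa v.1)
      have := v.2
      tauto
    · intro u
      exact Subtype.ext (hf _)
    · intro u
      exact Subtype.ext (hf _)
  refine ⟨h1, ?_⟩
  have h2 : Nat.card {u // X u} + Nat.card {u // ¬ X u} = n := by
    simp only [Nat.card_eq_fintype_card]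
    rw [Fintype.card_subtype_compl]
    have := Fintype.card_subtype_le X
    simp only [Fintype.card_fin] at this ⊢
    omega
  omega

/-- the Ore condition passes from one proper 2-colouring to another -/
theorem ore_transfer {n : ℕ} {G : SimpleGraph (Fin n)} {f : Fin n → Fin n} (hf : ∀ v, f (f v) = v)
    (hfa : ∀ v, G.Adj v (f v)) {X L : Fin n → Prop} (hX : ∀ u v, G.Adj u v → (X u ↔ ¬ X v))
    (hL : ∀ u v, G.Adj u v → (L u ↔ ¬ L v)) {D : ℕ}
    (hore : ∀ u v, X u → ¬ X v → ¬ G.Adj u v → n ≤ 2 * (dg G u + dg G v + D)) :
    ∀ u v, L u → ¬ L v → ¬ G.Adj u v →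
      Nat.card {u // L u} ≤ dg G u + dg G v + 2 * D := by
  classical
  intro u v hu hv huv
  obtain ⟨hX1, hX2⟩ := sides_card hf hfa hX
  obtain ⟨hL1, hL2⟩ := sides_card hf hfa hL
  have key : ∀ u v, L u → ¬ L v → (X u ↔ X v) →
      Nat.card {u // L u} ≤ dg G u + dg G v + 2 * D := by
    intro u v hu hv hX'
    have h1 : ¬ G.Adj u (f v) := by
      intro h
      have e1 := hL _ _ h
      have e2 := hL _ _ (hfa v)
      tauto
    have h2 : ¬ G.Adj v (f u) := by
      intro h
      have e1 := hL _ _ h
      have e2 := hL _ _ (hfa u)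
      tauto
    have hxu := hX _ _ (hfa u)
    have hxv := hX _ _ (hfa v)
    have h3 : n ≤ 2 * (dg G u + dg G (f v) + D) := by
      by_cases h : X u
      · exact hore _ _ h (by tauto) h1
      · have := hore (f v) u (by tauto) h (fun h' => h1 h'.symm)
        omega
    have h4 : n ≤ 2 * (dg G v + dg G (f u) + D) := by
      by_cases h : X v
      · exact hore _ _ h (by tauto) h2
      · have := hore (f u) v (by tauto) h (fun h' => h2 h'.symm)
        omega
    have h5 : dg G (f u) + dg G (f v) ≤ Nat.card {w // X w ↔ X u} := by
      unfold dg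
      simp only [Nat.card_eq_fintype_card, Fintype.card_subtype]
      rw [← Finset.card_union_of_disjoint]
      · apply Finset.card_le_card
        intro w hw
        simp only [Finset.mem_union, Finset.mem_filter, Finset.mem_univ, true_and] at hw ⊢
        rcases hw with h | h
        · have := hX _ _ h
          tauto
        · have := hX _ _ h
          tauto
      · rw [Finset.disjoint_left]
        intro w hw hw'
        simp only [Finset.mem_filter, Finset.mem_univ, true_and] at hw hw'
        have e1 := hL _ _ hw
        have e2 := hL _ _ hw'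
        have e3 := hL _ _ (hfa u)
        have e4 := hL _ _ (hfa v)
        tauto
    have h6 : Nat.card {w // X w ↔ X u} = Nat.card {w // X w} := by
      by_cases h : X u
      · exact Nat.card_congr (Equiv.subtypeEquivRight fun w => by tauto)
      · rw [hX1]
        exact Nat.card_congr (Equiv.subtypeEquivRight fun w => by tauto)
    omega
  by_cases h : (X u ↔ X v)
  · exact key u v hu hv h
  · by_cases h' : X u
    · have := hore u v h' (by tauto) huv
      omega
    · have := hore v u (by tauto) h' (fun h => huv h.symm)
      omega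

theorem lang5_complete (c n : ℕ) (G : SimpleGraph (Fin n)) (X : Fin n → Prop)
    (hX : ∀ u v, G.Adj u v → (X u ↔ ¬ X v))
    (hore : ∀ u v, X u → ¬ X v → ¬ G.Adj u v → n ≤ 2 * (dg G u + dg G v + (Nat.log 2 n) ^ c))
    (hPM : HasPM G) : Lang5 c n G := by
  classical
  rcases Nat.eq_zero_or_pos n with h0 | hn
  · subst h0
    exact Or.inl fun v => v.elim0
  obtain ⟨f, hf, hfa⟩ := hasPM_iff.1 hPM
  have hn2 : 2 ≤ n := by
    by_contra hc
    have : n = 1 := by omega
    subst this
    exact (hfa 0).ne (Subsingleton.elim _ _)
  obtain ⟨b, hb⟩ := exists_good hn2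
  refine Or.inr ⟨b, ?_⟩
  have hG : G.Colorable 2 := by
    refine ⟨SimpleGraph.Coloring.mk (fun v => if X v then (0 : Fin 2) else 1) ?_⟩
    intro u v huv
    have := hX u v huv
    by_cases h : X v
    · have h' : ¬ X u := by tauto
      simp [h, h']
    · have h' : X u := by tauto
      simp [h, h']
  have hL : ∀ u v, G.Adj u v → (Sd G u ↔ ¬ Sd G v) := fun u v h => sd_proper hG h
  obtain ⟨hc1, hc2⟩ := sides_card hf hfa hL
  obtain ⟨hM, hmax⟩ := mm_spec (G := G) (L := Sd G) hb
  have hore' := ore_transfer hf hfa hX hL hore
  have h1 := swp_card hb hM hmax hL hc1 hore'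
  have h2 : PMat G (Sd G) (Mat5 G b) := swp_pmat hb hM
  refine aug_iterate f hf hfa hL _ h2 ?_
  change _ ≤ Nat.card {u // ∃ v, Mat5 G b (u, v)} + _ at h1
  have h7 : 2 * (Nat.log 2 n) ^ c + 1 ≤ (2 * Nat.size n) ^ (c + 1) := by
    have hs : 2 ≤ Nat.size n := by
      have h1 : 2 ^ 1 ≤ n := by simpa using hn2
      have h2 := Nat.lt_size.2 h1
      omega
    have hlog : Nat.log 2 n ≤ Nat.size n := by
      have e1 : 2 ^ Nat.log 2 n ≤ n := Nat.pow_log_le_self 2 (by omega)
      have e2 := Nat.lt_size_self n
      have e3 : 2 ^ Nat.log 2 n < 2 ^ Nat.size n := lt_of_le_of_lt e1 e2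
      exact ((Nat.pow_lt_pow_iff_right (by norm_num)).1 e3).le
    have e1 : (Nat.log 2 n) ^ c ≤ (2 * Nat.size n) ^ c :=
      Nat.pow_le_pow_left (by omega) c
    have e2 : 1 ≤ (2 * Nat.size n) ^ c := Nat.one_le_pow _ _ (by omega)
    calc 2 * (Nat.log 2 n) ^ c + 1 ≤ (2 * Nat.size n) ^ c * 4 := by omega
      _ ≤ (2 * Nat.size n) ^ c * (2 * Nat.size n) := Nat.mul_le_mul_left _ (by omega)
      _ = _ := by rw [pow_succ]
  omega

/-- **Theorem.** -/
theorem bipartite_below_ore (c : ℕ) : ∃ L : ∀ n : ℕ, SimpleGraph (Fin n) → Prop, InNC L ∧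
    (∀ (n : ℕ) (G : SimpleGraph (Fin n)), L n G → HasPM G) ∧
    ∀ (n : ℕ) (G : SimpleGraph (Fin n)), (∃ X : Fin n → Prop,
      (∀ u v, G.Adj u v → (X u ↔ ¬ X v)) ∧
      ∀ u v, X u → ¬ X v → ¬ G.Adj u v → n ≤ 2 * (dg G u + dg G v + (Nat.log 2 n) ^ c)) →
      (HasPM G ↔ L n G) :=
  ⟨Lang5 c, inNC_lang5 c, lang5_sound c, fun n G ⟨X, h1, h2⟩ =>
    ⟨lang5_complete c n G X h1 h2, lang5_sound c n G⟩⟩

end Pool.Agent.PMNC
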