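import Mathlib
import Pool.Agent.Lib.MP_0087d5_lc.R3
import Pool.Agent.Lib.MP_0087d5_lc.R1

set_option autoImplicit false
set_option linter.all false

/-!
# Hardness in terms of the irregularity
-/

namespace Pool.Agent.PMNC

theorem irr_le {n : ℕ} (G : SimpleGraph (Fin n)) (d e : ℕ) (hd : 1 ≤ d)
    (h : ∀ v, d ≤ dg G v ∧ dg G v ≤ d + e) : irr G ≤ n * e / d := by
  classical
  have hdr : (0 : ℝ) < d := by exact_mod_cast hd
  have h1 : ∀ u : Fin n, ∑ v, (if G.Adj u v then |1 / (dg G u : ℝ) - 1 / (dg G v : ℝ)| else 0) ≤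
      (e : ℝ) / d := by
    intro u
    have hu : (0 : ℝ) < dg G u := by
      have := (h u).1
      exact_mod_cast (by omega : 0 < dg G u)
    have h2 : ∀ v, (if G.Adj u v then |1 / (dg G u : ℝ) - 1 / (dg G v : ℝ)| else 0) ≤
        if G.Adj u v then (e : ℝ) / (dg G u * d) else 0 := by
      intro v
      split_ifs with hv
      · have hv0 : (0 : ℝ) < dg G v := by
          have := (h v).1
          exact_mod_cast (by omega : 0 < dg G v)
        have e1 : (d : ℝ) ≤ dg G v := by exact_mod_cast (h v).1
        have e2 : (d : ℝ) ≤ dg G u := by exact_mod_cast (h u).1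
        have e3 : (dg G v : ℝ) ≤ d + e := by exact_mod_cast (h v).2
        have e4 : (dg G u : ℝ) ≤ d + e := by exact_mod_cast (h u).2
        have e5 : 1 / (dg G u : ℝ) - 1 / (dg G v : ℝ) =
            ((dg G v : ℝ) - dg G u) / (dg G u * dg G v) := by
          field_simp
        rw [e5, abs_div, abs_of_pos (mul_pos hu hv0)]
        have e6 : |(dg G v : ℝ) - dg G u| ≤ e := by
          rw [abs_le]
          constructor <;> linarith
        exact div_le_div₀ (Nat.cast_nonneg e) e6 (mul_pos hu hdr)
          (mul_le_mul_of_nonneg_left e1 hu.le)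
      · exact le_rfl
    refine (Finset.sum_le_sum fun v _ => h2 v).trans ?_
    rw [← Finset.sum_filter, Finset.sum_const, nsmul_eq_mul]
    have h3 : (((Finset.univ.filter fun v => G.Adj u v).card : ℕ) : ℝ) = dg G u := by
      unfold dg
      rw [Nat.card_eq_fintype_card, Fintype.card_subtype]
    rw [h3]
    apply le_of_eq
    field_simp
  unfold irr
  calc ∑ u, ∑ v, (if G.Adj u v then |1 / (dg G u : ℝ) - 1 / (dg G v : ℝ)| else 0)
      ≤ ∑ u : Fin n, (e : ℝ) / d := Finset.sum_le_sum fun u _ => h1 u
    _ = n * e / d := by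
      rw [Finset.sum_const, Finset.card_univ, Fintype.card_fin, nsmul_eq_mul]
      ring

/-- if perfect matchings of bipartite graphs whose irregularity is at most a small power of the
number of vertices can be decided in NC, then so can perfect matchings of all bipartite graphs -/
theorem hard_irr (k : ℕ) (L : ∀ n : ℕ, SimpleGraph (Fin n) → Prop) (hL : InNC L)
    (h : ∀ (n : ℕ) (G : SimpleGraph (Fin n)), G.Colorable 2 → irr G ^ k ≤ n →
      (HasPM G ↔ L n G)) :
    ∃ L' : ∀ n : ℕ, SimpleGraph (Fin n) → Prop, InNC L' ∧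
      ∀ (n : ℕ) (G : SimpleGraph (Fin n)), G.Colorable 2 → (HasPM G ↔ L' n G) := by
  -- the promise class of `hard_bipartite` with a larger exponent
  set N := 64 ^ (k + 1) with hN
  have hsmall : InNC (fun n G => n ≤ N ∧ HasPM G) :=
    inNC_of_defP (defP_small N (fun n G => HasPM G))
  have hbig : InNC (fun n (G : SimpleGraph (Fin n)) => ¬ (n ≤ N) ∧ L n G) := by
    obtain ⟨φ, hφ⟩ := inNC_of_defP (P := fun n G => n ≤ N) (defP_card_le N)
    obtain ⟨ψ, hψ⟩ := hL
    refine ⟨.and (.neg φ) ψ, fun n G => ?_⟩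
    simp only [Fm.eval]
    rw [← hφ, ← hψ]
  refine hard_bipartite (2 * (k + 1)) (fun n G => (n ≤ N ∧ HasPM G) ∨ (¬ (n ≤ N) ∧ L n G))
    (hsmall.or hbig) ?_
  rintro n G hG ⟨d, e, he, hn, hde⟩
  by_cases hnN : n ≤ N
  · simp [hnN]
  · rw [h n G hG ?_]
    · simp [hnN]
    · have hn64 : 64 ^ (k + 1) < n := by omega
      have h64 : 64 ≤ 64 ^ (k + 1) := by
        calc 64 = 64 ^ 1 := by norm_num
          _ ≤ 64 ^ (k + 1) := Nat.pow_le_pow_right (by norm_num) (by omega)
      have he2 : (e ^ (k + 1)) ^ 2 ≤ n := by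
        rw [← pow_mul, mul_comm (k + 1) 2]
        exact he
      have he1 : e ^ 2 ≤ n := by
        rcases Nat.eq_zero_or_pos e with h0 | hpos
        · rw [h0]; simp
        · calc e ^ 2 = (e ^ 1) ^ 2 := by rw [pow_one]
            _ ≤ (e ^ (k + 1)) ^ 2 := Nat.pow_le_pow_left (Nat.pow_le_pow_right hpos (by omega)) 2
            _ ≤ n := he2
      have he8 : 8 * e ≤ n := by
        by_contra hc
        have : n < 8 * e := by omega
        have h2 : e < 8 := by nlinarith
        omega
      have hd : n ≤ 8 * d := by omega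
      have hd1 : 1 ≤ d := by omega
      have h1 := irr_le G d e hd1 hde
      have hdr : (0 : ℝ) < d := by exact_mod_cast hd1
      have h2 : (n : ℝ) * e / d ≤ 8 * e := by
        rw [div_le_iff₀ hdr]
        have : (n : ℝ) ≤ 8 * d := by exact_mod_cast hd
        have he0 : (0 : ℝ) ≤ e := Nat.cast_nonneg e
        nlinarith
      have h0 : 0 ≤ irr G := by
        unfold irr
        refine Finset.sum_nonneg fun u _ => Finset.sum_nonneg fun v _ => ?_
        split_ifs
        · exact abs_nonneg _
        · exact le_rfl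
      have h3 : irr G ≤ ((8 * e : ℕ) : ℝ) := by push_cast; linarith
      have h4 : irr G ^ k ≤ (((8 * e) ^ k : ℕ) : ℝ) := by
        rw [Nat.cast_pow]
        exact pow_le_pow_left₀ h0 h3 k
      refine h4.trans ?_
      have h5 : (8 * e) ^ k ≤ n := by
        rcases Nat.eq_zero_or_pos e with h0 | hpos
        · rw [h0, mul_zero]
          rcases Nat.eq_zero_or_pos k with hk | hk
          · rw [hk, pow_zero]; omega
          · rw [zero_pow (by omega)]; omega
        · have h6 : ((8 * e) ^ (k + 1)) ^ 2 ≤ n ^ 2 := by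
            calc ((8 * e) ^ (k + 1)) ^ 2 = 64 ^ (k + 1) * (e ^ (k + 1)) ^ 2 := by
                  rw [mul_pow, mul_pow, ← pow_mul, mul_comm (k + 1) 2, pow_mul]
                  norm_num
              _ ≤ n * n := Nat.mul_le_mul hn64.le he2
              _ = n ^ 2 := by ring
          have h7 : (8 * e) ^ (k + 1) ≤ n := by
            by_contra hc
            have : n < (8 * e) ^ (k + 1) := by omega
            have := Nat.pow_lt_pow_left this (n := 2) (by norm_num)
            omega
          calc (8 * e) ^ k ≤ (8 * e) ^ (k + 1) := Nat.pow_le_pow_right (by omega) (by omega)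
            _ ≤ n := h7
      exact_mod_cast h5

end Pool.Agent.PMNC
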