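import Pool.Agent.Lib.MP_0087d5_lc.Base
import Pool.Agent.Lib.MP_0087d5_lc.UPM.NCPlib
import Pool.Agent.Lib.MP_0087d5_lc.UPM.Compile

set_option autoImplicit false
set_option linter.all false

/-!
# The logical form of NC is contained in the class defined by circuits
-/

namespace Pool.Agent.PMNC.Br

open Pool.Agent.UPM (RF Readers RelF Ext NCP GS GB)
open Relation

variable {S : ℕ → Type} {B : Readers S} {ι κ : Type}

/-- powers of two, reached by doubling -/
theorem tg_iff {n : ℕ} {a b : Fin n} (ha : a.val = 1) :
    TransGen (fun x y : Fin n => (y : ℕ) = 2 * (x : ℕ)) a b ↔ ∃ k, b.val = 2 ^ (k + 1) := by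
  constructor
  · intro h
    induction h with
    | single h => exact ⟨0, by rw [h, ha]; rfl⟩
    | tail _ h ih =>
      obtain ⟨k, hk⟩ := ih
      exact ⟨k + 1, by rw [h, hk, pow_succ 2 (k + 1)]; ring⟩
  · rintro ⟨k, hk⟩
    have key : ∀ k, ∀ b : Fin n, b.val = 2 ^ (k + 1) →
        TransGen (fun x y : Fin n => (y : ℕ) = 2 * (x : ℕ)) a b := by
      intro k
      induction k with
      | zero => intro b hb; exact TransGen.single (by rw [hb, ha]; rfl)
      | succ k ih =>
        intro b hb
        have h1 : 2 ^ (k + 1) < n := by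
          have := b.2
          rw [hb, pow_succ] at this
          omega
        exact (ih ⟨2 ^ (k + 1), h1⟩ rfl).tail (by rw [hb, pow_succ 2 (k + 1)]; simp only; ring)
    exact key k b hk

theorem ncp_pow2 (hι : Finite ι) : NCP S B ι (fun n _ _ => ∃ m, n = 2 ^ m) := by
  -- `n = 1`
  have h1 : NCP S B ι (fun n _ _ => n = 1) := by
    have h0 : NCP S B ι (fun n _ _ => ∃ a : Fin n, ∀ b : Fin n, b ≤ a ∧ a ≤ b) := by
      refine NCP.ex1 (R := fun n _ _ a => ∀ b : Fin n, b ≤ a ∧ a ≤ b) ?_
      refine NCP.all1 (R := fun n _ (z : Option ι → Fin n) b => b ≤ z none ∧ z none ≤ b) ?_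
      exact NCP.and (NCP.le inferInstance _ _) (NCP.le inferInstance _ _)
    refine h0.congr fun n s x => ?_
    constructor
    · rintro ⟨a, ha⟩
      have hn : 0 < n := by have := a.2; omega
      by_contra hc
      have e1 := ha ⟨0, hn⟩
      have e2 := ha ⟨1, by omega⟩
      have e3 : (⟨0, hn⟩ : Fin n) = ⟨1, by omega⟩ :=
        (le_antisymm e1.1 e1.2).trans (le_antisymm e2.1 e2.2).symm
      have e4 := congrArg Fin.val e3
      simp only at e4
      omega
    · rintro rfl
      exact ⟨0, fun b => ⟨(Subsingleton.elim b 0).le, (Subsingleton.elim b 0).ge⟩⟩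
  -- the largest power of two below `n`
  have h2 : NCP S B ι (fun n _ _ => ∃ a : Fin n, ∃ p : Fin n, ∃ q : Fin n, ∃ t : Fin n,
      (a : ℕ) = 1 ∧ (p = a ∨ TransGen (fun x y : Fin n => (y : ℕ) = 2 * (x : ℕ)) a p) ∧
      (p : ℕ) = (q : ℕ) + 1 ∧ (t : ℕ) = n - 1 ∧ (p : ℕ) + (q : ℕ) = (t : ℕ)) := by
    refine NCP.ex1 (R := fun n _ _ a => ∃ p : Fin n, ∃ q : Fin n, ∃ t : Fin n,
      (a : ℕ) = 1 ∧ (p = a ∨ TransGen (fun x y : Fin n => (y : ℕ) = 2 * (x : ℕ)) a p) ∧
      (p : ℕ) = (q : ℕ) + 1 ∧ (t : ℕ) = n - 1 ∧ (p : ℕ) + (q : ℕ) = (t : ℕ)) ?_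
    refine NCP.ex1 (R := fun n _ (z : Option ι → Fin n) p => ∃ q : Fin n, ∃ t : Fin n,
      (z none : ℕ) = 1 ∧ (p = z none ∨
        TransGen (fun x y : Fin n => (y : ℕ) = 2 * (x : ℕ)) (z none) p) ∧
      (p : ℕ) = (q : ℕ) + 1 ∧ (t : ℕ) = n - 1 ∧ (p : ℕ) + (q : ℕ) = (t : ℕ)) ?_
    refine NCP.ex1 (R := fun n _ (z : Option (Option ι) → Fin n) q => ∃ t : Fin n,
      (z (some none) : ℕ) = 1 ∧ (z none = z (some none) ∨
        TransGen (fun x y : Fin n => (y : ℕ) = 2 * (x : ℕ)) (z (some none)) (z none)) ∧
      (z none : ℕ) = (q : ℕ) + 1 ∧ (t : ℕ) = n - 1 ∧ (z none : ℕ) + (q : ℕ) = (t : ℕ)) ?_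
    refine NCP.ex1 (R := fun n _ (z : Option (Option (Option ι)) → Fin n) t =>
      (z (some (some none)) : ℕ) = 1 ∧ (z (some none) = z (some (some none)) ∨
        TransGen (fun x y : Fin n => (y : ℕ) = 2 * (x : ℕ)) (z (some (some none)))
          (z (some none))) ∧
      (z (some none) : ℕ) = (z none : ℕ) + 1 ∧ (t : ℕ) = n - 1 ∧
        (z (some none) : ℕ) + (z none : ℕ) = (t : ℕ)) ?_
    have htc : NCP S B (Option (Option ι)) (fun n s z =>
        TransGen (fun x y : Fin n => (y : ℕ) = 2 * (x : ℕ)) (z (some none)) (z none)) :=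
      NCP.tc1 hι (Q := fun n _ _ x y => (y : ℕ) = 2 * (x : ℕ)) (NCP.dbl inferInstance _ _)
    have htc' := NCP.comap (κ := Option (Option (Option (Option ι)))) inferInstance
      (fun o : Option (Option ι) => match o with
        | some (some i) => some (some (some (some i)))
        | some none => some (some (some none))
        | none => some (some none)) htc
    exact NCP.and (NCP.one inferInstance _) (NCP.and (NCP.or (NCP.eq inferInstance _ _) htc')
      (NCP.and (NCP.succ inferInstance _ _) (NCP.and (NCP.top inferInstance _)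
        (NCP.add inferInstance _ _ _))))
  refine (h1.or h2).congr fun n s x => ?_
  constructor
  · rintro (rfl | ⟨a, p, q, t, ha, hp, hq, ht, hpq⟩)
    · exact ⟨0, rfl⟩
    · have hp' : ∃ k, p.val = 2 ^ k := by
        rcases hp with rfl | hp
        · exact ⟨0, ha⟩
        · obtain ⟨k, hk⟩ := (tg_iff ha).1 hp
          exact ⟨k + 1, hk⟩
      obtain ⟨k, hk⟩ := hp'
      refine ⟨k + 1, ?_⟩
      have := p.2
      rw [pow_succ]
      omega
  · rintro ⟨m, rfl⟩
    cases m with
    | zero => exact Or.inl rfl
    | succ m =>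
      right
      have h3 : 0 < 2 ^ m := pow_pos (by norm_num) _
      have h4 : 2 ^ (m + 1) = 2 ^ m * 2 := pow_succ 2 m
      refine ⟨⟨1, by omega⟩, ⟨2 ^ m, by omega⟩, ⟨2 ^ m - 1, by omega⟩, ⟨2 ^ (m + 1) - 1, by omega⟩,
        rfl, ?_, ?_, rfl, ?_⟩
      · cases m with
        | zero => exact Or.inl rfl
        | succ m => exact Or.inr ((tg_iff rfl).2 ⟨m, rfl⟩)
      · simp only
        omega
      · simp only
        omega

open Classical in
theorem size_eq {n : ℕ} : Nat.size n = if (∃ m, n = 2 ^ m) then Nat.size (n - 1) + 1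
    else Nat.size (n - 1) := by
  classical
  split_ifs with h
  · obtain ⟨m, rfl⟩ := h
    rw [Nat.size_pow]
    cases m with
    | zero => rfl
    | succ m =>
      have h3 : 0 < 2 ^ m := pow_pos (by norm_num) _
      have h4 : 2 ^ (m + 1) = 2 ^ m * 2 := pow_succ 2 m
      congr 1
      apply le_antisymm
      · by_contra hc
        have h5 : Nat.size (2 ^ (m + 1) - 1) ≤ m := by omega
        rw [Nat.size_le] at h5
        omega
      · rw [Nat.size_le]
        omega
  · apply le_antisymm
    · rw [Nat.size_le]
      have h1 : n - 1 < 2 ^ Nat.size (n - 1) := Nat.lt_size_self _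
      rcases Nat.lt_or_ge n (2 ^ Nat.size (n - 1)) with h2 | h2
      · exact h2
      · exfalso
        apply h
        refine ⟨Nat.size (n - 1), ?_⟩
        have h3 : 0 < 2 ^ Nat.size (n - 1) := pow_pos (by norm_num) _
        omega
    · exact Nat.size_le_size (by omega)

/-- substitution of programs for the additional relations -/
theorem ncp_subst {Fl : Type} {F : RF (fun n => S n × RelF κ Fl n) ι}
    (hF : NCP (fun n => S n × RelF κ Fl n) (Ext B κ Fl) ι F)
    {R : Fl → RF S κ} (hR : ∀ f, NCP S B κ (R f)) :
    NCP S B ι (fun n s x => F n (s, fun f y => R f n s y) x) := by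
  refine NCP.pull (S := fun n => S n × RelF κ Fl n) (fun n s => (s, fun f y => R f n s y)) ?_ hF
  intro ι' hι' P hP
  cases hP with
  | old hP' => exact NCP.base hι' hP'
  | new f => exact hR f

theorem ncp_weaken {Fl : Type} {F : RF S ι} (hF : NCP S B ι F) :
    NCP (fun n => S n × RelF κ Fl n) (Ext B κ Fl) ι (fun n s x => F n s.1 x) :=
  NCP.pull (S' := fun n => S n × RelF κ Fl n) (fun n s => s.1)
    (fun ι' hι' P hP => NCP.base hι' (Ext.old hP)) hF

/-- `Nat.size n` iterations -/
theorem ncp_size {F : RF (fun n => S n × RelF κ Unit n) κ} {H : RF S κ} (hκ : Finite κ)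
    (hF : NCP (fun n => S n × RelF κ Unit n) (Ext B κ Unit) κ F) (hH : NCP S B κ H) :
    NCP S B κ (fun n s x => ((fun (R : (κ → Fin n) → Prop) (x : κ → Fin n) =>
      F n (s, fun _ => R) x)^[Nat.size n] (H n s)) x) := by
  classical
  have h1 := NCP.iter (S := S) (B := B) (κ := κ) (Fl := Unit) inferInstance (H := fun _ => H)
    (F := fun _ => F) (fun _ => hH) (fun _ => hF) ()
  have e : ∀ n (s : S n) (m : ℕ) , (fun (R : RelF κ Unit n) (f : Unit) (x : κ → Fin n) =>
      F n (s, R) x)^[m] (fun _ x => H n s x) = fun _ =>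
      ((fun (R : (κ → Fin n) → Prop) (x : κ → Fin n) => F n (s, fun _ => R) x)^[m] (H n s)) := by
    intro n s m
    induction m with
    | zero => rfl
    | succ m ih =>
      rw [Function.iterate_succ_apply', Function.iterate_succ_apply', ih]
  have h1' : NCP S B κ (fun n s x => ((fun (R : (κ → Fin n) → Prop) (x : κ → Fin n) =>
      F n (s, fun _ => R) x)^[Nat.size (n - 1)] (H n s)) x) := by
    refine h1.congr fun n s x => ?_
    rw [e]
  have h2 := ncp_subst hF (R := fun _ : Unit => fun n s x =>
    ((fun (R : (κ → Fin n) → Prop) (x : κ → Fin n) =>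
      F n (s, fun _ => R) x)^[Nat.size (n - 1)] (H n s)) x) (fun _ => h1')
  have h3 := ncp_pow2 (S := S) (B := B) hκ
  refine ((h3.and h2).or (h3.not.and h1')).congr fun n s x => ?_
  rw [size_eq (n := n)]
  by_cases h : ∃ m, n = 2 ^ m
  · simp only [h, if_true, true_and, not_true, false_and, or_false]
    rw [Function.iterate_succ_apply']
  · simp only [h, if_false, false_and, not_false_eq_true, true_and, false_or]

theorem ncp_csize {F : RF (fun n => S n × RelF κ Unit n) κ} {H : RF S κ} (hκ : Finite κ)
    (hF : NCP (fun n => S n × RelF κ Unit n) (Ext B κ Unit) κ F) (hH : NCP S B κ H) (c : ℕ) :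
    NCP S B κ (fun n s x => ((fun (R : (κ → Fin n) → Prop) (x : κ → Fin n) =>
      F n (s, fun _ => R) x)^[c * Nat.size n] (H n s)) x) := by
  induction c with
  | zero =>
    refine hH.congr fun n s x => ?_
    rw [Nat.zero_mul]
    rfl
  | succ c ih =>
    refine (ncp_size hκ hF ih).congr fun n s x => ?_
    have e : (c + 1) * Nat.size n = Nat.size n + c * Nat.size n := by ring
    rw [e, Function.iterate_add_apply]

/-- the translation of formulas into programs -/
theorem br {k : ℕ} (φ : Fm k) : ∀ (S : ℕ → Type) (B : Readers S) (ι : Type) (hι : Finite ι)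
    (G : ∀ n, S n → SimpleGraph (Fin n)) (X : ∀ n, S n → (ι → Fin n) → Ctx n),
    NCP S B (Fin 2) (fun n s x => (G n s).Adj (x 0) (x 1)) →
    (∀ i r, NCP S B (ι ⊕ Fin r) (fun n s x =>
      X n s (fun j => x (Sum.inl j)) i (List.ofFn fun j => x (Sum.inr j)))) →
    NCP S B (ι ⊕ Fin k) (fun n s x =>
      φ.eval (G n s) (X n s (fun j => x (Sum.inl j))) (fun j => x (Sum.inr j))) := by
  induction φ with
  | @adj k i j =>
    intro S B ι hι G X hG hX
    exact (NCP.comap (κ := ι ⊕ Fin k) inferInstance ![Sum.inr i, Sum.inr j] hG)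
  | @lt k i j =>
    intro S B ι hι G X hG hX
    exact NCP.lt inferInstance (Sum.inr i) (Sum.inr j)
  | @rel k i l =>
    intro S B ι hι G X hG hX
    refine (NCP.comap (κ := ι ⊕ Fin k) inferInstance
      (Sum.map id fun j : Fin l.length => l.get j) (hX i l.length)).congr fun n s x => ?_
    simp only [Fm.eval, Sum.map_inl, Sum.map_inr, id]
    have : List.ofFn (fun j : Fin l.length => x (Sum.inr (l.get j))) =
        l.map (fun j => x (Sum.inr j)) := by
      apply List.ext_get
      · simp
      · intro m h1 h2
        simp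
    rw [this]
  | neg φ ih =>
    intro S B ι hι G X hG hX
    exact (ih S B ι hι G X hG hX).not
  | and φ ψ ih1 ih2 =>
    intro S B ι hι G X hG hX
    exact (ih1 S B ι hι G X hG hX).and (ih2 S B ι hι G X hG hX)
  | @ex k φ ih =>
    intro S B ι hι G X hG hX
    have h1 := NCP.comap (κ := Option (ι ⊕ Fin k)) inferInstance
      (fun o : ι ⊕ Fin (k + 1) => match o with
        | Sum.inl j => some (Sum.inl j)
        | Sum.inr j => Fin.lastCases (motive := fun _ => Option (ι ⊕ Fin k)) none
            (fun j => some (Sum.inr j)) j) (ih S B ι hι G X hG hX)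
    refine (NCP.ex1 (ι := ι ⊕ Fin k) (R := fun n s x a =>
      φ.eval (G n s) (X n s (fun j => x (Sum.inl j)))
        (Fin.snoc (α := fun _ => Fin n) (fun j => x (Sum.inr j)) a)) ?_).congr
      fun n s x => Iff.rfl
    refine h1.congr fun n s x => ?_
    have : (fun j : Fin (k + 1) => x (Fin.lastCases (motive := fun _ => Option (ι ⊕ Fin k)) none
        (fun j => some (Sum.inr j)) j)) =
        Fin.snoc (α := fun _ => Fin n) (fun j => x (some (Sum.inr j))) (x none) := by
      funext j
      refine Fin.lastCases ?_ (fun j => ?_) j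
      · simp
      · simp
    simp only
    rw [this]
  | @iter k r c φ₀ φ l ih₀ ih =>
    intro S B ι hι G X hG hX
    -- the first relation
    have hH : NCP S B ((ι ⊕ Fin k) ⊕ Fin r) (fun n s x => φ₀.eval (G n s)
        (X n s (fun j => x (Sum.inl (Sum.inl j))))
        (Fin.append (fun j => x (Sum.inl (Sum.inr j))) (fun j => x (Sum.inr j)))) := by
      refine (NCP.comap (κ := (ι ⊕ Fin k) ⊕ Fin r) inferInstance
        (fun o : ι ⊕ Fin (k + r) => match o with
          | Sum.inl j => Sum.inl (Sum.inl j)
          | Sum.inr j => Fin.addCases (motive := fun _ => (ι ⊕ Fin k) ⊕ Fin r)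
              (fun j => Sum.inl (Sum.inr j)) (fun j => Sum.inr j) j)
        (ih₀ S B ι hι G X hG hX)).congr fun n s x => ?_
      have : (fun j : Fin (k + r) => x (Fin.addCases (motive := fun _ => (ι ⊕ Fin k) ⊕ Fin r)
          (fun j => Sum.inl (Sum.inr j)) (fun j => Sum.inr j) j)) =
          Fin.append (fun j => x (Sum.inl (Sum.inr j))) (fun j => x (Sum.inr j)) := by
        funext j
        refine Fin.addCases (fun j => ?_) (fun j => ?_) j
        · simp
        · simp
      simp only
      rw [this]
    -- the step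
    have hF : NCP (fun n => S n × RelF ((ι ⊕ Fin k) ⊕ Fin r) Unit n)
        (Ext B ((ι ⊕ Fin k) ⊕ Fin r) Unit) ((ι ⊕ Fin k) ⊕ Fin r) (fun n s x =>
          φ.eval (G n s.1) (push (lift (fun u : Fin r → Fin n =>
            s.2 () (Sum.elim (fun j => x (Sum.inl j)) u)))
            (X n s.1 (fun j => x (Sum.inl (Sum.inl j)))))
          (Fin.append (fun j => x (Sum.inl (Sum.inr j))) (fun j => x (Sum.inr j)))) := by
      have h1 := ih (fun n => S n × RelF ((ι ⊕ Fin k) ⊕ Fin r) Unit n)
        (Ext B ((ι ⊕ Fin k) ⊕ Fin r) Unit) (ι ⊕ Fin k) inferInstance (fun n s => G n s.1)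
        (fun n s y => push (lift (fun u : Fin r → Fin n => s.2 () (Sum.elim y u)))
          (X n s.1 (fun j => y (Sum.inl j)))) (ncp_weaken hG) ?_
      · refine (NCP.comap (κ := (ι ⊕ Fin k) ⊕ Fin r) inferInstance
          (fun o : (ι ⊕ Fin k) ⊕ Fin (k + r) => match o with
            | Sum.inl j => Sum.inl j
            | Sum.inr j => Fin.addCases (motive := fun _ => (ι ⊕ Fin k) ⊕ Fin r)
                (fun j => Sum.inl (Sum.inr j)) (fun j => Sum.inr j) j) h1).congr fun n s x => ?_
        have : (fun j : Fin (k + r) => x (Fin.addCases (motive := fun _ => (ι ⊕ Fin k) ⊕ Fin r)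
            (fun j => Sum.inl (Sum.inr j)) (fun j => Sum.inr j) j)) =
            Fin.append (fun j => x (Sum.inl (Sum.inr j))) (fun j => x (Sum.inr j)) := by
          funext j
          refine Fin.addCases (fun j => ?_) (fun j => ?_) j
          · simp
          · simp
        simp only
        rw [this]
      · intro i r'
        cases i with
        | zero =>
          by_cases hr : r' = r
          · subst hr
            have h2 : NCP (fun n => S n × RelF ((ι ⊕ Fin k) ⊕ Fin r') Unit n)
                (Ext B ((ι ⊕ Fin k) ⊕ Fin r') Unit) ((ι ⊕ Fin k) ⊕ Fin r')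
                (fun n s x => s.2 () x) := NCP.base inferInstance (Ext.new ())
            refine h2.congr fun n s x => ?_
            change _ ↔ lift _ _
            unfold lift
            constructor
            · intro h
              refine ⟨fun j => x (Sum.inr j), rfl, ?_⟩
              have : Sum.elim (fun j => x (Sum.inl j)) (fun j => x (Sum.inr j)) = x := by
                funext o
                cases o <;> rfl
              change s.2 () (Sum.elim (fun j => x (Sum.inl j)) (fun j => x (Sum.inr j)))
              rw [this]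
              exact h
            · rintro ⟨u, h1, h2⟩
              have e := List.ofFn_injective h1
              subst e
              have : Sum.elim (fun j => x (Sum.inl j)) (fun j => x (Sum.inr j)) = x := by
                funext o
                cases o <;> rfl
              rw [this] at h2
              exact h2
          · refine (NCP.const inferInstance False).congr fun n s x => ?_
            change False ↔ lift _ _
            unfold lift
            constructor
            · exact False.elim
            · rintro ⟨u, h1, _⟩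
              apply hr
              have := congrArg List.length h1
              simpa using this
        | succ i =>
          have h2 := ncp_weaken (κ := (ι ⊕ Fin k) ⊕ Fin r) (Fl := Unit) (hX i r')
          exact NCP.comap (κ := (ι ⊕ Fin k) ⊕ Fin r') inferInstance
            (Sum.map Sum.inl id) h2
    have h3 := ncp_csize inferInstance hF hH c
    refine (NCP.comap (κ := ι ⊕ Fin k) inferInstance
      (fun o : (ι ⊕ Fin k) ⊕ Fin r => match o with
        | Sum.inl j => j
        | Sum.inr j => Sum.inr (l j)) h3).congr fun n s x => ?_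
    simp only [Fm.eval]
    -- the relations with fixed parameters
    have key : ∀ (m : ℕ) (y : ι ⊕ Fin k → Fin n) (u : Fin r → Fin n),
        ((fun (R : ((ι ⊕ Fin k) ⊕ Fin r → Fin n) → Prop) (x : (ι ⊕ Fin k) ⊕ Fin r → Fin n) =>
          φ.eval (G n s) (push (lift (fun u : Fin r → Fin n =>
            R (Sum.elim (fun j => x (Sum.inl j)) u)))
            (X n s (fun j => x (Sum.inl (Sum.inl j)))))
          (Fin.append (fun j => x (Sum.inl (Sum.inr j))) (fun j => x (Sum.inr j))))^[m]
          (fun x => φ₀.eval (G n s) (X n s (fun j => x (Sum.inl (Sum.inl j))))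
            (Fin.append (fun j => x (Sum.inl (Sum.inr j))) (fun j => x (Sum.inr j)))))
          (Sum.elim y u) ↔
        ((fun (R : (Fin r → Fin n) → Prop) (u : Fin r → Fin n) =>
          φ.eval (G n s) (push (lift R) (X n s (fun j => y (Sum.inl j))))
            (Fin.append (fun j => y (Sum.inr j)) u))^[m]
          (fun u => φ₀.eval (G n s) (X n s (fun j => y (Sum.inl j)))
            (Fin.append (fun j => y (Sum.inr j)) u))) u := by
      intro m
      induction m with
      | zero => intro y u; exact Iff.rfl
      | succ m ihm =>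
        intro y u
        rw [Function.iterate_succ_apply', Function.iterate_succ_apply']
        simp only [Sum.elim_inl, Sum.elim_inr]
        have : (fun u : Fin r → Fin n => ((fun (R : ((ι ⊕ Fin k) ⊕ Fin r → Fin n) → Prop)
            (x : (ι ⊕ Fin k) ⊕ Fin r → Fin n) =>
          φ.eval (G n s) (push (lift (fun u : Fin r → Fin n =>
            R (Sum.elim (fun j => x (Sum.inl j)) u)))
            (X n s (fun j => x (Sum.inl (Sum.inl j)))))
          (Fin.append (fun j => x (Sum.inl (Sum.inr j))) (fun j => x (Sum.inr j))))^[m]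
          (fun x => φ₀.eval (G n s) (X n s (fun j => x (Sum.inl (Sum.inl j))))
            (Fin.append (fun j => x (Sum.inl (Sum.inr j))) (fun j => x (Sum.inr j)))))
          (Sum.elim y u)) = ((fun (R : (Fin r → Fin n) → Prop) (u : Fin r → Fin n) =>
          φ.eval (G n s) (push (lift R) (X n s (fun j => y (Sum.inl j))))
            (Fin.append (fun j => y (Sum.inr j)) u))^[m]
          (fun u => φ₀.eval (G n s) (X n s (fun j => y (Sum.inl j)))
            (Fin.append (fun j => y (Sum.inr j)) u))) := by
          funext u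
          exact propext (ihm y u)
        rw [this]
    have e : (fun o : (ι ⊕ Fin k) ⊕ Fin r => x (match o with
        | Sum.inl j => j
        | Sum.inr j => Sum.inr (l j))) = Sum.elim x (fun j => x (Sum.inr (l j))) := by
      funext o
      cases o <;> rfl
    rw [e, key]
    rfl

end Pool.Agent.PMNC.Br

namespace Pool.Agent.PMNC

/-- the logical form of NC is contained in NC -/
theorem InNC.circuits {P : ∀ n : ℕ, SimpleGraph (Fin n) → Prop} (h : InNC P) :
    Pool.Agent.UPM.InNC P := by
  obtain ⟨φ, hφ⟩ := h
  have h1 := Br.br φ Pool.Agent.UPM.GS Pool.Agent.UPM.GB Empty inferInstance (fun n G => G)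
    (fun n G _ => fun _ _ => False) (Pool.Agent.UPM.NCP.base inferInstance Pool.Agent.UPM.GB.adj)
    (fun i r => Pool.Agent.UPM.NCP.const inferInstance False)
  have h2 := Pool.Agent.UPM.NCP.comap (κ := Empty) inferInstance
    (fun o : Empty ⊕ Fin 0 => match o with
      | Sum.inl j => j
      | Sum.inr j => Fin.elim0 j) h1
  have h3 := Pool.Agent.UPM.inNC_of_NCP h2
  have e : P = fun n G => φ.eval G (fun _ _ => False)
      (fun j => (Empty.elim (Fin.elim0 j) : Fin n)) := by
    funext n G
    apply propext
    rw [hφ]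
    have : (Fin.elim0 : Fin 0 → Fin n) = fun j => (Empty.elim (Fin.elim0 j) : Fin n) :=
      funext fun j => Fin.elim0 j
    rw [this]
  rw [e]
  exact h3

end Pool.Agent.PMNC
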